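import Pool.Agent.P.MP_a14ce1_nt.IV.St

/-!
The local potential, the local plain step, its iteration and the last step: statements.
-/

open Finset

namespace Pool.Agent.P.MP_a14ce1_nt.Fu

open IV (Gr gn)

/-- f has gain at least v per unit of logarithmic length on [Y, Y exp M), against a function that
is structured on the grid of length exp M -/
def Pot (XX : Set (ℕ → ℂ)) (f : ℕ → ℂ) (Y M v : ℝ) : Prop := ∃ Ψ, Gr XX (Real.exp M) Ψ ∧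
  v * M ≤ ∑ n ∈ Ico ⌈Y⌉₊ ⌈Y * Real.exp M⌉₊, gn (f n) (Ψ n) / n

/-- f changes sign along the primes whose logarithm is outside [a, a U] -/
def Flip (f : ℕ → ℂ) (a U : ℝ) : Prop :=
  ∀ p : ℕ, p.Prime → (Real.log p < a ∨ a * U < Real.log p) → ∀ n, f (p * n) = -f n

/-- the local plain step -/
def S_Loc : Prop := ∀ A : Set (ℕ → ℂ), Ax.Sys A → ∃ C : ℝ, 0 < C ∧
  ∀ (f : ℕ → ℂ) (Y M a U σ ε v : ℝ), (∀ n, ‖f n‖ ≤ 1) → Flip f a U → a ≤ M → 1 ≤ U → 0 < ε →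
    ε ≤ 1 → 1 ≤ σ → 1 ≤ Y → C * U ^ 2 ≤ ε ^ 6 * Real.log σ → σ ^ 60 ≤ M → σ ^ 12 * M ≤ Real.log Y →
    Pot (Ax.hull A) f Y M v → ∃ Y' M' : ℝ, Y ≤ Y' ∧ Y' ≤ Y * Real.exp (3 * M * σ ^ 6) ∧
      M * σ ≤ M' ∧ Pot (Ax.hull A) f Y' M' (v - ε)

/-- the iteration, up to a length that is a fixed fraction of the logarithm of the position -/
def S_Iter : Prop := ∀ A : Set (ℕ → ℂ), Ax.Sys A → ∃ C : ℝ, 0 < C ∧
  ∀ (f : ℕ → ℂ) (Y M a U v r : ℝ), (∀ n, ‖f n‖ ≤ 1) → Flip f a U → a ≤ M → 1 ≤ U → 0 < v →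
    v ≤ 1 → 1 ≤ M → 1 ≤ r → 1 ≤ Y → C * U ^ 2 ≤ v ^ 6 * Real.log M → C * U ^ 2 ≤ v ^ 6 * Real.log r →
    Pot (Ax.hull A) f Y M v → ∃ Y' M' : ℝ, Y ≤ Y' ∧ Real.log Y' ≤ r * M' ∧
      Pot (Ax.hull A) f Y' M' (v / 2)

/-- the Liouville function times a function of the members of T dividing the argument -/
noncomputable def wl (T : Finset ℕ) (W : Finset ℕ → ℝ) (n : ℕ) : ℂ :=
  if n = 0 then 0 else ((W (T.filter fun p => p ∣ n) * Ch.lam n : ℝ) : ℂ)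

/-- the last step -/
def S_Fin : Prop := ∀ A : Set (ℤ → ℂ), Ax.Good A → ∀ (Z : ℕ) (v r : ℝ), 0 < v → 0 < r →
  ∃ Y0 : ℝ, ∀ (T : Finset ℕ) (W : Finset ℕ → ℝ) (Y M : ℝ), (∀ p ∈ T, p.Prime ∧ p ≤ Z) →
    (∀ S, |W S| ≤ 1) → Y0 ≤ Y → Real.log Y ≤ r * M → ¬ Pot (Ax.hull (Ax.res A)) (wl T W) Y M v

/-- sections 8 and 9 together: no local gain far out -/
def S_NoPot : Prop := ∀ A : Set (ℤ → ℂ), Ax.Good A → ∃ C : ℝ, 0 < C ∧
  ∀ (Z : ℕ) (v U : ℝ), 0 < v → v ≤ 1 → 1 ≤ U → ∃ Y0 : ℝ,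
    ∀ (T : Finset ℕ) (W : Finset ℕ → ℝ) (a Y M : ℝ),
      (∀ p ∈ T, p.Prime ∧ p ≤ Z ∧ a ≤ Real.log p ∧ Real.log p ≤ a * U) → (∀ S, |W S| ≤ 1) →
      a ≤ M → 1 ≤ M → C * U ^ 2 ≤ v ^ 6 * Real.log M → Y0 ≤ Y →
      ¬ Pot (Ax.hull (Ax.res A)) (wl T W) Y M v

theorem lam_mul {m n : ℕ} (hm : m ≠ 0) (hn : n ≠ 0) : Ch.lam (m * n) = Ch.lam m * Ch.lam n := by
  simp only [Ch.lam, ArithmeticFunction.cardFactors_mul hm hn, pow_add]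

theorem abs_lam (n : ℕ) : |Ch.lam n| = 1 := by simp [Ch.lam]

theorem norm_wl {T : Finset ℕ} {W : Finset ℕ → ℝ} (h : ∀ S, |W S| ≤ 1) (n : ℕ) :
    ‖wl T W n‖ ≤ 1 := by
  unfold wl
  split_ifs
  · simp
  · rw [Complex.norm_real, Real.norm_eq_abs, abs_mul, abs_lam, mul_one]
    exact h _

theorem wl_mul {T : Finset ℕ} (hT : ∀ q ∈ T, q.Prime) (W : Finset ℕ → ℝ) {p : ℕ} (hp : p.Prime)
    (h : p ∉ T) (n : ℕ) : wl T W (p * n) = -wl T W n := by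
  rcases eq_or_ne n 0 with rfl | hn
  · simp [wl]
  · have e : T.filter (fun q => q ∣ p * n) = T.filter fun q => q ∣ n := filter_congr fun q hq => by
      rw [(hT q hq).dvd_mul, Nat.prime_dvd_prime_iff_eq (hT q hq) hp]
      exact ⟨fun h' => h'.resolve_left fun e => h (e ▸ hq), Or.inr⟩
    have e2 : Ch.lam p = -1 := by simp [Ch.lam, ArithmeticFunction.cardFactors_apply_prime hp]
    rw [wl, wl, if_neg (mul_ne_zero hp.ne_zero hn), if_neg hn, e, lam_mul hp.ne_zero hn, e2]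
    push_cast
    ring

theorem noPot (hI : S_Iter) (hF : S_Fin) : S_NoPot := by
  intro A hA
  obtain ⟨C, hC, hI⟩ := hI _ hA.sys
  refine ⟨C, hC, fun Z v U hv hv1 hU => ?_⟩
  obtain ⟨Y0, hF⟩ := hF A hA Z (v / 2) (Real.exp (C * U ^ 2 / v ^ 6)) (by positivity)
    (Real.exp_pos _)
  refine ⟨max Y0 1, fun T W a Y M hT hW ha hM hl hY hP => ?_⟩
  obtain ⟨Y', M', h1, h2, h3⟩ := hI (wl T W) Y M a U v (Real.exp (C * U ^ 2 / v ^ 6)) (norm_wl hW)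
    (fun p hp h => wl_mul (fun q hq => (hT q hq).1) W hp fun h' => by
      rcases h with h | h <;> linarith [(hT p h').2.2.1, (hT p h').2.2.2])
    ha hU hv hv1 hM (Real.one_le_exp (by positivity)) (le_of_max_le_right hY) hl
    (by rw [Real.log_exp, mul_div_cancel₀ _ (by positivity)]) hP
  exact hF T W Y' M' (fun p hp => ⟨(hT p hp).1, (hT p hp).2.1⟩) hW
    ((le_of_max_le_left hY).trans h1) h2 h3

end Pool.Agent.P.MP_a14ce1_nt.Fu
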