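import Mathlib

/-!
# Abstract energy bookkeeping for section 3 (b), (c) and sections 4-5 of the all-scales proof

`B` is a symmetric nonnegative bilinear form (a weighted mean of `f * g`), `c i` a monotone family
of `B`-orthogonal projections (conditional means).
-/

open Finset

namespace Pool.Agent.P.MP_a14ce1_nt.Fu.Hb

variable {V : Type*} [AddCommGroup V] [Module ℝ V]

/-- symmetric nonnegative bilinear form -/
structure IsIP (B : V →ₗ[ℝ] V →ₗ[ℝ] ℝ) : Prop where
  symm : ∀ x y, B x y = B y x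
  pos : ∀ x, 0 ≤ B x x

/-- a monotone family of orthogonal projections (`i ≤ j`: `c j` knows more) -/
structure IsProj (B : V →ₗ[ℝ] V →ₗ[ℝ] ℝ) {ι : Type*} [Preorder ι] (c : ι → V → V) : Prop
    extends IsIP B where
  tower : ∀ i j, i ≤ j → ∀ x y, B (c i x) (c j y) = B (c i x) y

variable {B : V →ₗ[ℝ] V →ₗ[ℝ] ℝ}

theorem IsIP.sq_le (h : IsIP B) (x y : V) : (B x y) ^ 2 ≤ B x x * B y y := by
  have key : ∀ t : ℝ, 0 ≤ B y y * (t * t) + (2 * B x y) * t + B x x := by
    intro t
    have h1 := h.pos (x + t • y)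
    simp only [map_add, map_smul, LinearMap.add_apply, LinearMap.smul_apply, smul_eq_mul] at h1
    rw [h.symm y x] at h1
    nlinarith [h1]
  have h2 := discrim_le_zero key
  unfold discrim at h2
  nlinarith [h2]

/-- Cauchy-Schwarz -/
theorem IsIP.abs_le (h : IsIP B) (x y : V) : |B x y| ≤ √(B x x * B y y) :=
  Real.abs_le_sqrt (h.sq_le x y)

/-- Cauchy-Schwarz in AM-GM form -/
theorem IsIP.abs_le_amgm (h : IsIP B) (x y : V) {t : ℝ} (ht : 0 < t) :
    |B x y| ≤ (B x x / t + t * B y y) / 2 := by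
  have h1 := h.pos (x + t • y)
  have h2 := h.pos (x - t • y)
  simp only [map_add, map_sub, map_smul, LinearMap.add_apply, LinearMap.sub_apply,
    LinearMap.smul_apply, smul_eq_mul] at h1 h2
  rw [h.symm y x] at h1 h2
  have e : (B x x / t + t * B y y) / 2 = (B x x + t * t * B y y) / (2 * t) := by
    field_simp
  rw [e, _root_.abs_le]
  constructor
  · rw [neg_le, le_div_iff₀ (by positivity)]; nlinarith
  · rw [le_div_iff₀ (by positivity)]; nlinarith

/-- energy pigeonhole (sections 4-5): `y j` is a projection of `X` on an increasing family. -/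
theorem IsIP.incr_sum_le (h : IsIP B) (X : V) (y : ℕ → V) (S : ℕ)
    (hy : ∀ i j, i ≤ j → j ≤ S → B (X - y j) (y i) = 0) :
    ∑ j ∈ range S, B (y (j + 1) - y j) (y (j + 1) - y j) ≤ B X X := by
  have e1 : ∀ i j, i ≤ j → j ≤ S → B (y j) (y i) = B X (y i) := by
    intro i j hij hj
    have := hy i j hij hj
    simp only [map_sub, LinearMap.sub_apply] at this
    linarith
  have e2 : ∀ j ∈ range S, B (y (j + 1) - y j) (y (j + 1) - y j)
      = B (y (j + 1)) (y (j + 1)) - B (y j) (y j) := by
    intro j hj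
    have hj' := mem_range.1 hj
    simp only [map_sub, LinearMap.sub_apply]
    have a := e1 j (j + 1) (by omega) (by omega)
    have b := e1 j j le_rfl (by omega)
    rw [h.symm (y j) (y (j + 1))]
    linarith
  rw [sum_congr rfl e2, sum_range_sub (fun j => B (y j) (y j))]
  have a := e1 S S le_rfl le_rfl
  have b := h.pos (X - y S)
  simp only [map_sub, LinearMap.sub_apply] at b
  rw [h.symm (y S) X] at b
  have c0 := h.pos (y 0)
  linarith

/-- some step of the pigeonhole is small -/
theorem IsIP.exists_incr_le (h : IsIP B) (X : V) (y : ℕ → V) (S : ℕ) (hS : 0 < S)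
    (hy : ∀ i j, i ≤ j → j ≤ S → B (X - y j) (y i) = 0) :
    ∃ j < S, B (y (j + 1) - y j) (y (j + 1) - y j) ≤ B X X / S := by
  by_contra hc
  push Not at hc
  have h1 := h.incr_sum_le X y S hy
  have h2 : ∑ _j ∈ range S, B X X / S < ∑ j ∈ range S, B (y (j + 1) - y j) (y (j + 1) - y j) :=
    sum_lt_sum_of_nonempty ⟨0, mem_range.2 hS⟩ fun j hj => hc j (mem_range.1 hj)
  rw [sum_const, card_range, nsmul_eq_mul, mul_div_cancel₀ _ (by positivity)] at h2
  linarith

section proj
variable {ι : Type*} [Preorder ι] {c : ι → V → V}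

/-- energy of `f` seen by the information `i` -/
def en (B : V →ₗ[ℝ] V →ₗ[ℝ] ℝ) (c : ι → V → V) (f : V) (i : ι) : ℝ := B (c i f) (c i f)

theorem IsProj.adj (h : IsProj B c) (i : ι) (x y : V) : B (c i x) y = B x (c i y) := by
  rw [← h.tower i i le_rfl x y, h.symm (c i x), h.tower i i le_rfl, h.symm]

theorem IsProj.tower' (h : IsProj B c) {i j : ι} (hij : i ≤ j) (x y : V) :
    B (c j x) (c i y) = B x (c i y) := by
  rw [h.symm, h.tower i j hij, h.symm]

theorem IsProj.en_nonneg (h : IsProj B c) (f : V) (i : ι) : 0 ≤ en B c f i := h.pos _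

/-- Pythagoras -/
theorem IsProj.pyth (h : IsProj B c) (f : V) {i j : ι} (hij : i ≤ j) :
    B (c j f - c i f) (c j f - c i f) = en B c f j - en B c f i := by
  simp only [map_sub, LinearMap.sub_apply, en]
  have a := h.tower i j hij f f
  have b := h.tower i i le_rfl f f
  rw [h.symm (c j f) (c i f)]
  linarith

theorem IsProj.en_mono (h : IsProj B c) (f : V) {i j : ι} (hij : i ≤ j) :
    en B c f i ≤ en B c f j := by
  have := h.pyth f hij
  have := h.pos (c j f - c i f)
  linarith

theorem IsProj.en_le (h : IsProj B c) (f : V) (i : ι) : en B c f i ≤ B f f := by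
  have a := h.pos (f - c i f)
  simp only [map_sub, LinearMap.sub_apply] at a
  have b := h.tower i i le_rfl f f
  rw [h.symm f (c i f)] at a
  unfold en
  linarith

/-- an increment from `j` to `j'` is orthogonal to everything seen by `i ≤ j` -/
theorem IsProj.orth (h : IsProj B c) {i j j' : ι} (hij : i ≤ j) (hjj : j ≤ j') (x y : V) :
    B (c j' x - c j x) (c i y) = 0 := by
  simp only [map_sub, LinearMap.sub_apply]
  rw [h.tower' (hij.trans hjj), h.tower' hij, sub_self]

/-- nesting: disjoint energy intervals `[L w, U w]` below `T` (section 3 (b), sum over `w`). -/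
theorem IsProj.nest (h : IsProj B c) (f : V) (L U : ℕ → ι) (T : ι) (W : ℕ)
    (hLU : ∀ w < W, L w ≤ U w) (hUL : ∀ w, w + 1 < W → U w ≤ L (w + 1))
    (hT : ∀ w < W, U w ≤ T) :
    ∑ w ∈ range W, (en B c f (U w) - en B c f (L w)) ≤ en B c f T := by
  have key : ∀ n, n < W → ∑ w ∈ range (n + 1), (en B c f (U w) - en B c f (L w))
      ≤ en B c f (U n) := by
    intro n
    induction n with
    | zero => intro _; simpa using h.en_nonneg f (L 0)
    | succ n ih =>
      intro hn
      rw [sum_range_succ]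
      have a := ih (by omega)
      have b := h.en_mono f (hUL n hn)
      linarith
  have _ := hLU
  rcases Nat.eq_zero_or_pos W with rfl | hW
  · simpa using h.en_nonneg f T
  · obtain ⟨n, rfl⟩ : ∃ n, W = n + 1 := ⟨W - 1, by omega⟩
    exact (key n (by omega)).trans (h.en_mono f (hT n (by omega)))

/-- martingale differences along a DEcreasing chain `S 0 ≥ S 1 ≥ ..` (index `t` is the doc's
`t + 1`): `P'' t = c (S t) P - c (S (t+1)) P`. -/
def dif (c : ι → V → V) (S : ℕ → ι) (P : V) (t : ℕ) : V := c (S t) P - c (S (t + 1)) P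

omit [Preorder ι] in
/-- section 3 (b): `E f P = ∑ E f P''`. -/
theorem split (f P : V) (S : ℕ → ι) (m : ℕ)
    (h0 : B f P = B f (c (S 0) P)) (hm : B f (c (S m) P) = 0) :
    B f P = ∑ t ∈ range m, B f (dif c S P t) := by
  simp only [dif, map_sub]
  rw [sum_range_sub' (fun t => B f (c (S t) P)), hm, sub_zero, h0]

/-- section 3 (b): `∑ E P''² ≤ E P²`. -/
theorem IsProj.dif_sq (h : IsProj B c) (P : V) (S : ℕ → ι) (m : ℕ)
    (hS : ∀ t < m, S (t + 1) ≤ S t) :
    ∑ t ∈ range m, B (dif c S P t) (dif c S P t) ≤ B P P := by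
  have e : ∀ t ∈ range m, B (dif c S P t) (dif c S P t)
      = en B c P (S t) - en B c P (S (t + 1)) := fun t ht => h.pyth P (hS t (mem_range.1 ht))
  rw [sum_congr rfl e, sum_range_sub' (fun t => en B c P (S t))]
  have := h.en_le P (S 0)
  have := h.en_nonneg P (S m)
  linarith

/-- an increment `c j P - c i P` is invisible to `i' ≤ i` -/
theorem IsProj.inc_lo (h : IsProj B c) {i' i j : ι} (hi : i' ≤ i) (hij : i ≤ j) (f P : V) :
    B (c i' f) (c j P - c i P) = 0 := by
  rw [h.symm]; exact h.orth hi hij P f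

/-- an increment `c j P - c i P` is fully seen by `j' ≥ j` -/
theorem IsProj.inc_hi (h : IsProj B c) {i j j' : ι} (hij : i ≤ j) (hj : j ≤ j') (f P : V) :
    B f (c j P - c i P) = B (c j' f) (c j P - c i P) := by
  simp only [map_sub]
  rw [h.tower' hj, h.tower' (hij.trans hj)]

/-- section 3 (b): `|E f P''| ≤ √(a β)` with `a = en U - en L` for `L ≤ i ≤ j ≤ U`. -/
theorem IsProj.inc_le (h : IsProj B c) {L i j U : ι} (hL : L ≤ i) (hij : i ≤ j) (hU : j ≤ U)
    (f P : V) :
    |B f (c j P - c i P)|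
      ≤ √((en B c f U - en B c f L) * B (c j P - c i P) (c j P - c i P)) := by
  have a := h.inc_hi hij hU f P
  have b := h.inc_lo hL hij f P
  have e : B f (c j P - c i P) = B (c U f - c L f) (c j P - c i P) := by
    rw [map_sub B, LinearMap.sub_apply, b, sub_zero, a]
  rw [e, ← h.pyth f (hL.trans (hij.trans hU))]
  exact h.toIsIP.abs_le _ _

theorem IsProj.chain_le (D D' : ℕ → ι) (J : ℕ) (hD : ∀ s < J, D s ≤ D' s)
    (hD' : ∀ s < J, D' s ≤ D (s + 1)) : ∀ a b, a ≤ b → b ≤ J → D a ≤ D b := by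
  intro a b hab
  induction b, hab using Nat.le_induction with
  | base => intro _; exact le_rfl
  | succ b hab ih =>
    intro hb
    exact (ih (by omega)).trans ((hD b (by omega)).trans (hD' b (by omega)))

/-- norm of the sum of the unlocking increments -/
theorem IsProj.unlock_sq (h : IsProj B c) (f : V) (D D' : ℕ → ι) (J : ℕ)
    (hD : ∀ s < J, D s ≤ D' s) (hD' : ∀ s < J, D' s ≤ D (s + 1)) :
    B (∑ s ∈ range J, (c (D (s + 1)) f - c (D' s) f))
        (∑ s ∈ range J, (c (D (s + 1)) f - c (D' s) f))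
      = ∑ s ∈ range J, (en B c f (D (s + 1)) - en B c f (D' s)) := by
  induction J with
  | zero => simp
  | succ J ih =>
    have ih' := ih (fun s hs => hD s (by omega)) (fun s hs => hD' s (by omega))
    have ch := IsProj.chain_le D D' (J + 1) hD hD'
    have o : B (c (D (J + 1)) f - c (D' J) f)
        (∑ s ∈ range J, (c (D (s + 1)) f - c (D' s) f)) = 0 := by
      rw [map_sum]
      refine sum_eq_zero fun s hs => ?_
      have hs' := mem_range.1 hs
      have a1 : D (s + 1) ≤ D' J := (ch (s + 1) J (by omega) (by omega)).trans (hD J (by omega))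
      rw [map_sub, h.orth a1 (hD' J (by omega)),
        h.orth ((hD' s (by omega)).trans a1) (hD' J (by omega)), sub_self]
    rw [sum_range_succ, sum_range_succ, map_add B, LinearMap.add_apply, map_add, map_add, ih', o,
      h.symm (∑ s ∈ range J, _), o, h.pyth f (hD' J (by omega))]
    ring

/-- `e ≤ a`: the unlocking energy is at most the total energy increment -/
theorem IsProj.unlock_le (h : IsProj B c) (f : V) (D D' : ℕ → ι) (J : ℕ)
    (hD : ∀ s < J, D s ≤ D' s) :
    ∑ s ∈ range J, (en B c f (D (s + 1)) - en B c f (D' s))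
      ≤ en B c f (D J) - en B c f (D 0) := by
  rw [← sum_range_sub (fun s => en B c f (D s))]
  exact sum_le_sum fun s hs => by
    have := h.en_mono f (hD s (mem_range.1 hs)); linarith

/-- STAGE split (section 3 (c)): pinning terms plus an unlocking term. -/
theorem IsProj.stage (h : IsProj B c) (f P : V) (D D' : ℕ → ι) (J : ℕ)
    (hD : ∀ s < J, D s ≤ D' s) (hD' : ∀ s < J, D' s ≤ D (s + 1))
    (h0 : B (c (D 0) f) P = 0) (hJ : B f P = B (c (D J) f) P) :
    |B f P - ∑ s ∈ range J, B (c (D' s) f - c (D s) f) P|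
      ≤ √((∑ s ∈ range J, (en B c f (D (s + 1)) - en B c f (D' s))) * B P P) := by
  rw [← h.unlock_sq f D D' J hD hD']
  refine le_trans (le_of_eq ?_) (h.toIsIP.abs_le _ P)
  congr 1
  have t := sum_range_sub (fun s => B (c (D s) f) P) J
  simp only [map_sum, map_sub, LinearMap.sum_apply, LinearMap.sub_apply, sum_sub_distrib] at t ⊢
  linarith

end proj

/-- weighted Cauchy-Schwarz for `∑ τ √(a β)` -/
theorem sum_sqrt_le {κ : Type*} (s : Finset κ) (τ a b : κ → ℝ) (hτ : ∀ i ∈ s, 0 ≤ τ i)
    (ha : ∀ i ∈ s, 0 ≤ a i) (hb : ∀ i ∈ s, 0 ≤ b i) :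
    ∑ i ∈ s, τ i * √(a i * b i) ≤ √((∑ i ∈ s, τ i * a i) * ∑ i ∈ s, τ i * b i) := by
  apply Real.le_sqrt_of_sq_le
  have := sum_sq_le_sum_mul_sum_of_sq_le_mul s (r := fun i => τ i * √(a i * b i))
    (f := fun i => τ i * a i) (g := fun i => τ i * b i)
    (fun i hi => mul_nonneg (hτ i hi) (ha i hi)) (fun i hi => mul_nonneg (hτ i hi) (hb i hi))
    (fun i hi => by
      rw [mul_pow, Real.sq_sqrt (mul_nonneg (ha i hi) (hb i hi))]
      exact le_of_eq (by ring))
  exact this

/-- the weighted mean of a product as a bilinear form -/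
noncomputable def wB {Ω : Type*} (s : Finset Ω) (μ : Ω → ℝ) :
    (Ω → ℝ) →ₗ[ℝ] (Ω → ℝ) →ₗ[ℝ] ℝ :=
  LinearMap.mk₂ ℝ (fun f g => ∑ ω ∈ s, μ ω * (f ω * g ω))
    (fun f f' g => by simp only [Pi.add_apply, add_mul, mul_add, sum_add_distrib])
    (fun t f g => by
      simp only [Pi.smul_apply, smul_eq_mul, mul_sum]; exact sum_congr rfl fun _ _ => by ring)
    (fun f g g' => by simp only [Pi.add_apply, mul_add, sum_add_distrib])
    (fun t f g => by
      simp only [Pi.smul_apply, smul_eq_mul, mul_sum]; exact sum_congr rfl fun _ _ => by ring)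

theorem wB_apply {Ω : Type*} (s : Finset Ω) (μ f g : Ω → ℝ) :
    wB s μ f g = ∑ ω ∈ s, μ ω * (f ω * g ω) := rfl

theorem wB_ip {Ω : Type*} (s : Finset Ω) (μ : Ω → ℝ) (hμ : ∀ ω ∈ s, 0 ≤ μ ω) :
    IsIP (wB s μ) where
  symm f g := by simp only [wB_apply, mul_comm (f _)]
  pos f := sum_nonneg fun ω hω => mul_nonneg (hμ ω hω) (mul_self_nonneg _)

/-- role-by-role replacement in a product (`b` before the role, `a` after it) -/
theorem prod_sub_prod_roles (k : ℕ) (a b : ℕ → ℝ) :
    ∏ i ∈ range k, a i - ∏ i ∈ range k, b i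
      = ∑ i ∈ range k, (∏ j ∈ range i, b j) * (a i - b i) * ∏ j ∈ Ico (i + 1) k, a j := by
  induction k with
  | zero => simp
  | succ k ih =>
    rw [sum_range_succ, prod_range_succ, prod_range_succ, Ico_self, prod_empty]
    have e : ∑ i ∈ range k, (∏ j ∈ range i, b j) * (a i - b i) * ∏ j ∈ Ico (i + 1) (k + 1), a j
        = (∑ i ∈ range k, (∏ j ∈ range i, b j) * (a i - b i) * ∏ j ∈ Ico (i + 1) k, a j) * a k := by
      rw [sum_mul]
      refine sum_congr rfl fun i hi => ?_
      rw [prod_Ico_succ_top (by have := mem_range.1 hi; omega)]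
      ring
    rw [e, ← ih]
    ring

end Pool.Agent.P.MP_a14ce1_nt.Fu.Hb
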