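import Pool.Agent.P.MP_a14ce1_nt.Fu.Info
import Pool.Agent.P.MP_a14ce1_nt.Fu.Hilb

/-!
Section 3 (b), (c) and the energy pigeonhole of sections 4-5 for informations on a finite uniform
space: martingale split, nesting, the STAGE inequality (pinning entropy + unlocking energy).
-/

open Finset

namespace Pool.Agent.P.MP_a14ce1_nt.Fu

variable {Ω : Type} [Fintype Ω]

/-- the mean of a product with a weight, as a bilinear form -/
noncomputable def exB (v : Ω → ℝ) : (Ω → ℝ) →ₗ[ℝ] (Ω → ℝ) →ₗ[ℝ] ℝ :=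
  Hb.wB univ fun x => v x / Fintype.card Ω

theorem exB_apply (v f g : Ω → ℝ) : exB v f g = ex fun x => v x * (f x * g x) := by
  rw [exB, Hb.wB_apply, ex, sum_div]
  exact sum_congr rfl fun x _ => by ring

theorem exB_ip {v : Ω → ℝ} (hv : ∀ x, 0 ≤ v x) : Hb.IsIP (exB v) :=
  Hb.wB_ip _ _ fun x _ => div_nonneg (hv x) (Nat.cast_nonneg _)

theorem exB_one (f g : Ω → ℝ) : exB (fun _ => 1) f g = ex fun x => f x * g x := by
  simp only [exB_apply, one_mul]

/-- conditional means indexed so that more information is larger -/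
noncomputable def ceD (D : (Setoid Ω)ᵒᵈ) (g : Ω → ℝ) : Ω → ℝ := ce (OrderDual.ofDual D) g

theorem ce_proj : Hb.IsProj (exB (Ω := Ω) fun _ => 1) ceD where
  toIsIP := exB_ip fun _ => zero_le_one
  tower i j hij x y := by
    rw [exB_one, exB_one]
    exact ex_mul_ce ((ms_ce _ x).mono (OrderDual.ofDual_le_ofDual.2 hij)) y

theorem en_hb (D : Setoid Ω) (f : Ω → ℝ) :
    Hb.en (exB fun _ => 1) ceD f (OrderDual.toDual D) = en D f := by
  rw [Hb.en, exB_one, en]
  exact ex_congr fun x => (sq _).symm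

theorem sqrt_mul_le_amgm {e β t : ℝ} (he : 0 ≤ e) (hβ : 0 ≤ β) (ht : 0 < t) :
    √(e * β) ≤ (e / t + t * β) / 2 := by
  rw [Real.sqrt_le_left (by positivity)]
  have h : ((e / t + t * β) / 2) ^ 2 - e * β = ((e / t - t * β) / 2) ^ 2 := by
    field_simp; ring
  nlinarith [sq_nonneg ((e / t - t * β) / 2)]

/-! ### (b) martingale split, trivial bound, nesting -/

/-- the increment of `P` between a coarser information `D` and a finer one `D'` -/
noncomputable def inc (D' D : Setoid Ω) (P : Ω → ℝ) (x : Ω) : ℝ := ce D' P x - ce D P x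

theorem ms_inc {D' D : Setoid Ω} (h : D' ≤ D) (P : Ω → ℝ) : Ms D' (inc D' D P) :=
  (ms_ce D' P).comp₂ ((ms_ce D P).mono h) fun s t => s - t

theorem ce_inc {D' D : Setoid Ω} (h : D' ≤ D) (P : Ω → ℝ) (x : Ω) : ce D (inc D' D P) x = 0 := by
  have := ce_sub D (ce D' P) (ce D P) x
  rw [ce_ce h, ce_ce le_rfl, sub_self] at this
  exact this

theorem abs_inc_le (D' D : Setoid Ω) {P : Ω → ℝ} {b : ℝ} (hP : ∀ x, |P x| ≤ b) (x : Ω) :
    |inc D' D P x| ≤ 2 * b := by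
  have h1 := abs_ce_le (D := D') hP x
  have h2 := abs_ce_le (D := D) hP x
  exact (abs_sub _ _).trans (by linarith)

/-- `E f P = ∑ E f P''` along a chain of coarser and coarser informations -/
theorem split_ex (S : ℕ → Setoid Ω) (m : ℕ) {f P : Ω → ℝ} (hP : Ms (S 0) P)
    (hf : ∀ x, ce (S m) f x = 0) :
    ex (fun x => f x * P x) = ∑ t ∈ range m, ex fun x => f x * inc (S t) (S (t + 1)) P x := by
  have h := Hb.split (B := exB fun _ => 1) (c := ceD) f P (fun t => OrderDual.toDual (S t)) m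
    (by rw [exB_one, exB_one]; exact ex_congr fun x => congrArg _ (ce_of_ms hP x).symm)
    (by
      rw [exB_one]
      have := ex_ce_mul (S m) f P
      simp only [hf, zero_mul, ex_zero] at this
      exact this.symm)
  simp only [exB_one] at h
  exact h

/-- `∑ E P''² ≤ E P²` -/
theorem split_sq (S : ℕ → Setoid Ω) (m : ℕ) (hS : ∀ t < m, S t ≤ S (t + 1)) (P : Ω → ℝ) :
    ∑ t ∈ range m, ex (fun x => inc (S t) (S (t + 1)) P x ^ 2) ≤ ex fun x => P x ^ 2 := by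
  have e : ∀ t ∈ range m, ex (fun x => inc (S t) (S (t + 1)) P x ^ 2)
      = en (S t) P - en (S (t + 1)) P := fun t ht => (en_sub (hS t (mem_range.1 ht)) P).symm
  rw [sum_congr rfl e, sum_range_sub' (fun t => en (S t) P)]
  have := en_le (S 0) P
  have := en_nonneg (S m) P
  linarith

/-- the trivial bound `|E f g| ≤ √(a β)` when `g` is known from `U` and invisible from `L` -/
theorem triv_le {U L : Setoid Ω} (h : U ≤ L) (f : Ω → ℝ) {g : Ω → ℝ} (hg : Ms U g)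
    (h0 : ∀ x, ce L g x = 0) :
    |ex fun x => f x * g x| ≤ √((en U f - en L f) * ex fun x => g x ^ 2) := by
  rw [ex_mul_incr f g hg h0, en_sub h]
  exact Real.abs_le_sqrt (ex_mul_sq_le _ _)

/-- the trivial bound for an increment: `U ≤ D' ≤ D` -/
theorem inc_triv {U D' D : Setoid Ω} (hU : U ≤ D') (h : D' ≤ D) (f P : Ω → ℝ) :
    |ex fun x => f x * inc D' D P x|
      ≤ √((en U f - en D f) * ex fun x => inc D' D P x ^ 2) :=
  triv_le (hU.trans h) f ((ms_inc h P).mono hU) (ce_inc h P)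

theorem inc_triv' {U D' D : Setoid Ω} (hU : U ≤ D') (h : D' ≤ D) (f P : Ω → ℝ) {t : ℝ}
    (ht : 0 < t) :
    |ex fun x => f x * inc D' D P x|
      ≤ ((en U f - en D f) / t + t * ex fun x => inc D' D P x ^ 2) / 2 :=
  (inc_triv hU h f P).trans (sqrt_mul_le_amgm (sub_nonneg.2 (en_mono (hU.trans h) f))
    (ex_nonneg fun _ => sq_nonneg _) ht)

/-- nesting in `w`: the energy intervals `[en (L w), en (U w)]` are disjoint and below `en T` -/
theorem nest_en (f : Ω → ℝ) (L U : ℕ → Setoid Ω) (T : Setoid Ω) (W : ℕ)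
    (hUL : ∀ w, w + 1 < W → L (w + 1) ≤ U w) (hT : ∀ w < W, T ≤ U w) :
    ∑ w ∈ range W, (en (U w) f - en (L w) f) ≤ en T f := by
  have key : ∀ n, n < W → ∑ w ∈ range (n + 1), (en (U w) f - en (L w) f) ≤ en (U n) f := by
    intro n
    induction n with
    | zero => intro _; simpa using en_nonneg (L 0) f
    | succ n ih =>
      intro hn
      rw [sum_range_succ]
      have a := ih (by omega)
      have b := en_mono (hUL n hn) f
      linarith
  rcases Nat.eq_zero_or_pos W with rfl | hW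
  · simpa using en_nonneg T f
  · obtain ⟨n, rfl⟩ : ∃ n, W = n + 1 := ⟨W - 1, by omega⟩
    exact (key n (by omega)).trans (en_mono (hT n (by omega)) f)

/-! ### (c) the stage -/

omit [Fintype Ω] in
theorem chain_anti {D D' : ℕ → Setoid Ω} {J : ℕ} (hD : ∀ s < J, D' s ≤ D s)
    (hD' : ∀ s < J, D (s + 1) ≤ D' s) {a b : ℕ} (hab : a ≤ b) (hb : b ≤ J) : D b ≤ D a :=
  Hb.IsProj.chain_le (ι := (Setoid Ω)ᵒᵈ) (fun s => OrderDual.toDual (D s))
    (fun s => OrderDual.toDual (D' s)) J hD hD' a b hab hb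

/-- one pinning term -/
theorem pin_le {D D' L : Setoid Ω} (h : D' ≤ D) {f g : Ω → ℝ} {a b θ : ℝ}
    (hf : ∀ x, |f x| ≤ a) (hg : ∀ x, |g x| ≤ b) (hL : Ms (D ⊓ L) g) (hθ : 0 < θ)
    (h1 : θ * (2 * a) * (2 * b) ≤ 1) :
    |ex fun x => inc D' D f x * g x| ≤ (cH L D - cH L D') / θ + 16 * θ * a ^ 2 * b ^ 2 := by
  have z : ex (fun x => inc D' D f x * ce D g x) = 0 := by
    rw [← ex_ce_mul]
    simp only [ce_inc h, zero_mul, ex_zero]
  have e : ex (fun x => inc D' D f x * (g x - ce D g x)) = ex fun x => inc D' D f x * g x := by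
    simp only [mul_sub]
    rw [ex_sub, z, sub_zero]
  have p := dv (L := L) h (ms_inc h f) hL (abs_inc_le D' D hf) hg hθ h1
  have q := dv (L := L) h ((ms_inc h f).comp fun t => -t) hL
    (fun x => (abs_neg _).le.trans (abs_inc_le D' D hf x)) hg hθ h1
  simp only [neg_mul] at q
  rw [ex_neg, e] at q
  rw [e] at p
  rw [abs_le]
  constructor <;> nlinarith

/-- STAGE: `D 0 ≥ D' 0 ≥ D 1 ≥ .. ≥ D J` (finer and finer); `g` is invisible from `D 0`, known from
`D J` and known from `D 0 ⊓ L`. -/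
theorem stage {D D' : ℕ → Setoid Ω} {L : Setoid Ω} {J : ℕ} (hD : ∀ s < J, D' s ≤ D s)
    (hD' : ∀ s < J, D (s + 1) ≤ D' s) {f g : Ω → ℝ} {a b θ : ℝ}
    (hf : ∀ x, |f x| ≤ a) (hg : ∀ x, |g x| ≤ b) (h0 : ∀ x, ce (D 0) g x = 0) (hJ : Ms (D J) g)
    (hL : Ms (D 0 ⊓ L) g) (hθ : 0 < θ) (h1 : θ * (2 * a) * (2 * b) ≤ 1) :
    |ex fun x => f x * g x| ≤ (∑ s ∈ range J, (cH L (D s) - cH L (D' s))) / θ
      + J * (16 * θ * a ^ 2 * b ^ 2)
      + √((∑ s ∈ range J, (en (D (s + 1)) f - en (D' s) f)) * ex fun x => g x ^ 2) := by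
  have h := ce_proj.stage f g (fun s => OrderDual.toDual (D s)) (fun s => OrderDual.toDual (D' s))
    J hD hD'
    (by
      rw [exB_one]
      refine (ex_ce_mul (D 0) f g).trans ?_
      simp only [h0, mul_zero, ex_zero])
    (by
      rw [exB_one, exB_one]
      refine Eq.trans ?_ (ex_ce_mul (D J) f g).symm
      exact ex_congr fun x => by rw [ce_of_ms hJ])
  simp only [exB_one, en_hb, ← sq] at h
  have p : |∑ s ∈ range J, ex fun x => inc (D' s) (D s) f x * g x|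
      ≤ ∑ s ∈ range J, ((cH L (D s) - cH L (D' s)) / θ + 16 * θ * a ^ 2 * b ^ 2) :=
    (abs_sum_le_sum_abs _ _).trans (sum_le_sum fun s hs => pin_le (hD s (mem_range.1 hs)) hf hg
      (hL.mono (inf_le_inf_right L
        (chain_anti hD hD' (Nat.zero_le s) (mem_range.1 hs).le))) hθ h1)
  rw [sum_add_distrib, sum_const, card_range, nsmul_eq_mul, ← sum_div] at p
  have t := abs_add_le (∑ s ∈ range J, ex fun x => inc (D' s) (D s) f x * g x)
    ((ex fun x => f x * g x) - ∑ s ∈ range J, ex fun x => inc (D' s) (D s) f x * g x)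
  rw [add_sub_cancel] at t
  exact t.trans (add_le_add p h)

/-- the unlocking energy is at most the total increment -/
theorem unlock_le {D D' : ℕ → Setoid Ω} {J : ℕ} (hD : ∀ s < J, D' s ≤ D s) (f : Ω → ℝ) :
    ∑ s ∈ range J, (en (D (s + 1)) f - en (D' s) f) ≤ en (D J) f - en (D 0) f := by
  rw [← sum_range_sub (fun s => en (D s) f)]
  exact sum_le_sum fun s hs => by
    have := en_mono (hD s (mem_range.1 hs)) f; linarith

section sites

variable {σ A : Type*} [DecidableEq σ] (Dt : Ω → σ → A)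

/-- STAGE on site sets.  `S` = `S_t`, `S'` = `S_(t-1)`, `l` = the pinned sites,
`W s` = `WW_(s+1)(KK)` for `s ≤ J`, `W' s` = `WW_(s+2)(KK + q)` for `s < J`. -/
theorem stage_sig {S S' l : Finset σ} {W W' : ℕ → Finset σ} {J : ℕ}
    (hSS : S ⊆ S') (hl : S' ⊆ S ∪ l) (hW0 : W 0 ⊆ S) (hWJ : S' ⊆ S ∪ W J)
    (hW : ∀ s < J, W s ⊆ W (s + 1)) (hW' : ∀ s < J, W' s ⊆ W (s + 1))
    {f P : Ω → ℝ} {a b θ t : ℝ} (hf : ∀ x, |f x| ≤ a) (hP : ∀ x, |P x| ≤ b) (hθ : 0 < θ)
    (h1 : 8 * θ * a * b ≤ 1) (ht : 0 < t) :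
    |ex fun x => f x * inc (sig Dt S') (sig Dt S) P x|
      ≤ (∑ s ∈ range J, (cH (sig Dt l) (sig Dt (S ∪ W s))
          - cH (sig Dt l) (sig Dt (S ∪ W s ∪ W' s)))) / θ
        + J * (64 * θ * a ^ 2 * b ^ 2)
        + ((∑ s ∈ range J, (en (sig Dt (S ∪ W (s + 1))) f - en (sig Dt (S ∪ W' s)) f)) / t
          + t * ex fun x => inc (sig Dt S') (sig Dt S) P x ^ 2) / 2 := by
  have e0 : S ∪ W 0 = S := union_eq_left.2 hW0
  have hle := sig_anti Dt hSS
  have hD' : ∀ s < J, sig Dt (S ∪ W (s + 1)) ≤ sig Dt (S ∪ W s ∪ W' s) := fun s hs =>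
    sig_anti Dt (union_subset (union_subset_union_right (hW s hs))
      ((hW' s hs).trans subset_union_right))
  have h := stage (D := fun s => sig Dt (S ∪ W s)) (D' := fun s => sig Dt (S ∪ W s ∪ W' s))
    (L := sig Dt l) (J := J) (fun s _ => sig_anti Dt subset_union_left) hD'
    (g := inc (sig Dt S') (sig Dt S) P) (b := 2 * b) hf (abs_inc_le _ _ hP)
    (by simp only [e0]; exact ce_inc hle P) ((ms_inc hle P).mono (sig_anti Dt hWJ))
    (by simp only [e0]; rw [← sig_union]; exact (ms_inc hle P).mono (sig_anti Dt hl)) hθ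
    (by nlinarith)
  refine h.trans (add_le_add (le_of_eq (by ring)) ?_)
  have hβ : 0 ≤ ex fun x => inc (sig Dt S') (sig Dt S) P x ^ 2 := ex_nonneg fun _ => sq_nonneg _
  have he : ∑ s ∈ range J, (en (sig Dt (S ∪ W (s + 1))) f - en (sig Dt (S ∪ W s ∪ W' s)) f)
      ≤ ∑ s ∈ range J, (en (sig Dt (S ∪ W (s + 1))) f - en (sig Dt (S ∪ W' s)) f) :=
    sum_le_sum fun s _ => sub_le_sub_left (en_mono (sig_anti Dt
      (union_subset_union_left subset_union_left)) f) _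
  have h0 : 0 ≤ ∑ s ∈ range J,
      (en (sig Dt (S ∪ W (s + 1))) f - en (sig Dt (S ∪ W s ∪ W' s)) f) :=
    sum_nonneg fun s hs => sub_nonneg.2 (en_mono (hD' s (mem_range.1 hs)) f)
  refine (sqrt_mul_le_amgm h0 hβ ht).trans ?_
  gcongr

end sites

/-! ### weighted predictors and the pigeonhole of sections 4-5 -/

/-- the predictor `y = ce (ζ X) / ce ζ` -/
noncomputable def yr (D : Setoid Ω) (ζ X : Ω → ℝ) (x : Ω) : ℝ :=
  ce D (fun y => ζ y * X y) x / ce D ζ x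

theorem ms_yr (D : Setoid Ω) (ζ X : Ω → ℝ) : Ms D (yr D ζ X) :=
  (ms_ce D _).comp₂ (ms_ce D ζ) fun s t => s / t

theorem abs_ce_mul_le (D : Setoid Ω) {ζ X : Ω → ℝ} {b : ℝ} (hζ : ∀ x, 0 ≤ ζ x)
    (hX : ∀ x, |X x| ≤ b) (x : Ω) : |ce D (fun y => ζ y * X y) x| ≤ b * ce D ζ x := by
  rw [← ce_smul]
  refine (abs_ce_le_ce D _ x).trans (ce_mono fun y _ => ?_)
  rw [abs_mul, abs_of_nonneg (hζ y), mul_comm]
  exact mul_le_mul_of_nonneg_right (hX y) (hζ y)

theorem abs_yr_le (D : Setoid Ω) {ζ X : Ω → ℝ} {b : ℝ} (hζ : ∀ x, 0 ≤ ζ x)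
    (hX : ∀ x, |X x| ≤ b) (x : Ω) : |yr D ζ X x| ≤ b := by
  have h := abs_ce_mul_le D hζ hX x
  have h0 := ce_nonneg (D := D) hζ x
  rw [yr, abs_div, abs_of_nonneg h0]
  rcases h0.eq_or_lt with h0 | h0
  · rw [← h0, div_zero]; exact (abs_nonneg _).trans (hX x)
  · rwa [div_le_iff₀ h0]

/-- `ce (ζ (X - y)) = 0` -/
theorem ce_yr (D : Setoid Ω) {ζ X : Ω → ℝ} {b : ℝ} (hζ : ∀ x, 0 ≤ ζ x)
    (hX : ∀ x, |X x| ≤ b) (x : Ω) : ce D (fun y => ζ y * (X y - yr D ζ X y)) x = 0 := by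
  have e : (fun y => ζ y * (X y - yr D ζ X y)) = fun y => ζ y * X y - yr D ζ X y * ζ y :=
    funext fun y => by ring
  rw [e, ce_sub, ce_mul (ms_yr D ζ X), yr]
  rcases (ce_nonneg (D := D) hζ x).eq_or_lt with h0 | h0
  · have h := abs_ce_mul_le D hζ hX x
    rw [← h0, mul_zero] at h ⊢
    rw [abs_nonpos_iff.1 h, sub_zero]
  · rw [div_mul_cancel₀ _ h0.ne', sub_self]

/-- `E u ζ (X - y) = 0` for `u` known from `D` -/
theorem ex_yr {D : Setoid Ω} {ζ X u : Ω → ℝ} {b : ℝ} (hζ : ∀ x, 0 ≤ ζ x)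
    (hX : ∀ x, |X x| ≤ b) (hu : Ms D u) :
    ex (fun x => u x * (ζ x * (X x - yr D ζ X x))) = 0 := by
  rw [← ex_mul_ce hu]
  simp only [ce_yr D hζ hX, mul_zero, ex_zero]

/-- energy pigeonhole with one common weight `V = v j * ζ j`, `v j` known from `H j` -/
theorem pig_yr (H : ℕ → Setoid Ω) (S : ℕ) (hH : ∀ j < S, H (j + 1) ≤ H j) {V X : Ω → ℝ}
    {v ζ : ℕ → Ω → ℝ} {b : ℝ} (hV0 : ∀ x, 0 ≤ V x) (hV : ∀ j ≤ S, ∀ x, V x = v j x * ζ j x)
    (hv : ∀ j ≤ S, Ms (H j) (v j)) (hζ : ∀ j ≤ S, ∀ x, 0 ≤ ζ j x) (hX : ∀ x, |X x| ≤ b) :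
    ∑ j ∈ range S, ex (fun x => V x *
        (yr (H (j + 1)) (ζ (j + 1)) X x - yr (H j) (ζ j) X x) ^ 2)
      ≤ ex fun x => V x * X x ^ 2 := by
  have h := (exB_ip hV0).incr_sum_le X (fun j => yr (H j) (ζ j) X) S fun i j hij hj => by
    have hle : H j ≤ H i := chain_anti (D := H) (D' := H) (fun _ _ => le_rfl) hH hij hj
    rw [exB_apply, ← ex_yr (hζ j hj) hX
      ((hv j hj).comp₂ ((ms_yr (H i) (ζ i) X).mono hle) fun s t => s * t)]
    exact ex_congr fun x => by rw [hV j hj x, Pi.sub_apply]; ring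
  simp only [exB_apply, Pi.sub_apply, ← sq] at h
  exact h

end Pool.Agent.P.MP_a14ce1_nt.Fu
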