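import Pool.Agent.P.MP_a14ce1_nt.Fu.Fib
import Pool.Agent.P.MP_a14ce1_nt.Fu.Pot
import Pool.Agent.P.MP_a14ce1_nt.Fu.Stage

/-!
The model (one family of edges), its parameters, and the statements of the blocks.
-/

open Finset

namespace Pool.Agent.P.MP_a14ce1_nt.Fu.St

open Ch (pv mu rs lam)

/-- the members of P dividing n -/
def dp (P : Finset ℕ) (n : ℕ) : Finset ℕ := P.filter fun p => p ∣ n

/-- mean over the random set of members of G dividing an integer -/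
noncomputable def EG (G : Finset ℕ) (Φ : Finset ℕ → ℝ) : ℝ := ∑ T ∈ G.powerset, mu G T * Φ T

/-- second moment of the weight of the sub-objects with logarithm in [x, x + 1] -/
noncomputable def sb (P : Finset ℕ) (w V : Finset ℕ → ℝ) (x : ℝ) : ℝ :=
  EG P fun T => (∑ e ∈ T.powerset with x ≤ Real.log (pv e) ∧ Real.log (pv e) ≤ x + 1, w e) ^ 2 / V T

/-- one family: levels 0 .. m with classes G t (weight B t) and R t (exactly r t members), the test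
range RR, the upper known primes U, the hidden primes HH -/
structure Fam where
  k : ℕ
  N : ℕ
  m : ℕ
  D : ℝ
  ε : ℝ
  G : ℕ → Finset ℕ
  R : ℕ → Finset ℕ
  B : ℕ → ℝ
  r : ℕ → ℕ
  RR : Finset ℕ
  U : Finset ℕ
  HH : Finset ℕ
  wk : Finset ℕ → ℝ
  vk : Finset ℕ → ℝ
  ze : Finset ℕ → ℝ

namespace Fam

variable (F : Fam)

def cl (t : ℕ) : Finset ℕ := F.G t ∪ F.R t
/-- the primes of the levels a ≤ t < b -/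
def Lv (a b : ℕ) : Finset ℕ := (Ico a b).biUnion F.cl
def Lo : Finset ℕ := F.Lv 0 (F.m + 1)
def TT : Finset ℕ := F.U ∪ F.RR ∪ F.HH
def all : Finset ℕ := F.Lo ∪ F.TT
def Qk : ℕ := pv (F.Lo ∪ F.U ∪ F.RR)
def Qk0 : ℕ := pv (F.Lo ∪ F.U)

noncomputable def ZG (t : ℕ) : ℝ := ∏ q ∈ F.G t, (1 + F.B t / q)
noncomputable def ZR (t : ℕ) : ℝ := ∑ Q ∈ (F.R t).powersetCard (F.r t), (1 : ℝ) / pv Q
noncomputable def wG (t : ℕ) (c : Finset ℕ) : ℝ := F.B t ^ (c ∩ F.G t).card / F.ZG t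
noncomputable def wR (t : ℕ) (c : Finset ℕ) : ℝ :=
  (if (c ∩ F.R t).card = F.r t then 1 else 0) / F.ZR t
noncomputable def wl (t : ℕ) (c : Finset ℕ) : ℝ := F.wG t c * F.wR t c
noncomputable def wh (a b : ℕ) (c : Finset ℕ) : ℝ := ∏ t ∈ Ico a b, F.wl t c
noncomputable def VG (t : ℕ) (T : Finset ℕ) : ℝ := (F.B t + 1) ^ (T ∩ F.G t).card / F.ZG t
noncomputable def VR (t : ℕ) (T : Finset ℕ) : ℝ := ((T ∩ F.R t).card.choose (F.r t) : ℝ) / F.ZR t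
noncomputable def Vl (t : ℕ) (T : Finset ℕ) : ℝ := F.VG t T * F.VR t T
noncomputable def V (a b : ℕ) (T : Finset ℕ) : ℝ := ∏ t ∈ Ico a b, F.Vl t T
/-- the weight of a cofactor -/
noncomputable def w (c : Finset ℕ) : ℝ := F.wh 0 (F.m + 1) c

open Classical in
/-- probability of an event for the pair (cofactor c, low primes T of a site of the edge) -/
noncomputable def Pn (E : Finset ℕ → Finset ℕ → Prop) : ℝ :=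
  EG F.Lo fun T => ∑ c ∈ T.powerset, if E c T then F.w c else 0

noncomputable def ka (p : ℕ) (T : Finset ℕ) : ℝ :=
  if T ⊆ {p} then 1 / ∏ q ∈ F.RR.erase p, (1 - (1 : ℝ) / q) else 0
noncomputable def W (p n : ℕ) : ℝ := F.wk (dp F.U n) * F.ka p (dp F.RR n) * F.ze (dp F.HH n)
noncomputable def LL : ℝ := rs F.RR
def win (d : ℕ) : Prop := F.D ≤ d ∧ (d : ℝ) < (1 + F.ε) * F.D
noncomputable instance : DecidablePred F.win := Classical.decPred _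
noncomputable def Pw : ℝ := ∑ c ∈ F.Lo.powerset, ∑ p ∈ F.RR,
  if F.win (pv c * p) then F.w c / (pv c * p * F.LL) else 0

/-- the k-linear form of the family -/
noncomputable def Tf (Z : ℕ) (s : ℕ → ℝ) (x : ℕ → Fin Z → ℕ → ℝ) : ℝ :=
  ex fun n : Fin Z => ∑ a ∈ range F.N, ∑ c ∈ F.Lo.powerset, ∑ p ∈ F.RR,
    if pv c * p ∣ n + a ∧ F.win (pv c * p) ∧ a + (F.k - 1) * (pv c * p) < F.N then
      F.w c / (F.LL * F.N * F.Pw) * s (pv c * p) *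
        ∏ i ∈ range F.k, (F.W p (n + (a + i * (pv c * p))) * x i n (a + i * (pv c * p)))
    else 0

/-- the form with the prime p freed -/
noncomputable def Tfree (Z : ℕ) (s : ℕ → ℝ) (y : Fin Z → ℕ → ℝ) : ℝ :=
  ex fun n : Fin Z => ∑ a ∈ range F.N, ∑ c ∈ F.Lo.powerset, ∑ p ∈ F.RR,
    if pv c ∣ n + a ∧ F.win (pv c * p) ∧ a + (F.k - 1) * (pv c * p) < F.N then
      F.w c / (p * F.LL * F.N * F.Pw) * s (pv c * p) *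
        ∏ i ∈ range F.k, (F.wk (dp F.U (n + (a + i * (pv c * p)))) * y n (a + i * (pv c * p)))
    else 0

noncomputable def pi1 : ℝ := EG F.RR fun T => if T.card = 1 then 1 else 0
noncomputable def zj (T : Finset ℕ) : ℝ := (if T.card = 1 then 1 else 0) / F.pi1
noncomputable def z (n : ℕ) : ℝ := F.ze (dp F.HH n)
noncomputable def z0 (n : ℕ) : ℝ := F.zj (dp F.RR n) * F.ze (dp F.HH n)
/-- the common population weight -/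
noncomputable def vv (n : ℕ) : ℝ := F.V 0 (F.m + 1) (dp F.Lo n) * F.vk (dp F.U n) * F.z0 n

end Fam

/-- the information: n mod Q and the data on the code C (n mod Q) -/
def gl {A : Type} (Z Q : ℕ) (dt : ℕ → A) (C : ℕ → Finset ℕ) : Setoid (Fin Z) :=
  glue (fun n : Fin Z => (n : ℕ) % Q) (fun n b => dt (n + b)) C

/-- the predictor of X (n + b) for the weight ζ (n + b) -/
noncomputable def pred {A : Type} (Z Q : ℕ) (dt : ℕ → A) (C : ℕ → Finset ℕ) (ζ X : ℕ → ℝ)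
    (n : Fin Z) (b : ℕ) : ℝ :=
  yr (gl Z Q dt C) (fun x => ζ (x + b)) (fun x => X (x + b)) n

/-- mean density of a code -/
noncomputable def size (Z Q N : ℕ) (C : ℕ → Finset ℕ) : ℝ :=
  ex (fun n : Fin Z => ((C (n % Q)).card : ℝ)) / N

/-- v before the role i0, u - v at it, u after it -/
def mix {Z : ℕ} (u v : Fin Z → ℕ → ℝ) (i0 i : ℕ) (n : Fin Z) (b : ℕ) : ℝ :=
  if i < i0 then v n b else if i = i0 then u n b - v n b else u n b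

structure Par where
  η : ℝ
  κ : ℝ
  Λ : ℝ
  Δ : ℝ
  vt : ℝ
  Ms : ℝ
  Lp : ℝ
  Lh : ℝ
  Cw : ℝ
  Csb : ℝ
  Cl : ℝ
  K2 : ℝ
  eL : ℝ
  σin : ℝ
  M : ℝ
  a : ℝ
  K3 : ℕ
  Wn : ℕ
  lo : ℕ → ℝ
  hi : ℕ → ℝ
  La : ℕ → ℝ
  l : ℕ → ℝ
  mn : ℕ → ℝ
  Kx : ℕ → ℕ
  J : ℕ → ℕ
  tp : ℕ → ℕ
  σ : ℕ → ℕ → ℝ
  m0 : ℕ → ℕ → ℕ

/-- the level t of the set T of primes is typical -/
def Ok (F : Fam) (P : Par) (t : ℕ) (T : Finset ℕ) : Prop :=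
  P.lo t ≤ F.Vl t T ∧ F.Vl t T ≤ P.hi t ∧ (T ∩ F.R t).card ≤ F.r t + P.Kx t

noncomputable def ph (F : Fam) (P : Par) (t w : ℕ) : ℝ := (P.m0 t w : ℝ) / (F.R t).card
noncomputable def Hi (F : Fam) (P : Par) : ℝ := ∏ t ∈ range (F.m + 1), P.hi t
noncomputable def top (F : Fam) (P : Par) : ℝ := P.σ F.m (P.Wn - 1)

/-- the part of the hypotheses without the constant C -/
structure Hyp0 (F : Fam) (P : Par) : Prop where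
  k2 : 2 ≤ F.k
  m2 : 2 ≤ F.m
  Nlo : 2 * F.k * F.D ≤ F.N
  Nhi : (F.N : ℝ) ≤ 4 * F.k * F.D
  e0 : 0 < F.ε
  e1 : F.k * F.ε ≤ 1 / 2
  pr : ∀ q ∈ F.all, q.Prime
  R0 : F.R 0 = ∅
  r0 : F.r 0 = 0
  dGR : ∀ t ≤ F.m, Disjoint (F.G t) (F.R t)
  tpm : Monotone P.tp
  tple : ∀ t ≤ F.m, ∀ q ∈ F.cl t, q ≤ P.tp t
  tplt : ∀ t < F.m, ∀ q ∈ F.cl (t + 1), P.tp t < q
  tpT : ∀ q ∈ F.TT, P.tp F.m < q
  dUR : Disjoint F.U F.RR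
  dUH : Disjoint F.U F.HH
  dRH : Disjoint F.RR F.HH
  rR : ∀ t ≤ F.m, F.r t ≤ (F.R t).card
  B1 : ∀ t, 1 ≤ F.B t
  LL1 : F.LL ≤ 1 / 2
  LL2 : 2 ≤ P.Λ * F.LL
  wk0 : ∀ T, 0 ≤ F.wk T
  wkv : ∀ T, F.wk T ≤ F.vk T
  wkL : ∀ T, F.wk T ≤ P.Λ
  Ewk : 1 - P.η ≤ EG F.U F.wk
  Evk : EG F.U F.vk ≤ 1
  ze0 : ∀ T, 0 ≤ F.ze T
  zeL : ∀ T, F.ze T ≤ P.Λ
  Eze : EG F.HH F.ze = 1
  η0 : 0 < P.η
  η1 : P.η ≤ 1 / 2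
  κ0 : 0 < P.κ
  Lk : (F.k : ℝ) ≤ P.Λ
  Lm : (F.m : ℝ) ≤ P.Λ
  Lη : 1 ≤ P.Λ * P.η
  Lκ : 1 ≤ P.Λ * P.κ
  Lε : 1 ≤ P.Λ * F.ε
  Cw1 : 1 ≤ P.Cw
  Csb1 : 1 ≤ P.Csb
  Cl1 : 1 ≤ P.Cl
  LCw : P.Cw ≤ P.Λ
  LCsb : P.Csb ≤ P.Λ
  LCl : P.Cl ≤ P.Λ
  Lp1 : 1 ≤ P.Lp
  Lh0 : 0 ≤ P.Lh
  logD : Real.log F.D ≤ P.Λ * P.Lp
  Pw0 : 0 < F.Pw
  win1 : ∀ y : ℝ, rs (F.RR.filter fun p : ℕ => y ≤ (p : ℝ) ∧ (p : ℝ) < (1 + F.ε) * y)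
    ≤ 4 * (F.LL * F.Pw)
  win2 : ∀ x s : ℝ, 0 ≤ s → rs (F.RR.filter fun p : ℕ => x ≤ Real.log p ∧ Real.log p ≤ x + s)
    ≤ P.Cw * (s + 1) * (F.LL * F.Pw)
  win3 : 1 ≤ P.Cw * (F.LL * F.Pw) * Real.log F.D
  win4 : 1 ≤ P.Cl * F.Pw * P.l F.m
  TMs : ∀ q ∈ F.TT, P.Ms ≤ q
  Rlo : ∀ q ∈ F.RR ∪ F.HH, F.D ≤ q * Real.exp P.Lp
  Rhi : ∀ q ∈ F.RR ∪ F.HH, (q : ℝ) ≤ 2 * F.D
  Hlo : ∀ q ∈ F.HH, F.D ≤ q * Real.exp P.Lh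
  Dbig : 10 * F.k * Real.exp (2 * P.Lp) ≤ F.D
  ok : F.Pn (fun _ T => ∃ t ≤ F.m, ¬ Ok F P t T) ≤ P.η
  adm : F.Pn (fun c _ => ∃ s ≤ F.m, P.La s < Real.log (pv (c ∩ F.Lv 0 (s + 1)))) ≤ P.η
  ext : F.Pn (fun c T => F.Vl 0 T < P.Δ * F.wl 0 c) ≤ P.η
  La0 : ∀ s, 0 ≤ P.La s
  lo0 : ∀ t, 0 < P.lo t
  lohi : ∀ t, P.lo t ≤ P.hi t
  hi1 : ∀ t, 1 ≤ P.hi t
  b1 : ∀ t ∈ Icc 1 F.m, F.Pn (fun _ T => (T ∩ F.R t).card = F.r t) ≤ P.κ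
  b2 : ∀ t ∈ Icc 1 F.m, F.Pn (fun _ T => F.r t + P.K3 < (T ∩ F.R t).card) ≤ P.κ
  b3 : ∀ t ∈ Icc 1 F.m, F.Pn (fun c _ => F.D * P.mn t < F.N * pv (c ∩ F.Lv 0 t)) ≤ P.κ
  b4 : ∀ t ∈ Icc 1 F.m,
    F.Pn (fun c _ => P.K2 * P.l t < Real.log (pv (c ∩ (F.Lv 0 t ∪ F.G t)))) ≤ P.κ
  Rt : ∀ t ∈ Icc 1 F.m, ∀ q ∈ F.R t, P.mn t ≤ q ∧ Real.log q ≤ P.eL * P.l t
  l1 : ∀ t, 1 ≤ P.l t
  J1 : ∀ t, 1 ≤ P.J t
  r1 : ∀ t ∈ Icc 1 F.m, 1 ≤ F.r t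
  K20 : 0 ≤ P.K2
  eL0 : 0 ≤ P.eL
  sb1 : ∀ t ∈ Icc 1 F.m, ∀ x, sb (F.Lv 0 t ∪ F.G t) (fun e => F.wh 0 t e * F.wG t e)
    (fun T => F.V 0 t T * F.VG t T) x ≤ P.Csb / P.l t ^ 2
  sb2 : ∀ x, sb F.Lo F.w (F.V 0 (F.m + 1)) x ≤ P.Csb / P.l F.m ^ 2
  sb3 : ∀ x, sb (F.Lv 1 (F.m + 1)) (F.wh 1 (F.m + 1)) (F.V 1 (F.m + 1)) x ≤ P.Λ ^ 2 / P.l F.m ^ 2
  W1 : 1 ≤ P.Wn
  mW : F.m ≤ 2 * P.Wn + 2
  vt0 : 0 < P.vt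
  vt1 : P.vt ≤ 1
  m01 : ∀ t ∈ Icc 1 F.m, ∀ w, 1 ≤ P.m0 t w ∧ P.m0 t w ≤ (F.R t).card
  m02 : ∀ t ≤ 2, ∀ w, P.m0 t w = P.m0 t 0
  path : (F.r 1 + P.Kx 1 : ℝ) * ph F P 1 0 ≤ P.η
  σn : ∀ t w, 0 ≤ P.σ t w
  σ0 : ∀ w, P.vt * (P.hi 0 / P.lo 0) ≤ P.σ 0 w
  σs : ∀ t < F.m, ∀ w < P.Wn, P.hi (t + 1) / P.lo (t + 1) *
    (P.σ t w * ((F.r (t + 1) + P.Kx (t + 1) : ℝ) * ph F P (t + 1) w) ^ P.J (t + 1) +
      if 2 ≤ t ∧ 1 ≤ w then P.σ t (w - 1) else 0) ≤ P.σ (t + 1) w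
  σin0 : 0 ≤ P.σin

theorem Hyp0.dcl {F : Fam} {P : Par} (h : Hyp0 F P) {s t : ℕ} (hs : s ≤ F.m) (ht : t ≤ F.m)
    (hst : s ≠ t) : Disjoint (F.cl s) (F.cl t) := by
  wlog hlt : s < t generalizing s t
  · exact (this ht hs hst.symm (by omega)).symm
  obtain ⟨u, rfl⟩ : ∃ u, t = u + 1 := ⟨t - 1, by omega⟩
  refine disjoint_left.2 fun q h1 h2 => ?_
  have a := h.tple s hs q h1
  have b := h.tplt u (by omega) q h2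
  have c := h.tpm (show s ≤ u by omega)
  omega

theorem Hyp0.dLo {F : Fam} {P : Par} (h : Hyp0 F P) : Disjoint F.Lo F.TT := by
  refine disjoint_left.2 fun q h1 h2 => ?_
  obtain ⟨t, ht, hq⟩ := mem_biUnion.1 h1
  have ht' : t ≤ F.m := by have := (mem_Ico.1 ht).2; omega
  have a := h.tple t ht' q hq
  have b := h.tpT q h2
  have c := h.tpm ht'
  omega

/-- the hypotheses of sections 2 to 6 -/
structure Hyp (F : Fam) (P : Par) (C : ℕ) : Prop extends Hyp0 F P where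
  ind : P.Λ ^ (C * F.k) * (1 + Real.log F.N) ≤ P.Ms
  κη : C * P.κ ≤ P.η ^ C
  Jr : ∀ t ∈ Icc 1 F.m,
    C * P.Csb * (P.Cw * (P.K2 + P.K3 * P.eL + 2)) ^ 2 * P.J t ≤ P.κ ^ 3 * F.r t
  diag : (P.Λ / P.vt) ^ (C * F.k) * (P.La 0 + 2) ^ 2 ≤ P.Δ
  pin : ∀ t < F.m, ∀ w < P.Wn,
    P.Λ ^ C * P.J (t + 1) ^ 2 * (P.La t + 2) * P.σ t w ≤ ph F P (t + 1) w
  hid : ∀ s ∈ Icc 1 F.m, (C : ℝ) ^ F.m * P.Λ ^ C * (P.La s + 2) *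
    (P.hi s / P.lo s * P.σ (s - 1) (P.Wn - 1)) ≤ 1
  hidt : (C : ℝ) ^ F.m * P.Λ ^ C * Real.exp P.Lh * (Hi F P * P.σin + top F P) ≤ F.LL * F.Pw
  test : P.Λ ^ (C * F.k) * Real.exp (C * P.Lp) * P.σin ≤ 1

/-- the hypotheses of section 7 -/
structure Hyp7 (F : Fam) (P : Par) (C : ℕ) : Prop where
  ind : Real.exp (P.Λ ^ C) * (1 + Real.log F.N) ≤ P.Ms
  test : P.Λ ^ C * Real.exp (C * P.Lp) * P.σin ≤ 1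
  Mlo : P.Lp + P.Λ ^ C ≤ P.M
  Mhi : P.M ≤ P.Λ * P.l F.m
  Mlog : P.Λ ^ C ≤ Real.log P.M
  MD : Real.exp (P.M + P.Lp) * P.Λ ^ C ≤ F.D
  Ta : ∀ q ∈ F.TT, P.a ≤ Real.log q ∧ Real.log q ≤ P.a * P.Λ
  aM : P.a ≤ P.M

theorem Hyp.mono {F : Fam} {P : Par} {C C' : ℕ} (h : Hyp F P C) (hC : C' ≤ C) : Hyp F P C' := by
  have k2 : (2 : ℝ) ≤ F.k := by exact_mod_cast h.k2
  have L1 : 1 ≤ P.Λ := by linarith [h.Lk]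
  have hr : (C' : ℝ) ≤ C := by exact_mod_cast hC
  have p1 : P.Λ ^ C' ≤ P.Λ ^ C := pow_le_pow_right₀ L1 hC
  have p2 : P.Λ ^ (C' * F.k) ≤ P.Λ ^ (C * F.k) :=
    pow_le_pow_right₀ L1 (Nat.mul_le_mul_right _ hC)
  have v1 : 1 ≤ P.Λ / P.vt := (one_le_div h.vt0).2 (h.vt1.trans L1)
  have p3 : (P.Λ / P.vt) ^ (C' * F.k) ≤ (P.Λ / P.vt) ^ (C * F.k) :=
    pow_le_pow_right₀ v1 (Nat.mul_le_mul_right _ hC)
  have p4 : P.η ^ C ≤ P.η ^ C' := pow_le_pow_of_le_one h.η0.le (by linarith [h.η1]) hC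
  have l0 := Real.log_natCast_nonneg F.N
  have hhi : ∀ t, 0 ≤ P.hi t := fun t => by linarith [h.hi1 t]
  have hH : 0 ≤ Hi F P := prod_nonneg fun t _ => hhi t
  have hT : 0 ≤ top F P := h.σn _ _
  have := h.κ0
  have := h.σin0
  have := h.Csb1
  have := h.Lp1
  refine ⟨h.toHyp0, le_trans ?_ h.ind, ?_, fun t ht => le_trans ?_ (h.Jr t ht), le_trans ?_ h.diag,
    fun t ht w hw => le_trans ?_ (h.pin t ht w hw), fun s hs => le_trans ?_ (h.hid s hs),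
    le_trans ?_ h.hidt, le_trans ?_ h.test⟩
  · gcongr
  · exact le_trans (by gcongr) (h.κη.trans p4)
  · gcongr
  · gcongr
  · have := h.La0 t
    have := h.σn t w
    gcongr
  · have := h.La0 s
    have := h.σn (s - 1) (P.Wn - 1)
    have := hhi s
    have := h.lo0 s
    gcongr
  · gcongr
  · gcongr

/-- the data: a finite alphabet, the length Z of the period, a code of small density -/
structure Dat (F : Fam) (P : Par) (A : Type) [Fintype A] (Z : ℕ) (C0 : ℕ → Finset ℕ) : Prop where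
  alph : Real.log (Fintype.card A) ≤ P.Λ
  Z0 : 0 < Z
  per : pv F.all ∣ Z
  sub : ∀ x, C0 x ⊆ range F.N
  sz : size Z F.Qk0 F.N C0 ≤ P.σin

/-- the product of k consecutive values -/
noncomputable def cor (k n : ℕ) : ℝ := ∏ i ∈ range k, lam (n + i)

/-- section 2 -/
def S_BIAS : Prop := ∀ k : ℕ, ∃ C : ℕ, ∀ (F : Fam) (P : Par), F.k = k → Hyp F P C →
  ∀ δ τ : ℝ, 0 < δ → C * F.ε ≤ δ → C * P.η ≤ δ → P.Λ ^ (C * k) * τ ≤ P.η →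
  ∀ E : ℕ, ∃ X0 : ℕ, ∀ (X Y Z : ℕ) (σ : ℝ), X0 ≤ X → Y ≤ X → X ≤ Y + E →
    (Z : ℝ) ≤ F.D * X → F.D * X ≤ Z + E → pv F.all ∣ Z → pv F.TT ∣ Y → |σ| = 1 →
    δ * X ≤ σ * ∑ n ∈ Icc 1 X, cor k n →
    (∀ W : ℕ → ℝ, (∀ n, W (n + pv F.TT) = W n) → (∀ n, |W n| ≤ 1) →
      |(∑ n ∈ range Y, cor k n * W n) / Y
        - (∑ n ∈ range Y, cor k n) / Y * ((∑ n ∈ range Y, W n) / Y)| ≤ τ) →
    δ / 4 ≤ F.Tf Z (fun d => σ * lam d ^ k) fun _ n b => lam (n + b)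

/-- section 3 -/
def S_COMP : Prop := ∀ k : ℕ, ∃ C : ℕ, ∀ (F : Fam) (P : Par), F.k = k → Hyp F P C →
  ∀ (A : Type) [Fintype A] (dt : ℕ → A) (Z : ℕ) (C0 : ℕ → Finset ℕ) (X s : ℕ → ℝ),
    Dat F P A Z C0 → (∀ n n', dt n = dt n' → X n = X n' ∧ F.z n = F.z n') →
    (∀ n, |X n| ≤ 1) → (∀ d, |s d| ≤ 1) →
    ∃ C1 : ℕ → Finset ℕ, (∀ x, C1 x ⊆ range F.N) ∧ (∀ n, C0 (n % F.Qk0) ⊆ C1 (n % F.Qk)) ∧
      size Z F.Qk F.N C1 ≤ size Z F.Qk0 F.N C0 + C * top F P / P.η ∧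
      ∑ i0 ∈ range k, F.Tf Z s (mix (fun n b => X (n + b)) (pred Z F.Qk dt C1 F.z X) i0)
        ≤ C * P.η

/-- sections 4 and 5 -/
def S_ROLE : Prop := ∀ k : ℕ, ∃ C : ℕ, ∀ (F : Fam) (P : Par), F.k = k → Hyp F P C →
  ∀ (Z : ℕ) (s : ℕ → ℝ) (x : ℕ → Fin Z → ℕ → ℝ) (i0 : ℕ), 0 < Z → pv F.all ∣ Z →
    (∀ d, |s d| ≤ 1) → i0 < k → (∀ i n b, i ≠ i0 → |x i n b| ≤ 1) → (∀ n b, |x i0 n b| ≤ 2) →
    |F.Tf Z s x| ≤ C * P.η + C * P.Csb * P.Cl ^ 2 / P.η *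
      ex fun n : Fin Z => (∑ b ∈ range F.N, F.vv (n + b) * x i0 n b ^ 2) / F.N

/-- section 6 -/
def S_TEST1 : Prop := ∀ k : ℕ, ∃ C : ℕ, ∀ (F : Fam) (P : Par), F.k = k → Hyp F P C →
  ∀ (A : Type) [Fintype A] (dt : ℕ → A) (Z : ℕ) (C0 : ℕ → Finset ℕ) (s : ℕ → ℝ)
    (y : Fin Z → ℕ → ℝ), Dat F P A Z C0 → (∀ d, |s d| ≤ 1) → (∀ n b, |y n b| ≤ 1) →
    (∀ b, Ms (gl Z F.Qk0 dt C0) fun n => y n b) →
    |F.Tf Z s (fun _ => y) - F.Tfree Z s y| ≤ C * P.η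

/-- section 7, with sections 8 and 9 -/
def S_SEC7 : Prop := ∀ k : ℕ, ∃ C : ℕ, ∀ δ Cw : ℝ, 0 < δ → ∃ C2 : ℕ, ∀ (F : Fam) (P : Par),
  F.k = k → P.Cw = Cw → Hyp F P C → Hyp7 F P C2 → ∃ Z0 : ℕ,
  ∀ (A : Type) [Fintype A] (dt : ℕ → A) (Z : ℕ) (C0 : ℕ → Finset ℕ) (s : ℕ → ℝ), Z0 ≤ Z →
    Dat F P A Z C0 → (∀ d, |s d| ≤ 1) → F.Tfree Z s (pred Z F.Qk0 dt C0 F.z0 lam) ≤ δ

/-- S families with one common population -/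
structure Chain (k C C2 S : ℕ) (ε η Cw Λ : ℝ) (T : Finset ℕ) (F : ℕ → Fam) (P : ℕ → Par) :
    Prop where
  S0 : 0 < S
  hyp : ∀ j < S, Hyp (F j) (P j) C ∧ Hyp7 (F j) (P j) C2
  com : ∀ j < S, (F j).k = k ∧ (F j).N = (F 0).N ∧ (F j).D = (F 0).D ∧ (F j).ε = ε ∧
    (P j).η = η ∧ (P j).Cw = Cw ∧ (P j).Λ = Λ ∧ (F j).all = (F 0).all ∧ (F j).vv = (F 0).vv
  sub : ∀ j < S, (F j).TT ⊆ T
  nxt : ∀ j, j + 1 < S → (F j).Qk = (F (j + 1)).Qk0 ∧ (F j).z = (F (j + 1)).z0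
  dz : ∃ (A : Type) (_ : Fintype A) (dz : ℕ → A), Real.log (2 * Fintype.card A) ≤ Λ ∧
    ∀ j < S, ∀ n n', dz n = dz n' → (F j).z n = (F j).z n'
  sin : ∀ j < S, ∑ i ∈ range j, C * top (F i) (P i) / η ≤ (P j).σin
  big : ∀ j < S, (P j).Csb * (P j).Cl ^ 2 ≤ η ^ 2 * S

/-- section 1: the parameters exist -/
def S_PAR : Prop := ∀ (k C : ℕ) (ε η : ℝ), 2 ≤ k → 0 < ε → k * ε ≤ 1 / 2 → 0 < η → η ≤ 1 / 2 →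
  ∃ Cw : ℝ, ∀ C2 : ℕ, ∃ (K : ℕ) (Λ : ℝ) (T : ℕ → Finset ℕ), 0 < K ∧
    Λ ^ (C * k) ≤ η * Real.sqrt K ∧ (∀ i, ∀ q ∈ T i, q.Prime) ∧
    (∀ i j, i ≠ j → Disjoint (T i) (T j)) ∧
    ∀ i < K, ∃ (S : ℕ) (F : ℕ → Fam) (P : ℕ → Par), Chain k C C2 S ε η Cw Λ (T i) F P

/-- the mean of the population weight -/
def S_VV : Prop := ∀ (F : Fam) (P : Par), Hyp0 F P → ∀ Z b : ℕ, 0 < Z → pv F.all ∣ Z →
  ex (fun n : Fin Z => F.vv (n + b)) ≤ 1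

/-- the case k = 1 -/
def S_K1 : Prop := ∀ δ : ℝ, 0 < δ → ∃ X0 : ℕ, ∀ X, X0 ≤ X → |∑ n ∈ Icc 1 X, lam n| ≤ δ * X

end Pool.Agent.P.MP_a14ce1_nt.Fu.St
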