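import Pool.Agent.P.MP_a14ce1_nt.Fu.Comp
import Pool.Agent.P.MP_a14ce1_nt.Fu.St

/-! The right side of the compression inequality: linearity and the numerical bound. -/

open Finset

namespace Pool.Agent.P.MP_a14ce1_nt.Fu

/-- the right side of `acomp` as a function of the masses -/
noncomputable def RHS (m W : ℕ) (J r : ℕ → ℕ) (lam β G lA mu ob : ℝ) (z θ φ : ℕ → ℕ → ℝ)
    (S2 M c0 z0 : ℝ) (TB BD Y : ℕ → ℝ) : ℝ :=
  lam / 2 * S2 + 1 / (2 * lam) * ∑ t ∈ range m, wg W t *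
      (5 * ((J (t + 1) : ℝ) / r (t + 1)) * TB t + 5 * BD t + 3584 * β ^ 4 * (lA * 7 ^ m *
        (∑ s ∈ range m, z s (W - 1) * Y (s + 1) + mu * ob * (c0 + z m (W - 1) * z0))))
    + ∑ t ∈ range m, (∑ w ∈ range W,
        (J (t + 1) * lA * z t w * Y t / (θ (t + 1) w * φ (t + 1) w)
          + 256 * J (t + 1) * θ (t + 1) w * β ^ 2 * G ^ 2 * M)) / (W : ℝ)

section

variable (m W : ℕ) (J r : ℕ → ℕ) (lam β G lA mu ob : ℝ) (z θ φ : ℕ → ℕ → ℝ)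

theorem RHS_add (S2 M c0 z0 S2' M' c0' z0' : ℝ) (TB BD Y TB' BD' Y' : ℕ → ℝ) :
    RHS m W J r lam β G lA mu ob z θ φ (S2 + S2') (M + M') (c0 + c0') (z0 + z0')
      (fun t => TB t + TB' t) (fun t => BD t + BD' t) (fun t => Y t + Y' t) =
    RHS m W J r lam β G lA mu ob z θ φ S2 M c0 z0 TB BD Y +
      RHS m W J r lam β G lA mu ob z θ φ S2' M' c0' z0' TB' BD' Y' := by
  simp only [RHS, mul_add, add_div, sum_add_distrib]
  ring

theorem RHS_smul (c S2 M c0 z0 : ℝ) (TB BD Y : ℕ → ℝ) :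
    RHS m W J r lam β G lA mu ob z θ φ (c * S2) (c * M) (c * c0) (c * z0)
      (fun t => c * TB t) (fun t => c * BD t) (fun t => c * Y t) =
    c * RHS m W J r lam β G lA mu ob z θ φ S2 M c0 z0 TB BD Y := by
  have e1 : ∑ s ∈ range m, z s (W - 1) * (c * Y (s + 1)) =
      c * ∑ s ∈ range m, z s (W - 1) * Y (s + 1) := by
    rw [mul_sum]
    exact sum_congr rfl fun _ _ => by ring
  simp only [RHS, e1]
  generalize ∑ s ∈ range m, z s (W - 1) * Y (s + 1) = y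
  rw [mul_add c, mul_add c, mul_left_comm c (1 / (2 * lam)), mul_sum (range m) _ c,
    mul_sum (range m) _ c]
  refine congrArg₂ _ (congrArg₂ _ (by ring) (congrArg _ (sum_congr rfl fun _ _ => by ring)))
    (sum_congr rfl fun _ _ => ?_)
  rw [← mul_div_assoc, mul_sum]
  exact congrArg (· / (W : ℝ)) (sum_congr rfl fun _ _ => by ring)

theorem RHS_sum {I : Type*} (s : Finset I) (p S2 M c0 z0 : I → ℝ) (TB BD Y : I → ℕ → ℝ) :
    ∑ i ∈ s, p i * RHS m W J r lam β G lA mu ob z θ φ (S2 i) (M i) (c0 i) (z0 i) (TB i) (BD i)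
      (Y i) =
    RHS m W J r lam β G lA mu ob z θ φ (∑ i ∈ s, p i * S2 i) (∑ i ∈ s, p i * M i)
      (∑ i ∈ s, p i * c0 i) (∑ i ∈ s, p i * z0 i) (fun t => ∑ i ∈ s, p i * TB i t)
      (fun t => ∑ i ∈ s, p i * BD i t) (fun t => ∑ i ∈ s, p i * Y i t) := by
  classical
  induction s using Finset.induction_on with
  | empty => simp [RHS]
  | insert a s ha ih => simp only [sum_insert ha, RHS_add, RHS_smul, ih]

theorem RHS_ex {I : Type} [Fintype I] (S2 M c0 z0 : I → ℝ) (TB BD Y : I → ℕ → ℝ) :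
    ex (fun i => RHS m W J r lam β G lA mu ob z θ φ (S2 i) (M i) (c0 i) (z0 i) (TB i) (BD i)
      (Y i)) =
    RHS m W J r lam β G lA mu ob z θ φ (ex S2) (ex M) (ex c0) (ex z0)
      (fun t => ex fun i => TB i t) (fun t => ex fun i => BD i t) (fun t => ex fun i => Y i t) := by
  have e : ∀ f : I → ℝ, ex f = ∑ i, (Fintype.card I : ℝ)⁻¹ * f i := fun f => by
    rw [ex, ← mul_sum, div_eq_inv_mul]
  simp only [e, RHS_sum]

end

/-- `acomp` with its right side folded -/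
theorem acomp_RHS {B : Type} [Fintype B] [DecidableEq B] {Ω Al ι E : Type} [Fintype Ω]
    [Fintype Al] [Fintype ι] [DecidableEq ι] [Fintype E]
    {α : ι → Type} [∀ i, Fintype (α i)] [∀ i, DecidableEq (α i)] (Dt : Ω → B → Al)
    {ρ : ∀ i, Ω → α i} (hJU : JU ρ) {pt : B → ∀ i, α i} {g : Geo B} (hg : g.Ok)
    (hr : ∀ t < g.m, 0 < g.r (t + 1) ∧ g.J (t + 1) ≤ g.r (t + 1)) {V : Wt B} (hV : HidH g V pt)
    {ζ : B → Ω → ℝ} {β G lam : ℝ} (hζ : ZetaH ρ pt ζ β) {Φ : E → Ph} {φ z θ : ℕ → ℕ → ℝ}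
    {κ : ℕ → ℝ} (hE : ExtH g Φ φ) (hz : ZH g φ κ z)
    {τ : E → B → Finset ℕ → ℝ} {NB : E → ℕ → B → Finset (Finset ℕ)}
    {tb : E → ℕ → B → Finset ℕ → ℝ} (hτ : ∀ e, TauH g V (τ e) (NB e) (tb e))
    {f : E → B → Ω → ℝ} (hf : ∀ e a x, |f e a x| ≤ 2 * ζ a x)
    (hf0 : ∀ e a x, ce (sig Dt (g.code (Φ e))) (f e a) x = 0) {P : E → B → Finset ℕ → Ω → ℝ}
    (hP : ∀ e a c x, |P e a c x| ≤ G)
    (hPm : ∀ e a, ∀ c ∈ V.CS, τ e a c ≠ 0 →
      Ms (sig Dt (g.code (Φ e) ∪ g.Z0 ∩ g.cell c)) (P e a c))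
    (hθ : ∀ t < g.m, ∀ w < g.W, 0 < θ (t + 1) w ∧ 16 * θ (t + 1) w * β * G ≤ 1)
    (hlam : 0 < lam) :
    ex (fun e => ∑ a, ∑ c ∈ V.CS, τ e a c * |ex fun x => f e a x * P e a c x|)
      ≤ RHS g.m g.W g.J g.r lam β G (Real.log (Fintype.card Al)) V.mu V.ob z θ φ
        (ex fun e => ∑ a, ∑ c ∈ V.CS, τ e a c * ex fun x => P e a c x ^ 2)
        (ex fun e => ∑ a, ∑ c ∈ V.CS, τ e a c) g.C0.card g.Z0.card
        (fun t => ex fun e => ∑ a, ∑ u ∈ V.CC (t + 1), tb e t a u)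
        (fun t => ex fun e => ∑ a, ∑ c ∈ V.CS \ NB e t a, τ e a c) (YY g V) :=
  acomp Dt hJU hg hr hV hζ hE hz hτ hf hf0 hP hPm hθ hlam

theorem sum_wg {m W : ℕ} (hW : 1 ≤ W) (h : m ≤ 2 * W + 2) : ∑ t ∈ range m, wg W t ≤ 4 := by
  have hW' : (0 : ℝ) < W := by exact_mod_cast hW
  have h0 : ∀ t, 0 ≤ wg W t := fun t => by unfold wg; split_ifs <;> positivity
  refine (sum_le_sum_of_subset_of_nonneg (range_subset_range.2 h) fun t _ _ => h0 t).trans ?_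
  rw [sum_range_succ', sum_range_succ']
  have : ∀ t ∈ range (2 * W), wg W (t + 1 + 1) = 1 / W := fun t _ => if_neg (by omega)
  rw [sum_congr rfl this, sum_const, card_range, nsmul_eq_mul]
  simp only [wg]
  norm_num
  field_simp
  norm_num

namespace St

/-- the temperature of the pinning step at level `t` -/
noncomputable def th (P : Par) (C1 : ℝ) (t _w : ℕ) : ℝ := P.η ^ 3 / (C1 ^ 2 * P.J t * P.Λ ^ 3)

/-- the threshold of the small ball condition -/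
noncomputable def K1 (P : Par) : ℝ := P.Csb * P.Cw * (P.K2 + 2) / P.κ

variable {F : Fam} {P : Par} {C : ℕ}

theorem Hyp0.two_le (h : Hyp0 F P) : 2 ≤ P.Λ := le_trans (by exact_mod_cast h.k2) h.Lk

theorem th_ok (h : Hyp0 F P) {C1 : ℝ} (h1 : 1 ≤ C1) (t w : ℕ) :
    0 < th P C1 t w ∧ 16 * th P C1 t w * P.Λ * (C1 / P.η) ≤ 1 := by
  have a1 := h.η0
  have a2 := h.η1
  have a3 := h.two_le
  have a4 : (1 : ℝ) ≤ P.J t := by exact_mod_cast h.J1 t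
  refine ⟨by unfold th; positivity, ?_⟩
  have e : 16 * th P C1 t w * P.Λ * (C1 / P.η) = 16 * P.η ^ 2 / (C1 * P.J t * P.Λ ^ 2) := by
    unfold th
    field_simp
  rw [e, div_le_one (by positivity)]
  have b1 : 1 ≤ C1 * P.J t := one_le_mul_of_one_le_of_one_le h1 a4
  have b2 : 4 ≤ P.Λ ^ 2 := by nlinarith
  nlinarith

theorem Hyp.kap_le (h : Hyp F P C) (hC : 2 ≤ C) : P.κ ≤ P.η ^ 2 := by
  have a := h.κη
  have b : P.η ^ C ≤ P.η ^ 2 := pow_le_pow_of_le_one h.η0.le (by linarith [h.η1]) hC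
  have c : (2 : ℝ) ≤ C := by exact_mod_cast hC
  nlinarith [h.κ0]

theorem Hyp.kap_one (h : Hyp F P C) (hC : 2 ≤ C) : P.κ ≤ 1 := by
  have := h.kap_le hC
  nlinarith [h.η0, h.η1]

theorem Hyp.J_le (h : Hyp F P C) (hC : 2 ≤ C) {t : ℕ} (ht : t < F.m) :
    0 < F.r (t + 1) ∧ P.J (t + 1) ≤ F.r (t + 1) := by
  have hm : t + 1 ∈ Icc 1 F.m := mem_Icc.2 ⟨by omega, ht⟩
  refine ⟨h.r1 _ hm, ?_⟩
  have a := h.Jr _ hm
  have c : (2 : ℝ) ≤ C := by exact_mod_cast hC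
  have k0 := h.κ0
  have k3 : P.κ ^ 3 ≤ 1 := pow_le_one₀ k0.le (h.kap_one hC)
  have e0 : 0 ≤ P.K3 * P.eL := mul_nonneg (Nat.cast_nonneg _) h.eL0
  have b1 : 1 ≤ P.Cw * (P.K2 + P.K3 * P.eL + 2) :=
    one_le_mul_of_one_le_of_one_le h.Cw1 (by linarith [h.K20])
  have b2 : 1 ≤ C * P.Csb * (P.Cw * (P.K2 + P.K3 * P.eL + 2)) ^ 2 :=
    one_le_mul_of_one_le_of_one_le (one_le_mul_of_one_le_of_one_le (by linarith) h.Csb1)
      (one_le_pow₀ b1)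
  have j0 : (0 : ℝ) ≤ P.J (t + 1) := Nat.cast_nonneg _
  have r0 : (0 : ℝ) ≤ F.r (t + 1) := Nat.cast_nonneg _
  have : (P.J (t + 1) : ℝ) ≤ F.r (t + 1) := by nlinarith
  exact_mod_cast this

theorem num_tb (h : Hyp F P C) (hC : 2 ≤ C) {t : ℕ} (ht : t < F.m) {x : ℝ}
    (hx : x ≤ K1 P * P.Cw * (P.K2 + P.K3 * P.eL + 2)) :
    (P.J (t + 1) : ℝ) / F.r (t + 1) * x ≤ P.κ := by
  have hm : t + 1 ∈ Icc 1 F.m := mem_Icc.2 ⟨by omega, ht⟩
  have a := h.Jr _ hm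
  have c : (2 : ℝ) ≤ C := by exact_mod_cast hC
  have k0 := h.κ0
  have k1 := h.kap_one hC
  have r0 : (0 : ℝ) < F.r (t + 1) := by exact_mod_cast (h.J_le hC ht).1
  have j0 : (0 : ℝ) ≤ P.J (t + 1) := Nat.cast_nonneg _
  have e0 : 0 ≤ P.K3 * P.eL := mul_nonneg (Nat.cast_nonneg _) h.eL0
  have := h.K20
  have := h.Csb1
  have := h.Cw1
  set Q := P.Cw * (P.K2 + P.K3 * P.eL + 2) with hQ
  have b1 : K1 P * P.Cw * (P.K2 + P.K3 * P.eL + 2) ≤ P.Csb * Q ^ 2 / P.κ := by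
    have q1 : P.Cw * (P.K2 + 2) ≤ Q := by
      rw [hQ]
      gcongr
      linarith
    have q0 : 0 ≤ Q := le_trans (by positivity) q1
    calc _ = P.Csb * (P.Cw * (P.K2 + 2) * Q) / P.κ := by rw [K1, hQ]; ring
      _ ≤ P.Csb * (Q * Q) / P.κ := by gcongr
      _ = _ := by rw [sq]
  refine (mul_le_mul_of_nonneg_left (hx.trans b1) (by positivity)).trans ?_
  rw [div_mul_div_comm, div_le_iff₀ (by positivity)]
  have b2 : 0 ≤ P.Csb * Q ^ 2 * P.J (t + 1) := by positivity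
  have b3 : P.κ ^ 3 * F.r (t + 1) ≤ P.κ ^ 2 * F.r (t + 1) := by
    gcongr ?_ * _
    exact pow_le_pow_of_le_one k0.le k1 (by norm_num)
  nlinarith

theorem num_hb (h : Hyp F P C) (hC : 11 ≤ C) {lA T : ℝ} {x : ℕ → ℝ} (hl0 : 0 ≤ lA)
    (hl : lA ≤ P.Λ)
    (hx : ∀ s < F.m, x s ≤ P.hi (s + 1) / P.lo (s + 1) * P.σ s (P.Wn - 1) *
      (2 * P.Λ * P.Cw * (P.La (s + 1) + 2)))
    (hT : T ≤ 10 * F.k * P.Λ * Real.exp P.Lh * (Hi F P * P.σin + top F P) / (F.LL * F.Pw)) :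
    P.Λ ^ 4 * (lA * 7 ^ F.m * (∑ s ∈ range F.m, x s + T)) ≤ 7 * P.η ^ 2 := by
  have L2 := h.two_le
  have L0 : 0 < P.Λ := by linarith
  have c7 : (7 : ℝ) ^ F.m ≤ (C : ℝ) ^ F.m :=
    pow_le_pow_left₀ (by norm_num) (by exact_mod_cast (by omega : 7 ≤ C)) _
  have p1 : P.Λ ^ 10 ≤ P.Λ ^ C := pow_le_pow_right₀ (by linarith) (by omega)
  have q : 7 ^ F.m * P.Λ ^ 10 ≤ (C : ℝ) ^ F.m * P.Λ ^ C := by gcongr
  have q0 : (0 : ℝ) < 7 ^ F.m * P.Λ ^ 10 := by positivity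
  have a1 : ∀ s ∈ range F.m, x s ≤ 2 * P.Λ ^ 2 / (7 ^ F.m * P.Λ ^ 10) := by
    intro s hs
    have hs' := mem_range.1 hs
    have b := h.hid (s + 1) (mem_Icc.2 ⟨by omega, hs'⟩)
    rw [Nat.add_sub_cancel] at b
    have y0 : 0 ≤ (P.La (s + 1) + 2) * (P.hi (s + 1) / P.lo (s + 1) * P.σ s (P.Wn - 1)) :=
      mul_nonneg (by linarith [h.La0 (s + 1)]) (mul_nonneg (div_nonneg
        (by linarith [h.hi1 (s + 1)]) (h.lo0 _).le) (h.σn _ _))
    set y := (P.La (s + 1) + 2) * (P.hi (s + 1) / P.lo (s + 1) * P.σ s (P.Wn - 1)) with hy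
    have b1 : 7 ^ F.m * P.Λ ^ 10 * y ≤ 1 :=
      (mul_le_mul_of_nonneg_right q y0).trans (by rw [hy, ← mul_assoc]; exact b)
    have b2 : x s ≤ 2 * P.Λ ^ 2 * y := by
      refine (hx s hs').trans ?_
      have := mul_le_mul_of_nonneg_right (mul_le_mul_of_nonneg_left h.LCw L0.le) y0
      rw [hy] at this ⊢
      nlinarith
    rw [le_div_iff₀ q0]
    have := mul_le_mul_of_nonneg_right b2 q0.le
    have := mul_le_mul_of_nonneg_left b1 (show 0 ≤ 2 * P.Λ ^ 2 by positivity)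
    nlinarith
  have a2 : ∑ s ∈ range F.m, x s ≤ P.Λ * (2 * P.Λ ^ 2 / (7 ^ F.m * P.Λ ^ 10)) := by
    refine (sum_le_card_nsmul _ _ _ a1).trans ?_
    rw [card_range, nsmul_eq_mul]
    exact mul_le_mul_of_nonneg_right h.Lm (by positivity)
  have a3 : T ≤ 5 * P.Λ ^ 3 / (7 ^ F.m * P.Λ ^ 10) := by
    have hLL : 0 < F.LL := by
      by_contra hn
      have := mul_nonpos_of_nonneg_of_nonpos L0.le (not_lt.1 hn)
      linarith [h.LL2]
    have lp := mul_pos hLL h.Pw0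
    have y0 : 0 ≤ Real.exp P.Lh * (Hi F P * P.σin + top F P) :=
      mul_nonneg (Real.exp_pos _).le (add_nonneg (mul_nonneg
        (prod_nonneg fun t _ => by linarith [h.hi1 t]) h.σin0) (h.σn _ _))
    set y := Real.exp P.Lh * (Hi F P * P.σin + top F P) with hy
    have b1 : 7 ^ F.m * P.Λ ^ 10 * y ≤ F.LL * F.Pw :=
      (mul_le_mul_of_nonneg_right q y0).trans (by rw [hy, ← mul_assoc]; exact h.hidt)
    refine hT.trans ?_
    rw [mul_assoc _ (Real.exp P.Lh), ← hy, div_le_div_iff₀ lp q0]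
    have b2 : 10 * F.k * P.Λ ≤ 5 * P.Λ ^ 3 := by
      have := h.Lk
      nlinarith [mul_le_mul_of_nonneg_right L2 (show 0 ≤ P.Λ * P.Λ by positivity)]
    calc _ = 10 * F.k * P.Λ * (7 ^ F.m * P.Λ ^ 10 * y) := by ring
      _ ≤ _ := mul_le_mul b2 b1 (by positivity) (by positivity)
  have a4 : ∑ s ∈ range F.m, x s + T ≤ 7 * P.Λ ^ 3 / (7 ^ F.m * P.Λ ^ 10) := by
    refine (add_le_add a2 a3).trans (le_of_eq ?_)
    field_simp
    ring
  have a5 : P.Λ⁻¹ ≤ P.η := by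
    rw [inv_le_iff_one_le_mul₀' L0]
    exact h.Lη
  calc _ ≤ P.Λ ^ 4 * (P.Λ * 7 ^ F.m * (7 * P.Λ ^ 3 / (7 ^ F.m * P.Λ ^ 10))) := by
        refine mul_le_mul_of_nonneg_left ?_ (by positivity)
        exact (mul_le_mul_of_nonneg_left a4 (by positivity)).trans (by gcongr)
    _ = 7 * P.Λ⁻¹ ^ 2 := by field_simp
    _ ≤ _ := by gcongr

theorem num_pin (h : Hyp F P C) (hC : 11 ≤ C) {C1 lA M x : ℝ} (h1 : 1 ≤ C1) (hl0 : 0 ≤ lA)
    (hl : lA ≤ P.Λ) (hM : M ≤ 4) {t w : ℕ} (ht : t < F.m) (hw : w < P.Wn)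
    (hx : x ≤ P.σ t w * (2 * P.Λ * P.Cw * (P.La t + 2))) :
    P.J (t + 1) * lA * x / (th P C1 (t + 1) w * ph F P (t + 1) w) +
      256 * P.J (t + 1) * th P C1 (t + 1) w * P.Λ ^ 2 * (C1 / P.η) ^ 2 * M
      ≤ (2 * C1 ^ 2 + 1024) * P.η / P.Λ := by
  have L2 := h.two_le
  have L0 : 0 < P.Λ := by linarith
  have a1 := h.η0
  have j1 : (1 : ℝ) ≤ P.J (t + 1) := by exact_mod_cast h.J1 (t + 1)
  have t0 := (th_ok h.toHyp0 h1 (t + 1) w).1
  have hm := h.m01 (t + 1) (mem_Icc.2 ⟨by omega, ht⟩) w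
  have p0 : 0 < ph F P (t + 1) w := by
    have b1 : (0 : ℝ) < P.m0 (t + 1) w := by exact_mod_cast hm.1
    have b2 : (0 : ℝ) < (F.R (t + 1)).card := by exact_mod_cast hm.1.trans hm.2
    exact div_pos b1 b2
  have a5 : P.Λ⁻¹ ≤ P.η := by
    rw [inv_le_iff_one_le_mul₀' L0]
    exact h.Lη
  have b1 : 256 * P.J (t + 1) * th P C1 (t + 1) w * P.Λ ^ 2 * (C1 / P.η) ^ 2 * M ≤
      1024 * P.η / P.Λ := by
    refine (mul_le_mul_of_nonneg_left hM (by positivity)).trans (le_of_eq ?_)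
    unfold th
    field_simp
    norm_num
  have y0 : 0 ≤ (P.La t + 2) * P.σ t w := mul_nonneg (by linarith [h.La0 t]) (h.σn _ _)
  set y := (P.La t + 2) * P.σ t w with hy
  have p1 : P.Λ ^ 11 ≤ P.Λ ^ C := pow_le_pow_right₀ (by linarith) hC
  have b2 : P.Λ ^ 11 * P.J (t + 1) ^ 2 * y ≤ ph F P (t + 1) w := by
    refine le_trans ?_ (h.pin t ht w hw)
    rw [mul_assoc _ (P.La t + 2), ← hy]
    gcongr
  have b3 : x ≤ 2 * P.Λ ^ 2 * y := by
    refine hx.trans ?_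
    have := mul_le_mul_of_nonneg_right (mul_le_mul_of_nonneg_left h.LCw L0.le) y0
    rw [hy] at this ⊢
    nlinarith
  have b4 : P.J (t + 1) * lA * x / (th P C1 (t + 1) w * ph F P (t + 1) w) ≤
      2 * C1 ^ 2 * P.η / P.Λ := by
    rw [div_le_iff₀ (mul_pos t0 p0)]
    calc P.J (t + 1) * lA * x ≤ P.J (t + 1) * P.Λ * (2 * P.Λ ^ 2 * y) :=
          (mul_le_mul_of_nonneg_left b3 (by positivity)).trans (by gcongr)
      _ = 2 * C1 ^ 2 * P.Λ⁻¹ / P.Λ * ((P.Λ⁻¹ ^ 3 / (C1 ^ 2 * P.J (t + 1) * P.Λ ^ 3)) *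
          (P.Λ ^ 11 * P.J (t + 1) ^ 2 * y)) := by field_simp
      _ ≤ _ := by unfold th; gcongr
  rw [add_mul, add_div]
  exact add_le_add b4 b1

/-- the numerical bound for the averaged right side -/
theorem conum (h : Hyp F P C) (hC : 11 ≤ C) {C1 lA mu ob S2 M c0 z0 : ℝ} {z : ℕ → ℕ → ℝ}
    {TB BD Y : ℕ → ℝ} (h1 : 1 ≤ C1) (hl0 : 0 ≤ lA) (hl : lA ≤ P.Λ) (hS : S2 ≤ C1) (hM : M ≤ 4)
    (hTB : ∀ t < F.m, TB t ≤ K1 P * P.Cw * (P.K2 + P.K3 * P.eL + 2))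
    (hBD : ∀ t < F.m, BD t ≤ 17 * P.κ)
    (hY : ∀ t < F.m, ∀ w < P.Wn, z t w * Y t ≤ P.σ t w * (2 * P.Λ * P.Cw * (P.La t + 2)))
    (hY' : ∀ s < F.m, z s (P.Wn - 1) * Y (s + 1) ≤ P.hi (s + 1) / P.lo (s + 1) *
      P.σ s (P.Wn - 1) * (2 * P.Λ * P.Cw * (P.La (s + 1) + 2)))
    (hT : mu * ob * (c0 + z F.m (P.Wn - 1) * z0) ≤
      10 * F.k * P.Λ * Real.exp P.Lh * (Hi F P * P.σin + top F P) / (F.LL * F.Pw)) :
    RHS F.m P.Wn P.J F.r P.η P.Λ (C1 / P.η) lA mu ob z (th P C1) (ph F P) S2 M c0 z0 TB BD Y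
      ≤ (52000 + 3 * C1 ^ 2) * P.η := by
  have L2 := h.two_le
  have L0 : 0 < P.Λ := by linarith
  have e0 := h.η0
  have hW : (0 : ℝ) < P.Wn := by exact_mod_cast h.W1
  have k2 := h.kap_le (by omega)
  have a1 := num_hb h hC hl0 hl hY' hT
  have a2 : ∑ t ∈ range F.m, wg P.Wn t * (5 * ((P.J (t + 1) : ℝ) / F.r (t + 1)) * TB t +
      5 * BD t + 3584 * P.Λ ^ 4 * (lA * 7 ^ F.m * (∑ s ∈ range F.m, z s (P.Wn - 1) * Y (s + 1) +
        mu * ob * (c0 + z F.m (P.Wn - 1) * z0)))) ≤ 4 * (25178 * P.η ^ 2) := by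
    refine le_trans (sum_le_sum (g := fun t => wg P.Wn t * (25178 * P.η ^ 2)) fun t ht => ?_) ?_
    · have b1 := num_tb h (by omega) (mem_range.1 ht) (hTB t (mem_range.1 ht))
      have b2 := hBD t (mem_range.1 ht)
      refine mul_le_mul_of_nonneg_left (by linarith) ?_
      unfold wg
      split_ifs <;> positivity
    · rw [← sum_mul]
      exact mul_le_mul_of_nonneg_right (sum_wg h.W1 h.mW) (by positivity)
  have a3 : ∑ t ∈ range F.m, (∑ w ∈ range P.Wn,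
      (P.J (t + 1) * lA * z t w * Y t / (th P C1 (t + 1) w * ph F P (t + 1) w)
        + 256 * P.J (t + 1) * th P C1 (t + 1) w * P.Λ ^ 2 * (C1 / P.η) ^ 2 * M)) / (P.Wn : ℝ)
      ≤ (2 * C1 ^ 2 + 1024) * P.η := by
    refine le_trans (sum_le_card_nsmul _ _ ((2 * C1 ^ 2 + 1024) * P.η / P.Λ) fun t ht => ?_) ?_
    · rw [div_le_iff₀ hW]
      refine le_trans (sum_le_card_nsmul _ _ ((2 * C1 ^ 2 + 1024) * P.η / P.Λ) fun w hw => ?_) ?_
      · rw [mul_assoc _ (z t w)]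
        exact num_pin h hC h1 hl0 hl hM (mem_range.1 ht) (mem_range.1 hw)
          (hY t (mem_range.1 ht) w (mem_range.1 hw))
      · rw [card_range, nsmul_eq_mul, mul_comm]
    · rw [card_range, nsmul_eq_mul]
      refine le_trans (mul_le_mul_of_nonneg_right h.Lm (by positivity)) (le_of_eq ?_)
      field_simp
  have a4 := mul_le_mul_of_nonneg_left a2 (show 0 ≤ 1 / (2 * P.η) by positivity)
  have a5 : 1 / (2 * P.η) * (4 * (25178 * P.η ^ 2)) = 50356 * P.η := by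
    field_simp
    norm_num
  have a6 := mul_le_mul_of_nonneg_left hS (show 0 ≤ P.η / 2 by positivity)
  have a7 : C1 * P.η ≤ C1 ^ 2 * P.η := by gcongr; nlinarith
  have a8 : 0 ≤ C1 ^ 2 * P.η := by positivity
  unfold RHS
  linarith

end St

/-- one point of a finite weighted family that is good for two quantities -/
theorem pick {I : Type*} (s : Finset I) (p f g : I → ℝ) {a b T η : ℝ} (hp : ∀ i ∈ s, 0 ≤ p i)
    (h1 : ∑ i ∈ s, p i = 1) (hη : 0 < η) (hf : ∀ i ∈ s, -b ≤ f i) (hg : ∀ i ∈ s, 0 ≤ g i)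
    (ha : ∑ i ∈ s, p i * f i ≤ a) (hT : ∑ i ∈ s, p i * g i ≤ T) :
    ∃ i ∈ s, f i ≤ a + η ∧ g i ≤ (a + η + b) * T / η := by
  classical
  have key : ∀ (u : I → ℝ) (c : ℝ), ∑ i ∈ s, p i * u i ≤ c → ∃ i ∈ s, p i ≠ 0 ∧ u i ≤ c := by
    intro u c h
    by_contra hn
    push Not at hn
    obtain ⟨i0, hi0, hp0⟩ := exists_ne_zero_of_sum_ne_zero (h1.trans_ne one_ne_zero)
    have : ∑ i ∈ s, p i * c < ∑ i ∈ s, p i * u i := by
      refine sum_lt_sum (fun i hi => ?_) ⟨i0, hi0, mul_lt_mul_of_pos_left (hn i0 hi0 hp0)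
        ((hp i0 hi0).lt_of_ne' hp0)⟩
      by_cases h0 : p i = 0
      · simp [h0]
      · exact mul_le_mul_of_nonneg_left (hn i hi h0).le (hp i hi)
    rw [← sum_mul, h1, one_mul] at this
    linarith
  have hn : ∀ i ∈ s, 0 ≤ p i * g i := fun i hi => mul_nonneg (hp i hi) (hg i hi)
  rcases ((sum_nonneg hn).trans hT).eq_or_lt with h0 | h0
  · obtain ⟨i, hi, h2, h3⟩ := key f a ha
    refine ⟨i, hi, by linarith, ?_⟩
    have := (sum_eq_zero_iff_of_nonneg hn).1 (le_antisymm (hT.trans h0.ge) (sum_nonneg hn)) i hi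
    rw [(mul_eq_zero.1 this).resolve_left h2, ← h0]
    simp
  · obtain ⟨i, hi, _, h3⟩ := key (fun i => f i + η / T * g i) (a + η) (by
      simp only [mul_add, sum_add_distrib, mul_left_comm _ (η / T), ← mul_sum]
      have := mul_le_mul_of_nonneg_left hT (div_pos hη h0).le
      rw [div_mul_cancel₀ _ h0.ne'] at this
      linarith)
    have h4 := mul_nonneg (div_pos hη h0).le (hg i hi)
    refine ⟨i, hi, by linarith, ?_⟩
    have h5 : η / T * g i ≤ a + η + b := by linarith [hf i hi]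
    rw [div_mul_eq_mul_div, div_le_iff₀ h0] at h5
    rw [le_div_iff₀ hη]
    linarith

end Pool.Agent.P.MP_a14ce1_nt.Fu
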