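import Pool.Agent.P.MP_a14ce1_nt.Fu.CpA

/-! Section 3 on the model: covering and separation for the hidden information. -/

open Finset

namespace Pool.Agent.P.MP_a14ce1_nt.Fu.St.Cp

open Ch (pv mu rs lam)

variable {F : Fam} {P : Par}

theorem hc_card_map {N : ℕ} (S : Finset (Fin N)) (E : ℕ → Prop) [DecidablePred E] :
    (S.filter fun b : Fin N => E b).card = ((S.map Fin.valEmbedding).filter E).card := by
  rw [filter_map, card_map]
  rfl

theorem hc_lt {N : ℕ} (S : Finset (Fin N)) : ∀ b ∈ S.map Fin.valEmbedding, b < N := fun b hb => by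
  obtain ⟨a, _, rfl⟩ := mem_map.1 hb
  exact a.2

theorem hc_adm (h : Hyp0 F P) {t : ℕ} {u : Finset ℕ} (hu : u ∈ CC F t) (ha : Adm F P t u) :
    Adm F P (t + 1) (up P (t + 1) u) := by
  refine ⟨fun s hs hm => ?_, le_trans ?_ ha.2⟩
  · rw [up_up h hs]
    exact ha.1 s (by omega) hm
  · have h1 := pv_pos' h ((up_sub (P := P) (t + 1) u).trans (CC_sub hu))
    have h2 := Nat.le_of_dvd (pv_pos' h (CC_sub hu)) (pv_dvd (up_sub (P := P) (t + 1) u))
    exact Real.log_le_log (by exact_mod_cast h1) (by exact_mod_cast h2)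

theorem hc_split (h : Hyp0 F P) {t : ℕ} (ht : t < F.m) {u : Finset ℕ} (hu : u ∈ CC F t) :
    u = u ∩ F.cl (t + 1) ∪ up P (t + 1) u := by
  have h1 : u ⊆ F.Lv (t + 1) (F.m + 1) ∪ F.RR := mem_powerset.1 (mem_filter.1 hu).1
  rw [F.Lv_split (b := t + 1 + 1) (by omega) (by omega), F.Lv_succ le_rfl, F.Lv_self, empty_union,
    union_assoc] at h1
  rw [up_eq h (CC_sub hu) (show t + 1 ≤ F.m by omega), ← inter_union_distrib_left]
  exact (inter_eq_left.2 h1).symm

theorem hc_om_le (h : Hyp0 F P) (t : ℕ) (u : Finset ℕ) :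
    om F P t u ≤ F.wh (t + 1) (F.m + 1) u * (hp P t * (2 * P.Λ) * K0 F) := by
  have := h.wh_nonneg (t + 1) (F.m + 1) u
  have := hp_one h t
  have := K0_nonneg h
  have := h.L2
  unfold om
  split_ifs
  · exact le_rfl
  · positivity

theorem hc_cover (h : Hyp0 F P) (x : ℕ) {t : ℕ} (ht : t < F.m) (v : Finset ℕ) {b : Fin F.N}
    (hb : b ∈ Good F P x) :
    ∑ u ∈ (CC F t).filter (fun u => up P (t + 1) u = v ∧ u ⊆ As F x b), om F P t u
      ≤ om F P (t + 1) v := by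
  by_cases ha : Adm F P (t + 1) v
  swap
  · refine le_trans (le_of_eq (sum_eq_zero fun u hu => ?_)) (om_nonneg h _ _)
    obtain ⟨h1, h2, _⟩ := mem_filter.1 hu
    exact if_neg fun c => ha (h2 ▸ hc_adm h h1 c)
  have c0 : 0 ≤ F.wh (t + 1 + 1) (F.m + 1) v * (hp P t * (2 * P.Λ) * K0 F) := by
    have := h.wh_nonneg (t + 1 + 1) (F.m + 1) v
    have := hp_one h t
    have := K0_nonneg h
    have := h.L2
    positivity
  have s1 : ∑ u ∈ (CC F t).filter (fun u => up P (t + 1) u = v ∧ u ⊆ As F x b),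
      F.wl (t + 1) (u ∩ F.cl (t + 1)) ≤ P.hi (t + 1) := by
    refine le_trans ?_ ((mem_Good.1 hb).1 (t + 1) ht).2.1
    rw [← F.Vl_inter (Subset.refl (F.cl (t + 1))), ← h.Vt_wl ht inter_subset_right, Vt,
      ← sum_image (g := fun u => u ∩ F.cl (t + 1)) (f := F.wl (t + 1))]
    · refine sum_le_sum_of_subset_of_nonneg (fun e he => ?_) fun e _ _ => h.wl_nonneg _ _
      obtain ⟨u, hu, rfl⟩ := mem_image.1 he
      exact mem_powerset.2 (inter_subset_inter_right (mem_filter.1 hu).2.2)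
    · intro u hu u' hu' e
      obtain ⟨h1, h2, _⟩ := mem_filter.1 (mem_coe.1 hu)
      obtain ⟨h3, h4, _⟩ := mem_filter.1 (mem_coe.1 hu')
      have e' : u ∩ F.cl (t + 1) = u' ∩ F.cl (t + 1) := e
      rw [hc_split h ht h1, hc_split h ht h3, e', h2, h4]
  calc _ ≤ ∑ u ∈ (CC F t).filter (fun u => up P (t + 1) u = v ∧ u ⊆ As F x b),
        F.wl (t + 1) (u ∩ F.cl (t + 1)) *
          (F.wh (t + 1 + 1) (F.m + 1) v * (hp P t * (2 * P.Λ) * K0 F)) := by
        refine sum_le_sum fun u hu => (hc_om_le h t u).trans (le_of_eq ?_)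
        rw [← (mem_filter.1 hu).2.1, wh_up h (Nat.lt_succ_self _), F.wl_inter Subset.rfl,
          F.wh_split (b := t + 1 + 1) (by omega) (by omega), F.wh_succ le_rfl]
        simp only [Fam.wh, Ico_self, prod_empty]
        ring
    _ ≤ P.hi (t + 1) * (F.wh (t + 1 + 1) (F.m + 1) v * (hp P t * (2 * P.Λ) * K0 F)) := by
        rw [← sum_mul]
        exact mul_le_mul_of_nonneg_right s1 c0
    _ = om F P (t + 1) v := by
        rw [om, if_pos ha, hp, hp, prod_range_succ _ (t + 1)]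
        ring

theorem hc_ob (h : Hyp0 F P) : 0 ≤ Hi F P * (2 * P.Λ) * K0 F := by
  have : 1 ≤ Hi F P := hp_one h F.m
  have := K0_nonneg h
  have := h.L2
  positivity

theorem hc_top (h : Hyp0 F P) (x : ℕ) {b : Fin F.N} (hb : b ∈ Good F P x) :
    ∑ u ∈ (CC F F.m).filter (fun u => u ⊆ As F x b), om F P F.m u
      ≤ Hi F P * (2 * P.Λ) * K0 F := by
  have h1 : ((CC F F.m).filter fun u => u ⊆ As F x b).card ≤ 1 := by
    refine card_le_one.2 fun u hu u' hu' => ?_
    have key : ∀ u ∈ (CC F F.m).filter fun u => u ⊆ As F x b,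
        ∃ p ∈ dp F.RR (x + b), u = {p} := fun u hu => by
      obtain ⟨c, hc, p, hp, rfl⟩ := CC_form (mem_filter.1 hu).1
      rw [F.Lv_self, subset_empty] at hc
      subst hc
      exact ⟨p, mem_dp.2 ⟨hp, (mem_dp.1 ((mem_filter.1 hu).2 (mem_insert_self _ _))).2⟩, rfl⟩
    obtain ⟨p, hp, rfl⟩ := key u hu
    obtain ⟨p', hp', rfl⟩ := key u' hu'
    rw [card_le_one.1 (mem_Good.1 hb).2 p hp p' hp']
  refine (sum_le_card_nsmul _ _ (Hi F P * (2 * P.Λ) * K0 F) fun u _ => ?_).trans ?_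
  · refine (hc_om_le h _ u).trans (le_of_eq ?_)
    simp only [Fam.wh, Ico_self, prod_empty, one_mul]
    rfl
  · rw [nsmul_eq_mul]
    exact mul_le_of_le_one_left (hc_ob h) (by exact_mod_cast h1)

theorem hc_cell (C0 : ℕ → Finset ℕ) (Θ : Finset (Fin F.N)) (x : ℕ) {t : ℕ} {u : Finset ℕ}
    (hu : u ∈ CC F t) : ∃ p ∈ F.RR,
      ∀ b ∈ ((geo F P C0 Θ x).cell u).map Fin.valEmbedding, b < F.N ∧ p ∣ x + b := by
  obtain ⟨c, _, p, hp, rfl⟩ := CC_form hu
  refine ⟨p, hp, fun b hb => ⟨hc_lt _ b hb, ?_⟩⟩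
  obtain ⟨a, ha, rfl⟩ := mem_map.1 hb
  exact (mem_dp.1 (((geo F P C0 Θ x).mem_cell.1 ha) (mem_insert_self _ _))).2

theorem hc_q (h : Hyp0 F P) {q : ℕ} (hq : q ∈ F.RR ∪ F.HH) :
    10 * F.k * Real.exp P.Lp ≤ q := by
  have a := h.Rlo q hq
  have b := h.Dbig
  rw [two_mul, Real.exp_add, ← mul_assoc] at b
  exact le_of_mul_le_mul_right (b.trans a) (Real.exp_pos _)

theorem hidH (h : Hyp0 F P) [∀ q : F.HH, NeZero (q : ℕ)] (C0 : ℕ → Finset ℕ)
    (Θ : Finset (Fin F.N)) (x : ℕ) :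
    HidH (geo F P C0 Θ x) (wt F P x) fun (b : Fin F.N) (q : F.HH) => -((b : ℕ) : ZMod q) where
  om_nonneg := om_nonneg h
  ob_nonneg := hc_ob h
  mu_nonneg := by
    show 0 ≤ 5 * (F.k : ℝ) * Real.exp P.Lh
    positivity
  up_self := fun _ ht _ hu => up_self h ht hu
  up_mem := fun _ ht _ hu => up_mem_CC h (Nat.le_succ _) ht hu
  cover := fun _ _ ht v _ _ hb => hc_cover h x ht v hb
  cover_top := fun _ hb => hc_top h x hb
  small := by
    intro t _ _ u hu q
    obtain ⟨p, hp, hc⟩ := hc_cell (P := P) C0 Θ x hu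
    have p0 := (h.prR p hp).pos
    have h1 := card_hit_le p0 F.N (fun b hb => (hc b hb).1) (x : ZMod p)
    rw [filter_true_of_mem fun b hb => by
      have := (ZMod.natCast_eq_zero_iff _ _).2 (hc b hb).2
      push_cast at this
      linear_combination -this, card_map] at h1
    have h2 : (((geo F P C0 Θ x).cell u).card : ℝ) ≤ (F.N : ℝ) / p + 1 := by
      have : (((geo F P C0 Θ x).cell u).card : ℝ) ≤ (F.N / p : ℕ) + 1 := by exact_mod_cast h1
      linarith [Nat.cast_div_le (α := ℝ) (m := F.N) (n := p)]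
    have h3 := h.div_le_mu (mem_union_left _ hp)
    have h4 := hc_q h (mem_union_right _ q.2)
    rw [ZMod.card]
    have : (2 : ℝ) * ((geo F P C0 Θ x).cell u).card ≤ (q : ℕ) := by linarith
    exact_mod_cast this
  inj := by
    intro t _ _ u hu q v
    obtain ⟨p, hp, hc⟩ := hc_cell (P := P) C0 Θ x hu
    rw [hc_card_map _ fun b : ℕ => -(b : ZMod q) = v]
    refine card_hit_cell (c := p) (N := F.N) (n := x) ?_ ?_ hc v
    · exact (Nat.coprime_primes (h.prR p hp) (h.prH q q.2)).2 fun e =>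
        disjoint_left.1 h.dRH hp (e ▸ q.2)
    · have h1 := h.Rlo p (mem_union_left _ hp)
      have h2 := hc_q h (mem_union_right _ q.2)
      have h3 := mul_le_mul_of_nonneg_left h2 (Nat.cast_nonneg (α := ℝ) p)
      have h4 := mul_le_mul_of_nonneg_left h1 (show (0 : ℝ) ≤ 10 * F.k by positivity)
      have h5 : (0 : ℝ) ≤ F.k * F.D := mul_nonneg (Nat.cast_nonneg _) (by linarith [h.D20])
      have : (F.N : ℝ) ≤ p * (q : ℕ) := by nlinarith [h.Nhi]
      exact_mod_cast this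
  fib := by
    intro q v
    have q0 := (h.prH q q.2).pos
    have q0' : (0 : ℝ) < (q : ℕ) := by exact_mod_cast q0
    rw [hc_card_map _ fun b : ℕ => -(b : ZMod q) = v]
    have h1 := card_hit_le q0 F.N (hc_lt univ) v
    have h2 : (((((univ : Finset (Fin F.N)).map Fin.valEmbedding).filter
        fun b : ℕ => -(b : ZMod q) = v).card : ℕ) : ℝ) ≤ (F.N / q : ℕ) + 1 := by exact_mod_cast h1
    have h3 := Nat.cast_div_le (α := ℝ) (m := F.N) (n := q)
    have h4 : (F.N : ℝ) / (q : ℕ) ≤ 4 * F.k * Real.exp P.Lh := by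
      rw [div_le_iff₀ q0']
      have := mul_le_mul_of_nonneg_left (h.Hlo q q.2) (show (0 : ℝ) ≤ 4 * F.k by positivity)
      nlinarith [h.Nhi]
    have h5 : 1 ≤ Real.exp P.Lh := Real.one_le_exp h.Lh0
    have h6 := h.k2'
    show _ ≤ 5 * (F.k : ℝ) * Real.exp P.Lh
    nlinarith

end Pool.Agent.P.MP_a14ce1_nt.Fu.St.Cp
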