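import Pool.Agent.P.MP_a14ce1_nt.Fu.CpA

/-! Section 3 on the model: the marginals of the weight `tau`. -/

open Finset

namespace Pool.Agent.P.MP_a14ce1_nt.Fu.St.Cp

open Ch (pv mu rs lam)

theorem pair_le (S : Finset (Finset ℕ)) (gs : Finset ℕ → Finset (Finset ℕ)) (c0 L : Finset ℕ)
    (E : Finset (Finset ℕ)) (φ : Finset ℕ → Finset ℕ → ℝ) (ω : Finset ℕ → ℝ)
    (hS : ∀ u ∈ S, Disjoint u c0) (hg : ∀ u ∈ S, ∀ g ∈ gs u, g ⊆ c0) (hL : c0 ⊆ L)
    (hd : ∀ u ∈ S, ∀ u' ∈ S, u \ L = u' \ L) (hω : ∀ e, 0 ≤ ω e)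
    (h : ∀ u ∈ S, ∀ g ∈ gs u, (g ∪ u) ∩ L ∈ E ∧ φ u g ≤ ω ((g ∪ u) ∩ L)) :
    ∑ u ∈ S, ∑ g ∈ gs u, φ u g ≤ ∑ e ∈ E, ω e := by
  rw [sum_sigma']
  have inj : Set.InjOn (fun z : (_ : Finset ℕ) × Finset ℕ => (z.2 ∪ z.1) ∩ L) (S.sigma gs) := by
    rintro ⟨u, g⟩ h1 ⟨u', g'⟩ h2 e
    obtain ⟨a1, a2⟩ := mem_sigma.1 (mem_coe.1 h1)
    obtain ⟨b1, b2⟩ := mem_sigma.1 (mem_coe.1 h2)
    have e1 := Finset.ext_iff.1 e
    have e2 := Finset.ext_iff.1 (hd u a1 u' b1)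
    have d1 := disjoint_left.1 (hS u a1)
    have d2 := disjoint_left.1 (hS u' b1)
    have g1 := hg u a1 g a2
    have g2 := hg u' b1 g' b2
    simp only [mem_inter, mem_union, mem_sdiff] at e1 e2
    have k1 : u = u' := by
      ext q
      have := e1 q
      have := e2 q
      have := @d1 q
      have := @d2 q
      have := @g1 q
      have := @g2 q
      tauto
    have k2 : g = g' := by
      ext q
      have := e1 q
      have := @d1 q
      have := @d2 q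
      have := @g1 q
      have := @g2 q
      have := @hL q
      tauto
    rw [k1, k2]
  calc _ ≤ ∑ z ∈ S.sigma gs, ω ((z.2 ∪ z.1) ∩ L) :=
        sum_le_sum fun z hz => (h _ (mem_sigma.1 hz).1 _ (mem_sigma.1 hz).2).2
    _ = ∑ e ∈ (S.sigma gs).image (fun z => (z.2 ∪ z.1) ∩ L), ω e := (sum_image inj).symm
    _ ≤ _ := sum_le_sum_of_subset_of_nonneg (fun e he => by
        obtain ⟨z, hz, rfl⟩ := mem_image.1 he
        exact (h _ (mem_sigma.1 hz).1 _ (mem_sigma.1 hz).2).1) fun e _ _ => hω e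

variable {F : Fam} {P : Par}

theorem Lv_one : F.Lv 0 1 = F.cl 0 := by simp [Fam.Lv]

theorem cl0_Lo : F.cl 0 ⊆ F.Lo := F.cl_sub le_rfl (Nat.succ_pos _)

theorem CC0_disj (h : Hyp0 F P) {u : Finset ℕ} (hu : u ∈ CC F 0) : Disjoint u (F.cl 0) := by
  refine Disjoint.mono_left (mem_powerset.1 (mem_filter.1 hu).1) (disjoint_union_left.2 ⟨?_, ?_⟩)
  · rw [← Lv_one]
    exact (h.dLv le_rfl le_rfl).symm
  · exact ((dLR h).mono_left cl0_Lo).symm

theorem gs_sub {i0 x : ℕ} {a : Fin F.N} {u g : Finset ℕ} (hg : g ∈ gs F P i0 x a u) :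
    g ⊆ As F x a ∧ g ⊆ F.cl 0 := by
  classical
  exact subset_inter_iff.1 (mem_powerset.1 (mem_filter.1 hg).1)

theorem gs_win {i0 x : ℕ} {a : Fin F.N} {u g : Finset ℕ} (hg : g ∈ gs F P i0 x a u) :
    F.win (pv g * pv u) := by
  classical
  exact (mem_filter.1 hg).2.1

theorem union_inter_of_disj {g u S : Finset ℕ} (hd : Disjoint g S) : (g ∪ u) ∩ S = u ∩ S := by
  rw [union_inter_distrib_right, disjoint_iff_inter_eq_empty.1 hd, empty_union]

theorem wh_hi (h : Hyp0 F P) {a : ℕ} (ha : 1 ≤ a) {g : Finset ℕ} (hg : g ⊆ F.cl 0)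
    (u : Finset ℕ) : F.wh a (F.m + 1) (g ∪ u) = F.wh a (F.m + 1) u := by
  rw [← F.wh_inter Subset.rfl, union_inter_of_disj, F.wh_inter Subset.rfl]
  rw [← Lv_one] at hg
  exact (h.dLv ha le_rfl).mono_left hg

theorem w_pair (h : Hyp0 F P) {u g : Finset ℕ} (hu : u ∈ CC F 0) (hg : g ⊆ F.cl 0) :
    F.wh 1 (F.m + 1) u * F.wl 0 g = F.wh 0 (F.m + 1) (g ∪ u) := by
  rw [F.wh_split (Nat.zero_le 1) (by omega), wh_hi h le_rfl hg, mul_comm]
  congr 1
  have : F.wh 0 1 (g ∪ u) = F.wl 0 (g ∪ u) := by simp [Fam.wh]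
  rw [this, ← F.wl_inter Subset.rfl (g ∪ u), union_comm, union_inter_of_disj (CC0_disj h hu),
    F.wl_inter Subset.rfl]

theorem sdiff_Lv (h : Hyp0 F P) {u : Finset ℕ} (hu : u ⊆ F.Lo ∪ F.RR) {t : ℕ} (ht : t ≤ F.m) :
    u \ F.Lv 0 (t + 1) = up P t u := by
  rw [up_eq h hu ht]
  have e := F.Lv_split (Nat.zero_le (t + 1)) (Nat.succ_le_succ ht)
  have d1 := disjoint_left.1 (h.dLv (a := 0) (le_refl (t + 1)) (le_refl (F.m + 1)))
  have d2 := disjoint_left.1 ((dLR h).mono_left (F.Lv_sub (a := 0) (Nat.succ_le_succ ht)))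
  ext q
  have a1 := @hu q
  have := @d1 q
  have := @d2 q
  rw [Fam.Lo, e] at a1
  simp only [mem_sdiff, mem_inter, mem_union] at a1 ⊢
  tauto

theorem sdiff_Lw (h : Hyp0 F P) {u : Finset ℕ} (hu : u ⊆ F.Lo ∪ F.RR) {t : ℕ} (ht : t < F.m) :
    u \ Lw F (t + 1) = up P (t + 1) u ∪ u ∩ F.R (t + 1) := by
  rw [← sdiff_Lv h hu ht, F.Lv_succ (Nat.zero_le (t + 1)), Lw]
  have d1 := disjoint_left.1 (h.dGR (t + 1) ht)
  have d2 := disjoint_left.1 ((h.dLv_cl (a := 0) ht).mono_right (F.R_sub (t + 1)))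
  ext q
  have := @d1 q
  have := @d2 q
  simp only [Fam.cl, mem_sdiff, mem_inter, mem_union]
  tauto

theorem up_disj_R (h : Hyp0 F P) {t : ℕ} (ht : t ≤ F.m) (u w : Finset ℕ) :
    Disjoint (up P t u) (w ∩ F.R t) := disjoint_left.2 fun q h1 h2 =>
  absurd (h.tple t ht q (F.R_sub t (mem_inter.1 h2).2)) (not_le.2 (mem_filter.1 h1).2)

theorem tau_eq {i0 x : ℕ} {a : Fin F.N} {u : Finset ℕ} (h : a ∈ Good F P x ∧ u ⊆ As F x a) :
    tau F P i0 x a u = ∑ g ∈ gs F P i0 x a u,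
      F.wh 1 (F.m + 1) u * F.wl 0 g * (wa F (pr F u) (x + a) * K0 F) := by
  rw [tau, bs, if_pos h, F0, mul_sum]
  exact sum_congr rfl fun _ _ => by ring

theorem tau_ne {i0 x : ℕ} {a : Fin F.N} {u : Finset ℕ} (h : tau F P i0 x a u ≠ 0) :
    (a ∈ Good F P x ∧ u ⊆ As F x a) ∧ F.wh 1 (F.m + 1) u ≠ 0 ∧ ∃ g, g ∈ gs F P i0 x a u := by
  have h1 := left_ne_zero_of_mul h
  obtain ⟨g, hg, _⟩ := exists_ne_zero_of_sum_ne_zero (right_ne_zero_of_mul h)
  unfold bs at h1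
  split_ifs at h1 with h2
  · exact ⟨h2, left_ne_zero_of_mul h1, g, hg⟩
  · exact absurd rfl h1

theorem tau_marg (h : Hyp0 F P) (i0 x : ℕ) {t : ℕ} (ht : t ≤ F.m) (a : Fin F.N) (v : Finset ℕ) :
    ∑ u ∈ (CC F 0).filter (fun u => up P t u = v), tau F P i0 x a u ≤ om F P t v := by
  rw [← sum_filter_ne_zero]
  set S := ((CC F 0).filter (fun u => up P t u = v)).filter fun u => tau F P i0 x a u ≠ 0
  have hS : ∀ u ∈ S, u ∈ CC F 0 ∧ up P t u = v ∧ tau F P i0 x a u ≠ 0 := fun u hu =>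
    ⟨(mem_filter.1 (mem_filter.1 hu).1).1, (mem_filter.1 (mem_filter.1 hu).1).2,
      (mem_filter.1 hu).2⟩
  rcases S.eq_empty_or_nonempty with he | ⟨u0, hu0⟩
  · rw [he, sum_empty]
    exact om_nonneg h t v
  obtain ⟨a1, a2, a3⟩ := hS u0 hu0
  obtain ⟨b1, _, g0, b3⟩ := tau_ne a3
  have c0 : 0 ≤ F.wh (t + 1) (F.m + 1) v * (wa F (pr F v) (x + a) * K0 F) :=
    mul_nonneg (h.wh_nonneg _ _ _) (mul_nonneg (wa_nonneg h _ _) (K0_nonneg h))
  rw [sum_congr rfl fun u hu => tau_eq (tau_ne (hS u hu).2.2).1, om,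
    if_pos (a2 ▸ adm_of_gd h a1 b3 ht)]
  refine (pair_le S _ (F.cl 0) (F.Lv 0 (t + 1)) (As F x a ∩ F.Lv 0 (t + 1)).powerset _
    (fun e => F.wh (t + 1) (F.m + 1) v * (wa F (pr F v) (x + a) * K0 F) * F.wh 0 (t + 1) e)
    (fun u hu => CC0_disj h (hS u hu).1) (fun u _ g hg => (gs_sub hg).2)
    (F.cl_sub le_rfl (Nat.succ_pos t)) (fun u hu u' hu' => ?_)
    (fun e => mul_nonneg c0 (h.wh_nonneg _ _ _)) fun u hu g hg => ⟨?_, le_of_eq ?_⟩).trans ?_
  · rw [sdiff_Lv h (CC_sub (hS u hu).1) ht, sdiff_Lv h (CC_sub (hS u' hu').1) ht,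
      (hS u hu).2.1, (hS u' hu').2.1]
  · exact mem_powerset.2 (inter_subset_inter
      (union_subset (gs_sub hg).1 (tau_ne (hS u hu).2.2).1.2) Subset.rfl)
  · rw [w_pair h (hS u hu).1 (gs_sub hg).2, F.wh_split (Nat.zero_le (t + 1)) (by omega),
      wh_hi h (by omega) (gs_sub hg).2, F.wh_inter Subset.rfl, ← (hS u hu).2.1, pr_up h ht,
      wh_up h (Nat.lt_succ_self t)]
    ring
  · rw [← mul_sum, ← Vt, h.Vt_wh (Nat.zero_le _) (by omega) inter_subset_right,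
      F.V_inter Subset.rfl, mul_assoc]
    refine mul_le_mul_of_nonneg_left ?_ (h.wh_nonneg _ _ _)
    have k1 := V_le_hp h (mem_Good.1 b1.1).1 ht
    have k2 := wa_le h (pr F v) (x + a)
    have k3 := K0_nonneg h
    have k4 := h.V_nonneg 0 (t + 1) (As F x a)
    have k5 := wa_nonneg h (pr F v) (x + a)
    calc _ = F.V 0 (t + 1) (As F x a) * wa F (pr F v) (x + a) * K0 F := by ring
      _ ≤ _ := by gcongr; exact k4.trans k1

theorem log_win (h : Hyp0 F P) {d : ℕ} (hw : F.win d) :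
    Real.log F.D ≤ Real.log d ∧ Real.log d ≤ Real.log F.D + 1 := by
  have d0 : 0 < F.D := by linarith [h.D20]
  have e0 := h.e0
  refine ⟨Real.log_le_log d0 hw.1, (Real.log_le_log (d0.trans_le hw.1) hw.2.le).trans ?_⟩
  rw [Real.log_mul (by positivity) d0.ne']
  have := Real.log_le_sub_one_of_pos (show 0 < 1 + F.ε by positivity)
  linarith [h.e4]

theorem log_pv_union (h : Hyp0 F P) {u v : Finset ℕ} (hu : u ⊆ F.Lo ∪ F.RR)
    (hv : v ⊆ F.Lo ∪ F.RR) (hd : Disjoint u v) :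
    Real.log (pv (u ∪ v)) = Real.log (pv u) + Real.log (pv v) := by
  rw [pv_union hd, Nat.cast_mul, Real.log_mul (by exact_mod_cast (pv_pos' h hu).ne')
    (by exact_mod_cast (pv_pos' h hv).ne')]

theorem log_pv_mono (h : Hyp0 F P) {u v : Finset ℕ} (hv : v ⊆ F.Lo ∪ F.RR) (huv : u ⊆ v) :
    Real.log (pv u) ≤ Real.log (pv v) :=
  Real.log_le_log (by exact_mod_cast pv_pos' h (huv.trans hv))
    (by exact_mod_cast Nat.le_of_dvd (pv_pos' h hv) (pv_dvd huv))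

theorem ww_nonneg (h : Hyp0 F P) (t : ℕ) (e : Finset ℕ) : 0 ≤ F.wh 0 t e * F.wG t e :=
  mul_nonneg (h.wh_nonneg _ _ _) (h.wG_pos _ _).le

theorem Sw_nonneg (h : Hyp0 F P) (t : ℕ) (T : Finset ℕ) (y : ℝ) : 0 ≤ Sw F t T y :=
  sum_nonneg fun e _ => ww_nonneg h t e

theorem tau_sw (h : Hyp0 F P) (i0 x : ℕ) {t : ℕ} (ht : t < F.m) (a : Fin F.N) (v Q : Finset ℕ) :
    ∑ u ∈ (CC F 0).filter (fun u => up P (t + 1) u = v ∧ u ∩ F.R (t + 1) = Q), tau F P i0 x a u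
      ≤ F.wh (t + 2) (F.m + 1) v * F.wR (t + 1) Q * (wa F (pr F v) (x + a) * K0 F) *
        Sw F (t + 1) (As F x a ∩ Lw F (t + 1))
          (Real.log F.D - (Real.log (pv v) + Real.log (pv Q))) := by
  rw [← sum_filter_ne_zero]
  set S := ((CC F 0).filter (fun u => up P (t + 1) u = v ∧ u ∩ F.R (t + 1) = Q)).filter
    fun u => tau F P i0 x a u ≠ 0
  have hS : ∀ u ∈ S, u ∈ CC F 0 ∧ (up P (t + 1) u = v ∧ u ∩ F.R (t + 1) = Q) ∧
      tau F P i0 x a u ≠ 0 := fun u hu =>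
    ⟨(mem_filter.1 (mem_filter.1 hu).1).1, (mem_filter.1 (mem_filter.1 hu).1).2,
      (mem_filter.1 hu).2⟩
  have c0 : 0 ≤ F.wh (t + 2) (F.m + 1) v * F.wR (t + 1) Q * (wa F (pr F v) (x + a) * K0 F) :=
    mul_nonneg (mul_nonneg (h.wh_nonneg _ _ _) (F.wR_nonneg _ _))
      (mul_nonneg (wa_nonneg h _ _) (K0_nonneg h))
  have hL : F.cl 0 ⊆ Lw F (t + 1) :=
    (F.cl_sub le_rfl (Nat.succ_pos t)).trans subset_union_left
  rw [sum_congr rfl fun u hu => tau_eq (tau_ne (hS u hu).2.2).1, Sw, mul_sum]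
  refine pair_le S _ (F.cl 0) (Lw F (t + 1)) _ _ _
    (fun u hu => CC0_disj h (hS u hu).1) (fun u _ g hg => (gs_sub hg).2) hL
    (fun u hu u' hu' => ?_) (fun e => mul_nonneg c0 (ww_nonneg h _ e))
    fun u hu g hg => ⟨?_, le_of_eq ?_⟩
  · rw [sdiff_Lw h (CC_sub (hS u hu).1) ht, sdiff_Lw h (CC_sub (hS u' hu').1) ht,
      (hS u hu).2.1.1, (hS u hu).2.1.2, (hS u' hu').2.1.1, (hS u' hu').2.1.2]
  · obtain ⟨a1, ⟨rfl, rfl⟩, a3⟩ := hS u hu
    have b1 : g ∪ u ⊆ As F x a := union_subset (gs_sub hg).1 (tau_ne a3).1.2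
    have b2 : g ∪ u ⊆ F.Lo ∪ F.RR := b1.trans (As_sub x a)
    have b3 := CC_sub a1
    refine mem_filter.2 ⟨mem_powerset.2 (inter_subset_inter b1 Subset.rfl), ?_⟩
    have e1 : (g ∪ u) \ Lw F (t + 1) = up P (t + 1) u ∪ u ∩ F.R (t + 1) := by
      rw [union_sdiff_distrib, sdiff_eq_empty_iff_subset.2 ((gs_sub hg).2.trans hL), empty_union,
        sdiff_Lw h b3 ht]
    have e2 := log_pv_union h (sdiff_subset.trans b2) (inter_subset_left.trans b2)
      (disjoint_sdiff_inter (g ∪ u) (Lw F (t + 1)))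
    rw [sdiff_union_inter, e1, log_pv_union h ((up_sub _ _).trans b3) (inter_subset_left.trans b3)
      (up_disj_R h ht u u), pv_union ((CC0_disj h a1).symm.mono_left (gs_sub hg).2)] at e2
    have e3 := log_win h (gs_win hg)
    constructor <;> linarith [e3.1, e3.2]
  · obtain ⟨a1, ⟨rfl, rfl⟩, _⟩ := hS u hu
    have d : Disjoint g (F.R (t + 1)) :=
      (h.dcl (Nat.zero_le _) ht (by omega)).mono (gs_sub hg).2 (F.R_sub _)
    rw [w_pair h a1 (gs_sub hg).2, F.wh_split (Nat.zero_le (t + 2)) (by omega),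
      wh_hi h (by omega) (gs_sub hg).2, F.wh_succ (Nat.zero_le (t + 1)), Fam.wl, Lw,
      F.wh_inter subset_union_left, F.wG_inter subset_union_right, pr_up h ht,
      wh_up h (Nat.lt_succ_self (t + 1)), ← union_inter_of_disj (u := u) d,
      F.wR_inter Subset.rfl]
    ring

theorem Sw_le (h : Hyp0 F P) {t : ℕ} (ht : t ≤ F.m) {T : Finset ℕ} (hT : T ⊆ Lw F t) (y : ℝ) :
    Sw F t T y ≤ Vw F t T := by
  refine (sum_le_sum_of_subset_of_nonneg (filter_subset _ _)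
    fun e _ _ => ww_nonneg h t e).trans (le_of_eq ?_)
  have e : T = T ∩ F.Lv 0 t ∪ T ∩ F.G t := by
    rw [← inter_union_distrib_left]; exact (inter_eq_left.2 hT).symm
  have e1 := Vt_wm (w := F.wh 0 t) (w' := F.wG t)
    ((h.dLv_cl (a := 0) ht).mono_right (F.G_sub t)) (inter_subset_right (s₁ := T))
    (inter_subset_right (s₁ := T))
  rw [← e, h.Vt_wh (Nat.zero_le _) (by omega) inter_subset_right, F.Vt_wG inter_subset_right,
    F.V_inter Subset.rfl, F.VG_inter Subset.rfl] at e1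
  rw [Vw, ← e1, Vt]
  exact sum_congr rfl fun c _ => by rw [wm, F.wh_inter Subset.rfl, F.wG_inter Subset.rfl]

theorem log_pv_le {S : Finset ℕ} {y : ℝ} (h0 : ∀ q ∈ S, q ≠ 0) (h : ∀ q ∈ S, Real.log q ≤ y) :
    Real.log (pv S) ≤ S.card * y := by
  rw [pv, Nat.cast_prod, Real.log_prod fun q hq => by exact_mod_cast h0 q hq, ← nsmul_eq_mul]
  exact sum_le_card_nsmul _ _ _ h

theorem card_of_wh {u : Finset ℕ} (hw : F.wh 1 (F.m + 1) u ≠ 0) {t : ℕ} (ht : t < F.m) :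
    (u ∩ F.R (t + 1)).card = F.r (t + 1) := by
  have := right_ne_zero_of_mul (prod_ne_zero_iff.1 hw (t + 1) (mem_Ico.2 ⟨by omega, by omega⟩))
  by_contra hc
  exact this (by rw [Fam.wR, if_neg hc, zero_div])

theorem cell_one (h : Hyp0 F P) (C0 : ℕ → Finset ℕ) (Θ : Finset (Fin F.N)) (x : ℕ)
    {u : Finset ℕ} (hu : u ⊆ F.Lo ∪ F.RR) (hN : F.N ≤ pv u) :
    ((geo F P C0 Θ x).cell u).card ≤ 1 := by
  have hp : ∀ q ∈ u, q.Prime := fun q hq => (mem_union.1 (hu hq)).elim (h.prLo q) (h.prR q)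
  have key : ∀ b ∈ (geo F P C0 Θ x).cell u, pv u ∣ x + b := fun b hb =>
    (pv_dvd_iff hp).2 fun q hq => (mem_dp.1 ((Geo.mem_cell _).1 hb hq)).2
  have k2 : ∀ b ∈ (geo F P C0 Θ x).cell u, ∀ b' ∈ (geo F P C0 Θ x).cell u, b ≤ b' → b = b' := by
    intro b hb b' hb' hle
    have d := Nat.dvd_sub (key b' hb') (key b hb)
    have := Nat.eq_zero_of_dvd_of_lt d (by have := b'.2; omega)
    exact Fin.ext (by have : (b : ℕ) ≤ b' := hle; omega)
  exact card_le_one.2 fun b hb b' hb' =>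
    (le_total b b').elim (k2 b hb b' hb') fun e => (k2 b' hb' b hb e).symm

theorem tau_unl (h : Hyp0 F P) (i0 x : ℕ) {t : ℕ} (ht : t < F.m) (a : Fin F.N) (v Q : Finset ℕ) :
    ((As F x a ∩ F.R (t + 1)).card.choose (F.r (t + 1)) : ℝ) *
      ∑ u ∈ (NB F P x t a).filter (fun u => up P (t + 1) u = v ∧ u ∩ F.R (t + 1) = Q),
        tau F P i0 x a u ≤ tb F P x t a v := by
  classical
  by_cases h0 : ∑ u ∈ (NB F P x t a).filter (fun u => up P (t + 1) u = v ∧ u ∩ F.R (t + 1) = Q),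
      tau F P i0 x a u = 0
  · rw [h0, mul_zero]
    exact tb_nonneg h x t a v
  obtain ⟨u, hu, a3⟩ := exists_ne_zero_of_sum_ne_zero h0
  obtain ⟨a0, rfl, rfl⟩ := mem_filter.1 hu
  obtain ⟨a1, n1, n2, _, n4, n5⟩ := mem_filter.1 a0
  obtain ⟨b1, b2, g, b3⟩ := tau_ne a3
  have hm : t + 1 ∈ Icc 1 F.m := mem_Icc.2 ⟨by omega, ht⟩
  have c1 := card_of_wh b2 ht
  have c2 : u ∩ F.R (t + 1) ⊆ As F x a ∩ F.R (t + 1) := inter_subset_inter b1.2 Subset.rfl
  have c3 : As F x a ∩ F.R (t + 1) ⊆ F.Lo ∪ F.RR := inter_subset_left.trans (As_sub x a)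
  have hI : Iv F P (t + 1) (As F x a) (up P (t + 1) u) := by
    have d1 := log_pv_mono h c3 c2
    have d2 := log_pv_union h (sdiff_subset.trans c3) (c2.trans c3)
      (sdiff_disjoint (s := u ∩ F.R (t + 1)) (t := As F x a ∩ F.R (t + 1)))
    rw [sdiff_union_of_subset c2] at d2
    have d3 := log_pv_le (S := (As F x a ∩ F.R (t + 1)) \ (u ∩ F.R (t + 1)))
      (y := P.eL * P.l (t + 1))
      (fun q hq => ((mem_union.1 (c3 (mem_sdiff.1 hq).1)).elim (h.prLo q) (h.prR q)).ne_zero)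
      fun q hq => (h.Rt _ hm q (mem_inter.1 (mem_sdiff.1 hq).1).2).2
    have d4 : ((((As F x a ∩ F.R (t + 1)) \ (u ∩ F.R (t + 1))).card : ℕ) : ℝ) ≤ P.K3 := by
      rw [card_sdiff_of_subset c2, c1]
      exact_mod_cast (by omega)
    have d5 := mul_le_mul_of_nonneg_right d4
      (mul_nonneg h.eL0 (zero_le_one.trans (h.l1 (t + 1))))
    have d6 := (adm_of_gd h a1 b3 (Nat.zero_le _)).2
    rw [up_self h (Nat.zero_le _) a1] at d6
    have d7 := log_pv_mono h (CC_sub a1)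
      (union_subset (up_sub (P := P) (t + 1) u) (inter_subset_left (s₂ := F.R (t + 1))))
    rw [log_pv_union h ((up_sub _ _).trans (CC_sub a1)) (inter_subset_left.trans (CC_sub a1))
      (up_disj_R h ht u u)] at d7
    unfold lu at n4
    constructor <;> linarith
  rw [tb, if_pos ⟨b1.1, (up_sub _ _).trans b1.2, adm_of_gd h a1 b3 ht, hI⟩]
  have k1 := (sum_le_sum_of_subset_of_nonneg (filter_subset_filter _
    (show NB F P x t a ⊆ CC F 0 from filter_subset _ _)) fun u _ _ => tau_nonneg h i0 x a u).trans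
      (tau_sw h i0 x ht a (up P (t + 1) u) (u ∩ F.R (t + 1)))
  have k2 : Sw F (t + 1) (As F x a ∩ Lw F (t + 1)) (Real.log F.D - lu F P (t + 1) u) ≤
      min 1 (K1 P / P.l (t + 1)) * Vw F (t + 1) (As F x a ∩ Lw F (t + 1)) := by
    rcases min_choice 1 (K1 P / P.l (t + 1)) with e | e <;> rw [e]
    · rw [one_mul]
      exact Sw_le h ht inter_subset_right _
    · exact n5
  have k3 : 0 ≤ F.wh (t + 2) (F.m + 1) (up P (t + 1) u) * F.wR (t + 1) (u ∩ F.R (t + 1)) *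
      (wa F (pr F (up P (t + 1) u)) (x + a) * K0 F) :=
    mul_nonneg (mul_nonneg (h.wh_nonneg _ _ _) (F.wR_nonneg _ _))
      (mul_nonneg (wa_nonneg h _ _) (K0_nonneg h))
  refine (mul_le_mul_of_nonneg_left (k1.trans (mul_le_mul_of_nonneg_left k2 k3))
    (Nat.cast_nonneg _)).trans (le_of_eq ?_)
  rw [F.wR_inter Subset.rfl, Fam.wR, if_pos c1, Vw, Lw, F.V_inter subset_union_left,
    F.VG_inter subset_union_right, F.V_succ (Nat.zero_le (t + 1)), Fam.Vl, Fam.VR]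
  ring

theorem tb_le (h : Hyp0 F P) (x : ℕ) {t : ℕ} (ht : t < F.m) (a : Fin F.N) (v : Finset ℕ) :
    tb F P x t a v ≤ om F P (t + 1) v := by
  unfold tb
  split_ifs with h1
  swap
  · exact om_nonneg h _ _
  rw [om, if_pos h1.2.2.1]
  refine mul_le_mul_of_nonneg_left ?_ (h.wh_nonneg _ _ _)
  have k1 := V_le_hp h (mem_Good.1 h1.1).1 (show t + 1 ≤ F.m from ht)
  have k2 := wa_le h (pr F v) (x + a)
  have k3 := K0_nonneg h
  have k4 := h.V_nonneg 0 (t + 2) (As F x a)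
  have k5 := wa_nonneg h (pr F v) (x + a)
  have k6 : F.V 0 (t + 2) (As F x a) * min 1 (K1 P / P.l (t + 1)) ≤ hp P (t + 1) :=
    (mul_le_of_le_one_right k4 (min_le_left _ _)).trans k1
  rw [← mul_assoc]
  refine mul_le_mul_of_nonneg_right (mul_le_mul k6 k2 k5 (k4.trans k1)) k3

theorem tauH (h : Hyp0 F P) (C0 : ℕ → Finset ℕ) (Θ : Finset (Fin F.N)) (i0 x : ℕ) :
    TauH (geo F P C0 Θ x) (wt F P x) (tau F P i0 x) (NB F P x) (tb F P x) := by
  classical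
  refine ⟨tau_nonneg h i0 x, fun a u hu h0 => ?_, fun t ht a v => tau_marg h i0 x ht a v,
    fun t a => filter_subset _ _, fun t ht a u hu h0 => ?_, fun t ht a v Q => ?_,
    tb_nonneg h x, fun t ht a v => tb_le h x ht a v, fun t ht a v h0 => ?_⟩
  · obtain ⟨b1, b2, _⟩ := tau_ne h0
    refine ⟨b1.1, b1.2, fun t ht => ?_, fun t ht => up_mem_CC h (Nat.zero_le t) ht hu⟩
    change (u ∩ RT F (t + 1)).card = F.r (t + 1)
    rw [RT_eq ht]
    exact card_of_wh b2 ht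
  · obtain ⟨a1, n1, _, n3, _⟩ := mem_filter.1 hu
    change F.r (t + 1) < (As F x a ∩ RT F (t + 1)).card ∧ ∀ q ∈ RT F (t + 1), _
    rw [RT_eq ht]
    refine ⟨n1, fun q hq hqu => cell_one h C0 Θ x (insert_subset (mem_union_left _
      (F.cl_sub (Nat.zero_le _) (Nat.succ_lt_succ ht) (F.R_sub _ hq)))
      ((up_sub _ _).trans (CC_sub a1))) ?_⟩
    have e : pv (insert q (up P t u)) = q * pv (up P t u) :=
      prod_insert fun e => hqu (up_sub _ _ e)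
    have := mul_le_mul_of_nonneg_left (h.Rt (t + 1) (mem_Icc.2 ⟨by omega, ht⟩) q hq).1
      (Nat.cast_nonneg (α := ℝ) (pv (up P t u)))
    rw [geo_up, e, mul_comm]
    exact_mod_cast n3.trans this
  · have := tau_unl h i0 x ht a v Q
    rw [← RT_eq ht] at this
    exact this
  · unfold tb at h0
    split_ifs at h0 with h1
    · exact ⟨h1.1, h1.2.1⟩
    · exact absurd rfl h0

end Pool.Agent.P.MP_a14ce1_nt.Fu.St.Cp
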