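import Pool.Agent.P.MP_a14ce1_nt.Fu.CpA

/-!
Section 3 on the model: masses at one site.
-/

open Finset

namespace Pool.Agent.P.MP_a14ce1_nt.Fu.St.Cp

open Ch (pv mu rs lam)

variable {F : Fam} {P : Par}

theorem Lv01 : F.Lv 0 1 = F.cl 0 := by simp [Fam.Lv]

theorem wh01 (g : Finset ℕ) : F.wh 0 1 g = F.wl 0 g := by simp [Fam.wh]

theorem w_union (h : Hyp0 F P) {g c : Finset ℕ} (hg : g ⊆ F.Lv 0 1)
    (hc : c ⊆ F.Lv 1 (F.m + 1)) : F.w (g ∪ c) = F.wl 0 g * F.wh 1 (F.m + 1) c := by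
  rw [Fam.w, Hyp0.wh_eq_wm (Nat.zero_le 1) (Nat.le_add_left 1 _),
    wm_union (h.dLv le_rfl le_rfl) hg hc, wh01]

theorem rs_win (h : Hyp0 F P) {c : Finset ℕ} (hc : c ⊆ F.Lo) :
    rs (F.RR.filter fun p => F.win (pv c * p)) ≤ 4 * (F.LL * F.Pw) := by
  have c0 : (0 : ℝ) < pv c := by exact_mod_cast h.pv_pos hc
  refine le_of_eq_of_le (congrArg rs (filter_congr fun p _ => ?_)) (h.win1 (F.D / pv c))
  rw [Fam.win, div_le_iff₀ c0, ← mul_div_assoc, lt_div_iff₀ c0, Nat.cast_mul, mul_comm (p : ℝ)]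

/-- the objects of one site, as pairs (cofactor, prime) -/
theorem site_le (h : Hyp0 F P) (i0 n : ℕ) (a : Fin F.N) {Φ : Finset ℕ → Finset ℕ → ℝ}
    (hΦ : ∀ c T, 0 ≤ Φ c T) {S : Finset (Finset ℕ)} (hS : S ⊆ CC F 0)
    (hE : ∀ u ∈ S, a ∈ Good F P n → u ⊆ As F n a → F.wh 1 (F.m + 1) u ≠ 0 →
      ∀ g ∈ gs F P i0 n a u, 1 ≤ Φ ((g ∪ u) ∩ F.Lo) (dp F.Lo (n + a))) :
    ∑ u ∈ S, tau F P i0 n a u ≤ ∑ p ∈ F.RR, if p ∣ n + a then
      (∑ c ∈ (dp F.Lo (n + a)).powerset,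
        if F.win (pv c * p) then F.w c * Φ c (dp F.Lo (n + a)) * K0 F else 0) * wa F p (n + a)
      else 0 := by
  classical
  have K := K0_nonneg h
  have s0 : F.Lv 0 1 ⊆ F.Lo := F.Lv_sub (Nat.le_add_left 1 _)
  let ψ : Finset ℕ → Finset ℕ → ℝ := fun u g =>
    if u ⊆ As F n a ∧ g ⊆ dp F.Lo (n + a) ∧ F.win (pv g * pv u) then
      F.wh 1 (F.m + 1) u * (wa F (pr F u) (n + a) * K0 F) *
        (F.wl 0 g * Φ ((g ∪ u) ∩ F.Lo) (dp F.Lo (n + a))) else 0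
  have ψ0 : ∀ u g, 0 ≤ ψ u g := fun u g => by
    have := h.wh_nonneg 1 (F.m + 1) u
    have := wa_nonneg h (pr F u) (n + a)
    have := h.wl_nonneg 0 g
    have := hΦ ((g ∪ u) ∩ F.Lo) (dp F.Lo (n + a))
    simp only [ψ]
    split_ifs <;> positivity
  have h1 : ∀ u ∈ S, tau F P i0 n a u ≤ ∑ g ∈ (F.Lv 0 1).powerset, ψ u g := fun u hu => by
    rw [tau, bs]
    split_ifs with h2
    · by_cases h3 : F.wh 1 (F.m + 1) u = 0
      · rw [h3, zero_mul, zero_mul]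
        exact sum_nonneg fun g _ => ψ0 u g
      rw [F0, mul_sum]
      refine le_trans (sum_le_sum fun g hg => ?_) (sum_le_sum_of_subset_of_nonneg
        (s := gs F P i0 n a u) (fun g hg => mem_powerset.2 ?_) fun g _ _ => ψ0 u g)
      · obtain ⟨g1, g2, -⟩ := mem_filter.1 hg
        have g3 : g ⊆ dp F.Lo (n + a) := by
          rw [← As_inter subset_union_left]
          exact (mem_powerset.1 g1).trans (inter_subset_inter_left (Lv01 (F := F) ▸ s0))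
        simp only [ψ]
        rw [if_pos ⟨h2.2, g3, g2⟩]
        exact mul_le_mul_of_nonneg_left (le_mul_of_one_le_right (h.wl_nonneg 0 g)
          (hE u hu h2.1 h2.2 h3 g hg)) (mul_nonneg (h.wh_nonneg _ _ _)
            (mul_nonneg (wa_nonneg h _ _) K))
      · rw [Lv01]
        exact (mem_powerset.1 (mem_filter.1 hg).1).trans inter_subset_right
    · rw [zero_mul]
      exact sum_nonneg fun g _ => ψ0 u g
  refine ((sum_le_sum h1).trans (sum_le_sum_of_subset_of_nonneg hS fun u _ _ =>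
    sum_nonneg fun g _ => ψ0 u g)).trans (le_of_eq ?_)
  rw [sum_CC h, sum_comm]
  refine sum_congr rfl fun p hp => ?_
  rw [sum_sub_eq (dp_sub F.Lo (n + a)), sum_comm]
  conv_rhs => rw [Fam.Lo, F.Lv_split (Nat.zero_le 1) (Nat.le_add_left 1 _),
    sum_powerset_union (h.dLv le_rfl le_rfl), ← F.Lv_split (Nat.zero_le 1) (Nat.le_add_left 1 _),
    ← Fam.Lo]
  have e : ∀ g ∈ (F.Lv 0 1).powerset, ∀ c ∈ (F.Lv (0 + 1) (F.m + 1)).powerset,
      ψ (insert p c) g = if p ∣ n + a then (if g ∪ c ⊆ dp F.Lo (n + a) then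
        (if F.win (pv (g ∪ c) * p) then F.w (g ∪ c) * Φ (g ∪ c) (dp F.Lo (n + a)) * K0 F else 0)
        else 0) * wa F p (n + a) else 0 := fun g hg c hc => by
    rw [mem_powerset] at hg hc
    have c1 : c ⊆ F.Lo := hc.trans (F.Lv_sub le_rfl)
    have e1 : (g ∪ insert p c) ∩ F.Lo = g ∪ c := by
      rw [union_insert, insert_inter_of_notMem fun e => disjoint_left.1 (dLR h) e hp]
      exact inter_eq_left.2 (union_subset (hg.trans s0) c1)
    simp only [ψ]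
    rw [e1, pr_insert h c1 hp, pv_insert' h c1 hp, wh_insert h le_rfl c hp, w_union h hg hc,
      pv_union ((h.dLv le_rfl le_rfl).mono hg hc), mul_assoc (pv g)]
    simp only [insert_sub_As c1 hp, union_subset_iff]
    by_cases a1 : p ∣ n + a <;> by_cases a2 : g ⊆ dp F.Lo (n + a) <;>
      by_cases a3 : c ⊆ dp F.Lo (n + a) <;> by_cases a4 : F.win (pv g * (pv c * p)) <;>
      simp only [a1, a2, a3, a4, and_self, and_true, and_false, if_true, if_false,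
        zero_mul]
    ring
  rw [sum_congr rfl fun g hg => sum_congr rfl (e g hg)]
  split_ifs
  · simp only [sum_mul]
  · simp

/-- one-site MASS -/
theorem m_core (h : Hyp0 F P) {Z : ℕ} (hZ : 0 < Z) (hd : pv F.all ∣ Z) (i0 : ℕ)
    {Φ : Finset ℕ → Finset ℕ → ℝ} (hΦ : ∀ c T, 0 ≤ Φ c T) (S : ℕ → Fin F.N → Finset (Finset ℕ))
    (hS : ∀ n a, S n a ⊆ CC F 0)
    (hE : ∀ n a, ∀ u ∈ S n a, a ∈ Good F P n → u ⊆ As F n a → F.wh 1 (F.m + 1) u ≠ 0 →
      ∀ g ∈ gs F P i0 n a u, 1 ≤ Φ ((g ∪ u) ∩ F.Lo) (dp F.Lo (n + a))) :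
    ex (fun n : Fin Z => ∑ a, ∑ u ∈ S n a, tau F P i0 n a u) ≤ Et F.Lo F.w fun c T =>
      Φ c T * (rs (F.RR.filter fun p => F.win (pv c * p)) / (F.LL * F.Pw)) := by
  have K := K0_nonneg h
  refine (ex_mono fun n : Fin Z => sum_le_sum fun a _ =>
    site_le h i0 n a hΦ (hS n a) (hE n a)).trans ?_
  rw [ex_sum]
  refine (sum_le_sum fun (a : Fin F.N) _ => (ex_sum _ _).trans_le (sum_le_sum fun p hp =>
    ex_one h hZ hd hp a (φ := fun T => ∑ c ∈ T.powerset,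
      if F.win (pv c * p) then F.w c * Φ c T * K0 F else 0) fun T _ =>
        sum_nonneg fun c _ => ?_)).trans (le_of_eq ?_)
  · have := h.w_nonneg c
    have := hΦ c T
    split_ifs <;> positivity
  simp only [← Em_div]
  rw [← Em_sum, sum_const, card_univ, Fintype.card_fin, nsmul_eq_mul, ← Em_mul, Et]
  refine Em_congr fun T _ => ?_
  simp only [sum_div]
  rw [sum_comm, mul_sum]
  refine sum_congr rfl fun c _ => ?_
  rw [rs, sum_filter, sum_div, mul_sum, mul_sum, mul_sum]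
  refine sum_congr rfl fun p _ => ?_
  have := h.N0
  have := h.LL0
  have := h.Pw0
  split_ifs
  · rw [K0]
    field_simp
  · simp

/-- one-site MASS of an event -/
theorem m_ev (h : Hyp0 F P) {Z : ℕ} (hZ : 0 < Z) (hd : pv F.all ∣ Z) (i0 : ℕ)
    (E : Finset ℕ → Finset ℕ → Prop) (S : ℕ → Fin F.N → Finset (Finset ℕ))
    (hS : ∀ n a, S n a ⊆ CC F 0)
    (hE : ∀ n a, ∀ u ∈ S n a, a ∈ Good F P n → u ⊆ As F n a → F.wh 1 (F.m + 1) u ≠ 0 →
      ∀ g ∈ gs F P i0 n a u, E ((g ∪ u) ∩ F.Lo) (dp F.Lo (n + a))) :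
    ex (fun n : Fin Z => ∑ a, ∑ u ∈ S n a, tau F P i0 n a u) ≤ 4 * F.Pn E := by
  classical
  refine (m_core h hZ hd i0 (Φ := fun c T => if E c T then 1 else 0)
    (fun c T => by split_ifs <;> norm_num) S hS fun n a u hu h1 h2 h3 g hg =>
      (if_pos (hE n a u hu h1 h2 h3 g hg)).ge).trans ?_
  rw [Fam.Pn, EG_eq, ← Em_mul]
  refine Em_mono fun T hT => ?_
  rw [mul_sum]
  refine sum_le_sum fun c hc => ?_
  beta_reduce
  split_ifs
  · rw [one_mul, mul_comm 4]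
    exact mul_le_mul_of_nonneg_left ((div_le_iff₀ h.LP0).2
      (rs_win h ((mem_powerset.1 hc).trans hT))) (h.w_nonneg c)
  · simp

/-- the total mass -/
theorem m_tau (h : Hyp0 F P) {Z : ℕ} (hZ : 0 < Z) (hd : pv F.all ∣ Z) (i0 : ℕ) :
    ex (fun n : Fin Z => ∑ a, ∑ u ∈ CC F 0, tau F P i0 n a u) ≤ 1 := by
  refine (m_core h hZ hd i0 (Φ := fun _ _ => 1) (fun _ _ => zero_le_one) (fun _ _ => CC F 0)
    (fun _ _ => Subset.rfl) fun _ _ _ _ _ _ _ _ _ => le_rfl).trans (le_of_eq ?_)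
  rw [Et_obj]
  conv_rhs => rw [← div_self h.Pw0.ne']; enter [1]; rw [Fam.Pw]
  rw [sum_div]
  refine sum_congr rfl fun c _ => ?_
  rw [one_mul, rs, sum_filter, sum_div, sum_div, mul_sum]
  refine sum_congr rfl fun p _ => ?_
  split_ifs
  · ring
  · simp

theorem m_OkS (h : Hyp0 F P) {Z : ℕ} (hZ : 0 < Z) (hd : pv F.all ∣ Z) :
    ex (fun n : Fin Z => ((OkS F P n).card : ℝ)) ≤ F.N / lp P F.m := by
  have l0 := lp_pos h F.m
  have h1 : ∀ n : ℕ, ((OkS F P n).card : ℝ) ≤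
      ∑ b : Fin F.N, F.V 0 (F.m + 1) (dp F.Lo (n + b)) / lp P F.m := fun n => by
    rw [card_eq_sum_ones, Nat.cast_sum]
    refine le_trans (sum_le_sum fun b hb => ?_) (sum_le_sum_of_subset_of_nonneg (subset_univ _)
      fun b _ _ => div_nonneg (h.V_nonneg _ _ _) l0.le)
    rw [Nat.cast_one, one_le_div l0, ← As_inter subset_union_left,
      F.V_inter (P := F.Lo) Subset.rfl]
    exact lp_le_V h (mem_OkS.1 hb) le_rfl
  refine (ex_mono fun n : Fin Z => h1 n).trans (le_of_eq ?_)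
  rw [ex_sum, sum_congr rfl fun (b : Fin F.N) _ => (ex_div _ _).trans (congrArg (· / lp P F.m)
    ((ex_dp h.prLo hZ ((pv_dvd F.Lo_sub).trans hd) b _).trans (h.Em_V (Nat.zero_le _) le_rfl))),
    sum_const, card_univ, Fintype.card_fin, nsmul_eq_mul, mul_one_div]

theorem m_Z0 (h : Hyp0 F P) {Z : ℕ} (hZ : 0 < Z) (hd : pv F.all ∣ Z) (C0 : ℕ → Finset ℕ) :
    ET F P (fun Θ => ex fun n : Fin Z => ((geo F P C0 Θ n).Z0.card : ℝ))
      ≤ P.vt * (F.N / lp P F.m) := by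
  rw [ET_ex]
  exact ((ex_congr fun n : Fin Z => ET_card (OkS F P n)).trans (ex_mul _ _)).trans_le
    (mul_le_mul_of_nonneg_left (m_OkS h hZ hd) h.vt0.le)

theorem m_C0 (h : Hyp0 F P) {A : Type} [Fintype A] {Z : ℕ} {C0 : ℕ → Finset ℕ}
    (hD : Dat F P A Z C0) (Θ : Finset (Fin F.N)) :
    ex (fun n : Fin Z => ((geo F P C0 Θ n).C0.card : ℝ)) ≤ F.N * P.σin := by
  have h1 := hD.sz
  rw [size, div_le_iff₀' h.N0] at h1
  refine (ex_mono fun n => Nat.cast_le.2 ?_).trans h1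
  exact card_le_card_of_injOn Fin.val (fun b hb => (mem_filter.1 hb).2) Fin.val_injective.injOn

end Pool.Agent.P.MP_a14ce1_nt.Fu.St.Cp
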