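import Pool.Agent.P.MP_a14ce1_nt.Fu.CpA

/-! Section 3 on the model: the masses of the cells and of the upper weights. -/

open Finset

namespace Pool.Agent.P.MP_a14ce1_nt.Fu.St.Cp

open Ch (pv mu rs lam)

variable {F : Fam} {P : Par}

theorem cpf_split (h : Hyp0 F P) {t : ℕ} (ht : t ≤ F.m) {c : Finset ℕ}
    (hc : c ⊆ F.Lv (t + 1) (F.m + 1)) (ψ : Finset ℕ → ℝ) :
    Em F.Lo (fun T => if c ⊆ T then ψ (T ∩ F.Lv 0 (t + 1)) else 0) =
      Em (F.Lv 0 (t + 1)) ψ / pv c := by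
  have e : F.Lo = F.Lv 0 (t + 1) ∪ F.Lv (t + 1) (F.m + 1) :=
    F.Lv_split (Nat.zero_le _) (by omega)
  have e1 := Em_mul_inter (h.dLv (a := 0) (b := t + 1) (c := t + 1) (d := F.m + 1) le_rfl le_rfl)
    ψ fun A => if c ⊆ A then 1 else 0
  rw [Em_ind_sub hc, mul_one_div] at e1
  rw [e, ← e1]
  refine Em_congr fun A _ => ?_
  simp only [subset_inter_iff, hc, and_true, mul_ite, mul_one, mul_zero]

open Classical in
theorem cpf_core (h : Hyp0 F P) {t : ℕ} (ht : t ≤ F.m) (E : Finset ℕ → Finset ℕ → ℕ → Prop)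
    {s : ℝ} (hs : 0 ≤ s) (hE : ∀ T, ∀ c ⊆ F.Lv (t + 1) (F.m + 1), ∃ x : ℝ, ∀ p ∈ F.RR,
      E T c p → x ≤ Real.log p ∧ Real.log p ≤ x + s) :
    ∑ c ∈ (F.Lv (t + 1) (F.m + 1)).powerset, ∑ p ∈ F.RR,
      Em F.Lo (fun T => if c ⊆ T ∧ E (T ∩ F.Lv 0 (t + 1)) c p then
        F.wh (t + 1) (F.m + 1) c * F.V 0 (t + 1) T else 0) / p ≤
      P.Cw * (s + 1) * (F.LL * F.Pw) := by
  have hn := h.nrm_wh (a := t + 1) (b := F.m + 1) (by omega) le_rfl
  refine le_of_le_of_eq ?_
    ((congrArg (· * (P.Cw * (s + 1) * (F.LL * F.Pw))) hn.2).trans (one_mul _))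
  rw [sum_mul]
  refine sum_le_sum fun c hc => ?_
  have hc' := mem_powerset.1 hc
  have e1 : ∀ p : ℕ, Em F.Lo (fun T => if c ⊆ T ∧ E (T ∩ F.Lv 0 (t + 1)) c p then
        F.wh (t + 1) (F.m + 1) c * F.V 0 (t + 1) T else 0) / p =
      F.wh (t + 1) (F.m + 1) c / pv c * Em (F.Lv 0 (t + 1))
        (fun T => F.V 0 (t + 1) T * if E T c p then 1 / (p : ℝ) else 0) := by
    intro p
    rw [div_mul_comm, mul_comm, ← cpf_split h ht hc', ← Em_mul, ← Em_div]
    refine Em_congr fun A _ => ?_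
    rw [F.V_inter Subset.rfl]
    by_cases h1 : c ⊆ A <;> by_cases h2 : E (A ∩ F.Lv 0 (t + 1)) c p <;> simp [h1, h2]
    ring
  simp only [e1]
  rw [← mul_sum, ← Em_sum]
  refine mul_le_mul_of_nonneg_left ?_ (div_nonneg (hn.1 c) (Nat.cast_nonneg _))
  refine le_of_le_of_eq ?_ ((congrArg (· * (P.Cw * (s + 1) * (F.LL * F.Pw)))
    (h.Em_V (a := 0) (b := t + 1) (Nat.zero_le _) (by omega))).trans (one_mul _))
  rw [← Em_mul']
  refine Em_mono fun T _ => ?_
  rw [← mul_sum]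
  refine mul_le_mul_of_nonneg_left ?_ (h.V_nonneg _ _ _)
  obtain ⟨x, hx⟩ := hE T c hc'
  refine le_trans ?_ (h.win2 x s hs)
  rw [← sum_filter]
  refine sum_le_sum_of_subset_of_nonneg (fun p hp => ?_) fun _ _ _ => by positivity
  rw [mem_filter] at hp ⊢
  exact ⟨hp.1, hx p hp.1 hp.2⟩

theorem cpf_log (h : Hyp0 F P) {c : Finset ℕ} (hc : c ⊆ F.Lo) {p : ℕ} (hp : p ∈ F.RR) :
    Real.log (pv (insert p c)) = Real.log (pv c) + Real.log p := by
  have h1 := pv_pos' h (hc.trans subset_union_left)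
  have h2 := (h.prR p hp).pos
  rw [pv_insert' h hc hp, Nat.cast_mul, Real.log_mul (by positivity) (by positivity)]

theorem cpf_K0 (h : Hyp0 F P) : K0 F * F.N * (F.LL * F.Pw) = 1 := by
  have := h.LL0
  have := h.N0'
  have := h.Pw0
  rw [K0]
  field_simp

theorem cpf_V {t : ℕ} (ht : t ≤ F.m) (x : ℕ) (b : Fin F.N) :
    F.V 0 (t + 1) (As F x b) = F.V 0 (t + 1) (dp F.Lo (x + b)) := by
  rw [← As_inter subset_union_left, F.V_inter (F.Lv_sub (by omega))]

theorem m_YY (h : Hyp0 F P) {Z : ℕ} (hZ : 0 < Z) (hd : pv F.all ∣ Z) (C0 : ℕ → Finset ℕ) {t : ℕ}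
    (ht : t ≤ F.m) :
    ET F P (fun Θ => ex fun n : Fin Z => YY (geo F P C0 Θ n) (wt F P n) t)
      ≤ P.vt * (hp P t / lp P t) * (2 * P.Λ * P.Cw * (P.La t + 2)) := by
  classical
  have hl := lp_pos h t
  have hK : 0 ≤ hp P t * (2 * P.Λ) * K0 F / lp P t := by
    have := hp_one h t
    have := K0_nonneg h
    have := h.L2
    positivity
  have e1 : ∀ n : ℕ, ET F P (fun Θ => YY (geo F P C0 Θ n) (wt F P n) t) =
      P.vt * ∑ b : Fin F.N, ∑ u ∈ CC F t,
        if OkA F P (As F n b) ∧ u ⊆ As F n b then om F P t u else 0 := by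
    intro n
    have e2 : ∀ Θ, YY (geo F P C0 Θ n) (wt F P n) t = ∑ u ∈ CC F t, om F P t u *
        ((Θ ∩ univ.filter fun b => OkA F P (As F n b) ∧ u ⊆ As F n b).card : ℝ) := by
      intro Θ
      refine sum_congr rfl fun u _ => ?_
      congr 3
      ext b
      simp [geo, Geo.mem_cell, mem_OkS]
    simp only [e2]
    rw [ET_sum, sum_comm, mul_sum]
    refine sum_congr rfl fun u _ => ?_
    rw [ET_mul, ET_card, ← sum_filter, sum_const, nsmul_eq_mul]
    ring
  rw [ET_ex]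
  simp only [e1]
  rw [ex_mul, mul_assoc, ex_sum]
  refine mul_le_mul_of_nonneg_left ?_ h.vt0.le
  have key := cpf_core h ht (fun _ c p => Adm F P t (insert p c)) (s := P.La t + 1)
    (by linarith [h.La0 t]) fun _ c hc => ⟨Real.log F.D - P.La t - Real.log (pv c),
      fun p hp hA => by
        have a1 := hA.1 t le_rfl ht
        have a2 := hA.2
        rw [up_self h ht (insert_mem_CC h hc hp)] at a1
        rw [cpf_log h (hc.trans (F.Lv_sub le_rfl)) hp] at a1 a2
        constructor <;> linarith⟩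
  refine (sum_le_card_nsmul _ _ (hp P t * (2 * P.Λ) * K0 F / lp P t *
    (P.Cw * (P.La t + 1 + 1) * (F.LL * F.Pw))) fun b _ => ?_).trans (le_of_eq ?_)
  · refine le_trans ?_ (mul_le_mul_of_nonneg_left key hK)
    simp only [sum_CC h]
    rw [ex_sum, mul_sum]
    refine sum_le_sum fun c hc => ?_
    have hc' := mem_powerset.1 hc
    have hcL := hc'.trans (F.Lv_sub le_rfl)
    rw [ex_sum, mul_sum]
    refine sum_le_sum fun p hp' => ?_
    rw [← ex_one' h hZ hd hp' b, ← ex_mul]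
    refine ex_mono fun n => ?_
    have hw := h.wh_nonneg (t + 1) (F.m + 1) c
    have hV := h.V_nonneg 0 (t + 1) (dp F.Lo (n + b))
    by_cases h1 : OkA F P (As F n b) ∧ insert p c ⊆ As F n b
    · obtain ⟨h2, h3⟩ := (insert_sub_As hcL hp' _ _).1 h1.2
      rw [if_pos h1, if_pos h2, om]
      by_cases h4 : Adm F P t (insert p c)
      · have h5 := lp_le_V h h1.1 ht
        rw [cpf_V ht] at h5
        rw [if_pos h4, if_pos ⟨h3, h4⟩, wh_insert h le_rfl c hp']
        have e : F.wh (t + 1) (F.m + 1) c * (hp P t * (2 * P.Λ) * K0 F) =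
            hp P t * (2 * P.Λ) * K0 F / lp P t * (F.wh (t + 1) (F.m + 1) c * lp P t) := by
          field_simp
        rw [e]
        gcongr
      · rw [if_neg h4, if_neg fun h5 => h4 h5.2, mul_zero]
    · rw [if_neg h1]
      refine mul_nonneg hK ?_
      split_ifs
      · positivity
      · exact le_rfl
      · exact le_rfl
  · rw [card_univ, Fintype.card_fin, nsmul_eq_mul]
    linear_combination (hp P t / lp P t * (2 * P.Λ * P.Cw * (P.La t + 2))) * cpf_K0 h

theorem m_tb (h : Hyp0 F P) {Z : ℕ} (hZ : 0 < Z) (hd : pv F.all ∣ Z) {t : ℕ} (ht : t < F.m) :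
    ex (fun n : Fin Z => ∑ a, ∑ v ∈ CC F (t + 1), tb F P n t a v)
      ≤ K1 P * P.Cw * (P.K2 + P.K3 * P.eL + 2) := by
  classical
  have hl := h.l1 (t + 1)
  have hK1 := K1_pos h
  have hK0 := K0_nonneg h
  have hK : 0 ≤ K1 P / P.l (t + 1) * K0 F := by positivity
  have h2 := h.K20
  have h3 := h.eL0
  have key := cpf_core h (t := t + 1) ht (fun T c p => Iv F P (t + 1) T (insert p c))
    (s := (P.K2 + P.K3 * P.eL) * P.l (t + 1) + 1) (by positivity) fun T c hc =>
      ⟨Real.log F.D - P.K2 * P.l (t + 1) - Real.log (pv (T ∩ F.R (t + 1))) - Real.log (pv c),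
        fun p hp hA => by
          have a1 := hA.1
          have a2 := hA.2
          rw [cpf_log h (hc.trans (F.Lv_sub le_rfl)) hp] at a1 a2
          constructor <;> linarith⟩
  rw [ex_sum]
  refine (sum_le_card_nsmul _ _ (K1 P / P.l (t + 1) * K0 F *
    (P.Cw * ((P.K2 + P.K3 * P.eL) * P.l (t + 1) + 1 + 1) * (F.LL * F.Pw))) fun b _ => ?_).trans ?_
  · refine le_trans ?_ (mul_le_mul_of_nonneg_left key hK)
    simp only [sum_CC h]
    rw [ex_sum, mul_sum]
    refine sum_le_sum fun c hc => ?_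
    have hc' := mem_powerset.1 hc
    have hcL := hc'.trans (F.Lv_sub le_rfl)
    have hw := h.wh_nonneg (t + 1 + 1) (F.m + 1) c
    rw [ex_sum, mul_sum]
    refine sum_le_sum fun p hp' => ?_
    refine le_trans ?_ (mul_le_mul_of_nonneg_left (ex_one h hZ hd hp' b fun T _ => by
      have hV := h.V_nonneg 0 (t + 1 + 1) T
      split_ifs
      · positivity
      · exact le_rfl) hK)
    rw [← ex_mul]
    refine ex_mono fun n => ?_
    have hV := h.V_nonneg 0 (t + 1 + 1) (dp F.Lo (n + b))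
    have ha := wa_nonneg h p (n + b)
    rw [tb]
    split_ifs with h4 h5 h6 h5 h6
    · rw [wh_insert h le_rfl c hp', pr_insert h hcL hp', cpf_V ht]
      have e : K1 P / P.l (t + 1) * K0 F * (F.wh (t + 1 + 1) (F.m + 1) c *
          F.V 0 (t + 1 + 1) (dp F.Lo (n + b)) * wa F p (n + b)) =
          F.wh (t + 1 + 1) (F.m + 1) c * (F.V 0 (t + 1 + 1) (dp F.Lo (n + b)) *
            (K1 P / P.l (t + 1)) * (wa F p (n + b) * K0 F)) := by ring
      rw [e]
      gcongr
      exact min_le_right _ _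
    · refine absurd ⟨((insert_sub_As hcL hp' _ _).1 h4.2.1).2, ?_⟩ h6
      have hR : F.R (t + 1) ⊆ F.Lv 0 (t + 1 + 1) :=
        (F.R_sub _).trans (F.cl_sub (Nat.zero_le _) (Nat.lt_succ_self _))
      have e : dp F.Lo (n + b) ∩ F.Lv 0 (t + 1 + 1) ∩ F.R (t + 1) = As F n b ∩ F.R (t + 1) := by
        rw [← As_inter subset_union_left, inter_inter hR,
          inter_inter (hR.trans (F.Lv_sub (by omega)))]
      have := h4.2.2.2
      rwa [Iv, ← e] at this
    · exact absurd ((insert_sub_As hcL hp' _ _).1 h4.2.1).1 h5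
    · positivity
    · simp
    · simp
  · rw [card_univ, Fintype.card_fin, nsmul_eq_mul]
    have hC : 0 ≤ P.Cw := by linarith [h.Cw1]
    have e : F.N * (K1 P / P.l (t + 1) * K0 F *
        (P.Cw * ((P.K2 + P.K3 * P.eL) * P.l (t + 1) + 1 + 1) * (F.LL * F.Pw))) =
        K1 P * P.Cw * (P.K2 + P.K3 * P.eL + 2 / P.l (t + 1)) * (K0 F * F.N * (F.LL * F.Pw)) := by
      field_simp
      ring
    rw [e, cpf_K0 h, mul_one]
    gcongr
    exact div_le_self zero_le_two hl

end Pool.Agent.P.MP_a14ce1_nt.Fu.St.Cp
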