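import Pool.Agent.P.MP_a14ce1_nt.Fu.CpD
import Pool.Agent.P.MP_a14ce1_nt.Fu.CpE

/-!
Section 3 on the model: the mass of the bad objects of a level.
-/

open Finset

namespace Pool.Agent.P.MP_a14ce1_nt.Fu.St.Cp

open Ch (pv mu rs lam)

variable {F : Fam} {P : Par}

namespace G5

theorem Lw_sub {s : ℕ} : Lw F s ⊆ F.Lv 0 (s + 1) := by
  rw [F.Lv_succ (Nat.zero_le s)]
  exact union_subset_union_right (F.G_sub s)

theorem Lw_Lo {s : ℕ} (hs : s ≤ F.m) : Lw F s ⊆ F.Lo :=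
  Lw_sub.trans (F.Lv_sub (Nat.succ_le_succ hs))

theorem R_Lv (s : ℕ) : F.R s ⊆ F.Lv 0 (s + 1) :=
  (F.R_sub s).trans (F.cl_sub (Nat.zero_le s) s.lt_succ_self)

theorem R_Lo {s : ℕ} (hs : s ≤ F.m) : F.R s ⊆ F.Lo := (R_Lv s).trans (F.Lv_sub (Nat.succ_le_succ hs))

theorem dLwR (h : Hyp0 F P) {s : ℕ} (hs : s ≤ F.m) : Disjoint (Lw F s) (F.R s) :=
  disjoint_union_left.2 ⟨(h.dLv_cl hs).mono_right (F.R_sub s), h.dGR s hs⟩

theorem Lv_eq (s : ℕ) : F.Lv 0 (s + 1) = Lw F s ∪ F.R s := by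
  rw [F.Lv_succ (Nat.zero_le s), Lw, union_assoc]; rfl

theorem Sw_nonneg (h : Hyp0 F P) (s : ℕ) (T : Finset ℕ) (y : ℝ) : 0 ≤ Sw F s T y :=
  sum_nonneg fun e _ => mul_nonneg (h.wh_nonneg _ _ e) (h.wG_pos s e).le

theorem Vw_nonneg (h : Hyp0 F P) (s : ℕ) (T : Finset ℕ) : 0 ≤ Vw F s T :=
  mul_nonneg (h.V_nonneg _ _ T) (h.VG_pos s T).le

theorem Vw_pos (h : Hyp0 F P) {t : ℕ} (ht : t ≤ F.m) {T : Finset ℕ} (hT : OkA F P T) :
    0 < Vw F (t + 1) (T ∩ Lw F (t + 1)) := by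
  rw [Vw, F.V_inter (P := Lw F (t + 1)) subset_union_left]
  exact mul_pos ((lp_pos h t).trans_le (lp_le_V h hT ht)) (h.VG_pos _ _)

theorem of_tau {i0 x : ℕ} {a : Fin F.N} {u : Finset ℕ} (h0 : tau F P i0 x a u ≠ 0) :
    a ∈ Good F P x ∧ u ⊆ As F x a ∧ ∃ g, g ∈ gs F P i0 x a u := by
  have h1 := left_ne_zero_of_mul h0
  have h2 := right_ne_zero_of_mul h0
  have h3 : a ∈ Good F P x ∧ u ⊆ As F x a := by
    by_contra hc
    exact h1 (if_neg hc)
  obtain ⟨g, hg, -⟩ := exists_ne_zero_of_sum_ne_zero h2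
  exact ⟨h3.1, h3.2, g, hg⟩

theorem log_pv_mono (h : Hyp0 F P) {e u : Finset ℕ} (hu : u ⊆ F.Lo ∪ F.RR) (he : e ⊆ u) :
    Real.log (pv e) ≤ Real.log (pv u) := by
  have h1 : (0 : ℝ) < pv e := by exact_mod_cast pv_pos' h (he.trans hu)
  refine Real.log_le_log h1 ?_
  exact_mod_cast Nat.le_of_dvd (pv_pos' h hu) (pv_dvd he)

theorem log_split (h : Hyp0 F P) {u : Finset ℕ} (hu : u ⊆ F.Lo ∪ F.RR) {s : ℕ} (hs : s ≤ F.m) :
    Real.log (pv u) = Real.log (pv (u ∩ Lw F s)) + lu F P s u := by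
  have p1 : (0 : ℝ) < pv (u ∩ Lw F s) := by
    exact_mod_cast pv_pos' h (inter_subset_left.trans hu)
  have p2 : (0 : ℝ) < pv (u ∩ F.R s) := by
    exact_mod_cast pv_pos' h (inter_subset_left.trans hu)
  have p3 : (0 : ℝ) < pv (up P s u) := by
    exact_mod_cast pv_pos' h ((up_sub s u).trans hu)
  rw [← pv_low_up h hu hs, Lv_eq, inter_union_distrib_left,
    pv_union ((dLwR h hs).mono inter_subset_right inter_subset_right), lu]
  push_cast
  rw [Real.log_mul (by positivity) p3.ne', Real.log_mul p1.ne' p2.ne']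
  ring

theorem lu_le (h : Hyp0 F P) {u : Finset ℕ} (hu : u ⊆ F.Lo ∪ F.RR) {s : ℕ} (hs : s ≤ F.m) :
    lu F P s u ≤ Real.log (pv u) := by
  rw [log_split h hu hs]
  exact le_add_of_nonneg_left (Real.log_natCast_nonneg _)

/-- the logarithm of the upper part -/
noncomputable def yv (v Q : Finset ℕ) : ℝ := Real.log (pv v) + Real.log (pv Q)

/-- the second moment integrand -/
noncomputable def ps (F : Fam) (s : ℕ) (y : ℝ) (T : Finset ℕ) : ℝ :=
  Sw F s T (Real.log F.D - y) ^ 2 / Vw F s T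

theorem ps_nonneg (h : Hyp0 F P) (s : ℕ) (y : ℝ) (T : Finset ℕ) : 0 ≤ ps F s y T :=
  div_nonneg (sq_nonneg _) (Vw_nonneg h s T)

/-- the range of the upper part -/
def Wd (F : Fam) (P : Par) (s : ℕ) (y : ℝ) : Prop :=
  Real.log F.D ≤ P.K2 * P.l s + y ∧ y ≤ Real.log F.D + 1

/-- the fifth bad event -/
def Bd (F : Fam) (P : Par) (s : ℕ) (T : Finset ℕ) (y : ℝ) : Prop :=
  Real.log F.D ≤ P.K2 * P.l s + y ∧ K1 P / P.l s * Vw F s T < Sw F s T (Real.log F.D - y)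

open Classical in
theorem fibre (h : Hyp0 F P) (i0 x : ℕ) {t : ℕ} (ht : t < F.m) (a : Fin F.N) {c Q : Finset ℕ}
    {p : ℕ} (hc : c ⊆ F.Lv (t + 2) (F.m + 1)) (hp : p ∈ F.RR) (hQ : Q ⊆ F.R (t + 1)) :
    ∑ u ∈ (CC F 0).filter (fun u => (up P (t + 1) u, u ∩ F.R (t + 1)) = (insert p c, Q)),
      (if Bd F P (t + 1) (As F x a ∩ Lw F (t + 1)) (lu F P (t + 1) u) then tau F P i0 x a u else 0)
      ≤ if Wd F P (t + 1) (yv (insert p c) Q) then
          F.wh (t + 2) (F.m + 1) c * F.wR (t + 1) Q * (K0 F * (P.l (t + 1) / K1 P)) *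
            (if p ∣ x + a then (if c ∪ Q ⊆ dp F.Lo (x + a) then
              ps F (t + 1) (yv (insert p c) Q) (dp F.Lo (x + a) ∩ Lw F (t + 1)) else 0) *
                wa F p (x + a) else 0)
        else 0 := by
  have hl : 0 < P.l (t + 1) := one_pos.trans_le (h.l1 _)
  have hK := K1_pos h
  have hK0 := K0_nonneg h
  have hw := h.wh_nonneg (t + 2) (F.m + 1) c
  have hr := F.wR_nonneg (t + 1) Q
  have hwa := wa_nonneg h p (x + a)
  have hcL : c ⊆ F.Lo := hc.trans (F.Lv_sub le_rfl)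
  by_cases h0 : ∀ u ∈ (CC F 0).filter
      (fun u => (up P (t + 1) u, u ∩ F.R (t + 1)) = (insert p c, Q)),
      (if Bd F P (t + 1) (As F x a ∩ Lw F (t + 1)) (lu F P (t + 1) u) then tau F P i0 x a u
        else 0) = 0
  · rw [sum_eq_zero h0]
    have := ps_nonneg h (t + 1) (yv (insert p c) Q) (dp F.Lo (x + a) ∩ Lw F (t + 1))
    split_ifs <;> positivity
  push Not at h0
  obtain ⟨u, hu, h1⟩ := h0
  obtain ⟨hu, h2⟩ := mem_filter.1 hu
  obtain ⟨e1, e2⟩ := Prod.mk.inj h2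
  have hB : Bd F P (t + 1) (As F x a ∩ Lw F (t + 1)) (lu F P (t + 1) u) := by
    by_contra hc
    exact h1 (if_neg hc)
  rw [if_pos hB] at h1
  obtain ⟨hG, hA, g, hg⟩ := of_tau h1
  have e3 : lu F P (t + 1) u = yv (insert p c) Q := by rw [lu, e1, e2, yv]
  have hW : Wd F P (t + 1) (yv (insert p c) Q) := by
    refine ⟨e3 ▸ hB.1, ?_⟩
    have a1 := (adm_of_gd h hu hg (Nat.zero_le _)).2
    rw [up_self h (Nat.zero_le _) hu] at a1
    exact e3 ▸ (lu_le h (CC_sub hu) ht).trans a1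
  have hv : insert p c ⊆ As F x a := e1 ▸ (up_sub _ u).trans hA
  obtain ⟨hd, hc'⟩ := (insert_sub_As hcL hp x a).1 hv
  have hQ' : Q ⊆ dp F.Lo (x + a) := by
    rw [← As_inter subset_union_left]
    exact subset_inter (e2 ▸ inter_subset_left.trans hA) (hQ.trans (R_Lo ht))
  have e4 : dp F.Lo (x + a) ∩ Lw F (t + 1) = As F x a ∩ Lw F (t + 1) := by
    rw [← As_inter subset_union_left, inter_inter (Lw_Lo ht)]
  rw [if_pos hW, if_pos hd, if_pos (union_subset hc' hQ'), e4]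
  have hV := Vw_pos h ht.le (mem_Good.1 hG).1
  have hS := Sw_nonneg h (t + 1) (As F x a ∩ Lw F (t + 1)) (Real.log F.D - yv (insert p c) Q)
  have hB2 := hB.2
  rw [e3] at hB2
  have h3 := tau_sw h i0 x ht a (insert p c) Q
  rw [wh_insert h le_rfl c hp, pr_insert h hcL hp] at h3
  refine le_trans (le_trans (sum_le_sum (g := tau F P i0 x a) fun u _ => ?_) (le_of_eq ?_))
    (h3.trans ?_)
  · split_ifs
    · exact le_rfl
    · exact tau_nonneg h i0 x a u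
  · exact sum_congr (filter_congr fun u _ => Prod.mk.injEq _ _ _ _ ▸ Iff.rfl) fun _ _ => rfl
  · change _ * Sw F (t + 1) _ (Real.log F.D - yv (insert p c) Q) ≤ _
    unfold ps
    set S := Sw F (t + 1) (As F x a ∩ Lw F (t + 1)) (Real.log F.D - yv (insert p c) Q)
    set V := Vw F (t + 1) (As F x a ∩ Lw F (t + 1))
    have h4 : S ≤ P.l (t + 1) / K1 P * (S ^ 2 / V) := by
      have h5 : K1 P * V ≤ P.l (t + 1) * S := by
        have := mul_le_mul_of_nonneg_left hB2.le hl.le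
        rwa [← mul_assoc, mul_div_cancel₀ _ hl.ne'] at this
      rw [div_mul_div_comm, le_div_iff₀ (mul_pos hK hV)]
      nlinarith [mul_le_mul_of_nonneg_left h5 hS]
    calc _ ≤ F.wh (t + 2) (F.m + 1) c * F.wR (t + 1) Q * (wa F p (x + a) * K0 F) *
          (P.l (t + 1) / K1 P * (S ^ 2 / V)) := mul_le_mul_of_nonneg_left h4 (by positivity)
      _ = _ := by ring

theorem Em_ps (h : Hyp0 F P) {t : ℕ} (ht : t < F.m) {c Q : Finset ℕ}
    (hc : c ⊆ F.Lv (t + 2) (F.m + 1)) (hQ : Q ⊆ F.R (t + 1)) (y : ℝ) :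
    Em F.Lo (fun T => if c ∪ Q ⊆ T then ps F (t + 1) y (T ∩ Lw F (t + 1)) else 0)
      ≤ 1 / (pv c * pv Q) * (P.Csb / P.l (t + 1) ^ 2) := by
  have d1 : Disjoint (F.Lv 0 (t + 2)) (F.Lv (t + 2) (F.m + 1)) := h.dLv le_rfl le_rfl
  have d2 : Disjoint c Q := (d1.mono (hQ.trans (R_Lv _)) hc).symm
  have d3 : Disjoint (Lw F (t + 1)) (c ∪ Q) :=
    disjoint_union_right.2 ⟨d1.mono Lw_sub hc, (dLwR h ht).mono_right hQ⟩
  have s1 : c ∪ Q ⊆ F.Lo := union_subset (hc.trans (F.Lv_sub le_rfl)) (hQ.trans (R_Lo ht))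
  have s2 : Lw F (t + 1) ⊆ F.Lo \ (c ∪ Q) := subset_sdiff.2 ⟨Lw_Lo ht, d3⟩
  rw [Em_sub s1 fun T => ps F (t + 1) y (T ∩ Lw F (t + 1)), pv_union d2]
  push_cast
  refine mul_le_mul_of_nonneg_left ?_ (by positivity)
  have e : ∀ B : Finset ℕ, (c ∪ Q ∪ B) ∩ Lw F (t + 1) = B ∩ Lw F (t + 1) := fun B => by
    rw [union_inter_distrib_right, disjoint_iff_inter_eq_empty.1 d3.symm, empty_union]
  simp only [e]
  rw [Em_inter s2 (ps F (t + 1) y)]
  exact h.sb1 (t + 1) (mem_Icc.2 ⟨Nat.le_add_left 1 t, ht⟩) (Real.log F.D - y)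

open Classical in
theorem sum_win (h : Hyp0 F P) {s : ℕ} {c : Finset ℕ} (hc : c ⊆ F.Lo) (Q : Finset ℕ) :
    ∑ p ∈ F.RR, (if Wd F P s (yv (insert p c) Q) then (1 : ℝ) / p else 0)
      ≤ P.Cw * (P.K2 * P.l s + 2) * (F.LL * F.Pw) := by
  have hl : 0 ≤ P.K2 * P.l s := mul_nonneg h.K20 (zero_le_one.trans (h.l1 s))
  have h1 := h.win2 (Real.log F.D - P.K2 * P.l s - Real.log (pv c) - Real.log (pv Q))
    (P.K2 * P.l s + 1) (by linarith)
  rw [add_assoc (P.K2 * P.l s), one_add_one_eq_two] at h1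
  refine le_trans ?_ h1
  rw [← sum_filter]
  refine sum_le_sum_of_subset_of_nonneg (fun p hp => ?_) fun _ _ _ => by positivity
  obtain ⟨hp, h2, h3⟩ := mem_filter.1 hp
  have p1 : (0 : ℝ) < pv c := by exact_mod_cast h.pv_pos hc
  have p2 : (0 : ℝ) < p := by exact_mod_cast (h.prR p hp).pos
  rw [yv, pv_insert' h hc hp, Nat.cast_mul, Real.log_mul p1.ne' p2.ne'] at h2 h3
  exact mem_filter.2 ⟨hp, by linarith, by linarith⟩

open Classical in
theorem site (h : Hyp0 F P) {Z : ℕ} (hZ : 0 < Z) (hd : pv F.all ∣ Z) (i0 : ℕ) {t : ℕ}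
    (ht : t < F.m) (a : Fin F.N) :
    ex (fun n : Fin Z => ∑ u ∈ CC F 0,
      if Bd F P (t + 1) (As F n a ∩ Lw F (t + 1)) (lu F P (t + 1) u) then tau F P i0 n a u else 0)
      ≤ P.κ / F.N := by
  have hl1 := h.l1 (t + 1)
  have hl : 0 < P.l (t + 1) := one_pos.trans_le hl1
  have hK := K1_pos h
  have hK0 := K0_nonneg h
  have hCs : 0 < P.Csb := one_pos.trans_le h.Csb1
  have hCw : 0 < P.Cw := one_pos.trans_le h.Cw1
  have hK2 := h.K20
  have hLP := h.LP0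
  have hN := h.N0
  have hκ := h.κ0
  set M : ℝ := K0 F * (P.l (t + 1) / K1 P) * (P.Csb / P.l (t + 1) ^ 2) with hM
  have hM0 : 0 ≤ M := by positivity
  have step : ∀ n : ℕ, ∑ u ∈ CC F 0,
      (if Bd F P (t + 1) (As F n a ∩ Lw F (t + 1)) (lu F P (t + 1) u) then tau F P i0 n a u else 0)
      ≤ ∑ c ∈ (F.Lv (t + 2) (F.m + 1)).powerset, ∑ p ∈ F.RR, ∑ Q ∈ (F.R (t + 1)).powerset,
        if Wd F P (t + 1) (yv (insert p c) Q) then
          F.wh (t + 2) (F.m + 1) c * F.wR (t + 1) Q * (K0 F * (P.l (t + 1) / K1 P)) *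
            (if p ∣ n + a then (if c ∪ Q ⊆ dp F.Lo (n + a) then
              ps F (t + 1) (yv (insert p c) Q) (dp F.Lo (n + a) ∩ Lw F (t + 1)) else 0) *
                wa F p (n + a) else 0)
        else 0 := fun n => by
    rw [← sum_fiberwise_of_maps_to (s := CC F 0) (t := CC F (t + 1) ×ˢ (F.R (t + 1)).powerset)
      (g := fun u => (up P (t + 1) u, u ∩ F.R (t + 1))) fun u hu => mem_product.2
        ⟨up_mem_CC h (Nat.zero_le _) ht hu, mem_powerset.2 inter_subset_right⟩,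
      sum_product, sum_CC h]
    exact sum_le_sum fun c hc => sum_le_sum fun p hp => sum_le_sum fun Q hQ =>
      fibre h i0 n ht a (mem_powerset.1 hc) hp (mem_powerset.1 hQ)
  refine (ex_mono fun n : Fin Z => step n).trans ?_
  rw [ex_sum]
  have one : ∀ c ∈ (F.Lv (t + 2) (F.m + 1)).powerset, ex (fun n : Fin Z =>
      ∑ p ∈ F.RR, ∑ Q ∈ (F.R (t + 1)).powerset,
        if Wd F P (t + 1) (yv (insert p c) Q) then
          F.wh (t + 2) (F.m + 1) c * F.wR (t + 1) Q * (K0 F * (P.l (t + 1) / K1 P)) *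
            (if p ∣ n + a then (if c ∪ Q ⊆ dp F.Lo (n + a) then
              ps F (t + 1) (yv (insert p c) Q) (dp F.Lo (n + a) ∩ Lw F (t + 1)) else 0) *
                wa F p (n + a) else 0)
        else 0) ≤ F.wh (t + 2) (F.m + 1) c / pv c *
          (M * (P.Cw * (P.K2 * P.l (t + 1) + 2) * (F.LL * F.Pw))) := fun c hc => by
    have hc' := mem_powerset.1 hc
    have hcL : c ⊆ F.Lo := hc'.trans (F.Lv_sub le_rfl)
    have hw := h.wh_nonneg (t + 2) (F.m + 1) c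
    rw [ex_congr fun n => sum_comm, ex_sum]
    have two : ∀ Q ∈ (F.R (t + 1)).powerset, ex (fun n : Fin Z => ∑ p ∈ F.RR,
        if Wd F P (t + 1) (yv (insert p c) Q) then
          F.wh (t + 2) (F.m + 1) c * F.wR (t + 1) Q * (K0 F * (P.l (t + 1) / K1 P)) *
            (if p ∣ n + a then (if c ∪ Q ⊆ dp F.Lo (n + a) then
              ps F (t + 1) (yv (insert p c) Q) (dp F.Lo (n + a) ∩ Lw F (t + 1)) else 0) *
                wa F p (n + a) else 0)
        else 0) ≤ F.wR (t + 1) Q / pv Q * (F.wh (t + 2) (F.m + 1) c / pv c *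
          (M * (P.Cw * (P.K2 * P.l (t + 1) + 2) * (F.LL * F.Pw)))) := fun Q hQ => by
      have hr := F.wR_nonneg (t + 1) Q
      rw [ex_sum]
      refine le_trans (sum_le_sum (g := fun p => F.wR (t + 1) Q / pv Q *
        (F.wh (t + 2) (F.m + 1) c / pv c * M) *
          (if Wd F P (t + 1) (yv (insert p c) Q) then (1 : ℝ) / p else 0)) fun p hp => ?_) ?_
      · by_cases hW : Wd F P (t + 1) (yv (insert p c) Q)
        · simp only [if_pos hW]
          rw [ex_mul]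
          have h1 := ex_one h hZ hd hp a
            (φ := fun T => if c ∪ Q ⊆ T then
              ps F (t + 1) (yv (insert p c) Q) (T ∩ Lw F (t + 1)) else 0) fun T _ => by
              split_ifs
              · exact ps_nonneg h _ _ _
              · exact le_rfl
          have h2 := div_le_div_of_nonneg_right
            (Em_ps h ht hc' (mem_powerset.1 hQ) (yv (insert p c) Q)) (Nat.cast_nonneg p)
          refine (mul_le_mul_of_nonneg_left (h1.trans h2) (by positivity)).trans (le_of_eq ?_)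
          rw [hM]; ring
        · simp only [if_neg hW, ex_zero, mul_zero, le_refl]
      · rw [← mul_sum]
        refine (mul_le_mul_of_nonneg_left (sum_win h hcL Q) (by positivity)).trans (le_of_eq ?_)
        ring
    refine (sum_le_sum two).trans (le_of_eq ?_)
    rw [← sum_mul, (h.nrm_wR ht).2, one_mul]
  refine (sum_le_sum one).trans ?_
  rw [← sum_mul, (h.nrm_wh (Nat.succ_le_succ ht) le_rfl).2, one_mul, hM]
  have e : K0 F * (P.l (t + 1) / K1 P) * (P.Csb / P.l (t + 1) ^ 2) *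
      (P.Cw * (P.K2 * P.l (t + 1) + 2) * (F.LL * F.Pw)) =
      P.κ / F.N * ((P.K2 * P.l (t + 1) + 2) / ((P.K2 + 2) * P.l (t + 1))) := by
    have := h.LL0
    have := h.Pw0
    unfold K0 K1
    field_simp
  rw [e]
  refine mul_le_of_le_one_right (by positivity) ((div_le_one (by positivity)).2 ?_)
  nlinarith

end G5

open Classical in
/-- the fifth bad set -/
theorem m_bad5 (h : Hyp0 F P) {Z : ℕ} (hZ : 0 < Z) (hd : pv F.all ∣ Z) (i0 : ℕ) {t : ℕ}
    (ht : t < F.m) :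
    ex (fun n : Fin Z => ∑ a, ∑ u ∈ (CC F 0).filter (fun u =>
        Real.log F.D ≤ P.K2 * P.l (t + 1) + lu F P (t + 1) u ∧
        K1 P / P.l (t + 1) * Vw F (t + 1) (As F n a ∩ Lw F (t + 1)) <
          Sw F (t + 1) (As F n a ∩ Lw F (t + 1)) (Real.log F.D - lu F P (t + 1) u)),
      tau F P i0 n a u) ≤ P.κ := by
  rw [ex_sum]
  refine (sum_le_card_nsmul _ _ (P.κ / F.N) fun a _ => ?_).trans ?_
  · refine le_trans (le_of_eq (ex_congr fun n => ?_)) (G5.site h hZ hd i0 ht a)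
    rw [sum_filter]
    exact sum_congr rfl fun u _ => if_congr Iff.rfl rfl rfl
  · rw [card_univ, Fintype.card_fin, nsmul_eq_mul, mul_div_cancel₀ _ h.N0.ne']

namespace G5

theorem gs_sub {i0 x : ℕ} {a : Fin F.N} {u g : Finset ℕ} (hg : g ∈ gs F P i0 x a u) :
    g ⊆ F.cl 0 ∧ F.D ≤ (pv g * pv u : ℕ) := by
  classical
  obtain ⟨h1, h2⟩ := mem_filter.1 hg
  exact ⟨(mem_powerset.1 h1).trans inter_subset_right, h2.1.1⟩

theorem cl0_Lo : F.cl 0 ⊆ F.Lo := F.cl_sub le_rfl (Nat.succ_pos _)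

theorem un_sub {u g : Finset ℕ} (hu : u ∈ CC F 0) (hg : g ⊆ F.cl 0) : g ∪ u ⊆ F.Lo ∪ F.RR :=
  union_subset (hg.trans (cl0_Lo.trans subset_union_left)) (CC_sub hu)

theorem pv_un (h : Hyp0 F P) {u g : Finset ℕ} (hu : u ∈ CC F 0) (hg : g ⊆ F.cl 0) :
    pv (g ∪ u) = pv g * pv u := by
  refine pv_union (disjoint_left.2 fun q h1 h2 => ?_)
  have a := h.tple 0 (Nat.zero_le _) q (hg h1)
  rw [← up_self h (Nat.zero_le _) hu] at h2
  exact absurd (mem_filter.1 h2).2 (not_lt.2 a)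

theorem up_un (h : Hyp0 F P) {g : Finset ℕ} (hg : g ⊆ F.cl 0) (s : ℕ) (u : Finset ℕ) :
    up P s (g ∪ u) = up P s u := by
  ext q
  simp only [up, mem_filter, mem_union]
  refine ⟨fun a => ⟨a.1.resolve_left fun b => ?_, a.2⟩, fun a => ⟨Or.inr a.1, a.2⟩⟩
  have c := h.tple 0 (Nat.zero_le _) q (hg b)
  have d := h.tpm (Nat.zero_le s)
  omega

theorem lu_un (h : Hyp0 F P) {g : Finset ℕ} (hg : g ⊆ F.cl 0) {t : ℕ} (ht : t < F.m)
    (u : Finset ℕ) : lu F P (t + 1) (g ∪ u) = lu F P (t + 1) u := by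
  have d : Disjoint g (F.R (t + 1)) :=
    (h.dcl (Nat.zero_le _) ht (Nat.succ_ne_zero t).symm).mono hg (F.R_sub _)
  rw [lu, lu, up_un h hg, union_inter_distrib_right, disjoint_iff_inter_eq_empty.1 d, empty_union]

theorem card_of_wh {t : ℕ} (ht : t < F.m) {u : Finset ℕ} (hu : F.wh 1 (F.m + 1) u ≠ 0) :
    (u ∩ F.R (t + 1)).card = F.r (t + 1) := by
  have h1 := prod_ne_zero_iff.1 hu (t + 1) (mem_Ico.2 ⟨Nat.le_add_left 1 t, by omega⟩)
  have h2 := right_ne_zero_of_mul h1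
  by_contra hc
  exact h2 (by rw [Fam.wR, if_neg hc, zero_div])

theorem sum_five {α : Type} [DecidableEq α] {s s1 s2 s3 s4 s5 : Finset α} {f : α → ℝ}
    (h0 : ∀ x, 0 ≤ f x) (h : ∀ x ∈ s, x ∈ s1 ∨ x ∈ s2 ∨ x ∈ s3 ∨ x ∈ s4 ∨ x ∈ s5) :
    ∑ x ∈ s, f x ≤ ∑ x ∈ s1, f x + ∑ x ∈ s2, f x + ∑ x ∈ s3, f x + ∑ x ∈ s4, f x +
      ∑ x ∈ s5, f x := by
  have u : ∀ a b : Finset α, ∑ x ∈ a ∪ b, f x ≤ ∑ x ∈ a, f x + ∑ x ∈ b, f x := fun a b => by
    rw [← sum_union_inter]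
    exact le_add_of_nonneg_right (sum_nonneg fun x _ => h0 x)
  have a : ∑ x ∈ s, f x ≤ ∑ x ∈ s1 ∪ s2 ∪ s3 ∪ s4 ∪ s5, f x :=
    sum_le_sum_of_subset_of_nonneg (fun x hx => by
      simp only [mem_union]; have := h x hx; tauto) fun x _ _ => h0 x
  linarith [u (s1 ∪ s2 ∪ s3 ∪ s4) s5, u (s1 ∪ s2 ∪ s3) s4, u (s1 ∪ s2) s3, u s1 s2]

end G5

/-- the mass of the bad objects -/
theorem m_bad (h : Hyp0 F P) {Z : ℕ} (hZ : 0 < Z) (hd : pv F.all ∣ Z) (i0 : ℕ) {t : ℕ}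
    (ht : t < F.m) :
    ex (fun n : Fin Z => ∑ a, ∑ u ∈ CC F 0 \ NB F P n t a, tau F P i0 n a u) ≤ 17 * P.κ := by
  classical
  have hs : t + 1 ∈ Icc 1 F.m := mem_Icc.2 ⟨Nat.le_add_left 1 t, ht⟩
  have eR : ∀ (n : ℕ) (a : Fin F.N),
      dp F.Lo (n + a) ∩ F.R (t + 1) = As F n a ∩ F.R (t + 1) := fun n a => by
    rw [← As_inter subset_union_left, inter_inter (G5.R_Lo ht)]
  have m1 := m_ev h hZ hd i0 (fun _ T => (T ∩ F.R (t + 1)).card = F.r (t + 1))
    (fun n a => (CC F 0).filter fun _ => ¬F.r (t + 1) < (As F n a ∩ F.R (t + 1)).card)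
    (fun _ _ => filter_subset _ _) fun n a u hu _ hA hw g _ => by
      have a1 := (mem_filter.1 hu).2
      have a2 := G5.card_of_wh ht hw
      have a3 := card_le_card (inter_subset_inter hA (Subset.refl (F.R (t + 1))))
      rw [eR]; omega
  have m2 := m_ev h hZ hd i0 (fun _ T => F.r (t + 1) + P.K3 < (T ∩ F.R (t + 1)).card)
    (fun n a => (CC F 0).filter fun _ =>
      ¬(As F n a ∩ F.R (t + 1)).card ≤ F.r (t + 1) + P.K3)
    (fun _ _ => filter_subset _ _) fun n a u hu _ _ _ g _ => by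
      have a1 := (mem_filter.1 hu).2
      rw [eR]; omega
  have m3 := m_ev h hZ hd i0
    (fun c _ => F.D * P.mn (t + 1) < F.N * pv (c ∩ F.Lv 0 (t + 1)))
    (fun _ _ => (CC F 0).filter fun u => ¬(F.N : ℝ) ≤ pv (up P t u) * P.mn (t + 1))
    (fun _ _ => filter_subset _ _) fun n a u hu _ _ _ g hg => by
      obtain ⟨hu, a1⟩ := mem_filter.1 hu
      obtain ⟨g0, a2⟩ := G5.gs_sub hg
      have a3 := pv_low_up h (G5.un_sub hu g0) ht.le
      rw [G5.pv_un h hu g0, G5.up_un h g0] at a3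
      rw [← a3, Nat.cast_mul] at a2
      rw [inter_inter (F.Lv_sub (Nat.succ_le_succ ht.le))]
      have a4 : (0 : ℝ) < pv ((g ∪ u) ∩ F.Lv 0 (t + 1)) := by
        exact_mod_cast pv_pos' h (inter_subset_left.trans (G5.un_sub hu g0))
      have a5 := h.N0
      have a6 := h.D20
      rcases le_or_gt 0 (P.mn (t + 1)) with b | b
      · nlinarith [mul_le_mul_of_nonneg_right a2 b, mul_lt_mul_of_pos_left (not_le.1 a1) a4]
      · nlinarith [mul_pos a5 a4]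
  have m4 := m_ev h hZ hd i0
    (fun c _ => P.K2 * P.l (t + 1) < Real.log (pv (c ∩ (F.Lv 0 (t + 1) ∪ F.G (t + 1)))))
    (fun _ _ => (CC F 0).filter fun u =>
      ¬Real.log F.D ≤ P.K2 * P.l (t + 1) + lu F P (t + 1) u)
    (fun _ _ => filter_subset _ _) fun n a u hu _ _ _ g hg => by
      obtain ⟨hu, a1⟩ := mem_filter.1 hu
      obtain ⟨g0, a2⟩ := G5.gs_sub hg
      have a3 := G5.log_split h (G5.un_sub hu g0) ht
      rw [G5.lu_un h g0 ht, G5.pv_un h hu g0] at a3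
      have a4 := Real.log_le_log (by linarith [h.D20]) a2
      change _ < Real.log (pv ((g ∪ u) ∩ F.Lo ∩ Lw F (t + 1)))
      rw [inter_inter (G5.Lw_Lo ht)]
      linarith [not_le.1 a1]
  have m5 := m_bad5 h hZ hd i0 ht
  have b1 := h.b1 _ hs
  have b2 := h.b2 _ hs
  have b3 := h.b3 _ hs
  have b4 := h.b4 _ hs
  refine le_trans ?_ (show _ ≤ 17 * P.κ from le_trans
    (add_le_add (add_le_add (add_le_add (add_le_add m1 m2) m3) m4) m5) (by linarith))
  rw [← ex_add, ← ex_add, ← ex_add, ← ex_add]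
  refine ex_mono fun n => ?_
  rw [← sum_add_distrib, ← sum_add_distrib, ← sum_add_distrib, ← sum_add_distrib]
  refine sum_le_sum fun a _ => G5.sum_five (tau_nonneg h i0 n a) fun u hu => ?_
  obtain ⟨hu, hn⟩ := mem_sdiff.1 hu
  have hn' : ¬nb F P t n a u := fun c => hn (mem_filter.2 ⟨hu, c⟩)
  simp only [mem_filter, hu, true_and]
  by_contra hc
  simp only [not_or, not_not, not_and, not_lt] at hc
  exact hn' ⟨not_le.1 hc.1, hc.2.1, hc.2.2.1, hc.2.2.2.1, hc.2.2.2.2 hc.2.2.2.1⟩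

end Pool.Agent.P.MP_a14ce1_nt.Fu.St.Cp
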