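import Pool.Agent.P.MP_a14ce1_nt.Fu.CpB
import Pool.Agent.P.MP_a14ce1_nt.Fu.CpC
import Pool.Agent.P.MP_a14ce1_nt.Fu.CpD
import Pool.Agent.P.MP_a14ce1_nt.Fu.CpE
import Pool.Agent.P.MP_a14ce1_nt.Fu.CpF
import Pool.Agent.P.MP_a14ce1_nt.Fu.CpG
import Pool.Agent.P.MP_a14ce1_nt.Fu.CoNum

/-!
Section 3 on the model: the compression inequality `ACO`.
-/

open Finset

namespace Pool.Agent.P.MP_a14ce1_nt.Fu.St.Cp

open Ch (pv mu rs lam)

variable {F : Fam} {P : Par}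

theorem RHS_ET (m W : ℕ) (J r : ℕ → ℕ) (lam β G lA mu ob : ℝ) (z θ φ : ℕ → ℕ → ℝ)
    (S2 M c0 z0 : Finset (Fin F.N) → ℝ) (TB BD Y : Finset (Fin F.N) → ℕ → ℝ) :
    ET F P (fun Θ => RHS m W J r lam β G lA mu ob z θ φ (S2 Θ) (M Θ) (c0 Θ) (z0 Θ) (TB Θ) (BD Θ)
      (Y Θ)) =
    RHS m W J r lam β G lA mu ob z θ φ (ET F P S2) (ET F P M) (ET F P c0) (ET F P z0)
      (fun t => ET F P fun Θ => TB Θ t) (fun t => ET F P fun Θ => BD Θ t)
      (fun t => ET F P fun Θ => Y Θ t) :=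
  RHS_sum m W J r lam β G lA mu ob z θ φ univ _ S2 M c0 z0 TB BD Y

theorem RHS_phw (h : Hyp0 F P) (W : ℕ) (J r : ℕ → ℕ) (lam β G lA mu ob : ℝ) (z θ : ℕ → ℕ → ℝ)
    (S2 M c0 z0 : ℝ) (TB BD Y : ℕ → ℝ) :
    RHS F.m W J r lam β G lA mu ob z θ (phw F P) S2 M c0 z0 TB BD Y
      = RHS F.m W J r lam β G lA mu ob z θ (ph F P) S2 M c0 z0 TB BD Y := by
  unfold RHS
  congr 1
  refine sum_congr rfl fun t ht => ?_
  simp only [phw_eq h (show t + 1 ≤ F.m from mem_range.1 ht)]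

/-- a weighted sum over the whole space as a mean over the fibres -/
theorem ex_split {E : Type} [Fintype E] {Z : ℕ} (i0 : ℕ)
    (g : E → Fin F.N → Finset ℕ → Fin Z → ℝ) :
    ex (fun e => ex fun n : Fin Z => ∑ a, ∑ u ∈ CC F 0, tau F P i0 (n % F.Qk) a u * g e a u n)
      = ex fun n0 : Fin Z => ex fun e => ∑ a, ∑ u ∈ CC F 0,
          tau F P i0 (n0 % F.Qk) a u * ex fun y : Fi F Z n0 => g e a u y.1 := by
  rw [ex_comm (Ω := Fin Z)]
  refine ex_congr fun e => ?_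
  rw [ex_fib' (fun n : Fin Z => (n : ℕ) % F.Qk)
    fun x n => ∑ a, ∑ u ∈ CC F 0, tau F P i0 x a u * g e a u n]
  refine ex_congr fun n0 => ?_
  rw [ex_sum]
  refine sum_congr rfl fun a _ => ?_
  rw [ex_sum]
  exact sum_congr rfl fun u _ => ex_mul _ _

theorem hp_succ (t : ℕ) : hp P (t + 1) = hp P t * P.hi (t + 1) := prod_range_succ _ _

theorem lp_succ (t : ℕ) : lp P (t + 1) = lp P t * P.lo (t + 1) := prod_range_succ _ _

theorem aco : ACO := by
  intro k Gc hG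
  refine ⟨52000 + 3 * Gc ^ 2, fun F P _ H A _ dt Z C0 i0 hD f Q hf hf0 hQ hQm hS => ?_⟩
  have h := H.toHyp0
  have hG' : (1 : ℝ) ≤ Gc := by exact_mod_cast hG
  have : ∀ q : F.HH, NeZero (q : ℕ) := fun q => ⟨(h.prH q q.2).ne_zero⟩
  have := ee_nonempty h
  have key : ∀ Θ, ex (fun e : EE F P => ex fun n : Fin Z => ∑ a, ∑ u ∈ CC F 0,
        tau F P i0 (n % F.Qk) a u * (f Θ e a n * Q Θ e a u n))
      ≤ ex fun n0 : Fin Z => RHS F.m P.Wn P.J F.r P.η P.Λ (Gc / P.η)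
        (Real.log (Fintype.card A)) (5 * F.k * Real.exp P.Lh) (Hi F P * (2 * P.Λ) * K0 F) (zz P)
        (th P Gc) (phw F P)
        (ex fun e : EE F P => ∑ a, ∑ u ∈ CC F 0, tau F P i0 (n0 % F.Qk) a u *
          ex fun y : Fi F Z n0 => Q Θ e a u y.1 ^ 2)
        (∑ a, ∑ u ∈ CC F 0, tau F P i0 n0 a u) (geo F P C0 Θ n0).C0.card
        (geo F P C0 Θ n0).Z0.card (fun t => ∑ a, ∑ u ∈ CC F (t + 1), tb F P n0 t a u)
        (fun t => ∑ a, ∑ u ∈ CC F 0 \ NB F P n0 t a, tau F P i0 n0 a u)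
        (YY (geo F P C0 Θ n0) (wt F P n0)) := by
    intro Θ
    rw [ex_split i0 fun e a u n => f Θ e a n * Q Θ e a u n]
    refine ex_mono fun n0 => ?_
    have a1 := acomp_RHS (Dt F dt Z n0) (ju h hD.per n0) (geo_ok h C0 Θ (n0 % F.Qk))
      (fun t ht => H.J_le (by omega) ht) (hidH h C0 Θ (n0 % F.Qk)) (zetaH h hD.per n0)
      (extH h C0 Θ (n0 % F.Qk)) (zh h C0 Θ (n0 % F.Qk))
      (τ := fun _ => tau F P i0 (n0 % F.Qk)) (fun _ => tauH h C0 Θ i0 (n0 % F.Qk))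
      (f := fun e a y => f Θ e a y.1) (fun e a y => hf Θ e a y.1) (fun e a y => hf0 Θ e a n0 y)
      (P := fun e a u y => Q Θ e a u y.1) (fun e a u y => hQ Θ e a u y.1)
      (fun e a u hu ht => hQm Θ e a n0 u hu ht) (θ := th P Gc)
      (fun t _ w _ => th_ok h hG' (t + 1) w) h.η0
    simp only [ex_const] at a1
    refine le_trans (ex_mono fun e => sum_le_sum fun a _ => sum_le_sum fun u _ =>
      mul_le_mul_of_nonneg_left (le_abs_self _) (tau_nonneg h _ _ a u)) (a1.trans (le_of_eq ?_))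
    rw [geo_mod, wt_mod, NB_mod, tb_mod]
    congr 1
    · rw [tau_mod]; rfl
    · rw [tau_mod]; rfl
  refine (ET_mono h key).trans ?_
  simp only [RHS_ex]
  rw [RHS_ET, RHS_phw h]
  have v0 := h.vt0
  have L0 : 0 < P.Λ := by linarith [h.L2]
  have z0 : ∀ t w, 0 ≤ zz P t w := fun t w => by
    have := h.σn t w; have := hp_one h t; have := lp_pos h t
    unfold zz; positivity
  refine (conum H (by omega) hG' (Real.log_natCast_nonneg _) hD.alph ?_ ?_ (fun t ht => ?_)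
    (fun t ht => ?_) (fun t ht w _ => ?_) (fun s hs => ?_) ?_).trans (le_of_eq (by push_cast; ring))
  · refine le_trans (le_of_eq ?_) hS
    congr 1
    funext Θ
    exact (ex_split i0 fun e a u n => Q Θ e a u n ^ 2).symm
  · rw [ET_const]; linarith [m_tau h hD.Z0 hD.per i0]
  · rw [ET_const]; exact m_tb h hD.Z0 hD.per ht
  · rw [ET_const]; exact m_bad h hD.Z0 hD.per i0 ht
  · refine (mul_le_mul_of_nonneg_left (m_YY h hD.Z0 hD.per C0 ht.le) (z0 t w)).trans (le_of_eq ?_)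
    have := hp_one h t; have := lp_pos h t
    unfold zz
    field_simp
  · refine (mul_le_mul_of_nonneg_left (m_YY h hD.Z0 hD.per C0 (t := s + 1) hs)
      (z0 s _)).trans (le_of_eq ?_)
    have := hp_one h s; have := lp_pos h s; have := h.lo0 (s + 1)
    rw [hp_succ, lp_succ]
    unfold zz
    field_simp
  · have b1 : ET F P (fun Θ => ex fun n : Fin Z => ((geo F P C0 Θ n).C0.card : ℝ))
        ≤ F.N * P.σin := (ET_mono h fun Θ => m_C0 h hD Θ).trans (ET_const _).le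
    have b2 := mul_le_mul_of_nonneg_left (m_Z0 h hD.Z0 hD.per C0) (z0 F.m (P.Wn - 1))
    have := hp_one h F.m; have := lp_pos h F.m; have := K0_nonneg h
    have := h.N0; have := h.LL0; have := h.Pw0
    have e : Hi F P = hp P F.m := rfl
    refine (mul_le_mul_of_nonneg_left (add_le_add b1 b2) (by rw [e]; positivity)).trans
      (le_of_eq ?_)
    rw [e]
    unfold zz K0 top
    field_simp
    ring

end Pool.Agent.P.MP_a14ce1_nt.Fu.St.Cp
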