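import Pool.Agent.P.MP_a14ce1_nt.Fu.CoSt

/-! The concrete externals have the pinning and the hitting property. -/

open Finset

namespace Pool.Agent.P.MP_a14ce1_nt.Fu

theorem cx_mem {m W Jm : ℕ} {R : ℕ → Finset ℕ} {m0 : ℕ → ℕ → ℕ}
    (h : ∀ t < m, ∀ w < W, 0 < m0 (t + 1) w ∧ m0 (t + 1) w ≤ (R (t + 1)).card)
    {i : ℕ × ℕ × ℕ} (hi : i ∈ exI m W Jm) :
    0 < m0 i.1 i.2.1 ∧ m0 i.1 i.2.1 ≤ (R i.1).card := by
  obtain ⟨t, w, s⟩ := i
  simp only [exI, mem_product, mem_Icc, mem_range] at hi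
  obtain ⟨⟨h1, h2⟩, h3, -⟩ := hi
  obtain ⟨t, rfl⟩ : ∃ t', t = t' + 1 := ⟨t - 1, by omega⟩
  exact h t (by omega) w h3

theorem cx_ne {m W Jm : ℕ} {R : ℕ → Finset ℕ} {m0 : ℕ → ℕ → ℕ}
    (h : ∀ t < m, ∀ w < W, 0 < m0 (t + 1) w ∧ m0 (t + 1) w ≤ (R (t + 1)).card)
    (i : exI m W Jm) :
    Nonempty ↥(tup (R i.1.1) (m0 i.1.1 i.1.2.1) ×ˢ range (m0 i.1.1 i.1.2.1)) := by
  obtain ⟨h1, h2⟩ := cx_mem h i.2
  obtain ⟨x, hx⟩ := tup_nonempty h2
  exact ⟨⟨(x, 0), mem_product.2 ⟨hx, mem_range.2 h1⟩⟩⟩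

theorem ext_nonempty {m W Jm : ℕ} {R : ℕ → Finset ℕ} {m0 : ℕ → ℕ → ℕ}
    (h : ∀ t < m, ∀ w < W, 0 < m0 (t + 1) w ∧ m0 (t + 1) w ≤ (R (t + 1)).card) :
    Nonempty (Ext m W Jm R m0) :=
  ⟨fun i => Classical.choice (cx_ne h i)⟩

theorem cx_ex_coe {β : Type} (S : Finset β) (G : β → ℝ) :
    ex (fun a : ↥S => G a.1) = (∑ a ∈ S, G a) / S.card := by
  unfold ex
  rw [sum_coe_sort S G, Fintype.card_coe]

theorem phi_update {m W Jm : ℕ} {R : ℕ → Finset ℕ} {m0 : ℕ → ℕ → ℕ} (e : Ext m W Jm R m0)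
    (j : exI m W Jm) (a : ↥(tup (R j.1.1) (m0 j.1.1 j.1.2.1) ×ˢ range (m0 j.1.1 j.1.2.1))) :
    phi (Function.update e j a) = Function.update (phi e) j.1 (pre a.1.1 a.1.2) := by
  funext i
  by_cases hij : i = j.1
  · subst hij
    rw [Function.update_self]
    unfold phi
    rw [dif_pos j.2]
    simp only [Function.update_self]
  · rw [Function.update_of_ne hij]
    unfold phi
    split_ifs with hi
    · rw [Function.update_of_ne]
      intro hc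
      exact hij (congrArg Subtype.val hc)
    · rfl

/-- resampling of one coordinate of the externals -/
theorem ex_phi {m W Jm : ℕ} {R : ℕ → Finset ℕ} {m0 : ℕ → ℕ → ℕ}
    (h : ∀ t < m, ∀ w < W, 0 < m0 (t + 1) w ∧ m0 (t + 1) w ≤ (R (t + 1)).card)
    {i : ℕ × ℕ × ℕ} (hi : i ∈ exI m W Jm) (F : Ph → ℝ) :
    ex (fun e : Ext m W Jm R m0 => F (phi e)) = ex fun e : Ext m W Jm R m0 =>
      (∑ a ∈ tup (R i.1) (m0 i.1 i.2.1) ×ˢ range (m0 i.1 i.2.1),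
        F (Function.update (phi e) i (pre a.1 a.2))) /
        (tup (R i.1) (m0 i.1 i.2.1) ×ˢ range (m0 i.1 i.2.1)).card := by
  have := cx_ne h (⟨i, hi⟩ : exI m W Jm)
  rw [← ex_update (⟨i, hi⟩ : exI m W Jm) (fun e : Ext m W Jm R m0 => F (phi e))]
  refine ex_congr fun e => ?_
  rw [← cx_ex_coe (tup (R i.1) (m0 i.1 i.2.1) ×ˢ range (m0 i.1 i.2.1))
    (fun a => F (Function.update (phi e) i (pre a.1 a.2)))]
  refine ex_congr fun a => ?_
  rw [phi_update e ⟨i, hi⟩ a]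

theorem pinP_phi {m W Jm : ℕ} {R : ℕ → Finset ℕ} {m0 : ℕ → ℕ → ℕ}
    (h : ∀ t < m, ∀ w < W, 0 < m0 (t + 1) w ∧ m0 (t + 1) w ≤ (R (t + 1)).card)
    {i : ℕ × ℕ × ℕ} (hi : i ∈ exI m W Jm) :
    PinP (phi : Ext m W Jm R m0 → Ph) i (R i.1) ((m0 i.1 i.2.1 : ℝ) / (R i.1).card) := by
  intro H hm hanti h0 h1 h2
  obtain ⟨a1, a2⟩ := cx_mem h hi
  rw [ex_phi h hi (fun Ψ => ∑ q ∈ R i.1, (H Ψ - H (Function.update Ψ i (insert q (Ψ i))))),
    ← ex_div]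
  refine ex_mono fun e => ?_
  simp only [Function.update_idem, Function.update_self]
  have := pin_avg (R i.1) (R i.1) subset_rfl a1 le_rfl a2
    (fun X => H (Function.update (phi e) i X))
    (fun X q => H (Function.update (phi e) i (insert q X))) (hm (phi e))
    (fun _ _ => h0 _) ((h1 _).trans (h2 _ _).le)
    (fun X _ q _ => hanti _ _ _ (subset_insert q X)) (fun _ _ _ _ => le_rfl)
  rw [sum_product, card_product, card_range, div_div_eq_mul_div, mul_comm (hm _)]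
  push_cast
  exact this

theorem hitP_phi {m W Jm : ℕ} {R : ℕ → Finset ℕ} {m0 : ℕ → ℕ → ℕ}
    (h : ∀ t < m, ∀ w < W, 0 < m0 (t + 1) w ∧ m0 (t + 1) w ≤ (R (t + 1)).card)
    {i : ℕ × ℕ × ℕ} (hi : i ∈ exI m W Jm) :
    HitP (phi : Ext m W Jm R m0 → Ph) i (R i.1) ((m0 i.1 i.2.1 : ℝ) / (R i.1).card) := by
  intro g T h0 h1
  obtain ⟨a1, a2⟩ := cx_mem h hi
  rw [ex_phi h hi (fun Ψ => g Ψ * ind (¬Disjoint (Ψ i) T)), ← ex_mul]
  refine ex_mono fun e => ?_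
  simp only [h1, Function.update_self]
  have hc : (0 : ℝ) < (tup (R i.1) (m0 i.1 i.2.1) ×ˢ range (m0 i.1 i.2.1)).card := by
    rw [card_product, card_range]
    exact_mod_cast Nat.mul_pos (tup_nonempty a2).card_pos a1
  have key := prob_meet_ext (R i.1) (T ∩ R i.1) (n := m0 i.1 i.2.1) (m0 := m0 i.1 i.2.1) le_rfl
    (a1.trans_le a2)
  have e1 : ∑ a ∈ tup (R i.1) (m0 i.1 i.2.1) ×ˢ range (m0 i.1 i.2.1),
      ind (¬Disjoint (pre a.1 a.2) T) =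
      (((tup (R i.1) (m0 i.1 i.2.1) ×ˢ range (m0 i.1 i.2.1)).filter
        fun a => (T ∩ R i.1 ∩ pre a.1 a.2).Nonempty).card : ℝ) := by
    rw [card_filter]
    push_cast
    refine sum_congr rfl fun a ha => ?_
    rw [← ind_eq]
    refine ind_congr ?_
    rw [inter_assoc, inter_eq_right.2 (pre_subset (mem_product.1 ha).1 _), disjoint_comm,
      not_disjoint_iff_nonempty_inter]
  rw [← mul_sum, e1, mul_div_assoc, mul_comm (g _)]
  refine mul_le_mul_of_nonneg_right ?_ (h0 _)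
  rw [div_le_iff₀ hc, ← mul_div_assoc]
  exact key

theorem extH_phi {B : Type} (g : Geo B) {Jm : ℕ} {m0 : ℕ → ℕ → ℕ}
    (h : ∀ t < g.m, ∀ w < g.W, 0 < m0 (t + 1) w ∧ m0 (t + 1) w ≤ (g.R (t + 1)).card)
    (hJ : ∀ t < g.m, g.J (t + 1) ≤ Jm) :
    ExtH g (phi : Ext g.m g.W Jm g.R m0 → Ph)
      fun t w => (m0 t (wi t w) : ℝ) / (g.R t).card := by
  intro t ht w hw
  have hw' : wi (t + 1) w < g.W := by
    unfold wi
    split_ifs <;> omega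
  obtain ⟨a1, a2⟩ := h t ht _ hw'
  refine ⟨div_pos (by exact_mod_cast a1) (by exact_mod_cast a1.trans_le a2), fun s hs => ?_⟩
  have hi : ix (t + 1) w s ∈ exI g.m g.W Jm := by
    simp only [ix, exI, mem_product, mem_Icc, mem_range]
    have := hJ t ht
    exact ⟨⟨by omega, by omega⟩, hw', by omega⟩
  exact ⟨pinP_phi h hi, hitP_phi h hi⟩

end Pool.Agent.P.MP_a14ce1_nt.Fu
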