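import Pool.Agent.P.MP_a14ce1_nt.Fu.CpA
import Pool.Agent.P.MP_a14ce1_nt.Fu.CoExt

/-! Externals, densities and the hidden weight on the model. -/

open Finset

namespace Pool.Agent.P.MP_a14ce1_nt.Fu.St.Cp

open Ch (pv mu rs lam)

variable {F : Fam} {P : Par}

theorem cb_m0 (h : Hyp0 F P) : ∀ t < F.m, ∀ w < P.Wn,
    0 < P.m0 (t + 1) w ∧ P.m0 (t + 1) w ≤ (RT F (t + 1)).card := by
  intro t ht w _
  rw [RT_eq (by omega : t + 1 ≤ F.m)]
  exact h.m01 (t + 1) (mem_Icc.2 ⟨by omega, by omega⟩) w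

theorem ee_nonempty (h : Hyp0 F P) : Nonempty (EE F P) := ext_nonempty (cb_m0 h)

theorem extH (h : Hyp0 F P) (C0 : ℕ → Finset ℕ) (Θ : Finset (Fin F.N)) (x : ℕ) :
    ExtH (geo F P C0 Θ x) (phi : EE F P → Ph) (phw F P) :=
  extH_phi (geo F P C0 Θ x) (Jm := Jm F P) (m0 := P.m0) (cb_m0 h) fun _ ht =>
    le_sup (f := P.J) (mem_range.2 (Nat.succ_lt_succ ht))

theorem phw_eq (h : Hyp0 F P) {t : ℕ} (ht : t ≤ F.m) (w : ℕ) : phw F P t w = ph F P t w := by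
  unfold phw ph wi
  rw [RT_eq ht]
  split_ifs with h2
  · rw [h.m02 t h2 w]
  · rfl

theorem zh (h : Hyp0 F P) (C0 : ℕ → Finset ℕ) (Θ : Finset (Fin F.N)) (x : ℕ) :
    ZH (geo F P C0 Θ x) (phw F P) (kap F P) (zz P) := by
  have hA : ∀ t, 0 < P.vt * (hp P t / lp P t) := fun t =>
    mul_pos h.vt0 (div_pos (one_pos.trans_le (hp_one h t)) (lp_pos h t))
  refine ⟨fun t ht b hb => ?_, fun w _ => ?_, fun t w => div_nonneg (h.σn t w) (hA t).le,
    fun t ht w hw => ?_⟩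
  · have ht' : t + 1 ≤ F.m := ht
    have h1 := (mem_OkS.1 (mem_inter.1 hb).2 (t + 1) ht').2.2
    change ((As F x b ∩ RT F (t + 1)).card : ℝ) ≤ _
    rw [RT_eq ht', kap]
    exact_mod_cast h1
  · rw [zz, le_div_iff₀ (hA 0), one_mul]
    simpa [hp, lp] using h.σ0 w
  · have ht' : t < F.m := ht
    have hw' : w < P.Wn := hw
    have h1 := h.σs t ht' w hw'
    have hlo := h.lo0 (t + 1)
    have hhi : 0 < P.hi (t + 1) := one_pos.trans_le (h.hi1 _)
    have e : P.vt * (hp P (t + 1) / lp P (t + 1))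
        = P.vt * (hp P t / lp P t) * (P.hi (t + 1) / P.lo (t + 1)) := by
      rw [hp, lp, prod_range_succ _ (t + 1), prod_range_succ _ (t + 1), mul_div_mul_comm,
        mul_assoc]
      rfl
    change zz P t w * (kap F P (t + 1) * phw F P (t + 1) w) ^ P.J (t + 1) + _ ≤ _
    rw [phw_eq h (by omega : t + 1 ≤ F.m), zz, zz, zz, e, kap, le_div_iff₀
      (mul_pos (hA t) (div_pos hhi hlo))]
    refine le_trans (le_of_eq ?_) h1
    have := (hA t).ne'
    generalize P.vt * (hp P t / lp P t) = a at this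
    by_cases c : 2 ≤ t ∧ 0 < w
    · rw [if_pos c, if_pos (show 2 ≤ t ∧ 1 ≤ w from c)]
      field_simp
    · rw [if_neg c, if_neg (show ¬(2 ≤ t ∧ 1 ≤ w) from c)]
      field_simp
      ring

theorem cb_per (Q : ℕ) : Per Q fun n => n % Q := fun _ _ h => h

theorem ju (h : Hyp0 F P) [∀ q : F.HH, NeZero (q : ℕ)] {Z : ℕ} (hd : pv F.all ∣ Z) (n0 : Fin Z) :
    JU fun (q : F.HH) (y : Fi F Z n0) => ((y.1 : ℕ) : ZMod q) := by
  refine ju_fib (q := fun q : F.HH => (q : ℕ)) (fun i j hij => ?_) (Q := F.Qk)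
    (fun i => pv_cop_prime h.prK (h.prH _ i.2) (disjoint_right.1 h.dK i.2)) ?_
    (r := fun n => n % F.Qk) (cb_per _) n0
  · exact (Nat.coprime_primes (h.prH _ i.2) (h.prH _ j.2)).2 fun e => hij (Subtype.ext e)
  · rw [prod_coe_sort F.HH (fun q => q)]
    rw [h.pv_all] at hd
    exact hd

theorem zetaH (h : Hyp0 F P) [∀ q : F.HH, NeZero (q : ℕ)] {Z : ℕ} (hd : pv F.all ∣ Z)
    (n0 : Fin Z) :
    ZetaH (fun (q : F.HH) (y : Fi F Z n0) => ((y.1 : ℕ) : ZMod q))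
      (fun (b : Fin F.N) (q : F.HH) => -((b : ℕ) : ZMod q))
      (fun a y => F.z (y.1 + a)) P.Λ := by
  classical
  rw [h.pv_all] at hd
  refine ⟨fun a y => h.ze0 _, fun a y => h.zeL _, fun a => ?_, fun a => ?_⟩
  · have e1 := ex_fb_per h.cop hd (r := fun n => n % F.Qk) (cb_per _)
      (v := fun n => F.ze (dp F.HH (n + a))) ((per_dp dvd_rfl a).comp F.ze) n0
    exact e1.trans ((ex_dp h.prH n0.pos (Dvd.dvd.trans (Dvd.intro_left _ rfl) hd) a F.ze).trans h.Eze)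
  · have e1 := ms_xs (fun (q : F.HH) (y : Fi F Z n0) => ((y.1 : ℕ) : ZMod q))
      (fun (b : Fin F.N) (q : F.HH) => -((b : ℕ) : ZMod q)) (mem_singleton_self a)
      (fun p => F.ze (F.HH.filter fun q => ∃ hq : q ∈ F.HH, p ⟨q, hq⟩))
    have e2 : (fun y : Fi F Z n0 => F.z (y.1 + a)) = fun y : Fi F Z n0 =>
        F.ze (F.HH.filter fun q => ∃ hq : q ∈ F.HH,
          ((y.1 : ℕ) : ZMod (⟨q, hq⟩ : F.HH)) = -((a : ℕ) : ZMod (⟨q, hq⟩ : F.HH))) := by
      funext y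
      unfold Fam.z dp
      congr 1
      refine filter_congr fun q hq => ?_
      simp only [hit_iff]
      exact ⟨fun c => ⟨hq, c⟩, fun c => c.2⟩
    rw [e2]
    convert e1

end Pool.Agent.P.MP_a14ce1_nt.Fu.St.Cp
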