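import Pool.Agent.P.MP_a14ce1_nt.Fu.DaDef
import Pool.Agent.P.MP_a14ce1_nt.Fu.CpB

/-!
Section 3 (a): the mass of the bad edges.
-/

open Finset

namespace Pool.Agent.P.MP_a14ce1_nt.Fu.St.Cp

open Ch (pv)

variable {F : Fam} {P : Par}

/-- a given site is on a path with probability at most `η` -/
theorem db_path (h : Hyp0 F P) (x b : ℕ) :
    ex (fun e : EE F P => Fu.ind (∃ hb : b < F.N, (⟨b, hb⟩ : Fin F.N) ∈ Pa F P e x)) ≤ P.η := by
  have m2 := h.m2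
  by_cases hb : ∃ hb : b < F.N, (⟨b, hb⟩ : Fin F.N) ∈ OkS F P x
  swap
  · refine ex_le h.η0.le fun e => (ind_neg ?_).trans_le h.η0.le
    rintro ⟨h1, h2⟩
    exact hb ⟨h1, (mem_inter.1 (Geo.Zs_subset _ _ _ _ h2)).2⟩
  obtain ⟨hb, ho⟩ := hb
  have := ee_nonempty h
  obtain ⟨p0, hH⟩ := extH h (fun _ => ∅) univ x 0 (show 0 < F.m by omega) 0 h.W1
  have a := (hH 0 (h.J1 _)).2 (fun _ => 1) (As F x ⟨b, hb⟩) (fun _ => zero_le_one) fun _ _ => rfl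
  rw [ex_const, mul_one] at a
  rw [phw_eq h (by omega)] at a p0
  have c : ((As F x ⟨b, hb⟩ ∩ F.R 1).card : ℝ) ≤ F.r 1 + P.Kx 1 := by
    exact_mod_cast (mem_OkS.1 ho 1 (by omega)).2.2
  have e1 : (geo F P (fun _ => ∅) univ x).R (0 + 1) = F.R 1 := RT_eq (by omega)
  rw [e1] at a
  refine le_trans (ex_mono fun e => ?_)
    (a.trans ((mul_le_mul_of_nonneg_right c p0.le).trans h.path))
  rw [one_mul]
  by_cases hp : ∃ hb : b < F.N, (⟨b, hb⟩ : Fin F.N) ∈ Pa F P e x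
  · obtain ⟨h1, h2⟩ := hp
    exact (ind_le_one _).trans (ind_pos (Geo.Zs_first (geo F P (fun _ => ∅) univ x) _
      (show 1 ≤ F.m by omega) (h.J1 1) _ h2)).ge
  · rw [ind_neg hp]
    exact ind_nonneg _

theorem db_pt {i0 n a p : ℕ} {c : Finset ℕ} (e : EE F P)
    (ha : a + (F.k - 1) * (pv c * p) < F.N) :
    Fu.ind (¬gE F P i0 e n a c p) ≤
      Fu.ind (∃ t ≤ F.m, ¬Ok F P t (dp F.Lo (n + (a + i0 * (pv c * p))))) +
      Fu.ind (∃ s ≤ F.m, P.La s < Real.log (pv (c ∩ F.Lv 0 (s + 1)))) +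
      Fu.ind (F.Vl 0 (dp F.Lo (n + (a + i0 * (pv c * p)))) < P.Δ * F.wl 0 c) +
      ∑ i ∈ range F.k, (Fu.ind (∃ t ≤ F.m, ¬Ok F P t (dp F.Lo (n + (a + i * (pv c * p))))) +
        Fu.ind (∃ hb : a + i * (pv c * p) < F.N,
          (⟨a + i * (pv c * p), hb⟩ : Fin F.N) ∈ Pa F P e n)) := by
  set A := Fu.ind (∃ t ≤ F.m, ¬Ok F P t (dp F.Lo (n + (a + i0 * (pv c * p))))) with hA
  set B := Fu.ind (∃ s ≤ F.m, P.La s < Real.log (pv (c ∩ F.Lv 0 (s + 1)))) with hB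
  set C := Fu.ind (F.Vl 0 (dp F.Lo (n + (a + i0 * (pv c * p)))) < P.Δ * F.wl 0 c) with hC
  set f : ℕ → ℝ := fun i =>
    Fu.ind (∃ t ≤ F.m, ¬Ok F P t (dp F.Lo (n + (a + i * (pv c * p))))) +
      Fu.ind (∃ hb : a + i * (pv c * p) < F.N,
        (⟨a + i * (pv c * p), hb⟩ : Fin F.N) ∈ Pa F P e n) with hf
  have A0 : 0 ≤ A := ind_nonneg _
  have B0 : 0 ≤ B := ind_nonneg _
  have C0 : 0 ≤ C := ind_nonneg _
  have f0 : ∀ i, 0 ≤ f i := fun i => add_nonneg (ind_nonneg _) (ind_nonneg _)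
  have S0 : 0 ≤ ∑ i ∈ range F.k, f i := sum_nonneg fun i _ => f0 i
  have l1 := ind_le_one (¬gE F P i0 e n a c p)
  by_cases hg : gE F P i0 e n a c p
  · rw [ind_neg (not_not.2 hg)]
    linarith
  by_cases h1 : OkA F P (dp F.Lo (n + (a + i0 * (pv c * p))))
  swap
  · have : A = 1 := ind_pos (by simpa [OkA] using h1)
    linarith
  by_cases h2 : ∀ s ≤ F.m, Real.log (pv (c ∩ F.Lv 0 (s + 1))) ≤ P.La s
  swap
  · have : B = 1 := ind_pos (by simpa using h2)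
    linarith
  by_cases h3 : P.Δ * F.wl 0 c ≤ F.Vl 0 (dp F.Lo (n + (a + i0 * (pv c * p))))
  swap
  · have : C = 1 := ind_pos (not_le.1 h3)
    linarith
  obtain ⟨i, hi, h4⟩ : ∃ i ∈ (range F.k).erase i0, ¬og F P e n (a + i * (pv c * p)) := by
    by_contra hc
    exact hg ⟨h1, h2, h3, fun i hi => not_not.1 fun d => hc ⟨i, hi, d⟩⟩
  have ik := mem_range.1 (mem_erase.1 hi).2
  have hb : a + i * (pv c * p) < F.N :=
    lt_of_le_of_lt (Nat.add_le_add_left (Nat.mul_le_mul_right _ (by omega)) _) ha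
  have s1 : f i ≤ ∑ i ∈ range F.k, f i := single_le_sum (fun i _ => f0 i) (mem_range.2 ik)
  have s2 : 1 ≤ f i := by
    by_cases h5 : (⟨a + i * (pv c * p), hb⟩ : Fin F.N) ∈ Pa F P e n
    · exact le_add_of_nonneg_of_le (ind_nonneg _) (ind_pos ⟨hb, h5⟩).ge
    · have h6 : ¬OkA F P (dp F.Lo (n + (a + i * (pv c * p)))) := fun d => h4 ⟨hb, mem_OkS.2 (by
        rw [← okA_inter (Subset.refl F.Lo), As_inter subset_union_left]; exact d), h5⟩
      exact le_add_of_le_of_nonneg (ind_pos (by simpa [OkA] using h6)).ge (ind_nonneg _)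
  linarith

theorem bad (h : Hyp F P 10) {Z : ℕ} (hZ : 0 < Z) (hd : pv F.all ∣ Z) (i0 : ℕ) :
    ex (fun e : EE F P => F.ms Z fun n a c p => Fu.ind (¬gE F P i0 e n a c p))
      ≤ (24 + 16 * F.k) * P.η := by
  have h0 := h.toHyp0
  have := ee_nonempty h0
  have k1 : ∀ i, F.ms Z (fun n a c p =>
      Fu.ind (∃ t ≤ F.m, ¬Ok F P t (dp F.Lo (n + (a + i * (pv c * p)))))) ≤ 8 * P.η := fun i =>
    (h.mass_ev hZ hd i fun _ T => ∃ t ≤ F.m, ¬Ok F P t T).trans (by linarith [h.ok])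
  have k2 : F.ms Z (fun n a c p =>
      Fu.ind (∃ s ≤ F.m, P.La s < Real.log (pv (c ∩ F.Lv 0 (s + 1))))) ≤ 8 * P.η :=
    (h.mass_ev hZ hd 0 fun c _ => ∃ s ≤ F.m, P.La s < Real.log (pv (c ∩ F.Lv 0 (s + 1)))).trans
      (by linarith [h.adm])
  have k3 : F.ms Z (fun n a c p =>
      Fu.ind (F.Vl 0 (dp F.Lo (n + (a + i0 * (pv c * p)))) < P.Δ * F.wl 0 c)) ≤ 8 * P.η :=
    (h.mass_ev hZ hd i0 fun c T => F.Vl 0 T < P.Δ * F.wl 0 c).trans (by linarith [h.ext])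
  have k4 : F.ms Z (fun _ _ _ _ => P.η) ≤ 8 * P.η := by
    have := h.mass hZ hd 0 (Φ := fun _ _ => P.η) fun _ _ => h.η0.le
    rwa [h0.nrm_w.const] at this
  have k5 : ∀ i, ex (fun e : EE F P => F.ms Z fun n a c p =>
      Fu.ind (∃ hb : a + i * (pv c * p) < F.N,
        (⟨a + i * (pv c * p), hb⟩ : Fin F.N) ∈ Pa F P e n)) ≤ 8 * P.η := fun i => by
    rw [← F.ms_ex]
    exact (h0.ms_mono fun n a c p _ _ _ _ _ _ _ => db_path h0 n _).trans k4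
  refine (ex_mono fun e => h0.ms_mono fun n a c p _ _ _ _ ha _ _ => db_pt e ha).trans ?_
  simp only [F.ms_add, F.ms_sum, ex_add, ex_sum, ex_const]
  have k6 := sum_le_sum fun i (_ : i ∈ range F.k) => add_le_add (k1 i) (k5 i)
  rw [sum_const, card_range, nsmul_eq_mul] at k6
  linarith [k1 i0]

end Pool.Agent.P.MP_a14ce1_nt.Fu.St.Cp
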