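import Pool.Agent.P.MP_a14ce1_nt.Fu.DaDef

/-! Section 3 (a): measurability on the fibres. -/

open Finset

namespace Pool.Agent.P.MP_a14ce1_nt.Fu.St.Cp

open Ch (pv)

variable {F : Fam} {P : Par}

theorem sig_cd {A : Type} (dt : ℕ → A) (Z : ℕ) (C0 : ℕ → Finset ℕ) (Θ : Finset (Fin F.N))
    (e : EE F P) (n0 : Fin Z) :
    sig (Dt F dt Z n0) ((geo F P C0 Θ (n0 % F.Qk)).code (phi e)) =
      sig (fun (y : Fi F Z n0) (b : ℕ) => dt (y.1 + b)) (cd F P C0 Θ e (n0 % F.Qk)) := by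
  ext y y'
  constructor
  · intro a b hb
    obtain ⟨c, hc, rfl⟩ := mem_map.1 hb
    exact a c hc
  · intro a b hb
    exact a b (mem_map_of_mem _ hb)

theorem f_ce (h : Hyp0 F P) {A : Type} (dt : ℕ → A) (Z : ℕ) (C0 : ℕ → Finset ℕ) {X : ℕ → ℝ}
    (hX : ∀ n, |X n| ≤ 1) (i0 : ℕ) (Θ : Finset (Fin F.N)) (e : EE F P) (a : Fin F.N) (n0 : Fin Z)
    (y : Fi F Z n0) :
    ce (sig (Dt F dt Z n0) ((geo F P C0 Θ (n0 % F.Qk)).code (phi e)))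
      (fun y => F.z (y.1 + a) * xx F P dt Z C0 X i0 Θ e i0 y.1 a) y = 0 := by
  rw [sig_cd, ← ce_glue (fun n : Fin Z => (n : ℕ) % F.Qk) (fun n b => dt (n + b))
    (cd F P C0 Θ e) (fun n => F.z (n + a) * xx F P dt Z C0 X i0 Θ e i0 n a) y]
  simp only [xx, mix, lt_irrefl, if_false, if_true]
  exact ce_yr (gl Z F.Qk dt (cd F P C0 Θ e)) (ζ := fun n => F.z (n + a)) (X := fun n => X (n + a))
    (fun _ => h.ze0 _) (fun _ => hX _) y.1

theorem og_mod (e : EE F P) (n b : ℕ) : og F P e (n % F.Qk) b ↔ og F P e n b := by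
  simp only [og, Pa, OkS_mod, geo_mod]

theorem F0_mod (i0 n : ℕ) : F0 F P i0 (n % F.Qk) = F0 F P i0 n := by
  funext a u
  rw [F0, F0, gs_mod]

/-- the other sites of an edge carry the object -/
theorem sub_As_st {i0 x i : ℕ} {a : Fin F.N} {u g : Finset ℕ} (hu : u ⊆ As F x a)
    (hg : g ∈ gs F P i0 x a u) (hb : st i0 a (pv g * pv u) i < F.N) :
    u ⊆ As F x ⟨_, hb⟩ := by
  classical
  intro q hq
  obtain ⟨a1, a2⟩ := mem_dp.1 (hu hq)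
  have a3 : i0 * (pv g * pv u) ≤ a := (mem_filter.1 hg).2.2.1
  have a4 : q ∣ pv g * pv u := (dvd_prod_of_mem (fun q : ℕ => q) hq).mul_left _
  refine mem_dp.2 ⟨a1, (Nat.dvd_add_left (a4.mul_left i0)).1 ?_⟩
  have : x + st i0 a (pv g * pv u) i + i0 * (pv g * pv u) = x + a + i * (pv g * pv u) := by
    unfold st; omega
  change q ∣ x + st i0 a (pv g * pv u) i + i0 * (pv g * pv u)
  rw [this]
  exact a2.add (a4.mul_left i)

theorem q_ms (h : Hyp0 F P) {A : Type} (dt : ℕ → A) (Z : ℕ) (C0 : ℕ → Finset ℕ) {X : ℕ → ℝ}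
    (hdt : ∀ n n', dt n = dt n' → X n = X n' ∧ F.z n = F.z n') (s : ℕ → ℝ) (i0 : ℕ)
    (Θ : Finset (Fin F.N)) (e : EE F P) (a : Fin F.N) (n0 : Fin Z) {u : Finset ℕ}
    (hu : u ∈ CC F 0) (h0 : tau F P i0 (n0 % F.Qk) a u ≠ 0) :
    Ms (sig (Dt F dt Z n0) ((geo F P C0 Θ (n0 % F.Qk)).code (phi e) ∪
      (geo F P C0 Θ (n0 % F.Qk)).Z0 ∩ (geo F P C0 Θ (n0 % F.Qk)).cell u))
      fun y => Q0 F P s (xx F P dt Z C0 X i0 Θ e) i0 Θ e a u y.1 := by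
  intro y y' hy
  have m1 : (y.1 : ℕ) % F.Qk = n0 % F.Qk := y.2
  have m2 : (y'.1 : ℕ) % F.Qk = n0 % F.Qk := y'.2
  have us : u ⊆ As F (n0 % F.Qk) a := by
    by_contra c
    exact h0 (by rw [tau, bs, if_neg fun d => c d.2, zero_mul])
  have gl1 : gl Z F.Qk dt (cd F P C0 Θ e) y.1 y'.1 := by
    refine ⟨m1.trans m2.symm, fun b hb => ?_⟩
    change b ∈ cd F P C0 Θ e (y.1 % F.Qk) at hb
    rw [m1] at hb
    obtain ⟨c, hc, rfl⟩ := mem_map.1 hb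
    exact hy c (mem_union_left _ hc)
  change Q0 F P s _ i0 Θ e a u y.1 = Q0 F P s _ i0 Θ e a u y'.1
  unfold Q0
  rw [← gs_mod i0 y.1, ← gs_mod i0 y'.1, ← F0_mod i0 y.1, ← F0_mod i0 y'.1, m1, m2]
  congr 1
  refine sum_congr rfl fun g hg => ?_
  congr 2
  refine prod_congr rfl fun i _ => ?_
  have hs := fun hb => sub_As_st (i := i) us hg hb
  generalize st i0 a (pv g * pv u) i = b at hs ⊢
  rw [← propext (og_mod e y.1 b), ← propext (og_mod e y'.1 b), m1, m2]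
  by_cases c1 : og F P e (n0 % F.Qk) b
  swap
  · rw [ind_neg c1, zero_mul, zero_mul, mul_zero, mul_zero]
  by_cases c2 : ∃ h : b < F.N, (⟨b, h⟩ : Fin F.N) ∈ Θ
  swap
  · simp only [ith, ind_neg c2, zero_div, mul_zero, zero_mul]
  obtain ⟨hb, c1, -⟩ := c1
  obtain ⟨_, c2⟩ := c2
  obtain ⟨d1, d2⟩ := hdt _ _ (hy ⟨b, hb⟩ (mem_union_right _ (mem_inter.2
    ⟨mem_inter.2 ⟨c2, c1⟩, (Geo.mem_cell _).2 (hs hb)⟩)))
  have d3 : F.W (pr F u) (y.1 + b) = F.W (pr F u) (y'.1 + b) := by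
    change wa F _ _ * F.z _ = wa F _ _ * F.z _
    rw [← wa_mod, ← wa_mod _ y'.1, m1, m2]
    exact congrArg _ d2
  have d4 : pred Z F.Qk dt (cd F P C0 Θ e) F.z X y.1 b =
      pred Z F.Qk dt (cd F P C0 Θ e) F.z X y'.1 b := ms_yr _ _ _ _ _ gl1
  have d5 : X (y.1 + b) = X (y'.1 + b) := d1
  simp only [xx, mix, d3, d4, d5]

end Pool.Agent.P.MP_a14ce1_nt.Fu.St.Cp
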