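import Pool.Agent.P.MP_a14ce1_nt.Fu.DaDef
import Pool.Agent.P.MP_a14ce1_nt.Fu.CpD

/-! Section 3 (a): regrouping of the good edges by the target site and the object. -/

open Finset

namespace Pool.Agent.P.MP_a14ce1_nt.Fu.St.Cp

open Ch (pv)

variable {F : Fam} {P : Par}

theorem dr_div (h : Hyp0 F P) (i0 x : ℕ) (a : Fin F.N) (u : Finset ℕ) (φ : Finset ℕ → ℝ) :
    F0 F P i0 x a u * ((∑ g ∈ gs F P i0 x a u, F.wl 0 g * φ g) / F0 F P i0 x a u) =
      ∑ g ∈ gs F P i0 x a u, F.wl 0 g * φ g := by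
  by_cases c : F0 F P i0 x a u = 0
  · rw [c, zero_mul, sum_eq_zero fun g hg => ?_]
    rw [(sum_eq_zero_iff_of_nonneg fun g _ => h.wl_nonneg 0 g).1 c g hg, zero_mul]
  · exact mul_div_cancel₀ _ c

theorem dr_ind {ι : Type} (I : Finset ι) (q : ι → Prop) :
    Fu.ind (∀ i ∈ I, q i) = ∏ i ∈ I, Fu.ind (q i) := by
  by_cases c : ∀ i ∈ I, q i
  · rw [ind_pos c, prod_eq_one fun i hi => ind_pos (c i hi)]
  · rw [ind_neg c]
    push Not at c
    obtain ⟨i, hi, hq⟩ := c
    exact (prod_eq_zero hi (ind_neg hq)).symm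

open Classical in
theorem dr_gs (i0 x : ℕ) (a : Fin F.N) (u : Finset ℕ) (φ : Finset ℕ → ℝ) :
    ∑ g ∈ gs F P i0 x a u, φ g = ∑ g ∈ (F.cl 0).powerset,
      if g ⊆ As F x a ∧ gd F P i0 x a u g then φ g else 0 := by
  rw [← sum_filter]
  refine sum_congr ?_ fun _ _ => rfl
  ext g
  simp only [gs, mem_filter, mem_powerset, subset_inter_iff]
  tauto

open Classical in
theorem dr_term (h : Hyp0 F P) {Z : ℕ} (s : ℕ → ℝ) (x : ℕ → Fin Z → ℕ → ℝ) {i0 : ℕ}
    (hi : i0 < F.k) (Θ : Finset (Fin F.N)) (e : EE F P) (n : Fin Z) (a : Fin F.N)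
    {g c : Finset ℕ} {p : ℕ} (hg : g ⊆ F.cl 0) (hc : c ⊆ F.Lv 1 (F.m + 1)) (hp : p ∈ F.RR) :
    (if pv (g ∪ c) * p ∣ n + a ∧ F.win (pv (g ∪ c) * p) ∧ i0 * (pv (g ∪ c) * p) ≤ a ∧
        a + (F.k - 1 - i0) * (pv (g ∪ c) * p) < F.N then
      F.w (g ∪ c) / (F.LL * F.N * F.Pw) *
        (∏ i ∈ range F.k, F.W p (n + (a - i0 * (pv (g ∪ c) * p) + i * (pv (g ∪ c) * p)))) *
        (Fu.ind (gE F P i0 e n (a - i0 * (pv (g ∪ c) * p)) (g ∪ c) p) *
          ((∏ i ∈ (range F.k).erase i0,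
            ith F P Θ (a - i0 * (pv (g ∪ c) * p) + i * (pv (g ∪ c) * p))) *
          (s (pv (g ∪ c) * p) *
            ∏ i ∈ range F.k, x i n (a - i0 * (pv (g ∪ c) * p) + i * (pv (g ∪ c) * p)))))
      else 0) =
    bs F P n a (insert p c) * (F.z (n + a) * x i0 n a) *
      if g ⊆ As F n a ∧ gd F P i0 n a (insert p c) g then
        F.wl 0 g * (s (pv g * pv (insert p c)) * ∏ i ∈ (range F.k).erase i0,
          (F.W (pr F (insert p c)) (n + st i0 a (pv g * pv (insert p c)) i) *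
            ith F P Θ (st i0 a (pv g * pv (insert p c)) i) *
            (Fu.ind (og F P e n (st i0 a (pv g * pv (insert p c)) i)) *
              x i n (st i0 a (pv g * pv (insert p c)) i))))
      else 0 := by
  have cL : c ⊆ F.Lo := hc.trans (F.Lv_sub le_rfl)
  have gL : g ⊆ F.Lo := hg.trans cl0_Lo
  have pL : p ∉ F.Lo := fun a => disjoint_left.1 (dLR h) a hp
  have uC := insert_mem_CC h (t := 0) hc hp
  have dgc : Disjoint g c := (h.dLv le_rfl le_rfl).mono (hg.trans Lv_one.ge) hc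
  have e1 : pv g * pv (insert p c) = pv (g ∪ c) * p := by
    rw [pv_insert' h cL hp, pv_union dgc, mul_assoc]
  have e2 : pv (g ∪ c) * p ∣ n + a ↔ g ⊆ As F n a ∧ insert p c ⊆ As F n a := by
    rw [← pv_insert' h (union_subset gL cL) hp, ← union_insert, ← union_subset_iff,
      pv_dvd_iff fun q hq => (mem_union.1 (union_subset (gL.trans subset_union_left)
        (CC_sub uC) hq)).elim (h.prLo q) (h.prR q)]
    exact ⟨fun k q hq => mem_dp.2 ⟨union_subset (gL.trans subset_union_left) (CC_sub uC) hq,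
      k q hq⟩, fun k q hq => (mem_dp.1 (k hq)).2⟩
  have e3 : ∀ S ⊆ F.Lo, (g ∪ insert p c) ∩ S = (g ∪ c) ∩ S := fun S hS => by
    rw [union_insert, insert_inter_of_notMem fun k => pL (hS k)]
  have e4 : F.wl 0 (g ∪ c) = F.wl 0 g := by
    rw [← F.wl_inter Subset.rfl, ← e3 _ cl0_Lo, union_inter_distrib_right,
      disjoint_iff_inter_eq_empty.1 (CC0_disj h uC), union_empty, F.wl_inter Subset.rfl]
  have e5 : F.w (g ∪ c) = F.wh 1 (F.m + 1) (insert p c) * F.wl 0 g := by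
    rw [w_pair h uC hg, union_insert, wh_insert h le_rfl _ hp, Fam.w]
  have e6 : dp F.Lo (n + a) = As F n a ∩ F.Lo := (As_inter subset_union_left n a).symm
  rw [pr_insert h cL hp, gd, e1]
  set d := pv (g ∪ c) * p with hd
  by_cases k1 : i0 * d ≤ a
  swap
  · simp only [k1, false_and, and_false, if_false, mul_zero]
  have e7 : a - i0 * d + i0 * d = a := Nat.sub_add_cancel k1
  have e8 : gE F P i0 e n (a - i0 * d) (g ∪ c) p ↔ OkA F P (As F n a) ∧
      ((∀ s ≤ F.m, Real.log (pv ((g ∪ insert p c) ∩ F.Lv 0 (s + 1))) ≤ P.La s) ∧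
        P.Δ * F.wl 0 g ≤ F.Vl 0 (As F n a)) ∧
      ∀ i ∈ (range F.k).erase i0, og F P e n (st i0 a d i) := by
    rw [gE, ← hd, e7, e6, okA_inter Subset.rfl, F.Vl_inter cl0_Lo, e4, and_assoc]
    refine and_congr_right fun _ => and_congr_left fun _ => forall₂_congr fun s hs => ?_
    rw [e3 _ (F.Lv_sub (by omega))]
  rw [← mul_prod_erase _ _ (mem_range.2 hi), ← mul_prod_erase _ _ (mem_range.2 hi), e7,
    ind_congr e8, ind_and, ind_and, dr_ind, prod_mul_distrib, prod_mul_distrib, prod_mul_distrib,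
    e5, bs, pr_insert h cL hp, show F.W p (n + a) = wa F p (n + a) * F.z (n + a) from rfl]
  by_cases k0 : wa F p (n + a) = 0
  · simp only [k0, zero_mul, mul_zero, ite_self]
  have k2 : (dp F.RR (n + a)).card ≤ 1 := card_le_one.2 fun q hq r hr =>
    (F.ka_ne (right_ne_zero_of_mul k0) hq).trans (F.ka_ne (right_ne_zero_of_mul k0) hr).symm
  simp only [mem_Good, k2, and_true, e2, k1, true_and, ind_eq, K0, st]
  by_cases k3 : g ⊆ As F n a <;> by_cases k4 : insert p c ⊆ As F n a <;>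
    by_cases k5 : F.win d <;> by_cases k6 : a + (F.k - 1 - i0) * d < F.N <;>
    by_cases k7 : OkA F P (As F n a) <;>
    simp only [k3, k4, k5, k6, k7, true_and, false_and, and_false, and_true, if_true, if_false,
      mul_zero, zero_mul]
  split_ifs <;> ring

theorem reg (h : Hyp0 F P) {Z : ℕ} (s : ℕ → ℝ) (x : ℕ → Fin Z → ℕ → ℝ) {i0 : ℕ} (hi : i0 < F.k)
    (Θ : Finset (Fin F.N)) (e : EE F P) :
    (F.ms Z fun n a c p => Fu.ind (gE F P i0 e n a c p) *
      ((∏ i ∈ (range F.k).erase i0, ith F P Θ (a + i * (pv c * p))) *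
      (s (pv c * p) * ∏ i ∈ range F.k, x i n (a + i * (pv c * p))))) =
    ex fun n : Fin Z => ∑ a, ∑ u ∈ CC F 0,
      tau F P i0 n a u * (F.z (n + a) * x i0 n a * Q0 F P s x i0 Θ e a u n) := by
  rw [F.ms_site Z hi]
  refine ex_congr fun n => ?_
  rw [sum_range]
  refine sum_congr rfl fun a _ => ?_
  rw [sum_CC h, Fam.Lo, F.Lv_split (Nat.zero_le 1) (by omega),
    sum_powerset_union (h.dLv le_rfl le_rfl), sum_comm, Lv_one]
  refine sum_congr rfl fun c hc => ?_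
  rw [sum_comm]
  refine sum_congr rfl fun p hp => ?_
  rw [tau, Q0, mul_mul_mul_comm, dr_div h, dr_gs, mul_sum]
  exact sum_congr rfl fun g hg => dr_term h s x hi Θ e n a (mem_powerset.1 hg)
    (mem_powerset.1 hc) hp

end Pool.Agent.P.MP_a14ce1_nt.Fu.St.Cp
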