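import Pool.Agent.P.MP_a14ce1_nt.Fu.DaI
import Pool.Agent.P.MP_a14ce1_nt.Fu.DaR

/-! Section 3 (a): the second moment, pairs `g ≠ g'`. -/

open Finset

namespace Pool.Agent.P.MP_a14ce1_nt.Fu.St.Cp

open Ch (pv)

variable {F : Fam} {P : Par}

/-- the weight of the other sites before the subsampling -/
noncomputable def dsW (F : Fam) (i0 p n b d : ℕ) : ℝ :=
  ∏ i ∈ (range F.k).erase i0, F.W p (n + (b - i0 * d + i * d))

theorem ds_pos (h : Hyp0 F P) {d : ℕ} (hd : F.win d) : 0 < d := by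
  have : (0 : ℝ) < d := by linarith [hd.1, h.D20]
  exact_mod_cast this

theorem ds_lt {i0 b d : ℕ} (hi : i0 < F.k) (l : i0 * d ≤ b) (r : b + (F.k - 1 - i0) * d < F.N) :
    ∀ i ∈ (range F.k).erase i0, st i0 b d i < F.N := fun i a1 => by
  have a2 := mem_range.1 (mem_of_mem_erase a1)
  have a3 : i * d ≤ (i0 + (F.k - 1 - i0)) * d := Nat.mul_le_mul_right _ (by omega)
  rw [add_mul] at a3
  unfold st
  omega

theorem ds_inj (h : Hyp0 F P) {i0 b d : ℕ} (hd : F.win d) (I : Finset ℕ) :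
    Set.InjOn (st i0 b d) I :=
  fun _ _ _ _ e => Nat.eq_of_mul_eq_mul_right (ds_pos h hd) (Nat.add_left_cancel e)

theorem ds_et (h : Hyp0 F P) {i0 b d d' : ℕ} (hi : i0 < F.k) (w1 : F.win d) (w2 : F.win d')
    (hne : d ≠ d') (l1 : i0 * d ≤ b) (l2 : i0 * d' ≤ b) (r1 : b + (F.k - 1 - i0) * d < F.N)
    (r2 : b + (F.k - 1 - i0) * d' < F.N) :
    ET F P (fun Θ => (∏ i ∈ (range F.k).erase i0, ith F P Θ (st i0 b d i)) *
      ∏ i ∈ (range F.k).erase i0, ith F P Θ (st i0 b d' i)) = 1 := by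
  rw [ET_ins h _ _ (ds_inj h w1 _) (ds_lt hi l1 r1)]
  · have := ET_ins h _ _ (ds_inj h (i0 := i0) (b := b) w2 _) (ds_lt hi l2 r2) (fun _ => 1)
      fun _ _ _ => rfl
    simpa only [mul_one, ET_const] using this
  · rintro Θ y ⟨i, a1, e⟩
    refine prod_congr rfl fun i' a2 => ith_insert Θ fun e' => ?_
    unfold st at e e'
    exact (mem_erase.1 a1).1 (h.wd_sep w1 w2 hne (mem_range.1 (mem_of_mem_erase a1))
      (mem_range.1 (mem_of_mem_erase a2)) (j := i0) (j' := i0) (by omega) hi rfl)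

theorem ds_gd {i0 x : ℕ} {a : Fin F.N} {u g : Finset ℕ} (hg : g ∈ gs F P i0 x a u) :
    gd F P i0 x a u g := by
  classical
  exact (mem_filter.1 hg).2

theorem ds_ne (h : Hyp0 F P) {u g g' : Finset ℕ} (hu : u ∈ CC F 0) (hg : g ⊆ F.cl 0)
    (hg' : g' ⊆ F.cl 0) (hne : g' ≠ g) : pv g * pv u ≠ pv g' * pv u := fun e => hne (by
  rw [← Nat.primeFactors_prod fun q hq => h.prLo q (cl0_Lo (hg hq)),
    ← Nat.primeFactors_prod fun q hq => h.prLo q (cl0_Lo (hg' hq))]
  exact congrArg Nat.primeFactors (Nat.eq_of_mul_eq_mul_right (pv_pos' h (CC_sub hu)) e).symm)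

theorem ds_Rw (h : Hyp0 F P) {i0 : ℕ} (hi : i0 < F.k) {n : ℕ} {a : Fin F.N} {u g g' : Finset ℕ}
    (hu : u ∈ CC F 0) (hg : g ∈ gs F P i0 n a u) (hg' : g' ∈ (gs F P i0 n a u).erase g) :
    ET F P (fun Θ => F.wl 0 g * Rw F P i0 Θ n a u g * (F.wl 0 g' * Rw F P i0 Θ n a u g')) =
      F.wl 0 g * F.wl 0 g' *
        (dsW F i0 (pr F u) n a (pv g * pv u) * dsW F i0 (pr F u) n a (pv g' * pv u)) := by
  have a1 := ds_gd hg
  have a2 := ds_gd (mem_of_mem_erase hg')
  have e := ds_et h hi a1.1 a2.1 (ds_ne h hu (gs_sub hg).2 (gs_sub (mem_of_mem_erase hg')).2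
    (mem_erase.1 hg').1) a1.2.1 a2.2.1 a1.2.2.1 a2.2.2.1
  rw [← mul_one (F.wl 0 g * F.wl 0 g' * _), ← e, ← ET_mul]
  congr 1
  funext Θ
  simp only [Rw, dsW, prod_mul_distrib, st]
  ring

theorem ds_per (i0 : ℕ) (a : Fin F.N) (u : Finset ℕ) :
    Per (pv F.Lo) fun n => gs F P i0 n a u := fun x y e => by
  have e1 : As F x a ∩ F.cl 0 = As F y a ∩ F.cl 0 := by
    rw [As_inter (cl0_Lo.trans subset_union_left), As_inter (cl0_Lo.trans subset_union_left)]
    exact per_dp (pv_dvd cl0_Lo) a x y e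
  have e2 : gd F P i0 x a u = gd F P i0 y a u := by
    funext g
    rw [gd, gd, ← F.Vl_inter Subset.rfl (As F x a), e1, F.Vl_inter Subset.rfl]
  change gs F P i0 x a u = gs F P i0 y a u
  rw [gs, gs, e1, e2]

open Classical in
/-- the factor that only depends on the low primes and on `p` -/
noncomputable def dsU (F : Fam) (P : Par) (i0 : ℕ) (a : Fin F.N) (u g g' : Finset ℕ) (n : ℕ) : ℝ :=
  if u ⊆ As F n a ∧ g ∈ gs F P i0 n a u ∧ g' ∈ (gs F P i0 n a u).erase g then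
    1 / F0 F P i0 n a u else 0

theorem dsU_nonneg (h : Hyp0 F P) (i0 : ℕ) (a : Fin F.N) (u g g' : Finset ℕ) (n : ℕ) :
    0 ≤ dsU F P i0 a u g g' n := by
  have := F0_nonneg h i0 n a u
  unfold dsU
  split_ifs <;> positivity

theorem dsU_per (i0 : ℕ) (a : Fin F.N) {c : Finset ℕ} (hc : c ⊆ F.Lo) {p : ℕ} (hp : p ∈ F.RR)
    (g g' : Finset ℕ) : Per (pv F.Lo * p) (dsU F P i0 a (insert p c) g g') := fun x y e => by
  have e1 := ds_per (P := P) i0 a (insert p c) x y (e.of_dvd (dvd_mul_right _ _))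
  have e2 := per_dp (dvd_mul_right (pv F.Lo) p) a x y e
  have e3 := per_dvd (dvd_mul_left p (pv F.Lo)) a x y e
  simp only at e1 e2 e3
  simp only [dsU, F0, insert_sub_As hc hp, e1, e2, e3]

theorem ds_wind (h : Hyp F P 10) {Z : ℕ} (hZ : 0 < Z) (hd : pv F.all ∣ Z) {i0 : ℕ}
    (hi : i0 < F.k) (a : Fin F.N) {c : Finset ℕ} (hc : c ⊆ F.Lv 1 (F.m + 1)) {p : ℕ}
    (hp : p ∈ F.RR) (g g' : Finset ℕ) :
    ex (fun n : Fin Z => dsU F P i0 a (insert p c) g g' n *
      (F.Wz (fun T => (1 + F.ze T) / 2) p (n + a) *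
        (dsW F i0 p n a (pv g * pv (insert p c)) * dsW F i0 p n a (pv g' * pv (insert p c))))) ≤
      2 * ex fun n : Fin Z => dsU F P i0 a (insert p c) g g' n := by
  have h0 := h.toHyp0
  by_cases k : ∃ n, g ∈ gs F P i0 n a (insert p c) ∧ g' ∈ (gs F P i0 n a (insert p c)).erase g
  · obtain ⟨n, hg, hg'⟩ := k
    have a1 := ds_gd hg
    have a2 := ds_gd (mem_of_mem_erase hg')
    exact h.wind2 hZ hd hp hi a1.1 a2.1 (ds_ne h0 (insert_mem_CC h0 hc hp) (gs_sub hg).2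
      (gs_sub (mem_of_mem_erase hg')).2 (mem_erase.1 hg').1) a1.2.1 a2.2.1 a1.2.2.1 a2.2.2.1
      h0.zt_mid (dsU_per i0 a (hc.trans (F.Lv_sub le_rfl)) hp g g') (dsU_nonneg h0 i0 a _ g g')
  · have e : ∀ n, dsU F P i0 a (insert p c) g g' n = 0 := fun n => if_neg fun k' => k ⟨n, k'.2⟩
    simp only [e, zero_mul, ex_zero, mul_zero, le_refl]

theorem ds_sum (i0 n : ℕ) (a : Fin F.N) (u : Finset ℕ) (φ : Finset ℕ → Finset ℕ → ℝ) :
    ∑ g ∈ (F.cl 0).powerset, ∑ g' ∈ (F.cl 0).powerset, dsU F P i0 a u g g' n * φ g g' =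
      if u ⊆ As F n a then (∑ g ∈ gs F P i0 n a u, ∑ g' ∈ (gs F P i0 n a u).erase g, φ g g') /
        F0 F P i0 n a u else 0 := by
  have s1 : gs F P i0 n a u ⊆ (F.cl 0).powerset := fun g hg => mem_powerset.2 (gs_sub hg).2
  split_ifs with k
  · rw [← sum_subset s1 fun g _ hg => sum_eq_zero fun g' _ => by
      rw [dsU, if_neg fun k' => hg k'.2.1, zero_mul], sum_div]
    refine sum_congr rfl fun g hg => ?_
    rw [← sum_subset ((erase_subset g _).trans s1) fun g' _ hg' => by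
      rw [dsU, if_neg fun k' => hg' k'.2.2, zero_mul], sum_div]
    exact sum_congr rfl fun g' hg' => by rw [dsU, if_pos ⟨k, hg, hg'⟩]; ring
  · exact sum_eq_zero fun g _ => sum_eq_zero fun g' _ => by
      rw [dsU, if_neg fun k' => k k'.1, zero_mul]

theorem ds_F0 (h : Hyp0 F P) {Z : ℕ} (hZ : 0 < Z) (hd : pv F.all ∣ Z) (i0 : ℕ) (a : Fin F.N)
    {c : Finset ℕ} (hc : c ⊆ F.Lv 1 (F.m + 1)) {p : ℕ} (hp : p ∈ F.RR) :
    ex (fun n : Fin Z => ∑ g ∈ (F.cl 0).powerset, ∑ g' ∈ (F.cl 0).powerset,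
      dsU F P i0 a (insert p c) g g' n * (F.wl 0 g * F.wl 0 g')) ≤
    ∑ g ∈ (F.cl 0).powerset,
      if F.win (pv (g ∪ c) * p) then F.wl 0 g / (pv (g ∪ c) * p) else 0 := by
  have cL : c ⊆ F.Lo := hc.trans (F.Lv_sub le_rfl)
  have key : ∀ n : ℕ, ∑ g ∈ (F.cl 0).powerset, ∑ g' ∈ (F.cl 0).powerset,
      dsU F P i0 a (insert p c) g g' n * (F.wl 0 g * F.wl 0 g') ≤
      ∑ g ∈ (F.cl 0).powerset, (if F.win (pv (g ∪ c) * p) then F.wl 0 g else 0) *
        if p ∣ n + a then (if g ∪ c ⊆ dp F.Lo (n + a) then 1 else 0) else 0 := fun n => by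
    have nn : ∀ g ∈ (F.cl 0).powerset, 0 ≤ (if F.win (pv (g ∪ c) * p) then F.wl 0 g else 0) *
        if p ∣ n + a then (if g ∪ c ⊆ dp F.Lo (n + a) then (1 : ℝ) else 0) else 0 := fun g _ => by
      have := h.wl_nonneg 0 g
      split_ifs <;> positivity
    rw [ds_sum]
    by_cases k : insert p c ⊆ As F n a
    swap
    · rw [if_neg k]
      exact sum_nonneg nn
    rw [if_pos k]
    have k1 := (insert_sub_As cL hp n a).1 k
    have s1 : gs F P i0 n a (insert p c) ⊆ (F.cl 0).powerset :=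
      fun g hg => mem_powerset.2 (gs_sub hg).2
    calc _ ≤ F0 F P i0 n a (insert p c) * F0 F P i0 n a (insert p c) /
          F0 F P i0 n a (insert p c) := by
          refine div_le_div_of_nonneg_right ?_ (F0_nonneg h _ _ _ _)
          rw [F0, sum_mul_sum]
          exact sum_le_sum fun g _ => sum_le_sum_of_subset_of_nonneg (erase_subset _ _)
            fun g' _ _ => mul_nonneg (h.wl_nonneg 0 g) (h.wl_nonneg 0 g')
      _ = F0 F P i0 n a (insert p c) := mul_self_div_self _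
      _ ≤ _ := by
          refine le_trans (sum_le_sum fun g hg => le_of_eq ?_)
            (sum_le_sum_of_subset_of_nonneg s1 fun g hg _ => nn g hg)
          have dgc : Disjoint g c := (h.dLv le_rfl le_rfl).mono ((gs_sub hg).2.trans Lv_one.ge) hc
          have w := gs_win hg
          rw [pv_insert' h cL hp, ← mul_assoc, ← pv_union dgc] at w
          have g1 : g ⊆ dp F.Lo (n + a) := by
            rw [← As_inter subset_union_left]
            exact subset_inter (gs_sub hg).1 ((gs_sub hg).2.trans cl0_Lo)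
          rw [if_pos w, if_pos k1.1, if_pos (union_subset g1 k1.2), mul_one]
  refine (ex_mono fun n : Fin Z => key n).trans (le_of_eq ?_)
  rw [ex_sum]
  refine sum_congr rfl fun g hg => ?_
  rw [ex_mul, ex_one' h hZ hd hp a fun T => if g ∪ c ⊆ T then 1 else 0,
    Em_ind_sub (union_subset ((mem_powerset.1 hg).trans cl0_Lo) cL)]
  split_ifs
  · ring
  · exact zero_mul _

theorem ds_one (h : Hyp F P 10) {Z : ℕ} (hZ : 0 < Z) (hd : pv F.all ∣ Z) {i0 : ℕ}
    (hi : i0 < F.k) (a : Fin F.N) {c : Finset ℕ} (hc : c ⊆ F.Lv 1 (F.m + 1)) {p : ℕ}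
    (hp : p ∈ F.RR) :
    ET F P (fun Θ => ex fun n : Fin Z =>
      bs F P n a (insert p c) * ((1 + F.z (n + a)) / 2) *
        ((∑ g ∈ gs F P i0 n a (insert p c), ∑ g' ∈ (gs F P i0 n a (insert p c)).erase g,
          F.wl 0 g * Rw F P i0 Θ n a (insert p c) g *
            (F.wl 0 g' * Rw F P i0 Θ n a (insert p c) g')) / F0 F P i0 n a (insert p c))) ≤
      2 * K0 F * ∑ g ∈ (F.cl 0).powerset,
        if F.win (pv (g ∪ c) * p) then F.w (g ∪ c) / (pv (g ∪ c) * p) else 0 := by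
  have h0 := h.toHyp0
  have cL : c ⊆ F.Lo := hc.trans (F.Lv_sub le_rfl)
  have uC := insert_mem_CC h0 (t := 0) hc hp
  have c0 : 0 ≤ F.wh 1 (F.m + 1) (insert p c) * K0 F :=
    mul_nonneg (h0.wh_nonneg _ _ _) (K0_nonneg h0)
  have ww : ∀ g g', 0 ≤ F.wl 0 g * F.wl 0 g' := fun g g' =>
    mul_nonneg (h0.wl_nonneg 0 g) (h0.wl_nonneg 0 g')
  have W0 : ∀ n d, 0 ≤ dsW F i0 p n a d := fun n d => prod_nonneg fun i _ => h0.W0 _ _
  rw [ET_ex]
  calc _ ≤ ex fun n : Fin Z => F.wh 1 (F.m + 1) (insert p c) * K0 F *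
        ∑ g ∈ (F.cl 0).powerset, ∑ g' ∈ (F.cl 0).powerset, F.wl 0 g * F.wl 0 g' *
          (dsU F P i0 a (insert p c) g g' n * (F.Wz (fun T => (1 + F.ze T) / 2) p (n + a) *
            (dsW F i0 p n a (pv g * pv (insert p c)) *
              dsW F i0 p n a (pv g' * pv (insert p c))))) := by
        refine ex_mono fun n => ?_
        rw [ET_mul, ET_div, ET_sum, sum_congr rfl fun g hg => (ET_sum _ _).trans
          (sum_congr rfl fun g' hg' => ds_Rw h0 hi uC hg hg'), pr_insert h0 cL hp]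
        have e := ds_sum (P := P) i0 n a (insert p c) fun g g' => F.wl 0 g * F.wl 0 g' *
          (dsW F i0 p n a (pv g * pv (insert p c)) * dsW F i0 p n a (pv g' * pv (insert p c)))
        unfold bs
        split_ifs with k
        · rw [if_pos k.2] at e
          rw [← e, pr_insert h0 cL hp]
          simp only [mul_sum]
          refine le_of_eq (sum_congr rfl fun g _ => sum_congr rfl fun g' _ => ?_)
          simp only [Fam.Wz, wa, Fam.z]
          ring
        · rw [zero_mul, zero_mul]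
          exact mul_nonneg c0 (sum_nonneg fun g _ => sum_nonneg fun g' _ => mul_nonneg (ww g g')
            (mul_nonneg (dsU_nonneg h0 _ _ _ _ _ _) (mul_nonneg (h0.Wz0 h0.zt_mid _ _)
              (mul_nonneg (W0 _ _) (W0 _ _)))))
    _ ≤ F.wh 1 (F.m + 1) (insert p c) * K0 F * (2 * ex fun n : Fin Z =>
        ∑ g ∈ (F.cl 0).powerset, ∑ g' ∈ (F.cl 0).powerset,
          dsU F P i0 a (insert p c) g g' n * (F.wl 0 g * F.wl 0 g')) := by
        rw [ex_mul]
        refine mul_le_mul_of_nonneg_left ?_ c0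
        rw [ex_sum, ex_sum, mul_sum]
        refine sum_le_sum fun g _ => ?_
        rw [ex_sum, ex_sum, mul_sum]
        refine sum_le_sum fun g' _ => ?_
        rw [ex_mul, ex_mul', mul_comm (ex _), mul_left_comm]
        exact mul_le_mul_of_nonneg_left (ds_wind h hZ hd hi a hc hp g g') (ww g g')
    _ ≤ _ := by
        refine (mul_le_mul_of_nonneg_left (mul_le_mul_of_nonneg_left
          (ds_F0 h0 hZ hd i0 a hc hp) zero_le_two) c0).trans (le_of_eq ?_)
        simp only [mul_sum]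
        refine sum_congr rfl fun g hg => ?_
        have e5 : F.w (g ∪ c) = F.wh 1 (F.m + 1) (insert p c) * F.wl 0 g := by
          rw [w_pair h0 uC (mem_powerset.1 hg), union_insert, wh_insert h0 le_rfl _ hp, Fam.w]
        rw [e5]
        split_ifs <;> ring

theorem sec_off (h : Hyp F P 10) {Z : ℕ} (hZ : 0 < Z) (hd : pv F.all ∣ Z) {i0 : ℕ}
    (hi : i0 < F.k) :
    ET F P (fun Θ => ex fun n : Fin Z => ∑ a, ∑ u ∈ CC F 0,
      bs F P n a u * ((1 + F.z (n + a)) / 2) *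
        ((∑ g ∈ gs F P i0 n a u, ∑ g' ∈ (gs F P i0 n a u).erase g,
          F.wl 0 g * Rw F P i0 Θ n a u g * (F.wl 0 g' * Rw F P i0 Θ n a u g')) /
          F0 F P i0 n a u)) ≤ 2 := by
  have h0 := h.toHyp0
  have e : ∑ c ∈ (F.Lv 1 (F.m + 1)).powerset, ∑ p ∈ F.RR, ∑ g ∈ (F.cl 0).powerset,
      (if F.win (pv (g ∪ c) * p) then F.w (g ∪ c) / (pv (g ∪ c) * p) else 0) = F.LL * F.Pw := by
    rw [Fam.Pw, Fam.Lo, F.Lv_split (Nat.zero_le 1) (by omega),
      sum_powerset_union (h0.dLv le_rfl le_rfl), sum_comm (s := (F.Lv 0 1).powerset), Lv_one,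
      mul_sum]
    refine sum_congr rfl fun c _ => ?_
    rw [sum_comm, mul_sum]
    refine sum_congr rfl fun g _ => ?_
    rw [mul_sum]
    refine sum_congr rfl fun p _ => ?_
    have := h0.LL0.ne'
    split_ifs
    · rw [← div_div _ _ F.LL, mul_div_cancel₀ _ this]
    · exact (mul_zero _).symm
  simp only [ex_sum (Ω := Fin Z) univ, ex_sum (Ω := Fin Z) (CC F 0), ET_sum]
  refine (sum_le_sum fun a _ => (sum_CC h0 0 _).trans_le (sum_le_sum fun c hc =>
    sum_le_sum fun p hp => ds_one h hZ hd hi a (mem_powerset.1 hc) hp)).trans (le_of_eq ?_)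
  simp only [← mul_sum]
  rw [e, sum_const, card_univ, Fintype.card_fin, nsmul_eq_mul, K0]
  have := h0.LL0
  have := h0.N0
  have := h0.Pw0
  field_simp

end Pool.Agent.P.MP_a14ce1_nt.Fu.St.Cp
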