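import Pool.Agent.P.MP_a14ce1_nt.Fu.DaDef
import Pool.Agent.P.MP_a14ce1_nt.Fu.CpF

/-! Section 3 (a): the diagonal part of the second moment. -/

open Finset

namespace Pool.Agent.P.MP_a14ce1_nt.Fu.St.Cp

open Ch (pv)

variable {F : Fam} {P : Par}

theorem dt_ith (h : Hyp0 F P) (Θ : Finset (Fin F.N)) (b : ℕ) :
    0 ≤ ith F P Θ b ∧ ith F P Θ b ≤ 1 / P.vt := by
  have := h.vt0
  unfold ith
  by_cases e : ∃ h : b < F.N, (⟨b, h⟩ : Fin F.N) ∈ Θ
  · rw [ind_pos e]; exact ⟨by positivity, le_rfl⟩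
  · rw [ind_neg e, zero_div]; exact ⟨le_rfl, by positivity⟩

theorem dt_Rw (h : Hyp0 F P) (i0 : ℕ) (Θ : Finset (Fin F.N)) (n : ℕ) (a : Fin F.N)
    (u g : Finset ℕ) :
    0 ≤ Rw F P i0 Θ n a u g ∧ Rw F P i0 Θ n a u g ≤ ((P.Λ / P.vt) ^ 3) ^ F.k := by
  have L := h.L2
  have v0 := h.vt0
  have v1 := h.vt1
  have a1 : P.Λ ≤ P.Λ / P.vt := le_div_self (by linarith) v0 v1
  have a2 : 1 ≤ (P.Λ / P.vt) ^ 3 := one_le_pow₀ (by linarith)
  refine ⟨prod_nonneg fun i _ => mul_nonneg (h.W_nonneg _ _) (dt_ith h Θ _).1, ?_⟩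
  refine (prod_le_prod (fun i _ => mul_nonneg (h.W_nonneg _ _) (dt_ith h Θ _).1)
    (g := fun _ => (P.Λ / P.vt) ^ 3) fun i _ => ?_).trans
    ((prod_const _).trans_le (pow_le_pow_right₀ a2 ?_))
  · calc _ ≤ 2 * P.Λ ^ 2 * (1 / P.vt) :=
          mul_le_mul (h.W_le _ _) (dt_ith h Θ _).2 (dt_ith h Θ _).1 (by positivity)
      _ = 2 * P.Λ * (P.Λ / P.vt) := by ring
      _ ≤ P.Λ / P.vt * (P.Λ / P.vt) * (P.Λ / P.vt) := by gcongr; linarith
      _ = _ := by ring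
  · exact card_erase_le.trans (card_range _).le

theorem sec_diag (h : Hyp F P 10) {Z : ℕ} (hZ : 0 < Z) (hd : pv F.all ∣ Z) (i0 : ℕ)
    (Θ : Finset (Fin F.N)) :
    (ex fun n : Fin Z => ∑ a, ∑ u ∈ CC F 0,
      bs F P n a u * ((1 + F.z (n + a)) / 2) *
        ((∑ g ∈ gs F P i0 n a u, (F.wl 0 g * Rw F P i0 Θ n a u g) ^ 2) / F0 F P i0 n a u)) ≤ 1 := by
  classical
  have hdiag := h.diag
  replace h := h.toHyp0
  have L := h.L2
  have v0 := h.vt0
  have v1 := h.vt1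
  have la := h.La0 0
  have a1 : P.Λ ≤ P.Λ / P.vt := le_div_self (by linarith) v0 v1
  have x0 : 0 < P.Λ / P.vt := by positivity
  have D0 : 0 < P.Δ := lt_of_lt_of_le (by positivity) hdiag
  have k0 := K0_nonneg h
  set R := ((P.Λ / P.vt) ^ 3) ^ F.k with hR
  have R0 : 0 ≤ R := by positivity
  have hK : 0 ≤ 2 * P.Λ * K0 F * P.Λ * (R ^ 2 / P.Δ) := by positivity
  have key := cpf_core h (Nat.zero_le F.m) (fun _ c p => Adm F P 0 (insert p c))
    (s := P.La 0 + 1) (by linarith) fun _ c hc => ⟨Real.log F.D - P.La 0 - Real.log (pv c),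
      fun p hp hA => by
        have a1 := hA.1 0 le_rfl (Nat.zero_le _)
        have a2 := hA.2
        rw [up_self h (Nat.zero_le _) (insert_mem_CC h hc hp)] at a1
        rw [cpf_log h (hc.trans (F.Lv_sub le_rfl)) hp] at a1 a2
        constructor <;> linarith⟩
  rw [ex_sum]
  refine (sum_le_card_nsmul _ _ (2 * P.Λ * K0 F * P.Λ * (R ^ 2 / P.Δ) *
    (P.Cw * (P.La 0 + 1 + 1) * (F.LL * F.Pw))) fun b _ => ?_).trans ?_
  · refine le_trans ?_ (mul_le_mul_of_nonneg_left key hK)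
    simp only [sum_CC h]
    rw [ex_sum, mul_sum]
    refine sum_le_sum fun c hc => ?_
    have hc' := mem_powerset.1 hc
    have hcL := hc'.trans (F.Lv_sub le_rfl)
    rw [ex_sum, mul_sum]
    refine sum_le_sum fun p hp' => ?_
    rw [← ex_one' h hZ hd hp' b, ← ex_mul]
    refine ex_mono fun n => ?_
    have hw := h.wh_nonneg (0 + 1) (F.m + 1) c
    have hV := h.V_nonneg 0 (0 + 1) (dp F.Lo (n + b))
    have z0 : 0 ≤ F.z (n + b) := h.ze0 _
    have z1 : F.z (n + b) ≤ P.Λ := h.zeL _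
    rcases (gs F P i0 n b (insert p c)).eq_empty_or_nonempty with e | ⟨g0, hg0⟩
    · rw [e, sum_empty, zero_div, mul_zero]
      refine mul_nonneg hK ?_
      split_ifs <;> positivity
    have hA := adm_of_gd h (insert_mem_CC h hc' hp') hg0 (Nat.zero_le _)
    rw [up_self h (Nat.zero_le _) (insert_mem_CC h hc' hp')] at hA
    rw [bs]
    split_ifs with h1 h2 h3 h2 h3
    · have e1 : F.V 0 (0 + 1) (dp F.Lo (n + b)) = F.Vl 0 (As F n b) := by
        rw [← cpf_V (Nat.zero_le _)]; simp [Fam.V]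
      have hV' := h.Vl_nonneg 0 (As F n b)
      have b1 : (∑ g ∈ gs F P i0 n b (insert p c),
          (F.wl 0 g * Rw F P i0 Θ n b (insert p c) g) ^ 2) / F0 F P i0 n b (insert p c) ≤
          R ^ 2 / P.Δ * F.Vl 0 (As F n b) := by
        refine div_le_of_le_mul₀ (F0_nonneg h _ _ _ _) (by positivity) ?_
        rw [F0, mul_sum]
        refine sum_le_sum fun g hg => ?_
        have c1 : F.wl 0 g ≤ F.Vl 0 (As F n b) / P.Δ := by
          rw [le_div_iff₀ D0, mul_comm]; exact (mem_filter.1 hg).2.2.2.2.2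
        have c2 := h.wl_nonneg 0 g
        obtain ⟨c3, c4⟩ := dt_Rw h i0 Θ n b (insert p c) g
        calc _ = Rw F P i0 Θ n b (insert p c) g ^ 2 * F.wl 0 g * F.wl 0 g := by ring
          _ ≤ R ^ 2 * (F.Vl 0 (As F n b) / P.Δ) * F.wl 0 g := by gcongr
          _ = _ := by ring
      have b2 := wa_le h (pr F (insert p c)) (n + b)
      have b3 := wa_nonneg h (pr F (insert p c)) (n + b)
      have b4 : (1 + F.z (n + b)) / 2 ≤ P.Λ := by linarith
      have b5 := F0_nonneg h i0 n b (insert p c)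
      rw [wh_insert h le_rfl c hp', e1]
      calc _ ≤ F.wh 1 (F.m + 1) c * (2 * P.Λ * K0 F) * P.Λ *
            (R ^ 2 / P.Δ * F.Vl 0 (As F n b)) := by gcongr
        _ = _ := by ring
    · exact absurd ⟨((insert_sub_As hcL hp' _ _).1 h1.2).2, hA⟩ h3
    · exact absurd ((insert_sub_As hcL hp' _ _).1 h1.2).1 h2
    all_goals rw [zero_mul, zero_mul]; positivity
  · rw [card_univ, Fintype.card_fin, nsmul_eq_mul]
    have e := cpf_K0 h
    have c1 := h.LCw
    have c2 := h.Cw1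
    have c3 : 2 * P.Λ * P.Λ * P.Cw ≤ (P.Λ / P.vt) ^ (4 * F.k) :=
      calc _ ≤ P.Λ / P.vt * (P.Λ / P.vt) * (P.Λ / P.vt) * (P.Λ / P.vt) := by
            gcongr <;> linarith
        _ = (P.Λ / P.vt) ^ 4 := by ring
        _ ≤ _ := pow_le_pow_right₀ (by linarith) (by have := h.k2; omega)
    calc _ = K0 F * F.N * (F.LL * F.Pw) * (2 * P.Λ * P.Λ * P.Cw * R ^ 2 * (P.La 0 + 2) / P.Δ) := by
          ring
      _ ≤ 1 * ((P.Λ / P.vt) ^ (4 * F.k) * R ^ 2 * (P.La 0 + 2) ^ 2 / P.Δ) := by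
          rw [e]; gcongr; nlinarith
      _ ≤ 1 := by
          rw [one_mul, div_le_one D0, hR]
          refine le_trans (le_of_eq ?_) hdiag
          ring

end Pool.Agent.P.MP_a14ce1_nt.Fu.St.Cp
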