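import Pool.Agent.P.MP_a14ce1_nt.Fu.CoSt

/-!
Section 3: the densities of the sets `Z_t^w` and the mean of the pinning cost.
-/

open Finset

namespace Pool.Agent.P.MP_a14ce1_nt.Fu

section

variable {B : Type} [Fintype B] [DecidableEq B]

omit [DecidableEq B] in
theorem ind_hit_succ (g : Geo B) (Ψ : Ph) (t w s : ℕ) (b : B) :
    ind (b ∈ g.hit Ψ t w 0 (s + 1)) =
      ind (b ∈ g.hit Ψ t w 0 s) * ind (¬Disjoint (Ψ (ix t w s)) (g.A b)) := by
  rw [← ind_and]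
  refine ind_congr ?_
  simp only [Geo.mem_hit]
  constructor
  · exact fun h => ⟨fun v a c => h v a (by omega), h s (Nat.zero_le _) (Nat.lt_succ_self _)⟩
  · rintro ⟨h1, h2⟩ v a c
    rcases (Nat.lt_succ_iff.1 c).eq_or_lt with rfl | c'
    · exact h2
    · exact h1 v a c'

theorem dens_hit {E : Type} [Fintype E] {g : Geo B} {Φ : E → Ph} {φ : ℕ → ℕ → ℝ} {κ : ℝ}
    (hE : ExtH g Φ φ) {t : ℕ} (ht : t < g.m) {w : ℕ} (hw : w < g.W) {b : B}
    (hb : ((g.A b ∩ g.R (t + 1)).card : ℝ) ≤ κ) {s : ℕ} (hs : s ≤ g.J (t + 1)) :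
    ex (fun e => ind (b ∈ g.Zs (Φ e) t w) * ind (b ∈ g.hit (Φ e) (t + 1) w 0 s)) ≤
      ex (fun e => ind (b ∈ g.Zs (Φ e) t w)) * (κ * φ (t + 1) w) ^ s := by
  obtain ⟨hφ, hH⟩ := hE t ht w hw
  have hκ : 0 ≤ κ := (Nat.cast_nonneg _).trans hb
  induction s with
  | zero =>
    rw [pow_zero, mul_one]
    exact ex_mono fun e => mul_le_of_le_one_right (ind_nonneg _) (ind_le_one _)
  | succ s ih =>
    have h1 := (hH s hs).2
      (fun Ψ => ind (b ∈ g.Zs Ψ t w) * ind (b ∈ g.hit Ψ (t + 1) w 0 s)) (g.A b)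
      (fun Ψ => mul_nonneg (ind_nonneg _) (ind_nonneg _)) (fun Ψ X => by
        rw [g.Zs_update Ψ (by simp [ix]), g.hit_congr (Ψ := Ψ) fun v _ c =>
          Function.update_of_ne (by simp [ix]; omega) _ _])
    have h2 : 0 ≤ ex (fun e => ind (b ∈ g.Zs (Φ e) t w) *
        ind (b ∈ g.hit (Φ e) (t + 1) w 0 s)) :=
      ex_nonneg fun e => mul_nonneg (ind_nonneg _) (ind_nonneg _)
    calc ex (fun e => ind (b ∈ g.Zs (Φ e) t w) * ind (b ∈ g.hit (Φ e) (t + 1) w 0 (s + 1)))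
        = ex (fun e => ind (b ∈ g.Zs (Φ e) t w) * ind (b ∈ g.hit (Φ e) (t + 1) w 0 s) *
            ind (¬Disjoint (Φ e (ix (t + 1) w s)) (g.A b))) :=
          ex_congr fun e => by rw [ind_hit_succ, mul_assoc]
      _ ≤ _ := h1
      _ ≤ κ * φ (t + 1) w * ex (fun e => ind (b ∈ g.Zs (Φ e) t w) *
            ind (b ∈ g.hit (Φ e) (t + 1) w 0 s)) :=
          mul_le_mul_of_nonneg_right (mul_le_mul_of_nonneg_right hb hφ.le) h2
      _ ≤ κ * φ (t + 1) w * (ex (fun e => ind (b ∈ g.Zs (Φ e) t w)) * (κ * φ (t + 1) w) ^ s) :=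
          mul_le_mul_of_nonneg_left (ih (by omega)) (mul_nonneg hκ hφ.le)
      _ = _ := by ring

theorem dens_one {E : Type} [Fintype E] {g : Geo B} {Φ : E → Ph} {φ z : ℕ → ℕ → ℝ} {κ : ℕ → ℝ}
    (hE : ExtH g Φ φ) (hz : ZH g φ κ z) {t : ℕ} (ht : t ≤ g.m) {w : ℕ} (hw : w < g.W) (b : B) :
    ex (fun e => ind (b ∈ g.Zs (Φ e) t w)) ≤ z t w := by
  by_cases hb : b ∈ g.Z0
  swap
  · exact ex_le (hz.nonneg t w) fun e => by
      rw [ind_neg fun h => hb (g.Zs_subset _ _ _ h)]; exact hz.nonneg t w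
  induction t generalizing w with
  | zero => exact ex_le (hz.nonneg 0 w) fun e => (ind_le_one _).trans (hz.zero w hw)
  | succ t ih =>
    have ht' : t < g.m := ht
    have hc := hz.card t ht' b hb
    have hκ : 0 ≤ κ (t + 1) := (Nat.cast_nonneg _).trans hc
    have hφ := (hE t ht' w hw).1
    have h1 := (dens_hit hE ht' hw hc le_rfl).trans
      (mul_le_mul_of_nonneg_right (ih ht'.le hw) (pow_nonneg (mul_nonneg hκ hφ.le) _))
    refine le_trans ?_ (hz.step t ht' w hw)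
    by_cases h : 2 ≤ t ∧ 0 < w
    · rw [if_pos h]
      refine le_trans ?_ (add_le_add h1 (ih ht'.le (show w - 1 < g.W by omega)))
      rw [← ex_add]
      refine ex_mono fun e => ?_
      rw [← ind_and]
      by_cases h2 : b ∈ g.Zs (Φ e) (t + 1) w
      · rw [ind_pos h2]
        rcases g.mem_Zs_succ.1 h2 with a | a
        · rw [ind_pos a]; linarith [ind_nonneg (b ∈ g.Zs (Φ e) t (w - 1))]
        · rw [ind_pos a.2]
          linarith [ind_nonneg (b ∈ g.Zs (Φ e) t w ∧ b ∈ g.hit (Φ e) (t + 1) w 0 (g.J (t + 1)))]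
      · rw [ind_neg h2]; exact add_nonneg (ind_nonneg _) (ind_nonneg _)
    · rw [if_neg h, add_zero]
      refine le_trans (ex_mono fun e => ?_) h1
      rw [← ind_and]
      by_cases h2 : b ∈ g.Zs (Φ e) (t + 1) w
      · rw [ind_pos h2]
        rcases g.mem_Zs_succ.1 h2 with a | a
        · rw [ind_pos a]
        · exact absurd a.1 h
      · rw [ind_neg h2]; exact ind_nonneg _

theorem dens_card {E : Type} [Fintype E] {g : Geo B} {Φ : E → Ph} {φ z : ℕ → ℕ → ℝ} {κ : ℕ → ℝ}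
    (hE : ExtH g Φ φ) (hz : ZH g φ κ z) {t : ℕ} (ht : t ≤ g.m) {w : ℕ} (hw : w < g.W)
    (X : Finset B) :
    ex (fun e => ((g.Zs (Φ e) t w ∩ X).card : ℝ)) ≤ z t w * (g.Z0 ∩ X).card := by
  have h1 : ∀ e, ((g.Zs (Φ e) t w ∩ X).card : ℝ) =
      ∑ b ∈ g.Z0 ∩ X, ind (b ∈ g.Zs (Φ e) t w) := fun e => by
    have : g.Zs (Φ e) t w ∩ X = (g.Z0 ∩ X).filter fun b => b ∈ g.Zs (Φ e) t w := by
      ext b
      simp only [mem_inter, mem_filter]
      exact ⟨fun a => ⟨⟨g.Zs_subset _ _ _ a.1, a.2⟩, a.1⟩, fun a => ⟨a.2, a.1.2⟩⟩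
    rw [this, card_filter, Nat.cast_sum]
    exact sum_congr rfl fun b _ => by rw [ind_eq]; split_ifs <;> simp
  rw [ex_congr h1, ex_sum]
  refine (sum_le_card_nsmul _ _ _ fun b _ => dens_one hE hz ht hw b).trans ?_
  rw [nsmul_eq_mul, mul_comm]

theorem dens_code {E : Type} [Fintype E] {g : Geo B} (hg : g.Ok) {Φ : E → Ph}
    {φ z : ℕ → ℕ → ℝ} {κ : ℕ → ℝ} (hE : ExtH g Φ φ) (hz : ZH g φ κ z) :
    ex (fun e => ((g.code (Φ e)).card : ℝ)) ≤ g.C0.card + z g.m (g.W - 1) * g.Z0.card := by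
  have hW := hg.W_pos
  have h1 := dens_card hE hz le_rfl (show g.W - 1 < g.W by omega) univ
  simp only [inter_univ] at h1
  have h2 : ex (fun _ : E => (g.C0.card : ℝ)) ≤ g.C0.card :=
    ex_le (Nat.cast_nonneg _) fun _ => le_rfl
  refine le_trans ?_ (add_le_add h2 h1)
  rw [← ex_add]
  refine ex_mono fun e => ?_
  exact_mod_cast card_union_le _ _

theorem ex_HB {E : Type} [Fintype E] {g : Geo B} (hg : g.Ok) {V : Wt B} {Φ : E → Ph}
    {φ z : ℕ → ℕ → ℝ} {κ : ℕ → ℝ} (hE : ExtH g Φ φ) (hz : ZH g φ κ z)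
    (h0 : ∀ t u, 0 ≤ V.om t u) (h1 : 0 ≤ V.ob) (h2 : 0 ≤ V.mu) {lA : ℝ} (hl : 0 ≤ lA) :
    ex (fun e => HB g V lA (Φ e)) ≤ HBz g V lA z := by
  have hW := hg.W_pos
  unfold HB HBz
  rw [ex_mul, ex_add, ex_mul, ex_sum]
  refine mul_le_mul_of_nonneg_left (add_le_add (sum_le_sum fun s hs => ?_)
    (mul_le_mul_of_nonneg_left (dens_code hg hE hz) (mul_nonneg h2 h1))) (by positivity)
  rw [ex_sum, YY, mul_sum]
  refine sum_le_sum fun u _ => ?_
  rw [ex_mul, mul_left_comm]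
  exact mul_le_mul_of_nonneg_left
    (dens_card hE hz (mem_range.1 hs).le (show g.W - 1 < g.W by omega) _) (h0 _ _)

omit [Fintype B] [DecidableEq B] in
theorem ex_av2_le {E : Type} [Fintype E] (Q : Finset ℕ) (r : ℕ) (F : E → Finset ℕ → ℝ) {M : ℝ}
    (hM : 0 ≤ M) (h : ∀ K, ex (fun e => F e K) ≤ M) : ex (fun e => av2 Q r (F e)) ≤ M := by
  unfold av2
  rw [ex_div, ex_sum]
  refine div_le_of_le_mul₀ (by positivity) hM ?_
  refine (sum_le_card_nsmul _ _ ((r : ℝ) * M) fun x _ => ?_).trans ?_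
  · rw [ex_sum]
    refine (sum_le_card_nsmul _ _ M fun k _ => h _).trans ?_
    rw [card_range, nsmul_eq_mul]
  · rw [nsmul_eq_mul]; exact le_of_eq (by ring)

/-- the mean of the pinning cost -/
theorem ex_pinq {Ω Al E : Type} [Fintype Ω] [Fintype Al] [Fintype E] (Dt : Ω → B → Al)
    {g : Geo B} {Φ : E → Ph} {φ z : ℕ → ℕ → ℝ} {κ : ℕ → ℝ} (hE : ExtH g Φ φ) (hz : ZH g φ κ z)
    {t : ℕ} (ht : t < g.m) {w : ℕ} (hw : w < g.W) (u : Finset ℕ) :
    ex (fun e => pinq Dt g (Φ e) w t u) ≤ g.J (t + 1) * Real.log (Fintype.card Al) * z t w *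
      (g.Z0 ∩ g.cell (g.up t u)).card / φ (t + 1) w := by
  obtain ⟨hφ, hH⟩ := hE t ht w hw
  have hl : 0 ≤ Real.log (Fintype.card Al) := Real.log_natCast_nonneg _
  have hz0 := hz.nonneg t w
  unfold pinq
  refine ex_av2_le _ _ _ (by positivity) fun K => ?_
  unfold dh
  rw [ex_congr fun e => sum_comm, ex_sum]
  refine (sum_le_card_nsmul _ _ (Real.log (Fintype.card Al) * z t w *
    (g.Z0 ∩ g.cell (g.up t u)).card / φ (t + 1) w) fun s hs => ?_).trans ?_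
  · refine ((hH s (mem_range.1 hs)).1 (hh Dt g w t u K s)
      (fun Ψ => (g.pl Ψ w t u).card * Real.log (Fintype.card Al)) (fun Ψ X X' hX => ?_)
      (fun Ψ => cH_nonneg _ _) (fun Ψ => cH_sig Dt _ _) fun Ψ X => ?_).trans ?_
    · unfold hh
      rw [g.pl_update, g.pl_update]
      exact cH_anti (sig_anti Dt (union_subset_union (g.St_mono (update_mono Ψ _ hX) _ _ _)
        (g.WW_mono (update_mono Ψ _ hX) _ _ _ _ _))) _
    · rw [g.pl_update]
    · refine div_le_div_of_nonneg_right ?_ hφ.le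
      rw [ex_mul', mul_comm, mul_assoc]
      exact mul_le_mul_of_nonneg_left (dens_card hE hz ht.le hw _) hl
  · rw [card_range, nsmul_eq_mul]; exact le_of_eq (by ring)

end

end Pool.Agent.P.MP_a14ce1_nt.Fu
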