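import Pool.Agent.P.MP_a14ce1_nt.Fu.DaDef
import Pool.Agent.P.MP_a14ce1_nt.Fu.CpB
import Pool.Agent.P.MP_a14ce1_nt.Fu.CoDens

/-! Section 3 (a): the size of the code. -/

open Finset

namespace Pool.Agent.P.MP_a14ce1_nt.Fu.St.Cp

open Ch (pv)

variable {F : Fam} {P : Par}

theorem cd_sub (C0 : ℕ → Finset ℕ) (Θ : Finset (Fin F.N)) (e : EE F P) (x : ℕ) :
    cd F P C0 Θ e x ⊆ range F.N := by
  intro b hb
  obtain ⟨a, -, rfl⟩ := mem_map.1 hb
  exact mem_range.2 a.2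

theorem sub_cd {C0 : ℕ → Finset ℕ} (hC : ∀ x, C0 x ⊆ range F.N) (Θ : Finset (Fin F.N))
    (e : EE F P) (n : ℕ) : C0 (n % F.Qk0) ⊆ cd F P C0 Θ e (n % F.Qk) := by
  intro b hb
  have hb' : b < F.N := mem_range.1 (hC _ hb)
  refine mem_map.2 ⟨⟨b, hb'⟩, ?_, rfl⟩
  rw [geo_mod]
  exact mem_union_left _ (mem_filter.2 ⟨mem_univ _, hb⟩)

/-- the density of the new sites -/
noncomputable def nw (F : Fam) (P : Par) (Z : ℕ) (C0 : ℕ → Finset ℕ) (Θ : Finset (Fin F.N))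
    (e : EE F P) : ℝ :=
  ex (fun n : Fin Z => (((geo F P C0 Θ n).Zs (phi e) F.m (P.Wn - 1)).card : ℝ)) / F.N

theorem card_C0_le (C0 : ℕ → Finset ℕ) (Θ : Finset (Fin F.N)) (n : ℕ) :
    (geo F P C0 Θ n).C0.card ≤ (C0 (n % F.Qk0)).card :=
  card_le_card_of_injOn (fun b => b.1) (fun _ hb => (mem_filter.1 (mem_coe.1 hb)).2)
    fun _ _ _ _ e => Fin.ext e

theorem size_le (Z : ℕ) (C0 : ℕ → Finset ℕ) (Θ : Finset (Fin F.N)) (e : EE F P) :
    size Z F.Qk F.N (cd F P C0 Θ e) ≤ size Z F.Qk0 F.N C0 + nw F P Z C0 Θ e := by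
  rw [size, size, nw, ← add_div, ← ex_add]
  refine div_le_div_of_nonneg_right (ex_mono fun n => ?_) (Nat.cast_nonneg _)
  rw [cd, card_map, geo_mod]
  have h1 := card_C0_le (P := P) C0 Θ n
  have h2 : ((geo F P C0 Θ n).code (phi e)).card ≤ (geo F P C0 Θ n).C0.card +
      ((geo F P C0 Θ n).Zs (phi e) F.m (P.Wn - 1)).card := card_union_le _ _
  exact_mod_cast h2.trans (Nat.add_le_add_right h1 _)

/-- the typical sites are at most `N`, and there is none unless `lp ≤ hp` -/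
theorem card_OkS_le (h : Hyp0 F P) (n : ℕ) :
    ((OkS F P n).card : ℝ) ≤ hp P F.m / lp P F.m * F.N := by
  have l0 := lp_pos h F.m
  have h0 := hp_one h F.m
  rcases (OkS F P n).eq_empty_or_nonempty with e | ⟨b, hb⟩
  · rw [e, card_empty, Nat.cast_zero]; positivity
  · have a := (lp_le_V h (mem_OkS.1 hb) le_rfl).trans (V_le_hp h (mem_OkS.1 hb) le_rfl)
    have c : ((OkS F P n).card : ℝ) ≤ F.N := by
      exact_mod_cast (card_le_univ _).trans (Fintype.card_fin _).le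
    exact c.trans (le_mul_of_one_le_left (Nat.cast_nonneg _) ((one_le_div l0).2 a))

/-- the mean density of the new sites -/
theorem m_nw (h : Hyp0 F P) {Z : ℕ} (hZ : 0 < Z) (hd : pv F.all ∣ Z) (C0 : ℕ → Finset ℕ) :
    ET F P (fun Θ => ex fun e : EE F P => nw F P Z C0 Θ e) ≤ top F P := by
  have _ := hZ
  have _ := hd
  have l0 := lp_pos h F.m
  have h0 := hp_one h F.m
  have v0 := h.vt0
  have s0 := h.σn F.m (P.Wn - 1)
  have N0 := h.N0
  have W1 := h.W1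
  have z0 : 0 ≤ zz P F.m (P.Wn - 1) := by unfold zz; positivity
  have a1 : ∀ Θ, (ex fun e : EE F P => nw F P Z C0 Θ e) ≤
      (ex fun n : Fin Z => zz P F.m (P.Wn - 1) * ((Θ ∩ OkS F P n).card : ℝ)) / F.N := fun Θ => by
    unfold nw
    rw [ex_div, ex_comm]
    refine div_le_div_of_nonneg_right (ex_mono fun n => ?_) N0.le
    have := dens_card (extH h C0 Θ n) (zh h C0 Θ n) (t := F.m) le_rfl (w := P.Wn - 1)
      (show P.Wn - 1 < P.Wn by omega) univ
    simp only [inter_univ] at this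
    exact this
  refine (ET_mono h a1).trans ?_
  rw [ET_div, ET_ex, div_le_iff₀ N0]
  refine ex_le (by unfold top; positivity) fun n => ?_
  rw [ET_mul, ET_card]
  refine (mul_le_mul_of_nonneg_left (mul_le_mul_of_nonneg_left (card_OkS_le h n) v0.le) z0).trans
    (le_of_eq ?_)
  unfold zz top
  field_simp

end Pool.Agent.P.MP_a14ce1_nt.Fu.St.Cp
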