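import Pool.Agent.P.MP_a14ce1_nt.Fu.DaI
import Pool.Agent.P.MP_a14ce1_nt.Fu.DaB
import Pool.Agent.P.MP_a14ce1_nt.Fu.DaR
import Pool.Agent.P.MP_a14ce1_nt.Fu.DaS
import Pool.Agent.P.MP_a14ce1_nt.Fu.DaT
import Pool.Agent.P.MP_a14ce1_nt.Fu.DaM
import Pool.Agent.P.MP_a14ce1_nt.Fu.DaZ
import Pool.Agent.P.MP_a14ce1_nt.Fu.CoNum
import Pool.Agent.P.MP_a14ce1_nt.Fu.CpH

/-!
Section 3 (a): from the compression inequality on the model to the statement of section 3.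
-/

open Finset

namespace Pool.Agent.P.MP_a14ce1_nt.Fu.St.Cp

open Ch (pv)

variable {F : Fam} {P : Par}

theorem abs_clip {G : ℝ} (hG : 0 ≤ G) (t : ℝ) : |clip G t| ≤ G :=
  abs_le.2 ⟨le_max_left _ _, max_le (by linarith) (min_le_left _ _)⟩

theorem clip_sq {G : ℝ} (hG : 0 ≤ G) (t : ℝ) : clip G t ^ 2 ≤ t ^ 2 := by
  unfold clip
  rcases le_total G t with a | a
  · rw [min_eq_left a, max_eq_right (by linarith)]; nlinarith
  · rw [min_eq_right a]
    rcases le_total (-G) t with b | b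
    · rw [max_eq_right b]
    · rw [max_eq_left b]; nlinarith

theorem sub_clip {G : ℝ} (hG : 0 < G) (t : ℝ) : |t - clip G t| ≤ t ^ 2 / G := by
  rw [le_div_iff₀ hG]
  unfold clip
  rcases le_total G t with a | a
  · rw [min_eq_left a, max_eq_right (by linarith), abs_of_nonneg (by linarith)]; nlinarith
  · rw [min_eq_right a]
    rcases le_total (-G) t with b | b
    · rw [max_eq_right b, sub_self, abs_zero, zero_mul]; positivity
    · rw [max_eq_left b, abs_of_nonpos (by linarith)]; nlinarith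

theorem Rw_nonneg (h : Hyp0 F P) (i0 : ℕ) (Θ : Finset (Fin F.N)) (n : ℕ) (a : Fin F.N)
    (u g : Finset ℕ) : 0 ≤ Rw F P i0 Θ n a u g :=
  prod_nonneg fun _ _ => mul_nonneg (h.W0 _ _) (ith_nonneg h _ _)

theorem abs_Q0 (h : Hyp0 F P) {Z : ℕ} {s : ℕ → ℝ} {x : ℕ → Fin Z → ℕ → ℝ} {i0 : ℕ}
    (hs : ∀ d, |s d| ≤ 1) (hx : ∀ i n b, i ≠ i0 → |x i n b| ≤ 1) (Θ : Finset (Fin F.N))
    (e : EE F P) (a : Fin F.N) (u : Finset ℕ) (n : Fin Z) :
    |Q0 F P s x i0 Θ e a u n| ≤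
      (∑ g ∈ gs F P i0 n a u, F.wl 0 g * Rw F P i0 Θ n a u g) / F0 F P i0 n a u := by
  have f0 := F0_nonneg h i0 n a u
  rw [Q0, abs_div, abs_of_nonneg f0]
  refine div_le_div_of_nonneg_right ((abs_sum_le_sum_abs _ _).trans (sum_le_sum fun g _ => ?_)) f0
  rw [abs_mul, abs_of_nonneg (h.wl_nonneg 0 g), abs_mul, abs_prod]
  refine mul_le_mul_of_nonneg_left ?_ (h.wl_nonneg 0 g)
  refine (mul_le_of_le_one_left (prod_nonneg fun _ _ => abs_nonneg _) (hs _)).trans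
    (prod_le_prod (fun _ _ => abs_nonneg _) fun i hi => ?_)
  have w0 := mul_nonneg (h.W0 (pr F u) (n + st i0 a (pv g * pv u) i))
    (ith_nonneg h Θ (st i0 a (pv g * pv u) i))
  rw [abs_mul, abs_of_nonneg w0, abs_mul, abs_of_nonneg (ind_nonneg _)]
  exact mul_le_of_le_one_right w0
    (mul_le_one₀ (ind_le_one _) (abs_nonneg _) (hx i _ _ (mem_erase.1 hi).1))

/-- the second moment -/
theorem sec (h : Hyp F P 10) {Z : ℕ} (hZ : 0 < Z) (hd : pv F.all ∣ Z) {i0 : ℕ} (hi : i0 < F.k)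
    {s : ℕ → ℝ} {x : Finset (Fin F.N) → EE F P → ℕ → Fin Z → ℕ → ℝ} (hs : ∀ d, |s d| ≤ 1)
    (hx : ∀ Θ e i n b, i ≠ i0 → |x Θ e i n b| ≤ 1) :
    ET F P (fun Θ => ex fun e : EE F P => ex fun n : Fin Z => ∑ a, ∑ u ∈ CC F 0,
      tau F P i0 n a u * ((1 + F.z (n + a)) / 2 * Q0 F P s (x Θ e) i0 Θ e a u n ^ 2)) ≤ 3 := by
  have h0 := h.toHyp0
  have := ee_nonempty h0
  have k1 := sec_off h hZ hd hi
  have k2 := (ET_mono h0 fun Θ => sec_diag h hZ hd i0 Θ).trans (ET_const 1).le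
  refine le_trans ?_ ((add_le_add k1 k2).trans (by norm_num))
  rw [← ET_add]
  refine ET_mono h0 fun Θ => (ex_mono fun e => ?_).trans (ex_const _).le
  rw [← ex_add]
  refine ex_mono fun n => ?_
  simp only [← sum_add_distrib]
  refine sum_le_sum fun a _ => sum_le_sum fun u _ => ?_
  have q := abs_Q0 h0 hs (hx Θ e) Θ e a u n
  have f0 := F0_nonneg h0 i0 n a u
  have z0 : 0 ≤ (1 + F.z (n + a)) / 2 := by linarith [show 0 ≤ F.z (n + a) from h.ze0 _]
  set y : Finset ℕ → ℝ := fun g => F.wl 0 g * Rw F P i0 Θ n a u g with hy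
  have e1 : (∑ g ∈ gs F P i0 n a u, ∑ g' ∈ (gs F P i0 n a u).erase g, y g * y g') +
      ∑ g ∈ gs F P i0 n a u, y g ^ 2 = (∑ g ∈ gs F P i0 n a u, y g) ^ 2 := by
    rw [sq, sum_mul_sum, ← sum_add_distrib]
    exact sum_congr rfl fun g hg => by rw [sq, sum_erase_add _ _ hg]
  rw [← mul_add, ← add_div, e1, tau, mul_assoc, mul_assoc]
  refine mul_le_mul_of_nonneg_left ?_ (bs_nonneg h0 _ _ _)
  rw [mul_left_comm]
  refine mul_le_mul_of_nonneg_left ?_ z0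
  rw [← sq_abs]
  refine (mul_le_mul_of_nonneg_left (pow_le_pow_left₀ (abs_nonneg _) q 2) f0).trans (le_of_eq ?_)
  rcases f0.eq_or_lt with c | c
  · rw [← c]; simp
  · field_simp

theorem abs_xx (h : Hyp0 F P) {A : Type} (dt : ℕ → A) (Z : ℕ) (C0 : ℕ → Finset ℕ) {X : ℕ → ℝ}
    (hX : ∀ n, |X n| ≤ 1) (i0 : ℕ) (Θ : Finset (Fin F.N)) (e : EE F P) (i : ℕ) (n : Fin Z)
    (b : ℕ) : |xx F P dt Z C0 X i0 Θ e i n b| ≤ if i = i0 then 2 else 1 := by
  have a : |pred Z F.Qk dt (cd F P C0 Θ e) F.z X n b| ≤ 1 :=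
    abs_yr_le _ (fun _ => h.ze0 _) (fun _ => hX _) n
  have c := hX (n + b)
  unfold xx mix
  by_cases e : i = i0
  · rw [if_neg (by omega), if_pos e, if_pos e]
    exact (abs_sub _ _).trans (by linarith)
  · rw [if_neg e, if_neg e]
    split_ifs
    exacts [a, c]

theorem abs_sx (h : Hyp0 F P) {A : Type} (dt : ℕ → A) (Z : ℕ) (C0 : ℕ → Finset ℕ) {X : ℕ → ℝ}
    (hX : ∀ n, |X n| ≤ 1) (i0 : ℕ) (Θ : Finset (Fin F.N)) (e : EE F P) (n : Fin Z) {t : ℝ}
    (ht : |t| ≤ 1) (b : ℕ → ℕ) :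
    |t * ∏ i ∈ range F.k, xx F P dt Z C0 X i0 Θ e i n (b i)| ≤ 2 := by
  rw [abs_mul, abs_prod]
  refine (mul_le_of_le_one_left (prod_nonneg fun _ _ => abs_nonneg _) ht).trans
    ((prod_le_prod (fun _ _ => abs_nonneg _)
      fun i _ => abs_xx h dt Z C0 hX i0 Θ e i n (b i)).trans ?_)
  rw [prod_ite_eq']
  split_ifs <;> norm_num

theorem ms_one (h : Hyp F P 10) {Z : ℕ} (hZ : 0 < Z) (hd : pv F.all ∣ Z) :
    F.ms Z (fun _ _ _ _ => 1) ≤ 8 := by
  have := h.mass hZ hd 0 (Φ := fun _ _ => 1) fun _ _ => zero_le_one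
  rwa [h.toHyp0.nrm_w.const, mul_one] at this

/-- one role -/
theorem role_le {CA : ℕ} (h : Hyp F P 10) {A : Type} [Fintype A] (dt : ℕ → A) {Z : ℕ}
    {C0 : ℕ → Finset ℕ} {X s : ℕ → ℝ} (hD : Dat F P A Z C0)
    (hdt : ∀ n n', dt n = dt n' → X n = X n' ∧ F.z n = F.z n') (hX : ∀ n, |X n| ≤ 1)
    (hs : ∀ d, |s d| ≤ 1) {i0 : ℕ} (hi : i0 < F.k)
    (aco : ∀ (f : Finset (Fin F.N) → EE F P → Fin F.N → Fin Z → ℝ)
      (Q : Finset (Fin F.N) → EE F P → Fin F.N → Finset ℕ → Fin Z → ℝ),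
      (∀ Θ e a n, |f Θ e a n| ≤ 2 * F.z (n + a)) →
      (∀ Θ e a (n0 : Fin Z) (y : Fi F Z n0),
        ce (sig (Dt F dt Z n0) ((geo F P C0 Θ (n0 % F.Qk)).code (phi e)))
          (fun y => f Θ e a y.1) y = 0) →
      (∀ Θ e a u n, |Q Θ e a u n| ≤ (6 : ℕ) / P.η) →
      (∀ Θ e a (n0 : Fin Z), ∀ u ∈ CC F 0, tau F P i0 (n0 % F.Qk) a u ≠ 0 →
        Ms (sig (Dt F dt Z n0) ((geo F P C0 Θ (n0 % F.Qk)).code (phi e) ∪
          (geo F P C0 Θ (n0 % F.Qk)).Z0 ∩ (geo F P C0 Θ (n0 % F.Qk)).cell u))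
          fun y => Q Θ e a u y.1) →
      ET F P (fun Θ => ex fun e : EE F P => ex fun n : Fin Z =>
        ∑ a, ∑ u ∈ CC F 0, tau F P i0 (n % F.Qk) a u * Q Θ e a u n ^ 2) ≤ (6 : ℕ) →
      ET F P (fun Θ => ex fun e : EE F P => ex fun n : Fin Z =>
        ∑ a, ∑ u ∈ CC F 0, tau F P i0 (n % F.Qk) a u * (f Θ e a n * Q Θ e a u n)) ≤ CA * P.η) :
    ET F P (fun Θ => ex fun e : EE F P => F.Tf Z s (xx F P dt Z C0 X i0 Θ e))
      ≤ (CA + 50 + 32 * F.k) * P.η := by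
  have h0 := h.toHyp0
  have η0 := h.η0
  have G0 : (0 : ℝ) < (6 : ℕ) / P.η := by positivity
  have z0 : ∀ n, 0 ≤ F.z n := fun n => h.ze0 _
  have hx1 : ∀ Θ e i n b, i ≠ i0 → |xx F P dt Z C0 X i0 Θ e i n b| ≤ 1 := fun Θ e i n b hi => by
    simpa only [if_neg hi] using abs_xx h0 dt Z C0 hX i0 Θ e i n b
  have hf : ∀ Θ e (a : Fin F.N) (n : Fin Z),
      |F.z (n + a) * xx F P dt Z C0 X i0 Θ e i0 n a| ≤ 2 * F.z (n + a) := fun Θ e a n => by
    rw [abs_mul, abs_of_nonneg (z0 _), mul_comm]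
    exact mul_le_mul_of_nonneg_right
      (by simpa only [if_pos] using abs_xx h0 dt Z C0 hX i0 Θ e i0 n a) (z0 _)
  have s2 := sec h hD.Z0 hD.per hi hs hx1
  set q : Finset (Fin F.N) → EE F P → Fin F.N → Finset ℕ → Fin Z → ℝ :=
    fun Θ e a u n => Q0 F P s (xx F P dt Z C0 X i0 Θ e) i0 Θ e a u n with hq
  have lift : ∀ {φ ψ : Finset (Fin F.N) → EE F P → Fin F.N → Finset ℕ → Fin Z → ℝ} {t : ℝ},
      (∀ Θ e a u n, φ Θ e a u n ≤ ψ Θ e a u n +
        t * ((1 + F.z (n + a)) / 2 * q Θ e a u n ^ 2)) → 0 ≤ t →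
      ET F P (fun Θ => ex fun e : EE F P => ex fun n : Fin Z =>
        ∑ a, ∑ u ∈ CC F 0, tau F P i0 n a u * φ Θ e a u n) ≤
      ET F P (fun Θ => ex fun e : EE F P => ex fun n : Fin Z =>
        ∑ a, ∑ u ∈ CC F 0, tau F P i0 n a u * ψ Θ e a u n) + t * 3 := by
    intro φ ψ t hh ht
    refine le_trans ?_ (add_le_add le_rfl (mul_le_mul_of_nonneg_left s2 ht))
    rw [← ET_mul, ← ET_add]
    refine ET_mono h0 fun Θ => ?_
    rw [← ex_mul, ← ex_add]
    refine ex_mono fun e => ?_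
    rw [← ex_mul, ← ex_add]
    refine ex_mono fun n => ?_
    simp only [mul_sum, ← sum_add_distrib]
    refine sum_le_sum fun a _ => sum_le_sum fun u _ => ?_
    have := mul_le_mul_of_nonneg_left (hh Θ e a u n) (tau_nonneg h0 i0 n a u)
    simp only [hq] at this
    linarith
  have k1 := aco (fun Θ e a n => F.z (n + a) * xx F P dt Z C0 X i0 Θ e i0 n a)
    (fun Θ e a u n => clip ((6 : ℕ) / P.η) (q Θ e a u n)) hf
    (fun Θ e a n0 y => f_ce h0 dt Z C0 hX i0 Θ e a n0 y) (fun _ _ _ _ _ => abs_clip G0.le _)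
    (fun Θ e a n0 u hu t0 => (q_ms h0 dt Z C0 hdt s i0 Θ e a n0 hu t0).comp _)
    (by
      simp only [tau_mod]
      refine (lift (ψ := fun _ _ _ _ _ => 0) (t := 2) (fun Θ e a u n => ?_) (by norm_num)).trans ?_
      · have := clip_sq G0.le (q Θ e a u n)
        have := mul_nonneg (z0 (n + a)) (sq_nonneg (q Θ e a u n))
        linarith
      · simp only [mul_zero, sum_const_zero, ex_zero, ET_const]; norm_num)
  simp only [tau_mod] at k1
  have k2 := (lift (φ := fun Θ e a u n => F.z (n + a) * xx F P dt Z C0 X i0 Θ e i0 n a *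
      q Θ e a u n) (t := 2 / 3 * P.η) (fun Θ e a u n => by
    have a1 := sub_clip G0 (q Θ e a u n)
    have a2 := mul_le_mul (hf Θ e a n) a1 (abs_nonneg _) (by linarith [z0 (n + a)])
    rw [← abs_mul] at a2
    have a3 := (le_abs_self _).trans a2
    have a4 : 2 * F.z (n + a) * (q Θ e a u n ^ 2 / ((6 : ℕ) / P.η)) =
        P.η / 3 * (F.z (n + a) * q Θ e a u n ^ 2) := by push_cast; field_simp; ring
    have a5 := mul_nonneg η0.le (sq_nonneg (q Θ e a u n))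
    rw [a4] at a3
    linarith) (by positivity)).trans (add_le_add k1 le_rfl)
  have k3 := bad h hD.Z0 hD.per i0
  have k4 : ∀ Θ e, F.Tf Z s (xx F P dt Z C0 X i0 Θ e) ≤
      (F.ms Z fun n a c p => Fu.ind (gE F P i0 e n a c p) *
        (s (pv c * p) * ∏ i ∈ range F.k, xx F P dt Z C0 X i0 Θ e i n (a + i * (pv c * p)))) +
      2 * F.ms Z fun n a c p => Fu.ind (¬gE F P i0 e n a c p) := fun Θ e => by
    rw [Fam.Tf_eq, ← Fam.ms_mul, ← Fam.ms_add]
    refine h0.ms_mono fun n a c p _ _ _ _ _ _ _ => ?_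
    by_cases g : gE F P i0 e n a c p
    · rw [ind_pos g, ind_neg (not_not.2 g)]; simp
    · rw [ind_neg g, ind_pos g, zero_mul, zero_add, mul_one]
      exact (le_abs_self _).trans (abs_sx h0 dt Z C0 hX i0 Θ e n (hs _) _)
  refine (ET_mono h0 fun Θ => ex_mono (k4 Θ)).trans ?_
  simp only [ex_add, ex_mul, ET_add, ET_const]
  rw [ET_ex, ex_congr fun e => ins h0 dt Z C0 X s i0 e, ← ET_ex]
  simp only [reg h0 s _ hi]
  linarith

theorem s_comp_of_aco (aco : ACO) : S_COMP := by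
  intro k
  obtain ⟨CA, hA⟩ := aco k 6 (by norm_num)
  refine ⟨k * (CA + 66 + 32 * k) + CA + 10, fun F P hk h A _ dt Z C0 X s hD hdt hX hs => ?_⟩
  subst hk
  have h10 : Hyp F P 10 := h.mono (by omega)
  have h0 := h.toHyp0
  have η0 := h.η0
  have := ee_nonempty h0
  have cE := card_pos' (Ω := EE F P)
  have key : ∀ φ : Finset (Fin F.N) → EE F P → ℝ,
      ∑ i : Finset (Fin F.N) × EE F P, Maj.pS (fun _ => P.vt) univ i.1 / Fintype.card (EE F P) *
        φ i.1 i.2 = ET F P fun Θ => ex fun e => φ Θ e := fun φ => by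
    rw [Fintype.sum_prod_type, ET]
    refine sum_congr rfl fun Θ _ => ?_
    simp only [ex, ← mul_sum]
    ring
  obtain ⟨⟨Θ, e⟩, -, k1, k2⟩ := pick univ
    (fun i : Finset (Fin F.N) × EE F P => Maj.pS (fun _ => P.vt) univ i.1 / Fintype.card (EE F P))
    (fun i => ∑ i0 ∈ range F.k, F.Tf Z s (xx F P dt Z C0 X i0 i.1 i.2))
    (fun i => nw F P Z C0 i.1 i.2) (a := F.k * ((CA + 50 + 32 * F.k) * P.η)) (b := F.k * 16)
    (T := top F P)
    (fun i _ => div_nonneg (Maj.pS_nonneg (fun _ _ => ⟨h.vt0.le, h.vt1⟩) (subset_univ _)) cE.le)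
    (by simpa only [mul_one, ex_const, ET_const] using key fun _ _ => 1) η0
    (fun i _ => by
      have : ∀ i0 ∈ range F.k, (-16 : ℝ) ≤ F.Tf Z s (xx F P dt Z C0 X i0 i.1 i.2) :=
        fun i0 _ => by
          have a := h0.ms_mono (Φ := fun _ _ _ _ => -2 * 1) (Ψ := fun n a c p => s (pv c * p) *
            ∏ j ∈ range F.k, xx F P dt Z C0 X i0 i.1 i.2 j n (a + j * (pv c * p)))
            fun n a c p _ _ _ _ _ _ _ => by
              have := abs_sx h0 dt Z C0 hX i0 i.1 i.2 n (hs (pv c * p))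
                fun j => a + j * (pv c * p)
              linarith [(abs_le.1 this).1]
          rw [Fam.ms_mul, ← Fam.Tf_eq] at a
          linarith [ms_one h10 hD.Z0 hD.per]
      have := card_nsmul_le_sum _ _ _ this
      rw [card_range, nsmul_eq_mul] at this
      linarith)
    (fun i _ => div_nonneg (ex_nonneg fun _ => Nat.cast_nonneg _) (Nat.cast_nonneg _))
    (by
      rw [key fun Θ e => ∑ i0 ∈ range F.k, F.Tf Z s (xx F P dt Z C0 X i0 Θ e)]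
      simp only [ex_sum, ET_sum]
      refine (sum_le_card_nsmul _ _ _ fun i0 hi => role_le h10 dt hD hdt hX hs (mem_range.1 hi)
        (hA F P rfl (h.mono (by omega)) A dt Z C0 i0 hD)).trans ?_
      rw [card_range, nsmul_eq_mul])
    (by rw [key fun Θ e => nw F P Z C0 Θ e]; exact m_nw h0 hD.Z0 hD.per C0)
  have t0 : 0 ≤ top F P := h.σn _ _
  have k0 : (0 : ℝ) ≤ F.k := Nat.cast_nonneg _
  have c0 : (0 : ℝ) ≤ CA := Nat.cast_nonneg _
  have η1 := h.η1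
  refine ⟨cd F P C0 Θ e, cd_sub C0 Θ e, sub_cd hD.sub Θ e,
    (size_le Z C0 Θ e).trans (add_le_add le_rfl (k2.trans ?_)), k1.trans ?_⟩
  · refine div_le_div_of_nonneg_right (mul_le_mul_of_nonneg_right ?_ t0) η0.le
    push_cast
    have : (CA + 50 + 32 * F.k) * P.η ≤ CA + 50 + 32 * F.k :=
      mul_le_of_le_one_right (by positivity) (by linarith)
    nlinarith [mul_le_mul_of_nonneg_left this k0]
  · push_cast
    nlinarith [mul_nonneg k0 η0.le, mul_nonneg c0 η0.le]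

theorem s_comp : S_COMP := s_comp_of_aco aco

end Pool.Agent.P.MP_a14ce1_nt.Fu.St.Cp
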