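import Pool.Agent.P.MP_a14ce1_nt.Fu.Pot

/-! From correlations on the cells of the cofactors to the local potential (end of section 7). -/

open Finset
open scoped ComplexConjugate

namespace Pool.Agent.P.MP_a14ce1_nt.Fu

open IV (Hull Gr gn)
open Ax (pc)

/-- From correlations on the cells of the cofactors to the local potential. The members a n0 c of XX
are in absolute coordinates m = (n0 + b) / cv c. -/
def S_Cut : Prop := ∀ (XX : Set (ℕ → ℂ)), Hull XX → ∀ (f : ℕ → ℂ), (∀ n, ‖f n‖ ≤ 1) →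
  ∀ (ι : Type) (CC : Finset ι) (cv : ι → ℕ) (wh : ι → ℝ) (Z N : ℕ) (Y M K γ cm : ℝ)
    (a : ℕ → ι → ℕ → ℂ),
    (∀ n0 < Z, ∀ c ∈ CC, a n0 c ∈ XX) → (∀ c ∈ CC, 0 ≤ wh c ∧ 0 < cv c ∧ (cv c : ℝ) ≤ cm) →
    ∑ c ∈ CC, wh c / cv c ≤ 1 →
    (∀ u : ℝ, ∑ c ∈ CC.filter (fun c => u ≤ Real.log (cv c) ∧ Real.log (cv c) ≤ u + 1),
      wh c / cv c ≤ K / M) →
    0 < γ → γ ≤ K → γ ≤ 1 → 1 ≤ M → 1 ≤ cm → N ≤ Z →
    16 * Real.exp M ≤ γ * Y → 16 * Y * cm ≤ γ * Z → 2 * Z ≤ Y * Real.exp M →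
    64 * Real.exp M * cm ≤ γ * N →
    γ * (Z * N) ≤ ∑ n0 ∈ range Z, ∑ c ∈ CC, wh c *
      (∑ b ∈ (range N).filter (fun b => cv c ∣ n0 + b), pc f (a n0 c) ((n0 + b) / cv c)).re →
    Pot XX f Y M ((γ / K) ^ 2 / 128)

namespace C7

theorem harm_Ioc {a b : ℕ} (ha : 1 ≤ a) (hab : a ≤ b) :
    ∑ n ∈ Ioc a b, 1 / (n : ℝ) ≤ Real.log b - Real.log a := by
  induction b, hab using Nat.le_induction with
  | base => simp
  | succ b hab ih =>
    rw [sum_Ioc_succ_top hab]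
    have hb : (0 : ℝ) < b := by exact_mod_cast (show 0 < b by omega)
    have h1 := Real.log_le_sub_one_of_pos (show (0 : ℝ) < b / ((b + 1 : ℕ) : ℝ) by positivity)
    rw [Real.log_div hb.ne' (by positivity)] at h1
    have h2 : (b : ℝ) / ((b + 1 : ℕ) : ℝ) - 1 = -(1 / ((b + 1 : ℕ) : ℝ)) := by
      push_cast; field_simp; ring
    linarith

theorem harm_I {Y M : ℝ} (hY : 0 < Y) (hM : 0 ≤ M) :
    ∑ n ∈ Ico ⌈Y⌉₊ ⌈Y * Real.exp M⌉₊, 1 / (n : ℝ) ≤ 1 + M := by
  have ha : 1 ≤ ⌈Y⌉₊ := Nat.ceil_pos.2 hY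
  rcases le_or_gt ⌈Y * Real.exp M⌉₊ ⌈Y⌉₊ with h | h
  · rw [Ico_eq_empty_of_le h, sum_empty]; linarith
  obtain ⟨b, hb⟩ : ∃ b, ⌈Y * Real.exp M⌉₊ = b + 1 := ⟨_, (Nat.succ_pred_eq_of_pos (by omega)).symm⟩
  have h1 : (b : ℝ) < Y * Real.exp M := Nat.lt_ceil.1 (by omega)
  have h2 := harm_Ioc ha (show ⌈Y⌉₊ ≤ b by omega)
  have hb0 : (0 : ℝ) < b := by exact_mod_cast (show 0 < b by omega)
  have h3 := Real.log_le_log hb0 h1.le
  rw [Real.log_mul hY.ne' (Real.exp_pos _).ne', Real.log_exp] at h3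
  have h4 := Real.log_le_log hY (Nat.le_ceil Y)
  have h5 : 1 / (⌈Y⌉₊ : ℝ) ≤ 1 := by
    rw [div_le_one (by positivity)]; exact_mod_cast ha
  rw [hb, sum_eq_sum_Ico_succ_bot (by omega), Ico_add_one_add_one_eq_Ioc]
  linarith

theorem card_itv {u v : ℝ} (hu : 0 ≤ u) (huv : u ≤ v) (S : Finset ℕ)
    (h : ∀ n ∈ S, u ≤ n ∧ (n : ℝ) < v) : (S.card : ℝ) ≤ v - u + 1 := by
  have h1 : S ⊆ Ico ⌈u⌉₊ ⌈v⌉₊ := fun n hn =>
    mem_Ico.2 ⟨Nat.ceil_le.2 (h n hn).1, Nat.lt_ceil.2 (h n hn).2⟩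
  have h2 : (S.card : ℝ) ≤ (⌈v⌉₊ - ⌈u⌉₊ : ℕ) := by
    rw [← Nat.card_Ico]; exact_mod_cast card_le_card h1
  rw [Nat.cast_sub (Nat.ceil_mono huv)] at h2
  linarith [Nat.ceil_lt_add_one (hu.trans huv), Nat.le_ceil u]

theorem hull_sum {XX : Set (ℕ → ℂ)} (hX : Hull XX) {ι : Type*} (S : Finset ι) (w : ι → ℝ)
    (a : ι → ℕ → ℂ) (ha : ∀ i ∈ S, a i ∈ XX) (hw : ∀ i ∈ S, 0 ≤ w i) (h1 : ∑ i ∈ S, w i ≤ 1) :
    (fun n => ∑ i ∈ S, (w i : ℂ) * a i n) ∈ XX := by
  classical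
  have := hX.cvx.sum_mem (t := insertNone S) (w := fun o => o.elim (1 - ∑ i ∈ S, w i) w)
    (z := fun o => o.elim 0 a) (fun o ho => by
      cases o with
      | none => simpa using h1
      | some i => exact hw i (by simpa using ho)) (by simp) fun o ho => by
      cases o with
      | none => exact hX.zero
      | some i => exact ha i (by simpa using ho)
  convert this using 1
  ext n
  simp [Finset.sum_apply]

/-- abstract form: windows [x i, y i) with weights lam i of density at most κ / n -/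
theorem cut_abs {XX : Set (ℕ → ℂ)} (hX : Hull XX) {f : ℕ → ℂ} (hf : ∀ n, ‖f n‖ ≤ 1) {ι : Type*}
    (S : Finset ι) (lam x y : ι → ℝ) (a : ι → ℕ → ℂ) {Y M κ β γ : ℝ} (ha : ∀ i ∈ S, a i ∈ XX)
    (hl : ∀ i ∈ S, 0 ≤ lam i) (hY : 0 < Y) (hM : 0 ≤ M) (hκ : 0 < κ) (hβ : 0 ≤ β) (hβ1 : β ≤ 1)
    (hy : ∀ i ∈ S, y i ≤ Y * Real.exp M)
    (hd : ∀ n : ℕ, 0 < n → ∑ i ∈ S.filter (fun i => x i ≤ n ∧ (n : ℝ) < y i), lam i ≤ κ / n)
    (hc : γ ≤ ∑ i ∈ S, lam i * ∑ n ∈ Ico ⌈x i⌉₊ ⌈y i⌉₊, ((pc f (a i) n).re - Real.exp M / Y -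
      if (n : ℝ) < x i + Real.exp M ∨ y i < n + Real.exp M ∨ (n : ℝ) < Y + Real.exp M then 1
      else 0)) :
    ∃ Ψ, Gr XX (Real.exp M) Ψ ∧ 2 * β / κ * γ - β ^ 2 * (1 + M) ≤
      ∑ n ∈ Ico ⌈Y⌉₊ ⌈Y * Real.exp M⌉₊, gn (f n) (Ψ n) / n := by
  classical
  set ρ := Real.exp M with hρ
  have hρ1 : 1 ≤ ρ := Real.one_le_exp hM
  have hρ0 : 0 < ρ := by linarith
  set F : ℕ → Finset ι := fun j => S.filter fun i =>
    x i ≤ j * ρ ∧ ((j : ℝ) + 1) * ρ ≤ y i ∧ Y ≤ j * ρ with hF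
  set w : ℕ → ι → ℝ := fun j i => β * (lam i * (j * ρ) / κ) with hw
  have hw0 : ∀ j, ∀ i ∈ F j, 0 ≤ w j i := fun j i hi => by
    have := hl i (mem_filter.1 hi).1
    simp only [hw]; positivity
  have hw1 : ∀ j, ∑ i ∈ F j, w j i ≤ β := fun j => by
    rcases (F j).eq_empty_or_nonempty with h | ⟨i0, h0⟩
    · rw [h, sum_empty]; exact hβ
    have h1 : 0 < (j : ℝ) * ρ := hY.trans_le (mem_filter.1 h0).2.2.2
    have h2 := hd ⌈(j : ℝ) * ρ⌉₊ (Nat.ceil_pos.2 h1)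
    have h3 := Nat.le_ceil ((j : ℝ) * ρ)
    have h4 := Nat.ceil_lt_add_one h1.le
    have h5 : ∑ i ∈ F j, lam i ≤ κ / (j * ρ) := by
      refine (sum_le_sum_of_subset_of_nonneg (fun i hi => ?_) fun i hi _ =>
        hl i (mem_filter.1 hi).1).trans (h2.trans (by gcongr))
      obtain ⟨a1, a2, a3, -⟩ := mem_filter.1 hi
      exact mem_filter.2 ⟨a1, by linarith, by linarith⟩
    simp only [hw]
    rw [← mul_sum, ← sum_div, ← sum_mul]
    refine mul_le_of_le_one_right hβ ?_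
    rwa [div_le_one hκ, ← le_div_iff₀ h1]
  set J : ℕ → ℕ := fun n => ⌊(n : ℝ) / ρ⌋₊ with hJ
  have hJ1 : ∀ n : ℕ, (J n : ℝ) * ρ ≤ n ∧ (n : ℝ) < (J n + 1) * ρ := fun n =>
    IV.mem_cell.1 ((IV.mem_cell_floor hρ0).2 rfl)
  refine ⟨fun n => ∑ i ∈ F (J n), (w (J n) i : ℂ) * a i n, fun j => ⟨_, hull_sum hX (F j) (w j) a
    (fun i hi => ha i (mem_filter.1 hi).1) (hw0 j) ((hw1 j).trans hβ1), fun n hn => ?_⟩, ?_⟩
  · beta_reduce
    rw [show J n = j from (IV.mem_cell_floor hρ0).1 hn]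
  have h1 : ∀ n : ℕ, 2 * β / κ * ∑ i ∈ S, lam i * (if i ∈ F (J n) then
      (J n * ρ / n) * (pc f (a i) n).re else 0) - β ^ 2 * (1 / n) ≤
      gn (f n) (∑ i ∈ F (J n), (w (J n) i : ℂ) * a i n) / n := fun n => by
    have a1 : ‖∑ i ∈ F (J n), (w (J n) i : ℂ) * a i n‖ ≤ β := by
      refine (norm_sum_le _ _).trans ((sum_le_sum fun i hi => ?_).trans (hw1 (J n)))
      rw [norm_mul, Complex.norm_real, Real.norm_of_nonneg (hw0 _ i hi)]
      exact mul_le_of_le_one_right (hw0 _ i hi) (hX.bd _ (ha i (mem_filter.1 hi).1) n)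
    have a2 : (f n * conj (∑ i ∈ F (J n), (w (J n) i : ℂ) * a i n)).re =
        ∑ i ∈ F (J n), w (J n) i * (pc f (a i) n).re := by
      rw [map_sum, mul_sum, Complex.re_sum]
      refine sum_congr rfl fun i _ => ?_
      rw [map_mul, Complex.conj_ofReal, mul_left_comm, Complex.re_ofReal_mul, pc]
    have a3 : 2 * β / κ * ∑ i ∈ S, lam i * (if i ∈ F (J n) then
        (J n * ρ / n) * (pc f (a i) n).re else 0) =
        (2 * ∑ i ∈ F (J n), w (J n) i * (pc f (a i) n).re) / n := by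
      simp only [mul_ite, mul_zero]
      rw [sum_ite_mem, inter_eq_right.2 (filter_subset _ _), mul_sum, mul_sum, sum_div]
      refine sum_congr rfl fun i _ => ?_
      simp only [hw]
      ring
    rw [gn, a2, a3, sub_div, mul_one_div]
    gcongr
  refine le_trans ?_ (sum_le_sum fun n _ => h1 n)
  rw [sum_sub_distrib, ← mul_sum, ← mul_sum, sum_comm]
  refine sub_le_sub (mul_le_mul_of_nonneg_left (hc.trans (sum_le_sum fun i hi => ?_))
    (by positivity)) (mul_le_mul_of_nonneg_left (harm_I hY hM) (by positivity))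
  rw [← mul_sum]
  refine mul_le_mul_of_nonneg_left ?_ (hl i hi)
  have h2 : ∀ T : Finset ℕ, (∀ n, i ∈ F (J n) → n ∈ T) → ∑ n ∈ T, (if i ∈ F (J n) then
      (J n * ρ / n) * (pc f (a i) n).re else 0) = ∑ n ∈ (range ⌈y i⌉₊).filter (fun n => i ∈ F (J n)),
      (J n * ρ / n) * (pc f (a i) n).re := fun T hT => by
    rw [← sum_filter]
    refine sum_congr ?_ fun _ _ => rfl
    ext n
    simp only [mem_filter, mem_range]
    refine ⟨fun h => ⟨Nat.lt_ceil.2 ?_, h.2⟩, fun h => ⟨hT n h.2, h.2⟩⟩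
    linarith [(mem_filter.1 h.2).2.2.1, (hJ1 n).2]
  rw [h2 _ fun n hn => mem_Ico.2 ⟨Nat.ceil_le.2 ((mem_filter.1 hn).2.2.2.trans (hJ1 n).1),
      Nat.lt_ceil.2 ((hJ1 n).2.trans_le ((mem_filter.1 hn).2.2.1.trans (hy i hi)))⟩,
    ← h2 (Ico ⌈x i⌉₊ ⌈y i⌉₊) fun n hn => mem_Ico.2
      ⟨Nat.ceil_le.2 ((mem_filter.1 hn).2.1.trans (hJ1 n).1),
      Nat.lt_ceil.2 ((hJ1 n).2.trans_le (mem_filter.1 hn).2.2.1)⟩]
  refine sum_le_sum fun n _ => ?_
  have a1 : |(pc f (a i) n).re| ≤ 1 := by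
    refine (Complex.abs_re_le_norm _).trans ?_
    rw [pc, norm_mul, Complex.norm_conj]
    exact mul_le_one₀ (hf n) (norm_nonneg _) (hX.bd _ (ha i hi) n)
  obtain ⟨a2, a3⟩ := abs_le.1 a1
  obtain ⟨b1, b2⟩ := hJ1 n
  have a4 : 0 ≤ ρ / Y := by positivity
  by_cases h : i ∈ F (J n)
  · rw [if_pos h]
    have b3 := (mem_filter.1 h).2.2.2
    have hn : (0 : ℝ) < n := by linarith
    have b4 : 1 - J n * ρ / n ≤ ρ / Y := by
      refine le_trans ?_ (div_le_div_of_nonneg_left hρ0.le hY (b3.trans b1))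
      rw [one_sub_div hn.ne']
      gcongr
      linarith
    have b5 : 0 ≤ 1 - J n * ρ / n := sub_nonneg.2 ((div_le_one hn).2 b1)
    have b6 := mul_le_mul_of_nonneg_left a3 b5
    split_ifs <;> linarith
  · rw [if_neg h, if_pos]
    · linarith
    · by_contra hc
      push Not at hc
      exact h (mem_filter.2 ⟨hi, by linarith [hc.1], by linarith [hc.2.1], by linarith [hc.2.2]⟩)

/-- weights below a level, from the small ball bound -/
theorem below {ι : Type*} (CC : Finset ι) (cv : ι → ℕ) (wh : ι → ℝ) {κ : ℝ}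
    (h : ∀ c ∈ CC, 0 ≤ wh c ∧ 0 < cv c)
    (hs : ∀ u : ℝ, ∑ c ∈ CC.filter (fun c => u ≤ Real.log (cv c) ∧ Real.log (cv c) ≤ u + 1),
      wh c / cv c ≤ κ) {T : ℝ} (hT : 0 < T) :
    ∑ c ∈ CC.filter (fun c => (cv c : ℝ) ≤ T), wh c ≤ 2 * κ * T := by
  classical
  have hκ : 0 ≤ κ := le_trans (sum_nonneg fun c hc => by
    have := (h c (mem_filter.1 hc).1).1
    positivity) (hs 0)
  obtain ⟨j, hj⟩ := pow_unbounded_of_one_lt T one_lt_two
  induction j generalizing T with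
  | zero =>
    rw [filter_eq_empty_iff.2 fun c hc h1 => ?_, sum_empty]
    · positivity
    · have : (1 : ℝ) ≤ cv c := by exact_mod_cast (h c hc).2
      rw [pow_zero] at hj
      linarith
  | succ j ih =>
    have h1 := ih (half_pos hT) (by rw [pow_succ] at hj; linarith)
    have h2 : ∑ c ∈ CC.filter (fun c => (cv c : ℝ) ≤ T ∧ ¬ (cv c : ℝ) ≤ T / 2), wh c ≤ κ * T := by
      refine le_trans ?_ (mul_le_mul_of_nonneg_right (hs (Real.log T - 1)) hT.le)
      rw [sum_mul]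
      refine (sum_le_sum fun c hc => ?_).trans (sum_le_sum_of_subset_of_nonneg (fun c hc => ?_)
        fun c hc _ => ?_)
      · obtain ⟨a1, a2, -⟩ := mem_filter.1 hc
        have : (0 : ℝ) < cv c := by exact_mod_cast (h c a1).2
        rw [div_mul_eq_mul_div, le_div_iff₀ this]
        exact mul_le_mul_of_nonneg_left a2 (h c a1).1
      · obtain ⟨a1, a2, a3⟩ := mem_filter.1 hc
        have a4 : (0 : ℝ) < cv c := by exact_mod_cast (h c a1).2
        have a5 := Real.log_le_log (half_pos hT) (not_le.1 a3).le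
        rw [Real.log_div hT.ne' two_ne_zero] at a5
        exact mem_filter.2 ⟨a1, by linarith [Real.log_two_lt_d9],
          by linarith [Real.log_le_log a4 a2]⟩
      · have := (h c (mem_filter.1 hc).1).1
        positivity
    rw [← sum_filter_add_sum_filter_not _ (fun c => (cv c : ℝ) ≤ T / 2), filter_filter,
      filter_filter, filter_congr (q := fun c => (cv c : ℝ) ≤ T / 2) fun c _ =>
        ⟨fun h => h.2, fun h => ⟨by linarith, h⟩⟩]
    linarith

theorem mem_win {c n0 N n : ℕ} (hc : 0 < c) :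
    n ∈ Ico ⌈(n0 : ℝ) / c⌉₊ ⌈((n0 : ℝ) + N) / c⌉₊ ↔ n0 ≤ c * n ∧ c * n < n0 + N := by
  have : (0 : ℝ) < c := by exact_mod_cast hc
  rw [mem_Ico, Nat.ceil_le, Nat.lt_ceil, div_le_iff₀' this, lt_div_iff₀' this]
  norm_cast

theorem sum_win {c : ℕ} (hc : 0 < c) (n0 N : ℕ) (φ : ℕ → ℂ) :
    ∑ b ∈ (range N).filter (fun b => c ∣ n0 + b), φ ((n0 + b) / c) =
      ∑ n ∈ Ico ⌈(n0 : ℝ) / c⌉₊ ⌈((n0 : ℝ) + N) / c⌉₊, φ n := by
  refine sum_nbij' (fun b => (n0 + b) / c) (fun n => c * n - n0) (fun b hb => ?_) (fun n hn => ?_)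
    (fun b hb => ?_) (fun n hn => ?_) fun _ _ => rfl
  · obtain ⟨h1, h2⟩ := mem_filter.1 hb
    rw [mem_range] at h1
    rw [mem_win hc, Nat.mul_div_cancel' h2]
    omega
  · rw [mem_win hc] at hn
    refine mem_filter.2 ⟨mem_range.2 (by omega), ?_⟩
    rw [Nat.add_sub_cancel' hn.1]
    exact dvd_mul_right _ _
  · rw [Nat.mul_div_cancel' (mem_filter.1 hb).2, Nat.add_sub_cancel_left]
  · rw [mem_win hc] at hn
    rw [Nat.add_sub_cancel' hn.1, Nat.mul_div_cancel_left _ hc]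

theorem card_n0 (Z N t : ℕ) : ((range Z).filter fun n0 => n0 ≤ t ∧ t < n0 + N).card ≤ N := by
  refine (card_le_card (t := Ico (t + 1 - N) (t + 1)) fun n hn => ?_).trans ?_
  · have := (mem_filter.1 hn).2
    rw [mem_Ico]; omega
  · rw [Nat.card_Ico]; omega

end C7

open C7

theorem cut : S_Cut := by
  classical
  intro XX hX f hf ι CC cv wh Z N Y M K γ cm a ha hc hν hs hγ hK hγ1 hM hcm hNZ h1 h2 h3 h4 h5
  set ρ := Real.exp M with hρ
  have hρ1 : 1 ≤ ρ := Real.one_le_exp (by linarith)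
  have hY : 16 * ρ ≤ Y := by
    by_contra h
    nlinarith
  have hY0 : 0 < Y := by linarith
  have hN0 : (0 : ℝ) < N := by
    by_contra h
    nlinarith [mul_le_mul hρ1 hcm zero_le_one (by linarith)]
  have hNZ' : (N : ℝ) ≤ Z := by exact_mod_cast hNZ
  have hZ0 : (0 : ℝ) < Z := by linarith
  have hK0 : 0 < K := by linarith
  have hM0 : 0 < M := by linarith
  have hcv : ∀ c ∈ CC, (1 : ℝ) ≤ cv c := fun c h => by exact_mod_cast (hc c h).2.1
  have hwh : ∑ c ∈ CC, wh c ≤ cm := by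
    refine le_trans (sum_le_sum fun c h => ?_) ((sum_mul ..).symm.le.trans
      (mul_le_of_le_one_left (by linarith) hν))
    rw [div_mul_eq_mul_div, le_div_iff₀ (by linarith [hcv c h])]
    exact mul_le_mul_of_nonneg_left (hc c h).2.2 (hc c h).1
  obtain ⟨Ψ, g1, g2⟩ := cut_abs hX hf (range Z ×ˢ CC) (fun i => wh i.2 / (Z * N))
    (fun i => (i.1 : ℝ) / cv i.2) (fun i => ((i.1 : ℝ) + N) / cv i.2) (fun i => a i.1 i.2)
    (Y := Y) (M := M) (κ := 4 * K / M) (β := γ / (16 * K)) (γ := γ / 2)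
    (fun i hi => ha _ (mem_range.1 (mem_product.1 hi).1) _ (mem_product.1 hi).2)
    (fun i hi => by
      have := (hc _ (mem_product.1 hi).2).1
      positivity) hY0 hM0.le (by positivity) (by positivity)
    ((div_le_one (by positivity)).2 (by linarith))
    (fun i hi => by
      have a1 : (i.1 : ℝ) ≤ Z := by exact_mod_cast (mem_range.1 (mem_product.1 hi).1).le
      exact (div_le_self (by positivity) (hcv _ (mem_product.1 hi).2)).trans (by linarith))
    (fun n hn => by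
      have hn0 : (0 : ℝ) < n := by exact_mod_cast hn
      have a1 := below CC cv wh (fun c h => ⟨(hc c h).1, (hc c h).2.1⟩) hs
        (show (0 : ℝ) < 2 * Z / n by positivity)
      rw [sum_filter, sum_product_right]
      refine le_trans (sum_le_sum (g := fun c => if (cv c : ℝ) ≤ 2 * Z / n then wh c / Z else 0)
        fun c h => ?_) ?_
      · have a2 : (0 : ℝ) < cv c := by linarith [hcv c h]
        have a3 := (hc c h).1
        dsimp only
        rw [← sum_filter, sum_const, nsmul_eq_mul]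
        split_ifs with a4
        · have a5 : (((range Z).filter fun n0 : ℕ => (n0 : ℝ) / cv c ≤ n ∧
              (n : ℝ) < ((n0 : ℝ) + N) / cv c).card : ℝ) ≤ N := by
            refine Nat.cast_le.2 (le_trans (le_of_eq ?_) (card_n0 Z N (cv c * n)))
            congr 1
            refine filter_congr fun n0 _ => ?_
            rw [div_le_iff₀' a2, lt_div_iff₀' a2]
            norm_cast
          refine (mul_le_mul_of_nonneg_right a5 (by positivity)).trans (le_of_eq ?_)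
          field_simp
        · rw [filter_eq_empty_iff.2 fun n0 h0 h6 => a4 ?_]
          · simp
          · have a5 : (n0 : ℝ) ≤ Z := by exact_mod_cast (mem_range.1 h0).le
            have a6 := h6.2
            rw [lt_div_iff₀' a2] at a6
            rw [le_div_iff₀ hn0]
            linarith
      · rw [← sum_filter, ← sum_div, div_le_iff₀ hZ0]
        refine a1.trans (le_of_eq ?_)
        field_simp
        norm_num)
    (by
      have a1 : ∀ n0 ∈ range Z, ∀ c ∈ CC, ∑ n ∈ Ico ⌈(n0 : ℝ) / cv c⌉₊ ⌈((n0 : ℝ) + N) / cv c⌉₊,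
          (ρ / Y + if (n : ℝ) < (n0 : ℝ) / cv c + ρ ∨ ((n0 : ℝ) + N) / cv c < n + ρ ∨
            (n : ℝ) < Y + ρ then 1 else 0) ≤ ρ / Y * (N / cv c + 1) + 4 * ρ +
            ∑ n ∈ range ⌈Y + ρ⌉₊, if n0 ≤ cv c * n ∧ cv c * n < n0 + N then (1 : ℝ) else 0 := by
        intro n0 _ c h
        have b0 : (0 : ℝ) < cv c := by linarith [hcv c h]
        have b1 : ∀ n ∈ Ico ⌈(n0 : ℝ) / cv c⌉₊ ⌈((n0 : ℝ) + N) / cv c⌉₊,
            (n0 : ℝ) / cv c ≤ n ∧ (n : ℝ) < ((n0 : ℝ) + N) / cv c := fun n hn =>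
          ⟨Nat.ceil_le.1 (mem_Ico.1 hn).1, Nat.lt_ceil.1 (mem_Ico.1 hn).2⟩
        set W := Ico ⌈(n0 : ℝ) / cv c⌉₊ ⌈((n0 : ℝ) + N) / cv c⌉₊
        have b2 := card_itv (by positivity) (by gcongr; linarith) W b1
        rw [add_div, add_sub_cancel_left] at b2
        have b3 := card_itv (u := (n0 : ℝ) / cv c) (v := (n0 : ℝ) / cv c + ρ) (by positivity)
          (by linarith) (W.filter fun n : ℕ => (n : ℝ) < (n0 : ℝ) / cv c + ρ)
          fun n hn => ⟨(b1 n (mem_filter.1 hn).1).1, (mem_filter.1 hn).2⟩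
        have b4 := card_itv (u := max 0 (((n0 : ℝ) + N) / cv c - ρ)) (v := ((n0 : ℝ) + N) / cv c)
          (le_max_left _ _) (max_le (by positivity) (by linarith))
          (W.filter fun n : ℕ => ((n0 : ℝ) + N) / cv c < n + ρ)
          fun n hn => ⟨max_le (by positivity) (by linarith [(mem_filter.1 hn).2]),
            (b1 n (mem_filter.1 hn).1).2⟩
        have b5 : ((W.filter fun n : ℕ => (n : ℝ) < Y + ρ).card : ℝ) ≤
            ∑ n ∈ range ⌈Y + ρ⌉₊, if n0 ≤ cv c * n ∧ cv c * n < n0 + N then (1 : ℝ) else 0 := by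
          rw [sum_boole]
          refine Nat.cast_le.2 (card_le_card fun n hn => mem_filter.2 ⟨mem_range.2
            (Nat.lt_ceil.2 (mem_filter.1 hn).2), (mem_win (hc c h).2.1).1 (mem_filter.1 hn).1⟩)
        rw [sum_add_distrib, sum_const, nsmul_eq_mul, sum_boole, filter_or, filter_or]
        have b6 := Nat.cast_le (α := ℝ).2 ((card_union_le
          (W.filter fun n : ℕ => (n : ℝ) < (n0 : ℝ) / cv c + ρ)
          ((W.filter fun n : ℕ => ((n0 : ℝ) + N) / cv c < n + ρ) ∪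
            W.filter fun n : ℕ => (n : ℝ) < Y + ρ)).trans
          (Nat.add_le_add_left (card_union_le _ _) _))
        push_cast at b6
        have b7 := mul_le_mul_of_nonneg_right b2 (show 0 ≤ ρ / Y by positivity)
        linarith [le_max_right 0 (((n0 : ℝ) + N) / cv c - ρ)]
      have a2 : ∀ c ∈ CC, ∑ n0 ∈ range Z, (ρ / Y * (N / cv c + 1) + 4 * ρ +
          ∑ n ∈ range ⌈Y + ρ⌉₊, if n0 ≤ cv c * n ∧ cv c * n < n0 + N then (1 : ℝ) else 0) ≤
          Z * (ρ / Y * (N / cv c) + 5 * ρ) + 2 * Y * N := fun c _ => by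
        rw [sum_add_distrib, sum_const, card_range, nsmul_eq_mul, sum_comm]
        refine add_le_add (mul_le_mul_of_nonneg_left ?_ hZ0.le) ((sum_le_card_nsmul _ _ (N : ℝ)
          fun n _ => ?_).trans ?_)
        · have : ρ / Y ≤ ρ := div_le_self (by linarith) (by linarith)
          linarith
        · rw [sum_boole]
          exact_mod_cast card_n0 Z N _
        · rw [card_range, nsmul_eq_mul]
          exact mul_le_mul_of_nonneg_right
            (by linarith [Nat.ceil_lt_add_one (show 0 ≤ Y + ρ by linarith)]) hN0.le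
      have a3 : ∑ c ∈ CC, wh c * (Z * (ρ / Y * (N / cv c) + 5 * ρ) + 2 * Y * N) ≤
          γ / 2 * (Z * N) := by
        have e : ∑ c ∈ CC, wh c * (Z * (ρ / Y * (N / cv c) + 5 * ρ) + 2 * Y * N) =
            Z * N * (ρ / Y) * ∑ c ∈ CC, wh c / cv c + (5 * Z * ρ + 2 * Y * N) * ∑ c ∈ CC, wh c := by
          rw [mul_sum, mul_sum, ← sum_add_distrib]
          exact sum_congr rfl fun c _ => by ring
        have b1 : ρ / Y ≤ γ / 16 := by rw [div_le_iff₀ hY0]; linarith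
        have b2 := mul_le_mul_of_nonneg_left h4 hZ0.le
        have b3 := mul_le_mul_of_nonneg_left h2 hN0.le
        have b4 : 0 ≤ γ * (Z * N) := by positivity
        rw [e]
        calc _ ≤ Z * N * (γ / 16) * 1 + (5 * Z * ρ + 2 * Y * N) * cm := by
              gcongr
              exact sum_nonneg fun c h => div_nonneg (hc c h).1 (by positivity)
          _ ≤ _ := by nlinarith
      have a4 : ∑ n0 ∈ range Z, ∑ c ∈ CC, wh c * ∑ n ∈ Ico ⌈(n0 : ℝ) / cv c⌉₊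
          ⌈((n0 : ℝ) + N) / cv c⌉₊, (ρ / Y + if (n : ℝ) < (n0 : ℝ) / cv c + ρ ∨
            ((n0 : ℝ) + N) / cv c < n + ρ ∨ (n : ℝ) < Y + ρ then 1 else 0) ≤ γ / 2 * (Z * N) := by
        rw [sum_comm]
        refine (sum_le_sum fun c h => ?_).trans a3
        rw [← mul_sum]
        exact mul_le_mul_of_nonneg_left
          ((sum_le_sum fun n0 h0 => a1 n0 h0 c h).trans (a2 c h)) (hc c h).1
      rw [sum_congr rfl fun n0 _ => sum_congr rfl fun c h => by
        rw [sum_win (hc c h).2.1 n0 N (pc f (a n0 c)), Complex.re_sum]] at h5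
      simp only [div_mul_eq_mul_div, ← sum_div]
      rw [le_div_iff₀ (by positivity), sum_product]
      simp only [sub_sub, sum_sub_distrib, mul_sub]
      linarith)
  refine ⟨Ψ, g1, le_trans ?_ g2⟩
  have e1 : 2 * (γ / (16 * K)) / (4 * K / M) * (γ / 2) = (γ / K) ^ 2 / 64 * M := by
    field_simp; ring
  have e2 : (γ / (16 * K)) ^ 2 = (γ / K) ^ 2 / 256 := by field_simp; ring
  rw [e1, e2]
  nlinarith [mul_le_mul_of_nonneg_left hM (sq_nonneg (γ / K))]

end Pool.Agent.P.MP_a14ce1_nt.Fu
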