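import Pool.Agent.P.MP_a14ce1_nt.Fu.Sec7a
import Pool.Agent.P.MP_a14ce1_nt.Fu.Cut7
import Pool.Agent.P.MP_a14ce1_nt.IV.Grid

/-! Section 7 without the model. -/

namespace Pool.Agent.P.MP_a14ce1_nt.Fu

theorem sec7 : S_Sec7 := by
  intro r L δ hδ
  obtain ⟨A, c2, C, hA, h0, h1, ha⟩ := sec7a r L δ hδ
  refine ⟨A, c2, C, hA, h0, h1, fun ι Z d Om wb τ ℓ K cm M Y h hf hc hs hK hM hcm hN a1 a2 a3 a4 =>
    ?_⟩
  obtain ⟨a, b1, b2⟩ := ha ι Z d Om wb τ ℓ h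
  have := h.om
  have h2 : c2 / Om ≤ 1 := (div_le_one (by positivity)).2 (by linarith)
  exact cut _ (IV.hull _ hA.sys.atm) _ (fun n => by simpa using hf n) ι d.CC d.cv d.wh Z d.N Y M K
    _ cm a (fun n _ c _ => subset_convexHull ℝ _ (b1 n c))
    (fun c h' => ⟨(h.pos c h').1, (h.pos c h').2, hc c h'⟩) h.mass hs (by positivity) (h2.trans hK)
    h2 hM hcm hN a1 a2 a3 a4 b2

end Pool.Agent.P.MP_a14ce1_nt.Fu
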