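import Mathlib

/-!
Finite uniform probability spaces: informations (equivalence relations), conditional means,
entropy, the variational inequality.  A finer information is smaller in the order of `Setoid`,
the joint information of D and L is D ⊓ L.
-/

open Finset

namespace Pool.Agent.P.MP_a14ce1_nt.Fu

variable {Ω : Type} [Fintype Ω]

/-- the mean -/
noncomputable def ex (g : Ω → ℝ) : ℝ := (∑ x, g x) / Fintype.card Ω

open Classical in
/-- the class of a point -/
noncomputable def cls (D : Setoid Ω) (x : Ω) : Finset Ω := univ.filter fun y => D x y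

/-- the conditional mean -/
noncomputable def ce (D : Setoid Ω) (g : Ω → ℝ) (x : Ω) : ℝ :=
  (∑ y ∈ cls D x, g y) / (cls D x).card

/-- u is known from D -/
def Ms {β : Type*} (D : Setoid Ω) (u : Ω → β) : Prop := ∀ x y, D x y → u x = u y

/-- entropy -/
noncomputable def Hh (D : Setoid Ω) : ℝ :=
  ex fun x => Real.log (Fintype.card Ω) - Real.log (cls D x).card

/-- conditional entropy of L given D -/
noncomputable def cH (L D : Setoid Ω) : ℝ := Hh (D ⊓ L) - Hh D

/-- mutual information -/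
noncomputable def MI (L D : Setoid Ω) : ℝ := Hh L - cH L D

/-- energy of the conditional mean -/
noncomputable def en (D : Setoid Ω) (f : Ω → ℝ) : ℝ := ex fun x => ce D f x ^ 2

/-- the information given by the data on the sites of S -/
def sig {σ A : Type*} (Dt : Ω → σ → A) (S : Finset σ) : Setoid Ω where
  r x y := ∀ b ∈ S, Dt x b = Dt y b
  iseqv := ⟨fun _ _ _ => rfl, fun h b hb => (h b hb).symm,
    fun h h' b hb => (h b hb).trans (h' b hb)⟩

/-! ### means -/

theorem ex_add (f g : Ω → ℝ) : ex (fun x => f x + g x) = ex f + ex g := by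
  simp only [ex, sum_add_distrib, add_div]

theorem ex_sub (f g : Ω → ℝ) : ex (fun x => f x - g x) = ex f - ex g := by
  simp only [ex, sum_sub_distrib, sub_div]

theorem ex_neg (f : Ω → ℝ) : ex (fun x => -f x) = -ex f := by
  simp only [ex, sum_neg_distrib, neg_div]

theorem ex_mul (c : ℝ) (f : Ω → ℝ) : ex (fun x => c * f x) = c * ex f := by
  simp only [ex, ← mul_sum, mul_div_assoc]

theorem ex_mul' (c : ℝ) (f : Ω → ℝ) : ex (fun x => f x * c) = ex f * c := by
  simp only [ex, ← sum_mul]; ring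

theorem ex_div (c : ℝ) (f : Ω → ℝ) : ex (fun x => f x / c) = ex f / c := by
  simp only [div_eq_mul_inv, ex_mul']

theorem ex_sum {ι : Type*} (s : Finset ι) (f : ι → Ω → ℝ) :
    ex (fun x => ∑ i ∈ s, f i x) = ∑ i ∈ s, ex (f i) := by
  simp only [ex]
  rw [sum_comm, sum_div]

theorem ex_mono {f g : Ω → ℝ} (h : ∀ x, f x ≤ g x) : ex f ≤ ex g :=
  div_le_div_of_nonneg_right (sum_le_sum fun x _ => h x) (Nat.cast_nonneg _)

theorem ex_nonneg {f : Ω → ℝ} (h : ∀ x, 0 ≤ f x) : 0 ≤ ex f :=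
  div_nonneg (sum_nonneg fun x _ => h x) (Nat.cast_nonneg _)

theorem ex_congr {f g : Ω → ℝ} (h : ∀ x, f x = g x) : ex f = ex g := by
  rw [funext h]

theorem ex_zero : ex (fun _ : Ω => (0 : ℝ)) = 0 := by simp [ex]

theorem card_pos' [Nonempty Ω] : (0 : ℝ) < Fintype.card Ω := by
  exact_mod_cast Fintype.card_pos

theorem ex_const [Nonempty Ω] (c : ℝ) : ex (fun _ : Ω => c) = c := by
  have := card_pos' (Ω := Ω)
  simp only [ex, sum_const, card_univ, nsmul_eq_mul]
  field_simp

theorem ex_le {f : Ω → ℝ} {c : ℝ} (hc : 0 ≤ c) (h : ∀ x, f x ≤ c) : ex f ≤ c := by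
  cases isEmpty_or_nonempty Ω with
  | inl _ => simpa [ex] using hc
  | inr _ => exact (ex_mono h).trans (ex_const c).le

theorem abs_ex_le (f : Ω → ℝ) : |ex f| ≤ ex fun x => |f x| := by
  rw [ex, ex, abs_div, Nat.abs_cast]
  exact div_le_div_of_nonneg_right (abs_sum_le_sum_abs _ _) (Nat.cast_nonneg _)

theorem ex_comm {Ω' : Type} [Fintype Ω'] (f : Ω → Ω' → ℝ) :
    ex (fun x => ex fun y => f x y) = ex fun y => ex fun x => f x y := by
  simp only [ex, ← sum_div]
  rw [sum_comm, div_div, div_div, mul_comm]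

theorem ex_prod {Ω' : Type} [Fintype Ω'] (f : Ω × Ω' → ℝ) :
    ex f = ex fun x => ex fun y => f (x, y) := by
  simp only [ex, ← sum_div, Fintype.sum_prod_type, Fintype.card_prod, Nat.cast_mul]
  rw [div_div, mul_comm]

theorem ex_equiv {Ω' : Type} [Fintype Ω'] (e : Ω ≃ Ω') (f : Ω' → ℝ) :
    ex (fun x => f (e x)) = ex f := by
  rw [ex, ex, Equiv.sum_comp e f, Fintype.card_congr e]

/-- Cauchy-Schwarz -/
theorem ex_mul_sq_le (f g : Ω → ℝ) :
    ex (fun x => f x * g x) ^ 2 ≤ ex (fun x => f x ^ 2) * ex fun x => g x ^ 2 := by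
  simp only [ex]
  rw [div_pow, div_mul_div_comm, ← sq]
  exact div_le_div_of_nonneg_right (sum_mul_sq_le_sq_mul_sq _ _ _) (by positivity)

theorem abs_ex_mul_le (f g : Ω → ℝ) :
    |ex fun x => f x * g x| ≤ √(ex fun x => f x ^ 2) * √(ex fun x => g x ^ 2) := by
  rw [← Real.sqrt_mul (ex_nonneg fun x => sq_nonneg _)]
  exact Real.abs_le_sqrt (ex_mul_sq_le f g)

/-- the form without square roots -/
theorem two_ex_mul_le (f g : Ω → ℝ) {t : ℝ} (ht : 0 < t) :
    2 * |ex fun x => f x * g x| ≤ t * ex (fun x => f x ^ 2) + ex (fun x => g x ^ 2) / t := by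
  rw [← ex_mul, ← ex_div, ← ex_add]
  refine le_trans (mul_le_mul_of_nonneg_left (abs_ex_le _) (by norm_num)) ?_
  rw [← ex_mul]
  refine ex_mono fun x => ?_
  have h : 0 ≤ (t * |f x| - |g x|) ^ 2 / t := by positivity
  have e : (t * |f x| - |g x|) ^ 2 / t = t * |f x| ^ 2 + |g x| ^ 2 / t - 2 * (|f x| * |g x|) := by
    field_simp; ring
  rw [e, sq_abs, sq_abs] at h
  rw [abs_mul]
  linarith

/-! ### classes -/

theorem mem_cls {D : Setoid Ω} {x y : Ω} : y ∈ cls D x ↔ D x y := by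
  simp [cls]

theorem self_mem_cls (D : Setoid Ω) (x : Ω) : x ∈ cls D x := mem_cls.2 (D.refl' x)

theorem cls_eq {D : Setoid Ω} {x y : Ω} (h : D x y) : cls D x = cls D y := by
  ext z
  simp only [mem_cls]
  exact ⟨fun h' => D.trans' (D.symm' h) h', fun h' => D.trans' h h'⟩

theorem cls_pos (D : Setoid Ω) (x : Ω) : (0 : ℝ) < (cls D x).card := by
  exact_mod_cast card_pos.2 ⟨x, self_mem_cls D x⟩

theorem cls_mono {D D' : Setoid Ω} (h : D' ≤ D) (x : Ω) : cls D' x ⊆ cls D x :=
  fun _ hy => mem_cls.2 (h (mem_cls.1 hy))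

theorem cls_le (D : Setoid Ω) (x : Ω) : ((cls D x).card : ℝ) ≤ Fintype.card Ω := by
  exact_mod_cast card_le_univ _

omit [Fintype Ω] in
theorem inf_iff {D L : Setoid Ω} {x y : Ω} : (D ⊓ L) x y ↔ D x y ∧ L x y := Setoid.inf_iff_and

omit [Fintype Ω] in
theorem Ms.mono {β : Type*} {D D' : Setoid Ω} {u : Ω → β} (hu : Ms D u) (h : D' ≤ D) :
    Ms D' u := fun x y hxy => hu x y (h hxy)

omit [Fintype Ω] in
theorem Ms.comp {β γ : Type*} {D : Setoid Ω} {u : Ω → β} (hu : Ms D u) (φ : β → γ) :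
    Ms D fun x => φ (u x) := fun x y h => congrArg φ (hu x y h)

omit [Fintype Ω] in
theorem Ms.comp₂ {β β' γ : Type*} {D : Setoid Ω} {u : Ω → β} {v : Ω → β'} (hu : Ms D u)
    (hv : Ms D v) (φ : β → β' → γ) : Ms D fun x => φ (u x) (v x) := fun x y h =>
  congrArg₂ φ (hu x y h) (hv x y h)

omit [Fintype Ω] in
theorem ms_const {β : Type*} (D : Setoid Ω) (c : β) : Ms D fun _ => c := fun _ _ _ => rfl

omit [Fintype Ω] in
theorem ms_ker {β : Type*} (u : Ω → β) : Ms (Setoid.ker u) u := fun _ _ h => h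

theorem ms_cls (D : Setoid Ω) : Ms D (cls D) := fun _ _ h => cls_eq h

/-- double counting over related pairs -/
theorem sum_cls_comm (D : Setoid Ω) (φ : Ω → Ω → ℝ) :
    ∑ x, ∑ y ∈ cls D x, φ x y = ∑ y, ∑ x ∈ cls D y, φ x y := by
  refine sum_comm' fun x y => ?_
  simp only [mem_univ, mem_cls, true_and, and_true]
  exact ⟨fun h => D.symm' h, fun h => D.symm' h⟩

/-! ### conditional means -/

theorem ms_ce (D : Setoid Ω) (g : Ω → ℝ) : Ms D (ce D g) := fun x y h => by
  simp only [ce, cls_eq h]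

theorem ce_add (D : Setoid Ω) (f g : Ω → ℝ) (x : Ω) :
    ce D (fun y => f y + g y) x = ce D f x + ce D g x := by
  simp only [ce, sum_add_distrib, add_div]

theorem ce_sub (D : Setoid Ω) (f g : Ω → ℝ) (x : Ω) :
    ce D (fun y => f y - g y) x = ce D f x - ce D g x := by
  simp only [ce, sum_sub_distrib, sub_div]

theorem ce_smul (D : Setoid Ω) (c : ℝ) (f : Ω → ℝ) (x : Ω) :
    ce D (fun y => c * f y) x = c * ce D f x := by
  simp only [ce, ← mul_sum, mul_div_assoc]

theorem ce_sum {ι : Type*} (D : Setoid Ω) (s : Finset ι) (f : ι → Ω → ℝ) (x : Ω) :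
    ce D (fun y => ∑ i ∈ s, f i y) x = ∑ i ∈ s, ce D (f i) x := by
  simp only [ce]
  rw [sum_comm, sum_div]

theorem ce_const (D : Setoid Ω) (c : ℝ) (x : Ω) : ce D (fun _ => c) x = c := by
  have := cls_pos D x
  simp only [ce, sum_const, nsmul_eq_mul]
  field_simp

theorem ce_congr {D : Setoid Ω} {f g : Ω → ℝ} {x : Ω} (h : ∀ y, D x y → f y = g y) :
    ce D f x = ce D g x := by
  simp only [ce]
  rw [sum_congr rfl fun y hy => h y (mem_cls.1 hy)]

theorem ce_mono {D : Setoid Ω} {f g : Ω → ℝ} {x : Ω} (h : ∀ y, D x y → f y ≤ g y) :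
    ce D f x ≤ ce D g x :=
  div_le_div_of_nonneg_right (sum_le_sum fun y hy => h y (mem_cls.1 hy)) (Nat.cast_nonneg _)

theorem ce_nonneg {D : Setoid Ω} {f : Ω → ℝ} (h : ∀ y, 0 ≤ f y) (x : Ω) : 0 ≤ ce D f x :=
  div_nonneg (sum_nonneg fun y _ => h y) (Nat.cast_nonneg _)

theorem ce_le {D : Setoid Ω} {f : Ω → ℝ} {c : ℝ} (h : ∀ y, f y ≤ c) (x : Ω) : ce D f x ≤ c :=
  (ce_mono fun y _ => h y).trans (ce_const D c x).le

theorem abs_ce_le_ce (D : Setoid Ω) (f : Ω → ℝ) (x : Ω) :
    |ce D f x| ≤ ce D (fun y => |f y|) x := by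
  rw [ce, ce, abs_div, Nat.abs_cast]
  exact div_le_div_of_nonneg_right (abs_sum_le_sum_abs _ _) (Nat.cast_nonneg _)

theorem abs_ce_le {D : Setoid Ω} {f : Ω → ℝ} {c : ℝ} (h : ∀ y, |f y| ≤ c) (x : Ω) :
    |ce D f x| ≤ c := (abs_ce_le_ce D f x).trans (ce_le h x)

theorem ce_of_ms {D : Setoid Ω} {u : Ω → ℝ} (hu : Ms D u) (x : Ω) : ce D u x = u x :=
  (ce_congr fun y h => (hu x y h).symm).trans (ce_const D (u x) x)

theorem ce_mul {D : Setoid Ω} {u : Ω → ℝ} (hu : Ms D u) (g : Ω → ℝ) (x : Ω) :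
    ce D (fun y => u y * g y) x = u x * ce D g x := by
  rw [← ce_smul]
  exact ce_congr fun y h => by rw [hu x y h]

theorem ex_ce (D : Setoid Ω) (g : Ω → ℝ) : ex (ce D g) = ex g := by
  simp only [ex, ce, sum_div]
  simp only [← sum_div _ _ (Fintype.card Ω : ℝ)]
  rw [sum_cls_comm]
  congr 1
  refine sum_congr rfl fun y _ => ?_
  rw [sum_congr rfl fun x hx => by rw [← cls_eq (mem_cls.1 hx)], sum_const, nsmul_eq_mul]
  have := cls_pos D y
  field_simp

theorem ex_mul_ce {D : Setoid Ω} {u : Ω → ℝ} (hu : Ms D u) (g : Ω → ℝ) :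
    ex (fun x => u x * ce D g x) = ex fun x => u x * g x := by
  rw [← ex_ce D fun x => u x * g x]
  exact ex_congr fun x => (ce_mul hu g x).symm

theorem ex_ce_mul (D : Setoid Ω) (f g : Ω → ℝ) :
    ex (fun x => ce D f x * g x) = ex fun x => f x * ce D g x := by
  rw [← ex_mul_ce (ms_ce D f) g, ← ex_congr fun x => mul_comm (ce D g x) (f x),
    ← ex_mul_ce (ms_ce D g) f]
  exact ex_congr fun x => mul_comm _ _

open Classical in
/-- a function known from D that has the right correlations is the conditional mean -/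
theorem ce_unique {D : Setoid Ω} {g m : Ω → ℝ} (hm : Ms D m)
    (h : ∀ u : Ω → ℝ, Ms D u → ex (fun x => u x * m x) = ex fun x => u x * g x) (x : Ω) :
    ce D g x = m x := by
  have : Nonempty Ω := ⟨x⟩
  have h1 := h (fun y => if y ∈ cls D x then 1 else 0) fun y z hyz => by
    simp only [mem_cls]
    exact if_congr ⟨fun h' => D.trans' h' hyz, fun h' => D.trans' h' (D.symm' hyz)⟩ rfl rfl
  simp only [ex, ite_mul, one_mul, zero_mul, sum_ite_mem, univ_inter] at h1
  rw [div_left_inj' card_pos'.ne'] at h1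
  rw [← ce_of_ms hm x, ce, ce, h1]

/-- tower rule -/
theorem ce_ce {D D' : Setoid Ω} (h : D' ≤ D) (g : Ω → ℝ) (x : Ω) :
    ce D (ce D' g) x = ce D g x :=
  ce_unique (ms_ce D g) (fun _ hu => by rw [ex_mul_ce hu, ex_mul_ce (hu.mono h)]) x

theorem ce_ce' {D D' : Setoid Ω} (h : D' ≤ D) (g : Ω → ℝ) (x : Ω) :
    ce D' (ce D g) x = ce D g x := ce_of_ms ((ms_ce D g).mono h) x

/-! ### energy -/

theorem en_nonneg (D : Setoid Ω) (f : Ω → ℝ) : 0 ≤ en D f := ex_nonneg fun _ => sq_nonneg _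

theorem en_eq (D : Setoid Ω) (f : Ω → ℝ) : en D f = ex fun x => ce D f x * f x := by
  rw [en, ← ex_mul_ce (ms_ce D f) f]
  exact ex_congr fun x => sq _

/-- Pythagoras -/
theorem en_sub {D D' : Setoid Ω} (h : D' ≤ D) (f : Ω → ℝ) :
    en D' f - en D f = ex fun x => (ce D' f x - ce D f x) ^ 2 := by
  have h1 : ex (fun x => ce D f x * ce D' f x) = en D f := by
    rw [ex_mul_ce ((ms_ce D f).mono h), en_eq]
  have h2 : ex (fun x => (ce D' f x - ce D f x) ^ 2) =
      en D' f - 2 * ex (fun x => ce D f x * ce D' f x) + en D f := by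
    rw [en, en, ← ex_mul, ← ex_sub, ← ex_add]
    exact ex_congr fun x => by ring
  rw [h2, h1]; ring

theorem en_mono {D D' : Setoid Ω} (h : D' ≤ D) (f : Ω → ℝ) : en D f ≤ en D' f := by
  have := en_sub h f
  have h2 : 0 ≤ ex fun x => (ce D' f x - ce D f x) ^ 2 := ex_nonneg fun _ => sq_nonneg _
  linarith

omit [Fintype Ω] in
theorem ms_bot {β : Type*} (u : Ω → β) : Ms ⊥ u := fun x y h => by
  rw [Setoid.bot_def] at h; rw [h]

theorem en_le (D : Setoid Ω) (f : Ω → ℝ) : en D f ≤ ex fun x => f x ^ 2 := by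
  refine (en_mono (bot_le : ⊥ ≤ D) f).trans (le_of_eq (ex_congr fun x => ?_))
  rw [ce_of_ms (ms_bot f)]

/-- correlation of f with a function that is known from D' and has conditional mean zero on D -/
theorem ex_mul_incr {D D' : Setoid Ω} (f g : Ω → ℝ) (hg : Ms D' g)
    (h0 : ∀ x, ce D g x = 0) :
    ex (fun x => f x * g x) = ex fun x => (ce D' f x - ce D f x) * g x := by
  have h1 : ex (fun x => ce D' f x * g x) = ex fun x => f x * g x := by
    rw [ex_ce_mul]
    exact ex_congr fun x => by rw [ce_of_ms hg]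
  have h2 : ex (fun x => ce D f x * g x) = 0 := by
    rw [ex_ce_mul, ← ex_zero (Ω := Ω)]
    exact ex_congr fun x => by rw [h0, mul_zero]
  rw [← h1, ← sub_zero (ex fun x => ce D' f x * g x), ← h2, ← ex_sub]
  exact ex_congr fun x => by ring

/-! ### entropy -/

theorem Hh_nonneg (D : Setoid Ω) : 0 ≤ Hh D := ex_nonneg fun x =>
  sub_nonneg.2 (Real.log_le_log (cls_pos D x) (cls_le D x))

theorem Hh_mono {D D' : Setoid Ω} (h : D' ≤ D) : Hh D ≤ Hh D' := ex_mono fun x =>
  sub_le_sub_left (Real.log_le_log (cls_pos D' x)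
    (by exact_mod_cast card_le_card (cls_mono h x))) _

theorem Hh_top : Hh (⊤ : Setoid Ω) = 0 := by
  rw [← ex_zero (Ω := Ω)]
  refine ex_congr fun x => ?_
  have : cls (⊤ : Setoid Ω) x = univ := eq_univ_of_forall fun y => mem_cls.2 trivial
  rw [this, card_univ, sub_self]

theorem cH_eq (L D : Setoid Ω) :
    cH L D = ex fun x => Real.log (cls D x).card - Real.log (cls (D ⊓ L) x).card := by
  rw [cH, Hh, Hh, ← ex_sub]
  exact ex_congr fun x => by ring

theorem cH_nonneg (L D : Setoid Ω) : 0 ≤ cH L D := sub_nonneg.2 (Hh_mono inf_le_left)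

theorem cH_top (L : Setoid Ω) : cH L ⊤ = Hh L := by rw [cH, top_inf_eq, Hh_top, sub_zero]

theorem cH_of_le {L D : Setoid Ω} (h : D ≤ L) : cH L D = 0 := by
  rw [cH, inf_eq_left.2 h, sub_self]

/-- chain rule -/
theorem cH_inf (L L' D : Setoid Ω) : cH (L ⊓ L') D = cH L D + cH L' (D ⊓ L) := by
  simp only [cH, inf_assoc]; ring

theorem cH_mono_left {L L' : Setoid Ω} (h : L' ≤ L) (D : Setoid Ω) : cH L D ≤ cH L' D :=
  sub_le_sub_right (Hh_mono (inf_le_inf_left D h)) _

theorem MI_comm (L D : Setoid Ω) : MI L D = MI D L := by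
  simp only [MI, cH, inf_comm]; ring

theorem MI_le (L D : Setoid Ω) : MI L D ≤ Hh L := sub_le_self _ (cH_nonneg L D)

open Classical in
/-- the change of measure behind all the inequalities -/
theorem key {D D' L : Setoid Ω} (h : D' ≤ D) (ψ : Ω → Ω → ℝ) (h0 : ∀ x y, 0 ≤ ψ x y)
    (h1 : ∀ y, Ms D' fun x => ψ x y) (h2 : ∀ x, Ms (D ⊓ L) (ψ x)) :
    ex (fun x => ψ x x * ((cls (D ⊓ L) x).card * (cls D' x).card /
      ((cls D x).card * (cls (D' ⊓ L) x).card))) ≤ ex fun x => ce D (ψ x) x := by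
  rw [← ex_ce D']
  refine ex_mono fun x => ?_
  have e1 : ∀ z, D' x z → ψ z z * ((cls (D ⊓ L) z).card * (cls D' z).card /
      ((cls D z).card * (cls (D' ⊓ L) z).card) : ℝ) = (cls D' x).card * ∑ y ∈ cls D x,
        ψ x y / (cls D x).card * (if L y z then 1 / ((cls (D' ⊓ L) z).card : ℝ) else 0) := by
    intro z hz
    have e2 : ∑ y ∈ cls D x, ψ x y / (cls D x).card *
        (if L y z then 1 / ((cls (D' ⊓ L) z).card : ℝ) else 0) =
        ∑ _y ∈ cls (D ⊓ L) z, ψ z z / (cls D x).card * (1 / (cls (D' ⊓ L) z).card) := by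
      simp only [mul_ite, mul_zero]
      rw [← sum_filter]
      refine sum_congr ?_ fun y hy => ?_
      · ext y
        simp only [mem_filter, mem_cls]
        exact ⟨fun ⟨a, b⟩ => ⟨D.trans' (D.symm' (h hz)) a, L.symm' b⟩,
          fun ⟨a, b⟩ => ⟨D.trans' (h hz) a, L.symm' b⟩⟩
      · rw [h2 z z y (mem_cls.1 hy), show ψ x y = ψ z y from h1 y x z hz]
    rw [e2, sum_const, nsmul_eq_mul, ← cls_eq hz, ← cls_eq (h hz)]
    have := cls_pos D x
    have := cls_pos (D' ⊓ L) z
    field_simp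
  rw [ce_congr e1, ce_smul, ce, ce, sum_comm, ← mul_div_assoc,
    mul_div_cancel_left₀ _ (cls_pos D' x).ne', sum_div]
  refine sum_le_sum fun y _ => ?_
  rw [← mul_sum, ← sum_filter]
  refine mul_le_of_le_one_right (div_nonneg (h0 x y) (Nat.cast_nonneg _)) ?_
  rcases ((cls D' x).filter fun z => L y z).eq_empty_or_nonempty with he | ⟨z0, hz0⟩
  · rw [he, sum_empty]; exact zero_le_one
  · obtain ⟨a, b⟩ := mem_filter.1 hz0
    have e3 : ((cls D' x).filter fun z => L y z) = cls (D' ⊓ L) z0 := by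
      ext z
      simp only [mem_filter, mem_cls] at a ⊢
      exact ⟨fun ⟨c, d⟩ => ⟨D'.trans' (D'.symm' a) c, L.trans' (L.symm' b) d⟩,
        fun ⟨c, d⟩ => ⟨D'.trans' a c, L.trans' b d⟩⟩
    rw [e3, sum_congr rfl fun z hz => by rw [← cls_eq (mem_cls.1 hz)], sum_const, nsmul_eq_mul,
      mul_one_div, div_self (cls_pos _ _).ne']

/-- Gibbs inequality with a test function -/
theorem gibbs {D D' L : Setoid Ω} (h : D' ≤ D) (φ : Ω → Ω → ℝ)
    (h1 : ∀ y, Ms D' fun x => φ x y) (h2 : ∀ x, Ms (D ⊓ L) (φ x)) :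
    ex (fun x => φ x x) ≤ cH L D - cH L D' +
      ex fun x => ce D (fun y => Real.exp (φ x y)) x - 1 := by
  have hk := key h (fun x y => Real.exp (φ x y)) (fun _ _ => (Real.exp_pos _).le)
    (fun y => (h1 y).comp Real.exp) fun x => (h2 x).comp Real.exp
  rw [ex_sub, cH_eq, cH_eq, ← ex_sub]
  refine le_trans ?_ (add_le_add_right (sub_le_sub_right hk _) _)
  rw [← ex_sub, ← ex_add]
  refine ex_mono fun x => ?_
  have a := cls_pos D x
  have b := cls_pos D' x
  have c := cls_pos (D ⊓ L) x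
  have d := cls_pos (D' ⊓ L) x
  have := Real.log_le_sub_one_of_pos (x := Real.exp (φ x x) * ((cls (D ⊓ L) x).card *
    (cls D' x).card / ((cls D x).card * (cls (D' ⊓ L) x).card))) (by positivity)
  rw [Real.log_mul (Real.exp_pos _).ne' (by positivity), Real.log_exp,
    Real.log_div (by positivity) (by positivity), Real.log_mul c.ne' b.ne',
    Real.log_mul a.ne' d.ne'] at this
  linarith

/-- conditioning reduces entropy -/
theorem cH_anti {D D' : Setoid Ω} (h : D' ≤ D) (L : Setoid Ω) : cH L D' ≤ cH L D := by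
  have := gibbs (L := L) h (fun _ _ => 0) (fun _ => ms_const _ _) fun _ => ms_const _ _
  simp only [Real.exp_zero, ce_const, sub_self, ex_zero] at this
  linarith

theorem cH_le_Hh (L D : Setoid Ω) : cH L D ≤ Hh L := (cH_anti le_top L).trans (cH_top L).le

theorem MI_nonneg (L D : Setoid Ω) : 0 ≤ MI L D := sub_nonneg.2 (cH_le_Hh L D)

theorem MI_mono_right {D D' : Setoid Ω} (h : D' ≤ D) (L : Setoid Ω) : MI L D ≤ MI L D' :=
  sub_le_sub_left (cH_anti h L) _

theorem MI_mono_left {L L' : Setoid Ω} (h : L' ≤ L) (D : Setoid Ω) : MI L D ≤ MI L' D := by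
  rw [MI_comm L, MI_comm L']; exact MI_mono_right h D

theorem Hh_inf_le (D L : Setoid Ω) : Hh (D ⊓ L) ≤ Hh D + Hh L := by
  have := cH_le_Hh L D
  rw [cH] at this
  linarith

/-- more data raises the mutual information by at most its entropy -/
theorem MI_inf_le (L D T : Setoid Ω) : MI L (D ⊓ T) ≤ MI L D + Hh T := by
  rw [MI_comm L, MI_comm L, MI, MI]
  have := Hh_inf_le D T
  have := cH_mono_left (inf_le_left : D ⊓ T ≤ D) L
  linarith

theorem exp_le_quad {t : ℝ} (h : |t| ≤ 1) : Real.exp t ≤ 1 + t + t ^ 2 := by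
  have := (abs_le.1 (Real.abs_exp_sub_one_sub_id_le h)).2
  linarith

/-- DV -/
theorem dv {D D' L : Setoid Ω} (h : D' ≤ D) {u g : Ω → ℝ} {a b θ : ℝ} (hu : Ms D' u)
    (hg : Ms (D ⊓ L) g) (ha : ∀ x, |u x| ≤ a) (hb : ∀ x, |g x| ≤ b) (hθ : 0 < θ)
    (h1 : θ * a * (2 * b) ≤ 1) :
    ex (fun x => u x * (g x - ce D g x)) ≤ (cH L D - cH L D') / θ + 4 * θ * a ^ 2 * b ^ 2 := by
  have hG := gibbs (L := L) h (fun x y => θ * (u x * (g y - ce D g y)))
    (fun y => hu.comp fun t => θ * (t * (g y - ce D g y)))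
    fun x => hg.comp₂ ((ms_ce D g).mono inf_le_left) fun s t => θ * (u x * (s - t))
  have h2 : ex (fun x => ce D (fun y => Real.exp (θ * (u x * (g y - ce D g y)))) x - 1) ≤
      θ * (4 * θ * a ^ 2 * b ^ 2) := by
    refine ex_le (by positivity) fun x => ?_
    have a0 : 0 ≤ a := (abs_nonneg _).trans (ha x)
    have b0 : 0 ≤ b := (abs_nonneg _).trans (hb x)
    have h3 : ∀ y, Real.exp (θ * (u x * (g y - ce D g y))) ≤
        1 + θ * (4 * θ * a ^ 2 * b ^ 2) + θ * u x * (g y - ce D g y) := by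
      intro y
      have h4 : |θ * (u x * (g y - ce D g y))| ≤ θ * a * (2 * b) := by
        rw [abs_mul, abs_mul, abs_of_pos hθ, mul_assoc]
        refine mul_le_mul_of_nonneg_left (mul_le_mul (ha x) ?_ (abs_nonneg _) a0) hθ.le
        have := abs_sub (g y) (ce D g y)
        have := hb y
        have := abs_ce_le (D := D) hb y
        linarith
      have h5 := exp_le_quad (h4.trans h1)
      have h6 := pow_le_pow_left₀ (abs_nonneg _) h4 2
      rw [sq_abs] at h6
      nlinarith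
    have h7 := ce_mono (D := D) (x := x) fun y _ => h3 y
    rw [ce_add, ce_const, ce_smul, ce_sub, ce_ce' le_rfl, sub_self, mul_zero] at h7
    linarith
  rw [ex_mul] at hG
  rw [div_add' _ _ _ hθ.ne', le_div_iff₀ hθ]
  linarith

/-- the absolute form of DV against the trivial information: a variable g of L with |g| ≤ b -/
theorem dv_abs [Nonempty Ω] {U L : Setoid Ω} {g : Ω → ℝ} {b θ : ℝ} (hg : Ms L g)
    (hb : ∀ x, |g x| ≤ b) (hθ : 0 < θ) (h1 : θ * (2 * b) ≤ 1) :
    ex (fun x => |ce U g x - ex g|) ≤ MI L U / θ + 4 * θ * b ^ 2 := by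
  have e : ∀ x, ce ⊤ g x = ex g := fun x => by
    have : cls (⊤ : Setoid Ω) x = univ := eq_univ_of_forall fun y => mem_cls.2 trivial
    rw [ce, this, card_univ, ex]
  have hu : Ms U fun x => (SignType.sign (ce U g x - ex g) : ℝ) :=
    (ms_ce U g).comp fun t => (SignType.sign (t - ex g) : ℝ)
  have := dv (D := ⊤) (L := L) (a := 1) (le_top : U ≤ ⊤) hu (hg.mono inf_le_right)
    (fun x => by
      rcases lt_trichotomy (ce U g x - ex g) 0 with h | h | h
      · simp [sign_neg h]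
      · simp [h]
      · simp [sign_pos h]) hb hθ (by rwa [mul_one])
  rw [cH_top, one_pow, mul_one, ← ex_mul_ce hu] at this
  refine le_trans (le_of_eq (ex_congr fun x => ?_)) this
  simp only [e]
  rw [ce_sub, ce_const, sign_mul_self]

open Classical in
/-- the entropy of a variable with values in a finite set -/
theorem Hh_le_log {β : Type*} {L : Setoid Ω} (f : Ω → β) (T : Finset β) (hT : ∀ x, f x ∈ T)
    (hL : ∀ x y, f x = f y → L x y) : Hh L ≤ Real.log T.card := by
  cases isEmpty_or_nonempty Ω with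
  | inl _ => simpa [Hh, ex] using Real.log_natCast_nonneg _
  | inr hne =>
  have hΩ := card_pos' (Ω := Ω)
  have hT0 : (0 : ℝ) < T.card := by
    exact_mod_cast card_pos.2 ⟨_, hT (Classical.choice hne)⟩
  refine (Hh_mono (D' := Setoid.ker f) fun {x y} h => hL x y h).trans ?_
  have h1 : ∑ x, 1 / ((cls (Setoid.ker f) x).card : ℝ) ≤ T.card := by
    rw [← sum_fiberwise_of_maps_to (s := univ) (t := T) (g := f) fun x _ => hT x, card_eq_sum_ones,
      Nat.cast_sum]
    refine sum_le_sum fun v _ => ?_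
    rcases (univ.filter fun x => f x = v).eq_empty_or_nonempty with he | ⟨z, hz⟩
    · rw [he]; simp
    · have e3 : (univ.filter fun x => f x = v) = cls (Setoid.ker f) z := by
        ext y
        simp only [mem_filter, mem_univ, true_and, mem_cls, Setoid.ker_def] at hz ⊢
        rw [hz, eq_comm]
      rw [e3, sum_congr rfl fun y hy => by rw [← cls_eq (mem_cls.1 hy)], sum_const, nsmul_eq_mul,
        mul_one_div, div_self (cls_pos _ _).ne', Nat.cast_one]
  have h2 : Hh (Setoid.ker f) ≤ ex fun x => Real.log T.card - 1 +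
      (Fintype.card Ω / T.card) * (1 / ((cls (Setoid.ker f) x).card : ℝ)) := by
    refine ex_mono fun x => ?_
    have a := cls_pos (Setoid.ker f) x
    have := Real.log_le_sub_one_of_pos
      (x := (Fintype.card Ω / T.card) * (1 / ((cls (Setoid.ker f) x).card : ℝ))) (by positivity)
    rw [Real.log_mul (by positivity) (by positivity), Real.log_div hΩ.ne' hT0.ne', one_div,
      Real.log_inv] at this
    rw [one_div]
    linarith
  rw [ex_add, ex_const, ex_mul, ex] at h2
  have h3 : (Fintype.card Ω / T.card : ℝ) *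
      ((∑ x, 1 / ((cls (Setoid.ker f) x).card : ℝ)) / Fintype.card Ω) ≤ 1 := by
    rw [div_mul_div_comm, mul_comm (T.card : ℝ), mul_div_mul_left _ _ hΩ.ne', div_le_one hT0]
    exact h1
  linarith

/-! ### data on sites -/

section sites

variable {σ A : Type*} (Dt : Ω → σ → A)

omit [Fintype Ω] in
theorem sig_iff {S : Finset σ} {x y : Ω} : sig Dt S x y ↔ ∀ b ∈ S, Dt x b = Dt y b := Iff.rfl

omit [Fintype Ω] in
theorem sig_anti {S T : Finset σ} (h : S ⊆ T) : sig Dt T ≤ sig Dt S :=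
  fun _ _ hxy b hb => hxy b (h hb)

omit [Fintype Ω] in
theorem sig_union [DecidableEq σ] (S T : Finset σ) : sig Dt (S ∪ T) = sig Dt S ⊓ sig Dt T := by
  ext x y
  rw [inf_iff]
  simp only [sig_iff, mem_union]
  exact ⟨fun h => ⟨fun b hb => h b (Or.inl hb), fun b hb => h b (Or.inr hb)⟩,
    fun h b hb => hb.elim (h.1 b) (h.2 b)⟩

omit [Fintype Ω] in
theorem sig_empty : sig Dt ∅ = ⊤ := by
  ext x y
  simp [sig_iff]

omit [Fintype Ω] in
theorem ms_sig {S : Finset σ} {b : σ} (hb : b ∈ S) : Ms (sig Dt S) fun x => Dt x b :=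
  fun _ _ h => h b hb

theorem Hh_sig [Fintype A] (S : Finset σ) :
    Hh (sig Dt S) ≤ S.card * Real.log (Fintype.card A) := by
  classical
  have := Hh_le_log (L := sig Dt S) (fun x (b : S) => Dt x b) univ (fun _ => mem_univ _)
    fun x y h b hb => congrFun h ⟨b, hb⟩
  rwa [card_univ, Fintype.card_fun, Fintype.card_coe, Nat.cast_pow, Real.log_pow] at this

theorem cH_sig [Fintype A] (S : Finset σ) (D : Setoid Ω) :
    cH (sig Dt S) D ≤ S.card * Real.log (Fintype.card A) :=
  (cH_le_Hh _ D).trans (Hh_sig Dt S)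

end sites

end Pool.Agent.P.MP_a14ce1_nt.Fu
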