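import Pool.Agent.P.MP_a14ce1_nt.Fu.Pot
import Pool.Agent.P.MP_a14ce1_nt.Fu.Info

/-! Section 7 without the model: statements. -/

open Finset
open scoped ComplexConjugate

namespace Pool.Agent.P.MP_a14ce1_nt.Fu

/-- the ceiling of n / c -/
def bs (c n : ℕ) : ℕ := (n + c - 1) / c

/-- the sites b < N with c ∣ n + b -/
def cel (N c n : ℕ) : Finset ℕ := (range N).filter fun b => c ∣ n + b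

/-- the data of section 7 -/
structure D7 (ι : Type) (Z : ℕ) where
  N : ℕ
  HH : Setoid (Fin Z)
  CC : Finset ι
  cv : ι → ℕ
  wh : ι → ℝ
  Yc : ι → ℕ
  P : ι → Finset ℕ
  th : ι → ℕ → ℝ
  F : Fin Z → ℕ → ℝ
  w : ℕ → ℝ
  f : ℕ → ℝ

variable {ι : Type} {Z : ℕ}

/-- the free form, with absolute values on the cells -/
noncomputable def D7.free (d : D7 ι Z) (r : ℕ) : ℝ := ex fun n : Fin Z => ∑ c ∈ d.CC, d.wh c *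
  |∑ p ∈ d.P c, d.th c p / p *
    ∑ a ∈ (cel d.N (d.cv c) n).filter (fun a => a + r * (d.cv c * p) < d.N),
      ∏ i ∈ range (r + 1), d.F n (a + i * (d.cv c * p))|

/-- the hypotheses of the first half; E stands for exp (Om ^ C) -/
structure D7.Hyp (d : D7 ι Z) (r L : ℕ) (δ Om wb τ ℓ η E : ℝ) : Prop where
  Z0 : 0 < Z
  om : 2 ≤ Om
  wb0 : 0 ≤ wb
  wb1 : wb ≤ 1
  pos : ∀ c ∈ d.CC, 0 ≤ d.wh c ∧ 0 < d.cv c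
  mass : ∑ c ∈ d.CC, d.wh c / d.cv c ≤ 1
  len : ∀ c ∈ d.CC, d.cv c * d.Yc c ≤ d.N ∧ d.N ≤ L * (d.cv c * d.Yc c)
  lg : ∀ c ∈ d.CC, 1 ≤ ℓ * Real.log (d.Yc c)
  l0 : 0 < ℓ
  big : ∀ c ∈ d.CC, E ≤ d.Yc c
  tau : τ * E ≤ 1
  sub : ∀ c ∈ d.CC, d.P c ⊆ V.dy (d.Yc c)
  th1 : ∀ c ∈ d.CC, ∀ p, |d.th c p| ≤ 1
  w0 : ∀ m, 0 ≤ d.w m
  w1 : ∀ m, d.w m ≤ Om
  Fw : ∀ c ∈ d.CC, ∀ (n : Fin Z) (b m : ℕ), b < d.N → n + b = d.cv c * m → |d.F n b| ≤ d.w m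
  msF : ∀ b, b < d.N → Ms d.HH fun n => d.F n b
  msc : ∀ c ∈ d.CC, Ms d.HH fun n : Fin Z => (n : ℕ) % d.cv c
  ind : ∀ c ∈ d.CC, ∀ S ⊆ range (d.N / d.cv c + 1), S.card ≤ 2 ^ (r + 1) →
    |(ex fun n : Fin Z => ∏ m ∈ S, d.w (bs (d.cv c) n + m)) - wb ^ S.card| ≤ τ
  t2 : ∀ u : Fin Z → ι → ℕ → ℝ, Ms d.HH u → (∀ n c b, |u n c b| ≤ 1) →
    (ex fun n : Fin Z => ∑ c ∈ d.CC, d.wh c * ∑ b ∈ cel d.N (d.cv c) n, d.F n b * u n c b) ≤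
      Om * (ex fun n : Fin Z => ∑ c ∈ d.CC, d.wh c *
        |∑ b ∈ cel d.N (d.cv c) n, d.f ((n + b) / d.cv c) * u n c b|) + η * d.N
  fr : δ * ℓ * d.N ≤ d.free r

/-- first half of section 7: f correlates with atoms on the cells -/
def S_Sec7a : Prop := ∀ (r L : ℕ) (δ : ℝ), 0 < δ → ∃ (A : Set (ℤ → ℂ)) (c2 : ℝ) (C : ℕ),
  Ax.Good A ∧ 0 < c2 ∧ c2 ≤ 1 ∧ ∀ (ι : Type) (Z : ℕ) (d : D7 ι Z) (Om wb τ ℓ : ℝ),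
    d.Hyp r L δ Om wb τ ℓ c2 (Real.exp (Om ^ C)) →
    ∃ a : ℕ → ι → ℕ → ℂ, (∀ n c, a n c ∈ Ax.res A) ∧
      c2 / Om * (Z * d.N) ≤ ∑ n ∈ range Z, ∑ c ∈ d.CC, d.wh c *
        (∑ b ∈ cel d.N (d.cv c) n, Ax.pc (fun m => (d.f m : ℂ)) (a n c) ((n + b) / d.cv c)).re

/-- section 7 -/
def S_Sec7 : Prop := ∀ (r L : ℕ) (δ : ℝ), 0 < δ → ∃ (A : Set (ℤ → ℂ)) (c2 : ℝ) (C : ℕ),
  Ax.Good A ∧ 0 < c2 ∧ c2 ≤ 1 ∧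
  ∀ (ι : Type) (Z : ℕ) (d : D7 ι Z) (Om wb τ ℓ K cm M Y : ℝ),
    d.Hyp r L δ Om wb τ ℓ c2 (Real.exp (Om ^ C)) → (∀ n, |d.f n| ≤ 1) →
    (∀ c ∈ d.CC, (d.cv c : ℝ) ≤ cm) →
    (∀ u : ℝ, ∑ c ∈ d.CC.filter (fun c => u ≤ Real.log (d.cv c) ∧ Real.log (d.cv c) ≤ u + 1),
      d.wh c / d.cv c ≤ K / M) →
    1 ≤ K → 1 ≤ M → 1 ≤ cm → d.N ≤ Z → 16 * Real.exp M ≤ c2 / Om * Y →
    16 * Y * cm ≤ c2 / Om * Z → 2 * Z ≤ Y * Real.exp M → 64 * Real.exp M * cm ≤ c2 / Om * d.N →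
    Pot (Ax.hull (Ax.res A)) (fun n => (d.f n : ℂ)) Y M ((c2 / Om / K) ^ 2 / 128)

end Pool.Agent.P.MP_a14ce1_nt.Fu
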