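import Pool.Agent.P.MP_a14ce1_nt.Fu.TestN
import Pool.Agent.P.MP_a14ce1_nt.Fu.S7St
import Pool.Agent.P.MP_a14ce1_nt.Fu.Stage

/-!
The two applications of TEST, without the model.
-/

open Finset

namespace Pool.Agent.P.MP_a14ce1_nt.Fu

open Ch (mu pv)
open Ch.Main (Tn)

/-- the mean of the hidden weights along a progression -/
noncomputable def bet (TT : Finset ℕ) (κ : Finset ℕ → ℝ) (k d : ℕ) : ℝ :=
  avN (pv TT) fun m => ∏ i ∈ range k, κ (Tn TT (m + i * d))

theorem bet_nonneg {TT : Finset ℕ} {κ : Finset ℕ → ℝ} (h : ∀ S ⊆ TT, 0 ≤ κ S) (k d : ℕ) :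
    0 ≤ bet TT κ k d := by
  rw [bet, ← ex_avN]
  exact ex_nonneg fun m => prod_nonneg fun i _ => h _ (Ch.Main.Tn_sub _ _)

theorem abs_bet_sub {TT : Finset ℕ} (hT : ∀ q ∈ TT, q.Prime) {κ : Finset ℕ → ℝ} {Om M N : ℝ}
    (h0 : ∀ S ⊆ TT, 0 ≤ κ S) (h1 : ∀ S ⊆ TT, κ S ≤ Om) (hM0 : 0 < M) (hM : ∀ q ∈ TT, M ≤ q)
    {k d : ℕ} (hd : 0 < d) (hN1 : 1 ≤ N) (hN : ∀ i < k, ((i * d : ℕ) : ℝ) ≤ N) :
    |bet TT κ k d - EM TT κ ^ k| ≤ Om ^ k * tauI k N M := by
  have := ind_plain (σ := Fin k) TT hT hM0 hM (fun i => i * d)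
    (fun i j e => Fin.ext (Nat.eq_of_mul_eq_mul_right hd e)) hN1
    (fun i j => (hN i i.2).trans (le_add_of_nonneg_left (Nat.cast_nonneg _)))
    (Ch.Main.pv_pos hT) dvd_rfl (fun _ => κ) (fun _ => Om) (fun _ => h0) fun _ => h1
  simp only [prod_const, card_univ, Fintype.card_fin] at this
  rw [bet]
  simp only [← Fin.prod_univ_eq_prod_range fun i => κ (Tn TT (_ + i * d))]
  exact this

theorem avN_free {TT : Finset ℕ} (hT : ∀ q ∈ TT, q.Prime) {κ : Finset ℕ → ℝ} {p : ℕ}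
    (hp : p ∈ TT) (hκ : ∀ S, κ (S.erase p) = κ S) (k d a : ℕ) :
    avN (pv TT) (fun m => ind (p ∈ Tn TT (m + a)) * ∏ i ∈ range k, κ (Tn TT (m + (a + i * d)))) =
      bet TT κ k d / p := by
  have hP := Ch.Main.pv_pos hT
  have p0 := (hT p hp).pos
  have e : p * pv (TT.erase p) = pv TT := mul_prod_erase TT (fun q => q) hp
  have hc : p.Coprime (pv (TT.erase p)) := Nat.Coprime.prod_right fun q hq =>
    (Nat.coprime_primes (hT p hp) (hT q (mem_of_mem_erase hq))).2 (ne_of_mem_erase hq).symm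
  have h1 : Per (pv (TT.erase p)) fun m => ∏ i ∈ range k, κ (Tn TT (m + i * d)) := fun x y h =>
    prod_congr rfl fun i _ => by
      have := congrFun (per_Tn (TT.erase p) x y h) (i * d)
      simp only [Tn, filter_erase] at this
      rw [← hκ, ← hκ (Tn TT (y + i * d))]
      exact congrArg κ this
  have h2 : Per p fun m => ind (p ∣ m) := fun x y h => ind_congr (h.dvd_iff dvd_rfl)
  have h3 := ex_per_shift hP dvd_rfl ((h2.of_dvd (Dvd.intro _ e)).comp₂
    (h1.of_dvd (Dvd.intro_left _ e)) fun s t => s * t) a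
  rw [ex_per_mul hP hc (by rw [e]) h2 h1, ex_per_eq hP p0 (Dvd.intro _ e) dvd_rfl h2] at h3
  have h4 : ex (fun x : Fin p => ind (p ∣ x)) = 1 / p := by
    rw [ex, Fintype.card_fin, sum_eq_single (⟨0, p0⟩ : Fin p), ind_pos (dvd_zero p)]
    · exact fun b _ hb => ind_neg fun h => hb (Fin.ext (Nat.eq_zero_of_dvd_of_lt h b.2))
    · exact fun h => absurd (mem_univ _) h
  rw [h4, ex_avN _ fun m => ∏ i ∈ range k, κ (Tn TT (m + i * d))] at h3
  rw [← ex_avN, bet, div_eq_inv_mul, ← one_div, ← h3]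
  refine ex_congr fun m => ?_
  simp only [Tn, mem_filter, hp, true_and, add_assoc]

variable {Ω : Type} [Fintype Ω] [Nonempty Ω] {ι : Type}

/-- the first test: the prime p is freed -/
theorem test1 (TT RR : Finset ℕ) (hT : ∀ q ∈ TT, q.Prime) (hR : RR ⊆ TT) (Φ H : Setoid Ω)
    (n : Ω → ℕ) (hfr : Fr Φ n (pv TT)) (N r : ℕ) (CC : Finset ι) (cv : ι → ℕ) (wh : ι → ℝ)
    (P : ι → Finset ℕ) (sg : ι → ℕ → ℝ) (F : Ω → ℕ → ℝ) (κ : ℕ → Finset ℕ → ℝ)
    {O1 O2 Wt μ θ : ℝ} (hw : ∀ c ∈ CC, 0 ≤ wh c) (hW : ∑ c ∈ CC, wh c ≤ Wt)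
    (hP : ∀ c ∈ CC, P c ⊆ RR) (hc : ∀ c ∈ CC, ∀ p ∈ P c, (cv c).Coprime p)
    (hsg : ∀ c ∈ CC, ∀ p ∈ P c, |sg c p| ≤ 1) (hF : ∀ x b, |F x b| ≤ O1)
    (hκ : ∀ p ∈ RR, ∀ S ⊆ TT, |κ p S| ≤ O2) (hO2 : 0 ≤ O2)
    (hκ1 : ∀ p ∈ RR, ∀ S, κ p (S.erase p) = κ p S)
    (hκ2 : ∀ p ∈ RR, ∀ q ∈ RR, ∀ S ⊆ TT, q ∈ S → κ p S ≠ 0 → q = p)
    (msF : ∀ b < N, Ms H fun x => F x b) (msc : ∀ c ∈ CC, Ms H fun x => n x % cv c)
    (hμ : ∀ q ∈ TT, (N : ℝ) / q + 1 ≤ μ) (h0 : 0 < θ)
    (hθ : θ * (4 * μ * ((r + 1) * Wt * (O1 * O2) ^ (r + 1))) ≤ 1) :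
    |(ex fun x => ∑ c ∈ CC, wh c * ∑ p ∈ P c, sg c p *
        ∑ a ∈ (cel N (cv c * p) (n x)).filter (fun a => a + r * (cv c * p) < N),
          ∏ i ∈ range (r + 1),
            F x (a + i * (cv c * p)) * κ p (Tn TT (n x + (a + i * (cv c * p))))) -
      ex fun x => ∑ c ∈ CC, wh c * ∑ p ∈ P c, sg c p * bet TT (κ p) (r + 1) (cv c * p) / p *
        ∑ a ∈ (cel N (cv c) (n x)).filter (fun a => a + r * (cv c * p) < N),
          ∏ i ∈ range (r + 1), F x (a + i * (cv c * p))| ≤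
      cH H Φ / θ + θ * (TT.card * (4 * μ * ((r + 1) * Wt * (O1 * O2) ^ (r + 1))) ^ 2) := by
  classical
  have hO1 : 0 ≤ O1 := (abs_nonneg _).trans (hF (Classical.arbitrary _) 0)
  have hW0 : 0 ≤ Wt := (sum_nonneg hw).trans hW
  let T : Finset (Σ _ : ι, Σ _ : ℕ, ℕ) := CC.sigma fun c => (P c).sigma fun p =>
    (range N).filter fun a => a + r * (cv c * p) < N
  let S : (Σ _ : ι, Σ _ : ℕ, ℕ) → Finset ℕ := fun t =>
    (range (r + 1)).image fun i => t.2.2 + i * (cv t.1 * t.2.1)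
  let Ψ : Ω → (Σ _ : ι, Σ _ : ℕ, ℕ) → (ℕ → Finset ℕ) → ℝ := fun x t A =>
    (wh t.1 * sg t.1 t.2.1 * ind (cv t.1 ∣ n x + t.2.2) *
      ∏ i ∈ range (r + 1), F x (t.2.2 + i * (cv t.1 * t.2.1))) *
      (ind (t.2.1 ∈ A t.2.2) * ∏ i ∈ range (r + 1), κ t.2.1 (A (t.2.2 + i * (cv t.1 * t.2.1))))
  have hT' : ∀ t ∈ T, t.1 ∈ CC ∧ t.2.1 ∈ P t.1 ∧ t.2.2 + r * (cv t.1 * t.2.1) < N := fun t ht => by
    simp only [T, mem_sigma, mem_filter] at ht
    exact ⟨ht.1, ht.2.1, ht.2.2.2⟩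
  have hlt : ∀ t ∈ T, ∀ i ∈ range (r + 1), t.2.2 + i * (cv t.1 * t.2.1) < N := fun t ht i hi =>
    lt_of_le_of_lt (Nat.add_le_add_left (Nat.mul_le_mul_right _
      (Nat.lt_succ_iff.1 (mem_range.1 hi))) _) (hT' t ht).2.2
  have hkey := test_nat TT hT Φ H n hfr N T S Ψ (L := (r + 1) * Wt * (O1 * O2) ^ (r + 1))
    (by positivity)
    (fun t ht x y h => by
      have a1 : cv t.1 ∣ n x + t.2.2 ↔ cv t.1 ∣ n y + t.2.2 :=
        (Nat.ModEq.add_right _ (msc _ (hT' t ht).1 x y h)).dvd_iff dvd_rfl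
      have a2 : ∏ i ∈ range (r + 1), F x (t.2.2 + i * (cv t.1 * t.2.1)) =
          ∏ i ∈ range (r + 1), F y (t.2.2 + i * (cv t.1 * t.2.1)) :=
        prod_congr rfl fun i hi => msF _ (hlt t ht i hi) x y h
      simp only [Ψ, a1, a2])
    (fun t ht b hb => by
      obtain ⟨i, hi, rfl⟩ := mem_image.1 hb
      exact mem_range.2 (hlt t ht i hi))
    (fun x t _ A B h => by
      have a1 : A t.2.2 = B t.2.2 := h _ (mem_image.2 ⟨0, mem_range.2 r.succ_pos, by simp⟩)
      have a2 : ∏ i ∈ range (r + 1), κ t.2.1 (A (t.2.2 + i * (cv t.1 * t.2.1))) =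
          ∏ i ∈ range (r + 1), κ t.2.1 (B (t.2.2 + i * (cv t.1 * t.2.1))) :=
        prod_congr rfl fun i hi => by rw [h _ (mem_image_of_mem _ hi)]
      simp only [Ψ, a1, a2])
    (fun x m b _ => by
      let g : ℕ → ℝ := fun p => ind (p ∈ Tn TT (m + b) ∧ κ p (Tn TT (m + b)) ≠ 0)
      have g1 : ∑ p ∈ RR, g p ≤ 1 := by
        simp only [g, ind_eq, sum_boole]
        refine Nat.cast_le_one.2 (card_le_one.2 fun p hp q hq => ?_)
        rw [mem_filter] at hp hq
        exact hκ2 q hq.1 p hp.1 _ (Ch.Main.Tn_sub _ _) hp.2.1 hq.2.2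
      have a1 : ∀ t ∈ T, (if b ∈ S t then |Ψ x t fun b => Tn TT (m + b)| else 0) ≤
          ∑ i ∈ range (r + 1), (if t.2.2 + i * (cv t.1 * t.2.1) = b then 1 else 0) *
            (wh t.1 * g t.2.1 * (O1 * O2) ^ (r + 1)) := by
        intro t ht
        obtain ⟨t1, t2, _⟩ := hT' t ht
        have w0 := hw _ t1
        have hn : ∀ i ∈ range (r + 1), 0 ≤ (if t.2.2 + i * (cv t.1 * t.2.1) = b then 1 else 0) *
            (wh t.1 * g t.2.1 * (O1 * O2) ^ (r + 1)) := fun i _ =>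
          mul_nonneg (by split_ifs <;> norm_num)
            (mul_nonneg (mul_nonneg w0 (ind_nonneg _)) (by positivity))
        split_ifs with hb
        swap
        · exact sum_nonneg hn
        obtain ⟨i, hi, e⟩ := mem_image.1 hb
        refine le_trans ?_ (single_le_sum hn hi)
        rw [if_pos e, one_mul]
        have b1 : |∏ i ∈ range (r + 1), F x (t.2.2 + i * (cv t.1 * t.2.1))| ≤ O1 ^ (r + 1) := by
          rw [abs_prod]
          refine (prod_le_prod (fun _ _ => abs_nonneg _) fun i _ => hF x _).trans ?_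
          rw [prod_const, card_range]
        have b2 : |ind (t.2.1 ∈ Tn TT (m + t.2.2)) * ∏ i ∈ range (r + 1),
            κ t.2.1 (Tn TT (m + (t.2.2 + i * (cv t.1 * t.2.1))))| ≤ g t.2.1 * O2 ^ (r + 1) := by
          by_cases c1 : t.2.1 ∈ Tn TT (m + t.2.2)
          swap
          · rw [ind_neg c1, zero_mul, abs_zero]
            exact mul_nonneg (ind_nonneg _) (by positivity)
          by_cases c2 : κ t.2.1 (Tn TT (m + b)) = 0
          · rw [prod_eq_zero hi (by rw [e, c2]), mul_zero, abs_zero]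
            exact mul_nonneg (ind_nonneg _) (by positivity)
          have c3 : t.2.1 ∈ Tn TT (m + b) := by
            rw [Tn, mem_filter] at c1 ⊢
            refine ⟨c1.1, ?_⟩
            rw [← e, ← add_assoc]
            exact dvd_add c1.2 (Dvd.intro_left (i * cv t.1) (by ring))
          rw [ind_pos c1, one_mul, show g t.2.1 = 1 from ind_pos ⟨c3, c2⟩, one_mul, abs_prod]
          refine (prod_le_prod (fun _ _ => abs_nonneg _) fun i _ =>
            hκ _ (hP _ t1 t2) _ (Ch.Main.Tn_sub _ _)).trans ?_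
          rw [prod_const, card_range]
        have b3 : |wh t.1 * sg t.1 t.2.1 * ind (cv t.1 ∣ n x + t.2.2)| ≤ wh t.1 := by
          rw [abs_mul, abs_mul, abs_of_nonneg w0, abs_of_nonneg (ind_nonneg _), mul_assoc]
          exact mul_le_of_le_one_right w0
            (mul_le_one₀ (hsg _ t1 _ t2) (ind_nonneg _) (ind_le_one _))
        simp only [Ψ]
        rw [abs_mul, abs_mul _ (∏ i ∈ range (r + 1), _)]
        refine (mul_le_mul (mul_le_mul b3 b1 (abs_nonneg _) w0) b2 (abs_nonneg _)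
          (by positivity)).trans (le_of_eq ?_)
        rw [mul_pow]; ring
      rw [sum_filter]
      refine (sum_le_sum a1).trans ?_
      rw [sum_comm]
      have a2 : ∀ i ∈ range (r + 1), ∑ t ∈ T,
          (if t.2.2 + i * (cv t.1 * t.2.1) = b then 1 else 0) *
            (wh t.1 * g t.2.1 * (O1 * O2) ^ (r + 1)) ≤ Wt * (O1 * O2) ^ (r + 1) := by
        intro i _
        refine le_trans ?_ (mul_le_mul_of_nonneg_right hW (by positivity))
        rw [sum_sigma, sum_mul]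
        refine sum_le_sum fun c hc => ?_
        have w0 := hw c hc
        rw [sum_sigma]
        calc _ ≤ ∑ p ∈ P c, wh c * g p * (O1 * O2) ^ (r + 1) := by
              refine sum_le_sum fun p _ => ?_
              simp only
              rw [← sum_mul]
              refine mul_le_of_le_one_left
                (mul_nonneg (mul_nonneg w0 (ind_nonneg _)) (by positivity)) ?_
              rw [sum_boole]
              refine Nat.cast_le_one.2 (card_le_one.2 fun a ha a' ha' => ?_)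
              rw [mem_filter] at ha ha'
              exact Nat.add_right_cancel (ha.2.trans ha'.2.symm)
          _ ≤ _ := by
              rw [← sum_mul, ← mul_sum]
              refine mul_le_mul_of_nonneg_right (mul_le_of_le_one_right w0 ?_) (by positivity)
              exact (sum_le_sum_of_subset_of_nonneg (hP c hc) fun _ _ _ => ind_nonneg _).trans g1
      refine (sum_le_sum a2).trans (le_of_eq ?_)
      rw [sum_const, card_range, nsmul_eq_mul]
      push_cast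
      ring)
    hμ h0 hθ
  refine le_trans (le_of_eq ?_) hkey
  congr 2
  · refine congrArg ex (funext fun x => ?_)
    rw [sum_sigma]
    refine sum_congr rfl fun c hc' => ?_
    rw [sum_sigma, mul_sum]
    refine sum_congr rfl fun p hp => ?_
    rw [cel, filter_comm, sum_filter, mul_sum, mul_sum]
    refine sum_congr rfl fun a _ => ?_
    have : cv c * p ∣ n x + a ↔ cv c ∣ n x + a ∧ p ∈ Tn TT (n x + a) := by
      rw [Tn, mem_filter]
      exact ⟨fun h => ⟨(dvd_mul_right _ _).trans h, hR (hP c hc' hp), (dvd_mul_left _ _).trans h⟩,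
        fun h => (hc c hc' p hp).mul_dvd_of_dvd_of_dvd h.1 h.2.2⟩
    simp only [Ψ, prod_mul_distrib]
    rw [← mul_boole, ← ind_eq, ind_congr this, ind_and]
    ring
  · refine congrArg ex (funext fun x => ?_)
    rw [sum_sigma]
    refine sum_congr rfl fun c hc' => ?_
    rw [sum_sigma, mul_sum]
    refine sum_congr rfl fun p hp => ?_
    rw [cel, filter_comm, sum_filter, mul_sum, mul_sum]
    refine sum_congr rfl fun a _ => ?_
    simp only [Ψ]
    rw [← ex_avN, ex_mul, ex_avN _ fun m => ind (p ∈ Tn TT (m + a)) *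
      ∏ i ∈ range (r + 1), κ p (Tn TT (m + (a + i * (cv c * p)))),
      avN_free hT (hR (hP c hc' hp)) (hκ1 p (hP c hc' hp)), ← mul_boole, ← ind_eq]
    ring

/-- the second test: the hidden weight is inserted and the predictor is replaced by the data -/
theorem test2 (TT : Finset ℕ) (hT : ∀ q ∈ TT, q.Prime) (Φ H : Setoid Ω)
    (n : Ω → ℕ) (hfr : Fr Φ n (pv TT)) (N : ℕ) (CC : Finset ι) (cv : ι → ℕ) (wh : ι → ℝ)
    (W X : Ω → ℕ → ℝ) (ζ : Finset ℕ → ℝ) (u : Ω → ι → ℕ → ℝ)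
    {O1 O2 Wt μ θ : ℝ} (hw : ∀ c ∈ CC, 0 ≤ wh c) (hW : ∑ c ∈ CC, wh c ≤ Wt)
    (hO : ∀ x b, |W x b| ≤ O1) (hX : ∀ x b, |X x b| ≤ 1) (hu : ∀ x c b, |u x c b| ≤ 1)
    (hζ0 : ∀ S ⊆ TT, 0 ≤ ζ S) (hζ : ∀ S ⊆ TT, ζ S ≤ O2) (hζ1 : EM TT ζ = 1)
    (msW : ∀ b < N, Ms H fun x => W x b) (msc : ∀ c ∈ CC, Ms H fun x => n x % cv c)
    (msu : Ms H u) (hμ : ∀ q ∈ TT, (N : ℝ) / q + 1 ≤ μ) (h0 : 0 < θ)
    (hθ : θ * (4 * μ * (Wt * O1 * O2)) ≤ 1) :
    |(ex fun x => ∑ c ∈ CC, wh c * ∑ b ∈ cel N (cv c) (n x),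
        W x b * (ζ (Tn TT (n x + b)) * X x b) * u x c b) -
      ex fun x => ∑ c ∈ CC, wh c * ∑ b ∈ cel N (cv c) (n x),
        W x b * yr H (fun z => ζ (Tn TT (n z + b))) (fun z => X z b) x * u x c b| ≤
      cH H Φ / θ + θ * (TT.card * (4 * μ * (Wt * O1 * O2)) ^ 2) := by
  classical
  have hO1 : 0 ≤ O1 := (abs_nonneg _).trans (hO (Classical.arbitrary _) 0)
  have hO2 : 0 ≤ O2 := (hζ0 ∅ (empty_subset _)).trans (hζ ∅ (empty_subset _))
  have hW0 : 0 ≤ Wt := (sum_nonneg hw).trans hW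
  have z0 : ∀ b z, 0 ≤ ζ (Tn TT (n z + b)) := fun b z => hζ0 _ (Ch.Main.Tn_sub _ _)
  let co : Ω → ℕ → ℝ := fun x b => ∑ c ∈ CC, wh c * ind (cv c ∣ n x + b) * (W x b * u x c b)
  let y : Ω → ℕ → ℝ := fun x b => yr H (fun z => ζ (Tn TT (n z + b))) (fun z => X z b) x
  have mco : ∀ b < N, Ms H fun x => co x b := fun b hb x x' h => sum_congr rfl fun c hc => by
    have a1 : cv c ∣ n x + b ↔ cv c ∣ n x' + b :=
      (Nat.ModEq.add_right _ (msc _ hc x x' h)).dvd_iff dvd_rfl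
    rw [ind_congr a1, show W x b = W x' b from msW b hb x x' h, msu x x' h]
  have bco : ∀ x b, |co x b| ≤ Wt * O1 := fun x b => by
    refine (abs_sum_le_sum_abs _ _).trans (le_trans (sum_le_sum fun c hc => ?_)
      ((sum_mul _ _ _).ge.trans (mul_le_mul_of_nonneg_right hW hO1)))
    rw [abs_mul, abs_mul, abs_mul, abs_of_nonneg (hw c hc), abs_of_nonneg (ind_nonneg _)]
    exact mul_le_mul (mul_le_of_le_one_right (hw c hc) (ind_le_one _))
      ((mul_le_of_le_one_right (abs_nonneg _) (hu x c b)).trans (hO x b)) (by positivity) (hw c hc)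
  have e : ∀ (x : Ω) (g : ℕ → ℝ), ∑ c ∈ CC, wh c * ∑ b ∈ cel N (cv c) (n x),
      W x b * g b * u x c b = ∑ b ∈ range N, co x b * g b := fun x g => by
    simp only [co, sum_mul, cel, sum_filter, mul_sum]
    rw [sum_comm]
    refine sum_congr rfl fun b _ => sum_congr rfl fun c _ => ?_
    rw [← mul_boole, ← ind_eq]
    ring
  have hkey := test_nat TT hT Φ H n hfr N (range N) (fun b => {b})
    (fun x b A => co x b * y x b * ζ (A b)) (L := Wt * O1 * O2) (by positivity)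
    (fun b hb x x' h => by
      simp only [show co x b = co x' b from mco b (mem_range.1 hb) x x' h,
        show y x b = y x' b from ms_yr _ _ _ x x' h])
    (fun b hb => singleton_subset_iff.2 hb)
    (fun x b _ A B h => by rw [h b (mem_singleton_self b)])
    (fun x m b hb => by
      have : (range N).filter (fun t => b ∈ ({t} : Finset ℕ)) = {b} := by
        ext t
        simp only [mem_filter, mem_range, mem_singleton]
        exact ⟨fun h => h.2.symm, fun h => ⟨h ▸ hb, h.symm⟩⟩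
      rw [this, sum_singleton, abs_mul, abs_mul, abs_of_nonneg (hζ0 _ (Ch.Main.Tn_sub _ _))]
      exact mul_le_mul ((mul_le_of_le_one_right (abs_nonneg _)
        (abs_yr_le H (z0 b) (fun z => hX z b) x)).trans (bco x b)) (hζ _ (Ch.Main.Tn_sub _ _))
        (hζ0 _ (Ch.Main.Tn_sub _ _)) (by positivity))
    hμ h0 hθ
  refine le_trans (le_of_eq ?_) hkey
  simp only [e]
  congr 2
  · rw [ex_sum, ex_sum]
    refine sum_congr rfl fun b hb => ?_
    have := ex_yr (D := H) (z0 b) (fun z => hX z b) (mco b (mem_range.1 hb))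
    rw [← sub_eq_zero, ← ex_sub, ← this]
    exact ex_congr fun x => by simp only [y]; ring
  · refine congrArg ex (funext fun x => sum_congr rfl fun b _ => ?_)
    have hP := Ch.Main.pv_pos hT
    have : Nonempty (Fin (pv TT)) := ⟨⟨0, hP⟩⟩
    have a := avN_site TT hT (Q := 1) (fun q _ => Nat.coprime_one_left q) hP (by simp) b
      (fun _ => ζ) fun _ => rfl
    rw [← ex_avN _ fun _ => EM TT ζ, ex_const, hζ1] at a
    rw [← ex_avN, ex_mul, ex_avN _ fun m => ζ (Tn TT (m + b)), a, mul_one]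

end Pool.Agent.P.MP_a14ce1_nt.Fu
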