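import Pool.Agent.P.MP_a14ce1_nt.Fu.StB
import Pool.Agent.P.MP_a14ce1_nt.Fu.Sec6

/-!
Section 6 on the model.
-/

open Finset

namespace Pool.Agent.P.MP_a14ce1_nt.Fu.St

open Ch (pv mu rs lam)
open Ch.Main (Tn)

namespace T1

variable {F : Fam} {P : Par}

/-- the small cofactors -/
noncomputable def CC (F : Fam) (P : Par) : Finset (Finset ℕ) :=
  F.Lo.powerset.filter fun c => (pv c : ℝ) ≤ 2 * Real.exp P.Lp

/-- the primes of the window -/
noncomputable def PP (F : Fam) (c : Finset ℕ) : Finset ℕ := F.RR.filter fun p => F.win (pv c * p)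

/-- the hidden weight -/
noncomputable def kk (F : Fam) (p : ℕ) (S : Finset ℕ) : ℝ := F.ka p (S ∩ F.RR) * F.ze (S ∩ F.HH)

theorem shape (h : Hyp0 F P) (r n : ℕ) (e : Finset ℕ → ℕ → ℕ) (u : Finset ℕ → ℝ)
    (t v : Finset ℕ → ℕ → ℝ) (g : ℕ → Finset ℕ → ℕ → ℝ) (hv : ∀ c p, v c p = u c * t c p) :
    (∑ a ∈ range F.N, ∑ c ∈ F.Lo.powerset, ∑ p ∈ F.RR,
      if e c p ∣ n + a ∧ F.win (pv c * p) ∧ a + r * (pv c * p) < F.N then v c p * g a c p else 0) =
      ∑ c ∈ CC F P, u c * ∑ p ∈ PP F c, t c p *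
        ∑ a ∈ (cel F.N (e c p) n).filter (fun a => a + r * (pv c * p) < F.N), g a c p := by
  rw [sum_comm, CC, sum_filter]
  refine sum_congr rfl fun c _ => ?_
  split_ifs with hc
  · rw [sum_comm, PP, sum_filter, mul_sum]
    refine sum_congr rfl fun p _ => ?_
    by_cases hw : F.win (pv c * p)
    · rw [if_pos hw, cel, filter_filter, sum_filter, mul_sum, mul_sum]
      refine sum_congr rfl fun a _ => ?_
      simp only [hw, true_and, hv]
      split_ifs <;> ring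
    · simp [hw]
  · refine sum_eq_zero fun a _ => sum_eq_zero fun p hp => if_neg fun e => hc ?_
    exact h.pv_le_of_win (mem_union_left _ hp) e.2.1

theorem kk_nonneg (h : Hyp0 F P) (p : ℕ) (S : Finset ℕ) : 0 ≤ kk F p S :=
  mul_nonneg (h.ka_nonneg _ _) (h.ze0 _)

theorem kk_le (h : Hyp0 F P) (p : ℕ) (S : Finset ℕ) : kk F p S ≤ 2 * P.Λ :=
  mul_le_mul (h.ka_le _ _) (h.zeL _) (h.ze0 _) (by norm_num)

theorem kk_erase (h : Hyp0 F P) {p : ℕ} (hp : p ∈ F.RR) (S : Finset ℕ) :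
    kk F p (S.erase p) = kk F p S := by
  rw [kk, kk, erase_inter, erase_inter, F.ka_erase, erase_eq_of_notMem]
  exact fun e => disjoint_left.1 h.dRH hp (mem_inter.1 e).2

theorem EM_kk (h : Hyp0 F P) {p : ℕ} (hp : p ∈ F.RR) : EM (F.RR ∪ F.HH) (kk F p) = 1 := by
  rw [EM_eq]
  unfold kk
  rw [Em_mul_inter h.dRH, h.Em_ka hp, ← EG_eq, h.Eze, one_mul]

theorem W_eq (F : Fam) (p n : ℕ) :
    F.W p n = F.wk (dp F.U n) * kk F p (Tn (F.RR ∪ F.HH) n) := by
  rw [Fam.W, kk, ← dp_eq, dp_inter subset_union_left, dp_inter subset_union_right, mul_assoc]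

theorem mass (h : Hyp0 F P) {Z : ℕ} (hZ : 0 < Z) (hd : pv F.all ∣ Z) :
    ex (fun n : Fin Z => ∑ c ∈ CC F P, F.w c / (F.LL * F.N * F.Pw) * ∑ p ∈ PP F c,
      1 / (p : ℝ) * ∑ a ∈ range F.N, ind (pv c ∣ n + a)) ≤ 1 := by
  have a := h.LL0
  have b := h.N0
  have c := h.Pw0
  rw [ex_sum, ← div_self h.Pw0.ne']
  conv_rhs => enter [1]; rw [Fam.Pw]
  rw [sum_div]
  refine le_trans (sum_le_sum fun c hc => le_of_eq ?_) (sum_le_sum_of_subset_of_nonneg
    (filter_subset (fun c => (pv c : ℝ) ≤ 2 * Real.exp P.Lp) _) fun c _ _ => ?_)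
  · have hc' := mem_powerset.1 (mem_filter.1 hc).1
    rw [ex_mul, ex_sum, ← sum_filter, mul_sum, sum_div]
    refine sum_congr rfl fun p _ => ?_
    rw [ex_mul, ex_sum, sum_congr rfl fun a _ =>
      ex_ind_dvd hZ ((pv_dvd (hc'.trans F.Lo_sub)).trans hd) a, sum_const, card_range, nsmul_eq_mul]
    field_simp
  · refine div_nonneg (sum_nonneg fun p _ => ?_) h.Pw0.le
    split_ifs
    · exact div_nonneg (h.w_nonneg _) (by positivity)
    · exact le_rfl

theorem num1 {L η k : ℝ} {K : ℕ} (hL : 2 ≤ L) (hη : 1 ≤ L * η) (hk : k ≤ L) (hk0 : 0 ≤ k)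
    (hK : 2 ≤ K) : (2 * L) ^ K * (2 * k ^ 3 / L ^ (20 * K)) * L ^ K ≤ η := by
  have L0 : 0 < L := by linarith
  have a1 : (2 * L) ^ K ≤ L ^ (2 * K) := by
    rw [pow_mul]; exact pow_le_pow_left₀ (by linarith) (by nlinarith) _
  have a2 : 2 * k ^ 3 ≤ L ^ 4 := by
    have := pow_le_pow_left₀ hk0 hk 3
    have : 0 ≤ L ^ 3 := by positivity
    nlinarith
  have a3 : L ^ (2 * K) * L ^ 4 * L ^ K * L ≤ L ^ (20 * K) := by
    rw [← pow_add, ← pow_add, ← pow_succ]
    exact pow_le_pow_right₀ (by linarith) (by omega)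
  rw [← mul_div_assoc, div_mul_eq_mul_div, div_le_iff₀ (by positivity)]
  have a4 : (2 * L) ^ K * (2 * k ^ 3) * L ^ K ≤ L ^ (2 * K) * L ^ 4 * L ^ K := by gcongr
  have η0 : 0 ≤ η := by
    by_contra hc
    nlinarith
  calc _ ≤ L ^ (2 * K) * L ^ 4 * L ^ K * (L * η) :=
        a4.trans (le_mul_of_one_le_right (by positivity) hη)
    _ = η * (L ^ (2 * K) * L ^ 4 * L ^ K * L) := by ring
    _ ≤ _ := mul_le_mul_of_nonneg_left a3 η0

theorem num2 {L l k : ℝ} {K : ℕ} (hL : 2 ≤ L) (hk : k ≤ L) (hk0 : 0 ≤ k) (hl : 0 ≤ l)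
    (hK : 2 ≤ K) : 4 * (5 * k * Real.exp l) * (k * (2 * Real.exp l * (L ^ 2 * l)) *
      (L * (2 * L)) ^ K) ≤ L ^ (8 * K) * Real.exp (3 * l) := by
  have L0 : 0 < L := by linarith
  have a1 : (L * (2 * L)) ^ K ≤ L ^ (3 * K) := by
    rw [pow_mul]
    exact pow_le_pow_left₀ (by positivity) (by nlinarith [mul_pos L0 L0]) _
  have a2 : (40 : ℝ) ≤ L ^ 6 := le_trans (by norm_num) (pow_le_pow_left₀ (by norm_num) hL 6)
  have a3 : l ≤ Real.exp l := by linarith [Real.add_one_le_exp l]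
  have a4 : L ^ 6 * L * L * L ^ 2 * L ^ (3 * K) ≤ L ^ (8 * K) := by
    rw [← pow_succ, ← pow_succ, ← pow_add, ← pow_add]
    exact pow_le_pow_right₀ (by linarith) (by omega)
  have e : Real.exp (3 * l) = Real.exp l * Real.exp l * Real.exp l := by
    rw [← Real.exp_add, ← Real.exp_add]; congr 1; ring
  calc _ = 40 * k * k * L ^ 2 * (L * (2 * L)) ^ K * (Real.exp l * Real.exp l * l) := by ring
    _ ≤ L ^ 6 * L * L * L ^ 2 * L ^ (3 * K) * (Real.exp l * Real.exp l * Real.exp l) := by gcongr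
    _ ≤ _ := by rw [e]; gcongr

end T1

open T1 in
theorem s_test1 : S_TEST1 := by
  intro k
  refine ⟨20, fun F P hk H A _ dt Z C0 s y hD hs hy my => ?_⟩
  have h := H.toHyp0
  obtain ⟨r, hr⟩ : ∃ r, F.k = r + 1 := ⟨F.k - 1, by have := h.k2; omega⟩
  have hr' : F.k - 1 = r := by omega
  have hrR : (r : ℝ) + 1 = F.k := by rw [hr]; push_cast; ring
  have : Nonempty (Fin Z) := ⟨⟨0, hD.Z0⟩⟩
  have L2 := h.L2
  have L0 : 0 < P.Λ := by linarith
  have N0 := h.N0
  have LL0 := h.LL0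
  have Pw0 := h.Pw0
  have η0 := h.η0
  have l0 : 0 ≤ P.Lp := by linarith [h.Lp1]
  have hle := glue_le_ker (fun n : Fin Z => (n : ℕ) % F.Qk0) (fun n b => dt (n + b)) C0
  set E : ℝ := P.Λ ^ (8 * F.k) * Real.exp (3 * P.Lp) with hE
  have E1 : 1 ≤ E := one_le_mul_of_one_le_of_one_le (one_le_pow₀ (by linarith))
    (Real.one_le_exp (by linarith))
  set Wt : ℝ := 2 * Real.exp P.Lp * (P.Λ ^ 2 * P.Lp) / F.N with hWt
  set sz : ℝ := 4 * (5 * F.k * Real.exp P.Lp) *
    ((r + 1) * Wt * (P.Λ * (2 * P.Λ)) ^ (r + 1)) with hsz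
  have sz0 : 0 ≤ sz := by positivity
  have sz1 : sz ≤ E / F.N := by
    rw [le_div_iff₀ N0]
    refine le_trans (le_of_eq ?_) (num2 L2 h.Lk (Nat.cast_nonneg _) l0 h.k2)
    rw [hsz, hWt, hrR, ← hr]
    field_simp
  let G : Fin Z → ℕ → ℝ := fun x b => F.wk (dp F.U (x + b)) * y x b
  have G1 : ∀ x b, |G x b| ≤ P.Λ := fun x b => by
    rw [abs_mul, abs_of_nonneg (h.wk0 _)]
    exact (mul_le_of_le_one_right (h.wk0 _) (hy x b)).trans (h.wkL _)
  have hCC : ∀ c ∈ CC F P, c ⊆ F.Lo := fun c hc => mem_powerset.1 (mem_filter.1 hc).1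
  have w0 : ∀ c, 0 ≤ F.w c / (F.LL * F.N * F.Pw) := fun c =>
    div_nonneg (h.w_nonneg c) (by positivity)
  have key := test1 (F.RR ∪ F.HH) F.RR h.prRH subset_union_left
    (Setoid.ker fun n : Fin Z => (n : ℕ) % F.Qk0) (gl Z F.Qk0 dt C0) (fun n => n)
    (fr_fin h.cop0 (h.pv_all0 ▸ hD.per) (r := fun n => n % F.Qk0) fun _ _ e => e)
    F.N r (CC F P) pv (fun c => F.w c / (F.LL * F.N * F.Pw)) (PP F) (fun c p => s (pv c * p))
    G (kk F) (O1 := P.Λ) (O2 := 2 * P.Λ) (Wt := Wt) (μ := 5 * F.k * Real.exp P.Lp)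
    (θ := F.N * P.η / E ^ 2) (fun c _ => w0 c)
    (by
      rw [← sum_div, hWt, div_le_div_iff₀ (by positivity) N0]
      have a1 := h.sum_w_le (x := 2 * Real.exp P.Lp) (by positivity) (filter_subset _ _)
        fun c hc => (mem_filter.1 hc).2
      have a2 := h.inv_LP
      rw [div_le_iff₀ h.LP0] at a2
      calc _ ≤ 2 * Real.exp P.Lp * F.N * 1 := by
            rw [mul_one]; exact mul_le_mul_of_nonneg_right a1 N0.le
        _ ≤ 2 * Real.exp P.Lp * F.N * (P.Λ ^ 2 * P.Lp * (F.LL * F.Pw)) := by gcongr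
        _ = _ := by ring)
    (fun c _ => filter_subset _ _)
    (fun c hc p hp => h.cop_cp (hCC c hc) (F.RR_sub (mem_filter.1 hp).1))
    (fun c _ p _ => hs _) G1
    (fun p _ S _ => by rw [abs_of_nonneg (kk_nonneg h p S)]; exact kk_le h p S)
    (by positivity) (fun p hp S => kk_erase h hp S)
    (fun p _ q hq S _ hS e => F.ka_ne (left_ne_zero_of_mul e) (mem_inter.2 ⟨hS, hq⟩))
    (fun b _ x x' e => by
      have a1 := per_dp (T := F.U) (Q := F.Qk0) (pv_dvd subset_union_right) b x x' (hle e)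
      simp only at a1
      simp only [G, a1, show y x b = y x' b from my b x x' e])
    (fun c hc x x' e => Nat.ModEq.of_dvd (pv_dvd ((hCC c hc).trans subset_union_left)) (hle e))
    (fun q hq => h.div_le_mu hq) (by positivity)
    (by
      rw [← hsz]
      calc _ ≤ F.N * P.η / E ^ 2 * (E / F.N) := by gcongr
        _ = P.η / E := by field_simp
        _ ≤ 1 := by rw [div_le_one (by linarith)]; linarith [h.η1])
  rw [← hsz] at key
  have k1 : cH (gl Z F.Qk0 dt C0) (Setoid.ker fun n : Fin Z => (n : ℕ) % F.Qk0) /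
      (F.N * P.η / E ^ 2) ≤ P.η := by
    have a1 := cH_glue (fun n : Fin Z => (n : ℕ) % F.Qk0) (fun n b => dt (n + b)) C0
    have a2 := hD.sz
    rw [size, div_le_iff₀ N0] at a2
    have σ0 := h.σin0
    have a3 := a1.trans (mul_le_mul a2 hD.alph (Real.log_natCast_nonneg _) (by positivity))
    have a4 : P.Λ ^ 3 * E ^ 2 ≤ P.Λ ^ (20 * F.k) * Real.exp ((20 : ℕ) * P.Lp) := by
      rw [hE, mul_pow, ← pow_mul, ← mul_assoc, ← pow_add, ← Real.exp_nat_mul]
      refine mul_le_mul (pow_le_pow_right₀ (by linarith) (by have := h.k2; omega))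
        (Real.exp_le_exp.2 (by push_cast; linarith)) (Real.exp_pos _).le (by positivity)
    have a5 : P.Λ ^ 3 * E ^ 2 * P.σin ≤ 1 := (mul_le_mul_of_nonneg_right a4 σ0).trans H.test
    have a6 : 1 ≤ (P.Λ * P.η) ^ 2 := one_le_pow₀ h.Lη
    rw [div_le_iff₀ (by positivity), ← mul_div_assoc, le_div_iff₀ (by positivity)]
    refine (mul_le_mul_of_nonneg_right a3 (by positivity)).trans ?_
    calc _ ≤ P.σin * F.N * P.Λ * E ^ 2 * (P.Λ * P.η) ^ 2 :=
          le_mul_of_one_le_right (by positivity) a6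
      _ = P.Λ ^ 3 * E ^ 2 * P.σin * (P.η * (F.N * P.η)) := by ring
      _ ≤ _ := mul_le_of_le_one_left (by positivity) a5
  have k2 : F.N * P.η / E ^ 2 * ((F.RR ∪ F.HH).card * sz ^ 2) ≤ P.η := by
    calc _ ≤ F.N * P.η / E ^ 2 * (F.N * (E / F.N) ^ 2) := by
          have := h.card_RH
          gcongr
      _ = _ := by field_simp
  have e1 : F.Tf Z s (fun _ => y) = ex fun x : Fin Z => ∑ c ∈ CC F P,
      F.w c / (F.LL * F.N * F.Pw) * ∑ p ∈ PP F c, s (pv c * p) *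
        ∑ a ∈ (cel F.N (pv c * p) x).filter (fun a => a + r * (pv c * p) < F.N),
          ∏ i ∈ range (r + 1), G x (a + i * (pv c * p)) *
            kk F p (Tn (F.RR ∪ F.HH) (x + (a + i * (pv c * p)))) := by
    refine ex_congr fun x => ?_
    rw [hr', shape h r x (fun c p => pv c * p) _ _ _ _ fun _ _ => rfl, hr]
    simp only [W_eq, G, mul_right_comm]
  have e2 : F.Tfree Z s y = ex fun x : Fin Z => ∑ c ∈ CC F P,
      F.w c / (F.LL * F.N * F.Pw) * ∑ p ∈ PP F c, s (pv c * p) / p *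
        ∑ a ∈ (cel F.N (pv c) x).filter (fun a => a + r * (pv c * p) < F.N),
          ∏ i ∈ range (r + 1), G x (a + i * (pv c * p)) := by
    refine ex_congr fun x => ?_
    rw [hr', shape h r x (fun c _ => pv c) (fun c => F.w c / (F.LL * F.N * F.Pw))
      (fun c p => s (pv c * p) / p) _ _ fun _ _ => by ring, hr]
  set τ : ℝ := (2 * P.Λ) ^ F.k * (2 * (F.k : ℝ) ^ 3 / P.Λ ^ (20 * F.k)) with hτ
  have k3 : |(ex fun x : Fin Z => ∑ c ∈ CC F P, F.w c / (F.LL * F.N * F.Pw) * ∑ p ∈ PP F c,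
      s (pv c * p) * bet (F.RR ∪ F.HH) (kk F p) (r + 1) (pv c * p) / p *
        ∑ a ∈ (cel F.N (pv c) x).filter (fun a => a + r * (pv c * p) < F.N),
          ∏ i ∈ range (r + 1), G x (a + i * (pv c * p))) - F.Tfree Z s y| ≤ P.η := by
    refine le_trans ?_ (num1 L2 h.Lη h.Lk (Nat.cast_nonneg _) h.k2)
    rw [← hτ, e2, ← ex_sub]
    refine (abs_ex_le _).trans (le_trans ?_
      (mul_le_of_le_one_right (by positivity) (mass h hD.Z0 hD.per)))
    rw [← ex_mul]
    refine ex_mono fun x => ?_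
    rw [← sum_sub_distrib, mul_sum]
    refine (abs_sum_le_sum_abs _ _).trans (sum_le_sum fun c hc => ?_)
    rw [← mul_sub, abs_mul, abs_of_nonneg (w0 c), mul_left_comm, ← sum_sub_distrib, mul_sum]
    refine mul_le_mul_of_nonneg_left
      ((abs_sum_le_sum_abs _ _).trans (sum_le_sum fun p hp => ?_)) (w0 c)
    obtain ⟨hp1, hp2⟩ := mem_filter.1 hp
    have b1 : |bet (F.RR ∪ F.HH) (kk F p) (r + 1) (pv c * p) - 1| ≤ τ := by
      have := abs_bet_sub h.prRH (fun S _ => kk_nonneg h p S) (fun S _ => kk_le h p S)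
        (h.Ms0 H.ind) (fun q hq => h.TMs q (F.RH_sub hq)) (k := r + 1)
        (Nat.mul_pos (h.pv_pos (hCC c hc)) (h.prR p hp1).pos) (N := F.N)
        (by exact_mod_cast h.N0') fun i hi => by
          have a1 := h.win_le hp2
          have a2 : (i : ℝ) ≤ F.k := by exact_mod_cast (hr ▸ hi).le
          rw [Nat.cast_mul]
          nlinarith [h.Nlo, h.D20, Nat.cast_nonneg (α := ℝ) i]
      rw [EM_kk h hp1, one_pow, ← hr] at this
      rw [← hr]
      exact this.trans (mul_le_mul_of_nonneg_left (h.tauI_le H.ind _) (by positivity))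
    have b2 : |∑ a ∈ (cel F.N (pv c) x).filter (fun a => a + r * (pv c * p) < F.N),
        ∏ i ∈ range (r + 1), G x (a + i * (pv c * p))| ≤
        P.Λ ^ F.k * ∑ a ∈ range F.N, ind (pv c ∣ x + a) := by
      refine (abs_sum_le_sum_abs _ _).trans ((sum_le_sum_of_subset_of_nonneg (filter_subset _ _)
        fun _ _ _ => abs_nonneg _).trans ?_)
      rw [cel, sum_filter, mul_sum]
      refine sum_le_sum fun a _ => ?_
      split_ifs with hd
      · rw [ind_pos hd, mul_one, abs_prod, hr]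
        refine (prod_le_prod (fun _ _ => abs_nonneg _) fun i _ => G1 x _).trans ?_
        rw [prod_const, card_range]
      · rw [ind_neg hd, mul_zero]
    have b3 : |s (pv c * p) * bet (F.RR ∪ F.HH) (kk F p) (r + 1) (pv c * p) / p -
        s (pv c * p) / p| ≤ τ * (1 / p) := by
      rw [← sub_div, ← mul_sub_one, abs_div, abs_mul, Nat.abs_cast, mul_one_div]
      exact div_le_div_of_nonneg_right
        ((mul_le_of_le_one_left (abs_nonneg _) (hs _)).trans b1) (Nat.cast_nonneg _)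
    rw [← sub_mul, abs_mul]
    refine (mul_le_mul b3 b2 (abs_nonneg _) (by positivity)).trans (le_of_eq ?_)
    ring
  rw [e1]
  have := abs_sub_le _ _ (F.Tfree Z s y) |>.trans (add_le_add key k3)
  push_cast
  linarith

end Pool.Agent.P.MP_a14ce1_nt.Fu.St
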