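import Pool.Agent.P.MP_a14ce1_nt.Fu.Iter
import Pool.Agent.P.MP_a14ce1_nt.IV.All
import Pool.Agent.P.MP_e30989_nt.W.All

/-!
The last step: a local gain on an interval of logarithmic length comparable with the logarithm of
its position contradicts the absence of local correlations of the Liouville function.
-/

open Finset Filter
open scoped ComplexConjugate

namespace Pool.Agent.P.MP_a14ce1_nt.Fu

open IV (Gr gn Hull Up)

namespace Fin9P

/-- a function of the members of T dividing n is a combination of divisibility conditions -/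
theorem expand (φ : ℕ → ℝ) (T : Finset ℕ) : ∀ (W : Finset ℕ → ℝ) (b : ℝ) (s : Finset ℕ),
    (∀ S, |W S| ≤ b) → ∃ e ⊆ T, |∑ n ∈ s, W (T.filter fun p => p ∣ n) * φ n| ≤
      3 ^ T.card * b * |∑ n ∈ s.filter (fun n => ∀ p ∈ e, p ∣ n), φ n| := by
  induction T using Finset.induction_on with
  | empty =>
    intro W b s hW
    refine ⟨∅, Subset.rfl, ?_⟩
    simp only [filter_empty, card_empty, pow_zero, one_mul, notMem_empty, false_imp_iff,
      implies_true, filter_true]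
    rw [← mul_sum, abs_mul]
    exact mul_le_mul_of_nonneg_right (hW _) (abs_nonneg _)
  | insert q T hq ih =>
    intro W b s hW
    have hb : 0 ≤ b := (abs_nonneg _).trans (hW ∅)
    obtain ⟨e1, a1, b1⟩ := ih W b s hW
    obtain ⟨e2, a2, b2⟩ := ih (fun S => W (insert q S) - W S) (2 * b) (s.filter fun n => q ∣ n)
      fun S => (abs_sub _ _).trans (by linarith [hW (insert q S), hW S])
    have e : ∑ n ∈ s, W ((insert q T).filter fun p => p ∣ n) * φ n =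
        ∑ n ∈ s, W (T.filter fun p => p ∣ n) * φ n + ∑ n ∈ s.filter (fun n => q ∣ n),
          (W (insert q (T.filter fun p => p ∣ n)) - W (T.filter fun p => p ∣ n)) * φ n := by
      rw [sum_filter, ← sum_add_distrib]
      refine sum_congr rfl fun n _ => ?_
      rw [filter_insert]
      split_ifs <;> ring
    have e' : (s.filter fun n => q ∣ n).filter (fun n => ∀ p ∈ e2, p ∣ n) =
        s.filter fun n => ∀ p ∈ insert q e2, p ∣ n := by
      rw [filter_filter]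
      exact filter_congr fun n _ => by simp
    rw [e'] at b2
    rw [e, card_insert_of_notMem hq, pow_succ]
    have h3 : (0 : ℝ) ≤ 3 ^ T.card * b := by positivity
    rcases le_total |∑ n ∈ s.filter (fun n => ∀ p ∈ e1, p ∣ n), φ n|
      |∑ n ∈ s.filter (fun n => ∀ p ∈ insert q e2, p ∣ n), φ n| with h | h
    · refine ⟨insert q e2, insert_subset_insert _ a2, (abs_add_le _ _).trans ?_⟩
      nlinarith [mul_le_mul_of_nonneg_left h h3]
    · refine ⟨e1, a1.trans (subset_insert _ _), (abs_add_le _ _).trans ?_⟩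
      nlinarith [mul_le_mul_of_nonneg_left h h3]

/-- passage to the multiples of d -/
theorem rescale {d : ℕ} (hd : 0 < d) (Y Y' : ℝ) (φ : ℕ → ℝ) :
    ∑ n ∈ (Ico ⌈Y⌉₊ ⌈Y'⌉₊).filter (fun n => d ∣ n), φ n =
      ∑ m ∈ Ico ⌈Y / d⌉₊ ⌈Y' / d⌉₊, φ (d * m) := by
  have hd' : (0 : ℝ) < d := by exact_mod_cast hd
  have key : ∀ m : ℕ, m ∈ Ico ⌈Y / d⌉₊ ⌈Y' / d⌉₊ ↔ d * m ∈ Ico ⌈Y⌉₊ ⌈Y'⌉₊ := fun m => by
    simp only [mem_Ico, Nat.ceil_le, Nat.lt_ceil, div_le_iff₀' hd', lt_div_iff₀' hd', Nat.cast_mul]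
  symm
  refine sum_bij (fun m _ => d * m) (fun m hm => mem_filter.2 ⟨(key m).1 hm, dvd_mul_right _ _⟩)
    (fun _ _ _ _ h => Nat.eq_of_mul_eq_mul_left hd h) (fun n hn => ?_) fun _ _ => rfl
  obtain ⟨h1, m, rfl⟩ := mem_filter.1 hn
  exact ⟨m, (key m).2 h1, rfl⟩

/-- a correlation of the Liouville function itself -/
theorem corr {T : Finset ℕ} {Z : ℕ} (hT : ∀ p ∈ T, p.Prime ∧ p ≤ Z) {W : Finset ℕ → ℝ}
    (hW : ∀ S, |W S| ≤ 1) (Ψ : ℕ → ℂ) {Y Y' g : ℝ} (hY : 0 < Y)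
    (h : g ≤ ∑ n ∈ Ico ⌈Y⌉₊ ⌈Y'⌉₊, gn (wl T W n) (Ψ n) / n) : ∃ d : ℕ, 0 < d ∧ d ≤ (Z + 1) ^ Z ∧
      g / (2 * 3 ^ Z) ≤ |∑ m ∈ Ico ⌈Y / d⌉₊ ⌈Y' / d⌉₊, Ch.lam m * (Ψ (d * m)).re / m| := by
  obtain ⟨e, he, h1⟩ := expand (fun n => Ch.lam n * (Ψ n).re / n) T W 1 (Ico ⌈Y⌉₊ ⌈Y'⌉₊) hW
  have hp : ∀ p ∈ e, p.Prime := fun p hp => (hT p (he hp)).1
  have hc : T.card ≤ Z := by
    have : T ⊆ Icc 1 Z := fun p hp => mem_Icc.2 ⟨(hT p hp).1.pos, (hT p hp).2⟩
    simpa using card_le_card this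
  have d0 : 0 < ∏ p ∈ e, p := prod_pos fun p h => (hp p h).pos
  refine ⟨∏ p ∈ e, p, d0, (prod_le_pow_card e _ (Z + 1) fun p h =>
    (hT p (he h)).2.trans (Nat.le_succ Z)).trans
      (Nat.pow_le_pow_right Z.succ_pos ((card_le_card he).trans hc)), ?_⟩
  set d := ∏ p ∈ e, p with hd
  have d1 : (1 : ℝ) ≤ d := by exact_mod_cast d0
  have e1 : (Ico ⌈Y⌉₊ ⌈Y'⌉₊).filter (fun n => ∀ p ∈ e, p ∣ n) =
      (Ico ⌈Y⌉₊ ⌈Y'⌉₊).filter fun n => d ∣ n := filter_congr fun n _ =>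
    ⟨fun h => prod_primes_dvd n (fun p h => (hp p h).prime) h,
      fun h p h' => (dvd_prod_of_mem (fun q => q) h').trans h⟩
  have e2 : ∑ m ∈ Ico ⌈Y / d⌉₊ ⌈Y' / d⌉₊, Ch.lam (d * m) * (Ψ (d * m)).re / ((d * m : ℕ) : ℝ) =
      Ch.lam d / d * ∑ m ∈ Ico ⌈Y / d⌉₊ ⌈Y' / d⌉₊, Ch.lam m * (Ψ (d * m)).re / m := by
    rw [mul_sum]
    refine sum_congr rfl fun m hm => ?_
    have m0 : 0 < m := (Nat.ceil_pos.2 (by positivity)).trans_le (mem_Ico.1 hm).1
    rw [lam_mul d0.ne' m0.ne', Nat.cast_mul]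
    ring
  rw [e1, rescale d0, e2, abs_mul, abs_div, abs_lam, abs_of_pos (by positivity : (0 : ℝ) < d)] at h1
  have h2 : ∑ n ∈ Ico ⌈Y⌉₊ ⌈Y'⌉₊, gn (wl T W n) (Ψ n) / n ≤ 2 * ∑ n ∈ Ico ⌈Y⌉₊ ⌈Y'⌉₊,
      W (T.filter fun p => p ∣ n) * (Ch.lam n * (Ψ n).re / n) := by
    rw [mul_sum]
    refine sum_le_sum fun n hn => ?_
    have n0 : 0 < n := (Nat.ceil_pos.2 hY).trans_le (mem_Ico.1 hn).1
    rw [gn, wl, if_neg n0.ne', Complex.re_ofReal_mul, Complex.conj_re, sub_div]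
    have : 0 ≤ ‖Ψ n‖ ^ 2 / n := by positivity
    linarith [show 2 * (W (T.filter fun p => p ∣ n) * Ch.lam n * (Ψ n).re) / n =
      2 * (W (T.filter fun p => p ∣ n) * (Ch.lam n * (Ψ n).re / n)) by ring]
  set S := |∑ m ∈ Ico ⌈Y / d⌉₊ ⌈Y' / d⌉₊, Ch.lam m * (Ψ (d * m)).re / m|
  have S0 : 0 ≤ S := abs_nonneg _
  have h3 : (3 : ℝ) ^ T.card * 1 * (1 / d * S) ≤ 3 ^ Z * S := by
    rw [mul_one]
    exact mul_le_mul (pow_le_pow_right₀ (by norm_num) hc)
      (mul_le_of_le_one_left S0 ((div_le_one (by positivity)).2 d1)) (by positivity) (by positivity)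
  rw [div_le_iff₀ (by positivity)]
  linarith [le_abs_self (∑ n ∈ Ico ⌈Y⌉₊ ⌈Y'⌉₊,
    W (T.filter fun p => p ∣ n) * (Ch.lam n * (Ψ n).re / n))]

/-- a gain on the interval [a, X] bounds the global distance -/
theorem dst_le {A : Set (ℕ → ℂ)} (hA : Hull (Ax.hull A)) {f Φ : ℕ → ℂ}
    (hf : ∀ n, n ≠ 0 → ‖f n‖ = 1) (hf' : ∀ n, ‖f n‖ ≤ 1) {ρ t : ℝ} {H : ℕ} (hH : 0 < H)
    (hρ : H ≤ t * ρ) (t0 : 0 < t) (t1 : t ≤ 1 / 2) (hΦ : Gr (Ax.hull A) ρ Φ) (a X : ℕ) :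
    Ax.dst A f H X ≤ 1 + Real.log X + H + 8 * t * (1 + Real.log X) -
      ∑ m ∈ (Icc 1 X).filter (fun m => a ≤ m), gn (f m) (Φ m) / m := by
  have H1 : (1 : ℝ) ≤ H := by exact_mod_cast hH
  have ρ0 : 0 < ρ := (mul_pos_iff_of_pos_left t0).1 (by linarith)
  obtain ⟨Ψ, g1, -, g2⟩ := IV.regrid_all _ hA ρ H t Φ X H1 hρ t0 t1 hΦ
  have g3 := g2 (fun m => if a ≤ m then f m else Φ m) fun m => by
    split_ifs
    exacts [hf' m, hΦ.bd hA ρ0 m]
  refine (IV.App.dst_le (A := A) (X := X) hH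
    ⟨fun m => if a / H < m / H then Ψ m else 0, (IV.gr_iff_pw hH).2 fun j => ?_, le_rfl⟩).trans ?_
  · by_cases hj : a / H < j
    · obtain ⟨u, hu, h⟩ := (IV.gr_iff_pw hH).1 g1 j
      refine ⟨u, hu, fun n hn => ?_⟩
      rw [← h n hn]
      exact if_pos (by rwa [← hn, one_mul] at hj)
    · exact ⟨0, hA.zero, fun n hn => if_neg (by rwa [← hn, one_mul] at hj)⟩
  have c1 : ∑ m ∈ Icc 1 X, (if m / H = a / H then (1 : ℝ) else 0) ≤ H := by
    rw [sum_boole]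
    have : (Icc 1 X).filter (fun m => m / H = a / H) ⊆ Ico (a / H * H) ((a / H + 1) * H) :=
      fun m hm => by
        rw [← (mem_filter.1 hm).2, mem_Ico]
        exact ⟨Nat.div_mul_le_self _ _, (Nat.div_lt_iff_lt_mul hH).1 (Nat.lt_succ_self _)⟩
    have := card_le_card this
    rw [Nat.card_Ico, add_mul, one_mul, Nat.add_sub_cancel_left] at this
    exact_mod_cast this
  have c2 : IV.dst X f (fun m => if a / H < m / H then Ψ m else 0) ≤
      ∑ m ∈ Icc 1 X, (‖(if a ≤ m then f m else Φ m) - Ψ m‖ ^ 2 / m +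
        (if a ≤ m then 0 else 1 / (m : ℝ)) + if m / H = a / H then (1 : ℝ) else 0) := by
    refine sum_le_sum fun m hm => ?_
    have m1 : 1 ≤ m := (mem_Icc.1 hm).1
    have m2 : 1 / (m : ℝ) ≤ 1 := (div_le_one (by positivity)).2 (by exact_mod_cast m1)
    have m3 : 0 ≤ ‖(if a ≤ m then f m else Φ m) - Ψ m‖ ^ 2 / m := by positivity
    beta_reduce
    by_cases h1 : a ≤ m
    · by_cases h2 : a / H < m / H
      · simp [h1, h2, h2.ne']
      · rw [if_neg h2, if_pos h1 (t := (0 : ℝ)), if_pos (le_antisymm (not_lt.1 h2)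
          (Nat.div_le_div_right h1)), sub_zero, hf m (by omega), one_pow]
        linarith
    · rw [if_neg (not_lt.2 (Nat.div_le_div_right (not_le.1 h1).le)), if_neg h1 (e := 1 / (m : ℝ)),
        sub_zero, hf m (by omega), one_pow]
      have : (0 : ℝ) ≤ if m / H = a / H then 1 else 0 := by positivity
      linarith
  have c3 : IV.dst X (fun m => if a ≤ m then f m else Φ m) Φ +
      ∑ m ∈ Icc 1 X, (if a ≤ m then 0 else 1 / (m : ℝ)) = ∑ m ∈ Icc 1 X, 1 / (m : ℝ) -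
        ∑ m ∈ (Icc 1 X).filter (fun m => a ≤ m), gn (f m) (Φ m) / m := by
    rw [IV.dst, sum_filter, ← sum_add_distrib, ← sum_sub_distrib]
    refine sum_congr rfl fun m hm => ?_
    have m1 : 1 ≤ m := (mem_Icc.1 hm).1
    by_cases h1 : a ≤ m
    · simp only [if_pos h1, IV.gn_eq, hf m (by omega)]
      ring
    · simp [h1]
  rw [sum_add_distrib, sum_add_distrib] at c2
  linarith [IV.harm_le X, show ∑ m ∈ Icc 1 X, ‖(if a ≤ m then f m else Φ m) - Ψ m‖ ^ 2 / (m : ℝ) =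
    IV.dst X (fun m => if a ≤ m then f m else Φ m) Ψ from rfl]

end Fin9P

open Fin9P in
theorem fin : S_Fin := by
  intro A hA Z v r hv hr
  have hH := IV.hull _ hA.sys.atm
  have hu := Pool.Agent.P.MP_e30989_nt.W.ucm_lam
  set v1 := v / (2 * 3 ^ Z) with hv1
  have v0 : 0 < v1 := by positivity
  set τ := min 1 (v1 / (r + 2)) with hτ
  have τ0 : 0 < τ := lt_min one_pos (by positivity)
  have τ1 : τ ≤ 1 := min_le_left _ _
  have τ2 : τ * (r + 2) ≤ v1 := (le_div_iff₀ (by positivity)).1 (min_le_right _ _)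
  obtain ⟨H0, hL⟩ := IV.lift_all A hA _ atTop le_rfl hu Pool.Agent.P.MP_e30989_nt.W.rmrh_lam
    (τ * v1 / (2 * (r + 1))) (by positivity)
  obtain ⟨X0, hL⟩ := eventually_atTop.1 (hL (H0 + 1) (Nat.le_succ _))
  set H := H0 + 1 with hH'
  have H1 : (1 : ℝ) ≤ H := by exact_mod_cast H0.succ_pos
  set D : ℝ := (((Z + 1) ^ Z : ℕ) : ℝ) with hD
  have D1 : 1 ≤ D := Nat.one_le_cast.2 (Nat.one_le_pow _ _ Z.succ_pos)
  set K := 1 + H + 8 * (H * D * (r + 2)) with hK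
  set M0 := 2 * H * D + 2 * K / (τ * v1) + 1 with hM0
  have K0 : 0 < K := by positivity
  refine ⟨max (Real.exp (r * M0)) (D * (X0 + 2)), fun T W Y M hT hW hY hM ⟨Ψ, g1, g2⟩ => ?_⟩
  have Y0 : 0 < Y := (Real.exp_pos _).trans_le (le_of_max_le_left hY)
  have M1 : M0 ≤ M := le_of_mul_le_mul_left
    (((Real.le_log_iff_exp_le Y0).2 (le_of_max_le_left hY)).trans hM) hr
  have q0 : 0 < 2 * K / (τ * v1) := by positivity
  have q1 : 0 < 2 * H * D := by positivity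
  have M2 : 1 ≤ M := by linarith
  have E1 : M + 1 ≤ Real.exp M := Real.add_one_le_exp M
  have E0 := Real.exp_pos M
  obtain ⟨d, d0, d1, h⟩ := corr hT hW Ψ Y0 g2
  have d2 : (1 : ℝ) ≤ d := by exact_mod_cast d0
  have d3 : (d : ℝ) ≤ D := Nat.cast_le.2 d1
  obtain ⟨X, hX⟩ : ∃ X, ⌈Y * Real.exp M / d⌉₊ = X + 1 :=
    Nat.exists_eq_succ_of_ne_zero (Nat.ceil_pos.2 (by positivity)).ne'
  have X1 : (X : ℝ) < Y * Real.exp M / d := Nat.lt_ceil.1 (by omega)
  have X2 : X0 + 1 ≤ X := by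
    have a1 := Nat.le_ceil (Y * Real.exp M / d)
    have a2 : (X0 : ℝ) + 2 ≤ Y * Real.exp M / d := by
      rw [le_div_iff₀ (by positivity)]
      have := le_of_max_le_right hY
      have : (0 : ℝ) ≤ X0 := Nat.cast_nonneg _
      nlinarith
    rw [hX] at a1
    have : ((X0 + 2 : ℕ) : ℝ) ≤ ((X + 1 : ℕ) : ℝ) := by push_cast at a1 ⊢; linarith
    have := Nat.cast_le.1 this
    omega
  have X3 : Real.log X ≤ (r + 1) * M := by
    have a1 := Real.log_le_log (by exact_mod_cast (show 0 < X by omega))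
      (X1.le.trans (div_le_self (by positivity) d2))
    rw [Real.log_mul Y0.ne' E0.ne', Real.log_exp] at a1
    linarith
  have X4 : 0 ≤ Real.log X := Real.log_natCast_nonneg X
  have eJ : Ico ⌈Y / d⌉₊ (X + 1) = (Icc 1 X).filter fun m => ⌈Y / d⌉₊ ≤ m := by
    have : 0 < ⌈Y / d⌉₊ := Nat.ceil_pos.2 (by positivity)
    ext m
    simp only [mem_Ico, mem_filter, mem_Icc]
    omega
  rw [hX, eJ, mul_div_right_comm, ← hv1] at h
  set J := (Icc 1 X).filter fun m => ⌈Y / d⌉₊ ≤ m with hJ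
  set S := ∑ m ∈ J, Ch.lam m * (Ψ (d * m)).re / m with hS
  obtain ⟨z, z1, z2⟩ : ∃ z : ℝ, |z| = τ ∧ z * S = τ * |S| := by
    rcases le_total 0 S with c | c
    · exact ⟨τ, abs_of_pos τ0, by rw [abs_of_nonneg c]⟩
    · exact ⟨-τ, by rw [abs_neg, abs_of_pos τ0], by rw [abs_of_nonpos c]; ring⟩
  have a1 := dst_le hH hu.2 hu.1.bd (t := H * D / Real.exp M) H0.succ_pos
    (by
      rw [div_mul_div_comm, le_div_iff₀ (by positivity)]
      have : (H : ℝ) * Real.exp M * d ≤ H * Real.exp M * D := by gcongr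
      linarith)
    (by positivity) (by rw [div_le_iff₀ E0]; linarith)
    (g1.up hH (f := fun _ => (z : ℂ))
      (fun _ => by rw [Complex.norm_real, Real.norm_eq_abs, z1]; exact τ1) d0) ⌈Y / d⌉₊ X
  have a2 : 2 * (z * S) - τ ^ 2 * (1 + Real.log X) ≤
      ∑ m ∈ J, gn (Ch.lam m : ℂ) (Up (fun _ => (z : ℂ)) d Ψ m) / m := by
    have b1 : ∑ m ∈ J, 1 / (m : ℝ) ≤ 1 + Real.log X :=
      (sum_le_sum_of_subset_of_nonneg (filter_subset _ _) fun _ _ _ => by positivity).trans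
        (IV.harm_le X)
    refine (sub_le_sub_left (mul_le_mul_of_nonneg_left b1 (sq_nonneg τ)) _).trans ?_
    rw [hS, mul_sum, mul_sum, mul_sum, ← sum_sub_distrib]
    refine sum_le_sum fun m _ => ?_
    have b2 : ‖conj (z : ℂ) * Ψ (d * m)‖ ^ 2 ≤ τ ^ 2 := by
      rw [norm_mul, RCLike.norm_conj, Complex.norm_real, Real.norm_eq_abs, z1]
      exact pow_le_pow_left₀ (by positivity) (mul_le_of_le_one_right τ0.le (g1.bd hH E0 _)) 2
    have b3 := div_le_div_of_nonneg_right b2 (Nat.cast_nonneg (α := ℝ) m)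
    rw [gn, Up, Complex.re_ofReal_mul, Complex.conj_re, sub_div]
    rw [Complex.conj_ofReal, Complex.re_ofReal_mul] at *
    linarith [show 2 * (Ch.lam m * (z * (Ψ (d * m)).re)) / (m : ℝ) =
      2 * (z * (Ch.lam m * (Ψ (d * m)).re / m)) by ring, mul_one_div (τ ^ 2) (m : ℝ)]
  have a3 := hL X (by omega)
  have a4 : H * D / Real.exp M * (1 + Real.log X) ≤ H * D * (r + 2) := by
    rw [div_mul_eq_mul_div, div_le_iff₀ E0, mul_assoc (H * D)]
    exact mul_le_mul_of_nonneg_left (by nlinarith) (by positivity)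
  have a5 : τ * v1 / (2 * (r + 1)) * Real.log X ≤ τ * v1 * M / 2 := by
    rw [div_mul_eq_mul_div, div_le_div_iff₀ (by positivity) (by positivity)]
    nlinarith [mul_le_mul_of_nonneg_left X3 (mul_pos τ0 v0).le]
  have a6 : τ ^ 2 * (1 + Real.log X) ≤ τ * v1 * M := by
    calc τ ^ 2 * (1 + Real.log X) ≤ τ ^ 2 * ((r + 2) * M) :=
          mul_le_mul_of_nonneg_left (by linarith) (sq_nonneg τ)
      _ = τ * (τ * (r + 2)) * M := by ring
      _ ≤ _ := by gcongr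
  have a7 : 2 * K < M * (τ * v1) := (div_lt_iff₀ (by positivity)).1 (by linarith)
  have a8 := mul_le_mul_of_nonneg_left h τ0.le
  linarith

/-- sections 8 and 9 from the local plain step -/
theorem noPot_of_loc (hL : S_Loc) : S_NoPot := noPot (iter hL) fin

end Pool.Agent.P.MP_a14ce1_nt.Fu
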