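import Pool.Agent.P.MP_a14ce1_nt.Ch.Mertens

/-!
The blocks of large primes and the compensating primes of the local plain step: masses, density and
the first moment of the compensating factor.
-/

open Finset

namespace Pool.Agent.P.MP_a14ce1_nt.Fu.Tile

open Ch (pr rs pv mem_pr rs_nonneg S_M1 S_M2)

/-- the primes with logarithm in (i P, i P + τ] -/
noncomputable def QB (P τ : ℝ) (i : ℕ) : Finset ℕ := pr (Real.exp (i * P)) (Real.exp (i * P + τ))

open Classical in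
/-- the primes with logarithm in (l0, l1] outside all the blocks -/
noncomputable def GG (P τ l0 l1 : ℝ) : Finset ℕ :=
  (pr (Real.exp l0) (Real.exp l1)).filter fun p => ∀ i, p ∉ QB P τ i

theorem mem_ee {u v : ℝ} {p : ℕ} :
    p ∈ pr (Real.exp u) (Real.exp v) ↔ p.Prime ∧ u < Real.log p ∧ Real.log p ≤ v := by
  rw [mem_pr (Real.exp_pos u).le]
  refine and_congr_right fun hp => ?_
  have h0 : (0 : ℝ) < p := by exact_mod_cast hp.pos
  rw [Real.lt_log_iff_exp_lt h0, Real.log_le_iff_le_exp h0]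

theorem mem_QB {P τ : ℝ} {i p : ℕ} :
    p ∈ QB P τ i ↔ p.Prime ∧ i * P < Real.log p ∧ Real.log p ≤ i * P + τ := mem_ee

theorem mem_GG {P τ l0 l1 : ℝ} {p : ℕ} : p ∈ GG P τ l0 l1 ↔
    (p.Prime ∧ l0 < Real.log p ∧ Real.log p ≤ l1) ∧ ∀ i, p ∉ QB P τ i := by
  classical
  rw [← mem_ee]
  unfold GG
  convert mem_filter

theorem QB_disjoint {P τ : ℝ} (h : τ ≤ P) (hP : 0 ≤ P) {i j : ℕ} (hij : i ≠ j) :
    Disjoint (QB P τ i) (QB P τ j) := by
  rw [disjoint_left]
  intro p hp hq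
  rw [mem_QB] at hp hq
  rcases lt_or_gt_of_ne hij with k | k
  · have : (i : ℝ) + 1 ≤ j := by exact_mod_cast k
    nlinarith [hp.2.2, hq.2.1]
  · have : (j : ℝ) + 1 ≤ i := by exact_mod_cast k
    nlinarith [hp.2.1, hq.2.2]

theorem GG_disjoint (P τ l0 l1 : ℝ) (i : ℕ) : Disjoint (GG P τ l0 l1) (QB P τ i) :=
  disjoint_left.2 fun _ hp => (mem_GG.1 hp).2 i

/-- the second theorem of Mertens on a window -/
theorem window : ∃ C : ℝ, 1 ≤ C ∧ ∀ u v : ℝ, 0 ≤ u → u ≤ v →
    |∑ p ∈ pr (Real.exp u) (Real.exp v), Real.log p / p - (v - u)| ≤ C := by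
  obtain ⟨C, hC, h2⟩ := Ch.m2
  refine ⟨2 * C + 1, by linarith, fun u v hu huv => ?_⟩
  have h0 := Real.exp_pos u
  have e : pr (Real.exp u) (Real.exp v) = pr 0 (Real.exp v) \ pr 0 (Real.exp u) := by
    ext p
    rw [mem_sdiff, mem_pr le_rfl, mem_pr le_rfl, mem_pr h0.le]
    constructor
    · rintro ⟨a, b, c⟩
      exact ⟨⟨a, by linarith, c⟩, fun h => by linarith [h.2.2]⟩
    · rintro ⟨⟨a, b, c⟩, d⟩
      exact ⟨a, not_le.1 fun h => d ⟨a, b, h⟩, c⟩
  have hsub : pr 0 (Real.exp u) ⊆ pr 0 (Real.exp v) := fun p hp => by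
    rw [mem_pr le_rfl] at hp ⊢
    exact ⟨hp.1, hp.2.1, hp.2.2.trans (Real.exp_le_exp.2 huv)⟩
  have a1 := h2 _ (Real.one_le_exp hu)
  have a2 := h2 _ (Real.one_le_exp (hu.trans huv))
  rw [Real.log_exp, abs_le] at a1 a2
  rw [e, sum_sdiff_eq_sub hsub, abs_le]
  constructor <;> linarith [a1.1, a1.2, a2.1, a2.2]

theorem lg_nonneg (p : ℕ) : 0 ≤ Real.log p / p :=
  div_nonneg (Real.log_natCast_nonneg p) (Nat.cast_nonneg p)

theorem rs_le_of {S : Finset ℕ} {u : ℝ} (h : ∀ p ∈ S, u ≤ Real.log p) :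
    u * rs S ≤ ∑ p ∈ S, Real.log p / p := by
  rw [rs, mul_sum]
  refine sum_le_sum fun p hp => ?_
  rw [mul_one_div]
  exact div_le_div_of_nonneg_right (h p hp) (Nat.cast_nonneg p)

theorem le_rs_of {S : Finset ℕ} {v : ℝ} (h : ∀ p ∈ S, Real.log p ≤ v) :
    ∑ p ∈ S, Real.log p / p ≤ v * rs S := by
  rw [rs, mul_sum]
  refine sum_le_sum fun p hp => ?_
  rw [mul_one_div]
  exact div_le_div_of_nonneg_right (h p hp) (Nat.cast_nonneg p)

/-- the mass of a block -/
theorem mass : ∃ C : ℝ, 1 ≤ C ∧ ∀ (P τ : ℝ) (i : ℕ), C ≤ τ → τ ≤ P → 1 ≤ i →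
    τ / (4 * (i * P)) ≤ rs (QB P τ i) ∧ rs (QB P τ i) ≤ 2 * τ / (i * P) := by
  obtain ⟨C, hC, h⟩ := window
  refine ⟨2 * C, by linarith, fun P τ i h1 h2 hi => ?_⟩
  have hi' : (1 : ℝ) ≤ i := by exact_mod_cast hi
  have hP : P ≤ i * P := le_mul_of_one_le_left (by linarith) hi'
  have hx : 0 < i * P := by linarith
  have a := h (i * P) (i * P + τ) hx.le (by linarith)
  rw [abs_le] at a
  have b1 := rs_le_of (S := QB P τ i) (u := i * P) fun p hp => (mem_QB.1 hp).2.1.le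
  have b2 := le_rs_of (S := QB P τ i) (v := 2 * (i * P)) fun p hp => by
    linarith [(mem_QB.1 hp).2.2]
  rw [div_le_iff₀ (by positivity), le_div_iff₀ hx]
  unfold QB at *
  constructor <;> linarith [a.1, a.2]

theorem sum_inv_le {a b : ℕ} (ha : 1 ≤ a) (hab : a ≤ b) :
    ∑ i ∈ Ioc a b, (1 : ℝ) / i ≤ Real.log b - Real.log a := by
  induction b, hab using Nat.le_induction with
  | base => simp
  | succ b hab ih =>
    rw [sum_Ioc_succ_top hab]
    have hb : (0 : ℝ) < b := by exact_mod_cast ha.trans hab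
    have h1 := Real.log_le_sub_one_of_pos (show (0 : ℝ) < b / (b + 1) by positivity)
    rw [Real.log_div hb.ne' (by positivity)] at h1
    have h2 : (b : ℝ) / (b + 1) - 1 = -(1 / (b + 1)) := by field_simp; ring
    push_cast
    linarith

/-- the total mass -/
theorem rs_GG_le : ∃ C : ℝ, 1 ≤ C ∧ ∀ P τ l0 l1 : ℝ, 1 ≤ l0 → l0 ≤ l1 →
    rs (GG P τ l0 l1) ≤ Real.log (l1 / l0) + C := by
  obtain ⟨C, hC, h⟩ := Ch.m1
  refine ⟨C + 1, by linarith, fun P τ l0 l1 h0 h1 => ?_⟩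
  have a := h (Real.exp l0) (Real.exp l1) (by linarith [Real.add_one_le_exp l0])
    (Real.exp_le_exp.2 h1)
  rw [Real.log_exp, Real.log_exp, abs_le] at a
  have b : rs (GG P τ l0 l1) ≤ rs (pr (Real.exp l0) (Real.exp l1)) :=
    sum_le_sum_of_subset_of_nonneg (fun p hp => mem_ee.2 (mem_GG.1 hp).1) fun _ _ _ => by positivity
  linarith [a.2]

theorem sum_ite_le (W S : Finset ℕ) (φ : ℕ → ℝ) (hφ : ∀ p, 0 ≤ φ p) :
    ∑ p ∈ W, (if p ∈ S then φ p else 0) ≤ ∑ p ∈ S, φ p := by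
  rw [← sum_filter]
  exact sum_le_sum_of_subset_of_nonneg (fun p hp => (mem_filter.1 hp).2) fun p _ _ => hφ p

/-- a sum over the primes of a window is at most the part in GG plus the blocks that meet it -/
theorem split {P τ l0 l1 u v : ℝ} (φ : ℕ → ℝ) (hφ : ∀ p, 0 ≤ φ p) (h0 : l0 ≤ u) (h1 : v ≤ l1)
    (I : Finset ℕ) (hI : ∀ i : ℕ, u < i * P + τ → i * P < v → i ∈ I) :
    ∑ p ∈ pr (Real.exp u) (Real.exp v), φ p ≤
      ∑ p ∈ (GG P τ l0 l1).filter (fun p : ℕ => u < Real.log p ∧ Real.log p ≤ v), φ p +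
        ∑ i ∈ I, ∑ p ∈ QB P τ i, φ p := by
  refine le_trans ?_ (add_le_add (sum_ite_le (pr (Real.exp u) (Real.exp v)) _ φ hφ)
    (sum_le_sum fun i _ => sum_ite_le (pr (Real.exp u) (Real.exp v)) _ φ hφ))
  rw [sum_comm, ← sum_add_distrib]
  refine sum_le_sum fun p hp => ?_
  rw [mem_ee] at hp
  have n : ∀ i ∈ I, 0 ≤ if p ∈ QB P τ i then φ p else 0 := fun i _ => by
    split_ifs
    exacts [hφ p, le_rfl]
  by_cases h : ∀ i, p ∉ QB P τ i
  · rw [if_pos (mem_filter.2 ⟨mem_GG.2 ⟨⟨hp.1, h0.trans_lt hp.2.1, hp.2.2.trans h1⟩, h⟩, hp.2⟩)]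
    linarith [sum_nonneg n]
  · push Not at h
    obtain ⟨i, hi⟩ := h
    have h2 := mem_QB.1 hi
    have h3 := single_le_sum n (hI i (hp.2.1.trans_le h2.2.2) (h2.2.1.trans_le hp.2.2))
    rw [if_pos hi] at h3
    have : 0 ≤ if p ∈ (GG P τ l0 l1).filter (fun p : ℕ => u < Real.log p ∧ Real.log p ≤ v)
        then φ p else 0 := by
      split_ifs
      exacts [hφ p, le_rfl]
    linarith

/-- the density of the compensating primes -/
theorem density : ∃ C : ℝ, 1 ≤ C ∧ ∀ P τ l0 l1 l t : ℝ, C ≤ τ → 16 * τ ≤ P → P ≤ l0 → l0 ≤ t →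
    t ≤ l → l ≤ l1 → 7 / 8 * Real.log (l / t) - C ≤
      rs ((GG P τ l0 l1).filter fun p : ℕ => t < Real.log p) := by
  obtain ⟨C1, hC1, h1⟩ := Ch.m1
  obtain ⟨C2, hC2, h2⟩ := mass
  refine ⟨C1 + C2, by linarith, fun P τ l0 l1 l t k1 k2 k3 k4 k5 k6 => ?_⟩
  have hP : 0 < P := by linarith
  have ht : 0 < t := by linarith
  have a := h1 (Real.exp t) (Real.exp l) (by linarith [Real.add_one_le_exp t])
    (Real.exp_le_exp.2 k5)
  rw [Real.log_exp, Real.log_exp, abs_le] at a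
  set n := ⌊t / P⌋₊ with hn
  set m := ⌊l / P⌋₊ with hm
  have n1 : 1 ≤ n := Nat.le_floor (by rw [Nat.cast_one, le_div_iff₀ hP]; linarith)
  have n1' : (1 : ℝ) ≤ n := by exact_mod_cast n1
  have n2 : n ≤ m := Nat.floor_mono (by gcongr)
  have n3 : t / P < n + 1 := Nat.lt_floor_add_one _
  have n4 : (m : ℝ) ≤ l / P := Nat.floor_le (by have : 0 < l := by linarith
                                                positivity)
  have b := split (P := P) (τ := τ) (l0 := l0) (l1 := l1) (fun p => (1 : ℝ) / p)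
    (fun p => by positivity) k4 k6 (insert n (Ioc n m)) fun i i1 i2 => by
      rw [mem_insert, mem_Ioc]
      have j1 : n ≤ i := by
        refine Nat.le_of_lt_succ ((Nat.floor_lt (by positivity)).2 ?_)
        rw [div_lt_iff₀ hP]
        push_cast
        linarith
      have j2 : i ≤ m := Nat.le_floor (by rw [le_div_iff₀ hP]; exact i2.le)
      omega
  have c : ∀ i ∈ insert n (Ioc n m), ∑ p ∈ QB P τ i, (1 : ℝ) / p ≤ 1 / 8 * (1 / i) := by
    intro i hi
    have j1 : 1 ≤ i := by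
      rw [mem_insert, mem_Ioc] at hi
      omega
    have j2 : (0 : ℝ) < i := by exact_mod_cast j1
    refine (h2 P τ i (by linarith) (by linarith) j1).2.trans ?_
    rw [div_le_iff₀ (by positivity)]
    have : 1 / 8 * (1 / (i : ℝ)) * (i * P) = P / 8 := by field_simp
    linarith
  have d := sum_le_sum c
  rw [← mul_sum, sum_insert (f := fun i : ℕ => (1 : ℝ) / i) (by simp)] at d
  have e1 := sum_inv_le n1 n2
  have e2 : (1 : ℝ) / n ≤ 1 := by rw [div_le_one (by linarith)]; exact n1'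
  have e3 : Real.log m - Real.log n ≤ Real.log (l / t) + 1 := by
    have m0 : (0 : ℝ) < m := by exact_mod_cast n1.trans n2
    have hl : 0 < l := by linarith
    rw [← Real.log_div m0.ne' (by linarith)]
    have f1 : (m : ℝ) / n ≤ l / t * 2 := by
      rw [div_le_iff₀ (by linarith)]
      refine n4.trans ?_
      have : l / P = l / t * (t / P) := by field_simp
      rw [this, mul_assoc]
      gcongr
      linarith
    have f2 := Real.log_le_log (by positivity) f1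
    rw [Real.log_mul (by positivity) two_ne_zero] at f2
    linarith [Real.log_two_lt_d9]
  have g : ∑ p ∈ (GG P τ l0 l1).filter (fun p : ℕ => t < Real.log p ∧ Real.log p ≤ l),
      (1 : ℝ) / p ≤ rs ((GG P τ l0 l1).filter fun p : ℕ => t < Real.log p) :=
    sum_le_sum_of_subset_of_nonneg (fun p hp => mem_filter.2
      ⟨(mem_filter.1 hp).1, (mem_filter.1 hp).2.1⟩) fun _ _ _ => by positivity
  unfold rs at a
  linarith [a.1]

/-- the compensating primes of a window of length w -/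
theorem win_GG : ∃ C : ℝ, 1 ≤ C ∧ ∀ P τ l0 l1 u w : ℝ, C ≤ τ → 4 * τ ≤ w → w ≤ P / 2 → 0 ≤ l0 →
    l0 ≤ u → u + w ≤ l1 → w / (2 * (u + w)) ≤
      rs ((GG P τ l0 l1).filter fun p : ℕ => u < Real.log p ∧ Real.log p ≤ u + w) := by
  obtain ⟨C, hC, h⟩ := window
  refine ⟨2 * C, by linarith, fun P τ l0 l1 u w k1 k2 k3 k4 k5 k6 => ?_⟩
  have hP : 0 < P := by linarith
  have hu : 0 ≤ u := k4.trans k5
  have hw : 0 < w := by linarith
  have a := h u (u + w) hu (by linarith)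
  set n := ⌊(u + w) / P⌋₊ with hn
  have b := split (P := P) (τ := τ) (l0 := l0) (l1 := l1) (fun p => Real.log p / p) lg_nonneg
    k5 k6 {n} fun i i1 i2 => by
      rw [mem_singleton, hn, eq_comm, Nat.floor_eq_iff (by positivity), le_div_iff₀ hP,
        div_lt_iff₀ hP]
      constructor <;> linarith
  rw [sum_singleton] at b
  have c := h (n * P) (n * P + τ) (by positivity) (by linarith)
  have d := le_rs_of (S := (GG P τ l0 l1).filter fun p : ℕ => u < Real.log p ∧ Real.log p ≤ u + w)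
    (v := u + w) fun p hp => (mem_filter.1 hp).2.2
  rw [abs_le] at a c
  rw [div_le_iff₀ (by linarith)]
  unfold QB at b
  linarith [a.1, c.2]

end Pool.Agent.P.MP_a14ce1_nt.Fu.Tile
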