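import Pool.Agent.P.MP_a14ce1_nt.Fu.LocB
import Pool.Agent.P.MP_a14ce1_nt.Fu.Tile

/-!
The output of the local plain step: weights that are constant along chains of `K` consecutive
blocks, and the concatenation of the approximants along one chain.
-/

open Finset

namespace Pool.Agent.P.MP_a14ce1_nt.Fu.Cat

open IV (Hull Gr gn cell)
open Loc (gnI bl)

theorem gn_sub_le {z u v : ℂ} (hz : ‖z‖ ≤ 1) (hv : ‖v‖ ≤ 1) : gn z u - gn z v ≤ 4 := by
  rw [IV.gn_eq, IV.gn_eq]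
  have h := norm_sub_le z v
  nlinarith [norm_nonneg (z - v), sq_nonneg ‖z - u‖]

theorem sum_chain (φ : ℕ → ℝ) (x : ℕ → ℕ) (hx : Monotone x) (K : ℕ) :
    ∑ i ∈ range K, ∑ n ∈ Ico (x i) (x (i + 1)), φ n = ∑ n ∈ Ico (x 0) (x K), φ n := by
  induction K with
  | zero => simp
  | succ K ih => rw [sum_range_succ, ih, sum_Ico_consecutive _ (hx K.zero_le) (hx K.le_succ)]

/-- concatenation along `K` adjacent intervals of logarithmic length `P` -/
theorem cat {XX : Set (ℕ → ℂ)} (hX : Hull XX) {f : ℕ → ℂ} (hf : ∀ n, ‖f n‖ ≤ 1) {Y P H : ℝ} {K : ℕ}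
    (hP : 0 < P) (h1 : 1 ≤ H) (hY : H ≤ Y) (Ψ : ℕ → ℕ → ℂ) (hΨ : ∀ i < K, Gr XX H (Ψ i)) :
    ∃ Φ, Gr XX H Φ ∧ ∑ i ∈ range K, gnI (bl (Y * Real.exp (i * P)))
        (bl (Y * Real.exp (i * P) * Real.exp P)) f (Ψ i) - 8 * K ≤
      gnI (bl Y) (bl (Y * Real.exp (K * P))) f Φ := by
  have H0 : 0 < H := by linarith
  have Y0 : 0 < Y := by linarith
  let ix : ℕ → ℕ := fun j => ⌊Real.log (j * H / Y) / P⌋₊
  let Φ : ℕ → ℂ := fun n => if ix ⌊n / H⌋₊ < K then Ψ (ix ⌊n / H⌋₊) n else 0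
  have hΦ : Gr XX H Φ := fun j => by
    by_cases h : ix j < K
    · obtain ⟨u, hu, e⟩ := hΨ _ h j
      refine ⟨u, hu, fun n hn => ?_⟩
      have := (IV.mem_cell_floor H0).1 hn
      simp only [Φ, this, if_pos h, e n hn]
    · refine ⟨0, hX.zero, fun n hn => ?_⟩
      have := (IV.mem_cell_floor H0).1 hn
      simp only [Φ, this, if_neg h, Pi.zero_apply]
  refine ⟨Φ, hΦ, ?_⟩
  have hm : Monotone fun i : ℕ => ⌈Y * Real.exp (i * P)⌉₊ := fun i j h => Nat.ceil_mono (by gcongr)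
  have e0 := sum_chain (fun n => gn (f n) (Φ n) / n) _ hm K
  simp only [Nat.cast_zero, zero_mul, Real.exp_zero, mul_one] at e0
  rw [gnI, ← Loc.Ico_ceil Y0, ← e0, show (8 : ℝ) * K = ∑ _i ∈ range K, (8 : ℝ) by simp [mul_comm],
    ← sum_sub_distrib]
  refine sum_le_sum fun i hi => ?_
  set x := Y * Real.exp (i * P) with hx
  have x1 : Y ≤ x := le_mul_of_one_le_right Y0.le (Real.one_le_exp (by positivity))
  have x2 : Y * Real.exp ((i + 1 : ℕ) * P) = x * Real.exp P := by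
    rw [hx, mul_assoc, ← Real.exp_add, Nat.cast_succ, add_one_mul]
  rw [gnI, ← Loc.Ico_ceil (by linarith), x2, sub_le_iff_le_add', ← sub_le_iff_le_add,
    ← sum_sub_distrib]
  calc _ ≤ ∑ n ∈ Ico ⌈x⌉₊ ⌈x * Real.exp P⌉₊, if n ∈ Ico ⌈x⌉₊ ⌈x + H⌉₊ then 4 / Y else 0 := by
        refine sum_le_sum fun n hn => ?_
        rw [mem_Ico, Nat.ceil_le, Nat.lt_ceil] at hn
        split_ifs with h
        · rw [← sub_div]
          exact div_le_div₀ (by norm_num) (gn_sub_le (hf n) (hΦ.bd hX H0 n)) Y0 (x1.trans hn.1)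
        · rw [mem_Ico, Nat.ceil_le, Nat.lt_ceil, not_and, not_lt] at h
          have a1 := Nat.floor_le (show 0 ≤ (n : ℝ) / H by positivity)
          have a2 := Nat.lt_floor_add_one ((n : ℝ) / H)
          rw [le_div_iff₀ H0] at a1
          rw [div_lt_iff₀ H0] at a2
          have a3 : x ≤ ⌊(n : ℝ) / H⌋₊ * H := by linarith [h hn.1]
          have a4 : 0 < ⌊(n : ℝ) / H⌋₊ * H / Y := div_pos (by linarith) Y0
          have a5 : i * P ≤ Real.log (⌊(n : ℝ) / H⌋₊ * H / Y) := by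
            rw [Real.le_log_iff_exp_le a4, le_div_iff₀' Y0]
            exact a3
          have a6 : Real.log (⌊(n : ℝ) / H⌋₊ * H / Y) < (i + 1 : ℕ) * P := by
            rw [Real.log_lt_iff_lt_exp a4, div_lt_iff₀' Y0, x2]
            linarith [hn.2]
          have a7 : ix ⌊(n : ℝ) / H⌋₊ = i := by
            rw [Nat.floor_eq_iff (div_nonneg (le_trans (by positivity) a5) hP.le), le_div_iff₀ hP,
              div_lt_iff₀ hP]
            exact ⟨a5, by exact_mod_cast a6⟩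
          simp only [Φ, a7, if_pos (mem_range.1 hi), sub_self, le_refl]
    _ ≤ ∑ _n ∈ Ico ⌈x⌉₊ ⌈x + H⌉₊, 4 / Y := by
        rw [← sum_filter]
        exact sum_le_sum_of_subset_of_nonneg (fun n hn => (mem_filter.1 hn).2)
          fun _ _ _ => by positivity
    _ ≤ 8 := by
        rw [sum_const, nsmul_eq_mul, Nat.card_Ico, Nat.cast_sub (Nat.ceil_mono (by linarith)),
          ← mul_div_assoc, div_le_iff₀ Y0]
        linarith [Nat.le_ceil x, Nat.ceil_lt_add_one (show 0 ≤ x + H by linarith)]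

theorem sum_blocks (φ : ℕ → ℝ) (K : ℕ) {k0 k1 : ℕ} (h : k0 ≤ k1) :
    ∑ i ∈ Ico (k0 * K) (k1 * K), φ i = ∑ k ∈ Ico k0 k1, ∑ r ∈ range K, φ (k * K + r) := by
  induction k1, h using Nat.le_induction with
  | base => simp
  | succ k hk ih =>
    rw [sum_Ico_succ_top hk, ← ih, ← sum_Ico_consecutive φ (Nat.mul_le_mul_right K hk)
      (Nat.mul_le_mul_right K k.le_succ), sum_Ico_eq_sum_range φ (k * K), Nat.succ_mul,
      Nat.add_sub_cancel_left]

/-- the normalising sum -/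
noncomputable def L2 (k0 k1 : ℕ) : ℝ := ∑ k ∈ Ico k0 k1, 1 / ((k : ℝ) + 1)

/-- the weight of the block `i`, constant along the chains `k K ≤ i < (k + 1) K` -/
noncomputable def lam (K k0 k1 i : ℕ) : ℝ := 1 / ((((i / K : ℕ) : ℝ) + 1) * K * L2 k0 k1)

theorem L2_nonneg (k0 k1 : ℕ) : 0 ≤ L2 k0 k1 := sum_nonneg fun _ _ => by positivity

theorem le_L2 {k0 k1 : ℕ} (h : k0 ≤ k1) : Real.log ((k1 + 1 : ℝ) / (k0 + 1)) ≤ L2 k0 k1 := by
  induction k1, h using Nat.le_induction with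
  | base => simp [L2, div_self (show (k0 : ℝ) + 1 ≠ 0 by positivity)]
  | succ k hk ih =>
    rw [L2, sum_Ico_succ_top hk, ← L2]
    have a : ((k + 1 : ℕ) + 1 : ℝ) / (k0 + 1) = (k + 1) / (k0 + 1) * (1 + 1 / (k + 1)) := by
      push_cast
      field_simp
    have b := Real.log_le_sub_one_of_pos (show (0 : ℝ) < 1 + 1 / (k + 1) by positivity)
    rw [a, Real.log_mul (by positivity) (by positivity)]
    linarith

theorem L2_pos {k0 k1 : ℕ} (h : k0 < k1) : 0 < L2 k0 k1 :=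
  sum_pos (fun _ _ => by positivity) (nonempty_Ico.2 h)

theorem lam_nonneg (K k0 k1 i : ℕ) : 0 ≤ lam K k0 k1 i := by
  have := L2_nonneg k0 k1
  unfold lam
  positivity

theorem lam_chain {K : ℕ} (k0 k1 k : ℕ) {r : ℕ} (hr : r < K) :
    lam K k0 k1 (k * K + r) = 1 / (((k : ℝ) + 1) * K * L2 k0 k1) := by
  rw [lam, mul_comm k, Nat.mul_add_div (by omega), Nat.div_eq_of_lt hr, add_zero]

theorem sum_lam {K k0 k1 : ℕ} (hK : 0 < K) (h : k0 < k1) :
    ∑ i ∈ Ico (k0 * K) (k1 * K), lam K k0 k1 i = 1 := by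
  have h1 := L2_pos h
  have K0 : (0 : ℝ) < K := by exact_mod_cast hK
  rw [sum_blocks _ _ h.le, sum_congr rfl fun k _ => sum_congr rfl fun r hr =>
    lam_chain k0 k1 k (mem_range.1 hr)]
  calc _ = ∑ k ∈ Ico k0 k1, 1 / ((k : ℝ) + 1) / L2 k0 k1 := sum_congr rfl fun k _ => by
        rw [sum_const, card_range, nsmul_eq_mul]
        field_simp
    _ = 1 := by rw [← sum_div, ← L2, div_self h1.ne']

theorem lam_le {K k0 k1 i : ℕ} (hK : 0 < K) (h : k0 < k1) (hi : 1 ≤ i) :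
    lam K k0 k1 i ≤ 1 / (i * L2 k0 k1) := by
  have h1 := L2_pos h
  have h2 : (i : ℝ) ≤ (((i / K : ℕ) : ℝ) + 1) * K := by
    exact_mod_cast (Nat.lt_div_mul_add hK).le.trans_eq (add_one_mul _ _).symm
  have h3 : (0 : ℝ) < i := by exact_mod_cast hi
  rw [lam]
  gcongr

/-- the weight against the mass of the block -/
theorem lam_le_rs : ∃ C : ℝ, 1 ≤ C ∧ ∀ (P τ : ℝ) (K k0 k1 i : ℕ), C ≤ τ → τ ≤ P → 0 < K → k0 < k1 →
    1 ≤ i → 0 < Ch.rs (Tile.QB P τ i) ∧ lam K k0 k1 i ≤ 1 / L2 k0 k1 ∧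
      lam K k0 k1 i ≤ 4 * P / (τ * L2 k0 k1) * Ch.rs (Tile.QB P τ i) := by
  obtain ⟨C, hC, h⟩ := Tile.mass
  refine ⟨C, hC, fun P τ K k0 k1 i a1 a2 a3 a4 a5 => ?_⟩
  have b1 := (h P τ i a1 a2 a5).1
  have b2 := lam_le a3 a4 a5
  have b3 := L2_pos a4
  have b4 : (1 : ℝ) ≤ i := by exact_mod_cast a5
  have b5 : 0 < τ := by linarith
  have b6 : 0 < P := by linarith
  refine ⟨lt_of_lt_of_le (by positivity) b1, b2.trans ?_, b2.trans ?_⟩
  · exact one_div_le_one_div_of_le b3 (le_mul_of_one_le_left b3.le b4)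
  · calc 1 / (i * L2 k0 k1) = 4 * P / (τ * L2 k0 k1) * (τ / (4 * (i * P))) := by field_simp
      _ ≤ _ := by gcongr

/-- The output step. The block `i` gives a gain `P * p i` on `[Y exp (i P), Y exp ((i + 1) P))`. -/
theorem out {XX : Set (ℕ → ℂ)} (hX : Hull XX) {f : ℕ → ℂ} (hf : ∀ n, ‖f n‖ ≤ 1) {Y P v : ℝ}
    {K k0 k1 : ℕ} (hP : 0 < P) (hK : 0 < K) (hk : k0 < k1) (h0 : 1 ≤ k0) (hY : 1 ≤ Y) (p : ℕ → ℝ)
    (hv : v ≤ ∑ i ∈ Ico (k0 * K) (k1 * K), lam K k0 k1 i * p i)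
    (hΨ : ∀ i ∈ Ico (k0 * K) (k1 * K), ∃ Ψ, Gr XX (Real.exp (K * P)) Ψ ∧ P * p i ≤
      gnI (bl (Y * Real.exp (i * P))) (bl (Y * Real.exp (i * P) * Real.exp P)) f Ψ) :
    ∃ k ∈ Ico k0 k1, Pot XX f (Y * Real.exp (k * K * P)) (K * P) (v - 8 / P) := by
  have K0 : (0 : ℝ) < K := by exact_mod_cast hK
  have h1 := L2_pos hk
  obtain ⟨k, hk1, hk2⟩ : ∃ k ∈ Ico k0 k1, v * K ≤ ∑ r ∈ range K, p (k * K + r) := by
    by_contra hc
    push Not at hc
    have : ∑ i ∈ Ico (k0 * K) (k1 * K), lam K k0 k1 i * p i <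
        ∑ i ∈ Ico (k0 * K) (k1 * K), lam K k0 k1 i * v := by
      rw [sum_blocks _ _ hk.le, sum_blocks _ _ hk.le]
      refine sum_lt_sum_of_nonempty (nonempty_Ico.2 hk) fun k h => ?_
      have e : ∀ φ : ℕ → ℝ, ∑ r ∈ range K, lam K k0 k1 (k * K + r) * φ r =
          1 / (((k : ℝ) + 1) * K * L2 k0 k1) * ∑ r ∈ range K, φ r := fun φ => by
        rw [mul_sum]
        exact sum_congr rfl fun r hr => by rw [lam_chain k0 k1 k (mem_range.1 hr)]
      rw [e, e fun _ => v, sum_const, card_range, nsmul_eq_mul, mul_comm _ v]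
      exact mul_lt_mul_of_pos_left (hc k h) (by positivity)
    rw [← sum_mul, sum_lam hK hk, one_mul] at this
    linarith
  refine ⟨k, hk1, ?_⟩
  have hm : ∀ r < K, k * K + r ∈ Ico (k0 * K) (k1 * K) := fun r hr => by
    rw [mem_Ico] at hk1 ⊢
    have := Nat.mul_le_mul_right K hk1.1
    have := Nat.mul_le_mul_right K (Nat.succ_le_of_lt hk1.2)
    rw [Nat.succ_mul] at this
    omega
  choose! Ψ h2 h3 using hΨ
  have k1' : (1 : ℝ) ≤ k := by exact_mod_cast h0.trans (mem_Ico.1 hk1).1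
  have hH : Real.exp (K * P) ≤ Y * Real.exp (k * K * P) :=
    (Real.exp_le_exp.2 (by nlinarith [mul_pos K0 hP])).trans
      (le_mul_of_one_le_left (Real.exp_pos _).le hY)
  obtain ⟨Φ, a1, a2⟩ := cat hX hf hP (Real.one_le_exp (by positivity)) hH (fun r => Ψ (k * K + r))
    fun r hr => h2 _ (hm r hr)
  refine (Loc.pot_iff (by positivity)).2 ⟨Φ, a1, le_trans ?_ a2⟩
  have a3 : P * ∑ r ∈ range K, p (k * K + r) ≤ _ := (mul_sum _ _ _).trans_le
    (sum_le_sum fun r hr => h3 _ (hm r (mem_range.1 hr)))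
  simp only [Nat.cast_add, Nat.cast_mul, add_mul, Real.exp_add, ← mul_assoc Y] at a3
  have a4 : (v - 8 / P) * (K * P) = P * (v * K) - 8 * K := by field_simp
  rw [a4]
  linarith [mul_le_mul_of_nonneg_left hk2 hP.le]

end Pool.Agent.P.MP_a14ce1_nt.Fu.Cat
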