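import Pool.Agent.P.MP_a14ce1_nt.Fu.L8St
import Pool.Agent.P.MP_a14ce1_nt.Fu.Cat

/-! Concatenation along a chain, in the shape used by the local plain step. -/

open Finset

namespace Pool.Agent.P.MP_a14ce1_nt.Fu.L8

open IV (Hull Gr gn)
open Loc (gnI bl LL)

theorem abs_gn {z u : ℂ} (hz : ‖z‖ ≤ 1) (hu : ‖u‖ ≤ 1) : |gn z u| ≤ 4 := by
  rw [IV.gn_eq, abs_le]
  have h := norm_sub_le z u
  constructor <;> nlinarith [norm_nonneg (z - u), norm_nonneg z]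

theorem bl_le_floor (x : ℝ) : bl x ≤ ⌊x⌋₊ ∧ ⌊x⌋₊ ≤ bl x + 1 := by
  have h1 := Nat.ceil_le_floor_add_one x
  have h2 := Nat.floor_le_ceil x
  unfold bl
  omega

theorem one_end {φ : ℕ → ℝ} (hφ : ∀ n, |φ n| ≤ 4) {a b : ℕ} (h1 : a ≤ b) (h2 : b ≤ a + 1) :
    |∑ n ∈ Ioc 0 b, φ n / n - ∑ n ∈ Ioc 0 a, φ n / n| ≤ 4 := by
  rcases h1.eq_or_lt with rfl | h
  · simp
  · obtain rfl : b = a + 1 := by omega
    rw [sum_Ioc_succ_top a.zero_le, add_sub_cancel_left, abs_div, Nat.abs_cast]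
    exact (div_le_self (abs_nonneg _) (by exact_mod_cast a.succ_pos)).trans (hφ _)

theorem gnI_floor {f Ψ : ℕ → ℂ} (hf : ∀ n, ‖f n‖ ≤ 1) (hΨ : ∀ n, ‖Ψ n‖ ≤ 1) {x y : ℝ}
    (hxy : x ≤ y) : gnI ⌊x⌋₊ ⌊y⌋₊ f Ψ - 8 ≤ gnI (bl x) (bl y) f Ψ := by
  have e : ∀ a b : ℕ, a ≤ b → gnI a b f Ψ =
      ∑ n ∈ Ioc 0 b, gn (f n) (Ψ n) / n - ∑ n ∈ Ioc 0 a, gn (f n) (Ψ n) / n := fun a b h => by
    rw [gnI, eq_sub_iff_add_eq', sum_Ioc_consecutive _ a.zero_le h]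
  have h := fun n => abs_gn (hf n) (hΨ n)
  have h1 := abs_le.1 (one_end h (bl_le_floor x).1 (bl_le_floor x).2)
  have h2 := abs_le.1 (one_end h (bl_le_floor y).1 (bl_le_floor y).2)
  rw [e _ _ (Nat.floor_mono hxy), e _ _ (Loc.bl_mono hxy)]
  linarith [h1.1, h2.2]

theorem cat8 : S_Cat8 := by
  refine ⟨36, by norm_num, fun XX hX f Y M t K i0 ρ Ψ hf hY hM ht ht2 hK hi h => ?_⟩
  have K1 : (1 : ℝ) ≤ K := by exact_mod_cast hK
  have i1 : (K : ℝ) + 1 ≤ i0 := by exact_mod_cast hi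
  have hH : 1 ≤ Real.exp (K * M) := Real.one_le_exp (by positivity)
  choose! Φ a1 a2 using fun i (hi : i ∈ Ico i0 (i0 + K)) =>
    Loc.regrid_gn hX hH (h i hi).2 ht ht2 (h i hi).1
  have hm : ∀ r < K, i0 + r ∈ Ico i0 (i0 + K) := fun r hr => mem_Ico.2 ⟨by omega, by omega⟩
  have hY' : Real.exp (K * M) ≤ Y * Real.exp (i0 * M) :=
    (Real.exp_le_exp.2 (by nlinarith)).trans (le_mul_of_one_le_left (Real.exp_pos _).le hY)
  obtain ⟨Θ, b1, b2⟩ := Cat.cat hX hf (by linarith : 0 < M) hH hY' (fun r => Φ (i0 + r))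
    fun r hr => a1 _ (hm r hr)
  refine (Loc.pot_iff (by positivity)).2 ⟨Θ, b1, le_trans ?_ b2⟩
  have key : ∀ r ∈ range K, gnI ⌊Y * Real.exp ((i0 + r : ℕ) * M)⌋₊
      ⌊Y * Real.exp ((i0 + r + 1 : ℕ) * M)⌋₊ f (Ψ (i0 + r)) - (36 * t * M + 8) ≤
      gnI (bl (Y * Real.exp (i0 * M) * Real.exp (r * M)))
        (bl (Y * Real.exp (i0 * M) * Real.exp (r * M) * Real.exp M)) f (Φ (i0 + r)) := by
    intro r hr
    have e1 : Y * Real.exp ((i0 + r : ℕ) * M) = Y * Real.exp (i0 * M) * Real.exp (r * M) := by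
      rw [Nat.cast_add, add_mul, Real.exp_add, mul_assoc]
    have e2 : Y * Real.exp ((i0 + r + 1 : ℕ) * M) =
        Y * Real.exp (i0 * M) * Real.exp (r * M) * Real.exp M := by
      rw [Nat.cast_succ, add_one_mul, Real.exp_add, ← mul_assoc, e1]
    rw [e1, e2]
    set x := Y * Real.exp (i0 * M) * Real.exp (r * M)
    have x2 : 2 ≤ x := by
      have c1 : 2 ≤ Real.exp (K * M) := by nlinarith [Real.add_one_le_exp (K * M)]
      exact (c1.trans hY').trans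
        (le_mul_of_one_le_right (by positivity) (Real.one_le_exp (by positivity)))
    have xy : x ≤ x * Real.exp M :=
      le_mul_of_one_le_right (by linarith) (Real.one_le_exp (by linarith))
    have ρ0 : 0 < ρ (i0 + r) :=
      (mul_pos_iff_of_pos_left ht).1 ((Real.exp_pos _).trans_le (h _ (hm r (mem_range.1 hr))).2)
    have c1 := gnI_floor hf ((h _ (hm r (mem_range.1 hr))).1.bd hX ρ0) xy
    have c2 := a2 _ (hm r (mem_range.1 hr)) _ _ (Loc.one_le_bl x2) (Loc.bl_mono xy) f hf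
    have c3 := Loc.LL_bl x2 (by linarith : 0 ≤ M)
    nlinarith [mul_le_mul_of_nonneg_left c3 ht.le]
  have s := sum_le_sum key
  rw [sum_sub_distrib, sum_const, card_range, nsmul_eq_mul] at s
  rw [sum_Ico_eq_sum_range, Nat.add_sub_cancel_left, sub_mul, div_mul_cancel₀ _ (by positivity)]
  have e : 36 * (t + 1 / M) * (K * M) = K * (36 * t * M + 8) + 28 * K := by field_simp; ring
  rw [e]
  linarith

end Pool.Agent.P.MP_a14ce1_nt.Fu.L8
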