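import Pool.Agent.P.MP_a14ce1_nt.Fu.L8St
import Pool.Agent.P.MP_a14ce1_nt.IV.Grid
import Pool.Agent.P.MP_a14ce1_nt.Nil.Core4

/-!
The compensated core on the concrete weight, class and majorant.
-/

open Finset Function

namespace Pool.Agent.P.MP_a14ce1_nt.Fu.L8

open Ch (rs pv)
open Nil.ES
open Pl (GX prOf)
open Pl.Conc (Sa mem_Sa lv_Sa inr_notMem card_Sa lv_top)
open IV (Hull Gr Up Ep)
open Ax (hull)
open SB (Zb wh)
open Tile (B3)

namespace ConcP

theorem rs_nonneg (S : Finset ℕ) : 0 ≤ rs S := sum_nonneg fun _ _ => by positivity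

theorem rs_mono {S T : Finset ℕ} (h : S ⊆ T) : rs S ≤ rs T :=
  sum_le_sum_of_subset_of_nonneg h fun _ _ _ => by positivity

theorem rs_union_le (S T : Finset ℕ) : rs (S ∪ T) ≤ rs S + rs T := by
  have h := sum_union_inter (s₁ := S) (s₂ := T) (f := fun p : ℕ => (1 : ℝ) / p)
  have h2 := rs_nonneg (S ∩ T)
  simp only [rs] at h2 ⊢
  linarith

theorem rs_biUnion_le {J : Type} [DecidableEq J] (s : Finset J) (P : J → Finset ℕ) :
    rs (s.biUnion P) ≤ ∑ j ∈ s, rs (P j) := by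
  induction s using Finset.induction_on with
  | empty => simp [rs]
  | insert j s hj ih =>
    rw [biUnion_insert, sum_insert hj]
    linarith [rs_union_le (P j) (s.biUnion P)]

theorem Grp_mono {C C' Q y l β : ℕ} {Gs : Fin l → Finset ℕ} {G0 : Finset ℕ}
    (h : Grp C Q y l β Gs G0) (hC : C' ≤ C) (hQ : 1 ≤ Q) : Grp C' Q y l β Gs G0 :=
  { h with
    hQ := (Nat.pow_le_pow_left (Nat.mul_le_mul_right _ hC) _).trans h.hQ
    hy := (Nat.pow_le_pow_right hQ hC).trans h.hy }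

theorem norm_cut_le {G : Finset ℕ} {n : ℕ} {f : ℕ → ℂ} (hf : ∀ N, ‖f N‖ ≤ 1) (N : ℕ) :
    ‖cut G n f N‖ ≤ 1 := by
  unfold cut
  split_ifs
  · exact hf N
  · simp

theorem pv_le {e : Finset ℕ} {Z n : ℕ} (hZ : 1 ≤ Z) (h : ∀ p ∈ e, p ≤ Z) (hn : e.card ≤ n) :
    pv e ≤ Z ^ n :=
  (prod_le_pow_card e (fun p => p) Z h).trans (Nat.pow_le_pow_right hZ hn)

end ConcP

open ConcP in
theorem conc8 (hK : S_Core8) (hRA : S_RepA) (hRB : S_RepB) (hC : S_Cut) (hM : S_Mass)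
    (hL : S_Lev) : S_Conc8 := by
  intro A hA
  obtain ⟨C0, hC0, hL⟩ := hL A hA
  refine ⟨10 ^ 16 + C0, by positivity, ?_⟩
  set C := 10 ^ 16 + C0 with hCd
  intro J _ _ Q y l β R j0 j1 Z n μ Gs G0 G P Ad lam H d s hμ hGr hP hG dP dG hAd lam0 lam1 hn hH
    mP m1 mG mH hW hZ hr1 hr2 hw hd hs f F F' v e δ hf hFF he hδ hv
  have C2 : 10 ^ 16 ≤ C := by omega
  have hl := hGr.l1
  have hQ16 : (10 ^ 16) ^ l ≤ Q :=
    (Nat.pow_le_pow_left (C2.trans (Nat.le_mul_of_pos_right _ hGr.b1)) l).trans hGr.hQ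
  have hQ2 : 2 ≤ Q :=
    le_trans (le_trans (by norm_num) (Nat.le_self_pow (by omega) (10 ^ 16))) hQ16
  have y2 : 2 ≤ y := (hQ2.trans (Nat.le_self_pow (by omega) Q)).trans hGr.hy
  have Q2' : (2 : ℝ) ≤ Q := by exact_mod_cast hQ2
  have βR : (0 : ℝ) < β := by exact_mod_cast hGr.b1
  have H0 : 0 < H := by linarith
  have posG : ∀ k, 0 < rs (Gs k) := fun k =>
    (pos_iff_pos_of_mul_pos (lt_of_lt_of_le one_pos (hGr.ms k))).1 βR
  have posP : ∀ j, 0 < rs (P j) := fun j =>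
    (pos_iff_pos_of_mul_pos (lt_of_lt_of_le one_pos (mP j))).1 H0
  have pos1 : ∀ j, 0 < P1 G (Ad j) := fun j =>
    (pos_iff_pos_of_mul_pos (lt_of_lt_of_le one_pos (m1 j))).1 H0
  have neP : ∀ j, (P j).Nonempty := fun j => by
    rw [nonempty_iff_ne_empty]
    intro h
    have := posP j
    simp [h, rs] at this
  have Z1 : 1 ≤ Z := by
    have hne : G.Nonempty := by
      rw [nonempty_iff_ne_empty]
      intro h
      have := mG
      simp only [h, rs, sum_empty, mul_zero] at this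
      linarith
    obtain ⟨p, hp⟩ := hne
    exact (hG p hp).1.pos.trans_le (hG p hp).2.2
  have hX : Cl (GX (hull A) R) := Pl.basic.1 _ (IV.hull A hA.atm) R hμ.pos
  have w0 := μ.nn (j0 * R)
  have R1 : (1 : ℝ) ≤ R := by exact_mod_cast hμ.pos
  have y1R : (1 : ℝ) ≤ y := by exact_mod_cast (by omega : 1 ≤ y)
  have Z1R : (1 : ℝ) ≤ Z := by exact_mod_cast Z1
  have hms : ∀ c : ℕ, 0 < c → c ≤ R * (y ^ l * Z ^ (n + 1)) ^ 2 → mass μ c ≤ 2 := by
    intro c hc h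
    have h1 := hM μ R j0 j1 c hμ hc
    have h2 : 2 ≤ y ^ l * Z ^ (n + 1) :=
      (y2.trans (Nat.le_self_pow (by omega) y)).trans (Nat.le_mul_of_pos_right _ (by positivity))
    have h3 : 2 * c ≤ R * (y ^ l * Z ^ (n + 1)) ^ C := by
      calc 2 * c ≤ (y ^ l * Z ^ (n + 1)) * (R * (y ^ l * Z ^ (n + 1)) ^ 2) := Nat.mul_le_mul h2 h
        _ = R * (y ^ l * Z ^ (n + 1)) ^ 3 := by ring
        _ ≤ _ := Nat.mul_le_mul_left _ (Nat.pow_le_pow_right (by omega) (by omega))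
    have h4 : (2 : ℝ) * c ≤ R * ((y : ℝ) ^ l * (Z : ℝ) ^ (n + 1)) ^ C := by exact_mod_cast h3
    have h5 := mul_le_mul_of_nonneg_right h4 w0
    nlinarith
  set g := cb Gs posG with hg
  set B : J → Pr := fun j => prOf (P j) (posP j) with hB
  set V : J → Finset ℕ := fun j => G ∪ (univ.erase j).biUnion P with hV
  have memG : ∀ a : Fin l ⊕ Bool → ℕ, (∀ k ∈ Sa l, a k ∈ (g k).s) →
      (fun k => a (Sum.inl k)) ∈ Fintype.piFinset Gs := fun a h =>
    Fintype.mem_piFinset.2 fun k => h _ (mem_Sa.2 ⟨k, rfl⟩)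
  have up : ∀ (j) (k : Fin l), update g (Sum.inr true) (B j) (Sum.inl k) = g (Sum.inl k) :=
    fun j k => update_of_ne (by simp) _ _
  have memU : ∀ j, ∀ a ∈ supp (update g (Sum.inr true) (B j)),
      a (Sum.inr true) ∈ P j ∧ (fun k => a (Sum.inl k)) ∈ Fintype.piFinset Gs := fun j a ha => by
    rw [mem_supp] at ha
    refine ⟨by have := ha (Sum.inr true); rwa [update_self] at this,
      Fintype.mem_piFinset.2 fun k => ?_⟩
    have := ha (Sum.inl k)
    rwa [up] at this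
  have smA : ∀ a ∈ Fintype.piFinset Gs, 0 < ∏ k, a k ∧ ∏ k, a k ≤ y ^ (2 * l) ∧
      ∀ p ∈ G, (∏ k, a k).Coprime p := fun a ha => by
    have h := fun k => hGr.pr k _ (Fintype.mem_piFinset.1 ha k)
    refine ⟨prod_pos fun k _ => (h k).1.pos, ?_, fun p hp => ?_⟩
    · refine (prod_le_pow_card univ a (y ^ 2) fun k _ => (h k).2.2).trans (le_of_eq ?_)
      rw [card_univ, Fintype.card_fin, pow_mul]
    · refine Nat.Coprime.prod_left fun k _ => (Nat.coprime_primes (h k).1 (hG p hp).1).2 ?_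
      have := (h k).2.2
      have := (hG p hp).2.1
      omega
  have pvpos : ∀ e ⊆ G, 0 < pv e := fun e he => prod_pos fun p hp => (hG p (he hp)).1.pos
  have wq : ∀ j, ∀ q ∈ P j, (B j).w q * q = 1 / rs (P j) := fun j q hq => by
    have : (q : ℝ) ≠ 0 := by exact_mod_cast (hP j q hq).1.ne_zero
    change 1 / (q * rs (P j)) * q = _
    field_simp
  have omH : ∀ j, 1 / rs (P j) ≤ H := fun j => by
    rw [div_le_iff₀ (posP j)]; exact mP j
  have HW : H ≤ (8 * H) ^ (10 * (n + 1)) :=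
    le_trans (by linarith) (le_self_pow₀ (by linarith) (by omega))
  have GV : ∀ j, G ⊆ V j := fun j => subset_union_left
  have VH : ∀ j, rs (V j) ≤ H := fun j => by
    have h1 := rs_union_le G ((univ.erase j).biUnion P)
    have h2 := rs_biUnion_le (univ.erase j) P
    have h3 : ∑ i ∈ univ.erase j, rs (P i) ≤ ∑ i, rs (P i) :=
      sum_le_sum_of_subset_of_nonneg (erase_subset _ _) fun i _ _ => (posP i).le
    linarith
  have rep := hRA J μ (cut G (2 * n) f) G {c | 0 < c ∧ c ≤ y ^ (2 * l) ∧ ∀ p ∈ G, c.Coprime p}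
    B V Ad lam H 2 n (fun p hp => (hG p hp).1) hAd lam0 lam1 hH m1
    (fun j q hq => ⟨(hP j q hq).1, disjoint_right.1 (dG j) hq, (wq j q hq).trans_le (omH j)⟩) GV
    (fun j j' hne => (subset_biUnion_of_mem P (mem_erase.2 ⟨hne, mem_univ _⟩)).trans
      subset_union_right) VH (fun c hc => hc.2.2)
    (fun c hc => (hC μ f G c (2 * n) hf fun p hp => ⟨(hG p hp).1, hc.2.2 p hp⟩).1 fun e he hc2 => by
      refine hms _ (Nat.mul_pos hc.1 (pvpos e he)) ?_
      have h1 := pv_le Z1 (fun p hp => (hG p (he hp)).2.2) hc2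
      calc c * pv e ≤ y ^ (2 * l) * Z ^ (2 * (n + 1)) :=
            Nat.mul_le_mul hc.2.1 (h1.trans (Nat.pow_le_pow_right Z1 (by omega)))
        _ = (y ^ l * Z ^ (n + 1)) ^ 2 := by ring
        _ ≤ _ := Nat.le_mul_of_pos_left _ hμ.pos)
  obtain ⟨π0, πs, πm, πd⟩ := hRB J G Ad lam n (fun p hp => (hG p hp).1) (fun j e he => (hAd j e he).1)
    lam0 pos1
  have π1 : ∑ κ, rP G Ad lam κ = 1 := by
    have := πs fun _ => 1
    simpa [lam1] using this
  have lev := fun κ : KK Ad => hL Q y l β R j0 j1 Z n (pv κ.2.1) μ Gs G0 (P κ.1) (V κ.1) H posG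
    (posP κ.1) hμ (Grp_mono hGr (by omega) (by omega)) (hP κ.1)
    (fun p hp => by
      rcases mem_union.1 hp with h | h
      · exact hG p h
      · obtain ⟨i, -, hi⟩ := mem_biUnion.1 h
        exact hP i p hi)
    (disjoint_union_right.2 ⟨(dG κ.1).symm, (disjoint_biUnion_right _ _ _).2 fun i hi =>
      dP _ _ (mem_erase.1 hi).1.symm⟩)
    hH (mP κ.1) (mG.trans (mul_le_mul_of_nonneg_left (rs_mono (GV κ.1)) H0.le)) (VH κ.1) hW hZ
    (pvpos _ (hAd _ _ κ.2.2).1)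
    (fun q hq a ha => (Nat.mul_le_mul_left _ (Nat.pow_le_pow_right (by omega) (by omega))).trans
      (hr1 _ _ κ.2.2 q hq a ha))
    (fun q hq => (Nat.mul_le_mul (Nat.mul_le_mul_left _ (Nat.pow_le_pow_right Z1
      (Nat.mul_le_mul_right _ (by omega)))) (Nat.pow_le_pow_right (by omega) (by omega))).trans
      (hr2 _ _ κ.2.2 q hq))
    (le_trans (mul_le_mul_of_nonneg_left (le_trans (pow_le_pow_right₀ (one_le_pow₀ y1R)
      (show C0 ≤ C by omega)) (pow_le_pow_left₀ (by positivity)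
        (le_mul_of_one_le_right (by positivity) (one_le_pow₀ Z1R)) C)) (by positivity)) hw)
  have hcut : ∀ (κ : KK Ad) (c : ℕ) (u : ℕ → ℂ), 0 < c → pv κ.2.1 * c ≤ R →
      (∀ p ∈ G, c.Coprime p) → u ∈ GX (hull A) R →
      |pot μ (pv κ.2.1 * c) f u - pot μ (pv κ.2.1 * c) (cut G (2 * n) f) u| ≤ 4 * rs G / n := by
    intro κ c u hc hR hcop hu
    refine (hC μ f G c n hf fun p hp => ⟨(hG p hp).1, hcop p hp⟩).2 _ u (hAd _ _ κ.2.2).1
      (hAd _ _ κ.2.2).2 hn (hX.bdd u hu) fun p hp => hms _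
        (Nat.mul_pos (Nat.mul_pos (pvpos _ (hAd _ _ κ.2.2).1) hc) (hG p hp).1.pos) ?_
    refine Nat.mul_le_mul hR ((hG p hp).2.2.trans ?_)
    exact ((Nat.le_self_pow (by omega) Z).trans (Nat.le_mul_of_pos_left _ (by positivity))).trans
      (Nat.le_self_pow (by omega) _)
  obtain ⟨u, hu, h⟩ := hK (Fin l ⊕ Bool) (KK Ad) J (KK Ad × Finset ℕ) (Sum.inr true)
    (Sum.inr false) (Sa l) μ (GX (hull A) R) g (cut G (2 * n) f)
    {c | 0 < c ∧ c ≤ y ^ (2 * l) ∧ ∀ p ∈ G, c.Coprime p} B (fun j => gam (V j) n)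
    (fun j => 1 / rs (P j)) Sigma.fst (rP G Ad lam) (fun κ : KK Ad => pv κ.2.1) (rT G Ad n)
    Prod.fst (rV Ad) (rC G Ad lam) (l / 8) (1 / (Q : ℝ) ^ 4) ((8 * H) ^ (10 * (n + 1))) 2 s
    (by simp) (inr_notMem _) (inr_notMem _) hX (by positivity)
    (by rw [div_le_one (by positivity)]; exact one_le_pow₀ (by linarith)) hs (hH.trans HW)
    (norm_cut_le hf) π0 π1 (fun j q hq => ⟨(hP j q hq).1, (wq j q hq).le⟩)
    (fun j => ⟨(one_div_pos.2 (posP j)).le, (omH j).trans HW⟩) dP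
    (fun a ha => by
      rw [lv_Sa]
      exact smA _ (memG a fun k _ => mem_supp.1 ha k))
    rep (fun κ => (lev κ).1) (fun κ => (lev κ).2.1) (fun κ => (lev κ).2.2)
    (fun κ a => F (pv κ.2.1 * lv (insert (Sum.inr true) (Sa l)) a))
    (fun κ k a => F' (pv κ.2.1 * lv ((insert (Sum.inr true) (Sa l)).erase k) a))
    (fun κ => ⟨fun a _ => (hFF _).1, fun a a' h => by
      simp only [dep_lv _ a a' h]⟩)
    (fun κ k _ => ⟨fun a _ => (hFF _).2, fun a a' h => by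
      simp only [dep_lv _ a a' h]⟩)
  have best := fun κ : KK Ad => exists_ge_Ew g fun a =>
    pot μ (pv κ.2.1 * lv (Sa l) a) (cut G (2 * n) f) (u κ a)
  choose a ha hbest using best
  have memA := fun κ => memG (a κ) fun k _ => mem_supp.1 (ha κ) k
  obtain ⟨g1, hg1, hg2⟩ := πm fun j e => if he : e ∈ Ad j then
    pot μ (pv e * lv (Sa l) (a ⟨j, e, he⟩)) f (u ⟨j, e, he⟩ (a ⟨j, e, he⟩)) else 0
  refine ⟨g1, fun j k => a ⟨j, g1 j, hg1 j⟩ (Sum.inl k),
    fun j => u ⟨j, g1 j, hg1 j⟩ (a ⟨j, g1 j, hg1 j⟩), fun j => ⟨hg1 j, memA _, hu _ _⟩, ?_⟩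
  have e1 : ∑ j, lam j * (if he : g1 j ∈ Ad j then pot μ (pv (g1 j) * lv (Sa l) (a ⟨j, g1 j, he⟩)) f
      (u ⟨j, g1 j, he⟩ (a ⟨j, g1 j, he⟩)) else 0) =
      ∑ j, lam j * pot μ (pv (g1 j) * ∏ k, a ⟨j, g1 j, hg1 j⟩ (Sum.inl k)) f
        (u ⟨j, g1 j, hg1 j⟩ (a ⟨j, g1 j, hg1 j⟩)) :=
    sum_congr rfl fun j _ => by rw [dif_pos (hg1 j), lv_Sa]
  have a0 : ∑ κ, rP G Ad lam κ * Ew g (fun a =>
      pot μ (pv κ.2.1 * lv (Sa l) a) (cut G (2 * n) f) (u κ a)) ≤
      ∑ κ : KK Ad, rP G Ad lam κ * (if he : κ.2.1 ∈ Ad κ.1 then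
        pot μ (pv κ.2.1 * lv (Sa l) (a ⟨κ.1, κ.2.1, he⟩)) f
          (u ⟨κ.1, κ.2.1, he⟩ (a ⟨κ.1, κ.2.1, he⟩)) else 0) + 4 * rs G / n := by
    rw [← one_mul (4 * rs G / n), ← π1, sum_mul, ← sum_add_distrib]
    refine sum_le_sum fun κ _ => ?_
    rw [← mul_add, dif_pos κ.2.2]
    refine mul_le_mul_of_nonneg_left ((hbest κ).trans ?_) (π0 κ)
    obtain ⟨q, hq⟩ := neP κ.1
    have h1 := smA _ (memA κ)
    have h2 := hr1 _ _ κ.2.2 q hq _ (memA κ)
    have h3 := hcut κ (lv (Sa l) (a κ)) (u κ (a κ)) (by rw [lv_Sa]; exact h1.1)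
      (by
        rw [lv_Sa]
        refine le_trans ?_ ((Nat.le_mul_of_pos_right _ (by positivity)).trans h2)
        exact Nat.mul_le_mul_right _ (Nat.le_mul_of_pos_right _ (hP _ q hq).1.pos))
      (by rw [lv_Sa]; exact h1.2.2) (hu _ _)
    have h4 := (abs_le.1 h3).1
    change _ ≤ pot μ (pv κ.2.1 * lv (Sa l) (a κ)) f (u κ (a κ)) + _
    linarith
  have a1 : v - 4 * rs G / n ≤ ∑ κ, rP G Ad lam κ * Ew (update g (Sum.inr true) (B κ.1)) fun a =>
      pot μ (pv κ.2.1 * lv (insert (Sum.inr true) (Sa l)) a) (cut G (2 * n) f)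
        (F (pv κ.2.1 * lv (insert (Sum.inr true) (Sa l)) a)) := by
    rw [← one_mul (v - 4 * rs G / n), ← π1, sum_mul]
    refine sum_le_sum fun κ _ => mul_le_mul_of_nonneg_left ?_ (π0 κ)
    rw [← Ew_const (update g (Sum.inr true) (B κ.1)) (v - 4 * rs G / n)]
    refine Ew_le _ fun a ha => ?_
    obtain ⟨h1, h2⟩ := memU _ a ha
    have h0 := smA _ h2
    have h3 := (hv _ _ κ.2.2 _ h1 _ h2 (pv κ.2.1 * lv (insert (Sum.inr true) (Sa l)) a)
      (by rw [lv_top, mul_assoc])).1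
    have h4 := hcut κ (lv (insert (Sum.inr true) (Sa l)) a) _
      (by rw [lv_top]; exact Nat.mul_pos (hP _ _ h1).1.pos h0.1)
      (by
        rw [lv_top, ← mul_assoc]
        exact (Nat.le_mul_of_pos_right _ (by positivity)).trans (hr1 _ _ κ.2.2 _ h1 _ h2))
      (fun p hp => by
        rw [lv_top]
        refine Nat.Coprime.mul_left ((Nat.coprime_primes (hP _ _ h1).1 (hG p hp).1).2 ?_)
          (h0.2.2 p hp)
        exact fun e => disjoint_left.1 (dG κ.1) hp (e ▸ h1))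
      (hFF (pv κ.2.1 * lv (insert (Sum.inr true) (Sa l)) a)).1
    have h5 := (abs_le.1 h4).2
    linarith
  have a2 : ∑ κ, rP G Ad lam κ * ∑ k ∈ Sa l, Ew (update g (Sum.inr true) (B κ.1)) (fun a =>
      br μ (pv κ.2.1 * lv (insert (Sum.inr true) (Sa l)) a)
        (F (pv κ.2.1 * lv (insert (Sum.inr true) (Sa l)) a) -
          F' (pv κ.2.1 * lv ((insert (Sum.inr true) (Sa l)).erase k) a))
        (F (pv κ.2.1 * lv (insert (Sum.inr true) (Sa l)) a) -
          F' (pv κ.2.1 * lv ((insert (Sum.inr true) (Sa l)).erase k) a))) ≤ l * e := by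
    rw [← one_mul ((l : ℝ) * e), ← π1, sum_mul]
    refine sum_le_sum fun κ _ => mul_le_mul_of_nonneg_left ?_ (π0 κ)
    refine (sum_le_card_nsmul _ _ e fun k hk => ?_).trans (by rw [card_Sa, nsmul_eq_mul])
    obtain ⟨j, rfl⟩ := mem_Sa.1 hk
    refine (Ew_le _ (h' := fun a => δ (a (Sum.inl j))) fun a ha => ?_).trans ?_
    · obtain ⟨h1, h2⟩ := memU _ a ha
      have e1 : lv (insert (Sum.inr true) (Sa l)) a =
          lv ((insert (Sum.inr true) (Sa l)).erase (Sum.inl j)) a * a (Sum.inl j) := by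
        rw [← lv_insert (notMem_erase _ _), insert_erase (mem_insert_of_mem hk)]
      exact (hv _ _ κ.2.2 _ h1 _ h2 (pv κ.2.1 * lv (insert (Sum.inr true) (Sa l)) a)
        (by rw [lv_top, mul_assoc])).2 j _ (by rw [e1, mul_assoc])
    · rw [Ew_resample _ (Sum.inl j)]
      simp only [update_self]
      rw [Ew_const, up]
      exact hδ j
  have a3 : (10000 : ℝ) ^ (Fintype.card (Fin l ⊕ Bool) + 1) ≤ Q := by
    have h1 : 10000 ^ (Fintype.card (Fin l ⊕ Bool) + 1) ≤ Q := by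
      refine le_trans ?_ hQ16
      rw [show (10 : ℕ) ^ 16 = 10000 ^ 4 by norm_num, ← pow_mul]
      refine Nat.pow_le_pow_right (by norm_num) ?_
      simp only [Fintype.card_sum, Fintype.card_fin, Fintype.card_bool]
      omega
    exact_mod_cast h1
  have a31 : (10000 : ℝ) ^ (Fintype.card (Fin l ⊕ Bool) + 1) * ((8 * H) ^ (10 * (n + 1))) ^ 2 *
      (1 / (Q : ℝ) ^ 4) ≤ 1 / Q := by
    calc _ ≤ (Q : ℝ) * (Q : ℝ) ^ 2 * (1 / (Q : ℝ) ^ 4) :=
          mul_le_mul_of_nonneg_right (mul_le_mul a3 (pow_le_pow_left₀ (by positivity) hW 2)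
            (by positivity) (by positivity)) (by positivity)
      _ = _ := by field_simp
  have a32 : (10000 : ℝ) ^ (Fintype.card (Fin l ⊕ Bool) + 1) * (1 / (Q : ℝ) ^ 4) ≤ 1 / Q := by
    refine le_trans ?_ a31
    exact mul_le_mul_of_nonneg_right (le_mul_of_one_le_right (by positivity)
      (one_le_pow₀ (hH.trans HW))) (by positivity)
  have a4 : 2 * (l * e) / (((l / 8 : ℕ) : ℝ) + 1) ≤ 16 * e := by
    rw [div_le_iff₀ (by positivity)]
    have h1 : (l : ℝ) ≤ 8 * (((l / 8 : ℕ) : ℝ) + 1) := by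
      exact_mod_cast (by omega : l ≤ 8 * (l / 8 + 1))
    nlinarith
  have a5 := (div_le_div_of_nonneg_right (mul_le_mul_of_nonneg_left a2 (by norm_num : (0 : ℝ) ≤ 2))
    (by positivity : (0 : ℝ) ≤ ((l / 8 : ℕ) : ℝ) + 1)).trans a4
  have a7 : ∑ κ, rP G Ad lam κ * (|∑ θ ∈ (rT G Ad n κ).filter (fun θ => θ.1.1 = κ.1),
      rC G Ad lam κ θ| * (1 + 1 / rs (P κ.1))) ≤ d := by
    rw [πd fun j => 1 / rs (P j)]
    refine (sum_le_sum fun j _ => mul_le_mul_of_nonneg_left (hd j) (lam0 j)).trans_eq ?_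
    rw [← sum_mul, lam1, one_mul]
  have a6 := div_le_div_of_nonneg_right (add_le_add (add_le_add a5
    (mul_le_mul_of_nonneg_left a7 (by norm_num : (0 : ℝ) ≤ 8))) a31) hs.le
  rw [e1] at hg2
  have e2 : 8 * rs G / n = 4 * rs G / n + 4 * rs G / n := by ring
  linarith

end Pool.Agent.P.MP_a14ce1_nt.Fu.L8
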