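import Mathlib

/-! Small-ball bound for a random signed sum over a random subset with product weights. -/

open Finset

namespace Pool.Agent.P.MP_a14ce1_nt.Fu.SB

variable {ι : Type*} [DecidableEq ι]

/-- total weight of the subsets of S -/
noncomputable def PP (w : ι → ℝ) (S : Finset ι) : ℝ := ∏ i ∈ S, (1 + w i)

omit [DecidableEq ι] in
theorem PP_pos {w : ι → ℝ} {S : Finset ι} (h : ∀ i ∈ S, 0 ≤ w i) : 0 < PP w S :=
  prod_pos fun i hi => by linarith [h i hi]

theorem PP_eq (w : ι → ℝ) (S : Finset ι) : PP w S = ∑ A ∈ S.powerset, ∏ i ∈ A, w i := by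
  unfold PP; exact prod_one_add S

theorem sum_erase_le (S : Finset ι) (F : ι → Finset ι → ℝ)
    (hF : ∀ i ∈ S, ∀ A ⊆ S, 0 ≤ F i A) :
    ∑ A ∈ S.powerset, ∑ i ∈ A, F i (A.erase i) ≤ ∑ A ∈ S.powerset, ∑ i ∈ S, F i A := by
  have e1 : ∑ A ∈ S.powerset, ∑ i ∈ A, F i (A.erase i) =
      ∑ i ∈ S, ∑ A ∈ S.powerset.filter (fun A => i ∈ A), F i (A.erase i) := by
    refine sum_comm' ?_
    intro A i
    simp only [mem_powerset, mem_filter]
    exact ⟨fun h => ⟨⟨h.1, h.2⟩, h.1 h.2⟩, fun h => ⟨h.1.1, h.1.2⟩⟩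
  rw [e1, sum_comm]
  refine sum_le_sum fun i hi => ?_
  have hinj : Set.InjOn (fun A : Finset ι => A.erase i)
      (S.powerset.filter (fun A => i ∈ A) : Finset _) := by
    intro A hA A' hA' h
    have h1 : i ∈ A := (mem_filter.1 (mem_coe.1 hA)).2
    have h2 : i ∈ A' := (mem_filter.1 (mem_coe.1 hA')).2
    simp only at h
    rw [← insert_erase h1, h, insert_erase h2]
  rw [← sum_image (f := fun A => F i A) hinj]
  refine sum_le_sum_of_subset_of_nonneg ?_ fun A hA _ => hF i hi A (mem_powerset.1 hA)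
  intro A hA
  obtain ⟨A', hA', rfl⟩ := mem_image.1 hA
  exact mem_powerset.2 ((erase_subset _ _).trans (mem_powerset.1 (mem_filter.1 hA').1))

/-- dyadic decomposition by the largest member -/
theorem sb_abs (G : Finset ι) (w s : ι → ℝ) (hw : ∀ i ∈ G, 0 ≤ w i) (l0 : ℝ) (hl0 : 0 ≤ l0)
    (m : ℕ → ℝ)
    (hm : ∀ (j : ℕ) (u : ℝ), ∑ i ∈ G.filter (fun i => 2 ^ j * l0 < |s i| ∧ |s i| ≤ 2 * (2 ^ j * l0) ∧
      u ≤ s i ∧ s i ≤ u + l0), w i ≤ m j) (u : ℝ) (n : ℕ) :
    ∑ A ∈ (G.filter (fun i => |s i| ≤ 2 ^ n * l0)).powerset.filter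
        (fun A => u ≤ ∑ i ∈ A, s i ∧ ∑ i ∈ A, s i ≤ u + l0), ∏ i ∈ A, w i ≤
      PP w (G.filter (fun i => |s i| ≤ l0)) +
        ∑ j ∈ range n, m j * PP w (G.filter (fun i => |s i| ≤ 2 * (2 ^ j * l0))) := by
  induction n with
  | zero =>
    simp only [pow_zero, one_mul, range_zero, sum_empty, add_zero]
    rw [PP_eq]
    exact sum_le_sum_of_subset_of_nonneg (filter_subset _ _) fun A hA _ =>
      prod_nonneg fun i hi => hw i (mem_of_mem_filter i (mem_powerset.1 hA hi))
  | succ n ih =>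
    rw [sum_range_succ, ← add_assoc]
    have e0 : (2 : ℝ) ^ (n + 1) * l0 = 2 * (2 ^ n * l0) := by ring
    rw [e0]
    set t : ℝ := 2 ^ n * l0 with ht
    have ht0 : 0 ≤ t := by positivity
    set S := G.filter (fun i => |s i| ≤ 2 * t) with hS
    set S0 := G.filter (fun i => |s i| ≤ t) with hS0
    have hSG : S ⊆ G := filter_subset _ _
    set J : Finset ι → Prop := fun A => u ≤ ∑ i ∈ A, s i ∧ ∑ i ∈ A, s i ≤ u + l0 with hJ
    set F : ι → Finset ι → ℝ := fun i A =>
      (∏ k ∈ A, w k) * if t < |s i| ∧ |s i| ≤ 2 * t ∧ (u - ∑ k ∈ A, s k) ≤ s i ∧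
        s i ≤ (u - ∑ k ∈ A, s k) + l0 then w i else 0 with hF
    have hF0 : ∀ i ∈ S, ∀ A ⊆ S, 0 ≤ F i A := by
      intro i hi A hA
      refine mul_nonneg (prod_nonneg fun k hk => hw k (hSG (hA hk))) ?_
      split_ifs
      · exact hw i (hSG hi)
      · exact le_rfl
    have h1 : ∑ A ∈ S.powerset.filter J, ∏ i ∈ A, w i ≤
        ∑ A ∈ S0.powerset.filter J, ∏ i ∈ A, w i +
          ∑ A ∈ S.powerset, ∑ i ∈ A, F i (A.erase i) := by
      have e2 : ∑ A ∈ S0.powerset.filter J, ∏ i ∈ A, w i =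
          ∑ A ∈ S.powerset, if A ⊆ S0 ∧ J A then ∏ i ∈ A, w i else 0 := by
        rw [← sum_filter]
        refine sum_congr ?_ fun _ _ => rfl
        ext A
        simp only [mem_filter, mem_powerset]
        refine ⟨fun h => ⟨h.1.trans ?_, h⟩, fun h => h.2⟩
        intro i hi
        rw [hS0, mem_filter] at hi
        exact mem_filter.2 ⟨hi.1, by linarith [hi.2]⟩
      rw [e2, sum_filter, ← sum_add_distrib]
      refine sum_le_sum fun A hA => ?_
      have hAS := mem_powerset.1 hA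
      have hnn : ∀ i ∈ A, 0 ≤ F i (A.erase i) := fun i hi =>
        hF0 i (hAS hi) _ ((erase_subset _ _).trans hAS)
      have hW : 0 ≤ ∏ i ∈ A, w i := prod_nonneg fun k hk => hw k (hSG (hAS hk))
      by_cases hJA : J A
      · rw [if_pos hJA]
        by_cases h0 : A ⊆ S0
        · rw [if_pos ⟨h0, hJA⟩]
          linarith [sum_nonneg hnn]
        · rw [if_neg fun h => h0 h.1, zero_add]
          obtain ⟨i, hi, hi'⟩ := not_subset.1 h0
          have hiS := mem_filter.1 (hAS hi)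
          have hti : t < |s i| := by
            by_contra hc
            exact hi' (mem_filter.2 ⟨hiS.1, not_lt.1 hc⟩)
          refine le_trans (le_of_eq ?_) (single_le_sum hnn hi)
          have a1 : ∑ k ∈ A, s k = s i + ∑ k ∈ A.erase i, s k := (add_sum_erase A s hi).symm
          have a2 : ∏ k ∈ A, w k = w i * ∏ k ∈ A.erase i, w k := (mul_prod_erase A w hi).symm
          simp only [hF]
          rw [if_pos ⟨hti, hiS.2, by linarith [hJA.1], by linarith [hJA.2]⟩, a2, mul_comm]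
      · rw [if_neg hJA]
        refine add_nonneg ?_ (sum_nonneg hnn)
        split_ifs
        · exact hW
        · exact le_rfl
    have h2 : ∑ A ∈ S.powerset, ∑ i ∈ S, F i A ≤ m n * PP w S := by
      rw [PP_eq, mul_sum]
      refine sum_le_sum fun A hA => ?_
      have hW : 0 ≤ ∏ i ∈ A, w i := prod_nonneg fun k hk => hw k (hSG (mem_powerset.1 hA hk))
      simp only [hF]
      rw [← mul_sum, mul_comm (m n)]
      refine mul_le_mul_of_nonneg_left (le_trans ?_ (hm n (u - ∑ k ∈ A, s k))) hW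
      rw [← sum_filter]
      refine sum_le_sum_of_subset_of_nonneg ?_ fun i hi _ => hw i (mem_of_mem_filter i hi)
      intro i hi
      rw [mem_filter] at hi ⊢
      exact ⟨hSG hi.1, hi.2⟩
    have h3 := sum_erase_le S F hF0
    linarith

omit [DecidableEq ι] in
/-- probability that nothing above t is active -/
theorem tail (G : Finset ι) (w s : ι → ℝ) (hw : ∀ i ∈ G, 0 ≤ w i) (t : ℝ) :
    PP w (G.filter (fun i => |s i| ≤ t)) ≤
      PP w G * Real.exp (-∑ i ∈ G.filter (fun i => t < |s i|), w i / (1 + w i)) := by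
  have e1 : PP w G = PP w (G.filter (fun i => |s i| ≤ t)) *
      PP w (G.filter (fun i => t < |s i|)) := by
    unfold PP
    rw [← prod_filter_mul_prod_filter_not G (fun i => |s i| ≤ t)]
    simp only [not_le]
  have h0 : 0 < PP w (G.filter (fun i => |s i| ≤ t)) :=
    PP_pos fun i hi => hw i (mem_of_mem_filter i hi)
  rw [e1, mul_assoc]
  refine le_mul_of_one_le_right h0.le ?_
  unfold PP
  rw [← sum_neg_distrib, Real.exp_sum, ← prod_mul_distrib]
  refine one_le_prod fun i hi => ?_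
  have hi0 := hw i (mem_of_mem_filter i hi)
  have h1 := Real.add_one_le_exp (-(w i / (1 + w i)))
  have h2 : (1 + w i) * (-(w i / (1 + w i)) + 1) = 1 := by field_simp; ring
  calc (1 : ℝ) = (1 + w i) * (-(w i / (1 + w i)) + 1) := h2.symm
    _ ≤ _ := by gcongr

theorem q_facts : 26 / 25 ≤ (2 : ℝ) ^ (1 / 16 : ℝ) ∧ ((2 : ℝ) ^ (1 / 16 : ℝ)) ^ 16 = 2 ∧
    ((2 : ℝ) ^ (1 / 16 : ℝ)) ^ 2 ≤ 2 := by
  have h16 : ((2 : ℝ) ^ (1 / 16 : ℝ)) ^ 16 = 2 := by
    rw [← Real.rpow_natCast, ← Real.rpow_mul (by norm_num)]; norm_num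
  have h0 : 0 < (2 : ℝ) ^ (1 / 16 : ℝ) := by positivity
  have h1 : 26 / 25 ≤ (2 : ℝ) ^ (1 / 16 : ℝ) := by
    by_contra hc
    have := pow_lt_pow_left₀ (not_le.1 hc) h0.le (n := 16) (by norm_num)
    rw [h16] at this
    norm_num at this
  refine ⟨h1, h16, ?_⟩
  calc ((2 : ℝ) ^ (1 / 16 : ℝ)) ^ 2 ≤ ((2 : ℝ) ^ (1 / 16 : ℝ)) ^ 16 :=
        pow_le_pow_right₀ (by linarith) (by norm_num)
    _ = 2 := h16

theorem sum_min_le (q z : ℝ) (hq : 26 / 25 ≤ q) (hq2 : q ≤ 2) (hz : 0 < z) (n : ℕ) :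
    ∑ j ∈ range n, min (z * q ^ j) (z * q ^ j)⁻¹ ≤ 200 := by
  set g : ℕ → ℝ := fun j => z * q ^ j / (1 + z * q ^ j) with hg
  have hq0 : 0 < q := by linarith
  have h1 : ∀ j, min (z * q ^ j) (z * q ^ j)⁻¹ ≤ 200 * (g (j + 1) - g j) := by
    intro j
    simp only [hg]
    have e : z * q ^ (j + 1) = q * (z * q ^ j) := by ring
    rw [e]
    have hy : 0 < z * q ^ j := by positivity
    generalize z * q ^ j = y at hy
    have e2 : q * y / (1 + q * y) - y / (1 + y) = (q - 1) * y / ((1 + q * y) * (1 + y)) := by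
      field_simp; ring
    have hd : 0 < (1 + q * y) * (1 + y) := by positivity
    rw [e2, ← mul_div_assoc, le_div_iff₀ hd]
    have hqy : q * y ≤ 2 * y := by gcongr
    rcases le_total y 1 with h | h
    · have a1 : (1 + q * y) * (1 + y) ≤ 8 := by nlinarith
      calc min y y⁻¹ * ((1 + q * y) * (1 + y)) ≤ y * 8 := by
            gcongr; exact min_le_left _ _
        _ ≤ _ := by nlinarith
    · have a1 : (1 + q * y) * (1 + y) ≤ 8 * y ^ 2 := by nlinarith
      calc min y y⁻¹ * ((1 + q * y) * (1 + y)) ≤ y⁻¹ * (8 * y ^ 2) := by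
            gcongr; exact min_le_right _ _
        _ = 8 * y := by field_simp
        _ ≤ _ := by nlinarith
  refine (sum_le_sum fun j _ => h1 j).trans ?_
  rw [← mul_sum, sum_range_sub]
  have a1 : g n ≤ 1 := by
    simp only [hg]; rw [div_le_one (by positivity)]; linarith
  have a2 : 0 ≤ g 0 := by simp only [hg]; positivity
  linarith

/-- the constant of the small-ball bound -/
noncomputable def Csb (K c0 : ℝ) : ℝ := Real.exp |c0| * (1 + 800 * K)

theorem Csb_pos {K : ℝ} (hK : 0 ≤ K) (c0 : ℝ) : 0 < Csb K c0 := by unfold Csb; positivity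

/-- SB. Members i of G are active independently with odds w i; the sum of the sizes s i of the active
members lies in a given interval of length l0 with probability at most C l0 / l. -/
theorem sb (G : Finset ι) (w s : ι → ℝ) {K c0 l0 l : ℝ} (hK : 0 ≤ K) (hl0 : 0 < l0) (hl : l0 ≤ l)
    (hw : ∀ i ∈ G, 0 ≤ w i)
    (hW : ∀ t, l0 ≤ t → ∀ u, ∑ i ∈ G.filter (fun i => t < |s i| ∧ |s i| ≤ 2 * t ∧
      u ≤ s i ∧ s i ≤ u + l0), w i ≤ K * (l0 / t) * max 1 ((l / t) ^ (1 / 16 : ℝ)))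
    (hT : ∀ t, l0 ≤ t → t ≤ l → 9 / 8 * Real.log (l / t) - c0 ≤
      ∑ i ∈ G.filter (fun i => t < |s i|), w i / (1 + w i)) (u : ℝ) :
    ∑ A ∈ G.powerset.filter (fun A => u ≤ ∑ i ∈ A, s i ∧ ∑ i ∈ A, s i ≤ u + l0), ∏ i ∈ A, w i ≤
      Csb K c0 * (l0 / l) * PP w G := by
  have hl' : 0 < l := by linarith
  have hP := PP_pos hw
  have hE : 1 ≤ Real.exp |c0| := Real.one_le_exp (abs_nonneg _)
  obtain ⟨q1, q16, q2⟩ := q_facts
  set q : ℝ := (2 : ℝ) ^ (1 / 16 : ℝ) with hq
  have hq0 : 0 < q := by linarith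
  have hq2 : q ≤ 2 := by nlinarith
  set z : ℝ := (l0 / l) ^ (1 / 16 : ℝ) with hz
  have hz0 : 0 < z := by positivity
  have root : ∀ y x : ℝ, 0 < y → y ^ 16 = x → x ^ (1 / 16 : ℝ) = y := by
    intro y x hy h
    rw [← h, ← Real.rpow_natCast, ← Real.rpow_mul hy.le]; norm_num
  have z16 : z ^ 16 = l0 / l := by
    rw [hz, ← Real.rpow_natCast, ← Real.rpow_mul (by positivity)]; norm_num
  -- tail bound
  have hle : ∀ t, PP w (G.filter (fun i => |s i| ≤ t)) ≤ PP w G := by
    intro t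
    refine (tail G w s hw t).trans (mul_le_of_le_one_right hP.le ?_)
    rw [Real.exp_le_one_iff, neg_nonpos]
    exact sum_nonneg fun i hi => by
      have := hw i (mem_of_mem_filter i hi); positivity
  have htail : ∀ t y : ℝ, l0 ≤ t → 0 < y → y ^ 16 = t / l →
      PP w (G.filter (fun i => |s i| ≤ t)) ≤ PP w G * (Real.exp |c0| * y ^ 18) := by
    intro t y ht hy h16
    have ht0 : 0 < t := by linarith
    rcases le_total t l with h | h
    · refine (tail G w s hw t).trans (mul_le_mul_of_nonneg_left ?_ hP.le)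
      have a1 := hT t ht h
      have a2 : Real.log (l / t) = -(16 * Real.log y) := by
        have : l / t = (y ^ 16)⁻¹ := by rw [h16, inv_div]
        rw [this, Real.log_inv, Real.log_pow]; norm_num
      have a3 : y ^ 18 = Real.exp (18 * Real.log y) := by
        rw [show (18 : ℝ) * Real.log y = Real.log (y ^ 18) by rw [Real.log_pow]; norm_num,
          Real.exp_log (by positivity)]
      rw [a3, ← Real.exp_add, Real.exp_le_exp]
      linarith [le_abs_self c0]
    · refine (hle t).trans (le_mul_of_one_le_right hP.le ?_)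
      have a1 : 1 ≤ y := by
        by_contra hc
        have := pow_lt_one₀ hy.le (not_le.1 hc) (n := 16) (by norm_num)
        rw [h16, div_lt_one hl'] at this
        linarith
      exact one_le_mul_of_one_le_of_one_le hE (one_le_pow₀ a1)
  obtain ⟨n, hn⟩ : ∃ n : ℕ, ∀ i ∈ G, |s i| ≤ 2 ^ n * l0 := by
    obtain ⟨n, hn⟩ := pow_unbounded_of_one_lt ((∑ i ∈ G, |s i|) / l0) (show (1 : ℝ) < 2 by norm_num)
    refine ⟨n, fun i hi => ?_⟩
    rw [div_lt_iff₀ hl0] at hn
    exact (single_le_sum (f := fun i => |s i|) (fun i _ => abs_nonneg _) hi).trans hn.le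
  have key := sb_abs G w s hw l0 hl0.le
    (fun j => K * (l0 / (2 ^ j * l0)) * max 1 ((l / (2 ^ j * l0)) ^ (1 / 16 : ℝ)))
    (fun j u => hW _ (le_mul_of_one_le_left hl0.le (one_le_pow₀ (by norm_num))) u) u n
  rw [filter_true_of_mem hn] at key
  refine key.trans ?_
  have hz1 : z ≤ 1 := by
    by_contra hc
    have := one_lt_pow₀ (not_le.1 hc) (n := 16) (by norm_num)
    rw [z16, one_lt_div hl'] at this
    linarith
  have b0 : PP w (G.filter (fun i => |s i| ≤ l0)) ≤ Real.exp |c0| * (l0 / l) * PP w G := by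
    refine (htail l0 z le_rfl hz0 z16).trans ?_
    have : z ^ 18 ≤ z ^ 16 := pow_le_pow_of_le_one hz0.le hz1 (by norm_num)
    rw [← z16]
    calc _ ≤ PP w G * (Real.exp |c0| * z ^ 16) := by gcongr
      _ = _ := by ring
  have b1 : ∀ j ∈ range n, K * (l0 / (2 ^ j * l0)) * max 1 ((l / (2 ^ j * l0)) ^ (1 / 16 : ℝ)) *
      PP w (G.filter (fun i => |s i| ≤ 2 * (2 ^ j * l0))) ≤
      4 * K * Real.exp |c0| * (l0 / l) * PP w G * min (z * q ^ j) (z * q ^ j)⁻¹ := by
    intro j _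
    have hy : 0 < z * q ^ j := by positivity
    have y16 : (z * q ^ j) ^ 16 = 2 ^ j * l0 / l := by
      rw [mul_pow, ← pow_mul, mul_comm j, pow_mul, q16, z16]; ring
    have ht : l0 ≤ 2 ^ j * l0 := le_mul_of_one_le_left hl0.le (one_le_pow₀ (by norm_num))
    generalize z * q ^ j = y at hy y16
    generalize (2 : ℝ) ^ j * l0 = t at y16 ht
    have ht0 : 0 < t := by linarith
    have r1 : (l / t) ^ (1 / 16 : ℝ) = y⁻¹ :=
      root _ _ (by positivity) (by rw [inv_pow, y16, inv_div])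
    have r2 : l0 / t = l0 / l * (y ^ 16)⁻¹ := by rw [y16]; field_simp
    have hll : 0 < l0 / l := by positivity
    rw [r1, r2]
    rcases le_total y 1 with h | h
    · have hyi : 1 ≤ y⁻¹ := one_le_inv₀ hy |>.2 h
      rw [max_eq_right hyi, min_eq_left (h.trans hyi)]
      have c1 := htail (2 * t) (q * y) (by linarith) (by positivity)
        (by rw [mul_pow, q16, y16]; ring)
      have c2 : (q * y) ^ 18 ≤ 4 * y ^ 18 := by
        rw [mul_pow, show q ^ 18 = q ^ 16 * q ^ 2 by ring, q16]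
        gcongr; linarith
      calc _ ≤ K * (l0 / l * (y ^ 16)⁻¹) * y⁻¹ * (PP w G * (Real.exp |c0| * (4 * y ^ 18))) := by
            gcongr
            exact c1.trans (by gcongr)
        _ = _ := by field_simp
    · have hyi : y⁻¹ ≤ 1 := inv_le_one_of_one_le₀ h
      rw [max_eq_left hyi, min_eq_right (hyi.trans h)]
      have c2 : (y ^ 16)⁻¹ ≤ y⁻¹ := by
        gcongr
        exact le_self_pow₀ h (by norm_num)
      have c3 := hle (2 * t)
      have c4 : 0 < PP w (G.filter (fun i => |s i| ≤ 2 * t)) :=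
        PP_pos fun i hi => hw i (mem_of_mem_filter i hi)
      calc _ ≤ K * (l0 / l * y⁻¹) * 1 * PP w G := by gcongr
        _ = 1 * K * 1 * (l0 / l) * PP w G * y⁻¹ := by ring
        _ ≤ _ := by gcongr; norm_num
  have b2 := sum_le_sum b1
  rw [← mul_sum] at b2
  have b3 := sum_min_le q z q1 hq2 hz0 n
  have b4 : 4 * K * Real.exp |c0| * (l0 / l) * PP w G *
      ∑ j ∈ range n, min (z * q ^ j) (z * q ^ j)⁻¹ ≤
      4 * K * Real.exp |c0| * (l0 / l) * PP w G * 200 := by gcongr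
  unfold Csb
  calc _ ≤ Real.exp |c0| * (l0 / l) * PP w G +
        4 * K * Real.exp |c0| * (l0 / l) * PP w G * 200 := add_le_add b0 (b2.trans b4)
    _ = _ := by ring

end Pool.Agent.P.MP_a14ce1_nt.Fu.SB
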