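import Pool.Agent.P.MP_a14ce1_nt.Ch.Mertens
import Pool.Agent.P.MP_a14ce1_nt.Fu.SB

/-! First and second moment of weighted divisor windows, with one weight for each prime. -/

open Finset

namespace Pool.Agent.P.MP_a14ce1_nt.Fu.SB

open Pool.Agent.P.MP_a14ce1_nt.Ch

/-- normalising constant -/
noncomputable def Zb (B : ℕ → ℝ) (G : Finset ℕ) : ℝ := ∏ p ∈ G, (1 + B p / p)

/-- weight of a sub-object -/
noncomputable def wh (B : ℕ → ℝ) (G g : Finset ℕ) : ℝ := (∏ p ∈ g, B p) / Zb B G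

/-- total weight of the sub-objects of A -/
noncomputable def Vb (B : ℕ → ℝ) (G A : Finset ℕ) : ℝ := (∏ p ∈ A, (B p + 1)) / Zb B G

/-- weight of the sub-objects of A with logarithm in [u, u + l0] -/
noncomputable def dg (B : ℕ → ℝ) (G : Finset ℕ) (u l0 : ℝ) (A : Finset ℕ) : ℝ :=
  ∑ g ∈ A.powerset.filter (fun g => u ≤ Real.log (pv g) ∧ Real.log (pv g) ≤ u + l0), wh B G g

/-- hypotheses on a population of primes with weights -/
structure Pop (K c0 l0 l : ℝ) (G : Finset ℕ) (B : ℕ → ℝ) : Prop where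
  K0 : 0 ≤ K
  l0_ge : 1 ≤ l0
  l0_le : l0 ≤ l
  prime : ∀ p ∈ G, p.Prime
  B3 : ∀ p ∈ G, 3 ≤ B p
  Bsq : ∀ p ∈ G, B p ^ 2 ≤ p
  Bsm : ∀ p ∈ G, B p ≤ K ∨ B p ^ 16 * Real.log p ≤ K ^ 16 * l
  dens : ∀ t, l0 ≤ t → t ≤ l → 9 / 16 * Real.log (l / t) - c0 ≤
    ∑ p ∈ G.filter (fun p : ℕ => t < Real.log p), B p / ((B p + 1) * p)

theorem log_pv {g : Finset ℕ} (h : ∀ p ∈ g, p.Prime) :
    Real.log (pv g) = ∑ p ∈ g, Real.log p := by
  unfold pv
  rw [Nat.cast_prod, Real.log_prod fun p hp => by exact_mod_cast (h p hp).ne_zero]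

theorem mertens_window : ∃ C : ℝ, 0 < C ∧ ∀ (S : Finset ℕ) (u l0 : ℝ), 0 ≤ l0 →
    (∀ p ∈ S, p.Prime ∧ u ≤ Real.log p ∧ Real.log p ≤ u + l0) →
    ∑ p ∈ S, Real.log p / p ≤ l0 + C := by
  obtain ⟨C, hC, h⟩ := m2
  have l2 : Real.log 2 ≤ 1 := by
    linarith [Real.log_le_sub_one_of_pos (show (0 : ℝ) < 2 by norm_num)]
  have nn : ∀ q : ℕ, 0 ≤ Real.log q / q := fun q =>
    div_nonneg (Real.log_natCast_nonneg q) (Nat.cast_nonneg q)
  refine ⟨1 + 2 * C, by positivity, fun S u l0 hl0 hS => ?_⟩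
  rcases S.eq_empty_or_nonempty with rfl | ⟨p0, hp0⟩
  · simp only [sum_empty]; positivity
  have hy : 1 ≤ Real.exp (u + l0) :=
    Real.one_le_exp ((Real.log_natCast_nonneg p0).trans (hS p0 hp0).2.2)
  have a1 := (abs_le.1 (h _ hy)).2
  rw [Real.log_exp] at a1
  have hmem : ∀ p ∈ S, p ∈ pr 0 (Real.exp (u + l0)) ∧ Real.exp u ≤ p := by
    intro p hp
    obtain ⟨b1, b2, b3⟩ := hS p hp
    have hp0 : (0 : ℝ) < p := by exact_mod_cast b1.pos
    refine ⟨(mem_pr le_rfl).2 ⟨b1, hp0, ?_⟩, ?_⟩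
    · rw [← Real.exp_log hp0]; exact Real.exp_le_exp.2 b3
    · rw [← Real.exp_log hp0]; exact Real.exp_le_exp.2 b2
  have he := Real.exp_pos u
  have e1 : Real.log (Real.exp u / 2) = u - Real.log 2 := by
    rw [Real.log_div he.ne' (by norm_num), Real.log_exp]
  rcases le_or_gt 1 (Real.exp u / 2) with h2 | h2
  · have a2 := (abs_le.1 (h _ h2)).1
    have a3 : ∑ q ∈ S, Real.log q / q + ∑ p ∈ pr 0 (Real.exp u / 2), Real.log p / p ≤
        ∑ p ∈ pr 0 (Real.exp (u + l0)), Real.log p / p := by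
      rw [← sum_union]
      · refine sum_le_sum_of_subset_of_nonneg ?_ fun q _ _ => nn q
        intro q hq
        rcases mem_union.1 hq with hq | hq
        · exact (hmem q hq).1
        · obtain ⟨b1, b2, b3⟩ := (mem_pr le_rfl).1 hq
          have : Real.exp u ≤ Real.exp (u + l0) := Real.exp_le_exp.2 (by linarith)
          exact (mem_pr le_rfl).2 ⟨b1, b2, by linarith⟩
      · rw [disjoint_left]
        intro q hq hq'
        have := (hmem q hq).2
        have := ((mem_pr le_rfl).1 hq').2.2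
        linarith
    linarith
  · have a3 : ∑ q ∈ S, Real.log q / q ≤ ∑ p ∈ pr 0 (Real.exp (u + l0)), Real.log p / p :=
      sum_le_sum_of_subset_of_nonneg (fun q hq => (hmem q hq).1) fun q _ _ => nn q
    have a4 : Real.log (Real.exp u / 2) ≤ 0 := Real.log_nonpos (by positivity) h2.le
    linarith

/-- the Mertens constant for windows -/
noncomputable def Cm : ℝ := mertens_window.choose

theorem Cm_pos : 0 < Cm := mertens_window.choose_spec.1

variable {K c0 l0 l : ℝ} {G : Finset ℕ} {B : ℕ → ℝ}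

theorem window (h : Pop K c0 l0 l G B) {w : ℕ → ℝ} (hw : ∀ p ∈ G, w p ≤ B p / p) {t : ℝ}
    (ht : l0 ≤ t) (u : ℝ) (S : Finset ℕ)
    (hS : ∀ p ∈ S, p ∈ G ∧ t < Real.log p ∧ u ≤ Real.log p ∧ Real.log p ≤ u + l0) :
    ∑ p ∈ S, w p ≤ K * (1 + Cm) * (l0 / t) * max 1 ((l / t) ^ (1 / 16 : ℝ)) := by
  have h1 := h.l0_ge
  have h2 := h.l0_le
  have hK := h.K0
  have hC := Cm_pos
  have ht0 : 0 < t := by linarith
  have hl : 0 < l := by linarith
  set r : ℝ := (l / t) ^ (1 / 16 : ℝ) with hr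
  have r0 : 0 < r := by positivity
  have r16 : r ^ 16 = l / t := by
    rw [hr, ← Real.rpow_natCast, ← Real.rpow_mul (by positivity)]; norm_num
  have hM : 1 ≤ max 1 r := le_max_left _ _
  have a1 : ∀ p ∈ S, w p ≤ K * max 1 r / t * (Real.log p / p) := by
    intro p hp
    obtain ⟨b1, b2, _, _⟩ := hS p hp
    have hp0 : (0 : ℝ) < p := by exact_mod_cast (h.prime p b1).pos
    have hB : B p ≤ K * max 1 r := by
      rcases h.Bsm p b1 with c | c
      · exact c.trans (le_mul_of_one_le_right hK hM)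
      · have c0 := h.B3 p b1
        have c1 : B p ^ 16 ≤ (K * r) ^ 16 := by
          rw [mul_pow, r16, ← mul_div_assoc, le_div_iff₀ ht0]
          refine le_trans ?_ c
          gcongr
        have c2 : B p ≤ K * r := le_of_pow_le_pow_left₀ (by norm_num) (by positivity) c1
        exact c2.trans (by gcongr; exact le_max_right _ _)
    have c3 : 1 ≤ Real.log p / t := by rw [le_div_iff₀ ht0]; linarith
    calc w p ≤ B p / p := hw p b1
      _ ≤ K * max 1 r / p := by gcongr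
      _ ≤ K * max 1 r / p * (Real.log p / t) := le_mul_of_one_le_right (by positivity) c3
      _ = _ := by ring
  refine (sum_le_sum a1).trans ?_
  rw [← mul_sum]
  have a2 := mertens_window.choose_spec.2 S u l0 (by linarith) fun p hp =>
    ⟨h.prime p (hS p hp).1, (hS p hp).2.2⟩
  have a3 : ∑ p ∈ S, Real.log p / p ≤ (1 + Cm) * l0 := by
    refine a2.trans ?_
    change l0 + Cm ≤ _
    nlinarith
  calc _ ≤ K * max 1 r / t * ((1 + Cm) * l0) := by gcongr
    _ = _ := by ring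

/-- small ball for the logarithm of one random product of primes -/
theorem sb_one (h : Pop K c0 l0 l G B) {w : ℕ → ℝ} (hw0 : ∀ p ∈ G, 0 ≤ w p)
    (hw : ∀ p ∈ G, w p ≤ B p / p)
    (hw2 : ∀ p ∈ G, 2 * (B p / ((B p + 1) * p)) ≤ w p / (1 + w p)) (u : ℝ) :
    ∑ A ∈ G.powerset.filter (fun A => u ≤ Real.log (pv A) ∧ Real.log (pv A) ≤ u + l0),
      ∏ p ∈ A, w p ≤ Csb (K * (1 + Cm)) (2 * c0) * (l0 / l) * PP w G := by
  have h1 := h.l0_ge
  have hK := h.K0
  have hC := Cm_pos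
  have key := sb G w (fun p : ℕ => Real.log p) (K := K * (1 + Cm)) (c0 := 2 * c0)
    (by positivity) (by linarith : 0 < l0) h.l0_le hw0
    (fun t ht u => window h hw ht u _ fun p hp => by
      rw [mem_filter, abs_of_nonneg (Real.log_natCast_nonneg p)] at hp
      exact ⟨hp.1, hp.2.1, hp.2.2.2⟩)
    (fun t ht ht' => by
      have a1 := h.dens t ht ht'
      have a2 : 2 * ∑ p ∈ G.filter (fun p : ℕ => t < Real.log p), B p / ((B p + 1) * p) ≤
          ∑ p ∈ G.filter (fun p : ℕ => t < |Real.log p|), w p / (1 + w p) := by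
        simp only [abs_of_nonneg (Real.log_natCast_nonneg _)]
        rw [mul_sum]
        exact sum_le_sum fun p hp => hw2 p (mem_of_mem_filter p hp)
      linarith) u
  refine le_trans (le_of_eq ?_) key
  refine sum_congr (filter_congr fun A hA => ?_) fun _ _ => rfl
  rw [log_pv fun p hp => h.prime p (mem_powerset.1 hA hp)]

/-- small ball for the difference of the logarithms of two random products of primes -/
theorem sb_two (h : Pop K c0 l0 l G B) {w : ℕ → ℝ} (hw0 : ∀ p ∈ G, 0 ≤ w p)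
    (hw : ∀ p ∈ G, w p ≤ B p / p)
    (hw2 : ∀ p ∈ G, B p / ((B p + 1) * p) ≤ w p / (1 + w p)) (u : ℝ) :
    ∑ z ∈ (G.powerset ×ˢ G.powerset).filter (fun z => u ≤ Real.log (pv z.1) - Real.log (pv z.2) ∧
      Real.log (pv z.1) - Real.log (pv z.2) ≤ u + l0), (∏ p ∈ z.1, w p) * ∏ p ∈ z.2, w p ≤
      Csb (2 * (K * (1 + Cm))) (2 * c0) * (l0 / l) * PP w G ^ 2 := by
  have h1 := h.l0_ge
  have hK := h.K0
  have hC := Cm_pos
  set w2 : ℕ ⊕ ℕ → ℝ := Sum.elim w w with hw2d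
  set s2 : ℕ ⊕ ℕ → ℝ := Sum.elim (fun p : ℕ => Real.log p) (fun p : ℕ => -Real.log p) with hs2
  have key := sb (G.disjSum G) w2 s2 (K := 2 * (K * (1 + Cm))) (c0 := 2 * c0)
    (by positivity) (by linarith : 0 < l0) h.l0_le
    (by
      rintro (p | p) hp
      · exact hw0 p (inl_mem_disjSum.1 hp)
      · exact hw0 p (inr_mem_disjSum.1 hp))
    (fun t ht u => by
      rw [sum_filter, sum_disjSum, ← sum_filter, ← sum_filter]
      have a1 := window h hw ht u (G.filter (fun p => t < |s2 (Sum.inl p)| ∧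
          |s2 (Sum.inl p)| ≤ 2 * t ∧ u ≤ s2 (Sum.inl p) ∧ s2 (Sum.inl p) ≤ u + l0)) fun p hp => by
        simp only [hs2, Sum.elim_inl, mem_filter, abs_of_nonneg (Real.log_natCast_nonneg p)] at hp
        exact ⟨hp.1, hp.2.1, hp.2.2.2⟩
      have a2 := window h hw ht (-u - l0) (G.filter (fun p => t < |s2 (Sum.inr p)| ∧
          |s2 (Sum.inr p)| ≤ 2 * t ∧ u ≤ s2 (Sum.inr p) ∧ s2 (Sum.inr p) ≤ u + l0)) fun p hp => by
        simp only [hs2, Sum.elim_inr, mem_filter, abs_neg,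
          abs_of_nonneg (Real.log_natCast_nonneg p)] at hp
        exact ⟨hp.1, hp.2.1, by linarith [hp.2.2.2.2], by linarith [hp.2.2.2.1]⟩
      simp only [hw2d, Sum.elim_inl, Sum.elim_inr]
      linarith)
    (fun t ht ht' => by
      have a1 := h.dens t ht ht'
      have a2 : ∑ p ∈ G.filter (fun p : ℕ => t < Real.log p), B p / ((B p + 1) * p) ≤
          ∑ p ∈ G.filter (fun p : ℕ => t < Real.log p), w p / (1 + w p) :=
        sum_le_sum fun p hp => hw2 p (mem_of_mem_filter p hp)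
      rw [sum_filter, sum_disjSum, ← sum_filter, ← sum_filter]
      simp only [hw2d, hs2, Sum.elim_inl, Sum.elim_inr, abs_neg,
        abs_of_nonneg (Real.log_natCast_nonneg _)]
      linarith) u
  have e1 : PP w2 (G.disjSum G) = PP w G ^ 2 := by
    unfold PP; rw [prod_disjSum, sq]; rfl
  rw [e1] at key
  refine le_trans ?_ key
  set T := (G.powerset ×ˢ G.powerset).filter (fun z => u ≤ Real.log (pv z.1) - Real.log (pv z.2) ∧
      Real.log (pv z.1) - Real.log (pv z.2) ≤ u + l0)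
  have hinj : Set.InjOn (fun z : Finset ℕ × Finset ℕ => z.1.disjSum z.2) (T : Set _) := by
    intro z _ z' _ hz
    exact Prod.ext (disjSum_inj.1 hz).1 (disjSum_inj.1 hz).2
  have e2 : ∑ z ∈ T, (∏ p ∈ z.1, w p) * ∏ p ∈ z.2, w p =
      ∑ z ∈ T, ∏ i ∈ z.1.disjSum z.2, w2 i :=
    sum_congr rfl fun z _ => by rw [prod_disjSum]; rfl
  rw [e2, ← sum_image (f := fun A => ∏ i ∈ A, w2 i) hinj]
  refine sum_le_sum_of_subset_of_nonneg ?_ fun A hA _ => prod_nonneg ?_
  · intro A hA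
    obtain ⟨z, hz, rfl⟩ := mem_image.1 hA
    simp only [T, mem_filter, mem_product, mem_powerset] at hz
    obtain ⟨⟨b1, b2⟩, b3⟩ := hz
    rw [log_pv fun p hp => h.prime p (b1 hp), log_pv fun p hp => h.prime p (b2 hp)] at b3
    rw [mem_filter, mem_powerset, sum_disjSum]
    simp only [hs2, Sum.elim_inl, Sum.elim_inr, sum_neg_distrib]
    exact ⟨disjSum_mono b1 b2, by linarith [b3.1], by linarith [b3.2]⟩
  · rintro (p | p) hp
    · exact hw0 p (inl_mem_disjSum.1 (mem_powerset.1 (mem_of_mem_filter A hA) hp))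
    · exact hw0 p (inr_mem_disjSum.1 (mem_powerset.1 (mem_of_mem_filter A hA) hp))

theorem Pop.facts (h : Pop K c0 l0 l G B) {p : ℕ} (hp : p ∈ G) :
    3 ≤ B p ∧ 3 * B p ≤ p ∧ B p * B p ≤ p ∧ (9 : ℝ) ≤ p := by
  have h3 := h.B3 p hp
  have h2 := h.Bsq p hp
  refine ⟨h3, by nlinarith, by nlinarith, by nlinarith⟩

theorem Zb_pos (h : Pop K c0 l0 l G B) : 0 < Zb B G :=
  prod_pos fun p hp => by
    obtain ⟨a1, _, _, a4⟩ := h.facts hp
    positivity

/-- SB1, first moment: the product probability nu(g) = wh(g)/g gives a window mass at most C l0/l -/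
theorem sb1 (h : Pop K c0 l0 l G B) (u : ℝ) :
    ∑ g ∈ G.powerset.filter (fun g => u ≤ Real.log (pv g) ∧ Real.log (pv g) ≤ u + l0),
      wh B G g / pv g ≤ Csb (K * (1 + Cm)) (2 * c0) * (l0 / l) := by
  have key := sb_one h (w := fun p => B p / p)
    (fun p hp => by obtain ⟨a1, _, _, a4⟩ := h.facts hp; positivity) (fun p hp => le_rfl)
    (fun p hp => by
      obtain ⟨a1, a2, a3, a4⟩ := h.facts hp
      have e : B p / p / (1 + B p / p) = B p / (p + B p) := by field_simp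
      rw [e, ← mul_div_assoc, div_le_div_iff₀ (by positivity) (by positivity)]
      have : 2 * (p + B p) ≤ (B p + 1) * p := by nlinarith
      nlinarith) u
  have hZ := Zb_pos h
  have e1 : PP (fun p : ℕ => B p / p) G = Zb B G := rfl
  rw [e1, ← div_le_iff₀ hZ, sum_div] at key
  refine le_trans (le_of_eq (sum_congr rfl fun g _ => ?_)) key
  unfold wh pv
  rw [prod_div_distrib, Nat.cast_prod]
  ring

/-- odds of a common prime -/
noncomputable def aa (B : ℕ → ℝ) (p : ℕ) : ℝ := B p ^ 2 / ((B p + 1) * p - B p)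

/-- odds of a prime in one of the two objects only -/
noncomputable def bb (B : ℕ → ℝ) (p : ℕ) : ℝ := B p / ((B p + 1) * p - B p)

theorem ab_facts (h : Pop K c0 l0 l G B) {p : ℕ} (hp : p ∈ G) :
    (0 ≤ aa B p ∧ aa B p ≤ B p / p ∧ 2 * (B p / ((B p + 1) * p)) ≤ aa B p / (1 + aa B p)) ∧
    (0 ≤ bb B p ∧ bb B p ≤ 1 / p ∧ bb B p ≤ B p / p ∧
      B p / ((B p + 1) * p) ≤ bb B p / (1 + bb B p)) := by
  obtain ⟨a1, a2, a3, a4⟩ := h.facts hp
  have hd : B p * p ≤ (B p + 1) * p - B p := by nlinarith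
  have hd0 : 0 < (B p + 1) * p - B p := by nlinarith
  have b1 : bb B p ≤ 1 / p := by
    unfold bb; rw [div_le_div_iff₀ hd0 (by positivity)]; linarith
  refine ⟨⟨by unfold aa; positivity, ?_, ?_⟩, by unfold bb; positivity, b1, ?_, le_of_eq ?_⟩
  · unfold aa; rw [div_le_div_iff₀ hd0 (by positivity)]; nlinarith
  · have e : aa B p / (1 + aa B p) = B p ^ 2 / ((B p + 1) * p - B p + B p ^ 2) := by
      unfold aa; field_simp
    rw [e, ← mul_div_assoc, div_le_div_iff₀ (by positivity) (by positivity)]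
    have c1 : 2 * ((B p + 1) * p - B p + B p ^ 2) ≤ B p * ((B p + 1) * p) := by
      have c2 : 0 ≤ (B p - 3) * ((B p + 1) * p) := by
        have : 0 ≤ B p - 3 := by linarith
        positivity
      nlinarith
    nlinarith
  · exact b1.trans (by gcongr; linarith)
  · unfold bb; field_simp; ring

theorem sum_above (h : Pop K c0 l0 l G B) {v : Finset ℕ} (hv : v ⊆ G) :
    ∑ T ∈ G.powerset.filter (fun T => v ⊆ T), mu G T / ∏ p ∈ T, (B p + 1) =
      (∏ p ∈ G, (1 - B p / ((B p + 1) * p))) * ∏ p ∈ v, 1 / ((B p + 1) * p - B p) := by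
  have key : ∏ q ∈ G, ((1 / ((B q + 1) * (q : ℝ))) + (if q ∈ v then 0 else 1 - 1 / (q : ℝ))) =
      ∑ T ∈ G.powerset.filter (fun T => v ⊆ T), mu G T / ∏ p ∈ T, (B p + 1) := by
    rw [prod_add, sum_filter]
    refine sum_congr rfl fun T hT => ?_
    split_ifs with hs
    · unfold mu
      have e1 : ∏ q ∈ T, (1 / ((B q + 1) * (q : ℝ))) =
          (∏ q ∈ T, (1 : ℝ) / q) / ∏ p ∈ T, (B p + 1) := by
        rw [← prod_div_distrib]
        exact prod_congr rfl fun q _ => by rw [div_div, mul_comm]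
      have e2 : ∏ q ∈ G \ T, (if q ∈ v then 0 else 1 - 1 / (q : ℝ)) =
          ∏ q ∈ G \ T, (1 - 1 / (q : ℝ)) :=
        prod_congr rfl fun q hq => if_neg fun hq' => (mem_sdiff.1 hq).2 (hs hq')
      rw [e1, e2]; ring
    · obtain ⟨q, q1, q2⟩ := not_subset.1 hs
      rw [prod_eq_zero (f := fun q : ℕ => if q ∈ v then (0 : ℝ) else 1 - 1 / (q : ℝ))
        (mem_sdiff.2 ⟨hv q1, q2⟩) (if_pos q1), mul_zero]
  rw [← key]
  have e3 : ∏ p ∈ v, 1 / ((B p + 1) * p - B p) =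
      ∏ p ∈ G, if p ∈ v then 1 / ((B p + 1) * p - B p) else 1 := by
    rw [prod_ite_mem, inter_eq_right.2 hv]
  rw [e3, ← prod_mul_distrib]
  refine prod_congr rfl fun q hq => ?_
  obtain ⟨a1, a2, a3, a4⟩ := h.facts hq
  have h1 : (B q + 1) * q - B q ≠ 0 := by nlinarith
  have h2 : (q : ℝ) ≠ 0 := by linarith
  have h3 : B q + 1 ≠ 0 := by linarith
  split_ifs
  · field_simp; ring
  · field_simp; ring

theorem pair_wt (B : ℕ → ℝ) (g g' : Finset ℕ) :
    (∏ p ∈ g, B p) * (∏ p ∈ g', B p) * ∏ p ∈ g ∪ g', 1 / ((B p + 1) * p - B p) =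
      (∏ p ∈ g \ g', bb B p) * (∏ p ∈ g' \ g, bb B p) * ∏ p ∈ g ∩ g', aa B p := by
  have e1 : g ∪ g' = (g' \ g) ∪ ((g \ g') ∪ (g ∩ g')) := by
    ext q; simp only [mem_union, mem_sdiff, mem_inter]; tauto
  have d1 : Disjoint (g \ g') (g ∩ g') := disjoint_sdiff_inter g g'
  have d2 : Disjoint (g' \ g) ((g \ g') ∪ (g ∩ g')) := by
    rw [disjoint_left]; intro q; simp only [mem_union, mem_sdiff, mem_inter]; tauto
  have c1 : ∏ p ∈ g, B p = (∏ p ∈ g \ g', B p) * ∏ p ∈ g ∩ g', B p := by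
    rw [← prod_union d1, sdiff_union_inter]
  have c2 : ∏ p ∈ g', B p = (∏ p ∈ g' \ g, B p) * ∏ p ∈ g ∩ g', B p := by
    rw [inter_comm, ← prod_union (disjoint_sdiff_inter g' g), sdiff_union_inter]
  have wb : ∀ S : Finset ℕ, ∏ p ∈ S, bb B p =
      (∏ p ∈ S, B p) * ∏ p ∈ S, 1 / ((B p + 1) * p - B p) := by
    intro S; unfold bb
    rw [← prod_mul_distrib]
    exact prod_congr rfl fun q _ => by ring
  have wa : ∀ S : Finset ℕ, ∏ p ∈ S, aa B p =
      (∏ p ∈ S, B p) ^ 2 * ∏ p ∈ S, 1 / ((B p + 1) * p - B p) := by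
    intro S; unfold aa
    rw [← prod_pow, ← prod_mul_distrib]
    exact prod_congr rfl fun q _ => by ring
  rw [e1, prod_union d2, prod_union d1, wb, wb, wa, c1, c2]
  ring

/-- the constant of the Euler product -/
noncomputable def Ce : ℝ := Real.exp (4 * ∑' n : ℕ, 1 / (n : ℝ) ^ (3 / 2 : ℝ))

theorem euler (h : Pop K c0 l0 l G B) :
    (∏ p ∈ G, (1 - B p / ((B p + 1) * p))) * PP (aa B) G * PP (bb B) G ^ 2 ≤ Ce * Zb B G := by
  have hs : Summable fun n : ℕ => 1 / (n : ℝ) ^ (3 / 2 : ℝ) :=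
    Real.summable_one_div_nat_rpow.2 (by norm_num)
  have s1 : ∑ p ∈ G, 1 / (p : ℝ) ^ (3 / 2 : ℝ) ≤ ∑' n : ℕ, 1 / (n : ℝ) ^ (3 / 2 : ℝ) :=
    hs.sum_le_tsum G fun _ _ => by positivity
  have s2 : Real.exp (∑ p ∈ G, 4 * (1 / (p : ℝ) ^ (3 / 2 : ℝ))) ≤ Ce := by
    unfold Ce; rw [Real.exp_le_exp, ← mul_sum]; linarith
  refine le_trans ?_ (mul_le_mul_of_nonneg_right s2 (Zb_pos h).le)
  unfold PP Zb
  rw [Real.exp_sum, ← prod_pow, ← prod_mul_distrib, ← prod_mul_distrib, ← prod_mul_distrib]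
  have k0 : ∀ p ∈ G, 0 ≤ 1 - B p / ((B p + 1) * p) := by
    intro p hp
    obtain ⟨a1, a2, a3, a4⟩ := h.facts hp
    rw [sub_nonneg, div_le_one (by positivity)]; nlinarith
  refine prod_le_prod (fun p hp => ?_) fun p hp => ?_
  · obtain ⟨⟨a0, _⟩, b0, _⟩ := ab_facts h hp
    have := k0 p hp
    positivity
  · obtain ⟨a1, a2, a3, a4⟩ := h.facts hp
    obtain ⟨⟨a0, a5, _⟩, b0, b1, _⟩ := ab_facts h hp
    have k0 := k0 p hp
    have k1 : 1 - B p / ((B p + 1) * p) ≤ 1 := by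
      have : 0 ≤ B p / ((B p + 1) * p) := by positivity
      linarith
    have e1 : (1 - B p / ((B p + 1) * p)) * (1 + aa B p + 2 * bb B p) = 1 + B p / p := by
      unfold aa bb
      have h1 : (B p + 1) * p - B p ≠ 0 := by nlinarith
      have h2 : (p : ℝ) ≠ 0 := by linarith
      have h3 : B p + 1 ≠ 0 := by linarith
      field_simp; ring
    have hp0 : (0 : ℝ) < p := by linarith
    set y : ℝ := (p : ℝ) ^ (1 / 2 : ℝ) with hy
    have y0 : 0 < y := by positivity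
    have y2 : y ^ 2 = p := by
      rw [hy, ← Real.rpow_natCast, ← Real.rpow_mul hp0.le]; norm_num
    have y3 : (p : ℝ) ^ (3 / 2 : ℝ) = y ^ 3 := by
      rw [hy, ← Real.rpow_natCast, ← Real.rpow_mul hp0.le]; norm_num
    have hBy : B p ≤ y := le_of_pow_le_pow_left₀ (n := 2) (by norm_num) y0.le
      (by rw [y2]; exact h.Bsq p hp)
    set v : ℝ := 1 / y with hv
    have v0 : 0 ≤ v := by positivity
    have v1 : v ≤ 1 := by rw [hv, div_le_one y0]; linarith
    have c1 : aa B p ≤ v := by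
      refine a5.trans ?_
      rw [hv, ← y2, div_le_div_iff₀ (by positivity) y0]; nlinarith
    have c2 : bb B p ≤ v ^ 2 := by rw [hv, one_div, inv_pow, y2, ← one_div]; exact b1
    have e2 : 1 / (p : ℝ) ^ (3 / 2 : ℝ) = v ^ 3 := by rw [y3, hv, one_div, one_div, inv_pow]
    have r1 : bb B p ^ 2 + 2 * aa B p * bb B p + aa B p * bb B p ^ 2 ≤ 4 * v ^ 3 := by
      have d1 : bb B p ^ 2 ≤ (v ^ 2) ^ 2 := by gcongr
      have d2 : aa B p * bb B p ≤ v * v ^ 2 := by gcongr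
      have d3 : aa B p * bb B p ^ 2 ≤ 1 * (v ^ 2) ^ 2 := by gcongr; linarith
      have d4 : (v ^ 2) ^ 2 ≤ v ^ 3 := by
        rw [← pow_mul]; exact pow_le_pow_of_le_one v0 v1 (by norm_num)
      nlinarith
    have r2 := Real.add_one_le_exp (4 * v ^ 3)
    have r3 : (0 : ℝ) ≤ B p / p := by positivity
    have r4 : 0 ≤ v ^ 3 := by positivity
    rw [e2]
    calc (1 - B p / ((B p + 1) * p)) * (1 + aa B p) * (1 + bb B p) ^ 2
        = (1 - B p / ((B p + 1) * p)) * (1 + aa B p + 2 * bb B p) + (1 - B p / ((B p + 1) * p)) *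
          (bb B p ^ 2 + 2 * aa B p * bb B p + aa B p * bb B p ^ 2) := by ring
      _ ≤ (1 + B p / p) + 1 * (4 * v ^ 3) := by rw [e1]; gcongr
      _ ≤ (4 * v ^ 3 + 1) * (1 + B p / p) := by nlinarith
      _ ≤ _ := by gcongr

/-- the constant of SB2 -/
noncomputable def Csb2 (K c0 : ℝ) : ℝ :=
  2 * Ce * Csb (K * (1 + Cm)) (2 * c0) * Csb (2 * (K * (1 + Cm))) (2 * c0)

theorem Csb2_pos (hK : 0 ≤ K) (c0 : ℝ) : 0 < Csb2 K c0 := by
  have hC := Cm_pos
  have h1 := Csb_pos (K := K * (1 + Cm)) (by positivity) (2 * c0)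
  have h2 := Csb_pos (K := 2 * (K * (1 + Cm))) (by positivity) (2 * c0)
  have h3 : 0 < Ce := Real.exp_pos _
  unfold Csb2; positivity

/-- the second moment written as a sum over pairs of sub-objects -/
theorem pair_eq (h : Pop K c0 l0 l G B) (W : Finset (Finset ℕ × Finset ℕ))
    (hW : W ⊆ G.powerset ×ˢ G.powerset) :
    ∑ A ∈ G.powerset, mu G A *
        ((∑ z ∈ W.filter (fun z => z.1 ⊆ A ∧ z.2 ⊆ A), wh B G z.1 * wh B G z.2) / Vb B G A) =
      (∏ p ∈ G, (1 - B p / ((B p + 1) * p))) / Zb B G * ∑ z ∈ W,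
        (∏ p ∈ z.1 \ z.2, bb B p) * (∏ p ∈ z.2 \ z.1, bb B p) * ∏ p ∈ z.1 ∩ z.2, aa B p := by
  have hZ := Zb_pos h
  have e2 : ∀ A ∈ G.powerset, mu G A *
      ((∑ z ∈ W.filter (fun z => z.1 ⊆ A ∧ z.2 ⊆ A), wh B G z.1 * wh B G z.2) / Vb B G A) =
      ∑ z ∈ W, if z.1 ∪ z.2 ⊆ A then ((∏ p ∈ z.1, B p) * ∏ p ∈ z.2, B p) / Zb B G *
        (mu G A / ∏ p ∈ A, (B p + 1)) else 0 := by
    intro A hA
    have hV : 0 < ∏ p ∈ A, (B p + 1) := prod_pos fun p hp => by
      linarith [h.B3 p (mem_powerset.1 hA hp)]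
    rw [sum_filter, sum_div, mul_sum]
    refine sum_congr rfl fun z _ => ?_
    simp only [union_subset_iff]
    split_ifs
    · unfold wh Vb; field_simp
    · simp
  rw [sum_congr rfl e2, sum_comm, mul_sum]
  refine sum_congr rfl fun z hz => ?_
  have hz' := mem_product.1 (hW hz)
  have hu : z.1 ∪ z.2 ⊆ G := union_subset (mem_powerset.1 hz'.1) (mem_powerset.1 hz'.2)
  rw [← sum_filter, ← mul_sum, sum_above h hu, ← pair_wt]
  ring

/-- SB2 for an arbitrary family of pairs of sub-objects inside two windows -/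
theorem sb2_pairs (h : Pop K c0 l0 l G B) (u u' : ℝ) (W : Finset (Finset ℕ × Finset ℕ))
    (hW : W ⊆ G.powerset ×ˢ G.powerset)
    (hw : ∀ z ∈ W, (u ≤ Real.log (pv z.1) ∧ Real.log (pv z.1) ≤ u + l0) ∧
      u' ≤ Real.log (pv z.2) ∧ Real.log (pv z.2) ≤ u' + l0) :
    ∑ A ∈ G.powerset, mu G A *
        ((∑ z ∈ W.filter (fun z => z.1 ⊆ A ∧ z.2 ⊆ A), wh B G z.1 * wh B G z.2) / Vb B G A) ≤
      Csb2 K c0 * (l0 / l) ^ 2 := by
  have hZ := Zb_pos h
  have h1 := h.l0_ge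
  have hl : 0 < l := by linarith [h.l0_le]
  have hK := h.K0
  have hC := Cm_pos
  have ha0 : ∀ p ∈ G, 0 ≤ aa B p := fun p hp => (ab_facts h hp).1.1
  have hb0 : ∀ p ∈ G, 0 ≤ bb B p := fun p hp => (ab_facts h hp).2.1
  have pa := PP_pos ha0
  have pb := PP_pos hb0
  set Ca := Csb (K * (1 + Cm)) (2 * c0) with hCa
  set Cb := Csb (2 * (K * (1 + Cm))) (2 * c0) with hCb
  have Ca0 : 0 < Ca := Csb_pos (by positivity) _
  have Cb0 : 0 < Cb := Csb_pos (by positivity) _
  set K0 := ∏ p ∈ G, (1 - B p / ((B p + 1) * p)) with hK0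
  have k0 : 0 ≤ K0 := prod_nonneg fun p hp => by
    obtain ⟨a1, a2, a3, a4⟩ := h.facts hp
    rw [sub_nonneg, div_le_one (by positivity)]; nlinarith
  rw [pair_eq h W hW]
  set F : (Σ _ : Finset ℕ × Finset ℕ, Finset ℕ) → ℝ :=
    fun y => (∏ p ∈ y.1.1, bb B p) * (∏ p ∈ y.1.2, bb B p) * ∏ p ∈ y.2, aa B p with hF
  set S1 := (G.powerset ×ˢ G.powerset).filter (fun z =>
    u - u' - l0 ≤ Real.log (pv z.1) - Real.log (pv z.2) ∧
      Real.log (pv z.1) - Real.log (pv z.2) ≤ u - u' + l0) with hS1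
  set S2 := S1.sigma (fun z => G.powerset.filter (fun A =>
    u - Real.log (pv z.1) ≤ Real.log (pv A) ∧ Real.log (pv A) ≤ u - Real.log (pv z.1) + l0))
    with hS2
  have e4 : ∑ z ∈ W, (∏ p ∈ z.1 \ z.2, bb B p) * (∏ p ∈ z.2 \ z.1, bb B p) *
      ∏ p ∈ z.1 ∩ z.2, aa B p ≤ ∑ y ∈ S2, F y := by
    set φ : Finset ℕ × Finset ℕ → (Σ _ : Finset ℕ × Finset ℕ, Finset ℕ) :=
      fun z => ⟨(z.1 \ z.2, z.2 \ z.1), z.1 ∩ z.2⟩ with hφ
    have hinj : Set.InjOn φ (W : Set _) := by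
      rintro ⟨g1, g2⟩ _ ⟨g3, g4⟩ _ h
      simp only [φ, Sigma.mk.injEq, heq_eq_eq, Prod.mk.injEq] at h
      obtain ⟨⟨a2, a1⟩, a3⟩ := h
      have b1 : g1 = g3 := by
        rw [← sdiff_union_inter g1 g2, a2, a3, sdiff_union_inter]
      have b2 : g2 = g4 := by
        rw [← sdiff_union_inter g2 g1, a1, inter_comm, a3, inter_comm, sdiff_union_inter]
      rw [b1, b2]
    have : ∑ z ∈ W, (∏ p ∈ z.1 \ z.2, bb B p) * (∏ p ∈ z.2 \ z.1, bb B p) *
      ∏ p ∈ z.1 ∩ z.2, aa B p = ∑ z ∈ W, F (φ z) := rfl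
    rw [this, ← sum_image (f := F) hinj]
    refine sum_le_sum_of_subset_of_nonneg ?_ ?_
    · intro y hy
      obtain ⟨⟨g, g'⟩, hz, rfl⟩ := mem_image.1 hy
      have hz' := mem_product.1 (hW hz)
      have a1 : g ⊆ G := mem_powerset.1 hz'.1
      have a4 : g' ⊆ G := mem_powerset.1 hz'.2
      obtain ⟨⟨a2, a3⟩, a5, a6⟩ := hw _ hz
      have p1 : Real.log (pv g) = Real.log (pv (g \ g')) + Real.log (pv (g ∩ g')) := by
        rw [log_pv fun p hp => h.prime p (a1 hp),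
          log_pv fun p hp => h.prime p (a1 (sdiff_subset hp)),
          log_pv fun p hp => h.prime p (a1 (inter_subset_left hp)),
          ← sum_union (disjoint_sdiff_inter g g'), sdiff_union_inter]
      have p2 : Real.log (pv g') = Real.log (pv (g' \ g)) + Real.log (pv (g ∩ g')) := by
        rw [log_pv fun p hp => h.prime p (a4 hp),
          log_pv fun p hp => h.prime p (a4 (sdiff_subset hp)),
          log_pv fun p hp => h.prime p (a1 (inter_subset_left hp)), inter_comm,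
          ← sum_union (disjoint_sdiff_inter g' g), sdiff_union_inter]
      simp only [S2, S1, φ, mem_sigma, mem_filter, mem_powerset, mem_product]
      simp only at a2 a3 a5 a6
      refine ⟨⟨⟨sdiff_subset.trans a1, sdiff_subset.trans a4⟩, ?_, ?_⟩,
        inter_subset_left.trans a1, ?_, ?_⟩ <;> linarith
    · intro y hy _
      simp only [S2, S1, mem_sigma, mem_filter, mem_powerset, mem_product] at hy
      exact mul_nonneg (mul_nonneg (prod_nonneg fun p hp => hb0 p (hy.1.1.1 hp))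
        (prod_nonneg fun p hp => hb0 p (hy.1.1.2 hp))) (prod_nonneg fun p hp => ha0 p (hy.2.1 hp))
  have hnn : ∀ z ∈ G.powerset ×ˢ G.powerset, 0 ≤ (∏ p ∈ z.1, bb B p) * ∏ p ∈ z.2, bb B p := by
    intro z hz
    simp only [mem_product, mem_powerset] at hz
    exact mul_nonneg (prod_nonneg fun p hp => hb0 p (hz.1 hp))
      (prod_nonneg fun p hp => hb0 p (hz.2 hp))
  have hb : ∑ z ∈ S1, (∏ p ∈ z.1, bb B p) * ∏ p ∈ z.2, bb B p ≤
      2 * (Cb * (l0 / l) * PP (bb B) G ^ 2) := by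
    have b1 := sb_two h hb0 (fun p hp => (ab_facts h hp).2.2.2.1)
      (fun p hp => (ab_facts h hp).2.2.2.2) (u - u' - l0)
    have b2 := sb_two h hb0 (fun p hp => (ab_facts h hp).2.2.2.1)
      (fun p hp => (ab_facts h hp).2.2.2.2) (u - u')
    rw [sum_filter] at b1 b2
    rw [hS1, sum_filter, two_mul]
    refine le_trans ?_ (add_le_add b1 b2)
    rw [← sum_add_distrib]
    refine sum_le_sum fun z hz => ?_
    have := hnn z hz
    split_ifs with c1 c2 c3 c3
    · linarith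
    · linarith
    · linarith
    · exfalso
      rcases le_total (Real.log (pv z.1) - Real.log (pv z.2)) (u - u') with d | d
      · exact c2 ⟨c1.1, by linarith⟩
      · exact c3 ⟨d, c1.2⟩
    all_goals linarith
  have e5 : ∑ y ∈ S2, F y ≤
      2 * (Cb * (l0 / l) * PP (bb B) G ^ 2) * (Ca * (l0 / l) * PP (aa B) G) := by
    calc ∑ y ∈ S2, F y ≤ ∑ z ∈ S1, (∏ p ∈ z.1, bb B p) * (∏ p ∈ z.2, bb B p) *
          (Ca * (l0 / l) * PP (aa B) G) := by
          rw [sum_sigma]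
          refine sum_le_sum fun z hz => ?_
          have := hnn z (mem_of_mem_filter z hz)
          have := sb_one h ha0 (fun p hp => (ab_facts h hp).1.2.1)
            (fun p hp => (ab_facts h hp).1.2.2) (u - Real.log (pv z.1))
          simp only [F]
          rw [← mul_sum]
          gcongr
      _ ≤ _ := by
          rw [← sum_mul]
          gcongr
  have e6 := euler h
  calc _ ≤ K0 / Zb B G *
        (2 * (Cb * (l0 / l) * PP (bb B) G ^ 2) * (Ca * (l0 / l) * PP (aa B) G)) := by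
        gcongr; exact e4.trans e5
    _ = 2 * Ca * Cb * (l0 / l) ^ 2 / Zb B G * (K0 * PP (aa B) G * PP (bb B) G ^ 2) := by ring
    _ ≤ 2 * Ca * Cb * (l0 / l) ^ 2 / Zb B G * (Ce * Zb B G) := by gcongr
    _ = _ := by unfold Csb2; rw [← hCa, ← hCb]; field_simp

/-- SB2. With pi(g | A) = wh(g) / V(A): the mean of V(A) pi(log g in I | A) pi(log g' in I' | A) is at
most C (l0/l)^2 for intervals I, I' of length l0. -/
theorem sb2 (h : Pop K c0 l0 l G B) (u u' : ℝ) :
    ∑ A ∈ G.powerset, mu G A * (dg B G u l0 A * dg B G u' l0 A / Vb B G A) ≤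
      Csb2 K c0 * (l0 / l) ^ 2 := by
  have key := sb2_pairs h u u'
    (G.powerset.filter (fun g => u ≤ Real.log (pv g) ∧ Real.log (pv g) ≤ u + l0) ×ˢ
      G.powerset.filter (fun g => u' ≤ Real.log (pv g) ∧ Real.log (pv g) ≤ u' + l0))
    (product_subset_product (filter_subset _ _) (filter_subset _ _))
    (fun z hz => ⟨(mem_filter.1 (mem_product.1 hz).1).2, (mem_filter.1 (mem_product.1 hz).2).2⟩)
  refine le_trans (le_of_eq (sum_congr rfl fun A hA => ?_)) key
  congr 2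
  unfold dg
  rw [sum_mul_sum, ← sum_product']
  refine sum_congr ?_ fun _ _ => rfl
  ext z
  have hA' := mem_powerset.1 hA
  simp only [mem_product, mem_filter, mem_powerset]
  exact ⟨fun c => ⟨⟨⟨c.1.1.trans hA', c.1.2⟩, c.2.1.trans hA', c.2.2⟩, c.1.1, c.2.1⟩,
    fun c => ⟨⟨c.2.1, c.1.1.2⟩, c.2.2, c.1.2.2⟩⟩

theorem sum_wh (B : ℕ → ℝ) (G A : Finset ℕ) : ∑ g ∈ A.powerset, wh B G g = Vb B G A := by
  unfold wh Vb
  rw [← sum_div, ← prod_one_add]
  simp only [add_comm]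

theorem sum_nu (h : Pop K c0 l0 l G B) : ∑ g ∈ G.powerset, wh B G g / pv g = 1 := by
  have hZ := Zb_pos h
  have e : ∀ g ∈ G.powerset, wh B G g / pv g = (∏ p ∈ g, B p / p) / Zb B G := by
    intro g _
    unfold wh pv
    rw [prod_div_distrib, Nat.cast_prod]; ring
  rw [sum_congr rfl e, ← sum_div, ← prod_one_add]
  exact div_self hZ.ne'

/-- the density hypothesis follows from density 3/4 of the population among all primes -/
theorem Pop.of_rs (hK : 0 ≤ K) (hc : 0 ≤ c0) (h1 : 1 ≤ l0) (h2 : l0 ≤ l)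
    (hp : ∀ p ∈ G, p.Prime) (h3 : ∀ p ∈ G, 3 ≤ B p) (h4 : ∀ p ∈ G, B p ^ 2 ≤ p)
    (h5 : ∀ p ∈ G, B p ≤ K ∨ B p ^ 16 * Real.log p ≤ K ^ 16 * l)
    (h6 : ∀ t, l0 ≤ t → t ≤ l → 3 / 4 * Real.log (l / t) - c0 ≤
      rs (G.filter (fun p : ℕ => t < Real.log p))) : Pop K c0 l0 l G B := by
  refine ⟨hK, h1, h2, hp, h3, h4, h5, fun t ht ht' => ?_⟩
  have a1 := h6 t ht ht'
  have a2 : 3 / 4 * rs (G.filter (fun p : ℕ => t < Real.log p)) ≤
      ∑ p ∈ G.filter (fun p : ℕ => t < Real.log p), B p / ((B p + 1) * p) := by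
    unfold rs
    rw [mul_sum]
    refine sum_le_sum fun p hp' => ?_
    have b1 := h3 p (mem_of_mem_filter p hp')
    have b2 : (0 : ℝ) < p := by exact_mod_cast (hp p (mem_of_mem_filter p hp')).pos
    rw [mul_one_div, div_le_div_iff₀ b2 (by positivity)]
    nlinarith
  linarith

/-- probability that all members of v divide -/
theorem mu_above {G v : Finset ℕ} (hv : v ⊆ G) :
    ∑ T ∈ G.powerset.filter (fun T => v ⊆ T), mu G T = 1 / pv v := by
  have key : ∏ q ∈ G, ((1 / (q : ℝ)) + (if q ∈ v then 0 else 1 - 1 / (q : ℝ))) =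
      ∑ T ∈ G.powerset.filter (fun T => v ⊆ T), mu G T := by
    rw [prod_add, sum_filter]
    refine sum_congr rfl fun T hT => ?_
    split_ifs with hs
    · unfold mu
      congr 1
      exact prod_congr rfl fun q hq => if_neg fun hq' => (mem_sdiff.1 hq).2 (hs hq')
    · obtain ⟨q, q1, q2⟩ := not_subset.1 hs
      rw [prod_eq_zero (f := fun q : ℕ => if q ∈ v then (0 : ℝ) else 1 - 1 / (q : ℝ))
        (mem_sdiff.2 ⟨hv q1, q2⟩) (if_pos q1), mul_zero]
  have e3 : (1 : ℝ) / pv v = ∏ p ∈ G, if p ∈ v then 1 / (p : ℝ) else 1 := by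
    rw [prod_ite_mem, inter_eq_right.2 hv]
    unfold pv
    rw [prod_div_distrib, Nat.cast_prod, prod_const_one]
  rw [← key, e3]
  refine prod_congr rfl fun q _ => ?_
  split_ifs <;> ring

/-- first moment of a function of the sub-objects -/
theorem mean_sub (G : Finset ℕ) (φ : Finset ℕ → ℝ) :
    ∑ A ∈ G.powerset, mu G A * ∑ g ∈ A.powerset, φ g = ∑ g ∈ G.powerset, φ g / pv g := by
  have e : ∀ A ∈ G.powerset, mu G A * ∑ g ∈ A.powerset, φ g =
      ∑ g ∈ G.powerset, if g ⊆ A then mu G A * φ g else 0 := by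
    intro A hA
    rw [← sum_filter, mul_sum]
    refine sum_congr ?_ fun _ _ => rfl
    ext g
    simp only [mem_filter, mem_powerset]
    exact ⟨fun c => ⟨c.trans (mem_powerset.1 hA), c⟩, fun c => c.2⟩
  rw [sum_congr rfl e, sum_comm]
  refine sum_congr rfl fun g hg => ?_
  rw [← sum_filter, ← sum_mul, mu_above (mem_powerset.1 hg)]
  ring

theorem mean_V (h : Pop K c0 l0 l G B) : ∑ A ∈ G.powerset, mu G A * Vb B G A = 1 := by
  simp only [← sum_wh]
  rw [mean_sub, sum_nu h]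

end Pool.Agent.P.MP_a14ce1_nt.Fu.SB
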