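import Pool.Agent.P.MP_a14ce1_nt.Fu.MajBr
import Pool.Agent.P.MP_a14ce1_nt.Fu.SB2

/-!
The coefficients of the majorant: sign, total variation, second moment; the mean of the total
weight and the cost of cutting the number of prime factors.
-/

open Finset

namespace Pool.Agent.P.MP_a14ce1_nt.Fu.Coef

open Ch (pv rs mu)
open Nil.ES (Wt br br_eq mass)
open Maj SB

/-- the probability `B / (B + 1)` -/
noncomputable def kap (B : ℕ → ℝ) (p : ℕ) : ℝ := B p / (B p + 1)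

/-- the signed coefficient of a union `U` -/
noncomputable def co (G : Finset ℕ) (κ : ℕ → ℝ) (J : ℕ) (U : Finset ℕ) : ℝ :=
  ∑ e ∈ pw (2 * J) (G \ U), (∏ p ∈ U, (1 - κ p)) * (∏ p ∈ e, (-κ p)) / pv (U ∪ e)

/-- the total variation of the coefficient of a union `U` -/
noncomputable def ca (G : Finset ℕ) (κ : ℕ → ℝ) (J : ℕ) (U : Finset ℕ) : ℝ :=
  ∑ e ∈ pw (2 * J) (G \ U), (∏ p ∈ U, (1 - κ p)) * (∏ p ∈ e, κ p) / pv (U ∪ e)

theorem pv_cast (g : Finset ℕ) : (pv g : ℝ) = ∏ p ∈ g, (p : ℝ) := by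
  unfold pv
  exact Nat.cast_prod _ _

theorem pv_union {g e : Finset ℕ} (h : Disjoint g e) : pv (g ∪ e) = pv g * pv e := prod_union h

theorem rs_nonneg (G : Finset ℕ) : 0 ≤ rs G := sum_nonneg fun _ _ => by positivity

theorem rs_mono {G G' : Finset ℕ} (h : G ⊆ G') : rs G ≤ rs G' :=
  sum_le_sum_of_subset_of_nonneg h fun _ _ _ => by positivity

theorem sum_le_rs {G T : Finset ℕ} (hT : T ⊆ G) {κ : ℕ → ℝ} (h : ∀ p ∈ G, κ p ≤ 1) :
    ∑ p ∈ T, κ p / p ≤ rs G :=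
  (sum_le_sum fun p hp => div_le_div_of_nonneg_right (h p (hT hp)) (Nat.cast_nonneg p)).trans
    (rs_mono hT)

theorem prod_le_exp {G T : Finset ℕ} (hT : T ⊆ G) {κ : ℕ → ℝ}
    (h : ∀ p ∈ G, 0 ≤ κ p ∧ κ p ≤ 1) : ∏ p ∈ T, (1 + κ p / p) ≤ Real.exp (rs G) := by
  refine le_trans ?_ (Real.exp_le_exp.2 (sum_le_rs hT fun p hp => (h p hp).2))
  rw [Real.exp_sum]
  refine prod_le_prod (fun p hp => ?_) fun p _ => by linarith [Real.add_one_le_exp (κ p / p)]
  have := (h p (hT hp)).1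
  positivity

theorem term_eq {G U e : Finset ℕ} {J : ℕ} (he : e ∈ pw J (G \ U)) (c : ℝ) (x : ℕ → ℝ) :
    c * (∏ p ∈ e, x p) / pv (U ∪ e) = c / pv U * ∏ p ∈ e, (x p / p) := by
  have hd : Disjoint U e := disjoint_left.2 fun p hp hp' => (mem_sdiff.1 ((mem_pw.1 he).1 hp')).2 hp
  rw [pv_union hd, Nat.cast_mul, prod_div_distrib, ← pv_cast e, div_mul_div_comm]

theorem co_eq (G : Finset ℕ) (κ : ℕ → ℝ) (J : ℕ) (U : Finset ℕ) : co G κ J U =
    (∏ p ∈ U, (1 - κ p)) / pv U * bf (2 * J) (fun p => κ p / p) (G \ U) := by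
  rw [co, bf, mul_sum]
  refine sum_congr rfl fun e he => ?_
  rw [term_eq he]
  simp only [neg_div]

variable {G U : Finset ℕ} {κ : ℕ → ℝ}

theorem div_mem (hG : ∀ p ∈ G, p.Prime) (hκ : ∀ p ∈ G, 0 ≤ κ p ∧ κ p ≤ 1) {p : ℕ} (hp : p ∈ G) :
    0 ≤ κ p / p ∧ κ p / p ≤ 1 := by
  have h1 : (1 : ℝ) ≤ p := by exact_mod_cast (hG p hp).one_le
  have h2 := hκ p hp
  exact ⟨div_nonneg h2.1 (by linarith), (div_le_one (by linarith)).2 (h2.2.trans h1)⟩

theorem lead_nonneg (hκ : ∀ p ∈ G, 0 ≤ κ p ∧ κ p ≤ 1) (hU : U ⊆ G) :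
    0 ≤ (∏ p ∈ U, (1 - κ p)) / pv U :=
  div_nonneg (prod_nonneg fun p hp => by linarith [(hκ p (hU hp)).2]) (Nat.cast_nonneg _)

theorem co_nonneg (hG : ∀ p ∈ G, p.Prime) (hκ : ∀ p ∈ G, 0 ≤ κ p ∧ κ p ≤ 1) (hU : U ⊆ G) (J : ℕ) :
    0 ≤ co G κ J U := by
  rw [co_eq]
  exact mul_nonneg (lead_nonneg hκ hU)
    (bf_nonneg (fun p hp => div_mem hG hκ (sdiff_subset hp)) J)

theorem co_le (hG : ∀ p ∈ G, p.Prime) (hκ : ∀ p ∈ G, 0 ≤ κ p ∧ κ p ≤ 1) (hU : U ⊆ G) (J : ℕ) :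
    co G κ J U ≤ (∏ p ∈ U, (1 - κ p)) / pv U *
      (∏ p ∈ G \ U, (1 - κ p / p) + rs G ^ (2 * J + 1) / (2 * J + 1).factorial) := by
  rw [co_eq]
  refine mul_le_mul_of_nonneg_left ((bf_le (fun p hp => div_mem hG hκ (sdiff_subset hp)) J).trans
    ?_) (lead_nonneg hκ hU)
  have h1 := sum_le_rs (sdiff_subset (s := G) (t := U)) fun p hp => (hκ p hp).2
  have h2 : 0 ≤ ∑ p ∈ G \ U, κ p / p :=
    sum_nonneg fun p hp => (div_mem hG hκ (sdiff_subset hp)).1
  gcongr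

theorem ca_le (hκ : ∀ p ∈ G, 0 ≤ κ p ∧ κ p ≤ 1) (hU : U ⊆ G) (J : ℕ) :
    ca G κ J U ≤ (∏ p ∈ U, (1 - κ p)) / pv U * Real.exp (rs G) := by
  rw [ca, sum_congr rfl fun e he => term_eq he _ _, ← mul_sum]
  refine mul_le_mul_of_nonneg_left ((sum_pw_le (fun p hp => ?_) _).trans
    (prod_le_exp sdiff_subset hκ)) (lead_nonneg hκ hU)
  exact div_nonneg (hκ p (sdiff_subset hp)).1 (Nat.cast_nonneg _)

theorem ca_nonneg (hκ : ∀ p ∈ G, 0 ≤ κ p ∧ κ p ≤ 1) (hU : U ⊆ G) (J : ℕ) : 0 ≤ ca G κ J U :=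
  sum_nonneg fun e he => div_nonneg (mul_nonneg
    (prod_nonneg fun p hp => by linarith [(hκ p (hU hp)).2])
    (prod_nonneg fun p hp => (hκ p (sdiff_subset ((mem_pw.1 he).1 hp))).1)) (Nat.cast_nonneg _)

variable {B : ℕ → ℝ}

theorem kap_mem {p : ℕ} (h : 0 ≤ B p) : 0 ≤ kap B p ∧ kap B p < 1 :=
  ⟨div_nonneg h (by linarith), (div_lt_one (by linarith)).2 (by linarith)⟩

theorem kap_mem' (hB : ∀ p ∈ G, 0 ≤ B p) : ∀ p ∈ G, 0 ≤ kap B p ∧ kap B p ≤ 1 :=
  fun p hp => ⟨(kap_mem (hB p hp)).1, (kap_mem (hB p hp)).2.le⟩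

theorem one_sub_kap {p : ℕ} (h : 0 ≤ B p) : 1 - kap B p = 1 / (B p + 1) := by
  unfold kap
  field_simp
  ring

theorem Zb_pos' (hB : ∀ p ∈ G, 0 ≤ B p) : 0 < Zb B G :=
  prod_pos fun p hp => by have := hB p hp; positivity

theorem wh_nonneg (hB : ∀ p ∈ G, 0 ≤ B p) {g : Finset ℕ} (hg : g ⊆ G) : 0 ≤ wh B G g :=
  div_nonneg (prod_nonneg fun p hp => hB p (hg hp)) (Zb_pos' hB).le

/-- the sum over the partner of the leading factors -/
theorem partner (hG : ∀ p ∈ G, p.Prime) (hB : ∀ p ∈ G, 0 ≤ B p) {g : Finset ℕ} (hg : g ⊆ G) :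
    ∑ g' ∈ G.powerset, Zb B G * wh B G g' * pv g *
      ((∏ p ∈ g ∪ g', (1 - kap B p)) / pv (g ∪ g')) ≤ Real.exp (rs G) := by
  have hZ := Zb_pos' hB
  have e : ∀ g' ∈ G.powerset, Zb B G * wh B G g' * pv g *
      ((∏ p ∈ g ∪ g', (1 - kap B p)) / pv (g ∪ g')) = (∏ p ∈ g, (1 - kap B p)) *
        ∏ p ∈ g', if p ∈ g then B p else kap B p / p := by
    intro g' hg'
    have h0 : (pv g : ℝ) ≠ 0 := by exact_mod_cast (pv_pos fun p hp => hG p (hg hp)).ne'
    have h1 : ∏ p ∈ g', (if p ∈ g then B p else kap B p / p) =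
        (∏ p ∈ g', B p) * ∏ p ∈ g' \ g, ((1 - kap B p) / p) := by
      rw [sdiff_eq_filter, prod_filter, ← prod_mul_distrib]
      refine prod_congr rfl fun p hp => ?_
      by_cases h : p ∈ g
      · simp [h]
      · rw [if_neg h, if_pos h, one_sub_kap (hB p (mem_powerset.1 hg' hp)), kap]
        ring
    rw [← union_sdiff_self_eq_union, prod_union disjoint_sdiff, pv_union disjoint_sdiff, h1,
      prod_div_distrib, ← pv_cast, wh]
    push_cast
    field_simp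
  rw [sum_congr rfl e, ← mul_sum, ← prod_one_add, ← prod_sdiff hg, mul_left_comm,
    ← prod_mul_distrib]
  have e1 : ∏ p ∈ g, ((1 - kap B p) * (1 + if p ∈ g then B p else kap B p / p)) = 1 :=
    prod_eq_one fun p hp => by
      have := hB p (hg hp)
      rw [if_pos hp, one_sub_kap this]
      field_simp
      ring
  rw [e1, mul_one, prod_congr rfl fun p hp => by rw [if_neg (mem_sdiff.1 hp).2]]
  exact prod_le_exp sdiff_subset (kap_mem' hB)

/-- the total variation of the coefficients, for one fixed member of the pair -/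
theorem abs_partner (hG : ∀ p ∈ G, p.Prime) (hB : ∀ p ∈ G, 0 ≤ B p) {g : Finset ℕ} (hg : g ⊆ G)
    (J : ℕ) : ∑ g' ∈ G.powerset, Zb B G * wh B G g' * pv g * ca G (kap B) J (g ∪ g') ≤
      Real.exp (2 * rs G) := by
  have hZ := Zb_pos' hB
  rw [two_mul, Real.exp_add]
  refine le_trans ?_ (mul_le_mul_of_nonneg_right (partner hG hB hg) (Real.exp_pos _).le)
  rw [sum_mul]
  refine sum_le_sum fun g' hg' => ?_
  rw [mul_assoc (_ * _ * _)]
  exact mul_le_mul_of_nonneg_left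
    (ca_le (kap_mem' hB) (union_subset hg (mem_powerset.1 hg')) J)
    (mul_nonneg (mul_nonneg hZ.le (wh_nonneg hB (mem_powerset.1 hg'))) (Nat.cast_nonneg _))

variable {K c0 l0 l : ℝ}

theorem pop_B (h : Pop K c0 l0 l G B) : ∀ p ∈ G, 0 ≤ B p := fun p hp => by linarith [h.B3 p hp]

theorem pairs_le (h : Pop K c0 l0 l G B) : ∑ z ∈ G.powerset ×ˢ G.powerset,
    Zb B G * wh B G z.1 * wh B G z.2 *
      ((∏ p ∈ z.1 ∪ z.2, (1 - kap B p)) / pv (z.1 ∪ z.2)) ≤ Real.exp (rs G) := by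
  have e := sum_nu h
  rw [sum_product]
  refine le_trans ?_ (le_of_eq (show (∑ g ∈ G.powerset, wh B G g / pv g) * Real.exp (rs G) = _ by
    rw [e, one_mul]))
  rw [sum_mul]
  refine sum_le_sum fun g hg => ?_
  have hg' := mem_powerset.1 hg
  have h0 : (0 : ℝ) < pv g := by exact_mod_cast pv_pos fun p hp => h.prime p (hg' hp)
  refine le_trans (le_of_eq ?_) (mul_le_mul_of_nonneg_left (partner h.prime (pop_B h) hg')
    (div_nonneg (wh_nonneg (pop_B h) hg') h0.le))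
  rw [mul_sum]
  refine sum_congr rfl fun g' _ => ?_
  field_simp

theorem main_eq (h : Pop K c0 l0 l G B) (hU : U ⊆ G) :
    (∏ p ∈ U, (1 - kap B p)) / pv U * ∏ p ∈ G \ U, (1 - kap B p / p) =
      (∏ p ∈ G, (1 - B p / ((B p + 1) * p))) * ∏ p ∈ U, 1 / ((B p + 1) * p - B p) := by
  rw [← prod_sdiff hU, pv_cast, ← prod_div_distrib, mul_comm, mul_assoc, ← prod_mul_distrib]
  congr 1
  · exact prod_congr rfl fun p _ => by rw [kap, div_div]
  · refine prod_congr rfl fun p hp => ?_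
    obtain ⟨a1, a2, a3, a4⟩ := h.facts (hU hp)
    have h1 : (B p + 1) * p - B p ≠ 0 := by nlinarith
    have h2 : (p : ℝ) ≠ 0 := by linarith
    have h3 : B p + 1 ≠ 0 := by linarith
    rw [one_sub_kap (by linarith)]
    field_simp

/-- the second moment: pairs of sub-objects in two windows -/
theorem diag (h : Pop K c0 l0 l G B) (u u' : ℝ) (W : Finset (Finset ℕ × Finset ℕ))
    (hW : W ⊆ G.powerset ×ˢ G.powerset)
    (hw : ∀ z ∈ W, (u ≤ Real.log (pv z.1) ∧ Real.log (pv z.1) ≤ u + l0) ∧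
      u' ≤ Real.log (pv z.2) ∧ Real.log (pv z.2) ≤ u' + l0) (J : ℕ) :
    ∑ z ∈ W, Zb B G * wh B G z.1 * wh B G z.2 * co G (kap B) J (z.1 ∪ z.2) ≤
      Csb2 K c0 * (l0 / l) ^ 2 +
        Real.exp (rs G) * (rs G ^ (2 * J + 1) / (2 * J + 1).factorial) := by
  have hB := pop_B h
  have hZ := Zb_pos h
  have hs : ∀ z ∈ W, z.1 ⊆ G ∧ z.2 ⊆ G := fun z hz =>
    ⟨mem_powerset.1 (mem_product.1 (hW hz)).1, mem_powerset.1 (mem_product.1 (hW hz)).2⟩
  have h0 : ∀ z : Finset ℕ × Finset ℕ, z.1 ⊆ G → z.2 ⊆ G → 0 ≤ Zb B G * wh B G z.1 * wh B G z.2 :=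
    fun z a b => mul_nonneg (mul_nonneg hZ.le (wh_nonneg hB a)) (wh_nonneg hB b)
  have h1 := sb2_pairs h u u' W hW hw
  rw [pair_eq h W hW, mul_sum] at h1
  have h2 : 0 ≤ rs G ^ (2 * J + 1) / (2 * J + 1).factorial := by
    have := rs_nonneg G
    positivity
  have h3 : ∑ z ∈ W, Zb B G * wh B G z.1 * wh B G z.2 *
      ((∏ p ∈ z.1 ∪ z.2, (1 - kap B p)) / pv (z.1 ∪ z.2)) ≤ Real.exp (rs G) :=
    (sum_le_sum_of_subset_of_nonneg hW fun z hz _ => by
      have a := mem_powerset.1 (mem_product.1 hz).1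
      have b := mem_powerset.1 (mem_product.1 hz).2
      exact mul_nonneg (h0 z a b) (lead_nonneg (kap_mem' hB) (union_subset a b))).trans (pairs_le h)
  refine le_trans ?_ (add_le_add h1 (mul_le_mul_of_nonneg_right h3 h2))
  rw [sum_mul, ← sum_add_distrib]
  refine sum_le_sum fun z hz => ?_
  obtain ⟨a, b⟩ := hs z hz
  refine (mul_le_mul_of_nonneg_left (co_le h.prime (kap_mem' hB) (union_subset a b) J)
    (h0 z a b)).trans (le_of_eq ?_)
  rw [mul_add, main_eq h (union_subset a b), ← pair_wt, mul_add]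
  unfold wh
  field_simp

/-! ### Masses -/

theorem mass_div (μ : Wt ℕ) {c d : ℕ} (h : c.Coprime d) (hd : 0 < d) :
    (c : ℝ) * ∑ N ∈ μ.s.filter (fun N => c ∣ N), μ.w N * (if d ∣ N then 1 else 0) =
      mass μ (c * d) / d := by
  have e : mass μ (c * d) = br μ (c * d) 1 1 := by simp [br_eq, mass, mul_sum]
  rw [e, br_div μ h hd]
  simp

/-- the mean of the total weight on the integers with few prime factors in `G` -/
theorem vmean (μ : Wt ℕ) {c : ℕ} (hG : ∀ p ∈ G, p.Prime) (hc : ∀ p ∈ G, c.Coprime p)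
    (hB : ∀ p ∈ G, 0 ≤ B p) {J0 : ℕ} {m : ℝ} (hm0 : 0 ≤ m)
    (hm : ∀ g ⊆ G, g.card ≤ J0 → mass μ (c * pv g) ≤ m) {f : ℕ → ℂ} (hf : ∀ N, ‖f N‖ ≤ 1)
    (h0 : ∀ N, J0 < (G.filter fun p => p ∣ N).card → f N = 0) :
    (c : ℝ) * ∑ N ∈ μ.s.filter (fun N => c ∣ N),
      μ.w N * (‖f N‖ ^ 2 / ∏ p ∈ G.filter (fun p => p ∣ N), (1 - kap B p)) ≤ m * Zb B G := by
  have h1 : ∀ N, ‖f N‖ ^ 2 / ∏ p ∈ G.filter (fun p => p ∣ N), (1 - kap B p) ≤
      ∑ g ∈ pw J0 G, (∏ p ∈ g, B p) * if pv g ∣ N then 1 else 0 := by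
    intro N
    have hn : ∀ g ∈ pw J0 G, 0 ≤ (∏ p ∈ g, B p) * if pv g ∣ N then (1 : ℝ) else 0 := fun g hg =>
      mul_nonneg (prod_nonneg fun p hp => hB p ((mem_pw.1 hg).1 hp)) (by split_ifs <;> norm_num)
    by_cases hJ : J0 < (G.filter fun p => p ∣ N).card
    · rw [h0 N hJ]
      simpa using sum_nonneg hn
    · have e : ∏ p ∈ G.filter (fun p => p ∣ N), (1 - kap B p) =
          1 / ∏ p ∈ G.filter (fun p => p ∣ N), (1 + B p) := by
        rw [one_div, ← prod_inv_distrib]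
        exact prod_congr rfl fun p hp => by
          rw [one_sub_kap (hB p (mem_filter.1 hp).1), add_comm, one_div]
      rw [e, div_div_eq_mul_div, div_one, prod_one_add]
      refine (mul_le_of_le_one_left (sum_nonneg fun g hg => prod_nonneg fun p hp =>
        hB p (mem_filter.1 (mem_powerset.1 hg hp)).1) (pow_le_one₀ (norm_nonneg _) (hf N))).trans ?_
      refine le_trans (le_of_eq (sum_congr rfl fun g hg => ?_))
        (sum_le_sum_of_subset_of_nonneg (fun g hg => ?_) fun g hg _ => hn g hg)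
      · have a := mem_powerset.1 hg
        rw [if_pos ((subset_iff_dvd hG (a.trans (filter_subset _ _))).1 a), mul_one]
      · have a := mem_powerset.1 hg
        exact mem_pw.2 ⟨a.trans (filter_subset _ _), (card_le_card a).trans (not_lt.1 hJ)⟩
  refine (mul_le_mul_of_nonneg_left (sum_le_sum fun N _ =>
    mul_le_mul_of_nonneg_left (h1 N) (μ.nn N)) (Nat.cast_nonneg c)).trans ?_
  simp only [mul_sum]
  rw [sum_comm]
  refine le_trans (sum_le_sum fun g hg => (?_ : _ ≤ m * ∏ p ∈ g, B p / p)) ?_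
  · obtain ⟨a, b⟩ := mem_pw.1 hg
    have h2 := pv_pos fun p hp => hG p (a hp)
    have h3 := mass_div μ (cop_pv a hc) h2
    have h4 : 0 ≤ ∏ p ∈ g, B p := prod_nonneg fun p hp => hB p (a hp)
    rw [prod_div_distrib, ← pv_cast]
    calc _ = (∏ p ∈ g, B p) * (mass μ (c * pv g) / pv g) := by
          rw [← h3, mul_sum, mul_sum]
          exact sum_congr rfl fun N _ => by ring
      _ ≤ (∏ p ∈ g, B p) * (m / pv g) := by gcongr; exact hm g a b
      _ = _ := by ring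
  · rw [← mul_sum]
    exact mul_le_mul_of_nonneg_left
      (sum_pw_le (fun p hp => div_nonneg (hB p hp) (Nat.cast_nonneg _)) _) hm0

theorem esym_le {α : Type*} [DecidableEq α] (x : α → ℝ) (T : Finset α) (hx : ∀ p ∈ T, 0 ≤ x p)
    (j : ℕ) : ∑ e ∈ T.powersetCard j, ∏ p ∈ e, x p ≤ (∑ p ∈ T, x p) ^ j / j.factorial := by
  induction T using Finset.induction_on generalizing j with
  | empty =>
    cases j with
    | zero => simp
    | succ j => rw [powersetCard_eq_empty.2 (by simp)]; simp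
  | insert a T ha ih =>
    have hT : ∀ p ∈ T, 0 ≤ x p := fun p hp => hx p (mem_insert_of_mem hp)
    have h0 := hx a (mem_insert_self _ _)
    have hs : 0 ≤ ∑ p ∈ T, x p := sum_nonneg hT
    cases j with
    | zero => simp
    | succ j =>
      have hd : Disjoint (powersetCard (j + 1) T) ((powersetCard j T).image (insert a)) := by
        rw [disjoint_left]
        intro e he he'
        obtain ⟨e', -, rfl⟩ := mem_image.1 he'
        exact ha ((mem_powersetCard.1 he).1 (mem_insert_self _ _))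
      have hn : ∀ e ∈ powersetCard j T, a ∉ e := fun e he h => ha ((mem_powersetCard.1 he).1 h)
      rw [powersetCard_succ_insert ha, sum_union hd, sum_image fun e he e' he' h => by
        rw [← erase_insert (hn e he), h, erase_insert (hn e' he')],
        sum_congr rfl fun e he => prod_insert (hn e he), ← mul_sum, sum_insert ha]
      have b := pow_add_mul_le_add_pow hs (b := x a) (by linarith) (j + 1)
      have f0 : (0 : ℝ) < j.factorial := by exact_mod_cast Nat.factorial_pos _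
      calc _ ≤ (∑ p ∈ T, x p) ^ (j + 1) / (j + 1).factorial +
            x a * ((∑ p ∈ T, x p) ^ j / j.factorial) :=
            add_le_add (ih hT _) (mul_le_mul_of_nonneg_left (ih hT _) h0)
        _ = ((∑ p ∈ T, x p) ^ (j + 1) + (j + 1 : ℕ) * (∑ p ∈ T, x p) ^ (j + 1 - 1) * x a) /
            (j + 1).factorial := by
            rw [Nat.factorial_succ, show j + 1 - 1 = j from rfl]
            push_cast
            field_simp
        _ ≤ _ := by
            rw [add_comm (x a)]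
            exact div_le_div_of_nonneg_right b (by positivity)

/-- the mass, on a level `c` which has the primes `g0` of `G`, of the integers with more than `J0`
prime factors in `G` -/
theorem cut (μ : Wt ℕ) {c : ℕ} {g0 : Finset ℕ} (hG : ∀ p ∈ G, p.Prime)
    (hc : ∀ p ∈ G, p ∉ g0 → c.Coprime p) {J0 j : ℕ} (hj : g0.card + j ≤ J0 + 1) {m : ℝ}
    (hm0 : 0 ≤ m) (hm : ∀ e ⊆ G, e.card = j → mass μ (c * pv e) ≤ m) :
    (c : ℝ) * ∑ N ∈ μ.s.filter (fun N => c ∣ N),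
      μ.w N * (if J0 < (G.filter fun p => p ∣ N).card then 1 else 0) ≤
      m * (rs G ^ j / j.factorial) := by
  have h1 : ∀ N, (if J0 < (G.filter fun p => p ∣ N).card then (1 : ℝ) else 0) ≤
      ∑ e ∈ (G \ g0).powersetCard j, if pv e ∣ N then 1 else 0 := by
    intro N
    have hn : ∀ e ∈ (G \ g0).powersetCard j, (0 : ℝ) ≤ if pv e ∣ N then 1 else 0 := fun e _ => by
      split_ifs <;> norm_num
    split_ifs with hJ
    · have h2 := le_card_sdiff g0 (G.filter fun p => p ∣ N)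
      obtain ⟨e, he, he'⟩ := exists_subset_card_eq
        (show j ≤ ((G.filter fun p => p ∣ N) \ g0).card by omega)
      have h3 : e ⊆ G \ g0 := he.trans (sdiff_subset_sdiff (filter_subset _ _) Subset.rfl)
      have h4 := single_le_sum hn (mem_powersetCard.2 ⟨h3, he'⟩)
      rwa [if_pos ((subset_iff_dvd hG (h3.trans sdiff_subset)).1 (he.trans sdiff_subset))] at h4
    · exact sum_nonneg hn
  refine (mul_le_mul_of_nonneg_left (sum_le_sum fun N _ =>
    mul_le_mul_of_nonneg_left (h1 N) (μ.nn N)) (Nat.cast_nonneg c)).trans ?_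
  simp only [mul_sum]
  rw [sum_comm]
  refine le_trans (sum_le_sum fun e he => (?_ : _ ≤ m * ∏ p ∈ e, (1 : ℝ) / p)) ?_
  · obtain ⟨a, b⟩ := mem_powersetCard.1 he
    have h2 := pv_pos fun p hp => hG p (sdiff_subset (a hp))
    have h3 := mass_div μ (cop_pv (G := G \ g0) a fun p hp =>
      hc p (mem_sdiff.1 hp).1 (mem_sdiff.1 hp).2) h2
    rw [prod_div_distrib, prod_const_one, ← pv_cast, ← mul_sum, h3, mul_one_div]
    exact div_le_div_of_nonneg_right (hm e (a.trans sdiff_subset) b) (Nat.cast_nonneg _)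
  · rw [← mul_sum]
    refine mul_le_mul_of_nonneg_left ((esym_le _ _ (fun p _ => by positivity) j).trans ?_) hm0
    have h5 : ∑ p ∈ G \ g0, (1 : ℝ) / p ≤ rs G := rs_mono sdiff_subset
    have h6 : 0 ≤ ∑ p ∈ G \ g0, (1 : ℝ) / p := rs_nonneg _
    gcongr

end Pool.Agent.P.MP_a14ce1_nt.Fu.Coef
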