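import Pool.Agent.P.MP_a14ce1_nt.Fu.L8St
import Pool.Agent.P.MP_a14ce1_nt.Fu.Coef

/-!
The mean of the divisor weight, the cost of the cut, and masses of long levels.
-/

open Finset

namespace Pool.Agent.P.MP_a14ce1_nt.Fu.L8

open Ch (rs pv)
open Nil.ES
open Tile (B3)

theorem norm_cut {G : Finset ℕ} {n : ℕ} {f : ℕ → ℂ} (hf : ∀ N, ‖f N‖ ≤ 1) (N : ℕ) :
    ‖cut G n f N‖ ≤ 1 := by
  unfold cut
  split_ifs
  exacts [hf N, by simp]

theorem cut8 : S_Cut := by
  intro μ f G c n hf hG
  refine ⟨fun hm => ?_, fun g u hg hn h1 hu hm => ?_⟩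
  · have := Coef.vmean (B := B3) μ (fun p hp => (hG p hp).1) (fun p hp => (hG p hp).2)
      (fun _ _ => by norm_num [B3]) zero_le_two hm (f := cut G n f) (norm_cut hf)
      fun N h => if_neg (not_le.2 h)
    refine le_trans (le_of_eq ?_) this
    congr 1
    refine sum_congr rfl fun N _ => ?_
    have e : ∀ p, 1 - Coef.kap B3 p = 4⁻¹ := fun p => by norm_num [Coef.kap, B3]
    simp only [e, prod_const, inv_pow, div_inv_eq_mul]
  · have n0 : (0 : ℝ) < n := by exact_mod_cast h1
    have a1 : ∀ N, |(f N * (starRingEnd ℂ) (u N)).re -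
        (cut G (2 * n) f N * (starRingEnd ℂ) (u N)).re| ≤
        (∑ p ∈ G \ g, if p ∣ N then (1 : ℝ) else 0) / n := fun N => by
      unfold cut
      split_ifs with h
      · rw [sub_self, abs_zero]
        exact div_nonneg (sum_nonneg fun _ _ => by split_ifs <;> norm_num) n0.le
      · rw [zero_mul, Complex.zero_re, sub_zero]
        refine (Complex.abs_re_le_norm _).trans (le_trans (b := 1) ?_ ?_)
        · rw [norm_mul, RCLike.norm_conj]
          exact mul_le_one₀ (hf N) (norm_nonneg _) (hu N)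
        · rw [one_le_div n0, sum_boole, Nat.cast_le]
          have h2 := le_card_sdiff g (G.filter fun p => p ∣ N)
          have h3 : (G.filter fun p => p ∣ N) \ g = (G \ g).filter fun p => p ∣ N := by
            ext p
            simp only [mem_sdiff, mem_filter]
            tauto
          rw [h3] at h2
          omega
    have a2 : ((pv g * c : ℕ) : ℝ) * ∑ N ∈ μ.s.filter (fun N => pv g * c ∣ N),
        μ.w N * ((∑ p ∈ G \ g, if p ∣ N then (1 : ℝ) else 0) / n) ≤ 2 * rs G / n := by
      simp only [← mul_div_assoc, ← sum_div]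
      rw [sum_congr rfl fun N _ => mul_sum _ _ (μ.w N), sum_comm, mul_sum]
      refine div_le_div_of_nonneg_right (le_trans (sum_le_sum fun p hp => ?_)
        (mul_le_mul_of_nonneg_left (Coef.rs_mono (sdiff_subset (t := g))) zero_le_two |>.trans'
          (mul_sum _ _ _).ge)) n0.le
      obtain ⟨p1, p2⟩ := mem_sdiff.1 hp
      rw [Coef.mass_div μ (c := pv g * c) (Nat.Coprime.mul_left (Nat.Coprime.prod_left fun q hq =>
        (Nat.coprime_primes (hG q (hg hq)).1 (hG p p1).1).2 fun e => p2 (e ▸ hq)) (hG p p1).2)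
        (hG p p1).1.pos, mul_one_div]
      exact div_le_div_of_nonneg_right (hm p p1) (Nat.cast_nonneg _)
    have a3 : |br μ (pv g * c) f u - br μ (pv g * c) (cut G (2 * n) f) u| ≤ 2 * rs G / n := by
      refine le_trans ?_ a2
      rw [br_eq, br_eq, ← mul_sub, ← sum_sub_distrib, abs_mul, Nat.abs_cast]
      refine mul_le_mul_of_nonneg_left ((abs_sum_le_sum_abs _ _).trans
        (sum_le_sum fun N _ => ?_)) (Nat.cast_nonneg _)
      rw [← mul_sub, abs_mul, abs_of_nonneg (μ.nn N)]
      exact mul_le_mul_of_nonneg_left (a1 N) (μ.nn N)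
    rw [pot, pot, sub_sub_sub_cancel_right, ← mul_sub, abs_mul, abs_two,
      show 4 * rs G / n = 2 * (2 * rs G / n) by ring]
    exact mul_le_mul_of_nonneg_left a3 zero_le_two

theorem mass8 : S_Mass := by
  intro μ R j0 j1 c h hc
  have c0 : (0 : ℝ) ≤ c := Nat.cast_nonneg _
  have key : ∀ N N' : ℕ, c ∣ N → c ∣ N' → N < N' → N + c ≤ N' := fun N N' a1 a2 a3 => by
    have := Nat.le_of_dvd (Nat.sub_pos_of_lt a3) (Nat.dvd_sub a2 a1)
    omega
  have ms : ∀ N ∈ μ.s, j0 * R ≤ N ∧ N < j1 * R := fun N hN => mem_Ico.1 (h.s ▸ hN)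
  rw [mass, ← sum_filter_add_sum_filter_not _ fun N => j0 * R + c ≤ N]
  refine add_le_add ?_ ?_
  · have t : ∑ N ∈ μ.s, μ.w N ≤ 3 / 2 := by
      rw [h.sum]
      refine le_trans (le_of_eq (sum_congr rfl fun j _ => ?_)) h.tot
      rw [sum_congr rfl fun N hN => h.w_eq hN, sum_const, Nat.card_Ico, add_mul, one_mul,
        Nat.add_sub_cancel_left, nsmul_eq_mul, mul_comm]
    refine le_trans (sum_le_sum fun N hN => (?_ : _ ≤ ∑ N' ∈ Ico (N - c) N, μ.w N'))
      (le_trans ?_ t)
    · have := (mem_filter.1 hN).2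
      have e : (Ico (N - c) N).card = c := by rw [Nat.card_Ico]; omega
      rw [← nsmul_eq_mul]
      nth_rewrite 1 [← e]
      exact card_nsmul_le_sum _ _ _ fun N' hN' =>
        h.anti _ _ (by have := mem_Ico.1 hN'; omega) (mem_Ico.1 hN').2.le
    · rw [← sum_biUnion]
      · refine sum_le_sum_of_subset_of_nonneg (biUnion_subset.2 fun N hN => ?_) fun N _ _ => μ.nn N
        have a1 := (mem_filter.1 hN).2
        have a2 := ms N (mem_filter.1 (mem_filter.1 hN).1).1
        rw [h.s]
        exact Ico_subset_Ico (by omega) a2.2.le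
      · intro N hN N' hN' e
        have a1 := (mem_filter.1 (mem_filter.1 hN).1).2
        have a2 := (mem_filter.1 (mem_filter.1 hN').1).2
        refine disjoint_left.2 fun x hx hx' => ?_
        rw [mem_Ico] at hx hx'
        rcases lt_or_gt_of_ne e with e | e
        · have := key _ _ a1 a2 e
          omega
        · have := key _ _ a2 a1 e
          omega
  · refine (sum_le_card_nsmul _ _ (c * μ.w (j0 * R)) fun N hN => mul_le_mul_of_nonneg_left
      (h.anti _ _ le_rfl (ms N (mem_filter.1 (mem_filter.1 hN).1).1).1) c0).trans ?_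
    rw [nsmul_eq_mul]
    refine mul_le_of_le_one_left (mul_nonneg c0 (μ.nn _)) ?_
    rw [Nat.cast_le_one, card_le_one]
    intro N hN N' hN'
    simp only [mem_filter] at hN hN'
    have a1 := ms N hN.1.1
    have a2 := ms N' hN'.1.1
    by_contra e
    rcases lt_or_gt_of_ne e with e | e
    · have := key _ _ hN.1.2 hN'.1.2 e
      omega
    · have := key _ _ hN'.1.2 hN.1.2 e
      omega

end Pool.Agent.P.MP_a14ce1_nt.Fu.L8
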