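import Pool.Agent.P.MP_a14ce1_nt.Nil.Pl.Basic
import Pool.Agent.P.MP_a14ce1_nt.Nil.Pl.FsI
import Pool.Agent.P.MP_a14ce1_nt.Nil.Pl.ExtI
import Pool.Agent.P.MP_a14ce1_nt.Nil.Pl.Conc
import Pool.Agent.P.MP_a14ce1_nt.Nil.EL4
import Pool.Agent.P.MP_a14ce1_nt.Nil.Cube2

/-!
Weights on one interval which are constant on the cells of a grid: masses, fair sampling,
extension, removal of a sub-cube, and the hypotheses of a cube over a base level.
-/

open Finset Function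

namespace Pool.Agent.P.MP_a14ce1_nt.Fu

open Nil.ES
open Pl (GX)
open Pl.FsI (pw_mono sv_congr mem_win E_sum)
open Ax (At PW hull sv pc)

/-- a decreasing weight on the cells `j0 ≤ j < j1` of the grid `R`, constant on every cell, of
total mass at most `3 / 2` -/
structure CW (μ : Wt ℕ) (R j0 j1 : ℕ) : Prop where
  pos : 0 < R
  s : μ.s = Ico (j0 * R) (j1 * R)
  cst : ∀ N, μ.w N = μ.w (N / R * R)
  anti : ∀ a b, j0 * R ≤ a → a ≤ b → μ.w b ≤ μ.w a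
  tot : ∑ j ∈ Ico j0 j1, μ.w (j * R) * R ≤ 3 / 2

/-- the weight `1 / (j R M)` on the cell `j` -/
noncomputable def wj (R j0 j1 : ℕ) (M : ℝ) : Wt ℕ :=
  ⟨Ico (j0 * R) (j1 * R), fun N => 1 / (((N / R : ℕ) : ℝ) * R * |M|), fun _ => by positivity⟩

theorem wj_w {M : ℝ} (hM : 0 < M) (R j0 j1 N : ℕ) :
    (wj R j0 j1 M).w N = 1 / (((N / R : ℕ) : ℝ) * R * M) := by
  simp only [wj, abs_of_pos hM]

theorem wj_w0 {M : ℝ} (hM : 0 < M) {R : ℕ} (hR : 0 < R) (j0 j1 j : ℕ) :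
    (wj R j0 j1 M).w (j * R) = 1 / ((j : ℝ) * R * M) := by
  rw [wj_w hM, Nat.mul_div_cancel _ hR]

theorem cw_wj {R j0 j1 : ℕ} {M : ℝ} (hR : 0 < R) (hj : 0 < j0) (hM : 0 < M)
    (h : ∑ j ∈ Ico j0 j1, 1 / (j : ℝ) ≤ 3 / 2 * M) : CW (wj R j0 j1 M) R j0 j1 where
  pos := hR
  s := rfl
  cst N := by rw [wj_w hM, wj_w0 hM hR]
  anti a b ha hb := by
    have h1 : 0 < a / R := Nat.div_pos ((Nat.le_mul_of_pos_left R hj).trans ha) hR
    have h2 : (0 : ℝ) < (a / R : ℕ) := by exact_mod_cast h1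
    have h3 : (0 : ℝ) < R := by exact_mod_cast hR
    rw [wj_w hM, wj_w hM]
    gcongr
  tot := by
    have h3 : (R : ℝ) ≠ 0 := by exact_mod_cast hR.ne'
    have e : ∀ j ∈ Ico j0 j1, (wj R j0 j1 M).w (j * R) * R = 1 / (j : ℝ) / M := fun j _ => by
      rw [wj_w0 hM hR]
      by_cases h0 : (j : ℝ) = 0
      · simp [h0]
      · field_simp
    rw [sum_congr rfl e, ← sum_div, div_le_iff₀ hM]
    exact h

variable {μ : Wt ℕ} {R j0 j1 : ℕ}

theorem CW.sum (h : CW μ R j0 j1) {E : Type*} [AddCommMonoid E] (g : ℕ → E) :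
    ∑ N ∈ μ.s, g N = ∑ j ∈ Ico j0 j1, ∑ N ∈ Ico (j * R) ((j + 1) * R), g N := by
  rw [h.s]
  rcases le_total j0 j1 with h1 | h1
  · exact Pl.Basic.sum_blocks g R h1
  · rw [Ico_eq_empty_of_le h1, Ico_eq_empty_of_le (Nat.mul_le_mul_right R h1)]
    simp

theorem CW.w_eq (h : CW μ R j0 j1) {j N : ℕ} (hN : N ∈ Ico (j * R) ((j + 1) * R)) :
    μ.w N = μ.w (j * R) := by rw [h.cst N, Pl.Basic.div_of_mem hN]

theorem CW.br_eq (h : CW μ R j0 j1) (c : ℕ) (φ ψ : ℕ → ℂ) : br μ c φ ψ =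
    ∑ j ∈ Ico j0 j1, μ.w (j * R) * (sv c (j * R) (j * R + R) (pc φ ψ)).re := by
  rw [Nil.ES.br_eq, sum_filter, h.sum, mul_sum]
  refine sum_congr rfl fun j _ => ?_
  rw [← sum_filter, sv, ← Complex.ofReal_natCast, Complex.re_ofReal_mul, Complex.re_sum,
    mul_left_comm, mul_sum _ _ (μ.w (j * R)), ← add_one_mul]
  congr 1
  exact sum_congr rfl fun N hN => by rw [h.w_eq (mem_filter.1 hN).1]; rfl

theorem CW.mass_le' (h : CW μ R j0 j1) {c : ℕ} (hc : 0 < c) :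
    mass μ c ≤ 3 / 2 * (1 + (c : ℝ) / R) := by
  have c0 : (0 : ℝ) < c := by exact_mod_cast hc
  have R0 : (0 : ℝ) < R := by exact_mod_cast h.pos
  refine le_trans ?_ (mul_le_mul_of_nonneg_right h.tot (by positivity))
  rw [mass, sum_filter, h.sum, sum_mul]
  refine sum_le_sum fun j _ => ?_
  rw [← sum_filter, sum_congr rfl fun N hN =>
    show (c : ℝ) * μ.w N = c * μ.w (j * R) by rw [h.w_eq (mem_filter.1 hN).1], sum_const,
    nsmul_eq_mul]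
  refine (mul_le_mul_of_nonneg_right (Pl.Basic.card_mult h.pos hc j)
    (mul_nonneg c0.le (μ.nn _))).trans (le_of_eq ?_)
  field_simp

theorem CW.mass_le (h : CW μ R j0 j1) {c : ℕ} (hc : 0 < c) (hR : 3 * c ≤ R) : mass μ c ≤ 2 := by
  have R0 : (0 : ℝ) < R := by exact_mod_cast h.pos
  have h1 : (c : ℝ) / R ≤ 1 / 3 := by
    rw [div_le_div_iff₀ R0 (by norm_num), one_mul, mul_comm]
    exact_mod_cast hR
  linarith [h.mass_le' hc]

/-- fair sampling and extension for the piecewise class -/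
theorem cw_fsExt {A : Set (ℕ → ℂ)} (hA : Ax.Sys A) : ∃ C : ℕ, 1 ≤ C ∧ ∀ Q : ℝ, 2 ≤ Q →
    ∀ (μ : Wt ℕ) (R j0 j1 : ℕ) (γ : Pr) (c : ℕ), CW μ R j0 j1 → PW Q C γ.s γ.w → 0 < c →
      ((∀ p ∈ γ.s, ((c * p : ℕ) : ℝ) * Q ^ C ≤ R) → FsN μ (GX (hull A) R) c γ (2 / Q)) ∧
      ∀ γ' : Pr, PW Q C γ'.s γ'.w → Disjoint γ.s γ'.s →
        (∀ p ∈ γ.s, ∀ v ∈ γ'.s, ((c * p * v ^ C : ℕ) : ℝ) * Q ^ C ≤ R) →
        ExtN μ (GX (hull A) R) c γ γ' (2 / Q) := by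
  obtain ⟨C1, h1⟩ := Pl.fsI A hA.atm hA.fs
  obtain ⟨C2, h2⟩ := Pl.extI A hA.atm hA.ext
  refine ⟨C1 + C2 + 1, by omega, fun Q hQ μ R j0 j1 γ c hW hP hc => ?_⟩
  have hbr := hW.br_eq
  have hω : ∀ j, 0 ≤ μ.w (j * R) := fun j => μ.nn _
  have hR : 0 < R := hW.pos
  have hQ1 : 1 ≤ Q := by linarith
  have hs' : ∑ j ∈ Ico j0 j1, μ.w (j * R) * (R / Q) ≤ 2 / Q := by
    simp only [← mul_div_assoc, ← sum_div]
    exact div_le_div_of_nonneg_right (hW.tot.trans (by norm_num)) (by linarith)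
  refine ⟨fun hR φ hφ ψ hψ => ?_, fun γ' hP' hd hR' χ ψ hχ hψ => ?_⟩
  · simp only [hbr]
    rw [E_sum, ← sum_sub_distrib]
    refine le_trans ((abs_sum_le_sum_abs _ _).trans (sum_le_sum fun j _ => ?_)) hs'
    rw [← mul_sub, abs_mul, abs_of_nonneg (hω j)]
    refine mul_le_mul_of_nonneg_left ?_ (hω j)
    obtain ⟨u, hu, hu'⟩ := hφ j
    obtain ⟨v, hv, hv'⟩ := hψ j
    have e : ∀ d, sv d (j * R) (j * R + R) (pc φ ψ) = sv d (j * R) (j * R + R) (pc u v) :=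
      fun d => sv_congr fun n hn => by rw [pc, pc, hu' n (mem_win.1 hn), hv' n (mem_win.1 hn)]
    simp only [e]
    exact h1 Q hQ γ (j * R) R c (pw_mono hQ (by omega) hP) hc (fun p hp => le_trans
      (mul_le_mul_of_nonneg_left (pow_le_pow_right₀ hQ1 (by omega)) (Nat.cast_nonneg _))
      (hR p hp)) u hu v hv
  · choose χ' hχ' eχ using hχ
    choose ψ' hψ' eψ using hψ
    have h3 := fun j => h2 Q hQ γ γ' (j * R) R c (pw_mono hQ (by omega) hP)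
      (pw_mono hQ (by omega) hP') hd hc (fun p hp v hv => le_trans (mul_le_mul
        (Nat.cast_le.2 (Nat.mul_le_mul_left _
          (Nat.pow_le_pow_right (hP'.pr v hv).pos (by omega))))
        (pow_le_pow_right₀ hQ1 (by omega)) (by positivity) (Nat.cast_nonneg _)) (hR' p hp v hv))
      (fun p => χ' p j) (fun v => ψ' v j) (fun p => hχ' p j) fun v => hψ' v j
    choose U hU hU' using h3
    have eU : ∀ j, ∀ n ∈ IV.cell R j, U (n / R) n = U j n := fun j n hn => by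
      rw [IV.mem_cell_floor (by exact_mod_cast hR), Nat.floor_div_eq_div] at hn
      rw [hn]
    refine ⟨fun n => U (n / R) n, fun j => ⟨U j, hU j, eU j⟩, ?_⟩
    simp only [hbr, E_sum]
    refine le_trans ?_ (add_le_add le_rfl hs')
    rw [← sum_add_distrib]
    refine sum_le_sum fun j _ => ?_
    rw [← mul_add]
    refine mul_le_mul_of_nonneg_left ?_ (hω j)
    have e1 : ∀ d v p, sv d (j * R) (j * R + R) (pc (ψ v) (χ p)) =
        sv d (j * R) (j * R + R) (pc (ψ' v j) (χ' p j)) := fun d v p =>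
      sv_congr fun n hn => by rw [pc, pc, eχ p j n (mem_win.1 hn), eψ v j n (mem_win.1 hn)]
    have e2 : ∀ d v, sv d (j * R) (j * R + R) (pc (ψ v) fun n => U (n / R) n) =
        sv d (j * R) (j * R + R) (pc (ψ' v j) (U j)) := fun d v =>
      sv_congr fun n hn => by rw [pc, pc, eU j n (mem_win.1 hn), eψ v j n (mem_win.1 hn)]
    simp only [e1, e2]
    exact hU' j

/-- removal of a whole sub-cube -/
theorem cw_fsC {A : Set (ℕ → ℂ)} (hA : At A) (h : Ax.CONV A) : ∃ C : ℕ, ∀ Q : ℝ, 2 ≤ Q →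
    ∀ (ι : Type) [Fintype ι] [DecidableEq ι] (g : ι → Pr) (D : Finset ι) (β : ℝ) (μ : Wt ℕ)
      (R j0 j1 c Z : ℕ), CW μ R j0 j1 →
      (∀ k ∈ D, PW Q C (g k).s (g k).w) →
      (∀ k ∈ D, ∀ k' ∈ D, k ≠ k' → Disjoint (g k).s (g k').s) →
      1 ≤ β → (∀ k ∈ D, ∀ p ∈ (g k).s, (g k).w p * p ≤ β ∧ p ≤ Z) → (2 * β) ^ D.card ≤ Q →
      0 < c → (c : ℝ) * Q ^ C ≤ R →
      (c : ℝ) * μ.w (j0 * R) * ((Z : ℝ) ^ D.card * Q) ^ C ≤ 1 →
      FsC μ (GX (hull A) R) c g D (1 / Q) := by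
  obtain ⟨C, h⟩ := Nil.EL.fsC hA h
  obtain ⟨m, m1, m2, m3⟩ : ∃ m : ℕ, C ≤ m ∧ 8 ≤ m ∧ Real.exp 2 * C.factorial ≤ m :=
    ⟨C + 8 + ⌈Real.exp 2 * C.factorial⌉₊, by omega, by omega,
      (Nat.le_ceil _).trans (by exact_mod_cast Nat.le_add_left _ _)⟩
  refine ⟨2 * (m * C) + 6, fun Q hQ ι _ _ g D β μ R j0 j1 c Z hW h1 h2 h3 h4 h5 hc h6 h7 φ hφ ψ hψ
    => ?_⟩
  have hQ1 : 1 ≤ Q := by linarith
  have hc' : (0 : ℝ) < c := by exact_mod_cast hc
  have a1 : (m : ℝ) ≤ 2 ^ m := by exact_mod_cast Nat.lt_two_pow_self.le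
  have a2 : (c : ℝ) * 3 ≤ R := by
    refine le_trans (mul_le_mul_of_nonneg_left ?_ hc'.le) h6
    calc (3 : ℝ) ≤ 2 ^ 2 := by norm_num
      _ ≤ Q ^ 2 := by gcongr
      _ ≤ _ := pow_le_pow_right₀ hQ1 (by omega)
  have hR' : (0 : ℝ) < R := by exact_mod_cast hW.pos
  have a4 : 1 ≤ (Z : ℝ) ^ D.card := by
    rcases D.eq_empty_or_nonempty with rfl | ⟨k, hk⟩
    · simp
    obtain ⟨p, hp⟩ : (g k).s.Nonempty := by
      rw [nonempty_iff_ne_empty]; intro e; simpa [e] using (g k).one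
    exact one_le_pow₀ (by exact_mod_cast ((h1 k hk).pr p hp).pos.trans_le (h4 k hk p hp).2)
  refine (h (Q ^ m) (le_trans (by exact_mod_cast m1) (a1.trans (by gcongr))) ι g D β ((Q ^ m) ^ C)
    Z R c (fun k hk p hp => ⟨(h1 k hk).pr p hp, (h4 k hk p hp).1, le_trans ?_ ((h1 k hk).lo p hp),
      by exact_mod_cast (h4 k hk p hp).2⟩) h2 h3 ?_ le_rfl hc (le_trans ?_ h6) μ (j0 * R) (j1 * R)
    hW.s hW.anti (fun N => ⌊(N : ℝ) / R⌋₊) _ (fun a b e => Nat.floor_mono (by gcongr))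
    (fun a b => ?_) (fun Φ hΦ j => ?_) φ hφ ψ hψ).trans ?_
  · rw [← pow_mul Q, ← pow_mul Q]; exact pow_le_pow_right₀ hQ1 (by omega)
  · calc _ ≤ ((2 * β) ^ m) ^ D.card := by
          gcongr
          rw [mul_right_comm, mul_pow]
          gcongr
          exact m3.trans a1
      _ ≤ _ := by rw [← pow_mul, mul_comm m, pow_mul]; gcongr
  · rw [← pow_mul]; gcongr; omega
  · have b1 := Nat.floor_le (a := ((a + b : ℕ) : ℝ) / R) (by positivity)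
    have b2 := Nat.lt_floor_add_one ((a : ℝ) / R)
    push_cast at b1 ⊢
    rw [add_div] at b1 ⊢
    linarith
  · obtain ⟨u, hu, e⟩ := hΦ j
    exact ⟨u, hu, fun N hN => e N ((IV.mem_cell_floor hR').mpr hN)⟩
  · have b1 := hW.mass_le hc (by rw [mul_comm]; exact_mod_cast a2)
    have b2 : c * μ.w (j0 * R) ≤ 1 / ((Z : ℝ) ^ D.card * Q) ^ (2 * (m * C) + 6) := by
      rw [le_div_iff₀ (by positivity)]
      exact h7
    have b3 : ((Z : ℝ) ^ D.card * Q ^ m) ^ C * Q ^ 6 ≤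
        ((Z : ℝ) ^ D.card * Q) ^ (2 * (m * C) + 6) := by
      have b4 := one_le_mul_of_one_le_of_one_le a4 hQ1
      rw [pow_add]
      refine mul_le_mul (le_trans ?_ (pow_le_pow_right₀ b4 (by omega : m * C ≤ _)))
        (by gcongr; exact le_mul_of_one_le_left (by linarith) a4) (by positivity) (by positivity)
      rw [pow_mul, mul_pow _ Q]
      gcongr
      exact le_self_pow₀ a4 (by omega)
    have b5 : 2 ^ 5 * Q ≤ Q ^ 6 := by rw [pow_succ Q]; gcongr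
    have b6 : 2 ^ 7 * Q ≤ Q ^ m := le_trans (by rw [pow_succ Q]; gcongr) (pow_le_pow_right₀ hQ1 m2)
    calc _ ≤ 20 / (2 ^ 7 * Q) * 2 + 13 * ((Z : ℝ) ^ D.card * Q ^ m) ^ C *
          (1 / (((Z : ℝ) ^ D.card * Q ^ m) ^ C * (2 ^ 5 * Q))) := by
          have : 0 ≤ mass μ c := sum_nonneg fun N _ => mul_nonneg hc'.le (μ.nn N)
          gcongr
          exact b2.trans (by gcongr; exact le_trans (by gcongr) b3)
      _ = 23 / 32 * (1 / Q) := by field_simp; norm_num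
      _ ≤ _ := mul_le_of_le_one_left (by positivity) (by norm_num)

/-- the system of a weight and a class over the base level `b` -/
noncomputable def sysB (μ : Wt ℕ) {X : Set (ℕ → ℂ)} (h : Cl X) (b : ℕ) : Sys ℕ where
  μ := fun c => lvW μ (b * c)
  X := fun _ => X
  cvx := fun _ => h.cvx
  zero := fun _ => h.zero
  neg := fun _ => h.neg
  bdd := fun _ => h.bdd
  mono := fun _ _ => Set.Subset.rfl

theorem fs_sysB {X : Set (ℕ → ℂ)} (h : Cl X) {b c : ℕ} {γ : Pr} {ε : ℝ} :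
    Fs (sysB μ h b) c γ ε ↔ FsN μ X (b * c) γ ε := by
  simp only [Fs, FsN, sysB, br, mul_assoc]

theorem ext_sysB {X : Set (ℕ → ℂ)} (h : Cl X) {b c : ℕ} {γ γ' : Pr} {ε : ℝ} :
    Nil.ES.Ext (sysB μ h b) c γ γ' ε ↔ ExtN μ X (b * c) γ γ' ε := by
  simp only [Nil.ES.Ext, ExtN, sysB, br, mul_assoc]

/-- the hypotheses of one cube over the base level `b`, as statements on levels -/
structure TopB {ι : Type} [Fintype ι] [DecidableEq ι] (μ : Wt ℕ) (X : Set (ℕ → ℂ)) (b : ℕ)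
    (g : ι → Pr) (S0 St : Finset ι) (ε : ℝ) : Prop where
  mass : ∀ a ∈ supp g, mass μ (b * lv St a) ≤ 2
  fs : ∀ a ∈ supp g, ∀ S : Finset ι, ∀ j ∈ St, S ⊆ St → j ∉ S → FsN μ X (b * lv S a) (g j) ε
  ext0 : ∀ a ∈ supp g, ∀ k ∈ St, ExtN μ X (b * lv (St.erase k) a) (g k) Pr.unit ε
  ext1 : ∀ a ∈ supp g, ∀ S : Finset ι, ∀ k ∈ St, ∀ j ∈ St, S ⊆ St → k ∉ S → j ∉ insert k S →
    S0 ⊆ insert k S → ExtN μ X (b * lv S a) (g k) (g j) ε

theorem TopB.topS {ι : Type} [Fintype ι] [DecidableEq ι] {X : Set (ℕ → ℂ)} (hX : Cl X) {b : ℕ}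
    {g : ι → Pr} {S0 St : Finset ι} {ε : ℝ} (h : TopB μ X b g S0 St ε) :
    TopS (sysB μ hX b) g S0 St ε where
  mass := h.mass
  fs := fun S j hj hS hjS a ha => (fs_sysB hX).2 (h.fs a ha S j hj hS hjS)
  ext0 := fun a ha k hk => (ext_sysB hX).2 (h.ext0 a ha k hk)
  ext1 := fun a ha S k hk j hj hS h1 h2 h3 => (ext_sysB hX).2 (h.ext1 a ha S k hk j hj hS h1 h2 h3)

open Pl.Conc in
/-- the hypotheses of one cube over a base level from sampling and extension under size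
conditions -/
theorem topB {ι : Type} [Fintype ι] [DecidableEq ι] {X : Set (ℕ → ℂ)} {g : ι → Pr}
    {o : ι} {St : Finset ι} {γ0 : Pr} {ε : ℝ} {ok : Pr → Prop} {y e R b : ℕ} (hε : 0 ≤ ε)
    (hy : 2 ≤ y) (he : 1 ≤ e) (hb : 0 < b)
    (hm : ∀ c : ℕ, 0 < c → 3 * c ≤ R → mass μ c ≤ 2)
    (hf : ∀ γ c, ok γ → 0 < c → (∀ p ∈ γ.s, c * p * y ≤ R) → FsN μ X c γ ε)
    (hx : ∀ γ γ' c, ok γ → ok γ' → Disjoint γ.s γ'.s → 0 < c →
      (∀ p ∈ γ.s, ∀ v ∈ γ'.s, c * p * v ^ e * y ≤ R) → ExtN μ X c γ γ' ε)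
    (hok : ∀ k ∈ St, ok (g k)) (hok0 : ok γ0) (hpos : ∀ k ∈ St, ∀ p ∈ (g k).s, 0 < p)
    (hd : ∀ k ∈ St, ∀ j ∈ St, k ≠ j → Disjoint (g k).s (g j).s)
    (hd0 : ∀ k ∈ St, Disjoint (g k).s γ0.s)
    (hs : ∀ j ∈ St, j ≠ o → ∀ v ∈ (g j).s, v ≤ y ^ 2) (hs0 : ∀ v ∈ γ0.s, v ≤ y ^ 2)
    (ht : ∀ a ∈ supp g, b * lv St a * y ^ (2 * e + 1) ≤ R) : TopB μ X b g {o} St (3 * ε) := by
  have hy1 : 1 ≤ y := by omega
  have pos : ∀ a ∈ supp g, ∀ k ∈ St, 0 < a k := fun a ha k hk => hpos k hk _ (mem_supp.1 ha k)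
  have key : ∀ a ∈ supp g, ∀ S : Finset ι, S ⊆ St → ∀ j ∈ St, j ∉ S → ∀ p ∈ (g j).s,
      ∀ z : ℕ, z ≤ y ^ (2 * e + 1) → b * lv S a * p * z ≤ R := by
    intro a ha S hS j hj hjS p hp z hz
    have h1 := update_mem ha hp
    rw [mul_assoc b, ← lv_insert_update hjS]
    exact (Nat.mul_le_mul (Nat.mul_le_mul_left b (lv_mono (insert_subset hj hS) (pos _ h1)))
      hz).trans (ht _ h1)
  have pw : ∀ v : ℕ, v ≤ y ^ 2 → v ^ e * y ≤ y ^ (2 * e + 1) := fun v hv => by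
    rw [pow_succ, pow_mul]
    exact Nat.mul_le_mul_right _ (Nat.pow_le_pow_left hv _)
  have pw1 : ∀ v : ℕ, v ≤ y ^ 2 → v * y ≤ y ^ (2 * e + 1) := fun v hv => by
    refine (Nat.mul_le_mul_right _ hv).trans ?_
    rw [← pow_succ]
    exact Nat.pow_le_pow_right hy1 (by omega)
  have e3 : ε ≤ 3 * ε := by linarith
  refine ⟨fun a ha => hm _ (Nat.mul_pos hb (lv_pos (pos a ha))) ?_, fun a ha S j hj hS hjS => ?_,
    fun a ha k hk => ?_, fun a ha S k hk j hj hS hkS hjS h0 => ?_⟩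
  · refine le_trans ?_ (ht a ha)
    rw [mul_comm 3]
    refine Nat.mul_le_mul_left _ ?_
    calc 3 ≤ 2 ^ 2 := by norm_num
      _ ≤ y ^ 2 := Nat.pow_le_pow_left hy 2
      _ ≤ _ := Nat.pow_le_pow_right hy1 (by omega)
  · refine FsN_mono (hf _ _ (hok j hj) (Nat.mul_pos hb (lv_pos fun k hk => pos a ha k (hS hk)))
      fun p hp => ?_) e3
    refine key a ha S hS j hj hjS p hp y ?_
    conv_lhs => rw [← pow_one y]
    exact Nat.pow_le_pow_right hy1 (by omega)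
  · have hc : 0 < b * lv (St.erase k) a :=
      Nat.mul_pos hb (lv_pos fun j hj => pos a ha j (mem_of_mem_erase hj))
    have h1 := hx (g k) γ0 _ (hok k hk) hok0 (hd0 k hk) hc fun p hp v hv => by
      rw [mul_assoc _ (v ^ e)]
      exact key a ha _ (erase_subset _ _) k hk (notMem_erase _ _) p hp _ (pw v (hs0 v hv))
    have h2 := hf γ0 _ hok0 hc fun v hv => by
      rw [mul_assoc]
      exact (Nat.mul_le_mul (Nat.mul_le_mul_left b (lv_mono (erase_subset _ _) (pos a ha)))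
        (pw1 v (hs0 v hv))).trans (ht a ha)
    have h3 : ∀ p ∈ (g k).s, FsN μ X (b * lv (St.erase k) a * p) γ0 ε := fun p hp =>
      hf γ0 _ hok0 (Nat.mul_pos hc (hpos k hk p hp)) fun v hv => by
        rw [mul_assoc _ v]
        exact key a ha _ (erase_subset _ _) k hk (notMem_erase _ _) p hp _ (pw1 v (hs0 v hv))
    exact ExtN_mono (h1.unit h2 h3) (by linarith)
  · have hjo : j ≠ o := fun h => hjS (h0 (by simp [h]))
    have hkj : k ≠ j := fun h => hjS (by simp [h])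
    refine ExtN_mono (hx _ _ _ (hok k hk) (hok j hj) (hd k hk j hj hkj)
      (Nat.mul_pos hb (lv_pos fun i hi => pos a ha i (hS hi))) fun p hp v hv => ?_) e3
    rw [mul_assoc _ (v ^ e)]
    exact key a ha S hS k hk hkS p hp _ (pw v (hs j hj hjo v hv))

end Pool.Agent.P.MP_a14ce1_nt.Fu
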