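import Pool.Agent.P.MP_a14ce1_nt.Fu.ExtX
import Pool.Agent.P.MP_a14ce1_nt.Fu.LocW

/-! The weights of one interval are cell weights. -/

namespace Pool.Agent.P.MP_a14ce1_nt.Fu

theorem CW.cells {μ : Nil.ES.Wt ℕ} {R j0 j1 : ℕ} (h : CW μ R j0 j1) : Cells μ R (3 / 2) :=
  ⟨Finset.Ico j0 j1, fun j => μ.w (j * R), fun _ => μ.nn _, h.tot, fun c φ ψ => by
    simp only [add_one_mul]
    exact h.br_eq c φ ψ⟩

end Pool.Agent.P.MP_a14ce1_nt.Fu
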