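import Pool.Agent.P.MP_a14ce1_nt.Fu.L8St
import Pool.Agent.P.MP_a14ce1_nt.Fu.CwX
import Pool.Agent.P.MP_a14ce1_nt.IV.Grid

/-! The hypotheses of the compensated core over one base level, from size conditions. -/

open Finset Function

namespace Pool.Agent.P.MP_a14ce1_nt.Fu.L8

open Ch (rs pv)
open Nil.ES
open Pl (GX prOf)
open Pl.Conc
open Ax (hull PW)

namespace Lev

/-- fair sampling with absolute values on a grid -/
theorem fsAX {A : Set (ℕ → ℂ)} (hA : Ax.Sys A) : ∃ C : ℕ, 1 ≤ C ∧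
    ∀ Q : ℝ, 2 ≤ Q → ∀ (μ : Wt ℕ) (R c Z J : ℕ) (m K : ℝ) (V : Finset ℕ) (γ' : Pr),
    Cells μ R m → 0 < c → 1 ≤ Z → (∀ p ∈ V, p.Prime ∧ Q ^ C ≤ p ∧ p ≤ Z) → Real.log Z ≤ Q →
    γ'.s ⊆ prods V J → 0 ≤ K → (∀ v ∈ γ'.s, γ'.w v * v ≤ K) →
    ((c * Z ^ (J + 1) : ℕ) : ℝ) * Q ^ C ≤ R →
      FsA μ (GX (hull A) R) c γ' (K * (J * (1 + rs V) ^ J * ((rs V + 8) * (m / Q)))) := by
  obtain ⟨C, hC, h⟩ := fsExt_cells hA
  refine ⟨C, hC, fun Q hQ μ R c Z J m K V γ' hμ hc hZ hV hlog hs K0 hK hR φ hφ ψ hψ => ?_⟩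
  have hQ0 : 0 < Q := by linarith
  have q1 : 1 ≤ Q ^ C := one_le_pow₀ (by linarith)
  have m0 := hμ.nonneg
  have pos : ∀ p ∈ V, 0 < p := fun p hp => (hV p hp).1.pos
  have bd : ∀ v ∈ prods V J, 0 < v ∧ v ≤ Z ^ J := fun v hv =>
    prods_bd hZ (fun p hp => ⟨pos p hp, (hV p hp).2.2⟩) hv
  have le : ∀ {a b : ℕ}, a ≤ b → (b : ℝ) * Q ^ C ≤ R → (a : ℝ) * Q ^ C ≤ R := fun hab hb =>
    le_trans (mul_le_mul_of_nonneg_right (Nat.cast_le.2 hab) (by positivity)) hb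
  have leR : ∀ {a : ℕ}, (a : ℝ) * Q ^ C ≤ R → a ≤ R := fun ha => by
    exact_mod_cast (le_mul_of_one_le_right (Nat.cast_nonneg _) q1).trans ha
  have fs : ∀ {d : ℕ}, 0 < d → ((d * Z : ℕ) : ℝ) * Q ^ C ≤ R → ∀ W ⊆ V, ∀ hW : 0 < rs W,
      1 ≤ Q * rs W → FsN μ (GX (hull A) R) d (rec1 W hW) (m / Q) := fun hd hR W hW hW0 h1 =>
    (h Q hQ _ μ R _ m (pw_rec1 hW0 h1 (fun p hp => hV p (hW hp)) hlog) hμ
      ((Nat.mul_pos hd hZ).trans_le (leR hR)) hd).1 fun p hp =>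
        le (Nat.mul_le_mul_left _ (hV p (hW hp)).2.2) hR
  have hR0 : 0 < R := (by positivity : 0 < c * Z ^ (J + 1)).trans_le (leR hR)
  have sz : ∀ v ∈ prods V J, ((c * v * Z : ℕ) : ℝ) * Q ^ C ≤ R := fun v hv =>
    le (by rw [pow_succ, ← mul_assoc]; gcongr; exact (bd v hv).2) hR
  have h1 := fsX_abs (Y := sysOf μ (Pl.basic.1 _ (IV.hull A hA.atm) R hR0)) (m := 2 * m) hQ0
    (by positivity) (fun v hv => fs (Nat.mul_pos hc (bd v hv).1) (sz v hv))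
    (fun v hv => hμ.mass_le (Nat.mul_pos hc (bd v hv).1)
      ((Nat.le_mul_of_pos_right _ hZ).trans (leR (sz v hv)))) hφ hψ
  rw [show rs V * (m / Q) + 4 * (2 * m) / Q = (rs V + 8) * (m / Q) by ring] at h1
  exact (E_le_prods hs pos hK fun v => abs_nonneg _).trans (mul_le_mul_of_nonneg_left h1 K0)

theorem gam_w (V : Finset ℕ) (n v : ℕ) : (gam V n).w v * v ≤ 1 := by
  have h : 1 ≤ rs (prods V (3 * n + 1)) :=
    le_trans (by simp) (single_le_sum (f := fun p : ℕ => (1 : ℝ) / p)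
      (fun _ _ => by positivity) (one_mem_prods V _))
  change 1 / (v * rs (prods V (3 * n + 1))) * v ≤ 1
  rcases Nat.eq_zero_or_pos v with rfl | hv
  · simp
  · have : (0 : ℝ) < v := by exact_mod_cast hv
    rw [show 1 / (v * rs (prods V (3 * n + 1))) * v = 1 / rs (prods V (3 * n + 1)) by field_simp,
      div_le_one (by linarith)]
    exact h

theorem num {H Q x z : ℝ} {n : ℕ} (hH : 1 ≤ H) (h : (8 * H) ^ (10 * (n + 1)) ≤ Q) (x0 : 0 ≤ x)
    (hx : x ≤ 8 * H) (z0 : 0 ≤ z) (hz : z ≤ 64 * H) :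
    ((3 * n + 1 : ℕ) : ℝ) * x ^ (3 * n + 1) * z ≤ Q := by
  have h8 : (1 : ℝ) ≤ 8 * H := by linarith
  have a1 : ((3 * n + 1 : ℕ) : ℝ) ≤ (8 * H) ^ (3 * n + 1) :=
    le_trans (by exact_mod_cast (Nat.lt_two_pow_self (n := 3 * n + 1)).le)
      (pow_le_pow_left₀ (by norm_num : (0 : ℝ) ≤ 2) (by linarith) _)
  calc _ ≤ (8 * H) ^ (3 * n + 1) * (8 * H) ^ (3 * n + 1) * (8 * H) ^ 2 := by
        gcongr
        nlinarith
    _ = (8 * H) ^ (6 * n + 4) := by ring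
    _ ≤ _ := (pow_le_pow_right₀ h8 (by omega)).trans h

theorem cast_le {Q y n R C : ℕ} (h : Q ^ (40 * C) ≤ y) (hn : n * y ≤ R) :
    (n : ℝ) * ((Q : ℝ) ^ 40) ^ C ≤ R := by
  rw [← pow_mul]
  exact_mod_cast (Nat.mul_le_mul_left n h).trans hn

theorem eps {Q x : ℝ} (hQ : 2 ≤ Q) (hx : x ≤ Q ^ 24) : x / Q ^ 40 ≤ (1 / Q ^ 4) ^ 4 := by
  have : 0 < Q := by linarith
  calc _ ≤ Q ^ 24 / Q ^ 40 := by gcongr
    _ = _ := by field_simp

end Lev

open Lev in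
theorem lev8 : S_Lev := by
  intro A hA
  obtain ⟨C0, hC0, hF⟩ := cw_fsExt hA
  obtain ⟨C1, hC⟩ := cw_fsC hA.atm hA.conv
  obtain ⟨C2, hC2, hX⟩ := fsExtX hA (IV.hull A hA.atm)
  obtain ⟨C3, hC3, hAb⟩ := fsAX hA
  refine ⟨40 * (C0 + C1 + C2 + C3), by omega, ?_⟩
  set C := 40 * (C0 + C1 + C2 + C3) with hCd
  intro Q y l β R j0 j1 Z n b μ Gs G0 P V H hG hP hW ⟨hl, hβ, hQ, hy, pG, pG0, dG, dG0, mG, mG0⟩
    pP pV dPV hH mP mV mV' hHQ hZ hb hr1 hr2 hw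
  have hβQ : (2 * β) ^ l ≤ Q :=
    (Nat.pow_le_pow_left (Nat.mul_le_mul_right _ (by omega)) l).trans hQ
  have hβ2 : 2 * β ≤ Q := (Nat.le_self_pow (by omega) (2 * β)).trans hβQ
  have hQ2 : 2 ≤ Q := by omega
  have yC : ∀ k, k ≤ C → Q ^ k ≤ y := fun k hk => (Nat.pow_le_pow_right (by omega) hk).trans hy
  have y3 : 3 ≤ y := le_trans (le_trans (by norm_num) (Nat.pow_le_pow_left hQ2 2)) (yC 2 (by omega))
  have Q2 : (2 : ℝ) ≤ Q := by exact_mod_cast hQ2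
  have Q1 : (Q : ℝ) ≤ (Q : ℝ) ^ 40 := le_self_pow₀ (by linarith) (by norm_num)
  have Q24 : (Q : ℝ) ^ 4 ≤ (Q : ℝ) ^ 24 := pow_le_pow_right₀ (by linarith) (by norm_num)
  have Q4 : (2 : ℝ) ^ 3 * Q ≤ (Q : ℝ) ^ 4 := by rw [pow_succ (Q : ℝ) 3]; gcongr
  have Q40 : (2 : ℝ) ≤ (Q : ℝ) ^ 40 := Q2.trans Q1
  have βQ : (β : ℝ) ≤ (Q : ℝ) ^ 40 := le_trans (by exact_mod_cast (by omega : β ≤ Q)) Q1
  have HQ : H ≤ (Q : ℝ) ^ 40 := by
    have : 8 * H ≤ (8 * H) ^ (10 * (n + 1)) := le_self_pow₀ (by linarith) (by omega)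
    linarith
  have hG0 : 0 < rs G0 := (pos_iff_pos_of_mul_pos (lt_of_lt_of_le one_pos mG0)).1
    (by exact_mod_cast hβ)
  have hV : 0 < rs V := (pos_iff_pos_of_mul_pos (lt_of_lt_of_le one_pos mV)).1 (by linarith)
  obtain ⟨q0, hq0⟩ : P.Nonempty := by
    rw [nonempty_iff_ne_empty]
    intro h
    simp [h, rs] at hP
  have yZ : y ^ 2 ≤ Z := (pP q0 hq0).2.1.le.trans (pP q0 hq0).2.2
  have yy : y ≤ y ^ 2 := Nat.le_self_pow (by norm_num) y
  have Z1 : 1 ≤ Z := by omega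
  have logZ : ∀ p : ℕ, 0 < p → p ≤ Z → Real.log p ≤ (Q : ℝ) ^ 40 := fun p hp h =>
    ((Real.log_le_log (by exact_mod_cast hp) (by exact_mod_cast h)).trans hZ).trans Q1
  have loy : ∀ (C' p : ℕ), 40 * C' ≤ C → y ≤ p → ((Q : ℝ) ^ 40) ^ C' ≤ (p : ℝ) :=
    fun C' p h h' => by
      rw [← pow_mul]
      exact_mod_cast (yC _ h).trans h'
  have small : ∀ (S : Finset ℕ) (h0 : 0 < rs S) (C' : ℕ), 1 ≤ β * rs S → 40 * C' ≤ C →
      (∀ p ∈ S, p.Prime ∧ y < p ∧ p ≤ y ^ 2) →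
      PW ((Q : ℝ) ^ 40) C' (prOf S h0).s (prOf S h0).w ∧
        ∀ p ∈ S, (prOf S h0).w p * p = 1 / rs S := fun S h0 C' h hC' hS =>
    pw_prOf _ (fun p hp => (hS p hp).1) (h.trans (mul_le_mul_of_nonneg_right βQ h0.le))
      (fun p hp => loy C' p hC' (hS p hp).2.1.le)
      fun p hp => logZ p (hS p hp).1.pos ((hS p hp).2.2.trans yZ)
  have big : ∀ C', 40 * C' ≤ C → PW ((Q : ℝ) ^ 40) C' (prOf P hP).s (prOf P hP).w := fun C' hC' =>
    (pw_prOf _ (fun p hp => (pP p hp).1) (mP.trans (mul_le_mul_of_nonneg_right HQ hP.le))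
      (fun p hp => loy C' p hC' (yy.trans (pP p hp).2.1.le))
      fun p hp => logZ p (pP p hp).1.pos (pP p hp).2.2).1
  have bigV : ∀ C', 40 * C' ≤ C → ∀ p ∈ V, p.Prime ∧ ((Q : ℝ) ^ 40) ^ C' ≤ p ∧ p ≤ Z :=
    fun C' hC' p hp => ⟨(pV p hp).1, loy C' p hC' (yy.trans (pV p hp).2.1.le), (pV p hp).2.2⟩
  set g := cb Gs hG with hg
  set γ := prOf P hP with hγ
  have memG : ∀ a : Fin l ⊕ Bool → ℕ, (∀ k ∈ Sa l, a k ∈ (g k).s) →
      (fun k => a (Sum.inl k)) ∈ Fintype.piFinset Gs := fun a h =>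
    Fintype.mem_piFinset.2 fun k => h _ (mem_Sa.2 ⟨k, rfl⟩)
  have up : ∀ k : Fin l, update g (Sum.inr true) γ (Sum.inl k) = g (Sum.inl k) :=
    fun k => update_of_ne (by simp) _ _
  have memU : ∀ a ∈ supp (update g (Sum.inr true) γ),
      a (Sum.inr true) ∈ P ∧ (fun k => a (Sum.inl k)) ∈ Fintype.piFinset Gs := fun a ha => by
    rw [mem_supp] at ha
    refine ⟨by have := ha (Sum.inr true); rwa [update_self] at this,
      Fintype.mem_piFinset.2 fun k => ?_⟩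
    have := ha (Sum.inl k)
    rwa [up] at this
  have posA : ∀ a ∈ Fintype.piFinset Gs, 0 < ∏ k, a k := fun a ha =>
    prod_pos fun k _ => (pG k _ (Fintype.mem_piFinset.1 ha k)).1.pos
  have hε : 3 * (2 / (Q : ℝ) ^ 40) ≤ (1 / (Q : ℝ) ^ 4) ^ 4 := by
    rw [← mul_div_assoc]
    exact eps Q2 (by linarith)
  have hε2 : 2 / (Q : ℝ) ^ 40 ≤ (1 / (Q : ℝ) ^ 4) ^ 4 := eps Q2 (by linarith)
  have hε1 : 1 / (Q : ℝ) ^ 40 ≤ (1 / (Q : ℝ) ^ 4) ^ 4 := eps Q2 (by linarith)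
  have ms : ∀ c : ℕ, 0 < c → c * y ≤ R → mass μ c ≤ 2 := fun c h1 h2 =>
    hW.mass_le h1 (le_trans (by rw [mul_comm]; exact Nat.mul_le_mul_left _ y3) h2)
  have fs : ∀ (γ' : Pr) (c : ℕ), PW ((Q : ℝ) ^ 40) C0 γ'.s γ'.w → 0 < c →
      (∀ p ∈ γ'.s, c * p * y ≤ R) → FsN μ (GX (hull A) R) c γ' (2 / (Q : ℝ) ^ 40) :=
    fun γ' c h1 h2 h3 => (hF _ Q40 μ R j0 j1 γ' c hW h1 h2).1 fun p hp =>
      Lev.cast_le (yC _ (by omega)) (h3 p hp)
  have ex : ∀ (γ' γ'' : Pr) (c : ℕ), PW ((Q : ℝ) ^ 40) C0 γ'.s γ'.w →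
      PW ((Q : ℝ) ^ 40) C0 γ''.s γ''.w → Disjoint γ'.s γ''.s → 0 < c →
      (∀ p ∈ γ'.s, ∀ v ∈ γ''.s, c * p * v ^ C0 * y ≤ R) →
      ExtN μ (GX (hull A) R) c γ' γ'' (2 / (Q : ℝ) ^ 40) := fun γ' γ'' c h1 h1' hd h2 h3 =>
    (hF _ Q40 μ R j0 j1 γ' c hW h1 h2).2 γ'' h1' hd
      fun p hp v hv => Lev.cast_le (yC _ (by omega)) (h3 p hp v hv)
  have fc : ∀ (c : ℕ) (S : Finset (Fin l ⊕ Bool)), 0 < c → c * y ≤ R →
      FsC μ (GX (hull A) R) c g (Sa l \ S) ((1 / (Q : ℝ) ^ 4) ^ 4) := by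
    intro c S hc h
    have cd : (Sa l \ S).card ≤ l := (card_le_card sdiff_subset).trans (card_Sa l).le
    refine FsC_mono (hC _ Q40 _ g _ β μ R j0 j1 c (y ^ 2) hW ?_ ?_ (by exact_mod_cast hβ) ?_ ?_
      hc (Lev.cast_le (yC _ (by omega)) h) ?_) hε1
    · intro k hk
      obtain ⟨j, rfl⟩ := mem_Sa.1 (mem_sdiff.1 hk).1
      exact (small _ (hG j) C1 (mG j) (by omega) (pG j)).1
    · intro k hk k' hk' hne
      obtain ⟨j, rfl⟩ := mem_Sa.1 (mem_sdiff.1 hk).1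
      obtain ⟨j', rfl⟩ := mem_Sa.1 (mem_sdiff.1 hk').1
      exact dG j j' fun h => hne (by rw [h])
    · intro k hk p hp
      obtain ⟨j, rfl⟩ := mem_Sa.1 (mem_sdiff.1 hk).1
      refine ⟨?_, (pG j p hp).2.2⟩
      refine ((small _ (hG j) C1 (mG j) (by omega) (pG j)).2 p hp).trans_le ?_
      rw [div_le_iff₀ (hG j)]
      exact mG j
    · refine le_trans ?_ Q1
      exact_mod_cast (Nat.pow_le_pow_right (by omega) cd).trans hβQ
    · have h1 : (y ^ 2) ^ (Sa l \ S).card * Q ^ 40 ≤ (y ^ l) ^ 3 := by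
        calc _ ≤ (y ^ 2) ^ l * y ^ l := Nat.mul_le_mul (Nat.pow_le_pow_right (by positivity) cd)
              ((yC 40 (by omega)).trans (Nat.le_self_pow (by omega) y))
          _ = _ := by ring
      have h3 : ((y ^ 2) ^ (Sa l \ S).card * Q ^ 40) ^ C1 ≤ (y ^ l) ^ C := by
        refine (Nat.pow_le_pow_left h1 _).trans ?_
        rw [← pow_mul]
        exact Nat.pow_le_pow_right (by positivity) (by omega)
      have h2 : c ≤ R := (Nat.le_mul_of_pos_right _ (by omega)).trans h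
      refine le_trans (mul_le_mul (mul_le_mul_of_nonneg_right (by exact_mod_cast h2) (μ.nn _))
        (by exact_mod_cast h3) (by positivity) (mul_nonneg (Nat.cast_nonneg _) (μ.nn _))) hw
  have fa : ∀ c : ℕ, 0 < c → c * Z ^ (3 * n + 1 + 1) * y ≤ R →
      FsA μ (GX (hull A) R) c (gam V n) ((1 / (Q : ℝ) ^ 4) ^ 4) := fun c hc h φ hφ ψ hψ => by
    refine (hAb _ Q40 μ R c Z (3 * n + 1) (3 / 2) 1 V (gam V n) hW.cells hc Z1 (bigV C3 (by omega))
      (hZ.trans Q1) Subset.rfl zero_le_one (fun v _ => gam_w V n v)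
      (Lev.cast_le (yC _ (by omega)) h) φ hφ ψ hψ).trans ?_
    have h1 := num (x := 1 + rs V) (z := (rs V + 8) * (3 / 2)) hH hHQ (by linarith) (by linarith)
      (by positivity) (by linarith)
    rw [one_mul, ← mul_div_assoc, ← mul_div_assoc]
    exact eps Q2 (by linarith)
  refine ⟨fun a ha => ?_, ?_, fun a ha S hS hc => ?_⟩
  · have h1 := memG a fun k _ => mem_supp.1 ha k
    rw [lv_Sa]
    refine ms _ (Nat.mul_pos hb (posA _ h1)) (le_trans ?_ (hr1 q0 hq0 _ h1))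
    exact Nat.mul_le_mul (Nat.mul_le_mul_right _ (Nat.le_mul_of_pos_right _ (pP q0 hq0).1.pos))
      (Nat.le_self_pow (by omega) y)
  · have cases : ∀ k ∈ insert (Sum.inr true) (Sa l), k = Sum.inr true ∨ ∃ j, Sum.inl j = k :=
      fun k hk => (mem_insert.1 hk).imp id mem_Sa.1
    have dbs : ∀ S : Finset ℕ, (∀ p ∈ S, p.Prime ∧ y < p ∧ p ≤ y ^ 2) → Disjoint P S :=
      fun S hS => disjoint_left.2 fun q hq hq' => by
        have := (pP q hq).2.1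
        have := (hS q hq').2.2
        omega
    have T := topB (μ := μ) (X := GX (hull A) R) (g := update g (Sum.inr true) γ)
      (o := Sum.inr true) (St := insert (Sum.inr true) (Sa l)) (γ0 := prOf G0 hG0)
      (ε := 2 / (Q : ℝ) ^ 40) (ok := fun γ' => PW ((Q : ℝ) ^ 40) C0 γ'.s γ'.w) (y := y) (e := C0)
      (R := R) (b := b) (by positivity) (by omega) hC0 hb (fun c h1 h2 => hW.mass_le h1 h2) fs ex
      (fun k hk => by
        rcases cases k hk with rfl | ⟨j, rfl⟩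
        · rw [update_self]; exact big C0 (by omega)
        · rw [up]; exact (small _ (hG j) C0 (mG j) (by omega) (pG j)).1)
      (small _ hG0 C0 mG0 (by omega) pG0).1
      (fun k hk p hp => by
        rcases cases k hk with rfl | ⟨j, rfl⟩
        · rw [update_self] at hp; exact (pP p hp).1.pos
        · rw [up] at hp; exact (pG j p hp).1.pos)
      (fun k hk k' hk' hne => by
        rcases cases k hk with rfl | ⟨j, rfl⟩ <;> rcases cases k' hk' with rfl | ⟨j', rfl⟩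
        · exact absurd rfl hne
        · rw [update_self, up]; exact dbs _ (pG j')
        · rw [update_self, up]; exact (dbs _ (pG j)).symm
        · rw [up, up]; exact dG j j' fun h => hne (by rw [h]))
      (fun k hk => by
        rcases cases k hk with rfl | ⟨j, rfl⟩
        · rw [update_self]; exact dbs _ pG0
        · rw [up]; exact dG0 j)
      (fun k hk hne p hp => by
        rcases cases k hk with rfl | ⟨j, rfl⟩
        · exact absurd rfl hne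
        · rw [up] at hp; exact (pG j p hp).2.2)
      (fun p hp => (pG0 p hp).2.2)
      (fun a ha => by
        obtain ⟨h1, h2⟩ := memU a ha
        rw [lv_top, ← mul_assoc]
        exact le_trans (Nat.mul_le_mul_left _ (Nat.pow_le_pow_right (by omega) (by omega)))
          (hr1 _ h1 _ h2))
    exact ⟨T.mass, fun a ha S j hj hS hjS => FsN_mono (T.fs a ha S j hj hS hjS) hε,
      fun a ha k hk => ExtN_mono (T.ext0 a ha k hk) hε,
      fun a ha S k hk j hj hS h1 h2 h3 => ExtN_mono (T.ext1 a ha S k hk j hj hS h1 h2 h3) hε⟩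
  · have h1 : ∀ k ∈ S, 0 < a k ∧ a k ≤ y ^ 2 := fun k hk => by
      obtain ⟨j, rfl⟩ := mem_Sa.1 (hS hk)
      have := pG j _ (ha _ (hS hk))
      exact ⟨this.1.pos, this.2.2⟩
    have h2 : lv S a ≤ y ^ (l / 2) :=
      (prod_le_pow_card S a _ fun k hk => (h1 k hk).2).trans (by
        rw [← pow_mul]
        exact Nat.pow_le_pow_right (by omega) (by omega))
    have hc0 : 0 < b * lv S a := Nat.mul_pos hb (lv_pos fun k hk => (h1 k hk).1)
    have hk : 3 * n + 3 + C2 ≤ C * (n + 1) := by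
      have : (3 + C2) * (n + 1) ≤ C * (n + 1) := Nat.mul_le_mul_right _ (by omega)
      nlinarith
    have sz : ∀ q ∈ P, ∀ k x : ℕ, k ≤ 3 * n + 3 + C2 → x ≤ Z ^ k →
        b * lv S a * q * x * y ≤ R := fun q hq k x h3 h4 => by
      refine le_trans ?_ (hr2 q hq)
      rw [mul_right_comm b _ q]
      exact Nat.mul_le_mul (Nat.mul_le_mul (Nat.mul_le_mul_left _ h2)
        (h4.trans (Nat.pow_le_pow_right Z1 (h3.trans hk)))) (Nat.le_self_pow (by omega) y)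
    generalize b * lv S a = c at hc0 sz
    have sz0 : ∀ k x : ℕ, k ≤ 3 * n + 3 + C2 → x ≤ Z ^ k → c * x * y ≤ R := fun k x h3 h4 =>
      le_trans (Nat.mul_le_mul_right _ (Nat.mul_le_mul_right _
        (Nat.le_mul_of_pos_right _ (pP q0 hq0).1.pos))) (sz q0 hq0 k x h3 h4)
    have sz2 : ∀ q ∈ P, ∀ q' ∈ P, ∀ k x : ℕ, k ≤ 3 * n + 2 + C2 → x ≤ Z ^ k →
        c * q * q' * x * y ≤ R := fun q hq q' hq' k x h3 h4 => by
      rw [mul_assoc _ q']
      refine sz q hq (k + 1) _ (by omega) ?_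
      rw [pow_succ']
      exact Nat.mul_le_mul (pP q' hq').2.2 h4
    have bd : ∀ v ∈ (gam V n).s, 0 < v ∧ v ≤ Z ^ (3 * n + 1) := fun v hv =>
      prods_bd Z1 (fun p hp => ⟨(pV p hp).1.pos, (pV p hp).2.2⟩) hv
    have pp : ∀ q ∈ P, 0 < q := fun q hq => (pP q hq).1.pos
    refine ⟨fun v hv => ms _ (Nat.mul_pos hc0 (bd v hv).1) (sz0 _ _ (by omega) (bd v hv).2),
      fa _ hc0 (sz0 _ _ (by omega) le_rfl),
      fun q hq => fa _ (Nat.mul_pos hc0 (pp q hq)) (sz q hq _ _ (by omega) le_rfl),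
      fun q hq q' hq' => fa _ (Nat.mul_pos (Nat.mul_pos hc0 (pp q hq)) (pp q' hq'))
        (sz2 q hq q' hq' _ _ (by omega) le_rfl),
      fun q hq => FsN_mono (fs _ _ (big C0 (by omega)) (Nat.mul_pos hc0 (pp q hq)) fun p hp =>
        sz q hq 1 _ (by omega) (by rw [pow_one]; exact (pP p hp).2.2)) hε2,
      fun v hv => fc _ S (Nat.mul_pos hc0 (bd v hv).1) (sz0 _ _ (by omega) (bd v hv).2),
      fun q hq v hv => fc _ S (Nat.mul_pos (Nat.mul_pos hc0 (pp q hq)) (bd v hv).1)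
        (sz q hq _ _ (by omega) (bd v hv).2),
      fun q hq q' hq' v hv => fc _ S
        (Nat.mul_pos (Nat.mul_pos (Nat.mul_pos hc0 (pp q hq)) (pp q' hq')) (bd v hv).1)
        (sz2 q hq q' hq' _ _ (by omega) (bd v hv).2), ?_⟩
    refine ExtN_mono ((hX _ Q40 μ R c Z (3 * n + 1) (3 / 2) 1 V (gam V n) hW.cells hc0 Z1
      (bigV C2 (by omega)) (hZ.trans Q1) Subset.rfl fun v _ => gam_w V n v).2 γ (1 / (Q : ℝ) ^ 20)
      (big C2 (by omega)) dPV (mV.trans (mul_le_mul_of_nonneg_right HQ hV.le)) (by positivity)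
      (by norm_num) fun q hq => Lev.cast_le (yC _ (by omega)) (sz q hq _ _ (by omega) le_rfl)) ?_
    have h3 := num (x := 1 + 2 * rs V) (z := 24 * rs V) hH hHQ (by linarith) (by linarith)
      (by positivity) (by linarith)
    have Q20 : (2 : ℝ) ≤ (Q : ℝ) ^ 20 := Q2.trans (le_self_pow₀ (by linarith) (by norm_num))
    generalize ((3 * n + 1 : ℕ) : ℝ) * (1 + 2 * rs V) ^ (3 * n + 1) = x at h3 ⊢
    calc _ = (6 + (3 + x * (24 * rs V)) * (Q : ℝ) ^ 20) / (Q : ℝ) ^ 40 := by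
          field_simp
          ring
      _ ≤ _ := eps Q2 (by
          rw [show (Q : ℝ) ^ 24 = (Q : ℝ) ^ 4 * (Q : ℝ) ^ 20 by ring]
          nlinarith)

end Pool.Agent.P.MP_a14ce1_nt.Fu.L8
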