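import Pool.Agent.P.MP_a14ce1_nt.Fu.L8MidA

/-! The local plain step with explicit parameters. -/

open Finset

namespace Pool.Agent.P.MP_a14ce1_nt.Fu.L8

open Ch (rs pv rs_nonneg)
open Nil.ES
open Pl (GX)
open IV (Hull Gr Up Ep)
open Ax (hull)
open Loc (dsI gnI LL Eqv)
open Cat (lam L2)
open Pool.Agent.P.MP_e30989_nt.W (UCM)

namespace Mid

theorem eqv_prod {χ f : ℕ → ℂ} (hχ : UCM χ) {ι : Type} (s : Finset ι) (φ : ι → ℕ)
    (h : ∀ i ∈ s, φ i ≠ 0 ∧ Eqv χ f (φ i)) : ∏ i ∈ s, φ i ≠ 0 ∧ Eqv χ f (∏ i ∈ s, φ i) := by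
  refine prod_induction φ (fun c => c ≠ 0 ∧ Eqv χ f c) (fun a b ha hb =>
    ⟨mul_ne_zero ha.1 hb.1, ha.2.mul hχ.1 ha.1 hb.1 hb.2⟩) ⟨one_ne_zero, fun m _ => ?_⟩ h
  have h1 := hχ.1.mul 1 1 one_ne_zero one_ne_zero
  have h2 : χ 1 ≠ 0 := fun e => by simpa [e] using hχ.2 1 one_ne_zero
  rw [one_mul] at h1
  rw [← mul_left_cancel₀ h2 ((mul_one _).trans h1), one_mul, one_mul]

theorem Ep_aff {P : Finset ℕ} (h : 0 < rs P) (φ : ℕ → ℝ) (b M : ℝ) :
    Ep P (fun p => (3 * φ p + b) / M) = (3 * Ep P φ + b) / M := by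
  have e : ∑ p ∈ P, 1 / (p * rs P) = 1 := (Pl.prOf P h).one
  have : b = ∑ p ∈ P, 1 / (p * rs P) * b := by rw [← sum_mul, e, one_mul]
  rw [Ep, Ep, mul_sum]
  nth_rewrite 2 [this]
  rw [← sum_add_distrib, sum_div]
  exact sum_congr rfl fun p _ => by ring

theorem pigeon {K k0 k1 : ℕ} (hK : 0 < K) (hk : k0 < k1) {v : ℝ} (p : ℕ → ℝ)
    (hv : v ≤ ∑ i ∈ Ico (k0 * K) (k1 * K), lam K k0 k1 i * p i) :
    ∃ k ∈ Ico k0 k1, v * K ≤ ∑ i ∈ Ico (k * K) (k * K + K), p i := by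
  have K0 : (0 : ℝ) < K := by exact_mod_cast hK
  have h1 := Cat.L2_pos hk
  by_contra hc
  push Not at hc
  have : ∑ i ∈ Ico (k0 * K) (k1 * K), lam K k0 k1 i * p i <
      ∑ i ∈ Ico (k0 * K) (k1 * K), lam K k0 k1 i * v := by
    rw [Cat.sum_blocks _ _ hk.le, Cat.sum_blocks _ _ hk.le]
    refine sum_lt_sum_of_nonempty (nonempty_Ico.2 hk) fun k h => ?_
    have e : ∀ φ : ℕ → ℝ, ∑ r ∈ range K, lam K k0 k1 (k * K + r) * φ r =
        1 / (((k : ℝ) + 1) * K * L2 k0 k1) * ∑ r ∈ range K, φ r := fun φ => by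
      rw [mul_sum]
      exact sum_congr rfl fun r hr => by rw [Cat.lam_chain k0 k1 k (mem_range.1 hr)]
    have := hc k h
    rw [sum_Ico_eq_sum_range, Nat.add_sub_cancel_left] at this
    rw [e, e fun _ => v, sum_const, card_range, nsmul_eq_mul, mul_comm _ v]
    exact mul_lt_mul_of_pos_left this (by positivity)
  rw [← sum_mul, Cat.sum_lam hK hk, one_mul] at this
  linarith

theorem pot_mono {XX : Set (ℕ → ℂ)} {f : ℕ → ℂ} {Y M v v' : ℝ} (hM : 0 ≤ M) (h : v' ≤ v)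
    (hp : Pot XX f Y M v) : Pot XX f Y M v' := by
  obtain ⟨Ψ, h1, h2⟩ := hp
  exact ⟨Ψ, h1, (mul_le_mul_of_nonneg_right h hM).trans h2⟩

theorem grp_mono {C C' Q y l β : ℕ} {Gs : Fin l → Finset ℕ} {G0 : Finset ℕ}
    (h : Grp C Q y l β Gs G0) (hC : C' ≤ C) (hQ : 1 ≤ Q) : Grp C' Q y l β Gs G0 :=
  { h with
    hQ := (Nat.pow_le_pow_left (Nat.mul_le_mul_right β hC) l).trans h.hQ
    hy := (Nat.pow_le_pow_right hQ hC).trans h.hy }

theorem num1 {C U δ M K n Q m : ℝ} (hC : 100 ≤ C) (hU : 1 ≤ U) (hδ : 0 < δ) (hδ' : δ ≤ 1 / 4)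
    (hw : C ≤ δ * M) (hK : C * U ≤ K) (hn : 2 ≤ n) (hQ : C * n * K * M ≤ Q)
    (hm : C * Real.log (n * K) ≤ m) :
    100 ≤ M ∧ 1 ≤ K ∧ 2 * M ≤ Q ∧ 6 * (n * K * M) ≤ Q ∧ 0 ≤ Real.log (n * K) ∧ 1 ≤ m ∧
      1 ≤ n * K / δ ∧ M ≤ M * U ∧ M * Real.exp (K * M) ≤ Real.exp (2 * K * M) ∧
      ∀ y : ℝ, 0 < y → y ^ 2 ≤ Real.exp M → 4 * (Real.exp (5 / 4 * (δ * M)) * y) ≤ Real.exp M ∧
        Real.log (4 * (Real.exp (5 / 4 * (δ * M)) * y)) ≤ 2 * (δ * M) + Real.log y := by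
  obtain ⟨a1, a2, a3, a4, -, a6, a7, -, -, a8, -⟩ := num0 (by linarith) hU hδ hδ' hw hK hn
  have M0 : 0 < M := by linarith
  have b1 : M ≤ K * M := le_mul_of_one_le_left M0.le (by linarith)
  have b2 : 2 * K * M ≤ n * K * M := mul_le_mul_of_nonneg_right a4 M0.le
  have b3 : 100 * (n * K * M) ≤ C * (n * K * M) := mul_le_mul_of_nonneg_right hC (by linarith)
  refine ⟨by linarith, by linarith, by linarith, by linarith, by linarith, by nlinarith, ?_, a7, ?_,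
    fun y y0 hy => ⟨?_, ?_⟩⟩
  · rw [le_div_iff₀ hδ]
    linarith
  · rw [show 2 * K * M = K * M + K * M by ring, Real.exp_add]
    exact mul_le_mul_of_nonneg_right (by linarith [Real.add_one_le_exp (K * M)]) (Real.exp_pos _).le
  · have c1 : y ≤ Real.exp (M / 2) := by
      refine (pow_le_pow_iff_left₀ y0.le (Real.exp_pos _).le two_ne_zero).1 (hy.trans_eq ?_)
      rw [← Real.exp_nat_mul]
      congr 1
      push_cast
      ring
    have c2 : 4 ≤ Real.exp (M / 8) := by linarith [Real.add_one_le_exp (M / 8)]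
    calc _ ≤ Real.exp (M / 8) * (Real.exp (3 * M / 8) * Real.exp (M / 2)) := by
          gcongr
          linarith
      _ = _ := by rw [← Real.exp_add, ← Real.exp_add]; congr 1; ring
  · rw [Real.log_mul (by norm_num) (by positivity), Real.log_mul (by positivity) y0.ne',
      Real.log_exp]
    linarith [Real.log_le_sub_one_of_pos (show (0 : ℝ) < 4 by norm_num)]

end Mid

open Mid in
theorem mid8 (hC : S_Conc8) (hS : S_Setup8) (hD : S_Down8) (hT : S_Cat8) : S_Mid8 := by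
  intro A hA
  have hH := IV.hull A hA.atm
  obtain ⟨C1, hC1, hC⟩ := hC A hA
  obtain ⟨C2, hC2, hS⟩ := hS
  obtain ⟨C3, hC3, hD⟩ := hD
  obtain ⟨C4, hC4, hT⟩ := hT
  obtain ⟨Cb, hCb, hB⟩ := blocks
  obtain ⟨C0, hC0⟩ := exists_nat_ge (100 + 32 * C2 + 6 * C3 + 2 * C4 + 8 * Cb)
  obtain ⟨C, cA, cB⟩ : ∃ C : ℕ, 24 * C1 + 20 ≤ C ∧ 100 + 32 * C2 + 6 * C3 + 2 * C4 + 8 * Cb ≤ C :=
    ⟨C0 + (24 * C1 + 20), by omega, hC0.trans (by exact_mod_cast Nat.le_add_right _ _)⟩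
  clear hC0 C0
  refine ⟨C, by omega, ?_⟩
  intro χ f Q y l β a0 Pm lo hi K n m M U δ ρ E s Ψ Ψ1 Gs G0 hχ hf lo1 lohi hM eP eG hΨ hΨ1 hG yP
    PM ya hcube hU hδ hδ' hw hK hn hm hQ1 hQ2 hρ hl hlo hE hEp hs hs1
  have c100 : (100 : ℝ) ≤ C := by linarith only [cB, hC2, hC3, hC4, hCb]
  have cb : 8 * Cb ≤ C := by linarith only [cB, hC2, hC3, hC4]
  have cb' : Cb ≤ C := by linarith only [cb, hCb]
  have n2 : (2 : ℝ) ≤ n := by exact_mod_cast hn
  obtain ⟨M100, K1, MQ, XQ, ln0, m1, H1, MU, eK, hκ⟩ := num1 c100 hU hδ hδ' hw hK n2 hQ2 hm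
  have M0 : 0 < M := by linarith only [M100]
  have Q2' : (2 : ℝ) ≤ Q := by linarith only [M100, MQ]
  have Q0 : (0 : ℝ) < Q := by linarith only [Q2']
  have Q1 : 1 ≤ Q := by exact_mod_cast (show (1 : ℝ) ≤ Q by linarith only [Q2'])
  have K0 : 0 < K := by exact_mod_cast (show (0 : ℝ) < K by linarith only [K1])
  have m1' : 1 ≤ m := by exact_mod_cast m1
  have Qy : Q ≤ y := (Nat.le_self_pow (by omega) Q).trans hG.hy
  have y1 : 1 ≤ y := Q1.trans Qy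
  have y2 : (2 : ℝ) ≤ y := Q2'.trans (by exact_mod_cast Qy)
  have y0 : (0 : ℝ) < y := by linarith only [y2]
  have P1' : 1 ≤ Pm := (Nat.one_le_pow _ _ y1).trans yP
  have P0 : (0 : ℝ) < Pm := by exact_mod_cast P1'
  have w0 : 0 < δ * M := by positivity
  have l0 : (0 : ℝ) < lo := by exact_mod_cast lo1
  have h0 : (0 : ℝ) < hi := by exact_mod_cast lo1.trans lohi
  have eM : lo * Real.exp M = hi := by
    rw [hM, Real.exp_log (by positivity), mul_div_cancel₀ _ l0.ne']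
  obtain ⟨κ1, κ2⟩ := hκ y y0 (le_trans (by exact_mod_cast yP) ((Real.log_le_iff_le_exp P0).1 PM))
  obtain ⟨Z, E0, G, P, Ad, B⟩ := hB K n m M U δ hU hδ hδ' (cb'.trans hw)
    ((mul_le_mul_of_nonneg_right cb' (by linarith only [hU])).trans hK) hn
    ((mul_le_mul_of_nonneg_right cb' ln0).trans hm)
  obtain ⟨s1, s2, s3, s4⟩ := sizes (C1 := C1) (by omega) Qy y1 m1' B.hZ (by positivity)
    (le_of_eq_of_le (by ring) hl) w0.le (by rwa [← mul_assoc]) lo1 hlo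
  clear hB hκ hl hlo
  have e1 : 1 ≤ Real.exp (5 / 4 * (δ * M)) := Real.one_le_exp (by positivity)
  have Btop := B.top
  have Blow := B.low
  generalize Real.exp (5 / 4 * (δ * M)) = e5 at κ1 κ2 s1 e1 Btop Blow
  obtain ⟨κ, hκ⟩ : ∃ κ, κ = e5 * y := ⟨_, rfl⟩
  rw [← hκ] at κ1 κ2 s1
  have κ3 : 1 ≤ κ := hκ ▸ one_le_mul_of_one_le_of_one_le e1 (by linarith only [y2])
  have a1 : (1 : ℝ) ≤ a0 := by exact_mod_cast (Nat.one_le_pow _ _ y1).trans ya
  obtain ⟨x, hx⟩ : ∃ x, x = E0 * a0 := ⟨_, rfl⟩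
  have x1 : 1 ≤ x := hx ▸ one_le_mul_of_one_le_of_one_le B.hE a1
  have x0 : 0 < x := by linarith only [x1]
  have E00 : 0 < E0 := by linarith only [B.hE]
  have ρ0 : 0 < ρ := lt_of_lt_of_le (by positivity) hρ
  have lev : ∀ z : ℝ, E0 ≤ z → z ≤ E0 * e5 → ∀ a ∈ Fintype.piFinset Gs,
      x ≤ z * (∏ k, a k : ℕ) ∧ z * (∏ k, a k : ℕ) ≤ x * κ := fun z z1 z2 a ha => by
    obtain ⟨b1, b2⟩ := hcube a ha
    have b3 : (a0 : ℝ) ≤ (∏ k, a k : ℕ) := by exact_mod_cast b1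
    have b4 : ((∏ k, a k : ℕ) : ℝ) ≤ y * a0 := by exact_mod_cast b2
    rw [hx, hκ]
    exact ⟨mul_le_mul z1 b3 (by positivity) (E00.le.trans z1),
      (mul_le_mul z2 b4 (by positivity) (by positivity)).trans_eq (by ring)⟩
  have R0 : x * κ * (y : ℝ) ^ C1 ≤ x * ρ / Q := by
    rw [le_div_iff₀ Q0, mul_assoc, mul_assoc, ← mul_assoc κ]
    exact mul_le_mul_of_nonneg_left s1 x0.le
  obtain ⟨R, R1, R2, R3⟩ : ∃ R : ℕ, (R : ℝ) ≤ x * ρ / Q ∧ x * κ ≤ R ∧
      ∀ c : ℕ, (c : ℝ) ≤ x * κ → c * y ^ C1 ≤ R := by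
    refine ⟨⌊x * ρ / Q⌋₊, Nat.floor_le (by positivity), ?_, fun c hc => Nat.le_floor ?_⟩
    · have b1 := Nat.lt_floor_add_one (x * ρ / Q)
      have b2 : (2 : ℝ) ≤ (y : ℝ) ^ C1 :=
        y2.trans (le_self_pow₀ (by linarith only [y2]) (by omega))
      have b3 := one_le_mul_of_one_le_of_one_le x1 κ3
      linarith only [b1, b3, R0, mul_le_mul_of_nonneg_left b2 (zero_le_one.trans b3)]
    · push_cast
      exact (mul_le_mul_of_nonneg_right hc (by positivity)).trans R0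
  have R4 : (R : ℝ) ≤ x * ρ := R1.trans (div_le_self (by positivity) (by linarith only [Q2']))
  have R6 : (0 : ℝ) < R := lt_of_lt_of_le (by positivity) R2
  have R5 : 0 < R := by exact_mod_cast R6
  obtain ⟨j0, j1, j01, j02, j03, g0, g1⟩ := geom R5 lo1 x0 κ3
    (R4.trans (mul_le_mul_of_nonneg_left s4 x0.le))
    (by rw [← eM, mul_comm]; exact mul_le_mul_of_nonneg_left κ1 l0.le) hM (by linarith only [M100])
  generalize Real.log (4 * κ) = D at κ2 g0 g1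
  have t2 : 1 / (Q : ℝ) ≤ 1 / 2 := one_div_le_one_div_of_le two_pos Q2'
  obtain ⟨F, F', hF, hS⟩ := hS _ hH χ f hχ hf lo hi R j0 j1 Pm ρ (1 / Q) M Ψ Ψ1 hΨ hΨ1
    (by positivity) t2 P1' R5 j01 j02 M0 lo1 lohi
  have tL : 1 / (Q : ℝ) * LL lo hi ≤ 1 := by
    rw [LL, ← hM, one_div, inv_mul_le_iff₀ Q0]
    linarith only [M100, MQ]
  have big : ∀ q : ℕ, q.Prime → M * U < Real.log q → y ^ 2 < q := fun q hq h => by
    refine yP.trans_lt (Nat.cast_lt (α := ℝ).1 ?_)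
    rw [← Real.log_lt_log_iff P0 (by exact_mod_cast hq.pos)]
    linarith only [PM, MU, h]
  have eA : ∀ i, ∀ g ∈ Ad i, pv g ≠ 0 ∧ Eqv χ f (pv g) := fun i g hg =>
    eqv_prod hχ g _ fun p hp => by
      obtain ⟨b1, b2, -⟩ := B.prG p ((B.ad i g hg).1 hp)
      exact ⟨b1.ne_zero, eP p b1 b2⟩
  have eC : ∀ a ∈ Fintype.piFinset Gs, ∏ k, a k ≠ 0 ∧ Eqv χ f (∏ k, a k) := fun a ha =>
    eqv_prod hχ univ a fun k _ => ⟨(hG.pr k _ (Fintype.mem_piFinset.1 ha k)).1.ne_zero,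
      eG k _ (Fintype.mem_piFinset.1 ha k)⟩
  have HH : 1 ≤ Cb * n * K / δ := by
    rw [mul_assoc, mul_div_assoc]
    exact one_le_mul_of_one_le_of_one_le hCb H1
  obtain ⟨g, a, u, hg, hv⟩ := hC (Ico (2 * K) ((n + 2) * K)) Q y l β R j0 j1 Z m (wj R j0 j1 M)
    Gs G0 G (fun j => P j) (fun j => Ad j) (fun j => lam K 2 (n + 2) j) (Cb * n * K / δ)
    (Cb * (U ^ 2 / (δ ^ 3 * Real.log n))) s (cw_wj R5 j01 M0 j03) (grp_mono hG (by omega) Q1)
    (fun j q hq => by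
      obtain ⟨b1, b2, b3⟩ := B.prP j j.2 q hq
      exact ⟨b1, big q b1 b2, b3⟩)
    (fun q hq => by
      obtain ⟨b1, b2, b3⟩ := B.prG q hq
      exact ⟨b1, big q b1 b2, b3⟩)
    (fun j j' h => B.dj _ _ fun e => h (Subtype.ext e)) (fun j => B.djG j) (fun j => B.ad j)
    (fun j => Cat.lam_nonneg _ _ _ _)
    (by rw [sum_coe_sort _ (lam K 2 (n + 2))]; exact Cat.sum_lam K0 (by omega)) m1' HH
    (fun j => B.mP j j.2) (fun j => B.mA j j.2) B.mG
    (by rw [sum_coe_sort _ fun i => rs (P i)]; exact B.tot)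
    (by
      have b1 : 8 * (Cb * n * K / δ) ≤ C * n * K / δ := by
        rw [← mul_div_assoc, ← mul_assoc, ← mul_assoc]
        gcongr
      refine le_trans ?_ hQ1
      refine (pow_le_pow_left₀ (by linarith only [HH]) b1 _).trans
        (pow_le_pow_right₀ (by linarith only [HH, b1]) ?_)
      exact (show 10 * (m + 1) ≤ 20 * m by omega).trans (Nat.mul_le_mul_right m (by omega)))
    (by
      refine le_trans ?_ XQ
      rcases Z.eq_zero_or_pos with rfl | h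
      · simp only [Nat.cast_zero, Real.log_zero]
        positivity
      · exact (Real.log_le_iff_le_exp (by exact_mod_cast h)).2 B.hZ)
    (fun j g hg q hq a ha => R3 _ (by
      obtain ⟨b1, b2⟩ := Btop j g hg q hq
      rw [Nat.cast_mul, Nat.cast_mul]
      exact (lev _ b1 b2 a ha).2))
    (fun j g hg q hq => R3 _ (by
      have b1 := (Btop j g hg q hq).2
      have b2 : (y : ℝ) ^ l ≤ y * a0 := le_trans (by exact_mod_cast ya)
        (le_mul_of_one_le_left (by positivity) (by linarith only [y2]))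
      push_cast
      rw [mul_assoc, hx, hκ]
      exact (mul_le_mul b1 (s2.trans b2) (by positivity) (by positivity)).trans_eq (by ring)))
    (by
      have b1 := (g0 (x * lo) (by linarith only [mul_pos x0 l0]) (by
        rw [mul_right_comm]
        exact le_mul_of_one_le_right (by positivity) κ3)).1
      have b0 : (0 : ℝ) < j0 := by exact_mod_cast j01
      have b2 : x * lo ≤ x * (j0 * ρ) := by
        linarith only [b1, mul_le_mul_of_nonneg_left R4 b0.le]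
      have b3 := le_of_mul_le_mul_right (s3.trans (le_of_mul_le_mul_left b2 x0)) ρ0
      rw [wj_w0 M0 R5, show ∀ T : ℝ, R * (1 / (j0 * R * M)) * T = T / (j0 * M) from
        fun T => by field_simp, div_le_one (by positivity)]
      exact b3.trans (le_mul_of_one_le_right b0.le (by linarith only [M100])))
    (fun j => B.dg j j.2) hs f F F' ((gnI lo hi f Ψ1 - C2 * (2 + 2 * D)) / M)
    ((3 * E + 2 * C2) / M) (fun p => (3 * dsI lo hi Ψ1 (Up χ p Ψ) + 2 * C2) / M) hf hF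
    (by positivity)
    (fun k => by
      have b1 : 0 < rs (Gs k) := by
        by_contra h
        linarith only [hG.ms k, mul_nonpos_of_nonneg_of_nonpos (β.cast_nonneg (α := ℝ)) (not_lt.1 h)]
      rw [Ep_aff b1]
      exact div_le_div_of_nonneg_right (by linarith only [hEp k]) M0.le)
    (fun j g hg q hq a ha c hc => by
      obtain ⟨b1, b2⟩ := Btop j g hg q hq
      obtain ⟨b3, b4⟩ := lev _ b1 b2 a ha
      rw [← Nat.cast_mul, ← Nat.cast_mul, ← hc] at b3 b4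
      obtain ⟨q1, q2, -⟩ := B.prP j j.2 q hq
      have c0 : (0 : ℝ) < c := x0.trans_le b3
      obtain ⟨d1, d2⟩ := g0 (c * lo)
        (by linarith only [mul_le_mul_of_nonneg_right b3 l0.le, mul_pos c0 l0])
        (mul_le_mul_of_nonneg_right b4 l0.le)
      obtain ⟨d3, d4⟩ := g1 (c * hi)
        (by linarith only [mul_le_mul_of_nonneg_right b3 h0.le, mul_pos c0 h0])
        (mul_le_mul_of_nonneg_right b4 h0.le)
      obtain ⟨d5, d6⟩ := hS c (by exact_mod_cast c0) (by exact_mod_cast b4.trans R2)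
        (R1.trans ((div_le_div_of_nonneg_right (mul_le_mul_of_nonneg_right b3 ρ0.le) Q0.le).trans_eq
          (by ring))) (by exact_mod_cast d1) (by exact_mod_cast d3)
        (hc ▸ ((eA j g hg).2.mul hχ.1 (eA j g hg).1 q1.ne_zero (eP q q1 q2)).mul hχ.1
          (mul_ne_zero (eA j g hg).1 q1.ne_zero) (eC a ha).1 (eC a ha).2)
      refine ⟨?_, fun k c0 h => ?_⟩
      · rw [div_le_iff₀' M0]
        refine le_trans (sub_le_sub_left (mul_le_mul_of_nonneg_left ?_ hC2.le) _) d5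
        linarith only [tL, d2, d4]
      · rw [le_div_iff₀' M0]
        refine (d6 c0 (a k) h ((hG.pr k _ (Fintype.mem_piFinset.1 ha k)).2.2.trans yP)).trans ?_
        linarith only [mul_le_mul_of_nonneg_left tL hC2.le])
  have dn : ∀ i, ∃ (r : ℝ) (Φ : ℕ → ℂ), ∀ h : i ∈ Ico (2 * K) ((n + 2) * K),
      (Gr (hull A) r Φ ∧ Real.exp (K * M) ≤ 1 / M * r) ∧
      pot (wj R j0 j1 M) (pv (g ⟨i, h⟩) * ∏ k, a ⟨i, h⟩ k) f (u ⟨i, h⟩) ≤
        (gnI ⌊lo * Real.exp (i * M)⌋₊ ⌊lo * Real.exp ((i + 1 : ℕ) * M)⌋₊ f Φ +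
          C3 * (1 + 2 * D)) / M := fun i => by
    by_cases h : i ∈ Ico (2 * K) ((n + 2) * K)
    swap
    · exact ⟨0, 0, fun h' => absurd h' h⟩
    obtain ⟨b1, b2, b3⟩ := hg ⟨i, h⟩
    obtain ⟨b4, b5⟩ := Blow i _ b1
    obtain ⟨b6, b7⟩ := lev _ b4 b5 _ b2
    have ec := (eA i _ b1).2.mul hχ.1 (eA i _ b1).1 (eC _ b2).1 (eC _ b2).2
    have c0 := Nat.pos_of_ne_zero (mul_ne_zero (eA i _ b1).1 (eC _ b2).1)
    rw [mul_right_comm, ← Nat.cast_mul] at b6 b7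
    refine ⟨R / (pv (g ⟨i, h⟩) * ∏ k, a ⟨i, h⟩ k : ℕ),
      Up χ (pv (g ⟨i, h⟩) * ∏ k, a ⟨i, h⟩ k) (u ⟨i, h⟩), fun _ => ?_⟩
    generalize pv (g ⟨i, h⟩) * ∏ k, a ⟨i, h⟩ k = c at b6 b7 ec c0 ⊢
    have c1 : (0 : ℝ) < c := by exact_mod_cast c0
    have T1 : 1 ≤ Real.exp (i * M) := Real.one_le_exp (by positivity)
    have eh : lo * Real.exp ((i + 1 : ℕ) * M) = hi * Real.exp (i * M) := by
      rw [← eM, mul_assoc, ← Real.exp_add]
      congr 2
      push_cast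
      ring
    rw [eh]
    obtain ⟨f1, f2, f3⟩ := floor_fit lo1 T1 b6 b7
    obtain ⟨-, f4, f5⟩ := floor_fit (lo1.trans lohi) T1 b6 b7
    obtain ⟨d1, d2⟩ := g0 _ f2 f3
    obtain ⟨d3, d4⟩ := g1 _ f4 f5
    obtain ⟨d5, d6⟩ := hD _ hH χ f hχ hf ⌊lo * Real.exp (i * M)⌋₊ ⌊hi * Real.exp (i * M)⌋₊ R j0 j1
      c M _ b3 c0 (by exact_mod_cast (le_mul_of_one_le_right c1.le T1).trans (b7.trans R2)) j01 j02
      M0 f1 (by exact_mod_cast d1) (by exact_mod_cast d3) ec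
    refine ⟨⟨d5, ?_⟩, ?_⟩
    · have i2 : 2 * (K : ℝ) ≤ i := by exact_mod_cast (mem_Ico.1 h).1
      rw [one_div, le_inv_mul_iff₀ M0, le_div_iff₀' c1]
      exact (mul_le_mul_of_nonneg_left (eK.trans (Real.exp_le_exp.2
        (mul_le_mul_of_nonneg_right i2 M0.le))) c1.le).trans (b7.trans R2)
    · rw [le_div_iff₀' M0]
      linarith only [d6, mul_le_mul_of_nonneg_left d2 hC3.le, mul_le_mul_of_nonneg_left d4 hC3.le]
  choose r Φ hΦ using dn
  obtain ⟨k, k1, k2⟩ := pigeon K0 (show 2 < n + 2 by omega) (fun i =>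
    (gnI ⌊lo * Real.exp (i * M)⌋₊ ⌊lo * Real.exp ((i + 1 : ℕ) * M)⌋₊ f (Φ i) +
      C3 * (1 + 2 * D)) / M) (hv.trans (by
        rw [← sum_coe_sort (Ico (2 * K) ((n + 2) * K))]
        exact sum_le_sum fun j _ =>
          mul_le_mul_of_nonneg_left (hΦ j j.2).2 (Cat.lam_nonneg _ _ _ _)))
  rw [mem_Ico] at k1
  have k3 := Nat.mul_le_mul_right K k1.1
  have k4 := Nat.mul_le_mul_right K (Nat.succ_le_of_lt k1.2)
  rw [Nat.succ_mul] at k4
  have hp := hT _ hH f lo M (1 / M) K (k * K) r Φ hf (by exact_mod_cast lo1)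
    (by linarith only [M100]) (by positivity)
    (one_div_le_one_div_of_le two_pos (by linarith only [M100])) K0 (by omega)
    fun i hi => (hΦ i (by rw [mem_Ico] at hi ⊢; omega)).1
  rw [Nat.cast_mul] at hp
  refine ⟨k, by omega, k1.2.le, pot_mono (by positivity) ?_ hp⟩
  have ln : 0 < Real.log n := Real.log_pos (by linarith only [n2])
  refine (fin_num hC2 hC3 hC4 (by linarith only [hCb]) cB hs hδ M0 (by linarith only [hw, c100])
    (show M ≤ Q by linarith only [MQ, M0]) κ2 (Real.log_natCast_nonneg y) ln0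
    (by linarith only [m1]) B.rG hE (by positivity)).trans (sub_le_sub_right ?_ _)
  rw [← sum_div, sum_add_distrib, sum_const, Nat.card_Ico, Nat.add_sub_cancel_left, nsmul_eq_mul,
    le_div_iff₀ M0] at k2
  have K0' : (0 : ℝ) < K := by linarith only [K1]
  rw [le_div_iff₀ (by positivity), sub_mul, show C3 * (1 + 2 * D) / M * (K * M) =
    K * (C3 * (1 + 2 * D)) by field_simp, ← mul_assoc]
  linarith only [k2]

end Pool.Agent.P.MP_a14ce1_nt.Fu.L8
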