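import Pool.Agent.P.MP_a14ce1_nt.Fu.L8St

/-!
The concrete majorant has the shape used by the core.
-/

open Finset Function

namespace Pool.Agent.P.MP_a14ce1_nt.Fu.L8

open Ch (rs pv)
open Nil.ES
open SB (Zb wh)
open Tile (B3)
open Maj (pw mem_pw pv_pos pv_dvd_iff cop_pv)

namespace RepA

theorem sum_le_inj {α β : Type*} [DecidableEq β] {s : Finset α} {t : Finset β} (e : α → β)
    (he : Set.InjOn e s) (ht : ∀ a ∈ s, e a ∈ t) {φ : β → ℝ} (h0 : ∀ b ∈ t, 0 ≤ φ b) :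
    ∑ a ∈ s, φ (e a) ≤ ∑ b ∈ t, φ b := by
  rw [← sum_image (f := φ) he]
  refine sum_le_sum_of_subset_of_nonneg (fun b hb => ?_) fun b hb _ => h0 b hb
  obtain ⟨a, ha, rfl⟩ := mem_image.1 hb
  exact ht a ha

theorem pv_inj {g g' : Finset ℕ} (h : ∀ p ∈ g, p.Prime) (h' : ∀ p ∈ g', p.Prime)
    (e : pv g = pv g') : g = g' := by
  rw [← Nat.primeFactors_prod h, ← Nat.primeFactors_prod h']
  exact congrArg Nat.primeFactors e

theorem pv_mul (g g' e : Finset ℕ) : pv g * pv ((g' ∪ e) \ g) = pv (g ∪ g' ∪ e) := by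
  rw [pv, pv, ← prod_union disjoint_sdiff, union_sdiff_self_eq_union, ← union_assoc]
  rfl

variable {J : Type} [Fintype J] {G : Finset ℕ} {A : J → Finset (Finset ℕ)} {n : ℕ}

theorem mem_rT {κ : KK A} {θ : KK A × Finset ℕ} :
    θ ∈ rT G A n κ ↔ θ.2 ⊆ G \ (κ.2.1 ∪ θ.1.2.1) ∧ θ.2.card ≤ 2 * n := by
  simp only [rT, mem_filter, mem_product, mem_univ, true_and, mem_powerset, mem_pw]
  exact ⟨fun h => h.2, fun h => ⟨h.1.trans sdiff_subset, h⟩⟩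

theorem sum_rT (κ : KK A) (F : KK A × Finset ℕ → ℝ) :
    ∑ θ ∈ rT G A n κ, F θ =
      ∑ κ' : KK A, ∑ e ∈ pw (2 * n) (G \ (κ.2.1 ∪ κ'.2.1)), F (κ', e) := by
  rw [rT, sum_filter, sum_product]
  refine sum_congr rfl fun κ' _ => ?_
  rw [← sum_filter]
  refine sum_congr ?_ fun _ _ => rfl
  ext e
  simp only [mem_filter, mem_powerset, mem_pw]
  exact ⟨fun h => h.2, fun h => ⟨h.1.trans sdiff_subset, h⟩⟩

omit [Fintype J] in
theorem rV_mul (κ : KK A) (θ : KK A × Finset ℕ) :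
    pv κ.2.1 * rV A κ θ = pv (κ.2.1 ∪ θ.1.2.1 ∪ θ.2) := pv_mul _ _ _

theorem sub_all (hA : ∀ j, ∀ g ∈ A j, g ⊆ G ∧ g.card ≤ n) {κ : KK A} {θ : KK A × Finset ℕ}
    (h : θ ∈ rT G A n κ) : κ.2.1 ∪ θ.1.2.1 ∪ θ.2 ⊆ G :=
  union_subset (union_subset (hA _ _ κ.2.2).1 (hA _ _ θ.1.2.2).1)
    ((mem_rT.1 h).1.trans sdiff_subset)

theorem sub_w (hA : ∀ j, ∀ g ∈ A j, g ⊆ G ∧ g.card ≤ n) {κ : KK A} {θ : KK A × Finset ℕ}
    (h : θ ∈ rT G A n κ) : (θ.1.2.1 ∪ θ.2) \ κ.2.1 ⊆ G :=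
  sdiff_subset.trans (union_subset (hA _ _ θ.1.2.2).1 ((mem_rT.1 h).1.trans sdiff_subset))

theorem card_w (hA : ∀ j, ∀ g ∈ A j, g ⊆ G ∧ g.card ≤ n) {κ : KK A} {θ : KK A × Finset ℕ}
    (h : θ ∈ rT G A n κ) : ((θ.1.2.1 ∪ θ.2) \ κ.2.1).card ≤ 3 * n := by
  have h1 := card_le_card (sdiff_subset : (θ.1.2.1 ∪ θ.2) \ κ.2.1 ⊆ _)
  have h2 := card_union_le θ.1.2.1 θ.2
  have h3 := (hA _ _ θ.1.2.2).2
  have h4 := (mem_rT.1 h).2
  omega

theorem rV_pos (hG : ∀ p ∈ G, p.Prime) (hA : ∀ j, ∀ g ∈ A j, g ⊆ G ∧ g.card ≤ n) {κ : KK A}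
    {θ : KK A × Finset ℕ} (h : θ ∈ rT G A n κ) : 0 < rV A κ θ :=
  pv_pos fun p hp => hG p (sub_w hA h hp)

theorem rV_mem (hA : ∀ j, ∀ g ∈ A j, g ⊆ G ∧ g.card ≤ n) {V : Finset ℕ} (hV : G ⊆ V) {κ : KK A}
    {θ : KK A × Finset ℕ} (h : θ ∈ rT G A n κ) : rV A κ θ ∈ prods V (3 * n) :=
  prod_mem_prods ((sub_w hA h).trans hV) (card_w hA h)

/-- the number of terms at one place -/
theorem cnt [DecidableEq J] (hG : ∀ p ∈ G, p.Prime) (hA : ∀ j, ∀ g ∈ A j, g ⊆ G ∧ g.card ≤ n)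
    {lam : J → ℝ} (h0 : ∀ j, 0 ≤ lam j) (h1 : ∑ j, lam j = 1) (κ : KK A) (v : ℕ) :
    ∑ θ ∈ (rT G A n κ).filter (fun θ => rV A κ θ = v), lam θ.1.1 ≤ 2 ^ (4 * n) := by
  rcases ((rT G A n κ).filter (fun θ => rV A κ θ = v)).eq_empty_or_nonempty with h | ⟨θ0, hθ0⟩
  · rw [h, sum_empty]
    positivity
  obtain ⟨a0, b0⟩ := mem_filter.1 hθ0
  have hw : ∀ θ ∈ (rT G A n κ).filter (fun θ => rV A κ θ = v),
      (θ.1.2.1 ∪ θ.2) \ κ.2.1 = (θ0.1.2.1 ∪ θ0.2) \ κ.2.1 := fun θ hθ =>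
    pv_inj (fun p hp => hG p (sub_w hA (mem_filter.1 hθ).1 hp))
      (fun p hp => hG p (sub_w hA a0 hp)) ((mem_filter.1 hθ).2.trans b0.symm)
  have he : ∀ θ ∈ (rT G A n κ).filter (fun θ => rV A κ θ = v),
      θ.2 = ((θ0.1.2.1 ∪ θ0.2) \ κ.2.1) \ θ.1.2.1 := fun θ hθ => by
    rw [← hw θ hθ]
    have := (mem_rT.1 (mem_filter.1 hθ).1).1
    ext p
    have := @this p
    simp only [mem_sdiff, mem_union] at this ⊢
    tauto
  refine (sum_le_inj (t := univ ×ˢ (κ.2.1 ∪ (θ0.1.2.1 ∪ θ0.2) \ κ.2.1).powerset)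
    (fun θ : KK A × Finset ℕ => (θ.1.1, θ.1.2.1)) ?_ ?_ (φ := fun z => lam z.1)
    fun z _ => h0 _).trans ?_
  · rintro ⟨⟨j, g, hg⟩, e⟩ hθ ⟨⟨j', g', hg'⟩, e'⟩ hθ' h
    obtain ⟨rfl, rfl⟩ := Prod.mk.inj h
    have a1 := he _ hθ
    have a2 := he _ hθ'
    obtain rfl : e = e' := a1.trans a2.symm
    rfl
  · intro θ hθ
    refine mem_product.2 ⟨mem_univ _, mem_powerset.2 ?_⟩
    rw [← hw θ hθ, union_sdiff_self_eq_union]
    exact subset_union_left.trans subset_union_right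
  · rw [sum_product]
    simp only [sum_const, card_powerset, nsmul_eq_mul]
    rw [← mul_sum, h1, mul_one, Nat.cast_pow, Nat.cast_ofNat]
    refine pow_le_pow_right₀ one_le_two ?_
    have b1 := card_union_le κ.2.1 ((θ0.1.2.1 ∪ θ0.2) \ κ.2.1)
    have b2 := (hA _ _ κ.2.2).2
    have b3 := card_w hA a0
    omega

omit [Fintype J] in
theorem P1_pos {H : ℝ} (hH : 1 ≤ H) (hP : ∀ j, 1 ≤ H * P1 G (A j)) (j : J) : 0 < P1 G (A j) := by
  by_contra h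
  have := mul_nonpos_of_nonneg_of_nonpos (by linarith : 0 ≤ H) (not_lt.1 h)
  linarith [hP j]

omit [Fintype J] in
theorem rP_nonneg {lam : J → ℝ} (h0 : ∀ j, 0 ≤ lam j) (hP : ∀ j, 0 < P1 G (A j)) (κ : KK A) :
    0 ≤ rP G A lam κ :=
  div_nonneg (mul_nonneg (h0 _) (div_nonneg (Tile.wh_nonneg _ _) (Nat.cast_nonneg _))) (hP _).le

omit [Fintype J] in
theorem Z_rP (hG : ∀ p ∈ G, p.Prime) (hA : ∀ j, ∀ g ∈ A j, g ⊆ G ∧ g.card ≤ n) (lam : J → ℝ)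
    (κ : KK A) : Zb B3 G * (rP G A lam κ * pv κ.2.1) =
      lam κ.1 * 3 ^ κ.2.1.card / P1 G (A κ.1) := by
  have h1 : (pv κ.2.1 : ℝ) ≠ 0 := by
    have := pv_pos fun p hp => hG p ((hA _ _ κ.2.2).1 hp)
    positivity
  have h2 := (Tile.Z_pos G).ne'
  have h3 : ∏ p ∈ κ.2.1, B3 p = 3 ^ κ.2.1.card := by simp [B3]
  rw [rP, wh, h3]
  field_simp

omit [Fintype J] in
theorem abs_rC (hG : ∀ p ∈ G, p.Prime) (hA : ∀ j, ∀ g ∈ A j, g ⊆ G ∧ g.card ≤ n) {lam : J → ℝ}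
    (h0 : ∀ j, 0 ≤ lam j) {H : ℝ} (hH : 1 ≤ H) (hP : ∀ j, 1 ≤ H * P1 G (A j)) (κ : KK A)
    (θ : KK A × Finset ℕ) : |rC G A lam κ θ| ≤ lam θ.1.1 * (3 ^ n * H / rV A κ θ) := by
  have p0 := P1_pos hH hP θ.1.1
  have l0 := h0 θ.1.1
  rw [rC, Z_rP hG hA, abs_div, abs_mul, abs_mul, abs_pow, abs_pow, Nat.abs_cast,
    abs_of_nonneg (by positivity : 0 ≤ lam θ.1.1 * 3 ^ θ.1.2.1.card / P1 G (A θ.1.1)),
    ← mul_div_assoc]
  refine div_le_div_of_nonneg_right ?_ (Nat.cast_nonneg _)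
  have a1 : |(1 / 4 : ℝ)| ^ (κ.2.1 ∪ θ.1.2.1).card ≤ 1 :=
    pow_le_one₀ (abs_nonneg _) (by rw [abs_of_pos] <;> norm_num)
  have a2 : |(-(3 / 4) : ℝ)| ^ θ.2.card ≤ 1 :=
    pow_le_one₀ (abs_nonneg _) (by rw [abs_neg, abs_of_pos] <;> norm_num)
  have a3 : (3 : ℝ) ^ θ.1.2.1.card ≤ 3 ^ n := pow_le_pow_right₀ (by norm_num) (hA _ _ θ.1.2.2).2
  have a4 : 1 / P1 G (A θ.1.1) ≤ H := by rw [div_le_iff₀ p0]; exact hP _
  calc _ ≤ lam θ.1.1 * 3 ^ θ.1.2.1.card / P1 G (A θ.1.1) * 1 * 1 := by gcongr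
    _ = lam θ.1.1 * (3 ^ θ.1.2.1.card * (1 / P1 G (A θ.1.1))) := by ring
    _ ≤ _ := by gcongr

theorem gam_w {V : Finset ℕ} {H : ℝ} (hH : 1 ≤ H) (hV : rs V ≤ H) (n v : ℕ) :
    2 ^ (4 * n) * (3 ^ n * H ^ 2 / v) ≤ (8 * H) ^ (10 * (n + 1)) * (gam V n).w v := by
  have r0 := rs_prods_pos V (3 * n + 1)
  have r1 : rs (prods V (3 * n + 1)) ≤ (2 * H) ^ (3 * n + 1) :=
    (sum_prods_one (V := V) _).trans
      (pow_le_pow_left₀ (by linarith [Ch.rs_nonneg V]) (by linarith) _)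
  have h8 : (1 : ℝ) ≤ 8 * H := by linarith
  have b1 : (2 : ℝ) ^ (4 * n) ≤ (8 * H) ^ (4 * n) := pow_le_pow_left₀ (by norm_num) (by linarith) _
  have b2 : (3 : ℝ) ^ n ≤ (8 * H) ^ n := pow_le_pow_left₀ (by norm_num) (by linarith) _
  have b3 : H ^ 2 ≤ (8 * H) ^ 2 := pow_le_pow_left₀ (by linarith) (by linarith) _
  have b4 : (2 * H) ^ (3 * n + 1) ≤ (8 * H) ^ (3 * n + 1) :=
    pow_le_pow_left₀ (by linarith) (by linarith) _
  have b5 : 2 ^ (4 * n) * (3 ^ n * H ^ 2) * rs (prods V (3 * n + 1)) ≤ (8 * H) ^ (10 * (n + 1)) :=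
    calc _ ≤ (8 * H) ^ (4 * n) * ((8 * H) ^ n * (8 * H) ^ 2) * (8 * H) ^ (3 * n + 1) := by
          gcongr
          exact r1.trans b4
      _ = (8 * H) ^ (8 * n + 3) := by ring
      _ ≤ _ := pow_le_pow_right₀ h8 (by omega)
  change _ ≤ _ * (1 / (v * rs (prods V (3 * n + 1))))
  calc _ = 2 ^ (4 * n) * (3 ^ n * H ^ 2) * rs (prods V (3 * n + 1)) *
        (1 / (v * rs (prods V (3 * n + 1)))) := by
        rw [one_div, mul_inv, mul_comm (v : ℝ)⁻¹, ← mul_assoc _ _ (v : ℝ)⁻¹,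
          mul_inv_cancel_right₀ r0.ne']
        ring
    _ ≤ _ := mul_le_mul_of_nonneg_right b5 (by positivity)

theorem pos_e (hG : ∀ p ∈ G, p.Prime) {U : Finset ℕ} (hU : U ⊆ G) (n N : ℕ) :
    0 ≤ ∑ e ∈ pw (2 * n) (G \ U), (-(3 / 4) : ℝ) ^ e.card * if pv (U ∪ e) ∣ N then 1 else 0 := by
  by_cases h : pv U ∣ N
  · refine (Maj.bf_nonneg (x := fun p => if p ∣ N then 3 / 4 else 0) (T := G \ U)
      (fun p _ => by split_ifs <;> norm_num) n).trans_eq (sum_congr rfl fun e he => ?_)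
    have he' : e ⊆ G := (mem_pw.1 he).1.trans sdiff_subset
    have h' := (pv_dvd_iff fun p hp => hG p (hU hp)).1 h
    have hi : pv (U ∪ e) ∣ N ↔ _ := pv_dvd_iff fun p hp => hG p (union_subset hU he' hp)
    by_cases h1 : pv (U ∪ e) ∣ N
    · rw [if_pos h1, mul_one, ← prod_const]
      exact prod_congr rfl fun p hp => by simp only [if_pos (hi.1 h1 p (mem_union_right _ hp))]
    · rw [if_neg h1, mul_zero]
      rw [hi] at h1
      push Not at h1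
      obtain ⟨p, h2, h3⟩ := h1
      refine prod_eq_zero ((mem_union.1 h2).resolve_left fun h4 => h3 (h' p h4)) ?_
      simp only [if_neg h3, neg_zero]
  · refine sum_nonneg fun e _ => ?_
    have h1 : ¬ pv (U ∪ e) ∣ N := fun h1 =>
      h ((prod_dvd_prod_of_subset _ _ (fun q => q) subset_union_left).trans h1)
    rw [if_neg h1, mul_zero]

end RepA

open RepA in
theorem repA : S_RepA := by
  intro J _ _ μ f G Cs B V A lam H Vm n hG hA h0 h1 hH hP hB hV hBV hr hC hm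
  have p0 := P1_pos hH hP
  have r0 := rP_nonneg h0 p0
  have z0 := Tile.Z_pos G
  have cq : ∀ j, ∀ q ∈ (B j).s, ∀ p ∈ G, q.Coprime p := fun j q hq p hp =>
    (Nat.coprime_primes (hB j q hq).1 (hG p hp)).2 fun e => (hB j q hq).2.1 (e ▸ hp)
  refine ⟨fun κ N => ?_, fun κ θ _ => ?_, fun κ θ hθ => ⟨fun c hc => ?_, fun j q hq => ?_⟩,
    fun κ => ⟨fun θ hθ => ?_, fun v _ => ?_⟩, fun κ => ⟨fun z hz => ?_, fun v _ => ?_⟩,
    fun c hc y t ht => ?_⟩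
  · rw [sum_filter, sum_rT]
    refine sum_nonneg fun κ' _ => ?_
    by_cases hb : κ'.1 = κ.1
    · simp only [hb, if_true]
      refine (mul_nonneg (a := Zb B3 G * (rP G A lam κ' * pv κ'.2.1) *
        (1 / 4) ^ (κ.2.1 ∪ κ'.2.1).card) (by have := r0 κ'; positivity)
        (pos_e hG (union_subset (hA _ _ κ.2.2).1 (hA _ _ κ'.2.2).1) n N)).trans_eq ?_
      rw [mul_sum]
      refine sum_congr rfl fun e he => ?_
      have hθ : (κ', e) ∈ rT G A n κ := mem_rT.2 (mem_pw.1 he)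
      have v0 : (rV A κ (κ', e) : ℝ) ≠ 0 := by have := rV_pos hG hA hθ; positivity
      rw [rV_mul, rC]
      split_ifs
      · field_simp
      · simp
    · simp [hb]
  · rw [rV_mul]
    exact prod_dvd_prod_of_subset _ _ _ (subset_union_right.trans subset_union_left)
  · exact cop_pv (sub_w hA hθ) (hC c hc)
  · rw [rV_mul]
    exact cop_pv (sub_all hA hθ) (cq j q hq)
  · exact prods_succ _ _ (rV_mem hA (hV _) hθ)
  · refine le_trans ?_ (gam_w hH (hr κ.1) n v)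
    refine le_trans ?_ (mul_le_mul_of_nonneg_right (cnt hG hA h0 h1 κ v) (by positivity))
    rw [sum_mul]
    refine sum_le_sum fun θ hθ => (abs_rC hG hA h0 hH hP κ θ).trans ?_
    rw [(mem_filter.1 hθ).2]
    have := h0 θ.1.1
    gcongr
    nlinarith
  · obtain ⟨a1, a2⟩ := mem_sigma.1 hz
    obtain ⟨a3, a4⟩ := mem_filter.1 a1
    exact mul_mem_prods (rV_mem hA (hV _) a3) (hBV _ _ a4 a2)
  · refine le_trans ?_ (gam_w hH (hr κ.1) n v)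
    set S := (((rT G A n κ).filter fun θ => θ.1.1 ≠ κ.1).sigma fun θ => (B θ.1.1).s).filter
      fun z : Σ _ : KK A × Finset ℕ, ℕ => rV A κ z.1 * z.2 = v with hS
    have m1 : ∀ z ∈ S, z.1 ∈ rT G A n κ ∧ z.2 ∈ (B z.1.1.1).s ∧ rV A κ z.1 * z.2 = v := fun z hz =>
      ⟨(mem_filter.1 (mem_sigma.1 (mem_filter.1 hz).1).1).1, (mem_sigma.1 (mem_filter.1 hz).1).2,
        (mem_filter.1 hz).2⟩
    rcases S.eq_empty_or_nonempty with h | ⟨z0, hz0⟩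
    · rw [h, sum_empty]
      positivity
    have m2 : ∀ z ∈ S, z.2 = z0.2 ∧ rV A κ z.1 = rV A κ z0.1 := fun z hz => by
      obtain ⟨a1, a2, a3⟩ := m1 z hz
      obtain ⟨b1, b2, b3⟩ := m1 z0 hz0
      have c1 : z.2 ∣ rV A κ z0.1 * z0.2 := by rw [b3, ← a3]; exact dvd_mul_left _ _
      have c2 : z.2 = z0.2 := (Nat.prime_dvd_prime_iff_eq (hB _ _ a2).1 (hB _ _ b2).1).1
        ((cop_pv (sub_w hA b1) (cq _ _ a2)).dvd_of_dvd_mul_left c1)
      refine ⟨c2, Nat.eq_of_mul_eq_mul_right (hB _ _ b2).1.pos ?_⟩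
      rw [b3, ← c2, a3]
    have m3 : ∑ z ∈ S, lam z.1.1.1 ≤ 2 ^ (4 * n) := by
      refine le_trans ?_ (cnt hG hA h0 h1 κ (rV A κ z0.1))
      refine sum_le_inj (fun z : Σ _ : KK A × Finset ℕ, ℕ => z.1) ?_
        (fun z hz => mem_filter.2 ⟨(m1 z hz).1, (m2 z hz).2⟩) (φ := fun θ => lam θ.1.1)
        fun θ _ => h0 _
      rintro ⟨θ, q⟩ hz ⟨θ', q'⟩ hz' h
      obtain rfl : θ = θ' := h
      obtain rfl : q = q' := (m2 _ hz).1.trans (m2 _ hz').1.symm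
      rfl
    refine le_trans ?_ (mul_le_mul_of_nonneg_right m3 (by positivity))
    rw [sum_mul]
    refine sum_le_sum fun z hz => ?_
    obtain ⟨a1, a2, a3⟩ := m1 z hz
    have q0 : (0 : ℝ) < z.2 := by exact_mod_cast (hB _ _ a2).1.pos
    have a4 : (B z.1.1.1).w z.2 ≤ H / z.2 := by rw [le_div_iff₀ q0]; exact (hB _ _ a2).2.2
    have a5 := h0 z.1.1.1
    rw [abs_mul, abs_of_nonneg ((B _).nn _), ← a3, Nat.cast_mul]
    refine (mul_le_mul (abs_rC hG hA h0 hH hP κ z.1) a4 ((B _).nn _) (by positivity)).trans_eq ?_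
    ring
  · have h := Maj.cs_br μ hG (hC c hc) (κ := fun _ => 3 / 4) (fun _ _ => by norm_num) n univ
      (fun κ : KK A => κ.2.1) (fun κ _ => (hA _ _ κ.2.2).1) Sigma.fst
      (fun κ => rP G A lam κ * pv κ.2.1) (fun κ _ => by have := r0 κ; positivity) f y
      (div_pos ht z0)
    have g0 : ∀ κ : KK A, (pv κ.2.1 : ℝ) ≠ 0 := fun κ => by
      have := pv_pos fun p hp => hG p ((hA _ _ κ.2.2).1 hp)
      positivity
    refine le_trans (le_of_eq ?_) (h.trans (add_le_add ?_ (le_of_eq ?_)))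
    · refine congrArg _ (sum_congr rfl fun κ _ => ?_)
      rw [mul_div_cancel_right₀ _ (g0 κ), mul_comm c]
    · have e : ∀ N, ‖f N‖ ^ 2 / ∏ _p ∈ G.filter (fun p => p ∣ N), (1 - 3 / 4 : ℝ) =
          ‖f N‖ ^ 2 * 4 ^ (G.filter fun p => p ∣ N).card := fun N => by
        rw [prod_const, div_eq_mul_inv, ← inv_pow]
        norm_num
      simp only [e]
      refine (mul_le_mul_of_nonneg_left (hm c hc) (div_pos ht z0).le).trans_eq ?_
      field_simp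
    · rw [div_div_eq_mul_div, Maj.qf, sum_mul]
      refine congrArg (· / t) (sum_congr rfl fun κ _ => ?_)
      rw [sum_rT, sum_mul, mul_sum]
      refine sum_congr rfl fun κ' _ => ?_
      rw [sum_mul, mul_sum]
      refine sum_congr rfl fun e he => ?_
      have hθ : (κ', e) ∈ rT G A n κ := mem_rT.2 (mem_pw.1 he)
      have v0 : (rV A κ (κ', e) : ℝ) ≠ 0 := by have := rV_pos hG hA hθ; positivity
      have e1 : pv (κ.2.1 ∪ κ'.2.1 ∪ e) = pv κ.2.1 * rV A κ (κ', e) := (rV_mul κ (κ', e)).symm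
      have e2 : (1 - 3 / 4 : ℝ) = 1 / 4 := by norm_num
      have g1 := g0 κ
      rw [prod_const, prod_const, e1, mul_comm c, rC, e2, Nat.cast_mul]
      by_cases hb : κ.1 = κ'.1
      · rw [if_pos hb, if_pos hb.symm]
        field_simp
      · rw [if_neg hb, if_neg fun h => hb h.symm]
        field_simp

end Pool.Agent.P.MP_a14ce1_nt.Fu.L8
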