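import Pool.Agent.P.MP_a14ce1_nt.Fu.L8St

/-!
The local plain step: the weights of the pairs and the diagonal terms of the majorant.
-/

open Finset Function

namespace Pool.Agent.P.MP_a14ce1_nt.Fu.L8

open Ch (rs pv)
open SB (Zb wh)
open Tile (B3)

namespace RepB

theorem sum_KK {J : Type} [Fintype J] (A : J → Finset (Finset ℕ)) (F : J → Finset ℕ → ℝ) :
    ∑ κ : KK A, F κ.1 κ.2.1 = ∑ j, ∑ g ∈ A j, F j g := by
  rw [Fintype.sum_sigma]
  exact sum_congr rfl fun j _ => sum_coe_sort (A j) (F j)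

theorem pvu {g e : Finset ℕ} (h : Disjoint g e) : pv (g ∪ e) = pv g * pv e := prod_union h

theorem pvc (g : Finset ℕ) : (pv g : ℝ) = ∏ p ∈ g, (p : ℝ) := by
  unfold pv
  exact Nat.cast_prod _ _

theorem pvp {g : Finset ℕ} (h : ∀ p ∈ g, p.Prime) : (0 : ℝ) < pv g := by
  rw [pvc]
  exact prod_pos fun p hp => Nat.cast_pos.2 (h p hp).pos

/-- the sum over the truncated expansion -/
theorem sum_e {G g g' : Finset ℕ} (hG : ∀ p ∈ G, p.Prime) (hg : g ⊆ G) (hg' : g' ⊆ G) (n : ℕ)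
    (a : ℝ) : ∑ e ∈ Maj.pw (2 * n) (G \ (g ∪ g')), a * (-(3 / 4)) ^ e.card / pv ((g' ∪ e) \ g) =
      a * pv g / pv (g ∪ g') * Maj.bf (2 * n) (fun p : ℕ => 3 / 4 / (p : ℝ)) (G \ (g ∪ g')) := by
  rw [Maj.bf, mul_sum]
  refine sum_congr rfl fun e he => ?_
  have hs := (Maj.mem_pw.1 he).1
  have hd : Disjoint e (g ∪ g') := disjoint_of_subset_left hs sdiff_disjoint
  rw [disjoint_union_right] at hd
  have e1 : (g' ∪ e) \ g = g' \ g ∪ e := by
    rw [union_sdiff_distrib, sdiff_eq_self_of_disjoint hd.1]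
  have e2 : g ∪ g' = g ∪ g' \ g := union_sdiff_self_eq_union.symm
  have e3 : ∏ p ∈ e, (-(3 / 4 / (p : ℝ))) = (-(3 / 4)) ^ e.card / pv e := by
    rw [pvc, ← prod_const, ← prod_div_distrib]
    exact prod_congr rfl fun p _ => (neg_div _ _).symm
  have p1 := (pvp fun p hp => hG p (hg hp)).ne'
  have p2 := (pvp fun p hp => hG p (hg' ((sdiff_subset : g' \ g ⊆ g') hp))).ne'
  have p3 := (pvp fun p hp => hG p (sdiff_subset (hs hp))).ne'
  rw [e1, e3, pvu (disjoint_of_subset_left sdiff_subset hd.2.symm)]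
  conv_rhs => rw [e2, pvu disjoint_sdiff]
  push_cast
  field_simp

/-- the summed coefficient of two sets of one block -/
noncomputable def dg (G : Finset ℕ) (a : ℝ) (n : ℕ) (g g' : Finset ℕ) : ℝ :=
  Zb B3 G * (a * wh B3 G g') * (1 / 4) ^ (g ∪ g').card * pv g / pv (g ∪ g') *
    Maj.bf (2 * n) (fun p : ℕ => 3 / 4 / (p : ℝ)) (G \ (g ∪ g'))

theorem dg_nonneg {G : Finset ℕ} (hG : ∀ p ∈ G, p.Prime) {a : ℝ} (ha : 0 ≤ a) (n : ℕ)
    (g g' : Finset ℕ) : 0 ≤ dg G a n g g' := by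
  refine mul_nonneg (div_nonneg (mul_nonneg (mul_nonneg (mul_nonneg (Tile.Z_pos G).le
    (mul_nonneg ha (Tile.wh_nonneg G _))) (by positivity)) (Nat.cast_nonneg _))
    (Nat.cast_nonneg _)) (Maj.bf_nonneg (fun p hp => ⟨by positivity, ?_⟩) n)
  have : (1 : ℝ) ≤ p := Nat.one_le_cast.2 (hG p (sdiff_subset hp)).pos
  rw [div_le_one (by linarith)]
  linarith

/-- the diagonal terms over one pair -/
theorem diag {J : Type} [Fintype J] [DecidableEq J] {G : Finset ℕ} {A : J → Finset (Finset ℕ)}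
    (lam : J → ℝ) (n : ℕ) (hG : ∀ p ∈ G, p.Prime) (hA : ∀ j, ∀ g ∈ A j, g ⊆ G) (κ : KK A) :
    ∑ θ ∈ (rT G A n κ).filter (fun θ => θ.1.1 = κ.1), rC G A lam κ θ =
      ∑ g' ∈ A κ.1, dg G (lam κ.1 / P1 G (A κ.1)) n κ.2.1 g' := by
  have k1 : ∀ κ' : KK A, (∑ e ∈ G.powerset, if κ'.1 = κ.1 then
      if e ∈ Maj.pw (2 * n) (G \ (κ.2.1 ∪ κ'.2.1)) then rC G A lam κ (κ', e) else 0 else 0) =
      if κ'.1 = κ.1 then dg G (lam κ'.1 / P1 G (A κ'.1)) n κ.2.1 κ'.2.1 else 0 := by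
    intro κ'
    split_ifs with h
    · rw [← sum_filter, filter_mem_eq_inter, inter_eq_right.2 fun e he =>
        mem_powerset.2 ((Maj.mem_pw.1 he).1.trans sdiff_subset), dg,
        ← sum_e hG (hA _ _ κ.2.2) (hA _ _ κ'.2.2)]
      refine sum_congr rfl fun e _ => ?_
      have p1 := (pvp fun p hp => hG p (hA _ _ κ'.2.2 hp)).ne'
      have e1 : rP G A lam κ' * pv κ'.2.1 = lam κ'.1 / P1 G (A κ'.1) * wh B3 G κ'.2.1 := by
        rw [rP]
        field_simp
      rw [rC, e1, rV]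
    · exact sum_const_zero
  rw [rT, filter_comm, sum_filter, sum_filter, sum_product, sum_congr rfl fun κ' _ => k1 κ']
  refine (sum_KK A fun j g' => if j = κ.1 then dg G (lam j / P1 G (A j)) n κ.2.1 g' else 0).trans ?_
  rw [sum_eq_single κ.1 (fun j _ hj => sum_eq_zero fun _ _ => if_neg hj) fun h =>
    absurd (mem_univ _) h]
  exact sum_congr rfl fun _ _ => if_pos rfl

end RepB

open RepB in
theorem repB : S_RepB := by
  intro J _ _ G A lam n hG hA hl hP
  have w0 : ∀ g : Finset ℕ, 0 ≤ wh B3 G g / (pv g : ℝ) := fun g =>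
    div_nonneg (Tile.wh_nonneg G g) (Nat.cast_nonneg _)
  have key : ∀ x : J → Finset ℕ → ℝ, ∑ κ, rP G A lam κ * x κ.1 κ.2.1 =
      ∑ j, lam j * ((∑ g ∈ A j, wh B3 G g / pv g * x j g) / P1 G (A j)) := fun x => by
    refine (sum_KK A fun j g => lam j * (wh B3 G g / pv g) / P1 G (A j) * x j g).trans
      (sum_congr rfl fun j _ => ?_)
    rw [sum_div, mul_sum]
    exact sum_congr rfl fun g _ => by ring
  refine ⟨fun κ => div_nonneg (mul_nonneg (hl _) (w0 _)) (hP _).le, fun x => ?_, fun x => ?_,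
    fun om => ?_⟩
  · refine (key fun j _ => x j).trans (sum_congr rfl fun j _ => ?_)
    rw [← sum_mul, ← P1, mul_div_cancel_left₀ _ (hP j).ne']
  · have hne : ∀ j, (A j).Nonempty := fun j => nonempty_of_sum_ne_zero (hP j).ne'
    choose g hg hm using fun j => exists_max_image (A j) (x j) (hne j)
    refine ⟨g, hg, (key x).trans_le (sum_le_sum fun j _ => mul_le_mul_of_nonneg_left ?_ (hl j))⟩
    rw [div_le_iff₀ (hP j), P1, mul_sum]
    exact sum_le_sum fun g' h' => by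
      rw [mul_comm]
      exact mul_le_mul_of_nonneg_right (hm j g' h') (w0 g')
  · have k1 : ∀ κ : KK A, rP G A lam κ *
        (|∑ θ ∈ (rT G A n κ).filter (fun θ => θ.1.1 = κ.1), rC G A lam κ θ| * (1 + om κ.1)) =
        rP G A lam κ * ((∑ g' ∈ A κ.1, dg G (lam κ.1 / P1 G (A κ.1)) n κ.2.1 g') * (1 + om κ.1)) :=
      fun κ => by
        rw [diag lam n hG hA, abs_of_nonneg (sum_nonneg fun g' _ =>
          dg_nonneg hG (div_nonneg (hl _) (hP _).le) n _ _)]
    rw [sum_congr rfl fun κ _ => k1 κ]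
    refine (key fun j g => (∑ g' ∈ A j, dg G (lam j / P1 G (A j)) n g g') * (1 + om j)).trans
      (sum_congr rfl fun j _ => ?_)
    congr 1
    rw [Q2, mul_sum, mul_sum, sum_div, sum_div]
    refine sum_congr rfl fun g hg => ?_
    rw [sum_mul, mul_sum, mul_sum, mul_sum, sum_div, sum_div]
    refine sum_congr rfl fun g' _ => ?_
    have p1 := (pvp fun p hp => hG p (hA _ _ hg hp)).ne'
    have p2 := (hP j).ne'
    rw [dg]
    field_simp

end Pool.Agent.P.MP_a14ce1_nt.Fu.L8
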