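import Pool.Agent.P.MP_a14ce1_nt.Fu.Loc
import Pool.Agent.P.MP_a14ce1_nt.Fu.LocW
import Pool.Agent.P.MP_a14ce1_nt.Fu.Pot
import Pool.Agent.P.MP_a14ce1_nt.Nil.Pl.Trans
import Pool.Agent.P.MP_a14ce1_nt.Nil.Pl.Setup

/-!
Transfer between the levels of the local cell weight and logarithmic sums over an interval; the
families on all levels; the way back.
-/

open Finset
open scoped ComplexConjugate

namespace Pool.Agent.P.MP_a14ce1_nt.Fu.Loc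

open Nil.ES (Wt br pot br_eq)
open IV (Hull Gr Up gn gn_eq cell wa)
open Pl (GX)
open Pl.Setup (re_self pot_eq gn_rot sq_le_four mul_conj_one three)
open Pool.Agent.P.MP_e30989_nt.W (UCM)

/-- the cells j0 ≤ j < j1 of the grid R cover c (lo, hi] up to logarithmic length D at both ends -/
structure Fit (R j0 j1 c lo hi : ℕ) (D : ℝ) : Prop where
  c0 : 0 < c
  cR : c ≤ R
  jp : 1 ≤ j0
  jj : j0 ≤ j1
  l1 : 1 ≤ lo
  lh : lo ≤ hi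
  le : |Real.log ((j0 * R : ℝ) / (c * lo))| ≤ D
  ri : |Real.log ((j1 * R : ℝ) / (c * hi))| ≤ D

theorem abs_log_le {x y D : ℝ} (hx : 0 < x) (hy : 0 < y) (h1 : x ≤ y * Real.exp D)
    (h2 : y ≤ x * Real.exp D) : |Real.log (x / y)| ≤ D := by
  have a1 := Real.log_le_log hx h1
  have a2 := Real.log_le_log hy h2
  rw [Real.log_mul hy.ne' (Real.exp_pos _).ne', Real.log_exp] at a1
  rw [Real.log_mul hx.ne' (Real.exp_pos _).ne', Real.log_exp] at a2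
  rw [Real.log_div hx.ne' hy.ne', abs_le]
  constructor <;> linarith

theorem abs_sum_le {φ : ℕ → ℝ} {K : ℝ} (hφ : ∀ m, |φ m| ≤ K) (s : Finset ℕ) :
    |∑ m ∈ s, φ m / m| ≤ K * ∑ m ∈ s, 1 / (m : ℝ) := by
  rw [mul_sum]
  refine (abs_sum_le_sum_abs _ _).trans (sum_le_sum fun m _ => ?_)
  rw [abs_div, Nat.abs_cast, mul_one_div]
  exact div_le_div_of_nonneg_right (hφ m) (Nat.cast_nonneg m)

theorem edge {φ : ℕ → ℝ} {K : ℝ} (hφ : ∀ m, |φ m| ≤ K) {x : ℝ} (hx : 1 ≤ x) {y : ℕ} (hy : 1 ≤ y) :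
    |∑ m ∈ Ioc 0 (⌈x⌉₊ - 1), φ m / m - ∑ m ∈ Ioc 0 y, φ m / m| ≤
      K * (1 + |Real.log (x / y)|) := by
  have hK : 0 ≤ K := (abs_nonneg _).trans (hφ 0)
  have y0 : (0 : ℝ) < y := by exact_mod_cast hy
  have a1 : 1 ≤ ⌈x⌉₊ := Nat.one_le_ceil_iff.2 (by linarith)
  have a2 := Nat.le_ceil x
  have a3 := Nat.ceil_lt_add_one (show 0 ≤ x by linarith)
  rw [Real.log_div (by linarith) y0.ne']
  rcases le_or_gt y (⌈x⌉₊ - 1) with h | h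
  · rw [← sum_Ioc_consecutive _ (Nat.zero_le y) h, add_sub_cancel_left]
    refine (abs_sum_le hφ _).trans (mul_le_mul_of_nonneg_left ?_ hK)
    have b1 := IV.TKlogP.harm_Ioc hy h
    have b2 : Real.log ((⌈x⌉₊ - 1 : ℕ) : ℝ) ≤ Real.log x := by
      refine Real.log_le_log (by exact_mod_cast hy.trans h) ?_
      rw [Nat.cast_sub a1, Nat.cast_one]; linarith
    linarith [le_abs_self (Real.log x - Real.log y)]
  · rw [← sum_Ioc_consecutive _ (Nat.zero_le (⌈x⌉₊ - 1)) h.le, abs_sub_comm, add_sub_cancel_left]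
    refine (abs_sum_le hφ _).trans (mul_le_mul_of_nonneg_left ?_ hK)
    have b0 : ⌈x⌉₊ ≤ y := by omega
    have e : Ioc (⌈x⌉₊ - 1) y = insert ⌈x⌉₊ (Ioc ⌈x⌉₊ y) := by
      ext m; rw [mem_insert, mem_Ioc, mem_Ioc]; omega
    have b1 := IV.TKlogP.harm_Ioc a1 b0
    have b2 : Real.log x ≤ Real.log ⌈x⌉₊ := Real.log_le_log (by linarith) a2
    have b3 : 1 / (⌈x⌉₊ : ℝ) ≤ 1 := by rw [div_le_one (by linarith)]; linarith
    rw [e, sum_insert (by simp)]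
    linarith [neg_abs_le (Real.log x - Real.log y)]

theorem conv {ρ K : ℝ} {φ : ℕ → ℝ} (hρ : 1 ≤ ρ) (hφ : ∀ m, |φ m| ≤ K) {j0 j1 : ℕ} (h0 : 1 ≤ j0)
    (h1 : j0 ≤ j1) : |∑ j ∈ Ico j0 j1, 1 / (j : ℝ) * wa ρ j φ -
      ∑ m ∈ Ico ⌈(j0 : ℝ) * ρ⌉₊ ⌈(j1 : ℝ) * ρ⌉₊, φ m / m| ≤ 2 * K * (1 / j0 - 1 / j1) := by
  induction j1, h1 using Nat.le_induction with
  | base => simp
  | succ J hJ ih =>
    have hJ' : (j0 : ℝ) ≤ J := by exact_mod_cast hJ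
    have h2 : ⌈(j0 : ℝ) * ρ⌉₊ ≤ ⌈(J : ℝ) * ρ⌉₊ := Nat.ceil_mono (by nlinarith)
    have h3 : ⌈(J : ℝ) * ρ⌉₊ ≤ ⌈((J : ℝ) + 1) * ρ⌉₊ := Nat.ceil_mono (by nlinarith)
    have h4 := IV.GridP.cell_err hρ hφ (h0.trans hJ)
    rw [cell] at h4
    rw [sum_Ico_succ_top hJ, Nat.cast_succ, ← sum_Ico_consecutive _ h2 h3]
    have h5 := abs_add_le _ _ |>.trans (add_le_add ih h4)
    refine le_trans (le_of_eq ?_) (h5.trans (le_of_eq ?_))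
    · congr 1; ring
    · ring

theorem eq_wa {R j0 j1 c : ℕ} {M : ℝ} (hM : 0 < M) (φ : ℕ → ℝ) (hc : 0 < c) (hR : 0 < R)
    (h0 : 1 ≤ j0) :
    M * (c * ∑ N ∈ (wj R j0 j1 M).s.filter (fun N => c ∣ N), (wj R j0 j1 M).w N * φ (N / c)) =
      ∑ j ∈ Ico j0 j1, 1 / (j : ℝ) * wa ((R : ℝ) / c) j φ := by
  have hm : ∀ N ∈ (wj R j0 j1 M).s.filter (fun N => c ∣ N), N / R ∈ Ico j0 j1 := fun N hN => by
    obtain ⟨h1, h2⟩ := mem_Ico.1 (mem_filter.1 hN).1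
    exact mem_Ico.2 ⟨(Nat.le_div_iff_mul_le hR).2 h1, (Nat.div_lt_iff_lt_mul hR).2 h2⟩
  rw [← sum_fiberwise_of_maps_to hm, mul_sum, mul_sum]
  refine sum_congr rfl fun j hj => ?_
  obtain ⟨a1, a2⟩ := mem_Ico.1 hj
  have e : ∑ N ∈ ((wj R j0 j1 M).s.filter (fun N => c ∣ N)).filter (fun N => N / R = j),
      (wj R j0 j1 M).w N * φ (N / c) = ∑ m ∈ cell ((R : ℝ) / c) j, 1 / (j * R * M) * φ m := by
    refine sum_bij' (fun N _ => N / c) (fun m _ => c * m) (fun N hN => ?_) (fun m hm => ?_)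
      (fun N hN => ?_) (fun m _ => Nat.mul_div_cancel_left m hc) fun N hN => ?_
    · obtain ⟨a1, a2⟩ := mem_filter.1 hN
      rw [Pl.TransP.mem_cell_nat hR hc, Nat.mul_div_cancel' (mem_filter.1 a1).2, a2]
    · rw [Pl.TransP.mem_cell_nat hR hc] at hm
      refine mem_filter.2 ⟨mem_filter.2 ⟨mem_Ico.2 ⟨?_, ?_⟩, dvd_mul_right _ _⟩, hm⟩
      · exact (Nat.le_div_iff_mul_le hR).1 (hm ▸ a1 : j0 ≤ c * m / R)
      · exact (Nat.div_lt_iff_lt_mul hR).1 (hm ▸ a2)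
    · exact Nat.mul_div_cancel' (mem_filter.1 (mem_filter.1 hN).1).2
    · rw [wj_w hM, (mem_filter.1 hN).2]
  have hj' : (0 : ℝ) < j := by exact_mod_cast h0.trans a1
  have hB' : (0 : ℝ) < R := by exact_mod_cast hR
  have hc' : (0 : ℝ) < c := by exact_mod_cast hc
  rw [e, ← mul_sum, wa, smul_eq_mul]
  field_simp

/-- transfer between the level c of the cell weight and the logarithmic sum over (lo, hi] -/
theorem trans {R j0 j1 c lo hi : ℕ} {D M K : ℝ} (h : Fit R j0 j1 c lo hi D) (hM : 0 < M)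
    {φ : ℕ → ℝ} (hφ : ∀ m, |φ m| ≤ K) :
    |M * (c * ∑ N ∈ (wj R j0 j1 M).s.filter (fun N => c ∣ N), (wj R j0 j1 M).w N * φ (N / c)) -
      ∑ m ∈ Ioc lo hi, φ m / m| ≤ K * (4 + 2 * D) := by
  have hK : 0 ≤ K := (abs_nonneg _).trans (hφ 0)
  have hc' : (0 : ℝ) < c := by exact_mod_cast h.c0
  have h1 : (1 : ℝ) ≤ (R : ℝ) / c := by rw [one_le_div hc']; exact_mod_cast h.cR
  have b0 : (1 : ℝ) ≤ j0 := by exact_mod_cast h.jp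
  have b1 : (j0 : ℝ) ≤ j1 := by exact_mod_cast h.jj
  have e1 : (j0 * R : ℝ) / (c * lo) = j0 * ((R : ℝ) / c) / lo := by
    rw [← mul_div_assoc, div_div]
  have e2 : (j1 * R : ℝ) / (c * hi) = j1 * ((R : ℝ) / c) / hi := by
    rw [← mul_div_assoc, div_div]
  have l1 := h.le
  have l2 := h.ri
  rw [e1] at l1
  rw [e2] at l2
  rw [eq_wa hM φ h.c0 (h.c0.trans_le h.cR) h.jp]
  set ρ : ℝ := (R : ℝ) / c
  have x0 : 1 ≤ j0 * ρ := by nlinarith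
  have x1 : j0 * ρ ≤ j1 * ρ := by nlinarith
  have a1 := conv h1 hφ h.jp h.jj
  have a2 := edge hφ x0 h.l1
  have a3 := edge hφ (x0.trans x1) (h.l1.trans h.lh)
  have c0 : 1 ≤ ⌈(j0 : ℝ) * ρ⌉₊ := Nat.one_le_ceil_iff.2 (by linarith)
  have c1 : ⌈(j0 : ℝ) * ρ⌉₊ ≤ ⌈(j1 : ℝ) * ρ⌉₊ := Nat.ceil_mono x1
  have e3 : Ico ⌈(j0 : ℝ) * ρ⌉₊ ⌈(j1 : ℝ) * ρ⌉₊ = Ioc (⌈(j0 : ℝ) * ρ⌉₊ - 1) (⌈(j1 : ℝ) * ρ⌉₊ - 1) := by
    ext m; rw [mem_Ico, mem_Ioc]; omega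
  rw [e3] at a1
  rw [← sum_Ioc_consecutive _ (Nat.zero_le (⌈(j0 : ℝ) * ρ⌉₊ - 1))
    (show _ ≤ ⌈(j1 : ℝ) * ρ⌉₊ - 1 by omega), ← sum_Ioc_consecutive _ (Nat.zero_le lo) h.lh] at a3
  have d1 : 2 * K * (1 / (j0 : ℝ) - 1 / j1) ≤ 2 * K := by
    refine mul_le_of_le_one_right (by linarith) ?_
    have : 1 / (j0 : ℝ) ≤ 1 := by rw [div_le_one (by linarith)]; exact b0
    have : 0 ≤ 1 / (j1 : ℝ) := by positivity
    linarith
  have d2 := mul_le_mul_of_nonneg_left l1 hK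
  have d3 := mul_le_mul_of_nonneg_left l2 hK
  rw [abs_le] at a1 a2 a3 ⊢
  constructor <;> linarith [a1.1, a1.2, a2.1, a2.2, a3.1, a3.2]

theorem mem_lev {R j0 j1 c lo hi N : ℕ} {D M : ℝ} (h : Fit R j0 j1 c lo hi D)
    (hN : N ∈ (wj R j0 j1 M).s.filter (fun N => c ∣ N)) : ∃ m, m ≠ 0 ∧ N = c * m ∧ N / c = m := by
  rw [mem_filter] at hN
  obtain ⟨h1, m, rfl⟩ := hN
  have h2 : j0 * R ≤ c * m := (mem_Ico.1 h1).1
  refine ⟨m, ?_, rfl, Nat.mul_div_cancel_left m h.c0⟩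
  rintro rfl
  have := Nat.mul_pos h.jp (h.c0.trans_le h.cR)
  omega

theorem pot_trans {χ f : ℕ → ℂ} (hf : ∀ n, ‖f n‖ ≤ 1) {R j0 j1 c lo hi : ℕ} {D M : ℝ}
    (h : Fit R j0 j1 c lo hi D) (hM : 0 < M) (h1 : ‖χ c‖ = 1) (h2 : Eqv χ f c) {u Φ : ℕ → ℂ}
    (hΦ : ∀ m, ‖Φ m‖ ≤ 1) (hu : ∀ m, u (c * m) = χ c * Φ m) :
    |M * pot (wj R j0 j1 M) c f u - gnI lo hi f Φ| ≤ 4 * (4 + 2 * D) := by
  have a := trans h hM (φ := fun m => gn (f m) (Φ m)) (K := 4) fun m => by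
    have h1 := sq_le_four (hf m) (hΦ m)
    have h2 := pow_le_one₀ (n := 2) (norm_nonneg _) (hf m)
    rw [gn_eq, abs_le]
    constructor <;> nlinarith [sq_nonneg ‖f m‖, sq_nonneg ‖f m - Φ m‖]
  have e1 : ∑ N ∈ (wj R j0 j1 M).s.filter (fun N => c ∣ N), (wj R j0 j1 M).w N * gn (f N) (u N) =
      ∑ N ∈ (wj R j0 j1 M).s.filter (fun N => c ∣ N),
        (wj R j0 j1 M).w N * gn (f (N / c)) (Φ (N / c)) := by
    refine sum_congr rfl fun N hN => ?_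
    obtain ⟨m, hm, e, e'⟩ := mem_lev h hN
    rw [e', e, hu, h2 m hm, gn_rot h1]
  rw [pot_eq, e1]
  exact a

theorem lift {XX : Set (ℕ → ℂ)} (hX : Hull XX) {χ : ℕ → ℂ} (hχ : ∀ n, ‖χ n‖ ≤ 1) {ρ t : ℝ}
    {Φ : ℕ → ℂ} (hΦ : Gr XX ρ Φ) (ht : 0 < t) (ht2 : t ≤ 1 / 2) {R : ℕ} (hR0 : 0 < R) (c : ℕ) :
    ∃ F ∈ GX XX R, 0 < c → c ≤ R → (R : ℝ) ≤ t * c * ρ →
      ∃ Φ' : ℕ → ℂ, (∀ m, F (c * m) = χ c * Φ' m) ∧ (∀ m, ‖Φ' m‖ ≤ 1) ∧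
        ∀ lo hi : ℕ, 1 ≤ lo → lo ≤ hi → dsI lo hi Φ Φ' ≤ 12 * t * LL lo hi ∧
          ∀ g : ℕ → ℂ, (∀ n, ‖g n‖ ≤ 1) → dsI lo hi g Φ' ≤ dsI lo hi g Φ + 12 * t * LL lo hi := by
  by_cases h : 0 < c ∧ c ≤ R ∧ (R : ℝ) ≤ t * c * ρ
  · obtain ⟨h1, h2, h3⟩ := h
    have hc : (0 : ℝ) < c := by exact_mod_cast h1
    have hR' : (0 : ℝ) < R := by exact_mod_cast hR0
    obtain ⟨Φ', a1, a2⟩ := regrid hX (ρ' := R / c)
      ((one_le_div hc).2 (by exact_mod_cast h2)) ((div_le_iff₀ hc).2 (by linarith)) ht ht2 hΦ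
    have a4 : Gr XX (R / c) fun m => χ c * Φ' m := fun j => by
      obtain ⟨u, hu, e⟩ := a1 j
      exact ⟨_, hX.sc u hu (χ c) (hχ c), fun m hm => congrArg (χ c * ·) (e m hm)⟩
    obtain ⟨F, b1, b2⟩ := Pl.basic.2.2.1 XX hX R c _ hR' h1 a4
    exact ⟨F, b1, fun _ _ _ => ⟨Φ', b2, a1.bd hX (div_pos hR' hc), a2⟩⟩
  · exact ⟨0, IV.gr_zero hX _, fun h1 h2 h3 => absurd ⟨h1, h2, h3⟩ h⟩

theorem sum_dil {g : ℕ → ℝ} (hg : ∀ n, 0 ≤ g n) {p : ℕ} (hp : 0 < p) (lo hi : ℕ) :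
    ∑ m ∈ Ioc lo hi, g (p * m) / m ≤ p * ∑ n ∈ Ioc (p * lo) (p * hi), g n / n := by
  have hp' : (0 : ℝ) < p := by exact_mod_cast hp
  have h1 := sum_dvd hp (p * lo) (p * hi) fun n => g n / n
  rw [Nat.mul_div_cancel_left _ hp, Nat.mul_div_cancel_left _ hp] at h1
  have h2 : ∑ m ∈ Ioc lo hi, g (p * m) / m = p * ∑ m ∈ Ioc lo hi, g (p * m) / (p * m : ℕ) := by
    rw [mul_sum]
    refine sum_congr rfl fun m _ => ?_
    push_cast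
    rw [← mul_div_assoc, mul_div_mul_left _ _ hp'.ne']
  rw [h2, h1]
  exact mul_le_mul_of_nonneg_left (sum_le_sum_of_subset_of_nonneg (filter_subset _ _)
    fun n _ _ => div_nonneg (hg n) (Nat.cast_nonneg n)) hp'.le

theorem LL_mul {p : ℕ} (hp : 0 < p) (lo hi : ℕ) : LL (p * lo) (p * hi) = LL lo hi := by
  have hp' : (p : ℝ) ≠ 0 := by exact_mod_cast hp.ne'
  rw [LL, LL]
  push_cast
  rw [mul_div_mul_left _ _ hp']

/-- the families on all levels; they do not depend on the weight -/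
theorem setup {XX : Set (ℕ → ℂ)} (hX : Hull XX) {χ f : ℕ → ℂ} (hχ : UCM χ) (hf : ∀ n, ‖f n‖ ≤ 1)
    {R : ℕ} {Pm ρ t : ℝ} {Ψ Ψ1 : ℕ → ℂ} (hΨ : Gr XX (ρ * Pm ^ 2) Ψ) (hΨ1 : Gr XX ρ Ψ1) (ht : 0 < t)
    (ht2 : t ≤ 1 / 2) (hP : 1 ≤ Pm) (hR0 : 0 < R) :
    ∃ F G : ℕ → ℕ → ℂ, (∀ c, F c ∈ GX XX R ∧ G c ∈ GX XX R) ∧
      ∀ (j0 j1 c lo hi : ℕ) (D M : ℝ), Fit R j0 j1 c lo hi D → 0 < M → (R : ℝ) ≤ t * c * ρ →
        (Eqv χ f c → gnI lo hi f Ψ1 - (12 * t * LL lo hi + 16 + 8 * D) ≤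
          M * pot (wj R j0 j1 M) c f (F c)) ∧
        ∀ c0 p : ℕ, c = c0 * p → (p : ℝ) ≤ Pm →
          M * br (wj R j0 j1 M) c (F c - G c0) (F c - G c0) ≤
            3 * dsI lo hi Ψ1 (Up χ p Ψ) + (72 * t * LL lo hi + 16 + 8 * D) := by
  have hP0 : (0 : ℝ) < Pm := by linarith
  choose F F1 F2 using lift hX hχ.1.bd hΨ1 ht ht2 hR0
  choose G G1 G2 using lift hX hχ.1.bd hΨ (div_pos ht hP0) ((div_le_self ht.le hP).trans ht2) hR0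
  refine ⟨F, G, fun c => ⟨F1 c, G1 c⟩, fun j0 j1 c lo hi D M h hM hρ => ?_⟩
  have hc := h.c0
  obtain ⟨Φ, a1, a2, a3⟩ := F2 c hc h.cR hρ
  obtain ⟨a3, a4⟩ := a3 lo hi h.l1 h.lh
  refine ⟨fun hE => ?_, fun c0 p e hp => ?_⟩
  · have b1 := (abs_le.1 (pot_trans hf h hM (hχ.2 c hc.ne') hE a2 a1)).1
    have b2 := a4 f hf
    rw [gnI_eq] at b1 ⊢
    linarith
  · have hc0 : 0 < c0 := Nat.pos_of_ne_zero (by rintro rfl; omega)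
    have hp0 : 0 < p := Nat.pos_of_ne_zero (by rintro rfl; omega)
    have hρ0 : 0 < ρ := by
      have h1 : (0 : ℝ) < R := by exact_mod_cast hR0
      have h2 : (0 : ℝ) < t * c := mul_pos ht (by exact_mod_cast hc)
      exact (mul_pos_iff_of_pos_left h2).1 (h1.trans_le hρ)
    obtain ⟨Φ', b1, b2, b3⟩ := G2 c0 hc0 ((e ▸ Nat.le_mul_of_pos_right c0 hp0).trans h.cR) (by
      have h1 : t / Pm * c0 * (ρ * Pm ^ 2) = t * (c0 * Pm) * ρ := by field_simp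
      have h2 : (c : ℝ) ≤ c0 * Pm := by rw [e]; push_cast; gcongr
      rw [h1]
      exact hρ.trans (by gcongr))
    have b4 := (b3 (p * lo) (p * hi) (Nat.mul_pos hp0 h.l1) (Nat.mul_le_mul_left _ h.lh)).1
    rw [LL_mul hp0] at b4
    have k := trans h hM (φ := fun m => ‖Φ m - conj (χ p) * Φ' (p * m)‖ ^ 2) (K := 4) fun m => by
      rw [abs_of_nonneg (sq_nonneg _)]
      refine sq_le_four (a2 m) ?_
      rw [norm_mul, Complex.norm_conj]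
      exact mul_le_one₀ (hχ.1.bd p) (norm_nonneg _) (b2 _)
    have e1 : br (wj R j0 j1 M) c (F c - G c0) (F c - G c0) =
        c * ∑ N ∈ (wj R j0 j1 M).s.filter (fun N => c ∣ N),
          (wj R j0 j1 M).w N * ‖Φ (N / c) - conj (χ p) * Φ' (p * (N / c))‖ ^ 2 := by
      rw [br_eq]
      congr 1
      refine sum_congr rfl fun N hN => ?_
      obtain ⟨m, -, e2, e3⟩ := mem_lev h hN
      have e4 : G c0 (c * m) = χ c * (conj (χ p) * Φ' (p * m)) := by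
        rw [e, mul_assoc, b1, hχ.1.mul _ _ hc0.ne' hp0.ne']
        linear_combination (-(χ c0 * Φ' (p * m))) * mul_conj_one (hχ.2 p hp0.ne')
      rw [re_self, e3, e2, Pi.sub_apply, a1, e4, ← mul_sub, norm_mul, hχ.2 c hc.ne', one_mul]
    have h1 : ∑ m ∈ Ioc lo hi, ‖Φ m - conj (χ p) * Φ' (p * m)‖ ^ 2 / m ≤
        3 * (dsI lo hi Ψ1 Φ + dsI lo hi Ψ1 (Up χ p Ψ) +
          ∑ m ∈ Ioc lo hi, ‖Ψ (p * m) - Φ' (p * m)‖ ^ 2 / m) := by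
      rw [dsI, dsI, ← sum_add_distrib, ← sum_add_distrib, mul_sum]
      refine sum_le_sum fun m _ => ?_
      rw [← add_div, ← add_div, ← mul_div_assoc]
      exact div_le_div_of_nonneg_right (three _ _ _ _ _ (hχ.1.bd p)) (Nat.cast_nonneg m)
    have h2 := sum_dil (g := fun n => ‖Ψ n - Φ' n‖ ^ 2) (fun _ => sq_nonneg _) hp0 lo hi
    have h3 : (p : ℝ) * dsI (p * lo) (p * hi) Ψ Φ' ≤ 12 * t * LL lo hi := by
      refine (mul_le_mul hp b4 (dsI_nonneg _ _ _ _) hP0.le).trans (le_of_eq ?_)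
      field_simp
    have h5 := (abs_le.1 k).2
    rw [dsI] at h3
    rw [e1]
    linarith

/-- back from the level a to the logarithmic gain -/
theorem down0 {XX : Set (ℕ → ℂ)} (hX : Hull XX) {χ f : ℕ → ℂ} (hχ : ∀ n, ‖χ n‖ ≤ 1)
    (hf : ∀ n, ‖f n‖ ≤ 1) {R j0 j1 a lo hi : ℕ} {D M : ℝ} (h : Fit R j0 j1 a lo hi D) (hM : 0 < M)
    (h1 : ‖χ a‖ = 1) (h2 : Eqv χ f a) {u : ℕ → ℂ} (hu : u ∈ GX XX R) :
    Gr XX ((R : ℝ) / a) (Up χ a u) ∧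
      M * pot (wj R j0 j1 M) a f u - (16 + 8 * D) ≤ gnI lo hi f (Up χ a u) := by
  have ha' : (0 : ℝ) < a := by exact_mod_cast h.c0
  have hR0 : (0 : ℝ) < R := by exact_mod_cast h.c0.trans_le h.cR
  have b1 : Gr XX (R / a) (Up χ a u) := IV.Gr.up hX hu hχ h.c0
  have b2 := (abs_le.1 (pot_trans hf h hM h1 h2 (u := u) (b1.bd hX (div_pos hR0 ha'))
    fun m => by rw [Up, ← mul_assoc, mul_conj_one h1, one_mul])).2
  exact ⟨b1, by linarith⟩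

/-- back from the level a to the logarithmic gain, on the grid H -/
theorem down {XX : Set (ℕ → ℂ)} (hX : Hull XX) {χ f : ℕ → ℂ} (hχ : ∀ n, ‖χ n‖ ≤ 1)
    (hf : ∀ n, ‖f n‖ ≤ 1) {R j0 j1 a lo hi : ℕ} {D M H t : ℝ} (h : Fit R j0 j1 a lo hi D)
    (hM : 0 < M) (h1 : ‖χ a‖ = 1) (h2 : Eqv χ f a) {u : ℕ → ℂ} (hu : u ∈ GX XX R) (hH : 1 ≤ H)
    (ht : 0 < t) (ht2 : t ≤ 1 / 2) (haH : a * H ≤ t * R) : ∃ Φ, Gr XX H Φ ∧
      M * pot (wj R j0 j1 M) a f u - (12 * t * LL lo hi + 16 + 8 * D) ≤ gnI lo hi f Φ := by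
  have ha' : (0 : ℝ) < a := by exact_mod_cast h.c0
  obtain ⟨b1, b2⟩ := down0 hX hχ hf h hM h1 h2 hu
  obtain ⟨Φ, a1, a2⟩ := regrid_gn hX hH
    (by rw [← mul_div_assoc, le_div_iff₀ ha']; linarith) ht ht2 b1
  have a3 := a2 lo hi h.l1 h.lh f hf
  exact ⟨Φ, a1, by linarith⟩

end Pool.Agent.P.MP_a14ce1_nt.Fu.Loc
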