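import Pool.Agent.P.MP_a14ce1_nt.Fu.L8St
import Pool.Agent.P.MP_a14ce1_nt.Fu.LocT

/-! The families on all levels, and the way back, for cells inside the dilated interval. -/

open Finset
open scoped ComplexConjugate

namespace Pool.Agent.P.MP_a14ce1_nt.Fu.L8

open Nil.ES (br pot br_eq)
open IV (Up)
open Pl.Setup (re_self sq_le_four mul_conj_one three)
open Loc

namespace SetP

theorem fit {R j0 j1 c lo hi : ℕ} (hc : 0 < c) (hR : c ≤ R) (h0 : 1 ≤ j0) (h1 : j0 ≤ j1)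
    (hlo : 1 ≤ lo) (h2 : c * lo < j0 * R) (h3 : j1 * R ≤ c * hi) :
    0 ≤ Real.log ((j0 * R : ℝ) / (c * lo)) ∧ 0 ≤ Real.log ((c * hi : ℝ) / (j1 * R)) ∧
    Fit R j0 j1 c lo hi
      (Real.log ((j0 * R : ℝ) / (c * lo)) + Real.log ((c * hi : ℝ) / (j1 * R))) := by
  have c0 : (0 : ℝ) < c := by exact_mod_cast hc
  have l0 : (0 : ℝ) < lo := by exact_mod_cast hlo
  have R0 : (0 : ℝ) < R := by exact_mod_cast hc.trans_le hR
  have b1 : (0 : ℝ) < j1 := by exact_mod_cast h0.trans h1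
  have a1 : 0 ≤ Real.log ((j0 * R : ℝ) / (c * lo)) :=
    Real.log_nonneg ((one_le_div (by positivity)).2 (by exact_mod_cast h2.le))
  have a2 : 0 ≤ Real.log ((c * hi : ℝ) / (j1 * R)) :=
    Real.log_nonneg ((one_le_div (by positivity)).2 (by exact_mod_cast h3))
  refine ⟨a1, a2, hc, hR, h0, h1, hlo, ?_, ?_, ?_⟩
  · exact Nat.le_of_mul_le_mul_left
      (h2.le.trans ((Nat.mul_le_mul_right R h1).trans h3)) hc
  · rw [abs_of_nonneg a1]; linarith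
  · rw [← inv_div, Real.log_inv, abs_neg, abs_of_nonneg a2]; linarith

/-- one-sided transfer for a nonnegative function -/
theorem trans_le {R j0 j1 c lo hi : ℕ} {M K : ℝ} (hc : 0 < c) (hR : c ≤ R) (h0 : 1 ≤ j0)
    (h1 : j0 ≤ j1) (h2 : c * lo < j0 * R) (h3 : j1 * R ≤ c * hi) (hM : 0 < M) {φ : ℕ → ℝ}
    (hφ : ∀ m, 0 ≤ φ m ∧ φ m ≤ K) :
    M * (c * ∑ N ∈ (wj R j0 j1 M).s.filter (fun N => c ∣ N), (wj R j0 j1 M).w N * φ (N / c)) ≤
      ∑ m ∈ Ioc lo hi, φ m / m + 2 * K := by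
  have hK : 0 ≤ K := (hφ 0).1.trans (hφ 0).2
  have c0 : (0 : ℝ) < c := by exact_mod_cast hc
  have a0 : (1 : ℝ) ≤ (R : ℝ) / c := by rw [one_le_div c0]; exact_mod_cast hR
  have b0 : (1 : ℝ) ≤ j0 := by exact_mod_cast h0
  have a1 := (abs_le.1 (conv a0 (fun m => by rw [abs_of_nonneg (hφ m).1]; exact (hφ m).2) h0 h1)).2
  have a2 : ∑ m ∈ Ico ⌈(j0 : ℝ) * ((R : ℝ) / c)⌉₊ ⌈(j1 : ℝ) * ((R : ℝ) / c)⌉₊, φ m / m ≤
      ∑ m ∈ Ioc lo hi, φ m / m := by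
    refine sum_le_sum_of_subset_of_nonneg (fun m hm => ?_) fun m _ _ =>
      div_nonneg (hφ m).1 (Nat.cast_nonneg m)
    rw [mem_Ico, Nat.ceil_le, Nat.lt_ceil, ← mul_div_assoc, ← mul_div_assoc, div_le_iff₀' c0,
      lt_div_iff₀' c0] at hm
    have e1 : j0 * R ≤ c * m := by exact_mod_cast hm.1
    have e2 : c * m < j1 * R := by exact_mod_cast hm.2
    exact mem_Ioc.2 ⟨Nat.lt_of_mul_lt_mul_left (h2.trans_le e1),
      Nat.le_of_mul_le_mul_left (e2.le.trans h3) hc⟩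
  have d1 : 2 * K * (1 / (j0 : ℝ) - 1 / j1) ≤ 2 * K := by
    refine mul_le_of_le_one_right (by linarith) ?_
    have : 1 / (j0 : ℝ) ≤ 1 := by rw [div_le_one (by linarith)]; exact b0
    have : 0 ≤ 1 / (j1 : ℝ) := by positivity
    linarith
  rw [eq_wa hM φ hc (hc.trans_le hR) h0]
  linarith

end SetP

open SetP

theorem setup8 : S_Setup8 := by
  refine ⟨72, by norm_num, fun XX hX χ f hχ hf lo hi R j0 j1 Pm ρ t M Ψ Ψ1 hΨ hΨ1 ht ht2 hPm hR0 h0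
    h1 hM hlo hhi => ?_⟩
  have hP : (1 : ℝ) ≤ Pm := by exact_mod_cast hPm
  have hP0 : (0 : ℝ) < Pm := by linarith
  choose F F1 F2 using lift hX hχ.1.bd hΨ1 ht ht2 hR0
  choose G G1 G2 using lift hX hχ.1.bd hΨ (div_pos ht hP0) ((div_le_self ht.le hP).trans ht2) hR0
  refine ⟨F, G, fun c => ⟨F1 c, G1 c⟩, fun c hc hcR hρ h2 h3 hE => ?_⟩
  obtain ⟨d1, d2, h⟩ := fit hc hcR h0 h1 hlo h2 h3
  obtain ⟨Φ, a1, a2, a3⟩ := F2 c hc hcR hρ
  obtain ⟨a3, a4⟩ := a3 lo hi hlo hhi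
  have tL : 0 ≤ t * LL lo hi := mul_nonneg ht.le (by linarith [one_le_LL hlo hhi])
  refine ⟨?_, fun c0 p e hp => ?_⟩
  · have b1 := (abs_le.1 (pot_trans hf h hM (hχ.2 c hc.ne') hE a2 a1)).1
    have b2 := a4 f hf
    rw [gnI_eq] at b1 ⊢
    linarith
  · have hc0 : 0 < c0 := Nat.pos_of_ne_zero (by rintro rfl; omega)
    have hp0 : 0 < p := Nat.pos_of_ne_zero (by rintro rfl; omega)
    have hp' : (p : ℝ) ≤ Pm := by exact_mod_cast hp
    have hρ0 : 0 < ρ := by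
      have h1 : (0 : ℝ) < R := by exact_mod_cast hR0
      have h2 : (0 : ℝ) < t * c := mul_pos ht (by exact_mod_cast hc)
      exact (mul_pos_iff_of_pos_left h2).1 (h1.trans_le hρ)
    obtain ⟨Φ', b1, b2, b3⟩ := G2 c0 hc0 ((e ▸ Nat.le_mul_of_pos_right c0 hp0).trans hcR) (by
      have h1 : t / Pm * c0 * (ρ * (Pm : ℝ) ^ 2) = t * (c0 * Pm) * ρ := by field_simp
      have h2 : (c : ℝ) ≤ c0 * Pm := by rw [e]; push_cast; gcongr
      rw [h1]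
      exact hρ.trans (by gcongr))
    have b4 := (b3 (p * lo) (p * hi) (Nat.mul_pos hp0 hlo) (Nat.mul_le_mul_left _ hhi)).1
    rw [LL_mul hp0] at b4
    have k := trans_le hc hcR h0 h1 h2 h3 hM
      (φ := fun m => ‖Φ m - conj (χ p) * Φ' (p * m)‖ ^ 2) (K := 4) fun m => by
      refine ⟨sq_nonneg _, sq_le_four (a2 m) ?_⟩
      rw [norm_mul, Complex.norm_conj]
      exact mul_le_one₀ (hχ.1.bd p) (norm_nonneg _) (b2 _)
    have e1 : br (wj R j0 j1 M) c (F c - G c0) (F c - G c0) =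
        c * ∑ N ∈ (wj R j0 j1 M).s.filter (fun N => c ∣ N),
          (wj R j0 j1 M).w N * ‖Φ (N / c) - conj (χ p) * Φ' (p * (N / c))‖ ^ 2 := by
      rw [br_eq]
      congr 1
      refine sum_congr rfl fun N hN => ?_
      obtain ⟨m, -, e2, e3⟩ := mem_lev h hN
      have e4 : G c0 (c * m) = χ c * (conj (χ p) * Φ' (p * m)) := by
        rw [e, mul_assoc, b1, hχ.1.mul _ _ hc0.ne' hp0.ne']
        linear_combination (-(χ c0 * Φ' (p * m))) * mul_conj_one (hχ.2 p hp0.ne')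
      rw [re_self, e3, e2, Pi.sub_apply, a1, e4, ← mul_sub, norm_mul, hχ.2 c hc.ne', one_mul]
    have h4 : ∑ m ∈ Ioc lo hi, ‖Φ m - conj (χ p) * Φ' (p * m)‖ ^ 2 / m ≤
        3 * (dsI lo hi Ψ1 Φ + dsI lo hi Ψ1 (Up χ p Ψ) +
          ∑ m ∈ Ioc lo hi, ‖Ψ (p * m) - Φ' (p * m)‖ ^ 2 / m) := by
      rw [dsI, dsI, ← sum_add_distrib, ← sum_add_distrib, mul_sum]
      refine sum_le_sum fun m _ => ?_
      rw [← add_div, ← add_div, ← mul_div_assoc]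
      exact div_le_div_of_nonneg_right (three _ _ _ _ _ (hχ.1.bd p)) (Nat.cast_nonneg m)
    have h5 := sum_dil (g := fun n => ‖Ψ n - Φ' n‖ ^ 2) (fun _ => sq_nonneg _) hp0 lo hi
    have h6 : (p : ℝ) * dsI (p * lo) (p * hi) Ψ Φ' ≤ 12 * t * LL lo hi := by
      refine (mul_le_mul hp' b4 (dsI_nonneg _ _ _ _) hP0.le).trans (le_of_eq ?_)
      field_simp
    rw [dsI] at h6
    rw [e1]
    linarith

theorem down8 : S_Down8 := by
  refine ⟨16, by norm_num, fun XX hX χ f hχ hf lo hi R j0 j1 c M u hu hc hcR h0 h1 hM hlo h2 h3 hE =>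
    ?_⟩
  obtain ⟨d1, d2, h⟩ := fit hc hcR h0 h1 hlo h2 h3
  obtain ⟨a1, a2⟩ := down0 hX hχ.1.bd hf h hM (hχ.2 c hc.ne') hE hu
  exact ⟨a1, by linarith⟩

end Pool.Agent.P.MP_a14ce1_nt.Fu.L8
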