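import Pool.Agent.P.MP_a14ce1_nt.Fu.L8Core
import Pool.Agent.P.MP_a14ce1_nt.Fu.L8RepA
import Pool.Agent.P.MP_a14ce1_nt.Fu.L8RepB
import Pool.Agent.P.MP_a14ce1_nt.Fu.L8Cut
import Pool.Agent.P.MP_a14ce1_nt.Fu.L8Lev
import Pool.Agent.P.MP_a14ce1_nt.Fu.L8Conc
import Pool.Agent.P.MP_a14ce1_nt.Fu.L8Set
import Pool.Agent.P.MP_a14ce1_nt.Fu.L8Cat
import Pool.Agent.P.MP_a14ce1_nt.Fu.L8Mid
import Pool.Agent.P.MP_a14ce1_nt.Fu.L8Par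

/-! The local plain step. -/

namespace Pool.Agent.P.MP_a14ce1_nt.Fu.L8

theorem loc : S_Loc :=
  par8 (mid8 (conc8 core8 repA repB cut8 mass8 lev8) setup8 down8 cat8)

end Pool.Agent.P.MP_a14ce1_nt.Fu.L8
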