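import Pool.Agent.P.MP_a14ce1_nt.Fu.Maj

/-! Product laws on the subsets of a finite set: independence, moments, tails. -/

open Finset

namespace Pool.Agent.P.MP_a14ce1_nt.Fu.PL

open Pool.Agent.P.MP_a14ce1_nt.Fu.Maj

variable {α : Type*} [DecidableEq α]

/-- mean of φ(S) when every p of G belongs to S with probability κ p, independently -/
noncomputable def Ep (κ : α → ℝ) (G : Finset α) (φ : Finset α → ℝ) : ℝ :=
  ∑ S ∈ G.powerset, pS κ G S * φ S

/-- probabilities -/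
def Pr (κ : α → ℝ) (G : Finset α) : Prop := ∀ p ∈ G, 0 ≤ κ p ∧ κ p ≤ 1

variable {κ : α → ℝ} {G : Finset α}

omit [DecidableEq α] in
theorem Pr.mono (h : Pr κ G) {H : Finset α} (hH : H ⊆ G) : Pr κ H := fun p hp => h p (hH hp)

theorem Ep_congr {φ ψ : Finset α → ℝ} (h : ∀ S ⊆ G, φ S = ψ S) : Ep κ G φ = Ep κ G ψ :=
  sum_congr rfl fun S hS => by rw [h S (mem_powerset.1 hS)]

theorem Ep_congr_law {κ' : α → ℝ} (h : ∀ p ∈ G, κ p = κ' p) (φ : Finset α → ℝ) :
    Ep κ G φ = Ep κ' G φ := by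
  refine sum_congr rfl fun S hS => ?_
  unfold pS
  rw [prod_congr rfl fun p hp => h p (mem_powerset.1 hS hp),
    prod_congr (s₁ := G \ S) rfl fun p hp => by rw [h p (mem_sdiff.1 hp).1]]

theorem Ep_mono (hκ : Pr κ G) {φ ψ : Finset α → ℝ} (h : ∀ S ⊆ G, φ S ≤ ψ S) :
    Ep κ G φ ≤ Ep κ G ψ :=
  sum_le_sum fun S hS => mul_le_mul_of_nonneg_left (h S (mem_powerset.1 hS))
    (pS_nonneg hκ (mem_powerset.1 hS))

theorem Ep_nonneg (hκ : Pr κ G) {φ : Finset α → ℝ} (h : ∀ S ⊆ G, 0 ≤ φ S) : 0 ≤ Ep κ G φ :=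
  sum_nonneg fun S hS => mul_nonneg (pS_nonneg hκ (mem_powerset.1 hS)) (h S (mem_powerset.1 hS))

theorem Ep_add (φ ψ : Finset α → ℝ) :
    Ep κ G (fun S => φ S + ψ S) = Ep κ G φ + Ep κ G ψ := by
  simp only [Ep, mul_add, sum_add_distrib]

theorem Ep_sub (φ ψ : Finset α → ℝ) :
    Ep κ G (fun S => φ S - ψ S) = Ep κ G φ - Ep κ G ψ := by
  simp only [Ep, mul_sub, sum_sub_distrib]

theorem Ep_mul (c : ℝ) (φ : Finset α → ℝ) : Ep κ G (fun S => c * φ S) = c * Ep κ G φ := by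
  simp only [Ep, mul_sum]; exact sum_congr rfl fun _ _ => by ring

theorem Ep_mul' (c : ℝ) (φ : Finset α → ℝ) : Ep κ G (fun S => φ S * c) = Ep κ G φ * c := by
  simp only [Ep, sum_mul]; exact sum_congr rfl fun _ _ => by ring

theorem Ep_div (c : ℝ) (φ : Finset α → ℝ) : Ep κ G (fun S => φ S / c) = Ep κ G φ / c := by
  simp only [div_eq_mul_inv, Ep_mul']

theorem Ep_sum {ι : Type*} (s : Finset ι) (φ : ι → Finset α → ℝ) :
    Ep κ G (fun S => ∑ i ∈ s, φ i S) = ∑ i ∈ s, Ep κ G (φ i) := by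
  simp only [Ep, mul_sum]; exact sum_comm

theorem Ep_filter (P : Finset α → Prop) [DecidablePred P] (φ : Finset α → ℝ) :
    Ep κ G (fun S => if P S then φ S else 0) = ∑ S ∈ G.powerset.filter P, pS κ G S * φ S := by
  rw [Ep, sum_filter]; exact sum_congr rfl fun S _ => by split_ifs <;> simp

theorem Ep_ind (P : Finset α → Prop) [DecidablePred P] :
    Ep κ G (fun S => if P S then 1 else 0) = ∑ S ∈ G.powerset.filter P, pS κ G S := by
  rw [Ep_filter]; simp only [mul_one]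

theorem Ep_empty (φ : Finset α → ℝ) : Ep κ ∅ φ = φ ∅ := by simp [Ep, pS]

theorem Ep_insert {a : α} (ha : a ∉ G) (φ : Finset α → ℝ) :
    Ep κ (insert a G) φ = κ a * Ep κ G (fun S => φ (insert a S)) + (1 - κ a) * Ep κ G φ := by
  unfold Ep
  rw [sum_powerset_insert ha, add_comm, mul_sum, mul_sum]
  congr 1
  · refine sum_congr rfl fun S hS => ?_
    have h1 : a ∉ S := fun h => ha (mem_powerset.1 hS h)
    have h2 : insert a G \ insert a S = G \ S := by
      ext x; simp only [mem_sdiff, mem_insert]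
      constructor
      · rintro ⟨h | h, h'⟩
        · exact absurd (Or.inl h) h'
        · exact ⟨h, fun c => h' (Or.inr c)⟩
      · rintro ⟨h, h'⟩
        exact ⟨Or.inr h, fun c => c.elim (fun c => ha (c ▸ h)) h'⟩
    unfold pS
    rw [prod_insert h1, h2]; ring
  · refine sum_congr rfl fun S hS => ?_
    have h1 : a ∉ S := fun h => ha (mem_powerset.1 hS h)
    unfold pS
    rw [insert_sdiff_of_notMem G h1, prod_insert fun h => ha (mem_sdiff.1 h).1]; ring

theorem Ep_const (c : ℝ) : Ep κ G (fun _ => c) = c := by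
  induction G using Finset.induction_on with
  | empty => exact Ep_empty _
  | insert a G ha ih => rw [Ep_insert ha, ih]; ring

theorem sum_pS : ∑ S ∈ G.powerset, pS κ G S = 1 := by
  have := Ep_const (κ := κ) (G := G) 1
  simpa only [Ep, mul_one] using this

theorem Ep_le (hκ : Pr κ G) {φ : Finset α → ℝ} {c : ℝ} (h : ∀ S ⊆ G, φ S ≤ c) : Ep κ G φ ≤ c :=
  (Ep_mono hκ h).trans (Ep_const c).le

theorem abs_Ep_le (hκ : Pr κ G) (φ : Finset α → ℝ) : |Ep κ G φ| ≤ Ep κ G fun S => |φ S| := by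
  refine (abs_sum_le_sum_abs _ _).trans (le_of_eq (sum_congr rfl fun S hS => ?_))
  rw [abs_mul, abs_of_nonneg (pS_nonneg hκ (mem_powerset.1 hS))]

/-- Cauchy-Schwarz -/
theorem Ep_mul_sq_le (hκ : Pr κ G) (φ ψ : Finset α → ℝ) :
    (Ep κ G fun S => φ S * ψ S) ^ 2 ≤ (Ep κ G fun S => φ S ^ 2) * Ep κ G fun S => ψ S ^ 2 := by
  unfold Ep
  refine sum_sq_le_sum_mul_sum_of_sq_eq_mul _ (fun S hS => ?_) (fun S hS => ?_) fun S _ => by ring
  all_goals exact mul_nonneg (pS_nonneg hκ (mem_powerset.1 hS)) (sq_nonneg _)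

/-! ### independence -/

theorem Ep_union {H : Finset α} (hd : Disjoint G H) (φ : Finset α → ℝ) :
    Ep κ (G ∪ H) φ = Ep κ G fun S => Ep κ H fun T => φ (S ∪ T) := by
  induction G using Finset.induction_on generalizing φ with
  | empty => simp only [empty_union, Ep_empty]
  | insert a G ha ih =>
    have h1 : a ∉ H := disjoint_left.1 hd (mem_insert_self _ _)
    have h2 : Disjoint G H := disjoint_of_subset_left (subset_insert _ _) hd
    rw [insert_union, Ep_insert (fun h => (mem_union.1 h).elim ha h1), ih h2, ih h2, Ep_insert ha]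
    simp only [insert_union]

theorem Ep_split {H : Finset α} (hH : H ⊆ G) (φ : Finset α → ℝ) :
    Ep κ G φ = Ep κ H fun S => Ep κ (G \ H) fun T => φ (S ∪ T) := by
  rw [← Ep_union disjoint_sdiff, union_sdiff_of_subset hH]

theorem Ep_comm {H : Finset α} {κ' : α → ℝ} (φ : Finset α → Finset α → ℝ) :
    (Ep κ G fun S => Ep κ' H fun T => φ S T) = Ep κ' H fun T => Ep κ G fun S => φ S T := by
  simp only [Ep, mul_sum]
  rw [sum_comm]
  exact sum_congr rfl fun _ _ => sum_congr rfl fun _ _ => by ring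

/-- the two traces on a part and on its complement are independent -/
theorem Ep_inter_sdiff {H : Finset α} (hH : H ⊆ G) (φ : Finset α → Finset α → ℝ) :
    (Ep κ G fun S => φ (S ∩ H) (S \ H)) = Ep κ H fun S => Ep κ (G \ H) fun T => φ S T := by
  rw [Ep_split hH]
  refine Ep_congr fun S hS => Ep_congr fun T hT => ?_
  have h1 : (S ∪ T) ∩ H = S := by
    ext x; simp only [mem_inter, mem_union]
    exact ⟨fun h => h.1.elim id fun c => absurd h.2 (mem_sdiff.1 (hT c)).2,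
      fun h => ⟨Or.inl h, hS h⟩⟩
  have h2 : (S ∪ T) \ H = T := by
    ext x; simp only [mem_sdiff, mem_union]
    exact ⟨fun h => h.1.elim (fun c => absurd (hS c) h.2) id,
      fun h => ⟨Or.inr h, (mem_sdiff.1 (hT h)).2⟩⟩
  rw [h1, h2]

/-- marginal law on a part -/
theorem Ep_inter {H : Finset α} (hH : H ⊆ G) (φ : Finset α → ℝ) :
    (Ep κ G fun S => φ (S ∩ H)) = Ep κ H φ := by
  rw [Ep_inter_sdiff hH fun S _ => φ S]
  simp only [Ep_const]

/-- a function of the trace on H times a function that does not see H -/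
theorem Ep_mul_of_indep {H : Finset α} (hH : H ⊆ G) (φ ψ : Finset α → ℝ)
    (hψ : ∀ S ⊆ G, ψ S = ψ (S \ H)) :
    (Ep κ G fun S => φ (S ∩ H) * ψ S) = Ep κ H φ * Ep κ G ψ := by
  have e1 : Ep κ G ψ = Ep κ (G \ H) ψ := by
    rw [Ep_congr hψ, Ep_inter_sdiff hH fun _ T => ψ T, Ep_const]
  rw [e1, Ep_congr (ψ := fun S => φ (S ∩ H) * ψ (S \ H)) fun S hS => by rw [← hψ S hS],
    Ep_inter_sdiff hH fun S T => φ S * ψ T]
  simp only [Ep_mul, Ep_mul']

/-- functions of the traces on disjoint parts are independent -/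
theorem Ep_prod_inter {ι : Type*} (s : Finset ι) (H : ι → Finset α) (hH : ∀ i ∈ s, H i ⊆ G)
    (hd : ∀ i ∈ s, ∀ j ∈ s, i ≠ j → Disjoint (H i) (H j)) (φ : ι → Finset α → ℝ) :
    (Ep κ G fun S => ∏ i ∈ s, φ i (S ∩ H i)) = ∏ i ∈ s, Ep κ (H i) (φ i) := by
  classical
  induction s using Finset.induction_on with
  | empty => simp only [prod_empty, Ep_const]
  | insert a s ha ih =>
    simp only [prod_insert ha]
    rw [Ep_mul_of_indep (hH a (mem_insert_self _ _)), ih (fun i hi => hH i (mem_insert_of_mem hi))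
      fun i hi j hj => hd i (mem_insert_of_mem hi) j (mem_insert_of_mem hj)]
    intro S _
    refine prod_congr rfl fun i hi => ?_
    congr 1
    have := hd i (mem_insert_of_mem hi) a (mem_insert_self _ _) fun h => ha (h ▸ hi)
    ext x; simp only [mem_inter, mem_sdiff]
    exact ⟨fun h => ⟨⟨h.1, disjoint_left.1 this h.2⟩, h.2⟩, fun h => ⟨h.1.1, h.2⟩⟩

theorem Ep_mul_inter {H H' : Finset α} (hH : H ⊆ G) (hH' : H' ⊆ G) (hd : Disjoint H H')
    (φ ψ : Finset α → ℝ) :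
    (Ep κ G fun S => φ (S ∩ H) * ψ (S ∩ H')) = Ep κ H φ * Ep κ H' ψ := by
  rw [Ep_mul_of_indep hH φ fun S => ψ (S ∩ H'), Ep_inter hH']
  intro S _
  congr 1
  ext x; simp only [mem_inter, mem_sdiff]
  exact ⟨fun h => ⟨⟨h.1, disjoint_right.1 hd h.2⟩, h.2⟩, fun h => ⟨h.1.1, h.2⟩⟩

/-- conditioning on a forced part: the other members stay natural -/
theorem Ep_above {v : Finset α} (hv : v ⊆ G) (φ : Finset α → ℝ) :
    (Ep κ G fun S => if v ⊆ S then φ S else 0) =
      (∏ p ∈ v, κ p) * Ep κ G fun S => φ (v ∪ S) := by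
  have e1 : (Ep κ G fun S => φ (v ∪ S)) = Ep κ (G \ v) fun T => φ (v ∪ T) := by
    rw [Ep_congr (ψ := fun S => φ (v ∪ S \ v)) fun S _ => by rw [union_sdiff_self_eq_union],
      Ep_inter_sdiff hv fun _ T => φ (v ∪ T), Ep_const]
  rw [e1, Ep_split hv]
  have e2 : ∀ S ⊆ v, (Ep κ (G \ v) fun T => if v ⊆ S ∪ T then φ (S ∪ T) else 0) =
      if S = v then Ep κ (G \ v) fun T => φ (v ∪ T) else 0 := by
    intro S hS
    by_cases h : S = v
    · subst h; simp only [subset_union_left, if_true]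
    · rw [if_neg h, Ep_congr (ψ := fun _ => 0), Ep_const]
      intro T hT
      refine if_neg fun c => h (Subset.antisymm hS fun x hx => ?_)
      exact (mem_union.1 (c hx)).elim id fun d => absurd hx (mem_sdiff.1 (hT d)).2
  rw [Ep_congr e2, Ep_filter, filter_eq', if_pos (mem_powerset_self v), sum_singleton]
  simp [pS]

/-- size-biasing by sub-objects: choose the sub-object first, the extras are natural -/
theorem Ep_sub_obj (φ : Finset α → Finset α → ℝ) :
    (Ep κ G fun S => ∑ g ∈ S.powerset, φ g S) =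
      ∑ g ∈ G.powerset, (∏ p ∈ g, κ p) * Ep κ G fun S => φ g (g ∪ S) := by
  have e : ∀ S ⊆ G, ∑ g ∈ S.powerset, φ g S = ∑ g ∈ G.powerset, if g ⊆ S then φ g S else 0 := by
    intro S hS
    rw [← sum_filter]
    refine sum_congr ?_ fun _ _ => rfl
    ext g
    simp only [mem_filter, mem_powerset]
    exact ⟨fun c => ⟨c.trans hS, c⟩, fun c => c.2⟩
  rw [Ep_congr e, Ep_sum]
  exact sum_congr rfl fun g hg => Ep_above (mem_powerset.1 hg) _

/-! ### multiplicative functions, tilting -/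

theorem Ep_prod (z : α → ℝ) :
    (Ep κ G fun S => ∏ p ∈ S, z p) = ∏ p ∈ G, (1 + κ p * (z p - 1)) := by
  induction G using Finset.induction_on with
  | empty => simp [Ep_empty]
  | insert a G ha ih =>
    rw [Ep_insert ha, Ep_congr (ψ := fun S => z a * ∏ p ∈ S, z p)
      fun S hS => prod_insert fun h => ha (hS h), Ep_mul, ih, prod_insert ha]
    ring

theorem Ep_prod_le (hκ : Pr κ G) {z : α → ℝ} (hz : ∀ p ∈ G, 0 ≤ z p) :
    (Ep κ G fun S => ∏ p ∈ S, z p) ≤ Real.exp (∑ p ∈ G, κ p * (z p - 1)) := by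
  rw [Ep_prod, Real.exp_sum]
  refine prod_le_prod (fun p hp => ?_) fun p _ => by linarith [Real.add_one_le_exp (κ p * (z p - 1))]
  nlinarith [(hκ p hp).1, (hκ p hp).2, hz p hp, mul_nonneg (hκ p hp).1 (hz p hp)]

theorem pS_tilt {z : α → ℝ} (h : ∀ p ∈ G, 1 + κ p * (z p - 1) ≠ 0) {S : Finset α} (hS : S ⊆ G) :
    pS κ G S * ∏ p ∈ S, z p = (∏ p ∈ G, (1 + κ p * (z p - 1))) *
      pS (fun p => κ p * z p / (1 + κ p * (z p - 1))) G S := by
  unfold pS
  rw [← prod_sdiff hS]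
  have e1 : (∏ p ∈ S, κ p) * ∏ p ∈ S, z p = (∏ p ∈ S, (1 + κ p * (z p - 1))) *
      ∏ p ∈ S, κ p * z p / (1 + κ p * (z p - 1)) := by
    rw [← prod_mul_distrib, ← prod_mul_distrib]
    exact prod_congr rfl fun p hp => by have := h p (hS hp); field_simp
  have e2 : ∏ p ∈ G \ S, (1 - κ p) = (∏ p ∈ G \ S, (1 + κ p * (z p - 1))) *
      ∏ p ∈ G \ S, (1 - κ p * z p / (1 + κ p * (z p - 1))) := by
    rw [← prod_mul_distrib]
    exact prod_congr rfl fun p hp => by have := h p (mem_sdiff.1 hp).1; field_simp; ring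
  rw [e2]
  linear_combination (∏ p ∈ G \ S, (1 + κ p * (z p - 1))) *
    (∏ p ∈ G \ S, (1 - κ p * z p / (1 + κ p * (z p - 1)))) * e1

theorem Ep_tilt {z : α → ℝ} (h : ∀ p ∈ G, 1 + κ p * (z p - 1) ≠ 0) (φ : Finset α → ℝ) :
    (Ep κ G fun S => (∏ p ∈ S, z p) * φ S) = (∏ p ∈ G, (1 + κ p * (z p - 1))) *
      Ep (fun p => κ p * z p / (1 + κ p * (z p - 1))) G φ := by
  unfold Ep
  rw [mul_sum]
  exact sum_congr rfl fun S hS => by rw [← mul_assoc, pS_tilt h (mem_powerset.1 hS), mul_assoc]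

/-- odds form: weights prod w on the subsets, normalised -/
theorem pS_odds {w : α → ℝ} (h : ∀ p ∈ G, 1 + w p ≠ 0) {S : Finset α} (hS : S ⊆ G) :
    (∏ p ∈ S, w p) / ∏ p ∈ G, (1 + w p) = pS (fun p => w p / (1 + w p)) G S := by
  unfold pS
  rw [← prod_sdiff hS, mul_comm (∏ p ∈ G \ S, (1 + w p)), ← div_div, ← prod_div_distrib,
    div_eq_mul_inv, ← prod_inv_distrib]
  congr 1
  exact prod_congr rfl fun p hp => by have := h p (mem_sdiff.1 hp).1; field_simp; ring

/-! ### additive functions -/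

theorem Ep_additive (s : α → ℝ) : (Ep κ G fun S => ∑ p ∈ S, s p) = ∑ p ∈ G, κ p * s p := by
  induction G using Finset.induction_on with
  | empty => simp [Ep_empty]
  | insert a G ha ih =>
    rw [Ep_insert ha, Ep_congr (ψ := fun S => s a + ∑ p ∈ S, s p)
      fun S hS => sum_insert fun h => ha (hS h), Ep_add, Ep_const, ih, sum_insert ha]
    ring

theorem Ep_var (s : α → ℝ) :
    (Ep κ G fun S => (∑ p ∈ S, s p - ∑ p ∈ G, κ p * s p) ^ 2) =
      ∑ p ∈ G, κ p * (1 - κ p) * s p ^ 2 := by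
  induction G using Finset.induction_on with
  | empty => simp [Ep_empty]
  | insert a G ha ih =>
    have key : ∀ c : ℝ, (Ep κ G fun S => (c + (∑ p ∈ S, s p - ∑ p ∈ G, κ p * s p)) ^ 2) =
        c ^ 2 + ∑ p ∈ G, κ p * (1 - κ p) * s p ^ 2 := by
      intro c
      rw [Ep_congr (ψ := fun S => (c ^ 2 + 2 * c * (∑ p ∈ S, s p - ∑ p ∈ G, κ p * s p)) +
        (∑ p ∈ S, s p - ∑ p ∈ G, κ p * s p) ^ 2) fun S _ => by ring, Ep_add, Ep_add, Ep_const,
        Ep_mul, Ep_sub, Ep_const, Ep_additive, ih]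
      ring
    rw [Ep_insert ha, sum_insert ha, sum_insert ha,
      Ep_congr (ψ := fun S => ((1 - κ a) * s a + (∑ p ∈ S, s p - ∑ p ∈ G, κ p * s p)) ^ 2)
        fun S hS => by rw [sum_insert fun h => ha (hS h)]; ring,
      Ep_congr (φ := fun S => (∑ p ∈ S, s p - (κ a * s a + ∑ p ∈ G, κ p * s p)) ^ 2)
        (ψ := fun S => (-(κ a * s a) + (∑ p ∈ S, s p - ∑ p ∈ G, κ p * s p)) ^ 2)
        fun S _ => by ring, key, key]
    ring

theorem markov (hκ : Pr κ G) {φ : Finset α → ℝ} (h : ∀ S ⊆ G, 0 ≤ φ S) {t : ℝ} (ht : 0 < t)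
    (P : Finset α → Prop) [DecidablePred P] (hP : ∀ S ⊆ G, P S → t ≤ φ S) :
    (Ep κ G fun S => if P S then 1 else 0) ≤ Ep κ G φ / t := by
  rw [← Ep_div]
  refine Ep_mono hκ fun S hS => ?_
  split_ifs with c
  · rw [le_div_iff₀ ht, one_mul]; exact hP S hS c
  · exact div_nonneg (h S hS) ht.le

/-- truncation of a weight costs its second moment -/
theorem trunc (hκ : Pr κ G) {φ : Finset α → ℝ} {t : ℝ} (ht : 0 < t) :
    (Ep κ G fun S => if t < φ S then φ S else 0) ≤ (Ep κ G fun S => φ S ^ 2) / t := by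
  rw [← Ep_div]
  refine Ep_mono hκ fun S _ => ?_
  split_ifs with c
  · rw [le_div_iff₀ ht]; nlinarith
  · positivity

theorem markov_additive (hκ : Pr κ G) {s : α → ℝ} (hs : ∀ p ∈ G, 0 ≤ s p) {t : ℝ} (ht : 0 < t)
    (P : Finset α → Prop) [DecidablePred P] (hP : ∀ S ⊆ G, P S → t ≤ ∑ p ∈ S, s p) :
    (Ep κ G fun S => if P S then 1 else 0) ≤ (∑ p ∈ G, κ p * s p) / t := by
  rw [← Ep_additive]
  exact markov hκ (fun S hS => sum_nonneg fun p hp => hs p (hS hp)) ht P hP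

theorem chebyshev (hκ : Pr κ G) (s : α → ℝ) {t : ℝ} (ht : 0 < t)
    (P : Finset α → Prop) [DecidablePred P]
    (hP : ∀ S ⊆ G, P S → t ≤ |∑ p ∈ S, s p - ∑ p ∈ G, κ p * s p|) :
    (Ep κ G fun S => if P S then 1 else 0) ≤ (∑ p ∈ G, κ p * s p ^ 2) / t ^ 2 := by
  refine (markov hκ (φ := fun S => (∑ p ∈ S, s p - ∑ p ∈ G, κ p * s p) ^ 2)
    (fun S _ => sq_nonneg _) (by positivity : 0 < t ^ 2) P fun S hS c => ?_).trans ?_
  · rw [← sq_abs (_ - _)]; gcongr; exact hP S hS c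
  · rw [Ep_var]
    gcongr with p hp
    nlinarith [sq_nonneg (κ p)]

/-! ### the number of members -/

theorem Ep_card : (Ep κ G fun S => (S.card : ℝ)) = ∑ p ∈ G, κ p := by
  have := Ep_additive (κ := κ) (G := G) fun _ => 1
  simpa using this

theorem chebyshev_card (hκ : Pr κ G) {t : ℝ} (ht : 0 < t)
    (P : Finset α → Prop) [DecidablePred P]
    (hP : ∀ S ⊆ G, P S → t ≤ |(S.card : ℝ) - ∑ p ∈ G, κ p|) :
    (Ep κ G fun S => if P S then 1 else 0) ≤ (∑ p ∈ G, κ p) / t ^ 2 := by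
  have := chebyshev hκ (fun _ => 1) ht P (by simpa using hP)
  simpa using this

theorem Ep_pow_le (hκ : Pr κ G) {z : ℝ} (hz : 0 ≤ z) :
    (Ep κ G fun S => z ^ S.card) ≤ Real.exp ((z - 1) * ∑ p ∈ G, κ p) := by
  have := Ep_prod_le hκ (z := fun _ => z) fun _ _ => hz
  simp only [prod_const] at this
  rwa [← sum_mul, mul_comm] at this

theorem tail_up (hκ : Pr κ G) {z : ℝ} (hz : 1 ≤ z) (x : ℝ)
    (P : Finset α → Prop) [DecidablePred P] (hP : ∀ S ⊆ G, P S → x ≤ S.card) :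
    (Ep κ G fun S => if P S then 1 else 0) ≤
      Real.exp ((z - 1) * ∑ p ∈ G, κ p - x * Real.log z) := by
  have hz0 : 0 < z := by linarith
  refine (markov hκ (φ := fun S => z ^ S.card) (fun S _ => by positivity)
    (Real.exp_pos (x * Real.log z)) P fun S hS c => ?_).trans ?_
  · rw [← Real.exp_log (show 0 < z ^ S.card by positivity), Real.log_pow, Real.exp_le_exp]
    exact mul_le_mul_of_nonneg_right (hP S hS c) (Real.log_nonneg hz)
  · rw [Real.exp_sub]; gcongr; exact Ep_pow_le hκ hz0.le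

theorem tail_low (hκ : Pr κ G) {z : ℝ} (hz0 : 0 < z) (hz : z ≤ 1) (x : ℝ)
    (P : Finset α → Prop) [DecidablePred P] (hP : ∀ S ⊆ G, P S → (S.card : ℝ) ≤ x) :
    (Ep κ G fun S => if P S then 1 else 0) ≤
      Real.exp ((z - 1) * ∑ p ∈ G, κ p - x * Real.log z) := by
  refine (markov hκ (φ := fun S => z ^ S.card) (fun S _ => by positivity)
    (Real.exp_pos (x * Real.log z)) P fun S hS c => ?_).trans ?_
  · rw [← Real.exp_log (show 0 < z ^ S.card by positivity), Real.log_pow, Real.exp_le_exp]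
    exact mul_le_mul_of_nonpos_right (hP S hS c) (Real.log_nonpos hz0.le hz)
  · rw [Real.exp_sub]; gcongr; exact Ep_pow_le hκ hz0.le

theorem prob_empty : (Ep κ G fun S => if S = ∅ then 1 else 0) = ∏ p ∈ G, (1 - κ p) := by
  rw [Ep_ind, filter_eq', if_pos (empty_mem_powerset G), sum_singleton]
  simp [pS]

theorem prob_empty_le (hκ : Pr κ G) :
    (Ep κ G fun S => if S = ∅ then 1 else 0) ≤ Real.exp (-∑ p ∈ G, κ p) := by
  rw [prob_empty, ← sum_neg_distrib, Real.exp_sum]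
  exact prod_le_prod (fun p hp => by linarith [(hκ p hp).2])
    fun p _ => by linarith [Real.add_one_le_exp (-κ p)]

/-- elementary symmetric sum -/
noncomputable def es (κ : α → ℝ) (G : Finset α) (r : ℕ) : ℝ :=
  ∑ Q ∈ G.powersetCard r, ∏ p ∈ Q, κ p

omit [DecidableEq α] in
theorem es_nonneg (h : ∀ p ∈ G, 0 ≤ κ p) (r : ℕ) : 0 ≤ es κ G r :=
  sum_nonneg fun _ hQ => prod_nonneg fun p hp => h p ((mem_powersetCard.1 hQ).1 hp)

theorem es_succ (r : ℕ) : ((r : ℝ) + 1) * es κ G (r + 1) =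
    ∑ Q ∈ G.powersetCard r, (∏ p ∈ Q, κ p) * ∑ p ∈ G \ Q, κ p := by
  have e1 : ((r : ℝ) + 1) * es κ G (r + 1) =
      ∑ Q ∈ G.powersetCard (r + 1), ∑ p ∈ Q, (∏ q ∈ Q.erase p, κ q) * κ p := by
    unfold es
    rw [mul_sum]
    refine sum_congr rfl fun Q hQ => ?_
    rw [sum_congr rfl fun p hp => prod_erase_mul Q κ hp, sum_const, (mem_powersetCard.1 hQ).2,
      nsmul_eq_mul]
    push_cast; ring
  simp only [mul_sum]
  rw [e1, sum_sigma', sum_sigma']
  refine sum_bij' (fun z _ => ⟨z.1.erase z.2, z.2⟩) (fun z _ => ⟨insert z.2 z.1, z.2⟩)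
    ?_ ?_ ?_ ?_ ?_
  · rintro ⟨Q, p⟩ hz
    simp only [mem_sigma, mem_powersetCard, mem_sdiff] at hz ⊢
    exact ⟨⟨(erase_subset _ _).trans hz.1.1, by rw [card_erase_of_mem hz.2, hz.1.2]; rfl⟩,
      hz.1.1 hz.2, notMem_erase _ _⟩
  · rintro ⟨Q, p⟩ hz
    simp only [mem_sigma, mem_powersetCard, mem_sdiff] at hz ⊢
    exact ⟨⟨insert_subset hz.2.1 hz.1.1, by rw [card_insert_of_notMem hz.2.2, hz.1.2]⟩,
      mem_insert_self _ _⟩
  · rintro ⟨Q, p⟩ hz
    simp only [mem_sigma] at hz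
    simp only [insert_erase hz.2]
  · rintro ⟨Q, p⟩ hz
    simp only [mem_sigma, mem_sdiff] at hz
    simp only [erase_insert hz.2.2]
  · rintro ⟨Q, p⟩ _
    rfl

theorem es_le (h : ∀ p ∈ G, 0 ≤ κ p) (r : ℕ) :
    (r.factorial : ℝ) * es κ G r ≤ (∑ p ∈ G, κ p) ^ r := by
  induction r with
  | zero => simp [es]
  | succ r ih =>
    have h0 : 0 ≤ ∑ p ∈ G, κ p := sum_nonneg h
    have h1 : ((r : ℝ) + 1) * es κ G (r + 1) ≤ es κ G r * ∑ p ∈ G, κ p := by
      rw [es_succ, es, sum_mul]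
      refine sum_le_sum fun Q hQ => mul_le_mul_of_nonneg_left ?_
        (prod_nonneg fun p hp => h p ((mem_powersetCard.1 hQ).1 hp))
      exact sum_le_sum_of_subset_of_nonneg sdiff_subset fun p hp _ => h p hp
    rw [Nat.factorial_succ, pow_succ]
    push_cast
    calc _ = (r.factorial : ℝ) * (((r : ℝ) + 1) * es κ G (r + 1)) := by ring
      _ ≤ (r.factorial : ℝ) * (es κ G r * ∑ p ∈ G, κ p) := by gcongr
      _ = (r.factorial : ℝ) * es κ G r * ∑ p ∈ G, κ p := by ring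
      _ ≤ _ := by gcongr

theorem le_es {m : ℝ} (h : ∀ p ∈ G, 0 ≤ κ p ∧ κ p ≤ m) (hm : 0 ≤ m) (r : ℕ) {a : ℝ} (ha : 0 ≤ a)
    (har : a + r * m ≤ ∑ p ∈ G, κ p) : a ^ r ≤ (r.factorial : ℝ) * es κ G r := by
  induction r with
  | zero => simp [es]
  | succ r ih =>
    push_cast at har
    have ih' := ih (by nlinarith)
    have h1 : es κ G r * a ≤ ((r : ℝ) + 1) * es κ G (r + 1) := by
      rw [es_succ, es, sum_mul]
      refine sum_le_sum fun Q hQ => mul_le_mul_of_nonneg_left ?_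
        (prod_nonneg fun p hp => (h p ((mem_powersetCard.1 hQ).1 hp)).1)
      obtain ⟨q1, q2⟩ := mem_powersetCard.1 hQ
      have a1 := sum_sdiff (f := κ) q1
      have a2 : ∑ p ∈ Q, κ p ≤ r * m := by
        have := sum_le_card_nsmul Q κ m fun p hp => (h p (q1 hp)).2
        rwa [q2, nsmul_eq_mul] at this
      nlinarith
    rw [Nat.factorial_succ, pow_succ]
    push_cast
    calc a ^ r * a ≤ (r.factorial : ℝ) * es κ G r * a := by gcongr
      _ = (r.factorial : ℝ) * (es κ G r * a) := by ring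
      _ ≤ (r.factorial : ℝ) * (((r : ℝ) + 1) * es κ G (r + 1)) := by gcongr
      _ = _ := by ring

/-- sub-objects of a fixed size: choose them first, the extras are natural -/
theorem Ep_sub_card (r : ℕ) (φ : Finset α → Finset α → ℝ) :
    (Ep κ G fun S => ∑ Q ∈ S.powersetCard r, φ Q S) =
      ∑ Q ∈ G.powersetCard r, (∏ p ∈ Q, κ p) * Ep κ G fun S => φ Q (Q ∪ S) := by
  have := Ep_sub_obj (κ := κ) (G := G) fun g S => if g.card = r then φ g S else 0
  simp only [← sum_filter, ← powersetCard_eq_filter] at this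
  rw [this, powersetCard_eq_filter, sum_filter]
  refine sum_congr rfl fun g _ => ?_
  split_ifs
  · rfl
  · rw [Ep_const, mul_zero]

theorem Ep_choose (r : ℕ) : (Ep κ G fun S => (S.card.choose r : ℝ)) = es κ G r := by
  have := Ep_sub_card (κ := κ) (G := G) r fun _ _ => 1
  simpa [Ep_const, es] using this

theorem Ep_descFactorial (r : ℕ) :
    (Ep κ G fun S => (S.card.descFactorial r : ℝ)) = r.factorial * es κ G r := by
  rw [← Ep_choose, ← Ep_mul]
  exact Ep_congr fun S _ => by rw [Nat.descFactorial_eq_factorial_mul_choose]; push_cast; rfl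

theorem prob_card_ge (hκ : Pr κ G) (r : ℕ) :
    (Ep κ G fun S => if r ≤ S.card then 1 else 0) ≤ es κ G r := by
  rw [← Ep_choose]
  refine Ep_mono hκ fun S _ => ?_
  split_ifs with c
  · exact_mod_cast Nat.choose_pos c
  · positivity

theorem prob_card_ge' (hκ : Pr κ G) (r : ℕ) :
    (Ep κ G fun S => if r ≤ S.card then 1 else 0) ≤ (∑ p ∈ G, κ p) ^ r / r.factorial := by
  refine (prob_card_ge hκ r).trans ?_
  rw [le_div_iff₀ (by positivity), mul_comm]
  exact es_le (fun p hp => (hκ p hp).1) r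

theorem Ep_choose_sq_le (hκ : Pr κ G) (r : ℕ) :
    (Ep κ G fun S => (S.card.choose r : ℝ) ^ 2) ≤ Real.exp (3 * ∑ p ∈ G, κ p) := by
  refine le_trans (Ep_mono hκ fun S _ => ?_)
    ((Ep_pow_le hκ (z := 4) (by norm_num)).trans (by norm_num))
  have h : (S.card.choose r : ℝ) ≤ 2 ^ S.card := by exact_mod_cast Nat.choose_le_two_pow _ _
  calc _ ≤ ((2 : ℝ) ^ S.card) ^ 2 := by gcongr
    _ = 4 ^ S.card := by rw [← pow_mul, mul_comm, pow_mul]; norm_num

theorem prob_one : (Ep κ G fun S => if S.card = 1 then 1 else 0) =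
    ∑ p ∈ G, κ p * ∏ q ∈ G.erase p, (1 - κ q) := by
  rw [Ep_ind, ← powersetCard_eq_filter, powersetCard_one, sum_map]
  refine sum_congr rfl fun p _ => ?_
  simp [pS, sdiff_singleton_eq_erase]

end Pool.Agent.P.MP_a14ce1_nt.Fu.PL
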