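import Pool.Agent.P.MP_a14ce1_nt.Fu.Em

/-! Second moments of window weights under products of classes; families of levels. -/

open Finset

namespace Pool.Agent.P.MP_a14ce1_nt.Fu

open Pool.Agent.P.MP_a14ce1_nt.Ch

variable {P Q : Finset ℕ} {w w' : Finset ℕ → ℝ} {l0 C : ℝ}

/-- indicator of a window for the logarithm -/
noncomputable def wn (u l0 : ℝ) (c : Finset ℕ) : ℝ :=
  if u ≤ Real.log (pv c) ∧ Real.log (pv c) ≤ u + l0 then 1 else 0

theorem wn_nonneg (u l0 : ℝ) (c : Finset ℕ) : 0 ≤ wn u l0 c := by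
  unfold wn; split_ifs <;> norm_num

theorem wn_le (u l0 : ℝ) (c : Finset ℕ) : wn u l0 c ≤ 1 := by
  unfold wn; split_ifs <;> norm_num

theorem pv_union {x y : Finset ℕ} (h : Disjoint x y) : pv (x ∪ y) = pv x * pv y :=
  prod_union h

theorem log_pv_union {x y : Finset ℕ} (h : Disjoint x y) (hx : ∀ q ∈ x, q.Prime)
    (hy : ∀ q ∈ y, q.Prime) : Real.log (pv (x ∪ y)) = Real.log (pv x) + Real.log (pv y) := by
  rw [pv_union h, Nat.cast_mul, Real.log_mul] <;>
  exact_mod_cast (Main.pv_pos ‹_›).ne'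

theorem wn_union {x y : Finset ℕ} (h : Disjoint x y) (hx : ∀ q ∈ x, q.Prime)
    (hy : ∀ q ∈ y, q.Prime) (u l0 : ℝ) : wn u l0 (x ∪ y) = wn (u - Real.log (pv y)) l0 x := by
  unfold wn
  rw [log_pv_union h hx hy]
  refine if_congr ?_ rfl rfl
  constructor <;> rintro ⟨a, b⟩ <;> constructor <;> linarith

/-- weight of the subsets of A in a window -/
noncomputable def dw (w : Finset ℕ → ℝ) (u l0 : ℝ) (A : Finset ℕ) : ℝ :=
  ∑ c ∈ A.powerset, w c * wn u l0 c

theorem dw_nonneg (hw : ∀ c, 0 ≤ w c) (u l0 : ℝ) (A : Finset ℕ) : 0 ≤ dw w u l0 A :=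
  sum_nonneg fun c _ => mul_nonneg (hw c) (wn_nonneg _ _ _)

theorem dw_le (hw : ∀ c, 0 ≤ w c) (u l0 : ℝ) (A : Finset ℕ) : dw w u l0 A ≤ Vt w A :=
  sum_le_sum fun c _ => mul_le_of_le_one_right (hw c) (wn_le _ _ _)

/-- second moment bound for two windows of length l0 -/
def Q2 (P : Finset ℕ) (w : Finset ℕ → ℝ) (l0 C : ℝ) : Prop :=
  ∀ u u', (Em P fun A => dw w u l0 A * dw w u' l0 A / Vt w A) ≤ C

theorem Q2.mono (h : Q2 P w l0 C) {C' : ℝ} (hC : C ≤ C') : Q2 P w l0 C' :=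
  fun u u' => (h u u').trans hC

theorem Q2.congr (h : Q2 P w l0 C) (e : ∀ c ⊆ P, w c = w' c) : Q2 P w' l0 C := by
  intro u u'
  refine le_trans (Em_congr fun A hA => ?_).le (h u u')
  have e' : ∀ c ∈ A.powerset, w' c = w c := fun c hc => (e c ((mem_powerset.1 hc).trans hA)).symm
  unfold dw Vt
  rw [sum_congr rfl e', sum_congr rfl fun c hc => congrArg (· * wn u l0 c) (e' c hc),
    sum_congr rfl fun c hc => congrArg (· * wn u' l0 c) (e' c hc)]

theorem q2_sb {K c0 l : ℝ} {G : Finset ℕ} {B : ℕ → ℝ} (h : SB.Pop K c0 l0 l G B) :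
    Q2 G (SB.wh B G) l0 (SB.Csb2 K c0 * (l0 / l) ^ 2) := by
  intro u u'
  refine le_trans (Em_congr fun A _ => ?_).le (SB.sb2 h u u')
  have e : ∀ v, dw (SB.wh B G) v l0 A = SB.dg B G v l0 A := fun v => by
    simp only [dw, SB.dg, wn, mul_ite, mul_one, mul_zero, sum_filter]
  rw [e, e, Vt, SB.sum_wh]

theorem sum4 {α β γ δ : Type*} (A : Finset α) (B : Finset β) (A' : Finset γ) (B' : Finset δ)
    (f : α → β → γ → δ → ℝ) : ∑ g ∈ A, ∑ x ∈ B, ∑ g' ∈ A', ∑ y ∈ B', f g x g' y =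
      ∑ x ∈ B, ∑ y ∈ B', ∑ g ∈ A, ∑ g' ∈ A', f g x g' y := by
  rw [sum_comm]
  refine sum_congr rfl fun x _ => ?_
  rw [sum_congr rfl fun g _ => sum_comm]
  exact sum_comm

/-- a product with a second class, with a kernel on that class -/
theorem Q2.ker (h1 : Q2 P w l0 C) (h : Disjoint P Q) (hP : ∀ q ∈ P, q.Prime)
    (hQ : ∀ q ∈ Q, q.Prime) (hw' : ∀ c, 0 ≤ w' c) (κ : Finset ℕ → Finset ℕ → Finset ℕ → ℝ)
    (hκ : ∀ B x y, 0 ≤ κ B x y) (u u' : ℝ) :
    (Em (P ∪ Q) fun A => (∑ c ∈ A.powerset, wm P Q w w' c * ∑ c' ∈ A.powerset, wm P Q w w' c' *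
      (wn u l0 c * wn u' l0 c' * κ (A ∩ Q) (c ∩ Q) (c' ∩ Q))) / Vt (wm P Q w w') A) ≤
      C * Em Q fun B => (∑ x ∈ B.powerset, w' x * ∑ y ∈ B.powerset, w' y * κ B x y) / Vt w' B := by
  rw [Em_union h, Em_comm, ← Em_mul]
  refine Em_mono fun B hB => ?_
  have key : ∀ A ⊆ P, (∑ c ∈ (A ∪ B).powerset, wm P Q w w' c * ∑ c' ∈ (A ∪ B).powerset,
      wm P Q w w' c' * (wn u l0 c * wn u' l0 c' * κ ((A ∪ B) ∩ Q) (c ∩ Q) (c' ∩ Q))) /
        Vt (wm P Q w w') (A ∪ B) = ∑ x ∈ B.powerset, ∑ y ∈ B.powerset,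
      w' x * (w' y * κ B x y) / Vt w' B * (dw w (u - Real.log (pv x)) l0 A *
        dw w (u' - Real.log (pv y)) l0 A / Vt w A) := by
    intro A hA
    have e : ∀ g ∈ A.powerset, ∀ x ∈ B.powerset, ∀ v, (g ∪ x) ∩ Q = x ∧
        wn v l0 (g ∪ x) = wn (v - Real.log (pv x)) l0 g := by
      intro g hg x hx v
      have a := (mem_powerset.1 hg).trans hA
      have b := (mem_powerset.1 hx).trans hB
      exact ⟨un_inter_right h a b, wn_union (h.mono a b) (fun q c => hP q (a c))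
        (fun q c => hQ q (b c)) _ _⟩
    rw [Vt_wm h hA hB, sum_wm h hA hB, un_inter_right h hA hB]
    simp only [sum_wm h hA hB]
    have e2 : ∑ g ∈ A.powerset, w g * ∑ x ∈ B.powerset, w' x * ∑ g' ∈ A.powerset, w g' *
        ∑ y ∈ B.powerset, w' y * (wn u l0 (g ∪ x) * wn u' l0 (g' ∪ y) *
          κ B ((g ∪ x) ∩ Q) ((g' ∪ y) ∩ Q)) = ∑ x ∈ B.powerset, ∑ y ∈ B.powerset,
        w' x * (w' y * κ B x y) * (dw w (u - Real.log (pv x)) l0 A *
          dw w (u' - Real.log (pv y)) l0 A) := by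
      simp only [dw, sum_mul_sum]
      simp only [mul_sum]
      rw [sum4]
      refine sum_congr rfl fun x hx => sum_congr rfl fun y hy => sum_congr rfl fun g hg =>
        sum_congr rfl fun g' hg' => ?_
      rw [(e g hg x hx u).1, (e g hg x hx u).2, (e g' hg' y hy u').1, (e g' hg' y hy u').2]
      ring
    rw [e2, sum_div]
    refine sum_congr rfl fun x _ => ?_
    rw [sum_div]
    refine sum_congr rfl fun y _ => ?_
    rw [div_mul_div_comm, mul_comm (Vt w A)]
  rw [Em_congr key, Em_sum, sum_div, mul_sum]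
  refine sum_le_sum fun x _ => ?_
  rw [Em_sum, mul_sum, sum_div, mul_sum]
  refine sum_le_sum fun y _ => ?_
  rw [Em_mul, mul_comm]
  exact mul_le_mul_of_nonneg_right (h1 _ _) (div_nonneg (mul_nonneg (hw' _)
    (mul_nonneg (hw' _) (hκ _ _ _))) (Vt_nonneg hw' _))

theorem wm_comm (P Q : Finset ℕ) (w w' : Finset ℕ → ℝ) : wm P Q w w' = wm Q P w' w :=
  funext fun _ => mul_comm _ _

/-- the bound survives the product with a normalised class -/
theorem Q2.ext (h1 : Q2 P w l0 C) (hC : 0 ≤ C) (h : Disjoint P Q) (hP : ∀ q ∈ P, q.Prime)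
    (hQ : ∀ q ∈ Q, q.Prime) (h2 : Nrm Q w') : Q2 (P ∪ Q) (wm P Q w w') l0 C := by
  intro u u'
  have k := h1.ker h hP hQ h2.1 (fun _ _ _ => 1) (fun _ _ _ => zero_le_one) u u'
  refine le_trans (Em_congr fun A _ => ?_).le (k.trans ?_)
  · simp only [dw, sum_mul_sum, mul_one]
    congr 1
    refine sum_congr rfl fun c _ => ?_
    rw [mul_sum]
    exact sum_congr rfl fun c' _ => by ring
  · refine mul_le_of_le_one_right hC ?_
    refine (Em_mono fun B _ => ?_).trans h2.mean.le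
    have e : ∑ x ∈ B.powerset, w' x * ∑ y ∈ B.powerset, w' y * 1 = Vt w' B * Vt w' B := by
      simp only [mul_one, ← sum_mul, Vt]
    rw [e, mul_self_div_self]

/-- first moment -/
theorem Q2.first (h1 : Q2 P w l0 (C ^ 2)) (hC : 0 < C) (h2 : Nrm P w) (u : ℝ) :
    Em P (dw w u l0) ≤ C := by
  have k : ∀ A ⊆ P, dw w u l0 A ≤
      C / 2 * Vt w A + 1 / (2 * C) * (dw w u l0 A * dw w u l0 A / Vt w A) := by
    intro A _
    have a := dw_nonneg h2.1 u l0 A
    have b := dw_le h2.1 u l0 A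
    rcases (Vt_nonneg h2.1 A).eq_or_lt with e | e
    · rw [← e] at b ⊢
      simpa using b
    · have : 0 ≤ (C * Vt w A - dw w u l0 A) ^ 2 / (2 * C * Vt w A) := by positivity
      have e2 : (C * Vt w A - dw w u l0 A) ^ 2 / (2 * C * Vt w A) = C / 2 * Vt w A +
          1 / (2 * C) * (dw w u l0 A * dw w u l0 A / Vt w A) - dw w u l0 A := by
        field_simp; ring
      linarith
  refine (Em_mono k).trans ?_
  rw [Em_add, Em_mul, Em_mul, h2.mean]
  have := mul_le_mul_of_nonneg_left (h1 u u) (by positivity : 0 ≤ 1 / (2 * C))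
  have e : 1 / (2 * C) * C ^ 2 = C / 2 := by field_simp
  linarith

/-! ### families of levels -/

/-- product of the weights of the levels in T -/
noncomputable def wU (P : ℕ → Finset ℕ) (w : ℕ → Finset ℕ → ℝ) (T : Finset ℕ) (c : Finset ℕ) : ℝ :=
  ∏ s ∈ T, w s (c ∩ P s)

variable {L : ℕ → Finset ℕ} {v : ℕ → Finset ℕ → ℝ} {T T' : Finset ℕ}

theorem inter_lev {s : ℕ} (hs : s ∈ T) (c : Finset ℕ) : c ∩ T.biUnion L ∩ L s = c ∩ L s := by
  rw [inter_assoc, inter_eq_right.2 (subset_biUnion_of_mem L hs)]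

theorem wU_inter (c : Finset ℕ) : wU L v T (c ∩ T.biUnion L) = wU L v T c :=
  prod_congr rfl fun _ hs => by rw [inter_lev hs]

theorem wU_union (h : Disjoint T T') :
    wU L v (T ∪ T') = wm (T.biUnion L) (T'.biUnion L) (wU L v T) (wU L v T') := by
  funext c
  rw [wm, wU_inter, wU_inter, wU, prod_union h]
  rfl

theorem wU_single (s : ℕ) {c : Finset ℕ} (hc : c ⊆ L s) : wU L v {s} c = v s c := by
  rw [wU, prod_singleton, inter_eq_left.2 hc]

theorem disj_lev (hL : ∀ s t, s ≠ t → Disjoint (L s) (L t)) (h : Disjoint T T') :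
    Disjoint (T.biUnion L) (T'.biUnion L) := by
  rw [disjoint_biUnion_left]
  intro s hs
  rw [disjoint_biUnion_right]
  intro t ht
  exact hL s t fun e => disjoint_left.1 h hs (e ▸ ht)

theorem Nrm.congr (h : Nrm P w) (h0 : ∀ c, 0 ≤ w' c) (e : ∀ c ⊆ P, w c = w' c) : Nrm P w' :=
  ⟨h0, by rw [← h.2]; exact sum_congr rfl fun c hc => by rw [e c (mem_powerset.1 hc)]⟩

theorem nrm_wU (hL : ∀ s t, s ≠ t → Disjoint (L s) (L t)) (hv : ∀ s ∈ T, Nrm (L s) (v s)) :
    Nrm (T.biUnion L) (wU L v T) := by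
  induction T using Finset.induction_on with
  | empty => exact ⟨fun _ => by simp [wU], by simp [wU, pv]⟩
  | insert s T hs ih =>
    have d : Disjoint {s} T := disjoint_singleton_left.2 hs
    rw [insert_eq, wU_union d, union_biUnion]
    have h1 := hv s (mem_insert_self _ _)
    refine Nrm.wm (disj_lev hL d) ?_ (ih fun t ht => hv t (mem_insert_of_mem ht))
    rw [singleton_biUnion]
    exact h1.congr (fun c => prod_nonneg fun t ht => by rw [mem_singleton.1 ht]; exact h1.1 _)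
      fun c hc => (wU_single s hc).symm

/-- marginal on a set of levels -/
theorem Et_wU_sub (hL : ∀ s t, s ≠ t → Disjoint (L s) (L t)) (hT : T' ⊆ T)
    (hv : ∀ s ∈ T, Nrm (L s) (v s)) (F : Finset ℕ → Finset ℕ → ℝ) :
    Et (T.biUnion L) (wU L v T) (fun c A => F (c ∩ T'.biUnion L) (A ∩ T'.biUnion L)) =
      Et (T'.biUnion L) (wU L v T') F := by
  have e : T = T' ∪ T \ T' := (union_sdiff_of_subset hT).symm
  have n := nrm_wU hL (T := T \ T') fun s hs => hv s (mem_sdiff.1 hs).1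
  rw [e, wU_union disjoint_sdiff, union_biUnion]
  exact Et_wm_left (disj_lev hL disjoint_sdiff) n F

/-- marginal on one level -/
theorem Et_wU_one (hL : ∀ s t, s ≠ t → Disjoint (L s) (L t)) {s : ℕ} (hs : s ∈ T)
    (hv : ∀ s ∈ T, Nrm (L s) (v s)) (F : Finset ℕ → Finset ℕ → ℝ) :
    Et (T.biUnion L) (wU L v T) (fun c A => F (c ∩ L s) (A ∩ L s)) = Et (L s) (v s) F := by
  have := Et_wU_sub hL (singleton_subset_iff.2 hs) hv F
  rw [singleton_biUnion] at this
  rw [this]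
  exact Et_congr_w fun c hc => wU_single s hc

theorem Vt_wU (hL : ∀ s t, s ≠ t → Disjoint (L s) (L t)) {A : Finset ℕ} (hA : A ⊆ T.biUnion L) :
    Vt (wU L v T) A = ∏ s ∈ T, Vt (v s) (A ∩ L s) := by
  induction T using Finset.induction_on generalizing A with
  | empty =>
    rw [subset_empty.1 (by simpa using hA : A ⊆ ∅)]
    simp [Vt, wU]
  | insert s T hs ih =>
    have d : Disjoint {s} T := disjoint_singleton_left.2 hs
    have e : A = A ∩ ({s} : Finset ℕ).biUnion L ∪ A ∩ T.biUnion L := by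
      rw [← inter_union_distrib_left, ← union_biUnion, ← insert_eq, inter_eq_left.2 hA]
    rw [prod_insert hs, insert_eq, wU_union d]
    conv_lhs => rw [e]
    rw [Vt_wm (disj_lev hL d) inter_subset_right inter_subset_right, ih inter_subset_right,
      singleton_biUnion]
    congr 1
    · exact sum_congr rfl fun c hc =>
        wU_single s ((mem_powerset.1 hc).trans inter_subset_right)
    · exact prod_congr rfl fun t ht => by rw [inter_lev ht]

end Pool.Agent.P.MP_a14ce1_nt.Fu
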