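import Pool.Agent.P.MP_a14ce1_nt.Fu.StB
import Pool.Agent.P.MP_a14ce1_nt.Fu.Qx

/-! The structural hypotheses on the levels of a family, without the parameters. -/

open Finset

namespace Pool.Agent.P.MP_a14ce1_nt.Fu.St

open Ch (pv mu rs lam)

/-- the structure of the levels -/
structure Lev (F : Fam) : Prop where
  pr : ∀ t ≤ F.m, ∀ q ∈ F.cl t, q.Prime
  dGR : ∀ t ≤ F.m, Disjoint (F.G t) (F.R t)
  dcl' : ∀ s ≤ F.m, ∀ t ≤ F.m, s ≠ t → Disjoint (F.cl s) (F.cl t)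
  rR : ∀ t ≤ F.m, F.r t ≤ (F.R t).card
  B1 : ∀ t, 1 ≤ F.B t

theorem Hyp0.lev {F : Fam} {P : Par} (h : Hyp0 F P) : Lev F :=
  ⟨fun t ht q hq => h.prLo q (F.cl_sub (Nat.zero_le t) (Nat.lt_succ_of_le ht) hq), h.dGR,
    fun _ hs _ ht => h.dcl hs ht, h.rR, h.B1⟩

/-- the order of the levels gives the disjointness -/
theorem Lev.of_tp {F : Fam} (tp : ℕ → ℕ) (pr : ∀ t ≤ F.m, ∀ q ∈ F.cl t, q.Prime)
    (dGR : ∀ t ≤ F.m, Disjoint (F.G t) (F.R t)) (tpm : Monotone tp)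
    (tple : ∀ t ≤ F.m, ∀ q ∈ F.cl t, q ≤ tp t) (tplt : ∀ t < F.m, ∀ q ∈ F.cl (t + 1), tp t < q)
    (rR : ∀ t ≤ F.m, F.r t ≤ (F.R t).card) (B1 : ∀ t, 1 ≤ F.B t) : Lev F := by
  refine ⟨pr, dGR, fun s hs t ht hst => ?_, rR, B1⟩
  wlog hlt : s < t generalizing s t
  · exact (this t ht s hs hst.symm (by omega)).symm
  obtain ⟨u, rfl⟩ : ∃ u, t = u + 1 := ⟨t - 1, by omega⟩
  refine disjoint_left.2 fun q h1 h2 => ?_
  have a := tple s hs q h1
  have b := tplt u (by omega) q h2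
  have c := tpm (show s ≤ u by omega)
  omega

namespace Lev

variable {F : Fam} (h : Lev F)
include h

theorem dcl {s t : ℕ} (hs : s ≤ F.m) (ht : t ≤ F.m) (hst : s ≠ t) :
    Disjoint (F.cl s) (F.cl t) := h.dcl' s hs t ht hst

theorem prLo : ∀ q ∈ F.Lo, q.Prime := fun q hq => by
  obtain ⟨t, ht, hq⟩ := mem_biUnion.1 hq
  exact h.pr t (by have := (mem_Ico.1 ht).2; omega) q hq

theorem ZG_one (t : ℕ) : 1 ≤ F.ZG t := by
  have := h.B1 t
  rw [← prod_const_one (s := F.G t)]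
  exact prod_le_prod (fun _ _ => zero_le_one) fun q _ => le_add_of_nonneg_right (by positivity)

theorem ZG_pos (t : ℕ) : 0 < F.ZG t := one_pos.trans_le (h.ZG_one t)

theorem ZR_pos {t : ℕ} (ht : t ≤ F.m) : 0 < F.ZR t := by
  refine sum_pos (fun Q hQ => ?_) (powersetCard_nonempty.2 (h.rR t ht))
  have : 0 < pv Q := Ch.Main.pv_pos fun q hq => h.prLo q (F.cl_sub (Nat.zero_le t)
    (Nat.lt_succ_of_le ht) (F.R_sub t ((mem_powersetCard.1 hQ).1 hq)))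
  positivity

theorem wG_pos (t : ℕ) (c : Finset ℕ) : 0 < F.wG t c :=
  div_pos (pow_pos (one_pos.trans_le (h.B1 t)) _) (h.ZG_pos t)

theorem VG_pos (t : ℕ) (c : Finset ℕ) : 0 < F.VG t c :=
  div_pos (pow_pos (by linarith [h.B1 t]) _) (h.ZG_pos t)

theorem wl_nonneg (t : ℕ) (c : Finset ℕ) : 0 ≤ F.wl t c :=
  mul_nonneg (h.wG_pos t c).le (F.wR_nonneg t c)

theorem Vl_nonneg (t : ℕ) (c : Finset ℕ) : 0 ≤ F.Vl t c :=
  mul_nonneg (h.VG_pos t c).le (F.VR_nonneg t c)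

theorem wh_nonneg (a b : ℕ) (c : Finset ℕ) : 0 ≤ F.wh a b c :=
  prod_nonneg fun t _ => h.wl_nonneg t c

theorem V_nonneg (a b : ℕ) (c : Finset ℕ) : 0 ≤ F.V a b c :=
  prod_nonneg fun t _ => h.Vl_nonneg t c

theorem w_nonneg (c : Finset ℕ) : 0 ≤ F.w c := h.wh_nonneg _ _ c

theorem dLv {a b c d : ℕ} (h1 : b ≤ c) (h2 : d ≤ F.m + 1) : Disjoint (F.Lv a b) (F.Lv c d) := by
  rw [Fam.Lv, Fam.Lv, disjoint_biUnion_left]
  intro s hs
  rw [disjoint_biUnion_right]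
  intro t ht
  rw [mem_Ico] at hs ht
  exact h.dcl (by omega) (by omega) (by omega)

theorem dLv_cl {a b : ℕ} (h2 : b ≤ F.m) : Disjoint (F.Lv a b) (F.cl b) :=
  (h.dLv le_rfl (Nat.succ_le_succ h2)).mono_right (F.cl_sub le_rfl b.lt_succ_self)

theorem nrm_wG (t : ℕ) : Nrm (F.G t) (F.wG t) := by
  refine ⟨fun c => (h.wG_pos t c).le, ?_⟩
  have e : F.ZG t = ∑ c ∈ (F.G t).powerset, ∏ q ∈ c, F.B t / q := by
    rw [Fam.ZG, ← prod_add_one]
    exact prod_congr rfl fun _ _ => add_comm _ _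
  rw [← div_self (h.ZG_pos t).ne']
  conv_rhs => enter [1]; rw [e]
  rw [sum_div]
  refine sum_congr rfl fun c hc => ?_
  rw [Fam.wG, inter_eq_left.2 (mem_powerset.1 hc), prod_div_distrib, prod_const, pv, Nat.cast_prod,
    div_right_comm]

theorem nrm_wR {t : ℕ} (ht : t ≤ F.m) : Nrm (F.R t) (F.wR t) := by
  refine ⟨F.wR_nonneg t, ?_⟩
  rw [← div_self (h.ZR_pos ht).ne']
  conv_rhs => enter [1]; rw [Fam.ZR, powersetCard_eq_filter, sum_filter]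
  rw [sum_div]
  refine sum_congr rfl fun c hc => ?_
  rw [Fam.wR, inter_eq_left.2 (mem_powerset.1 hc), div_right_comm]
  split_ifs <;> simp

theorem nrm_wl {t : ℕ} (ht : t ≤ F.m) : Nrm (F.cl t) (F.wl t) := by
  rw [Hyp0.wl_eq_wm]
  exact Nrm.wm (h.dGR t ht) (h.nrm_wG t) (h.nrm_wR ht)

theorem nrm_wh {a b : ℕ} (h1 : a ≤ b) (h2 : b ≤ F.m + 1) : Nrm (F.Lv a b) (F.wh a b) := by
  induction b, h1 using Nat.le_induction with
  | base => exact ⟨h.wh_nonneg a a, by simp [Fam.Lv, Fam.wh, pv]⟩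
  | succ b hab ih =>
    rw [F.Lv_succ hab, Hyp0.wh_succ_wm hab]
    exact Nrm.wm (h.dLv_cl (by omega)) (ih (by omega)) (h.nrm_wl (by omega))

theorem nrm_w : Nrm F.Lo F.w := h.nrm_wh (Nat.zero_le _) le_rfl

theorem Vt_wl {t : ℕ} (ht : t ≤ F.m) {A : Finset ℕ} (hA : A ⊆ F.cl t) :
    Vt (F.wl t) A = F.Vl t A := by
  have e : A = A ∩ F.G t ∪ A ∩ F.R t := by
    rw [← inter_union_distrib_left]; exact (inter_eq_left.2 hA).symm
  rw [Hyp0.wl_eq_wm]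
  conv_lhs => rw [e]
  rw [Vt_wm (h.dGR t ht) inter_subset_right inter_subset_right, F.Vt_wG inter_subset_right,
    F.Vt_wR inter_subset_right, F.VG_inter Subset.rfl, F.VR_inter Subset.rfl, Fam.Vl]

theorem Vt_wh {a b : ℕ} (h1 : a ≤ b) (h2 : b ≤ F.m + 1) {A : Finset ℕ} (hA : A ⊆ F.Lv a b) :
    Vt (F.wh a b) A = F.V a b A := by
  induction b, h1 using Nat.le_induction generalizing A with
  | base =>
    rw [F.Lv_self, subset_empty] at hA
    simp [hA, Vt, Fam.wh, Fam.V]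
  | succ b hab ih =>
    rw [F.Lv_succ hab] at hA
    have e : A = A ∩ F.Lv a b ∪ A ∩ F.cl b := by
      rw [← inter_union_distrib_left]; exact (inter_eq_left.2 hA).symm
    rw [Hyp0.wh_succ_wm hab]
    conv_lhs => rw [e]
    rw [Vt_wm (h.dLv_cl (by omega)) inter_subset_right inter_subset_right,
      ih (by omega) inter_subset_right, h.Vt_wl (by omega) inter_subset_right,
      F.V_inter Subset.rfl, F.Vl_inter Subset.rfl, F.V_succ hab]

theorem Vt_w {A : Finset ℕ} (hA : A ⊆ F.Lo) : Vt F.w A = F.V 0 (F.m + 1) A :=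
  h.Vt_wh (Nat.zero_le _) le_rfl hA

theorem Em_V {a b : ℕ} (h1 : a ≤ b) (h2 : b ≤ F.m + 1) : Em (F.Lv a b) (F.V a b) = 1 := by
  rw [← (h.nrm_wh h1 h2).mean]
  exact Em_congr fun A hA => (h.Vt_wh h1 h2 hA).symm

end Lev

end Pool.Agent.P.MP_a14ce1_nt.Fu.St
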