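import Pool.Agent.P.MP_a14ce1_nt.Fu.PaSt
import Pool.Agent.P.MP_a14ce1_nt.Fu.PnLv
import Pool.Agent.P.MP_a14ce1_nt.Fu.PL
import Pool.Agent.P.MP_a14ce1_nt.Fu.Tile

/-! Basic facts on the concrete families: scales, classes, masses. -/

open Finset

namespace Pool.Agent.P.MP_a14ce1_nt.Fu.Pa

open Ch (pv mu rs pr)
open St

theorem mem_pe {x y : ℝ} {p : ℕ} : p ∈ pe x y ↔ p.Prime ∧ x < Real.log p ∧ Real.log p ≤ y :=
  Tile.mem_ee

theorem rs_nonneg (S : Finset ℕ) : 0 ≤ rs S := sum_nonneg fun _ _ => by positivity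

theorem rs_mono {S T : Finset ℕ} (h : S ⊆ T) : rs S ≤ rs T :=
  sum_le_sum_of_subset_of_nonneg h fun _ _ _ => by positivity

theorem pe_mono {x y x' y' : ℝ} (hx : x' ≤ x) (hy : y ≤ y') : pe x y ⊆ pe x' y' := fun _ hp =>
  mem_pe.2 ⟨(mem_pe.1 hp).1, hx.trans_lt (mem_pe.1 hp).2.1, (mem_pe.1 hp).2.2.trans hy⟩

theorem pe_disjoint {x y x' y' : ℝ} (h : y ≤ x') : Disjoint (pe x y) (pe x' y') :=
  disjoint_left.2 fun _ a b => ((mem_pe.1 a).2.2.trans h).not_gt (mem_pe.1 b).2.1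

theorem exp_lt_of_mem_pe {x y : ℝ} {p : ℕ} (hp : p ∈ pe x y) : Real.exp x < p :=
  (Real.lt_log_iff_exp_lt (by exact_mod_cast (mem_pe.1 hp).1.pos)).1 (mem_pe.1 hp).2.1

theorem le_exp_of_mem_pe {x y : ℝ} {p : ℕ} (hp : p ∈ pe x y) : (p : ℝ) ≤ Real.exp y :=
  (Real.log_le_iff_le_exp (by exact_mod_cast (mem_pe.1 hp).1.pos)).1 (mem_pe.1 hp).2.2

theorem le_floor_exp {y : ℝ} {q : ℕ} (hq : 0 < q) : q ≤ ⌊Real.exp y⌋₊ ↔ Real.log q ≤ y := by
  rw [Nat.le_floor_iff (Real.exp_pos _).le, Real.log_le_iff_le_exp (by exact_mod_cast hq)]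

theorem floor_exp_lt {y : ℝ} {q : ℕ} (hq : 0 < q) : ⌊Real.exp y⌋₊ < q ↔ y < Real.log q := by
  rw [← not_le, le_floor_exp hq, not_le]

/-- a set of integers above `y` has at least `y` times its mass many members -/
theorem mul_rs_le_card {S : Finset ℕ} {y : ℝ} (hy : 0 < y) (h : ∀ p ∈ S, y ≤ p) :
    y * rs S ≤ S.card := by
  rw [rs, mul_sum, card_eq_sum_ones, Nat.cast_sum]
  refine sum_le_sum fun p hp => ?_
  rw [mul_one_div, Nat.cast_one, div_le_one (hy.trans_le (h p hp))]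
  exact h p hp

theorem mert : S_Mert := by
  obtain ⟨C1, a1, h1⟩ := Ch.m1
  obtain ⟨C2, a2, h2⟩ := Tile.window
  obtain ⟨C3, a3, h3⟩ := SB.mertens_window
  have k : ∀ x y : ℝ, 1 ≤ x → x ≤ y → |rs (pe x y) - Real.log (y / x)| ≤ C1 := fun x y a b => by
    simpa only [Real.log_exp, pe] using
      h1 _ _ (show 2 ≤ Real.exp x by linarith [Real.add_one_le_exp x]) (Real.exp_le_exp.2 b)
  refine ⟨C1 + C2 + C3, by linarith, fun x y a b => (k x y a b).trans (by linarith), fun y a => ?_,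
    fun x y a b => (h2 x y a b).trans (by linarith),
    fun S x s a b => (h3 S x s a b).trans (by linarith)⟩
  have b1 := abs_le.1 (k 1 y le_rfl a)
  have b2 := rs_mono (pe_mono zero_le_one (le_refl y))
  have b3 : pe 0 y ⊆ insert 2 (pe 1 y) := fun p hp => by
    rw [mem_pe] at hp
    rcases hp.1.two_le.eq_or_lt with e | e
    · exact mem_insert.2 (Or.inl e.symm)
    · refine mem_insert_of_mem (mem_pe.2 ⟨hp.1, ?_, hp.2.2⟩)
      have : (3 : ℝ) ≤ p := by exact_mod_cast e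
      rw [Real.lt_log_iff_exp_lt (by linarith)]
      linarith [Real.exp_one_lt_d9]
  have b4 : rs (insert 2 (pe 1 y)) ≤ 1 / 2 + rs (pe 1 y) := by
    by_cases e : 2 ∈ pe 1 y
    · rw [insert_eq_of_mem e]; linarith
    · rw [rs, sum_insert e]; exact le_of_eq (by norm_num [rs])
  rw [div_one] at b1
  rw [abs_le]
  constructor <;> linarith [rs_mono b3, b1.1, b1.2]

namespace Nu

variable (ν : Nu)

theorem G_zero : ν.G 0 = pe 0 ν.lG := rfl
theorem G_succ (t : ℕ) : ν.G (t + 1) = pe (ν.eL * ν.l t) (ν.l (t + 1)) := rfl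
theorem R_zero : ν.R 0 = ∅ := rfl
theorem R_pos {t : ℕ} (ht : 1 ≤ t) : ν.R t = pe (ν.l t) (ν.eL * ν.l t) := if_neg (by omega)
theorem B_zero : ν.B 0 = ν.B0 := rfl
theorem B_pos {t : ℕ} (ht : 1 ≤ t) : ν.B t = 3 := if_neg (by omega)

variable {ν}

theorem mem_G_zero {q : ℕ} : q ∈ ν.G 0 ↔ q.Prime ∧ Real.log q ≤ ν.lG := by
  rw [G_zero, mem_pe]
  exact and_congr_right fun hq => and_iff_right (Real.log_pos (by exact_mod_cast hq.one_lt))

theorem mem_G_succ {t q : ℕ} :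
    q ∈ ν.G (t + 1) ↔ q.Prime ∧ ν.eL * ν.l t < Real.log q ∧ Real.log q ≤ ν.l (t + 1) := mem_pe

theorem mem_R {t q : ℕ} :
    q ∈ ν.R t ↔ 1 ≤ t ∧ q.Prime ∧ ν.l t < Real.log q ∧ Real.log q ≤ ν.eL * ν.l t := by
  rcases Nat.eq_zero_or_pos t with rfl | ht
  · simp [R_zero]
  · rw [ν.R_pos ht, mem_pe]
    exact (and_iff_right ht).symm

theorem mem_RR {j q : ℕ} : q ∈ ν.RR j ↔
    q.Prime ∧ ν.LD - ν.b j < Real.log q ∧ Real.log q ≤ ν.LD - ν.b (j + 1) := mem_pe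

theorem G_prime {t q : ℕ} (hq : q ∈ ν.G t) : q.Prime := by
  rcases t with _ | t
  exacts [(mem_G_zero.1 hq).1, (mem_G_succ.1 hq).1]

theorem R_prime {t q : ℕ} (hq : q ∈ ν.R t) : q.Prime := (mem_R.1 hq).2.1

theorem RR_prime {j q : ℕ} (hq : q ∈ ν.RR j) : q.Prime := (mem_RR.1 hq).1

theorem dGR (t : ℕ) : Disjoint (ν.G t) (ν.R t) := by
  rcases t with _ | t
  · simp [R_zero]
  · exact disjoint_left.2 fun q a b => (mem_G_succ.1 a).2.2.not_gt (mem_R.1 b).2.2.1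

theorem exp_le_R {t q : ℕ} (hq : q ∈ ν.R t) : Real.exp (ν.l t) ≤ q :=
  ((Real.lt_log_iff_exp_lt (by exact_mod_cast (R_prime hq).pos)).1 (mem_R.1 hq).2.2.1).le

theorem ZR_eq (t : ℕ) : ν.pre.ZR t = PL.es (fun p : ℕ => 1 / (p : ℝ)) (ν.R t) (ν.r t) :=
  sum_congr rfl fun Q _ => by rw [pv, Nat.cast_prod, prod_div_distrib, prod_const_one]

end Nu

namespace NuOk

variable {ν : Nu} {C C2 : ℕ} (h : NuOk ν C C2)
include h

theorem A1 : 1 ≤ ν.A := h.mert.one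

theorem log_eL : ν.A + 2 ≤ Real.log ν.eL := by
  linarith [h.eLκ, Real.log_nonneg ((one_le_div h.κ0).2 (show ν.κ ≤ 1 by linarith [h.κ1]))]

theorem eL8 : 8 ≤ ν.eL := by
  have a := (Real.le_log_iff_exp_le (by linarith [h.eL1])).1
    (show ((3 : ℕ) : ℝ) * 1 ≤ Real.log ν.eL by push_cast; linarith [h.log_eL, h.A1])
  rw [Real.exp_nat_mul] at a
  refine le_trans ?_ a
  calc (8 : ℝ) = 2 ^ 3 := by norm_num
    _ ≤ _ := by gcongr; linarith [Real.exp_one_gt_d9]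

theorem l0 (t : ℕ) : 0 < ν.l t := by linarith [h.l1 t]

theorem l_le_top (t : ℕ) : ν.l t ≤ ν.eL * ν.l t := le_mul_of_one_le_left (h.l0 t).le h.eL1

theorem top8 (t : ℕ) : 8 ≤ ν.eL * ν.l t := by nlinarith [h.eL8, h.l1 t]

theorem top_le (t : ℕ) : ν.eL * ν.l t ≤ ν.l (t + 1) := by linarith [h.lst t, h.top8 t]

theorem four_l (t : ℕ) : 4 * ν.l t ≤ ν.l (t + 1) := by linarith [h.lst t, h.l_le_top t]

theorem l_mono : Monotone ν.l :=
  monotone_nat_of_le_succ fun t => (h.l_le_top t).trans (h.top_le t)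

theorem top_mono : Monotone fun t => ν.eL * ν.l t := fun _ _ a =>
  mul_le_mul_of_nonneg_left (h.l_mono a) (by linarith [h.eL1])

theorem top_le_of_lt {s t : ℕ} (a : s < t) : ν.eL * ν.l s ≤ ν.l t :=
  (h.top_le s).trans (h.l_mono a)

theorem lG8 : 8 ≤ ν.lG := h.top8 0

theorem W_anti {i j : ℕ} (a : i ≤ j) (b : j ≤ ν.S) : ν.W j ≤ ν.W i := by
  induction j, a using Nat.le_induction with
  | base => exact le_rfl
  | succ j _ ih => exact (h.Wlt j b).le.trans (ih (by omega))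

theorem W1 {j : ℕ} (hj : j < ν.S) : 1 ≤ ν.W j := by have := h.Wlt j hj; omega

theorem m_anti {i j : ℕ} (a : i ≤ j) (b : j ≤ ν.S) : ν.m j ≤ ν.m i := by
  have := h.W_anti a b
  unfold Nu.m
  omega

theorem m_le {j : ℕ} (hj : j ≤ ν.S) : ν.m j ≤ ν.m 0 := h.m_anti j.zero_le hj

theorem m4 {j : ℕ} (hj : j < ν.S) : 4 ≤ ν.m j := by
  have := h.W1 hj
  unfold Nu.m
  omega

theorem m_succ {j : ℕ} (hj : j < ν.S) : ν.m (j + 1) + 2 ≤ ν.m j := by
  have := h.Wlt j hj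
  unfold Nu.m
  omega

theorem m_S : ν.m ν.S = 2 := by rw [Nu.m, h.WS]

theorem b_S : ν.b ν.S = ν.l 3 := by rw [Nu.b, h.m_S]

theorem b_one (j : ℕ) : 1 ≤ ν.b j := h.l1 _

theorem b_anti {i j : ℕ} (a : i ≤ j) (b : j ≤ ν.S) : ν.b j ≤ ν.b i :=
  h.l_mono (Nat.succ_le_succ (h.m_anti a b))

theorem b_le {j : ℕ} (hj : j ≤ ν.S) : ν.b j ≤ ν.b 0 := h.b_anti j.zero_le hj

theorem l3_le_b {j : ℕ} (hj : j ≤ ν.S) : ν.l 3 ≤ ν.b j := h.b_S ▸ h.b_anti hj le_rfl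

/-- the scale of the next family lies well below the last level of the family `j` -/
theorem four_b_le_l {j : ℕ} (hj : j < ν.S) : 4 * ν.b (j + 1) ≤ ν.l (ν.m j) :=
  (h.four_l _).trans (h.l_mono (h.m_succ hj))

theorem four_b {j : ℕ} (hj : j < ν.S) : 4 * ν.b (j + 1) ≤ ν.b j :=
  (h.four_b_le_l hj).trans (h.l_mono (Nat.le_succ _))

theorem top_le_b (j : ℕ) : 4 * (ν.eL * ν.l (ν.m j)) ≤ ν.b j := h.lst _

theorem b_le_rho {j : ℕ} (hj : j < ν.S) : ν.b j ≤ ν.ρ * ν.l (ν.m j) :=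
  h.lup _ (by have := h.m4 hj; omega)

theorem LD_pos : 0 < ν.LD := by unfold Nu.LD; linarith [h.b_one 0]

theorem ten_b {j : ℕ} (hj : j ≤ ν.S) : 10 * ν.b j ≤ ν.LD := by
  unfold Nu.LD; linarith [h.b_le hj]

theorem RR_disjoint {i j : ℕ} (hi : i < ν.S) (hj : j < ν.S) (a : i ≠ j) :
    Disjoint (ν.RR i) (ν.RR j) := by
  rcases lt_or_gt_of_ne a with b | b
  · exact pe_disjoint (by linarith [h.b_anti (Nat.succ_le_of_lt b) hj.le])
  · exact (pe_disjoint (by linarith [h.b_anti (Nat.succ_le_of_lt b) hi.le])).symm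

theorem log_G {t q : ℕ} (hq : q ∈ ν.G t) : Real.log q ≤ ν.eL * ν.l t := by
  rcases t with _ | t
  exacts [(Nu.mem_G_zero.1 hq).2, (Nu.mem_G_succ.1 hq).2.2.trans (h.l_le_top _)]

theorem log_cl {t q : ℕ} (hq : q ∈ ν.G t ∪ ν.R t) : q.Prime ∧ Real.log q ≤ ν.eL * ν.l t := by
  rcases mem_union.1 hq with a | a
  exacts [⟨Nu.G_prime a, h.log_G a⟩, ⟨Nu.R_prime a, (Nu.mem_R.1 a).2.2.2⟩]

theorem lt_log_cl {t q : ℕ} (hq : q ∈ ν.G (t + 1) ∪ ν.R (t + 1)) :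
    ν.eL * ν.l t < Real.log q := by
  rcases mem_union.1 hq with a | a
  exacts [(Nu.mem_G_succ.1 a).2.1, (h.top_le t).trans_lt (Nu.mem_R.1 a).2.2.1]

theorem tp_mono : Monotone fun t => ⌊Real.exp (ν.eL * ν.l t)⌋₊ := fun _ _ a =>
  Nat.floor_mono (Real.exp_le_exp.2 (h.top_mono a))

theorem le_tp {t q : ℕ} (hq : q ∈ ν.G t ∪ ν.R t) : q ≤ ⌊Real.exp (ν.eL * ν.l t)⌋₊ :=
  (le_floor_exp (h.log_cl hq).1.pos).2 (h.log_cl hq).2

theorem tp_lt {t q : ℕ} (hq : q ∈ ν.G (t + 1) ∪ ν.R (t + 1)) : ⌊Real.exp (ν.eL * ν.l t)⌋₊ < q :=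
  (floor_exp_lt (h.log_cl hq).1.pos).2 (h.lt_log_cl hq)

theorem rs_G0 : |rs (ν.G 0) - Real.log ν.lG| ≤ ν.A := h.mert.m0 _ (by linarith [h.lG8])

theorem rs_Gs (t : ℕ) :
    |rs (ν.G (t + 1)) - Real.log (ν.l (t + 1) / (ν.eL * ν.l t))| ≤ ν.A :=
  h.mert.m1 (ν.eL * ν.l t) _ (by linarith [h.top8 t]) (h.top_le t)

theorem rs_G (t : ℕ) : rs (ν.G t) ≤ ν.g t := by
  rcases t with _ | t
  · linarith [(abs_le.1 h.rs_G0).2, h.g0]
  · linarith [(abs_le.1 (h.rs_Gs t)).2, h.g1 t]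

theorem g_nonneg (t : ℕ) : 0 ≤ ν.g t := (rs_nonneg _).trans (h.rs_G t)

theorem g_one (t : ℕ) : 1 ≤ ν.g t := by
  rcases t with _ | t
  · linarith [h.g0, h.A1, Real.log_nonneg (show 1 ≤ ν.lG by linarith [h.lG8])]
  · linarith [h.g1 t, h.A1,
      Real.log_nonneg ((one_le_div (by linarith [h.top8 t])).2 (h.top_le t))]

theorem abs_rs_R {t : ℕ} (ht : 1 ≤ t) : |rs (ν.R t) - Real.log ν.eL| ≤ ν.A := by
  have b := h.mert.m1 _ _ (h.l1 t) (h.l_le_top t)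
  rwa [mul_div_cancel_right₀ _ (h.l0 t).ne', ← ν.R_pos ht] at b

theorem le_rs_R {t : ℕ} (ht : 1 ≤ t) : Real.log ν.eL - ν.A ≤ rs (ν.R t) := by
  linarith [(abs_le.1 (h.abs_rs_R ht)).1]

theorem two_le_rs_R {t : ℕ} (ht : 1 ≤ t) : 2 ≤ rs (ν.R t) := by
  linarith [h.le_rs_R ht, h.log_eL]

theorem L4 : 4 ≤ ν.L := by unfold Nu.L; linarith [h.log_eL, h.A1]

theorem rs_R (t : ℕ) : rs (ν.R t) ≤ ν.L := by
  rcases Nat.eq_zero_or_pos t with rfl | ht
  · simpa [Nu.R_zero, rs] using le_trans (by norm_num) h.L4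
  · unfold Nu.L; linarith [(abs_le.1 (h.abs_rs_R ht)).2]

theorem card_R2 {t : ℕ} (ht : 1 ≤ t) : 2 * Real.exp (ν.l t) ≤ (ν.R t).card := by
  refine le_trans ?_ (mul_rs_le_card (Real.exp_pos _) fun q hq => Nu.exp_le_R hq)
  nlinarith [h.two_le_rs_R ht, Real.exp_pos (ν.l t)]

theorem card_R {t : ℕ} (ht : 1 ≤ t) : Real.exp (ν.l t) ≤ (ν.R t).card := by
  linarith [h.card_R2 ht, Real.exp_pos (ν.l t)]

theorem r_le_card (t : ℕ) : ν.r t ≤ (ν.R t).card := by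
  rcases Nat.eq_zero_or_pos t with rfl | ht
  · rw [h.r0]; exact Nat.zero_le _
  · exact_mod_cast (h.rl t).trans (h.card_R ht)

theorem lg_G0 : ∑ q ∈ ν.G 0, Real.log q / q ≤ ν.lG + ν.A := by
  rw [ν.G_zero]
  linarith [(abs_le.1 (h.mert.m2 0 ν.lG le_rfl (by linarith [h.lG8]))).2]

theorem lg_G {t : ℕ} (ht : 1 ≤ t) : ∑ q ∈ ν.G t, Real.log q / q ≤ ν.l t + ν.A := by
  obtain ⟨t, rfl⟩ : ∃ s, t = s + 1 := ⟨t - 1, by omega⟩
  rw [ν.G_succ]
  linarith [(abs_le.1 (h.mert.m2 _ _ (by linarith [h.top8 t]) (h.top_le t))).2, h.top8 t]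

/-- all the weighted classes of the levels `1 .. t` together -/
theorem lg_Gs (t : ℕ) : ∑ q ∈ (Icc 1 t).biUnion ν.G, Real.log q / q ≤ ν.l t + ν.A := by
  refine h.mert.mw _ 0 _ (h.l0 t).le fun q hq => ?_
  obtain ⟨u, hu, k⟩ := mem_biUnion.1 hq
  obtain ⟨u, rfl⟩ : ∃ s, u = s + 1 := ⟨u - 1, by have := (mem_Icc.1 hu).1; omega⟩
  exact ⟨Nu.G_prime k, Real.log_natCast_nonneg q,
    by linarith [(Nu.mem_G_succ.1 k).2.2, h.l_mono (mem_Icc.1 hu).2]⟩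

theorem B_one (t : ℕ) : 1 ≤ ν.B t := by
  unfold Nu.B
  split_ifs
  exacts [h.B1, by norm_num]

theorem lev_pre : Lev ν.pre := Lev.of_tp _ (fun _ _ _ hq => (h.log_cl hq).1)
  (fun t _ => Nu.dGR t) h.tp_mono (fun _ _ _ hq => h.le_tp hq) (fun _ _ _ hq => h.tp_lt hq)
  (fun t _ => h.r_le_card t) h.B_one

theorem lev (j : ℕ) : Lev (ν.fam j) := Lev.of_tp _ (fun _ _ _ hq => (h.log_cl hq).1)
  (fun t _ => Nu.dGR t) h.tp_mono (fun _ _ _ hq => h.le_tp hq) (fun _ _ _ hq => h.tp_lt hq)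
  (fun t _ => h.r_le_card t) h.B_one

theorem one_le_ZR (t : ℕ) : 1 ≤ ((ν.r t).factorial : ℝ) * ν.pre.ZR t := by
  rcases Nat.eq_zero_or_pos t with rfl | ht
  · simp [Nu.ZR_eq, h.r0, PL.es]
  · have e := Real.exp_pos (ν.l t)
    have := PL.le_es (κ := fun p : ℕ => 1 / (p : ℝ)) (G := ν.R t) (m := 1 / Real.exp (ν.l t))
      (fun p hp => ⟨by positivity, one_div_le_one_div_of_le e (Nu.exp_le_R hp)⟩) (by positivity)
      (ν.r t) zero_le_one (by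
        have a : (ν.r t : ℝ) * (1 / Real.exp (ν.l t)) ≤ 1 := by
          rw [mul_one_div, div_le_one e]; exact h.rl t
        exact le_trans (by linarith) (h.two_le_rs_R ht))
    rwa [one_pow, ← Nu.ZR_eq] at this

theorem inv_le_ZR (t : ℕ) : 1 / ((ν.r t).factorial : ℝ) ≤ ν.pre.ZR t := by
  rw [div_le_iff₀' (by positivity)]
  exact h.one_le_ZR t

theorem ZR_pos (t : ℕ) : 0 < ν.pre.ZR t := lt_of_lt_of_le (by positivity) (h.inv_le_ZR t)

theorem ZR_le (t : ℕ) : ((ν.r t).factorial : ℝ) * ν.pre.ZR t ≤ ν.L ^ ν.r t := by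
  rw [Nu.ZR_eq]
  exact (PL.es_le (fun p _ => by positivity) _).trans
    (pow_le_pow_left₀ (rs_nonneg _) (h.rs_R t) _)

theorem one_le_ZG (t : ℕ) : 1 ≤ ν.pre.ZG t :=
  one_le_prod (fun q _ => le_add_of_nonneg_right (div_nonneg (zero_le_one.trans (h.B_one t))
    (Nat.cast_nonneg q)))

theorem ZG_le (t : ℕ) : ν.pre.ZG t ≤ Real.exp (ν.B t * ν.g t) := by
  have b := zero_le_one.trans (h.B_one t)
  refine le_trans ?_ (Real.exp_le_exp.2 (mul_le_mul_of_nonneg_left (h.rs_G t) b))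
  rw [rs, mul_sum, Real.exp_sum]
  refine prod_le_prod (fun q _ => add_nonneg zero_le_one (div_nonneg b (Nat.cast_nonneg q)))
    fun q _ => ?_
  rw [mul_one_div, add_comm]
  exact Real.add_one_le_exp _

/-- the members of the weighted classes of the levels `1 .. t` have density `3 / 4` -/
theorem dens {t : ℕ} (ht : 1 ≤ t) {s : ℝ} (s1 : 1 ≤ s) (s2 : s ≤ ν.l t) :
    3 / 4 * Real.log (ν.l t / s) - ν.A ≤
      rs (((Icc 1 t).biUnion ν.G).filter fun p : ℕ => s < Real.log p) := by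
  have up : ∀ u, ν.eL * ν.l u ≤ s → s ≤ ν.l (u + 1) → 3 / 4 * Real.log (ν.l (u + 1) / s) - ν.A ≤
      rs (((Icc 1 (u + 1)).biUnion ν.G).filter fun p : ℕ => s < Real.log p) := by
    intro u a b
    have c := Real.log_nonneg ((one_le_div (by linarith)).2 b)
    refine le_trans (by linarith [(abs_le.1 (h.mert.m1 _ _ s1 b)).1]) (rs_mono
      (S := pe s (ν.l (u + 1))) fun q hq => ?_)
    rw [mem_pe] at hq
    exact mem_filter.2 ⟨mem_biUnion.2 ⟨u + 1, mem_Icc.2 ⟨by omega, le_rfl⟩,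
      Nu.mem_G_succ.2 ⟨hq.1, a.trans_lt hq.2.1, hq.2.2⟩⟩, hq.2.1⟩
  have s0 : 0 < s := by linarith
  induction t, ht using Nat.le_induction with
  | base =>
    rcases le_total (ν.eL * ν.l 0) s with a | a
    · exact up 0 a s2
    · have b := (abs_le.1 (h.rs_Gs 0)).1
      have c := h.d0
      rw [Real.log_div (h.l0 _).ne' (by linarith)] at b
      rw [Real.log_div (h.l0 _).ne' s0.ne']
      refine le_trans (by unfold Nu.lG at c; linarith [Real.log_nonneg s1, h.A1])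
        (rs_mono (S := ν.G (0 + 1)) fun q hq => ?_)
      exact mem_filter.2 ⟨mem_biUnion.2 ⟨1, by simp, hq⟩, a.trans_lt (Nu.mem_G_succ.1 hq).2.1⟩
  | succ t ht ih =>
    rcases le_total (ν.eL * ν.l t) s with a | a
    · exact up t a s2
    · have b := (abs_le.1 (h.rs_Gs t)).1
      have l0 := h.l0 t
      have e0 : 0 < ν.eL := by linarith [h.eL1]
      have c := h.d1 t
      rw [Real.log_div (h.l0 _).ne' l0.ne'] at c
      rw [Real.log_div (h.l0 _).ne' (by positivity), Real.log_mul e0.ne' l0.ne'] at b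
      have d : 3 / 4 * (Real.log (ν.l t) - Real.log s) - ν.A ≤
          rs (((Icc 1 t).biUnion ν.G).filter fun p : ℕ => s < Real.log p) := by
        rcases le_total s (ν.l t) with k | k
        · simpa only [Real.log_div l0.ne' s0.ne'] using ih k
        · linarith [Real.log_le_log l0 k, h.A1,
            rs_nonneg (((Icc 1 t).biUnion ν.G).filter fun p : ℕ => s < Real.log p)]
      have dj : Disjoint (((Icc 1 t).biUnion ν.G).filter fun p : ℕ => s < Real.log p)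
          (ν.G (t + 1)) := disjoint_left.2 fun q k1 k2 => by
        obtain ⟨u, hu, k3⟩ := mem_biUnion.1 (mem_filter.1 k1).1
        exact ((h.log_G k3).trans (h.top_mono (mem_Icc.1 hu).2)).not_gt (Nu.mem_G_succ.1 k2).2.1
      rw [Real.log_div (h.l0 _).ne' s0.ne']
      refine le_trans ?_ (rs_mono (S := _ ∪ ν.G (t + 1)) (union_subset
        (filter_subset_filter _ (biUnion_subset_biUnion_of_subset_left _
          (Icc_subset_Icc_right t.le_succ))) fun q hq => ?_))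
      · rw [rs, sum_union dj, ← rs, ← rs]
        linarith
      · exact mem_filter.2 ⟨mem_biUnion.2 ⟨t + 1, by simp, hq⟩,
          a.trans_lt (Nu.mem_G_succ.1 hq).2.1⟩

theorem nine_le {t q : ℕ} (hq : q ∈ ν.G (t + 1)) : (9 : ℝ) ≤ q := by
  rw [ν.G_succ] at hq
  linarith [exp_lt_of_mem_pe hq, Real.add_one_le_exp (ν.eL * ν.l t), h.top8 t]

/-- the population of the levels `1 .. t` -/
theorem pop {t : ℕ} (ht : 1 ≤ t) :
    SB.Pop 3 ν.A 1 (ν.l t) ((Icc 1 t).biUnion ν.G) fun _ => 3 := by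
  refine SB.Pop.of_rs (by norm_num) (by linarith [h.A1]) le_rfl (h.l1 t) (fun q hq => ?_)
    (fun _ _ => le_rfl) (fun q hq => ?_) (fun _ _ => Or.inl le_rfl) fun s a b => h.dens ht a b
  · obtain ⟨u, -, k⟩ := mem_biUnion.1 hq
    exact Nu.G_prime k
  · obtain ⟨u, hu, k⟩ := mem_biUnion.1 hq
    obtain ⟨u, rfl⟩ : ∃ s, u = s + 1 := ⟨u - 1, by have := (mem_Icc.1 hu).1; omega⟩
    linarith [h.nine_le k]

end NuOk

end Pool.Agent.P.MP_a14ce1_nt.Fu.Pa
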