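import Pool.Agent.P.MP_a14ce1_nt.Fu.PaB

/-! Section 1: from the numbers and the chain to the statement of the block. -/

open Finset

namespace Pool.Agent.P.MP_a14ce1_nt.Fu.Pa

open St

theorem chain_mono {k C C' C2 S : ℕ} {ε η Cw Λ : ℝ} {T : Finset ℕ} {F : ℕ → Fam} {P : ℕ → Par}
    (h : Chain k C C2 S ε η Cw Λ T F P) (hC : C' ≤ C) : Chain k C' C2 S ε η Cw Λ T F P := by
  refine ⟨h.S0, fun j hj => ⟨(h.hyp j hj).1.mono hC, (h.hyp j hj).2⟩, h.com, h.sub, h.nxt, h.dz,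
    fun j hj => le_trans (sum_le_sum fun i hi => ?_) (h.sin j hj), h.big⟩
  have hi' : i < S := (mem_range.1 hi).trans hj
  have a : 0 ≤ top (F i) (P i) := (h.hyp i hi').1.σn _ _
  have b : 0 < η := (h.com i hi').2.2.2.2.1 ▸ (h.hyp i hi').1.η0
  have c : (C' : ℝ) ≤ C := by exact_mod_cast hC
  gcongr

theorem par_of (hN : S_Num) (hC : S_Chain) : S_PAR := by
  intro k C ε η k2 e0 e1 η0 η1
  obtain ⟨Cw, h⟩ := hN k (C + 1) ε η k2 (by omega) e0 e1 η0 η1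
  refine ⟨Cw, fun C2 => ?_⟩
  obtain ⟨K, Λ, y, K0, Λ1, y0, hK, h⟩ := h C2
  refine ⟨K, Λ, fun i => pe (y * Λ ^ i) (Λ * (y * Λ ^ i)), K0,
    le_trans (pow_le_pow_right₀ Λ1 (Nat.mul_le_mul_right _ (by omega))) hK,
    fun i q hq => (mem_pe.1 hq).1, fun i j hij => ?_, fun i hi => ?_⟩
  · wlog hlt : i < j generalizing i j
    · exact (this j i hij.symm (by omega)).symm
    refine disjoint_left.2 fun q h1 h2 => ?_
    have a := (mem_pe.1 h1).2.2
    have b := (mem_pe.1 h2).2.1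
    have c : Λ ^ (i + 1) ≤ Λ ^ j := pow_le_pow_right₀ Λ1 hlt
    have d := mul_le_mul_of_nonneg_left c y0
    rw [pow_succ] at d
    linarith
  · obtain ⟨ν, hν, rfl, rfl, rfl, rfl, rfl, e⟩ := h i hi
    refine ⟨ν.S, ν.fam, ν.par (C + 1), ?_⟩
    have := chain_mono (hC ν (C + 1) C2 hν) (Nat.le_succ C)
    rwa [e] at this

end Pool.Agent.P.MP_a14ce1_nt.Fu.Pa
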