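import Pool.Agent.P.MP_a14ce1_nt.Fu.PnLv

/-! The size of a random cofactor. -/

open Finset

namespace Pool.Agent.P.MP_a14ce1_nt.Fu.St

open Ch (pv rs)

variable {F : Fam}

namespace Lev

theorem pw_insert (h : Lev F) {t q : ℕ} (ht : t ≤ F.m) (hq : q ∈ F.G t) {c : Finset ℕ}
    (hc : q ∉ c) : F.w (insert q c) = F.B t * F.w c := by
  have hm : t ∈ Ico 0 (F.m + 1) := mem_Ico.2 ⟨Nat.zero_le _, Nat.lt_succ_of_le ht⟩
  unfold Fam.w Fam.wh
  rw [← mul_prod_erase _ _ hm, ← mul_prod_erase _ _ hm, ← mul_assoc]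
  congr 1
  · unfold Fam.wl Fam.wG Fam.wR
    rw [insert_inter_of_mem hq, insert_inter_of_notMem (disjoint_left.1 (h.dGR t ht) hq),
      card_insert_of_notMem fun e => hc (mem_inter.1 e).1, pow_succ]
    ring
  · refine prod_congr rfl fun s hs => ?_
    have h1 := mem_erase.1 hs
    have h2 : q ∉ F.cl s := disjoint_left.1
      (h.dcl ht (Nat.lt_succ_iff.1 (mem_Ico.1 h1.2).2) h1.1.symm) (mem_union_left _ hq)
    unfold Fam.wl Fam.wG Fam.wR
    rw [insert_inter_of_notMem fun e => h2 (mem_union_left _ e),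
      insert_inter_of_notMem fun e => h2 (mem_union_right _ e)]

theorem pw_marg (h : Lev F) {t q : ℕ} (ht : t ≤ F.m) (hq : q ∈ F.G t) :
    ∑ c ∈ F.Lo.powerset, (if q ∈ c then F.w c / pv c else 0) ≤ F.B t / q := by
  have hL : q ∈ F.Lo := F.cl_sub (Nat.zero_le t) (Nat.lt_succ_of_le ht) (mem_union_left _ hq)
  have h1 := h.nrm_w.2
  have hB : 0 ≤ F.B t / q := div_nonneg (zero_le_one.trans (h.B1 t)) (Nat.cast_nonneg _)
  rw [← insert_erase hL, sum_powerset_insert (notMem_erase _ _)]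
  rw [sum_eq_zero fun c hc => if_neg fun e => notMem_erase _ _ (mem_powerset.1 hc e), zero_add]
  calc _ = ∑ c ∈ (F.Lo.erase q).powerset, F.B t / q * (F.w c / pv c) := sum_congr rfl fun c hc => by
        have h2 : q ∉ c := fun e => notMem_erase _ _ (mem_powerset.1 hc e)
        rw [if_pos (mem_insert_self _ _), h.pw_insert ht hq h2, pv, prod_insert h2]
        push_cast
        rw [mul_div_mul_comm, pv, Nat.cast_prod]
    _ ≤ F.B t / q * 1 := by
        rw [← mul_sum, ← h1]
        exact mul_le_mul_of_nonneg_left (sum_le_sum_of_subset_of_nonneg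
          (powerset_mono.2 (erase_subset _ _)) fun c _ _ =>
            div_nonneg (h.w_nonneg c) (Nat.cast_nonneg _)) hB
    _ = _ := mul_one _

theorem pw_card {c : Finset ℕ} (hc : F.w c ≠ 0) {t : ℕ} (ht : t ≤ F.m) :
    (c ∩ F.R t).card = F.r t := by
  unfold Fam.w Fam.wh at hc
  have := prod_ne_zero_iff.1 hc t (mem_Ico.2 ⟨Nat.zero_le _, Nat.lt_succ_of_le ht⟩)
  by_contra e
  simp [Fam.wl, Fam.wR, e] at this

/-- the part of the logarithm of c that comes from the classes G -/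
noncomputable def gl' (F : Fam) (c : Finset ℕ) : ℝ :=
  ∑ t ∈ range (F.m + 1), ∑ q ∈ F.G t, if q ∈ c then Real.log q else 0

theorem pw_log (h : Lev F) {c : Finset ℕ} (hc : c ⊆ F.Lo) :
    Real.log (pv c) = ∑ q ∈ c, Real.log q := by
  rw [pv, Nat.cast_prod, Real.log_prod fun q hq => by exact_mod_cast (h.prLo q (hc hq)).ne_zero]

theorem pw_up (h : Lev F) {c : Finset ℕ} (hc : c ⊆ F.Lo) (h0 : F.w c ≠ 0) (y : ℕ → ℝ)
    (hy : ∀ t ≤ F.m, ∀ q ∈ F.R t, Real.log q ≤ y t) :
    Real.log (pv c) ≤ gl' F c + ∑ t ∈ range (F.m + 1), F.r t * y t := by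
  rw [h.pw_log hc, gl', ← sum_add_distrib]
  calc _ ≤ ∑ q ∈ c, ∑ t ∈ range (F.m + 1), ((if q ∈ F.G t then Real.log q else 0) +
        if q ∈ F.R t then Real.log q else 0) := sum_le_sum fun q hq => by
        obtain ⟨t, ht, hq⟩ := mem_biUnion.1 (hc hq)
        have h1 := Real.log_natCast_nonneg q
        refine le_trans ?_ (single_le_sum (a := t) (fun s _ => by
          split_ifs <;> linarith) (mem_range.2 (mem_Ico.1 ht).2))
        rcases mem_union.1 hq with e | e
        · rw [if_pos e]; split_ifs <;> linarith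
        · rw [if_pos e]; split_ifs <;> linarith
    _ ≤ _ := by
        rw [sum_comm]
        refine sum_le_sum fun t ht => ?_
        have ht' := Nat.lt_succ_iff.1 (mem_range.1 ht)
        rw [sum_add_distrib, sum_ite_mem, sum_ite_mem, sum_ite_mem, inter_comm c (F.G t),
          ← pw_card h0 ht']
        refine add_le_add le_rfl ?_
        simpa using sum_le_card_nsmul _ _ _ fun q hq => hy t ht' q (mem_inter.1 hq).2

theorem pw_low (h : Lev F) {c : Finset ℕ} (hc : c ⊆ F.Lo) (h0 : F.w c ≠ 0) {y : ℝ}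
    (hy : ∀ q ∈ F.R F.m, y ≤ Real.log q) : F.r F.m * y ≤ Real.log (pv c) := by
  rw [h.pw_log hc, ← pw_card h0 le_rfl]
  refine le_trans ?_ (sum_le_sum_of_subset_of_nonneg (inter_subset_left (s₂ := F.R F.m))
    fun q _ _ => Real.log_natCast_nonneg q)
  simpa using card_nsmul_le_sum _ _ _ fun q hq => hy q (mem_inter.1 hq).2

theorem pw_mean (h : Lev F) : ∑ c ∈ F.Lo.powerset, F.w c / pv c * gl' F c ≤
    ∑ t ∈ range (F.m + 1), F.B t * ∑ q ∈ F.G t, Real.log q / q := by
  simp only [gl', mul_sum]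
  rw [sum_comm]
  refine sum_le_sum fun t ht => ?_
  rw [sum_comm]
  refine sum_le_sum fun q hq => ?_
  have h1 := mul_le_mul_of_nonneg_right (h.pw_marg (Nat.lt_succ_iff.1 (mem_range.1 ht)) hq)
    (Real.log_natCast_nonneg q)
  rw [sum_mul] at h1
  refine le_trans (le_of_eq (sum_congr rfl fun c _ => ?_)) (h1.trans (le_of_eq (by ring)))
  split_ifs <;> simp

/-- a lower bound for the mean of a function that is large on the cofactors with small G part -/
theorem pw_good (h : Lev F) {a x v : ℝ} (hx : 0 < x) (hv : 0 ≤ v)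
    (ha : ∑ t ∈ range (F.m + 1), F.B t * ∑ q ∈ F.G t, Real.log q / q ≤ a * x)
    (φ : Finset ℕ → ℝ) (h0 : ∀ c, 0 ≤ φ c)
    (h1 : ∀ c ⊆ F.Lo, F.w c ≠ 0 → gl' F c ≤ x → v ≤ φ c) :
    (1 - a) * v ≤ ∑ c ∈ F.Lo.powerset, F.w c / pv c * φ c := by
  have h2 := h.pw_mean.trans ha
  have h3 := h.nrm_w.2
  calc (1 - a) * v = v * 1 - v / x * (a * x) := by field_simp
    _ ≤ v * ∑ c ∈ F.Lo.powerset, F.w c / pv c -
        v / x * ∑ c ∈ F.Lo.powerset, F.w c / pv c * gl' F c := by rw [h3]; gcongr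
    _ ≤ _ := by
      rw [mul_sum, mul_sum, ← sum_sub_distrib]
      refine sum_le_sum fun c hc => ?_
      by_cases e : F.w c = 0
      · simp [e]
      have h4 : 0 ≤ F.w c / pv c := div_nonneg (h.w_nonneg c) (Nat.cast_nonneg _)
      have h5 : v - v / x * gl' F c ≤ φ c := by
        have g0 : 0 ≤ gl' F c := sum_nonneg fun _ _ => sum_nonneg fun q _ => by
          split_ifs
          · exact Real.log_natCast_nonneg q
          · rfl
        by_cases e2 : gl' F c ≤ x
        · have := h1 c (mem_powerset.1 hc) e e2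
          have : 0 ≤ v / x * gl' F c := by positivity
          linarith
        · have : v / x * x ≤ v / x * gl' F c := by gcongr; exact (not_le.1 e2).le
          rw [div_mul_cancel₀ _ hx.ne'] at this
          linarith [h0 c]
      nlinarith [mul_le_mul_of_nonneg_left h5 h4]

end Lev

end Pool.Agent.P.MP_a14ce1_nt.Fu.St
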