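import Pool.Agent.P.MP_a14ce1_nt.Fu.Pnt

/-! The mass of the primes in one short window, with sharp constants. -/

open Finset Filter Topology

namespace Pool.Agent.P.MP_a14ce1_nt.Fu

open Ch (rs pr)

theorem short_sharp {ε θ : ℝ} (h0 : 0 < ε) (h1 : ε ≤ 1) (t0 : 0 < θ) (t1 : θ ≤ 1) :
    ∃ x0 : ℝ, 2 ≤ x0 ∧ ∀ x, x0 ≤ x → ∀ P : Finset ℕ,
    ((∀ p : ℕ, p.Prime → x < p → p < (1 + ε) * x → p ∈ P) →
      (1 - θ) * ε / ((1 + ε) * Real.log x) ≤ rs P) ∧
    ((∀ p ∈ P, p.Prime ∧ x ≤ p ∧ p ≤ (1 + ε) * x) → rs P ≤ (1 + θ) * ε / Real.log x) := by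
  obtain ⟨x1, hx1⟩ := eventually_atTop.1 (theta_near (show 0 < θ * ε / 12 by positivity))
  refine ⟨max (2 * x1) (max 2 (Real.exp (2 / θ))), le_max_of_le_right (le_max_left _ _),
    fun x hx P => ?_⟩
  have a1 : 2 * x1 ≤ x := (le_max_left _ _).trans hx
  have a2 : 2 ≤ x := ((le_max_left _ _).trans (le_max_right _ _)).trans hx
  have a3 : Real.exp (2 / θ) ≤ x := ((le_max_right _ _).trans (le_max_right _ _)).trans hx
  have hx0 : 0 < x := by linarith
  have hl : 0 < Real.log x := Real.log_pos (by linarith)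
  have hεx : 0 < ε * x := by positivity
  have hεx1 : ε * x ≤ x := by nlinarith
  have hs : 0 < θ * (ε * x) := by positivity
  have hs1 : θ * (ε * x) ≤ ε * x := by nlinarith
  refine ⟨fun hP => ?_, fun hP => ?_⟩
  · have b1 := abs_le.1 (hx1 x (by linarith))
    have b2 := abs_le.1 (hx1 (x + ε * x - θ * (ε * x) / 4) (by linarith))
    have b3 := sum_log_pr (show x ≤ x + ε * x - θ * (ε * x) / 4 by linarith)
    have b4 : 2 ≤ Real.log x * θ := by
      rwa [← div_le_iff₀ t0, Real.le_log_iff_exp_le hx0]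
    have b5 : pr x (x + ε * x - θ * (ε * x) / 4) ⊆ P := fun p hp => by
      rw [mem_pr' hx0.le (by linarith)] at hp
      exact hP p hp.1 hp.2.1 (by linarith [hp.2.2])
    have b6 : θ * ε / 12 * (x + ε * x - θ * (ε * x) / 4) ≤ θ * ε / 12 * (2 * x) := by
      gcongr
      linarith
    refine le_trans ?_ (sum_le_sum_of_subset_of_nonneg b5 fun _ _ _ => by positivity)
    calc (1 - θ) * ε / ((1 + ε) * Real.log x)
        = (1 - θ) * (1 + θ / 2) * (ε * x) / ((1 + θ / 2) * Real.log x * ((1 + ε) * x)) := by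
          field_simp
      _ ≤ (∑ p ∈ pr x (x + ε * x - θ * (ε * x) / 4), Real.log p) /
            ((1 + θ / 2) * Real.log x * ((1 + ε) * x)) := by
        gcongr
        nlinarith [b1.2, b2.1, mul_pos t0 hs]
      _ ≤ _ := by
        rw [sum_div]
        refine sum_le_sum fun p hp => ?_
        rw [mem_pr' hx0.le (by linarith)] at hp
        have c0 : (0 : ℝ) < p := by linarith [hp.2.1]
        have c1 : (p : ℝ) ≤ 2 * x := by linarith [hp.2.2]
        have c2 := Real.log_le_log c0 c1
        rw [Real.log_mul two_ne_zero hx0.ne'] at c2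
        rw [div_le_div_iff₀ (by positivity) c0, one_mul]
        gcongr
        · linarith [Real.log_two_lt_d9]
        · linarith [hp.2.2]
  · have b1 := abs_le.1 (hx1 (x - θ * (ε * x) / 4) (by linarith))
    have b2 := abs_le.1 (hx1 (x + ε * x) (by linarith))
    have b3 := sum_log_pr (show x - θ * (ε * x) / 4 ≤ x + ε * x by linarith)
    have b5 : P ⊆ pr (x - θ * (ε * x) / 4) (x + ε * x) := fun p hp => by
      rw [mem_pr' (by linarith) (by linarith)]
      exact ⟨(hP p hp).1, by linarith [(hP p hp).2.1], by linarith [(hP p hp).2.2]⟩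
    have b6 := sum_le_sum_of_subset_of_nonneg b5 fun p _ _ => Real.log_natCast_nonneg p
    have b7 : θ * ε / 12 * (x + ε * x) ≤ θ * ε / 12 * (2 * x) := by
      gcongr
      linarith
    have b8 : θ * ε / 12 * (x - θ * (ε * x) / 4) ≤ θ * ε / 12 * x := by
      gcongr
      linarith
    calc rs P ≤ (∑ p ∈ P, Real.log p) / (x * Real.log x) := by
          rw [sum_div]
          refine sum_le_sum fun p hp => ?_
          have c1 := (hP p hp).2.1
          rw [div_le_div_iff₀ (by linarith) (by positivity), one_mul, mul_comm]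
          gcongr
      _ ≤ (1 + θ) * (ε * x) / (x * Real.log x) := by
          gcongr
          nlinarith [b1.1, b2.2]
      _ = _ := by field_simp

end Pool.Agent.P.MP_a14ce1_nt.Fu
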