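import Pool.Agent.P.MP_a14ce1_nt.Fu.PaB
import Pool.Agent.P.MP_a14ce1_nt.Fu.PaWinA
import Pool.Agent.P.MP_a14ce1_nt.Fu.Pnt2

/-! The mass of the large class and of the window of the concrete families. -/

open Finset

namespace Pool.Agent.P.MP_a14ce1_nt.Fu.Pa

open Ch (pv mu rs pr)
open St

theorem short : S_Short := by
  intro ε h0 h1
  obtain ⟨x0, a, b⟩ := short_sharp h0 (h1.trans (by norm_num)) (show (0 : ℝ) < 1 / 4 by norm_num)
    (by norm_num)
  refine ⟨x0, fun y hy x hx P => ?_⟩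
  have c : x0 ≤ x := by linarith [Real.add_one_le_exp y]
  have d : 0 < Real.log x := Real.log_pos (by linarith)
  refine ⟨fun k => le_trans ?_ ((b x c P).1 k), fun k => ((b x c P).2 k).trans (by norm_num)⟩
  rw [div_le_div_iff₀ (by positivity) (by positivity)]
  nlinarith [mul_pos h0 d, mul_le_mul_of_nonneg_right h1 (mul_pos h0 d).le]

namespace NuOk

variable {ν : Nu} {C C2 j : ℕ} (h : NuOk ν C C2)
include h

theorem w_eps4 : ν.ε ≤ 1 / 4 := by
  have : (2 : ℝ) ≤ ν.k := by exact_mod_cast h.k2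
  nlinarith [h.e0, h.e1]

theorem w_four_A (j : ℕ) : 4 * ν.A ≤ ν.b j := by
  have := h.four_l (ν.m j)
  have := h.l_mono (ν.m j).zero_le
  unfold Nu.b
  linarith [h.lA]

theorem w_rs_RR_le (hj : j < ν.S) {S : Finset ℕ} (hS : S ⊆ ν.RR j) :
    9 / 10 * ν.LD * rs S ≤ ∑ p ∈ S, Real.log p / p := by
  rw [rs, mul_sum]
  refine sum_le_sum fun p hp => ?_
  rw [mul_one_div]
  exact div_le_div_of_nonneg_right
    (by linarith [(Nu.mem_RR.1 (hS hp)).2.1, h.ten_b hj.le]) (Nat.cast_nonneg _)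

theorem w_lg_RR (hj : j < ν.S) :
    |∑ p ∈ ν.RR j, Real.log p / p - (ν.b j - ν.b (j + 1))| ≤ ν.A := by
  have := h.mert.m2 (ν.LD - ν.b j) (ν.LD - ν.b (j + 1))
    (by linarith [h.ten_b hj.le, h.b_one j]) (by linarith [h.four_b hj, h.b_one (j + 1)])
  rwa [sub_sub_sub_cancel_left] at this

theorem w_LL_up (hj : j < ν.S) : ν.LD * rs (ν.RR j) ≤ 25 / 18 * ν.b j := by
  linarith [h.w_rs_RR_le hj Subset.rfl, (abs_le.1 (h.w_lg_RR hj)).2, h.w_four_A j, h.b_one (j + 1)]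

theorem w_LL_low (hj : j < ν.S) : ν.b j / 2 ≤ ν.LD * rs (ν.RR j) := by
  have a : ∑ p ∈ ν.RR j, Real.log p / p ≤ ν.LD * rs (ν.RR j) := by
    rw [rs, mul_sum]
    refine sum_le_sum fun p hp => ?_
    rw [mul_one_div]
    exact div_le_div_of_nonneg_right
      (by linarith [(Nu.mem_RR.1 hp).2.2, h.b_one (j + 1)]) (Nat.cast_nonneg _)
  linarith [(abs_le.1 (h.w_lg_RR hj)).1, h.w_four_A j, h.four_b hj]

theorem w_LL_pos (hj : j < ν.S) : 0 < rs (ν.RR j) :=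
  (mul_pos_iff_of_pos_left h.LD_pos).1 (by linarith [h.w_LL_low hj, h.b_one j])

theorem LL1' (hj : j < ν.S) : (ν.fam j).LL ≤ 1 / 2 := by
  change rs (ν.RR j) ≤ _
  refine le_of_mul_le_mul_left ?_ h.LD_pos
  linarith [h.w_LL_up hj, h.ten_b hj.le, h.b_one j]

theorem LL2' (hj : j < ν.S) : 2 ≤ (ν.par C j).Λ * (ν.fam j).LL := by
  change 2 ≤ ν.Λ * rs (ν.RR j)
  have a : 1 ≤ ν.Om := by
    have := (Real.one_le_exp (mul_nonneg h.v00 (Nat.cast_nonneg _))).trans h.Omv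
    by_contra e
    nlinarith [h.η0, h.η1]
  have r1 := h.ρm1
  have b : 80 * ν.ρm ≤ ν.Λ := by
    refine le_trans ?_ h.LOm
    exact (le_self_pow₀ (by linarith) h.S0.ne').trans (le_mul_of_one_le_left (by positivity) a)
  have c := h.w_LL_pos hj
  have d : ν.LD ≤ 10 * ν.ρm * ν.b j := by
    have := mul_le_mul_of_nonneg_left (h.l3_le_b hj.le) (zero_le_one.trans r1)
    unfold Nu.LD
    linarith [h.bup]
  have e := (h.w_LL_low hj).trans (mul_le_mul_of_nonneg_right d c.le)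
  have f : 1 ≤ 20 * ν.ρm * rs (ν.RR j) := by
    refine le_of_mul_le_mul_left ?_ (zero_lt_one.trans_le (h.b_one j))
    linarith
  nlinarith [mul_le_mul_of_nonneg_right b c.le]

theorem w_sum_r (n : ℕ) : ∑ t ∈ range n, (ν.r t : ℝ) * (ν.eL * ν.l t) ≤ ν.l n / 3 := by
  induction n with
  | zero => simpa using div_nonneg (h.l0 0).le (by norm_num)
  | succ n ih =>
    rw [sum_range_succ]
    linarith [h.lsr n, h.four_l n]

theorem w_sum_g (j : ℕ) : ∑ t ∈ range (ν.m j + 1), ν.B t * ∑ q ∈ ν.G t, Real.log q / q ≤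
    1 / 8 * (ν.b j / 2) := by
  have a := h.lg_Gs (ν.m j)
  rw [sum_biUnion (s := Icc 1 (ν.m j)) (t := ν.G) fun s hs t ht e => Disjoint.mono
    subset_union_left subset_union_left ((h.lev j).dcl (mem_Icc.1 hs).2 (mem_Icc.1 ht).2 e)] at a
  have b := mul_le_mul_of_nonneg_left h.lg_G0 (zero_le_one.trans h.B1)
  have c := h.gm (ν.m j)
  have d := mul_le_mul_of_nonneg_right h.κ1 (h.l0 (ν.m j + 1)).le
  rw [range_eq_Ico, sum_eq_sum_Ico_succ_bot (Nat.succ_pos _), ν.B_zero,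
    sum_congr (show Ico (0 + 1) (ν.m j + 1) = Icc 1 (ν.m j) from rfl)
      fun t ht => by rw [ν.B_pos (mem_Icc.1 ht).1], ← mul_sum]
  unfold Nu.b
  linarith

theorem w_LLPw (hj : j < ν.S) : 7 / 16 * ν.ε ≤ ν.LD * ((ν.fam j).LL * (ν.fam j).Pw) := by
  have L0 : 0 < (ν.fam j).LL := h.w_LL_pos hj
  have D0 := h.LD_pos
  have e0 := h.e0
  have b1 := h.b_one j
  have key := (h.lev j).pw_good (v := ν.ε / (2 * ν.LD)) (by linarith) (by positivity) (h.w_sum_g j)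
    (fun c => rs ((ν.RR j).filter fun p => (ν.fam j).win (pv c * p))) (fun _ => rs_nonneg _)
    fun c hc h0 hg => by
      have c0 : (0 : ℝ) < pv c := by
        exact_mod_cast prod_pos fun q hq => ((h.lev j).prLo q (hc hq)).pos
      have u1 : Real.log (pv c) ≤ _ + ∑ t ∈ range (ν.m j + 1), (ν.r t : ℝ) * (ν.eL * ν.l t) :=
        (h.lev j).pw_up hc h0 _ fun t _ q hq => (Nu.mem_R.1 hq).2.2.2
      have u2 : _ ≤ ν.b j / 3 := h.w_sum_r (ν.m j + 1)
      have u3 : (ν.r (ν.m j) : ℝ) * ν.l (ν.m j) ≤ Real.log (pv c) :=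
        (h.lev j).pw_low hc h0 fun q hq => (Nu.mem_R.1 hq).2.2.1.le
      have u4 : (2 : ℝ) ≤ ν.r (ν.m j) := by
        exact_mod_cast h.r2 _ (by have := h.m4 hj; omega)
      have u5 := mul_le_mul_of_nonneg_right u4 (h.l0 (ν.m j)).le
      have u6 := h.four_b_le_l hj
      have u7 := h.b_one (j + 1)
      have u8 := h.ten_b hj.le
      have x0 : 0 < Real.exp ν.LD / pv c := by positivity
      have x1 : Real.log (Real.exp ν.LD / pv c) = ν.LD - Real.log (pv c) := by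
        rw [Real.log_div (Real.exp_pos _).ne' c0.ne', Real.log_exp]
      refine le_trans ?_ ((h.short _ ((Real.le_log_iff_exp_le x0).1
        (by linarith [h.l3_le_b hj.le])) _).1 fun p hp p1 p2 => mem_filter.2 ⟨?_, ?_, ?_⟩)
      · rw [x1]
        exact div_le_div_of_nonneg_left e0.le (by linarith) (by linarith)
      · have := Real.log_lt_log x0 p1
        have := Real.log_lt_log (x0.trans p1) p2
        rw [Real.log_mul (by positivity) x0.ne'] at this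
        exact Nu.mem_RR.2 ⟨hp, by linarith, by
          linarith [Real.log_le_sub_one_of_pos (show 0 < 1 + ν.ε by positivity), h.w_eps4]⟩
      · push_cast
        exact ((div_lt_iff₀' c0).1 p1).le
      · push_cast
        rw [← mul_div_assoc] at p2
        exact (lt_div_iff₀' c0).1 p2
  have e : (ν.fam j).LL * (ν.fam j).Pw = ∑ c ∈ (ν.fam j).Lo.powerset, (ν.fam j).w c / pv c *
      rs ((ν.RR j).filter fun p => (ν.fam j).win (pv c * p)) := by
    rw [Fam.Pw, mul_sum]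
    refine sum_congr rfl fun c _ => ?_
    rw [rs, sum_filter, mul_sum, mul_sum]
    refine sum_congr rfl fun p _ => ?_
    split_ifs
    · rw [mul_comm _ (ν.fam j).LL, ← mul_div_assoc, mul_div_mul_left _ _ L0.ne', div_mul_div_comm,
        mul_one]
    · simp
  rw [e]
  refine le_trans (le_of_eq ?_) (mul_le_mul_of_nonneg_left key D0.le)
  field_simp
  norm_num

theorem w_LLPw_pos (hj : j < ν.S) : 0 < (ν.fam j).LL * (ν.fam j).Pw :=
  (mul_pos_iff_of_pos_left h.LD_pos).1 (by linarith [h.w_LLPw hj, h.e0])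

theorem Pw0' (hj : j < ν.S) : 0 < (ν.fam j).Pw :=
  (mul_pos_iff_of_pos_left (h.w_LL_pos hj)).1 (h.w_LLPw_pos hj)

theorem win1' (hj : j < ν.S) : ∀ y : ℝ, rs ((ν.fam j).RR.filter fun p : ℕ =>
    y ≤ (p : ℝ) ∧ (p : ℝ) < (1 + (ν.fam j).ε) * y) ≤ 4 * ((ν.fam j).LL * (ν.fam j).Pw) := by
  intro y
  change rs ((ν.RR j).filter fun p : ℕ => y ≤ (p : ℝ) ∧ (p : ℝ) < (1 + ν.ε) * y) ≤ _
  have e0 := h.e0
  rcases ((ν.RR j).filter fun p : ℕ => y ≤ (p : ℝ) ∧ (p : ℝ) < (1 + ν.ε) * y).eq_empty_or_nonempty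
    with e | ⟨p, hp⟩
  · rw [e, rs, sum_empty]
    linarith [h.w_LLPw_pos hj]
  obtain ⟨p1, -, p2⟩ := mem_filter.1 hp
  rw [Nu.mem_RR] at p1
  have p0 : (0 : ℝ) < p := by exact_mod_cast p1.1.pos
  have y0 : 0 < y := (mul_pos_iff_of_pos_left (by positivity)).1 (p0.trans p2)
  have a := Real.log_lt_log p0 p2
  rw [Real.log_mul (by positivity) y0.ne'] at a
  have b : 7 / 8 * ν.LD ≤ Real.log y := by
    linarith [Real.log_le_sub_one_of_pos (show 0 < 1 + ν.ε by positivity), h.w_eps4, h.ten_b hj.le,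
      h.b_one j, p1.2.1]
  have D0 := h.LD_pos
  refine ((h.short y ((Real.le_log_iff_exp_le y0).1
    (by linarith [h.l3_le_b hj.le, h.ten_b hj.le])) _).2 fun q hq => ⟨Nu.RR_prime (mem_filter.1 hq).1,
      (mem_filter.1 hq).2.1, (mem_filter.1 hq).2.2.le⟩).trans ?_
  rw [div_le_iff₀ (by linarith)]
  nlinarith [mul_le_mul_of_nonneg_left b (h.w_LLPw_pos hj).le, h.w_LLPw hj]

theorem w_Cw_pos : 0 < ν.Cw := by
  by_contra e
  nlinarith [h.Cwε, h.e0, h.A1]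

theorem w_CwL (hj : j < ν.S) : 3 * ν.A ≤ ν.LD * (ν.Cw * ((ν.fam j).LL * (ν.fam j).Pw)) := by
  linarith [mul_le_mul_of_nonneg_left (h.w_LLPw hj) h.w_Cw_pos.le, h.Cwε, h.A1]

theorem win2' (hj : j < ν.S) : ∀ x s : ℝ, 0 ≤ s → rs ((ν.fam j).RR.filter fun p : ℕ =>
    x ≤ Real.log p ∧ Real.log p ≤ x + s) ≤
      (ν.par C j).Cw * (s + 1) * ((ν.fam j).LL * (ν.fam j).Pw) := by
  intro x s hs
  have a := (h.w_rs_RR_le hj (filter_subset (fun p : ℕ => x ≤ Real.log p ∧ Real.log p ≤ x + s) _)).trans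
    (h.mert.mw _ x s hs fun p hp => ⟨Nu.RR_prime (mem_filter.1 hp).1, (mem_filter.1 hp).2⟩)
  refine le_of_mul_le_mul_left ?_ h.LD_pos
  change ν.LD * rs ((ν.RR j).filter _) ≤ ν.LD * (ν.Cw * (s + 1) * _)
  nlinarith [mul_le_mul_of_nonneg_left (h.w_CwL hj) (show 0 ≤ s + 1 by linarith),
    mul_le_mul_of_nonneg_left h.A1 hs, h.A1]

theorem win3' (hj : j < ν.S) :
    1 ≤ (ν.par C j).Cw * ((ν.fam j).LL * (ν.fam j).Pw) * Real.log (ν.fam j).D := by
  change 1 ≤ ν.Cw * _ * Real.log (Real.exp ν.LD)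
  rw [Real.log_exp]
  linarith [h.w_CwL hj, h.A1]

theorem win4' (hj : j < ν.S) : 1 ≤ (ν.par C j).Cl * (ν.fam j).Pw * (ν.par C j).l (ν.fam j).m := by
  change 1 ≤ ν.Cl * _ * ν.l (ν.m j)
  have p0 := (h.Pw0' hj).le
  have a := mul_le_mul_of_nonneg_right (h.w_LL_up hj) p0
  have b : 7 / 16 * ν.ε ≤ ν.LD * (rs (ν.RR j) * _) := h.w_LLPw hj
  have c := mul_le_mul_of_nonneg_right (h.b_le_rho hj) p0
  have d := mul_le_mul_of_nonneg_right h.Clε (mul_nonneg p0 (h.l0 (ν.m j)).le)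
  refine le_of_mul_le_mul_left ?_ h.e0
  nlinarith [h.e0]

end NuOk

end Pool.Agent.P.MP_a14ce1_nt.Fu.Pa
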