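import Pool.Agent.P.MP_a14ce1_nt.Fu.PaNum
import Pool.Agent.P.MP_a14ce1_nt.Fu.PaB
import Pool.Agent.P.MP_a14ce1_nt.Fu.PaWin
import Pool.Agent.P.MP_a14ce1_nt.Fu.PaFin

/-!
Section 1: the choice of the constants.
-/

open Finset Filter

namespace Pool.Agent.P.MP_a14ce1_nt.Fu.Pa

theorem ev1 (R : ℝ) {t : ℝ} (ht : 0 < t) : ∀ᶠ n : ℕ in atTop, R ≤ t * n :=
  (tendsto_natCast_atTop_atTop.const_mul_atTop ht).eventually_ge_atTop R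

theorem ev0 (R : ℝ) : ∀ᶠ n : ℕ in atTop, R ≤ n :=
  tendsto_natCast_atTop_atTop.eventually_ge_atTop R

theorem ev2 (R : ℝ) {t : ℝ} (ht : 0 < t) : ∀ᶠ b : ℕ in atTop, R ≤ t * 2 ^ b :=
  ((tendsto_pow_atTop_atTop_of_one_lt one_lt_two).const_mul_atTop ht).eventually_ge_atTop R

theorem ev3 (R : ℝ) : ∀ᶠ b : ℕ in atTop, R ≤ Real.log (2 ^ b) :=
  (Real.tendsto_log_atTop.comp
    (tendsto_pow_atTop_atTop_of_one_lt one_lt_two)).eventually_ge_atTop R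

theorem exists_cs (hM : S_Mert) (hS : S_Short) : S_Cs := by
  intro k C ε η k2 C1 e0 e1 η0 η1
  obtain ⟨A, hA⟩ := hM
  have k2' : (2 : ℝ) ≤ k := by exact_mod_cast k2
  have C1' : (1 : ℝ) ≤ C := by exact_mod_cast C1
  obtain ⟨y0, hy⟩ := hS ε e0 (by nlinarith)
  refine ⟨8 * A / ε, fun C2 => ?_⟩
  obtain ⟨κ, κ0, κ1, κη⟩ : ∃ κ : ℝ, 0 < κ ∧ κ ≤ 1 / 2 ∧ C * κ ≤ η ^ C := by
    refine ⟨η ^ C / C, by positivity, ?_, (mul_div_cancel₀ _ (by positivity)).le⟩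
    exact (div_le_self (by positivity) C1').trans
      ((pow_le_of_le_one η0.le (by linarith) (by omega)).trans η1)
  obtain ⟨a, ha⟩ := (ev3 (A + 2 + Real.log (1 / κ))).exists
  obtain ⟨K3, hK3⟩ := (ev1 (Real.log (2 ^ a) + A) κ0).exists
  obtain ⟨Csb, Csb1, Csb2⟩ : ∃ Csb : ℝ, 1 ≤ Csb ∧ SB.Csb2 3 A ≤ Csb :=
    ⟨max _ _, le_max_left _ _, le_max_right _ _⟩
  obtain ⟨c, c1, hc⟩ := ((eventually_ge_atTop 1).and
    (ev1 (C * Csb * (8 * A / ε * (8 / κ + K3 * 2 ^ a + 2)) ^ 2) (pow_pos κ0 3))).exists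
  obtain ⟨b, b1, b2, b3⟩ := ((ev2 (4 * c * 2 ^ a) one_pos).and ((ev2 32 κ0).and
    (ev3 (4 * A + 4 * Real.log (2 ^ a))))).exists
  obtain ⟨S, S0, hS⟩ := ((eventually_gt_atTop 0).and
    (ev1 (Csb * (8 * 2 ^ (b + 5) / ε) ^ 2) (pow_pos η0 2))).exists
  let s₁ : Cs := ⟨k, C, C2, S, K3, a, c, b, 0, 0, 0, 0, 0, 0, ε, η, κ, A, 8 * A / ε, Csb,
    8 * 2 ^ (b + 5) / ε, 8 / κ, 0, y0⟩
  obtain ⟨E, hE⟩ := (ev0 ((2 * s₁.v0 + C + 1) * s₁.Γ + (1 + (b + 5) * s₁.Γ) * S + 1)).exists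
  obtain ⟨A3, hA3⟩ := (eventually_ge_atTop (E * C2 + 2 * (C * k * E) + 5)).exists
  obtain ⟨A1, hA1⟩ := (eventually_ge_atTop (E + A3 + 3)).exists
  let s₂ : Cs := { s₁ with E := E, A3 := A3, A1 := A1 }
  obtain ⟨A4, hA4⟩ := (ev0 (E + E * C + 2 * A1 + 12 + s₂.cf)).exists
  obtain ⟨B0, B1, hB⟩ : ∃ B0 : ℝ, 1 ≤ B0 ∧
      4 * (((E : ℝ) + 4 * A4 + 1) * (C * k) + 22) ≤ Real.log (B0 + 1) := by
    refine ⟨Real.exp (4 * (((E : ℝ) + 4 * A4 + 1) * (C * k) + 22)),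
      Real.one_le_exp (by positivity), ?_⟩
    rw [Real.le_log_iff_exp_le (by positivity)]
    linarith
  obtain ⟨n, n1, n2, n3, n4, n5, n6⟩ := ((ev0 (100 + y0)).and ((eventually_ge_atTop
    (100 * (C * k + C + C2 + S + E + A1 + A4 + s₁.Γ + c + b + K3))).and
    ((ev0 (100 * (s₁.q + s₁.eL + s₁.Cw + s₁.Csb + s₁.Cl + s₁.L + s₁.Kx 1))).and
    ((ev0 (100 * s₁.q * s₁.q * (C + C2 + 10))).and
    ((ev0 (100 * (1 / η + 1 / κ + 1 / ε) * (A + s₁.L))).and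
    (ev1 (100 * (B0 + 1) * A * (1 + Real.log (B0 + 1)) ^ 2) (mul_pos η0 κ0))))))).exists
  refine ⟨{ s₂ with A4 := A4, B0 := B0, n := n }, rfl, rfl, rfl, rfl, rfl, rfl, fun i hi => ?_⟩
  exact ⟨hA, hy, k2, C1, S0, e0, e1, η0, η1, κ0, κ1, κη, ha, hK3,
    (mul_div_cancel₀ _ κ0.ne').ge, (div_mul_cancel₀ _ e0.ne').ge, (div_mul_cancel₀ _ e0.ne').ge,
    Csb1, Csb2, hS, c1, hc, b1.trans_eq (one_mul _), b2, b3, hE, hA3, hA1, hA4, B1, hB, hi,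
    n1, n2, n3, n4, n5, n6⟩

theorem num : S_Num := num_of (exists_cs mert short)

theorem par_of_chain (hC : S_Chain) : St.S_PAR := par_of num hC

end Pool.Agent.P.MP_a14ce1_nt.Fu.Pa
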