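import Pool.Agent.P.MP_a14ce1_nt.Fu.PaOk
import Pool.Agent.P.MP_a14ce1_nt.Fu.PaWin

/-! The densities of the codes for the concrete families. -/

open Finset

namespace Pool.Agent.P.MP_a14ce1_nt.Fu.Pa.NuOk

open Ch (pv mu rs pr)
open St

variable {ν : Nu} {C C2 j : ℕ} (h : NuOk ν C C2)
include h

theorem s_one {t : ℕ} (ht : t < ν.m 0) (w : ℕ) :
    1 ≤ ((ν.R (t + 1)).card : ℝ) * Real.exp (-(ν.u t w / 2)) := by
  rw [Real.exp_neg, ← div_eq_mul_inv, one_le_div (Real.exp_pos _)]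
  exact (Real.exp_le_exp.2 (by linarith [h.ul t ht w])).trans (h.card_R (Nat.succ_pos t))

theorem s_card (t : ℕ) : (0 : ℝ) < (ν.R (t + 1)).card :=
  (Real.exp_pos _).trans_le (h.card_R (Nat.succ_pos t))

theorem s_le_ph (t w : ℕ) : Real.exp (-(ν.u t w / 2)) ≤ ph (ν.fam j) (ν.par C j) (t + 1) w := by
  change _ ≤ ((⌈((ν.R (t + 1)).card : ℝ) * Real.exp (-(ν.u t w / 2))⌉₊ : ℕ) : ℝ) /
    (ν.R (t + 1)).card
  rw [le_div_iff₀ (h.s_card t), mul_comm]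
  exact Nat.le_ceil _

theorem s_ph_le {t : ℕ} (ht : t < ν.m 0) (w : ℕ) : ((ν.r (t + 1) : ℝ) + ν.Kx (t + 1)) *
    ph (ν.fam j) (ν.par C j) (t + 1) w ≤ Real.exp (-(ν.u t w / 4)) := by
  have a : ph (ν.fam j) (ν.par C j) (t + 1) w ≤ 2 * Real.exp (-(ν.u t w / 2)) := by
    change ((⌈((ν.R (t + 1)).card : ℝ) * Real.exp (-(ν.u t w / 2))⌉₊ : ℕ) : ℝ) /
      (ν.R (t + 1)).card ≤ _
    have b := h.s_one ht w
    rw [div_le_iff₀ (h.s_card t)]
    linarith [Nat.ceil_lt_add_one (zero_le_one.trans b)]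
  calc _ ≤ ((ν.r (t + 1) : ℝ) + ν.Kx (t + 1)) * (2 * Real.exp (-(ν.u t w / 2))) := by gcongr
    _ = 2 * ((ν.r (t + 1) : ℝ) + ν.Kx (t + 1)) * Real.exp (-(ν.u t w / 2)) := by ring
    _ ≤ Real.exp (ν.u t w / 4) * Real.exp (-(ν.u t w / 2)) := by gcongr; exact h.ur t ht w
    _ = _ := by rw [← Real.exp_add]; congr 1; ring

theorem s_ratio {t : ℕ} (ht : t ≤ ν.m 0) :
    (ν.par C j).hi t / (ν.par C j).lo t = Real.exp (ν.f t) := by
  change ν.hi t / ν.lo t = _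
  rw [Nu.hi, if_pos ht, mul_div_cancel_left₀ _ (lo0_of h.okIn t).ne']

theorem m01' (hj : j < ν.S) : ∀ t ∈ Icc 1 (ν.fam j).m, ∀ w,
    1 ≤ (ν.par C j).m0 t w ∧ (ν.par C j).m0 t w ≤ ((ν.fam j).R t).card := by
  intro t ht w
  obtain ⟨t, rfl⟩ : ∃ u, t = u + 1 := ⟨t - 1, by have := (mem_Icc.1 ht).1; omega⟩
  have a := h.s_one (lt_of_lt_of_le (mem_Icc.1 ht).2 (h.m_le hj.le)) w
  refine ⟨Nat.ceil_pos.2 (one_pos.trans_le a), Nat.ceil_le.2 ?_⟩
  exact mul_le_of_le_one_right (Nat.cast_nonneg _)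
    (Real.exp_le_one_iff.2 (by linarith [h.un (t + 1 - 1) w]))

theorem m02' (_hj : j < ν.S) : ∀ t ≤ 2, ∀ w, (ν.par C j).m0 t w = (ν.par C j).m0 t 0 := by
  intro t ht w
  change ⌈_ * Real.exp (-(ν.u (t - 1) w / 2))⌉₊ = ⌈_ * Real.exp (-(ν.u (t - 1) 0 / 2))⌉₊
  rw [h.uw (t - 1) (by omega) w]

theorem s_m0 : 0 < ν.m 0 := by unfold Nu.m; omega

theorem path' (_hj : j < ν.S) : ((ν.fam j).r 1 + (ν.par C j).Kx 1 : ℝ) *
    ph (ν.fam j) (ν.par C j) 1 0 ≤ (ν.par C j).η := (h.s_ph_le h.s_m0 0).trans h.uη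

omit h in
theorem σn' (_h : NuOk ν C C2) (_hj : j < ν.S) : ∀ t w, 0 ≤ (ν.par C j).σ t w :=
  fun _ _ => (Real.exp_pos _).le

theorem σ0' (_hj : j < ν.S) : ∀ w,
    (ν.par C j).vt * ((ν.par C j).hi 0 / (ν.par C j).lo 0) ≤ (ν.par C j).σ 0 w := by
  intro w
  rw [h.s_ratio (Nat.zero_le _)]
  change _ ≤ Real.exp (-ν.u 0 w)
  rw [h.uw 0 zero_le_one w]
  exact h.u0

theorem σs' (hj : j < ν.S) : ∀ t < (ν.fam j).m, ∀ w < (ν.par C j).Wn,
    (ν.par C j).hi (t + 1) / (ν.par C j).lo (t + 1) *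
    ((ν.par C j).σ t w * (((ν.fam j).r (t + 1) + (ν.par C j).Kx (t + 1) : ℝ) *
      ph (ν.fam j) (ν.par C j) (t + 1) w) ^ (ν.par C j).J (t + 1) +
      if 2 ≤ t ∧ 1 ≤ w then (ν.par C j).σ t (w - 1) else 0) ≤ (ν.par C j).σ (t + 1) w := by
  intro t ht w _
  have ht' : t < ν.m 0 := lt_of_lt_of_le ht (h.m_le hj.le)
  rw [h.s_ratio ht', mul_add]
  change Real.exp (ν.f (t + 1)) * (Real.exp (-ν.u t w) * (((ν.r (t + 1) : ℝ) + ν.Kx (t + 1)) *
      ph (ν.fam j) (ν.par C j) (t + 1) w) ^ ν.J (t + 1)) + Real.exp (ν.f (t + 1)) *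
      (if 2 ≤ t ∧ 1 ≤ w then Real.exp (-ν.u t (w - 1)) else 0) ≤ Real.exp (-ν.u (t + 1) w)
  have e : Real.exp (-1 + -ν.u (t + 1) w) ≤ Real.exp (-ν.u (t + 1) w) / 2 := by
    rw [Real.exp_add]
    nlinarith [Real.exp_neg_one_lt_d9, Real.exp_pos (-ν.u (t + 1) w)]
  have p0 := (Real.exp_pos _).le.trans (h.s_le_ph (j := j) t w)
  have a1 : Real.exp (ν.f (t + 1)) * (Real.exp (-ν.u t w) * (((ν.r (t + 1) : ℝ) + ν.Kx (t + 1)) *
      ph (ν.fam j) (ν.par C j) (t + 1) w) ^ ν.J (t + 1)) ≤ Real.exp (-1 + -ν.u (t + 1) w) := by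
    calc _ ≤ Real.exp (ν.f (t + 1)) * (Real.exp (-ν.u t w) *
          Real.exp (-(ν.u t w / 4)) ^ ν.J (t + 1)) := by gcongr; exact h.s_ph_le ht' w
      _ ≤ _ := by
        rw [← Real.exp_nat_mul, ← Real.exp_add, ← Real.exp_add, Real.exp_le_exp]
        linarith [h.uf t ht' w, h.uJ t ht' w]
  have a2 : Real.exp (ν.f (t + 1)) * (if 2 ≤ t ∧ 1 ≤ w then Real.exp (-ν.u t (w - 1)) else 0) ≤
      Real.exp (-1 + -ν.u (t + 1) w) := by
    split_ifs with c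
    · rw [← Real.exp_add, Real.exp_le_exp]
      linarith [h.us t ht' w c.1 c.2]
    · rw [mul_zero]; exact (Real.exp_pos _).le
  linarith

theorem s_σin0 (_hj : j < ν.S) : 0 ≤ (ν.par C j).σin := by
  change 0 ≤ ∑ i ∈ range j, C * Real.exp (-ν.uT i) / ν.η
  have := h.η0
  positivity

theorem pin' (hj : j < ν.S) : ∀ t < (ν.fam j).m, ∀ w < (ν.par C j).Wn,
    (ν.par C j).Λ ^ C * (ν.par C j).J (t + 1) ^ 2 * ((ν.par C j).La t + 2) * (ν.par C j).σ t w ≤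
      ph (ν.fam j) (ν.par C j) (t + 1) w := by
  intro t ht w _
  refine le_trans ?_ (h.s_le_ph t w)
  refine (mul_le_mul_of_nonneg_right (h.pin t (lt_of_lt_of_le ht (h.m_le hj.le)) w)
    (Real.exp_pos (-ν.u t w)).le).trans (le_of_eq ?_)
  rw [← Real.exp_add]; congr 1; ring

theorem s_Λ : 1 ≤ ν.Λ := by
  have : (2 : ℝ) ≤ ν.k := by exact_mod_cast h.k2
  linarith [h.Lk]

theorem s_Cm (hj : j < ν.S) : (C : ℝ) ^ ν.m j ≤ (C : ℝ) ^ ν.m 0 :=
  pow_le_pow_right₀ (by exact_mod_cast h.C1) (h.m_le hj.le)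

theorem hid' (hj : j < ν.S) : ∀ s ∈ Icc 1 (ν.fam j).m, (C : ℝ) ^ (ν.fam j).m * (ν.par C j).Λ ^ C *
    ((ν.par C j).La s + 2) * ((ν.par C j).hi s / (ν.par C j).lo s *
      (ν.par C j).σ (s - 1) ((ν.par C j).Wn - 1)) ≤ 1 := by
  intro t ht
  obtain ⟨t, rfl⟩ : ∃ u, t = u + 1 := ⟨t - 1, by have := (mem_Icc.1 ht).1; omega⟩
  have ht' : t < ν.m 0 := lt_of_lt_of_le (mem_Icc.1 ht).2 (h.m_le hj.le)
  rw [h.s_ratio ht', ← mul_assoc]
  change (C : ℝ) ^ ν.m j * ν.Λ ^ C * (ν.La (t + 1) + 2) * Real.exp (ν.f (t + 1)) *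
    Real.exp (-ν.u t (ν.W j - 1)) ≤ 1
  have a := h.s_Λ
  have b : 0 ≤ ν.La (t + 1) := by
    have := h.η0
    have := h.l0 (t + 1 + 1)
    unfold Nu.La; positivity
  rw [Real.exp_neg, ← div_eq_mul_inv, div_le_one (Real.exp_pos _)]
  refine le_trans ?_ (h.hid t ht' _)
  have := h.s_Cm hj
  gcongr ?_ * _ * _ * _

omit h in
theorem s_sin (_h : NuOk ν C C2) : ∀ j < ν.S,
    ∑ i ∈ range j, C * top (ν.fam i) (ν.par C i) / ν.η ≤ (ν.par C j).σin := fun _ _ => le_rfl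

theorem s_X : 10 ≤ ν.X := by
  have : (0 : ℝ) ≤ C + C2 := by positivity
  linarith [h.XC]

theorem s_σin (hj : j < ν.S) : (ν.par C j).σin ≤ ν.S * C / ν.η * Real.exp (-(ν.X * ν.b j)) := by
  have e := h.η0
  have X := h.s_X
  change ∑ i ∈ range j, C * Real.exp (-ν.uT i) / ν.η ≤ _
  refine (sum_le_card_nsmul _ _ (C * Real.exp (-(ν.X * ν.b j)) / ν.η) fun i hi => ?_).trans ?_
  · have hi' := mem_range.1 hi
    have a := h.uX i (hi'.trans hj)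
    have b := h.b_anti (Nat.succ_le_of_lt hi') hj.le
    gcongr
    nlinarith
  · rw [card_range, nsmul_eq_mul]
    calc _ ≤ (ν.S : ℝ) * (C * Real.exp (-(ν.X * ν.b j)) / ν.η) := by gcongr
      _ = _ := by ring

theorem s_Cw : 1 ≤ ν.Cw := by nlinarith [h.Cwε, h.A1, h.w_eps4, h.w_Cw_pos]

theorem s_LD : 1 ≤ ν.LD := by unfold Nu.LD; linarith [h.b_one 0]

/-- the common form of the two test conditions -/
theorem s_test (hj : j < ν.S) {p q : ℕ} (hp : p ≤ C * ν.k + C + C2) (hq : q ≤ C + C2) :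
    ν.Λ ^ p * Real.exp (q * ν.b j) * (ν.par C j).σin ≤ 1 := by
  have e := h.η0
  have L := h.s_Λ
  have a1 : (1 : ℝ) ≤ (C : ℝ) ^ ν.m 0 := one_le_pow₀ (by exact_mod_cast h.C1)
  have a2 := h.s_Cw
  have a3 := h.s_LD
  have a4 : (0 : ℝ) ≤ ν.S * C / ν.η := by positivity
  have a5 : ν.S * C / ν.η * ν.Λ ^ p ≤ Real.exp (ν.b j) := by
    refine le_trans ?_ (h.pref.trans (Real.exp_le_exp.2 (h.l3_le_b hj.le)))
    calc _ = ν.S * C / ν.η * 1 * ν.Λ ^ p * 1 * 1 := by ring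
      _ ≤ _ := by gcongr; linarith
  have a6 : (q : ℝ) ≤ C + C2 := by exact_mod_cast hq
  calc _ ≤ ν.Λ ^ p * Real.exp (q * ν.b j) * (ν.S * C / ν.η * Real.exp (-(ν.X * ν.b j))) := by
        gcongr; exact h.s_σin hj
    _ = ν.S * C / ν.η * ν.Λ ^ p * (Real.exp (q * ν.b j) * Real.exp (-(ν.X * ν.b j))) := by ring
    _ ≤ Real.exp (ν.b j) * (Real.exp (q * ν.b j) * Real.exp (-(ν.X * ν.b j))) := by gcongr
    _ ≤ 1 := by
      rw [← Real.exp_add, ← Real.exp_add, Real.exp_le_one_iff]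
      nlinarith [h.XC, h.b_one j]

theorem test' (hj : j < ν.S) : (ν.par C j).Λ ^ (C * (ν.fam j).k) *
    Real.exp (C * (ν.par C j).Lp) * (ν.par C j).σin ≤ 1 :=
  h.s_test hj (by change C * ν.k ≤ _; omega) (Nat.le_add_right _ _)

/-- the field test of Hyp7 -/
theorem test7' (hj : j < ν.S) :
    (ν.par C j).Λ ^ C2 * Real.exp (C2 * (ν.par C j).Lp) * (ν.par C j).σin ≤ 1 :=
  h.s_test hj (Nat.le_add_left _ _) (Nat.le_add_left _ _)

theorem s_hi {t : ℕ} (ht : t ≤ ν.m 0) : ν.hi t ≤ Real.exp (ν.l (t + 1)) := by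
  rw [Nu.hi, if_pos ht, Nu.lo]
  have g1 := h.one_le_ZG t
  split_ifs with c
  · subst c
    have b := h.B1
    have a : ν.mu0 ≤ (ν.B0 + 1) * ν.g 0 := by
      refine le_trans ?_ (mul_le_mul_of_nonneg_left (h.rs_G 0) (by linarith))
      rw [rs, mul_sum]
      refine sum_le_sum fun q hq => ?_
      have : (0 : ℝ) < q := by exact_mod_cast (Nu.G_prime hq).pos
      rw [mul_one_div]
      gcongr
      linarith
    refine (mul_le_mul_of_nonneg_right (div_le_self (Real.exp_pos _).le g1)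
      (Real.exp_pos _).le).trans ?_
    rw [← Real.exp_add, Real.exp_le_exp]
    nlinarith [h.f0l, h.ok_lB, h.s00]
  · obtain ⟨t, rfl⟩ : ∃ u, t = u + 1 := ⟨t - 1, by omega⟩
    have r2 : (2 : ℝ) ≤ ν.r (t + 1) := by exact_mod_cast h.r2 _ (Nat.succ_pos t)
    have z := h.ZR_pos (t + 1)
    have a : 1 / (ν.pre.ZG (t + 1) * ν.pre.ZR (t + 1)) ≤
        Real.exp (ν.r (t + 1) * ν.l (t + 1)) := by
      rw [div_le_iff₀ (by positivity), Real.exp_nat_mul]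
      calc _ ≤ ((ν.r (t + 1)).factorial : ℝ) * (1 * ν.pre.ZR (t + 1)) := by
            simpa using h.one_le_ZR (t + 1)
        _ ≤ _ := by
            gcongr
            refine le_trans ?_ (pow_le_pow_left₀ (by positivity) (h.rl (t + 1)) _)
            exact_mod_cast Nat.factorial_le_pow _
    refine (mul_le_mul_of_nonneg_right a (Real.exp_pos _).le).trans ?_
    rw [← Real.exp_add, Real.exp_le_exp]
    have := mul_le_mul_of_nonneg_left (h.l_le_top (t + 1)) (by linarith : (0 : ℝ) ≤ ν.r (t + 1))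
    linarith [h.uf t ht 0, h.ul t ht 0, h.lsr (t + 1), h.four_l (t + 1), h.l0 (t + 1)]

theorem s_suml (n : ℕ) : ∑ t ∈ range n, ν.l (t + 1) ≤ 2 * ν.l n := by
  induction n with
  | zero => simpa using (h.l0 0).le
  | succ n ih => rw [sum_range_succ]; linarith [h.four_l n, h.l0 n]

theorem s_Hi (hj : j < ν.S) : Hi (ν.fam j) (ν.par C j) ≤ Real.exp (2 * ν.b j) := by
  refine le_trans ?_ (Real.exp_le_exp.2 (h.s_suml (ν.m j + 1)))
  rw [Real.exp_sum]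
  exact prod_le_prod (fun t _ => zero_le_one.trans (h.hi1' hj t)) fun t ht =>
    h.s_hi ((Nat.lt_succ_iff.1 (mem_range.1 ht)).trans (h.m_le hj.le))

theorem hidt' (hj : j < ν.S) : (C : ℝ) ^ (ν.fam j).m * (ν.par C j).Λ ^ C *
    Real.exp (ν.par C j).Lh * (Hi (ν.fam j) (ν.par C j) * (ν.par C j).σin +
      top (ν.fam j) (ν.par C j)) ≤ (ν.fam j).LL * (ν.fam j).Pw := by
  have w3 : 1 ≤ ν.Cw * ((ν.fam j).LL * (ν.fam j).Pw) * ν.LD := by
    have := h.win3' hj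
    rwa [show Real.log (ν.fam j).D = ν.LD from Real.log_exp _] at this
  have e := h.η0
  have L := h.s_Λ
  have X := h.s_X
  have a2 := h.s_Cw
  have a3 := h.s_LD
  have a4 : (0 : ℝ) ≤ ν.S * C / ν.η := by positivity
  have b1 := h.b_one (j + 1)
  have b2 := h.b_anti (Nat.le_succ j) hj
  have s0 := h.s_σin0 hj
  set y := Real.exp (-ν.b (j + 1)) * Real.exp (-ν.b (j + 1)) with hy
  have c1 : Hi (ν.fam j) (ν.par C j) * (ν.par C j).σin ≤ ν.S * C / ν.η * y := by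
    calc _ ≤ Real.exp (2 * ν.b j) * (ν.S * C / ν.η * Real.exp (-(ν.X * ν.b j))) := by
          gcongr
          exacts [h.s_Hi hj, h.s_σin hj]
      _ = ν.S * C / ν.η * (Real.exp (2 * ν.b j) * Real.exp (-(ν.X * ν.b j))) := by ring
      _ ≤ _ := by
          gcongr
          rw [hy, ← Real.exp_add, ← Real.exp_add, Real.exp_le_exp]
          nlinarith
  have c2 : top (ν.fam j) (ν.par C j) ≤ y := by
    change Real.exp (-ν.uT j) ≤ _
    rw [hy, ← Real.exp_add, Real.exp_le_exp]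
    nlinarith [h.uX j hj]
  have c3 : (ν.S * C / ν.η + 1) * (C : ℝ) ^ ν.m j * ν.Λ ^ C * ν.Cw * ν.LD ≤
      Real.exp (ν.b (j + 1)) := by
    refine le_trans ?_ (h.pref.trans (Real.exp_le_exp.2 (h.l3_le_b hj)))
    have := h.s_Cm hj
    gcongr ?_ * ?_ * ν.Λ ^ ?_ * _ * _
    · linarith
    · omega
  have c4 : Real.exp (ν.b (j + 1)) * (Real.exp (ν.b (j + 1)) * y) = 1 := by
    rw [hy, ← Real.exp_add, ← Real.exp_add, ← Real.exp_add, Real.exp_eq_one_iff]; ring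
  have y0 : 0 ≤ y := by positivity
  refine le_of_mul_le_mul_right (a := ν.Cw * ν.LD) ?_ (by positivity)
  calc _ ≤ (C : ℝ) ^ ν.m j * ν.Λ ^ C * Real.exp (ν.b (j + 1)) * (ν.S * C / ν.η * y + y) *
        (ν.Cw * ν.LD) := by
        change (C : ℝ) ^ ν.m j * ν.Λ ^ C * Real.exp (ν.b (j + 1)) * _ * _ ≤ _
        gcongr
    _ = (ν.S * C / ν.η + 1) * (C : ℝ) ^ ν.m j * ν.Λ ^ C * ν.Cw * ν.LD *
        (Real.exp (ν.b (j + 1)) * y) := by ring
    _ ≤ Real.exp (ν.b (j + 1)) * (Real.exp (ν.b (j + 1)) * y) := by gcongr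
    _ ≤ _ := by linarith

end Pool.Agent.P.MP_a14ce1_nt.Fu.Pa.NuOk
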