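import Pool.Agent.P.MP_a14ce1_nt.Fu.RoleB

/-! Sections 4 and 5: the bound for one role. -/

open Finset

namespace Pool.Agent.P.MP_a14ce1_nt.Fu.St

open Ch (pv mu rs lam)
open Ch.Main (Tn)

namespace Role

variable {F : Fam} {P : Par}

/-- the object has many extra members at level 0 -/
def gd (F : Fam) (P : Par) (c T : Finset ℕ) : Prop := ¬F.Vl 0 T < P.Δ * F.wl 0 c

noncomputable def G0 (F : Fam) (P : Par) (c c' T : Finset ℕ) : ℝ :=
  ind (c ⊆ T ∧ gd F P c T) * ind (c' ⊆ T) * (F.w c * F.w c' / F.V 0 (F.m + 1) T)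

noncomputable def xq (F : Fam) (P : Par) (i0 n b : ℕ) (c c' : Finset ℕ) (p : ℕ) : ℝ :=
  ind (cd F i0 b (pv c * p) ∧ cd F i0 b (pv c' * p)) * (2 * F.N * kp F ^ 2 * F.LL) *
    (ind (p ∣ n + b) * G0 F P c c' (dp F.Lo (n + b)) * (PW F (range F.k) p i0 b (pv c * p) n *
      PW F ((range F.k).erase i0) p i0 b (pv c' * p) n))

theorem G0_nonneg (h : Hyp0 F P) (c c' T : Finset ℕ) : 0 ≤ G0 F P c c' T :=
  mul_nonneg (mul_nonneg (ind_nonneg _) (ind_nonneg _))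
    (div_nonneg (mul_nonneg (h.w_nonneg _) (h.w_nonneg _)) (h.V_nonneg _ _ _))

theorem xi_nonneg (h : Hyp0 F P) (i0 n b : ℕ) (c c' : Finset ℕ) (p : ℕ) :
    0 ≤ xq F P i0 n b c c' p := by
  have := h.LL0
  exact mul_nonneg (mul_nonneg (ind_nonneg _) (by positivity)) (mul_nonneg (mul_nonneg
    (ind_nonneg _) (G0_nonneg h _ _ _)) (mul_nonneg (PW_nonneg h _ _ _ _ _ _)
      (PW_nonneg h _ _ _ _ _ _)))

/-- the weight at a site with p against the population weight -/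
theorem W_le_vv (h : Hyp0 F P) {p n : ℕ} (hp : p ∈ F.RR) (hn : p ∣ n) {c : Finset ℕ}
    (hc : c ⊆ dp F.Lo n) :
    F.W p n * F.w c ≤ F.vv n * (2 * F.LL) * (F.w c / F.V 0 (F.m + 1) (dp F.Lo n)) := by
  have L := h.LL0
  have w0 := h.w_nonneg c
  have V0 := h.V_nonneg 0 (F.m + 1) (dp F.Lo n)
  have r0 : 0 ≤ F.vv n * (2 * F.LL) * (F.w c / F.V 0 (F.m + 1) (dp F.Lo n)) :=
    mul_nonneg (mul_nonneg (h.vv_nonneg n) (by positivity)) (div_nonneg w0 V0)
  rcases V0.eq_or_lt with e | e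
  · have := le_Vt h.w_nonneg hc
    rw [h.Vt_w (dp_sub _ _), ← e] at this
    rw [le_antisymm this w0]; simp
  by_cases k : F.ka p (dp F.RR n) = 0
  · rw [Fam.W, k, mul_zero, zero_mul, zero_mul]; exact r0
  have e1 : dp F.RR n = {p} :=
    eq_singleton_iff_unique_mem.2 ⟨mem_dp.2 ⟨hp, hn⟩, fun q hq => F.ka_ne k hq⟩
  have e2 : 1 ≤ F.LL * F.zj (dp F.RR n) := by
    rw [Fam.zj, e1, if_pos (card_singleton p), mul_one_div, le_div_iff₀ h.pi1_pos, one_mul]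
    exact pi1_le F
  have e3 : F.vv n * (2 * F.LL) * (F.w c / F.V 0 (F.m + 1) (dp F.Lo n)) =
      F.vk (dp F.U n) * (2 * (F.LL * F.zj (dp F.RR n))) * F.ze (dp F.HH n) * F.w c := by
    rw [Fam.vv, Fam.z0]; field_simp
  rw [e3, Fam.W]
  have := h.ka_le p (dp F.RR n)
  have := h.ka_nonneg p (dp F.RR n)
  have := h.wk0 (dp F.U n)
  have := h.wkv (dp F.U n)
  have := h.ze0 (dp F.HH n)
  gcongr <;> linarith

theorem pair_le (h : Hyp0 F P) {i0 : ℕ} (hi : i0 < F.k) (n b : ℕ) (c c' : Finset ℕ) {p p' : ℕ}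
    (hp : p ∈ F.RR) : F.N * (tm F (gd F P) i0 n b c p * tm F (gd F P) i0 n b c' p') ≤
      F.vv (n + b) * if p = p' then xq F P i0 n b c c' p else 0 := by
  have r0 : 0 ≤ F.vv (n + b) * if p = p' then xq F P i0 n b c c' p else 0 := by
    refine mul_nonneg (h.vv_nonneg _) ?_
    split_ifs
    · exact xi_nonneg h _ _ _ _ _ _
    · exact le_rfl
  by_cases a1 : cd F i0 b (pv c * p)
  swap
  · simpa [tm, ind_neg a1] using r0
  by_cases a2 : cd F i0 b (pv c' * p')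
  swap
  · simpa [tm, ind_neg a2] using r0
  by_cases a3 : p ∣ n + b
  swap
  · simpa [tm, ind_neg a3] using r0
  by_cases a4 : p' ∣ n + b
  swap
  · simpa [tm, ind_neg a4] using r0
  by_cases a5 : c ⊆ dp F.Lo (n + b) ∧ gd F P c (dp F.Lo (n + b))
  swap
  · simpa [tm, ind_neg a5] using r0
  by_cases a6 : c' ⊆ dp F.Lo (n + b) ∧ gd F P c' (dp F.Lo (n + b))
  swap
  · simpa [tm, ind_neg a6] using r0
  have e1 : PW F (range F.k) p' i0 b (pv c' * p') n =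
      F.W p' (n + b) * PW F ((range F.k).erase i0) p' i0 b (pv c' * p') n := by
    rw [PW, ← mul_prod_erase _ _ (mem_range.2 hi), Nat.sub_add_cancel a2.2.1, PW]
  by_cases e : p = p'
  · subst e
    rw [if_pos rfl, tm, tm, xq, G0, e1, ind_pos a1, ind_pos a2, ind_pos a3, ind_pos a5, ind_pos a6,
      ind_pos ⟨a1, a2⟩, ind_pos a6.1]
    have k := W_le_vv h hp a3 a6.1
    have z : 0 ≤ F.N * kp F ^ 2 * F.w c * PW F (range F.k) p i0 b (pv c * p) n *
        PW F ((range F.k).erase i0) p i0 b (pv c' * p) n :=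
      mul_nonneg (mul_nonneg (mul_nonneg (by positivity) (h.w_nonneg c))
        (PW_nonneg h _ _ _ _ _ _)) (PW_nonneg h _ _ _ _ _ _)
    refine le_trans (le_of_eq ?_) ((mul_le_mul_of_nonneg_left k z).trans (le_of_eq ?_)) <;> ring
  · have k : F.ka p' (dp F.RR (n + b)) = 0 :=
      by_contra fun k => e (F.ka_ne k (mem_dp.2 ⟨hp, a3⟩))
    rw [if_neg e, tm, tm, e1, Fam.W, k]
    simp

theorem sq_le (h : Hyp0 F P) {i0 : ℕ} (hi : i0 < F.k) (n b : ℕ) :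
    F.N * (∑ c ∈ F.Lo.powerset, ∑ p ∈ F.RR, tm F (gd F P) i0 n b c p) ^ 2 ≤
      F.vv (n + b) * ∑ p ∈ F.RR, ∑ c ∈ F.Lo.powerset, ∑ c' ∈ F.Lo.powerset,
        xq F P i0 n b c c' p := by
  rw [sq, sum_comm (s := F.RR), sum_mul, mul_sum, mul_sum]
  refine sum_le_sum fun c _ => ?_
  rw [sum_mul, mul_sum, mul_sum]
  refine sum_le_sum fun p hp => ?_
  rw [mul_sum, mul_sum, mul_sum]
  refine sum_le_sum fun c' _ => ?_
  rw [mul_sum, mul_sum]
  refine (sum_le_sum fun p' _ => pair_le h hi n b c c' hp).trans ?_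
  rw [← mul_sum, sum_ite_eq, if_pos hp]

theorem pv_inj {c c' : Finset ℕ} (hc : ∀ q ∈ c, q.Prime) (hc' : ∀ q ∈ c', q.Prime)
    (e : pv c = pv c') : c = c' := by
  rw [← Nat.primeFactors_prod hc, ← Nat.primeFactors_prod hc']
  exact congrArg Nat.primeFactors e

theorem ex_xi (h : Hyp0 F P) (hM : 0 < P.Ms)
    (hτ : (2 * P.Λ ^ 2) ^ (2 * F.k) * tauI (2 * F.k) F.N P.Ms ≤ 1) {Z : ℕ} (hZ : 0 < Z)
    (hd : pv F.all ∣ Z) {i0 : ℕ} (hi : i0 < F.k) (b : ℕ) {c c' : Finset ℕ} (hc : c ⊆ F.Lo)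
    (hc' : c' ⊆ F.Lo) {p : ℕ} (hp : p ∈ F.RR) :
    ex (fun n : Fin Z => xq F P i0 n b c c' p) ≤ 2 * F.N * kp F ^ 2 * F.LL * (1 / p) *
      (2 * (Em F.Lo fun T => ind (c ⊆ T) * (ind (wp (Real.log (F.D / p)) c) * F.w c) *
          (ind (c' ⊆ T) * (ind (wp (Real.log (F.D / p)) c') * F.w c')) / F.V 0 (F.m + 1) T) +
        if c = c' then (2 * P.Λ ^ 2) ^ (2 * F.k) * Em F.Lo fun T => ind (c ⊆ T) *
          (ind (gd F P c T) * ind (wp (Real.log (F.D / p)) c) *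
            (F.w c * F.w c / F.V 0 (F.m + 1) T)) else 0) := by
  have L := h.LL0
  have r1 : 0 ≤ Em F.Lo fun T => ind (c ⊆ T) * (ind (wp (Real.log (F.D / p)) c) * F.w c) *
      (ind (c' ⊆ T) * (ind (wp (Real.log (F.D / p)) c') * F.w c')) / F.V 0 (F.m + 1) T :=
    Em_nonneg fun T _ => div_nonneg (mul_nonneg
      (mul_nonneg (ind_nonneg _) (mul_nonneg (ind_nonneg _) (h.w_nonneg _)))
      (mul_nonneg (ind_nonneg _) (mul_nonneg (ind_nonneg _) (h.w_nonneg _)))) (h.V_nonneg _ _ _)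
  have r2 : 0 ≤ if c = c' then (2 * P.Λ ^ 2) ^ (2 * F.k) * Em F.Lo fun T => ind (c ⊆ T) *
      (ind (gd F P c T) * ind (wp (Real.log (F.D / p)) c) *
        (F.w c * F.w c / F.V 0 (F.m + 1) T)) else 0 := by
    split_ifs
    · exact mul_nonneg (by positivity) (Em_nonneg fun T _ => mul_nonneg (ind_nonneg _)
        (mul_nonneg (mul_nonneg (ind_nonneg _) (ind_nonneg _))
          (div_nonneg (mul_self_nonneg _) (h.V_nonneg _ _ _))))
    · exact le_rfl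
  have r3 : 0 ≤ 2 * F.N * kp F ^ 2 * F.LL := by positivity
  have r4 : 0 ≤ 1 / (p : ℝ) := by positivity
  unfold xq
  rw [ex_mul]
  by_cases a : cd F i0 b (pv c * p) ∧ cd F i0 b (pv c' * p)
  swap
  · rw [ind_neg a, zero_mul, zero_mul]; positivity
  rw [ind_pos a, one_mul, mul_assoc (2 * F.N * kp F ^ 2 * F.LL)]
  refine mul_le_mul_of_nonneg_left ?_ r3
  rw [ind_pos (wp_of_win h a.1.1), ind_pos (wp_of_win h a.2.1)] at *
  have s1 : (range F.k).erase i0 ⊆ range F.k := erase_subset _ _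
  by_cases e : c = c'
  · subst e
    rw [if_pos rfl]
    have e1 : ∀ n : Fin Z, ind (p ∣ n + b) * G0 F P c c (dp F.Lo (n + b)) *
        (PW F (range F.k) p i0 b (pv c * p) n * PW F ((range F.k).erase i0) p i0 b (pv c * p) n)
        ≤ (2 * P.Λ ^ 2) ^ (2 * F.k) * (ind (p ∣ n + b) * G0 F P c c (dp F.Lo (n + b))) := by
      intro n
      rw [mul_comm, two_mul F.k, pow_add]
      exact mul_le_mul_of_nonneg_right (mul_le_mul (PW_le h (card_range _).le _ _ _ _ _)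
        (PW_le h ((card_le_card s1).trans (card_range _).le) _ _ _ _ _) (PW_nonneg h _ _ _ _ _ _)
        (by positivity)) (mul_nonneg (ind_nonneg _) (G0_nonneg h _ _ _))
    refine (ex_mono e1).trans ?_
    rw [ex_mul, low h hp hZ hd b (G0 F P c c)]
    have e2 : Em F.Lo (G0 F P c c) = Em F.Lo fun T => ind (c ⊆ T) *
        (ind (gd F P c T) * 1 * (F.w c * F.w c / F.V 0 (F.m + 1) T)) := Em_congr fun T _ => by
      rw [G0, ind_and]
      by_cases u : c ⊆ T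
      · rw [ind_pos u]; ring
      · rw [ind_neg u]; ring
    rw [e2]
    nlinarith [mul_nonneg r4 r1]
  · have dne : pv c * p ≠ pv c' * p := fun u => e (pv_inj (fun q hq => h.prLo q (hc hq))
      (fun q hq => h.prLo q (hc' hq)) (Nat.eq_of_mul_eq_mul_right (h.prR p hp).pos u))
    have dj : Disjoint (st (range F.k) i0 b (pv c * p))
        (st ((range F.k).erase i0) i0 b (pv c' * p)) := by
      refine disjoint_left.2 fun s h1 h2 => ?_
      obtain ⟨i, hi1, rfl⟩ := mem_image.1 h1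
      obtain ⟨j, hj, u⟩ := mem_image.1 h2
      exact sites_ne h a.1.1 a.2.1 dne a.1.2.1 a.2.2.1 hi (mem_range.1 hi1)
        (mem_range.1 (s1 hj)) (ne_of_mem_erase hj) u.symm
    simp only [PW_eq h a.1.1, PW_eq h a.2.1, ← prod_union dj]
    refine (wind h hM hτ hp hZ hd b (G0_nonneg h c c') (fun s hs => (mem_union.1 hs).elim
      (st_lt a.1 Subset.rfl s) (st_lt a.2 s1 s)) ((card_union_le _ _).trans ?_)).trans ?_
    · have := st_card (F := F) Subset.rfl i0 b (pv c * p)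
      have := st_card s1 i0 b (pv c' * p)
      omega
    · have e2 : Em F.Lo (G0 F P c c') ≤ Em F.Lo fun T => ind (c ⊆ T) * (1 * F.w c) *
          (ind (c' ⊆ T) * (1 * F.w c')) / F.V 0 (F.m + 1) T := Em_mono fun T _ => by
        have z : 0 ≤ ind (c ⊆ T) * ind (c' ⊆ T) * (F.w c * F.w c' / F.V 0 (F.m + 1) T) :=
          mul_nonneg (mul_nonneg (ind_nonneg _) (ind_nonneg _))
            (div_nonneg (mul_nonneg (h.w_nonneg _) (h.w_nonneg _)) (h.V_nonneg _ _ _))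
        rw [G0, ind_and]
        refine le_trans (le_of_eq ?_) ((mul_le_mul_of_nonneg_left (ind_le_one (gd F P c T))
          z).trans (le_of_eq ?_)) <;> ring
      rw [if_neg e, add_zero]
      nlinarith [mul_le_mul_of_nonneg_left e2 r4]

theorem second (h : Hyp0 F P) (hM : 0 < P.Ms)
    (hτ : (2 * P.Λ ^ 2) ^ (2 * F.k) * tauI (2 * F.k) F.N P.Ms ≤ 1)
    (hΔ : (2 * P.Λ ^ 2) ^ (2 * F.k) * P.Λ ^ 2 ≤ P.Δ) {Z : ℕ} (hZ : 0 < Z)
    (hd : pv F.all ∣ Z) {i0 : ℕ} (hi : i0 < F.k) :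
    ex (fun n : Fin Z => ∑ b ∈ range F.N, ∑ p ∈ F.RR, ∑ c ∈ F.Lo.powerset,
      ∑ c' ∈ F.Lo.powerset, xq F P i0 n b c c' p) ≤ 6 * (P.Csb * P.Cl ^ 2) := by
  have L := h.LL0
  have L2 := h.L2
  have Δ0 : 0 < P.Δ := lt_of_lt_of_le (by positivity) hΔ
  have l0 : 0 < P.l F.m := one_pos.trans_le (h.l1 _)
  have e1 : ∀ b, ∀ p ∈ F.RR, ∑ c ∈ F.Lo.powerset, ∑ c' ∈ F.Lo.powerset,
      ex (fun n : Fin Z => xq F P i0 n b c c' p) ≤
      2 * F.N * kp F ^ 2 * F.LL * (3 * P.Csb / P.l F.m ^ 2) * (1 / p) := by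
    intro b p hp
    refine (sum_le_sum fun c hc => sum_le_sum fun c' hc' =>
      ex_xi h hM hτ hZ hd hi b (mem_powerset.1 hc) (mem_powerset.1 hc') hp).trans ?_
    simp only [← mul_sum, sum_add_distrib, sum_ite_eq]
    rw [mul_right_comm]
    refine mul_le_mul_of_nonneg_right (mul_le_mul_of_nonneg_left ?_ (by positivity))
      (by positivity)
    have a1 : ∑ c ∈ F.Lo.powerset, ∑ c' ∈ F.Lo.powerset,
        (Em F.Lo fun T => ind (c ⊆ T) * (ind (wp (Real.log (F.D / p)) c) * F.w c) *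
          (ind (c' ⊆ T) * (ind (wp (Real.log (F.D / p)) c') * F.w c')) / F.V 0 (F.m + 1) T)
        ≤ P.Csb / P.l F.m ^ 2 := by
      refine le_trans (le_of_eq ?_) (h.sb2 (Real.log (F.D / p)))
      simp only [← Em_sum]
      rw [sb_eq]
      refine Em_congr fun T hT => ?_
      simp only [← sum_div]
      rw [← sum_mul_sum, sum_sub_eq hT, sq]
      congr 2 <;> refine sum_congr rfl fun c _ => ?_ <;> rw [ind_eq] <;> split_ifs <;> simp
    have a2 : (∑ c ∈ F.Lo.powerset, if c ∈ F.Lo.powerset then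
        (2 * P.Λ ^ 2) ^ (2 * F.k) * Em F.Lo fun T => ind (c ⊆ T) *
          (ind (gd F P c T) * ind (wp (Real.log (F.D / p)) c) *
            (F.w c * F.w c / F.V 0 (F.m + 1) T)) else 0) ≤ 1 / P.l F.m ^ 2 := by
      rw [sum_congr rfl fun c hc => if_pos hc, ← mul_sum, sum_Em]
      refine (mul_le_mul_of_nonneg_left (diag h Δ0 _) (by positivity)).trans ?_
      rw [div_right_comm, ← mul_div_assoc, ← mul_div_assoc]
      exact div_le_div_of_nonneg_right ((div_le_one Δ0).2 hΔ) (by positivity)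
    have a3 : 1 / P.l F.m ^ 2 ≤ P.Csb / P.l F.m ^ 2 :=
      div_le_div_of_nonneg_right h.Csb1 (by positivity)
    rw [mul_div_assoc]
    linarith
  simp only [ex_sum]
  refine (sum_le_sum fun b _ => sum_le_sum (e1 b)).trans ?_
  rw [sum_const, card_range, nsmul_eq_mul, ← mul_sum]
  have N0 := h.N0
  have P0 := h.Pw0
  have C1 := h.Csb1
  have e2 : (F.N : ℝ) * (2 * F.N * kp F ^ 2 * F.LL * (3 * P.Csb / P.l F.m ^ 2) *
      ∑ p ∈ F.RR, 1 / (p : ℝ)) = 6 * (P.Csb * (1 / (F.Pw * P.l F.m)) ^ 2) := by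
    rw [show ∑ p ∈ F.RR, 1 / (p : ℝ) = F.LL from rfl, kp]
    field_simp
    ring
  have e3 : 1 / (F.Pw * P.l F.m) ≤ P.Cl := by
    rw [div_le_iff₀ (by positivity), ← mul_assoc]; exact h.win4
  rw [e2]
  gcongr

theorem amgm {τ x A v N t : ℝ} (hτ : 0 ≤ τ) (hA : 0 ≤ A) (hv : 0 ≤ v) (hN : 0 < N) (ht : 0 < t)
    (h : N * τ ^ 2 ≤ v * A) : τ * |x| ≤ t / 2 * A + 1 / (2 * t) * (v * x ^ 2 / N) := by
  have a : 0 ≤ t / 2 * A := by positivity
  have b : 0 ≤ 1 / (2 * t) * (v * x ^ 2 / N) := by positivity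
  refine abs_le_of_sq_le_sq' ?_ (add_nonneg a b) |>.2
  have c : (τ * |x|) ^ 2 ≤ 4 * (t / 2 * A) * (1 / (2 * t) * (v * x ^ 2 / N)) := by
    rw [mul_pow, sq_abs]
    have : 4 * (t / 2 * A) * (1 / (2 * t) * (v * x ^ 2 / N)) = v * A / N * x ^ 2 := by
      field_simp; ring
    rw [this]
    refine mul_le_mul_of_nonneg_right ?_ (sq_nonneg x)
    rw [le_div_iff₀ hN]; linarith
  nlinarith [sq_nonneg (t / 2 * A - 1 / (2 * t) * (v * x ^ 2 / N))]

end Role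

open Role in
theorem role : S_ROLE := by
  refine fun k => ⟨300, fun F P hk H Z s x i0 hZ hd hs hi hx hx0 => ?_⟩
  subst hk
  have h := H.toHyp0
  have L := h.L2
  have L1 : 1 ≤ P.Λ := by linarith
  have k2 := h.k2
  have hM := h.Ms0 H.ind
  have o1 : (2 * P.Λ ^ 2) ^ (2 * F.k) ≤ P.Λ ^ (6 * F.k) := by
    rw [show 6 * F.k = 3 * (2 * F.k) by ring, pow_mul P.Λ 3]
    exact pow_le_pow_left₀ (by positivity) (by nlinarith [sq_nonneg P.Λ]) _
  have hτ : (2 * P.Λ ^ 2) ^ (2 * F.k) * tauI (2 * F.k) F.N P.Ms ≤ 1 := by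
    have a := h.tauI_le H.ind (2 * F.k)
    have b : 2 * ((2 * F.k : ℕ) : ℝ) ^ 3 ≤ P.Λ ^ 7 := by
      have b1 : ((2 * F.k : ℕ) : ℝ) ≤ P.Λ ^ 2 := by push_cast; nlinarith [h.Lk]
      calc _ ≤ P.Λ * (P.Λ ^ 2) ^ 3 := by gcongr
        _ = _ := by ring
    have c : P.Λ ^ (6 * F.k) * P.Λ ^ 7 ≤ P.Λ ^ (300 * F.k) := by
      rw [← pow_add]; exact pow_le_pow_right₀ L1 (by omega)
    refine (mul_le_mul o1 (a.trans (div_le_div_of_nonneg_right b (by positivity)))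
      (tauI_nonneg _ (by exact_mod_cast h.N0') hM) (by positivity)).trans ?_
    rw [← mul_div_assoc]
    exact (div_le_one (by positivity)).2 c
  have hΔ : (2 * P.Λ ^ 2) ^ (2 * F.k) * P.Λ ^ 2 ≤ P.Δ := by
    refine le_trans ?_ H.diag
    have a : P.Λ ≤ P.Λ / P.vt := le_div_self (by linarith) h.vt0 h.vt1
    have b : 1 ≤ (P.La 0 + 2) ^ 2 := by nlinarith [h.La0 0]
    calc _ ≤ P.Λ ^ (6 * F.k) * P.Λ ^ 2 := by gcongr
      _ ≤ P.Λ ^ (300 * F.k) := by rw [← pow_add]; exact pow_le_pow_right₀ L1 (by omega)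
      _ ≤ (P.Λ / P.vt) ^ (300 * F.k) := by gcongr
      _ ≤ _ := le_mul_of_one_le_right (pow_nonneg (by linarith) _) b
  have η0 := h.η0
  have K0 : 0 < P.Csb * P.Cl ^ 2 := by
    have := h.Csb1; have := h.Cl1; positivity
  have K1 : 0 < P.Csb := one_pos.trans_le h.Csb1
  have K2 : 0 < P.Cl := one_pos.trans_le h.Cl1
  have t0 : 0 < P.η / (P.Csb * P.Cl ^ 2) := div_pos η0 K0
  have e1 : ∀ (n : Fin Z) (b : ℕ),
      (∑ c ∈ F.Lo.powerset, ∑ p ∈ F.RR, tm F (fun _ _ => True) i0 n b c p) * |x i0 n b| ≤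
      2 * (∑ c ∈ F.Lo.powerset, ∑ p ∈ F.RR,
        tm F (fun c T => F.Vl 0 T < P.Δ * F.wl 0 c) i0 n b c p) +
      (P.η / (P.Csb * P.Cl ^ 2) / 2 * ∑ p ∈ F.RR, ∑ c ∈ F.Lo.powerset, ∑ c' ∈ F.Lo.powerset,
        xq F P i0 n b c c' p + 1 / (2 * (P.η / (P.Csb * P.Cl ^ 2))) *
          (F.vv (n + b) * x i0 n b ^ 2 / F.N)) := by
    intro n b
    simp only [tm_split (fun c T => F.Vl 0 T < P.Δ * F.wl 0 c), sum_add_distrib, add_mul]
    refine add_le_add ?_ (amgm (sum_nonneg fun c _ => sum_nonneg fun p _ =>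
      tm_nonneg h _ _ _ _ _ _) (sum_nonneg fun p _ => sum_nonneg fun c _ => sum_nonneg fun c' _ =>
        xi_nonneg h _ _ _ _ _ _) (h.vv_nonneg _) h.N0 t0 (sq_le h hi n b))
    rw [mul_comm]
    exact mul_le_mul_of_nonneg_right (hx0 n b) (sum_nonneg fun c _ => sum_nonneg fun p _ =>
      tm_nonneg h _ _ _ _ _ _)
  refine (regroup h hs hi hx).trans ((ex_mono fun n => sum_le_sum fun b _ => e1 n b).trans ?_)
  simp only [sum_add_distrib, ← mul_sum, ← sum_div]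
  rw [ex_add, ex_add, ex_mul, ex_mul, ex_mul]
  have a1 := (mass h hM hτ hZ hd (fun c T => F.Vl 0 T < P.Δ * F.wl 0 c) i0).trans
    (mul_le_mul_of_nonneg_left h.ext (by norm_num))
  have a2 := mul_le_mul_of_nonneg_left (second h hM hτ hΔ hZ hd hi) (half_pos t0).le
  have a3 : P.η / (P.Csb * P.Cl ^ 2) / 2 * (6 * (P.Csb * P.Cl ^ 2)) = 3 * P.η := by
    field_simp; ring
  have a4 : 1 / (2 * (P.η / (P.Csb * P.Cl ^ 2))) ≤ (300 : ℕ) * P.Csb * P.Cl ^ 2 / P.η := by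
    rw [div_le_div_iff₀ (by positivity) η0]
    have : ((300 : ℕ) : ℝ) * P.Csb * P.Cl ^ 2 * (2 * (P.η / (P.Csb * P.Cl ^ 2))) = 600 * P.η := by
      push_cast; field_simp; ring
    rw [this]; linarith
  have a5 := mul_le_mul_of_nonneg_right a4 (ex_nonneg fun n : Fin Z => div_nonneg
    (sum_nonneg fun b (_ : b ∈ range F.N) => mul_nonneg (h.vv_nonneg (n + b))
      (sq_nonneg (x i0 n b))) h.N0.le)
  push_cast at a5 ⊢
  linarith

end Pool.Agent.P.MP_a14ce1_nt.Fu.St
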