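import Pool.Agent.P.MP_a14ce1_nt.Fu.Mass

/-!
Section 2 and the mean of the population weight.
-/

open Finset

namespace Pool.Agent.P.MP_a14ce1_nt.Fu.St.Bi

open Ch (mu pv lam rs)
open Ch.Main (Tn)

variable {F : Fam} {P : Par}

theorem card_II (h : Hyp0 F P) {c : Finset ℕ} {p : ℕ} (hp : p ∈ PS F c) :
    F.N ≤ 2 * (II F c p).card := by
  have h1 := win_half h (mem_filter.1 hp).2
  have h2 : range (F.N - (F.k - 1) * (pv c * p)) ⊆ II F c p := fun a ha => by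
    have := mem_range.1 ha
    exact mem_filter.2 ⟨mem_range.2 (by omega), by omega⟩
  have := card_le_card h2
  rw [card_range] at this
  omega

theorem norm_v (h : Hyp0 F P) : (F.N : ℝ) * ∑ c ∈ F.Lo.powerset, ∑ p ∈ PS F c,
    F.w c / (F.LL * F.N * F.Pw) / (pv c * p : ℕ) = 1 := by
  have N0 : (0 : ℝ) < F.N := by exact_mod_cast N_pos h
  have p0 := h.Pw0
  have e : F.Pw = ∑ c ∈ F.Lo.powerset, ∑ p ∈ PS F c, F.w c / (pv c * p * F.LL) := by
    simp only [PS, sum_filter]; rfl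
  rw [← div_self p0.ne']
  conv_rhs => enter [1]; rw [e]
  rw [sum_div, mul_sum]
  refine sum_congr rfl fun c _ => ?_
  rw [sum_div, mul_sum]
  refine sum_congr rfl fun p _ => ?_
  push_cast
  simp only [div_eq_mul_inv, mul_inv]
  linear_combination (F.w c * F.LL⁻¹ * F.Pw⁻¹ * (pv c : ℝ)⁻¹ * (p : ℝ)⁻¹) * mul_inv_cancel₀ N0.ne'

theorem cor_sum (k : ℕ) {X Y E : ℕ} (h1 : Y ≤ X) (h2 : X ≤ Y + E) :
    |∑ n ∈ Icc 1 X, cor k n - ∑ n ∈ range Y, cor k n| ≤ E + 2 := by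
  have a : ∀ n, |cor k n| = 1 := abs_cor k
  have e1 : ∑ n ∈ range (X + 1), cor k n = cor k 0 + ∑ n ∈ Icc 1 X, cor k n := by
    rw [range_eq_Ico, sum_eq_sum_Ico_succ_bot (Nat.succ_pos X)]; rfl
  have e2 := sum_range_add_sum_Ico (cor k) (h1.trans (Nat.le_succ X))
  have e3 : |∑ n ∈ Ico Y (X + 1), cor k n| ≤ E + 1 := by
    refine (abs_sum_le_sum_abs _ _).trans ?_
    simp only [a, sum_const, Nat.card_Ico, nsmul_eq_mul, mul_one]
    exact_mod_cast (by omega : X + 1 - Y ≤ E + 1)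
  have e4 := (a 0).le
  rw [abs_le] at e3 e4 ⊢
  constructor <;> linarith [e3.1, e3.2, e4.1, e4.2]

theorem Tf_eq (Z : ℕ) (σ : ℝ) :
    F.Tf Z (fun d => σ * lam d ^ F.k) (fun _ n b => lam (n + b)) =
    σ * ex fun n : Fin Z => ∑ c ∈ F.Lo.powerset, ∑ p ∈ PS F c, ∑ a ∈ II F c p,
      F.w c / (F.LL * F.N * F.Pw) *
      if pv c * p ∣ n + a then lam (pv c * p) ^ F.k * ∏ j ∈ range F.k,
        Ws F p (Tn F.TT (n + a + j * (pv c * p))) * lam (n + a + j * (pv c * p)) else 0 := by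
  rw [← ex_mul]
  refine ex_congr fun n => ?_
  rw [sum_eq, mul_sum]
  refine sum_congr rfl fun c _ => ?_
  rw [mul_sum]
  refine sum_congr rfl fun p _ => ?_
  rw [mul_sum]
  refine sum_congr rfl fun a _ => ?_
  simp only [W_eq, add_assoc]
  split_ifs
  · ring
  · simp

/-- section 2 -/
theorem bias : S_BIAS := by
  intro k
  refine ⟨100 * k + 100, fun F P hk h δ τ δ0 hε hη hτ E => ?_⟩
  subst hk
  have h0 := h.toHyp0
  have L2 := two_le h0
  have e0 := h.e0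
  have e4 := eps_le h0
  have D1 := D_ge h0
  have η0 := h.η0
  have k0 : (0 : ℝ) ≤ F.k := Nat.cast_nonneg _
  have E0 : (0 : ℝ) ≤ E := Nat.cast_nonneg _
  push_cast at hε hη
  have c7 : 100 * F.ε ≤ δ := by nlinarith
  have c8 : 100 * P.η ≤ δ := by nlinarith
  have c9 : 100 * (F.k * P.η) ≤ δ := by nlinarith
  set Q := 400 * (P.Λ ^ 3) ^ F.k * F.N * F.D / δ with hQ
  have Q0 : 0 ≤ Q := by positivity
  have T1 : 0 ≤ 2 * E / F.ε := by positivity
  have T2 : 0 ≤ 10 * (E + 2) / δ := by positivity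
  refine ⟨⌈2 * E / F.ε + 10 * (E + 2) / δ + Q + 1⌉₊ + E,
    fun X Y Z σ hX hYX hXY hZ1 hZ2 dZ dY hσ hb hD => ?_⟩
  have x1 : 2 * E / F.ε + 10 * (E + 2) / δ + Q + 1 + E ≤ X :=
    le_trans (add_le_add_left (Nat.le_ceil _) _) (by exact_mod_cast hX)
  have yx : (Y : ℝ) ≤ X := by exact_mod_cast hYX
  have xy : (X : ℝ) ≤ Y + E := by exact_mod_cast hXY
  have X0 : (0 : ℝ) < X := by linarith
  have xz : (X : ℝ) ≤ Z + E := le_trans (le_mul_of_one_le_left X0.le D1) hZ2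
  have Y0 : (0 : ℝ) < Y := by linarith
  have Z0 : (0 : ℝ) < Z := by linarith
  have b1 : 2 * E ≤ F.ε * Y := by rw [← div_le_iff₀' e0]; linarith
  have b2 : 2 * E ≤ F.ε * Z := by rw [← div_le_iff₀' e0]; linarith
  have b3 : 10 * (E + 2) ≤ δ * Y := by rw [← div_le_iff₀' δ0]; linarith
  have sg : ∀ x : ℝ, σ * x ≤ |x| := fun x =>
    (le_abs_self _).trans (by rw [abs_mul, hσ, one_mul])
  have δ1 : δ ≤ 1 := by
    refine le_of_mul_le_mul_right (hb.trans ((sg _).trans ?_)) X0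
    refine (abs_sum_le_sum_abs _ _).trans (le_of_eq ?_)
    have a : ∀ n, |cor F.k n| = 1 := abs_cor F.k
    simp [a]
  have β1 : 9 / 10 * δ ≤ σ * ((∑ m ∈ range Y, Fu.cor F.k m) / Y) := by
    have a1 := (sg _).trans (cor_sum F.k hYX hXY)
    rw [← mul_div_assoc, le_div_iff₀ Y0]
    have a2 := mul_le_mul_of_nonneg_left yx δ0.le
    rw [mul_sub] at a1
    change _ ≤ σ * ∑ m ∈ range Y, cor F.k m
    linarith
  have τ0 : 0 ≤ τ := (abs_nonneg _).trans (hD (fun _ => 0) (fun _ => rfl) fun _ => by simp)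
  have wd : ∀ {c p}, p ∈ PS F c → F.D ≤ (pv c * p : ℕ) ∧ ((pv c * p : ℕ) : ℝ) < (1 + F.ε) * F.D :=
    fun hp => (mem_filter.1 hp).2
  have key := (prog h (by exact_mod_cast Z0) dZ).bias (Z := Y) (ε := 2 * F.ε) (θ := τ) (η := P.η)
    (dm := 2 * F.D) (σ := σ) (by exact_mod_cast k_le_N h0) dY (by exact_mod_cast Y0)
    (Dec.of_one hD) τ0 hσ (le_trans (by positivity) β1)
    (fun c _ p hp => by
      have a1 := (wd hp).1
      set d : ℝ := ((pv c * p : ℕ) : ℝ)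
      calc (Z : ℝ) ≤ d * X := hZ1.trans (mul_le_mul_of_nonneg_right a1 X0.le)
        _ ≤ d * ((1 + 2 * F.ε) * Y) := mul_le_mul_of_nonneg_left (by nlinarith) (by linarith)
        _ = _ := by ring)
    (fun c _ p hp => by
      have a1 := (wd hp).2.le
      set d : ℝ := ((pv c * p : ℕ) : ℝ)
      calc d * Y ≤ (1 + F.ε) * F.D * X := mul_le_mul a1 yx Y0.le (by positivity)
        _ ≤ (1 + F.ε) * (Z + E) := by
          rw [mul_assoc]; exact mul_le_mul_of_nonneg_left hZ2 (by positivity)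
        _ ≤ _ := by nlinarith)
    (by positivity) (fun c _ p hp => (wd hp).2.le.trans (by nlinarith))
    (by linarith [h.η1]) (fun c _ p _ => h.Ewk.trans_eq (Em_Ws h0 p).symm) (norm_v h0)
    (II F) (fun c p => filter_subset _ _) fun c _ p hp => card_II h0 hp
  rw [Tf_eq]
  refine le_trans ?_ key
  have c1 : 99 / 100 ≤ (1 - P.η) ^ F.k := by
    have := one_add_mul_le_pow (a := -P.η) (by linarith [h.η1]) F.k
    rw [← sub_eq_add_neg] at this
    linarith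
  have c2 : 9 / 10 * δ * (99 / 100) ≤
      σ * ((∑ m ∈ range Y, Fu.cor F.k m) / Y) * (1 - P.η) ^ F.k :=
    mul_le_mul β1 c1 (by norm_num) (le_trans (by positivity) β1)
  have c3 : (P.Λ ^ 3) ^ F.k * τ ≤ P.η := by
    refine le_trans (mul_le_mul_of_nonneg_right ?_ τ0) hτ
    rw [← pow_mul]
    exact pow_le_pow_right₀ (by linarith) (Nat.mul_le_mul_right _ (by omega))
  have c4 := tau_small h (by omega)
  have c5 : 0 ≤ (P.Λ ^ 3) ^ F.k * tauI F.k F.N P.Ms := mul_nonneg (by positivity)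
    (tauI_nonneg _ (by exact_mod_cast N_pos h0) (Ms_pos h))
  have c6 : (P.Λ ^ 3) ^ F.k * (2 * F.N * (2 * F.D) / Z) ≤ δ / 100 := by
    have a1 : 400 * (P.Λ ^ 3) ^ F.k * F.N * F.D ≤ Z * δ := by
      rw [← div_le_iff₀ δ0]; linarith
    rw [← mul_div_assoc, div_le_iff₀ Z0]
    linarith
  rw [mul_add, mul_add, mul_left_comm _ (1 + 2 * (2 * F.ε))]
  linarith [mul_le_mul_of_nonneg_right e4 c5]

theorem Em_VG (h : Hyp0 F P) (t : ℕ) : Em (F.G t) (fun A => (F.B t + 1) ^ A.card / F.ZG t) = 1 := by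
  have e : Em (F.G t) (fun A => ∏ _q ∈ A, (F.B t + 1)) = _ :=
    PL.Ep_prod (κ := PL.kN) fun _ => F.B t + 1
  simp only [prod_const] at e
  rw [Em_div, e, div_eq_one_iff_eq (ZG_pos h t).ne']
  exact prod_congr rfl fun q _ => by unfold PL.kN; ring

theorem Em_VR (t : ℕ) : Em (F.R t) (fun A => (A.card.choose (F.r t) : ℝ) / F.ZR t) ≤ 1 := by
  have e : Em (F.R t) (fun A => (A.card.choose (F.r t) : ℝ)) = _ := PL.Ep_choose (κ := PL.kN) _
  have e2 : PL.es PL.kN (F.R t) (F.r t) = F.ZR t := sum_congr rfl fun Q _ => by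
    simp only [PL.kN, pv, prod_div_distrib, prod_const_one, Nat.cast_prod]
  rw [Em_div, e, e2]
  exact div_self_le_one _

theorem Vl_nonneg (h : Hyp0 F P) (t : ℕ) (A : Finset ℕ) : 0 ≤ F.Vl t A := by
  have := h.B1 t
  have := ZG_pos h t
  have := ZR_nonneg (F := F) t
  unfold Fam.Vl Fam.VG Fam.VR
  positivity

theorem Vl_inter (t : ℕ) (A : Finset ℕ) : F.Vl t (A ∩ F.cl t) = F.Vl t A := by
  simp only [Fam.Vl, Fam.VG, Fam.VR, Fam.cl, inter_assoc, union_inter_cancel_left,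
    union_inter_cancel_right]

theorem Em_Vl (h : Hyp0 F P) {t : ℕ} (ht : t ≤ F.m) : Em (F.cl t) (F.Vl t) ≤ 1 := by
  have := Em_mul_inter (h.dGR t ht) (fun A => (F.B t + 1) ^ A.card / F.ZG t)
    fun A => (A.card.choose (F.r t) : ℝ) / F.ZR t
  rw [Em_VG h, one_mul] at this
  exact this.trans_le (Em_VR t)

theorem Em_V (h : Hyp0 F P) : Em F.Lo (F.V 0 (F.m + 1)) ≤ 1 := by
  have e : Em F.Lo (fun A => ∏ t ∈ Ico 0 (F.m + 1), F.Vl t (A ∩ F.cl t)) = _ :=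
    PL.Ep_prod_inter (κ := PL.kN) (Ico 0 (F.m + 1)) F.cl
      (fun t ht => subset_biUnion_of_mem F.cl ht)
      (fun s hs t ht => h.dcl (Nat.lt_succ_iff.1 (mem_Ico.1 hs).2)
        (Nat.lt_succ_iff.1 (mem_Ico.1 ht).2)) F.Vl
  simp only [Vl_inter] at e
  exact e.trans_le (prod_le_one (fun t _ => Em_nonneg fun A _ => Vl_nonneg h t A)
    fun t ht => Em_Vl h (Nat.lt_succ_iff.1 (mem_Ico.1 ht).2))

theorem pi1_nonneg : 0 ≤ F.pi1 := Em_nonneg fun A _ => by split_ifs <;> norm_num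

theorem Em_zj : Em F.RR F.zj ≤ 1 := (Em_div _ _ _).trans_le (div_self_le_one _)

/-- the mean of the population weight -/
theorem vv : S_VV := by
  intro F P h Z b hZ hd
  have e1 := ex_fin_Em h.pr hd hZ b fun A => F.V 0 (F.m + 1) (A ∩ F.Lo) *
    (fun B => F.vk (B ∩ F.U) * F.zj (B ∩ F.RR) * F.ze (B ∩ F.HH)) (A ∩ F.TT)
  have e2 := Em_mul_inter h.dLo (F.V 0 (F.m + 1))
    fun B => F.vk (B ∩ F.U) * F.zj (B ∩ F.RR) * F.ze (B ∩ F.HH)
  rw [Em_three h, ← EG_eq F.HH, h.Eze, mul_one] at e2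
  replace e1 := e1.trans e2
  have tt : F.TT ⊆ F.all := subset_union_right
  have tl : F.Lo ⊆ F.all := subset_union_left
  refine le_of_eq_of_le ((ex_congr fun n => ?_).trans e1) (mul_le_one₀ (Em_V h)
    (mul_nonneg (Em_nonneg fun A _ => (h.wk0 A).trans (h.wkv A)) (Em_nonneg fun A _ =>
      div_nonneg (by split_ifs <;> norm_num) pi1_nonneg))
    (mul_le_one₀ h.Evk (Em_nonneg fun A _ =>
      div_nonneg (by split_ifs <;> norm_num) pi1_nonneg) Em_zj))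
  change _ = F.V 0 (F.m + 1) (Tn F.all _ ∩ _) *
    (F.vk (Tn F.all _ ∩ _ ∩ _) * F.zj (Tn F.all _ ∩ _ ∩ _) * F.ze (Tn F.all _ ∩ _ ∩ _))
  rw [dp_inter tt, dp_inter tl]
  change _ = _ * (F.vk (Tn _ _ ∩ _) * F.zj (Tn _ _ ∩ _) * F.ze (Tn _ _ ∩ _))
  rw [dp_inter U_sub, dp_inter RR_sub, dp_inter HH_sub, Fam.vv, Fam.z0]
  ring

end Pool.Agent.P.MP_a14ce1_nt.Fu.St.Bi
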