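import Pool.Agent.P.MP_a14ce1_nt.Fu.Loc
import Pool.Agent.P.MP_a14ce1_nt.IV.Pig
import Pool.Agent.P.MP_a14ce1_nt.IV.Sel
import Pool.Agent.P.MP_a14ce1_nt.Ch.Mertens

/-!
Section 1 of the lifting argument on one interval: choice of the window length, of the dyadic
blocks that avoid a range of primes, and of the groups.
-/

open Finset
open scoped ComplexConjugate

namespace Pool.Agent.P.MP_a14ce1_nt.Fu.Loc

open Ch (rs om)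
open V (PP)
open IV (Hull Gr Up Ep gn grp)
open IV.PigP (Ep_le gr_mid tele pigeon)

theorem dsI_par (lo hi : ℕ) (f φ ψ : ℕ → ℂ) : dsI lo hi φ ψ = 2 * dsI lo hi f ψ +
    2 * dsI lo hi f φ - 4 * dsI lo hi f ((1 / 2 : ℝ) • φ + (1 / 2 : ℝ) • ψ) := by
  simp only [dsI, mul_sum, ← sum_add_distrib, ← sum_sub_distrib]
  refine sum_congr rfl fun n _ => ?_
  have : ‖φ n - ψ n‖ ^ 2 = 2 * ‖f n - ψ n‖ ^ 2 + 2 * ‖f n - φ n‖ ^ 2 -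
      4 * ‖f n - ((1 / 2 : ℝ) • φ + (1 / 2 : ℝ) • ψ) n‖ ^ 2 := by
    simp only [Complex.sq_norm, Complex.normSq_apply, Pi.add_apply, Pi.smul_apply, Complex.sub_re,
      Complex.sub_im, Complex.add_re, Complex.add_im, Complex.smul_re, Complex.smul_im,
      smul_eq_mul]
    ring
  rw [this]; ring

theorem dsI_tri (lo hi : ℕ) (φ ψ χ : ℕ → ℂ) :
    dsI lo hi φ ψ ≤ 2 * dsI lo hi φ χ + 2 * dsI lo hi ψ χ := by
  simp only [dsI, mul_sum, ← sum_add_distrib]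
  refine sum_le_sum fun n _ => ?_
  have : ‖φ n - ψ n‖ ^ 2 ≤ 2 * ‖φ n - χ n‖ ^ 2 + 2 * ‖ψ n - χ n‖ ^ 2 := by
    simp only [Complex.sq_norm, Complex.normSq_apply, Complex.sub_re, Complex.sub_im]
    nlinarith [sq_nonneg ((φ n).re + (ψ n).re - 2 * (χ n).re),
      sq_nonneg ((φ n).im + (ψ n).im - 2 * (χ n).im)]
  calc _ ≤ (2 * ‖φ n - χ n‖ ^ 2 + 2 * ‖ψ n - χ n‖ ^ 2) / n := by gcongr
    _ = _ := by ring

theorem dsI_up {χ f : ℕ → ℂ} {p : ℕ} (h1 : ‖χ p‖ = 1) (h2 : Eqv χ f p) (lo hi : ℕ) (Ψ : ℕ → ℂ) :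
    dsI lo hi f (Up χ p Ψ) = ∑ m ∈ Ioc lo hi, ‖f (p * m) - Ψ (p * m)‖ ^ 2 / m := by
  refine sum_congr rfl fun m hm => ?_
  have hm0 : m ≠ 0 := by have := (mem_Ioc.1 hm).1; omega
  have h3 : χ p * conj (χ p) = 1 := by
    rw [Complex.mul_conj, Complex.normSq_eq_norm_sq, h1]; simp
  have h4 : f (p * m) - Ψ (p * m) = χ p * (f m - Up χ p Ψ m) := by
    rw [h2 m hm0, Up, mul_sub, ← mul_assoc, h3, one_mul]
  rw [h4, norm_mul, h1, one_mul]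

/-- the local distance to the functions structured on a grid -/
noncomputable def DD (XX : Set (ℕ → ℂ)) (f : ℕ → ℂ) (lo hi : ℕ) (ρ : ℝ) : ℝ :=
  sInf (dsI lo hi f '' {Ψ | Gr XX ρ Ψ})

theorem DD_le {XX : Set (ℕ → ℂ)} (f : ℕ → ℂ) (lo hi : ℕ) {ρ : ℝ} {Ψ : ℕ → ℂ} (h : Gr XX ρ Ψ) :
    DD XX f lo hi ρ ≤ dsI lo hi f Ψ := by
  refine csInf_le ⟨0, ?_⟩ ⟨Ψ, h, rfl⟩
  rintro _ ⟨Φ, -, rfl⟩
  exact dsI_nonneg _ _ _ _

theorem DD_nonneg (XX : Set (ℕ → ℂ)) (f : ℕ → ℂ) (lo hi : ℕ) (ρ : ℝ) : 0 ≤ DD XX f lo hi ρ := by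
  refine Real.sInf_nonneg ?_
  rintro _ ⟨Φ, -, rfl⟩
  exact dsI_nonneg _ _ _ _

theorem DD_ex {XX : Set (ℕ → ℂ)} (h : Hull XX) (f : ℕ → ℂ) (lo hi : ℕ) (ρ : ℝ) {τ : ℝ}
    (hτ : 0 < τ) : ∃ Ψ, Gr XX ρ Ψ ∧ dsI lo hi f Ψ ≤ DD XX f lo hi ρ + τ := by
  obtain ⟨_, ⟨Ψ, h1, rfl⟩, h2⟩ := exists_lt_of_csInf_lt
    (Set.Nonempty.image (dsI lo hi f) (s := {Ψ | Gr XX ρ Ψ}) ⟨0, IV.gr_zero h ρ⟩)
    (lt_add_of_pos_right (DD XX f lo hi ρ) hτ)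
  exact ⟨Ψ, h1, h2.le⟩

/-- choice of the window length by pigeonholing, on one interval -/
theorem pig {XX : Set (ℕ → ℂ)} (hX : Hull XX) {χ f : ℕ → ℂ} (hχ : ∀ n, ‖χ n‖ ≤ 1)
    (hf : ∀ n, ‖f n‖ ≤ 1) {P : Finset ℕ} {Pm H : ℝ} {lo hi r : ℕ} (hPm : 2 ≤ Pm)
    (hP : ∀ p ∈ P, p.Prime ∧ (p : ℝ) ≤ Pm ∧ ‖χ p‖ = 1 ∧ Eqv χ f p) (hrs : 0 < rs P) (hr : 1 ≤ r)
    (hH : Pm ^ (2 * r) ≤ H) (hlo : Pm ≤ lo) (hhi : lo ≤ hi) {Ψ0 : ℕ → ℂ} (h0 : Gr XX H Ψ0) :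
    ∃ (ρ : ℝ) (Ψ Ψ1 : ℕ → ℂ), H ≤ ρ * Pm ^ (2 * r) ∧ ρ * Pm ^ 2 ≤ H ∧ Gr XX (ρ * Pm ^ 2) Ψ ∧
      Gr XX ρ Ψ1 ∧ gnI lo hi f Ψ0 - 12 * (r / Pm * LL lo hi + 1) ≤ gnI lo hi f Ψ1 ∧
      Ep P (fun p => dsI lo hi Ψ1 (Up χ p Ψ)) ≤
        80 * ((1 / r + 1 / √(rs P) + 1 / Pm) * LL lo hi + Real.log Pm) := by
  have hlo1 : 1 ≤ lo := by
    have : (1 : ℝ) ≤ lo := by linarith
    exact_mod_cast this
  set Λ := LL lo hi with hΛ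
  have hΛ1 : 1 ≤ Λ := one_le_LL hlo1 hhi
  have hPm0 : 0 < Pm := by linarith
  have hPm1 : 1 ≤ Pm := by linarith
  have ht : 1 / Pm ≤ 1 / 2 := one_div_le_one_div_of_le two_pos hPm
  have hlog : 1 / 2 ≤ Real.log Pm := by
    have := Real.log_two_gt_d9
    have := Real.log_le_log two_pos hPm
    linarith
  have hH0 : 0 < H := lt_of_lt_of_le (by positivity) hH
  set Hs : ℕ → ℝ := fun i => H / Pm ^ (2 * i) with hHs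
  have hs1 : ∀ i ≤ r, 1 ≤ Hs i := fun i hi => by
    rw [hHs, one_le_div (by positivity)]
    exact (pow_le_pow_right₀ hPm1 (by omega)).trans hH
  have hs2 : ∀ i, Hs (i + 1) * Pm ^ 2 = Hs i := fun i => by
    simp only [hHs]; field_simp; ring
  have hs0 : ∀ i, 0 < Hs i := fun i => by simp only [hHs]; positivity
  have hs3 : ∀ i, ∀ p : ℝ, 0 < p → p ≤ Pm → Hs (i + 1) ≤ 1 / Pm * (Hs i / p) := fun i p h1 h2 => by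
    have := hs0 (i + 1)
    rw [← hs2 i]
    calc Hs (i + 1) = 1 / Pm * (Hs (i + 1) * Pm ^ 2 / Pm) := by field_simp
      _ ≤ _ := by gcongr
  set D : ℕ → ℝ := fun i => DD XX f lo hi (Hs i) with hD
  have hstep : ∀ i < r, D (i + 1) ≤ D i + 12 * (1 / Pm) * Λ := fun i gi => by
    refine le_of_forall_pos_le_add fun τ hτ => ?_
    obtain ⟨Ψ, g1, g2⟩ := DD_ex hX f lo hi (Hs i) hτ
    obtain ⟨Ψ', g3, g4⟩ := regrid hX (hs1 _ gi) (t := 1 / Pm) (ρ := Hs i)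
      (by simpa using hs3 i 1 one_pos hPm1) (by positivity) ht g1
    have g5 := (g4 lo hi hlo1 hhi).2 f hf
    have g6 := DD_le f lo hi g3
    simp only [hD]; linarith
  have hD0 : D 0 ≤ dsI lo hi f Ψ0 := DD_le f lo hi (by simpa [hHs] using h0)
  have hD1 : D 0 ≤ Λ := by
    refine (DD_le f lo hi (IV.gr_zero hX _)).trans ?_
    linarith [dsI_zero_le hlo1 hhi hf]
  obtain ⟨i, gi, hpi⟩ := pigeon D hr hD1 (DD_nonneg _ _ _ _ _)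
  obtain ⟨Ψ, g1, g2⟩ := DD_ex hX f lo hi (Hs i) (τ := 1 / 2) (by norm_num)
  obtain ⟨Ψ1, g3, g4⟩ := DD_ex hX f lo hi (Hs (i + 1)) (τ := 1 / 2) (by norm_num)
  change _ ≤ D i + _ at g2
  change _ ≤ D (i + 1) + _ at g4
  refine ⟨Hs (i + 1), Ψ, Ψ1, ?_, ?_, by rwa [hs2], g3, ?_, ?_⟩
  · have e : H = Hs (i + 1) * Pm ^ (2 * (i + 1)) := by simp only [hHs]; field_simp
    have := hs0 (i + 1)
    rw [e]
    exact mul_le_mul_of_nonneg_left (pow_le_pow_right₀ hPm1 (by omega)) this.le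
  · rw [hs2]
    exact div_le_self hH0.le (one_le_pow₀ hPm1)
  · have h1 := tele D _ (i + 1) fun k hk => hstep k (by omega)
    have h2 : ((i + 1 : ℕ) : ℝ) ≤ r := by exact_mod_cast gi
    have h3 : ((i + 1 : ℕ) : ℝ) * (12 * (1 / Pm) * Λ) ≤ r * (12 * (1 / Pm) * Λ) := by gcongr
    have h5 : r * (12 * (1 / Pm) * Λ) = 12 * (r / Pm * Λ) := by ring
    rw [gnI_eq, gnI_eq]
    linarith
  · have key : ∀ p ∈ P, dsI lo hi Ψ1 (Up χ p Ψ) ≤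
        4 * (∑ m ∈ Ioc lo hi, ‖f (p * m) - Ψ (p * m)‖ ^ 2 / m) +
          (2 + 72 * (1 / Pm * Λ) - 4 * D (i + 1)) := fun p hp => by
      have hp0 := (hP p hp).1.pos
      obtain ⟨U, k1, k2⟩ := regrid hX (hs1 _ gi) (t := 1 / Pm) (ρ := Hs i / p)
        (hs3 i p (by exact_mod_cast hp0) (hP p hp).2.1) (by positivity) ht (g1.up hX hχ hp0)
      obtain ⟨k2, k3⟩ := k2 lo hi hlo1 hhi
      have k4 := k3 f hf
      have k5 := dsI_par lo hi f Ψ1 U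
      have k6 : D (i + 1) ≤ _ := DD_le f lo hi (gr_mid hX g3 k1)
      have k7 := dsI_tri lo hi Ψ1 (Up χ p Ψ) U
      rw [← dsI_up (hP p hp).2.2.1 (hP p hp).2.2.2 lo hi Ψ]
      linarith
    have h1 := Ep_le hrs key
    have h2 := tklog (B := 4) (φ := fun n => ‖f n - Ψ n‖ ^ 2) hPm
      (fun p hp => ⟨(hP p hp).1, (hP p hp).2.1⟩) hrs hlo hhi fun n => by
      have a1 := hf n
      have a2 := g1.bd hX (hs0 i) n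
      have a3 := norm_sub_le (f n) (Ψ n)
      exact ⟨by positivity, by nlinarith [norm_nonneg (f n - Ψ n)]⟩
    change _ ≤ dsI lo hi f Ψ + _ at h2
    have h3 : 0 ≤ Λ / r := by positivity
    have h4 : 0 ≤ Λ / √(rs P) := by positivity
    have h5 : 0 ≤ 1 / Pm * Λ := by positivity
    have h6 : (1 / r + 1 / √(rs P) + 1 / Pm) * Λ = Λ / r + Λ / √(rs P) + 1 / Pm * Λ := by ring
    rw [h6]
    linarith

/-- section 1 on one interval, when f transforms like χ under all primes of the pool -/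
theorem sec1 : ∃ s0 : ℕ, ∀ (XX : Set (ℕ → ℂ)), Hull XX → ∀ (χ f : ℕ → ℂ), (∀ n, ‖χ n‖ ≤ 1) →
    (∀ n, ‖f n‖ ≤ 1) → ∀ (s j0 L r lo hi : ℕ) (Pm H : ℝ) (Ψ0 : ℕ → ℂ), s0 ≤ s → 1 ≤ s → 1 ≤ j0 →
    1 ≤ L → 1 ≤ r → (2 : ℝ) ^ (s * j0 * 2 ^ L) ≤ Pm → Pm ^ (2 * r) ≤ H → Pm ≤ lo → lo ≤ hi →
    (∀ p ∈ PP (s * j0) (s * j0 * 2 ^ L), ‖χ p‖ = 1 ∧ Eqv χ f p) → Gr XX H Ψ0 →
    ∃ (ρ : ℝ) (Ψ Ψ1 : ℕ → ℂ) (J : ℕ), H ≤ ρ * Pm ^ (2 * r) ∧ ρ * Pm ^ 2 ≤ H ∧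
      Gr XX (ρ * Pm ^ 2) Ψ ∧ Gr XX ρ Ψ1 ∧
      gnI lo hi f Ψ0 - 12 * (r / Pm * LL lo hi + 1) ≤ gnI lo hi f Ψ1 ∧
      j0 ≤ J ∧ 2 * J ≤ j0 * 2 ^ L ∧ ∀ l : ℕ, 2 * l ≤ J → ∃ g : Fin l → ℕ,
        Function.Injective g ∧ ∀ k, J ≤ g k ∧ g k < 2 * J ∧ 1 ≤ 4 * J * rs (grp s (g k)) ∧
          Ep (grp s (g k)) (fun p => dsI lo hi Ψ1 (Up χ p Ψ)) ≤
            2560 * ((1 / r + 1 / √L + 1 / Pm) * LL lo hi + Real.log Pm) := by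
  obtain ⟨s0, hS⟩ := IV.sel (IV.grpM Ch.m2)
  refine ⟨s0, fun XX hX χ f hχ hf s j0 L r lo hi Pm H Ψ0 hs hs1 hj hL hr hPm hH hlo hhi hE h0 => ?_⟩
  have hL1 : (1 : ℝ) ≤ L := by exact_mod_cast hL
  have hr1 : (1 : ℝ) ≤ r := by exact_mod_cast hr
  have hR1 := (hS s j0 L (fun _ => 0) hs hj hL fun _ => le_rfl).1
  have hR0 : 0 < rs (PP (s * j0) (s * j0 * 2 ^ L)) := by linarith
  have h2 : 2 ≤ Pm := le_trans (le_self_pow₀ one_le_two (by positivity)) hPm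
  have hlo1 : 1 ≤ lo := by
    have : (1 : ℝ) ≤ lo := by linarith
    exact_mod_cast this
  obtain ⟨ρ, Ψ, Ψ1, a1, a2, a3, a4, a5, a6⟩ := pig hX hχ hf
    (P := PP (s * j0) (s * j0 * 2 ^ L)) h2 (fun p hp => by
      have hp' := V.mem_PP.1 hp
      exact ⟨hp'.1, le_trans (by exact_mod_cast hp'.2.2) hPm, hE p hp⟩) hR0 hr hH hlo hhi h0
  obtain ⟨J, b1, b2, b3⟩ :=
    (hS s j0 L (fun p => dsI lo hi Ψ1 (Up χ p Ψ)) hs hj hL fun _ => dsI_nonneg _ _ _ _).2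
  have hlX := one_le_LL hlo1 hhi
  have hlP : 0 ≤ Real.log Pm := Real.log_nonneg (by linarith)
  refine ⟨ρ, Ψ, Ψ1, J, a1, a2, a3, a4, a5, b1, b2, fun l hl => ?_⟩
  obtain ⟨g, c1, c2⟩ := b3 l hl
  refine ⟨g, c1, fun k => ⟨(c2 k).1, (c2 k).2.1, (c2 k).2.2.1, (c2 k).2.2.2.trans ?_⟩⟩
  have hsq : 1 / √(rs (PP (s * j0) (s * j0 * 2 ^ L))) ≤ 2 * (1 / √L) := by
    have h1 : √L ≤ 2 * √(rs (PP (s * j0) (s * j0 * 2 ^ L))) := by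
      rw [Real.sqrt_le_left (by positivity), mul_pow, Real.sq_sqrt hR0.le]; linarith
    rw [mul_one_div, div_le_div_iff₀ (Real.sqrt_pos.2 hR0) (Real.sqrt_pos.2 (by linarith))]
    linarith
  have h3 : (1 / r + 1 / √(rs (PP (s * j0) (s * j0 * 2 ^ L))) + 1 / Pm) * LL lo hi +
      Real.log Pm ≤ 2 * ((1 / r + 1 / √L + 1 / Pm) * LL lo hi + Real.log Pm) := by
    have h4 : (1 / r + 1 / √(rs (PP (s * j0) (s * j0 * 2 ^ L))) + 1 / Pm : ℝ) ≤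
        2 * (1 / r + 1 / √L + 1 / Pm) := by
      have : (0 : ℝ) ≤ 1 / r := by positivity
      have : (0 : ℝ) ≤ 1 / Pm := by positivity
      linarith
    nlinarith [mul_le_mul_of_nonneg_right h4 (by linarith : 0 ≤ LL lo hi)]
  linarith

/-- one third of the dyadic blocks misses the primes with logarithm in [a, a Υ] -/
theorem third (b L : ℕ) {a Υ : ℝ} (ha : 0 ≤ a) (hΥ : Υ ≤ 2 ^ L) : ∃ i ≤ 2,
    ∀ p ∈ PP (b * 2 ^ (i * L)) (b * 2 ^ (i * L) * 2 ^ L), Real.log p < a ∨ a * Υ < Real.log p := by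
  have hl : 0 < Real.log 2 := Real.log_pos one_lt_two
  by_cases h : (b : ℝ) * 2 ^ L * Real.log 2 < a
  · refine ⟨0, by norm_num, fun p hp => Or.inl ?_⟩
    obtain ⟨h1, -, h2⟩ := V.mem_PP.1 hp
    have h3 : (p : ℝ) ≤ 2 ^ (b * 2 ^ (0 * L) * 2 ^ L) := by exact_mod_cast h2
    have h4 := Real.log_le_log (by exact_mod_cast h1.pos) h3
    rw [Real.log_pow] at h4
    simp only [zero_mul, pow_zero, mul_one] at h4
    push_cast at h4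
    linarith
  · refine ⟨2, le_rfl, fun p hp => ?_⟩
    obtain ⟨h1, h2, -⟩ := V.mem_PP.1 hp
    have h3 : (2 : ℝ) ^ (b * 2 ^ (2 * L)) < p := by exact_mod_cast h2
    have h4 := Real.log_lt_log (by positivity) h3
    rw [Real.log_pow] at h4
    push_cast at h4
    refine Or.inr (lt_of_le_of_lt ?_ h4)
    calc a * Υ ≤ a * 2 ^ L := mul_le_mul_of_nonneg_left hΥ ha
      _ ≤ b * 2 ^ L * Real.log 2 * 2 ^ L := by gcongr; exact not_lt.1 h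
      _ = _ := by rw [two_mul, pow_add]; ring

/-- section 1 on one interval, when f transforms like χ under the primes with logarithm outside
[a, a Υ] -/
theorem sec1A : ∃ s0 : ℕ, ∀ (XX : Set (ℕ → ℂ)), Hull XX → ∀ (χ f : ℕ → ℂ), (∀ n, ‖χ n‖ ≤ 1) →
    (∀ n, ‖f n‖ ≤ 1) → ∀ (s j0 L r lo hi : ℕ) (Pm H a Υ : ℝ) (Ψ0 : ℕ → ℂ), s0 ≤ s → 1 ≤ s →
    1 ≤ j0 → 1 ≤ L → 1 ≤ r → (2 : ℝ) ^ (s * j0 * 2 ^ (3 * L)) ≤ Pm → Pm ^ (2 * r) ≤ H → Pm ≤ lo →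
    lo ≤ hi → 0 ≤ a → Υ ≤ 2 ^ L →
    (∀ p : ℕ, p.Prime → Real.log p < a ∨ a * Υ < Real.log p → ‖χ p‖ = 1 ∧ Eqv χ f p) →
    Gr XX H Ψ0 →
    ∃ (ρ : ℝ) (Ψ Ψ1 : ℕ → ℂ) (J : ℕ), H ≤ ρ * Pm ^ (2 * r) ∧ ρ * Pm ^ 2 ≤ H ∧
      Gr XX (ρ * Pm ^ 2) Ψ ∧ Gr XX ρ Ψ1 ∧
      gnI lo hi f Ψ0 - 12 * (r / Pm * LL lo hi + 1) ≤ gnI lo hi f Ψ1 ∧
      j0 ≤ J ∧ 2 * J ≤ j0 * 2 ^ (3 * L) ∧
      (∀ p ∈ PP (s * J) (s * (2 * J)), Real.log p < a ∨ a * Υ < Real.log p) ∧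
      ∀ l : ℕ, 2 * l ≤ J → ∃ g : Fin l → ℕ,
        Function.Injective g ∧ ∀ k, J ≤ g k ∧ g k < 2 * J ∧ 1 ≤ 4 * J * rs (grp s (g k)) ∧
          Ep (grp s (g k)) (fun p => dsI lo hi Ψ1 (Up χ p Ψ)) ≤
            2560 * ((1 / r + 1 / √L + 1 / Pm) * LL lo hi + Real.log Pm) := by
  obtain ⟨s0, hS⟩ := sec1
  refine ⟨s0, fun XX hX χ f hχ hf s j0 L r lo hi Pm H a Υ Ψ0 hs hs1 hj hL hr hPm hH hlo hhi ha hΥ
    hE h0 => ?_⟩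
  obtain ⟨i, hi2, hav⟩ := third (s * j0) L ha hΥ
  have e1 : s * j0 * 2 ^ (i * L) = s * (j0 * 2 ^ (i * L)) := mul_assoc _ _ _
  have e2 : 2 ^ (i * L) * 2 ^ L ≤ 2 ^ (3 * L) := by
    rw [← pow_add]
    exact Nat.pow_le_pow_right two_pos (by nlinarith)
  have e3 : j0 * 2 ^ (i * L) * 2 ^ L ≤ j0 * 2 ^ (3 * L) := by
    rw [mul_assoc]; exact Nat.mul_le_mul_left _ e2
  rw [e1] at hav
  obtain ⟨ρ, Ψ, Ψ1, J, a1, a2, a3, a4, a5, a6, a7, a8⟩ := hS XX hX χ f hχ hf s (j0 * 2 ^ (i * L)) L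
    r lo hi Pm H Ψ0 hs hs1 (Nat.mul_pos hj (by positivity)) hL hr
    (le_trans (pow_le_pow_right₀ one_le_two (by
      rw [mul_assoc, mul_assoc s]; exact Nat.mul_le_mul_left _ e3)) hPm) hH hlo hhi
    (fun p hp => hE p (V.mem_PP.1 hp).1 (hav p hp)) h0
  refine ⟨ρ, Ψ, Ψ1, J, a1, a2, a3, a4, a5, le_trans (Nat.le_mul_of_pos_right _ (by positivity)) a6,
    a7.trans e3, fun p hp => hav p ?_, a8⟩
  obtain ⟨b1, b2, b3⟩ := V.mem_PP.1 hp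
  refine V.mem_PP.2 ⟨b1, lt_of_le_of_lt (Nat.pow_le_pow_right two_pos ?_) b2,
    b3.trans (Nat.pow_le_pow_right two_pos ?_)⟩
  · exact Nat.mul_le_mul_left _ a6
  · rw [mul_assoc]; exact Nat.mul_le_mul_left _ a7

end Pool.Agent.P.MP_a14ce1_nt.Fu.Loc
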