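import Pool.Agent.P.MP_a14ce1_nt.Fu.LocT
import Pool.Agent.P.MP_a14ce1_nt.Fu.LocP

/-!
Bridges between the local potential `Pot`, the sign rule `Flip` and the sums over (lo, hi].
-/

open Finset

namespace Pool.Agent.P.MP_a14ce1_nt.Fu.Loc

open IV (Hull Gr Up gn)
open Pool.Agent.P.MP_e30989_nt.W (UCM)

/-- the Liouville function with complex values -/
noncomputable def lc (n : ℕ) : ℂ := (Ch.lam n : ℝ)

theorem norm_lc (n : ℕ) : ‖lc n‖ = 1 := by rw [lc, Complex.norm_real, Real.norm_eq_abs, abs_lam]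

theorem ucm_lc : UCM lc :=
  ⟨⟨fun m n hm hn => by rw [lc, lc, lc, lam_mul hm hn, Complex.ofReal_mul],
    fun n => (norm_lc n).le⟩, fun n _ => norm_lc n⟩

theorem lc_prime {p : ℕ} (hp : p.Prime) : lc p = -1 := by
  simp [lc, Ch.lam, ArithmeticFunction.cardFactors_apply_prime hp]

theorem eqv_one (f : ℕ → ℂ) : Eqv lc f 1 := fun m _ => by simp [lc, Ch.lam]

theorem eqv_prime {f : ℕ → ℂ} {a U : ℝ} (h : Flip f a U) {p : ℕ} (hp : p.Prime)
    (hv : Real.log p < a ∨ a * U < Real.log p) : Eqv lc f p := fun m _ => by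
  rw [h p hp hv m, lc_prime hp, neg_one_mul]

/-- dilation by an integer all of whose primes avoid the forbidden range -/
theorem eqv_of {f : ℕ → ℂ} {a U : ℝ} (h : Flip f a U) {c : ℕ} (hc : c ≠ 0)
    (hv : ∀ p : ℕ, p.Prime → p ∣ c → Real.log p < a ∨ a * U < Real.log p) : Eqv lc f c := by
  induction c using Nat.recOnMul with
  | zero => exact absurd rfl hc
  | one => exact eqv_one f
  | prime p hp => exact eqv_prime h hp (hv p hp dvd_rfl)
  | mul b c ihb ihc =>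
    have hb := left_ne_zero_of_mul hc
    have hc' := right_ne_zero_of_mul hc
    exact (ihb hb fun p hp hd => hv p hp (hd.mul_right c)).mul ucm_lc.1 hb hc'
      (ihc hc' fun p hp hd => hv p hp (hd.mul_left b))

/-- the largest natural number below x -/
noncomputable def bl (x : ℝ) : ℕ := ⌈x⌉₊ - 1

theorem bl_mono {x y : ℝ} (h : x ≤ y) : bl x ≤ bl y := Nat.sub_le_sub_right (Nat.ceil_mono h) 1

theorem bl_le {x : ℝ} (hx : 0 ≤ x) : (bl x : ℝ) ≤ x := by
  rcases Nat.eq_zero_or_pos ⌈x⌉₊ with h | h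
  · simp [bl, h, hx]
  · rw [bl, Nat.cast_sub h, Nat.cast_one]
    linarith [Nat.ceil_lt_add_one hx]

theorem le_bl {x : ℝ} (hx : 0 < x) : x - 1 ≤ bl x := by
  rw [bl, Nat.cast_sub (Nat.one_le_ceil_iff.2 hx), Nat.cast_one]
  linarith [Nat.le_ceil x]

theorem one_le_bl {x : ℝ} (hx : 2 ≤ x) : 1 ≤ bl x := by
  have := le_bl (show 0 < x by linarith)
  exact_mod_cast (show (1 : ℝ) ≤ bl x by linarith)

theorem log_bl {x : ℝ} (hx : 2 ≤ x) :
    Real.log x - 1 ≤ Real.log (bl x) ∧ Real.log (bl x) ≤ Real.log x := by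
  have h1 := le_bl (show 0 < x by linarith)
  have h2 := bl_le (show 0 ≤ x by linarith)
  refine ⟨?_, Real.log_le_log (by linarith) h2⟩
  have h3 := Real.log_le_log (show 0 < x by linarith) (show x ≤ 2 * bl x by linarith)
  rw [Real.log_mul two_ne_zero (by linarith)] at h3
  linarith [Real.log_two_lt_d9]

theorem Ico_ceil {x : ℝ} (hx : 0 < x) (y : ℝ) : Ico ⌈x⌉₊ ⌈y⌉₊ = Ioc (bl x) (bl y) := by
  have := Nat.one_le_ceil_iff.2 hx
  ext m
  rw [mem_Ico, mem_Ioc, bl, bl]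
  omega

theorem pot_iff {XX : Set (ℕ → ℂ)} {f : ℕ → ℂ} {Y M v : ℝ} (hY : 0 < Y) : Pot XX f Y M v ↔
    ∃ Ψ, Gr XX (Real.exp M) Ψ ∧ v * M ≤ gnI (bl Y) (bl (Y * Real.exp M)) f Ψ := by
  rw [Pot, Ico_ceil hY]
  rfl

theorem bl_exp {Y M : ℝ} (hY : 0 ≤ Y) (hM : 0 ≤ M) : bl Y ≤ bl (Y * Real.exp M) :=
  bl_mono (le_mul_of_one_le_right hY (Real.one_le_exp hM))

theorem LL_bl {Y M : ℝ} (hY : 2 ≤ Y) (hM : 0 ≤ M) : LL (bl Y) (bl (Y * Real.exp M)) ≤ M + 2 := by
  have h1 : Y ≤ Y * Real.exp M := le_mul_of_one_le_right (by linarith) (Real.one_le_exp hM)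
  have h2 := (log_bl hY).1
  have h3 := (log_bl (hY.trans h1)).2
  rw [Real.log_mul (by linarith) (Real.exp_pos M).ne', Real.log_exp] at h3
  rw [LL, log_ratio (one_le_bl hY) (bl_mono h1)]
  linarith

/-- the fit of the cells to c [Y, Y exp M) -/
theorem fit {R j0 j1 c : ℕ} {Y M D : ℝ} (hc : 0 < c) (hR : c ≤ R) (h0 : 1 ≤ j0) (h1 : j0 ≤ j1)
    (hY : 2 ≤ Y) (hM : 0 ≤ M)
    (h2 : |Real.log (j0 * R) - (Real.log c + Real.log Y)| ≤ D)
    (h3 : |Real.log (j1 * R) - (Real.log c + Real.log Y + M)| ≤ D) :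
    Fit R j0 j1 c (bl Y) (bl (Y * Real.exp M)) (D + 1) := by
  have a1 : Y ≤ Y * Real.exp M := le_mul_of_one_le_right (by linarith) (Real.one_le_exp hM)
  have c0 : (0 : ℝ) < c := by exact_mod_cast hc
  have R0 : (0 : ℝ) < R := by exact_mod_cast hc.trans_le hR
  have b0 : (0 : ℝ) < j0 := by exact_mod_cast h0
  have b1 : (0 : ℝ) < j1 := by exact_mod_cast h0.trans h1
  have l0 : (0 : ℝ) < bl Y := by exact_mod_cast one_le_bl hY
  have l1 : (0 : ℝ) < bl (Y * Real.exp M) := by exact_mod_cast one_le_bl (hY.trans a1)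
  obtain ⟨a2, a3⟩ := log_bl hY
  obtain ⟨a4, a5⟩ := log_bl (hY.trans a1)
  rw [Real.log_mul (by linarith) (Real.exp_pos M).ne', Real.log_exp] at a4 a5
  rw [abs_le] at h2 h3
  refine ⟨hc, hR, h0, h1, one_le_bl hY, bl_mono a1, ?_, ?_⟩
  · rw [Real.log_div (by positivity) (by positivity), Real.log_mul c0.ne' l0.ne', abs_le]
    constructor <;> linarith [h2.1, h2.2]
  · rw [Real.log_div (by positivity) (by positivity), Real.log_mul c0.ne' l1.ne', abs_le]
    constructor <;> linarith [h3.1, h3.2]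

/-- the logarithm of the left end of the cell that contains x -/
theorem log_floor {R : ℕ} {x : ℝ} (hR : 0 < R) (hx : (R : ℝ) ≤ x) : 1 ≤ ⌊x / R⌋₊ ∧
    Real.log x - 1 ≤ Real.log (⌊x / R⌋₊ * R) ∧ Real.log (⌊x / R⌋₊ * R) ≤ Real.log x := by
  have R0 : (0 : ℝ) < R := by exact_mod_cast hR
  have h1 : 1 ≤ ⌊x / R⌋₊ := Nat.le_floor (by rw [Nat.cast_one, one_le_div R0]; exact hx)
  have h2 : (1 : ℝ) ≤ ⌊x / R⌋₊ := by exact_mod_cast h1
  have h3 := Nat.floor_le (show 0 ≤ x / R from div_nonneg (by linarith) R0.le)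
  have h4 := Nat.lt_floor_add_one (x / R)
  rw [le_div_iff₀ R0] at h3
  rw [div_lt_iff₀ R0] at h4
  refine ⟨h1, ?_, Real.log_le_log (by positivity) h3⟩
  have h5 := Real.log_le_log (show 0 < x by linarith)
    (show x ≤ 2 * (⌊x / R⌋₊ * R) by nlinarith)
  rw [Real.log_mul two_ne_zero (by positivity)] at h5
  linarith [Real.log_two_lt_d9]

/-- the harmonic sum over the cells -/
theorem harm_Ico {j0 j1 : ℕ} (h0 : 1 ≤ j0) (h : j0 ≤ j1) :
    ∑ j ∈ Ico j0 j1, 1 / (j : ℝ) ≤ 1 + (Real.log j1 - Real.log j0) := by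
  have h1 := IV.TKlogP.harm_Ioc h0 h
  have h2 : Ico j0 j1 ⊆ insert j0 (Ioc j0 j1) := fun j hj => by
    rw [mem_Ico] at hj; rw [mem_insert, mem_Ioc]; omega
  have h3 : 1 / (j0 : ℝ) ≤ 1 := by
    have : (1 : ℝ) ≤ j0 := by exact_mod_cast h0
    rw [div_le_one (by linarith)]; exact this
  refine (sum_le_sum_of_subset_of_nonneg h2 fun _ _ _ => by positivity).trans ?_
  rw [sum_insert (by simp)]
  linarith

end Pool.Agent.P.MP_a14ce1_nt.Fu.Loc
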