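import Mathlib

/-!
# Tool T1 (energy pigeonhole along a chain of moduli)

If `|s| ≤ 1` on `[0, Y)` and `Q 0 ∣ Q 1 ∣ ... ∣ Q K ∣ Y`, then for some `κ < K` the function `s`
is almost uncorrelated with every function periodic modulo a divisor `q` of `Q (κ+1)` that is
coprime to `Q κ`.
-/

open Finset

namespace Pool.Agent.P.MP_a14ce1_nt.Fu.T1

variable {Y : ℕ} [NeZero Y]

/-- invariance under the translation by `a` -/
def Inv (a : ZMod Y) (f : ZMod Y → ℝ) : Prop := ∀ x, f (x + a) = f x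

/-- average over the multiples of `a` -/
noncomputable def av (a : ZMod Y) (f : ZMod Y → ℝ) (x : ZMod Y) : ℝ :=
  (∑ j : ZMod Y, f (x + j * a)) / Y

omit [NeZero Y] in
lemma Inv.nat {a : ZMod Y} {f : ZMod Y → ℝ} (h : Inv a f) (n : ℕ) : Inv ((n : ZMod Y) * a) f := by
  induction n with
  | zero => intro x; simp
  | succ n ih =>
    intro x
    have e : x + ((n + 1 : ℕ) : ZMod Y) * a = (x + (n : ZMod Y) * a) + a := by push_cast; ring
    rw [e, h, ih]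

lemma Inv.mul {a : ZMod Y} {f : ZMod Y → ℝ} (h : Inv a f) (j : ZMod Y) : Inv (j * a) f := by
  have := h.nat j.val
  rwa [ZMod.natCast_zmod_val] at this

lemma av_inv (a : ZMod Y) (f : ZMod Y → ℝ) : Inv a (av a f) := by
  intro x
  unfold av
  congr 1
  refine Fintype.sum_equiv (Equiv.addRight 1) _ _ fun j => ?_
  simp only [Equiv.coe_addRight]
  congr 1; ring

lemma av_inv' (a : ZMod Y) {b : ZMod Y} {f : ZMod Y → ℝ} (h : Inv b f) : Inv b (av a f) := by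
  intro x
  unfold av
  congr 1
  refine Finset.sum_congr rfl fun j _ => ?_
  rw [← h (x + j * a)]
  congr 1; ring

lemma Ypos : (0 : ℝ) < Y := by exact_mod_cast Nat.pos_of_ne_zero (NeZero.ne Y)

lemma sum_av {a : ZMod Y} (f : ZMod Y → ℝ) {g : ZMod Y → ℝ} (h : Inv a g) :
    ∑ x, av a f x * g x = ∑ x, f x * g x := by
  have hY := (Ypos (Y := Y)).ne'
  have h1 : ∀ j : ZMod Y, ∑ x, f (x + j * a) * g x = ∑ x, f x * g x := by
    intro j
    refine Fintype.sum_equiv (Equiv.addRight (j * a)) _ _ fun x => ?_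
    simp only [Equiv.coe_addRight]
    rw [h.mul j x]
  calc ∑ x, av a f x * g x = (∑ x, ∑ j : ZMod Y, f (x + j * a) * g x) / Y := by
        rw [Finset.sum_div]
        refine Finset.sum_congr rfl fun x _ => ?_
        unfold av
        rw [← Finset.sum_mul]; ring
    _ = (∑ j : ZMod Y, ∑ x, f x * g x) / Y := by
        rw [Finset.sum_comm]; simp only [h1]
    _ = ∑ x, f x * g x := by
        rw [Finset.sum_const, Finset.card_univ, ZMod.card, nsmul_eq_mul]; field_simp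

lemma av_abs (a : ZMod Y) {f : ZMod Y → ℝ} (h : ∀ x, |f x| ≤ 1) (x : ZMod Y) :
    |av a f x| ≤ 1 := by
  have hY := Ypos (Y := Y)
  unfold av
  rw [abs_div, abs_of_pos hY, div_le_one hY]
  calc |∑ j : ZMod Y, f (x + j * a)| ≤ ∑ j : ZMod Y, |f (x + j * a)| :=
        Finset.abs_sum_le_sum_abs _ _
    _ ≤ ∑ _j : ZMod Y, (1 : ℝ) := Finset.sum_le_sum fun j _ => h _
    _ = Y := by simp [ZMod.card]

/-- energy -/
noncomputable def en (a : ZMod Y) (f : ZMod Y → ℝ) : ℝ := ∑ x, av a f x ^ 2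

lemma pyth (a c : ZMod Y) (f : ZMod Y → ℝ) :
    ∑ x, (av (c * a) f x - av a f x) ^ 2 = en (c * a) f - en a f := by
  have h1 : ∑ x, av (c * a) f x * av a f x = ∑ x, f x * av a f x :=
    sum_av f ((av_inv a f).mul c)
  have h2 : ∑ x, av a f x * av a f x = ∑ x, f x * av a f x := sum_av f (av_inv a f)
  have h3 : ∑ x, (av (c * a) f x - av a f x) ^ 2
      = en (c * a) f - 2 * ∑ x, av (c * a) f x * av a f x + ∑ x, av a f x * av a f x := by
    unfold en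
    rw [Finset.mul_sum, ← Finset.sum_sub_distrib, ← Finset.sum_add_distrib]
    exact Finset.sum_congr rfl fun x _ => by ring
  have h4 : en a f = ∑ x, av a f x * av a f x := by
    unfold en; exact Finset.sum_congr rfl fun x _ => by ring
  rw [h3, h1, h4, h2]; ring

lemma en_le (a : ZMod Y) {f : ZMod Y → ℝ} (h : ∀ x, |f x| ≤ 1) : en a f ≤ Y := by
  unfold en
  calc ∑ x, av a f x ^ 2 ≤ ∑ _x : ZMod Y, (1 : ℝ) := Finset.sum_le_sum fun x _ => by
        have := av_abs a h x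
        rw [← sq_abs]; nlinarith [abs_nonneg (av a f x)]
    _ = Y := by simp [ZMod.card]

lemma en_nonneg (a : ZMod Y) (f : ZMod Y → ℝ) : 0 ≤ en a f :=
  Finset.sum_nonneg fun _ _ => sq_nonneg _

lemma const_of_inv {f : ZMod Y → ℝ} {Q q : ℕ} (hc : q.Coprime Q) (h1 : Inv (Q : ZMod Y) f)
    (h2 : Inv (q : ZMod Y) f) (x : ZMod Y) : f x = f 0 := by
  have hb : ((q.gcdA Q : ℤ) : ZMod Y) * (q : ZMod Y) + ((q.gcdB Q : ℤ) : ZMod Y) * (Q : ZMod Y)
      = 1 := by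
    have := Nat.gcd_eq_gcd_ab q Q
    rw [hc.gcd_eq_one] at this
    have h := congrArg (fun z : ℤ => (z : ZMod Y)) this
    simp only [Int.cast_add, Int.cast_mul, Int.cast_natCast, Nat.cast_one, Int.cast_one] at h
    rw [h]; ring
  have e : x = (0 + (x * ((q.gcdA Q : ℤ) : ZMod Y)) * (q : ZMod Y))
      + (x * ((q.gcdB Q : ℤ) : ZMod Y)) * (Q : ZMod Y) := by
    linear_combination (-x) * hb
  rw [e, h1.mul, h2.mul]

lemma indep {u W : ZMod Y → ℝ} {Q q : ℕ} (hc : q.Coprime Q) (hu : Inv (Q : ZMod Y) u)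
    (hW : Inv (q : ZMod Y) W) : ∑ x, u x * W x = (∑ x, u x) * (∑ x, W x) / Y := by
  have hY := (Ypos (Y := Y)).ne'
  have hk := const_of_inv hc (av_inv (Q : ZMod Y) W) (av_inv' (Q : ZMod Y) hW)
  have h1 : ∑ x, av (Q : ZMod Y) W x * u x = ∑ x, W x * u x := sum_av W hu
  have h2 : ∑ x, av (Q : ZMod Y) W x * 1 = ∑ x, W x * 1 :=
    sum_av (g := fun _ => 1) W (fun _ => rfl)
  simp only [hk, mul_one] at h1 h2
  rw [Finset.sum_const, Finset.card_univ, ZMod.card, nsmul_eq_mul] at h2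
  rw [← Finset.mul_sum] at h1
  rw [← h2]
  have : ∑ x, u x * W x = ∑ x, W x * u x := Finset.sum_congr rfl fun x _ => mul_comm _ _
  rw [this, ← h1]; field_simp

lemma pig (e : ℕ → ℝ) (K : ℕ) (hK : 0 < K) (B : ℝ) (h0 : 0 ≤ e 0) (hB : e K ≤ B) :
    ∃ κ < K, e (κ + 1) - e κ ≤ B / K := by
  by_contra hc
  push Not at hc
  have hKr : (0 : ℝ) < K := by exact_mod_cast hK
  have h1 : ∑ _κ ∈ range K, B / K < ∑ κ ∈ range K, (e (κ + 1) - e κ) :=
    Finset.sum_lt_sum_of_nonempty (nonempty_range_iff.2 hK.ne') fun κ hκ =>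
      hc κ (mem_range.1 hκ)
  rw [Finset.sum_range_sub, Finset.sum_const, card_range, nsmul_eq_mul] at h1
  have : (K : ℝ) * (B / K) = B := by field_simp
  linarith

/-- T1 on the cyclic group -/
theorem t1z (K : ℕ) (hK : 0 < K) (Q : ℕ → ℕ) (hQ : ∀ i < K, Q i ∣ Q (i + 1))
    (s : ZMod Y → ℝ) (hs : ∀ x, |s x| ≤ 1) :
    ∃ κ < K, ∀ (q : ℕ) (W : ZMod Y → ℝ), q ∣ Q (κ + 1) → q.Coprime (Q κ) →
      Inv (q : ZMod Y) W →
      (∑ x, s x * W x - (∑ x, s x) * (∑ x, W x) / Y) ^ 2 ≤ Y / K * ∑ x, W x ^ 2 := by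
  obtain ⟨κ, hκ, he⟩ := pig (fun i => en (Q i : ZMod Y) s) K hK Y (en_nonneg _ _) (en_le _ hs)
  refine ⟨κ, hκ, fun q W hq hc hW => ?_⟩
  obtain ⟨c, hcq⟩ := hQ κ hκ
  obtain ⟨d, hd⟩ := hq
  have e1 : ((Q (κ + 1) : ℕ) : ZMod Y) = (c : ZMod Y) * (Q κ : ZMod Y) := by
    rw [hcq]; push_cast; ring
  have hW' : Inv ((Q (κ + 1) : ℕ) : ZMod Y) W := by
    have := hW.nat d
    rwa [← Nat.cast_mul, mul_comm, ← hd] at this
  have h1 : ∑ x, av ((Q (κ + 1) : ℕ) : ZMod Y) s x * W x = ∑ x, s x * W x := sum_av s hW'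
  have h2 := indep hc (av_inv (Q κ : ZMod Y) s) hW
  have h3 : ∑ x, av (Q κ : ZMod Y) s x * 1 = ∑ x, s x * 1 :=
    sum_av (g := fun _ => 1) s (fun _ => rfl)
  simp only [mul_one] at h3
  rw [h3] at h2
  rw [← h1, ← h2, ← Finset.sum_sub_distrib]
  have h4 := pyth (Q κ : ZMod Y) (c : ZMod Y) s
  rw [← e1] at h4
  have h5 := Finset.sum_mul_sq_le_sq_mul_sq Finset.univ
    (fun x => av ((Q (κ + 1) : ℕ) : ZMod Y) s x - av (Q κ : ZMod Y) s x) W
  have h6 : ∑ x, (av ((Q (κ + 1) : ℕ) : ZMod Y) s x * W x - av (Q κ : ZMod Y) s x * W x)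
      = ∑ x, (av ((Q (κ + 1) : ℕ) : ZMod Y) s x - av (Q κ : ZMod Y) s x) * W x :=
    Finset.sum_congr rfl fun x _ => by ring
  rw [h6]
  refine h5.trans ?_
  rw [h4]
  exact mul_le_mul_of_nonneg_right he (Finset.sum_nonneg fun _ _ => sq_nonneg _)

lemma sum_val (F : ℕ → ℝ) : ∑ x : ZMod Y, F x.val = ∑ n ∈ range Y, F n := by
  refine Finset.sum_bij' (fun x _ => x.val) (fun n _ => (n : ZMod Y)) ?_ ?_ ?_ ?_ ?_
  · intro x _; exact mem_range.2 (ZMod.val_lt x)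
  · intro n _; exact mem_univ _
  · intro x _; exact ZMod.natCast_zmod_val x
  · intro n hn; exact ZMod.val_cast_of_lt (mem_range.1 hn)
  · intro x _; rfl

omit [NeZero Y] in
lemma per_mod {W : ℕ → ℝ} {q : ℕ} (h : ∀ n, W (n + q) = W n) {a b : ℕ} (hab : a ≡ b [MOD q]) :
    W a = W b := by
  have hp : Function.Periodic W q := h
  rw [← hp.map_mod_nat a, ← hp.map_mod_nat b, hab]

end Pool.Agent.P.MP_a14ce1_nt.Fu.T1

namespace Pool.Agent.P.MP_a14ce1_nt.Fu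
open T1

/-- **T1**, square form. -/
theorem t1_sq (Y K : ℕ) (hY0 : 0 < Y) (hK : 0 < K) (Q : ℕ → ℕ)
    (hQ : ∀ i < K, Q i ∣ Q (i + 1)) (hY : Q K ∣ Y) (s : ℕ → ℝ) (hs : ∀ n < Y, |s n| ≤ 1) :
    ∃ κ < K, ∀ (q : ℕ) (W : ℕ → ℝ), q ∣ Q (κ + 1) → q.Coprime (Q κ) →
      (∀ n, W (n + q) = W n) →
      ((∑ n ∈ range Y, s n * W n) / Y
        - (∑ n ∈ range Y, s n) / Y * ((∑ n ∈ range Y, W n) / Y)) ^ 2
        ≤ (∑ n ∈ range Y, W n ^ 2) / Y / K := by
  have : NeZero Y := ⟨hY0.ne'⟩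
  have hYr := Ypos (Y := Y)
  obtain ⟨κ, hκ, h⟩ := t1z (Y := Y) K hK Q hQ (fun x => s x.val) (fun x => hs _ (ZMod.val_lt x))
  refine ⟨κ, hκ, fun q W hq hc hW => ?_⟩
  have hch : ∀ j, j ≤ K → ∀ i, i ≤ j → Q i ∣ Q j := by
    intro j hj i hi
    induction j, hi using Nat.le_induction with
    | base => exact dvd_rfl
    | succ m _ ih => exact (ih (by omega)).trans (hQ m (by omega))
  have hqY : q ∣ Y := hq.trans ((hch K le_rfl (κ + 1) hκ).trans hY)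
  have hinv : Inv (q : ZMod Y) (fun x : ZMod Y => W x.val) := by
    intro x
    show W (x + q).val = W x.val
    rw [← hW x.val]
    refine per_mod hW ?_
    refine Nat.ModEq.of_dvd hqY ?_
    rw [← ZMod.natCast_eq_natCast_iff]
    simp
  have h1 := h q _ hq hc hinv
  rw [sum_val (fun n => s n * W n), sum_val s, sum_val W, sum_val (fun n => W n ^ 2)] at h1
  have hKr : (0 : ℝ) < K := by exact_mod_cast hK
  have e : (∑ n ∈ range Y, s n * W n) / Y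
        - (∑ n ∈ range Y, s n) / Y * ((∑ n ∈ range Y, W n) / Y)
      = (∑ n ∈ range Y, s n * W n - (∑ n ∈ range Y, s n) * (∑ n ∈ range Y, W n) / Y) / Y := by
    field_simp
  rw [e, div_pow, div_le_iff₀ (by positivity)]
  refine h1.trans (le_of_eq ?_)
  field_simp

/-- **T1**. -/
theorem t1 (Y K : ℕ) (hY0 : 0 < Y) (hK : 0 < K) (Q : ℕ → ℕ)
    (hQ : ∀ i < K, Q i ∣ Q (i + 1)) (hY : Q K ∣ Y) (s : ℕ → ℝ) (hs : ∀ n < Y, |s n| ≤ 1) :
    ∃ κ < K, ∀ (q : ℕ) (W : ℕ → ℝ) (B : ℝ), q ∣ Q (κ + 1) → q.Coprime (Q κ) →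
      (∀ n, W (n + q) = W n) → (∀ n, |W n| ≤ B) →
      |(∑ n ∈ range Y, s n * W n) / Y
        - (∑ n ∈ range Y, s n) / Y * ((∑ n ∈ range Y, W n) / Y)| ≤ B / Real.sqrt K := by
  obtain ⟨κ, hκ, h⟩ := t1_sq Y K hY0 hK Q hQ hY s hs
  refine ⟨κ, hκ, fun q W B hq hc hW hB => ?_⟩
  have hYr : (0 : ℝ) < Y := by exact_mod_cast hY0
  have hKr : (0 : ℝ) < K := by exact_mod_cast hK
  have hB0 : 0 ≤ B := (abs_nonneg _).trans (hB 0)
  refine abs_le_of_sq_le_sq ((h q W hq hc hW).trans ?_) (by positivity)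
  rw [div_pow, Real.sq_sqrt hKr.le]
  gcongr
  rw [div_le_iff₀ hYr]
  calc ∑ n ∈ range Y, W n ^ 2 ≤ ∑ _n ∈ range Y, B ^ 2 := Finset.sum_le_sum fun n _ => by
        rw [← sq_abs]; exact pow_le_pow_left₀ (abs_nonneg _) (hB n) 2
    _ = B ^ 2 * Y := by rw [Finset.sum_const, card_range, nsmul_eq_mul]; ring

end Pool.Agent.P.MP_a14ce1_nt.Fu
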