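import Pool.Agent.P.MP_a14ce1_nt.Fu.Em
import Pool.Agent.P.MP_a14ce1_nt.Fu.St
import Pool.Agent.P.MP_a14ce1_nt.Fu.T1

/-! The blocks imply the statement. -/

open Finset

namespace Pool.Agent.P.MP_a14ce1_nt.Fu.St

open Ch (pv mu rs lam)

theorem prod_mix (k : ℕ) (w a b : ℕ → ℝ) :
    ∏ i ∈ range k, (w i * a i) - ∏ i ∈ range k, (w i * b i) = ∑ j ∈ range k, ∏ i ∈ range k,
      (w i * if i < j then b i else if i = j then a i - b i else a i) := by
  induction k with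
  | zero => simp
  | succ k ih =>
    have e1 : ∑ j ∈ range k, ∏ i ∈ range (k + 1),
        (w i * if i < j then b i else if i = j then a i - b i else a i) =
        (∑ j ∈ range k, ∏ i ∈ range k,
          (w i * if i < j then b i else if i = j then a i - b i else a i)) * (w k * a k) := by
      rw [sum_mul]
      refine sum_congr rfl fun j hj => ?_
      have := mem_range.1 hj
      rw [prod_range_succ, if_neg (by omega), if_neg (by omega)]
    have e2 : ∏ i ∈ range (k + 1),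
        (w i * if i < k then b i else if i = k then a i - b i else a i) =
        (∏ i ∈ range k, (w i * b i)) * (w k * (a k - b k)) := by
      rw [prod_range_succ, if_neg (lt_irrefl k), if_pos rfl]
      congr 1
      exact prod_congr rfl fun i hi => by rw [if_pos (mem_range.1 hi)]
    rw [sum_range_succ, e1, e2, ← ih, prod_range_succ, prod_range_succ]
    ring

theorem Tf_tel (F : Fam) (Z : ℕ) (s : ℕ → ℝ) (u v : Fin Z → ℕ → ℝ) :
    F.Tf Z s (fun _ => u) - F.Tf Z s (fun _ => v) = ∑ j ∈ range F.k, F.Tf Z s (mix u v j) := by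
  unfold Fam.Tf
  rw [← ex_sub, ← ex_sum]
  refine ex_congr fun n => ?_
  rw [← sum_sub_distrib, sum_comm]
  refine sum_congr rfl fun a _ => ?_
  rw [← sum_sub_distrib, sum_comm]
  refine sum_congr rfl fun c _ => ?_
  rw [← sum_sub_distrib, sum_comm]
  refine sum_congr rfl fun p _ => ?_
  split_ifs with h
  · rw [← mul_sub, ← mul_sum]
    congr 1
    exact prod_mix F.k _ _ _
  · simp

theorem dp_congr {S T : Finset ℕ} (hT : T ⊆ S) {x y : ℕ} (h : x % pv S = y % pv S) (b : ℕ) :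
    dp T (x + b) = dp T (y + b) := filter_congr fun q hq => by
  have h1 : q ∣ pv S := dvd_prod_of_mem (fun q => q) (hT hq)
  have h2 : x + b ≡ y + b [MOD q] := (Nat.ModEq.of_dvd h1 h).add_right b
  rw [← Nat.modEq_zero_iff_dvd, ← Nat.modEq_zero_iff_dvd]
  exact ⟨fun e => h2.symm.trans e, fun e => h2.trans e⟩

theorem V_nn {F : Fam} {P : Par} (h : Hyp0 F P) (a b : ℕ) (T : Finset ℕ) : 0 ≤ F.V a b T := by
  refine prod_nonneg fun t _ => mul_nonneg ?_ ?_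
  · have := h.B1 t
    exact div_nonneg (by positivity) (prod_nonneg fun q _ => by positivity)
  · exact div_nonneg (by positivity) (sum_nonneg fun q _ => by positivity)

theorem zj_nn (F : Fam) (T : Finset ℕ) : 0 ≤ F.zj T :=
  div_nonneg (by split_ifs <;> norm_num)
    (sum_nonneg fun T _ => mul_nonneg (mu_nn _ _) (by dsimp only; split_ifs <;> norm_num))

theorem z0_nn {F : Fam} {P : Par} (h : Hyp0 F P) (n : ℕ) : 0 ≤ F.z0 n :=
  mul_nonneg (zj_nn F _) (h.ze0 _)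

theorem vv_nn {F : Fam} {P : Par} (h : Hyp0 F P) (n : ℕ) : 0 ≤ F.vv n :=
  mul_nonneg (mul_nonneg (V_nn h _ _ _) ((h.wk0 _).trans (h.wkv _))) (z0_nn h n)

theorem Qk0_dvd (F : Fam) : F.Qk0 ∣ F.Qk := prod_dvd_prod_of_subset _ _ _ subset_union_left

theorem abs_pred {A : Type} (Z Q : ℕ) (dt : ℕ → A) (C : ℕ → Finset ℕ) {ζ : ℕ → ℝ}
    (hζ : ∀ n, 0 ≤ ζ n) (n : Fin Z) (b : ℕ) : |pred Z Q dt C ζ lam n b| ≤ 1 :=
  abs_yr_le _ (fun _ => hζ _) (fun _ => (abs_lam _).le) n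

/-- the conclusion of section 3 -/
def Step (F : Fam) (P : Par) (C : ℕ) {A : Type} (dt : ℕ → A) (Z : ℕ) (s : ℕ → ℝ)
    (C0 C1 : ℕ → Finset ℕ) : Prop :=
  (∀ x, C1 x ⊆ range F.N) ∧ (∀ n, C0 (n % F.Qk0) ⊆ C1 (n % F.Qk)) ∧
    size Z F.Qk F.N C1 ≤ size Z F.Qk0 F.N C0 + C * top F P / P.η ∧
    ∑ i0 ∈ range F.k, F.Tf Z s (mix (fun n b => lam (n + b)) (pred Z F.Qk dt C1 F.z lam) i0)
      ≤ C * P.η

variable {k C C2 S : ℕ} {ε η Cw Λ : ℝ} {T : Finset ℕ} {F : ℕ → Fam} {P : ℕ → Par}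

theorem codes (h : Chain k C C2 S ε η Cw Λ T F P) {A : Type} [Fintype A] (dt : ℕ → A)
    (hA : Real.log (Fintype.card A) ≤ Λ) {Z : ℕ} (hZ : 0 < Z) (hper : pv (F 0).all ∣ Z)
    (s : ℕ → ℝ)
    (hc : ∀ j < S, ∀ C0, Dat (F j) (P j) A Z C0 → ∃ C1, Step (F j) (P j) C dt Z s C0 C1) :
    ∃ Cs : ℕ → ℕ → Finset ℕ, ∀ j < S,
      Dat (F j) (P j) A Z (Cs j) ∧ Step (F j) (P j) C dt Z s (Cs j) (Cs (j + 1)) := by
  classical
  choose! nx hnx using hc
  let Cs : ℕ → ℕ → Finset ℕ := fun j => Nat.rec (fun _ => ∅) (fun i c => nx i c) j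
  have e1 : ∀ j, Cs (j + 1) = nx j (Cs j) := fun _ => rfl
  have dat : ∀ j < S, (∀ x, Cs j x ⊆ range (F j).N) →
      size Z (F j).Qk0 (F j).N (Cs j) ≤ ∑ i ∈ range j, C * top (F i) (P i) / η →
      Dat (F j) (P j) A Z (Cs j) := fun j hj a b => by
    obtain ⟨-, -, -, -, -, -, c1, c2, -⟩ := h.com j hj
    exact ⟨c1 ▸ hA, hZ, c2 ▸ hper, a, b.trans (h.sin j hj)⟩
  have key : ∀ j < S, (∀ x, Cs j x ⊆ range (F j).N) ∧
      size Z (F j).Qk0 (F j).N (Cs j) ≤ ∑ i ∈ range j, C * top (F i) (P i) / η := by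
    intro j
    induction j with
    | zero => exact fun _ => ⟨fun _ => empty_subset _, by simp [size, Cs, ex_zero]⟩
    | succ j ih =>
      intro hj
      obtain ⟨a, b⟩ := ih (by omega)
      obtain ⟨s1, -, s3, -⟩ := hnx j (by omega) _ (dat j (by omega) a b)
      have n1 : (F (j + 1)).N = (F j).N := (h.com _ hj).2.1.trans (h.com j (by omega)).2.1.symm
      rw [n1, ← (h.nxt j hj).1, e1, sum_range_succ]
      rw [(h.com j (by omega)).2.2.2.2.1] at s3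
      exact ⟨s1, by linarith⟩
  exact ⟨Cs, fun j hj => ⟨dat j hj (key j hj).1 (key j hj).2,
    hnx j hj _ (dat j hj (key j hj).1 (key j hj).2)⟩⟩

theorem mart (hV : S_VV) (h : Chain k C C2 S ε η Cw Λ T F P) {A : Type} (dt : ℕ → A) {Z : ℕ}
    (hZ : 0 < Z) (hper : pv (F 0).all ∣ Z) (Cs : ℕ → ℕ → Finset ℕ)
    (hC : ∀ j < S, ∀ n, Cs j (n % (F j).Qk0) ⊆ Cs (j + 1) (n % (F j).Qk)) :
    ∃ j < S, ex (fun n : Fin Z => (∑ b ∈ range (F j).N, (F j).vv (n + b) *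
      (pred Z (F j).Qk dt (Cs (j + 1)) (F j).z lam n b -
        pred Z (F j).Qk0 dt (Cs j) (F j).z0 lam n b) ^ 2) / (F j).N) ≤ 1 / S := by
  have h0 : ∀ j < S, Hyp0 (F j) (P j) := fun j hj => (h.hyp j hj).1.toHyp0
  let Q : ℕ → ℕ := fun j => Nat.casesOn j (F 0).Qk0 fun i => (F i).Qk
  let ζ : ℕ → ℕ → ℝ := fun j => Nat.casesOn j (F 0).z0 fun i => (F i).z
  let v : ℕ → ℕ → ℝ := fun j => Nat.casesOn j
    (fun n => (F 0).V 0 ((F 0).m + 1) (dp (F 0).Lo n) * (F 0).vk (dp (F 0).U n))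
    fun i n => (F i).V 0 ((F i).m + 1) (dp (F i).Lo n) * (F i).vk (dp (F i).U n) *
      (F i).zj (dp (F i).RR n)
  have eQ : ∀ j < S, Q j = (F j).Qk0 ∧ ζ j = (F j).z0 := fun j hj => by
    cases j with
    | zero => exact ⟨rfl, rfl⟩
    | succ i => exact h.nxt i hj
  have one : ∀ b, ∑ j ∈ range S, ex (fun n : Fin Z => (F 0).vv (n + b) *
      (pred Z (Q (j + 1)) dt (Cs (j + 1)) (ζ (j + 1)) lam n b -
        pred Z (Q j) dt (Cs j) (ζ j) lam n b) ^ 2) ≤ 1 := fun b => by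
    refine (pig_yr (fun j => gl Z (Q j) dt (Cs j)) S (fun j hj => ?_)
      (V := fun n : Fin Z => (F 0).vv (n + b)) (X := fun n : Fin Z => lam (n + b))
      (v := fun j n => v j (n + b)) (ζ := fun j n => ζ j (n + b)) (b := 1)
      (fun n => vv_nn (h0 0 h.S0) _) (fun j hj n => ?_) (fun j hj x y hxy => ?_)
      (fun j hj n => ?_) fun n => (abs_lam _).le).trans ?_
    · refine glue_anti _ (fun x y hxy => ?_) fun x => ?_
      · rw [(eQ j hj).1]
        exact Nat.ModEq.of_dvd (Qk0_dvd (F j)) hxy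
      · rw [(eQ j hj).1]
        exact hC j hj x
    · cases j with
      | zero => rfl
      | succ i =>
        rw [← (h.com i (by omega)).2.2.2.2.2.2.2.2]
        exact (mul_assoc _ _ _).symm
    · cases j with
      | zero =>
        have e : (x : ℕ) % pv ((F 0).Lo ∪ (F 0).U) = y % pv ((F 0).Lo ∪ (F 0).U) := hxy.1
        show (F 0).V 0 _ (dp _ _) * (F 0).vk (dp _ _) = (F 0).V 0 _ (dp _ _) * (F 0).vk (dp _ _)
        rw [dp_congr subset_union_left e b, dp_congr subset_union_right e b]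
      | succ i =>
        have e : (x : ℕ) % pv ((F i).Lo ∪ (F i).U ∪ (F i).RR) =
          y % pv ((F i).Lo ∪ (F i).U ∪ (F i).RR) := hxy.1
        simp only [v, dp_congr (subset_union_left.trans subset_union_left) e b,
          dp_congr (subset_union_right.trans subset_union_left) e b, dp_congr subset_union_right e b]
    · cases j with
      | zero => exact z0_nn (h0 0 h.S0) _
      | succ i => exact (h0 i (by omega)).ze0 _
    · refine le_trans (le_of_eq (ex_congr fun n => ?_)) (hV _ _ (h0 0 h.S0) Z b hZ hper)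
      rw [← sq_abs, abs_lam, one_pow, mul_one]
  by_contra hn
  push Not at hn
  have hS : (0 : ℝ) < S := by exact_mod_cast h.S0
  have a := sum_lt_sum_of_nonempty (s := range S) ⟨0, mem_range.2 h.S0⟩
    fun j hj => hn j (mem_range.1 hj)
  rw [sum_const, card_range, nsmul_eq_mul, mul_one_div_cancel hS.ne'] at a
  refine absurd a (not_lt.2 ?_)
  calc _ = (∑ b ∈ range (F 0).N, ∑ j ∈ range S, ex (fun n : Fin Z => (F 0).vv (n + b) *
        (pred Z (Q (j + 1)) dt (Cs (j + 1)) (ζ (j + 1)) lam n b -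
          pred Z (Q j) dt (Cs j) (ζ j) lam n b) ^ 2)) / (F 0).N := by
        rw [sum_comm, sum_div]
        refine sum_congr rfl fun j hj => ?_
        have hj := mem_range.1 hj
        rw [ex_div, ex_sum, (eQ j hj).1, (eQ j hj).2, (h.com j hj).2.1,
          (h.com j hj).2.2.2.2.2.2.2.2]
    _ ≤ (∑ b ∈ range (F 0).N, (1 : ℝ)) / (F 0).N := by gcongr with b; exact one b
    _ ≤ 1 := by
        rw [sum_const, card_range, nsmul_eq_mul, mul_one]
        exact div_self_le_one _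

/-- the three blocks that act on one family, at a common constant -/
structure Blk (k C : ℕ) : Prop where
  comp : ∀ (F : Fam) (P : Par), F.k = k → Hyp F P C →
    ∀ (A : Type) [Fintype A] (dt : ℕ → A) (Z : ℕ) (C0 : ℕ → Finset ℕ) (s : ℕ → ℝ),
      Dat F P A Z C0 → (∀ n n', dt n = dt n' → lam n = lam n' ∧ F.z n = F.z n') →
      (∀ d, |s d| ≤ 1) → ∃ C1, Step F P C dt Z s C0 C1
  role : ∀ (F : Fam) (P : Par), F.k = k → Hyp F P C →
    ∀ (Z : ℕ) (s : ℕ → ℝ) (x : ℕ → Fin Z → ℕ → ℝ) (i0 : ℕ), 0 < Z → pv F.all ∣ Z →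
      (∀ d, |s d| ≤ 1) → i0 < k → (∀ i n b, i ≠ i0 → |x i n b| ≤ 1) → (∀ n b, |x i0 n b| ≤ 2) →
      |F.Tf Z s x| ≤ C * P.η + C * P.Csb * P.Cl ^ 2 / P.η *
        ex fun n : Fin Z => (∑ b ∈ range F.N, F.vv (n + b) * x i0 n b ^ 2) / F.N
  test : ∀ (F : Fam) (P : Par), F.k = k → Hyp F P C →
    ∀ (A : Type) [Fintype A] (dt : ℕ → A) (Z : ℕ) (C0 : ℕ → Finset ℕ) (s : ℕ → ℝ)
      (y : Fin Z → ℕ → ℝ), Dat F P A Z C0 → (∀ d, |s d| ≤ 1) → (∀ n b, |y n b| ≤ 1) →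
      (∀ b, Ms (gl Z F.Qk0 dt C0) fun n => y n b) →
      |F.Tf Z s (fun _ => y) - F.Tfree Z s y| ≤ C * P.η

theorem blk (hC : S_COMP) (hR : S_ROLE) (hT : S_TEST1) (k : ℕ) :
    ∃ C0 : ℕ, ∀ C, C0 ≤ C → Blk k C := by
  obtain ⟨C1, h1⟩ := hC k
  obtain ⟨C2, h2⟩ := hR k
  obtain ⟨C3, h3⟩ := hT k
  refine ⟨C1 + C2 + C3, fun C hC => ?_⟩
  have r1 : (C1 : ℝ) ≤ C := by exact_mod_cast (by omega : C1 ≤ C)
  have r2 : (C2 : ℝ) ≤ C := by exact_mod_cast (by omega : C2 ≤ C)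
  have r3 : (C3 : ℝ) ≤ C := by exact_mod_cast (by omega : C3 ≤ C)
  refine ⟨fun F P hk h A _ dt Z C0 s hd hdt hs => ?_, fun F P hk h Z s x i0 a b c d e f => ?_,
    fun F P hk h A _ dt Z C0 s y a b c d => ?_⟩
  · obtain ⟨c, a1, a2, a3, a4⟩ := h1 F P hk (h.mono (by omega)) A dt Z C0 lam s hd hdt
      (fun n => (abs_lam n).le) hs
    have := h.η0
    have : 0 ≤ top F P := h.σn _ _
    exact ⟨c, a1, a2, a3.trans (by gcongr), hk ▸ a4.trans (by gcongr)⟩
  · have := h.η0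
    have := h.Csb1
    have : 0 ≤ ex fun n : Fin Z => (∑ b ∈ range F.N, F.vv (n + b) * x i0 n b ^ 2) / F.N :=
      ex_nonneg fun n => div_nonneg (sum_nonneg fun b _ =>
        mul_nonneg (vv_nn h.toHyp0 _) (sq_nonneg _)) (by positivity)
    exact (h2 F P hk (h.mono (by omega)) Z s x i0 a b c d e f).trans (by gcongr)
  · have := h.η0
    exact (h3 F P hk (h.mono (by omega)) A dt Z C0 s y a b c d).trans (by gcongr)

/-- sections 3 to 6 -/
theorem chain_le (hV : S_VV) (hb : Blk k C) (h : Chain k C C2 S ε η Cw Λ T F P) {Z : ℕ}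
    (hZ : 0 < Z) (hper : pv (F 0).all ∣ Z) (s : ℕ → ℝ) (hs : ∀ d, |s d| ≤ 1) :
    ∃ j < S, ∃ (A : Type) (_ : Fintype A) (dt : ℕ → A) (C0 : ℕ → Finset ℕ),
      Dat (F j) (P j) A Z C0 ∧ (F j).Tf Z s (fun _ n b => lam (n + b)) ≤
        (F j).Tfree Z s (pred Z (F j).Qk0 dt C0 (F j).z0 lam) + (2 * k + 2) * (C * η) := by
  classical
  obtain ⟨A, _, dz, hA, hdz⟩ := h.dz
  let dt : ℕ → A × Bool := fun n => (dz n, decide (lam n = 1))
  have hl : ∀ n n', dt n = dt n' → lam n = lam n' := fun n n' e => by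
    have e2 : (lam n = 1) ↔ (lam n' = 1) := decide_eq_decide.1 (congrArg Prod.snd e)
    rcases (abs_eq zero_le_one).1 (abs_lam n) with a | a <;>
      rcases (abs_eq zero_le_one).1 (abs_lam n') with b | b
    · rw [a, b]
    · rw [e2.1 a] at b; norm_num at b
    · rw [e2.2 b] at a; norm_num at a
    · rw [a, b]
  obtain ⟨Cs, hCs⟩ := codes h dt (by
    rw [Fintype.card_prod, Fintype.card_bool, mul_comm]; exact_mod_cast hA) hZ hper s
    fun j hj C0 hd => hb.comp _ _ (h.com j hj).1 (h.hyp j hj).1 _ dt Z C0 s hd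
      (fun n n' e => ⟨hl n n' e, hdz j hj n n' (congrArg Prod.fst e)⟩) hs
  obtain ⟨j, hj, he⟩ := mart hV h dt hZ hper Cs fun j hj => (hCs j hj).2.2.1
  refine ⟨j, hj, _, inferInstance, dt, Cs j, (hCs j hj).1, ?_⟩
  obtain ⟨hd, -, -, -, s4⟩ := hCs j hj
  obtain ⟨ck, -, -, -, cη, -⟩ := h.com j hj
  have H := (h.hyp j hj).1
  set y := pred Z (F j).Qk dt (Cs (j + 1)) (F j).z lam
  set y0 := pred Z (F j).Qk0 dt (Cs j) (F j).z0 lam
  have by1 : ∀ n b, |y n b| ≤ 1 := abs_pred _ _ _ _ fun n => H.ze0 _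
  have by0 : ∀ n b, |y0 n b| ≤ 1 := abs_pred _ _ _ _ (z0_nn H.toHyp0)
  have η0 : 0 < η := cη ▸ H.η0
  have hS : (0 : ℝ) < S := by exact_mod_cast h.S0
  have t1 := Tf_tel (F j) Z s (fun n b => lam (n + b)) y
  have t2 := Tf_tel (F j) Z s y y0
  have t3 := hb.test _ _ ck H _ dt Z (Cs j) s y0 hd hs by0 fun b => ms_yr _ _ _
  have t4 : ∀ i0 ∈ range (F j).k, (F j).Tf Z s (mix y y0 i0) ≤ 2 * (C * η) := fun i0 hi => by
    have e : ∀ n b, mix y y0 i0 i0 n b = y n b - y0 n b := fun n b => by simp [mix]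
    have a := hb.role _ _ ck H Z s (mix y y0 i0) i0 hZ hd.per hs (ck ▸ mem_range.1 hi)
      (fun i n b hne => by
        unfold mix
        split_ifs
        exacts [by0 n b, by1 n b])
      fun n b => by
        rw [e]
        exact (abs_sub _ _).trans (by linarith [by1 n b, by0 n b])
    simp only [e, cη] at a
    have b : C * (P j).Csb * (P j).Cl ^ 2 / η * (1 / S) ≤ C * η := by
      rw [div_mul_div_comm, mul_one, div_le_iff₀ (by positivity), mul_assoc]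
      calc _ ≤ C * (η ^ 2 * S) := mul_le_mul_of_nonneg_left (h.big j hj) (by positivity)
        _ = _ := by ring
    have c : 0 ≤ C * (P j).Csb * (P j).Cl ^ 2 / η := by have := H.Csb1; positivity
    linarith [mul_le_mul_of_nonneg_left he c, le_abs_self ((F j).Tf Z s (mix y y0 i0))]
  have t5 := sum_le_card_nsmul _ _ _ t4
  rw [card_range, nsmul_eq_mul, ← t2, ck] at t5
  rw [← t1, cη] at s4
  rw [cη] at t3
  linarith [(abs_le.1 t3).2]

theorem floor_mul (x Q : ℕ) (hQ : 0 < Q) : x / Q * Q ≤ x ∧ x < x / Q * Q + Q :=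
  ⟨Nat.div_mul_le_self x Q, Nat.lt_div_mul_add hQ⟩

theorem main2 (hB : S_BIAS) (hC : S_COMP) (hR : S_ROLE) (hT : S_TEST1) (h7 : S_SEC7) (hP : S_PAR)
    (hV : S_VV) {k : ℕ} (hk : 2 ≤ k) {δ : ℝ} (hδ : 0 < δ) :
    ∃ X0 : ℕ, ∀ X, X0 ≤ X → |∑ n ∈ Icc 1 X, cor k n| ≤ δ * X := by
  classical
  obtain ⟨C1, hB⟩ := hB k
  obtain ⟨C3, hb⟩ := blk hC hR hT k
  obtain ⟨C4, h7⟩ := h7 k
  set C := C1 + C3 + C4 + 1 with hCd
  have hb := hb C (by omega)
  have kr : (2 : ℝ) ≤ k := by exact_mod_cast hk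
  have Cr : (1 : ℝ) ≤ C := by exact_mod_cast (by omega : 1 ≤ C)
  have C1r : (C1 : ℝ) ≤ C := by exact_mod_cast (by omega : C1 ≤ C)
  obtain ⟨η, η0, η1, η2⟩ : ∃ η : ℝ, 0 < η ∧ k * η ≤ 1 / 2 ∧ 30 * k * (C * η) ≤ δ := by
    refine ⟨min (1 / (2 * k)) (δ / (30 * k * C)), by positivity, ?_, ?_⟩
    · calc _ ≤ k * (1 / (2 * k) : ℝ) := by gcongr; exact min_le_left _ _
        _ = _ := by field_simp
    · calc _ ≤ 30 * k * (C * (δ / (30 * k * C))) := by gcongr; exact min_le_right _ _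
        _ = _ := by field_simp
  have Cη : 0 < C * η := by positivity
  have η3 : C1 * η ≤ δ := by nlinarith
  obtain ⟨Cw, hP⟩ := hP k C η η hk η0 η1 η0 (by nlinarith)
  obtain ⟨C2, h7⟩ := h7 (δ / 16) Cw (by positivity)
  obtain ⟨K, Λ, T, K0, hK, Tp, Td, hch⟩ := hP C2
  obtain ⟨-, F0, P0, -⟩ := hch 0 K0
  have : Nonempty (ℕ → Fam) := ⟨F0⟩
  have : Nonempty (ℕ → Par) := ⟨P0⟩
  choose! S F P hch using hch
  have Kr : 0 < Real.sqrt K := Real.sqrt_pos.2 (by exact_mod_cast K0)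
  let Q : ℕ → ℕ := fun i => ∏ i' ∈ range i, pv (T i')
  have Tpos : ∀ i, 0 < pv (T i) := fun i => prod_pos fun q hq => (Tp i q hq).pos
  have Qpos : 0 < Q K := prod_pos fun i _ => Tpos i
  let E : ℕ := Q K + ∑ i ∈ range K, pv (F i 0).all
  have hX : ∀ i < K, ∀ j < S i, _ := fun i hi j hj => by
    obtain ⟨c1, -, -, c2, c3, -, c4, -⟩ := (hch i hi).com j hj
    have H := ((hch i hi).hyp j hj).1
    refine hB (F i j) (P i j) c1 (H.mono (by omega)) δ (1 / Real.sqrt K) hδ (c2 ▸ η3) (c3 ▸ η3) ?_ E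
    have L1 : 1 ≤ Λ := by have := H.Lk; rw [c1, c4] at this; linarith
    rw [c3, c4, mul_one_div, div_le_iff₀ Kr]
    exact (pow_le_pow_right₀ L1 (Nat.mul_le_mul_right _ (by omega))).trans hK
  have hZ : ∀ i < K, ∀ j < S i, _ := fun i hi j hj =>
    h7 (F i j) (P i j) ((hch i hi).com j hj).1 ((hch i hi).com j hj).2.2.2.2.2.1
      (((hch i hi).hyp j hj).1.mono (by omega)) ((hch i hi).hyp j hj).2
  choose! X0 hX using hX
  choose! Z0 hZ using hZ
  refine ⟨E + 1 + ∑ i ∈ range K, ∑ j ∈ range (S i), (X0 i j + Z0 i j), fun X hXb => ?_⟩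
  by_contra hn
  obtain ⟨σ, σ1, hσ⟩ : ∃ σ : ℝ, |σ| = 1 ∧ δ * X ≤ σ * ∑ n ∈ Icc 1 X, cor k n := by
    rcases le_abs'.1 (not_le.1 hn).le with a | a
    · exact ⟨-1, by simp, by linarith⟩
    · exact ⟨1, by simp, by linarith⟩
  obtain ⟨y1, y2⟩ := floor_mul X (Q K) Qpos
  set Y := X / Q K * Q K
  have Y0 : 0 < Y := Nat.mul_pos (Nat.div_pos (by omega) Qpos) Qpos
  obtain ⟨i, hi, ht⟩ := t1 Y K Y0 K0 Q (fun i _ => ⟨pv (T i), prod_range_succ _ _⟩)
    (Dvd.intro_left _ rfl) (cor k) fun n _ => by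
      rw [cor, abs_prod]
      simp [abs_lam]
  have hc := hch i hi
  have H0 := (hc.hyp 0 hc.S0).1
  have Pp : 0 < pv (F i 0).all := prod_pos fun q hq => (H0.pr q hq).pos
  have PE : pv (F i 0).all ≤ ∑ i ∈ range K, pv (F i 0).all :=
    single_le_sum (f := fun i => pv (F i 0).all) (fun _ _ => Nat.zero_le _) (mem_range.2 hi)
  have D1 : 1 ≤ (F i 0).D := by
    have a := H0.Dbig
    have b := Real.one_le_exp (show 0 ≤ 2 * (P i 0).Lp by linarith [H0.Lp1])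
    rw [(hc.com 0 hc.S0).1] at a
    nlinarith
  have X0' : (0 : ℝ) ≤ X := by positivity
  obtain ⟨z1, z2⟩ := floor_mul ⌊(F i 0).D * X⌋₊ _ Pp
  set Z := ⌊(F i 0).D * X⌋₊ / pv (F i 0).all * pv (F i 0).all
  have XZ : X ≤ ⌊(F i 0).D * X⌋₊ := Nat.le_floor (by nlinarith)
  have z3 : (Z : ℝ) ≤ (F i 0).D * X :=
    le_trans (by exact_mod_cast z1) (Nat.floor_le (by positivity))
  have z4 : (F i 0).D * X ≤ Z + E :=
    (Nat.lt_floor_add_one _).le.trans (by exact_mod_cast (by omega))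
  have per : pv (F i 0).all ∣ Z := Dvd.intro_left _ rfl
  have hs : ∀ d, |σ * lam d ^ k| ≤ 1 := fun d => by simp [abs_mul, σ1, abs_lam]
  obtain ⟨j, hj, A, _, dt, C0, hd, hle⟩ := chain_le hV hb hc (Z := Z) (by omega) per _ hs
  have big : X0 i j + Z0 i j ≤ ∑ i ∈ range K, ∑ j ∈ range (S i), (X0 i j + Z0 i j) :=
    (single_le_sum (f := fun j => X0 i j + Z0 i j) (fun _ _ => Nat.zero_le _)
      (mem_range.2 hj)).trans (single_le_sum (f := fun i => ∑ j ∈ range (S i), (X0 i j + Z0 i j))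
        (fun _ _ => Nat.zero_le _) (mem_range.2 hi))
  have a7 := hZ i hi j hj A dt Z C0 _ (by omega) hd hs
  have d1 : pv (F i j).TT ∣ pv (T i) := prod_dvd_prod_of_subset _ _ _ (hc.sub j hj)
  have d2 : pv (F i j).TT ∣ Q (i + 1) :=
    d1.trans (Dvd.intro_left _ (prod_range_succ (fun i' => pv (T i')) i).symm)
  have d3 : Q (i + 1) ∣ Y :=
    (prod_dvd_prod_of_subset _ _ _ (range_subset_range.2 hi)).trans (Dvd.intro_left _ rfl)
  have d4 : (pv (F i j).TT).Coprime (Q i) := Nat.Coprime.coprime_dvd_left d1 <|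
    Nat.Coprime.prod_right fun i' hi' => Nat.Coprime.prod_left fun q hq =>
      Nat.Coprime.prod_right fun q' hq' => (Nat.coprime_primes (Tp i q hq) (Tp i' q' hq')).2
        fun e => disjoint_left.1 (Td i i' (mem_range.1 hi').ne') hq (e ▸ hq')
  have eD := (hc.com j hj).2.2.1
  have aB := hX i hi j hj X Y Z σ (by omega) y1 (by omega) (eD ▸ z3) (eD ▸ z4) hd.per (d2.trans d3)
    σ1 hσ fun W h1 h2 => ht _ W 1 d2 d4 h1 h2
  nlinarith

theorem chowla (hB : S_BIAS) (hC : S_COMP) (hR : S_ROLE) (hT : S_TEST1) (h7 : S_SEC7) (hP : S_PAR)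
    (hV : S_VV) (h1 : S_K1) (k : ℕ) (hk : 0 < k) :
    Asymptotics.IsLittleO Filter.atTop (fun N : ℕ => ∑ n ∈ Icc 1 N, cor k n)
      (fun N : ℕ => (N : ℝ)) := by
  refine Asymptotics.isLittleO_iff.2 fun δ hδ => ?_
  obtain ⟨X0, h⟩ : ∃ X0 : ℕ, ∀ X, X0 ≤ X → |∑ n ∈ Icc 1 X, cor k n| ≤ δ * X := by
    rcases (by omega : k = 1 ∨ 2 ≤ k) with rfl | hk
    · simpa [cor] using h1 δ hδ
    · exact main2 hB hC hR hT h7 hP hV hk hδ
  filter_upwards [Filter.eventually_ge_atTop X0] with X hX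
  simpa using h X hX

end Pool.Agent.P.MP_a14ce1_nt.Fu.St
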