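import Pool.Agent.P.MP_a14ce1_nt.Fu.Pot

/-!
Iteration of the local plain step.
-/

open Finset

namespace Pool.Agent.P.MP_a14ce1_nt.Fu

theorem Pot.mono {XX : Set (ℕ → ℂ)} {f : ℕ → ℂ} {Y M v v' : ℝ} (h : Pot XX f Y M v) (hM : 0 ≤ M)
    (hv : v' ≤ v) : Pot XX f Y M v' := by
  obtain ⟨Ψ, h1, h2⟩ := h
  exact ⟨Ψ, h1, (mul_le_mul_of_nonneg_right hv hM).trans h2⟩

namespace IterP

/-- the inverse of the sixth root -/
noncomputable def h (x : ℝ) : ℝ := x ^ (-(1 / 6 : ℝ))

theorem h_pos {x : ℝ} (hx : 0 < x) : 0 < h x := Real.rpow_pos_of_pos hx _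

theorem h_pow {x : ℝ} (hx : 0 < x) : h x ^ 6 = 1 / x := by
  rw [h, ← Real.rpow_natCast, ← Real.rpow_mul hx.le, one_div x, ← Real.rpow_neg_one]
  norm_num

theorem h_small {x k w : ℝ} (hx : 0 < x) (hw : 0 ≤ w) (hk : k ^ 6 ≤ w ^ 6 * x) : k * h x ≤ w := by
  refine le_of_pow_le_pow_left₀ (n := 6) (by norm_num) hw ?_
  rw [mul_pow, h_pow hx, mul_one_div, div_le_iff₀ hx]
  exact hk

theorem h_le {x x' θ : ℝ} (hx : 0 < x) (hx' : 0 < x') (hle : θ ^ 6 * x ≤ x') : θ * h x' ≤ h x := by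
  refine h_small hx' (h_pos hx).le ?_
  rw [h_pow hx, one_div, ← div_eq_inv_mul, le_div_iff₀ hx]
  exact hle

theorem h_anti {x x' : ℝ} (hx : 0 < x) (hle : x ≤ x') : h x' ≤ h x := by
  simpa using h_le (θ := 1) hx (hx.trans_le hle) (by simpa using hle)

/-- the bound for all the future losses -/
noncomputable def B (E l M L : ℝ) : ℝ :=
  401 * E * (h (Real.log M) + h (23 / 24 * l) - h (max (Real.log (L / M)) (23 / 24 * l)))

theorem B_nonneg {E l M L : ℝ} (hE : 0 ≤ E) (hl : 0 < l) (hM : 1 < M) : 0 ≤ B E l M L := by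
  have a1 := h_pos (Real.log_pos hM)
  have a2 := h_anti (x := 23 / 24 * l) (by positivity) (le_max_right (Real.log (L / M)) _)
  exact mul_nonneg (by positivity) (by linarith)

/-- one step, in terms of real numbers only -/
theorem step {E r M L : ℝ} (hE : 180 ≤ E ^ 6) (hE0 : 0 < E) (hr : 1 < r) (hM : 1 < M)
    (h1 : E * h (Real.log M) ≤ 1) (h2 : E * h (Real.log r) ≤ 1) (hL : r * M < L) :
    ∃ σ ε : ℝ, 0 < ε ∧ ε ≤ 1 ∧ 8 ≤ σ ∧ E ^ 6 / 60 ≤ ε ^ 6 * Real.log σ ∧ σ ^ 60 ≤ M ∧
      σ ^ 12 * M ≤ L ∧ ∀ M' L' : ℝ, M * σ ≤ M' → L ≤ L' → L' ≤ 4 * L →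
        ε + B E (Real.log r) M' L' ≤ B E (Real.log r) M L := by
  have M0 : 0 < M := by linarith
  have L0 : 0 < L := lt_trans (by positivity) hL
  set x := Real.log M with hx
  set l := Real.log (L / M) with hl
  have x0 : 0 < x := Real.log_pos hM
  have r0 : 0 < Real.log r := Real.log_pos hr
  have l1 : Real.log r ≤ l := Real.log_le_log (by linarith) ((le_div_iff₀ M0).2 hL.le)
  have l0 : 0 < l := by linarith
  set s := min (x / 60) (l / 12) with hs
  have s0 : 0 < s := lt_min (by positivity) (by positivity)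
  have s1 : s ≤ x / 60 := min_le_left _ _
  have s2 : s ≤ l / 12 := min_le_right _ _
  have e0 : 0 < E * h (60 * s) := mul_pos hE0 (h_pos (by positivity))
  have e1 : E * h (60 * s) ≤ 1 := by
    rcases min_cases (x / 60) (l / 12) with c | c
    · rw [hs, c.1, show 60 * (x / 60) = x by ring]
      exact h1
    · exact (mul_le_mul_of_nonneg_left (h_anti r0 (by rw [hs, c.1]; linarith)) hE0.le).trans h2
  have e2 : (E * h (60 * s)) ^ 6 * s = E ^ 6 / 60 := by
    rw [mul_pow, h_pow (by positivity)]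
    field_simp
  have s3 : 3 ≤ s := by
    have := mul_le_mul_of_nonneg_right (pow_le_one₀ (n := 6) e0.le e1) s0.le
    linarith
  have s4 : 8 ≤ Real.exp s := by
    have := Real.quadratic_le_exp_of_nonneg s0.le
    nlinarith
  refine ⟨Real.exp s, E * h (60 * s), e0, e1, s4, by rw [Real.log_exp, e2], ?_, ?_,
    fun M' L' hM' hL1 hL2 => ?_⟩
  · rw [← Real.exp_nat_mul, ← Real.exp_log M0]
    exact Real.exp_le_exp.2 (by push_cast; linarith)
  · rw [← le_div_iff₀ M0, ← Real.exp_nat_mul, ← Real.exp_log (div_pos L0 M0)]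
    exact Real.exp_le_exp.2 (by push_cast; linarith)
  have M1 : 0 < M * Real.exp s := by positivity
  have M2 : 0 < M' := M1.trans_le hM'
  have x1 : x + s ≤ Real.log M' := by
    have := Real.log_le_log M1 hM'
    rwa [Real.log_mul M0.ne' (Real.exp_pos s).ne', Real.log_exp] at this
  have l2 : Real.log (L' / M') ≤ l - s / 2 := by
    have a1 := Real.log_le_log (L0.trans_le hL1) hL2
    rw [Real.log_mul (by norm_num) L0.ne'] at a1
    have a2 : Real.log 4 ≤ 3 / 2 := by
      rw [show (4 : ℝ) = 2 ^ 2 by norm_num, Real.log_pow]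
      push_cast
      linarith [Real.log_two_lt_d9]
    rw [Real.log_div (L0.trans_le hL1).ne' M2.ne', hl, Real.log_div L0.ne' M0.ne']
    linarith
  have m0 : max l (23 / 24 * Real.log r) = l := max_eq_left (by linarith)
  set m' := max (Real.log (L' / M')) (23 / 24 * Real.log r) with hm'
  have m1 : 0 < m' := lt_max_of_lt_right (by positivity)
  rw [B, B, ← hx, ← hl, m0, ← hm']
  rcases min_cases (x / 60) (l / 12) with c | c
  · have c1 : 60 * s = x := by rw [hs, c.1]; ring
    have a1 := h_le (θ := 401 / 400) x0 (show 0 < Real.log M' by linarith) (by nlinarith)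
    have a2 := h_anti m1 (show m' ≤ l from max_le (by linarith) (by linarith))
    rw [c1]
    nlinarith [h_pos x0]
  · have c1 : s = l / 12 := by rw [hs, c.1]
    have a0 : m' ≤ 23 / 24 * l := max_le (by linarith) (by linarith)
    have a1 := h_le (θ := 401 / 400) m1 l0 (by nlinarith)
    have a2 := h_anti x0 (show x ≤ Real.log M' by linarith)
    have a3 := h_anti l0 (show l ≤ 60 * s by linarith)
    nlinarith [h_pos l0]

end IterP

open IterP in
theorem iter (hL : S_Loc) : S_Iter := by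
  intro A hA
  obtain ⟨C, hC, hL⟩ := hL A hA
  refine ⟨2 * 1604 ^ 6 * 60 * max C 3, by positivity,
    fun f Y M a U v r hf hF ha hU hv hv1 hM hr hY h1 h2 hP => ?_⟩
  have U2 : 1 ≤ U ^ 2 := one_le_pow₀ hU
  have C3 : 3 ≤ max C 3 * U ^ 2 := by nlinarith [le_max_right C 3]
  obtain ⟨E, E0, E6⟩ : ∃ E : ℝ, 0 < E ∧ E ^ 6 = 60 * (max C 3 * U ^ 2) :=
    ⟨(60 * (max C 3 * U ^ 2)) ^ ((6 : ℕ) : ℝ)⁻¹, by positivity,
      Real.rpow_inv_natCast_pow (by positivity) (by norm_num)⟩
  have v6 : 0 < v ^ 6 := by positivity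
  have pos : ∀ z : ℝ, 1 ≤ z → 2 * 1604 ^ 6 * 60 * max C 3 * U ^ 2 ≤ v ^ 6 * Real.log z → 1 < z :=
    fun z hz h => lt_of_le_of_ne hz fun e => by
      rw [← e, Real.log_one] at h
      nlinarith
  have r1 := pos r hr h2
  have M1 := pos M hM h1
  have r0 := Real.log_pos r1
  have b1 : 1604 * E * h (Real.log M) ≤ v :=
    h_small (Real.log_pos M1) hv.le (by rw [mul_pow, E6]; nlinarith)
  have b2 : 1604 * E * h (23 / 24 * Real.log r) ≤ v :=
    h_small (by positivity) hv.le (by rw [mul_pow, E6]; nlinarith)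
  have b3 : E * h (Real.log r) ≤ 1 := by
    have := mul_le_mul_of_nonneg_left (h_anti (x := 23 / 24 * Real.log r) (x' := Real.log r)
      (by positivity) (by linarith)) E0.le
    nlinarith [mul_pos E0 (h_pos r0)]
  have key : ∀ (n : ℕ) (Y M v : ℝ), a ≤ M → 1 < M → 1 ≤ Y → E * h (Real.log M) ≤ 1 →
      Real.log Y ≤ 2 ^ n * (r * M) → Pot (Ax.hull A) f Y M v → ∃ Y' M' : ℝ, Y ≤ Y' ∧ 0 ≤ M' ∧
        Real.log Y' ≤ r * M' ∧
        Pot (Ax.hull A) f Y' M' (v - B E (Real.log r) M (Real.log Y)) := by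
    intro n
    induction n with
    | zero =>
      intro Y M v _ hM _ _ hn hP
      exact ⟨Y, M, le_rfl, by linarith, by simpa using hn,
        hP.mono (by linarith) (by linarith [B_nonneg (L := Real.log Y) E0.le r0 hM])⟩
    | succ n ih =>
      intro Y M v ha hM hY hE hn hP
      rcases le_or_gt (Real.log Y) (r * M) with c | c
      · exact ⟨Y, M, le_rfl, by linarith, c,
          hP.mono (by linarith) (by linarith [B_nonneg (L := Real.log Y) E0.le r0 hM])⟩
      obtain ⟨σ, ε, a1, a2, a3, a4, a5, a6, a7⟩ := step (by linarith) E0 r1 hM hE b3 c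
      obtain ⟨Y', M', c1, c2, c3, c4⟩ := hL f Y M a U σ ε v hf hF ha hU a1 a2 (by linarith) hY
        (by nlinarith [le_max_left C 3]) a5 a6 hP
      have Y0 : 0 < Y := by linarith
      have M0 : 0 < M := by linarith
      have d1 : Real.log Y ≤ Real.log Y' := Real.log_le_log Y0 c1
      have d2 : Real.log Y' ≤ 4 * Real.log Y := by
        have a := Real.log_le_log (Y0.trans_le c1) c2
        rw [Real.log_mul Y0.ne' (Real.exp_pos _).ne', Real.log_exp] at a
        have b : σ ^ 6 ≤ σ ^ 12 := pow_le_pow_right₀ (by linarith) (by norm_num)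
        nlinarith
      have d3 : 8 * M ≤ M' := by nlinarith
      obtain ⟨Y2, M2, e1, e2, e3, e4⟩ := ih Y' M' (v - ε) (by linarith) (by linarith) (by linarith)
        ((mul_le_mul_of_nonneg_left (h_anti (Real.log_pos hM)
          (Real.log_le_log M0 (by linarith))) E0.le).trans hE)
        (by
          have : (2 : ℝ) ^ n * (r * (8 * M)) ≤ 2 ^ n * (r * M') := by gcongr
          rw [pow_succ] at hn
          linarith) c4
      exact ⟨Y2, M2, c1.trans e1, e2, e3, e4.mono e2 (by linarith [a7 M' _ c3 d1 d2])⟩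
  obtain ⟨n, hn⟩ := pow_unbounded_of_one_lt (Real.log Y) (show (1 : ℝ) < 2 by norm_num)
  obtain ⟨Y', M', e1, e2, e3, e4⟩ := key n Y M v ha M1 hY
    (by nlinarith [mul_pos E0 (h_pos (Real.log_pos M1))])
    (hn.le.trans (le_mul_of_one_le_right (by positivity) (by nlinarith))) hP
  refine ⟨Y', M', e1, e3, e4.mono e2 ?_⟩
  have := mul_pos E0 (h_pos (x := max (Real.log (Real.log Y / M)) (23 / 24 * Real.log r))
    (lt_max_of_lt_right (by positivity)))
  rw [B]
  linarith

end Pool.Agent.P.MP_a14ce1_nt.Fu
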