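import Pool.Agent.P.MP_a14ce1_nt.Fu.Sec7

/-! Sections 7 to 9 together, without the model: the data of section 7 do not exist far out. -/

open Finset

namespace Pool.Agent.P.MP_a14ce1_nt.Fu

/-- no data of section 7 far out -/
def S_No7 : Prop := ∀ (r L : ℕ) (δ : ℝ), 0 < δ → ∃ (η : ℝ) (C : ℕ), 0 < η ∧ η ≤ 1 ∧
  ∀ (Om cm M : ℝ) (B : ℕ), (C : ℝ) ≤ Om → 1 ≤ cm → 1 ≤ M → Om ^ C ≤ Real.log M →
    Om ^ 2 * cm ≤ Real.exp M → ∃ Z0 : ℕ,
    ∀ (ι : Type) (Z : ℕ) (d : D7 ι Z) (wb τ ℓ a : ℝ) (T : Finset ℕ) (W : Finset ℕ → ℝ),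
      Z0 ≤ Z → d.N ≤ B → d.Hyp r L δ Om wb τ ℓ η (Real.exp (Om ^ C)) →
      (∀ p ∈ T, p.Prime ∧ p ≤ B ∧ a ≤ Real.log p ∧ Real.log p ≤ a * Om) → (∀ S, |W S| ≤ 1) →
      (∀ n, (d.f n : ℂ) = wl T W n) → (∀ c ∈ d.CC, (d.cv c : ℝ) ≤ cm) →
      (∀ u : ℝ, ∑ c ∈ d.CC.filter (fun c => u ≤ Real.log (d.cv c) ∧ Real.log (d.cv c) ≤ u + 1),
        d.wh c / d.cv c ≤ Om / M) →
      a ≤ M → Om ^ 2 * (Real.exp M * cm) ≤ d.N → False

theorem D7.Hyp.mono {ι : Type} {Z : ℕ} {d : D7 ι Z} {r L : ℕ} {δ Om wb τ ℓ η E E' : ℝ}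
    (h : d.Hyp r L δ Om wb τ ℓ η E) (h0 : 0 ≤ E') (h1 : E' ≤ E) :
    d.Hyp r L δ Om wb τ ℓ η E' :=
  { h with
    big := fun c hc => h1.trans (h.big c hc)
    tau := by
      rcases le_total 0 τ with t | t
      · exact (mul_le_mul_of_nonneg_left h1 t).trans h.tau
      · exact (mul_nonpos_of_nonpos_of_nonneg t h0).trans zero_le_one }

theorem no7 (hN : S_NoPot) : S_No7 := by
  intro r L δ hδ
  obtain ⟨A, c2, C, hA, c0, c1, h7⟩ := sec7 r L δ hδ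
  obtain ⟨C'', hC'', hN⟩ := hN A hA
  refine ⟨c2, C + ⌈64 / c2⌉₊ + ⌈C''⌉₊ + 40, c0, c1, fun Om cm M B hOm hcm hM hlM hcM => ?_⟩
  set Cn := C + ⌈64 / c2⌉₊ + ⌈C''⌉₊ + 40 with hCn
  have e1 := Nat.le_ceil (64 / c2)
  have e2 := Nat.le_ceil C''
  have e3 : (0 : ℝ) ≤ C := Nat.cast_nonneg C
  have e4 : (0 : ℝ) ≤ 64 / c2 := by positivity
  have hOm' : (C : ℝ) + ⌈64 / c2⌉₊ + ⌈C''⌉₊ + 40 ≤ Om := by
    rw [hCn] at hOm; push_cast at hOm; exact hOm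
  have o1 : 64 / c2 ≤ Om := by linarith
  have o2 : C'' ≤ Om := by linarith
  have o3 : 40 ≤ Om := by linarith
  have o0 : 0 < Om := by linarith
  have o1' : 64 ≤ Om * c2 := (div_le_iff₀ c0).1 o1
  have one : (1 : ℝ) ≤ Om := by linarith
  have g0 : 0 < c2 / Om := by positivity
  have g1 : 64 ≤ Om ^ 2 * (c2 / Om) := by
    rw [show Om ^ 2 * (c2 / Om) = Om * c2 by field_simp]; exact o1'
  have g2 : c2 / Om ≤ 1 := (div_le_one o0).2 (by linarith)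
  set γ := c2 / Om with hγ
  have g3 : γ / Om ≤ 1 := (div_le_one o0).2 (by linarith)
  have g4 : 0 < γ / Om := by positivity
  obtain ⟨Y0, hY0⟩ := hN B ((γ / Om) ^ 2 / 128) Om (by positivity) (by nlinarith) one
  have x0 := Real.exp_pos M
  refine ⟨B + ⌈16 * cm * |Y0| / γ⌉₊ + ⌈256 * Real.exp M * cm / γ ^ 2⌉₊,
    fun ι Z d wb τ ℓ a T W hZ hB hH hT hW hf hc hs ha hNL => ?_⟩
  have hZ' : (B : ℝ) + ⌈16 * cm * |Y0| / γ⌉₊ + ⌈256 * Real.exp M * cm / γ ^ 2⌉₊ ≤ Z := by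
    exact_mod_cast hZ
  have z1 := Nat.le_ceil (16 * cm * |Y0| / γ)
  have z2 := Nat.le_ceil (256 * Real.exp M * cm / γ ^ 2)
  have z3 : (0 : ℝ) ≤ B := Nat.cast_nonneg B
  have z4 : 0 ≤ 16 * cm * |Y0| / γ := by positivity
  have z5 : 0 ≤ 256 * Real.exp M * cm / γ ^ 2 := by positivity
  have y1 : 16 * cm * |Y0| ≤ Z * γ := (div_le_iff₀ g0).1 (by linarith)
  have y2 : 256 * Real.exp M * cm ≤ Z * γ ^ 2 := (div_le_iff₀ (by positivity)).1 (by linarith)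
  have p1 : Om ^ 40 ≤ Om ^ Cn := pow_le_pow_right₀ one (by omega)
  have p2 : Om ^ C ≤ Om ^ Cn := pow_le_pow_right₀ one (by omega)
  have hZ0 : (0 : ℝ) ≤ Z := Nat.cast_nonneg Z
  have m0 : 0 < cm := by linarith
  have hP := h7 ι Z d Om wb τ ℓ Om cm M (γ * Z / (16 * cm))
    (hH.mono (Real.exp_pos _).le (Real.exp_le_exp.2 p2))
    (fun n => by simpa [← hf n] using norm_wl (T := T) hW n) hc hs one hM hcm (by omega)
    (by rw [← hγ, ← mul_div_assoc, le_div_iff₀ (by positivity)]; linarith)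
    (by rw [← hγ]; exact le_of_eq (by field_simp))
    (by
      rw [div_mul_eq_mul_div, le_div_iff₀ (by positivity)]
      have a1 : 64 * cm ≤ Om ^ 2 * γ * cm := by gcongr
      have a2 : γ * (Om ^ 2 * cm) ≤ γ * Real.exp M := by gcongr
      have a3 : (Z : ℝ) * (32 * cm) ≤ Z * (γ * Real.exp M) :=
        mul_le_mul_of_nonneg_left (by linarith) hZ0
      linarith)
    (by
      have a1 : 64 * (Real.exp M * cm) ≤ Om ^ 2 * γ * (Real.exp M * cm) := by gcongr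
      have a2 : γ * (Om ^ 2 * (Real.exp M * cm)) ≤ γ * d.N := by gcongr
      rw [← hγ]
      linarith)
  have hf' : (fun n => (d.f n : ℂ)) = wl T W := funext hf
  rw [hf'] at hP
  refine hY0 T W a (γ * Z / (16 * cm)) M hT hW ha hM ?_ ?_ hP
  · have a1 : 1 / Om ^ 6 ≤ (γ / Om) ^ 2 / 128 := by
      rw [div_pow, div_div, div_le_div_iff₀ (by positivity) (by positivity)]
      have : 64 ^ 2 ≤ (Om ^ 2 * γ) ^ 2 := by gcongr
      nlinarith [pow_pos o0 2]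
    calc C'' * Om ^ 2 ≤ Om ^ 2 * Om ^ 2 := by gcongr; nlinarith
      _ = (1 / Om ^ 6) ^ 6 * Om ^ 40 := by field_simp
      _ ≤ ((γ / Om) ^ 2 / 128) ^ 6 * Real.log M := by gcongr; exact p1.trans hlM
  · refine (le_abs_self Y0).trans ?_
    rw [le_div_iff₀ (by positivity)]
    linarith

end Pool.Agent.P.MP_a14ce1_nt.Fu
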