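import Pool.Agent.P.MP_a14ce1_nt.Fu.TestH

/-!
Residues of an integer in an arithmetic progression are jointly uniform; T1 on the integers.
-/

open Finset

namespace Pool.Agent.P.MP_a14ce1_nt.Fu

theorem ex_fin (M : ℕ) (φ : ℕ → ℝ) : ex (fun n : Fin M => φ n) = (∑ n ∈ range M, φ n) / M := by
  rw [ex, Fin.sum_univ_eq_sum_range, Fintype.card_fin]

/-- splitting into residue classes -/
theorem ex_fin_mul (t P : ℕ) (φ : ℕ → ℝ) :
    ex (fun n : Fin (t * P) => φ n) = ex fun r : Fin P => ex fun m : Fin t => φ (r + P * m) := by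
  rw [← ex_equiv finProdFinEquiv, ex_prod, ex_comm]
  rfl

theorem ex_fin_dvd {M P : ℕ} (h : P ∣ M) (φ : ℕ → ℝ) : ex (fun n : Fin M => φ n) =
    ex fun r : Fin P => ex fun m : Fin (M / P) => φ (r + P * m) := by
  rw [← ex_fin_mul, ex_fin, ex_fin, Nat.div_mul_cancel h]

theorem ex_zmod {M P : ℕ} [NeZero P] (h : P ∣ M) (hM : 0 < M) (φ : ZMod P → ℝ) :
    ex (fun n : Fin M => φ ((n : ℕ) : ZMod P)) = ex φ := by
  have : Nonempty (Fin (M / P)) :=
    ⟨⟨0, Nat.div_pos (Nat.le_of_dvd hM h) (Nat.pos_of_ne_zero (NeZero.ne P))⟩⟩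
  rw [ex_fin_dvd h fun n => φ (n : ZMod P), ← ex_equiv (ZMod.finEquiv P).toEquiv φ]
  refine ex_congr fun r => ?_
  simp only [Nat.cast_add, Nat.cast_mul, ZMod.natCast_self, zero_mul, add_zero, ex_const]
  congr 1
  obtain ⟨P, rfl⟩ := Nat.exists_eq_succ_of_ne_zero (NeZero.ne P)
  exact Fin.cast_val_eq_self r

/-- the residues of a + b m are jointly uniform -/
theorem ju_crt {ι : Type} [Fintype ι] [DecidableEq ι] (q : ι → ℕ) [∀ i, NeZero (q i)]
    (hq : Pairwise (Function.onFun Nat.Coprime q)) {M : ℕ} (a b : ℕ) (hM : ∏ i, q i ∣ M)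
    (h0 : 0 < M) (hb : ∀ i, Nat.Coprime b (q i)) :
    JU fun i (m : Fin M) => ((a + b * m : ℕ) : ZMod (q i)) := by
  intro φ
  have : NeZero (∏ i, q i) := ⟨prod_ne_zero_iff.2 fun i _ => NeZero.ne (q i)⟩
  let e := (((ZMod.unitOfCoprime b (Nat.Coprime.prod_right fun i _ => hb i)).mulLeft).trans
    (Equiv.addLeft (a : ZMod (∏ i, q i)))).trans (ZMod.prodEquivPi q hq).toEquiv
  rw [← ex_equiv e φ, ← ex_zmod hM h0]
  refine ex_congr fun m => congrArg φ ?_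
  have : e ((m : ℕ) : ZMod (∏ i, q i)) =
      ZMod.prodEquivPi q hq ((a + b * m : ℕ) : ZMod (∏ i, q i)) := by
    simp [e]
  rw [this, map_natCast]
  rfl

theorem ex_indep_two {ι : Type} [Fintype ι] [DecidableEq ι] {α : ι → Type} [∀ i, Fintype (α i)]
    [∀ i, Nonempty (α i)] (T : Finset ι) (φ ψ : (∀ i, α i) → ℝ)
    (h1 : ∀ v w, (∀ i ∈ T, v i = w i) → φ v = φ w)
    (h2 : ∀ v w, (∀ i, i ∉ T → v i = w i) → ψ v = ψ w) :
    ex (fun v => φ v * ψ v) = ex φ * ex ψ := by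
  let e : (∀ i, α i) × (∀ i, α i) ≃ (∀ i, α i) × (∀ i, α i) :=
    Function.Involutive.toPerm (fun z => (T.piecewise z.1 z.2, T.piecewise z.2 z.1)) fun z => by
      ext i <;> by_cases hi : i ∈ T <;> simp [hi]
  have a1 : ex φ * ex ψ = ex fun z : (∀ i, α i) × (∀ i, α i) => φ z.1 * ψ z.2 := by
    rw [ex_prod]
    simp only [ex_mul, ex_mul']
  have a2 : ex (fun v => φ v * ψ v) = ex fun z : (∀ i, α i) × (∀ i, α i) => φ z.1 * ψ z.1 := by
    rw [ex_prod]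
    exact ex_congr fun v => (ex_const (φ v * ψ v)).symm
  rw [a1, a2, ← ex_equiv e]
  refine ex_congr fun z => ?_
  congr 1
  · exact h1 _ _ fun i hi => piecewise_eq_of_mem _ _ _ hi
  · exact h2 _ _ fun i hi => piecewise_eq_of_notMem _ _ _ hi

theorem per_mod {W : ℕ → ℝ} {q : ℕ} (h : ∀ n, W (n + q) = W n) {a b : ℕ} (e : a ≡ b [MOD q]) :
    W a = W b := by
  have h1 : ∀ k n, W (n + q * k) = W n := fun k n => by
    induction k with
    | zero => simp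
    | succ k ih => rw [mul_add, mul_one, ← add_assoc, h, ih]
  rw [← Nat.mod_add_div a q, ← Nat.mod_add_div b q, h1, h1, e]

/-- a periodic function has the same mean on every progression with a coprime difference -/
theorem ex_per {W : ℕ → ℝ} {q M M' : ℕ} (h : ∀ n, W (n + q) = W n) (a b : ℕ)
    (hb : Nat.Coprime b q) (hM : q ∣ M) (h0 : 0 < M) (hM' : q ∣ M') (h0' : 0 < M') :
    ex (fun m : Fin M => W (a + b * m)) = ex fun m : Fin M' => W m := by
  have : NeZero q := ⟨fun e => h0.ne' (Nat.eq_zero_of_zero_dvd (e ▸ hM))⟩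
  have key : ∀ (a b M : ℕ), Nat.Coprime b q → q ∣ M → 0 < M →
      ex (fun m : Fin M => W (a + b * m)) = ex fun z : ZMod q => W z.val := fun a b M hb hM h0 => by
    rw [← ex_equiv (((ZMod.unitOfCoprime b hb).mulLeft).trans (Equiv.addLeft (a : ZMod q))),
      ← ex_zmod hM h0]
    refine ex_congr fun m => per_mod h ?_
    rw [← ZMod.natCast_eq_natCast_iff]
    simp
  rw [key a b M hb hM h0, ← key 0 1 M' (Nat.coprime_one_left q) hM' h0']
  simp

/-- T1 -/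
theorem t1H {Y K : ℕ} (Q : ℕ → ℕ) (hQ : ∀ κ, Q κ ∣ Q (κ + 1)) (hY : Q K ∣ Y) (h0 : 0 < Y)
    (hK : 0 < K) (s : ℕ → ℝ) (hs : ∀ n, |s n| ≤ 1) :
    ∃ κ < K, ∀ (q : ℕ) (W : ℕ → ℝ) (B : ℝ), q ∣ Q (κ + 1) → Nat.Coprime (Q κ) q →
      (∀ n, W (n + q) = W n) → (∀ n, |W n| ≤ B) →
      |(∑ n ∈ range Y, s n * W n) / Y - (∑ n ∈ range Y, s n) / Y * ((∑ n ∈ range Y, W n) / Y)| ≤
        B / √K := by
  have : Nonempty (Fin Y) := ⟨⟨0, h0⟩⟩
  have hd : ∀ κ j, Q κ ∣ Q (κ + j) := fun κ j => by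
    induction j with
    | zero => exact dvd_rfl
    | succ j ih => exact ih.trans (hQ _)
  have hle : ∀ κ ≤ K, Q κ ∣ Y := fun κ hκ => by
    obtain ⟨j, rfl⟩ := Nat.exists_eq_add_of_le hκ
    exact (hd κ j).trans hY
  obtain ⟨κ, hκ, h⟩ := t1_abs (fun κ => Setoid.ker fun n : Fin Y => (n : ℕ) % Q κ)
    (fun κ _ _ e => Nat.ModEq.of_dvd (hQ κ) e) (fun n => s n) (fun n => hs n) hK
  refine ⟨κ, hκ, fun q W B h1 h2 h3 h4 => ?_⟩
  have hq : q ∣ Y := h1.trans (hle _ hκ)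
  have hk : Q κ ∣ Y := hle _ hκ.le
  have hp : 0 < Q κ := Nat.pos_of_dvd_of_pos hk h0
  have hq' : q ∣ Y / Q κ := Nat.dvd_div_of_mul_dvd (h2.mul_dvd_of_dvd_of_dvd hk hq)
  have hp' : 0 < Y / Q κ := Nat.div_pos (Nat.le_of_dvd h0 hk) hp
  have h5 := h (fun n => W n) (fun _ _ e => per_mod h3 (Nat.ModEq.of_dvd h1 e)) fun x => by
    refine ce_unique (ms_const _ _) (fun u hu => ?_) x
    let u' : ℕ → ℝ := fun n => if hn : n < Y then u ⟨n, hn⟩ else 0
    have e1 : ∀ n : Fin Y, u n = u' n := fun n => by simp [u']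
    have e2 : ∀ (r : Fin (Q κ)) (m : Fin (Y / Q κ)), u' (r + Q κ * m) = u' r := fun r m => by
      have a1 : (r : ℕ) + Q κ * m < Y := by
        calc (r : ℕ) + Q κ * m < Q κ * (m + 1) := by rw [mul_add, mul_one, add_comm]; simp
          _ ≤ Q κ * (Y / Q κ) := Nat.mul_le_mul_left _ m.2
          _ = Y := Nat.mul_div_cancel' hk
      have a2 : (r : ℕ) < Y := by omega
      simp only [u', a1, a2, dif_pos]
      exact hu _ _ (by simp [Setoid.ker_def])
    have : Nonempty (Fin (Y / Q κ)) := ⟨⟨0, hp'⟩⟩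
    simp only [e1]
    rw [ex_fin_dvd hk fun n => u' n * W n,
      ex_fin_dvd hk fun n => u' n * ex fun n : Fin Y => W n]
    refine ex_congr fun r => ?_
    simp only [e2]
    rw [ex_mul, ex_mul, ex_const, ex_per h3 r (Q κ) h2 hq' hp' hq h0]
  rw [ex_fin Y fun n => s n * W n, ex_fin, ex_fin] at h5
  refine h5.trans (div_le_div_of_nonneg_right ?_ (Real.sqrt_nonneg _))
  have hB : 0 ≤ B := (abs_nonneg _).trans (h4 0)
  rw [Real.sqrt_le_left hB]
  exact ex_le (sq_nonneg _) fun n => sq_le_sq' (abs_le.1 (h4 n)).1 (abs_le.1 (h4 n)).2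

end Pool.Agent.P.MP_a14ce1_nt.Fu
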