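import Pool.Agent.P.MP_a14ce1_nt.Fu.Fib
import Pool.Agent.P.MP_a14ce1_nt.Fu.Crt

/-!
Residues of a uniform `n < Y`: uniform, independent for coprime moduli, jointly uniform on the
fibres of any function that is periodic to a coprime modulus.
-/

open Finset

namespace Pool.Agent.P.MP_a14ce1_nt.Fu

/-- `u` has period `Q` -/
def Per {β : Type*} (Q : ℕ) (u : ℕ → β) : Prop := ∀ x y, x ≡ y [MOD Q] → u x = u y

theorem Per.of_dvd {β : Type*} {Q Q' : ℕ} {u : ℕ → β} (h : Per Q u) (hQ : Q ∣ Q') : Per Q' u :=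
  fun x y hxy => h x y (hxy.of_dvd hQ)

theorem Per.comp {β γ : Type*} {Q : ℕ} {u : ℕ → β} (h : Per Q u) (φ : β → γ) :
    Per Q fun x => φ (u x) := fun x y hxy => congrArg φ (h x y hxy)

theorem Per.comp₂ {β β' γ : Type*} {Q : ℕ} {u : ℕ → β} {v : ℕ → β'} (hu : Per Q u) (hv : Per Q v)
    (φ : β → β' → γ) : Per Q fun x => φ (u x) (v x) :=
  fun x y hxy => congrArg₂ φ (hu x y hxy) (hv x y hxy)

theorem Per.shift {β : Type*} {Q : ℕ} {u : ℕ → β} (h : Per Q u) (b : ℕ) :
    Per Q fun x => u (x + b) := fun _ _ hxy => h _ _ (hxy.add_right b)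

theorem per_cast (Q : ℕ) : Per Q fun x => (x : ZMod Q) :=
  fun x y h => (ZMod.natCast_eq_natCast_iff x y Q).2 h

theorem per_dvd {Q q : ℕ} (hq : q ∣ Q) (b : ℕ) : Per Q fun x => q ∣ x + b := fun _ _ h =>
  propext (((h.of_dvd hq).add_right b).dvd_iff dvd_rfl)

/-- the set of the primes of `T` dividing `x + b` has period `Q` when they all divide `Q` -/
theorem per_filter {Q : ℕ} {T : Finset ℕ} (hT : ∀ q ∈ T, q ∣ Q) (b : ℕ) :
    Per Q fun x => T.filter fun q => q ∣ x + b := fun x y h =>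
  filter_congr fun q hq => (per_dvd (hT q hq) b x y h).to_iff

theorem Per.eq_val {β : Type*} {Q : ℕ} [NeZero Q] {u : ℕ → β} (h : Per Q u) (x : ℕ) :
    u x = u (x : ZMod Q).val := h _ _ (by rw [ZMod.val_natCast]; exact (Nat.mod_modEq x Q).symm)

theorem ex_fin_zmod0 (m : ℕ) [NeZero m] (g : ZMod m → ℝ) :
    ex (fun x : Fin m => g ((x : ℕ) : ZMod m)) = ex g := by
  have hb : Function.Bijective fun x : Fin m => ((x : ℕ) : ZMod m) := by
    rw [Fintype.bijective_iff_injective_and_card]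
    refine ⟨fun x y h => Fin.ext ?_, by simp⟩
    have := congrArg ZMod.val h
    simpa only [ZMod.val_cast_of_lt x.2, ZMod.val_cast_of_lt y.2] using this
  exact ex_equiv (Equiv.ofBijective _ hb) g

/-- the residue of a uniform `n < Y` is uniform -/
theorem ex_fin_zmod {m Y : ℕ} [NeZero m] (hY : 0 < Y) (hm : m ∣ Y) (g : ZMod m → ℝ) :
    ex (fun x : Fin Y => g ((x : ℕ) : ZMod m)) = ex g := by
  obtain ⟨K, rfl⟩ := hm
  have hK : 0 < K := Nat.pos_of_mul_pos_left hY
  have : Nonempty (Fin K) := ⟨⟨0, hK⟩⟩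
  rw [← ex_equiv (finProdFinEquiv.trans (finCongr (mul_comm K m))), ex_prod]
  simp only [Equiv.trans_apply, finCongr_apply, Fin.val_cast, finProdFinEquiv_apply_val,
    Nat.cast_add, Nat.cast_mul, ZMod.natCast_self, zero_mul, add_zero]
  rw [ex_const, ex_fin_zmod0]

/-- means of a periodic function over two full ranges agree -/
theorem ex_per_eq {Q Y Y' : ℕ} (hY : 0 < Y) (hY' : 0 < Y') (h : Q ∣ Y) (h' : Q ∣ Y') {u : ℕ → ℝ}
    (hu : Per Q u) : ex (fun x : Fin Y => u x) = ex fun x : Fin Y' => u x := by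
  have : NeZero Q := ⟨fun h0 => by rw [h0, zero_dvd_iff] at h; omega⟩
  rw [ex_congr fun x : Fin Y => hu.eq_val x, ex_congr fun x : Fin Y' => hu.eq_val x,
    ex_fin_zmod hY h fun z => u z.val, ex_fin_zmod hY' h' fun z => u z.val]

/-- a shift does not change the mean of a periodic function -/
theorem ex_per_shift {Q Y : ℕ} (hY : 0 < Y) (h : Q ∣ Y) {u : ℕ → ℝ} (hu : Per Q u) (b : ℕ) :
    ex (fun x : Fin Y => u (x + b)) = ex fun x : Fin Y => u x := by
  have : NeZero Q := ⟨fun h0 => by rw [h0, zero_dvd_iff] at h; omega⟩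
  rw [ex_congr fun x : Fin Y => hu.eq_val (x + b), ex_congr fun x : Fin Y => hu.eq_val x]
  simp only [Nat.cast_add]
  rw [ex_fin_zmod hY h fun z => u (z + b).val, ex_fin_zmod hY h fun z => u z.val]
  exact ex_equiv (Equiv.addRight (b : ZMod Q)) fun z => u z.val

/-- independence for coprime periods -/
theorem ex_per_mul {Q Q' Y : ℕ} (hY : 0 < Y) (hc : Q.Coprime Q') (h : Q * Q' ∣ Y)
    {u v : ℕ → ℝ} (hu : Per Q u) (hv : Per Q' v) :
    ex (fun x : Fin Y => u x * v x) = ex (fun x : Fin Y => u x) * ex fun x : Fin Y => v x := by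
  have h0 : Q * Q' ≠ 0 := fun h0 => by rw [h0, zero_dvd_iff] at h; omega
  have : NeZero Q := ⟨left_ne_zero_of_mul h0⟩
  have : NeZero Q' := ⟨right_ne_zero_of_mul h0⟩
  have : NeZero (Q * Q') := ⟨h0⟩
  let e := (ZMod.chineseRemainder hc).toEquiv
  have he : ∀ x : ℕ, e (x : ZMod (Q * Q')) = ((x : ZMod Q), (x : ZMod Q')) := fun x =>
    (map_natCast (ZMod.chineseRemainder hc) x).trans rfl
  let g : ZMod Q × ZMod Q' → ℝ := fun z => u z.1.val * v z.2.val
  have e1 : ex (fun x : Fin Y => u x * v x) = ex g := by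
    rw [← ex_equiv e g, ← ex_fin_zmod hY h fun z => g (e z)]
    refine ex_congr fun x => ?_
    rw [he, hu.eq_val x, hv.eq_val x]
  rw [e1, ex_prod, ex_congr fun x : Fin Y => hu.eq_val x, ex_congr fun x : Fin Y => hv.eq_val x,
    ex_fin_zmod hY (dvd_of_mul_right_dvd h) fun z => u z.val,
    ex_fin_zmod hY (dvd_of_mul_left_dvd h) fun z => v z.val, ← ex_mul']
  exact ex_congr fun a => ex_mul (u a.val) fun z : ZMod Q' => v z.val

section ju

variable {ι : Type} [Fintype ι] [DecidableEq ι] (q : ι → ℕ) [∀ i, NeZero (q i)]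

/-- the residues of a uniform `n < Y` are jointly uniform -/
theorem ju_res (hq : Pairwise fun i j => (q i).Coprime (q j)) {Y : ℕ} (hY : 0 < Y)
    (h : ∏ i, q i ∣ Y) : JU fun i (x : Fin Y) => ((x : ℕ) : ZMod (q i)) := by
  intro φ
  have : NeZero (∏ i, q i) := ⟨prod_ne_zero_iff.2 fun i _ => NeZero.ne _⟩
  let e := (ZMod.prodEquivPi q hq).toEquiv
  have he : ∀ x : ℕ, e (x : ZMod (∏ i, q i)) = fun i => (x : ZMod (q i)) := fun x =>
    (map_natCast (ZMod.prodEquivPi q hq) x).trans rfl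
  rw [← ex_equiv e φ, ← ex_fin_zmod hY h fun z => φ (e z)]
  exact ex_congr fun x => by rw [he]

omit [DecidableEq ι] [∀ i, NeZero (q i)] in
theorem per_res : Per (∏ i, q i) fun x i => (x : ZMod (q i)) := fun x y h =>
  funext fun i => (per_cast (q i)).of_dvd (dvd_prod_of_mem q (mem_univ i)) x y h

/-- on a nonempty fibre of a function with a coprime period the residues stay jointly uniform -/
theorem ju_fib (hq : Pairwise fun i j => (q i).Coprime (q j)) {Q Y : ℕ}
    (hQ : ∀ i, Q.Coprime (q i)) (h : Q * ∏ i, q i ∣ Y) {R : Type} [DecidableEq R] {r : ℕ → R}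
    (hr : Per Q r) (x0 : Fin Y) :
    JU fun i (x : Fb (fun x : Fin Y => r x) (r x0)) => ((x.1 : ℕ) : ZMod (q i)) := by
  intro φ
  have hY : 0 < Y := x0.pos
  have h1 := ex_fb_mul (fun x : Fin Y => r x) (r x0) fun x => φ fun i => ((x : ℕ) : ZMod (q i))
  have h2 := ex_per_mul hY (Nat.Coprime.prod_right fun i _ => hQ i) h
    (hr.comp fun c => ind (c = r x0)) ((per_res q).comp φ)
  rw [h2, ju_res q hq hY (dvd_of_mul_left_dvd h) φ, mul_comm] at h1
  exact mul_left_cancel₀ (ex_ind_fb_pos (fun x : Fin Y => r x) x0).ne' h1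

end ju

/-- on a nonempty fibre a function with a coprime period keeps its mean -/
theorem ex_fb_per {Q Q' Y : ℕ} (hc : Q.Coprime Q') (h : Q * Q' ∣ Y) {R : Type} [DecidableEq R]
    {r : ℕ → R} (hr : Per Q r) {v : ℕ → ℝ} (hv : Per Q' v) (x0 : Fin Y) :
    ex (fun x : Fb (fun x : Fin Y => r x) (r x0) => v x.1) = ex fun x : Fin Y => v x := by
  have h1 := ex_fb_mul (fun x : Fin Y => r x) (r x0) fun x => v x
  rw [ex_per_mul x0.pos hc h (hr.comp fun c => ind (c = r x0)) hv, mul_comm] at h1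
  exact mul_left_cancel₀ (ex_ind_fb_pos (fun x : Fin Y => r x) x0).ne' h1

/-- the site `b` is hit by the residue `-b` -/
theorem hit_iff (q x b : ℕ) : (x : ZMod q) = -(b : ZMod q) ↔ q ∣ x + b := by
  rw [← add_eq_zero_iff_eq_neg, ← Nat.cast_add, ZMod.natCast_eq_zero_iff]

/-- number of sites below `N` hit by one residue -/
theorem card_hit_le {q : ℕ} (hq : 0 < q) (N : ℕ) {S : Finset ℕ} (hS : ∀ b ∈ S, b < N)
    (v : ZMod q) : (S.filter fun b : ℕ => -(b : ZMod q) = v).card ≤ N / q + 1 := by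
  rw [← card_range (N / q + 1)]
  refine card_le_card_of_injOn (fun b => b / q) (fun b hb => ?_) fun b hb b' hb' e => ?_
  · have := hS b (mem_filter.1 hb).1
    exact mem_coe.2 (mem_range.2 (Nat.lt_succ_of_le (Nat.div_le_div_right this.le)))
  · have h1 := (mem_filter.1 hb).2.trans (mem_filter.1 hb').2.symm
    have h2 : b % q = b' % q := (ZMod.natCast_eq_natCast_iff' b b' q).1 (neg_injective h1)
    have _ := hq
    rw [← Nat.div_add_mod b q, ← Nat.div_add_mod b' q, h2]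
    simp only at e
    rw [e]

/-- inside a long cell a residue hits at most one site -/
theorem card_hit_cell {q c N n : ℕ} (hc : c.Coprime q) (hN : N ≤ c * q) {S : Finset ℕ}
    (hS : ∀ b ∈ S, b < N ∧ c ∣ n + b) (v : ZMod q) :
    (S.filter fun b : ℕ => -(b : ZMod q) = v).card ≤ 1 := by
  refine card_le_one.2 fun b hb b' hb' => ?_
  obtain ⟨hb, e⟩ := mem_filter.1 hb
  obtain ⟨hb', e'⟩ := mem_filter.1 hb'
  have h1 : b ≡ b' [MOD q] :=
    (ZMod.natCast_eq_natCast_iff b b' q).1 (neg_injective (e.trans e'.symm))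
  have h2 : b ≡ b' [MOD c] := Nat.ModEq.add_left_cancel' n
    ((Nat.modEq_zero_iff_dvd.2 (hS b hb).2).trans (Nat.modEq_zero_iff_dvd.2 (hS b' hb').2).symm)
  have h3 := (Nat.modEq_and_modEq_iff_modEq_mul hc).1 ⟨h2, h1⟩
  exact h3.eq_of_lt_of_lt ((hS b hb).1.trans_le hN) ((hS b' hb').1.trans_le hN)

end Pool.Agent.P.MP_a14ce1_nt.Fu
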