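import Pool.Agent.P.MP_a14ce1_nt.Ch.MainA
import Pool.Agent.P.MP_a14ce1_nt.Fu.SB2
import Pool.Agent.P.MP_a14ce1_nt.Fu.Crt

/-! The random set of primes of one site, and its tilt by a weight on the subsets. -/

open Finset

namespace Pool.Agent.P.MP_a14ce1_nt.Fu

open Pool.Agent.P.MP_a14ce1_nt.Ch

/-- mean over the random set of members of P dividing an integer -/
noncomputable def Em (P : Finset ℕ) (φ : Finset ℕ → ℝ) : ℝ := ∑ A ∈ P.powerset, mu P A * φ A

variable {P Q : Finset ℕ} {φ ψ : Finset ℕ → ℝ}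

theorem mu_nn (G T : Finset ℕ) : 0 ≤ mu G T := by
  unfold mu
  refine mul_nonneg (prod_nonneg fun _ _ => by positivity) (prod_nonneg fun q _ => ?_)
  rcases Nat.eq_zero_or_pos q with h | h
  · subst h; simp
  · have h1 : (1 : ℝ) ≤ q := by exact_mod_cast h
    have : (1 : ℝ) / q ≤ 1 := by rw [div_le_one (by linarith)]; exact h1
    linarith

theorem Em_empty (φ : Finset ℕ → ℝ) : Em ∅ φ = φ ∅ := by simp [Em, mu]

theorem Em_congr (h : ∀ A ⊆ P, φ A = ψ A) : Em P φ = Em P ψ :=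
  sum_congr rfl fun A hA => by rw [h A (mem_powerset.1 hA)]

theorem Em_mono (h : ∀ A ⊆ P, φ A ≤ ψ A) : Em P φ ≤ Em P ψ :=
  sum_le_sum fun A hA => mul_le_mul_of_nonneg_left (h A (mem_powerset.1 hA)) (mu_nn _ _)

theorem Em_nonneg (h : ∀ A ⊆ P, 0 ≤ φ A) : 0 ≤ Em P φ :=
  sum_nonneg fun A hA => mul_nonneg (mu_nn _ _) (h A (mem_powerset.1 hA))

theorem Em_add (P : Finset ℕ) (φ ψ : Finset ℕ → ℝ) :
    Em P (fun A => φ A + ψ A) = Em P φ + Em P ψ := by
  simp only [Em, mul_add, sum_add_distrib]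

theorem Em_sub' (P : Finset ℕ) (φ ψ : Finset ℕ → ℝ) :
    Em P (fun A => φ A - ψ A) = Em P φ - Em P ψ := by
  simp only [Em, mul_sub, sum_sub_distrib]

theorem Em_mul (P : Finset ℕ) (c : ℝ) (φ : Finset ℕ → ℝ) :
    Em P (fun A => c * φ A) = c * Em P φ := by
  simp only [Em, mul_sum]
  exact sum_congr rfl fun _ _ => by ring

theorem Em_mul' (P : Finset ℕ) (c : ℝ) (φ : Finset ℕ → ℝ) :
    Em P (fun A => φ A * c) = Em P φ * c := by
  simp only [Em, sum_mul, mul_assoc]

theorem Em_div (P : Finset ℕ) (c : ℝ) (φ : Finset ℕ → ℝ) :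
    Em P (fun A => φ A / c) = Em P φ / c := by
  simp only [div_eq_mul_inv, Em_mul']

theorem Em_sum {ι : Type*} (P : Finset ℕ) (s : Finset ι) (φ : ι → Finset ℕ → ℝ) :
    Em P (fun A => ∑ i ∈ s, φ i A) = ∑ i ∈ s, Em P (φ i) := by
  simp only [Em, mul_sum]
  exact sum_comm

theorem Em_zero (P : Finset ℕ) : Em P (fun _ => 0) = 0 := by simp [Em]

theorem Em_insert {q : ℕ} (hq : q ∉ P) (φ : Finset ℕ → ℝ) :
    Em (insert q P) φ = Em P fun A => (1 - 1 / q) * φ A + 1 / q * φ (insert q A) := by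
  unfold Em
  rw [sum_powerset_insert hq, ← sum_add_distrib]
  refine sum_congr rfl fun T hT => ?_
  rw [Main.mu_insert_not hq (mem_powerset.1 hT), Main.mu_insert_in hq (mem_powerset.1 hT)]
  ring

theorem Em_const (P : Finset ℕ) (c : ℝ) : Em P (fun _ => c) = c := by
  induction P using Finset.induction_on with
  | empty => exact Em_empty _
  | insert q P hq ih =>
    rw [Em_insert hq, ← ih]
    exact (Em_congr fun _ _ => by rw [ih]; ring)

theorem Em_le {c : ℝ} (h : ∀ A ⊆ P, φ A ≤ c) : Em P φ ≤ c :=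
  (Em_mono h).trans (Em_const P c).le

theorem Em_comm (P Q : Finset ℕ) (F : Finset ℕ → Finset ℕ → ℝ) :
    (Em P fun A => Em Q fun B => F A B) = Em Q fun B => Em P fun A => F A B := by
  simp only [Em, mul_sum]
  rw [sum_comm]
  exact sum_congr rfl fun _ _ => sum_congr rfl fun _ _ => by ring

theorem Em_union (h : Disjoint P Q) (φ : Finset ℕ → ℝ) :
    Em (P ∪ Q) φ = Em P fun A => Em Q fun B => φ (A ∪ B) := by
  induction Q using Finset.induction_on generalizing φ with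
  | empty => simp [Em_empty]
  | insert q Q hq ih =>
    have hqP : q ∉ P := fun c => disjoint_left.1 h c (mem_insert_self _ _)
    have h' : Disjoint P Q := h.mono_right (subset_insert _ _)
    rw [union_insert, Em_insert (by simp [hq, hqP]), ih h']
    refine Em_congr fun A _ => ?_
    rw [Em_insert hq]
    simp only [union_insert]

theorem un_inter_left {A B : Finset ℕ} (h : Disjoint P Q) (hA : A ⊆ P) (hB : B ⊆ Q) :
    (A ∪ B) ∩ P = A := by
  ext x
  simp only [mem_inter, mem_union]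
  exact ⟨fun ⟨c, d⟩ => c.resolve_right fun e => disjoint_left.1 h d (hB e),
    fun c => ⟨Or.inl c, hA c⟩⟩

theorem un_inter_right {A B : Finset ℕ} (h : Disjoint P Q) (hA : A ⊆ P) (hB : B ⊆ Q) :
    (A ∪ B) ∩ Q = B := by
  rw [union_comm]
  exact un_inter_left h.symm hB hA

/-- two disjoint classes are independent -/
theorem Em_split (h : Disjoint P Q) (F : Finset ℕ → Finset ℕ → ℝ) :
    Em (P ∪ Q) (fun A => F (A ∩ P) (A ∩ Q)) = Em P fun A => Em Q fun B => F A B := by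
  rw [Em_union h]
  refine Em_congr fun A hA => Em_congr fun B hB => ?_
  rw [un_inter_left h hA hB, un_inter_right h hA hB]

theorem Em_mul_inter (h : Disjoint P Q) (φ ψ : Finset ℕ → ℝ) :
    Em (P ∪ Q) (fun A => φ (A ∩ P) * ψ (A ∩ Q)) = Em P φ * Em Q ψ := by
  rw [Em_split h fun A B => φ A * ψ B]
  simp only [Em_mul, Em_mul']

/-- marginal on a smaller class -/
theorem Em_inter (h : P ⊆ Q) (φ : Finset ℕ → ℝ) : Em Q (fun A => φ (A ∩ P)) = Em P φ := by
  have e : Q = P ∪ Q \ P := (union_sdiff_of_subset h).symm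
  rw [e, Em_split disjoint_sdiff fun A _ => φ A]
  simp only [Em_const]

theorem Em_top (c : Finset ℕ) (φ : Finset ℕ → ℝ) :
    Em c (fun A => if c ⊆ A then φ A else 0) = 1 / pv c * φ c := by
  unfold Em
  rw [sum_eq_single c]
  · simp only [subset_refl, if_true, mu, sdiff_self, bot_eq_empty, prod_empty, mul_one, pv]
    rw [prod_div_distrib, prod_const_one, Nat.cast_prod]
  · intro A hA hne
    simp only [if_neg fun c' => hne (Subset.antisymm (mem_powerset.1 hA) c'), mul_zero]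
  · intro h
    exact absurd (mem_powerset_self c) h

/-- forcing the members of c -/
theorem Em_sub {c : Finset ℕ} (hc : c ⊆ P) (φ : Finset ℕ → ℝ) :
    Em P (fun A => if c ⊆ A then φ A else 0) = 1 / pv c * Em (P \ c) fun B => φ (c ∪ B) := by
  have e : P = c ∪ P \ c := (union_sdiff_of_subset hc).symm
  conv_lhs => rw [e, Em_union disjoint_sdiff]
  rw [← Em_top c fun A => Em (P \ c) fun B => φ (A ∪ B)]
  refine Em_congr fun A hA => ?_
  by_cases h : c ⊆ A
  · rw [if_pos h]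
    exact Em_congr fun B _ => if_pos (h.trans subset_union_left)
  · rw [if_neg h]
    refine (Em_congr fun B hB => if_neg fun h' => h fun x hx => ?_).trans (Em_zero _)
    exact (mem_union.1 (h' hx)).resolve_right fun d => (mem_sdiff.1 (hB d)).2 hx

theorem Em_ind_sub {c : Finset ℕ} (hc : c ⊆ P) :
    Em P (fun A => if c ⊆ A then 1 else 0) = 1 / pv c := by
  rw [Em_sub hc fun _ => 1, Em_const, mul_one]

theorem Em_ind_mem {q : ℕ} (hq : q ∈ P) : Em P (fun A => if q ∈ A then 1 else 0) = 1 / q := by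
  have := Em_ind_sub (singleton_subset_iff.2 hq)
  simpa [pv] using this

theorem sum_sub_eq {A : Finset ℕ} (hA : A ⊆ P) (F : Finset ℕ → ℝ) :
    ∑ c ∈ A.powerset, F c = ∑ c ∈ P.powerset, if c ⊆ A then F c else 0 := by
  rw [← sum_filter]
  refine sum_congr ?_ fun _ _ => rfl
  ext g
  simp only [mem_filter, mem_powerset]
  exact ⟨fun c => ⟨c.trans hA, c⟩, fun c => c.2⟩

theorem sum_powerset_union {A B : Finset ℕ} (h : Disjoint A B) (F : Finset ℕ → ℝ) :
    ∑ c ∈ (A ∪ B).powerset, F c = ∑ x ∈ A.powerset, ∑ y ∈ B.powerset, F (x ∪ y) := by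
  rw [← sum_product']
  refine (sum_bij' (fun z _ => z.1 ∪ z.2) (fun c _ => (c ∩ A, c ∩ B)) ?_ ?_ ?_ ?_ ?_).symm
  · intro z hz
    simp only [mem_product, mem_powerset] at hz ⊢
    exact union_subset_union hz.1 hz.2
  · intro c _
    simp only [mem_product, mem_powerset]
    exact ⟨inter_subset_right, inter_subset_right⟩
  · intro z hz
    simp only [mem_product, mem_powerset] at hz
    rw [un_inter_left h hz.1 hz.2, un_inter_right h hz.1 hz.2]
  · intro c hc
    rw [← inter_union_distrib_left, inter_eq_left.2 (mem_powerset.1 hc)]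
  · intro _ _
    rfl

/-! ### residues -/

theorem ex_fin_Em (hP : ∀ q ∈ P, q.Prime) {Y : ℕ} (hY : pv P ∣ Y) (h0 : 0 < Y) (b : ℕ)
    (φ : Finset ℕ → ℝ) :
    ex (fun n : Fin Y => φ (P.filter fun q => q ∣ n + b)) = Em P φ := by
  have hp : 0 < pv P := Main.pv_pos hP
  have h1 := ex_per (W := fun n => φ (P.filter fun q => q ∣ n + b)) (q := pv P) (M := Y)
    (M' := pv P) (fun n => by
      congr 1
      refine filter_congr fun q hq => ?_
      rw [add_right_comm]
      exact (Nat.dvd_add_iff_left (Main.dvd_pv hq)).symm) 0 1 (Nat.coprime_one_left _) hY h0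
    dvd_rfl hp
  simp only [zero_add, one_mul] at h1
  rw [h1, ex_fin (pv P) fun n => φ (P.filter fun q => q ∣ n + b)]
  have h2 := Main.crt_eq P hP φ b
  unfold Main.Tn at h2
  have : (pv P : ℝ) ≠ 0 := by exact_mod_cast hp.ne'
  rw [h2, mul_div_cancel_left₀ _ this]
  rfl

/-- functions with coprime periods are independent -/
theorem ex_indep_per {Y a b : ℕ} (hab : Nat.Coprime a b) (hY : a * b ∣ Y) (h0 : 0 < Y)
    {F G : ℕ → ℝ} (hF : ∀ n, F (n + a) = F n) (hG : ∀ n, G (n + b) = G n) :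
    ex (fun n : Fin Y => F n * G n) = ex (fun n : Fin Y => F n) * ex fun n : Fin Y => G n := by
  have ha : a ∣ Y := (dvd_mul_right a b).trans hY
  have ha0 : 0 < a := Nat.pos_of_dvd_of_pos ha h0
  have hb : b ∣ Y / a := (Nat.dvd_div_iff_mul_dvd ha).2 hY
  have hm : 0 < Y / a := Nat.div_pos (Nat.le_of_dvd h0 ha) ha0
  have : Nonempty (Fin (Y / a)) := ⟨⟨0, hm⟩⟩
  have hFr : ∀ r m : ℕ, F (r + a * m) = F r := fun r m =>
    per_mod hF (by simp [Nat.ModEq])
  rw [ex_fin_dvd ha fun n => F n * G n, ex_fin_dvd ha F, ← ex_mul']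
  refine ex_congr fun r => ?_
  simp only [hFr]
  rw [ex_mul, ex_const, ex_per hG r a hab hb hm ((dvd_mul_left b a).trans hY) h0]

/-! ### tilt by a weight on the subsets -/

/-- total weight of the subsets of A -/
noncomputable def Vt (w : Finset ℕ → ℝ) (A : Finset ℕ) : ℝ := ∑ c ∈ A.powerset, w c

/-- mean under the law of a pair c ⊆ A with weight w c -/
noncomputable def Et (P : Finset ℕ) (w : Finset ℕ → ℝ) (ψ : Finset ℕ → Finset ℕ → ℝ) : ℝ :=
  Em P fun A => ∑ c ∈ A.powerset, w c * ψ c A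

variable {w w' : Finset ℕ → ℝ} {F G : Finset ℕ → Finset ℕ → ℝ}

theorem Et_congr (h : ∀ A ⊆ P, ∀ c ⊆ A, F c A = G c A) : Et P w F = Et P w G :=
  Em_congr fun A hA => sum_congr rfl fun c hc => by rw [h A hA c (mem_powerset.1 hc)]

theorem Et_congr_w (h : ∀ c ⊆ P, w c = w' c) : Et P w F = Et P w' F :=
  Em_congr fun A hA => sum_congr rfl fun c hc => by rw [h c ((mem_powerset.1 hc).trans hA)]

theorem Et_mono (hw : ∀ c, 0 ≤ w c) (h : ∀ A ⊆ P, ∀ c ⊆ A, w c ≠ 0 → F c A ≤ G c A) :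
    Et P w F ≤ Et P w G :=
  Em_mono fun A hA => sum_le_sum fun c hc => by
    by_cases h0 : w c = 0
    · simp [h0]
    · exact mul_le_mul_of_nonneg_left (h A hA c (mem_powerset.1 hc) h0) (hw c)

theorem Et_nonneg (hw : ∀ c, 0 ≤ w c) (h : ∀ A ⊆ P, ∀ c ⊆ A, 0 ≤ F c A) : 0 ≤ Et P w F :=
  Em_nonneg fun A hA => sum_nonneg fun c hc => mul_nonneg (hw c) (h A hA c (mem_powerset.1 hc))

theorem Et_add (P : Finset ℕ) (w : Finset ℕ → ℝ) (F G : Finset ℕ → Finset ℕ → ℝ) :
    Et P w (fun c A => F c A + G c A) = Et P w F + Et P w G := by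
  simp only [Et, mul_add, sum_add_distrib, Em_add]

theorem Et_mul (P : Finset ℕ) (w : Finset ℕ → ℝ) (a : ℝ) (F : Finset ℕ → Finset ℕ → ℝ) :
    Et P w (fun c A => a * F c A) = a * Et P w F := by
  unfold Et
  rw [← Em_mul]
  refine Em_congr fun A _ => ?_
  rw [mul_sum]
  exact sum_congr rfl fun _ _ => by ring

theorem Et_div (P : Finset ℕ) (w : Finset ℕ → ℝ) (a : ℝ) (F : Finset ℕ → Finset ℕ → ℝ) :
    Et P w (fun c A => F c A / a) = Et P w F / a := by
  simp only [div_eq_inv_mul, Et_mul]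

theorem Et_sum {ι : Type*} (P : Finset ℕ) (w : Finset ℕ → ℝ) (s : Finset ι)
    (F : ι → Finset ℕ → Finset ℕ → ℝ) :
    Et P w (fun c A => ∑ i ∈ s, F i c A) = ∑ i ∈ s, Et P w (F i) := by
  unfold Et
  rw [← Em_sum]
  refine Em_congr fun A _ => ?_
  simp only [mul_sum]
  exact sum_comm

theorem Et_site (P : Finset ℕ) (w φ : Finset ℕ → ℝ) :
    Et P w (fun _ A => φ A) = Em P fun A => Vt w A * φ A := by
  simp only [Et, Vt, sum_mul]

/-- c has the law w c / pv c and the other members of A are natural -/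
theorem Et_eq (P : Finset ℕ) (w : Finset ℕ → ℝ) (F : Finset ℕ → Finset ℕ → ℝ) :
    Et P w F = ∑ c ∈ P.powerset, w c / pv c * Em (P \ c) fun B => F c (c ∪ B) := by
  unfold Et
  rw [Em_congr fun A hA => sum_sub_eq hA _, Em_sum]
  refine sum_congr rfl fun c hc => ?_
  rw [Em_sub (mem_powerset.1 hc) fun A => w c * F c A, Em_mul]
  ring

theorem Et_obj (P : Finset ℕ) (w φ : Finset ℕ → ℝ) :
    Et P w (fun c _ => φ c) = ∑ c ∈ P.powerset, w c / pv c * φ c := by
  simp only [Et_eq, Em_const]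

/-- a normalised weight -/
def Nrm (P : Finset ℕ) (w : Finset ℕ → ℝ) : Prop :=
  (∀ c, 0 ≤ w c) ∧ ∑ c ∈ P.powerset, w c / pv c = 1

theorem Nrm.const (h : Nrm P w) (a : ℝ) : Et P w (fun _ _ => a) = a := by
  rw [Et_obj P w fun _ => a, ← sum_mul, h.2, one_mul]

theorem Nrm.mean (h : Nrm P w) : Em P (Vt w) = 1 := by
  have := h.const 1
  rw [Et_site P w fun _ => 1] at this
  simpa using this

theorem Nrm.le (h : Nrm P w) {a : ℝ} (hF : ∀ A ⊆ P, ∀ c ⊆ A, w c ≠ 0 → F c A ≤ a) :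
    Et P w F ≤ a := (Et_mono h.1 hF).trans (h.const a).le

theorem Vt_nonneg (hw : ∀ c, 0 ≤ w c) (A : Finset ℕ) : 0 ≤ Vt w A :=
  sum_nonneg fun c _ => hw c

theorem le_Vt (hw : ∀ c, 0 ≤ w c) {A c : Finset ℕ} (h : c ⊆ A) : w c ≤ Vt w A :=
  single_le_sum (fun c _ => hw c) (mem_powerset.2 h)

/-- product of two weights -/
noncomputable def wm (P Q : Finset ℕ) (w w' : Finset ℕ → ℝ) (c : Finset ℕ) : ℝ :=
  w (c ∩ P) * w' (c ∩ Q)

theorem wm_union (h : Disjoint P Q) {x y : Finset ℕ} (hx : x ⊆ P) (hy : y ⊆ Q) :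
    wm P Q w w' (x ∪ y) = w x * w' y := by
  rw [wm, un_inter_left h hx hy, un_inter_right h hx hy]

theorem sum_wm (h : Disjoint P Q) {A B : Finset ℕ} (hA : A ⊆ P) (hB : B ⊆ Q)
    (φ : Finset ℕ → ℝ) : ∑ c ∈ (A ∪ B).powerset, wm P Q w w' c * φ c =
      ∑ x ∈ A.powerset, w x * ∑ y ∈ B.powerset, w' y * φ (x ∪ y) := by
  rw [sum_powerset_union (h.mono hA hB)]
  refine sum_congr rfl fun x hx => ?_
  rw [mul_sum]
  refine sum_congr rfl fun y hy => ?_
  rw [wm_union h ((mem_powerset.1 hx).trans hA) ((mem_powerset.1 hy).trans hB), mul_assoc]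

theorem Vt_wm (h : Disjoint P Q) {A B : Finset ℕ} (hA : A ⊆ P) (hB : B ⊆ Q) :
    Vt (wm P Q w w') (A ∪ B) = Vt w A * Vt w' B := by
  have := sum_wm (w := w) (w' := w') h hA hB fun _ => 1
  simpa only [mul_one, ← sum_mul, Vt] using this

theorem Et_wm (h : Disjoint P Q) (w w' : Finset ℕ → ℝ) (F : Finset ℕ → Finset ℕ → ℝ) :
    Et (P ∪ Q) (wm P Q w w') F =
      Et P w fun x A => Et Q w' fun y B => F (x ∪ y) (A ∪ B) := by
  unfold Et
  rw [Em_union h]
  refine Em_congr fun A hA => ?_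
  rw [Em_congr fun B hB => sum_wm h hA hB _, Em_sum]
  exact sum_congr rfl fun x _ => Em_mul _ _ _

theorem Et_comm (P Q : Finset ℕ) (w w' : Finset ℕ → ℝ)
    (F : Finset ℕ → Finset ℕ → Finset ℕ → Finset ℕ → ℝ) :
    (Et P w fun x A => Et Q w' fun y B => F x A y B) =
      Et Q w' fun y B => Et P w fun x A => F x A y B := by
  unfold Et
  simp only [← Em_mul, ← Em_sum, mul_sum]
  rw [Em_comm]
  refine Em_congr fun B _ => Em_congr fun A _ => ?_
  rw [sum_comm]
  exact sum_congr rfl fun _ _ => sum_congr rfl fun _ _ => by ring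

theorem Nrm.wm (h : Disjoint P Q) (h1 : Nrm P w) (h2 : Nrm Q w') :
    Nrm (P ∪ Q) (wm P Q w w') := by
  refine ⟨fun c => mul_nonneg (h1.1 _) (h2.1 _), ?_⟩
  have := Et_wm h w w' fun _ _ => 1
  rw [Et_obj _ _ fun _ => 1] at this
  simpa only [mul_one, h2.const, h1.const] using this

/-- marginal on the first class -/
theorem Et_wm_left (h : Disjoint P Q) (h2 : Nrm Q w') (F : Finset ℕ → Finset ℕ → ℝ) :
    Et (P ∪ Q) (wm P Q w w') (fun c A => F (c ∩ P) (A ∩ P)) = Et P w F := by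
  rw [Et_wm h]
  refine Et_congr fun A hA x hx => ?_
  rw [← h2.const (F x A)]
  refine Et_congr fun B hB y hy => ?_
  rw [un_inter_left h hA hB, un_inter_left h (hx.trans hA) (hy.trans hB)]

end Pool.Agent.P.MP_a14ce1_nt.Fu
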