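import Pool.Agent.P.MP_a14ce1_nt.Fu.Ind
import Pool.Agent.P.MP_a14ce1_nt.Ch.MainA

/-!
IND for the integers: n uniform below Y, sites n + b i, primes of TT.
-/

open Finset

namespace Pool.Agent.P.MP_a14ce1_nt.Fu

open Ch (mu pv)
open Ch.Main (Tn)

/-- mean over the integers below Y -/
noncomputable def avN (Y : ℕ) (f : ℕ → ℝ) : ℝ := (∑ n ∈ range Y, f n) / Y

/-- mean of a function of the set of primes of TT dividing a random integer -/
noncomputable def EM (TT : Finset ℕ) (w : Finset ℕ → ℝ) : ℝ := ∑ T ∈ TT.powerset, mu TT T * w T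

/-- the same for independent sites -/
noncomputable def EI {σ : Type} [Fintype σ] [DecidableEq σ] (TT : Finset ℕ)
    (G : (σ → Finset ℕ) → ℝ) : ℝ :=
  ∑ A ∈ Fintype.piFinset fun _ : σ => TT.powerset, (∏ i, mu TT (A i)) * G A

/-- the error of IND for n sites -/
noncomputable def tauI (n : ℕ) (N M : ℝ) : ℝ := 2 * (n : ℝ) ^ 3 * (1 + Real.log N) / M

theorem ex_avN (Y : ℕ) (f : ℕ → ℝ) : (ex fun n : Fin Y => f n) = avN Y f := by
  rw [ex, avN, Fin.sum_univ_eq_sum_range, Fintype.card_fin]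

theorem EI_prod {σ : Type} [Fintype σ] [DecidableEq σ] (TT : Finset ℕ) (w : σ → Finset ℕ → ℝ) :
    EI TT (fun A => ∏ i, w i (A i)) = ∏ i, EM TT (w i) := by
  simp only [EI, EM]
  rw [prod_univ_sum]
  simp only [prod_mul_distrib]

theorem EI_mul {σ : Type} [Fintype σ] [DecidableEq σ] (TT : Finset ℕ) (c : ℝ)
    (G : (σ → Finset ℕ) → ℝ) : EI TT (fun A => c * G A) = c * EI TT G := by
  simp only [EI, mul_sum]
  exact sum_congr rfl fun A _ => by ring

theorem avN_cast {R : Type} [Ring R] [Fintype R] (hs : Function.Surjective (Nat.cast : ℕ → R))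
    {Y : ℕ} (hY : 0 < Y) (h0 : (Y : R) = 0) (g : R → ℝ) : avN Y (fun n => g n) = ex g := by
  have h1 : ∀ c : ℕ, ∑ n ∈ range Y, g ((n : R) + c) = ∑ n ∈ range Y, g n := by
    intro c
    induction c with
    | zero => simp
    | succ c ih =>
      rw [← ih]
      have a1 := sum_range_succ (fun n : ℕ => g ((n : R) + c)) Y
      have a2 := sum_range_succ' (fun n : ℕ => g ((n : R) + c)) Y
      have a3 : ∑ n ∈ range Y, g ((n : R) + (c + 1 : ℕ)) =
          ∑ n ∈ range Y, g (((n + 1 : ℕ) : R) + c) :=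
        sum_congr rfl fun n _ => by congr 1; push_cast; abel
      simp only [h0, Nat.cast_zero] at a1 a2
      linarith
  have h2 : ∀ c : R, ∑ n ∈ range Y, g ((n : R) + c) = ∑ n ∈ range Y, g n := by
    intro c
    obtain ⟨c, rfl⟩ := hs c
    exact h1 c
  have h3 : ∑ c : R, ∑ n ∈ range Y, g ((n : R) + c) = Y * ∑ c, g c := by
    rw [sum_comm, sum_congr rfl (g := fun _ => ∑ c, g c), sum_const, card_range, nsmul_eq_mul]
    intro n _
    exact Equiv.sum_comp (Equiv.addLeft (n : R)) g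
  simp only [h2, sum_const, card_univ, nsmul_eq_mul] at h3
  have y0 : (0 : ℝ) < Y := by exact_mod_cast hY
  have c0 : (0 : ℝ) < Fintype.card R := card_pos'
  rw [avN, ex, div_eq_div_iff y0.ne' c0.ne']
  linarith

theorem per_mod' {β : Type*} {W : ℕ → β} {q : ℕ} (h : ∀ n, W (n + q) = W n) (n : ℕ) :
    W (n % q) = W n := by
  have : ∀ k m, W (m + q * k) = W m := by
    intro k
    induction k with
    | zero => simp
    | succ k ih => intro m; rw [mul_add, mul_one, ← add_assoc, h, ih]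
  rw [← this (n / q), Nat.mod_add_div]

/-- the residues modulo the primes of TT are uniform and independent of the class modulo Q -/
theorem crt_res (TT : Finset ℕ) (hT : ∀ q ∈ TT, q.Prime) [∀ q : TT, NeZero (q : ℕ)] {Q Y : ℕ}
    (hQ : ∀ q ∈ TT, Q.Coprime q) (hY : 0 < Y) (hd : Q * pv TT ∣ Y)
    (Φ : ℕ → (∀ q : TT, ZMod q) → ℝ) (hΦ : ∀ n, Φ (n + Q) = Φ n) :
    avN Y (fun n => Φ n fun q => (n : ZMod q)) = avN Y fun n => ex (Φ n) := by
  have hP : pv TT = ∏ q : TT, (q : ℕ) := by rw [pv, prod_coe_sort TT fun q => q]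
  rw [hP] at hd
  have hne : Q * ∏ q : TT, (q : ℕ) ≠ 0 := fun h => by
    rw [h, zero_dvd_iff] at hd; omega
  have : NeZero (Q * ∏ q : TT, (q : ℕ)) := ⟨hne⟩
  have : NeZero Q := ⟨left_ne_zero_of_mul hne⟩
  have hc : Q.Coprime (∏ q : TT, (q : ℕ)) := Nat.Coprime.prod_right fun q _ => hQ q q.2
  have hp : Pairwise fun i j : TT => Nat.Coprime (i : ℕ) j := fun i j hij =>
    (Nat.coprime_primes (hT i i.2) (hT j j.2)).2 fun h => hij (Subtype.ext h)
  let e : ZMod (Q * ∏ q : TT, (q : ℕ)) ≃+* ZMod Q × ∀ q : TT, ZMod q :=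
    (ZMod.chineseRemainder hc).trans
      (RingEquiv.prodCongr (RingEquiv.refl _) (ZMod.prodEquivPi (fun q : TT => (q : ℕ)) hp))
  have hs : Function.Surjective (Nat.cast : ℕ → ZMod Q × ∀ q : TT, ZMod q) := by
    intro r
    refine ⟨(e.symm r).val, ?_⟩
    rw [← map_natCast e, ZMod.natCast_zmod_val, e.apply_symm_apply]
  have h0 : (Y : ZMod Q × ∀ q : TT, ZMod q) = 0 := by
    rw [← map_natCast e, (ZMod.natCast_eq_zero_iff _ _).2 hd, map_zero]
  have h1 := avN_cast hs hY h0 fun r => Φ r.1.val r.2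
  have h2 := avN_cast (R := ZMod Q) (ZMod.natCast_zmod_surjective) hY
    ((ZMod.natCast_eq_zero_iff _ _).2 ((dvd_mul_right _ _).trans hd)) fun r => ex (Φ r.val)
  rw [ex_prod] at h1
  simp only [Prod.fst_natCast, Prod.snd_natCast, ZMod.val_natCast, per_mod' hΦ] at h1 h2
  rw [h2, ← h1]
  rfl

/-- the pattern of a site read on the residues -/
theorem Tn_eq (TT : Finset ℕ) [∀ q : TT, NeZero (q : ℕ)] (n s : ℕ) :
    Tn TT (n + s) = (univ.filter fun q : TT => (n : ZMod q) = -(s : ZMod q)).map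
      (Function.Embedding.subtype _) := by
  ext q
  simp only [Tn, mem_filter, mem_map, mem_univ, true_and, Function.Embedding.coe_subtype]
  constructor
  · rintro ⟨h1, h2⟩
    refine ⟨⟨q, h1⟩, ?_, rfl⟩
    rw [eq_neg_iff_add_eq_zero, ← Nat.cast_add]
    exact (ZMod.natCast_eq_zero_iff _ _).2 h2
  · rintro ⟨q, h, rfl⟩
    rw [eq_neg_iff_add_eq_zero, ← Nat.cast_add] at h
    exact ⟨q.2, (ZMod.natCast_eq_zero_iff _ _).1 h⟩

theorem ex_site (TT : Finset ℕ) (hT : ∀ q ∈ TT, q.Prime) [∀ q : TT, NeZero (q : ℕ)] (s : ℕ)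
    (w : Finset ℕ → ℝ) :
    (ex fun x : ∀ q : TT, ZMod q => w ((univ.filter fun q : TT => x q = -(s : ZMod q)).map
      (Function.Embedding.subtype _))) = EM TT w := by
  have hP := Ch.Main.pv_pos hT
  have h := crt_res TT hT (Q := 1) (fun q _ => Nat.coprime_one_left q) hP (by simp)
    (fun _ x => w ((univ.filter fun q : TT => x q = -(s : ZMod q)).map
      (Function.Embedding.subtype _))) (fun _ => rfl)
  have p0 : (pv TT : ℝ) ≠ 0 := by exact_mod_cast hP.ne'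
  simp only [← Tn_eq, avN, Ch.Main.crt_eq TT hT w s, sum_const, card_range, nsmul_eq_mul] at h
  rw [mul_div_cancel_left₀ _ p0, mul_div_cancel_left₀ _ p0] at h
  exact h.symm

/-- one site: exact independence from the class modulo Q -/
theorem avN_site (TT : Finset ℕ) (hT : ∀ q ∈ TT, q.Prime) {Q Y : ℕ}
    (hQ : ∀ q ∈ TT, Q.Coprime q) (hY : 0 < Y) (hd : Q * pv TT ∣ Y) (s : ℕ)
    (w : ℕ → Finset ℕ → ℝ) (hw : ∀ n, w (n + Q) = w n) :
    avN Y (fun n => w n (Tn TT (n + s))) = avN Y fun n => EM TT (w n) := by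
  have : ∀ q : TT, NeZero (q : ℕ) := fun q => ⟨(hT q q.2).ne_zero⟩
  have h := crt_res TT hT hQ hY hd
    (fun n x => w n ((univ.filter fun q : TT => x q = -(s : ZMod q)).map
      (Function.Embedding.subtype _))) (fun n => by simp only [hw])
  simpa only [← Tn_eq, ex_site TT hT] using h

theorem ex_sites {σ : Type} [Fintype σ] [DecidableEq σ] (TT : Finset ℕ) (hT : ∀ q ∈ TT, q.Prime)
    [∀ q : TT, NeZero (q : ℕ)] (b : σ → ℕ) (G : (σ → Finset ℕ) → ℝ) :
    (ex fun y : σ → ∀ q : TT, ZMod q => G fun i =>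
      (univ.filter fun q : TT => y i q = -(b i : ZMod q)).map (Function.Embedding.subtype _)) =
      EI TT G := by
  have h1 : ∀ B : σ → Finset ℕ, (∀ i, B i ⊆ TT) →
      G B = ∑ A ∈ Fintype.piFinset fun _ : σ => TT.powerset,
        (∏ i, if B i = A i then (1 : ℝ) else 0) * G A := by
    intro B hB
    rw [sum_eq_single B]
    · simp
    · intro A _ hA
      obtain ⟨i, hi⟩ := Function.ne_iff.1 hA
      rw [prod_eq_zero (mem_univ i) (if_neg hi.symm), zero_mul]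
    · intro h
      exact absurd (Fintype.mem_piFinset.2 fun i => mem_powerset.2 (hB i)) h
  rw [ex_congr fun y => h1 _ fun i q hq => by
    obtain ⟨q, _, rfl⟩ := mem_map.1 hq; exact q.2, ex_sum, EI]
  refine sum_congr rfl fun A hA => ?_
  rw [ex_mul', ex_pi_prod fun i (x : ∀ q : TT, ZMod q) =>
    if (univ.filter fun q : TT => x q = -(b i : ZMod q)).map (Function.Embedding.subtype _) = A i
      then (1 : ℝ) else 0]
  congr 1
  refine prod_congr rfl fun i _ => ?_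
  rw [ex_site TT hT (b i) fun T => if T = A i then (1 : ℝ) else 0, EM]
  simp [Fintype.mem_piFinset.1 hA i]

theorem card_dvd_le (TT : Finset ℕ) (hT : ∀ q ∈ TT, q.Prime) {D : ℕ} (hD : 0 < D) {N : ℝ}
    (hN : (D : ℝ) ≤ N) : ((TT.filter fun q => q ∣ D).card : ℝ) ≤ 2 * Real.log N := by
  have h1 : ∏ q ∈ TT.filter (fun q => q ∣ D), q ∣ D :=
    prod_primes_dvd D (fun q hq => (hT q (mem_filter.1 hq).1).prime) fun q hq => (mem_filter.1 hq).2
  have h2 : 2 ^ (TT.filter fun q => q ∣ D).card ≤ D :=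
    (pow_card_le_prod _ _ _ fun q hq => (hT q (mem_filter.1 hq).1).two_le).trans
      (Nat.le_of_dvd hD h1)
  have h3 : (2 : ℝ) ^ (TT.filter fun q => q ∣ D).card ≤ N := le_trans (by exact_mod_cast h2) hN
  have h4 := Real.log_le_log (by positivity) h3
  rw [Real.log_pow] at h4
  have := Real.log_two_gt_d9
  have h5 : (0 : ℝ) ≤ (TT.filter fun q => q ∣ D).card := Nat.cast_nonneg _
  nlinarith

theorem sum_inv_sq_le (TT : Finset ℕ) {M : ℝ} (hM0 : 0 < M) (hM : ∀ q ∈ TT, M ≤ q) :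
    ∑ q ∈ TT, ((q : ℝ) ^ 2)⁻¹ ≤ 2 / M := by
  have c1 : 1 ≤ ⌈M⌉₊ := Nat.ceil_pos.2 hM0
  have hs : TT ⊆ Ioo (⌈M⌉₊ - 1) (TT.sup id + 1) := by
    intro q hq
    have h1 : ⌈M⌉₊ ≤ q := Nat.ceil_le.2 (hM q hq)
    have h2 : q ≤ TT.sup id := le_sup (f := id) hq
    rw [mem_Ioo]; omega
  refine (sum_le_sum_of_subset_of_nonneg hs fun _ _ _ => by positivity).trans
    ((sum_Ioo_inv_sq_le _ _).trans ?_)
  refine div_le_div_of_nonneg_left (by norm_num) hM0 ?_
  rw [Nat.cast_sub c1]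
  have := Nat.le_ceil M
  push_cast; linarith

theorem tau_le {σ : Type} [Fintype σ] [DecidableEq σ] (TT : Finset ℕ) (hT : ∀ q ∈ TT, q.Prime)
    [∀ q : TT, NeZero (q : ℕ)] {M N : ℝ} (hM0 : 0 < M) (hM : ∀ q ∈ TT, M ≤ q) (b : σ → ℕ)
    (hb : Function.Injective b) (hN1 : 1 ≤ N) (hN : ∀ i j, (b i : ℝ) ≤ b j + N) :
    ∃ τ : TT → ℝ, (∀ q : TT, (Function.Injective (fun i => -(b i : ZMod q)) ∧
        ((Fintype.card σ : ℝ) / Fintype.card (ZMod q)) ^ 2 ≤ τ q) ∨
      (Fintype.card σ : ℝ) / Fintype.card (ZMod q) ≤ τ q) ∧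
      ∑ q, τ q ≤ tauI (Fintype.card σ) N M := by
  set n : ℝ := (Fintype.card σ : ℝ) with hn
  have n0 : 0 ≤ n := Nat.cast_nonneg _
  have l0 : 0 ≤ Real.log N := Real.log_nonneg hN1
  let c : ℕ → σ × σ → ℝ := fun q p => if b p.2 < b p.1 ∧ q ∣ b p.1 - b p.2 then 1 else 0
  have c0 : ∀ q p, 0 ≤ c q p := fun q p => by simp only [c]; split_ifs <;> norm_num
  refine ⟨fun q => n ^ 2 * (((q : ℕ) : ℝ) ^ 2)⁻¹ + n / M * ∑ p, c q p, fun q => ?_, ?_⟩
  · rw [ZMod.card]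
    have s0 : 0 ≤ ∑ p, c q p := sum_nonneg fun p _ => c0 _ _
    by_cases hi : Function.Injective fun i => -(b i : ZMod q)
    · refine Or.inl ⟨hi, ?_⟩
      rw [div_pow, div_eq_mul_inv]
      have : 0 ≤ n / M * ∑ p, c q p := by positivity
      linarith
    · right
      have h1 : ∃ p, c q p = 1 := by
        obtain ⟨i, j, h, hij⟩ := Function.not_injective_iff.1 hi
        have h' : b i ≡ b j [MOD q] := (ZMod.natCast_eq_natCast_iff _ _ _).1 (neg_injective h)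
        rcases lt_or_gt_of_ne (fun e => hij (hb e)) with l | l
        · exact ⟨(j, i), if_pos ⟨l, (Nat.modEq_iff_dvd' l.le).1 h'⟩⟩
        · exact ⟨(i, j), if_pos ⟨l, (Nat.modEq_iff_dvd' l.le).1 h'.symm⟩⟩
      obtain ⟨p, hp⟩ := h1
      have h2 : 1 ≤ ∑ p, c q p := hp ▸ single_le_sum (fun p _ => c0 q p) (mem_univ p)
      have h3 : n / ((q : ℕ) : ℝ) ≤ n / M := div_le_div_of_nonneg_left n0 hM0 (hM q q.2)
      have h4 : n / M * 1 ≤ n / M * ∑ p, c q p := mul_le_mul_of_nonneg_left h2 (by positivity)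
      have : 0 ≤ n ^ 2 * (((q : ℕ) : ℝ) ^ 2)⁻¹ := by positivity
      linarith
  · rw [sum_add_distrib, ← mul_sum, ← mul_sum, sum_comm,
      sum_coe_sort TT fun q => (((q : ℕ) : ℝ) ^ 2)⁻¹]
    have h1 := sum_inv_sq_le TT hM0 hM
    have h2 : ∀ p : σ × σ, ∑ q : TT, c q p ≤ 2 * Real.log N := by
      intro p
      rw [sum_coe_sort TT fun q => c q p]
      by_cases l : b p.2 < b p.1
      · have := card_dvd_le TT hT (D := b p.1 - b p.2) (by omega) (N := N)
          (by rw [Nat.cast_sub l.le]; have := hN p.1 p.2; linarith)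
        simpa [c, l] using this
      · simp only [c, l, false_and, if_false, sum_const_zero]; positivity
    have h3 : ∑ p : σ × σ, ∑ q : TT, c q p ≤ n ^ 2 * (2 * Real.log N) := by
      have := sum_le_card_nsmul univ _ _ fun p _ => h2 p
      rwa [card_univ, Fintype.card_prod, nsmul_eq_mul, Nat.cast_mul, ← hn, ← sq] at this
    have h4 : n ^ 2 ≤ n ^ 3 := by
      rw [hn]
      rcases Nat.eq_zero_or_pos (Fintype.card σ) with h | h
      · simp [h]
      · exact_mod_cast Nat.pow_le_pow_right h (by norm_num : 2 ≤ 3)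
    calc _ ≤ n ^ 3 * (2 / M) + n / M * (n ^ 2 * (2 * Real.log N)) :=
          add_le_add (mul_le_mul h4 h1 (sum_nonneg fun _ _ => by positivity) (by positivity))
            (mul_le_mul_of_nonneg_left h3 (by positivity))
      _ = _ := by rw [tauI, ← hn]; field_simp

theorem tauI_nonneg (n : ℕ) {N M : ℝ} (hN : 1 ≤ N) (hM : 0 < M) : 0 ≤ tauI n N M := by
  have := Real.log_nonneg hN
  unfold tauI; positivity

theorem tauI_mono {n m : ℕ} (h : n ≤ m) {N M : ℝ} (hN : 1 ≤ N) (hM : 0 < M) :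
    tauI n N M ≤ tauI m N M := by
  have := Real.log_nonneg hN
  have : (n : ℝ) ≤ m := by exact_mod_cast h
  unfold tauI; gcongr

/-- IND, total variation form.  G may depend on the class of n modulo Q. -/
theorem ind_nat {σ : Type} [Fintype σ] [DecidableEq σ] (TT : Finset ℕ) (hT : ∀ q ∈ TT, q.Prime)
    {M N : ℝ} (hM0 : 0 < M) (hM : ∀ q ∈ TT, M ≤ q) (b : σ → ℕ)
    (hb : Function.Injective b) (hN1 : 1 ≤ N) (hN : ∀ i j, (b i : ℝ) ≤ b j + N) {Q Y : ℕ}
    (hQ : ∀ q ∈ TT, Q.Coprime q) (hY : 0 < Y) (hd : Q * pv TT ∣ Y)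
    (G : ℕ → (σ → Finset ℕ) → ℝ) (hG : ∀ n, G (n + Q) = G n) (a K : ℕ → ℝ)
    (h0 : ∀ n A, (∀ i, A i ⊆ TT) → a n ≤ G n A)
    (hK : ∀ n A, (∀ i, A i ⊆ TT) → G n A ≤ a n + K n) :
    |avN Y (fun n => G n fun i => Tn TT (n + b i)) - avN Y (fun n => EI TT (G n))| ≤
      avN Y K * tauI (Fintype.card σ) N M := by
  have : ∀ q : TT, NeZero (q : ℕ) := fun q => ⟨(hT q q.2).ne_zero⟩
  obtain ⟨τ, h1, h2⟩ := tau_le TT hT hM0 hM b hb hN1 hN
  have hsub : ∀ (A : σ → Finset TT) (i : σ), (A i).map (Function.Embedding.subtype _) ⊆ TT := by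
    intro A i q hq
    obtain ⟨q, _, rfl⟩ := mem_map.1 hq
    exact q.2
  have h := crt_res TT hT hQ hY hd
    (fun n x => G n fun i => (univ.filter fun q : TT => x q = -(b i : ZMod q)).map
      (Function.Embedding.subtype _)) (fun n => by simp only [hG])
  simp only [← Tn_eq] at h
  rw [h, ← ex_avN, ← ex_avN, ← ex_avN, ← ex_sub, ← ex_mul']
  refine (abs_ex_le _).trans (ex_mono fun n => ?_)
  rw [← ex_sites TT hT b]
  have K0 : 0 ≤ K n := by
    have a1 := h0 n (fun _ => ∅) fun _ => empty_subset _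
    have a2 := hK n (fun _ => ∅) fun _ => empty_subset _
    linarith
  exact (ind_tv (fun i (q : TT) => -(b i : ZMod q))
    (fun A => G n fun i => (A i).map (Function.Embedding.subtype _)) τ
    (fun A => h0 n _ (hsub A)) (fun A => hK n _ (hsub A)) h1).trans
    (mul_le_mul_of_nonneg_left h2 K0)

/-- IND for products of nonnegative factors, with a factor u that is periodic modulo Q -/
theorem ind_nat_prod {σ : Type} [Fintype σ] [DecidableEq σ] (TT : Finset ℕ)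
    (hT : ∀ q ∈ TT, q.Prime) {M N : ℝ} (hM0 : 0 < M) (hM : ∀ q ∈ TT, M ≤ q) (b : σ → ℕ)
    (hb : Function.Injective b) (hN1 : 1 ≤ N) (hN : ∀ i j, (b i : ℝ) ≤ b j + N) {Q Y : ℕ}
    (hQ : ∀ q ∈ TT, Q.Coprime q) (hY : 0 < Y) (hd : Q * pv TT ∣ Y)
    (u : ℕ → ℝ) (hu : ∀ n, u (n + Q) = u n) (w : σ → Finset ℕ → ℝ) (Om : σ → ℝ)
    (h0 : ∀ i, ∀ A ⊆ TT, 0 ≤ w i A) (hK : ∀ i, ∀ A ⊆ TT, w i A ≤ Om i) :
    |avN Y (fun n => u n * ∏ i, w i (Tn TT (n + b i))) - avN Y u * ∏ i, EM TT (w i)| ≤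
      avN Y (fun n => |u n|) * (∏ i, Om i) * tauI (Fintype.card σ) N M := by
  have p0 : ∀ A : σ → Finset ℕ, (∀ i, A i ⊆ TT) → 0 ≤ ∏ i, w i (A i) :=
    fun A hA => prod_nonneg fun i _ => h0 i _ (hA i)
  have p1 : ∀ A : σ → Finset ℕ, (∀ i, A i ⊆ TT) → ∏ i, w i (A i) ≤ ∏ i, Om i :=
    fun A hA => prod_le_prod (fun i _ => h0 i _ (hA i)) fun i _ => hK i _ (hA i)
  have h := ind_nat TT hT hM0 hM b hb hN1 hN hQ hY hd (fun n A => u n * ∏ i, w i (A i))
    (fun n => by simp only [hu]) (fun n => min (u n) 0 * ∏ i, Om i) (fun n => |u n| * ∏ i, Om i)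
    (fun n A hA => by
      have a1 := p0 A hA
      have a2 := p1 A hA
      rcases le_total (u n) 0 with l | l
      · rw [min_eq_left l]; nlinarith
      · rw [min_eq_right l]; nlinarith)
    (fun n A hA => by
      have a1 := p0 A hA
      have a2 := p1 A hA
      rcases le_total (u n) 0 with l | l
      · rw [min_eq_left l, abs_of_nonpos l]; nlinarith
      · rw [min_eq_right l, abs_of_nonneg l]; nlinarith)
  simp only [EI_mul, EI_prod] at h
  rw [← ex_avN Y fun n => u n * ∏ i, EM TT (w i), ex_mul', ex_avN Y u,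
    ← ex_avN Y fun n => |u n| * ∏ i, Om i, ex_mul', ex_avN Y fun n => |u n|] at h
  exact h

/-- IND for products of signed factors that may depend on the class of n modulo Q -/
theorem ind_nat_abs {σ : Type} [Fintype σ] [DecidableEq σ] (TT : Finset ℕ)
    (hT : ∀ q ∈ TT, q.Prime) {M N : ℝ} (hM0 : 0 < M) (hM : ∀ q ∈ TT, M ≤ q) (b : σ → ℕ)
    (hb : Function.Injective b) (hN1 : 1 ≤ N) (hN : ∀ i j, (b i : ℝ) ≤ b j + N) {Q Y : ℕ}
    (hQ : ∀ q ∈ TT, Q.Coprime q) (hY : 0 < Y) (hd : Q * pv TT ∣ Y)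
    (w : ℕ → σ → Finset ℕ → ℝ) (hw : ∀ n, w (n + Q) = w n) (Om : ℕ → σ → ℝ)
    (hK : ∀ n i, ∀ A ⊆ TT, |w n i A| ≤ Om n i) :
    |avN Y (fun n => ∏ i, w n i (Tn TT (n + b i))) - avN Y (fun n => ∏ i, EM TT (w n i))| ≤
      avN Y (fun n => 2 * ∏ i, Om n i) * tauI (Fintype.card σ) N M := by
  have p : ∀ n (A : σ → Finset ℕ), (∀ i, A i ⊆ TT) → |∏ i, w n i (A i)| ≤ ∏ i, Om n i :=
    fun n A hA => by
      rw [abs_prod]; exact prod_le_prod (fun i _ => abs_nonneg _) fun i _ => hK n i _ (hA i)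
  have h := ind_nat TT hT hM0 hM b hb hN1 hN hQ hY hd (fun n A => ∏ i, w n i (A i))
    (fun n => by simp only [hw]) (fun n => -∏ i, Om n i) (fun n => 2 * ∏ i, Om n i)
    (fun n A hA => (abs_le.1 (p n A hA)).1)
    (fun n A hA => by have := (abs_le.1 (p n A hA)).2; linarith)
  simpa only [EI_prod] using h

/-- IND as in the paper -/
theorem ind_plain {σ : Type} [Fintype σ] [DecidableEq σ] (TT : Finset ℕ)
    (hT : ∀ q ∈ TT, q.Prime) {M N : ℝ} (hM0 : 0 < M) (hM : ∀ q ∈ TT, M ≤ q) (b : σ → ℕ)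
    (hb : Function.Injective b) (hN1 : 1 ≤ N) (hN : ∀ i j, (b i : ℝ) ≤ b j + N) {Y : ℕ}
    (hY : 0 < Y) (hd : pv TT ∣ Y) (w : σ → Finset ℕ → ℝ) (Om : σ → ℝ)
    (h0 : ∀ i, ∀ A ⊆ TT, 0 ≤ w i A) (hK : ∀ i, ∀ A ⊆ TT, w i A ≤ Om i) :
    |avN Y (fun n => ∏ i, w i (Tn TT (n + b i))) - ∏ i, EM TT (w i)| ≤
      (∏ i, Om i) * tauI (Fintype.card σ) N M := by
  have h := ind_nat_prod TT hT hM0 hM b hb hN1 hN (Q := 1) (fun q _ => Nat.coprime_one_left q) hY
    (by simpa using hd) (fun _ => 1) (fun _ => rfl) w Om h0 hK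
  have y0 : (Y : ℝ) ≠ 0 := by exact_mod_cast hY.ne'
  have e : avN Y (fun _ => 1) = 1 := by simp [avN, y0]
  simpa only [one_mul, abs_one, e] using h

/-- IND for a finite set of sites -/
theorem ind_sites (TT : Finset ℕ) (hT : ∀ q ∈ TT, q.Prime) {M N : ℝ} (hM0 : 0 < M)
    (hM : ∀ q ∈ TT, M ≤ q) (S : Finset ℕ) (hN1 : 1 ≤ N) (hN : ∀ b ∈ S, (b : ℝ) ≤ N) {Q Y : ℕ}
    (hQ : ∀ q ∈ TT, Q.Coprime q) (hY : 0 < Y) (hd : Q * pv TT ∣ Y)
    (u : ℕ → ℝ) (hu : ∀ n, u (n + Q) = u n) (w : ℕ → Finset ℕ → ℝ) (Om : ℝ)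
    (h0 : ∀ b ∈ S, ∀ A ⊆ TT, 0 ≤ w b A) (hK : ∀ b ∈ S, ∀ A ⊆ TT, w b A ≤ Om) :
    |avN Y (fun n => u n * ∏ b ∈ S, w b (Tn TT (n + b))) - avN Y u * ∏ b ∈ S, EM TT (w b)| ≤
      avN Y (fun n => |u n|) * Om ^ S.card * tauI S.card N M := by
  have h := ind_nat_prod (σ := S) TT hT hM0 hM (fun b => (b : ℕ)) Subtype.val_injective hN1
    (fun i j => by
      have := hN i i.2
      have : (0 : ℝ) ≤ (j : ℕ) := Nat.cast_nonneg _
      linarith) hQ hY hd u hu (fun b => w b) (fun _ => Om) (fun i => h0 i i.2) (fun i => hK i i.2)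
  simp only [prod_coe_sort S fun b => EM TT (w b), prod_const, card_univ, Fintype.card_coe] at h
  simpa only [← prod_coe_sort S fun b => w b (Tn TT (_ + b))] using h

end Pool.Agent.P.MP_a14ce1_nt.Fu
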