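import Pool.Agent.P.MP_a14ce1_nt.Fu.St
import Pool.Agent.P.MP_a14ce1_nt.Fu.Em
import Pool.Agent.P.MP_a14ce1_nt.Fu.IndN
import Pool.Agent.P.MP_a14ce1_nt.Fu.CrtF

/-!
Basic facts on the model.
-/

open Finset

namespace Pool.Agent.P.MP_a14ce1_nt.Fu.St

open Ch (pv mu rs lam)
open Ch.Main (Tn)

theorem EG_eq (G : Finset ℕ) (Φ : Finset ℕ → ℝ) : EG G Φ = Em G Φ := rfl

theorem EM_eq (G : Finset ℕ) (Φ : Finset ℕ → ℝ) : EM G Φ = Em G Φ := rfl

theorem dp_eq (P : Finset ℕ) (n : ℕ) : dp P n = Tn P n := rfl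

theorem dp_sub (P : Finset ℕ) (n : ℕ) : dp P n ⊆ P := filter_subset _ _

theorem mem_dp {P : Finset ℕ} {n q : ℕ} : q ∈ dp P n ↔ q ∈ P ∧ q ∣ n := mem_filter

theorem dp_inter {P Q : Finset ℕ} (h : Q ⊆ P) (n : ℕ) : dp P n ∩ Q = dp Q n := by
  ext q
  simp only [mem_inter, mem_dp]
  exact ⟨fun a => ⟨a.2, a.1.2⟩, fun a => ⟨⟨h a.1, a.2⟩, a.1⟩⟩

theorem pv_union {P Q : Finset ℕ} (h : Disjoint P Q) : pv (P ∪ Q) = pv P * pv Q := prod_union h

theorem pv_dvd {P Q : Finset ℕ} (h : P ⊆ Q) : pv P ∣ pv Q := prod_dvd_prod_of_subset _ _ _ h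

theorem dvd_pv {P : Finset ℕ} {q : ℕ} (h : q ∈ P) : q ∣ pv P := dvd_prod_of_mem (fun q => q) h

theorem pv_cop {P Q : Finset ℕ} (hP : ∀ q ∈ P, q.Prime) (hQ : ∀ q ∈ Q, q.Prime)
    (h : Disjoint P Q) : (pv P).Coprime (pv Q) :=
  Nat.Coprime.prod_left fun p hp => Nat.Coprime.prod_right fun q hq =>
    (Nat.coprime_primes (hP p hp) (hQ q hq)).2 fun e => disjoint_left.1 h hp (e ▸ hq)

theorem pv_cop_prime {P : Finset ℕ} (hP : ∀ q ∈ P, q.Prime) {p : ℕ} (hp : p.Prime) (h : p ∉ P) :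
    (pv P).Coprime p := Nat.Coprime.prod_left fun q hq =>
  (Nat.coprime_primes (hP q hq) hp).2 fun e => h (e ▸ hq)

theorem pv_dvd_iff {c : Finset ℕ} (hc : ∀ q ∈ c, q.Prime) {n : ℕ} :
    pv c ∣ n ↔ ∀ q ∈ c, q ∣ n :=
  ⟨fun h _ hq => (dvd_pv hq).trans h, fun h => prod_primes_dvd n (fun q hq => (hc q hq).prime) h⟩

theorem per_dp {Q : ℕ} {T : Finset ℕ} (h : pv T ∣ Q) (b : ℕ) : Per Q fun x => dp T (x + b) :=
  per_filter (fun _ hq => (dvd_pv hq).trans h) b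

/-- multiples of the primes outside T are not seen -/
theorem dp_mul {T : Finset ℕ} (hT : ∀ q ∈ T, q.Prime) {c : ℕ} (hc : ∀ q ∈ T, ¬ q ∣ c) (m : ℕ) :
    dp T (c * m) = dp T m := filter_congr fun q hq =>
  ⟨fun h => ((hT q hq).dvd_mul.1 h).resolve_left (hc q hq), fun h => h.mul_left c⟩

theorem ex_dp {T : Finset ℕ} (hT : ∀ q ∈ T, q.Prime) {Z : ℕ} (hZ : 0 < Z) (h : pv T ∣ Z) (b : ℕ)
    (φ : Finset ℕ → ℝ) : ex (fun n : Fin Z => φ (dp T (n + b))) = EG T φ := ex_fin_Em hT h hZ b φ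

theorem ex_ind_dvd {c Z : ℕ} (hZ : 0 < Z) (h : c ∣ Z) (b : ℕ) :
    ex (fun n : Fin Z => ind (c ∣ n + b)) = 1 / c := by
  have c0 := Nat.pos_of_dvd_of_pos h hZ
  have h2 : Per c fun m => ind (c ∣ m) := fun x y h => ind_congr (h.dvd_iff dvd_rfl)
  rw [ex_per_shift hZ h h2 b, ex_per_eq hZ c0 h dvd_rfl h2, ex, Fintype.card_fin,
    sum_eq_single (⟨0, c0⟩ : Fin c), ind_pos (dvd_zero c)]
  · exact fun b _ hb => ind_neg fun h => hb (Fin.ext (Nat.eq_zero_of_dvd_of_lt h b.2))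
  · exact fun h => absurd (mem_univ _) h

theorem nrm_congr {P : Finset ℕ} {w w' : Finset ℕ → ℝ} (h : Nrm P w) (h0 : ∀ c, 0 ≤ w' c)
    (e : ∀ c ⊆ P, w' c = w c) : Nrm P w' :=
  ⟨h0, (sum_congr rfl fun c hc => by rw [e c (mem_powerset.1 hc)]).trans h.2⟩

theorem inter_inter {c P Q : Finset ℕ} (h : Q ⊆ P) : c ∩ P ∩ Q = c ∩ Q := by
  rw [inter_assoc, inter_eq_right.2 h]

namespace Fam

variable (F : Fam)

theorem G_sub (t : ℕ) : F.G t ⊆ F.cl t := subset_union_left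

theorem R_sub (t : ℕ) : F.R t ⊆ F.cl t := subset_union_right

theorem cl_sub {a b t : ℕ} (h1 : a ≤ t) (h2 : t < b) : F.cl t ⊆ F.Lv a b :=
  subset_biUnion_of_mem F.cl (mem_Ico.2 ⟨h1, h2⟩)

theorem Lv_mono {a b a' b' : ℕ} (h1 : a' ≤ a) (h2 : b ≤ b') : F.Lv a b ⊆ F.Lv a' b' :=
  biUnion_subset_biUnion_of_subset_left _ (Ico_subset_Ico h1 h2)

theorem Lv_sub {a b : ℕ} (h : b ≤ F.m + 1) : F.Lv a b ⊆ F.Lo := F.Lv_mono (Nat.zero_le a) h

theorem Lv_self (a : ℕ) : F.Lv a a = ∅ := by simp [Lv]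

theorem Lv_succ {a b : ℕ} (h : a ≤ b) : F.Lv a (b + 1) = F.Lv a b ∪ F.cl b := by
  rw [Lv, Lv, Nat.Ico_succ_right_eq_insert_Ico h, biUnion_insert, union_comm]

theorem Lv_split {a b c : ℕ} (h1 : a ≤ b) (h2 : b ≤ c) : F.Lv a c = F.Lv a b ∪ F.Lv b c := by
  rw [Lv, Lv, Lv, ← Ico_union_Ico_eq_Ico h1 h2, union_biUnion]

theorem Lo_sub : F.Lo ⊆ F.all := subset_union_left

theorem TT_sub : F.TT ⊆ F.all := subset_union_right

theorem U_sub : F.U ⊆ F.TT := subset_union_left.trans subset_union_left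

theorem RR_sub : F.RR ⊆ F.TT := subset_union_right.trans subset_union_left

theorem HH_sub : F.HH ⊆ F.TT := subset_union_right

theorem RH_sub : F.RR ∪ F.HH ⊆ F.TT := union_subset F.RR_sub F.HH_sub

theorem wG_inter {t : ℕ} {P : Finset ℕ} (h : F.G t ⊆ P) (c : Finset ℕ) :
    F.wG t (c ∩ P) = F.wG t c := by rw [wG, wG, inter_inter h]

theorem wR_inter {t : ℕ} {P : Finset ℕ} (h : F.R t ⊆ P) (c : Finset ℕ) :
    F.wR t (c ∩ P) = F.wR t c := by rw [wR, wR, inter_inter h]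

theorem wl_inter {t : ℕ} {P : Finset ℕ} (h : F.cl t ⊆ P) (c : Finset ℕ) :
    F.wl t (c ∩ P) = F.wl t c := by
  rw [wl, wl, F.wG_inter ((F.G_sub t).trans h), F.wR_inter ((F.R_sub t).trans h)]

theorem wh_inter {a b : ℕ} {P : Finset ℕ} (h : F.Lv a b ⊆ P) (c : Finset ℕ) :
    F.wh a b (c ∩ P) = F.wh a b c := prod_congr rfl fun _ ht =>
  F.wl_inter ((F.cl_sub (mem_Ico.1 ht).1 (mem_Ico.1 ht).2).trans h) c

theorem VG_inter {t : ℕ} {P : Finset ℕ} (h : F.G t ⊆ P) (c : Finset ℕ) :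
    F.VG t (c ∩ P) = F.VG t c := by rw [VG, VG, inter_inter h]

theorem VR_inter {t : ℕ} {P : Finset ℕ} (h : F.R t ⊆ P) (c : Finset ℕ) :
    F.VR t (c ∩ P) = F.VR t c := by rw [VR, VR, inter_inter h]

theorem Vl_inter {t : ℕ} {P : Finset ℕ} (h : F.cl t ⊆ P) (c : Finset ℕ) :
    F.Vl t (c ∩ P) = F.Vl t c := by
  rw [Vl, Vl, F.VG_inter ((F.G_sub t).trans h), F.VR_inter ((F.R_sub t).trans h)]

theorem V_inter {a b : ℕ} {P : Finset ℕ} (h : F.Lv a b ⊆ P) (c : Finset ℕ) :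
    F.V a b (c ∩ P) = F.V a b c := prod_congr rfl fun _ ht =>
  F.Vl_inter ((F.cl_sub (mem_Ico.1 ht).1 (mem_Ico.1 ht).2).trans h) c

theorem wh_succ {a b : ℕ} (h : a ≤ b) (c : Finset ℕ) :
    F.wh a (b + 1) c = F.wh a b c * F.wl b c := prod_Ico_succ_top h _

theorem V_succ {a b : ℕ} (h : a ≤ b) (c : Finset ℕ) :
    F.V a (b + 1) c = F.V a b c * F.Vl b c := prod_Ico_succ_top h _

theorem wh_split {a b c : ℕ} (h1 : a ≤ b) (h2 : b ≤ c) (e : Finset ℕ) :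
    F.wh a c e = F.wh a b e * F.wh b c e := (prod_Ico_consecutive _ h1 h2).symm

theorem V_split {a b c : ℕ} (h1 : a ≤ b) (h2 : b ≤ c) (e : Finset ℕ) :
    F.V a c e = F.V a b e * F.V b c e := (prod_Ico_consecutive _ h1 h2).symm

theorem ZR_nonneg (t : ℕ) : 0 ≤ F.ZR t := sum_nonneg fun _ _ => by positivity

theorem wR_nonneg (t : ℕ) (c : Finset ℕ) : 0 ≤ F.wR t c :=
  div_nonneg (by split_ifs <;> norm_num) (F.ZR_nonneg t)

theorem VR_nonneg (t : ℕ) (c : Finset ℕ) : 0 ≤ F.VR t c :=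
  div_nonneg (Nat.cast_nonneg _) (F.ZR_nonneg t)

theorem Vt_wG {t : ℕ} {A : Finset ℕ} (hA : A ⊆ F.G t) : Vt (F.wG t) A = F.VG t A := by
  rw [Vt, VG, inter_eq_left.2 hA, ← prod_const, prod_add_one, sum_div]
  refine sum_congr rfl fun c hc => ?_
  rw [wG, inter_eq_left.2 ((mem_powerset.1 hc).trans hA), prod_const]

theorem Vt_wR {t : ℕ} {A : Finset ℕ} (hA : A ⊆ F.R t) : Vt (F.wR t) A = F.VR t A := by
  rw [Vt, VR, inter_eq_left.2 hA, ← card_powersetCard, powersetCard_eq_filter, ← sum_boole,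
    sum_div]
  refine sum_congr rfl fun c hc => ?_
  rw [wR, inter_eq_left.2 ((mem_powerset.1 hc).trans hA)]

theorem ka_erase (p : ℕ) (T : Finset ℕ) : F.ka p (T.erase p) = F.ka p T := by
  have e : T.erase p ⊆ {p} ↔ T ⊆ {p} := ⟨fun h q hq => by
    by_contra hc
    exact hc (h (mem_erase.2 ⟨fun e => hc (mem_singleton.2 e), hq⟩)),
    fun h => (erase_subset p T).trans h⟩
  simp only [ka, e]

theorem ka_ne {p q : ℕ} {T : Finset ℕ} (h : F.ka p T ≠ 0) (hq : q ∈ T) : q = p := by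
  by_contra hc
  exact h (if_neg fun e => hc (mem_singleton.1 (e hq)))

end Fam

theorem one_sub_le_prod (T : Finset ℕ) : 1 - rs T ≤ ∏ q ∈ T, (1 - (1 : ℝ) / q) := by
  induction T using Finset.induction_on with
  | empty => simp [rs]
  | insert p T hp ih =>
    have h0 : 0 ≤ rs T := sum_nonneg fun _ _ => by positivity
    have h1 : (0 : ℝ) ≤ 1 / p := by positivity
    have h2 : (1 : ℝ) / p ≤ 1 := by
      rcases Nat.eq_zero_or_pos p with rfl | h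
      · simp
      · exact (div_le_one (by exact_mod_cast h)).2 (by exact_mod_cast h)
    have e : rs (insert p T) = 1 / p + rs T := sum_insert hp
    rw [prod_insert hp, e]
    nlinarith

namespace Hyp0

variable {F : Fam} {P : Par} (h : Hyp0 F P)
include h

theorem prLo : ∀ q ∈ F.Lo, q.Prime := fun q hq => h.pr q (F.Lo_sub hq)

theorem prT : ∀ q ∈ F.TT, q.Prime := fun q hq => h.pr q (F.TT_sub hq)

theorem prU : ∀ q ∈ F.U, q.Prime := fun q hq => h.prT q (F.U_sub hq)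

theorem prR : ∀ q ∈ F.RR, q.Prime := fun q hq => h.prT q (F.RR_sub hq)

theorem prH : ∀ q ∈ F.HH, q.Prime := fun q hq => h.prT q (F.HH_sub hq)

theorem prRH : ∀ q ∈ F.RR ∪ F.HH, q.Prime := fun q hq => h.prT q (F.RH_sub hq)

theorem ZG_one (t : ℕ) : 1 ≤ F.ZG t := by
  have := h.B1 t
  rw [← prod_const_one (s := F.G t)]
  exact prod_le_prod (fun _ _ => zero_le_one) fun q _ => le_add_of_nonneg_right (by positivity)

theorem ZG_pos (t : ℕ) : 0 < F.ZG t := one_pos.trans_le (h.ZG_one t)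

theorem ZR_pos {t : ℕ} (ht : t ≤ F.m) : 0 < F.ZR t := by
  refine sum_pos (fun Q hQ => ?_) (powersetCard_nonempty.2 (h.rR t ht))
  have : 0 < pv Q := Ch.Main.pv_pos fun q hq => h.prLo q (F.cl_sub (Nat.zero_le t)
    (Nat.lt_succ_of_le ht) (F.R_sub t ((mem_powersetCard.1 hQ).1 hq)))
  positivity

theorem wG_pos (t : ℕ) (c : Finset ℕ) : 0 < F.wG t c :=
  div_pos (pow_pos (one_pos.trans_le (h.B1 t)) _) (h.ZG_pos t)

theorem VG_pos (t : ℕ) (c : Finset ℕ) : 0 < F.VG t c :=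
  div_pos (pow_pos (by linarith [h.B1 t]) _) (h.ZG_pos t)

theorem wl_nonneg (t : ℕ) (c : Finset ℕ) : 0 ≤ F.wl t c :=
  mul_nonneg (h.wG_pos t c).le (F.wR_nonneg t c)

theorem Vl_nonneg (t : ℕ) (c : Finset ℕ) : 0 ≤ F.Vl t c :=
  mul_nonneg (h.VG_pos t c).le (F.VR_nonneg t c)

theorem wh_nonneg (a b : ℕ) (c : Finset ℕ) : 0 ≤ F.wh a b c :=
  prod_nonneg fun t _ => h.wl_nonneg t c

theorem V_nonneg (a b : ℕ) (c : Finset ℕ) : 0 ≤ F.V a b c :=
  prod_nonneg fun t _ => h.Vl_nonneg t c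

theorem w_nonneg (c : Finset ℕ) : 0 ≤ F.w c := h.wh_nonneg _ _ c

theorem dLv {a b c d : ℕ} (h1 : b ≤ c) (h2 : d ≤ F.m + 1) : Disjoint (F.Lv a b) (F.Lv c d) := by
  rw [Fam.Lv, Fam.Lv, disjoint_biUnion_left]
  intro s hs
  rw [disjoint_biUnion_right]
  intro t ht
  rw [mem_Ico] at hs ht
  exact h.dcl (by omega) (by omega) (by omega)

theorem dLv_cl {a b : ℕ} (h2 : b ≤ F.m) : Disjoint (F.Lv a b) (F.cl b) :=
  (h.dLv le_rfl (Nat.succ_le_succ h2)).mono_right (F.cl_sub le_rfl b.lt_succ_self)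

theorem nrm_wG (t : ℕ) : Nrm (F.G t) (F.wG t) := by
  refine ⟨fun c => (h.wG_pos t c).le, ?_⟩
  have e : F.ZG t = ∑ c ∈ (F.G t).powerset, ∏ q ∈ c, F.B t / q := by
    rw [Fam.ZG, ← prod_add_one]
    exact prod_congr rfl fun _ _ => add_comm _ _
  rw [← div_self (h.ZG_pos t).ne']
  conv_rhs => enter [1]; rw [e]
  rw [sum_div]
  refine sum_congr rfl fun c hc => ?_
  rw [Fam.wG, inter_eq_left.2 (mem_powerset.1 hc), prod_div_distrib, prod_const, pv, Nat.cast_prod,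
    div_right_comm]

theorem nrm_wR {t : ℕ} (ht : t ≤ F.m) : Nrm (F.R t) (F.wR t) := by
  refine ⟨F.wR_nonneg t, ?_⟩
  rw [← div_self (h.ZR_pos ht).ne']
  conv_rhs => enter [1]; rw [Fam.ZR, powersetCard_eq_filter, sum_filter]
  rw [sum_div]
  refine sum_congr rfl fun c hc => ?_
  rw [Fam.wR, inter_eq_left.2 (mem_powerset.1 hc), div_right_comm]
  split_ifs <;> simp

omit h in
theorem wl_eq_wm (t : ℕ) : F.wl t = wm (F.G t) (F.R t) (F.wG t) (F.wR t) := funext fun c => by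
  rw [wm, F.wG_inter Subset.rfl, F.wR_inter Subset.rfl, Fam.wl]

omit h in
theorem wh_eq_wm {a b c : ℕ} (h1 : a ≤ b) (h2 : b ≤ c) :
    F.wh a c = wm (F.Lv a b) (F.Lv b c) (F.wh a b) (F.wh b c) := funext fun e => by
  rw [wm, F.wh_inter Subset.rfl, F.wh_inter Subset.rfl, F.wh_split h1 h2]

omit h in
theorem wh_succ_wm {a b : ℕ} (h1 : a ≤ b) :
    F.wh a (b + 1) = wm (F.Lv a b) (F.cl b) (F.wh a b) (F.wl b) := funext fun e => by
  rw [wm, F.wh_inter Subset.rfl, F.wl_inter Subset.rfl, F.wh_succ h1]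

theorem nrm_wl {t : ℕ} (ht : t ≤ F.m) : Nrm (F.cl t) (F.wl t) := by
  rw [wl_eq_wm]
  exact Nrm.wm (h.dGR t ht) (h.nrm_wG t) (h.nrm_wR ht)

theorem nrm_wh {a b : ℕ} (h1 : a ≤ b) (h2 : b ≤ F.m + 1) : Nrm (F.Lv a b) (F.wh a b) := by
  induction b, h1 using Nat.le_induction with
  | base => exact ⟨h.wh_nonneg a a, by simp [Fam.Lv, Fam.wh, pv]⟩
  | succ b hab ih =>
    rw [F.Lv_succ hab, wh_succ_wm hab]
    exact Nrm.wm (h.dLv_cl (by omega)) (ih (by omega)) (h.nrm_wl (by omega))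

theorem nrm_w : Nrm F.Lo F.w := h.nrm_wh (Nat.zero_le _) le_rfl

theorem Vt_wl {t : ℕ} (ht : t ≤ F.m) {A : Finset ℕ} (hA : A ⊆ F.cl t) :
    Vt (F.wl t) A = F.Vl t A := by
  have e : A = A ∩ F.G t ∪ A ∩ F.R t := by
    rw [← inter_union_distrib_left]; exact (inter_eq_left.2 hA).symm
  rw [wl_eq_wm]
  conv_lhs => rw [e]
  rw [Vt_wm (h.dGR t ht) inter_subset_right inter_subset_right, F.Vt_wG inter_subset_right,
    F.Vt_wR inter_subset_right, F.VG_inter Subset.rfl, F.VR_inter Subset.rfl, Fam.Vl]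

theorem Vt_wh {a b : ℕ} (h1 : a ≤ b) (h2 : b ≤ F.m + 1) {A : Finset ℕ} (hA : A ⊆ F.Lv a b) :
    Vt (F.wh a b) A = F.V a b A := by
  induction b, h1 using Nat.le_induction generalizing A with
  | base =>
    rw [F.Lv_self, subset_empty] at hA
    simp [hA, Vt, Fam.wh, Fam.V]
  | succ b hab ih =>
    rw [F.Lv_succ hab] at hA
    have e : A = A ∩ F.Lv a b ∪ A ∩ F.cl b := by
      rw [← inter_union_distrib_left]; exact (inter_eq_left.2 hA).symm
    rw [wh_succ_wm hab]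
    conv_lhs => rw [e]
    rw [Vt_wm (h.dLv_cl (by omega)) inter_subset_right inter_subset_right,
      ih (by omega) inter_subset_right, h.Vt_wl (by omega) inter_subset_right,
      F.V_inter Subset.rfl, F.Vl_inter Subset.rfl, F.V_succ hab]

theorem Vt_w {A : Finset ℕ} (hA : A ⊆ F.Lo) : Vt F.w A = F.V 0 (F.m + 1) A :=
  h.Vt_wh (Nat.zero_le _) le_rfl hA

theorem Em_V {a b : ℕ} (h1 : a ≤ b) (h2 : b ≤ F.m + 1) : Em (F.Lv a b) (F.V a b) = 1 := by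
  rw [← (h.nrm_wh h1 h2).mean]
  exact Em_congr fun A hA => (h.Vt_wh h1 h2 hA).symm

theorem prod_half {T : Finset ℕ} (hT : T ⊆ F.RR) : 1 / 2 ≤ ∏ q ∈ T, (1 - (1 : ℝ) / q) := by
  have h1 : rs T ≤ F.LL := sum_le_sum_of_subset_of_nonneg hT fun _ _ _ => by positivity
  linarith [one_sub_le_prod T, h.LL1]

theorem ka_nonneg (p : ℕ) (T : Finset ℕ) : 0 ≤ F.ka p T := by
  have := h.prod_half (erase_subset p F.RR)
  unfold Fam.ka
  split_ifs
  · exact one_div_nonneg.2 (by linarith)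
  · exact le_rfl

theorem ka_le (p : ℕ) (T : Finset ℕ) : F.ka p T ≤ 2 := by
  have := h.prod_half (erase_subset p F.RR)
  unfold Fam.ka
  split_ifs
  · rw [div_le_iff₀ (by linarith)]; linarith
  · norm_num

theorem Em_ka {p : ℕ} (hp : p ∈ F.RR) : Em F.RR (F.ka p) = 1 := by
  have h1 := h.prod_half (erase_subset p F.RR)
  conv_lhs => enter [1]; rw [← insert_erase hp]
  rw [Em_insert (notMem_erase p _), Em, sum_eq_single ∅]
  · have : (0 : ℝ) < ∏ q ∈ F.RR.erase p, (1 - (1 : ℝ) / q) := by linarith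
    simp only [mu, Fam.ka, prod_empty, one_mul, sdiff_empty, empty_subset, if_true,
      insert_empty_eq, Subset.refl]
    field_simp
    ring
  · intro T hT h0
    obtain ⟨q, hq⟩ := nonempty_iff_ne_empty.2 h0
    have hqp : q ≠ p := ne_of_mem_erase (mem_powerset.1 hT hq)
    have a1 : F.ka p T = 0 := by_contra fun e => hqp (F.ka_ne e hq)
    have a2 : F.ka p (insert p T) = 0 := by_contra fun e => hqp (F.ka_ne e (mem_insert_of_mem hq))
    simp [a1, a2]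
  · exact fun e => absurd (empty_mem_powerset _) e

theorem L2 : 2 ≤ P.Λ := le_trans (by exact_mod_cast h.k2) h.Lk

theorem W_nonneg (p n : ℕ) : 0 ≤ F.W p n :=
  mul_nonneg (mul_nonneg (h.wk0 _) (h.ka_nonneg _ _)) (h.ze0 _)

theorem W_le (p n : ℕ) : F.W p n ≤ 2 * P.Λ ^ 2 := by
  have := h.L2
  calc F.W p n ≤ P.Λ * 2 * P.Λ := mul_le_mul (mul_le_mul (h.wkL _) (h.ka_le _ _) (h.ka_nonneg _ _)
        (by linarith)) (h.zeL _) (h.ze0 _) (by linarith)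
    _ = _ := by ring

theorem dLU : Disjoint F.Lo F.U := h.dLo.mono_right F.U_sub

theorem dK0 : Disjoint (F.Lo ∪ F.U) (F.RR ∪ F.HH) :=
  disjoint_union_left.2 ⟨h.dLo.mono_right F.RH_sub, disjoint_union_right.2 ⟨h.dUR, h.dUH⟩⟩

theorem dK : Disjoint (F.Lo ∪ F.U ∪ F.RR) F.HH :=
  disjoint_union_left.2 ⟨h.dK0.mono_right subset_union_right, h.dRH⟩

theorem prK0 : ∀ q ∈ F.Lo ∪ F.U, q.Prime := fun q hq =>
  (mem_union.1 hq).elim (h.prLo q) (h.prU q)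

theorem prK : ∀ q ∈ F.Lo ∪ F.U ∪ F.RR, q.Prime := fun q hq =>
  (mem_union.1 hq).elim (h.prK0 q) (h.prR q)

theorem pv_all0 : pv F.all = F.Qk0 * pv (F.RR ∪ F.HH) := by
  rw [Fam.Qk0, ← pv_union h.dK0, Fam.all, Fam.TT, union_assoc, union_assoc]

theorem pv_all : pv F.all = F.Qk * pv F.HH := by
  rw [Fam.Qk, ← pv_union h.dK, Fam.all, Fam.TT, union_assoc F.Lo, union_assoc F.Lo]

theorem pv_all' : pv F.all = pv F.Lo * pv F.TT := pv_union h.dLo

theorem cop0 : F.Qk0.Coprime (pv (F.RR ∪ F.HH)) := pv_cop h.prK0 h.prRH h.dK0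

theorem cop : F.Qk.Coprime (pv F.HH) := pv_cop h.prK h.prH h.dK

theorem cop_cp {c : Finset ℕ} (hc : c ⊆ F.Lo) {p : ℕ} (hp : p ∈ F.TT) : (pv c).Coprime p :=
  pv_cop_prime (fun q hq => h.prLo q (hc hq)) (h.prT p hp) fun e => disjoint_left.1 h.dLo (hc e) hp

theorem pv_pos {c : Finset ℕ} (hc : c ⊆ F.Lo) : 0 < pv c :=
  Ch.Main.pv_pos fun q hq => h.prLo q (hc hq)

theorem k2' : (2 : ℝ) ≤ F.k := by exact_mod_cast h.k2

theorem D20 : 20 ≤ F.D := by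
  have h1 : 1 ≤ Real.exp (2 * P.Lp) := Real.one_le_exp (by linarith [h.Lp1])
  nlinarith [h.Dbig, h.k2']

theorem N4 : 4 * F.D ≤ F.N := by nlinarith [h.Nlo, h.k2', h.D20]

theorem N0 : (0 : ℝ) < F.N := by linarith [h.N4, h.D20]

theorem N0' : 0 < F.N := by exact_mod_cast h.N0

theorem e4 : F.ε ≤ 1 / 4 := by nlinarith [h.e1, h.k2', h.e0]

theorem LL0 : 0 < F.LL := by
  by_contra hc
  nlinarith [h.LL2, h.L2]

theorem LP0 : 0 < F.LL * F.Pw := mul_pos h.LL0 h.Pw0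

theorem inv_LP : 1 / (F.LL * F.Pw) ≤ P.Λ ^ 2 * P.Lp := by
  have a := h.LP0
  have b := h.L2
  have c : 0 ≤ Real.log F.D := Real.log_nonneg (by linarith [h.D20])
  rw [div_le_iff₀ a]
  calc 1 ≤ P.Cw * (F.LL * F.Pw) * Real.log F.D := h.win3
    _ ≤ P.Λ * (F.LL * F.Pw) * (P.Λ * P.Lp) :=
        mul_le_mul (mul_le_mul_of_nonneg_right h.LCw a.le) h.logD c (by positivity)
    _ = _ := by ring

theorem Ms0 {C : ℕ} (hi : P.Λ ^ C * (1 + Real.log F.N) ≤ P.Ms) : 0 < P.Ms := by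
  have := h.L2
  have c : 0 ≤ Real.log F.N := Real.log_natCast_nonneg _
  exact lt_of_lt_of_le (by positivity) hi

theorem tauI_le {C : ℕ} (hi : P.Λ ^ C * (1 + Real.log F.N) ≤ P.Ms) (n : ℕ) :
    tauI n F.N P.Ms ≤ 2 * (n : ℝ) ^ 3 / P.Λ ^ C := by
  have := h.L2
  have c : 0 ≤ Real.log F.N := Real.log_natCast_nonneg _
  rw [tauI, div_le_div_iff₀ (h.Ms0 hi) (by positivity), mul_assoc, mul_comm (1 + Real.log F.N)]
  exact mul_le_mul_of_nonneg_left hi (by positivity)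

/-- cofactors that occur in a window are small -/
theorem pv_le_of_win {c p : ℕ} (hp : p ∈ F.RR ∪ F.HH) (hw : F.win (c * p)) :
    (c : ℝ) ≤ 2 * Real.exp P.Lp := by
  have p0 : (0 : ℝ) < p := by exact_mod_cast (h.prRH p hp).pos
  have a := hw.2
  have b := h.Rlo p hp
  have := h.e4
  have := h.D20
  push_cast at a
  refine le_of_mul_le_mul_right ?_ p0
  nlinarith

theorem win_le {d : ℕ} (hw : F.win d) : (d : ℝ) ≤ 2 * F.D := by
  nlinarith [hw.2, h.e4, h.D20]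

theorem card_RH : ((F.RR ∪ F.HH).card : ℝ) ≤ F.N := by
  have : F.RR ∪ F.HH ⊆ range F.N := fun q hq => mem_range.2 (by
    have a := h.Rhi q hq
    have : (q : ℝ) < F.N := by linarith [h.N4, h.D20]
    exact_mod_cast this)
  exact_mod_cast (card_le_card this).trans (card_range _).le

theorem div_le_mu {q : ℕ} (hq : q ∈ F.RR ∪ F.HH) :
    (F.N : ℝ) / q + 1 ≤ 5 * F.k * Real.exp P.Lp := by
  have p0 : (0 : ℝ) < q := by exact_mod_cast (h.prRH q hq).pos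
  have a := h.Rlo q hq
  have b := h.k2'
  have c : 1 ≤ Real.exp P.Lp := Real.one_le_exp (by linarith [h.Lp1])
  have d : (F.N : ℝ) / q ≤ 4 * F.k * Real.exp P.Lp := by
    rw [div_le_iff₀ p0]
    nlinarith [h.Nhi]
  nlinarith

/-- total weight of the small cofactors -/
theorem sum_w_le {x : ℝ} (hx : 0 ≤ x) {s : Finset (Finset ℕ)} (hs : s ⊆ F.Lo.powerset)
    (h1 : ∀ c ∈ s, (pv c : ℝ) ≤ x) : ∑ c ∈ s, F.w c ≤ x := by
  calc ∑ c ∈ s, F.w c ≤ ∑ c ∈ s, x * (F.w c / pv c) := sum_le_sum fun c hc => by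
        have : (0 : ℝ) < pv c := by exact_mod_cast h.pv_pos (mem_powerset.1 (hs hc))
        rw [← mul_div_assoc, le_div_iff₀ this, mul_comm x]
        exact mul_le_mul_of_nonneg_left (h1 c hc) (h.w_nonneg c)
    _ ≤ x * ∑ c ∈ F.Lo.powerset, F.w c / pv c := by
        rw [← mul_sum]
        exact mul_le_mul_of_nonneg_left (sum_le_sum_of_subset_of_nonneg hs fun c _ _ =>
          div_nonneg (h.w_nonneg c) (Nat.cast_nonneg _)) hx
    _ = x := by rw [h.nrm_w.2, mul_one]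

theorem pi1_ge : F.LL / 2 ≤ F.pi1 := by
  have e : ∀ T ⊆ F.RR, (if T.card = 1 then (1 : ℝ) else 0) =
      ∑ p ∈ F.RR, (∏ q ∈ F.RR.erase p, (1 - (1 : ℝ) / q)) *
        if {p} ⊆ T then F.ka p T else 0 := fun T hT => by
    split_ifs with h1
    · obtain ⟨p, rfl⟩ := card_eq_one.1 h1
      have := h.prod_half (erase_subset p F.RR)
      rw [sum_eq_single p]
      · simp only [Subset.refl, if_true, Fam.ka]
        rw [mul_one_div_cancel (by linarith)]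
      · intro q _ hq
        rw [if_neg fun e => hq (mem_singleton.1 (e (mem_singleton_self q))), mul_zero]
      · exact fun e => absurd (hT (mem_singleton_self p)) e
    · refine (sum_eq_zero fun p _ => ?_).symm
      split_ifs with h2
      · rw [Fam.ka, if_neg fun e => h1 (by rw [Subset.antisymm e h2, card_singleton]), mul_zero]
      · exact mul_zero _
  rw [Fam.pi1, EG_eq, Em_congr e, Em_sum, Fam.LL, rs, sum_div]
  refine sum_le_sum fun p hp => ?_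
  have a := h.prod_half (erase_subset p F.RR)
  have b : Em (F.RR \ {p}) (fun B => F.ka p ({p} ∪ B)) = 1 := by
    have c := h.Em_ka hp
    conv_lhs at c => enter [1]; rw [← insert_erase hp]
    rw [Em_insert (notMem_erase p _)] at c
    rw [← erase_eq, ← c]
    refine Em_congr fun B hB => ?_
    have : F.ka p (insert p B) = F.ka p B := by
      rw [← F.ka_erase, erase_insert fun e => notMem_erase p _ (hB e)]
    rw [← insert_eq, this]
    ring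
  rw [Em_mul, Em_sub (singleton_subset_iff.2 hp), b, mul_one, pv, prod_singleton, mul_comm,
    div_eq_mul_one_div _ (2 : ℝ)]
  exact mul_le_mul_of_nonneg_left a (by positivity)

theorem pi1_pos : 0 < F.pi1 := lt_of_lt_of_le (half_pos h.LL0) h.pi1_ge

theorem zj_nonneg (T : Finset ℕ) : 0 ≤ F.zj T :=
  div_nonneg (by split_ifs <;> norm_num) h.pi1_pos.le

theorem zj_le (T : Finset ℕ) : F.zj T ≤ P.Λ := by
  rw [Fam.zj, div_le_iff₀ h.pi1_pos]
  have a : 1 ≤ P.Λ * F.pi1 := by nlinarith [h.pi1_ge, h.LL2, h.L2]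
  split_ifs <;> linarith

theorem Em_zj : Em F.RR F.zj = 1 := by
  unfold Fam.zj
  rw [Em_div]
  exact div_self h.pi1_pos.ne'

theorem z0_nonneg (n : ℕ) : 0 ≤ F.z0 n := mul_nonneg (h.zj_nonneg _) (h.ze0 _)

theorem z0_le (n : ℕ) : F.z0 n ≤ P.Λ ^ 2 := by
  rw [sq]
  exact mul_le_mul (h.zj_le _) (h.zeL _) (h.ze0 _) (by linarith [h.L2])

theorem vv_nonneg (n : ℕ) : 0 ≤ F.vv n :=
  mul_nonneg (mul_nonneg (h.V_nonneg _ _ _) ((h.wk0 _).trans (h.wkv _))) (h.z0_nonneg n)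

end Hyp0

theorem s_vv : S_VV := by
  intro F P h Z b hZ hd
  let φ : Finset ℕ → ℝ := fun T => (F.V 0 (F.m + 1) (T ∩ (F.Lo ∪ F.U) ∩ F.Lo) *
      F.vk (T ∩ (F.Lo ∪ F.U) ∩ F.U)) * (F.zj (T ∩ (F.RR ∪ F.HH) ∩ F.RR) *
        F.ze (T ∩ (F.RR ∪ F.HH) ∩ F.HH))
  have e : ∀ n, F.vv n = φ (dp F.all n) := fun n => by
    simp only [φ, inter_inter subset_union_left, inter_inter subset_union_right, dp_inter F.Lo_sub,
      dp_inter (F.U_sub.trans F.TT_sub), dp_inter (F.RR_sub.trans F.TT_sub),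
      dp_inter (F.HH_sub.trans F.TT_sub), Fam.vv, Fam.z0]
  have e2 : F.all = (F.Lo ∪ F.U) ∪ (F.RR ∪ F.HH) := by
    rw [Fam.all, Fam.TT, union_assoc, union_assoc]
  refine ((ex_congr fun n : Fin Z => e (n + b)).trans (ex_dp h.pr hZ hd b φ)).trans_le ?_
  simp only [φ]
  rw [EG_eq, e2,
    Em_mul_inter h.dK0 (fun T => F.V 0 (F.m + 1) (T ∩ F.Lo) * F.vk (T ∩ F.U))
      fun T => F.zj (T ∩ F.RR) * F.ze (T ∩ F.HH), Em_mul_inter h.dLU, Em_mul_inter h.dRH,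
    h.Em_zj, ← EG_eq F.HH, h.Eze, show Em F.Lo (F.V 0 (F.m + 1)) = 1 from
      h.Em_V (Nat.zero_le _) le_rfl]
  simpa [EG_eq] using h.Evk

end Pool.Agent.P.MP_a14ce1_nt.Fu.St
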