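import Pool.Agent.P.MP_a14ce1_nt.Fu.S7Def
import Pool.Agent.P.MP_a14ce1_nt.Fu.StB

/-! Mass and small ball bound for the cofactors of section 7. -/

open Finset

namespace Pool.Agent.P.MP_a14ce1_nt.Fu.St

open Ch (pv lam)

variable {F : Fam} {P : Par}

theorem mass7 (h : Hyp0 F P) : ∑ c ∈ CC7 F, F.w c / pv c ≤ 1 := by
  rw [← h.nrm_w.2]
  exact sum_le_sum_of_subset_of_nonneg (fun c hc => mem_powerset.2 (mem_CC7.1 hc).1)
    fun c _ _ => div_nonneg (h.w_nonneg c) (Nat.cast_nonneg _)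

theorem amgm7 {x v l : ℝ} (hx : 0 ≤ x) (hv : x ≤ v) (hl : 0 < l) :
    x ≤ 1 / (2 * l) * v + l / 2 * (x ^ 2 / v) := by
  rcases (hx.trans hv).eq_or_lt with h0 | h0
  · subst h0
    simpa using hv
  · have e : 1 / (2 * l) * v + l / 2 * (x ^ 2 / v) - x = (v - l * x) ^ 2 / (2 * l * v) := by
      field_simp
      ring
    have : 0 ≤ (v - l * x) ^ 2 / (2 * l * v) := by positivity
    linarith

theorem ball7 (h : Hyp0 F P) (u : ℝ) :
    ∑ c ∈ (CC7 F).filter (fun c => u ≤ Real.log (pv c) ∧ Real.log (pv c) ≤ u + 1),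
      F.w c / pv c ≤ P.Csb / P.l F.m := by
  have hl : 0 < P.l F.m := lt_of_lt_of_le one_pos (h.l1 _)
  have h1 : ∑ c ∈ (CC7 F).filter (fun c => u ≤ Real.log (pv c) ∧ Real.log (pv c) ≤ u + 1),
      F.w c / pv c ≤ Em F.Lo fun T =>
        ∑ e ∈ T.powerset with u ≤ Real.log (pv e) ∧ Real.log (pv e) ≤ u + 1, F.w e := by
    have e := Et_obj F.Lo F.w fun c =>
      if u ≤ Real.log (pv c) ∧ Real.log (pv c) ≤ u + 1 then 1 else 0
    simp only [Et, mul_ite, mul_one, mul_zero, ← sum_filter] at e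
    rw [e]
    refine sum_le_sum_of_subset_of_nonneg (fun c hc => ?_)
      fun c _ _ => div_nonneg (h.w_nonneg c) (Nat.cast_nonneg _)
    rw [mem_filter] at hc ⊢
    exact ⟨mem_powerset.2 (mem_CC7.1 hc.1).1, hc.2⟩
  have h2 := Em_mono (P := F.Lo) fun T hT => amgm7 (l := P.l F.m) (v := F.V 0 (F.m + 1) T)
    (x := ∑ e ∈ T.powerset with u ≤ Real.log (pv e) ∧ Real.log (pv e) ≤ u + 1, F.w e)
    (sum_nonneg fun e _ => h.w_nonneg e) (by
      rw [← h.Vt_w hT]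
      exact sum_le_sum_of_subset_of_nonneg (filter_subset _ _) fun e _ _ => h.w_nonneg e) hl
  have h3 : Em F.Lo (F.V 0 (F.m + 1)) = 1 := h.Em_V (Nat.zero_le _) le_rfl
  have h4 := h.sb2 u
  rw [sb, EG_eq] at h4
  rw [Em_add, Em_mul, Em_mul, h3] at h2
  have h5 := mul_le_mul_of_nonneg_left h4 (half_pos hl).le
  have e : P.Csb / P.l F.m - (1 / (2 * P.l F.m) * 1 + P.l F.m / 2 * (P.Csb / P.l F.m ^ 2)) =
      (P.Csb - 1) / (2 * P.l F.m) := by
    field_simp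
    ring
  have h6 : 0 ≤ (P.Csb - 1) / (2 * P.l F.m) := div_nonneg (sub_nonneg.2 h.Csb1) (by positivity)
  linarith

end Pool.Agent.P.MP_a14ce1_nt.Fu.St
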