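import Pool.Agent.P.MP_a14ce1_nt.Fu.S7Def
import Pool.Agent.P.MP_a14ce1_nt.Fu.StB
import Pool.Agent.P.MP_a14ce1_nt.Fu.Sec6

/-! The second test on the model. -/

open Finset

namespace Pool.Agent.P.MP_a14ce1_nt.Fu.St

open Ch (pv lam)
open Ch.Main (Tn)

variable {F : Fam} {P : Par}

namespace T2

theorem z0_eq (F : Fam) (n : ℕ) : F.zj (Tn (F.RR ∪ F.HH) n ∩ F.RR) *
    F.ze (Tn (F.RR ∪ F.HH) n ∩ F.HH) = F.z0 n := by
  rw [Fam.z0, ← dp_eq, dp_inter subset_union_left, dp_inter subset_union_right]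

theorem site (h : Hyp0 F P) {Om : ℝ} (hOm : 0 < Om) {c : Finset ℕ} (hc : c ⊆ F.Lo) {m : ℕ}
    (hm : m ≠ 0) : F.wk (dp F.U (pv c * m)) * (F.z0 (pv c * m) * lam (pv c * m)) =
      lam (pv c) * (Om * (W7 F Om (dp F.TT m) * lam m)) := by
  have a : ∀ T ⊆ F.TT, dp T (pv c * m) = dp F.TT m ∩ T := fun T hT => by
    rw [dp_inter hT, dp_mul (fun q hq => h.prT q (hT hq)) fun q hq =>
      (h.prT q (hT hq)).coprime_iff_not_dvd.1 (h.cop_cp hc (hT hq)).symm]
  rw [Fam.z0, W7, a _ F.U_sub, a _ F.RR_sub, a _ F.HH_sub, lam_mul (h.pv_pos hc).ne' hm]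
  field_simp

theorem ex_zero_ind {Z : ℕ} (hZ : 0 < Z) (c : ℝ) :
    ex (fun n : Fin Z => if (n : ℕ) = 0 then c else 0) = c / Z := by
  rw [ex, Fintype.card_fin, sum_eq_single (⟨0, hZ⟩ : Fin Z), if_pos rfl]
  · exact fun b _ hb => if_neg fun e => hb (Fin.ext e)
  · exact fun h => absurd (mem_univ _) h

end T2

open T2 in
theorem t27 (h : Hyp0 F P) {A : Type} [Fintype A] (dt : ℕ → A) {Z : ℕ} {C0 : ℕ → Finset ℕ}
    (hD : Dat F P A Z C0) (s : ℕ → ℝ) {Om η : ℝ} (hOm : 0 < Om) (h0 : 0 < η) (h1 : η ≤ 1)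
    (hσ : 16 * (40 * F.k * P.Λ ^ 3 * Real.exp (2 * P.Lp)) ^ 2 * P.Λ * P.σin ≤ η ^ 2)
    (hZ : 4 * Real.exp P.Lp * P.Λ ^ 3 ≤ η * Z)
    (u : Fin Z → Finset ℕ → ℕ → ℝ) (hu : Ms (gl Z F.Qk0 dt C0) u) (hu1 : ∀ n c b, |u n c b| ≤ 1) :
    (ex fun n : Fin Z => ∑ c ∈ CC7 F, F.w c *
        ∑ b ∈ cel F.N (pv c) n, (d7 F Om dt Z C0 s).F n b * u n c b) ≤
      Om * (ex fun n : Fin Z => ∑ c ∈ CC7 F, F.w c *
        |∑ b ∈ cel F.N (pv c) n, (d7 F Om dt Z C0 s).f ((n + b) / pv c) * u n c b|) +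
        η * F.N := by
  have : Nonempty (Fin Z) := ⟨⟨0, hD.Z0⟩⟩
  have L2 := h.L2
  have L0 : 0 < P.Λ := by linarith
  have N0 := h.N0
  have N1 : (1 : ℝ) ≤ F.N := by exact_mod_cast h.N0'
  have Z0 : (0 : ℝ) < Z := by exact_mod_cast hD.Z0
  have l0 : 0 ≤ P.Lp := by linarith [h.Lp1]
  have hle := glue_le_ker (fun n : Fin Z => (n : ℕ) % F.Qk0) (fun n b => dt (n + b)) C0
  set E : ℝ := 40 * F.k * P.Λ ^ 3 * Real.exp (2 * P.Lp) with hE
  have E1 : 1 ≤ E := one_le_mul_of_one_le_of_one_le (one_le_mul_of_one_le_of_one_le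
    (by linarith [h.k2']) (one_le_pow₀ (by linarith))) (Real.one_le_exp (by linarith))
  have eE : 4 * (5 * F.k * Real.exp P.Lp) * (2 * Real.exp P.Lp * P.Λ * P.Λ ^ 2) = E := by
    rw [hE, two_mul P.Lp, Real.exp_add]; ring
  have hCC : ∀ c ∈ CC7 F, c ⊆ F.Lo := fun c hc => (mem_CC7.1 hc).1
  have hW : ∑ c ∈ CC7 F, F.w c ≤ 2 * Real.exp P.Lp :=
    h.sum_w_le (by positivity) (fun c hc => mem_powerset.2 (hCC c hc)) fun c hc => by
      obtain ⟨-, p, hp, hw⟩ := mem_CC7.1 hc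
      exact h.pv_le_of_win (mem_union_left _ hp) hw
  have key := test2 (F.RR ∪ F.HH) h.prRH
    (Setoid.ker fun n : Fin Z => (n : ℕ) % F.Qk0) (gl Z F.Qk0 dt C0) (fun n => n)
    (fr_fin h.cop0 (h.pv_all0 ▸ hD.per) (r := fun n => n % F.Qk0) fun _ _ e => e)
    F.N (CC7 F) pv F.w (fun x b => F.wk (dp F.U (x + b))) (fun x b => lam (x + b))
    (fun S => F.zj (S ∩ F.RR) * F.ze (S ∩ F.HH)) u (O1 := P.Λ) (O2 := P.Λ ^ 2)
    (Wt := 2 * Real.exp P.Lp) (μ := 5 * F.k * Real.exp P.Lp) (θ := η / (4 * E ^ 2))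
    (fun c _ => h.w_nonneg c) hW
    (fun x b => by rw [abs_of_nonneg (h.wk0 _)]; exact h.wkL _) (fun x b => (abs_lam _).le) hu1
    (fun S _ => mul_nonneg (h.zj_nonneg _) (h.ze0 _))
    (fun S _ => by
      rw [sq]
      exact mul_le_mul (h.zj_le _) (h.zeL _) (h.ze0 _) L0.le)
    (by rw [EM_eq, Em_mul_inter h.dRH, h.Em_zj, ← EG_eq, h.Eze, one_mul])
    (fun b _ x x' e => by
      have a1 := per_dp (T := F.U) (Q := F.Qk0) (pv_dvd subset_union_right) b x x' (hle e)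
      simp only at a1
      simp only [a1])
    (fun c hc x x' e => Nat.ModEq.of_dvd (pv_dvd ((hCC c hc).trans subset_union_left)) (hle e))
    hu (fun q hq => h.div_le_mu hq) (by positivity)
    (by
      rw [eE, div_mul_eq_mul_div, div_le_one (by positivity)]
      nlinarith)
  rw [eE] at key
  simp only [z0_eq] at key
  have k1 : cH (gl Z F.Qk0 dt C0) (Setoid.ker fun n : Fin Z => (n : ℕ) % F.Qk0) /
      (η / (4 * E ^ 2)) ≤ η * F.N / 4 := by
    have a1 := cH_glue (fun n : Fin Z => (n : ℕ) % F.Qk0) (fun n b => dt (n + b)) C0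
    have a2 := hD.sz
    rw [size, div_le_iff₀ N0] at a2
    have σ0 := h.σin0
    have a3 := a1.trans (mul_le_mul a2 hD.alph (Real.log_natCast_nonneg _) (by positivity))
    rw [div_le_iff₀ (by positivity), ← mul_div_assoc, le_div_iff₀ (by positivity)]
    refine (mul_le_mul_of_nonneg_right a3 (by positivity)).trans ?_
    nlinarith [mul_le_mul_of_nonneg_right hσ N0.le]
  have k2 : η / (4 * E ^ 2) * ((F.RR ∪ F.HH).card * E ^ 2) ≤ η * F.N / 4 := by
    calc _ ≤ η / (4 * E ^ 2) * (F.N * E ^ 2) := by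
          have := h.card_RH
          gcongr
      _ = _ := by field_simp
  have k3 : ∀ n : Fin Z, ∑ c ∈ CC7 F, F.w c * ∑ b ∈ cel F.N (pv c) n,
      F.wk (dp F.U (n + b)) * (F.z0 (n + b) * lam (n + b)) * u n c b ≤
      Om * ∑ c ∈ CC7 F, F.w c *
        |∑ b ∈ cel F.N (pv c) n, (d7 F Om dt Z C0 s).f ((n + b) / pv c) * u n c b| +
        if (n : ℕ) = 0 then 2 * Real.exp P.Lp * P.Λ ^ 3 else 0 := fun n => by
    have a1 : ∑ c ∈ CC7 F, F.w c * (if (n : ℕ) = 0 then P.Λ ^ 3 else 0) ≤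
        if (n : ℕ) = 0 then 2 * Real.exp P.Lp * P.Λ ^ 3 else 0 := by
      rw [← sum_mul]
      split_ifs
      · gcongr
      · rw [mul_zero]
    refine le_trans ?_ (add_le_add_right a1 _)
    rw [mul_sum, ← sum_add_distrib]
    refine sum_le_sum fun c hc => ?_
    rw [mul_left_comm, ← mul_add]
    refine mul_le_mul_of_nonneg_left ?_ (h.w_nonneg c)
    have a2 : ∀ b ∈ cel F.N (pv c) n,
        F.wk (dp F.U (n + b)) * (F.z0 (n + b) * lam (n + b)) * u n c b ≤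
        lam (pv c) * (Om * ((d7 F Om dt Z C0 s).f ((n + b) / pv c) * u n c b)) +
          if b = 0 then (if (n : ℕ) = 0 then P.Λ ^ 3 else 0) else 0 := fun b hb => by
      obtain ⟨m, hm⟩ := (mem_filter.1 hb).2
      rw [hm, Nat.mul_div_cancel_left _ (h.pv_pos (hCC c hc))]
      simp only [d7]
      by_cases m0 : m = 0
      · rw [m0, mul_zero] at hm
        rw [if_pos m0, if_pos (by omega), if_pos (by omega), zero_mul, mul_zero, mul_zero, zero_add]
        refine (le_abs_self _).trans ?_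
        rw [abs_mul, abs_mul, abs_mul, abs_lam, mul_one, abs_of_nonneg (h.wk0 _),
          abs_of_nonneg (h.z0_nonneg _), pow_succ' P.Λ 2]
        exact (mul_le_of_le_one_right (mul_nonneg (h.wk0 _) (h.z0_nonneg _)) (hu1 _ _ _)).trans
          (mul_le_mul (h.wkL _) (h.z0_le _) (h.z0_nonneg _) L0.le)
      · rw [if_neg m0, site h hOm (hCC c hc) m0]
        have : (0 : ℝ) ≤ if b = 0 then (if (n : ℕ) = 0 then P.Λ ^ 3 else 0) else 0 := by
          split_ifs <;> positivity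
        linarith
    refine (sum_le_sum a2).trans ?_
    rw [sum_add_distrib, ← mul_sum, ← mul_sum, sum_ite_eq']
    refine add_le_add ((le_abs_self _).trans (le_of_eq ?_)) ?_
    · rw [abs_mul, abs_lam, one_mul, abs_mul, abs_of_pos hOm]
    · split_ifs <;> first | exact le_rfl | positivity
  have k4 := ex_mono k3
  rw [ex_add, ex_mul, ex_zero_ind hD.Z0] at k4
  have k5 : 2 * Real.exp P.Lp * P.Λ ^ 3 / Z ≤ η * F.N / 2 := by
    rw [div_le_iff₀ Z0]
    nlinarith [mul_le_mul_of_nonneg_left N1 (mul_pos h0 Z0).le]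
  have k6 := (abs_le.1 key).1
  simp only [d7, pred] at k4 ⊢
  linarith

end Pool.Agent.P.MP_a14ce1_nt.Fu.St
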