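import Pool.Agent.P.MP_a14ce1_nt.Fu.CrtF

/-!
Restriction of a mean over a shifted range to the multiples of `d`.
-/

open Finset

namespace Pool.Agent.P.MP_a14ce1_nt.Fu

theorem sum_shift_le (F : ℕ → ℝ) {B : ℝ} (hB : ∀ n, |F n| ≤ B) (Y a : ℕ) :
    |∑ n ∈ range Y, F (n + a) - ∑ n ∈ range Y, F n| ≤ 2 * a * B := by
  have h1 : ∑ n ∈ range (a + Y), F n = ∑ n ∈ range a, F n + ∑ n ∈ range Y, F (n + a) := by
    rw [sum_range_add]; simp only [add_comm a]
  have h2 : ∑ n ∈ range (a + Y), F n = ∑ n ∈ range Y, F n + ∑ n ∈ range a, F (Y + n) := by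
    rw [add_comm a, sum_range_add]
  have h3 : ∑ n ∈ range Y, F (n + a) - ∑ n ∈ range Y, F n =
      ∑ n ∈ range a, (F (Y + n) - F n) := by rw [sum_sub_distrib]; linarith
  rw [h3]
  calc _ ≤ ∑ n ∈ range a, |F (Y + n) - F n| := abs_sum_le_sum_abs _ _
    _ ≤ ∑ _n ∈ range a, 2 * B := sum_le_sum fun n _ =>
        (abs_sub _ _).trans (by linarith [hB (Y + n), hB n])
    _ = _ := by rw [sum_const, card_range, nsmul_eq_mul]; ring

theorem sum_mult (F : ℕ → ℝ) {d : ℕ} (hd : 0 < d) (hF : ∀ n, ¬d ∣ n → F n = 0) (M : ℕ) :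
    ∑ n ∈ range (d * M), F n = ∑ m ∈ range M, F (d * m) := by
  induction M with
  | zero => simp
  | succ M ih =>
    rw [mul_add, mul_one, sum_range_add, ih, sum_range_succ]
    congr 1
    rw [sum_eq_single_of_mem 0 (mem_range.2 hd)]
    · rfl
    · intro j hj h0
      refine hF _ fun h => h0 ?_
      exact Nat.eq_zero_of_dvd_of_lt ((Nat.dvd_add_right (dvd_mul_right d M)).1 h) (mem_range.1 hj)

theorem sum_per {W : ℕ → ℝ} {q M M' : ℕ} (h : Per q W) (hM : q ∣ M) (hM' : q ∣ M') (h0 : 0 < M') :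
    ∑ m ∈ range M, W m = M * ((∑ m ∈ range M', W m) / M') := by
  rcases Nat.eq_zero_or_pos M with rfl | hp
  · simp
  have := ex_per_eq hp h0 hM hM' h
  rw [ex_fin, ex_fin] at this
  rw [← this]
  have : (M : ℝ) ≠ 0 := by positivity
  field_simp

/-- two nested ranges of comparable lengths -/
theorem avg_nested {s W : ℕ → ℝ} {q M Z : ℕ} {ε : ℝ} (hs : ∀ n, |s n| ≤ 1) (hW : ∀ n, 0 ≤ W n)
    (hp : Per q W) (hM : q ∣ M) (hZ : q ∣ Z) (h0 : 0 < M) (hMZ : M ≤ Z)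
    (hε : (Z : ℝ) ≤ (1 + ε) * M) :
    |(∑ m ∈ range M, s m * W m) / M - (∑ m ∈ range Z, s m * W m) / Z| ≤
      2 * ε * ((∑ m ∈ range Z, W m) / Z) := by
  have hZ0 : 0 < Z := h0.trans_le hMZ
  have hMr : (0 : ℝ) < M := by exact_mod_cast h0
  have hZr : (0 : ℝ) < Z := by exact_mod_cast hZ0
  have hMZr : (M : ℝ) ≤ Z := by exact_mod_cast hMZ
  set e := (∑ m ∈ range Z, W m) / Z with he
  have e0 : 0 ≤ e := div_nonneg (sum_nonneg fun _ _ => hW _) hZr.le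
  have a1 : ∑ m ∈ range M, W m = M * e := sum_per hp hM hZ hZ0
  have a2 : ∑ m ∈ range Z, W m = Z * e := by rw [he]; field_simp
  have b : ∀ T : Finset ℕ, |∑ m ∈ T, s m * W m| ≤ ∑ m ∈ T, W m := fun T =>
    (abs_sum_le_sum_abs _ _).trans (sum_le_sum fun m _ => by
      rw [abs_mul, abs_of_nonneg (hW m)]
      exact mul_le_of_le_one_left (hW m) (hs m))
  have c1 : ∀ G : ℕ → ℝ, ∑ m ∈ range Z, G m = ∑ m ∈ range M, G m + ∑ m ∈ Ico M Z, G m :=
    fun G => (sum_range_add_sum_Ico G hMZ).symm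
  have b1 := b (range M)
  have b2 := b (Ico M Z)
  have a3 : ∑ m ∈ Ico M Z, W m = (Z - M) * e := by have := c1 W; linarith
  rw [a1] at b1
  rw [a3] at b2
  rw [c1 fun m => s m * W m]
  set u := ∑ m ∈ range M, s m * W m
  set v := ∑ m ∈ Ico M Z, s m * W m
  have e1 : u / M - (u + v) / Z = (u / M * (Z - M) - v) / Z := by field_simp; ring
  have e2 : |u / M| ≤ e := by
    rw [abs_div, abs_of_pos hMr, div_le_iff₀ hMr]; linarith
  rw [e1, abs_div, abs_of_pos hZr, div_le_iff₀ hZr]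
  have e3 : |u / M * (Z - M) - v| ≤ 2 * ((Z - M) * e) := by
    refine (abs_sub _ _).trans ?_
    rw [abs_mul, abs_of_nonneg (sub_nonneg.2 hMZr)]
    have := mul_le_mul_of_nonneg_right e2 (sub_nonneg.2 hMZr)
    linarith
  refine e3.trans ?_
  have e4 : (Z : ℝ) - M ≤ ε * Z := by
    have : 0 ≤ ε := by nlinarith
    nlinarith
  have := mul_le_mul_of_nonneg_right e4 e0
  linarith

theorem avg_two {s W : ℕ → ℝ} {q M Z : ℕ} {ε : ℝ} (hs : ∀ n, |s n| ≤ 1) (hW : ∀ n, 0 ≤ W n)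
    (hp : Per q W) (hM : q ∣ M) (hZ : q ∣ Z) (h0 : 0 < M) (hZ0 : 0 < Z)
    (h1 : (M : ℝ) ≤ (1 + ε) * Z) (h2 : (Z : ℝ) ≤ (1 + ε) * M) :
    |(∑ m ∈ range M, s m * W m) / M - (∑ m ∈ range Z, s m * W m) / Z| ≤
      2 * ε * ((∑ m ∈ range Z, W m) / Z) := by
  rcases le_total M Z with c | c
  · exact avg_nested hs hW hp hM hZ h0 c h2
  · have := avg_nested hs hW hp hZ hM hZ0 c h1
    have hMr : (M : ℝ) ≠ 0 := by positivity
    rwa [abs_sub_comm, sum_per hp hM hZ hZ0, mul_div_cancel_left₀ _ hMr] at this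

/-- the mean over the multiples of `d` in a shifted range against the mean over `range Z` -/
theorem bias_one {d q Y Z : ℕ} (a : ℕ) {ε B : ℝ} {s W F : ℕ → ℝ} (hd : 0 < d) (hY : 0 < Y)
    (hs : ∀ n, |s n| ≤ 1) (hW : ∀ n, 0 ≤ W n) (hWB : ∀ n, W n ≤ B) (hp : Per q W)
    (hdq : d * q ∣ Y) (hZ : q ∣ Z) (hZ0 : 0 < Z) (h1 : (Y : ℝ) ≤ (1 + ε) * (d * Z))
    (h2 : (d : ℝ) * Z ≤ (1 + ε) * Y)
    (hF : ∀ m, 0 < m → F (d * m) = s m * W m) (hF0 : ∀ n, ¬d ∣ n → F n = 0)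
    (hFB : ∀ n, |F n| ≤ B) :
    |d * ex (fun n : Fin Y => F (n + a)) - (∑ m ∈ range Z, s m * W m) / Z| ≤
      2 * ε * ((∑ m ∈ range Z, W m) / Z) + (2 * a + 2) * d * B / Y := by
  obtain ⟨t, rfl⟩ := hdq
  have hdr : (0 : ℝ) < d := by exact_mod_cast hd
  set M := q * t with hM
  have hYM : d * q * t = d * M := by rw [hM, mul_assoc]
  rw [hYM] at hY h1 h2 ⊢
  have h0 : 0 < M := Nat.pos_of_mul_pos_left hY
  have hMr : (0 : ℝ) < M := by exact_mod_cast h0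
  have hMZ : (M : ℝ) ≤ (1 + ε) * Z := by
    push_cast at h1
    refine le_of_mul_le_mul_left ?_ hdr
    linarith
  have hε : (Z : ℝ) ≤ (1 + ε) * M := by
    push_cast at h2
    refine le_of_mul_le_mul_left ?_ hdr
    linarith
  have k1 := avg_two hs hW hp (Dvd.intro t rfl) hZ h0 hZ0 hMZ hε
  have k2 := sum_shift_le F hFB (d * M) a
  rw [sum_mult F hd hF0] at k2
  have k3 : |∑ m ∈ range M, F (d * m) - ∑ m ∈ range M, s m * W m| ≤ 2 * B := by
    rw [← sum_sub_distrib, sum_eq_single_of_mem 0 (mem_range.2 h0)]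
    · refine (abs_sub _ _).trans ?_
      have : |s 0 * W 0| ≤ B := by
        rw [abs_mul, abs_of_nonneg (hW 0)]
        exact (mul_le_of_le_one_left (hW 0) (hs 0)).trans (hWB 0)
      linarith [hFB (d * 0)]
    · intro m _ hm
      rw [hF m (Nat.pos_of_ne_zero hm), sub_self]
  rw [ex_fin (d * M) fun n => F (n + a)]
  set u := ∑ n ∈ range (d * M), F (n + a)
  set v := ∑ m ∈ range M, s m * W m
  have k4 : |u - v| ≤ (2 * a + 2) * B := by
    have := abs_sub_le u (∑ m ∈ range M, F (d * m)) v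
    linarith
  have k5 : |d * (u / ((d * M : ℕ) : ℝ)) - v / M| ≤ (2 * a + 2) * d * B / ((d * M : ℕ) : ℝ) := by
    push_cast
    have e1 : d * (u / (d * M)) - v / M = (u - v) / M := by field_simp
    have e2 : (2 * a + 2) * d * B / ((d : ℝ) * M) = (2 * a + 2) * B / M := by field_simp
    rw [e1, e2, abs_div, abs_of_pos hMr]
    gcongr
  have := abs_sub_le (d * (u / ((d * M : ℕ) : ℝ))) (v / M) ((∑ m ∈ range Z, s m * W m) / Z)
  linarith

end Pool.Agent.P.MP_a14ce1_nt.Fu
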