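import Pool.Agent.P.MP_a14ce1_nt.Fu.BiasA
import Pool.Agent.P.MP_a14ce1_nt.Fu.IndN
import Pool.Agent.P.MP_a14ce1_nt.Fu.Em

/-!
One progression a, a + d, ..: the bias survives the weights, and the mass of an event at one site.
-/

open Finset

namespace Pool.Agent.P.MP_a14ce1_nt.Fu

open Ch (mu pv lam)
open Ch.Main (Tn)

theorem EM_eq (TT : Finset ℕ) (w : Finset ℕ → ℝ) : EM TT w = Em TT w := rfl

theorem per_Tn1 {Q : ℕ} {T : Finset ℕ} (hT : ∀ q ∈ T, q ∣ Q) (b : ℕ) :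
    Per Q fun x => Tn T (x + b) := per_filter hT b

theorem dvd_pv {T : Finset ℕ} {q : ℕ} (hq : q ∈ T) : q ∣ pv T := dvd_prod_of_mem (fun q => q) hq

theorem Per.step {β : Type*} {Q : ℕ} {u : ℕ → β} (h : Per Q u) (n : ℕ) : u (n + Q) = u n :=
  h _ _ (by simp [Nat.ModEq])

theorem Tn_mul {T : Finset ℕ} {d : ℕ} (hd : ∀ q ∈ T, d.Coprime q) (m : ℕ) :
    Tn T (d * m) = Tn T m :=
  filter_congr fun q hq => ⟨fun h => (hd q hq).symm.dvd_of_dvd_mul_left h, fun h => h.mul_left d⟩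

theorem Tn_subset (T : Finset ℕ) (n : ℕ) : Tn T n ⊆ T := filter_subset _ _

/-- independence along a progression of `k` sites -/
theorem ind_prog (TT : Finset ℕ) (hT : ∀ q ∈ TT, q.Prime) {M N : ℝ} (hM0 : 0 < M)
    (hM : ∀ q ∈ TT, M ≤ q) (k a d : ℕ) (hd0 : 0 < d) (hN1 : 1 ≤ N) (hN : (k : ℝ) * d ≤ N)
    {Q Y : ℕ} (hQ : ∀ q ∈ TT, Q.Coprime q) (hY : 0 < Y) (hd : Q * pv TT ∣ Y)
    (u : ℕ → ℝ) (hu : Per Q u) (w : ℕ → Finset ℕ → ℝ) {Om : ℝ}
    (h0 : ∀ i < k, ∀ A ⊆ TT, 0 ≤ w i A) (hK : ∀ i < k, ∀ A ⊆ TT, w i A ≤ Om) :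
    |ex (fun n : Fin Y => u n * ∏ i ∈ range k, w i (Tn TT (n + a + i * d))) -
      ex (fun n : Fin Y => u n) * ∏ i ∈ range k, Em TT (w i)| ≤
      ex (fun n : Fin Y => |u n|) * Om ^ k * tauI k N M := by
  have h := ind_nat_prod (σ := Fin k) TT hT hM0 hM (fun i => a + i * d)
    (fun i j e => Fin.ext (Nat.eq_of_mul_eq_mul_right hd0 (Nat.add_left_cancel e))) hN1
    (fun i j => by
      have h1 : ((i : ℕ) : ℝ) ≤ k := by exact_mod_cast i.2.le
      have h2 : (0 : ℝ) ≤ (j : ℕ) * (d : ℝ) := by positivity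
      have h3 : ((i : ℕ) : ℝ) * d ≤ k * d := by gcongr
      push_cast; linarith)
    hQ hY hd u hu.step (fun i => w i) (fun _ => Om) (fun i => h0 i i.2) fun i => hK i i.2
  rw [ex_avN Y fun n => u n * ∏ i ∈ range k, w i (Tn TT (n + a + i * d)), ex_avN Y u,
    ex_avN Y fun n => |u n|]
  simp only [prod_const, card_univ, Fintype.card_fin, ← add_assoc] at h
  simp only [← Fin.prod_univ_eq_prod_range]
  simpa only [Fin.prod_univ_eq_prod_range (fun i => w i _), EM_eq] using h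

/-- decorrelation of `s` from all functions of the primes of `TT` -/
def Dec (s : ℕ → ℝ) (Z : ℕ) (TT : Finset ℕ) (θ : ℝ) : Prop :=
  ∀ (W : ℕ → ℝ) (B : ℝ), (∀ n, W (n + pv TT) = W n) → (∀ n, |W n| ≤ B) →
    |(∑ n ∈ range Z, s n * W n) / Z -
      (∑ n ∈ range Z, s n) / Z * ((∑ n ∈ range Z, W n) / Z)| ≤ B * θ

theorem Dec.mono {s : ℕ → ℝ} {Z : ℕ} {T T' : Finset ℕ} {θ : ℝ} (h : Dec s Z T θ) (hT : T' ⊆ T) :
    Dec s Z T' θ := fun W B hW hB => h W B (fun n => by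
  obtain ⟨c, hc⟩ : pv T' ∣ pv T := prod_dvd_prod_of_subset _ _ _ hT
  exact per_mod hW (by rw [hc]; simp [Nat.ModEq])) hB

theorem Dec.of_one {s : ℕ → ℝ} {Z : ℕ} {T : Finset ℕ} {θ : ℝ}
    (h : ∀ W : ℕ → ℝ, (∀ n, W (n + pv T) = W n) → (∀ n, |W n| ≤ 1) →
      |(∑ n ∈ range Z, s n * W n) / Z -
        (∑ n ∈ range Z, s n) / Z * ((∑ n ∈ range Z, W n) / Z)| ≤ θ) : Dec s Z T θ := by
  intro W B hW hB
  rcases ((abs_nonneg _).trans (hB 0)).eq_or_lt with rfl | B0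
  · have : W = fun _ => 0 := funext fun n => abs_nonpos_iff.1 (hB n)
    simp [this]
  · have k := h (fun n => W n / B) (fun n => by rw [hW]) fun n => by
      rw [abs_div, abs_of_pos B0, div_le_one B0]; exact hB n
    simp only [← mul_div_assoc, ← sum_div] at k
    rw [← div_le_iff₀' B0, ← abs_of_pos B0, ← abs_div]
    refine le_of_eq_of_le (congrArg _ ?_) k
    ring

/-- the correlation at `m` -/
noncomputable def cor (k m : ℕ) : ℝ := ∏ i ∈ range k, lam (m + i)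

theorem abs_cor (k m : ℕ) : |cor k m| = 1 := by
  simp only [cor, abs_prod, Ch.abs_lam, prod_const_one]

/-- the bias on one progression -/
theorem bias_cell (TT : Finset ℕ) (hT : ∀ q ∈ TT, q.Prime) {M N : ℝ} (hM0 : 0 < M)
    (hM : ∀ q ∈ TT, M ≤ q) (k a : ℕ) {d Y Z : ℕ} (hd0 : 0 < d) (hN1 : 1 ≤ N) (hN : (k : ℝ) ≤ N)
    (hc : ∀ q ∈ TT, d.Coprime q) (hY : 0 < Y) (hd : d * pv TT ∣ Y) (hZ : pv TT ∣ Z) {ε θ Om : ℝ}
    (hZ0 : 0 < Z) (hε : 0 ≤ ε) (h1 : (Y : ℝ) ≤ (1 + ε) * (d * Z))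
    (h2 : (d : ℝ) * Z ≤ (1 + ε) * Y) (hD : Dec (cor k) Z TT θ)
    (w : ℕ → Finset ℕ → ℝ) (h0 : ∀ i < k, ∀ A ⊆ TT, 0 ≤ w i A)
    (hK : ∀ i < k, ∀ A ⊆ TT, w i A ≤ Om) :
    |d * ex (fun n : Fin Y => if d ∣ n + a then
        lam d ^ k * ∏ i ∈ range k, w i (Tn TT (n + a + i * d)) * lam (n + a + i * d) else 0) -
      (∑ m ∈ range Z, cor k m) / Z * ∏ i ∈ range k, Em TT (w i)| ≤
      2 * ε * ∏ i ∈ range k, Em TT (w i) +
        Om ^ k * (θ + (1 + 2 * ε) * tauI k N M + (2 * a + 2) * d / Y) := by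
  have hZr : (0 : ℝ) < Z := by exact_mod_cast hZ0
  set W : ℕ → ℝ := fun m => ∏ i ∈ range k, w i (Tn TT (m + i)) with hW
  have W0 : ∀ m, 0 ≤ W m := fun m =>
    prod_nonneg fun i hi => h0 i (mem_range.1 hi) _ (Tn_subset _ _)
  have pb : ∀ x : ℕ → ℕ, ∏ i ∈ range k, w i (Tn TT (x i)) ≤ Om ^ k := fun x =>
    (prod_le_prod (fun i hi => h0 i (mem_range.1 hi) _ (Tn_subset _ _))
      fun i hi => hK i (mem_range.1 hi) _ (Tn_subset _ _)).trans (by simp)
  have Wp : Per (pv TT) W := fun x y h => prod_congr rfl fun i _ =>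
    congrArg (w i) (per_Tn1 (fun q hq => dvd_pv hq) i x y h)
  have k1 := bias_one (d := d) (q := pv TT) (Y := Y) (Z := Z) a (ε := ε) (B := Om ^ k)
    (s := cor k) (W := W) (F := fun n => if d ∣ n then
      lam d ^ k * ∏ i ∈ range k, w i (Tn TT (n + i * d)) * lam (n + i * d) else 0) hd0 hY
    (fun n => (abs_cor k n).le) W0 (fun m => pb _) Wp hd hZ hZ0 h1 h2
    (fun m hm => by
      rw [if_pos (dvd_mul_right d m), cor, ← prod_mul_distrib,
        ← card_range k, ← prod_const, card_range, ← prod_mul_distrib]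
      refine prod_congr rfl fun i _ => ?_
      rw [show d * m + i * d = d * (m + i) by ring, Tn_mul hc, Ch.lam_mul hd0.ne' (by omega)]
      have := Ch.lam_sq d
      linear_combination (w i (Tn TT (m + i)) * lam (m + i)) * this)
    (fun n hn => if_neg hn)
    (fun n => by
      split_ifs
      · rw [abs_mul, abs_pow, Ch.abs_lam, one_pow, one_mul, prod_mul_distrib, abs_mul,
          abs_prod (f := fun i => lam (n + i * d))]
        simp only [Ch.abs_lam, prod_const_one, mul_one]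
        rw [abs_of_nonneg (prod_nonneg fun i hi => h0 i (mem_range.1 hi) _ (Tn_subset _ _))]
        exact pb _
      · rw [abs_zero]; exact (W0 0).trans (pb _))
  have k2 := hD W (Om ^ k) Wp.step fun n => by rw [abs_of_nonneg (W0 n)]; exact pb _
  have : Nonempty (Fin Z) := ⟨⟨0, hZ0⟩⟩
  have k3 := ind_prog TT hT hM0 hM k 0 1 one_pos hN1 (by simpa using hN) (Q := 1) (Y := Z)
    (fun q _ => Nat.coprime_one_left q) hZ0 (by simpa using hZ) (fun _ => 1) (fun _ _ _ => rfl)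
    w h0 hK
  simp only [one_mul, add_zero, mul_one, abs_one, ex_const] at k3
  rw [ex_fin Z W] at k3
  set e := (∑ m ∈ range Z, W m) / Z
  set β := (∑ m ∈ range Z, cor k m) / Z
  set π := ∏ i ∈ range k, Em TT (w i)
  have hβ : |β| ≤ 1 := by
    rw [abs_div, abs_of_pos hZr, div_le_one hZr]
    refine (abs_sum_le_sum_abs _ _).trans (le_of_eq ?_)
    simp [abs_cor]
  have k4 : |β * e - β * π| ≤ Om ^ k * tauI k N M := by
    rw [← mul_sub, abs_mul]
    exact (mul_le_of_le_one_left (abs_nonneg _) hβ).trans k3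
  have k5 : 2 * ε * e ≤ 2 * ε * (π + Om ^ k * tauI k N M) :=
    mul_le_mul_of_nonneg_left (by linarith [(abs_le.1 k3).2]) (by positivity)
  have e1 : (2 * a + 2) * d * Om ^ k / (Y : ℝ) = Om ^ k * ((2 * a + 2) * d / Y) := by ring
  rw [e1] at k1
  rw [abs_le] at k1 k2 k4 ⊢
  constructor <;> nlinarith [k1.1, k1.2, k2.1, k2.2, k4.1, k4.2]

/-- the mass of an event at the site number `i` of one progression -/
theorem mass_cell (TT L : Finset ℕ) (hT : ∀ q ∈ TT, q.Prime) (hL : ∀ q ∈ L, q.Prime) {M N : ℝ}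
    (hM0 : 0 < M) (hM : ∀ q ∈ TT, M ≤ q) (k a i : ℕ) {c : Finset ℕ} {p Y : ℕ} (hp : p.Prime)
    (hc : c ⊆ L) (hpL : p ∉ L) (hpT : p ∉ TT) (hLT : Disjoint L TT) (hN1 : 1 ≤ N)
    (hN : (k : ℝ) * (pv c * p : ℕ) ≤ N) (hY : 0 < Y) (hd : pv L * p * pv TT ∣ Y) {Om : ℝ}
    (F : Finset ℕ → ℝ) (hF : ∀ A ⊆ L, 0 ≤ F A)
    (w : ℕ → Finset ℕ → ℝ) (h0 : ∀ i < k, ∀ A ⊆ TT, 0 ≤ w i A)
    (hK : ∀ i < k, ∀ A ⊆ TT, w i A ≤ Om) :
    ex (fun n : Fin Y => (if pv c * p ∣ n + a then F (Tn L (n + a + i * (pv c * p))) else 0) *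
        ∏ j ∈ range k, w j (Tn TT (n + a + j * (pv c * p)))) ≤
      1 / p * Em L (fun A => if c ⊆ A then F A else 0) *
        (∏ j ∈ range k, Em TT (w j) + Om ^ k * tauI k N M) := by
  have hcp : ∀ q ∈ c, q.Prime := fun q hq => hL q (hc hq)
  have c0 : 0 < pv c := Ch.Main.pv_pos hcp
  have d0 : 0 < pv c * p := Nat.mul_pos c0 hp.pos
  have cop : ∀ S : Finset ℕ, (∀ q ∈ S, q.Prime) → ∀ r : ℕ, r.Prime → r ∉ S → (pv S).Coprime r :=
    fun S hS r hr hn => Nat.Coprime.prod_left fun q hq =>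
      (Nat.coprime_primes (hS q hq) hr).2 fun e => hn (e ▸ hq)
  set d := pv c * p with hdd
  set u : ℕ → ℝ := fun n => if d ∣ n + a then F (Tn L (n + a + i * d)) else 0 with hu
  have u0 : ∀ n, 0 ≤ u n := fun n => by
    simp only [hu]; split_ifs
    · exact hF _ (Tn_subset _ _)
    · rfl
  have cL : pv c ∣ pv L := prod_dvd_prod_of_subset _ _ _ hc
  have ue : ∀ n, u n = (if c ⊆ Tn L (n + (a + i * d)) then F (Tn L (n + (a + i * d))) else 0) *
      if p ∣ n + a then 1 else 0 := fun n => by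
    have e1 : c ⊆ Tn L (n + (a + i * d)) ↔ pv c ∣ n + a := by
      have e2 : pv c ∣ n + (a + i * d) ↔ pv c ∣ n + a := by
        rw [← add_assoc]
        exact (Nat.dvd_add_iff_left ((dvd_mul_right _ p).mul_left i)).symm
      rw [← e2]
      refine ⟨fun h => prod_primes_dvd _ (fun q hq => (hcp q hq).prime)
        fun q hq => (mem_filter.1 (h hq)).2, fun h q hq => mem_filter.2 ⟨hc hq, (dvd_pv hq).trans h⟩⟩
    have e3 : d ∣ n + a ↔ pv c ∣ n + a ∧ p ∣ n + a :=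
      ⟨fun h => ⟨(dvd_mul_right _ _).trans h, (dvd_mul_left _ _).trans h⟩,
        fun h => (cop c hcp p hp fun h => hpL (hc h)).mul_dvd_of_dvd_of_dvd h.1 h.2⟩
    simp only [hu, e1, e3, add_assoc]
    by_cases a1 : pv c ∣ n + a <;> by_cases a2 : p ∣ n + a <;> simp [a1, a2]
  have p1 : Per (pv L) fun n =>
      if c ⊆ Tn L (n + (a + i * d)) then F (Tn L (n + (a + i * d))) else 0 :=
    (per_Tn1 (fun q hq => dvd_pv hq) (a + i * d)).comp fun A => if c ⊆ A then F A else 0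
  have p2 : Per p fun n => if p ∣ n + a then (1 : ℝ) else 0 := fun x y h => by
    simp only [per_dvd dvd_rfl a x y h]
  have up : Per (pv L * p) u := fun x y h => by
    rw [ue, ue]
    exact congrArg₂ _ (p1 x y (h.of_dvd (dvd_mul_right _ _))) (p2 x y (h.of_dvd (dvd_mul_left _ _)))
  have eu : ex (fun n : Fin Y => u n) = 1 / p * Em L (fun A => if c ⊆ A then F A else 0) := by
    have hLp : pv L * p ∣ Y := (dvd_mul_right _ _).trans hd
    rw [ex_congr fun n : Fin Y => ue n, ex_per_mul hY (cop L hL p hp hpL) hLp p1 p2, mul_comm]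
    congr 1
    · have := ex_fin_Em (P := {p}) (by simpa using hp) (Y := Y)
        (by simpa [pv] using (dvd_mul_left _ _).trans hLp) hY a fun A => if p ∈ A then 1 else 0
      rw [Em_ind_mem (mem_singleton_self p)] at this
      rw [← this]
      exact ex_congr fun n => by simp
    · exact ex_fin_Em hL ((dvd_mul_right _ _).trans hLp) hY (a + i * d)
        fun A => if c ⊆ A then F A else 0
  have h := ind_prog TT hT hM0 hM k a d d0 hN1 hN (Q := pv L * p)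
    (fun q hq => Nat.Coprime.mul_left (cop L hL q (hT q hq) fun h => disjoint_left.1 hLT h hq)
      ((Nat.coprime_primes hp (hT q hq)).2 fun e => hpT (e ▸ hq))) hY hd u up w h0 hK
  simp only [abs_of_nonneg (u0 _)] at h
  rw [eu] at h
  have := (abs_le.1 h).2
  rw [mul_add]
  linarith

end Pool.Agent.P.MP_a14ce1_nt.Fu
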