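import Pool.Agent.P.MP_a14ce1_nt.Fu.BiasB

/-!
Sums over a family of progressions: MASS and BIAS without parameters.
-/

open Finset

namespace Pool.Agent.P.MP_a14ce1_nt.Fu

open Ch (mu pv lam)
open Ch.Main (Tn)

theorem Tn_erase (H : Finset ℕ) (p n : ℕ) : Tn (H.erase p) n = (Tn H n).erase p := by
  ext q; simp only [Tn, mem_filter, mem_erase]; tauto

theorem pv_erase {H : Finset ℕ} {p : ℕ} (hp : p ∈ H) : p * pv (H.erase p) = pv H :=
  mul_prod_erase H (fun q => q) hp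

theorem Em_erase {H : Finset ℕ} {p : ℕ} {W : Finset ℕ → ℝ} (h : ∀ A, W (A.erase p) = W A) :
    Em (H.erase p) W = Em H W := by
  rw [← Em_inter (erase_subset p H) W]
  refine Em_congr fun A hA => ?_
  rw [← h A]
  congr 1
  ext q; simp only [mem_inter, mem_erase]
  exact ⟨fun c => ⟨c.2.1, c.1⟩, fun c => ⟨c.2, c.1, hA c.2⟩⟩

theorem pv_cop {S T : Finset ℕ} (hS : ∀ q ∈ S, q.Prime) (hT : ∀ q ∈ T, q.Prime)
    (h : Disjoint S T) : ∀ q ∈ T, (pv S).Coprime q := fun r hr =>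
  Nat.Coprime.prod_left fun q hq =>
    (Nat.coprime_primes (hS q hq) (hT r hr)).2 fun e => disjoint_left.1 h hq (e ▸ hr)

/-- the data of a family of progressions -/
structure Prog (k N Y : ℕ) (L H : Finset ℕ) (CS : Finset (Finset ℕ)) (PS : Finset ℕ → Finset ℕ)
    (v : Finset ℕ → ℕ → ℝ) (W : ℕ → Finset ℕ → ℝ) (Om M : ℝ) : Prop where
  pL : ∀ q ∈ L, q.Prime
  pH : ∀ q ∈ H, q.Prime
  dis : Disjoint L H
  M0 : 0 < M
  big : ∀ q ∈ H, M ≤ q
  cs : ∀ c ∈ CS, c ⊆ L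
  ps : ∀ c ∈ CS, PS c ⊆ H
  v0 : ∀ c ∈ CS, ∀ p ∈ PS c, 0 ≤ v c p
  W0 : ∀ p, ∀ A ⊆ H, 0 ≤ W p A
  W1 : ∀ p, ∀ A ⊆ H, W p A ≤ Om
  Wp : ∀ c ∈ CS, ∀ p ∈ PS c, ∀ A, W p (A.erase p) = W p A
  mean : ∀ c ∈ CS, ∀ p ∈ PS c, Em H (W p) ≤ 1
  N0 : 0 < N
  Y0 : 0 < Y
  dvd : pv L * pv H ∣ Y

variable {k N Y : ℕ} {L H : Finset ℕ} {CS : Finset (Finset ℕ)} {PS : Finset ℕ → Finset ℕ}
  {v : Finset ℕ → ℕ → ℝ} {W : ℕ → Finset ℕ → ℝ} {Om M : ℝ}

/-- MASS -/
theorem Prog.mass (h : Prog k N Y L H CS PS v W Om M) (i : ℕ)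
    (hd : ∀ c ∈ CS, ∀ p ∈ PS c, k * (pv c * p) ≤ N) (hτ : Om ^ k * tauI k N M ≤ 1)
    {wc : Finset ℕ → ℝ} (hw : ∀ c, 0 ≤ wc c) (hv : ∀ c ∈ CS, N * ∑ p ∈ PS c, v c p / p ≤ wc c)
    (I : Finset ℕ → ℕ → Finset ℕ) (hI : ∀ c p, (I c p).card ≤ N)
    (F : Finset ℕ → Finset ℕ → ℝ) (hF : ∀ c, ∀ A ⊆ L, 0 ≤ F c A) :
    ex (fun n : Fin Y => ∑ c ∈ CS, ∑ p ∈ PS c, ∑ a ∈ I c p, v c p *
      ((if pv c * p ∣ n + a then F c (Tn L (n + a + i * (pv c * p))) else 0) *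
        ∏ j ∈ range k, W p (Tn H (n + a + j * (pv c * p))))) ≤ 2 * Et L wc F := by
  have hN1 : (1 : ℝ) ≤ N := by exact_mod_cast h.N0
  set e : Finset ℕ → ℝ := fun c => Em L fun A => if c ⊆ A then F c A else 0 with he
  have e0 : ∀ c, 0 ≤ e c := fun c => Em_nonneg fun A hA => by
    split_ifs
    · exact hF c A hA
    · rfl
  have k1 : Et L wc F = ∑ c ∈ L.powerset, wc c * e c := by
    unfold Et
    rw [Em_congr fun A hA => sum_sub_eq hA _, Em_sum]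
    refine sum_congr rfl fun c _ => ?_
    rw [he, ← Em_mul]
    exact Em_congr fun A _ => by split_ifs <;> simp
  rw [k1, ex_sum, mul_sum]
  refine le_trans (sum_le_sum fun c hc => ?_) (sum_le_sum_of_subset_of_nonneg
    (fun c hc => mem_powerset.2 (h.cs c hc)) fun c _ _ => by have := hw c; have := e0 c; positivity)
  rw [ex_sum]
  calc _ ≤ ∑ p ∈ PS c, N * (v c p / p) * (2 * e c) := sum_le_sum fun p hp => ?_
    _ = N * (∑ p ∈ PS c, v c p / p) * (2 * e c) := by rw [mul_sum, sum_mul]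
    _ ≤ wc c * (2 * e c) := mul_le_mul_of_nonneg_right (hv c hc) (by have := e0 c; positivity)
    _ = _ := by ring
  have hpH := h.ps c hc hp
  have v0 := h.v0 c hc p hp
  rw [ex_sum]
  calc _ ≤ ∑ _a ∈ I c p, v c p / p * (2 * e c) := sum_le_sum fun a _ => ?_
    _ = (I c p).card * (v c p / p * (2 * e c)) := by rw [sum_const, nsmul_eq_mul]
    _ ≤ N * (v c p / p * (2 * e c)) :=
      mul_le_mul_of_nonneg_right (by exact_mod_cast hI c p) (by have := e0 c; positivity)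
    _ = _ := by ring
  rw [ex_mul]
  have k2 := mass_cell (H.erase p) L (fun q hq => h.pH q (mem_of_mem_erase hq)) h.pL h.M0
    (fun q hq => h.big q (mem_of_mem_erase hq)) k a i (h.pH p hpH) (h.cs c hc)
    (fun c => disjoint_left.1 h.dis c hpH) (notMem_erase p H)
    (h.dis.mono_right (erase_subset p H)) hN1 (by exact_mod_cast hd c hc p hp) h.Y0
    (by rw [mul_assoc, pv_erase hpH]; exact h.dvd) (F c) (hF c) (fun _ => W p)
    (fun _ _ A hA => h.W0 p A (hA.trans (erase_subset _ _)))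
    fun _ _ A hA => h.W1 p A (hA.trans (erase_subset _ _))
  simp only [Tn_erase, h.Wp c hc p hp, Em_erase (h.Wp c hc p hp), prod_const, card_range] at k2
  have k3 : Em H (W p) ^ k ≤ 1 := pow_le_one₀ (Em_nonneg (h.W0 p)) (h.mean c hc p hp)
  refine (mul_le_mul_of_nonneg_left (k2.trans (mul_le_mul_of_nonneg_left (add_le_add k3 hτ)
    (by have := e0 c; positivity))) v0).trans (le_of_eq ?_)
  simp only [he]
  ring

/-- BIAS -/
theorem Prog.bias (h : Prog k N Y L H CS PS v W Om M) {Z : ℕ} {ε θ η dm σ : ℝ} (hk : k ≤ N)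
    (hZ : pv H ∣ Z) (hZ0 : 0 < Z) (hD : Dec (cor k) Z H θ) (hθ : 0 ≤ θ) (hσ : |σ| = 1)
    (hβ0 : 0 ≤ σ * ((∑ m ∈ range Z, cor k m) / Z))
    (h1 : ∀ c ∈ CS, ∀ p ∈ PS c, (Y : ℝ) ≤ (1 + ε) * ((pv c * p : ℕ) * Z))
    (h2 : ∀ c ∈ CS, ∀ p ∈ PS c, ((pv c * p : ℕ) : ℝ) * Z ≤ (1 + ε) * Y) (hε : 0 ≤ ε)
    (h3 : ∀ c ∈ CS, ∀ p ∈ PS c, ((pv c * p : ℕ) : ℝ) ≤ dm)
    (hη : η ≤ 1) (hm : ∀ c ∈ CS, ∀ p ∈ PS c, 1 - η ≤ Em H (W p))
    (hv : N * ∑ c ∈ CS, ∑ p ∈ PS c, v c p / (pv c * p : ℕ) = 1)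
    (I : Finset ℕ → ℕ → Finset ℕ) (hI : ∀ c p, I c p ⊆ range N)
    (hI2 : ∀ c ∈ CS, ∀ p ∈ PS c, N ≤ 2 * (I c p).card) :
    σ * ((∑ m ∈ range Z, cor k m) / Z) * (1 - η) ^ k / 2 -
      (2 * ε + Om ^ k * (θ + (1 + 2 * ε) * tauI k N M + 2 * N * dm / Y)) ≤
    σ * ex fun n : Fin Y => ∑ c ∈ CS, ∑ p ∈ PS c, ∑ a ∈ I c p, v c p *
      if pv c * p ∣ n + a then lam (pv c * p) ^ k * ∏ j ∈ range k,
        W p (Tn H (n + a + j * (pv c * p))) * lam (n + a + j * (pv c * p)) else 0 := by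
  have hN1 : (1 : ℝ) ≤ N := by exact_mod_cast h.N0
  have hYr : (0 : ℝ) < Y := by exact_mod_cast h.Y0
  set β := (∑ m ∈ range Z, cor k m) / Z with hβ
  set E := 2 * ε + Om ^ k * (θ + (1 + 2 * ε) * tauI k N M + 2 * N * dm / Y) with hE
  set x : Finset ℕ → ℕ → ℕ → ℝ := fun c p a => ex fun n : Fin Y =>
    if pv c * p ∣ n + a then lam (pv c * p) ^ k * ∏ j ∈ range k,
      W p (Tn H (n + a + j * (pv c * p))) * lam (n + a + j * (pv c * p)) else 0 with hx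
  have Om0 : 0 ≤ Om := (h.W0 0 ∅ (empty_subset _)).trans (h.W1 0 ∅ (empty_subset _))
  have t0 := tauI_nonneg k hN1 h.M0
  have d0 : ∀ c ∈ CS, ∀ p ∈ PS c, 0 < pv c * p := fun c hc p hp => Nat.mul_pos
    (Ch.Main.pv_pos fun q hq => h.pL q (h.cs c hc hq)) (h.pH p (h.ps c hc hp)).pos
  have k1 : ∀ c ∈ CS, ∀ p ∈ PS c, ∀ a ∈ I c p,
      |(pv c * p : ℕ) * x c p a - β * Em H (W p) ^ k| ≤ E := fun c hc p hp a ha => by
    have hpH := h.ps c hc hp
    have hpr : ∀ q ∈ H.erase p, q.Prime := fun q hq => h.pH q (mem_of_mem_erase hq)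
    have k2 := bias_cell (H.erase p) hpr h.M0 (fun q hq => h.big q (mem_of_mem_erase hq)) k a
      (d0 c hc p hp) hN1 (by exact_mod_cast hk)
      (fun q hq => Nat.Coprime.mul_left
        (pv_cop (fun q hq => h.pL q (h.cs c hc hq)) hpr
          (h.dis.mono (h.cs c hc) (erase_subset _ _)) q hq)
        ((Nat.coprime_primes (h.pH p hpH) (hpr q hq)).2 (ne_of_mem_erase hq).symm)) h.Y0
      (by rw [mul_assoc, pv_erase hpH]
          exact (mul_dvd_mul_right (prod_dvd_prod_of_subset _ _ _ (h.cs c hc)) _).trans h.dvd)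
      ((prod_dvd_prod_of_subset _ _ _ (erase_subset p H)).trans hZ) hZ0 hε (h1 c hc p hp) (h2 c hc p hp)
      (hD.mono (erase_subset p H)) (fun _ => W p)
      (fun _ _ A hA => h.W0 p A (hA.trans (erase_subset _ _)))
      fun _ _ A hA => h.W1 p A (hA.trans (erase_subset _ _))
    simp only [Tn_erase, h.Wp c hc p hp, Em_erase (h.Wp c hc p hp), prod_const, card_range] at k2
    refine k2.trans (add_le_add (mul_le_of_le_one_right (by positivity)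
      (pow_le_one₀ (Em_nonneg (h.W0 p)) (h.mean c hc p hp))) ?_)
    have a1 : (2 * a + 2 : ℝ) ≤ 2 * N := by
      have : a + 1 ≤ N := mem_range.1 (hI c p ha)
      have : (a : ℝ) + 1 ≤ N := by exact_mod_cast this
      linarith
    have a2 := h3 c hc p hp
    gcongr
  have k0 : (ex fun n : Fin Y => ∑ c ∈ CS, ∑ p ∈ PS c, ∑ a ∈ I c p, v c p *
      if pv c * p ∣ n + a then lam (pv c * p) ^ k * ∏ j ∈ range k,
        W p (Tn H (n + a + j * (pv c * p))) * lam (n + a + j * (pv c * p)) else 0) =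
      ∑ c ∈ CS, ∑ p ∈ PS c, ∑ a ∈ I c p, v c p * x c p a := by
    simp only [ex_sum, ex_mul, hx]
  rw [k0]
  set b := σ * β * (1 - η) ^ k with hb
  have b0 : 0 ≤ b := mul_nonneg hβ0 (pow_nonneg (by linarith) _)
  have k4 : ∀ c ∈ CS, ∀ p ∈ PS c, N * (v c p / (pv c * p : ℕ)) * (b / 2 - E) ≤
      σ * ∑ a ∈ I c p, v c p * x c p a := fun c hc p hp => by
    have dr : (0 : ℝ) < (pv c * p : ℕ) := by exact_mod_cast d0 c hc p hp
    have u0 : 0 ≤ v c p / (pv c * p : ℕ) := div_nonneg (h.v0 c hc p hp) dr.le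
    have E0 : 0 ≤ E := by
      have := dr.le.trans (h3 c hc p hp)
      positivity
    have c1 : ((I c p).card : ℝ) ≤ N := by
      exact_mod_cast (card_le_card (hI c p)).trans (card_range N).le
    have c2 : (N : ℝ) ≤ 2 * (I c p).card := by exact_mod_cast hI2 c hc p hp
    rw [mul_sum]
    calc _ ≤ (I c p).card * (v c p / (pv c * p : ℕ) * (b - E)) := by
          have a1 := mul_le_mul_of_nonneg_right c1 (mul_nonneg u0 E0)
          have a2 := mul_le_mul_of_nonneg_right c2 (mul_nonneg u0 b0)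
          nlinarith
      _ = ∑ _a ∈ I c p, v c p / (pv c * p : ℕ) * (b - E) := by rw [sum_const, nsmul_eq_mul]
      _ ≤ _ := sum_le_sum fun a ha => ?_
    have a1 : σ * (v c p * x c p a) =
        v c p / (pv c * p : ℕ) * (σ * ((pv c * p : ℕ) * x c p a)) := by field_simp
    rw [a1]
    refine mul_le_mul_of_nonneg_left ?_ u0
    have a2 : |σ * ((pv c * p : ℕ) * x c p a - β * Em H (W p) ^ k)| ≤ E := by
      rw [abs_mul, hσ, one_mul]; exact k1 c hc p hp a ha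
    have a3 : b ≤ σ * β * Em H (W p) ^ k :=
      mul_le_mul_of_nonneg_left (pow_le_pow_left₀ (by linarith) (hm c hc p hp) k) hβ0
    have a4 := (abs_le.1 a2).1
    rw [mul_sub, ← mul_assoc σ β] at a4
    linarith
  calc b / 2 - E = ∑ c ∈ CS, ∑ p ∈ PS c, N * (v c p / (pv c * p : ℕ)) * (b / 2 - E) := by
        simp only [← sum_mul, ← mul_sum, hv, one_mul]
    _ ≤ σ * ∑ c ∈ CS, ∑ p ∈ PS c, ∑ a ∈ I c p, v c p * x c p a := by
        rw [mul_sum]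
        refine sum_le_sum fun c hc => ?_
        rw [mul_sum]
        exact sum_le_sum fun p hp => k4 c hc p hp

end Pool.Agent.P.MP_a14ce1_nt.Fu
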