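import Pool.Agent.P.MP_a14ce1_nt.Fu.GvW
import Pool.Agent.P.MP_a14ce1_nt.Top

/-! The one-cell lemma of section 7: dense model, von Neumann estimate, inverse theorem, converse. -/

open Finset
open scoped ComplexConjugate

namespace Pool.Agent.P.MP_a14ce1_nt.Fu

open V (dy cube gow win)
open Ax (res pc Good)

/-- closure under translation to the right -/
def Sh (B : Set (ℕ → ℂ)) : Prop := ∀ a ∈ B, ∀ x : ℕ, ∃ b ∈ B, ∀ m, b (x + m) = a m

/-- One cell. The atom system and the exponent depend on r, D, δ only. -/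
def S_Cell : Prop := ∀ (r D : ℕ) (δ : ℝ), 0 < δ → ∃ (A : Set (ℤ → ℂ)) (C : ℕ), Good A ∧
  Sh (res A) ∧ ∀ (Om : ℝ) (H Y : ℕ) (P : Finset ℕ) (θ φ : ℕ → ℂ) (w wb : ℕ → ℝ),
    2 ≤ Om → Om ^ C ≤ H → 2 ≤ Y → Y ≤ H → H ≤ D * Y → P ⊆ dy Y → (∀ p, ‖θ p‖ ≤ 1) →
    (∀ m < H, ‖φ m‖ ≤ w m ∧ w m ≤ Om ∧ 0 ≤ wb m ∧ wb m ≤ 1) →
    ∃ a ∈ res A, ‖form r H P θ fun _ => φ‖ * Real.log Y ≤
      δ * H + C * ‖∑ m ∈ range H, pc φ a m‖ +
        Real.exp (Om ^ C) * cube r (fun m => ((w m - wb m : ℝ) : ℂ)) 0 H * H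

namespace C7

theorem cube_congr {k H : ℕ} {f g : ℕ → ℂ} (h : ∀ m < H, f m = g m) :
    cube k f 0 H = cube k g 0 H := by
  unfold cube
  congr 2
  ext n
  unfold win
  split_ifs with hn
  · exact h _ (by omega)
  · rfl

theorem cube_smul (k x H : ℕ) (z : ℂ) (f : ℕ → ℂ) :
    cube k (fun m => z * f m) x H = ‖z‖ ^ 2 ^ (k + 1) * cube k f x H := by
  rw [Nil.cube_eq_U, Nil.cube_eq_U, ← mul_div_assoc, ← Nil.U_smul]
  congr 2
  ext n
  unfold win
  split_ifs <;> simp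

theorem cube_le' (k : ℕ) {H : ℕ} {f : ℕ → ℂ} (hf : ∀ m < H, ‖f m‖ ≤ 1) : cube k f 0 H ≤ 2 ^ k := by
  rw [cube_congr (g := fun m => if m < H then f m else 0) fun m hm => (if_pos hm).symm]
  refine V.cube_le k (fun m => ?_) 0 H
  split_ifs with h
  · exact hf m h
  · simp

theorem prod_tele (a b : ℕ → ℂ) (n : ℕ) : ∏ i ∈ range n, a i - ∏ i ∈ range n, b i =
    ∑ j ∈ range n, ∏ i ∈ range n, (if i < j then b i else if i = j then a i - b i else a i) := by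
  induction n with
  | zero => simp
  | succ n ih =>
    rw [sum_range_succ]
    simp only [prod_range_succ]
    have e1 : ∑ j ∈ range n, (∏ i ∈ range n,
        (if i < j then b i else if i = j then a i - b i else a i)) *
        (if n < j then b n else if n = j then a n - b n else a n) =
        (∏ i ∈ range n, a i - ∏ i ∈ range n, b i) * a n := by
      rw [ih, sum_mul]
      refine sum_congr rfl fun j hj => ?_
      rw [mem_range] at hj
      rw [if_neg (by omega), if_neg (by omega)]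
    have e2 : ∏ i ∈ range n, (if i < n then b i else if i = n then a i - b i else a i) =
        ∏ i ∈ range n, b i := prod_congr rfl fun i hi => if_pos (mem_range.1 hi)
    rw [e1, e2, if_neg (lt_irrefl n), if_pos trivial]
    ring

theorem form_tele (r H : ℕ) (P : Finset ℕ) (θ φ ψ : ℕ → ℂ) :
    form r H P θ (fun _ => φ) - form r H P θ (fun _ => ψ) = ∑ j ∈ range (r + 1), form r H P θ
      fun i m => if i < j then ψ m else if i = j then φ m - ψ m else φ m := by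
  unfold form
  rw [← sum_sub_distrib, sum_comm]
  refine sum_congr rfl fun p _ => ?_
  rw [← mul_sub, ← mul_sum, ← sum_sub_distrib, sum_comm]
  congr 1
  exact sum_congr rfl fun m _ => prod_tele _ _ _

theorem form_smul (r H : ℕ) (P : Finset ℕ) (θ : ℕ → ℂ) (φ : ℕ → ℕ → ℂ) (z : ℂ) :
    form r H P θ (fun i m => z * φ i m) = z ^ (r + 1) * form r H P θ φ := by
  unfold form
  rw [mul_sum]
  refine sum_congr rfl fun p _ => ?_
  rw [mul_left_comm, mul_sum, mul_sum, mul_sum]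
  refine sum_congr rfl fun m _ => ?_
  rw [prod_mul_distrib, prod_const, card_range]

/-- the estimate for roles bounded by B -/
theorem gvn_bd (r D : ℕ) : ∃ C : ℝ, 1 ≤ C ∧ ∀ (H Y : ℕ) (P : Finset ℕ) (θ : ℕ → ℂ)
    (φ : ℕ → ℕ → ℂ) (i0 : ℕ) (B t : ℝ), 2 ≤ Y → Y ≤ H → H ≤ D * Y → P ⊆ dy Y → (∀ p, ‖θ p‖ ≤ 1) →
    i0 ≤ r → 1 ≤ B → 0 ≤ t → (∀ i ≤ r, i ≠ i0 → ∀ m < H, ‖φ i m‖ ≤ B) →
    C * cube r (φ i0) 0 H ≤ t ^ 2 ^ (r + 1) →
    ‖form r H P θ φ‖ * Real.log Y ≤ B ^ (r + 1) * t * H := by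
  obtain ⟨C, hC, h⟩ := gvn_win r D
  refine ⟨C, hC, fun H Y P θ φ i0 B t hY hYH hHY hP hθ hi hB ht hφ hc => ?_⟩
  have hB0 : 0 < B := by linarith
  have hH0 : (0 : ℝ) < H := by exact_mod_cast (show 0 < H by omega)
  have hn : ‖((B⁻¹ : ℝ) : ℂ)‖ = B⁻¹ := by
    rw [Complex.norm_real, Real.norm_of_nonneg (by positivity)]
  have h1 := h H Y P θ (fun i m => ((B⁻¹ : ℝ) : ℂ) * φ i m) i0 hY hYH hHY hP hθ hi
    fun i h1 h2 m h3 => by
      rw [norm_mul, hn, inv_mul_le_iff₀ hB0, mul_one]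
      exact hφ i h1 h2 m h3
  rw [form_smul, cube_smul, norm_mul, norm_pow, hn] at h1
  have h2 : C * (B⁻¹ ^ 2 ^ (r + 1) * cube r (φ i0) 0 H) ≤ t ^ 2 ^ (r + 1) := by
    refine le_trans (mul_le_mul_of_nonneg_left (mul_le_of_le_one_left (V.cube_nonneg _ _ _ _)
      (pow_le_one₀ (by positivity) (inv_le_one_of_one_le₀ hB))) (by linarith)) hc
  have h3 := (pow_le_pow_iff_left₀ (by
    have := Real.log_natCast_nonneg Y
    positivity) ht (by positivity)).1 (h1.trans h2)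
  rw [div_le_iff₀ hH0, inv_pow, mul_assoc, inv_mul_le_iff₀ (by positivity)] at h3
  linarith

/-- the converse of the inverse theorem in the degree of the inverse theorem -/
theorem conv_deg (T : GI.Ty) (k : ℕ) : ∃ C : ℕ, ∀ Q : ℝ, 2 ≤ Q → ∀ (φ : ℕ → ℂ) (x H : ℕ),
    (∀ n, ‖φ n‖ ≤ 1) → cube k φ x H ≤ 1 / Q ^ C → 0 < H → ∀ a ∈ res (AxGI.AT T k),
      ∀ b ∈ res (AxGI.AT T k), ‖∑ n ∈ Ico x (x + H), φ n * pc a b n‖ ≤ (H : ℝ) / Q := by
  obtain ⟨C, hC⟩ := Nil.conv_fin T.fil k T.pos T.L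
  refine ⟨C, fun Q hQ φ x H hφ hc hH a ha b hb => ?_⟩
  obtain ⟨ψ, h1, e1⟩ := AxGI.mem_res.1 ha
  obtain ⟨χ, h2, e2⟩ := AxGI.mem_res.1 hb
  obtain ⟨F, a1, a2, y, a3, a4⟩ := AxGI.at_sh h1 x
  obtain ⟨F', b1, b2, y', b3, b4⟩ := AxGI.at_sh h2 x
  have hQ0 : 0 < Q := by linarith
  have h0 : (0 : ℝ) < H := by exact_mod_cast hH
  rw [V.cube, div_le_iff₀ (pow_pos h0 _), ← one_div_pow] at hc
  have := hC (1 / Q) (by positivity) (one_div_le_one_div_of_le two_pos hQ) F F' a1 b1 a2 b2 y a3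
    y' b3 H _ (V.norm_win_le hφ x H) (fun n hn => if_neg hn) hc
  simp only [Ax.pc, e1, e2]
  rw [AxGI.sum_win φ x H fun n => ψ n * conj (χ n), div_eq_inv_mul, ← one_div]
  simpa only [← a4, ← b4] using this

/-- the dense model on a window of the natural numbers -/
theorem dm_nat (k H : ℕ) (w wb : ℕ → ℝ) (φ : ℕ → ℂ) {Om e η : ℝ} (h0 : 0 < η) (h1 : η ≤ 1)
    (he : 0 ≤ e) (hOm : 0 ≤ Om) (hH : 0 < H)
    (hw : ∀ m < H, ‖φ m‖ ≤ w m ∧ w m ≤ Om ∧ 0 ≤ wb m ∧ wb m ≤ 1)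
    (hU : cube k (fun m => ((w m - wb m : ℝ) : ℂ)) 0 H ≤ e ^ 2 ^ (k + 1)) :
    ∃ ψ : ℕ → ℂ, (∀ m, ‖ψ m‖ ≤ 1) ∧ cube k (fun m => φ m - ψ m) 0 H ≤
      (2 * η + Real.exp (3 / η ^ 2) * e) * (Om + 1) ^ (2 ^ (k + 1) - 1) * 2 ^ (k + 2) := by
  have hH0 : (0 : ℝ) < H := by exact_mod_cast hH
  obtain ⟨φt, t1, t2, t3⟩ := dm_int k H (fun n => w n.toNat) (fun n => wb n.toNat) (win φ 0 H)
    h0 h1 he hOm (fun n a b => (hw _ (by omega)).2.1) (fun n a b => (hw _ (by omega)).2.2.1)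
    (fun n a b => (hw _ (by omega)).2.2.2)
    (by
      rw [cube, div_le_iff₀ (by positivity)] at hU
      refine le_trans (le_of_eq ?_) (hU.trans ?_)
      · congr 1
        ext n
        unfold win
        split_ifs <;> simp
      · gcongr
        linarith)
    (fun n a b => by
      rw [win, if_pos ⟨a, b⟩, zero_add]
      exact (hw _ (by omega)).1)
    (Nil.win_supp φ 0 H)
  refine ⟨fun m => φt m, fun m => t1 m, ?_⟩
  rw [cube, div_le_iff₀ (by positivity), mul_assoc _ _ ((H : ℝ) ^ (k + 2)), ← mul_pow]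
  refine le_trans (le_of_eq ?_) t3
  congr 1
  ext n
  unfold win
  split_ifs with hn
  · beta_reduce
    rw [zero_add, Int.toNat_of_nonneg hn.1]
  · rw [zero_sub, eq_comm, neg_eq_zero]
    by_contra hc
    exact hn (t2 n hc)

theorem ex_pow (K : ℝ) (a : ℕ) : ∃ E : ℕ, ∀ x : ℝ, 2 ≤ x → K * x ^ a ≤ x ^ E := by
  obtain ⟨b, hb⟩ := pow_unbounded_of_one_lt K one_lt_two
  refine ⟨b + a, fun x hx => ?_⟩
  rw [pow_add]
  exact mul_le_mul_of_nonneg_right (hb.le.trans (pow_le_pow_left₀ two_pos.le hx b)) (by positivity)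

end C7

open C7

theorem cell_of (hG : ∀ k, GI.GIst k) (hA : ∀ T k, Good (AxGI.AT T k)) : S_Cell := by
  intro r D δ hδ
  obtain ⟨C1, hC1, hN⟩ := gvn_bd r D
  set n : ℕ := 2 ^ (r + 1) with hn
  have hn1 : 1 ≤ n := Nat.one_le_two_pow
  obtain ⟨T, c0, H0, hc0, hI⟩ := AxGI.gi_win (hG r) (δ := (δ / 2) ^ n / C1) (by positivity)
  obtain ⟨Cc, hV⟩ := conv_deg T r
  set c := min c0 1 with hc
  have hc1 : 0 < c := lt_min hc0 one_pos
  have hc2 : c ≤ 1 := min_le_right _ _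
  obtain ⟨E1, hE1⟩ := ex_pow (C1 * (2 * (r + 1) / δ) ^ n) (2 * (r + 1) * n)
  obtain ⟨E2, hE2⟩ := ex_pow ((2 / c) ^ Cc) (2 * Cc)
  obtain ⟨E3, hE3⟩ := ex_pow (3 * 2 ^ (r + 2)) (2 * (n - 1) + (E1 + E2))
  obtain ⟨E4, hE4⟩ := ex_pow (C1 * 2 ^ r) (r + 1 + E3 * n)
  obtain ⟨E5, hE5⟩ := ex_pow (1 + 3 * n) (E4 + 2 * E3)
  obtain ⟨E6, hE6⟩ := ex_pow H0 0
  obtain ⟨E7, hE7⟩ := exists_nat_ge (2 * (C1 * 2 ^ r) / c)
  refine ⟨AxGI.AT T r, E5 + E6 + E7, hA T r, fun a ha x => ?_,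
    fun Om H Y P θ φ w wb hOm hH hY hYH hHY hP hθ hw => ?_⟩
  · obtain ⟨ψ, h1, e1⟩ := AxGI.mem_res.1 ha
    exact ⟨fun m => ψ (m + -x), AxGI.mem_res.2 ⟨_, AxGI.at_sh h1 (-x), fun _ => rfl⟩, fun m => by
      rw [e1]; push_cast; rw [add_neg_cancel_comm]⟩
  have h1A : (fun _ => 1) ∈ res (AxGI.AT T r) := AxGI.mem_res.2 ⟨_, T.at_one r, fun _ => rfl⟩
  have hO1 : (1 : ℝ) ≤ Om := by linarith
  have hO2 : Om + 1 ≤ Om ^ 2 := by nlinarith
  have hH0 : (0 : ℝ) < H := by exact_mod_cast (show 0 < H by omega)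
  have hmono : ∀ a b : ℕ, a ≤ b → Om ^ a ≤ Om ^ b := fun a b h => pow_le_pow_right₀ hO1 h
  have hu := V.cube_nonneg r (fun m => ((w m - wb m : ℝ) : ℂ)) 0 H
  set u := cube r (fun m => ((w m - wb m : ℝ) : ℂ)) 0 H with hu'
  have hroot : C1 * 2 ^ r ≤ (C1 * 2 ^ r) ^ n :=
    le_self_pow₀ (one_le_mul_of_one_le_of_one_le hC1 (one_le_pow₀ one_le_two)) (by omega)
  set η : ℝ := (Om ^ E3)⁻¹ with hη
  have hη0 : 0 < η := by positivity
  have hη1 : η ≤ 1 := inv_le_one_of_one_le₀ (one_le_pow₀ hO1)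
  set e : ℝ := η * Real.exp (-(3 / η ^ 2)) with he
  have he0 : 0 < e := by positivity
  rcases le_or_gt u (e ^ n) with hU | hU
  swap
  · refine ⟨_, h1A, ?_⟩
    have h2 := hN H Y P θ (fun _ m => ((Om⁻¹ : ℝ) : ℂ) * φ m) 0 1 (C1 * 2 ^ r) hY hYH hHY hP hθ
      (Nat.zero_le _) le_rfl (by positivity)
    have h3 : ∀ m < H, ‖((Om⁻¹ : ℝ) : ℂ) * φ m‖ ≤ 1 := fun m hm => by
      rw [norm_mul, Complex.norm_real, Real.norm_of_nonneg (by positivity),
        inv_mul_le_iff₀ (by positivity), mul_one]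
      exact (hw m hm).1.trans (hw m hm).2.1
    have h4 := h2 (fun _ _ _ => h3)
      ((mul_le_mul_of_nonneg_left (cube_le' r h3) (by linarith)).trans hroot)
    rw [form_smul r H P θ (fun _ => φ), norm_mul, norm_pow, Complex.norm_real,
      Real.norm_of_nonneg (by positivity), one_pow, one_mul, inv_pow, mul_assoc,
      inv_mul_le_iff₀ (by positivity)] at h4
    have h5 : Om ^ (r + 1) * (C1 * 2 ^ r) ≤ Real.exp (Om ^ (E5 + E6 + E7)) * e ^ n := by
      have a1 : e ^ n = (Om ^ (E3 * n))⁻¹ * Real.exp (-(3 * n * Om ^ (2 * E3))) := by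
        rw [he, mul_pow, ← Real.exp_nat_mul, hη, inv_pow, ← pow_mul, inv_pow, ← pow_mul]
        congr 2
        rw [div_inv_eq_mul, mul_comm E3 2]
        ring
      have a2 : Om ^ E4 + 3 * n * Om ^ (2 * E3) ≤ Om ^ (E5 + E6 + E7) := by
        refine le_trans ?_ ((hE5 Om hOm).trans (hmono _ _ (by omega)))
        have := hmono E4 (E4 + 2 * E3) (by omega)
        have := mul_le_mul_of_nonneg_left (hmono (2 * E3) (E4 + 2 * E3) (by omega))
          (show (0 : ℝ) ≤ 3 * n by positivity)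
        linarith
      rw [a1, mul_left_comm (Real.exp _), ← Real.exp_add, le_inv_mul_iff₀ (by positivity),
        ← mul_assoc, ← pow_add, mul_comm, add_comm (E3 * n)]
      refine (hE4 Om hOm).trans ((by linarith [Real.add_one_le_exp (Om ^ E4)] :
        Om ^ E4 ≤ Real.exp (Om ^ E4)).trans (Real.exp_le_exp.2 (by linarith)))
    have h6 : Om ^ (r + 1) * (C1 * 2 ^ r * H) ≤ Real.exp (Om ^ (E5 + E6 + E7)) * u * H := by
      rw [← mul_assoc]
      exact mul_le_mul_of_nonneg_right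
        (h5.trans (mul_le_mul_of_nonneg_left hU.le (by positivity))) hH0.le
    have h7 : 0 ≤ δ * H + ((E5 + E6 + E7 : ℕ) : ℝ) * ‖∑ m ∈ range H, pc φ (fun _ => 1) m‖ := by
      positivity
    linarith
  obtain ⟨ψ, hψ, hd⟩ := dm_nat r H w wb φ hη0 hη1 he0.le (by linarith : (0 : ℝ) ≤ Om) (by omega)
    hw hU
  have hκ : cube r (fun m => φ m - ψ m) 0 H ≤ (Om ^ (E1 + E2))⁻¹ := by
    refine hd.trans ?_
    have a1 : Real.exp (3 / η ^ 2) * e = η := by
      rw [he, mul_left_comm, ← Real.exp_add, add_neg_cancel, Real.exp_zero, mul_one]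
    have a2 : (Om + 1) ^ (n - 1) ≤ Om ^ (2 * (n - 1)) := by
      rw [pow_mul]; gcongr
    rw [a1, ← one_div, le_div_iff₀ (by positivity)]
    have a3 := hE3 Om hOm
    rw [pow_add Om] at a3
    calc _ ≤ (2 * η + η) * Om ^ (2 * (n - 1)) * 2 ^ (r + 2) * Om ^ (E1 + E2) := by gcongr
      _ = η * (3 * 2 ^ (r + 2) * (Om ^ (2 * (n - 1)) * Om ^ (E1 + E2))) := by ring
      _ ≤ η * Om ^ E3 := by gcongr
      _ = 1 := inv_mul_cancel₀ (by positivity)
  have hb : ∀ m < H, ‖φ m‖ ≤ Om ^ 2 := fun m hm => by linarith [(hw m hm).1, (hw m hm).2.1]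
  have h1 : ‖form r H P θ (fun _ => φ) - form r H P θ (fun _ => ψ)‖ * Real.log Y ≤ δ / 2 * H := by
    rw [form_tele]
    refine (mul_le_mul_of_nonneg_right (norm_sum_le _ _) (Real.log_natCast_nonneg Y)).trans ?_
    rw [sum_mul]
    refine (sum_le_card_nsmul _ _ ((Om ^ 2) ^ (r + 1) *
      (δ / (2 * (r + 1)) / (Om ^ 2) ^ (r + 1)) * H) fun j hj => ?_).trans (le_of_eq ?_)
    · refine hN H Y P θ _ j (Om ^ 2) _ hY hYH hHY hP hθ (Nat.lt_succ_iff.1 (mem_range.1 hj))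
        (one_le_pow₀ hO1) (by positivity) (fun i _ hi m hm => ?_) ?_
      · rw [if_neg hi]
        split_ifs
        · exact (hψ m).trans (one_le_pow₀ hO1)
        · exact hb m hm
      · simp only [lt_irrefl, if_false, if_true]
        refine (mul_le_mul_of_nonneg_left (hκ.trans (inv_anti₀ (by positivity)
          ((hE1 Om hOm).trans (hmono _ _ (Nat.le_add_right _ _))))) (by linarith)).trans
          (le_of_eq ?_)
        rw [← pow_mul, div_pow, div_pow, div_pow, ← pow_mul]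
        field_simp
    · rw [card_range, nsmul_eq_mul]
      push_cast
      field_simp
  have h2 : ‖form r H P θ fun _ => φ‖ * Real.log Y ≤
      δ / 2 * H + ‖form r H P θ fun _ => ψ‖ * Real.log Y := by
    have := mul_le_mul_of_nonneg_right (norm_le_norm_sub_add (form r H P θ fun _ => φ)
      (form r H P θ fun _ => ψ)) (Real.log_natCast_nonneg Y)
    linarith
  have h3 : 0 ≤ Real.exp (Om ^ (E5 + E6 + E7)) * u * H := by positivity
  rcases le_or_gt ((δ / 2) ^ n / C1) (cube r ψ 0 H) with hg | hg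
  swap
  · refine ⟨_, h1A, ?_⟩
    have h4 := hN H Y P θ (fun _ => ψ) 0 1 (δ / 2) hY hYH hHY hP hθ (Nat.zero_le _) le_rfl
      (by positivity) (fun _ _ _ m _ => hψ m)
      (by rw [lt_div_iff₀ (by linarith)] at hg; linarith)
    have h7 : 0 ≤ ((E5 + E6 + E7 : ℕ) : ℝ) * ‖∑ m ∈ range H, pc φ (fun _ => 1) m‖ := by positivity
    rw [one_pow, one_mul] at h4
    linarith
  obtain ⟨a, ha, h4⟩ := hI ψ 0 H hψ (by
    have := (hE6 Om hOm).trans ((hmono _ _ (by omega)).trans hH)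
    rw [pow_zero, mul_one] at this
    exact_mod_cast this) hg
  refine ⟨a, ha, ?_⟩
  have h5 := hN H Y P θ (fun _ => ψ) 0 1 (C1 * 2 ^ r) hY hYH hHY hP hθ (Nat.zero_le _) le_rfl
    (by positivity) (fun _ _ _ m _ => hψ m)
    ((mul_le_mul_of_nonneg_left (V.cube_le r hψ 0 H) (by linarith)).trans hroot)
  rw [one_pow, one_mul] at h5
  have hz : ‖(((Om ^ 2)⁻¹ : ℝ) : ℂ)‖ = (Om ^ 2)⁻¹ := by
    rw [Complex.norm_real, Real.norm_of_nonneg (by positivity)]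
  have h6 := hV (2 / c * Om ^ 2) (by
      have : 2 ≤ 2 / c := by rw [le_div_iff₀ hc1]; linarith
      nlinarith [one_le_pow₀ (n := 2) hO1])
    (fun m => if m < H then (((Om ^ 2)⁻¹ : ℝ) : ℂ) * (φ m - ψ m) else 0) 0 H
    (fun m => by
      split_ifs with hm
      · rw [norm_mul, hz, inv_mul_le_iff₀ (by positivity), mul_one]
        linarith [norm_sub_le (φ m) (ψ m), (hw m hm).1, (hw m hm).2.1, hψ m]
      · simp)
    (by
      rw [cube_congr (g := fun m => (((Om ^ 2)⁻¹ : ℝ) : ℂ) * (φ m - ψ m)) fun m hm => if_pos hm,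
        cube_smul, hz]
      refine (mul_le_of_le_one_left (V.cube_nonneg _ _ _ _) (pow_le_one₀ (by positivity)
        (inv_le_one_of_one_le₀ (one_le_pow₀ hO1)))).trans (hκ.trans ?_)
      rw [one_div, mul_pow, ← pow_mul]
      exact inv_anti₀ (by positivity) ((hE2 Om hOm).trans (hmono _ _ (Nat.le_add_left _ _))))
    (by omega) _ h1A a ha
  rw [zero_add, ← range_eq_Ico] at h4 h6
  have e1 : ∑ m ∈ range H, (if m < H then (((Om ^ 2)⁻¹ : ℝ) : ℂ) * (φ m - ψ m) else 0) *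
      pc (fun _ => 1) a m = (((Om ^ 2)⁻¹ : ℝ) : ℂ) *
        (∑ m ∈ range H, pc φ a m - ∑ m ∈ range H, pc ψ a m) := by
    rw [← sum_sub_distrib, mul_sum]
    refine sum_congr rfl fun m hm => ?_
    rw [if_pos (mem_range.1 hm)]
    simp only [pc]
    ring
  rw [e1, norm_mul, hz, inv_mul_le_iff₀ (by positivity)] at h6
  have e2 : Om ^ 2 * ((H : ℝ) / (2 / c * Om ^ 2)) = c / 2 * H := by field_simp
  have h7 : c / 2 * H ≤ ‖∑ m ∈ range H, pc φ a m‖ := by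
    have := norm_sub_norm_le (∑ m ∈ range H, pc ψ a m) (∑ m ∈ range H, pc φ a m)
    rw [norm_sub_rev] at this
    have := mul_le_mul_of_nonneg_right (min_le_left c0 1) hH0.le
    linarith
  have h8 : C1 * 2 ^ r * H ≤ ((E5 + E6 + E7 : ℕ) : ℝ) * ‖∑ m ∈ range H, pc φ a m‖ := by
    have a1 : (E7 : ℝ) ≤ ((E5 + E6 + E7 : ℕ) : ℝ) := by exact_mod_cast Nat.le_add_left _ _
    calc _ = 2 * (C1 * 2 ^ r) / c * (c / 2 * H) := by field_simp
      _ ≤ _ := mul_le_mul (hE7.trans a1) h7 (by positivity) (by positivity)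
  have : 0 ≤ δ * H := by positivity
  linarith

theorem good_AT (T : GI.Ty) (k : ℕ) : Good (AxGI.AT T k) :=
  ⟨⟨AxGI.at_res T k, Nil.ax_fs_of Top.s_fsK T k, Nil.ax_ext_of Top.s_extK T k, AxGI.conv_res T k⟩,
    Nil.Dc.decAx_AT T k⟩

theorem cell : S_Cell := cell_of GI.gi_all good_AT

end Pool.Agent.P.MP_a14ce1_nt.Fu
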