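import Pool.Agent.P.MP_a14ce1_nt.Fu.CoSt

/-!
Section 3 (d): the hidden information seen by the largest sets of sites.
-/

open Finset

namespace Pool.Agent.P.MP_a14ce1_nt.Fu

section

variable {B : Type} [Fintype B] [DecidableEq B]

theorem en_top {Ω : Type} [Fintype Ω] (U L : Setoid Ω) {f ζ : Ω → ℝ} {β : ℝ}
    (hf : ∀ x, |f x| ≤ 2 * ζ x) (h0 : ∀ x, 0 ≤ ζ x) (h1 : ∀ x, ζ x ≤ β) (h2 : ex ζ = 1)
    (h3 : Ms L ζ) : en U f ≤ 5 + 256 * β ^ 4 * MI L U := by
  have hne : Nonempty Ω := by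
    by_contra hc
    rw [not_nonempty_iff] at hc
    simp [ex] at h2
  have hβ : 1 ≤ β := by
    have := ex_mono h1
    rwa [h2, ex_const] at this
  have hβ0 : 0 < β := by linarith
  have hθ : 0 < 1 / (32 * β ^ 3) := by positivity
  have hb3 : β ≤ β ^ 3 := by nlinarith [one_le_pow₀ (n := 2) hβ]
  have hd := dv_abs (U := U) h3 (fun x => by rw [abs_of_nonneg (h0 x)]; exact h1 x) hθ (by
    rw [div_mul_eq_mul_div, one_mul, div_le_one (by positivity)]; nlinarith)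
  rw [h2] at hd
  have hp : ∀ x, ce U f x ^ 2 ≤ 4 + 8 * β * |ce U ζ x - 1| := fun x => by
    have a1 : |ce U f x| ≤ 2 * ce U ζ x := by
      rw [← ce_smul]
      exact (abs_ce_le_ce U f x).trans (ce_mono fun y _ => hf y)
    have a2 := ce_nonneg (D := U) h0 x
    have a3 := ce_le (D := U) h1 x
    have a4 : ce U f x ^ 2 ≤ (2 * ce U ζ x) ^ 2 := by
      rw [← sq_abs]; exact pow_le_pow_left₀ (abs_nonneg _) a1 2
    have a5 := le_abs_self (ce U ζ x - 1)
    have a6 := abs_nonneg (ce U ζ x - 1)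
    nlinarith [mul_le_mul_of_nonneg_right a5 (show 0 ≤ ce U ζ x + 1 by linarith),
      mul_le_mul_of_nonneg_left (show ce U ζ x + 1 ≤ 2 * β by linarith) a6]
  have h4 : en U f ≤ 4 + 8 * β * ex fun x => |ce U ζ x - 1| := by
    rw [← ex_mul, ← ex_const (Ω := Ω) 4, ← ex_add]
    exact ex_mono hp
  have h5 := mul_le_mul_of_nonneg_left hd (show 0 ≤ 8 * β by linarith)
  have e : 8 * β * (MI L U / (1 / (32 * β ^ 3)) + 4 * (1 / (32 * β ^ 3)) * β ^ 2)
      = 256 * β ^ 4 * MI L U + 1 := by field_simp; ring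
  linarith

variable {Ω Al ι : Type} [Fintype Ω] [Fintype Al] [Fintype ι] [DecidableEq ι] {α : ι → Type}
  [∀ i, Fintype (α i)] [∀ i, DecidableEq (α i)] (Dt : Ω → B → Al) {ρ : ∀ i, Ω → α i}

omit [∀ i, Fintype (α i)] [DecidableEq ι] in
/-- removal of the sites of the current level -/
theorem hid_cut {pt : B → ∀ i, α i} {g : Geo B} (V : Wt B) (Φ : Ph) {t : ℕ} (ht : t < g.m)
    {u : Finset ℕ} (hu : g.up (t + 1) u = u) :
    MI (xs ρ pt (V.Good ∩ g.cell u)) (sig Dt (g.Ut Φ t u))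
      ≤ MI (xs ρ pt (V.Good ∩ g.cell u)) (sig Dt (g.Ut Φ (t + 1) u)) +
        Real.log (Fintype.card Al) * (g.Zs Φ t (g.W - 1) ∩ g.cell u).card := by
  rw [g.Ut_succ Φ ht, hu, sig_union, mul_comm]
  exact (MI_inf_le _ _ _).trans (add_le_add le_rfl (Hh_sig Dt _))

omit [Fintype Al] in
/-- passage to the next level -/
theorem hid_up (hJU : JU ρ) {pt : B → ∀ i, α i} {g : Geo B} (hg : g.Ok) {V : Wt B}
    (hV : HidH g V pt) (Φ : Ph) {t : ℕ} (h1 : 1 ≤ t) (ht : t < g.m) :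
    ∑ u ∈ V.CC t, V.om t u * MI (xs ρ pt (V.Good ∩ g.cell u)) (sig Dt (g.Ut Φ t u))
      ≤ 7 * ∑ v ∈ V.CC (t + 1), V.om (t + 1) v *
        MI (xs ρ pt (V.Good ∩ g.cell v)) (sig Dt (g.Ut Φ t v)) := by
  rw [← sum_fiberwise_of_maps_to (hV.up_mem t ht), mul_sum]
  refine sum_le_sum fun v hv => ?_
  have e : ∀ u ∈ (V.CC t).filter (fun u => g.up (t + 1) u = v),
      V.om t u * MI (xs ρ pt (V.Good ∩ g.cell u)) (sig Dt (g.Ut Φ t u))
        = V.om t u * MI (xs ρ pt (V.Good ∩ g.cell u)) (sig Dt (g.Ut Φ t v)) := fun u hu => by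
    rw [← (mem_filter.1 hu).2, g.Ut_up hg Φ le_rfl]
  rw [sum_congr rfl e]
  have h := sh_sites hJU pt ((V.CC t).filter fun u => g.up (t + 1) u = v)
    (fun u => V.Good ∩ g.cell u) (V.Good ∩ g.cell v) (V.om t) 1 (V.om (t + 1) v)
    (sig Dt (g.Ut Φ t v)) (fun u _ => hV.om_nonneg t u) (hV.om_nonneg _ v)
    (fun u hu => inter_subset_inter (Subset.refl _)
      (g.cell_anti ((mem_filter.1 hu).2 ▸ g.up_subset (t + 1) u)))
    (fun u hu i => (Nat.mul_le_mul_left 2 (card_le_card inter_subset_right)).trans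
      (hV.small t h1 ht.le u (mem_filter.1 hu).1 i))
    (fun i w => by
      exact_mod_cast (card_le_card (filter_subset_filter _ inter_subset_right)).trans
        (hV.inj (t + 1) (by omega) ht v hv i w))
    (fun b hb => by
      refine le_trans (le_of_eq ?_) (hV.cover t h1 ht v hv b (mem_inter.1 hb).1)
      rw [filter_filter]
      refine sum_congr (filter_congr fun u _ => ?_) fun _ _ => rfl
      rw [mem_inter, g.mem_cell, and_iff_right (mem_inter.1 hb).1])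
  linarith

/-- the top level -/
theorem hid_top (hJU : JU ρ) {pt : B → ∀ i, α i} {g : Geo B} {V : Wt B}
    (hV : HidH g V pt) (Φ : Ph) (h1 : 1 ≤ g.m) :
    ∑ u ∈ V.CC g.m, V.om g.m u * MI (xs ρ pt (V.Good ∩ g.cell u)) (sig Dt (g.Ut Φ g.m u))
      ≤ 7 * (Real.log (Fintype.card Al) * (V.mu * V.ob * (g.code Φ).card)) := by
  simp only [g.Ut_top]
  have h := sh_sites hJU pt (V.CC g.m) (fun u => V.Good ∩ g.cell u) V.Good (V.om g.m) V.mu V.ob
    (sig Dt (g.code Φ)) (fun u _ => hV.om_nonneg _ u) hV.ob_nonneg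
    (fun u _ => inter_subset_left)
    (fun u hu i => (Nat.mul_le_mul_left 2 (card_le_card inter_subset_right)).trans
      (hV.small g.m h1 le_rfl u hu i))
    (fun i w => le_trans (by exact_mod_cast card_le_card (filter_subset_filter _ (subset_univ _)))
      (hV.fib i w))
    (fun b hb => by
      refine le_trans (le_of_eq ?_) (hV.cover_top b hb)
      refine sum_congr (filter_congr fun u _ => ?_) fun _ _ => rfl
      rw [mem_inter, g.mem_cell, and_iff_right hb])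
  have h2 : MI (xs ρ pt V.Good) (sig Dt (g.code Φ))
      ≤ (g.code Φ).card * Real.log (Fintype.card Al) := by
    rw [MI_comm]; exact (MI_le _ _).trans (Hh_sig Dt _)
  have h3 := mul_le_mul_of_nonneg_left h2
    (show 0 ≤ 7 * (V.mu * V.ob) from mul_nonneg (by norm_num) (mul_nonneg hV.mu_nonneg hV.ob_nonneg))
  linarith

theorem hid (hJU : JU ρ) {pt : B → ∀ i, α i} {g : Geo B} (hg : g.Ok) {V : Wt B}
    (hV : HidH g V pt) (Φ : Ph) {t : ℕ} (ht : t < g.m) :
    ∑ u ∈ V.CC (t + 1), V.om (t + 1) u *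
      MI (xs ρ pt (V.Good ∩ g.cell u)) (sig Dt (g.Ut Φ t u))
      ≤ HB g V (Real.log (Fintype.card Al)) Φ := by
  set lA := Real.log (Fintype.card Al) with hlA
  have hl : 0 ≤ lA := Real.log_natCast_nonneg _
  let b : ℕ → ℝ := fun s => ∑ u ∈ V.CC (s + 1),
    V.om (s + 1) u * (g.Zs Φ s (g.W - 1) ∩ g.cell u).card
  let T : ℝ := V.mu * V.ob * (g.code Φ).card
  have hb : ∀ s, 0 ≤ b s := fun s =>
    sum_nonneg fun u _ => mul_nonneg (hV.om_nonneg _ u) (Nat.cast_nonneg _)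
  have hT : 0 ≤ T := mul_nonneg (mul_nonneg hV.mu_nonneg hV.ob_nonneg) (Nat.cast_nonneg _)
  let a : ℕ → ℝ := fun s => ∑ u ∈ V.CC (s + 1), V.om (s + 1) u *
    MI (xs ρ pt (V.Good ∩ g.cell u)) (sig Dt (g.Ut Φ s u))
  let a' : ℕ → ℝ := fun s => ∑ u ∈ V.CC s, V.om s u *
    MI (xs ρ pt (V.Good ∩ g.cell u)) (sig Dt (g.Ut Φ s u))
  have c1 : ∀ s < g.m, a s ≤ a' (s + 1) + lA * b s := fun s hs => by
    simp only [a, a', b]
    rw [mul_sum, ← sum_add_distrib]
    refine sum_le_sum fun u hu => ?_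
    have := mul_le_mul_of_nonneg_left
      (hid_cut Dt (ρ := ρ) (pt := pt) V Φ hs (hV.up_self (s + 1) hs u hu)) (hV.om_nonneg (s + 1) u)
    linarith
  have key : ∀ n s, s + n + 1 = g.m → a s ≤ 7 ^ (n + 1) * (lA * (∑ j ∈ Ico s g.m, b j + T)) := by
    intro n
    induction n with
    | zero =>
      intro s hs
      have hs' : g.m = s + 1 := by omega
      have d1 := c1 s (by omega)
      have d2 : a' (s + 1) ≤ 7 * (lA * T) := by
        rw [← hs']; exact hid_top Dt hJU hV Φ (by omega)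
      have d3 := mul_nonneg hl (hb s)
      rw [show Ico s g.m = {s} by rw [hs']; exact Nat.Ico_succ_singleton s, sum_singleton,
        zero_add, pow_one]
      nlinarith
    | succ n ih =>
      intro s hs
      have d1 := c1 s (by omega)
      have d2 : a' (s + 1) ≤ 7 * a (s + 1) := hid_up Dt hJU hg hV Φ (by omega) (by omega)
      have d3 := ih (s + 1) (by omega)
      have d4 := mul_nonneg hl (hb s)
      have d5 : (1 : ℝ) ≤ 7 ^ (n + 1 + 1) := one_le_pow₀ (by norm_num)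
      rw [sum_eq_sum_Ico_succ_bot (by omega : s < g.m), pow_succ (7 : ℝ) (n + 1)] at *
      nlinarith
  have k := key (g.m - t - 1) t (by omega)
  have h1 : (7 : ℝ) ^ (g.m - t - 1 + 1) ≤ 7 ^ g.m := pow_le_pow_right₀ (by norm_num) (by omega)
  have h2 : ∑ j ∈ Ico t g.m, b j ≤ ∑ j ∈ range g.m, b j :=
    sum_le_sum_of_subset_of_nonneg (fun j hj => mem_range.2 (mem_Ico.1 hj).2) fun j _ _ => hb j
  have h3 : 0 ≤ ∑ j ∈ Ico t g.m, b j := sum_nonneg fun j _ => hb j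
  refine k.trans ?_
  calc 7 ^ (g.m - t - 1 + 1) * (lA * (∑ j ∈ Ico t g.m, b j + T))
      ≤ 7 ^ g.m * (lA * (∑ j ∈ range g.m, b j + T)) := by gcongr
    _ = HB g V lA Φ := by simp only [HB, b, T]; ring

theorem hid_w (hJU : JU ρ) {pt : B → ∀ i, α i} {g : Geo B} (hg : g.Ok) {V : Wt B}
    (hV : HidH g V pt)
    {ζ f : B → Ω → ℝ} {β : ℝ} (hζ : ZetaH ρ pt ζ β) (hf : ∀ a x, |f a x| ≤ 2 * ζ a x)
    (Φ : Ph) {t : ℕ} (ht : t < g.m) (ω : B → Finset ℕ → ℝ) (h0 : ∀ a u, 0 ≤ ω a u)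
    (h1 : ∀ a u, ω a u ≤ V.om (t + 1) u) (h2 : ∀ a u, ω a u ≠ 0 → a ∈ V.Good ∧ u ⊆ g.A a) :
    ∑ a, ∑ u ∈ V.CC (t + 1), ω a u * en (sig Dt (g.Ut Φ t u)) (f a)
      ≤ 5 * ∑ a, ∑ u ∈ V.CC (t + 1), ω a u +
        1792 * β ^ 4 * HB g V (Real.log (Fintype.card Al)) Φ := by
  have hβ : 0 ≤ 256 * β ^ 4 := by positivity
  have c1 : ∑ a, ∑ u ∈ V.CC (t + 1), ω a u * en (sig Dt (g.Ut Φ t u)) (f a)
      ≤ 5 * ∑ a, ∑ u ∈ V.CC (t + 1), ω a u + 256 * β ^ 4 *
        ∑ u ∈ V.CC (t + 1), ∑ a, ω a u * MI (xs ρ pt {a}) (sig Dt (g.Ut Φ t u)) := by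
    rw [sum_comm (s := V.CC (t + 1)), mul_sum, mul_sum, ← sum_add_distrib]
    refine sum_le_sum fun a _ => ?_
    rw [mul_sum, mul_sum, ← sum_add_distrib]
    refine sum_le_sum fun u _ => ?_
    have := mul_le_mul_of_nonneg_left (en_top (sig Dt (g.Ut Φ t u)) _ (hf a) (hζ.nonneg a)
      (hζ.le a) (hζ.mean a) (hζ.ms a)) (h0 a u)
    linarith
  have c2 : ∀ u ∈ V.CC (t + 1), ∑ a, ω a u * MI (xs ρ pt {a}) (sig Dt (g.Ut Φ t u))
      ≤ 7 * (V.om (t + 1) u * MI (xs ρ pt (V.Good ∩ g.cell u)) (sig Dt (g.Ut Φ t u))) := by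
    intro u hu
    have h := sh_sites hJU pt (V.Good ∩ g.cell u) (fun a => {a}) (V.Good ∩ g.cell u)
      (fun a => ω a u) 1 (V.om (t + 1) u) (sig Dt (g.Ut Φ t u)) (fun a _ => h0 a u)
      (hV.om_nonneg _ u) (fun a ha => singleton_subset_iff.2 ha)
      (fun a ha i => (Nat.mul_le_mul_left 2 (card_le_card
        (singleton_subset_iff.2 (mem_inter.1 ha).2))).trans (hV.small (t + 1) (by omega) ht u hu i))
      (fun i w => by
        exact_mod_cast (card_le_card (filter_subset_filter _ inter_subset_right)).trans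
          (hV.inj (t + 1) (by omega) ht u hu i w))
      (fun b hb => by
        have : (V.Good ∩ g.cell u).filter (fun a => b ∈ ({a} : Finset B)) = {b} := by
          ext a
          simp only [mem_filter, mem_singleton]
          exact ⟨fun h => h.2.symm, fun h => ⟨h ▸ hb, h.symm⟩⟩
        rw [this, sum_singleton]
        exact h1 b u)
    rw [← sum_subset (subset_univ (V.Good ∩ g.cell u)) fun a _ ha => by
      by_contra hc
      have := h2 a u (left_ne_zero_of_mul hc)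
      exact ha (mem_inter.2 ⟨this.1, g.mem_cell.2 this.2⟩)]
    linarith
  have c3 := sum_le_sum c2
  rw [← mul_sum] at c3
  have c4 := hid Dt hJU hg hV Φ ht
  have c5 := mul_le_mul_of_nonneg_left (c3.trans (mul_le_mul_of_nonneg_left c4 (by norm_num))) hβ
  linarith

end

end Pool.Agent.P.MP_a14ce1_nt.Fu
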