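import Pool.Agent.P.MP_a14ce1_nt.Fu.CoUnl
import Pool.Agent.P.MP_a14ce1_nt.Fu.CoHid
import Pool.Agent.P.MP_a14ce1_nt.Fu.Stage

/-! Section 3 (b)-(d) on one fibre with the externals fixed. -/

open Finset

namespace Pool.Agent.P.MP_a14ce1_nt.Fu

theorem sum_group {γ δ : Type*} [DecidableEq δ] (s : Finset γ) (U : Finset δ) (τ : γ → ℝ)
    (key : γ → δ) (F : δ → ℝ) (h : ∀ c ∈ s, τ c ≠ 0 → key c ∈ U) :
    ∑ c ∈ s, τ c * F (key c) = ∑ u ∈ U, (∑ c ∈ s.filter (fun c => key c = u), τ c) * F u := by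
  simp only [sum_filter, sum_mul, ite_mul, zero_mul]
  rw [sum_comm]
  refine sum_congr rfl fun c hc => ?_
  rw [sum_ite_eq]
  split_ifs with h1
  · rfl
  · by_cases h2 : τ c = 0
    · rw [h2, zero_mul]
    · exact absurd (h c hc h2) h1

variable {B : Type} [Fintype B] [DecidableEq B] {Ω Al : Type} [Fintype Ω] (Dt : Ω → B → Al)
  {g : Geo B}

theorem hh_drop (Φ : Ph) (w t : ℕ) (u K : Finset ℕ) (s q : ℕ) :
    hh Dt g w t u K s (Function.update Φ (ix (t + 1) w s) (insert q (Φ (ix (t + 1) w s)))) ≤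
      cH (sig Dt (g.pl Φ w t u)) (sig Dt (g.St Φ w (t + 1) u ∪ g.WW Φ w t u K s ∪
        g.WW Φ w t u (insert q K) (s + 1))) := by
  rw [hh, g.pl_update]
  refine cH_anti (sig_anti Dt (union_subset (union_subset_union ?_ ?_) ?_)) _
  · exact g.St_mono (subset_update Φ _ q) _ _ _
  · exact g.WW_mono (subset_update Φ _ q) _ _ _ _ _
  · exact (g.WW_pin Φ w t u K s q).trans subset_union_right

theorem dh_nonneg (Φ : Ph) (w t : ℕ) (u K : Finset ℕ) (q : ℕ) : 0 ≤ dh Dt g Φ w t u K q :=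
  sum_nonneg fun s _ => sub_nonneg.2 ((hh_drop Dt Φ w t u K s q).trans
    (cH_anti (sig_anti Dt subset_union_left) _))

theorem de_nonneg (f : Ω → ℝ) (Φ : Ph) (w t : ℕ) (u K : Finset ℕ) (q : ℕ) :
    0 ≤ de Dt g f Φ w t u K q :=
  sum_nonneg fun _ _ => sub_nonneg.2 (en_mono (sig_anti Dt (union_subset_union_right
    (g.WW_anti Φ w t u (subset_insert q K) _))) f)

theorem aw_nonneg (f : Ω → ℝ) (Φ : Ph) (w t : ℕ) (u : Finset ℕ) : 0 ≤ aw Dt g f Φ w t u :=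
  sub_nonneg.2 (en_mono (sig_anti Dt subset_union_left) f)

theorem pinq_nonneg (Φ : Ph) (w t : ℕ) (u : Finset ℕ) : 0 ≤ pinq Dt g Φ w t u :=
  div_nonneg (sum_nonneg fun _ _ => sum_nonneg fun _ _ => sum_nonneg fun _ _ =>
    dh_nonneg Dt _ _ _ _ _ _) (by positivity)

theorem dh_up (hg : g.Ok) (Φ : Ph) (w t : ℕ) (c : Finset ℕ) :
    dh Dt g Φ w t (g.up t c) = dh Dt g Φ w t c := by
  funext K q
  simp only [dh, hh, g.pl_up hg _ _ le_rfl, g.St_up hg _ _ (Nat.le_succ t),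
    g.WW_up hg _ _ (Nat.le_succ t)]

theorem de_up (hg : g.Ok) (f : Ω → ℝ) (Φ : Ph) (w t : ℕ) (c : Finset ℕ) :
    de Dt g f Φ w t (g.up (t + 1) c) = de Dt g f Φ w t c := by
  funext K q
  simp only [de, g.St_up hg _ _ le_rfl, g.WW_up hg _ _ le_rfl]

theorem aw_up (hg : g.Ok) (f : Ω → ℝ) (Φ : Ph) (w t : ℕ) (c : Finset ℕ) :
    aw Dt g f Φ w t (g.up (t + 1) c) = aw Dt g f Φ w t c := by
  simp only [aw, g.St_up hg _ _ le_rfl, g.Sp_up hg _ _ le_rfl]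

variable (g) in
/-- the martingale increment of stage `t + 1` -/
noncomputable def ic (Φ : Ph) (w t : ℕ) (c : Finset ℕ) (P : Ω → ℝ) : Ω → ℝ :=
  inc (sig Dt (g.St Φ w t c)) (sig Dt (g.St Φ w (t + 1) c)) P

theorem stage1 (hg : g.Ok) (Φ : Ph) (w : ℕ) {t : ℕ} (ht : t < g.m) {c K : Finset ℕ}
    (hK : K ⊆ c ∩ g.R (t + 1)) (q : ℕ) {f P : Ω → ℝ} {a b θ lam : ℝ} (hf : ∀ x, |f x| ≤ a)
    (hP : ∀ x, |P x| ≤ b) (hθ : 0 < θ) (h1 : 8 * θ * a * b ≤ 1) (hlam : 0 < lam) :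
    |ex fun x => f x * ic Dt g Φ w t c P x| ≤ θ⁻¹ * dh Dt g Φ w t c K q +
      ((2 * lam)⁻¹ * de Dt g f Φ w t c K q + (g.J (t + 1) * (64 * θ * a ^ 2 * b ^ 2) +
        lam / 2 * ex fun x => ic Dt g Φ w t c P x ^ 2)) := by
  have e := g.St_succ Φ w ht.le c
  have h := stage_sig Dt (S := g.St Φ w (t + 1) c) (S' := g.St Φ w t c) (l := g.pl Φ w t c)
    (W := fun s => g.WW Φ w t c K s) (W' := fun s => g.WW Φ w t c (insert q K) (s + 1))
    (J := g.J (t + 1)) (by rw [e]; exact subset_union_left) e.subset (g.WW_zero Φ w ht c K)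
    (by rw [e]; exact union_subset_union_right (g.WW_last hg Φ w t hK))
    (fun s _ => g.WW_succ Φ w t c K s) (fun s _ => g.WW_anti Φ w t c (subset_insert q K) _)
    hf hP hθ h1 hlam
  have h2 : ∑ s ∈ range (g.J (t + 1)), (cH (sig Dt (g.pl Φ w t c))
      (sig Dt (g.St Φ w (t + 1) c ∪ g.WW Φ w t c K s)) - cH (sig Dt (g.pl Φ w t c))
        (sig Dt (g.St Φ w (t + 1) c ∪ g.WW Φ w t c K s ∪ g.WW Φ w t c (insert q K) (s + 1))))
      ≤ dh Dt g Φ w t c K q :=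
    sum_le_sum fun s _ => sub_le_sub_left (hh_drop Dt Φ w t c K s q) _
  have h3 := div_le_div_of_nonneg_right h2 hθ.le
  refine h.trans ((add_le_add_left (add_le_add_left h3 _) _).trans (le_of_eq ?_))
  unfold de ic
  field_simp
  ring

theorem stageNB (hg : g.Ok) (Φ : Ph) (w : ℕ) {t : ℕ} (ht : t < g.m) {c T : Finset ℕ} {r : ℕ}
    (hr : 0 < r) (hQ : (c ∩ g.R (t + 1)).card = r) (hQT : c ∩ g.R (t + 1) ⊆ T) (hT : r < T.card)
    {f P : Ω → ℝ} {a b θ lam : ℝ} (hf : ∀ x, |f x| ≤ a)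
    (hP : ∀ x, |P x| ≤ b) (hθ : 0 < θ) (h1 : 8 * θ * a * b ≤ 1) (hlam : 0 < lam) :
    |ex fun x => f x * ic Dt g Φ w t c P x| ≤
      θ⁻¹ * av3 (c ∩ g.R (t + 1)) T r (dh Dt g Φ w t c) +
      ((2 * lam)⁻¹ * av3 (c ∩ g.R (t + 1)) T r (de Dt g f Φ w t c) +
        (g.J (t + 1) * (64 * θ * a ^ 2 * b ^ 2) +
          lam / 2 * ex fun x => ic Dt g Φ w t c P x ^ 2)) := by
  have h := av3_mono (Q := c ∩ g.R (t + 1)) (T := T) (r := r)
    fun K hK q _ => stage1 Dt hg Φ w ht hK q hf hP hθ h1 hlam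
  rwa [av3_const hr hQ hQT hT, av3_add, av3_add, av3_mul, av3_mul, av3_const hr hQ hQT hT] at h

theorem stageB (hg : g.Ok) (Φ : Ph) (w : ℕ) {t : ℕ} (ht : t < g.m) (c : Finset ℕ)
    (f P : Ω → ℝ) {lam : ℝ} (hlam : 0 < lam) :
    |ex fun x => f x * ic Dt g Φ w t c P x| ≤ (2 * lam)⁻¹ * aw Dt g f Φ w t c +
      lam / 2 * ex fun x => ic Dt g Φ w t c P x ^ 2 := by
  have h := inc_triv' (sig_anti Dt (g.St_Sp hg Φ w ht.le c))
    (sig_anti Dt (show g.St Φ w (t + 1) c ⊆ g.St Φ w t c by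
      rw [g.St_succ Φ w ht.le c]; exact subset_union_left)) f P hlam
  refine h.trans (le_of_eq ?_)
  unfold aw ic
  field_simp

theorem av3_nonneg {Q T : Finset ℕ} {r : ℕ} {F : Finset ℕ → ℕ → ℝ} (h : ∀ K q, 0 ≤ F K q) :
    0 ≤ av3 Q T r F :=
  div_nonneg (sum_nonneg fun _ _ => sum_nonneg fun _ _ => sum_nonneg fun _ _ => h _ _)
    (by positivity)

variable {V : Wt B} {τ : B → Finset ℕ → ℝ} {NB : ℕ → B → Finset (Finset ℕ)}
  {tb : ℕ → B → Finset ℕ → ℝ}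

omit [DecidableEq B] in
theorem TauH.marg' (hτ : TauH g V τ NB tb) {t : ℕ} (ht : t ≤ g.m) (a : B)
    {s : Finset (Finset ℕ)} (hs : s ⊆ V.CS) (u : Finset ℕ) :
    ∑ c ∈ s.filter (fun c => g.up t c = u), τ a c ≤ V.om t u :=
  (sum_le_sum_of_subset_of_nonneg (filter_subset_filter _ hs)
    fun c _ _ => hτ.nonneg a c).trans (hτ.marg t ht a u)

theorem pin_sum (hg : g.Ok) (hτ : TauH g V τ NB tb) (hom : ∀ t u, 0 ≤ V.om t u) (Φ : Ph) (w : ℕ)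
    {t : ℕ} (ht : t < g.m) :
    ∑ a, ∑ c ∈ NB t a, τ a c *
      av3 (c ∩ g.R (t + 1)) (g.A a ∩ g.R (t + 1)) (g.r (t + 1)) (dh Dt g Φ w t c)
      ≤ ∑ u ∈ V.CC t, V.om t u * pinq Dt g Φ w t u := by
  have e : ∀ a, ∑ c ∈ NB t a, τ a c *
      av3 (c ∩ g.R (t + 1)) (g.A a ∩ g.R (t + 1)) (g.r (t + 1)) (dh Dt g Φ w t c) =
      ∑ u ∈ V.CC t, (∑ c ∈ (NB t a).filter (fun c => g.up t c = u), τ a c) *
        av3 (u ∩ g.R (t + 1)) (g.A a ∩ g.R (t + 1)) (g.r (t + 1)) (dh Dt g Φ w t u) := by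
    intro a
    rw [← sum_group (NB t a) (V.CC t) (τ a) (g.up t) _
      fun c hc h => (hτ.supp a c (hτ.nb_sub t a hc) h).2.2.2 t ht.le]
    refine sum_congr rfl fun c _ => ?_
    rw [g.up_inter hg, dh_up Dt hg]
  simp only [e]
  rw [sum_comm]
  refine sum_le_sum fun u _ => ?_
  by_cases h : ∃ a, ∃ c ∈ NB t a, g.up t c = u ∧ τ a c ≠ 0
  · obtain ⟨a0, c0, h1, h2, h3⟩ := h
    refine pin_group g (g.R (t + 1)) u _ _ _ _ (dh_nonneg Dt Φ w t u)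
      (fun a => sum_nonneg fun c _ => hτ.nonneg a c)
      (fun a => hτ.marg' ht.le a (hτ.nb_sub t a) u) (fun a ha => ?_) (fun q hq hu => ?_)
      (hom t u)
    · obtain ⟨c, hc, h4⟩ := exists_ne_zero_of_sum_ne_zero ha
      obtain ⟨h5, rfl⟩ := mem_filter.1 hc
      exact (g.up_subset t c).trans (hτ.supp a c (hτ.nb_sub t a h5) h4).2.1
    · subst h2
      refine (hτ.nb t ht a0 c0 h1 h3).2 q hq fun hc => hu ?_
      exact mem_filter.2 ⟨hc, hg.R_gt t q hq⟩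
  · push Not at h
    rw [sum_eq_zero fun a _ => ?_]
    · exact mul_nonneg (hom t u) (pinq_nonneg Dt Φ w t u)
    · rw [sum_eq_zero fun c hc => h a c (mem_filter.1 hc).1 (mem_filter.1 hc).2, zero_mul]

theorem unl_sum (hg : g.Ok) (hτ : TauH g V τ NB tb) (f : Ω → ℝ) (Φ : Ph) (w : ℕ)
    {t : ℕ} (ht : t < g.m) (hr : 0 < g.r (t + 1)) (a : B) :
    ∑ c ∈ NB t a, τ a c *
      av3 (c ∩ g.R (t + 1)) (g.A a ∩ g.R (t + 1)) (g.r (t + 1)) (de Dt g f Φ w t c)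
      ≤ (g.J (t + 1) : ℝ) / g.r (t + 1) * ∑ u ∈ V.CC (t + 1), tb t a u * aw Dt g f Φ w t u := by
  by_cases hT : g.r (t + 1) < (g.A a ∩ g.R (t + 1)).card
  swap
  · rw [sum_eq_zero fun c hc => ?_]
    · exact mul_nonneg (by positivity) (sum_nonneg fun u _ =>
        mul_nonneg (hτ.tb_nonneg t a u) (aw_nonneg Dt f Φ w t u))
    · by_cases h : τ a c = 0
      · rw [h, zero_mul]
      · exact absurd (hτ.nb t ht a c hc h).1 hT
  set T := g.A a ∩ g.R (t + 1) with hTd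
  have e := sum_group (NB t a) (V.CC (t + 1) ×ˢ T.powersetCard (g.r (t + 1))) (τ a)
    (fun c => (g.up (t + 1) c, c ∩ g.R (t + 1)))
    (fun z => av3 z.2 T (g.r (t + 1)) (de Dt g f Φ w t z.1)) fun c hc h => by
      obtain ⟨_, h2, h3, h4⟩ := hτ.supp a c (hτ.nb_sub t a hc) h
      exact mem_product.2 ⟨h4 (t + 1) ht, mem_powersetCard.2
        ⟨inter_subset_inter h2 (Subset.refl _), h3 t ht⟩⟩
  simp only [de_up Dt hg] at e
  rw [e, sum_product, mul_sum]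
  refine sum_le_sum fun u _ => ?_
  have hc : (0 : ℝ) < T.card.choose (g.r (t + 1)) := by exact_mod_cast Nat.choose_pos hT.le
  have h1 := unl_set T hr hT (range (g.J (t + 1)))
    (fun s K => en (sig Dt (g.St Φ w (t + 1) u ∪ g.WW Φ w t u K (s + 1))) f)
    (aw Dt g f Φ w t u) fun s _ K _ => sub_le_sub
      (en_mono (sig_anti Dt (g.WW_Sp Φ w t u ∅ (s + 1))) f)
      (en_mono (sig_anti Dt subset_union_left) f)
  rw [card_range] at h1
  calc _ ≤ ∑ Q ∈ T.powersetCard (g.r (t + 1)), tb t a u / T.card.choose (g.r (t + 1)) *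
        av3 Q T (g.r (t + 1)) (de Dt g f Φ w t u) := by
        refine sum_le_sum fun Q _ => mul_le_mul_of_nonneg_right ?_
          (av3_nonneg (de_nonneg Dt f Φ w t u))
        rw [le_div_iff₀ hc, mul_comm]
        simpa only [Prod.mk.injEq] using hτ.unl t ht a u Q
    _ ≤ tb t a u / T.card.choose (g.r (t + 1)) * (T.card.choose (g.r (t + 1)) *
        ((g.J (t + 1) : ℝ) / g.r (t + 1) * aw Dt g f Φ w t u)) := by
        rw [← mul_sum]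
        exact mul_le_mul_of_nonneg_left h1 (div_nonneg (hτ.tb_nonneg t a u) hc.le)
    _ = _ := by field_simp

theorem aw_avg (hg : g.Ok) (f : Ω → ℝ) (Φ : Ph) {t : ℕ} (ht : t < g.m) (u : Finset ℕ) :
    ∑ w ∈ range g.W, aw Dt g f Φ w t u ≤ g.W * (wg g.W t * en (sig Dt (g.Ut Φ t u)) f) := by
  have hW : (0 : ℝ) < g.W := by exact_mod_cast hg.W_pos
  unfold wg
  split_ifs with h2
  · rw [one_mul, ← nsmul_eq_mul]
    conv_rhs => rw [← card_range g.W]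
    refine sum_le_card_nsmul _ _ _ fun w hw => ?_
    exact (sub_le_self _ (en_nonneg _ f)).trans
      (en_mono (sig_anti Dt (g.Sp_Ut Φ (mem_range.1 hw) ht u)) f)
  · rw [← mul_assoc, mul_one_div_cancel hW.ne', one_mul]
    exact nest_en f (fun w => sig Dt (g.St Φ w (t + 1) u)) (fun w => sig Dt (g.Sp Φ w t u)) _ _
      (fun w _ => sig_anti Dt (g.Sp_St Φ w (by omega) ht u))
      fun w hw => sig_anti Dt (g.Sp_Ut Φ hw ht u)

theorem stage_sum (hg : g.Ok) (hτ : TauH g V τ NB tb) (hom : ∀ t u, 0 ≤ V.om t u) (Φ : Ph)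
    (w : ℕ) {t : ℕ} (ht : t < g.m) (hr : 0 < g.r (t + 1)) {f : B → Ω → ℝ}
    {P : B → Finset ℕ → Ω → ℝ} {a0 b θ lam : ℝ} (hf : ∀ a x, |f a x| ≤ a0)
    (hP : ∀ a c x, |P a c x| ≤ b) (hθ : 0 < θ) (h1 : 8 * θ * a0 * b ≤ 1) (hlam : 0 < lam) :
    ∑ a, ∑ c ∈ V.CS, τ a c * |ex fun x => f a x * ic Dt g Φ w t c (P a c) x| ≤
      θ⁻¹ * ∑ u ∈ V.CC t, V.om t u * pinq Dt g Φ w t u +
      (2 * lam)⁻¹ * ((g.J (t + 1) : ℝ) / g.r (t + 1) *
          ∑ a, ∑ u ∈ V.CC (t + 1), tb t a u * aw Dt g (f a) Φ w t u +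
        ∑ a, ∑ c ∈ V.CS \ NB t a, τ a c * aw Dt g (f a) Φ w t c) +
      g.J (t + 1) * (64 * θ * a0 ^ 2 * b ^ 2) * ∑ a, ∑ c ∈ V.CS, τ a c +
      lam / 2 * ∑ a, ∑ c ∈ V.CS, τ a c * ex fun x => ic Dt g Φ w t c (P a c) x ^ 2 := by
  set κ0 : ℝ := g.J (t + 1) * (64 * θ * a0 ^ 2 * b ^ 2) with hκ0
  have hκ : 0 ≤ κ0 := by positivity
  have hl : 0 ≤ (2 * lam)⁻¹ := by positivity
  have key : ∀ a, ∑ c ∈ V.CS, τ a c * |ex fun x => f a x * ic Dt g Φ w t c (P a c) x| ≤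
      θ⁻¹ * ∑ c ∈ NB t a, τ a c *
        av3 (c ∩ g.R (t + 1)) (g.A a ∩ g.R (t + 1)) (g.r (t + 1)) (dh Dt g Φ w t c) +
      (2 * lam)⁻¹ * (∑ c ∈ NB t a, τ a c *
        av3 (c ∩ g.R (t + 1)) (g.A a ∩ g.R (t + 1)) (g.r (t + 1)) (de Dt g (f a) Φ w t c) +
        ∑ c ∈ V.CS \ NB t a, τ a c * aw Dt g (f a) Φ w t c) +
      κ0 * ∑ c ∈ V.CS, τ a c +
      lam / 2 * ∑ c ∈ V.CS, τ a c * ex fun x => ic Dt g Φ w t c (P a c) x ^ 2 := by
    intro a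
    simp only [← sum_sdiff (hτ.nb_sub t a), mul_add, mul_sum]
    have a1 : ∀ c ∈ V.CS \ NB t a, τ a c * |ex fun x => f a x * ic Dt g Φ w t c (P a c) x| ≤
        (2 * lam)⁻¹ * (τ a c * aw Dt g (f a) Φ w t c) + κ0 * τ a c +
        lam / 2 * (τ a c * ex fun x => ic Dt g Φ w t c (P a c) x ^ 2) := by
      intro c _
      have := mul_le_mul_of_nonneg_left (stageB Dt hg Φ w ht c (f a) (P a c) hlam) (hτ.nonneg a c)
      have := mul_nonneg hκ (hτ.nonneg a c)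
      linarith
    have a2 : ∀ c ∈ NB t a, τ a c * |ex fun x => f a x * ic Dt g Φ w t c (P a c) x| ≤
        θ⁻¹ * (τ a c *
          av3 (c ∩ g.R (t + 1)) (g.A a ∩ g.R (t + 1)) (g.r (t + 1)) (dh Dt g Φ w t c)) +
        (2 * lam)⁻¹ * (τ a c *
          av3 (c ∩ g.R (t + 1)) (g.A a ∩ g.R (t + 1)) (g.r (t + 1)) (de Dt g (f a) Φ w t c)) +
        κ0 * τ a c + lam / 2 * (τ a c * ex fun x => ic Dt g Φ w t c (P a c) x ^ 2) := by
      intro c hc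
      by_cases h : τ a c = 0
      · simp [h]
      obtain ⟨_, h2, h3, _⟩ := hτ.supp a c (hτ.nb_sub t a hc) h
      have := mul_le_mul_of_nonneg_left (stageNB Dt hg Φ w ht hr (h3 t ht)
        (inter_subset_inter h2 (Subset.refl _)) (hτ.nb t ht a c hc h).1 (hf a) (hP a c) hθ h1 hlam)
        (hτ.nonneg a c)
      linarith
    have b1 := sum_le_sum a1
    have b2 := sum_le_sum a2
    simp only [sum_add_distrib] at b1 b2
    linarith
  have h2 := sum_le_sum fun a (_ : a ∈ univ) => key a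
  simp only [sum_add_distrib, ← mul_sum] at h2
  have h3 := mul_le_mul_of_nonneg_left (pin_sum Dt hg hτ hom Φ w ht) (inv_nonneg.2 hθ.le)
  have h4 := sum_le_sum fun a (_ : a ∈ univ) => unl_sum Dt hg hτ (f a) Φ w ht hr a
  rw [← mul_sum] at h4
  have h5 := mul_le_mul_of_nonneg_left h4 hl
  simp only [mul_add] at h2 ⊢
  linarith

theorem HB_nonneg (hom : ∀ t u, 0 ≤ V.om t u) (h1 : 0 ≤ V.ob) (h2 : 0 ≤ V.mu) {lA : ℝ}
    (hl : 0 ≤ lA) (Φ : Ph) : 0 ≤ HB g V lA Φ :=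
  mul_nonneg (by positivity) (add_nonneg (sum_nonneg fun _ _ => sum_nonneg fun _ _ =>
    mul_nonneg (hom _ _) (Nat.cast_nonneg _)) (by positivity))

theorem top_sum {ι : Type} [Fintype Al] [Fintype ι] [DecidableEq ι] {α : ι → Type}
    [∀ i, Fintype (α i)] [∀ i, DecidableEq (α i)] {ρ : ∀ i, Ω → α i}
    (hJU : JU ρ) {pt : B → ∀ i, α i} (hg : g.Ok) (hV : HidH g V pt)
    {ζ f : B → Ω → ℝ} {β : ℝ} (hζ : ZetaH ρ pt ζ β) (Φ : Ph) (hτ : TauH g V τ NB tb)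
    (hf : ∀ a x, |f a x| ≤ 2 * ζ a x) {t : ℕ} (ht : t < g.m)
    (hr : g.J (t + 1) ≤ g.r (t + 1)) :
    ∑ w ∈ range g.W, ((g.J (t + 1) : ℝ) / g.r (t + 1) *
          ∑ a, ∑ u ∈ V.CC (t + 1), tb t a u * aw Dt g (f a) Φ w t u +
        ∑ a, ∑ c ∈ V.CS \ NB t a, τ a c * aw Dt g (f a) Φ w t c) ≤ g.W * (wg g.W t *
      (5 * ((g.J (t + 1) : ℝ) / g.r (t + 1)) * ∑ a, ∑ u ∈ V.CC (t + 1), tb t a u
            + 5 * ∑ a, ∑ c ∈ V.CS \ NB t a, τ a c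
            + 3584 * β ^ 4 * HB g V (Real.log (Fintype.card Al)) Φ)) := by
  set H := HB g V (Real.log (Fintype.card Al)) Φ with hH
  have hH0 : 0 ≤ β ^ 4 * H := mul_nonneg (by positivity)
    (HB_nonneg hV.om_nonneg hV.ob_nonneg hV.mu_nonneg (Real.log_natCast_nonneg _) Φ)
  set ρ0 : ℝ := (g.J (t + 1) : ℝ) / g.r (t + 1) with hρ0
  have r0 : 0 ≤ ρ0 := by positivity
  have r1 : ρ0 ≤ 1 := div_le_one_of_le₀ (by exact_mod_cast hr) (Nat.cast_nonneg _)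
  have hw : 0 ≤ g.W * wg g.W t := by
    unfold wg
    split_ifs <;> positivity
  have a1 := hid_w Dt hJU hg hV hζ hf Φ ht (tb t) (hτ.tb_nonneg t) (hτ.tb_le t ht)
    (hτ.tb_supp t ht)
  have a2 := hid_w Dt hJU hg hV hζ hf Φ ht
    (fun a u => ∑ c ∈ (V.CS \ NB t a).filter (fun c => g.up (t + 1) c = u), τ a c)
    (fun a u => sum_nonneg fun c _ => hτ.nonneg a c)
    (fun a u => hτ.marg' ht a sdiff_subset u) fun a u h => by
      obtain ⟨c, hc, h4⟩ := exists_ne_zero_of_sum_ne_zero h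
      obtain ⟨h5, rfl⟩ := mem_filter.1 hc
      obtain ⟨h6, h7, _⟩ := hτ.supp a c (mem_sdiff.1 h5).1 h4
      exact ⟨h6, (g.up_subset _ c).trans h7⟩
  have hk : ∀ a, ∀ c ∈ V.CS \ NB t a, τ a c ≠ 0 → g.up (t + 1) c ∈ V.CC (t + 1) :=
    fun a c hc h => (hτ.supp a c (mem_sdiff.1 hc).1 h).2.2.2 (t + 1) ht
  have e1 : ∀ a, ∑ u ∈ V.CC (t + 1),
      ∑ c ∈ (V.CS \ NB t a).filter (fun c => g.up (t + 1) c = u), τ a c =
      ∑ c ∈ V.CS \ NB t a, τ a c := fun a => by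
    simpa only [mul_one] using (sum_group _ _ (τ a) (g.up (t + 1)) (fun _ => 1) (hk a)).symm
  have e2 : ∀ a, ∑ u ∈ V.CC (t + 1),
      (∑ c ∈ (V.CS \ NB t a).filter (fun c => g.up (t + 1) c = u), τ a c) *
        en (sig Dt (g.Ut Φ t u)) (f a) =
      ∑ c ∈ V.CS \ NB t a, τ a c * en (sig Dt (g.Ut Φ t c)) (f a) := fun a => by
    rw [← sum_group _ _ (τ a) (g.up (t + 1)) (fun u => en (sig Dt (g.Ut Φ t u)) (f a)) (hk a)]
    simp only [g.Ut_up hg Φ le_rfl]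
  simp only [e1, e2] at a2
  have b : ∀ (s : B → Finset (Finset ℕ)) (ω : B → Finset ℕ → ℝ), (∀ a u, 0 ≤ ω a u) →
      ∑ w ∈ range g.W, ∑ a, ∑ u ∈ s a, ω a u * aw Dt g (f a) Φ w t u ≤
      g.W * wg g.W t * ∑ a, ∑ u ∈ s a, ω a u * en (sig Dt (g.Ut Φ t u)) (f a) := by
    intro s ω h
    rw [sum_comm, mul_sum]
    refine sum_le_sum fun a _ => ?_
    rw [sum_comm, mul_sum]
    refine sum_le_sum fun u _ => ?_
    rw [← mul_sum]
    refine (mul_le_mul_of_nonneg_left (aw_avg Dt hg (f a) Φ ht u) (h a u)).trans (le_of_eq ?_)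
    ring
  have b1 := mul_le_mul_of_nonneg_left ((b (fun _ => V.CC (t + 1)) (tb t) (hτ.tb_nonneg t)).trans
    (mul_le_mul_of_nonneg_left a1 hw)) r0
  have b2 := (b (fun a => V.CS \ NB t a) τ hτ.nonneg).trans (mul_le_mul_of_nonneg_left a2 hw)
  rw [sum_add_distrib, ← mul_sum]
  have b3 := mul_le_mul_of_nonneg_left (mul_le_mul_of_nonneg_right r1 hH0) hw
  refine (add_le_add b1 b2).trans ?_
  rw [← hH]
  nlinarith

omit [Fintype Ω] [Fintype B] [DecidableEq B] in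
theorem sum3_comm {γ : Type*} [Fintype B] (s : Finset γ) (CS : Finset (Finset ℕ))
    (τ : B → Finset ℕ → ℝ) (F : γ → B → Finset ℕ → ℝ) :
    ∑ t ∈ s, ∑ a, ∑ c ∈ CS, τ a c * F t a c = ∑ a, ∑ c ∈ CS, τ a c * ∑ t ∈ s, F t a c := by
  rw [sum_comm]
  refine sum_congr rfl fun a _ => ?_
  rw [sum_comm]
  exact sum_congr rfl fun c _ => (mul_sum _ _ _).symm

theorem fin_avg {W m : ℕ} (hW : 0 < W) {L S T c d : ℝ} (hc : 0 ≤ c) (hd : 0 ≤ d)
    {X Y Z : ℕ → ℕ → ℝ}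
    (h1 : ∀ w ∈ range W, L ≤ ∑ t ∈ range m, (X t w + c * Y t w + d * Z t w))
    (h2 : ∑ t ∈ range m, ∑ w ∈ range W, Y t w ≤ W * T) (h3 : ∀ w, ∑ t ∈ range m, Z t w ≤ S) :
    L ≤ d * S + c * T + ∑ t ∈ range m, (∑ w ∈ range W, X t w) / (W : ℝ) := by
  have hW' : (0 : ℝ) < W := by exact_mod_cast hW
  have a1 := sum_le_sum h1
  have a2 := mul_le_mul_of_nonneg_left (sum_le_sum fun w (_ : w ∈ range W) => h3 w) hd
  have a3 := mul_le_mul_of_nonneg_left h2 hc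
  simp only [sum_add_distrib, ← mul_sum, sum_const, card_range, nsmul_eq_mul] at a1 a2
  rw [sum_comm] at a3
  rw [← sum_div, sum_comm, ← sub_le_iff_le_add', le_div_iff₀ hW']
  nlinarith

theorem det {ι : Type} [Fintype Al] [Fintype ι] [DecidableEq ι] {α : ι → Type}
    [∀ i, Fintype (α i)] [∀ i, DecidableEq (α i)] {ρ : ∀ i, Ω → α i}
    (hJU : JU ρ) {pt : B → ∀ i, α i} (hg : g.Ok)
    (hr : ∀ t < g.m, 0 < g.r (t + 1) ∧ g.J (t + 1) ≤ g.r (t + 1)) (hV : HidH g V pt)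
    {ζ f : B → Ω → ℝ} {β G lam : ℝ} (hζ : ZetaH ρ pt ζ β) (Φ : Ph)
    (hτ : TauH g V τ NB tb) (hf : ∀ a x, |f a x| ≤ 2 * ζ a x)
    (hf0 : ∀ a x, ce (sig Dt (g.code Φ)) (f a) x = 0) {P : B → Finset ℕ → Ω → ℝ}
    (hP : ∀ a c x, |P a c x| ≤ G)
    (hPm : ∀ a, ∀ c ∈ V.CS, τ a c ≠ 0 → Ms (sig Dt (g.code Φ ∪ g.Z0 ∩ g.cell c)) (P a c))
    {θ : ℕ → ℕ → ℝ} (hθ : ∀ t < g.m, ∀ w < g.W, 0 < θ (t + 1) w ∧ 16 * θ (t + 1) w * β * G ≤ 1)
    (hlam : 0 < lam) :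
    ∑ a, ∑ c ∈ V.CS, τ a c * |ex fun x => f a x * P a c x|
      ≤ lam / 2 * ∑ a, ∑ c ∈ V.CS, τ a c * ex (fun x => P a c x ^ 2)
        + 1 / (2 * lam) * ∑ t ∈ range g.m, wg g.W t *
          (5 * ((g.J (t + 1) : ℝ) / g.r (t + 1)) * ∑ a, ∑ u ∈ V.CC (t + 1), tb t a u
            + 5 * ∑ a, ∑ c ∈ V.CS \ NB t a, τ a c
            + 3584 * β ^ 4 * HB g V (Real.log (Fintype.card Al)) Φ)
        + ∑ t ∈ range g.m, (∑ w ∈ range g.W,
            ((∑ u ∈ V.CC t, V.om t u * pinq Dt g Φ w t u) / θ (t + 1) w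
              + 256 * g.J (t + 1) * θ (t + 1) w * β ^ 2 * G ^ 2 * ∑ a, ∑ c ∈ V.CS, τ a c)) /
                (g.W : ℝ) := by
  have hf' : ∀ a x, |f a x| ≤ 2 * β := fun a x => (hf a x).trans (by linarith [hζ.le a x])
  have s1 : ∀ w ∈ range g.W, ∑ a, ∑ c ∈ V.CS, τ a c * |ex fun x => f a x * P a c x| ≤
      ∑ t ∈ range g.m, ∑ a, ∑ c ∈ V.CS,
        τ a c * |ex fun x => f a x * ic Dt g Φ w t c (P a c) x| := by
    intro w hw
    rw [sum3_comm]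
    refine sum_le_sum fun a _ => sum_le_sum fun c hc => ?_
    by_cases h : τ a c = 0
    · simp [h]
    refine mul_le_mul_of_nonneg_left ?_ (hτ.nonneg a c)
    rw [split_ex (fun t => sig Dt (g.St Φ w t c)) g.m ((hPm a c hc h).mono (sig_anti Dt
      ((union_subset_union_right (inter_subset_inter (Subset.refl _)
        (g.cell_anti (g.up_subset 0 c)))).trans (g.St_zero Φ w c))))
      (by rw [g.St_top Φ (mem_range.1 hw)]; exact hf0 a)]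
    exact abs_sum_le_sum_abs _ _
  have s2 : ∀ w, ∑ t ∈ range g.m, ∑ a, ∑ c ∈ V.CS,
      τ a c * ex (fun x => ic Dt g Φ w t c (P a c) x ^ 2) ≤
      ∑ a, ∑ c ∈ V.CS, τ a c * ex (fun x => P a c x ^ 2) := by
    intro w
    rw [sum3_comm]
    refine sum_le_sum fun a _ => sum_le_sum fun c _ => ?_
    refine mul_le_mul_of_nonneg_left ?_ (hτ.nonneg a c)
    exact split_sq (fun t => sig Dt (g.St Φ w t c)) g.m (fun t ht => sig_anti Dt (by
      rw [g.St_succ Φ w ht.le c]; exact subset_union_left)) (P a c)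
  have s4 := sum_le_sum fun t (ht : t ∈ range g.m) =>
    top_sum Dt hJU hg hV hζ Φ hτ hf (mem_range.1 ht) (hr t (mem_range.1 ht)).2
  rw [← mul_sum] at s4
  rw [one_div]
  refine fin_avg hg.W_pos (by positivity) (by positivity) (fun w hw => (s1 w hw).trans
    (sum_le_sum fun t ht => (stage_sum Dt hg hτ hV.om_nonneg Φ w (mem_range.1 ht)
      (hr t (mem_range.1 ht)).1 hf' hP (hθ t (mem_range.1 ht) w (mem_range.1 hw)).1
      (by linarith [(hθ t (mem_range.1 ht) w (mem_range.1 hw)).2]) hlam).trans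
        (le_of_eq (by ring)))) s4 s2

end Pool.Agent.P.MP_a14ce1_nt.Fu
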