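import Pool.Agent.P.MP_a14ce1_nt.Fu.Unlock

/-! Random prefixes of a random order: the PIN chain and the PATH probability. -/

namespace Pool.Agent.P.MP_a14ce1_nt.Fu

open Finset

variable {α : Type*} [DecidableEq α]

/-- PIN chain, basic form: the expected total drop of an antitone set function when one more
element is added to a random prefix, summed over the lengths `m < m0`. -/
theorem pin_chain (R : Finset α) {n m0 : ℕ} (hm : m0 ≤ n) (h : Finset α → ℝ) (hmax : ℝ)
    (h0 : ∀ Φ ⊆ R, 0 ≤ h Φ) (h1 : h ∅ ≤ hmax)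
    (hanti : ∀ Φ ⊆ R, ∀ q ∈ R, h (insert q Φ) ≤ h Φ) :
    ∑ σ ∈ tup R n, ∑ m ∈ range m0, ∑ q ∈ R, (h (pre σ m) - h (insert q (pre σ m)))
      ≤ (tup R n).card * (R.card * hmax) := by
  have step : ∀ m ∈ range m0, ∑ σ ∈ tup R n, ∑ q ∈ R, (h (pre σ m) - h (insert q (pre σ m)))
      ≤ R.card * ∑ σ ∈ tup R n, (h (pre σ m) - h (pre σ (m + 1))) := by
    intro m hm'
    have hmn : m < n := lt_of_lt_of_le (mem_range.1 hm') hm
    have e1 : ∑ σ ∈ tup R n, ∑ q ∈ R, (h (pre σ m) - h (insert q (pre σ m)))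
        = ∑ σ ∈ tup R n, ∑ q ∈ R \ pre σ m, (h (pre σ m) - h (insert q (pre σ m))) := by
      refine sum_congr rfl fun σ _ => ?_
      symm
      refine sum_subset sdiff_subset fun q hq hq' => ?_
      have : q ∈ pre σ m := by
        by_contra hc
        exact hq' (mem_sdiff.2 ⟨hq, hc⟩)
      rw [insert_eq_of_mem this, sub_self]
    have e2 : ∑ σ ∈ tup R n, ∑ _q ∈ R \ pre σ m, h (pre σ m)
        = ((R.card : ℝ) - m) * ∑ σ ∈ tup R n, h (pre σ m) := by
      rw [mul_sum]
      refine sum_congr rfl fun x hx => ?_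
      rw [sum_const, nsmul_eq_mul, card_sdiff_pre hx hmn.le]
    have e3 : 0 ≤ ∑ σ ∈ tup R n, (h (pre σ m) - h (pre σ (m + 1))) := by
      refine sum_nonneg fun σ hσ => sub_nonneg.2 ?_
      rw [pre_succ σ hmn]
      exact hanti _ (pre_subset hσ m) _ ((mem_tup.1 hσ).1 _)
    rw [e1]
    simp only [sum_sub_distrib] at e3 ⊢
    rw [swap_step' R hmn le_rfl hmn.le h, e2, ← mul_sub]
    refine mul_le_mul_of_nonneg_right ?_ e3
    have : (0 : ℝ) ≤ m := Nat.cast_nonneg m
    linarith
  rw [sum_comm (s := tup R n)]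
  refine (sum_le_sum step).trans ?_
  rw [← mul_sum, sum_comm (s := range m0), mul_left_comm]
  refine mul_le_mul_of_nonneg_left ?_ (Nat.cast_nonneg _)
  rw [← nsmul_eq_mul]
  refine sum_le_card_nsmul _ _ _ fun σ hσ => ?_
  rw [sum_range_sub' (fun k => h (pre σ k)) m0, pre_zero]
  have := h0 _ (pre_subset hσ m0)
  linarith

/-- PIN chain as used: `h Φ = H(l | D(Φ))`, `h' Φ q = H(l | D'(Φ,q))` with `D'(Φ,q)` inside
`D(Φ + q)`, the sum over any subset `T` of `R`; average over the order and the length. -/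
theorem pin_avg (R T : Finset α) (hT : T ⊆ R) {n m0 : ℕ} (hm0 : 0 < m0) (hm : m0 ≤ n)
    (hn : n ≤ R.card) (h : Finset α → ℝ) (h' : Finset α → α → ℝ) (hmax : ℝ)
    (h0 : ∀ Φ ⊆ R, 0 ≤ h Φ) (h1 : h ∅ ≤ hmax)
    (hanti : ∀ Φ ⊆ R, ∀ q ∈ R, h (insert q Φ) ≤ h Φ)
    (hh' : ∀ Φ ⊆ R, ∀ q ∈ T, h (insert q Φ) ≤ h' Φ q) :
    (∑ σ ∈ tup R n, ∑ m ∈ range m0, ∑ q ∈ T, (h (pre σ m) - h' (pre σ m) q))
      / ((tup R n).card * m0) ≤ R.card * hmax / m0 := by
  have hc : (0 : ℝ) < (tup R n).card := by exact_mod_cast (tup_nonempty hn).card_pos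
  have hm0' : (0 : ℝ) < m0 := by exact_mod_cast hm0
  have : ∑ σ ∈ tup R n, ∑ m ∈ range m0, ∑ q ∈ T, (h (pre σ m) - h' (pre σ m) q)
      ≤ (tup R n).card * (R.card * hmax) := by
    refine le_trans ?_ (pin_chain R hm h hmax h0 h1 hanti)
    refine sum_le_sum fun σ hσ => sum_le_sum fun m _ => ?_
    have hs := pre_subset hσ m
    calc ∑ q ∈ T, (h (pre σ m) - h' (pre σ m) q)
        ≤ ∑ q ∈ T, (h (pre σ m) - h (insert q (pre σ m))) :=
          sum_le_sum fun q hq => sub_le_sub_left (hh' _ hs q hq) _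
      _ ≤ _ := sum_le_sum_of_subset_of_nonneg hT fun q hq _ => sub_nonneg.2 (hanti _ hs q hq)
  rw [div_le_div_iff₀ (mul_pos hc hm0') hm0']
  calc _ ≤ (tup R n).card * (R.card * hmax) * m0 := mul_le_mul_of_nonneg_right this hm0'.le
    _ = _ := by ring

/-- Relabelling by a transposition of two elements of `R` preserves the uniform law on tuples. -/
theorem sum_tup_swap (R : Finset α) (n : ℕ) {a b : α} (ha : a ∈ R) (hb : b ∈ R)
    (G : (Fin n → α) → ℝ) :
    ∑ σ ∈ tup R n, G (Equiv.swap a b ∘ σ) = ∑ σ ∈ tup R n, G σ := by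
  have key : ∀ σ ∈ tup R n, (Equiv.swap a b ∘ σ) ∈ tup R n := by
    intro σ hσ
    obtain ⟨h1, h2⟩ := mem_tup.1 hσ
    refine mem_tup.2 ⟨fun i => ?_, (Equiv.injective _).comp h2⟩
    simp only [Function.comp, Equiv.swap_apply_def]
    split_ifs
    · exact hb
    · exact ha
    · exact h1 _
  have inv : ∀ σ : Fin n → α, Equiv.swap a b ∘ (Equiv.swap a b ∘ σ) = σ := by
    intro σ; funext i; simp
  exact sum_bij' (fun σ _ => Equiv.swap a b ∘ σ) (fun σ _ => Equiv.swap a b ∘ σ)
    key key (fun σ _ => inv σ) (fun σ _ => inv σ) (fun _ _ => rfl)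

/-- Each element of `R` lies in the prefix of length `k` with probability `k / |R|`. -/
theorem prob_mem_pre (R : Finset α) {n k : ℕ} (hk : k ≤ n) {q : α} (hq : q ∈ R) :
    (R.card : ℝ) * ((tup R n).filter fun σ => q ∈ pre σ k).card = k * (tup R n).card := by
  have e1 : ∀ a ∈ R, (((tup R n).filter fun σ => a ∈ pre σ k).card : ℝ)
      = ((tup R n).filter fun σ => q ∈ pre σ k).card := by
    intro a ha
    rw [card_filter, card_filter]
    push_cast
    rw [← sum_tup_swap R n ha hq]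
    refine sum_congr rfl fun σ _ => ?_
    congr 1
    simp only [mem_pre, Function.comp, eq_iff_iff]
    refine exists_congr fun i => and_congr_right fun _ => ?_
    rw [Equiv.swap_apply_eq_iff, Equiv.swap_apply_left]
  calc (R.card : ℝ) * ((tup R n).filter fun σ => q ∈ pre σ k).card
      = ∑ a ∈ R, (((tup R n).filter fun σ => a ∈ pre σ k).card : ℝ) := by
        rw [sum_congr rfl e1, sum_const, nsmul_eq_mul]
    _ = ∑ σ ∈ tup R n, (k : ℝ) := by
        simp only [card_filter]
        push_cast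
        rw [sum_comm]
        refine sum_congr rfl fun σ hσ => ?_
        rw [← sum_filter, sum_const, nsmul_eq_mul, mul_one, filter_mem_eq_inter,
          inter_eq_right.2 (pre_subset hσ k), card_pre hσ hk]
    _ = _ := by rw [sum_const, nsmul_eq_mul, mul_comm]

/-- A prefix of length `k` meets `B` with probability at most `|B| k / |R|`. -/
theorem prob_meet_pre (R B : Finset α) {n k : ℕ} (hk : k ≤ n) :
    (R.card : ℝ) * ((tup R n).filter fun σ => (B ∩ pre σ k).Nonempty).card
      ≤ B.card * k * (tup R n).card := by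
  have e1 : ((tup R n).filter fun σ => (B ∩ pre σ k).Nonempty) ⊆
      (B ∩ R).biUnion fun q => (tup R n).filter fun σ => q ∈ pre σ k := by
    intro σ hσ
    obtain ⟨h1, q, hq⟩ := mem_filter.1 hσ
    obtain ⟨h2, h3⟩ := mem_inter.1 hq
    exact mem_biUnion.2 ⟨q, mem_inter.2 ⟨h2, pre_subset h1 k h3⟩, mem_filter.2 ⟨h1, h3⟩⟩
  have e2 : (((tup R n).filter fun σ => (B ∩ pre σ k).Nonempty).card : ℝ)
      ≤ ∑ q ∈ B ∩ R, (((tup R n).filter fun σ => q ∈ pre σ k).card : ℝ) := by
    exact_mod_cast (card_le_card e1).trans card_biUnion_le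
  calc _ ≤ (R.card : ℝ) * ∑ q ∈ B ∩ R, (((tup R n).filter fun σ => q ∈ pre σ k).card : ℝ) :=
        mul_le_mul_of_nonneg_left e2 (Nat.cast_nonneg _)
    _ = ∑ _q ∈ B ∩ R, (k : ℝ) * (tup R n).card := by
        rw [mul_sum]
        exact sum_congr rfl fun q hq => prob_mem_pre R hk (mem_inter.1 hq).2
    _ ≤ _ := by
        rw [sum_const, nsmul_eq_mul, mul_assoc]
        refine mul_le_mul_of_nonneg_right ?_ (by positivity)
        exact_mod_cast card_le_card inter_subset_left

/-- The external `(order, length)` with length uniform below `m0`: the prefix meets `B` with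
probability at most `|B| m0 / |R|`. -/
theorem prob_meet_ext (R B : Finset α) {n m0 : ℕ} (hm : m0 ≤ n) (hR : 0 < R.card) :
    ((((tup R n) ×ˢ range m0).filter fun e => (B ∩ pre e.1 e.2).Nonempty).card : ℝ)
      ≤ B.card * m0 / R.card * ((tup R n) ×ˢ range m0).card := by
  have hR' : (0 : ℝ) < R.card := by exact_mod_cast hR
  rw [card_filter, card_product, card_range]
  push_cast
  rw [sum_product, sum_comm]
  have : ∀ m ∈ range m0, (∑ σ ∈ tup R n, if (B ∩ pre σ m).Nonempty then (1 : ℝ) else 0)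
      ≤ B.card * m0 / R.card * (tup R n).card := by
    intro m hm'
    have hlt := mem_range.1 hm'
    have h1 := prob_meet_pre R B (n := n) (k := m) (by omega)
    rw [← sum_filter, sum_const, nsmul_eq_mul, mul_one, div_mul_eq_mul_div, le_div_iff₀ hR',
      mul_comm]
    refine h1.trans ?_
    have : (m : ℝ) ≤ m0 := by exact_mod_cast hlt.le
    gcongr
  refine (sum_le_card_nsmul _ _ _ this).trans (le_of_eq ?_)
  rw [card_range, nsmul_eq_mul]
  ring

/-- PATH: independent externals indexed by `ι`; all prefixes meet `B` with probability at most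
`∏ (|B| m0 / |R|)`. -/
theorem prob_path {ι : Type*} [Fintype ι] [DecidableEq ι] (R B : Finset α) {n : ℕ} (m0 : ℕ)
    (hm : m0 ≤ n) (hR : 0 < R.card) :
    (((Fintype.piFinset fun _ : ι => (tup R n) ×ˢ range m0).filter
        fun e => ∀ s, (B ∩ pre (e s).1 (e s).2).Nonempty).card : ℝ)
      ≤ (B.card * m0 / R.card) ^ Fintype.card ι *
        (Fintype.piFinset fun _ : ι => (tup R n) ×ˢ range m0).card := by
  have e1 : ((Fintype.piFinset fun _ : ι => (tup R n) ×ˢ range m0).filter
        fun e => ∀ s, (B ∩ pre (e s).1 (e s).2).Nonempty)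
      = Fintype.piFinset fun _ : ι =>
        (((tup R n) ×ˢ range m0).filter fun e => (B ∩ pre e.1 e.2).Nonempty) := by
    ext e
    simp only [mem_filter, Fintype.mem_piFinset, forall_and]
  rw [e1, Fintype.card_piFinset, Fintype.card_piFinset, prod_const, prod_const, card_univ]
  push_cast
  rw [← mul_pow]
  exact pow_le_pow_left₀ (Nat.cast_nonneg _) (prob_meet_ext R B hm hR) _

/-- The prefix of length `k` of a uniform injective tuple is a uniform `k`-subset. -/
theorem law_pre (A : Finset α) {n k : ℕ} (hk : k ≤ n) (hn : n ≤ A.card) (g : Finset α → ℝ) :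
    (A.card.choose k : ℝ) * ∑ x ∈ tup A n, g (pre x k)
      = (tup A n).card * ∑ K ∈ A.powersetCard k, g K := by
  induction k generalizing g with
  | zero => simp [pre_zero]
  | succ k ih =>
    have hkn : k < n := by omega
    have hpos : (0 : ℝ) < (A.card : ℝ) - k := by
      have : (k : ℝ) < A.card := by exact_mod_cast (by omega : k < A.card)
      linarith
    have h1 := swap_step' A hkn le_rfl hkn.le g
    have h2 := ih hkn.le (fun K => ∑ q ∈ A \ K, g (insert q K))
    have h3 : ∑ K ∈ A.powersetCard k, ∑ q ∈ A \ K, g (insert q K)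
        = ((k : ℝ) + 1) * ∑ K ∈ A.powersetCard (k + 1), g K := by
      have : ((k : ℝ) + 1) * ∑ K ∈ A.powersetCard (k + 1), g K
          = ∑ K ∈ A.powersetCard (k + 1), ∑ _q ∈ K, g K := by
        rw [mul_sum]
        refine sum_congr rfl fun K hK => ?_
        rw [sum_const, nsmul_eq_mul, (mem_powersetCard.1 hK).2]
        push_cast; ring
      rw [this, sum_sigma', sum_sigma']
      refine sum_bij' (fun z _ => ⟨insert z.2 z.1, z.2⟩) (fun z _ => ⟨z.1.erase z.2, z.2⟩)
        ?_ ?_ ?_ ?_ ?_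
      · rintro ⟨K, q⟩ hz
        obtain ⟨a1, a2⟩ := mem_sigma.1 hz
        obtain ⟨b1, b2⟩ := mem_powersetCard.1 a1
        obtain ⟨c1, c2⟩ := mem_sdiff.1 a2
        refine mem_sigma.2 ⟨mem_powersetCard.2 ⟨insert_subset c1 b1, ?_⟩, mem_insert_self _ _⟩
        rw [card_insert_of_notMem c2, b2]
      · rintro ⟨K, q⟩ hz
        obtain ⟨a1, a2⟩ := mem_sigma.1 hz
        obtain ⟨b1, b2⟩ := mem_powersetCard.1 a1
        refine mem_sigma.2 ⟨mem_powersetCard.2 ⟨(erase_subset _ _).trans b1, ?_⟩,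
          mem_sdiff.2 ⟨b1 a2, notMem_erase _ _⟩⟩
        rw [card_erase_of_mem a2, b2]; rfl
      · rintro ⟨K, q⟩ hz
        obtain ⟨a1, a2⟩ := mem_sigma.1 hz
        obtain ⟨c1, c2⟩ := mem_sdiff.1 a2
        simp only [Sigma.mk.injEq, heq_eq_eq, and_true]
        exact erase_insert c2
      · rintro ⟨K, q⟩ hz
        obtain ⟨a1, a2⟩ := mem_sigma.1 hz
        simp only [Sigma.mk.injEq, heq_eq_eq, and_true]
        exact insert_erase a2
      · rintro ⟨K, q⟩ _
        rfl
    have h4 : ((A.card.choose (k + 1) : ℕ) : ℝ) * ((k : ℝ) + 1)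
        = (A.card.choose k : ℝ) * ((A.card : ℝ) - k) := by
      have := Nat.choose_succ_right_eq A.card k
      have h5 : ((A.card - k : ℕ) : ℝ) = (A.card : ℝ) - k := Nat.cast_sub (by omega)
      rw [← h5]
      exact_mod_cast this
    rw [h1, h3] at h2
    have hk1 : (0 : ℝ) < (k : ℝ) + 1 := by positivity
    apply mul_left_cancel₀ hk1.ne'
    calc ((k : ℝ) + 1) * ((A.card.choose (k + 1) : ℝ) * ∑ x ∈ tup A n, g (pre x (k + 1)))
        = (A.card.choose k : ℝ) * (((A.card : ℝ) - k) * ∑ x ∈ tup A n, g (pre x (k + 1))) := by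
          rw [← mul_assoc, mul_comm ((k : ℝ) + 1), h4, mul_assoc]
      _ = _ := by rw [h2]; ring

/-- The number of injective tuples. -/
theorem card_tup (A : Finset α) (n : ℕ) : (tup A n).card = A.card.descFactorial n := by
  have : (tup A n).card = Fintype.card (Fin n ↪ A) := by
    rw [← card_univ]
    symm
    refine card_bij (fun f _ => fun i => (f i : α)) ?_ ?_ ?_
    · intro f _
      exact mem_tup.2 ⟨fun i => (f i).2, fun i j h => f.injective (Subtype.ext h)⟩
    · intro f _ g _ h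
      ext i
      exact congrFun h i
    · intro x hx
      obtain ⟨h1, h2⟩ := mem_tup.1 hx
      exact ⟨⟨fun i => ⟨x i, h1 i⟩, fun i j h => h2 (congrArg Subtype.val h)⟩, mem_univ _, rfl⟩
  rw [this, Fintype.card_embedding_eq, Fintype.card_coe, Fintype.card_fin]

end Pool.Agent.P.MP_a14ce1_nt.Fu
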