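import Pool.Agent.P.MP_a14ce1_nt.Fu.Zset
import Pool.Agent.P.MP_a14ce1_nt.Fu.Pin

/-!
Section 3 (b)-(d): the hypotheses and the quantities of the abstract compression inequality on one
fibre.  Levels are numbered `1..m`; the stage of level `t + 1` is indexed by `t < m`.
-/

open Finset

namespace Pool.Agent.P.MP_a14ce1_nt.Fu

/-- weights that do not depend on the externals: `CS` the objects, `CC t` their parts above level
`t`, `om t` the majorant of the weights of these parts -/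
structure Wt (B : Type) where
  CS : Finset (Finset ℕ)
  CC : ℕ → Finset (Finset ℕ)
  om : ℕ → Finset ℕ → ℝ
  ob : ℝ
  mu : ℝ
  Good : Finset B

/-- the weight of stage `t + 1` after the average over the copies -/
noncomputable def wg (W t : ℕ) : ℝ := if t < 2 then 1 else 1 / W

/-- average over the orders of `Q`, a prefix length `k < r` and an extra element of `T \ Q` -/
noncomputable def av3 (Q T : Finset ℕ) (r : ℕ) (F : Finset ℕ → ℕ → ℝ) : ℝ :=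
  (∑ x ∈ tup Q r, ∑ k ∈ range r, ∑ q ∈ T \ Q, F (pre x k) q) /
    ((tup Q r).card * r * (T \ Q).card)

/-- average over the orders of `Q` and a prefix length `k < r` -/
noncomputable def av2 (Q : Finset ℕ) (r : ℕ) (F : Finset ℕ → ℝ) : ℝ :=
  (∑ x ∈ tup Q r, ∑ k ∈ range r, F (pre x k)) / ((tup Q r).card * r)

section

variable {B : Type} [Fintype B] [DecidableEq B]

/-- covering and separation hypotheses for the hidden information -/
structure HidH {ι : Type} {α : ι → Type} [∀ i, Fintype (α i)] [∀ i, DecidableEq (α i)]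
    (g : Geo B) (V : Wt B) (pt : B → ∀ i, α i) : Prop where
  om_nonneg : ∀ t u, 0 ≤ V.om t u
  ob_nonneg : 0 ≤ V.ob
  mu_nonneg : 0 ≤ V.mu
  up_self : ∀ t ≤ g.m, ∀ u ∈ V.CC t, g.up t u = u
  up_mem : ∀ t < g.m, ∀ u ∈ V.CC t, g.up (t + 1) u ∈ V.CC (t + 1)
  cover : ∀ t, 1 ≤ t → t < g.m → ∀ v ∈ V.CC (t + 1), ∀ b ∈ V.Good,
    ∑ u ∈ (V.CC t).filter (fun u => g.up (t + 1) u = v ∧ u ⊆ g.A b), V.om t u ≤ V.om (t + 1) v
  cover_top : ∀ b ∈ V.Good, ∑ u ∈ (V.CC g.m).filter (fun u => u ⊆ g.A b), V.om g.m u ≤ V.ob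
  small : ∀ t, 1 ≤ t → t ≤ g.m → ∀ u ∈ V.CC t, ∀ i, 2 * (g.cell u).card ≤ Fintype.card (α i)
  inj : ∀ t, 1 ≤ t → t ≤ g.m → ∀ u ∈ V.CC t, ∀ i v,
    ((g.cell u).filter fun b => pt b i = v).card ≤ 1
  fib : ∀ i v, ((univ.filter fun b => pt b i = v).card : ℝ) ≤ V.mu

/-- the hidden weight -/
structure ZetaH {Ω ι : Type} [Fintype Ω] [Fintype ι] {α : ι → Type} [∀ i, DecidableEq (α i)]
    (ρ : ∀ i, Ω → α i) (pt : B → ∀ i, α i) (ζ : B → Ω → ℝ) (β : ℝ) : Prop where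
  nonneg : ∀ a x, 0 ≤ ζ a x
  le : ∀ a x, ζ a x ≤ β
  mean : ∀ a, ex (ζ a) = 1
  ms : ∀ a, Ms (xs ρ pt {a}) (ζ a)

/-- the weight `τ` of the pairs (target site, object), the sets `NB t a` of the objects that are
not bad at stage `t + 1`, and the majorant `tb` of the unlocking step -/
structure TauH (g : Geo B) (V : Wt B) (τ : B → Finset ℕ → ℝ)
    (NB : ℕ → B → Finset (Finset ℕ)) (tb : ℕ → B → Finset ℕ → ℝ) : Prop where
  nonneg : ∀ a c, 0 ≤ τ a c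
  supp : ∀ a, ∀ c ∈ V.CS, τ a c ≠ 0 → a ∈ V.Good ∧ c ⊆ g.A a ∧
    (∀ t < g.m, (c ∩ g.R (t + 1)).card = g.r (t + 1)) ∧ ∀ t ≤ g.m, g.up t c ∈ V.CC t
  marg : ∀ t ≤ g.m, ∀ a u, ∑ c ∈ V.CS.filter (fun c => g.up t c = u), τ a c ≤ V.om t u
  nb_sub : ∀ t a, NB t a ⊆ V.CS
  nb : ∀ t < g.m, ∀ a, ∀ c ∈ NB t a, τ a c ≠ 0 →
    g.r (t + 1) < (g.A a ∩ g.R (t + 1)).card ∧
      ∀ q ∈ g.R (t + 1), q ∉ c → (g.cell (insert q (g.up t c))).card ≤ 1
  unl : ∀ t < g.m, ∀ a u Q, ((g.A a ∩ g.R (t + 1)).card.choose (g.r (t + 1)) : ℝ) *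
    ∑ c ∈ (NB t a).filter (fun c => g.up (t + 1) c = u ∧ c ∩ g.R (t + 1) = Q), τ a c ≤ tb t a u
  tb_nonneg : ∀ t a u, 0 ≤ tb t a u
  tb_le : ∀ t < g.m, ∀ a u, tb t a u ≤ V.om (t + 1) u
  tb_supp : ∀ t < g.m, ∀ a u, tb t a u ≠ 0 → a ∈ V.Good ∧ u ⊆ g.A a

omit [Fintype B] [DecidableEq B] in
/-- the law of the externals -/
def ExtH {E : Type} [Fintype E] (g : Geo B) (Φ : E → Ph) (φ : ℕ → ℕ → ℝ) : Prop :=
  ∀ t < g.m, ∀ w < g.W, 0 < φ (t + 1) w ∧ ∀ s < g.J (t + 1),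
    PinP Φ (ix (t + 1) w s) (g.R (t + 1)) (φ (t + 1) w) ∧
      HitP Φ (ix (t + 1) w s) (g.R (t + 1)) (φ (t + 1) w)

omit [Fintype B] [DecidableEq B] in
/-- the recursion for the probability that a site of `Z0` lies in `Z_t^w` -/
structure ZH (g : Geo B) (φ : ℕ → ℕ → ℝ) (κ : ℕ → ℝ) (z : ℕ → ℕ → ℝ) : Prop where
  card : ∀ t < g.m, ∀ b ∈ g.Z0, ((g.A b ∩ g.R (t + 1)).card : ℝ) ≤ κ (t + 1)
  zero : ∀ w < g.W, 1 ≤ z 0 w
  nonneg : ∀ t w, 0 ≤ z t w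
  step : ∀ t < g.m, ∀ w < g.W, z t w * (κ (t + 1) * φ (t + 1) w) ^ g.J (t + 1) +
    (if 2 ≤ t ∧ 0 < w then z t (w - 1) else 0) ≤ z (t + 1) w

/-- the weighted number of sites of `Z0` in the cells of level `t` -/
noncomputable def YY (g : Geo B) (V : Wt B) (t : ℕ) : ℝ :=
  ∑ u ∈ V.CC t, V.om t u * (g.Z0 ∩ g.cell u).card

/-- the bound for the hidden information, externals fixed; `lA` is the log of the alphabet size -/
noncomputable def HB (g : Geo B) (V : Wt B) (lA : ℝ) (Φ : Ph) : ℝ :=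
  lA * 7 ^ g.m * (∑ s ∈ range g.m, ∑ u ∈ V.CC (s + 1),
    V.om (s + 1) u * (g.Zs Φ s (g.W - 1) ∩ g.cell u).card + V.mu * V.ob * (g.code Φ).card)

/-- the bound for the mean of `HB` -/
noncomputable def HBz (g : Geo B) (V : Wt B) (lA : ℝ) (z : ℕ → ℕ → ℝ) : ℝ :=
  lA * 7 ^ g.m * (∑ s ∈ range g.m, z s (g.W - 1) * YY g V (s + 1) +
    V.mu * V.ob * (g.C0.card + z g.m (g.W - 1) * g.Z0.card))

variable {Ω Al : Type} [Fintype Ω] (Dt : Ω → B → Al) (g : Geo B)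

/-- the entropy of the pinned sites given `D_s` -/
noncomputable def hh (w t : ℕ) (u K : Finset ℕ) (s : ℕ) (Ψ : Ph) : ℝ :=
  cH (sig Dt (g.pl Ψ w t u)) (sig Dt (g.St Ψ w (t + 1) u ∪ g.WW Ψ w t u K s))

/-- the entropy drops of stage `t + 1` -/
noncomputable def dh (Φ : Ph) (w t : ℕ) (u K : Finset ℕ) (q : ℕ) : ℝ :=
  ∑ s ∈ range (g.J (t + 1)), (hh Dt g w t u K s Φ - hh Dt g w t u K s
    (Function.update Φ (ix (t + 1) w s) (insert q (Φ (ix (t + 1) w s)))))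

/-- the energy drops of stage `t + 1` -/
noncomputable def de (f : Ω → ℝ) (Φ : Ph) (w t : ℕ) (u K : Finset ℕ) (q : ℕ) : ℝ :=
  ∑ s ∈ range (g.J (t + 1)),
    (en (sig Dt (g.St Φ w (t + 1) u ∪ g.WW Φ w t u K (s + 1))) f -
      en (sig Dt (g.St Φ w (t + 1) u ∪ g.WW Φ w t u (insert q K) (s + 1))) f)

/-- the energy interval `a_(t+1)^w` -/
noncomputable def aw (f : Ω → ℝ) (Φ : Ph) (w t : ℕ) (u : Finset ℕ) : ℝ :=
  en (sig Dt (g.Sp Φ w t u)) f - en (sig Dt (g.St Φ w (t + 1) u)) f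

/-- the pinning cost of the part `u` above level `t` -/
noncomputable def pinq (Φ : Ph) (w t : ℕ) (u : Finset ℕ) : ℝ :=
  av2 (u ∩ g.R (t + 1)) (g.r (t + 1)) fun K => ∑ q ∈ g.R (t + 1), dh Dt g Φ w t u K q

end

/-! ### the concrete externals -/

/-- the coordinates: levels `1..m`, copies `< W`, steps `< Jm` -/
def exI (m W Jm : ℕ) : Finset (ℕ × ℕ × ℕ) := Icc 1 m ×ˢ range W ×ˢ range Jm

/-- for each coordinate an injective tuple of length `m0` in `R t` and a length `< m0` -/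
abbrev Ext (m W Jm : ℕ) (R : ℕ → Finset ℕ) (m0 : ℕ → ℕ → ℕ) : Type :=
  ∀ i : exI m W Jm, ↥(tup (R i.1.1) (m0 i.1.1 i.1.2.1) ×ˢ range (m0 i.1.1 i.1.2.1))

/-- the external sets -/
def phi {m W Jm : ℕ} {R : ℕ → Finset ℕ} {m0 : ℕ → ℕ → ℕ} (e : Ext m W Jm R m0) : Ph :=
  fun i => if h : i ∈ exI m W Jm then pre (e ⟨i, h⟩).1.1 (e ⟨i, h⟩).1.2 else ∅

end Pool.Agent.P.MP_a14ce1_nt.Fu
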