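import Pool.Agent.P.MP_a14ce1_nt.Fu.CoSt

/-! Section 3 (c): averages over orders, prefixes and extra elements; unlocking for sets. -/

open Finset

namespace Pool.Agent.P.MP_a14ce1_nt.Fu

theorem av3_const {Q T : Finset ℕ} {r : ℕ} (hr : 0 < r) (hQ : Q.card = r) (hQT : Q ⊆ T)
    (hT : r < T.card) (c : ℝ) : av3 Q T r (fun _ _ => c) = c := by
  have h1 : (0 : ℝ) < (tup Q r).card := by exact_mod_cast (tup_nonempty hQ.ge).card_pos
  have h2 : (0 : ℝ) < r := by exact_mod_cast hr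
  have h3 : (0 : ℝ) < (T \ Q).card := by
    have : 0 < (T \ Q).card := by rw [card_sdiff_of_subset hQT]; omega
    exact_mod_cast this
  simp only [av3, sum_const, card_range, nsmul_eq_mul]
  field_simp

theorem av3_add (Q T : Finset ℕ) (r : ℕ) (F G : Finset ℕ → ℕ → ℝ) :
    av3 Q T r (fun K q => F K q + G K q) = av3 Q T r F + av3 Q T r G := by
  simp only [av3, sum_add_distrib, add_div]

theorem av3_mul (Q T : Finset ℕ) (r : ℕ) (c : ℝ) (F : Finset ℕ → ℕ → ℝ) :
    av3 Q T r (fun K q => c * F K q) = c * av3 Q T r F := by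
  simp only [av3, ← mul_sum, mul_div_assoc]

theorem av3_mono {Q T : Finset ℕ} {r : ℕ} {F G : Finset ℕ → ℕ → ℝ}
    (h : ∀ K ⊆ Q, ∀ q ∈ T \ Q, F K q ≤ G K q) : av3 Q T r F ≤ av3 Q T r G := by
  unfold av3
  refine div_le_div_of_nonneg_right ?_ (by positivity)
  exact sum_le_sum fun x hx => sum_le_sum fun k _ => sum_le_sum fun q hq =>
    h _ (pre_subset hx k) q hq

namespace CoUnl

theorem fib (A : Finset ℕ) (r : ℕ) (G : Finset ℕ → (Fin r → ℕ) → ℝ) :
    ∑ Q ∈ A.powersetCard r, ∑ x ∈ tup Q r, G Q x = ∑ x ∈ tup A r, G (pre x r) x := by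
  rw [← sum_fiberwise_of_maps_to (s := tup A r) (t := A.powersetCard r) (g := fun x => pre x r)
    (fun x hx => mem_powersetCard.2 ⟨pre_subset hx r, card_pre hx le_rfl⟩)]
  refine sum_congr rfl fun Q hQ => ?_
  obtain ⟨h1, h2⟩ := mem_powersetCard.1 hQ
  have : tup Q r = (tup A r).filter fun x => pre x r = Q := by
    ext x
    rw [mem_filter]
    constructor
    · intro hx
      refine ⟨mem_tup.2 ⟨fun i => h1 ((mem_tup.1 hx).1 i), (mem_tup.1 hx).2⟩, ?_⟩
      exact eq_of_subset_of_card_le (pre_subset hx r) (by rw [card_pre hx le_rfl, h2])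
    · rintro ⟨hx, rfl⟩
      exact mem_tup.2 ⟨fun i => mem_pre.2 ⟨i, i.2, rfl⟩, (mem_tup.1 hx).2⟩
  rw [this]
  exact sum_congr rfl fun x hx => by rw [(mem_filter.1 hx).2]

end CoUnl

/-- tup T r is the disjoint union of the tup Q r -/
theorem unl_set {κ : Type} (T : Finset ℕ) {r : ℕ} (hr : 0 < r) (hT : r < T.card) (I : Finset κ)
    (φ : κ → Finset ℕ → ℝ) (a : ℝ) (ha : ∀ s ∈ I, ∀ K ⊆ T, φ s ∅ - φ s K ≤ a) :
    ∑ Q ∈ T.powersetCard r, av3 Q T r (fun K q => ∑ s ∈ I, (φ s K - φ s (insert q K)))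
      ≤ (T.card.choose r) * ((I.card : ℝ) / r * a) := by
  have hf : (0 : ℝ) < r.factorial := by exact_mod_cast r.factorial_pos
  have h2 : (0 : ℝ) < r := by exact_mod_cast hr
  have h3 : (0 : ℝ) < (T.card : ℝ) - r := by
    have : (r : ℝ) < T.card := by exact_mod_cast hT
    linarith
  have e1 : ∑ Q ∈ T.powersetCard r, av3 Q T r (fun K q => ∑ s ∈ I, (φ s K - φ s (insert q K)))
      = (∑ Q ∈ T.powersetCard r, ∑ x ∈ tup Q r, ∑ k ∈ range r, ∑ q ∈ T \ Q,
          ∑ s ∈ I, (φ s (pre x k) - φ s (insert q (pre x k)))) /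
        (r.factorial * r * ((T.card : ℝ) - r)) := by
    rw [sum_div]
    refine sum_congr rfl fun Q hQ => ?_
    obtain ⟨hQ1, hQ2⟩ := mem_powersetCard.1 hQ
    unfold av3
    rw [card_tup, hQ2, Nat.descFactorial_self, card_sdiff_of_subset hQ1, hQ2,
      Nat.cast_sub hT.le]
  rw [e1, CoUnl.fib T r (fun Q x => ∑ k ∈ range r, ∑ q ∈ T \ Q,
    ∑ s ∈ I, (φ s (pre x k) - φ s (insert q (pre x k))))]
  have e2 : ∑ x ∈ tup T r, ∑ k ∈ range r, ∑ q ∈ T \ pre x r,
      ∑ s ∈ I, (φ s (pre x k) - φ s (insert q (pre x k)))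
      = ∑ s ∈ I, ∑ x ∈ tup T r, ∑ q ∈ T \ pre x r, ∑ k ∈ range r,
        (φ s (pre x k) - φ s (insert q (pre x k))) := by
    rw [sum_comm (s := I)]
    refine sum_congr rfl fun x _ => ?_
    rw [sum_comm (s := range r), sum_comm (s := I)]
    refine sum_congr rfl fun q _ => ?_
    rw [sum_comm]
  have e3 : ∀ s ∈ I, ∑ x ∈ tup T r, ∑ q ∈ T \ pre x r, ∑ k ∈ range r,
      (φ s (pre x k) - φ s (insert q (pre x k)))
      ≤ ((T.card : ℝ) - r) * ((tup T r).card * a) := by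
    intro s hs
    rw [unlock_tup_eq]
    refine mul_le_mul_of_nonneg_left ?_ h3.le
    rw [← nsmul_eq_mul]
    exact sum_le_card_nsmul _ _ _ fun x hx => ha s hs _ (pre_subset hx r)
  rw [e2, div_le_iff₀ (by positivity)]
  refine (sum_le_sum e3).trans (le_of_eq ?_)
  rw [sum_const, nsmul_eq_mul, card_tup, Nat.descFactorial_eq_factorial_mul_choose]
  push_cast
  field_simp

/-- the regrouping of the pinning terms: each q outside u is carried by at most one site -/
theorem pin_group {B : Type} [Fintype B] [DecidableEq B] (g : Geo B) (R u : Finset ℕ) (r : ℕ)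
    (τ : B → ℝ) (om : ℝ)
    (F : Finset ℕ → ℕ → ℝ) (hF : ∀ K q, 0 ≤ F K q) (h0 : ∀ a, 0 ≤ τ a) (h1 : ∀ a, τ a ≤ om)
    (h2 : ∀ a, τ a ≠ 0 → u ⊆ g.A a) (h3 : ∀ q ∈ R, q ∉ u → (g.cell (insert q u)).card ≤ 1)
    (hom : 0 ≤ om) :
    ∑ a, τ a * av3 (u ∩ R) (g.A a ∩ R) r F ≤ om * av2 (u ∩ R) r fun K => ∑ q ∈ R, F K q := by
  set D : ℝ := ((tup (u ∩ R) r).card : ℝ) * r with hD
  have hD0 : 0 ≤ D := by positivity
  set H : ℕ → ℝ := fun q => ∑ x ∈ tup (u ∩ R) r, ∑ k ∈ range r, F (pre x k) q with hH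
  have hH0 : ∀ q, 0 ≤ H q := fun q =>
    sum_nonneg fun x _ => sum_nonneg fun k _ => hF _ q
  have e1 : ∀ T : Finset ℕ, ∑ x ∈ tup (u ∩ R) r, ∑ k ∈ range r, ∑ q ∈ T, F (pre x k) q
      = ∑ q ∈ T, H q := by
    intro T
    rw [sum_comm (s := T)]
    refine sum_congr rfl fun x _ => ?_
    rw [sum_comm]
  have e2 : ∀ T : Finset ℕ, av3 (u ∩ R) T r F ≤ (∑ q ∈ T \ (u ∩ R), H q) / D := by
    intro T
    unfold av3
    rw [e1, ← hD]
    rcases (T \ (u ∩ R)).eq_empty_or_nonempty with h | h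
    · simp [h]
    · have hc : (1 : ℝ) ≤ (T \ (u ∩ R)).card := by exact_mod_cast h.card_pos
      rw [← div_div]
      exact div_le_self (div_nonneg (sum_nonneg fun q _ => hH0 q) hD0) hc
  have e3 : ∀ a, τ a * av3 (u ∩ R) (g.A a ∩ R) r F
      ≤ (∑ q ∈ R \ u, if a ∈ g.cell (insert q u) then om * H q else 0) / D := by
    intro a
    by_cases hz : τ a = 0
    · rw [hz, zero_mul]
      refine div_nonneg (sum_nonneg fun q _ => ?_) hD0
      split_ifs
      · exact mul_nonneg hom (hH0 q)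
      · exact le_rfl
    · refine (mul_le_mul (h1 a) (e2 _) ?_ hom).trans ?_
      · unfold av3
        exact div_nonneg (sum_nonneg fun x _ => sum_nonneg fun k _ => sum_nonneg fun q _ =>
          hF _ q) (by positivity)
      · rw [← mul_div_assoc, mul_sum, ← sum_filter]
        refine div_le_div_of_nonneg_right (le_of_eq (sum_congr ?_ fun _ _ => rfl)) hD0
        ext q
        simp only [mem_sdiff, mem_inter, mem_filter, g.mem_cell, insert_subset_iff]
        have := h2 a hz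
        tauto
  refine (sum_le_sum fun a _ => e3 a).trans ?_
  unfold av2
  rw [← sum_div, e1, ← hD, ← mul_div_assoc]
  refine div_le_div_of_nonneg_right ?_ hD0
  rw [sum_comm, mul_sum]
  refine le_trans (sum_le_sum fun q hq => ?_)
    (sum_le_sum_of_subset_of_nonneg (sdiff_subset (s := R) (t := u))
      fun q _ _ => mul_nonneg hom (hH0 q))
  obtain ⟨hq1, hq2⟩ := mem_sdiff.1 hq
  rw [← sum_filter, sum_const, nsmul_eq_mul]
  have : ((univ.filter fun a => a ∈ g.cell (insert q u)).card : ℝ) ≤ 1 := by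
    rw [filter_mem_eq_inter, univ_inter]
    exact_mod_cast h3 q hq1 hq2
  exact mul_le_of_le_one_left (mul_nonneg hom (hH0 q)) this

end Pool.Agent.P.MP_a14ce1_nt.Fu
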