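import Pool.Agent.P.MP_a14ce1_nt.Fu.CoDet
import Pool.Agent.P.MP_a14ce1_nt.Fu.CoDens

/-!
Section 3: the compression inequality on one fibre, averaged over the externals of the family.
-/

open Finset

namespace Pool.Agent.P.MP_a14ce1_nt.Fu

section

variable {B : Type} [Fintype B] [DecidableEq B]

/-- COMP on one fibre, averaged over the externals of the family -/
theorem acomp {Ω Al ι E : Type} [Fintype Ω] [Fintype Al] [Fintype ι] [DecidableEq ι] [Fintype E]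
    {α : ι → Type} [∀ i, Fintype (α i)] [∀ i, DecidableEq (α i)] (Dt : Ω → B → Al)
    {ρ : ∀ i, Ω → α i} (hJU : JU ρ) {pt : B → ∀ i, α i} {g : Geo B} (hg : g.Ok)
    (hr : ∀ t < g.m, 0 < g.r (t + 1) ∧ g.J (t + 1) ≤ g.r (t + 1)) {V : Wt B} (hV : HidH g V pt)
    {ζ : B → Ω → ℝ} {β G lam : ℝ} (hζ : ZetaH ρ pt ζ β) {Φ : E → Ph} {φ z θ : ℕ → ℕ → ℝ}
    {κ : ℕ → ℝ} (hE : ExtH g Φ φ) (hz : ZH g φ κ z)
    {τ : E → B → Finset ℕ → ℝ} {NB : E → ℕ → B → Finset (Finset ℕ)}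
    {tb : E → ℕ → B → Finset ℕ → ℝ} (hτ : ∀ e, TauH g V (τ e) (NB e) (tb e))
    {f : E → B → Ω → ℝ} (hf : ∀ e a x, |f e a x| ≤ 2 * ζ a x)
    (hf0 : ∀ e a x, ce (sig Dt (g.code (Φ e))) (f e a) x = 0) {P : E → B → Finset ℕ → Ω → ℝ}
    (hP : ∀ e a c x, |P e a c x| ≤ G)
    (hPm : ∀ e a, ∀ c ∈ V.CS, τ e a c ≠ 0 →
      Ms (sig Dt (g.code (Φ e) ∪ g.Z0 ∩ g.cell c)) (P e a c))
    (hθ : ∀ t < g.m, ∀ w < g.W, 0 < θ (t + 1) w ∧ 16 * θ (t + 1) w * β * G ≤ 1)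
    (hlam : 0 < lam) :
    ex (fun e => ∑ a, ∑ c ∈ V.CS, τ e a c * |ex fun x => f e a x * P e a c x|)
      ≤ lam / 2 * ex (fun e => ∑ a, ∑ c ∈ V.CS, τ e a c * ex fun x => P e a c x ^ 2)
        + 1 / (2 * lam) * ∑ t ∈ range g.m, wg g.W t *
          (5 * ((g.J (t + 1) : ℝ) / g.r (t + 1)) *
              ex (fun e => ∑ a, ∑ u ∈ V.CC (t + 1), tb e t a u)
            + 5 * ex (fun e => ∑ a, ∑ c ∈ V.CS \ NB e t a, τ e a c)
            + 3584 * β ^ 4 * HBz g V (Real.log (Fintype.card Al)) z)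
        + ∑ t ∈ range g.m, (∑ w ∈ range g.W,
            (g.J (t + 1) * Real.log (Fintype.card Al) * z t w * YY g V t /
                (θ (t + 1) w * φ (t + 1) w)
              + 256 * g.J (t + 1) * θ (t + 1) w * β ^ 2 * G ^ 2 *
                ex fun e => ∑ a, ∑ c ∈ V.CS, τ e a c)) / (g.W : ℝ) := by
  have hl : 0 ≤ Real.log (Fintype.card Al) := Real.log_natCast_nonneg _
  refine (ex_mono fun e => det Dt hJU hg hr hV hζ (Φ e) (hτ e) (hf e) (hf0 e) (hP e) (hPm e) hθ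
    hlam).trans ?_
  rw [ex_add, ex_add, ex_mul, ex_mul, ex_sum (range g.m), ex_sum (range g.m)]
  refine add_le_add (add_le_add le_rfl (mul_le_mul_of_nonneg_left (sum_le_sum fun t _ => ?_)
    (by positivity))) (sum_le_sum fun t ht => ?_)
  · rw [ex_mul, ex_add, ex_add, ex_mul, ex_mul, ex_mul]
    have h1 := ex_HB hg hE hz hV.om_nonneg hV.ob_nonneg hV.mu_nonneg hl
    have h2 : 0 ≤ wg g.W t := by unfold wg; split_ifs <;> positivity
    gcongr
  · have ht' := mem_range.1 ht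
    rw [ex_div, ex_sum (range g.W)]
    refine div_le_div_of_nonneg_right (sum_le_sum fun w hw => ?_) (Nat.cast_nonneg _)
    have hw' := mem_range.1 hw
    have h0 := (hθ t ht' w hw').1
    rw [ex_add, ex_mul, ex_div, ex_sum (V.CC t)]
    refine add_le_add ?_ le_rfl
    rw [mul_comm (θ (t + 1) w), ← div_div]
    refine div_le_div_of_nonneg_right ?_ h0.le
    rw [YY, mul_sum, sum_div]
    refine sum_le_sum fun u hu => ?_
    rw [ex_mul]
    refine (mul_le_mul_of_nonneg_left (ex_pinq Dt hE hz ht' hw' u) (hV.om_nonneg t u)).trans ?_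
    rw [hV.up_self t ht'.le u hu]
    exact le_of_eq (by ring)

end

end Pool.Agent.P.MP_a14ce1_nt.Fu
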