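import Pool.Agent.P.MP_a14ce1_nt.Fu.CpDef

/-!
Section 3 on the model: basic structure of the objects, periodicity, the mean over `Θ`, the mean at
one site.
-/

open Finset

namespace Pool.Agent.P.MP_a14ce1_nt.Fu.St.Cp

open Ch (pv mu rs lam)

variable {F : Fam} {P : Par}

theorem geo_up (C0 : ℕ → Finset ℕ) (Θ : Finset (Fin F.N)) (x t : ℕ) (u : Finset ℕ) :
    (geo F P C0 Θ x).up t u = up P t u := rfl

theorem RT_eq {t : ℕ} (ht : t ≤ F.m) : RT F t = F.R t := if_pos ht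

theorem lt_tp (h : Hyp0 F P) {s t q : ℕ} (ht : t ≤ F.m) (hq : q ∈ F.cl t) :
    P.tp s < q ↔ s < t := by
  constructor
  · intro a
    by_contra b
    have c := h.tple t ht q hq
    have d := h.tpm (not_lt.1 b)
    omega
  · intro a
    obtain ⟨u, rfl⟩ : ∃ u, t = u + 1 := ⟨t - 1, by omega⟩
    have c := h.tplt u (by omega) q hq
    have d := h.tpm (show s ≤ u by omega)
    omega

theorem mem_Lv {a b q : ℕ} : q ∈ F.Lv a b ↔ ∃ t, (a ≤ t ∧ t < b) ∧ q ∈ F.cl t := by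
  simp only [Fam.Lv, mem_biUnion, mem_Ico]

theorem tp_lt_RR (h : Hyp0 F P) {s q : ℕ} (hs : s ≤ F.m) (hq : q ∈ F.RR) : P.tp s < q :=
  lt_of_le_of_lt (h.tpm hs) (h.tpT q (F.RR_sub hq))

theorem tp_lt_Lv (h : Hyp0 F P) {s a q : ℕ} (hs : s < a) (hq : q ∈ F.Lv a (F.m + 1)) :
    P.tp s < q := by
  obtain ⟨t, ht, hq⟩ := mem_Lv.1 hq
  exact (lt_tp h (by omega) hq).2 (by omega)

theorem geo_ok (h : Hyp0 F P) (C0 : ℕ → Finset ℕ) (Θ : Finset (Fin F.N)) (x : ℕ) :
    (geo F P C0 Θ x).Ok := by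
  refine ⟨h.tpm, fun t q hq => ?_, h.W1⟩
  change q ∈ RT F (t + 1) at hq
  unfold RT at hq
  split_ifs at hq with ht
  · exact h.tplt t ht q (F.R_sub _ hq)
  · exact absurd hq (notMem_empty q)

theorem As_sub (x : ℕ) (b : Fin F.N) : As F x b ⊆ F.Lo ∪ F.RR := dp_sub _ _

theorem As_inter {S : Finset ℕ} (hS : S ⊆ F.Lo ∪ F.RR) (x : ℕ) (b : Fin F.N) :
    As F x b ∩ S = dp S (x + b) := dp_inter hS _

theorem dLR (h : Hyp0 F P) : Disjoint F.Lo F.RR := h.dLo.mono_right F.RR_sub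

theorem up_sub (t : ℕ) (u : Finset ℕ) : up P t u ⊆ u := filter_subset _ _

theorem up_eq (h : Hyp0 F P) {u : Finset ℕ} (hu : u ⊆ F.Lo ∪ F.RR) {s : ℕ} (hs : s ≤ F.m) :
    up P s u = u ∩ (F.Lv (s + 1) (F.m + 1) ∪ F.RR) := by
  ext q
  simp only [up, mem_filter, mem_inter, mem_union]
  refine and_congr_right fun hq => ⟨fun a => ?_, fun a => a.elim (tp_lt_Lv h s.lt_succ_self)
    (tp_lt_RR h hs)⟩
  refine (mem_union.1 (hu hq)).imp_left fun b => ?_
  obtain ⟨t, ht, c⟩ := mem_Lv.1 b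
  exact mem_Lv.2 ⟨t, ⟨(lt_tp h (by omega) c).1 a, ht.2⟩, c⟩

theorem up_up (h : Hyp0 F P) {s t : ℕ} (hst : s ≤ t) (u : Finset ℕ) :
    up P t (up P s u) = up P t u := by
  ext q
  simp only [up, mem_filter]
  exact ⟨fun a => ⟨a.1.1, a.2⟩, fun a => ⟨⟨a.1, lt_of_le_of_lt (h.tpm hst) a.2⟩, a.2⟩⟩

theorem up_insert (h : Hyp0 F P) {c : Finset ℕ} (hc : c ⊆ F.Lo) {p : ℕ} (hp : p ∈ F.RR) {s : ℕ}
    (hs : s ≤ F.m) : up P s (insert p c) = insert p (c ∩ F.Lv (s + 1) (F.m + 1)) := by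
  rw [up_eq h (insert_subset (mem_union_right _ hp) (hc.trans subset_union_left)) hs,
    insert_inter_of_mem (mem_union_right _ hp), inter_union_distrib_left,
    disjoint_iff_inter_eq_empty.1 ((dLR h).mono_left hc), union_empty]

/-- the low part and the high part of a set of known primes -/
theorem pv_low_up (h : Hyp0 F P) {u : Finset ℕ} (hu : u ⊆ F.Lo ∪ F.RR) {s : ℕ} (hs : s ≤ F.m) :
    pv (u ∩ F.Lv 0 (s + 1)) * pv (up P s u) = pv u := by
  have d : Disjoint (F.Lv 0 (s + 1)) (F.Lv (s + 1) (F.m + 1) ∪ F.RR) :=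
    disjoint_union_right.2 ⟨h.dLv le_rfl le_rfl, (dLR h).mono_left (F.Lv_sub (by omega))⟩
  rw [up_eq h hu hs, ← pv_union (d.mono inter_subset_right inter_subset_right),
    ← inter_union_distrib_left, ← union_assoc, ← F.Lv_split (Nat.zero_le _) (by omega)]
  exact congrArg pv (inter_eq_left.2 hu)

theorem pv_pos' (h : Hyp0 F P) {u : Finset ℕ} (hu : u ⊆ F.Lo ∪ F.RR) : 0 < pv u := 
  prod_pos fun q hq => ((mem_union.1 (hu hq)).elim (h.prLo q) (h.prR q)).pos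

theorem CC_sub {t : ℕ} {u : Finset ℕ} (hu : u ∈ CC F t) : u ⊆ F.Lo ∪ F.RR := 
  (mem_powerset.1 (mem_filter.1 hu).1).trans (union_subset_union_left (F.Lv_sub le_rfl))

theorem insert_mem_CC (h : Hyp0 F P) {t p : ℕ} {c : Finset ℕ} (hc : c ⊆ F.Lv (t + 1) (F.m + 1))
    (hp : p ∈ F.RR) : insert p c ∈ CC F t := by
  refine mem_filter.2 ⟨mem_powerset.2 (insert_subset (mem_union_right _ hp)
    (hc.trans subset_union_left)), ?_⟩
  rw [insert_inter_of_mem hp, disjoint_iff_inter_eq_empty.1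
    ((dLR h).mono_left (hc.trans (F.Lv_sub le_rfl)))]
  rfl

theorem CC_form {t : ℕ} {u : Finset ℕ} (hu : u ∈ CC F t) :
    ∃ c ⊆ F.Lv (t + 1) (F.m + 1), ∃ p ∈ F.RR, u = insert p c := by
  obtain ⟨h1, h2⟩ := mem_filter.1 hu
  obtain ⟨p, hp⟩ := card_eq_one.1 h2
  have hp' : p ∈ u ∩ F.RR := hp ▸ mem_singleton_self p
  refine ⟨u.erase p, fun q hq => ?_, p, (mem_inter.1 hp').2,
    (insert_erase (mem_inter.1 hp').1).symm⟩
  obtain ⟨a, b⟩ := mem_erase.1 hq
  refine (mem_union.1 (mem_powerset.1 h1 b)).resolve_right fun c => a ?_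
  exact mem_singleton.1 (hp ▸ mem_inter.2 ⟨b, c⟩)

theorem sum_CC (h : Hyp0 F P) (t : ℕ) (φ : Finset ℕ → ℝ) :
    ∑ u ∈ CC F t, φ u = ∑ c ∈ (F.Lv (t + 1) (F.m + 1)).powerset, ∑ p ∈ F.RR, φ (insert p c) :=
  by
  rw [← sum_product']
  refine (sum_bij (fun z _ => insert z.2 z.1) (fun z hz => ?_) (fun z hz z' hz' e => ?_)
    (fun u hu => ?_) fun _ _ => rfl).symm
  · exact insert_mem_CC h (mem_powerset.1 (mem_product.1 hz).1) (mem_product.1 hz).2
  · have a := (mem_powerset.1 (mem_product.1 hz).1).trans (F.Lv_sub le_rfl)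
    have a' := (mem_powerset.1 (mem_product.1 hz').1).trans (F.Lv_sub le_rfl)
    have b := (mem_product.1 hz).2
    have b' := (mem_product.1 hz').2
    have n : z.2 ∉ z.1 := fun c => disjoint_left.1 (dLR h) (a c) b
    have n' : z'.2 ∉ z'.1 := fun c => disjoint_left.1 (dLR h) (a' c) b'
    have e2 : z.2 = z'.2 := by
      have : z.2 ∈ insert z'.2 z'.1 := e ▸ mem_insert_self _ _
      exact (mem_insert.1 this).resolve_right fun c => disjoint_left.1 (dLR h) (a' c) b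
    refine Prod.ext ?_ e2
    rw [← erase_insert n, e, e2, erase_insert n']
  · obtain ⟨c, hc, p, hp, rfl⟩ := CC_form hu
    exact ⟨(c, p), mem_product.2 ⟨mem_powerset.2 hc, hp⟩, rfl⟩

theorem pr_insert (h : Hyp0 F P) {c : Finset ℕ} (hc : c ⊆ F.Lo) {p : ℕ} (hp : p ∈ F.RR) :
    pr F (insert p c) = p := by
  rw [pr, insert_inter_of_mem hp, disjoint_iff_inter_eq_empty.1 ((dLR h).mono_left hc)]
  simp [pv]

theorem pv_insert' (h : Hyp0 F P) {c : Finset ℕ} (hc : c ⊆ F.Lo) {p : ℕ} (hp : p ∈ F.RR) :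
    pv (insert p c) = pv c * p := by
  rw [pv, prod_insert fun a => disjoint_left.1 (dLR h) (hc a) hp, mul_comm]
  rfl

theorem wh_insert (h : Hyp0 F P) {a b : ℕ} (hb : b ≤ F.m + 1) (c : Finset ℕ) {p : ℕ}
    (hp : p ∈ F.RR) : F.wh a b (insert p c) = F.wh a b c := by
  rw [← F.wh_inter (Subset.refl (F.Lv a b)), insert_inter_of_notMem
    fun c => disjoint_left.1 (dLR h) (F.Lv_sub hb c) hp, F.wh_inter (Subset.refl _)]

theorem up_mem_CC (h : Hyp0 F P) {s t : ℕ} (hst : s ≤ t) (ht : t ≤ F.m) {u : Finset ℕ}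
    (hu : u ∈ CC F s) : up P t u ∈ CC F t := by
  obtain ⟨c, hc, p, hp, rfl⟩ := CC_form hu
  have _ := hst
  rw [up_insert h (hc.trans (F.Lv_sub le_rfl)) hp ht]
  exact insert_mem_CC h inter_subset_right hp

theorem up_self (h : Hyp0 F P) {t : ℕ} (ht : t ≤ F.m) {u : Finset ℕ} (hu : u ∈ CC F t) :
    up P t u = u := by
  rw [up_eq h (CC_sub hu) ht]
  exact inter_eq_left.2 (mem_powerset.1 (mem_filter.1 hu).1)

theorem pr_up (h : Hyp0 F P) {t : ℕ} (ht : t ≤ F.m) (u : Finset ℕ) :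
    pr F (up P t u) = pr F u := by
  unfold pr
  congr 1
  ext q
  simp only [up, mem_inter, mem_filter]
  exact ⟨fun a => ⟨a.1.1, a.2⟩, fun a => ⟨⟨a.1, tp_lt_RR h ht a.2⟩, a.2⟩⟩

theorem wh_up (h : Hyp0 F P) {t a : ℕ} (ht : t < a) (u : Finset ℕ) :
    F.wh a (F.m + 1) (up P t u) = F.wh a (F.m + 1) u := by
  rw [← F.wh_inter (Subset.refl _) (up P t u), ← F.wh_inter (Subset.refl _) u]
  congr 1
  ext q
  simp only [up, mem_inter, mem_filter]
  exact ⟨fun a => ⟨a.1.1, a.2⟩, fun a => ⟨⟨a.1, tp_lt_Lv h ht a.2⟩, a.2⟩⟩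

theorem okA_inter {S : Finset ℕ} (hS : F.Lo ⊆ S) (T : Finset ℕ) :
    OkA F P (T ∩ S) ↔ OkA F P T := by
  refine forall₂_congr fun t ht => ?_
  have c : F.cl t ⊆ S := (F.cl_sub (Nat.zero_le t) (Nat.lt_succ_of_le ht)).trans hS
  rw [Ok, Ok, F.Vl_inter c, inter_inter ((F.R_sub t).trans c)]

theorem mem_OkS {x : ℕ} {b : Fin F.N} : b ∈ OkS F P x ↔ OkA F P (As F x b) := by
  simp [OkS]

theorem mem_Good {x : ℕ} {b : Fin F.N} :
    b ∈ Good F P x ↔ OkA F P (As F x b) ∧ (dp F.RR (x + b)).card ≤ 1 := by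
  simp [Good, mem_OkS]

theorem K0_nonneg (h : Hyp0 F P) : 0 ≤ K0 F := by
  have := h.LL0; have := h.N0; have := h.Pw0
  unfold K0; positivity

theorem wa_nonneg (h : Hyp0 F P) (p n : ℕ) : 0 ≤ wa F p n := mul_nonneg (h.wk0 _) (h.ka_nonneg _ _)

theorem wa_le (h : Hyp0 F P) (p n : ℕ) : wa F p n ≤ 2 * P.Λ := by
  rw [mul_comm]
  exact mul_le_mul (h.wkL _) (h.ka_le _ _) (h.ka_nonneg _ _) (by linarith [h.L2])

theorem hp_one (h : Hyp0 F P) (t : ℕ) : 1 ≤ hp P t := 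
  one_le_prod fun s _ => h.hi1 s

theorem lp_pos (h : Hyp0 F P) (t : ℕ) : 0 < lp P t := prod_pos fun s _ => h.lo0 s

theorem V_le_hp (h : Hyp0 F P) {T : Finset ℕ} (hT : OkA F P T) {t : ℕ} (ht : t ≤ F.m) :
    F.V 0 (t + 1) T ≤ hp P t := by
  rw [Fam.V, hp, range_eq_Ico]
  exact prod_le_prod (fun s _ => h.Vl_nonneg s T) fun s hs =>
    (hT s (by have := (mem_Ico.1 hs).2; omega)).2.1

theorem lp_le_V (h : Hyp0 F P) {T : Finset ℕ} (hT : OkA F P T) {t : ℕ} (ht : t ≤ F.m) :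
    lp P t ≤ F.V 0 (t + 1) T := by
  rw [Fam.V, lp, range_eq_Ico]
  exact prod_le_prod (fun s _ => (h.lo0 s).le) fun s hs =>
    (hT s (by have := (mem_Ico.1 hs).2; omega)).1

theorem K1_pos (h : Hyp0 F P) : 0 < K1 P := by
  have := h.Csb1; have := h.Cw1; have := h.K20; have := h.κ0
  unfold K1; positivity

theorem om_nonneg (h : Hyp0 F P) (t : ℕ) (u : Finset ℕ) : 0 ≤ om F P t u := by
  have := h.wh_nonneg (t + 1) (F.m + 1) u
  have := hp_one h t
  have := K0_nonneg h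
  have := h.L2
  unfold om; split_ifs <;> positivity

theorem F0_nonneg (h : Hyp0 F P) (i0 x : ℕ) (a : Fin F.N) (u : Finset ℕ) :
    0 ≤ F0 F P i0 x a u := sum_nonneg fun g _ => h.wl_nonneg 0 g

theorem bs_nonneg (h : Hyp0 F P) (x : ℕ) (a : Fin F.N) (u : Finset ℕ) : 0 ≤ bs F P x a u := by
  have := h.wh_nonneg 1 (F.m + 1) u
  have := wa_nonneg h (pr F u) (x + a)
  have := K0_nonneg h
  unfold bs; split_ifs <;> positivity

theorem tau_nonneg (h : Hyp0 F P) (i0 x : ℕ) (a : Fin F.N) (u : Finset ℕ) :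
    0 ≤ tau F P i0 x a u := mul_nonneg (bs_nonneg h x a u) (F0_nonneg h i0 x a u)

theorem tb_nonneg (h : Hyp0 F P) (x t : ℕ) (a : Fin F.N) (v : Finset ℕ) : 0 ≤ tb F P x t a v :=
  by
  have := h.wh_nonneg (t + 2) (F.m + 1) v
  have := h.V_nonneg 0 (t + 2) (As F x a)
  have := wa_nonneg h (pr F v) (x + a)
  have := K0_nonneg h
  have := K1_pos h
  have := h.l1 (t + 1)
  unfold tb; split_ifs <;> positivity

/-- an admissible pair gives admissible upper parts -/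
theorem adm_of_gd (h : Hyp0 F P) {i0 x : ℕ} {a : Fin F.N} {u g : Finset ℕ} (hu : u ∈ CC F 0)
    (hg : g ∈ gs F P i0 x a u) {t : ℕ} (ht : t ≤ F.m) : Adm F P t (up P t u) := by
  classical
  obtain ⟨g1, g2, -, -, g3, -⟩ := mem_filter.1 hg
  have g0 : g ⊆ F.cl 0 := (mem_powerset.1 g1).trans inter_subset_right
  have gL : g ⊆ F.Lv 0 1 := g0.trans (F.cl_sub le_rfl one_pos)
  have hu' := mem_powerset.1 (mem_filter.1 hu).1
  have dgu : Disjoint g u := Disjoint.mono gL hu' (disjoint_union_right.2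
    ⟨h.dLv le_rfl le_rfl, (dLR h).mono_left (F.Lv_sub (by omega))⟩)
  have sub : g ∪ u ⊆ F.Lo ∪ F.RR :=
    union_subset ((gL.trans (F.Lv_sub (by omega))).trans subset_union_left) (CC_sub hu)
  have D0 : 0 < F.D := by linarith [h.D20]
  have eu : ∀ s, up P s (g ∪ u) = up P s u := fun s => by
    rw [up, filter_union, filter_eq_empty_iff.2, empty_union]
    · rfl
    · exact fun q hq a => absurd ((lt_tp h (Nat.zero_le _) (g0 hq)).1 a) (Nat.not_lt_zero s)
  have pz : ∀ e ⊆ g ∪ u, (0 : ℝ) < pv e := fun e he => by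
    exact_mod_cast pv_pos' h (he.trans sub)
  refine ⟨fun s hs hm => ?_, ?_⟩
  · have a := pv_low_up h sub hm
    rw [eu, pv_union dgu] at a
    have b := Real.log_le_log D0 g2.1
    rw [← a, Nat.cast_mul, Real.log_mul (pz _ inter_subset_left).ne'
      (pz _ ((up_sub s u).trans subset_union_right)).ne'] at b
    rw [up_up h hs]
    linarith [g3 s hm]
  · have a : pv (up P t u) ≤ pv g * pv u := by
      rw [← pv_union dgu]
      exact Nat.le_of_dvd (pv_pos' h sub) (pv_dvd ((up_sub t u).trans subset_union_right))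
    have b : (pv (up P t u) : ℝ) ≤ 2 * F.D := le_trans (by exact_mod_cast a) (h.win_le g2)
    have c := Real.log_le_log (pz _ ((up_sub t u).trans subset_union_right)) b
    rw [Real.log_mul two_ne_zero D0.ne'] at c
    have _ := ht
    linarith [Real.log_two_lt_d9]

/-! ### periodicity -/

theorem dp_mod {S : Finset ℕ} (hS : S ⊆ F.Lo ∪ F.U ∪ F.RR) (n b : ℕ) :
    dp S (n % F.Qk + b) = dp S (n + b) := 
  per_dp (pv_dvd hS) b _ _ (Nat.mod_modEq n F.Qk)

theorem As_mod (n : ℕ) : As F (n % F.Qk) = As F n := funext fun b =>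
  dp_mod (union_subset_union_left subset_union_left) n b

theorem OkS_mod (n : ℕ) : OkS F P (n % F.Qk) = OkS F P n := by rw [OkS, OkS, As_mod]

theorem Good_mod (n : ℕ) : Good F P (n % F.Qk) = Good F P n := by
  simp only [Good, OkS_mod, dp_mod (subset_union_right : F.RR ⊆ _)]

theorem wa_mod (p n b : ℕ) : wa F p (n % F.Qk + b) = wa F p (n + b) := by
  rw [wa, wa, dp_mod subset_union_right, dp_mod (subset_union_right.trans subset_union_left)]

theorem gs_mod (i0 n : ℕ) : gs F P i0 (n % F.Qk) = gs F P i0 n := by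
  funext a u
  have : gd F P i0 (n % F.Qk) a u = gd F P i0 n a u := by
    funext g; simp only [gd, As_mod]
  rw [gs, gs, As_mod, this]

theorem bs_mod (n : ℕ) : bs F P (n % F.Qk) = bs F P n := by
  funext a u
  simp only [bs, Good_mod, As_mod, wa_mod]

theorem tau_mod (i0 n : ℕ) : tau F P i0 (n % F.Qk) = tau F P i0 n := by
  funext a u
  rw [tau, tau, F0, F0, bs_mod, gs_mod]

theorem NB_mod (n : ℕ) : NB F P (n % F.Qk) = NB F P n := by
  funext t a
  have : nb F P t (n % F.Qk) a = nb F P t n a := by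
    funext u; simp only [nb, As_mod]
  rw [NB, NB, this]

theorem tb_mod (n : ℕ) : tb F P (n % F.Qk) = tb F P n := by
  funext t a v
  rw [tb, tb, Good_mod, As_mod, wa_mod]

theorem geo_mod (C0 : ℕ → Finset ℕ) (Θ : Finset (Fin F.N)) (n : ℕ) :
    geo F P C0 Θ (n % F.Qk) = geo F P C0 Θ n := by
  have : F.Qk0 ∣ F.Qk := pv_dvd subset_union_left
  simp only [geo, As_mod, OkS_mod, Nat.mod_mod_of_dvd _ this]

theorem wt_mod (n : ℕ) : wt F P (n % F.Qk) = wt F P n := by simp only [wt, Good_mod]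

/-! ### the mean over `Θ` -/

theorem ET_mono (h : Hyp0 F P) {φ ψ : Finset (Fin F.N) → ℝ} (hφ : ∀ Θ, φ Θ ≤ ψ Θ) :
    ET F P φ ≤ ET F P ψ := 
  sum_le_sum fun Θ _ => mul_le_mul_of_nonneg_left (hφ Θ)
    (Maj.pS_nonneg (fun _ _ => ⟨h.vt0.le, h.vt1⟩) (subset_univ Θ))

theorem ET_add (φ ψ : Finset (Fin F.N) → ℝ) :
    ET F P (fun Θ => φ Θ + ψ Θ) = ET F P φ + ET F P ψ := by
  simp only [ET, mul_add, sum_add_distrib]

theorem ET_mul (c : ℝ) (φ : Finset (Fin F.N) → ℝ) :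
    ET F P (fun Θ => c * φ Θ) = c * ET F P φ := by
  simp only [ET, mul_sum]
  exact sum_congr rfl fun _ _ => by ring

theorem ET_div (c : ℝ) (φ : Finset (Fin F.N) → ℝ) :
    ET F P (fun Θ => φ Θ / c) = ET F P φ / c := by
  simp only [div_eq_inv_mul, ET_mul]

theorem ET_sum {ι : Type*} (s : Finset ι) (φ : ι → Finset (Fin F.N) → ℝ) :
    ET F P (fun Θ => ∑ i ∈ s, φ i Θ) = ∑ i ∈ s, ET F P (φ i) := by
  simp only [ET, mul_sum]
  exact sum_comm

theorem ET_sub (S : Finset (Fin F.N)) :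
    ET F P (fun Θ => if S ⊆ Θ then 1 else 0) = P.vt ^ S.card := by
  have := Maj.marg (fun _ : Fin F.N => P.vt) (empty_subset univ) (subset_univ S)
    (disjoint_empty_left S)
  simp only [powerset_univ, disjoint_empty_left, true_and, prod_const, card_empty, pow_zero,
    one_mul] at this
  exact this

theorem ET_const (c : ℝ) : ET F P (fun _ => c) = c := by
  have := ET_sub (F := F) (P := P) ∅
  simp only [empty_subset, if_true, card_empty, pow_zero] at this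
  rw [← mul_one c, ET_mul, this]

theorem ET_ex {Ω : Type} [Fintype Ω] (φ : Finset (Fin F.N) → Ω → ℝ) :
    ET F P (fun Θ => ex (φ Θ)) = ex fun x => ET F P fun Θ => φ Θ x := by
  simp only [ET]
  rw [ex_sum]
  exact sum_congr rfl fun Θ _ => (ex_mul _ _).symm

theorem ET_card (S : Finset (Fin F.N)) :
    ET F P (fun Θ => ((Θ ∩ S).card : ℝ)) = P.vt * S.card := by
  have e : ∀ Θ : Finset (Fin F.N), ((Θ ∩ S).card : ℝ)
      = ∑ b ∈ S, if ({b} : Finset _) ⊆ Θ then 1 else 0 := fun Θ => by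
    simp only [singleton_subset_iff, sum_ite_mem, sum_const, nsmul_eq_mul, mul_one, inter_comm]
  simp only [e]
  rw [ET_sum]
  simp only [ET_sub, card_singleton, pow_one, sum_const, nsmul_eq_mul, mul_comm]

/-! ### one site -/

theorem Em_ka_mem (h : Hyp0 F P) {p : ℕ} (hp : p ∈ F.RR) :
    Em F.RR (fun T => if p ∈ T then F.ka p T else 0) = 1 / p := by
  have e1 := Em_sub (singleton_subset_iff.2 hp) (F.ka p)
  simp only [singleton_subset_iff] at e1
  have e2 := Em_inter (sdiff_subset : F.RR \ {p} ⊆ F.RR) (F.ka p)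
  have e3 : Em F.RR (fun A => F.ka p (A ∩ (F.RR \ {p}))) = 1 := by
    rw [← h.Em_ka hp]
    refine Em_congr fun A hA => ?_
    rw [← F.ka_erase p A]
    congr 1
    ext q
    simp only [mem_inter, mem_sdiff, mem_singleton, mem_erase]
    exact ⟨fun a => ⟨a.2.2, a.1⟩, fun a => ⟨a.2, hA a.2, a.1⟩⟩
  have e4 : Em (F.RR \ {p}) (fun B => F.ka p ({p} ∪ B)) = Em (F.RR \ {p}) (F.ka p) :=
    Em_congr fun B _ => by
      rw [← F.ka_erase, ← F.ka_erase p B, ← insert_eq, erase_insert_eq_erase]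
  rw [e1, e4, ← e2, e3, mul_one]
  simp [pv]

/-- the mean at one site of a function of the low primes, with the prime `p` and the weight `wa` -/
theorem ex_one (h : Hyp0 F P) {Z : ℕ} (hZ : 0 < Z) (hd : pv F.all ∣ Z) {p : ℕ} (hp : p ∈ F.RR)
    (b : ℕ) {φ : Finset ℕ → ℝ} (hφ : ∀ T ⊆ F.Lo, 0 ≤ φ T) :
    ex (fun n : Fin Z => if p ∣ n + b then φ (dp F.Lo (n + b)) * wa F p (n + b) else 0)
      ≤ Em F.Lo φ / p := by
  have d1 : Disjoint (F.Lo ∪ F.U) F.RR := h.dK0.mono_right subset_union_left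
  have e := ex_dp h.prK hZ ((h.pv_all ▸ dvd_mul_right _ _ : F.Qk ∣ pv F.all).trans hd) b
    fun A => (φ (A ∩ (F.Lo ∪ F.U) ∩ F.Lo) * F.wk (A ∩ (F.Lo ∪ F.U) ∩ F.U)) *
      (if p ∈ A ∩ F.RR then F.ka p (A ∩ F.RR) else 0)
  rw [EG_eq, Em_mul_inter d1 (fun A => φ (A ∩ F.Lo) * F.wk (A ∩ F.U))
    fun A => if p ∈ A then F.ka p A else 0, Em_mul_inter h.dLU, Em_ka_mem h hp] at e
  have e2 : ex (fun n : Fin Z => if p ∣ n + b then φ (dp F.Lo (n + b)) * wa F p (n + b) else 0)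
      = Em F.Lo φ * Em F.U F.wk * (1 / p) := by
    rw [← e]
    refine ex_congr fun n => ?_
    rw [dp_inter subset_union_left, dp_inter subset_union_left, dp_inter subset_union_right,
      dp_inter subset_union_right]
    simp only [mem_dp, hp, true_and, wa]
    split_ifs <;> ring
  have a1 : Em F.U F.wk ≤ 1 := (Em_mono fun A _ => h.wkv A).trans h.Evk
  have a2 := Em_nonneg hφ
  rw [e2, ← mul_one_div (Em F.Lo φ)]
  exact mul_le_mul_of_nonneg_right (mul_le_of_le_one_right a2 a1) (by positivity)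

/-- the same without the weight -/
theorem ex_one' (h : Hyp0 F P) {Z : ℕ} (hZ : 0 < Z) (hd : pv F.all ∣ Z) {p : ℕ} (hp : p ∈ F.RR)
    (b : ℕ) (φ : Finset ℕ → ℝ) :
    ex (fun n : Fin Z => if p ∣ n + b then φ (dp F.Lo (n + b)) else 0) = Em F.Lo φ / p := by
  have pr : ∀ q ∈ F.Lo ∪ F.RR, q.Prime := fun q hq => (mem_union.1 hq).elim (h.prLo q) (h.prR q)
  have e := ex_dp pr hZ ((pv_dvd (union_subset F.Lo_sub (F.RR_sub.trans F.TT_sub))).trans hd) b
    fun A => φ (A ∩ F.Lo) * (if p ∈ A ∩ F.RR then 1 else 0)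
  rw [EG_eq, Em_mul_inter (dLR h) φ fun A => if p ∈ A then 1 else 0, Em_ind_mem hp] at e
  rw [← mul_one_div (Em F.Lo φ), ← e]
  refine ex_congr fun n => ?_
  rw [dp_inter subset_union_left, dp_inter subset_union_right]
  simp only [mem_dp, hp, true_and]
  split_ifs <;> ring

theorem insert_sub_As {c : Finset ℕ} (hc : c ⊆ F.Lo) {p : ℕ} (hp : p ∈ F.RR) (x : ℕ)
    (b : Fin F.N) : insert p c ⊆ As F x b ↔ p ∣ x + b ∧ c ⊆ dp F.Lo (x + b) := by
  simp only [As, insert_subset_iff, mem_dp, mem_union, hp, or_true, true_and]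
  refine and_congr_right fun _ => ⟨fun a q hq => mem_dp.2 ⟨hc hq, (mem_dp.1 (a hq)).2⟩,
    fun a q hq => mem_dp.2 ⟨mem_union_left _ (hc hq), (mem_dp.1 (a hq)).2⟩⟩

end Pool.Agent.P.MP_a14ce1_nt.Fu.St.Cp
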