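import Mathlib

/-!
Bonferroni sums and the majorant of a square divided by a divisor weight.
-/

open Finset
open scoped ComplexConjugate

namespace Pool.Agent.P.MP_a14ce1_nt.Fu.Maj

variable {α : Type*} [DecidableEq α]

/-- the subsets with at most J members -/
def pw (J : ℕ) (T : Finset α) : Finset (Finset α) := T.powerset.filter fun e => e.card ≤ J

/-- the expansion of the product of the 1 - x p, cut after the terms of degree J -/
noncomputable def bf (J : ℕ) (x : α → ℝ) (T : Finset α) : ℝ := ∑ e ∈ pw J T, ∏ p ∈ e, (-x p)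

omit [DecidableEq α] in
theorem mem_pw {J : ℕ} {T e : Finset α} : e ∈ pw J T ↔ e ⊆ T ∧ e.card ≤ J := by
  simp [pw]

omit [DecidableEq α] in
theorem bf_zero (x : α → ℝ) (T : Finset α) : bf 0 x T = 1 := by
  have : pw 0 T = {∅} := by
    ext e
    simp only [mem_pw, Nat.le_zero, card_eq_zero, mem_singleton]
    exact ⟨fun h => h.2, fun h => ⟨h ▸ empty_subset _, h⟩⟩
  simp [bf, this]

omit [DecidableEq α] in
theorem bf_empty (J : ℕ) (x : α → ℝ) : bf J x ∅ = 1 := by
  have : pw J (∅ : Finset α) = {∅} := by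
    ext e
    simp only [mem_pw, subset_empty, mem_singleton]
    exact ⟨fun h => h.1, fun h => ⟨h, by simp [h]⟩⟩
  simp [bf, this]

theorem bf_insert (J : ℕ) (x : α → ℝ) {T : Finset α} {a : α} (ha : a ∉ T) :
    bf (J + 1) x (insert a T) = bf (J + 1) x T - x a * bf J x T := by
  simp only [bf, pw, sum_filter]
  rw [sum_powerset_insert ha, mul_sum, sub_eq_add_neg, ← sum_neg_distrib]
  congr 1
  refine sum_congr rfl fun e he => ?_
  have hae : a ∉ e := fun h => ha (mem_powerset.1 he h)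
  rw [card_insert_of_notMem hae, prod_insert hae]
  by_cases h : e.card ≤ J
  · rw [if_pos h, if_pos (by omega)]
    ring
  · rw [if_neg h, if_neg (by omega)]
    ring

/-- Bonferroni inequalities -/
theorem bf_bounds (x : α → ℝ) (T : Finset α) (hx : ∀ p ∈ T, 0 ≤ x p ∧ x p ≤ 1) (J : ℕ) :
    0 ≤ (-1) ^ J * (bf J x T - ∏ p ∈ T, (1 - x p)) ∧
      (-1) ^ J * (bf J x T - ∏ p ∈ T, (1 - x p)) ≤
        (∑ p ∈ T, x p) ^ (J + 1) / (J + 1).factorial := by
  induction T using Finset.induction_on generalizing J with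
  | empty => simp [bf_empty]
  | insert a T ha ih =>
    have hT : ∀ p ∈ T, 0 ≤ x p ∧ x p ≤ 1 := fun p hp => hx p (mem_insert_of_mem hp)
    have h0 := hx a (mem_insert_self _ _)
    have hs : 0 ≤ ∑ p ∈ T, x p := sum_nonneg fun p hp => (hT p hp).1
    have hP0 : 0 ≤ ∏ p ∈ T, (1 - x p) := prod_nonneg fun p hp => by linarith [(hT p hp).2]
    have hP1 : ∏ p ∈ T, (1 - x p) ≤ 1 :=
      prod_le_one (fun p hp => by linarith [(hT p hp).2]) fun p hp => by linarith [(hT p hp).1]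
    rw [prod_insert ha, sum_insert ha]
    cases J with
    | zero =>
      have := ih hT 0
      simp only [bf_zero, pow_zero, one_mul, zero_add, pow_one, Nat.factorial_one, Nat.cast_one,
        div_one] at this ⊢
      constructor <;> nlinarith [this.1, this.2, h0.1, h0.2]
    | succ J =>
      have i1 := ih hT J
      have i2 := ih hT (J + 1)
      have e : (-1) ^ (J + 1) * (bf (J + 1) x (insert a T) - (1 - x a) * ∏ p ∈ T, (1 - x p)) =
          (-1) ^ (J + 1) * (bf (J + 1) x T - ∏ p ∈ T, (1 - x p)) +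
            x a * ((-1) ^ J * (bf J x T - ∏ p ∈ T, (1 - x p))) := by
        rw [bf_insert J x ha]
        ring
      rw [e]
      refine ⟨add_nonneg i2.1 (mul_nonneg h0.1 i1.1), ?_⟩
      have b := pow_add_mul_le_add_pow hs (b := x a) (by linarith [h0.1]) (J + 2)
      have f : ((J + 1 + 1).factorial : ℝ) = (J + 2) * (J + 1).factorial := by
        rw [Nat.factorial_succ]
        push_cast
        ring
      have f0 : (0 : ℝ) < (J + 1).factorial := by exact_mod_cast Nat.factorial_pos _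
      calc _ ≤ (∑ p ∈ T, x p) ^ (J + 1 + 1) / (J + 1 + 1).factorial +
            x a * ((∑ p ∈ T, x p) ^ (J + 1) / (J + 1).factorial) :=
            add_le_add i2.2 (mul_le_mul_of_nonneg_left i1.2 h0.1)
        _ = ((∑ p ∈ T, x p) ^ (J + 2) + (J + 2 : ℕ) * (∑ p ∈ T, x p) ^ (J + 2 - 1) * x a) /
            (J + 1 + 1).factorial := by
            rw [f, show J + 2 - 1 = J + 1 from rfl]
            push_cast
            field_simp
        _ ≤ _ := by
            rw [add_comm (x a)]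
            exact div_le_div_of_nonneg_right b (by positivity)

theorem prod_le_bf {x : α → ℝ} {T : Finset α} (hx : ∀ p ∈ T, 0 ≤ x p ∧ x p ≤ 1) (J : ℕ) :
    ∏ p ∈ T, (1 - x p) ≤ bf (2 * J) x T := by
  have := (bf_bounds x T hx (2 * J)).1
  rw [pow_mul] at this
  simp only [even_two, Even.neg_pow, one_pow, one_mul] at this
  linarith

theorem bf_le {x : α → ℝ} {T : Finset α} (hx : ∀ p ∈ T, 0 ≤ x p ∧ x p ≤ 1) (J : ℕ) :
    bf (2 * J) x T ≤ ∏ p ∈ T, (1 - x p) + (∑ p ∈ T, x p) ^ (2 * J + 1) / (2 * J + 1).factorial := by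
  have := (bf_bounds x T hx (2 * J)).2
  rw [pow_mul] at this
  simp only [even_two, Even.neg_pow, one_pow, one_mul] at this
  linarith

theorem bf_nonneg {x : α → ℝ} {T : Finset α} (hx : ∀ p ∈ T, 0 ≤ x p ∧ x p ≤ 1) (J : ℕ) :
    0 ≤ bf (2 * J) x T :=
  (prod_nonneg fun p hp => by linarith [(hx p hp).2]).trans (prod_le_bf hx J)

omit [DecidableEq α] in
/-- the total variation of the cut expansion -/
theorem sum_pw_le {x : α → ℝ} {T : Finset α} (hx : ∀ p ∈ T, 0 ≤ x p) (J : ℕ) :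
    ∑ e ∈ pw J T, ∏ p ∈ e, x p ≤ ∏ p ∈ T, (1 + x p) := by
  rw [prod_one_add]
  exact sum_le_sum_of_subset_of_nonneg (filter_subset _ _) fun e he _ =>
    prod_nonneg fun p hp => hx p (mem_powerset.1 he hp)

/-- the probability of S when every p of G is chosen with probability κ p -/
noncomputable def pS (κ : α → ℝ) (G S : Finset α) : ℝ := (∏ p ∈ S, κ p) * ∏ p ∈ G \ S, (1 - κ p)

theorem pS_nonneg {κ : α → ℝ} {G S : Finset α} (hκ : ∀ p ∈ G, 0 ≤ κ p ∧ κ p ≤ 1) (hS : S ⊆ G) :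
    0 ≤ pS κ G S :=
  mul_nonneg (prod_nonneg fun p hp => (hκ p (hS hp)).1)
    (prod_nonneg fun p hp => by linarith [(hκ p (mem_sdiff.1 hp).1).2])

theorem marg (κ : α → ℝ) {G U e : Finset α} (hU : U ⊆ G) (he : e ⊆ G) (hd : Disjoint U e) :
    ∑ S ∈ G.powerset, pS κ G S * (if Disjoint U S ∧ e ⊆ S then 1 else 0) =
      (∏ p ∈ U, (1 - κ p)) * ∏ p ∈ e, κ p := by
  have h := prod_add (fun p => if p ∈ U then 0 else κ p) (fun p => if p ∈ e then 0 else 1 - κ p) G
  have e1 : ∏ p ∈ G, ((if p ∈ U then 0 else κ p) + if p ∈ e then 0 else 1 - κ p) =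
      (∏ p ∈ U, (1 - κ p)) * ∏ p ∈ e, κ p := by
    have : ∀ p ∈ G, ((if p ∈ U then 0 else κ p) + if p ∈ e then 0 else 1 - κ p) =
        (if p ∈ U then 1 - κ p else 1) * if p ∈ e then κ p else 1 := fun p _ => by
      by_cases h1 : p ∈ U
      · simp [h1, disjoint_left.1 hd h1]
      · by_cases h2 : p ∈ e <;> simp [h1, h2]
    rw [prod_congr rfl this, prod_mul_distrib, prod_ite_mem, prod_ite_mem,
      inter_eq_right.2 hU, inter_eq_right.2 he]
  rw [← e1, h]
  refine sum_congr rfl fun S hS => ?_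
  by_cases h1 : Disjoint U S ∧ e ⊆ S
  · rw [if_pos h1, mul_one, pS]
    congr 1
    · exact prod_congr rfl fun p hp => by rw [if_neg (disjoint_right.1 h1.1 hp)]
    · exact prod_congr rfl fun p hp => by rw [if_neg fun h => (mem_sdiff.1 hp).2 (h1.2 h)]
  · rw [if_neg h1, mul_zero]
    rcases not_and_or.1 h1 with h2 | h2
    · obtain ⟨p, h3, h4⟩ := not_disjoint_iff.1 h2
      refine (mul_eq_zero_of_left (prod_eq_zero h4 ?_) _).symm
      exact if_pos h3
    · obtain ⟨p, h3, h4⟩ := not_subset.1 h2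
      refine (mul_eq_zero_of_right _ (prod_eq_zero (mem_sdiff.2 ⟨he h3, h4⟩) ?_)).symm
      exact if_pos h3

theorem marg_bf (κ : α → ℝ) {A U : Finset α} (hU : U ⊆ A) (J : ℕ) :
    ∑ S ∈ A.powerset, pS κ A S * (if Disjoint U S then bf J (fun _ => 1) S else 0) =
      (∏ p ∈ U, (1 - κ p)) * bf J κ (A \ U) := by
  have e1 : ∀ S ∈ A.powerset, pS κ A S * (if Disjoint U S then bf J (fun _ => 1) S else 0) =
      ∑ e ∈ pw J (A \ U), (-1) ^ e.card *
        (pS κ A S * if Disjoint U S ∧ e ⊆ S then 1 else 0) := fun S hS => by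
    by_cases h : Disjoint U S
    · have : pw J S = (pw J (A \ U)).filter fun e => e ⊆ S := by
        ext e
        simp only [mem_filter, mem_pw]
        refine ⟨fun h1 => ⟨⟨fun p hp => mem_sdiff.2 ⟨mem_powerset.1 hS (h1.1 hp),
          disjoint_right.1 h (h1.1 hp)⟩, h1.2⟩, h1.1⟩, fun h1 => ⟨h1.2, h1.1.2⟩⟩
      rw [if_pos h, bf, this, sum_filter, mul_sum]
      refine sum_congr rfl fun e _ => ?_
      by_cases h2 : e ⊆ S <;> simp [h, h2, mul_comm]
    · simp [h]
  rw [sum_congr rfl e1, sum_comm, bf, mul_sum]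
  refine sum_congr rfl fun e he => ?_
  have he' := (mem_pw.1 he).1
  rw [← mul_sum, marg κ hU (he'.trans sdiff_subset)
    (disjoint_of_subset_right he' disjoint_sdiff), prod_neg]
  ring

/-- The majorant for a kernel that is positive on all sub-families. -/
theorem maj_ker {ι : Type*} {κ : α → ℝ} {A : Finset α} (hκ : ∀ p ∈ A, 0 ≤ κ p ∧ κ p ≤ 1)
    (s : Finset ι) (g : ι → Finset α) (hg : ∀ i ∈ s, g i ⊆ A) (K : ι → ι → ℝ)
    (hK : ∀ s' ⊆ s, 0 ≤ ∑ i ∈ s', ∑ i' ∈ s', K i i') (J : ℕ) :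
    (∑ i ∈ s, ∑ i' ∈ s, K i i') * ∏ p ∈ A, (1 - κ p) ≤ ∑ i ∈ s, ∑ i' ∈ s,
      (∏ p ∈ g i ∪ g i', (1 - κ p)) * bf (2 * J) κ (A \ (g i ∪ g i')) * K i i' := by
  have e1 := marg κ (Subset.rfl : A ⊆ A) (empty_subset A) (disjoint_empty_right A)
  rw [prod_empty, mul_one] at e1
  have e2 : ∑ i ∈ s, ∑ i' ∈ s,
      (∏ p ∈ g i ∪ g i', (1 - κ p)) * bf (2 * J) κ (A \ (g i ∪ g i')) * K i i' =
      ∑ S ∈ A.powerset, pS κ A S * (bf (2 * J) (fun _ => 1) S *
        ∑ i ∈ s.filter (fun i => Disjoint (g i) S), ∑ i' ∈ s.filter (fun i => Disjoint (g i) S),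
          K i i') := by
    have : ∀ i ∈ s, ∀ i' ∈ s,
        (∏ p ∈ g i ∪ g i', (1 - κ p)) * bf (2 * J) κ (A \ (g i ∪ g i')) * K i i' =
        ∑ S ∈ A.powerset, pS κ A S *
          (if Disjoint (g i ∪ g i') S then bf (2 * J) (fun _ => 1) S else 0) * K i i' :=
      fun i hi i' hi' => by rw [← marg_bf κ (union_subset (hg i hi) (hg i' hi')), sum_mul]
    rw [sum_congr rfl fun i hi => sum_congr rfl (this i hi), sum_congr rfl fun i _ => sum_comm,
      sum_comm]
    refine sum_congr rfl fun S _ => ?_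
    simp only [sum_filter, mul_sum]
    refine sum_congr rfl fun i _ => ?_
    by_cases h : Disjoint (g i) S
    · simp only [disjoint_union_left, h, true_and, if_true, mul_sum]
      refine sum_congr rfl fun i' _ => ?_
      split_ifs <;> ring
    · simp [h, disjoint_union_left]
  rw [e2, ← e1, mul_sum]
  refine sum_le_sum fun S hS => ?_
  have hS' := mem_powerset.1 hS
  rw [mul_left_comm]
  refine mul_le_mul_of_nonneg_left ?_ (pS_nonneg hκ hS')
  by_cases h : Disjoint A S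
  · have : S = ∅ := disjoint_self_iff_empty S |>.1 (disjoint_of_subset_left hS' h)
    subst this
    simp [bf_empty]
  · rw [if_neg fun h' => h h'.1, mul_zero]
    exact mul_nonneg (bf_nonneg (fun _ _ => ⟨zero_le_one, le_rfl⟩) J) (hK _ (filter_subset _ _))

/-- the kernel of a square, with the terms inside one block made positive -/
noncomputable def kb {ι β : Type*} [DecidableEq β] (b : ι → β) (y : ι → ℂ) (i i' : ι) : ℝ :=
  if b i = b i' then (y i * conj (y i)).re else (y i * conj (y i')).re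

theorem sq_le_kb {ι β : Type*} [DecidableEq β] (s : Finset ι) (b : ι → β) (c : ι → ℝ)
    (hc : ∀ i ∈ s, 0 ≤ c i) (y : ι → ℂ) :
    ‖∑ i ∈ s, (c i : ℂ) * y i‖ ^ 2 ≤ ∑ i ∈ s, ∑ i' ∈ s, c i * c i' * kb b y i i' := by
  have e1 : ‖∑ i ∈ s, (c i : ℂ) * y i‖ ^ 2 =
      ∑ i ∈ s, ∑ i' ∈ s, c i * c i' * (y i * conj (y i')).re := by
    rw [← Complex.normSq_eq_norm_sq, ← Complex.ofReal_re (Complex.normSq _), ← Complex.mul_conj,
      map_sum, sum_mul_sum, Complex.re_sum]
    refine sum_congr rfl fun i _ => ?_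
    rw [Complex.re_sum]
    refine sum_congr rfl fun i' _ => ?_
    rw [map_mul, Complex.conj_ofReal, mul_mul_mul_comm, ← Complex.ofReal_mul, Complex.re_ofReal_mul]
  have e2 : ∑ i ∈ s, ∑ i' ∈ s, c i * c i' * kb b y i i' =
      ∑ i ∈ s, ∑ i' ∈ s, c i' * c i * kb b y i' i := sum_comm
  have e3 : ∑ i ∈ s, ∑ i' ∈ s, 2 * (c i * c i' * (y i * conj (y i')).re) ≤
      ∑ i ∈ s, ∑ i' ∈ s, (c i * c i' * kb b y i i' + c i' * c i * kb b y i' i) := by
    refine sum_le_sum fun i hi => sum_le_sum fun i' hi' => ?_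
    have h := mul_nonneg (hc i hi) (hc i' hi')
    have k : 2 * (y i * conj (y i')).re ≤ kb b y i i' + kb b y i' i := by
      unfold kb
      by_cases hb : b i = b i'
      · rw [if_pos hb, if_pos hb.symm]
        simp only [Complex.mul_re, Complex.conj_re, Complex.conj_im]
        nlinarith [sq_nonneg ((y i).re - (y i').re), sq_nonneg ((y i).im - (y i').im)]
      · rw [if_neg hb, if_neg fun h => hb h.symm]
        simp only [Complex.mul_re, Complex.conj_re, Complex.conj_im]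
        linarith
    nlinarith [mul_le_mul_of_nonneg_left k h]
  simp only [← mul_sum, sum_add_distrib] at e3
  rw [e1]
  linarith

/-- MAJ, pointwise. -/
theorem maj {ι β : Type*} [DecidableEq β] {κ : α → ℝ} {G A : Finset α} (hA : A ⊆ G)
    (hκ : ∀ p ∈ G, 0 ≤ κ p ∧ κ p ≤ 1) (s : Finset ι) (g : ι → Finset α) (b : ι → β) (c : ι → ℝ)
    (hc : ∀ i ∈ s, 0 ≤ c i) (y : ι → ℂ) (J : ℕ) :
    ‖∑ i ∈ s.filter (fun i => g i ⊆ A), (c i : ℂ) * y i‖ ^ 2 * ∏ p ∈ A, (1 - κ p) ≤
      ∑ i ∈ s, ∑ i' ∈ s, ∑ e ∈ pw (2 * J) (G \ (g i ∪ g i')),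
        c i * c i' * (∏ p ∈ g i ∪ g i', (1 - κ p)) * (∏ p ∈ e, (-κ p)) *
          if g i ∪ g i' ∪ e ⊆ A then kb b y i i' else 0 := by
  have hκ' : ∀ p ∈ A, 0 ≤ κ p ∧ κ p ≤ 1 := fun p hp => hκ p (hA hp)
  have h1 := maj_ker hκ' (s.filter fun i => g i ⊆ A) g (fun i hi => (mem_filter.1 hi).2)
    (fun i i' => c i * c i' * kb b y i i') (fun s' hs' => (sq_nonneg _).trans
      (sq_le_kb s' b c (fun i hi => hc i (mem_filter.1 (hs' hi)).1) y)) J
  have h2 := sq_le_kb (s.filter fun i => g i ⊆ A) b c (fun i hi => hc i (mem_filter.1 hi).1) y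
  refine ((mul_le_mul_of_nonneg_right h2 (prod_nonneg fun p hp => by
    linarith [(hκ' p hp).2])).trans h1).trans (le_of_eq ?_)
  rw [sum_filter]
  refine sum_congr rfl fun i _ => ?_
  by_cases hi : g i ⊆ A
  · rw [if_pos hi, sum_filter]
    refine sum_congr rfl fun i' _ => ?_
    by_cases hi' : g i' ⊆ A
    · have : pw (2 * J) (A \ (g i ∪ g i')) =
          (pw (2 * J) (G \ (g i ∪ g i'))).filter fun e => e ⊆ A := by
        ext e
        simp only [mem_filter, mem_pw, subset_sdiff]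
        exact ⟨fun h => ⟨⟨⟨h.1.1.trans hA, h.1.2⟩, h.2⟩, h.1.1⟩, fun h => ⟨⟨h.2, h.1.1.2⟩, h.1.2⟩⟩
      rw [if_pos hi', bf, this, sum_filter, mul_sum, sum_mul]
      refine sum_congr rfl fun e _ => ?_
      simp only [union_subset_iff, hi, hi', true_and]
      split_ifs <;> ring
    · simp [hi', union_subset_iff]
  · simp [hi, union_subset_iff]

end Pool.Agent.P.MP_a14ce1_nt.Fu.Maj
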