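import Pool.Agent.P.MP_a14ce1_nt.Fu.StB
import Pool.Agent.P.MP_a14ce1_nt.Fu.CoSt
import Pool.Agent.P.MP_a14ce1_nt.Fu.Maj

/-!
Section 3 on the model: the geometry, the weights and the externals.  Everything is a function of
an integer `x` (used with `x = n % F.Qk`); the sites are `b : Fin F.N`.
-/

open Finset

namespace Pool.Agent.P.MP_a14ce1_nt.Fu.St.Cp

open Ch (pv mu rs lam)

variable (F : Fam) (P : Par)

/-- the known primes of a site that can belong to an object -/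
def As (x : ℕ) (b : Fin F.N) : Finset ℕ := dp (F.Lo ∪ F.RR) (x + b)

/-- all levels are typical -/
def OkA (T : Finset ℕ) : Prop := ∀ t ≤ F.m, Ok F P t T

open Classical in
noncomputable def OkS (x : ℕ) : Finset (Fin F.N) := univ.filter fun b => OkA F P (As F x b)

noncomputable def Good (x : ℕ) : Finset (Fin F.N) :=
  (OkS F P x).filter fun b => (dp F.RR (x + b)).card ≤ 1

/-- the classes `R t`, empty above the last level -/
def RT (t : ℕ) : Finset ℕ := if t ≤ F.m then F.R t else ∅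

noncomputable def geo (C0 : ℕ → Finset ℕ) (Θ : Finset (Fin F.N)) (x : ℕ) : Geo (Fin F.N) where
  A := As F x
  top := P.tp
  R := RT F
  r := F.r
  J := P.J
  m := F.m
  W := P.Wn
  Z0 := Θ ∩ OkS F P x
  C0 := univ.filter fun b => b.1 ∈ C0 (x % F.Qk0)

/-- the part above level `t` (= `Geo.up`) -/
def up (t : ℕ) (u : Finset ℕ) : Finset ℕ := u.filter fun q => P.tp t < q

/-- the objects above level `t`: primes of the levels `> t` and one prime of `RR` -/
def CC (t : ℕ) : Finset (Finset ℕ) :=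
  (F.Lv (t + 1) (F.m + 1) ∪ F.RR).powerset.filter fun u => (u ∩ F.RR).card = 1

/-- the prime of `RR` in an object -/
def pr (u : Finset ℕ) : ℕ := pv (u ∩ F.RR)

noncomputable def K0 : ℝ := 1 / (F.LL * F.N * F.Pw)

def Adm (t : ℕ) (u : Finset ℕ) : Prop :=
  (∀ s, t ≤ s → s ≤ F.m → Real.log F.D ≤ P.La s + Real.log (pv (up P s u))) ∧
    Real.log (pv u) ≤ Real.log F.D + 1

noncomputable def hp (t : ℕ) : ℝ := ∏ s ∈ range (t + 1), P.hi s

noncomputable def lp (t : ℕ) : ℝ := ∏ s ∈ range (t + 1), P.lo s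

open Classical in
noncomputable def om (t : ℕ) (u : Finset ℕ) : ℝ :=
  if Adm F P t u then F.wh (t + 1) (F.m + 1) u * (hp P t * (2 * P.Λ) * K0 F) else 0

noncomputable def wt (x : ℕ) : Wt (Fin F.N) where
  CS := CC F 0
  CC := CC F
  om := om F P
  ob := Hi F P * (2 * P.Λ) * K0 F
  mu := 5 * F.k * Real.exp P.Lh
  Good := Good F P x

/-- `g` is an admissible level 0 part for the target `a` of role `i0` and the object `u` -/
def gd (i0 x : ℕ) (a : Fin F.N) (u g : Finset ℕ) : Prop :=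
  F.win (pv g * pv u) ∧ i0 * (pv g * pv u) ≤ a ∧ a + (F.k - 1 - i0) * (pv g * pv u) < F.N ∧
    (∀ s ≤ F.m, Real.log (pv ((g ∪ u) ∩ F.Lv 0 (s + 1))) ≤ P.La s) ∧
    P.Δ * F.wl 0 g ≤ F.Vl 0 (As F x a)

open Classical in
noncomputable def gs (i0 x : ℕ) (a : Fin F.N) (u : Finset ℕ) : Finset (Finset ℕ) :=
  (As F x a ∩ F.cl 0).powerset.filter (gd F P i0 x a u)

noncomputable def F0 (i0 x : ℕ) (a : Fin F.N) (u : Finset ℕ) : ℝ :=
  ∑ g ∈ gs F P i0 x a u, F.wl 0 g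

/-- the known weight of the site `n` for the prime `p` -/
noncomputable def wa (p n : ℕ) : ℝ := F.wk (dp F.U n) * F.ka p (dp F.RR n)

noncomputable def bs (x : ℕ) (a : Fin F.N) (u : Finset ℕ) : ℝ :=
  if a ∈ Good F P x ∧ u ⊆ As F x a then
    F.wh 1 (F.m + 1) u * (wa F (pr F u) (x + a) * K0 F) else 0

noncomputable def tau (i0 x : ℕ) (a : Fin F.N) (u : Finset ℕ) : ℝ := bs F P x a u * F0 F P i0 x a u

noncomputable def K1 : ℝ := P.Csb * P.Cw * (P.K2 + 2) / P.κ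

/-- the primes below `R t` -/
def Lw (t : ℕ) : Finset ℕ := F.Lv 0 t ∪ F.G t

/-- the weight of the lower parts with logarithm in `[y, y + 1]` -/
noncomputable def Sw (t : ℕ) (T : Finset ℕ) (y : ℝ) : ℝ :=
  ∑ e ∈ T.powerset with y ≤ Real.log (pv e) ∧ Real.log (pv e) ≤ y + 1, F.wh 0 t e * F.wG t e

noncomputable def Vw (t : ℕ) (T : Finset ℕ) : ℝ := F.V 0 t T * F.VG t T

/-- the logarithm of the part of `u` in `R t` and above level `t` -/
noncomputable def lu (t : ℕ) (u : Finset ℕ) : ℝ :=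
  Real.log (pv (up P t u)) + Real.log (pv (u ∩ F.R t))

/-- the object `u` is not bad at level `t + 1` -/
def nb (t x : ℕ) (a : Fin F.N) (u : Finset ℕ) : Prop :=
  F.r (t + 1) < (As F x a ∩ F.R (t + 1)).card ∧
    (As F x a ∩ F.R (t + 1)).card ≤ F.r (t + 1) + P.K3 ∧
    (F.N : ℝ) ≤ pv (up P t u) * P.mn (t + 1) ∧
    Real.log F.D ≤ P.K2 * P.l (t + 1) + lu F P (t + 1) u ∧
    Sw F (t + 1) (As F x a ∩ Lw F (t + 1)) (Real.log F.D - lu F P (t + 1) u)
      ≤ K1 P / P.l (t + 1) * Vw F (t + 1) (As F x a ∩ Lw F (t + 1))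

open Classical in
noncomputable def NB (x t : ℕ) (a : Fin F.N) : Finset (Finset ℕ) := (CC F 0).filter (nb F P t x a)

/-- the range of `log pv v` for the part `v` above level `t`, `T` the primes of the site -/
def Iv (t : ℕ) (T v : Finset ℕ) : Prop :=
  Real.log F.D - P.K2 * P.l t ≤ Real.log (pv (T ∩ F.R t)) + Real.log (pv v) ∧
    Real.log (pv (T ∩ F.R t)) + Real.log (pv v) ≤ Real.log F.D + 1 + P.K3 * P.eL * P.l t

open Classical in
noncomputable def tb (x t : ℕ) (a : Fin F.N) (v : Finset ℕ) : ℝ :=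
  if a ∈ Good F P x ∧ v ⊆ As F x a ∧ Adm F P (t + 1) v ∧ Iv F P (t + 1) (As F x a) v then
    F.wh (t + 2) (F.m + 1) v * (F.V 0 (t + 2) (As F x a) * min 1 (K1 P / P.l (t + 1)) *
      (wa F (pr F v) (x + a) * K0 F))
  else 0

noncomputable def zz (t w : ℕ) : ℝ := P.σ t w / (P.vt * (hp P t / lp P t))

noncomputable def kap (t : ℕ) : ℝ := F.r t + P.Kx t

noncomputable def phw (t w : ℕ) : ℝ := (P.m0 t (wi t w) : ℝ) / (RT F t).card

def Jm : ℕ := (range (F.m + 1)).sup P.J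

/-- the externals of the family other than `Θ` -/
abbrev EE : Type := Ext F.m P.Wn (Jm F P) (RT F) P.m0

/-- mean over the random set `Θ` of sites -/
noncomputable def ET (φ : Finset (Fin F.N) → ℝ) : ℝ :=
  ∑ Θ : Finset (Fin F.N), Maj.pS (fun _ => P.vt) univ Θ * φ Θ

/-- the code, as a set of integers -/
noncomputable def cd (C0 : ℕ → Finset ℕ) (Θ : Finset (Fin F.N)) (e : EE F P) (x : ℕ) : Finset ℕ :=
  ((geo F P C0 Θ x).code (phi e)).map Fin.valEmbedding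

/-- the fibre of `n0` -/
abbrev Fi (Z : ℕ) (n0 : Fin Z) : Type := Fb (fun n : Fin Z => (n : ℕ) % F.Qk) ((n0 : ℕ) % F.Qk)

/-- the data on a fibre -/
def Dt {A : Type} (dt : ℕ → A) (Z : ℕ) (n0 : Fin Z) (y : Fi F Z n0) (b : Fin F.N) : A :=
  dt (y.1 + b)

/-- the compression inequality on the model; `f Θ e a n`, `Q Θ e a u n` are functions of the point
`n`, the hypotheses are on the fibres -/
def ACO : Prop := ∀ k Gc : ℕ, 1 ≤ Gc → ∃ C : ℕ, ∀ (F : Fam) (P : Par), F.k = k → Hyp F P C →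
  ∀ (A : Type) [Fintype A] (dt : ℕ → A) (Z : ℕ) (C0 : ℕ → Finset ℕ) (i0 : ℕ),
    Dat F P A Z C0 →
    ∀ (f : Finset (Fin F.N) → EE F P → Fin F.N → Fin Z → ℝ)
      (Q : Finset (Fin F.N) → EE F P → Fin F.N → Finset ℕ → Fin Z → ℝ),
      (∀ Θ e a n, |f Θ e a n| ≤ 2 * F.z (n + a)) →
      (∀ Θ e a (n0 : Fin Z) (y : Fi F Z n0),
        ce (sig (Dt F dt Z n0) ((geo F P C0 Θ (n0 % F.Qk)).code (phi e)))
          (fun y => f Θ e a y.1) y = 0) →
      (∀ Θ e a u n, |Q Θ e a u n| ≤ Gc / P.η) →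
      (∀ Θ e a (n0 : Fin Z), ∀ u ∈ CC F 0, tau F P i0 (n0 % F.Qk) a u ≠ 0 →
        Ms (sig (Dt F dt Z n0) ((geo F P C0 Θ (n0 % F.Qk)).code (phi e) ∪
          (geo F P C0 Θ (n0 % F.Qk)).Z0 ∩ (geo F P C0 Θ (n0 % F.Qk)).cell u))
          fun y => Q Θ e a u y.1) →
      ET F P (fun Θ => ex fun e : EE F P => ex fun n : Fin Z =>
        ∑ a, ∑ u ∈ CC F 0, tau F P i0 (n % F.Qk) a u * Q Θ e a u n ^ 2) ≤ Gc →
      ET F P (fun Θ => ex fun e : EE F P => ex fun n : Fin Z =>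
        ∑ a, ∑ u ∈ CC F 0, tau F P i0 (n % F.Qk) a u * (f Θ e a n * Q Θ e a u n)) ≤ C * P.η

end Pool.Agent.P.MP_a14ce1_nt.Fu.St.Cp
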