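import Pool.Agent.P.MP_a14ce1_nt.Nil.Gowers3
import Pool.Agent.P.MP_a14ce1_nt.V.St

/-! The dense model theorem for the Gowers norms. -/

namespace Pool.Agent.P.MP_a14ce1_nt.Fu

namespace DM

open Finset Function ComplexConjugate Nil

/-- Bernstein approximation of the square root -/
theorem bern (m : ℕ) (hm : m ≠ 0) (r : ℝ) (h0 : 0 ≤ r) (h1 : r ≤ 1) :
    |r - ∑ i ∈ range (m + 1),
      √((i : ℝ) / m) * ((m.choose i : ℝ) * (r ^ 2) ^ i * (1 - r ^ 2) ^ (m - i))| ≤ 1 / √m := by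
  have hm0 : (0 : ℝ) < m := by exact_mod_cast Nat.pos_of_ne_zero hm
  have hs : 0 < √(m : ℝ) := Real.sqrt_pos.2 hm0
  rcases h0.eq_or_lt with rfl | hr
  · rw [sum_eq_zero, sub_zero, abs_zero]
    · positivity
    · intro i _
      rcases Nat.eq_zero_or_pos i with rfl | hi
      · simp
      · simp [hi.ne']
  set x : unitInterval := ⟨r ^ 2, sq_nonneg r, pow_le_one₀ h0 h1⟩ with hx
  set b : ℕ → ℝ := fun i => (m.choose i : ℝ) * (r ^ 2) ^ i * (1 - r ^ 2) ^ (m - i) with hb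
  have hb0 : ∀ i, 0 ≤ b i := fun i => by
    have : 0 ≤ 1 - r ^ 2 := sub_nonneg.2 (pow_le_one₀ h0 h1)
    simp only [hb]; positivity
  have p1 : ∑ i ∈ range (m + 1), b i = 1 := by
    have := bernstein.probability m x
    simp only [bernstein_apply] at this
    rw [← this, ← Fin.sum_univ_eq_sum_range b]
  have p2 : ∑ i ∈ range (m + 1), (r ^ 2 - (i : ℝ) / m) ^ 2 * b i = r ^ 2 * (1 - r ^ 2) / m := by
    have := bernstein.variance hm x
    simp only [bernstein_apply, bernstein.z] at this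
    rw [← Fin.sum_univ_eq_sum_range (fun i => (r ^ 2 - (i : ℝ) / m) ^ 2 * b i)]
    exact this
  have p3 : ∑ i ∈ range (m + 1), (r - √((i : ℝ) / m)) ^ 2 * b i ≤ 1 / m := by
    have h2 : r ^ 2 * ∑ i ∈ range (m + 1), (r - √((i : ℝ) / m)) ^ 2 * b i ≤ r ^ 2 * (1 / m) := by
      rw [mul_sum]
      refine (sum_le_sum (g := fun i : ℕ => (r ^ 2 - (i : ℝ) / m) ^ 2 * b i) fun i _ => ?_).trans ?_
      · rw [← mul_assoc]
        refine mul_le_mul_of_nonneg_right ?_ (hb0 i)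
        have h3 : 0 ≤ √((i : ℝ) / m) := Real.sqrt_nonneg _
        have h4 : √((i : ℝ) / m) ^ 2 = (i : ℝ) / m := Real.sq_sqrt (by positivity)
        set y := √((i : ℝ) / m)
        rw [← h4]
        have : (r ^ 2 - y ^ 2) ^ 2 = (r + y) ^ 2 * (r - y) ^ 2 := by ring
        rw [this]
        gcongr
        linarith
      · rw [p2, mul_div_assoc]
        gcongr
        nlinarith
    exact le_of_mul_le_mul_left h2 (by positivity)
  have e : r - ∑ i ∈ range (m + 1), √((i : ℝ) / m) * b i =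
      ∑ i ∈ range (m + 1), (r - √((i : ℝ) / m)) * b i := by
    simp only [sub_mul, sum_sub_distrib, ← mul_sum, p1, mul_one]
  rw [e]
  refine (abs_sum_le_sum_abs _ _).trans ((sum_le_sum (g := fun i : ℕ =>
    √m / 2 * ((r - √((i : ℝ) / m)) ^ 2 * b i) + 1 / (2 * √m) * b i) fun i _ => ?_).trans ?_)
  · rw [abs_mul, abs_of_nonneg (hb0 i), ← mul_assoc (√(m : ℝ) / 2), ← add_mul]
    refine mul_le_mul_of_nonneg_right ?_ (hb0 i)
    rw [← sq_abs (r - _)]
    set y := |r - √((i : ℝ) / m)|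
    have : √m / 2 * y ^ 2 + 1 / (2 * √m) - y = (√m * y - 1) ^ 2 / (2 * √m) := by
      field_simp; ring
    have h5 : 0 ≤ (√m * y - 1) ^ 2 / (2 * √m) := by positivity
    linarith
  · rw [sum_add_distrib, ← mul_sum, ← mul_sum, p1]
    have h6 : √(m : ℝ) * √m = m := Real.mul_self_sqrt hm0.le
    calc _ ≤ √m / 2 * (1 / m) + 1 / (2 * √m) * 1 := by gcongr
      _ = 1 / √m := by
        set s := √(m : ℝ)
        rw [← h6]; field_simp; ring

theorem cjw_cjw {σ : Type*} [Fintype σ] [DecidableEq σ] (ω : σ → Bool) (z : ℂ) :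
    cjw ω (cjw ω z) = z := by
  unfold cjw; split_ifs <;> simp

theorem cjw_real {σ : Type*} [Fintype σ] [DecidableEq σ] (ω : σ → Bool) (r : ℝ) :
    cjw ω (r : ℂ) = r := by
  unfold cjw; split_ifs <;> simp

variable {G : Type*} [AddCommGroup G]

theorem U_cjw {σ : Type*} [Fintype σ] [DecidableEq σ] (ω : σ → Bool) (k : ℕ) (f : G → ℂ) :
    U k (fun y => cjw ω (f y)) = U k f := by
  unfold cjw; split_ifs
  · simp
  · exact U_conj k f

theorem vx_add {σ : Type*} [Fintype σ] (ω : σ → Bool) (a e : σ → G) :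
    vx ω (a + e) = vx ω a + vx ω e := by
  unfold vx
  rw [← sum_add_distrib]
  refine sum_congr rfl fun i _ => ?_
  split_ifs <;> simp

variable [Fintype G]

/-- basic dual functions -/
def BD (G : Type*) [AddCommGroup G] [Fintype G] (k : ℕ) : Set (G → ℂ) :=
  {ψ | ∃ u : (Fin (k + 1) → Bool) → G → ℂ, (∀ ω y, ‖u ω y‖ ≤ 1) ∧ (∀ y, u (fun _ => false) y = 1) ∧
    ∀ x, ψ x = ((Fintype.card G : ℂ) ^ (k + 1))⁻¹ * ∑ a : Fin (k + 1) → G, ∏ ω, u ω (x + vx ω a)}

/-- the hull of the basic dual functions -/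
def DD (G : Type*) [AddCommGroup G] [Fintype G] (k : ℕ) : Set (G → ℂ) := convexHull ℝ (BD G k)

variable {k : ℕ}

theorem dd_convex : Convex ℝ (DD G k) := convex_convexHull ℝ _

theorem dd_of_bd {ψ : G → ℂ} (h : ψ ∈ BD G k) : ψ ∈ DD G k := subset_convexHull ℝ _ h

theorem dd_comb {ψ ψ' : G → ℂ} (h : ψ ∈ DD G k) (h' : ψ' ∈ DD G k) {a b : ℝ} (ha : 0 ≤ a)
    (hb : 0 ≤ b) (hab : a + b = 1) : (fun x => (a : ℂ) * ψ x + (b : ℂ) * ψ' x) ∈ DD G k := by
  have := dd_convex h h' ha hb hab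
  convert this using 1
  ext x; simp

theorem dd_ind {P : (G → ℂ) → Prop} (h0 : ∀ ψ ∈ BD G k, P ψ)
    (hc : ∀ (ψ ψ' : G → ℂ) (a b : ℝ), P ψ → P ψ' → 0 ≤ a → 0 ≤ b → a + b = 1 →
      P (fun x => (a : ℂ) * ψ x + (b : ℂ) * ψ' x)) : ∀ ψ ∈ DD G k, P ψ := by
  refine convexHull_min (t := {ψ | P ψ}) h0 fun ψ h ψ' h' a b ha hb hab => ?_
  have := hc ψ ψ' a b h h' ha hb hab
  have e : a • ψ + b • ψ' = fun x => (a : ℂ) * ψ x + (b : ℂ) * ψ' x := by ext x; simp
  rw [e]; exact this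

theorem card_pos' : (0 : ℝ) < Fintype.card G := by
  have : Nonempty G := ⟨0⟩
  exact_mod_cast Fintype.card_pos

theorem card_ne : (Fintype.card G : ℂ) ≠ 0 := by
  have : Nonempty G := ⟨0⟩
  exact_mod_cast Fintype.card_ne_zero

theorem bd_one : (fun _ => 1) ∈ BD G k := by
  refine ⟨fun _ _ => 1, by simp, by simp, fun x => ?_⟩
  have := card_ne (G := G)
  simp [this]

theorem dd_one : (fun _ => 1) ∈ DD G k := dd_of_bd bd_one

theorem dd_le : ∀ ψ ∈ DD G k, ∀ x, ‖ψ x‖ ≤ 1 := by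
  refine dd_ind ?_ ?_
  · rintro ψ ⟨u, h1, -, h3⟩ x
    have hN := card_pos' (G := G)
    rw [h3, norm_mul, norm_inv, norm_pow, Complex.norm_natCast, inv_mul_le_iff₀ (by positivity)]
    refine (norm_sum_le _ _).trans ((sum_le_card_nsmul _ _ 1 fun a _ =>
      V.norm_prod_le_one _ fun ω _ => h1 _ _).trans ?_)
    simp
  · intro ψ ψ' a b h h' ha hb hab x
    refine (norm_add_le _ _).trans ?_
    rw [norm_mul, norm_mul, Complex.norm_real, Complex.norm_real, Real.norm_of_nonneg ha,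
      Real.norm_of_nonneg hb]
    nlinarith [h x, h' x]

theorem dd_conj : ∀ ψ ∈ DD G k, (fun x => conj (ψ x)) ∈ DD G k := by
  refine dd_ind ?_ ?_
  · rintro ψ ⟨u, h1, h2, h3⟩
    refine dd_of_bd ⟨fun ω y => conj (u ω y), fun ω y => by simpa using h1 ω y,
      fun y => by simp [h2], fun x => ?_⟩
    simp [h3]
  · intro ψ ψ' a b h h' ha hb hab
    simpa using dd_comb h h' ha hb hab

theorem bd_mul {ψ ψ' : G → ℂ} (h : ψ ∈ BD G k) (h' : ψ' ∈ BD G k) :
    (fun x => ψ x * ψ' x) ∈ DD G k := by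
  obtain ⟨u, h1, h2, h3⟩ := h
  obtain ⟨u', h1', h2', h3'⟩ := h'
  have hN := card_pos' (G := G)
  set χ : (Fin (k + 1) → G) → G → ℂ := fun e x => ((Fintype.card G : ℂ) ^ (k + 1))⁻¹ *
    ∑ a : Fin (k + 1) → G, ∏ ω, (u ω (x + vx ω a) * u' ω (x + vx ω a + vx ω e)) with hχ
  have hm : ∀ e, χ e ∈ DD G k := fun e =>
    dd_of_bd ⟨fun ω y => u ω y * u' ω (y + vx ω e), fun ω y => by
      rw [norm_mul]; exact mul_le_one₀ (h1 _ _) (norm_nonneg _) (h1' _ _),
      fun y => by simp [h2, h2'], fun x => rfl⟩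
  have := dd_convex.sum_mem (t := univ) (w := fun _ => ((Fintype.card G : ℝ) ^ (k + 1))⁻¹)
    (z := χ) (fun _ _ => by positivity) (by simp [hN.ne']) fun e _ => hm e
  convert this using 1
  ext x
  rw [h3, h3', Finset.sum_apply]
  simp only [hχ, Pi.smul_apply, Complex.real_smul, prod_mul_distrib]
  push_cast
  rw [← mul_sum, ← mul_sum, sum_comm, mul_mul_mul_comm, mul_assoc, sum_mul]
  congr 2
  refine sum_congr rfl fun a _ => ?_
  rw [← mul_sum]
  congr 1
  rw [← Equiv.sum_comp (Equiv.addLeft a)]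
  simp [vx_add, add_assoc]

theorem dd_mul {ψ ψ' : G → ℂ} (h : ψ ∈ DD G k) (h' : ψ' ∈ DD G k) :
    (fun x => ψ x * ψ' x) ∈ DD G k := by
  refine dd_ind (P := fun ψ => (fun x => ψ x * ψ' x) ∈ DD G k) (fun ψ h => ?_)
    (fun ψ1 ψ2 a b h1 h2 ha hb hab => ?_) ψ h
  · refine dd_ind (P := fun ψ' => (fun x => ψ x * ψ' x) ∈ DD G k) (fun ψ' h' => bd_mul h h')
      (fun ψ1 ψ2 a b h1 h2 ha hb hab => ?_) ψ' h'
    convert dd_comb h1 h2 ha hb hab using 2
    ring
  · convert dd_comb h1 h2 ha hb hab using 2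
    ring

theorem dd_pow {ψ : G → ℂ} (h : ψ ∈ DD G k) (i : ℕ) : (fun x => ψ x ^ i) ∈ DD G k := by
  induction i with
  | zero => simpa using dd_one
  | succ i ih => simpa [pow_succ] using dd_mul ih h

theorem gip_fin (F : (Fin (k + 1) → Bool) → G → ℂ) :
    gip F = ∑ x, ∑ a : Fin (k + 1) → G, cube F a x := by
  simp only [gip, finsum_eq_sum_of_fintype]
  exact sum_comm

omit [AddCommGroup G] in
theorem fin_all (f : G → ℂ) : HasFiniteSupport f := Set.toFinite _

/-- members of the hull are anti-uniform -/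
theorem dd_pair {v : G → ℂ} {e : ℝ} (he : 0 ≤ e)
    (hv : U k v ≤ e ^ 2 ^ (k + 1) * (Fintype.card G : ℝ) ^ (k + 2)) :
    ∀ ψ ∈ DD G k, ‖∑ x, v x * ψ x‖ ≤ e * Fintype.card G := by
  have hN := card_pos' (G := G)
  refine dd_ind ?_ ?_
  · rintro ψ ⟨u, h1, h2, h3⟩
    set F : (Fin (k + 1) → Bool) → G → ℂ := fun ω y =>
      cjw ω (if ω = fun _ => false then v y else u ω y) with hF
    have e1 : ∑ x, v x * ψ x = ((Fintype.card G : ℂ) ^ (k + 1))⁻¹ * gip F := by
      rw [gip_fin, mul_sum]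
      refine sum_congr rfl fun x _ => ?_
      rw [h3, mul_left_comm, mul_sum]
      congr 1
      refine sum_congr rfl fun a _ => ?_
      simp only [cube, hF, cjw_cjw]
      rw [← mul_prod_erase univ _ (mem_univ fun _ => false),
        ← mul_prod_erase univ _ (mem_univ fun _ => false), h2, one_mul, if_pos rfl, vx_false,
        add_zero]
      congr 1
      exact prod_congr rfl fun ω hω => by rw [if_neg (ne_of_mem_erase hω)]
    have e2 : ‖gip F‖ ≤ e * (Fintype.card G : ℝ) ^ (k + 2) := by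
      refine (pow_le_pow_iff_left₀ (norm_nonneg _) (by positivity)
        (n := 2 ^ (k + 1)) (by positivity)).1 ((gcs k fun ω => fin_all _).trans ?_)
      refine (prod_le_prod (g := fun ω => (if ω = fun _ => false then e ^ 2 ^ (k + 1) else 1) *
        (Fintype.card G : ℝ) ^ (k + 2)) (fun _ _ => U_nonneg _ _) fun ω _ => ?_).trans (le_of_eq ?_)
      · simp only [hF]
        rw [U_cjw]
        split_ifs
        · exact hv
        · rw [one_mul]
          exact U_le_card k (S := univ) (fun _ _ => mem_univ _) (h1 ω)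
      · rw [prod_mul_distrib, prod_ite_eq', if_pos (mem_univ _), prod_const, mul_pow]
        simp
    rw [e1, norm_mul, norm_inv, norm_pow, Complex.norm_natCast, inv_mul_le_iff₀ (by positivity)]
    refine e2.trans (le_of_eq ?_)
    ring
  · intro ψ ψ' a b h h' ha hb hab
    have : ∑ x, v x * ((a : ℂ) * ψ x + (b : ℂ) * ψ' x) =
        a * ∑ x, v x * ψ x + b * ∑ x, v x * ψ' x := by
      rw [mul_sum, mul_sum, ← sum_add_distrib]
      exact sum_congr rfl fun x _ => by ring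
    rw [this]
    refine (norm_add_le _ _).trans ?_
    rw [norm_mul, norm_mul, Complex.norm_real, Complex.norm_real, Real.norm_of_nonneg ha,
      Real.norm_of_nonneg hb]
    calc _ ≤ a * (e * Fintype.card G) + b * (e * Fintype.card G) := by gcongr
      _ = _ := by rw [← add_mul, hab, one_mul]

/-- the modulus of a member of the hull is nearly anti-uniform -/
theorem dd_abs {v : G → ℝ} {e : ℝ} (he : 0 ≤ e)
    (hv : U k (fun x => (v x : ℂ)) ≤ e ^ 2 ^ (k + 1) * (Fintype.card G : ℝ) ^ (k + 2))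
    {ψ : G → ℂ} (hψ : ψ ∈ DD G k) {m : ℕ} (hm : m ≠ 0) :
    ∑ x, v x * ‖ψ x‖ ≤ 3 ^ m * (e * Fintype.card G) + 1 / √m * ∑ x, |v x| := by
  have ht : (fun x => ((‖ψ x‖ ^ 2 : ℝ) : ℂ)) ∈ DD G k := by
    convert dd_mul hψ (dd_conj ψ hψ) using 2
    rw [Complex.mul_conj, Complex.normSq_eq_norm_sq]
  have h1 : ∀ j : ℕ, ∀ χ ∈ DD G k,
      ‖∑ x, (v x : ℂ) * ((1 - ((‖ψ x‖ ^ 2 : ℝ) : ℂ)) ^ j * χ x)‖ ≤ 2 ^ j * (e * Fintype.card G) := by
    intro j
    induction j with
    | zero => intro χ hχ; simpa using dd_pair he hv χ hχ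
    | succ j ih =>
      intro χ hχ
      have : ∑ x, (v x : ℂ) * ((1 - ((‖ψ x‖ ^ 2 : ℝ) : ℂ)) ^ (j + 1) * χ x) =
          ∑ x, (v x : ℂ) * ((1 - ((‖ψ x‖ ^ 2 : ℝ) : ℂ)) ^ j * χ x) -
          ∑ x, (v x : ℂ) * ((1 - ((‖ψ x‖ ^ 2 : ℝ) : ℂ)) ^ j * (((‖ψ x‖ ^ 2 : ℝ) : ℂ) * χ x)) := by
        rw [← sum_sub_distrib]
        exact sum_congr rfl fun x _ => by ring
      rw [this]
      refine (norm_sub_le _ _).trans ((add_le_add (ih χ hχ) (ih _ (dd_mul ht hχ))).trans
        (le_of_eq ?_))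
      ring
  have h2 : ∀ i j : ℕ, |∑ x, v x * ((‖ψ x‖ ^ 2) ^ i * (1 - ‖ψ x‖ ^ 2) ^ j)| ≤
      2 ^ j * (e * Fintype.card G) := fun i j => by
    refine le_trans (le_of_eq ?_) (h1 j _ (dd_pow ht i))
    rw [← Real.norm_eq_abs, ← Complex.norm_real]
    congr 1
    push_cast
    exact sum_congr rfl fun x _ => by ring
  set B : G → ℝ := fun x => ∑ i ∈ range (m + 1),
    √((i : ℝ) / m) * ((m.choose i : ℝ) * (‖ψ x‖ ^ 2) ^ i * (1 - ‖ψ x‖ ^ 2) ^ (m - i)) with hB
  have h3 : ∑ x, v x * B x ≤ 3 ^ m * (e * Fintype.card G) := by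
    have e1 : ∑ x, v x * B x = ∑ i ∈ range (m + 1), √((i : ℝ) / m) * (m.choose i : ℝ) *
        ∑ x, v x * ((‖ψ x‖ ^ 2) ^ i * (1 - ‖ψ x‖ ^ 2) ^ (m - i)) := by
      simp only [hB, mul_sum]
      rw [sum_comm]
      exact sum_congr rfl fun i _ => sum_congr rfl fun x _ => by ring
    have e2 : (3 : ℝ) ^ m = ∑ i ∈ range (m + 1), 1 ^ i * 2 ^ (m - i) * (m.choose i : ℝ) := by
      rw [← add_pow]; norm_num
    rw [e1, e2, sum_mul]
    refine sum_le_sum fun i hi => ?_
    have hm0 : (0 : ℝ) < m := by exact_mod_cast Nat.pos_of_ne_zero hm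
    have h4 : √((i : ℝ) / m) ≤ 1 := by
      rw [Real.sqrt_le_left zero_le_one, one_pow, div_le_one hm0]
      exact_mod_cast Nat.lt_succ_iff.1 (mem_range.1 hi)
    have h5 := (le_abs_self _).trans (h2 i (m - i))
    have h6 : 0 ≤ 2 ^ (m - i) * (e * Fintype.card G) := by positivity
    calc _ ≤ √((i : ℝ) / m) * (m.choose i : ℝ) * (2 ^ (m - i) * (e * Fintype.card G)) := by gcongr
      _ ≤ 1 * (m.choose i : ℝ) * (2 ^ (m - i) * (e * Fintype.card G)) := by gcongr
      _ = _ := by ring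
  have h4 : ∑ x, v x * (‖ψ x‖ - B x) ≤ 1 / √m * ∑ x, |v x| := by
    rw [mul_sum]
    refine sum_le_sum fun x _ => (le_abs_self _).trans ?_
    rw [abs_mul, mul_comm]
    exact mul_le_mul_of_nonneg_right (bern m hm _ (norm_nonneg _) (dd_le ψ hψ x)) (abs_nonneg _)
  have e3 : ∑ x, v x * ‖ψ x‖ = ∑ x, v x * B x + ∑ x, v x * (‖ψ x‖ - B x) := by
    rw [← sum_add_distrib]
    exact sum_congr rfl fun x _ => by ring
  rw [e3]
  exact add_le_add h3 h4

/-- Hahn–Banach sandwich -/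
theorem sandwich {α : Type*} [Fintype α] (I : Finset α) {D : Set (α → ℂ)} (hD : Convex ℝ D)
    (hne : D.Nonempty) (φ : α → ℂ) (ε : ℝ)
    (h : ∀ ψ ∈ D, (∑ x, φ x * ψ x).re - ε ≤ ∑ x ∈ I, ‖ψ x‖) :
    ∃ φt : α → ℂ, (∀ x, ‖φt x‖ ≤ 1) ∧ (∀ x ∉ I, φt x = 0) ∧
      ∀ ψ ∈ D, (∑ x, (φ x - φt x) * ψ x).re ≤ ε := by
  classical
  set p : (α → ℂ) → ℝ := fun ψ => ∑ x ∈ I, ‖ψ x‖ with hp
  set q : (α → ℂ) → ℝ := fun ψ => (∑ x, φ x * ψ x).re - ε with hq
  have hpc : Continuous p := by simp only [hp]; fun_prop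
  have hps : ∀ (r : ℝ) ψ, 0 ≤ r → p (r • ψ) = r * p ψ := fun r ψ hr => by
    simp only [hp, mul_sum, Pi.smul_apply, norm_smul, Real.norm_of_nonneg hr]
  have hpa : ∀ ψ ψ', p (ψ + ψ') ≤ p ψ + p ψ' := fun ψ ψ' => by
    simp only [hp, ← sum_add_distrib]
    exact sum_le_sum fun x _ => norm_add_le _ _
  have hqa : ∀ (ψ ψ' : α → ℂ) (a b : ℝ), a + b = 1 → q (a • ψ + b • ψ') = a * q ψ + b * q ψ' := by
    intro ψ ψ' a b hab
    have : ∑ x, φ x * (a • ψ + b • ψ') x = a * ∑ x, φ x * ψ x + b * ∑ x, φ x * ψ' x := by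
      rw [mul_sum, mul_sum, ← sum_add_distrib]
      exact sum_congr rfl fun x _ => by simp; ring
    simp only [hq, this, Complex.add_re, Complex.re_ofReal_mul]
    linear_combination ε * hab
  obtain ⟨f, u, ha, hb⟩ := geometric_hahn_banach_open
    (s := {z : (α → ℂ) × ℝ | p z.1 < z.2}) (t := {z : (α → ℂ) × ℝ | z.1 ∈ D ∧ z.2 ≤ q z.1})
    (by
      intro z hz z' hz' a b ha hb hab
      have h1 : p z.1 < z.2 := hz
      have h2 : p z'.1 < z'.2 := hz'
      change p (a • z.1 + b • z'.1) < a * z.2 + b * z'.2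
      refine (hpa _ _).trans_lt ?_
      rw [hps _ _ ha, hps _ _ hb]
      rcases ha.eq_or_lt with rfl | ha'
      · rw [zero_add] at hab; subst hab; simpa using h2
      · nlinarith [mul_le_mul_of_nonneg_left h2.le hb, mul_lt_mul_of_pos_left h1 ha'])
    (isOpen_lt (hpc.comp continuous_fst) continuous_snd)
    (by
      rintro z ⟨h1, h2⟩ z' ⟨h1', h2'⟩ a b ha hb hab
      refine ⟨hD h1 h1' ha hb hab, ?_⟩
      change a * z.2 + b * z'.2 ≤ q (a • z.1 + b • z'.1)
      rw [hqa _ _ _ _ hab]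
      gcongr)
    (Set.disjoint_left.2 fun z hz hz' => by
      have h1 : p z.1 < z.2 := hz
      have := h _ hz'.1
      exact absurd (hz'.2.trans this) (not_le.2 h1))
  set c : ℝ := f (0, 1) with hc
  have hf : ∀ ψ (t : ℝ), f (ψ, t) = f (ψ, 0) + t * c := fun ψ t => by
    have : ((ψ, t) : (α → ℂ) × ℝ) = (ψ, 0) + t • (0, 1) := by simp
    rw [this, map_add, map_smul, smul_eq_mul]
  have hs : ∀ ψ (t r : ℝ), p ψ < t → 0 < r → r * f (ψ, t) < u := fun ψ t r h1 hr => by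
    have := ha (r • (ψ, t)) (by
      change p (r • ψ) < r * t
      rw [hps _ _ hr.le]; gcongr)
    rwa [map_smul, smul_eq_mul] at this
  have hle : ∀ ψ (t : ℝ), p ψ < t → f (ψ, t) ≤ 0 := fun ψ t h1 => by
    by_contra hcon
    push Not at hcon
    have := hs ψ t ((|u| + 1) / f (ψ, t)) h1 (by positivity)
    rw [div_mul_cancel₀ _ hcon.ne'] at this
    linarith [le_abs_self u]
  have hp0 : p 0 = 0 := by simp [hp]
  have hc0 : c ≤ 0 := hle 0 1 (by rw [hp0]; norm_num)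
  have hu : 0 ≤ u := by
    by_contra hcon
    push Not at hcon
    have := hs 0 1 (-u / (1 - c)) (by rw [hp0]; norm_num) (div_pos (by linarith) (by linarith))
    rw [← hc, div_mul_eq_mul_div, div_lt_iff₀ (by linarith)] at this
    nlinarith
  have hle' : ∀ ψ, f (ψ, 0) ≤ -c * p ψ := fun ψ => by
    refine le_of_forall_pos_le_add fun δ hδ => ?_
    have h1 : 0 < δ / (1 - c) := div_pos hδ (by linarith)
    have := hle ψ (p ψ + δ / (1 - c)) (by linarith)
    rw [hf] at this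
    have h2 : δ / (1 - c) * (-c) ≤ δ := by
      rw [div_mul_eq_mul_div, div_le_iff₀ (by linarith)]; nlinarith
    nlinarith
  have hc1 : c < 0 := by
    refine lt_of_le_of_ne hc0 fun h0 => ?_
    obtain ⟨ψ, hψ⟩ := hne
    have h1 := hb (ψ, q ψ) ⟨hψ, le_rfl⟩
    have h2 := hs 0 1 1 (by rw [hp0]; norm_num) one_pos
    have h3 := hle' ψ
    rw [hf, h0] at h1
    rw [← hc, h0] at h2
    rw [h0] at h3
    linarith
  set φt : α → ℂ := fun x => ((f (Pi.single x 1, 0) / -c : ℝ) : ℂ) -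
    Complex.I * ((f (Pi.single x Complex.I, 0) / -c : ℝ) : ℂ) with hφt
  have h1 : ∀ x z, (φt x * z).re = f (Pi.single x z, 0) / -c := fun x z => by
    have : ((Pi.single x z, 0) : (α → ℂ) × ℝ) =
        z.re • (Pi.single x 1, 0) + z.im • (Pi.single x Complex.I, 0) := by
      ext y
      · by_cases hy : y = x
        · subst hy; simp
        · simp [hy]
      · simp
    rw [this, map_add, map_smul, map_smul]
    simp only [hφt, smul_eq_mul, Complex.mul_re, Complex.sub_re, Complex.sub_im, Complex.mul_im,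
      Complex.ofReal_re, Complex.ofReal_im, Complex.I_re, Complex.I_im]
    ring
  have h2 : ∀ x, ‖φt x‖ ^ 2 ≤ if x ∈ I then ‖φt x‖ else 0 := fun x => by
    have h3 := h1 x (conj (φt x))
    rw [Complex.mul_conj, Complex.ofReal_re, Complex.normSq_eq_norm_sq] at h3
    rw [h3, div_le_iff₀ (by linarith), mul_comm]
    refine (hle' _).trans (le_of_eq ?_)
    congr 1
    simp only [hp]
    rw [← Complex.norm_conj (φt x), ← sum_ite_eq I x fun _ => ‖conj (φt x)‖]
    refine sum_congr rfl fun y _ => ?_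
    by_cases hy : x = y
    · subst hy; simp
    · simp [hy, Ne.symm hy]
  refine ⟨φt, fun x => ?_, fun x hx => ?_, fun ψ hψ => ?_⟩
  · have := h2 x
    have h3 := norm_nonneg (φt x)
    split_ifs at this <;> nlinarith
  · have := h2 x
    rw [if_neg hx] at this
    exact norm_eq_zero.1 (pow_eq_zero_iff two_ne_zero |>.1 (le_antisymm this (sq_nonneg _)))
  · have h3 : (∑ x, φt x * ψ x).re = f (ψ, 0) / -c := by
      rw [Complex.re_sum]
      simp only [h1]
      rw [← sum_div, ← map_sum]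
      congr 2
      ext y
      · simp [Prod.fst_sum, Finset.sum_apply]
      · simp [Prod.snd_sum]
    have h4 := hb (ψ, q ψ) ⟨hψ, le_rfl⟩
    rw [hf] at h4
    have h5 : q ψ ≤ f (ψ, 0) / -c := by
      rw [le_div_iff₀ (by linarith)]; linarith
    simp only [sub_mul, sum_sub_distrib, Complex.sub_re, h3]
    simp only [hq] at h5
    linarith

/-- the Gowers sum as a pairing with a member of the hull -/
theorem U_pair (v : G → ℂ) {B : ℝ} (hB : 0 < B) (hv : ∀ x, ‖v x‖ ≤ B) : ∃ ψ ∈ DD G k,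
    U k v = B ^ (2 ^ (k + 1) - 1) * (Fintype.card G : ℝ) ^ (k + 1) * (∑ x, v x * ψ x).re := by
  set o : Fin (k + 1) → Bool := fun _ => false with ho
  set u : (Fin (k + 1) → Bool) → G → ℂ := fun ω y =>
    if ω = o then 1 else cjw o (cjw ω (v y)) / B with hu
  refine ⟨_, dd_of_bd ⟨u, fun ω y => ?_, fun y => if_pos rfl, fun x => rfl⟩, ?_⟩
  · simp only [hu]
    split_ifs
    · simp
    · rw [norm_div, norm_cjw, norm_cjw, Complex.norm_real, Real.norm_of_nonneg hB.le,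
        div_le_one hB]
      exact hv y
  · have hN := card_ne (G := G)
    have hB' : (B : ℂ) ≠ 0 := by exact_mod_cast hB.ne'
    have e1 : (U k v : ℂ) = ((B ^ (2 ^ (k + 1) - 1) * (Fintype.card G : ℝ) ^ (k + 1) : ℝ) : ℂ) *
        ∑ x, v x * (((Fintype.card G : ℂ) ^ (k + 1))⁻¹ *
          ∑ a : Fin (k + 1) → G, ∏ ω, u ω (x + vx ω a)) := by
      rw [← cjw_real o, U_eq_gip k (fin_all v), gip_fin, map_sum, mul_sum]
      refine sum_congr rfl fun x _ => ?_
      have e2 : ∀ a : Fin (k + 1) → G, cjw o (cube (fun _ => v) a x) =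
          (B : ℂ) ^ (2 ^ (k + 1) - 1) * (v x * ∏ ω, u ω (x + vx ω a)) := fun a => by
        rw [cube, map_prod, ← mul_prod_erase univ _ (mem_univ o),
          ← mul_prod_erase univ _ (mem_univ o), cjw_cjw, ho, vx_false, add_zero, ← ho]
        have e3 : ∏ ω ∈ univ.erase o, cjw o (cjw ω (v (x + vx ω a))) =
            ∏ ω ∈ univ.erase o, ((B : ℂ) * u ω (x + vx ω a)) :=
          prod_congr rfl fun ω hω => by
            simp only [hu]
            rw [if_neg (ne_of_mem_erase hω), mul_div_cancel₀ _ hB']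
        rw [e3, prod_mul_distrib, prod_const, card_erase_of_mem (mem_univ _)]
        simp only [hu, if_true, card_univ, Fintype.card_pi, Fintype.card_bool, prod_const,
          Fintype.card_fin]
        ring
      rw [map_sum]
      simp only [e2]
      rw [← mul_sum, ← mul_sum]
      push_cast
      field_simp
    have := congrArg Complex.re e1
    rwa [Complex.ofReal_re, Complex.re_ofReal_mul] at this

end DM

open Finset Function ComplexConjugate Nil DM

/-- Dense model theorem on a finite abelian group, with the degree m of the polynomial. -/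
theorem dm_deg {G : Type*} [AddCommGroup G] [Fintype G] [DecidableEq G] (k : ℕ) (I : Finset G)
    (w wb : G → ℝ) (φ : G → ℂ) {Om e : ℝ} {m : ℕ} (hm : m ≠ 0) (he : 0 ≤ e) (hOm : 0 ≤ Om)
    (hw : ∀ x ∈ I, w x ≤ Om) (hb0 : ∀ x ∈ I, 0 ≤ wb x) (hb1 : ∀ x ∈ I, wb x ≤ 1)
    (hU : U k (fun x => ((if x ∈ I then w x - wb x else 0 : ℝ) : ℂ)) ≤
      e ^ 2 ^ (k + 1) * (Fintype.card G : ℝ) ^ (k + 2))
    (hφ : ∀ x ∈ I, ‖φ x‖ ≤ w x) (hφ0 : ∀ x ∉ I, φ x = 0) :
    ∃ φt : G → ℂ, (∀ x, ‖φt x‖ ≤ 1) ∧ (∀ x ∉ I, φt x = 0) ∧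
      U k (fun x => φ x - φt x) ≤ (2 / √m + (3 ^ m + 1) * e) * (Om + 1) ^ (2 ^ (k + 1) - 1) *
        (Fintype.card G : ℝ) ^ (k + 2) := by
  set v : G → ℝ := fun x => if x ∈ I then w x - wb x else 0 with hv
  have hN := card_pos' (G := G)
  have hs : 1 ≤ √(m : ℝ) := Real.one_le_sqrt.2 (by exact_mod_cast Nat.pos_of_ne_zero hm)
  have h1 : ∑ x, |v x| ≤ (2 + e) * Fintype.card G := by
    have h2 := dd_pair he hU _ dd_one
    simp only [mul_one] at h2
    rw [← Complex.ofReal_sum, Complex.norm_real, Real.norm_eq_abs] at h2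
    have h3 : ∑ x, |v x| ≤ ∑ x, (v x + 2) := sum_le_sum fun x _ => by
      simp only [hv]
      split_ifs with hx
      · have := hb0 x hx
        have := hb1 x hx
        have := (norm_nonneg _).trans (hφ x hx)
        rw [abs_le]; constructor <;> linarith
      · simp
    rw [sum_add_distrib, sum_const, card_univ, nsmul_eq_mul] at h3
    linarith [le_abs_self (∑ x, v x)]
  obtain ⟨φt, t1, t2, t3⟩ := sandwich I (dd_convex (G := G) (k := k)) ⟨_, dd_one⟩ φ
    ((2 / √m + (3 ^ m + 1) * e) * Fintype.card G) fun ψ hψ => by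
      have h2 := dd_abs he hU hψ hm
      have h3 : (∑ x, φ x * ψ x).re ≤ ∑ x, v x * ‖ψ x‖ + ∑ x ∈ I, ‖ψ x‖ := by
        rw [Complex.re_sum, ← sum_ite_mem_eq I, ← sum_add_distrib]
        refine sum_le_sum fun x _ => (Complex.re_le_norm _).trans ?_
        simp only [hv]
        split_ifs with hx
        · rw [norm_mul]
          nlinarith [hφ x hx, hb1 x hx, norm_nonneg (ψ x)]
        · simp [hφ0 x hx]
      have h4 : 1 / √(m : ℝ) * ∑ x, |v x| ≤ (2 / √m + e) * Fintype.card G := by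
        refine (mul_le_mul_of_nonneg_left h1 (by positivity)).trans ?_
        rw [← mul_assoc]
        refine mul_le_mul_of_nonneg_right ?_ hN.le
        have : 1 / √(m : ℝ) * e ≤ 1 * e := by
          gcongr; exact (div_le_one (by positivity)).2 hs
        rw [mul_add]
        linarith [show 1 / √(m : ℝ) * 2 = 2 / √m by ring]
      linarith
  refine ⟨φt, t1, t2, ?_⟩
  obtain ⟨ψ, hψ, e1⟩ := U_pair (k := k) (fun x => φ x - φt x) (B := Om + 1) (by linarith) fun x => by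
    refine (norm_sub_le _ _).trans (add_le_add ?_ (t1 x))
    by_cases hx : x ∈ I
    · exact (hφ x hx).trans (hw x hx)
    · simpa [hφ0 x hx] using hOm
  rw [e1]
  refine (mul_le_mul_of_nonneg_left (t3 ψ hψ) (by positivity)).trans (le_of_eq ?_)
  ring

theorem ex_deg {η : ℝ} (h0 : 0 < η) (h1 : η ≤ 1) :
    ∃ m : ℕ, m ≠ 0 ∧ 2 / √(m : ℝ) ≤ 2 * η ∧ (3 : ℝ) ^ m + 1 ≤ Real.exp (3 / η ^ 2) := by
  have h2 : 1 ≤ 1 / η ^ 2 := by
    rw [le_div_iff₀ (by positivity), one_mul]; exact pow_le_one₀ h0.le h1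
  have h3 := Nat.le_ceil (1 / η ^ 2)
  have h4 := (Nat.ceil_lt_add_one (le_trans zero_le_one h2)).le
  set m := ⌈1 / η ^ 2⌉₊
  refine ⟨m, fun h => ?_, ?_, ?_⟩
  · rw [h] at h3; norm_num at h3; nlinarith
  · have h5 : 1 / η ≤ √(m : ℝ) := Real.le_sqrt_of_sq_le (by rwa [div_pow, one_pow])
    have h6 : 0 < 1 / η := by positivity
    calc _ ≤ 2 / (1 / η) := by gcongr
      _ = _ := by field_simp
  · have h5 : (3 : ℝ) ≤ Real.exp (4 / 3) := by
      have := Real.add_one_le_exp (1 / 3 : ℝ)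
      have h6 := Real.exp_one_gt_d9
      rw [show (4 / 3 : ℝ) = 1 + 1 / 3 by norm_num, Real.exp_add]
      nlinarith
    have h6 : (3 : ℝ) ^ m ≤ Real.exp (4 / 3 * (1 / η ^ 2 + 1)) := by
      refine (pow_le_pow_left₀ (by norm_num) h5 m).trans ?_
      rw [← Real.exp_nat_mul, mul_comm]
      gcongr
    have h7 : Real.exp (4 / 3 * (1 / η ^ 2 + 1)) * Real.exp (1 / 3) ≤ Real.exp (3 / η ^ 2) := by
      rw [← Real.exp_add]
      gcongr
      have : 3 / η ^ 2 = 3 * (1 / η ^ 2) := by ring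
      linarith
    have h8 : 3 ≤ Real.exp (4 / 3 * (1 / η ^ 2 + 1)) := h5.trans (by gcongr; linarith)
    nlinarith [Real.add_one_le_exp (1 / 3 : ℝ)]

/-- Dense model theorem on a finite abelian group. -/
theorem dm {G : Type*} [AddCommGroup G] [Fintype G] [DecidableEq G] (k : ℕ) (I : Finset G)
    (w wb : G → ℝ) (φ : G → ℂ) {Om e η : ℝ} (h0 : 0 < η) (h1 : η ≤ 1) (he : 0 ≤ e) (hOm : 0 ≤ Om)
    (hw : ∀ x ∈ I, w x ≤ Om) (hb0 : ∀ x ∈ I, 0 ≤ wb x) (hb1 : ∀ x ∈ I, wb x ≤ 1)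
    (hU : U k (fun x => ((if x ∈ I then w x - wb x else 0 : ℝ) : ℂ)) ≤
      e ^ 2 ^ (k + 1) * (Fintype.card G : ℝ) ^ (k + 2))
    (hφ : ∀ x ∈ I, ‖φ x‖ ≤ w x) (hφ0 : ∀ x ∉ I, φ x = 0) :
    ∃ φt : G → ℂ, (∀ x, ‖φt x‖ ≤ 1) ∧ (∀ x ∉ I, φt x = 0) ∧
      U k (fun x => φ x - φt x) ≤ (2 * η + Real.exp (3 / η ^ 2) * e) *
        (Om + 1) ^ (2 ^ (k + 1) - 1) * (Fintype.card G : ℝ) ^ (k + 2) := by
  obtain ⟨m, hm, m1, m2⟩ := ex_deg h0 h1
  obtain ⟨φt, t1, t2, t3⟩ := dm_deg k I w wb φ hm he hOm hw hb0 hb1 hU hφ hφ0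
  refine ⟨φt, t1, t2, t3.trans ?_⟩
  gcongr

/-! ### Functions on a window of the integers -/

/-- For functions supported in [0, H) the sums on Z/N and on the integers agree if 2 H ≤ N. -/
theorem U_val (H N k : ℕ) [NeZero N] (hN : 2 * H ≤ N) {φ : ℤ → ℂ}
    (h : ∀ n, φ n ≠ 0 → 0 ≤ n ∧ n < H) :
    U k (fun x : ZMod N => φ (x.val : ℤ)) = V.gow H k φ := by
  induction k generalizing φ with
  | zero =>
    rw [V.gow_zero, U, finsum_eq_sum_of_fintype, V.sum_val (fun n : ℕ => φ n)]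
    congr 2
    rw [← sum_subset (range_subset_range.2 (show H ≤ N by omega)) fun n _ hn => by
      by_contra hc
      have := h n hc
      rw [mem_range] at hn
      omega]
    refine sum_nbij' (fun n => (n : ℤ)) (fun n => n.toNat) ?_ ?_ ?_ ?_ ?_
    · intro n hn; rw [mem_range] at hn; rw [mem_Ico]; omega
    · intro n hn; rw [mem_Ico] at hn; rw [mem_range]; omega
    · intro n _; simp
    · intro n hn; rw [mem_Ico] at hn; omega
    · intro n _; rfl
  | succ k ih =>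
    have hinj : Set.InjOn (fun a : ℤ => (a : ZMod N)) (Ioo (-(H : ℤ)) H : Finset ℤ) := by
      intro a ha b hb hab
      rw [mem_coe, mem_Ioo] at ha hb
      have := (ZMod.intCast_eq_intCast_iff_dvd_sub a b N).1 hab
      have := Int.eq_zero_of_abs_lt_dvd this (by rw [abs_lt]; omega)
      omega
    rw [V.gow_succ, U_succ_eq k (T := (Ioo (-(H : ℤ)) H).image fun a : ℤ => (a : ZMod N))
      fun x y hx hy => by
        have := h _ hx
        have := h _ hy
        refine mem_image.2 ⟨(x.val : ℤ) - y.val, mem_Ioo.2 ⟨by omega, by omega⟩, ?_⟩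
        simp, sum_image hinj]
    refine sum_congr rfl fun a ha => ?_
    rw [← ih (φ := V.dl a φ) fun n hn => h n (dl_ne hn).2]
    congr 1
    ext x
    simp only [dl, V.dl]
    by_cases hx : φ x.val = 0
    · rw [hx, map_zero, mul_zero, mul_zero]
    · congr 1
      have h1 := h _ hx
      rw [mem_Ioo] at ha
      have h2 : (((x + (a : ZMod N)).val : ℕ) : ℤ) = ((x.val : ℤ) + a) % N := by
        rw [← ZMod.val_intCast]; simp
      rw [h2]
      by_cases h3 : 0 ≤ (x.val : ℤ) + a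
      · rw [Int.emod_eq_of_lt h3 (by omega)]
      · have h4 : ((x.val : ℤ) + a) % N = (x.val : ℤ) + a + N := by
          rw [← Int.add_emod_right, Int.emod_eq_of_lt (by omega) (by omega)]
        rw [h4]
        have h5 : φ ((x.val : ℤ) + a + N) = 0 := by
          by_contra hc; have := h _ hc; omega
        have h6 : φ ((x.val : ℤ) + a) = 0 := by
          by_contra hc; have := h _ hc; omega
        rw [h5, h6]

/-- short steps are among all steps -/
theorem glo_le_U (N K k : ℕ) [NeZero N] (hK : 2 * K ≤ N + 1) (f : ZMod N → ℂ) :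
    V.glo K k f ≤ U k f := by
  induction k generalizing f with
  | zero => rw [V.glo_zero, U, finsum_eq_sum_of_fintype]
  | succ k ih =>
    have hinj : Set.InjOn (fun a : ℤ => (a : ZMod N)) (Ioo (-(K : ℤ)) K : Finset ℤ) := by
      intro a ha b hb hab
      rw [mem_coe, mem_Ioo] at ha hb
      have := (ZMod.intCast_eq_intCast_iff_dvd_sub a b N).1 hab
      have := Int.eq_zero_of_abs_lt_dvd this (by rw [abs_lt]; omega)
      omega
    rw [V.glo_succ, U, finsum_eq_sum_of_fintype]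
    refine (sum_le_sum fun a _ => ih _).trans ?_
    refine le_trans (le_of_eq ?_) (sum_le_sum_of_subset_of_nonneg (subset_univ
      ((Ioo (-(K : ℤ)) K).image fun a : ℤ => (a : ZMod N))) fun _ _ _ => U_nonneg _ _)
    rw [sum_image hinj]
    rfl

/-- Dense model theorem on the window [0, H) of the integers. -/
theorem dm_int (k H : ℕ) (w wb : ℤ → ℝ) (φ : ℤ → ℂ) {Om e η : ℝ} (h0 : 0 < η) (h1 : η ≤ 1)
    (he : 0 ≤ e) (hOm : 0 ≤ Om) (hw : ∀ n : ℤ, 0 ≤ n → n < H → w n ≤ Om)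
    (hb0 : ∀ n : ℤ, 0 ≤ n → n < H → 0 ≤ wb n) (hb1 : ∀ n : ℤ, 0 ≤ n → n < H → wb n ≤ 1)
    (hU : V.gow H k (fun n => ((if 0 ≤ n ∧ n < H then w n - wb n else 0 : ℝ) : ℂ)) ≤
      e ^ 2 ^ (k + 1) * (2 * H : ℝ) ^ (k + 2))
    (hφ : ∀ n : ℤ, 0 ≤ n → n < H → ‖φ n‖ ≤ w n) (hφ0 : ∀ n, φ n ≠ 0 → 0 ≤ n ∧ n < H) :
    ∃ φt : ℤ → ℂ, (∀ n, ‖φt n‖ ≤ 1) ∧ (∀ n, φt n ≠ 0 → 0 ≤ n ∧ n < H) ∧
      V.gow H k (fun n => φ n - φt n) ≤ (2 * η + Real.exp (3 / η ^ 2) * e) *
        (Om + 1) ^ (2 ^ (k + 1) - 1) * (2 * H : ℝ) ^ (k + 2) := by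
  rcases Nat.eq_zero_or_pos H with rfl | hH
  · refine ⟨fun _ => 0, by simp, by simp, ?_⟩
    cases k <;> simp [V.gow]
  have : NeZero (2 * H) := ⟨by omega⟩
  set I : Finset (ZMod (2 * H)) := univ.filter fun x => x.val < H with hI
  have hm : ∀ x, x ∈ I ↔ 0 ≤ (x.val : ℤ) ∧ (x.val : ℤ) < H := fun x => by
    simp only [hI, mem_filter, mem_univ, true_and]; omega
  have hc : (Fintype.card (ZMod (2 * H)) : ℝ) = 2 * H := by rw [ZMod.card]; push_cast; ring
  obtain ⟨φt, t1, t2, t3⟩ := dm k I (fun x => w x.val) (fun x => wb x.val) (fun x => φ x.val) h0 h1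
    he hOm (fun x hx => hw _ ((hm x).1 hx).1 ((hm x).1 hx).2)
    (fun x hx => hb0 _ ((hm x).1 hx).1 ((hm x).1 hx).2)
    (fun x hx => hb1 _ ((hm x).1 hx).1 ((hm x).1 hx).2)
    (by
      rw [hc]
      refine le_trans (le_of_eq ?_) hU
      rw [← U_val H (2 * H) k le_rfl fun n hn => by
        by_contra hc
        exact hn (by rw [if_neg hc, Complex.ofReal_zero])]
      simp only [hm])
    (fun x hx => hφ _ ((hm x).1 hx).1 ((hm x).1 hx).2)
    (fun x hx => by
      by_contra hc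
      exact hx ((hm x).2 (hφ0 _ hc)))
  refine ⟨fun n => if 0 ≤ n ∧ n < H then φt (n : ZMod (2 * H)) else 0, fun n => ?_, fun n hn => ?_,
    ?_⟩
  · beta_reduce
    split_ifs
    · exact t1 _
    · simp
  · by_contra hc
    exact hn (if_neg hc)
  · rw [← hc, ← U_val H (2 * H) k le_rfl fun n hn => by
      by_contra hc
      refine hn ?_
      beta_reduce
      rw [if_neg hc, sub_zero]
      by_contra h2
      exact hc (hφ0 n h2)]
    refine le_trans (le_of_eq ?_) t3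
    congr 1
    ext x
    congr 1
    beta_reduce
    split_ifs with hx
    · simp
    · exact (t2 x fun h => hx ((hm x).1 h)).symm

end Pool.Agent.P.MP_a14ce1_nt.Fu
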