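import Pool.Agent.P.MP_a14ce1_nt.Fu.Info

/-!
Jointly uniform coordinates, resampling, and the fractional subadditivity SH of the information
about the coordinates that fall into small sets.
-/

open Finset

namespace Pool.Agent.P.MP_a14ce1_nt.Fu

variable {Ω : Type} [Fintype Ω]

/-- indicator of a proposition -/
noncomputable def ind (p : Prop) : ℝ := by classical exact if p then 1 else 0

theorem ind_pos {p : Prop} (h : p) : ind p = 1 := by simp [ind, h]

theorem ind_neg {p : Prop} (h : ¬p) : ind p = 0 := by simp [ind, h]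

theorem ind_eq (p : Prop) [Decidable p] : ind p = if p then 1 else 0 := by
  by_cases h : p <;> simp [ind, h]

theorem ind_nonneg (p : Prop) : 0 ≤ ind p := by by_cases h : p <;> simp [ind, h]

theorem ind_le_one (p : Prop) : ind p ≤ 1 := by by_cases h : p <;> simp [ind, h]

theorem ind_and (p q : Prop) : ind (p ∧ q) = ind p * ind q := by
  by_cases h : p <;> by_cases h' : q <;> simp [ind, h, h']

theorem ind_congr {p q : Prop} (h : p ↔ q) : ind p = ind q := by rw [propext h]

theorem ex_ind_cls (D : Setoid Ω) (x : Ω) :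
    ex (fun y => ind (D x y)) = (cls D x).card / Fintype.card Ω := by
  classical
  simp only [ex, ind_eq, ← mem_cls, sum_ite_mem, univ_inter, sum_const, nsmul_eq_mul, mul_one]

theorem ce_ind_cls (D L : Setoid Ω) (x : Ω) :
    ce D (fun y => ind (L x y)) x = (cls (D ⊓ L) x).card / (cls D x).card := by
  classical
  simp only [ce, ind_eq, sum_boole]
  congr 3
  ext y
  simp only [mem_filter, mem_cls]
  exact inf_iff.symm

theorem MI_eq (L D : Setoid Ω) : MI L D =
    ex fun x => Real.log (ce D (fun y => ind (L x y)) x / ex fun y => ind (L x y)) := by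
  rw [MI, cH_eq, Hh, ← ex_sub]
  refine ex_congr fun x => ?_
  have : Nonempty Ω := ⟨x⟩
  have a := cls_pos D x
  have b := cls_pos L x
  have c := cls_pos (D ⊓ L) x
  have d := card_pos' (Ω := Ω)
  rw [ce_ind_cls, ex_ind_cls, Real.log_div (by positivity) (by positivity),
    Real.log_div c.ne' a.ne', Real.log_div b.ne' d.ne']
  ring

/-- independent informations -/
theorem MI_eq_zero {L D : Setoid Ω} (h : ∀ x, ex (fun y => ind (D x y) * ind (L x y)) =
    ex (fun y => ind (D x y)) * ex fun y => ind (L x y)) : MI L D = 0 := by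
  rw [MI_eq, ← ex_zero (Ω := Ω)]
  refine ex_congr fun x => ?_
  have : Nonempty Ω := ⟨x⟩
  have a := cls_pos D x
  have b := cls_pos L x
  have d := card_pos' (Ω := Ω)
  have h1 := h x
  simp only [← ind_and, ← inf_iff, ex_ind_cls] at h1
  rw [ce_ind_cls, ex_ind_cls, ← Real.log_one]
  congr 1
  field_simp at h1 ⊢
  linarith

/-- the mutual information of a variable with finitely many values -/
theorem MI_ker {β : Type} [Fintype β] (f : Ω → β) (D : Setoid Ω) :
    MI (Setoid.ker f) D = ∑ b, ex fun x => ce D (fun y => ind (f y = b)) x *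
      Real.log (ce D (fun y => ind (f y = b)) x / ex fun y => ind (f y = b)) := by
  classical
  have h1 : ∀ b, ex (fun x => ce D (fun y => ind (f y = b)) x *
      Real.log (ce D (fun y => ind (f y = b)) x / ex fun y => ind (f y = b))) =
      ex fun x => Real.log (ce D (fun y => ind (f y = b)) x / ex fun y => ind (f y = b)) *
        ind (f x = b) := fun b => by
    rw [← ex_mul_ce ((ms_ce D fun y => ind (f y = b)).comp fun t =>
      Real.log (t / ex fun y => ind (f y = b)))]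
    exact ex_congr fun x => mul_comm _ _
  simp only [h1]
  rw [← ex_sum, MI_eq]
  refine ex_congr fun x => ?_
  rw [sum_eq_single (f x) (fun b _ hb => by rw [ind_neg (Ne.symm hb), mul_zero])
    fun h => absurd (mem_univ _) h, ind_pos rfl, mul_one]
  simp only [Setoid.ker_def, eq_comm]

/-- the relative entropy density -/
noncomputable def kl (p u : ℝ) : ℝ := p * Real.log (p / u) - p + u

theorem kl_ge {p u : ℝ} (hp : 0 ≤ p) (hu : 0 < u) : (√p - √u) ^ 2 ≤ kl p u := by
  rcases hp.eq_or_lt with rfl | hp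
  · simp [kl, Real.sq_sqrt hu.le]
  obtain ⟨a, ha, rfl⟩ : ∃ a : ℝ, 0 < a ∧ p = a ^ 2 :=
    ⟨√p, Real.sqrt_pos.2 hp, (Real.sq_sqrt hp.le).symm⟩
  obtain ⟨b, hb, rfl⟩ : ∃ b : ℝ, 0 < b ∧ u = b ^ 2 :=
    ⟨√u, Real.sqrt_pos.2 hu, (Real.sq_sqrt hu.le).symm⟩
  rw [Real.sqrt_sq ha.le, Real.sqrt_sq hb.le, kl, ← div_pow, Real.log_pow]
  have h := Real.log_le_sub_one_of_pos (div_pos hb ha)
  rw [← inv_div, Real.log_inv, inv_div] at h
  have h2 : a ^ 2 * (1 - b / a) ≤ a ^ 2 * Real.log (a / b) :=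
    mul_le_mul_of_nonneg_left (by linarith) (sq_nonneg a)
  have h3 : a ^ 2 * (1 - b / a) = a ^ 2 - a * b := by field_simp
  push_cast
  nlinarith

theorem kl_le {p u : ℝ} (hp : 0 ≤ p) (hu : 0 < u) : kl p u ≤ (p - u) ^ 2 / u := by
  rcases hp.eq_or_lt with rfl | hp
  · simp only [kl, zero_mul, sub_zero, zero_add, zero_sub, neg_sq]
    rw [le_div_iff₀ hu, sq]
  have h := mul_le_mul_of_nonneg_left (Real.log_le_sub_one_of_pos (div_pos hp hu)) hp.le
  have e : (p - u) ^ 2 / u = p * (p / u - 1) - p + u := by field_simp; ring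
  rw [e, kl]
  linarith

/-- the value if it lies in X -/
def op {α : Type} [DecidableEq α] (X : Finset α) (v : α) : Option α :=
  if v ∈ X then some v else none

section one

variable {α : Type} [Fintype α] [DecidableEq α]

/-- the contribution of one value -/
noncomputable def jv (ρ : Ω → α) (D : Setoid Ω) (v : α) : ℝ :=
  ex fun x => kl (ce D (fun y => ind (ρ y = v)) x) (1 / Fintype.card α)

omit [DecidableEq α] in
theorem jv_nonneg (ρ : Ω → α) (D : Setoid Ω) (v : α) : 0 ≤ jv ρ D v := ex_nonneg fun x => by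
  have : Nonempty α := ⟨v⟩
  exact (sq_nonneg _).trans (kl_ge (ce_nonneg (fun _ => ind_nonneg _) x)
    (one_div_pos.2 card_pos'))

theorem MI_op [Nonempty Ω] {ρ : Ω → α} (h : ∀ φ : α → ℝ, ex (fun x => φ (ρ x)) = ex φ)
    (X : Finset α) (D : Setoid Ω) :
    MI (Setoid.ker fun x => op X (ρ x)) D = ∑ v ∈ X, jv ρ D v +
      ex fun x => kl (ce D (fun y => ind (ρ y ∉ X)) x) (ex fun y => ind (ρ y ∉ X)) := by
  have e : ∀ g : Ω → ℝ, ex (fun x => ce D g x * Real.log (ce D g x / ex g)) =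
      ex fun x => kl (ce D g x) (ex g) := fun g => by
    simp only [kl]
    rw [ex_add, ex_sub, ex_ce, ex_const]
    ring
  rw [MI_ker, Fintype.sum_option, add_comm]
  simp only [e]
  congr 1
  · rw [← sum_subset (subset_univ X)]
    · refine sum_congr rfl fun v hv => ?_
      have e1 : ∀ y, (op X (ρ y) = some v) = (ρ y = v) := fun y => by
        by_cases hy : ρ y ∈ X
        · simp [op, hy]
        · simp only [op, hy, if_false, reduceCtorEq, eq_iff_iff, false_iff]
          exact fun h => hy (h ▸ hv)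
      simp only [e1, jv]
      rw [h fun w => ind (w = v)]
      simp [ex, ind_eq]
    · intro v _ hv
      have e1 : ∀ y, ind (op X (ρ y) = some v) = 0 := fun y => ind_neg fun h => by
        by_cases hy : ρ y ∈ X
        · simp only [op, hy, if_true, Option.some.injEq] at h
          exact hv (h ▸ hy)
        · simp [op, hy] at h
      simp [e1, ce_const, kl, ex_zero]
  · have e1 : ∀ y, (op X (ρ y) = none) = (ρ y ∉ X) := fun y => by
      by_cases hy : ρ y ∈ X <;> simp [op, hy]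
    simp only [e1]

theorem MI_op_ge [Nonempty Ω] {ρ : Ω → α} (h : ∀ φ : α → ℝ, ex (fun x => φ (ρ x)) = ex φ)
    (X : Finset α) (D : Setoid Ω) :
    ∑ v ∈ X, jv ρ D v ≤ MI (Setoid.ker fun x => op X (ρ x)) D := by
  rw [MI_op h]
  refine le_add_of_nonneg_right (ex_nonneg fun x => ?_)
  have h0 : 0 ≤ ex fun y => ind (ρ y ∉ X) := ex_nonneg fun _ => ind_nonneg _
  rcases h0.eq_or_lt with h1 | h1
  · have h2 : ∀ y, ind (ρ y ∉ X) = 0 := by
      rw [ex, eq_comm, div_eq_zero_iff, or_iff_left card_pos'.ne',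
        sum_eq_zero_iff_of_nonneg fun _ _ => ind_nonneg _] at h1
      exact fun y => h1 y (mem_univ _)
    simp [h2, ce_const, kl, ex_zero]
  · exact (sq_nonneg _).trans (kl_ge (ce_nonneg (fun _ => ind_nonneg _) x) h1)

theorem MI_op_le [Nonempty Ω] {ρ : Ω → α} (h : ∀ φ : α → ℝ, ex (fun x => φ (ρ x)) = ex φ)
    {X : Finset α} (hX : 2 * X.card ≤ Fintype.card α) (D : Setoid Ω) :
    MI (Setoid.ker fun x => op X (ρ x)) D ≤ 7 * ∑ v ∈ X, jv ρ D v := by
  have : Nonempty α := ⟨ρ (Classical.arbitrary Ω)⟩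
  have hn := card_pos' (Ω := α)
  have e1 : ∀ w : α, ind (w ∉ X) = 1 - ∑ v ∈ X, ind (w = v) := fun w => by
    by_cases hw : w ∈ X <;> simp [ind_eq, hw]
  set u : ℝ := 1 / Fintype.card α with hu
  have hu0 : 0 < u := one_div_pos.2 hn
  have hXu : X.card * u ≤ 1 / 2 := by
    rw [hu, mul_one_div, div_le_div_iff₀ hn (by norm_num)]
    have : ((2 * X.card : ℕ) : ℝ) ≤ Fintype.card α := by exact_mod_cast hX
    push_cast at this
    linarith
  have e2 : ex (fun y => ind (ρ y ∉ X)) = 1 - X.card * u := by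
    rw [h fun w => ind (w ∉ X)]
    simp only [e1]
    rw [ex_sub, ex_const, ex_sum]
    simp [ex, ind_eq, hu]
  rw [MI_op h, e2]
  have h6 : ex (fun x => kl (ce D (fun y => ind (ρ y ∉ X)) x) (1 - X.card * u)) ≤
      6 * ∑ v ∈ X, jv ρ D v := by
    simp only [jv]
    rw [← ex_sum, ← ex_mul]
    refine ex_mono fun x => ?_
    set p : α → ℝ := fun v => ce D (fun y => ind (ρ y = v)) x with hp
    have p0 : ∀ v, 0 ≤ p v := fun v => ce_nonneg (fun _ => ind_nonneg _) x
    have q0 : 0 ≤ ce D (fun y => ind (ρ y ∉ X)) x := ce_nonneg (fun _ => ind_nonneg _) x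
    have e3 : ce D (fun y => ind (ρ y ∉ X)) x = 1 - ∑ v ∈ X, p v := by
      simp only [e1]
      rw [ce_sub, ce_const, ce_sum]
    refine (kl_le q0 (by linarith)).trans ?_
    rw [e3] at q0 ⊢
    have c1 := sum_mul_sq_le_sq_mul_sq X (fun v => √(p v) - √u) fun v => √(p v) + √u
    have c2 : ∑ v ∈ X, (√(p v) - √u) * (√(p v) + √u) = ∑ v ∈ X, p v - X.card * u := by
      rw [← nsmul_eq_mul, ← sum_const, ← sum_sub_distrib]
      refine sum_congr rfl fun v _ => ?_
      have := Real.sq_sqrt (p0 v)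
      have := Real.sq_sqrt hu0.le
      nlinarith
    have c3 : ∑ v ∈ X, (√(p v) + √u) ^ 2 ≤ 3 := by
      have : ∑ v ∈ X, (√(p v) + √u) ^ 2 ≤ ∑ v ∈ X, (2 * p v + 2 * u) := by
        refine sum_le_sum fun v _ => ?_
        have := Real.sq_sqrt (p0 v)
        have := Real.sq_sqrt hu0.le
        nlinarith [sq_nonneg (√(p v) - √u)]
      rw [sum_add_distrib, ← mul_sum, sum_const, nsmul_eq_mul] at this
      linarith
    have c4 : ∑ v ∈ X, (√(p v) - √u) ^ 2 ≤ ∑ v ∈ X, kl (p v) u :=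
      sum_le_sum fun v _ => kl_ge (p0 v) hu0
    have c5 : 0 ≤ ∑ v ∈ X, (√(p v) - √u) ^ 2 := sum_nonneg fun _ _ => sq_nonneg _
    rw [c2] at c1
    have c6 : (∑ v ∈ X, p v - X.card * u) ^ 2 ≤ 3 * ∑ v ∈ X, kl (p v) u := by nlinarith
    rw [div_le_iff₀ (by linarith)]
    nlinarith
  linarith

end one

section coords

variable {ι : Type} [Fintype ι] [DecidableEq ι] {α : ι → Type} [∀ i, Fintype (α i)]

/-- the coordinates are independent and uniform -/
def JU (ρ : ∀ i, Ω → α i) : Prop :=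
  ∀ φ : (∀ i, α i) → ℝ, ex (fun x => φ fun i => ρ i x) = ex φ

/-- resampling of one coordinate -/
theorem ex_update (j : ι) [Nonempty (α j)] (φ : (∀ i, α i) → ℝ) :
    ex (fun v => ex fun a : α j => φ (Function.update v j a)) = ex φ := by
  let e : (∀ i, α i) × α j ≃ (∀ i, α i) × α j :=
    Function.Involutive.toPerm (fun z => (Function.update z.1 j z.2, z.1 j)) fun z => by simp
  rw [← ex_prod fun z : (∀ i, α i) × α j => φ (Function.update z.1 j z.2),
    show (fun z : (∀ i, α i) × α j => φ (Function.update z.1 j z.2)) = fun z => φ (e z).1 from rfl,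
    ex_equiv e fun z => φ z.1, ex_prod]
  exact ex_congr fun v => ex_const (φ v)

theorem ex_indep (j : ι) [∀ i, Nonempty (α i)] (φ : (∀ i, α i) → ℝ) (ψ : α j → ℝ)
    (h : ∀ v a, φ (Function.update v j a) = φ v) :
    ex (fun v => φ v * ψ (v j)) = ex φ * ex ψ := by
  rw [← ex_update j, ← ex_mul']
  refine ex_congr fun v => ?_
  simp only [h, Function.update_self, ex_mul]

theorem ex_coord (j : ι) [∀ i, Nonempty (α i)] (ψ : α j → ℝ) :
    ex (fun v : ∀ i, α i => ψ (v j)) = ex ψ := by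
  have := ex_indep j (fun _ => 1) ψ fun _ _ => rfl
  simpa only [one_mul, ex_const] using this

theorem JU.coord [Nonempty Ω] {ρ : ∀ i, Ω → α i} (h : JU ρ) (j : ι) (ψ : α j → ℝ) :
    ex (fun x => ψ (ρ j x)) = ex ψ := by
  have : ∀ i, Nonempty (α i) := fun i => ⟨ρ i (Classical.arbitrary Ω)⟩
  rw [← ex_coord j ψ, ← h]

variable [∀ i, DecidableEq (α i)]

/-- the coordinates in T that fall into X -/
def xiT (ρ : ∀ i, Ω → α i) (X : ∀ i, Finset (α i)) (T : Finset ι) : Setoid Ω where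
  r x y := ∀ i ∈ T, op (X i) (ρ i x) = op (X i) (ρ i y)
  iseqv := ⟨fun _ _ _ => rfl, fun h b hb => (h b hb).symm,
    fun h h' b hb => (h b hb).trans (h' b hb)⟩

/-- the coordinates that fall into X -/
def xi (ρ : ∀ i, Ω → α i) (X : ∀ i, Finset (α i)) : Setoid Ω := xiT ρ X univ

theorem op_mono {β : Type} [DecidableEq β] {X Y : Finset β} (h : X ⊆ Y) {v w : β}
    (e : op Y v = op Y w) : op X v = op X w := by
  unfold op at *
  by_cases hv : v ∈ X
  · have hw : v = w := by
      rw [if_pos (h hv)] at e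
      split_ifs at e
      exact Option.some.inj e
    rw [hw]
  · by_cases hw : w ∈ X
    · rw [if_pos (h hw)] at e
      split_ifs at e
      exact absurd (Option.some.inj e ▸ hw) hv
    · rw [if_neg hv, if_neg hw]

omit [Fintype Ω] [Fintype ι] [DecidableEq ι] [∀ i, Fintype (α i)] in
theorem xiT_anti (ρ : ∀ i, Ω → α i) {X Y : ∀ i, Finset (α i)} (h : ∀ i, X i ⊆ Y i)
    (T : Finset ι) : xiT ρ Y T ≤ xiT ρ X T := fun _ _ hxy i hi => op_mono (h i) (hxy i hi)

omit [Fintype Ω] [DecidableEq ι] [∀ i, Fintype (α i)] in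
theorem xi_anti (ρ : ∀ i, Ω → α i) {X Y : ∀ i, Finset (α i)} (h : ∀ i, X i ⊆ Y i) :
    xi ρ Y ≤ xi ρ X := xiT_anti ρ h univ

omit [Fintype Ω] [DecidableEq ι] [∀ i, Fintype (α i)] in
/-- whether a coordinate takes a value of X is known from xi -/
theorem xi_eq_iff {ρ : ∀ i, Ω → α i} {X : ∀ i, Finset (α i)} {x y : Ω} (h : xi ρ X x y) {i : ι}
    {v : α i} (hv : v ∈ X i) : ρ i x = v ↔ ρ i y = v := by
  have := op_mono (singleton_subset_iff.2 hv) (h i (mem_univ i))
  simp only [op, mem_singleton] at this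
  constructor
  · intro e
    by_contra e'
    simp [e, e'] at this
  · intro e
    by_contra e'
    simp [e, e'] at this

omit [Fintype Ω] [Fintype ι] [∀ i, Fintype (α i)] in
theorem xiT_insert (ρ : ∀ i, Ω → α i) (X : ∀ i, Finset (α i)) (j : ι) (T : Finset ι) :
    xiT ρ X (insert j T) = xiT ρ X T ⊓ Setoid.ker fun x => op (X j) (ρ j x) := by
  ext x y
  rw [inf_iff, Setoid.ker_def, and_comm]
  exact forall_mem_insert j T fun i => op (X i) (ρ i x) = op (X i) (ρ i y)

theorem MI_inf_left (L L' D : Setoid Ω) :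
    MI (L ⊓ L') D = MI L D + MI L' (D ⊓ L) - MI L' L := by
  simp only [MI, cH, inf_assoc]
  ring

theorem sh_aux [Nonempty Ω] {ρ : ∀ i, Ω → α i} (h : JU ρ) {κ : Type*} (s : Finset κ)
    (X : κ → ∀ i, Finset (α i)) (X0 : ∀ i, Finset (α i)) (om : κ → ℝ) (B : ℝ) (D : Setoid Ω)
    (h0 : ∀ a ∈ s, 0 ≤ om a) (h1 : ∀ a ∈ s, ∀ i, X a i ⊆ X0 i)
    (h2 : ∀ a ∈ s, ∀ i, 2 * (X a i).card ≤ Fintype.card (α i))
    (h3 : ∀ i, ∀ v ∈ X0 i, ∑ a ∈ s.filter (fun a => v ∈ X a i), om a ≤ B) (T : Finset ι) :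
    ∑ a ∈ s, om a * MI (xiT ρ (X a) T) D ≤ 7 * B * MI (xiT ρ X0 T) D := by
  have hne : ∀ i, Nonempty (α i) := fun i => ⟨ρ i (Classical.arbitrary Ω)⟩
  induction T using Finset.induction_on with
  | empty =>
    have e : ∀ Y : ∀ i, Finset (α i), MI (xiT ρ Y ∅) D = 0 := fun Y => by
      have : xiT ρ Y ∅ = ⊤ := eq_top_iff.2 fun _ _ _ i hi => absurd hi (notMem_empty i)
      rw [this, MI, Hh_top, cH_of_le le_top, sub_zero]
    simp [e]
  | insert j T hj ih =>
    set BB := D ⊓ xiT ρ X0 T with hBB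
    have a1 : MI (xiT ρ X0 (insert j T)) D =
        MI (xiT ρ X0 T) D + MI (Setoid.ker fun x => op (X0 j) (ρ j x)) BB := by
      rw [xiT_insert, MI_inf_left, MI_eq_zero (D := xiT ρ X0 T), sub_zero]
      intro x
      have := ex_indep j (fun v => ind (∀ i ∈ T, op (X0 i) (ρ i x) = op (X0 i) (v i)))
        (fun w => ind (op (X0 j) (ρ j x) = op (X0 j) w)) fun v a => ind_congr
          (forall₂_congr fun i hi => by
            rw [Function.update_of_ne (ne_of_mem_of_not_mem hi hj)])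
      rw [← h, ← h, ← h.coord] at this
      exact this
    have a2 : ∀ a ∈ s, om a * MI (xiT ρ (X a) (insert j T)) D ≤
        om a * MI (xiT ρ (X a) T) D + 7 * ∑ v ∈ X0 j,
          (if v ∈ X a j then om a else 0) * jv (ρ j) BB v := by
      intro a ha
      have b1 := MI_op_le (h.coord j) (h2 a ha j) BB
      have b2 := MI_mono_right (inf_le_inf_left D (xiT_anti ρ (h1 a ha) T))
        (Setoid.ker fun x => op (X a j) (ρ j x))
      have b3 := MI_nonneg (Setoid.ker fun x => op (X a j) (ρ j x)) (xiT ρ (X a) T)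
      have b4 : ∑ v ∈ X0 j, (if v ∈ X a j then om a else 0) * jv (ρ j) BB v =
          om a * ∑ v ∈ X a j, jv (ρ j) BB v := by
        simp only [ite_mul, zero_mul, sum_ite_mem]
        rw [inter_eq_right.2 (h1 a ha j), mul_sum]
      rw [b4, xiT_insert, MI_inf_left]
      have := h0 a ha
      nlinarith
    have a3 : ∑ a ∈ s, ∑ v ∈ X0 j, (if v ∈ X a j then om a else 0) * jv (ρ j) BB v ≤
        B * MI (Setoid.ker fun x => op (X0 j) (ρ j x)) BB := by
      rcases (X0 j).eq_empty_or_nonempty with he | ⟨v0, hv0⟩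
      · have : (Setoid.ker fun x => op (X0 j) (ρ j x)) = ⊤ :=
          eq_top_iff.2 fun _ _ _ => by simp [Setoid.ker_def, he, op]
        rw [this, MI, Hh_top, cH_of_le le_top]
        simp [he]
      have hB : 0 ≤ B := (sum_nonneg fun a ha => h0 a (mem_filter.1 ha).1).trans (h3 j v0 hv0)
      refine le_trans ?_ (mul_le_mul_of_nonneg_left (MI_op_ge (h.coord j) (X0 j) BB) hB)
      rw [sum_comm, mul_sum]
      refine sum_le_sum fun v hv => ?_
      rw [← sum_mul, ← sum_filter]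
      exact mul_le_mul_of_nonneg_right (h3 j v hv) (jv_nonneg _ _ _)
    have a4 := sum_le_sum a2
    rw [sum_add_distrib, ← mul_sum] at a4
    rw [a1]
    nlinarith

/-- SH -/
theorem sh {ρ : ∀ i, Ω → α i} (h : JU ρ) {κ : Type*} (s : Finset κ)
    (X : κ → ∀ i, Finset (α i)) (X0 : ∀ i, Finset (α i)) (om : κ → ℝ) (B : ℝ) (D : Setoid Ω)
    (h0 : ∀ a ∈ s, 0 ≤ om a) (h1 : ∀ a ∈ s, ∀ i, X a i ⊆ X0 i)
    (h2 : ∀ a ∈ s, ∀ i, 2 * (X a i).card ≤ Fintype.card (α i))
    (h3 : ∀ i, ∀ v ∈ X0 i, ∑ a ∈ s.filter (fun a => v ∈ X a i), om a ≤ B) :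
    ∑ a ∈ s, om a * MI (xi ρ (X a)) D ≤ 7 * B * MI (xi ρ X0) D := by
  cases isEmpty_or_nonempty Ω with
  | inl _ => simp [MI, cH, Hh, ex]
  | inr _ => exact sh_aux h s X X0 om B D h0 h1 h2 h3 univ

/-- the coordinates that hit a site of S; the site b is hit by the value pt b i -/
def xs {σ : Type*} (ρ : ∀ i, Ω → α i) (pt : σ → ∀ i, α i) (S : Finset σ) : Setoid Ω :=
  xi ρ fun i => S.image fun b => pt b i

omit [Fintype Ω] [DecidableEq ι] [∀ i, Fintype (α i)] in
theorem xs_anti {σ : Type*} (ρ : ∀ i, Ω → α i) (pt : σ → ∀ i, α i) {S S' : Finset σ}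
    (h : S ⊆ S') : xs ρ pt S' ≤ xs ρ pt S := xi_anti ρ fun _ => image_subset_image h

omit [Fintype Ω] [DecidableEq ι] [∀ i, Fintype (α i)] in
/-- functions of the set of coordinates that hit a site of S are known from xs -/
theorem ms_xs {σ β : Type*} (ρ : ∀ i, Ω → α i) (pt : σ → ∀ i, α i) {S : Finset σ} {b : σ}
    (hb : b ∈ S) (φ : (ι → Prop) → β) : Ms (xs ρ pt S) fun x => φ fun i => ρ i x = pt b i :=
  fun _ _ h => congrArg φ (funext fun _ =>
    propext (xi_eq_iff h (mem_image_of_mem (fun b => pt b _) hb)))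

/-- SH for sets of sites -/
theorem sh_sites {σ : Type*} [DecidableEq σ] {ρ : ∀ i, Ω → α i} (h : JU ρ) (pt : σ → ∀ i, α i)
    {κ : Type*} (s : Finset κ) (S : κ → Finset σ) (S0 : Finset σ) (om : κ → ℝ) (μ B : ℝ)
    (D : Setoid Ω) (h0 : ∀ a ∈ s, 0 ≤ om a) (hB : 0 ≤ B) (h1 : ∀ a ∈ s, S a ⊆ S0)
    (h2 : ∀ a ∈ s, ∀ i, 2 * (S a).card ≤ Fintype.card (α i))
    (h3 : ∀ i v, ((S0.filter fun b => pt b i = v).card : ℝ) ≤ μ)
    (h4 : ∀ b ∈ S0, ∑ a ∈ s.filter (fun a => b ∈ S a), om a ≤ B) :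
    ∑ a ∈ s, om a * MI (xs ρ pt (S a)) D ≤ 7 * (μ * B) * MI (xs ρ pt S0) D := by
  refine sh h s _ _ om _ D h0 (fun a ha i => image_subset_image (h1 a ha))
    (fun a ha i => (Nat.mul_le_mul_left 2 card_image_le).trans (h2 a ha i)) fun i v _ => ?_
  calc ∑ a ∈ s.filter (fun a => v ∈ (S a).image fun b => pt b i), om a
      ≤ ∑ a ∈ s, ∑ b ∈ S0.filter (fun b => pt b i = v), if b ∈ S a then om a else 0 := by
        rw [sum_filter]
        refine sum_le_sum fun a ha => ?_
        have hn : ∀ b ∈ S0.filter (fun b => pt b i = v), 0 ≤ if b ∈ S a then om a else 0 :=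
          fun b _ => by split_ifs; exacts [h0 a ha, le_rfl]
        split_ifs with hv
        · obtain ⟨b, hb, e⟩ := mem_image.1 hv
          refine le_trans ?_ (single_le_sum hn (mem_filter.2 ⟨h1 a ha hb, e⟩))
          rw [if_pos hb]
        · exact sum_nonneg hn
    _ ≤ ∑ _b ∈ S0.filter (fun b => pt b i = v), B := by
        rw [sum_comm]
        refine sum_le_sum fun b hb => ?_
        rw [← sum_filter]
        exact h4 b (mem_filter.1 hb).1
    _ ≤ μ * B := by
        rw [sum_const, nsmul_eq_mul]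
        exact mul_le_mul_of_nonneg_right (h3 i v) hB

end coords

end Pool.Agent.P.MP_a14ce1_nt.Fu
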