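import Pool.Agent.P.MP_a14ce1_nt.Fu.St
import Pool.Agent.P.MP_a14ce1_nt.Fu.BiasC
import Pool.Agent.P.MP_a14ce1_nt.Fu.SH

/-!
The model: sums over the edges, independence of the weights at distinct sites, mass of an event.
-/

open Finset

namespace Pool.Agent.P.MP_a14ce1_nt.Fu.St

open Ch (pv mu rs)
open Ch.Main (Tn)

namespace Fam

variable (F : Fam)

/-- the weight of a site with an arbitrary hidden factor -/
noncomputable def Wz (ζ : Finset ℕ → ℝ) (p n : ℕ) : ℝ :=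
  F.wk (dp F.U n) * F.ka p (dp F.RR n) * ζ (dp F.HH n)

theorem W_eq (p n : ℕ) : F.W p n = F.Wz F.ze p n := rfl

/-- weighted sum over the edges -/
noncomputable def ms (Z : ℕ) (Φ : Fin Z → ℕ → Finset ℕ → ℕ → ℝ) : ℝ :=
  ex fun n : Fin Z => ∑ a ∈ range F.N, ∑ c ∈ F.Lo.powerset, ∑ p ∈ F.RR,
    if pv c * p ∣ n + a ∧ F.win (pv c * p) ∧ a + (F.k - 1) * (pv c * p) < F.N then
      F.w c / (F.LL * F.N * F.Pw) * (∏ i ∈ range F.k, F.W p (n + (a + i * (pv c * p)))) *
        Φ n a c p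
    else 0

theorem Tf_eq (Z : ℕ) (s : ℕ → ℝ) (x : ℕ → Fin Z → ℕ → ℝ) : F.Tf Z s x =
    F.ms Z fun n a c p => s (pv c * p) * ∏ i ∈ range F.k, x i n (a + i * (pv c * p)) := by
  refine ex_congr fun n => sum_congr rfl fun a _ => sum_congr rfl fun c _ =>
    sum_congr rfl fun p _ => ?_
  split_ifs
  · rw [prod_mul_distrib]; ring
  · rfl

theorem ms_add (Z : ℕ) (Φ Ψ : Fin Z → ℕ → Finset ℕ → ℕ → ℝ) :
    F.ms Z (fun n a c p => Φ n a c p + Ψ n a c p) = F.ms Z Φ + F.ms Z Ψ := by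
  unfold ms
  rw [← ex_add]
  refine ex_congr fun n => ?_
  simp only [← sum_add_distrib]
  refine sum_congr rfl fun a _ => sum_congr rfl fun c _ => sum_congr rfl fun p _ => ?_
  split_ifs <;> ring

theorem ms_mul (Z : ℕ) (t : ℝ) (Φ : Fin Z → ℕ → Finset ℕ → ℕ → ℝ) :
    F.ms Z (fun n a c p => t * Φ n a c p) = t * F.ms Z Φ := by
  unfold ms
  rw [← ex_mul]
  refine ex_congr fun n => ?_
  simp only [mul_sum]
  refine sum_congr rfl fun a _ => sum_congr rfl fun c _ => sum_congr rfl fun p _ => ?_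
  split_ifs <;> ring

theorem ms_zero (Z : ℕ) : F.ms Z (fun _ _ _ _ => 0) = 0 := by
  simp [ms, ex_zero]

theorem ms_sum {ι : Type*} (Z : ℕ) (S : Finset ι) (Φ : ι → Fin Z → ℕ → Finset ℕ → ℕ → ℝ) :
    F.ms Z (fun n a c p => ∑ j ∈ S, Φ j n a c p) = ∑ j ∈ S, F.ms Z (Φ j) := by
  classical
  induction S using Finset.induction_on with
  | empty => simpa using F.ms_zero Z
  | insert j S hj ih => simp only [sum_insert hj, ms_add, ih]

theorem ms_ex {E : Type} [Fintype E] (Z : ℕ) (Φ : E → Fin Z → ℕ → Finset ℕ → ℕ → ℝ) :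
    F.ms Z (fun n a c p => ex fun e => Φ e n a c p) = ex fun e => F.ms Z (Φ e) := by
  have : ∀ f : E → ℝ, ex f = ∑ e, (Fintype.card E : ℝ)⁻¹ * f e := fun f => by
    rw [ex, ← mul_sum, div_eq_inv_mul]
  simp only [this fun e => F.ms Z (Φ e), ← ms_mul, ← ms_sum]
  congr 1
  funext n a c p
  exact this _

theorem ms_congr {Z : ℕ} {Φ Ψ : Fin Z → ℕ → Finset ℕ → ℕ → ℝ}
    (h : ∀ (n : Fin Z) a c p, c ⊆ F.Lo → p ∈ F.RR → pv c * p ∣ n + a → F.win (pv c * p) →
      a + (F.k - 1) * (pv c * p) < F.N → Φ n a c p = Ψ n a c p) : F.ms Z Φ = F.ms Z Ψ := by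
  refine ex_congr fun n => sum_congr rfl fun a _ => sum_congr rfl fun c hc =>
    sum_congr rfl fun p hp => ?_
  split_ifs with e
  · rw [h n a c p (mem_powerset.1 hc) hp e.1 e.2.1 e.2.2]
  · rfl

/-- regrouping by the site number `i0` -/
theorem ms_site (Z : ℕ) {i0 : ℕ} (hi : i0 < F.k) (Φ : Fin Z → ℕ → Finset ℕ → ℕ → ℝ) :
    F.ms Z Φ = ex fun n : Fin Z => ∑ b ∈ range F.N, ∑ c ∈ F.Lo.powerset, ∑ p ∈ F.RR,
      if pv c * p ∣ n + b ∧ F.win (pv c * p) ∧ i0 * (pv c * p) ≤ b ∧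
          b + (F.k - 1 - i0) * (pv c * p) < F.N then
        F.w c / (F.LL * F.N * F.Pw) *
          (∏ i ∈ range F.k, F.W p (n + (b - i0 * (pv c * p) + i * (pv c * p)))) *
          Φ n (b - i0 * (pv c * p)) c p
      else 0 := by
  refine ex_congr fun n => ?_
  rw [sum_comm, sum_comm (s := range F.N)]
  refine sum_congr rfl fun c _ => ?_
  rw [sum_comm, sum_comm (s := range F.N)]
  refine sum_congr rfl fun p _ => ?_
  generalize pv c * p = d
  have e : (F.k - 1) * d = i0 * d + (F.k - 1 - i0) * d := by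
    rw [← add_mul]; congr 1; omega
  rw [← sum_filter, ← sum_filter]
  refine sum_bij' (fun a _ => a + i0 * d) (fun b _ => b - i0 * d) ?_ ?_ ?_ ?_ ?_
  · intro a ha
    obtain ⟨-, h1, h2, h3⟩ := mem_filter.1 ha
    refine mem_filter.2 ⟨mem_range.2 (by omega), ?_, h2, by omega, by omega⟩
    rw [← add_assoc]
    exact h1.add (dvd_mul_left d i0)
  · intro b hb
    obtain ⟨-, h1, h2, h3, h4⟩ := mem_filter.1 hb
    refine mem_filter.2 ⟨mem_range.2 (by omega), ?_, h2, by omega⟩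
    rw [← Nat.add_sub_assoc h3]
    exact Nat.dvd_sub h1 (dvd_mul_left d i0)
  · intro a _
    simp
  · intro b hb
    obtain ⟨-, -, -, h3, -⟩ := mem_filter.1 hb
    omega
  · intro a _
    simp

end Fam

variable {F : Fam} {P : Par}

theorem wd_prod (S : Finset ℕ) : 1 - rs S ≤ ∏ q ∈ S, (1 - (1 : ℝ) / q) := by
  induction S using Finset.induction_on with
  | empty => simp [rs]
  | insert q S hq ih =>
    rw [rs, sum_insert hq, prod_insert hq]
    have h0 : (0 : ℝ) ≤ 1 / q := by positivity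
    have h1 : (1 : ℝ) / q ≤ 1 := by
      rcases Nat.eq_zero_or_pos q with h | h
      · simp [h]
      · rw [div_le_one (by exact_mod_cast h)]; exact_mod_cast h
    have h2 : 0 ≤ rs S := sum_nonneg fun _ _ => by positivity
    rw [rs] at ih h2
    nlinarith

theorem wd_rs_mono {S T : Finset ℕ} (h : S ⊆ T) : rs S ≤ rs T :=
  sum_le_sum_of_subset_of_nonneg h fun _ _ _ => by positivity

theorem wd_ka_erase (F : Fam) (p : ℕ) (T : Finset ℕ) : F.ka p (T.erase p) = F.ka p T := by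
  have : T.erase p ⊆ {p} ↔ T.erase p = ∅ :=
    ⟨fun h => eq_empty_of_forall_notMem fun q hq =>
      (mem_erase.1 hq).1 (mem_singleton.1 (h hq)), fun h => h ▸ empty_subset _⟩
  have e : T.erase p ⊆ {p} ↔ T ⊆ {p} := by
    rw [this, erase_eq_empty_iff, subset_singleton_iff]
  simp only [Fam.ka, e]

namespace Hyp0

variable (h : Hyp0 F P)
include h

theorem wd_L2 : 2 ≤ P.Λ := le_trans (by exact_mod_cast h.k2) h.Lk

theorem wd_D : 20 ≤ F.D := by
  have k2 : (2 : ℝ) ≤ F.k := by exact_mod_cast h.k2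
  have := h.Dbig
  have e := Real.one_le_exp (show 0 ≤ 2 * P.Lp by linarith [h.Lp1])
  nlinarith

theorem wd_N : (80 : ℝ) ≤ F.N := by
  have k2 : (2 : ℝ) ≤ F.k := by exact_mod_cast h.k2
  have := h.wd_D
  nlinarith [h.Nlo]

theorem wd_LL : 0 < F.LL := by
  have := h.wd_L2
  have := h.LL2
  by_contra c
  nlinarith

theorem wd_den : 0 < F.LL * F.N * F.Pw :=
  mul_pos (mul_pos h.wd_LL (by linarith [h.wd_N])) h.Pw0

theorem wd_pLo : ∀ q ∈ F.Lo, q.Prime := fun q hq => h.pr q (mem_union_left _ hq)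

theorem wd_pTT : ∀ q ∈ F.TT, q.Prime := fun q hq => h.pr q (mem_union_right _ hq)

omit h in
theorem wd_RT : F.RR ⊆ F.TT := subset_union_right.trans subset_union_left

theorem wd_pRR : ∀ q ∈ F.RR, q.Prime := fun q hq => h.wd_pTT q (wd_RT hq)

theorem wd_half (p : ℕ) : 1 / 2 ≤ ∏ q ∈ F.RR.erase p, (1 - (1 : ℝ) / q) := by
  have a := wd_prod (F.RR.erase p)
  have b := wd_rs_mono (erase_subset p F.RR)
  have c : rs F.RR ≤ 1 / 2 := h.LL1
  linarith

theorem wd_ka0 (p : ℕ) (T : Finset ℕ) : 0 ≤ F.ka p T := by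
  have := h.wd_half p
  unfold Fam.ka
  split_ifs
  · exact div_nonneg zero_le_one (by linarith)
  · rfl

theorem wd_ka2 (p : ℕ) (T : Finset ℕ) : F.ka p T ≤ 2 := by
  have := h.wd_half p
  unfold Fam.ka
  split_ifs
  · rw [div_le_iff₀ (by linarith)]; linarith
  · norm_num

theorem wd_Eka (p : ℕ) : Em F.RR (F.ka p) = 1 := by
  have := h.wd_half p
  rw [← Em_erase (wd_ka_erase F p), Em, sum_eq_single_of_mem ∅ (empty_mem_powerset _)]
  · simp only [mu, prod_empty, sdiff_empty, one_mul, Fam.ka, empty_subset, if_true]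
    exact mul_one_div_cancel (by linarith)
  · intro T hT h0
    have : ¬T ⊆ {p} := fun c => by
      obtain ⟨q, hq⟩ := nonempty_iff_ne_empty.2 h0
      exact (mem_erase.1 (mem_powerset.1 hT hq)).1 (mem_singleton.1 (c hq))
    simp [Fam.ka, this]

theorem wd_wl0 (t : ℕ) (c : Finset ℕ) : 0 ≤ F.wl t c := by
  have b : 0 ≤ F.B t := by linarith [h.B1 t]
  refine mul_nonneg (div_nonneg (by positivity) (prod_nonneg fun _ _ => by positivity))
    (div_nonneg (by split_ifs <;> norm_num) (sum_nonneg fun _ _ => by positivity))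

theorem wd_wh0 (a b : ℕ) (c : Finset ℕ) : 0 ≤ F.wh a b c := prod_nonneg fun t _ => h.wd_wl0 t c

theorem wd_w0 (c : Finset ℕ) : 0 ≤ F.w c := h.wd_wh0 _ _ c

end Hyp0

/-- an admissible hidden factor -/
structure Zt (F : Fam) (P : Par) (ζ : Finset ℕ → ℝ) : Prop where
  nn : ∀ T, 0 ≤ ζ T
  le : ∀ T, ζ T ≤ P.Λ
  mean : Em F.HH ζ ≤ 1

namespace Hyp0

variable (h : Hyp0 F P)
include h

theorem zt_ze : Zt F P F.ze := ⟨h.ze0, h.zeL, h.Eze.le⟩

theorem zt_one : Zt F P fun _ => 1 :=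
  ⟨fun _ => zero_le_one, fun _ => by linarith [h.wd_L2], (Em_const _ _).le⟩

theorem zt_mid : Zt F P fun T => (1 + F.ze T) / 2 :=
  ⟨fun T => by linarith [h.ze0 T], fun T => by linarith [h.zeL T, h.wd_L2], by
    have : Em F.HH F.ze = 1 := h.Eze
    rw [Em_div, Em_add, Em_const, this]; norm_num⟩

theorem Wz0 {ζ : Finset ℕ → ℝ} (hζ : Zt F P ζ) (p n : ℕ) : 0 ≤ F.Wz ζ p n :=
  mul_nonneg (mul_nonneg (h.wk0 _) (h.wd_ka0 _ _)) (hζ.nn _)

theorem WzL {ζ : Finset ℕ → ℝ} (hζ : Zt F P ζ) (p n : ℕ) : F.Wz ζ p n ≤ 2 * P.Λ ^ 2 := by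
  have := h.wd_L2
  calc F.Wz ζ p n ≤ P.Λ * 2 * P.Λ :=
        mul_le_mul (mul_le_mul (h.wkL _) (h.wd_ka2 _ _) (h.wd_ka0 _ _) (by linarith)) (hζ.le _)
          (hζ.nn _) (by linarith)
    _ = _ := by ring

theorem W0 (p n : ℕ) : 0 ≤ F.W p n := h.Wz0 h.zt_ze p n

theorem WL (p n : ℕ) : F.W p n ≤ 2 * P.Λ ^ 2 := h.WzL h.zt_ze p n

theorem ms_mono {Z : ℕ} {Φ Ψ : Fin Z → ℕ → Finset ℕ → ℕ → ℝ}
    (hh : ∀ (n : Fin Z) a c p, c ⊆ F.Lo → p ∈ F.RR → pv c * p ∣ n + a → F.win (pv c * p) →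
      a + (F.k - 1) * (pv c * p) < F.N → F.w c ≠ 0 →
      (∀ i < F.k, F.W p (n + (a + i * (pv c * p))) ≠ 0) → Φ n a c p ≤ Ψ n a c p) :
    F.ms Z Φ ≤ F.ms Z Ψ := by
  refine ex_mono fun n => sum_le_sum fun a _ => sum_le_sum fun c hc => sum_le_sum fun p hp => ?_
  split_ifs with e
  · by_cases h1 : F.w c = 0
    · simp [h1]
    by_cases h2 : ∏ i ∈ range F.k, F.W p (n + (a + i * (pv c * p))) = 0
    · simp [h2]
    exact mul_le_mul_of_nonneg_left (hh n a c p (mem_powerset.1 hc) hp e.1 e.2.1 e.2.2 h1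
      fun i hi => prod_ne_zero_iff.1 h2 i (mem_range.2 hi))
      (mul_nonneg (div_nonneg (h.wd_w0 c) h.wd_den.le) (prod_nonneg fun _ _ => h.W0 _ _))
  · rfl

theorem abs_ms_le {Z : ℕ} (Φ : Fin Z → ℕ → Finset ℕ → ℕ → ℝ) :
    |F.ms Z Φ| ≤ F.ms Z fun n a c p => |Φ n a c p| := by
  refine abs_le.2 ⟨?_, h.ms_mono fun _ _ _ _ _ _ _ _ _ _ _ => le_abs_self _⟩
  have := h.ms_mono (Φ := fun n a c p => -1 * |Φ n a c p|) (Ψ := Φ)
    fun n a c p _ _ _ _ _ _ _ => by linarith [neg_abs_le (Φ n a c p)]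
  rw [Fam.ms_mul] at this
  linarith

theorem wd_dvd {p : ℕ} (hp : p ∈ F.RR) : pv F.Lo * p * pv (F.TT.erase p) = pv F.all := by
  rw [mul_assoc, pv_erase (wd_RT hp), Fam.all, pv, pv, pv, prod_union h.dLo]

theorem wd_dvd' {p : ℕ} (hp : p ∈ F.RR) : pv F.Lo * p ∣ pv F.all :=
  ⟨_, (h.wd_dvd hp).symm⟩

/-- a function of the low primes of a site that is a multiple of `p` -/
theorem ex_low {Z : ℕ} (hZ : 0 < Z) (hd : pv F.all ∣ Z) {p : ℕ} (hp : p ∈ F.RR) (b : ℕ)
    (φ : Finset ℕ → ℝ) :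
    ex (fun n : Fin Z => if p ∣ n + b then φ (dp F.Lo (n + b)) else 0) = Em F.Lo φ / p := by
  have hLp : pv F.Lo * p ∣ Z := (h.wd_dvd' hp).trans hd
  have p1 : Per (pv F.Lo) fun n => φ (dp F.Lo (n + b)) :=
    (per_Tn1 (fun q hq => dvd_pv hq) b).comp φ
  have p2 : Per p fun n => if p ∣ n + b then (1 : ℝ) else 0 := fun x y e => by
    simp only [per_dvd dvd_rfl b x y e]
  have e1 := ex_per_mul hZ (pv_cop h.wd_pLo h.wd_pTT h.dLo p (wd_RT hp)) hLp p1 p2
  have e2 := ex_fin_Em (P := {p}) (by simpa using h.wd_pRR p hp) (Y := Z)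
    (by simpa [pv] using (dvd_mul_left _ _).trans hLp) hZ b fun A => if p ∈ A then 1 else 0
  rw [Em_ind_mem (mem_singleton_self p)] at e2
  have e3 : ex (fun n : Fin Z => if p ∣ n + b then (1 : ℝ) else 0) = 1 / p := by
    rw [← e2]
    exact ex_congr fun n => by simp
  have e4 : ex (fun n : Fin Z => φ (dp F.Lo (n + b))) = Em F.Lo φ :=
    ex_fin_Em h.wd_pLo ((dvd_mul_right _ _).trans hLp) hZ b φ
  rw [e3, e4, mul_one_div] at e1
  rw [← e1]
  exact ex_congr fun n => by split_ifs <;> simp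

/-- two edges through one site have no other common site -/
theorem wd_sep {d d' i i' j j' : ℕ} (hd : F.win d) (hd' : F.win d') (hne : d ≠ d')
    (hi : i < F.k) (hi' : i' < F.k) (e : i * d + j' * d' = j * d + i' * d') (hj : j < F.k)
    (hjj : j = j') : i = j := by
  subst hjj
  have D := h.wd_D
  have key : ∀ {x y u v : ℕ}, F.win x → F.win y → u < F.k → v < F.k → u * x = v * y →
      u ≤ v := by
    intro x y u v hx hy hu hv e
    by_contra c
    have c1 : ((v : ℝ) + 1) ≤ u := by exact_mod_cast Nat.succ_le_of_lt (not_le.1 c)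
    have c2 : (u : ℝ) * x = v * y := by exact_mod_cast e
    have c3 : (v : ℝ) ≤ F.k := by exact_mod_cast hv.le
    have c4 : (0 : ℝ) ≤ v := Nat.cast_nonneg v
    have c5 : ((v : ℝ) + 1) * F.D ≤ u * x := mul_le_mul c1 hx.1 (by linarith) (by linarith)
    have c6 : (v : ℝ) * y ≤ v * ((1 + F.ε) * F.D) := mul_le_mul_of_nonneg_left hy.2.le c4
    have c7 : (v : ℝ) * F.ε ≤ 1 / 2 := (mul_le_mul_of_nonneg_right c3 h.e0.le).trans h.e1
    nlinarith
  have dp : ∀ {x : ℕ}, F.win x → 0 < x := fun {x} hx => by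
    have : (0 : ℝ) < x := by linarith [hx.1]
    exact_mod_cast this
  have fin : ∀ {u v : ℕ}, u < F.k → v < F.k → u * d = v * d' → u = 0 := by
    intro u v hu hv e
    have a := key hd hd' hu hv e
    have b := key hd' hd hv hu e.symm
    obtain rfl : u = v := le_antisymm a b
    by_contra c
    exact hne (Nat.eq_of_mul_eq_mul_left (Nat.pos_of_ne_zero c) e)
  rcases le_total j i with l | l
  · obtain ⟨u, rfl⟩ := Nat.exists_eq_add_of_le l
    have l' : j ≤ i' := by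
      by_contra c
      have : i' * d' < j * d' := Nat.mul_lt_mul_of_pos_right (not_le.1 c) (dp hd')
      rw [add_mul] at e
      omega
    obtain ⟨v, rfl⟩ := Nat.exists_eq_add_of_le l'
    have := fin (u := u) (v := v) (by omega) (by omega) (by rw [add_mul, add_mul] at e; omega)
    omega
  · obtain ⟨u, rfl⟩ := Nat.exists_eq_add_of_le l
    rcases le_total i' (i + u) with l' | l'
    · obtain ⟨v, hv⟩ := Nat.exists_eq_add_of_le l'
      have e' : u * d = v * d' := by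
        have : (i + u) * d' = i' * d' + v * d' := by rw [hv, add_mul]
        rw [this, add_mul] at e
        omega
      have := fin (u := u) (v := v) (by omega) (by omega) e'
      omega
    · have a : (i + u) * d' ≤ i' * d' := Nat.mul_le_mul_right _ l'
      have b : u * d = 0 := by rw [add_mul i u d] at e; omega
      have := (Nat.mul_eq_zero.1 b).resolve_right (dp hd).ne'
      omega

end Hyp0

namespace Hyp

variable (h : Hyp F P 10)
include h

theorem wd_Ms : 0 < P.Ms := by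
  have a := h.wd_L2
  have b := Real.log_nonneg (show (1 : ℝ) ≤ F.N by linarith [h.wd_N])
  exact lt_of_lt_of_le (by positivity) h.ind

theorem wd_tau : (2 * P.Λ ^ 2) ^ (2 * F.k) * tauI (2 * F.k) F.N P.Ms ≤ 1 := by
  have a := h.wd_L2
  have b := Real.log_nonneg (show (1 : ℝ) ≤ F.N by linarith [h.wd_N])
  have k2 := h.k2
  have c1 : (2 * P.Λ ^ 2) ^ (2 * F.k) ≤ P.Λ ^ (6 * F.k) := by
    rw [show 6 * F.k = 3 * (2 * F.k) by ring, pow_mul P.Λ 3]
    exact pow_le_pow_left₀ (by positivity) (by nlinarith) _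
  have c2 : 2 * ((2 * F.k : ℕ) : ℝ) ^ 3 ≤ P.Λ ^ (4 * F.k) := by
    have d1 : ((2 * F.k : ℕ) : ℝ) ≤ P.Λ ^ 2 := by push_cast; nlinarith [h.Lk]
    calc _ ≤ P.Λ * (P.Λ ^ 2) ^ 3 := by gcongr
      _ = P.Λ ^ 7 := by ring
      _ ≤ _ := pow_le_pow_right₀ (by linarith) (by omega)
  rw [tauI, ← mul_div_assoc, div_le_one h.wd_Ms]
  refine le_trans ?_ h.ind
  rw [show 10 * F.k = 6 * F.k + 4 * F.k by ring, pow_add, ← mul_assoc]
  gcongr

/-- independence of the weights of distinct sites -/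
theorem wind {Z : ℕ} (hZ : 0 < Z) (hd : pv F.all ∣ Z) {p : ℕ} (hp : p ∈ F.RR) (S : Finset ℕ)
    (hS : ∀ b ∈ S, b ≤ F.N) (hc : S.card ≤ 2 * F.k) {ζ : ℕ → Finset ℕ → ℝ}
    (hζ : ∀ b, Zt F P (ζ b)) {u : ℕ → ℝ} (hu : Per (pv F.Lo * p) u) (u0 : ∀ n, 0 ≤ u n) :
    ex (fun n : Fin Z => u n * ∏ b ∈ S, F.Wz (ζ b) p (n + b)) ≤ 2 * ex fun n : Fin Z => u n := by
  have h0 := h.toHyp0
  have L2 := h0.wd_L2
  have hN1 : (1 : ℝ) ≤ F.N := by linarith [h0.wd_N]
  have pU : p ∉ F.U := fun c => disjoint_left.1 h.dUR c hp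
  have pH : p ∉ F.HH := disjoint_left.1 h.dRH hp
  set w : ℕ → Finset ℕ → ℝ := fun b A => F.wk (A ∩ F.U) * F.ka p (A ∩ F.RR) * ζ b (A ∩ F.HH)
    with hw
  have we : ∀ b A, w b (A.erase p) = w b A := fun b A => by
    simp only [hw, erase_inter, wd_ka_erase]
    rw [erase_eq_of_notMem fun c => pU (mem_inter.1 c).2,
      erase_eq_of_notMem fun c => pH (mem_inter.1 c).2]
  have wT : ∀ b n, w b (Tn (F.TT.erase p) n) = F.Wz (ζ b) p n := fun b n => by
    have : ∀ X ⊆ F.TT, Tn F.TT n ∩ X = dp X n := fun X hX => by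
      ext q
      simp only [Tn, dp, mem_inter, mem_filter]
      exact ⟨fun c => ⟨c.2, c.1.2⟩, fun c => ⟨⟨hX c.1, c.2⟩, c.1⟩⟩
    rw [Tn_erase, we]
    simp only [hw]
    rw [this _ (subset_union_left.trans subset_union_left), this _ Hyp0.wd_RT,
      this _ subset_union_right]
    rfl
  have w0 : ∀ b A, 0 ≤ w b A := fun b A =>
    mul_nonneg (mul_nonneg (h.wk0 _) (h0.wd_ka0 _ _)) ((hζ b).nn _)
  have w1 : ∀ b A, w b A ≤ 2 * P.Λ ^ 2 := fun b A =>
    calc w b A ≤ P.Λ * 2 * P.Λ :=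
        mul_le_mul (mul_le_mul (h.wkL _) (h0.wd_ka2 _ _) (h0.wd_ka0 _ _) (by linarith))
          ((hζ b).le _) ((hζ b).nn _) (by linarith)
      _ = _ := by ring
  have wm : ∀ b, EM (F.TT.erase p) (w b) ≤ 1 := fun b => by
    rw [EM_eq, Em_erase (we b)]
    have e1 := Em_mul_inter (disjoint_union_left.2 ⟨h.dUH, h.dRH⟩)
      (fun A => F.wk (A ∩ F.U) * F.ka p (A ∩ F.RR)) (ζ b)
    simp only [inter_assoc, union_inter_cancel_left, union_inter_cancel_right] at e1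
    rw [Em_mul_inter h.dUR, h0.wd_Eka, mul_one] at e1
    have e2 : Em F.U F.wk ≤ 1 := (Em_mono fun A _ => h.wkv A).trans h.Evk
    exact e1.le.trans (mul_le_one₀ e2 (Em_nonneg fun A _ => (hζ b).nn A) (hζ b).mean)
  have key := ind_sites (F.TT.erase p) (fun q hq => h0.wd_pTT q (mem_of_mem_erase hq)) h.wd_Ms
    (fun q hq => h.TMs q (mem_of_mem_erase hq)) S hN1 (fun b hb => by exact_mod_cast hS b hb)
    (Q := pv F.Lo * p) (Y := Z)
    (fun q hq => Nat.Coprime.mul_left (pv_cop h0.wd_pLo h0.wd_pTT h0.dLo q (mem_of_mem_erase hq))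
      ((Nat.coprime_primes (h0.wd_pRR p hp) (h0.wd_pTT q (mem_of_mem_erase hq))).2
        (mem_erase.1 hq).1.symm)) hZ (by rw [h0.wd_dvd hp]; exact hd) u hu.step w
    (2 * P.Λ ^ 2) (fun b _ A _ => w0 b A) fun b _ A _ => w1 b A
  simp only [wT, abs_of_nonneg (u0 _)] at key
  rw [ex_avN Z fun n => u n * ∏ b ∈ S, F.Wz (ζ b) p (n + b), ex_avN Z u]
  have a0 : 0 ≤ avN Z u := by rw [← ex_avN]; exact ex_nonneg fun n => u0 n
  have a1 : ∏ b ∈ S, EM (F.TT.erase p) (w b) ≤ 1 :=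
    prod_le_one (fun b _ => Em_nonneg fun A _ => w0 b A) fun b _ => wm b
  have a2 : (2 * P.Λ ^ 2) ^ S.card * tauI S.card F.N P.Ms ≤ 1 :=
    le_trans (mul_le_mul (pow_le_pow_right₀ (by nlinarith) hc) (tauI_mono hc hN1 h.wd_Ms)
      (tauI_nonneg _ hN1 h.wd_Ms) (by positivity)) h.wd_tau
  have a3 := (abs_le.1 key).2
  rw [mul_assoc] at a3
  nlinarith [mul_le_mul_of_nonneg_left a1 a0, mul_le_mul_of_nonneg_left a2 a0]

/-- one edge -/
theorem wind1 {Z : ℕ} (hZ : 0 < Z) (hd : pv F.all ∣ Z) {p : ℕ} (hp : p ∈ F.RR) {a d : ℕ}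
    (d0 : 0 < d) (ha : a + (F.k - 1) * d < F.N) {ζ : ℕ → Finset ℕ → ℝ} (hζ : ∀ i, Zt F P (ζ i))
    {u : ℕ → ℝ} (hu : Per (pv F.Lo * p) u) (u0 : ∀ n, 0 ≤ u n) :
    ex (fun n : Fin Z => u n * ∏ i ∈ range F.k, F.Wz (ζ i) p (n + (a + i * d))) ≤
      2 * ex fun n : Fin Z => u n := by
  have inj : Set.InjOn (fun i => a + i * d) (range F.k) := fun i _ j _ e =>
    Nat.eq_of_mul_eq_mul_right d0 (Nat.add_left_cancel e)
  have := h.wind hZ hd hp ((range F.k).image fun i => a + i * d)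
    (fun b hb => by
      obtain ⟨i, hi, rfl⟩ := mem_image.1 hb
      have : i * d ≤ (F.k - 1) * d := Nat.mul_le_mul_right _ (by have := mem_range.1 hi; omega)
      omega)
    (card_image_le.trans (by rw [card_range]; omega)) (ζ := fun b => ζ ((b - a) / d))
    (fun b => hζ _) hu u0
  simpa only [prod_image inj, Nat.add_sub_cancel_left, Nat.mul_div_cancel _ d0] using this

/-- two edges through the site `b` -/
theorem wind2 {Z : ℕ} (hZ : 0 < Z) (hd : pv F.all ∣ Z) {p : ℕ} (hp : p ∈ F.RR)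
    {i0 b d d' : ℕ} (hi : i0 < F.k) (w1 : F.win d) (w2 : F.win d') (hne : d ≠ d')
    (l1 : i0 * d ≤ b) (l2 : i0 * d' ≤ b) (r1 : b + (F.k - 1 - i0) * d < F.N)
    (r2 : b + (F.k - 1 - i0) * d' < F.N) {ζ : Finset ℕ → ℝ} (hζ : Zt F P ζ)
    {u : ℕ → ℝ} (hu : Per (pv F.Lo * p) u) (u0 : ∀ n, 0 ≤ u n) :
    ex (fun n : Fin Z => u n * (F.Wz ζ p (n + b) *
      ((∏ i ∈ (range F.k).erase i0, F.W p (n + (b - i0 * d + i * d))) *
        ∏ i ∈ (range F.k).erase i0, F.W p (n + (b - i0 * d' + i * d'))))) ≤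
      2 * ex fun n : Fin Z => u n := by
  have h0 := h.toHyp0
  have dp : ∀ {x : ℕ}, F.win x → 0 < x := fun {x} hx => by
    have : (0 : ℝ) < x := by linarith [hx.1, h0.wd_D]
    exact_mod_cast this
  have inj : ∀ {x}, F.win x → Set.InjOn (fun i => b - i0 * x + i * x) ((range F.k).erase i0) :=
    fun hx i _ j _ e => Nat.eq_of_mul_eq_mul_right (dp hx) (Nat.add_left_cancel e)
  set S : ℕ → Finset ℕ := fun x => ((range F.k).erase i0).image fun i => b - i0 * x + i * x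
    with hS
  have nb : ∀ {x}, F.win x → i0 * x ≤ b → b ∉ S x := fun {x} hx l c => by
    obtain ⟨i, hi', e⟩ := mem_image.1 c
    exact (mem_erase.1 hi').1 (Nat.eq_of_mul_eq_mul_right (dp hx) (by omega))
  have dis : Disjoint (S d) (S d') := disjoint_left.2 fun y c c' => by
    obtain ⟨i, a1, e⟩ := mem_image.1 c
    obtain ⟨i', a2, e'⟩ := mem_image.1 c'
    exact (mem_erase.1 a1).1 (h0.wd_sep w1 w2 hne (mem_range.1 (mem_of_mem_erase a1))
      (mem_range.1 (mem_of_mem_erase a2)) (j := i0) (j' := i0) (by omega) hi rfl)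
  have bd : ∀ {x}, i0 * x ≤ b → b + (F.k - 1 - i0) * x < F.N → ∀ y ∈ S x, y ≤ F.N :=
    fun {x} l r y hy => by
      obtain ⟨i, a1, rfl⟩ := mem_image.1 hy
      have a2 := mem_range.1 (mem_of_mem_erase a1)
      have a3 : i * x ≤ (i0 + (F.k - 1 - i0)) * x := Nat.mul_le_mul_right _ (by omega)
      rw [add_mul] at a3
      omega
  have cd : ∀ x, (S x).card ≤ F.k - 1 := fun x =>
    card_image_le.trans (by rw [card_erase_of_mem (mem_range.2 hi), card_range])
  have nb' : b ∉ S d ∪ S d' := fun c => (mem_union.1 c).elim (nb w1 l1) (nb w2 l2)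
  have := h.wind hZ hd hp (insert b (S d ∪ S d'))
    (fun y hy => by
      rcases mem_insert.1 hy with rfl | hy
      · omega
      · exact (mem_union.1 hy).elim (bd l1 r1 y) (bd l2 r2 y))
    ((card_insert_le _ _).trans (by
      have := card_union_le (S d) (S d')
      have := cd d
      have := cd d'
      omega))
    (ζ := fun y => if y = b then ζ else F.ze)
    (fun y => by split_ifs; exacts [hζ, h0.zt_ze]) hu u0
  refine le_trans (le_of_eq (ex_congr fun n => ?_)) this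
  have e1 : ∏ y ∈ S d ∪ S d', F.Wz (if y = b then ζ else F.ze) p (n + y) =
      ∏ y ∈ S d ∪ S d', F.W p (n + y) := prod_congr rfl fun y hy => by
    rw [if_neg fun e : y = b => nb' (e ▸ hy)]
    rfl
  rw [prod_insert nb', if_pos rfl, e1, prod_union dis, prod_image (inj w1), prod_image (inj w2)]

/-- the mass of a function of the cofactor and of the low primes of one site -/
theorem mass {Z : ℕ} (hZ : 0 < Z) (hd : pv F.all ∣ Z) (i : ℕ) {Φ : Finset ℕ → Finset ℕ → ℝ}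
    (hΦ : ∀ c T, 0 ≤ Φ c T) :
    F.ms Z (fun n a c p => Φ c (dp F.Lo (n + (a + i * (pv c * p))))) ≤ 8 * Et F.Lo F.w Φ := by
  have h0 := h.toHyp0
  have N0 : (0 : ℝ) < F.N := by linarith [h0.wd_N]
  set e : Finset ℕ → ℝ := fun c => Em F.Lo fun A => if c ⊆ A then Φ c A else 0 with he
  have e0 : ∀ c, 0 ≤ e c := fun c => Em_nonneg fun A _ => by
    split_ifs
    · exact hΦ c A
    · rfl
  have k1 : Et F.Lo F.w Φ = ∑ c ∈ F.Lo.powerset, F.w c * e c := by
    unfold Et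
    rw [Em_congr fun A hA => sum_sub_eq hA _, Em_sum]
    refine sum_congr rfl fun c _ => ?_
    rw [he, ← Em_mul]
    exact Em_congr fun A _ => by split_ifs <;> simp
  have k2 : ∀ a, ∀ c ⊆ F.Lo, ∀ p ∈ F.RR, ex (fun n : Fin Z =>
      if pv c * p ∣ n + a ∧ F.win (pv c * p) ∧ a + (F.k - 1) * (pv c * p) < F.N then
        F.w c / (F.LL * F.N * F.Pw) * (∏ i ∈ range F.k, F.W p (n + (a + i * (pv c * p)))) *
          Φ c (dp F.Lo (n + (a + i * (pv c * p)))) else 0) ≤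
      F.w c / (F.LL * F.N * F.Pw) * (2 * e c) * if F.win (pv c * p) then (1 : ℝ) / p else 0 := by
    intro a c hc p hp
    have c0 := div_nonneg (h0.wd_w0 c) h0.wd_den.le
    by_cases hw : F.win (pv c * p) ∧ a + (F.k - 1) * (pv c * p) < F.N
    swap
    · rw [ex_congr fun n => if_neg fun c => hw c.2, ex_zero]
      have := e0 c
      split_ifs <;> positivity
    have hcp : ∀ q ∈ c, q.Prime := fun q hq => h0.wd_pLo q (hc hq)
    have d0 : 0 < pv c * p := Nat.mul_pos (Ch.Main.pv_pos hcp) (h0.wd_pRR p hp).pos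
    set d := pv c * p with hdd
    set u : ℕ → ℝ := fun n => if p ∣ n + (a + i * d) then
      (fun A => if c ⊆ A then Φ c A else 0) (dp F.Lo (n + (a + i * d))) else 0 with hu
    have u0 : ∀ n, 0 ≤ u n := fun n => by
      simp only [hu]
      split_ifs
      exacts [hΦ _ _, le_rfl, le_rfl]
    have up : Per (pv F.Lo * p) u := fun x y e => by
      have e1 := per_dvd (dvd_mul_left p (pv F.Lo)) (a + i * d) x y e
      have e2 : dp F.Lo (x + (a + i * d)) = dp F.Lo (y + (a + i * d)) :=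
        per_filter (fun q hq => (dvd_pv hq).mul_right p) (a + i * d) x y e
      simp only at e1
      simp only [hu, e1, e2]
    have k3 := h.wind1 hZ hd hp d0 hw.2 (fun _ => h0.zt_ze) up u0
    rw [h0.ex_low hZ hd hp (a + i * d) fun A => if c ⊆ A then Φ c A else 0] at k3
    rw [if_pos hw.1, mul_assoc (F.w c / (F.LL * F.N * F.Pw))]
    refine le_trans (ex_mono fun n => ?_) ((ex_mul _ _).le.trans
      (mul_le_mul_of_nonneg_left (k3.trans (le_of_eq (by simp only [he]; ring))) c0))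
    have pw : 0 ≤ ∏ i ∈ range F.k, F.Wz F.ze p (n + (a + i * d)) :=
      prod_nonneg fun _ _ => h0.W0 _ _
    split_ifs with c1
    · have c2 : d ∣ n + (a + i * d) := by
        rw [← add_assoc]; exact c1.1.add (dvd_mul_left d i)
      have c3 : c ⊆ dp F.Lo (n + (a + i * d)) := fun q hq =>
        mem_filter.2 ⟨hc hq, ((dvd_pv hq).mul_right p).trans c2⟩
      simp only [hu, if_pos ((dvd_mul_left p (pv c)).trans c2), if_pos c3]
      rw [mul_assoc (F.w c / (F.LL * F.N * F.Pw)), mul_comm (Φ c _)]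
      rfl
    · exact mul_nonneg c0 (mul_nonneg (u0 _) pw)
  have k4 : ∀ c ⊆ F.Lo, ∑ p ∈ F.RR, (if F.win (pv c * p) then (1 : ℝ) / p else 0) ≤
      4 * (F.LL * F.Pw) := fun c hc => by
    have c0 : (0 : ℝ) < pv c := by
      exact_mod_cast Ch.Main.pv_pos fun q hq => h0.wd_pLo q (hc hq)
    rw [← sum_filter]
    refine le_trans (wd_rs_mono fun p hp => ?_) (h.win1 (F.D / pv c))
    obtain ⟨a1, a2, a3⟩ := mem_filter.1 hp
    push_cast at a2 a3
    refine mem_filter.2 ⟨a1, ?_, ?_⟩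
    · rw [div_le_iff₀ c0]; linarith
    · rw [← mul_div_assoc, lt_div_iff₀ c0]; linarith
  unfold Fam.ms
  rw [ex_sum, k1]
  calc _ ≤ ∑ _a ∈ range F.N, (8 * ∑ c ∈ F.Lo.powerset, F.w c * e c) / F.N :=
        sum_le_sum fun a _ => ?_
    _ = _ := by rw [sum_const, card_range, nsmul_eq_mul]; field_simp
  rw [ex_sum, mul_sum, sum_div]
  refine sum_le_sum fun c hc => ?_
  rw [ex_sum]
  refine (sum_le_sum fun p hp => k2 a c (mem_powerset.1 hc) p hp).trans ?_
  rw [← mul_sum]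
  have c0 := div_nonneg (h0.wd_w0 c) h0.wd_den.le
  refine (mul_le_mul_of_nonneg_left (k4 c (mem_powerset.1 hc))
    (by have := e0 c; positivity)).trans (le_of_eq ?_)
  have := h0.wd_LL
  have := h.Pw0
  field_simp
  ring

open Classical in
/-- the mass of an event -/
theorem mass_ev {Z : ℕ} (hZ : 0 < Z) (hd : pv F.all ∣ Z) (i : ℕ)
    (E : Finset ℕ → Finset ℕ → Prop) :
    F.ms Z (fun n a c p => Fu.ind (E c (dp F.Lo (n + (a + i * (pv c * p)))))) ≤ 8 * F.Pn E := by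
  refine (h.mass hZ hd i (Φ := fun c T => Fu.ind (E c T)) fun _ _ => ind_nonneg _).trans
    (le_of_eq ?_)
  congr 1
  refine Em_congr fun A _ => sum_congr rfl fun c _ => ?_
  by_cases e : E c A <;> simp [Fu.ind, e]

end Hyp

end Pool.Agent.P.MP_a14ce1_nt.Fu.St
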