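import Pool.Agent.P.MP_a14ce1_nt.Fu.CpA
import Pool.Agent.P.MP_a14ce1_nt.Fu.Wind

/-!
Section 3 (a): the good edges, the subsampling weight and the function carried by an object.
-/

open Finset

namespace Pool.Agent.P.MP_a14ce1_nt.Fu.St.Cp

open Ch (pv)

variable (F : Fam) (P : Par)

/-- the site number `i` of the edge of difference `d` whose site number `i0` is `a` -/
def st (i0 a d i : ℕ) : ℕ := a - i0 * d + i * d

/-- the sites on a path, before the subsampling -/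
noncomputable def Pa (e : EE F P) (x : ℕ) : Finset (Fin F.N) :=
  (geo F P (fun _ => ∅) univ x).Zs (phi e) F.m (P.Wn - 1)

/-- `b` is a typical site that is not on a path -/
def og (e : EE F P) (x b : ℕ) : Prop :=
  ∃ h : b < F.N, (⟨b, h⟩ : Fin F.N) ∈ OkS F P x ∧ (⟨b, h⟩ : Fin F.N) ∉ Pa F P e x

/-- the subsampling weight -/
noncomputable def ith (Θ : Finset (Fin F.N)) (b : ℕ) : ℝ :=
  Fu.ind (∃ h : b < F.N, (⟨b, h⟩ : Fin F.N) ∈ Θ) / P.vt

/-- the edge `(a, c, p)` is good for the role `i0` -/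
def gE (i0 : ℕ) (e : EE F P) (n a : ℕ) (c : Finset ℕ) (p : ℕ) : Prop :=
  OkA F P (dp F.Lo (n + (a + i0 * (pv c * p)))) ∧
    (∀ s ≤ F.m, Real.log (pv (c ∩ F.Lv 0 (s + 1))) ≤ P.La s) ∧
    P.Δ * F.wl 0 c ≤ F.Vl 0 (dp F.Lo (n + (a + i0 * (pv c * p)))) ∧
    ∀ i ∈ (range F.k).erase i0, og F P e n (a + i * (pv c * p))

/-- the function carried by the object `u` at the target `a` -/
noncomputable def Q0 {Z : ℕ} (s : ℕ → ℝ) (x : ℕ → Fin Z → ℕ → ℝ) (i0 : ℕ)
    (Θ : Finset (Fin F.N)) (e : EE F P) (a : Fin F.N) (u : Finset ℕ) (n : Fin Z) : ℝ :=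
  (∑ g ∈ gs F P i0 n a u, F.wl 0 g * (s (pv g * pv u) * ∏ i ∈ (range F.k).erase i0,
    (F.W (pr F u) (n + st i0 a (pv g * pv u) i) * ith F P Θ (st i0 a (pv g * pv u) i) *
      (Fu.ind (og F P e n (st i0 a (pv g * pv u) i)) * x i n (st i0 a (pv g * pv u) i))))) /
    F0 F P i0 n a u

/-- the weight of the other sites -/
noncomputable def Rw (i0 : ℕ) (Θ : Finset (Fin F.N)) (n : ℕ) (a : Fin F.N) (u g : Finset ℕ) : ℝ :=
  ∏ i ∈ (range F.k).erase i0,
    (F.W (pr F u) (n + st i0 a (pv g * pv u) i) * ith F P Θ (st i0 a (pv g * pv u) i))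

/-- the fields of the role `i0` for the code given by `(Θ, e)` -/
noncomputable def xx {A : Type} (dt : ℕ → A) (Z : ℕ) (C0 : ℕ → Finset ℕ) (X : ℕ → ℝ) (i0 : ℕ)
    (Θ : Finset (Fin F.N)) (e : EE F P) : ℕ → Fin Z → ℕ → ℝ :=
  mix (fun n b => X (n + b)) (pred Z F.Qk dt (cd F P C0 Θ e) F.z X) i0

/-- truncation at height `G` -/
noncomputable def clip (G t : ℝ) : ℝ := max (-G) (min G t)

end Pool.Agent.P.MP_a14ce1_nt.Fu.St.Cp
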