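import Pool.Agent.P.MP_a14ce1_nt.Fu.DaDef
import Pool.Agent.P.MP_a14ce1_nt.Fu.PL

/-!
Section 3 (a): the insertion of the subsampling weight is exact.
-/

open Finset

namespace Pool.Agent.P.MP_a14ce1_nt.Fu.St.Cp

open Ch (pv)

variable {F : Fam} {P : Par}

theorem ith_nonneg (h : Hyp0 F P) (Θ : Finset (Fin F.N)) (b : ℕ) : 0 ≤ ith F P Θ b :=
  div_nonneg (ind_nonneg _) h.vt0.le

theorem ith_le (h : Hyp0 F P) (Θ : Finset (Fin F.N)) (b : ℕ) : ith F P Θ b ≤ 1 / P.vt :=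
  div_le_div_of_nonneg_right (ind_le_one _) h.vt0.le

theorem ith_insert (Θ : Finset (Fin F.N)) {b : Fin F.N} {y : ℕ} (hy : y ≠ b) :
    ith F P (insert b Θ) y = ith F P Θ y := by
  unfold ith
  congr 1
  refine ind_congr (exists_congr fun hy' => ?_)
  rw [mem_insert]
  exact or_iff_right fun e => hy (congrArg Fin.val e)

theorem ET_ins1 (h : Hyp0 F P) (b : Fin F.N) (G : Finset (Fin F.N) → ℝ)
    (hG : ∀ Θ, G (insert b Θ) = G Θ) : ET F P (fun Θ => ith F P Θ b * G Θ) = ET F P G := by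
  have e : ∀ φ, ET F P φ = PL.Ep (fun _ => P.vt) univ φ := fun φ => by
    rw [ET, PL.Ep, powerset_univ]
  have k := PL.Ep_above (κ := fun _ : Fin F.N => P.vt) (subset_univ {b}) G
  simp only [prod_singleton, singleton_subset_iff, singleton_union, hG] at k
  have v := h.vt0.ne'
  rw [e, e G, ← mul_right_inj' v, ← k, ← PL.Ep_mul]
  refine PL.Ep_congr fun S _ => ?_
  unfold ith
  by_cases c : b ∈ S
  · rw [if_pos c, ind_pos ⟨b.2, c⟩]; field_simp
  · rw [if_neg c, ind_neg fun ⟨_, d⟩ => c d]; simp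

theorem ET_ins (h : Hyp0 F P) {ι : Type} (I : Finset ι) (β : ι → ℕ) (hβ : Set.InjOn β I)
    (hN : ∀ i ∈ I, β i < F.N) (G : Finset (Fin F.N) → ℝ)
    (hG : ∀ Θ, ∀ b : Fin F.N, (∃ i ∈ I, β i = b) → G (insert b Θ) = G Θ) :
    ET F P (fun Θ => (∏ i ∈ I, ith F P Θ (β i)) * G Θ) = ET F P G := by
  classical
  induction I using Finset.induction_on with
  | empty => simp
  | insert j I hj ih =>
    rw [← ih (hβ.mono (coe_subset.2 (subset_insert j I))) (fun i hi => hN i (mem_insert_of_mem hi))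
      fun Θ b ⟨i, hi, e⟩ => hG Θ b ⟨i, mem_insert_of_mem hi, e⟩,
      ← ET_ins1 h ⟨β j, hN j (mem_insert_self j I)⟩ (fun Θ => (∏ i ∈ I, ith F P Θ (β i)) * G Θ)]
    · simp only [prod_insert hj, mul_assoc]
    · intro Θ
      rw [hG Θ _ ⟨j, mem_insert_self j I, rfl⟩]
      congr 1
      refine prod_congr rfl fun i hi => ith_insert Θ fun e => hj ?_
      rw [← hβ (mem_coe.2 (mem_insert_of_mem hi)) (mem_coe.2 (mem_insert_self j I)) e]
      exact hi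

theorem ms_ET (Z : ℕ) (Φ : Finset (Fin F.N) → Fin Z → ℕ → Finset ℕ → ℕ → ℝ) :
    ET F P (fun Θ => F.ms Z (Φ Θ)) = F.ms Z fun n a c p => ET F P fun Θ => Φ Θ n a c p := by
  simp only [ET, Fam.ms_sum, Fam.ms_mul]

theorem Zs_geo (C0 : ℕ → Finset ℕ) (Θ : Finset (Fin F.N)) (x : ℕ) (Φ : Ph) (t : ℕ) :
    ∀ w, (geo F P C0 Θ x).Zs Φ t w = (geo F P (fun _ => ∅) univ x).Zs Φ t w ∩ Θ := by
  induction t with
  | zero =>
    intro w
    rw [Geo.Zs_zero, Geo.Zs_zero]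
    simp only [geo, univ_inter]
    exact inter_comm _ _
  | succ t ih =>
    intro w
    ext b
    rw [mem_inter, Geo.mem_Zs_succ, Geo.mem_Zs_succ, ih, ih, mem_inter, mem_inter]
    change _ ∧ b ∈ (geo F P (fun _ => ∅) univ x).hit Φ (t + 1) w 0 (P.J (t + 1)) ∨ _ ↔
      (_ ∧ b ∈ (geo F P (fun _ => ∅) univ x).hit Φ (t + 1) w 0 (P.J (t + 1)) ∨ _) ∧ _
    tauto

theorem code_geo (C0 : ℕ → Finset ℕ) (Θ : Finset (Fin F.N)) (e : EE F P) (x : ℕ) :
    (geo F P C0 Θ x).code (phi e) = (geo F P C0 univ x).C0 ∪ Pa F P e x ∩ Θ := by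
  rw [Geo.code, Zs_geo]
  rfl

theorem Pa_mod (e : EE F P) (n : ℕ) : Pa F P e (n % F.Qk) = Pa F P e n := by
  rw [Pa, geo_mod, Pa]

theorem pred_congr {A : Type} {Z Q : ℕ} (dt : ℕ → A) {C C' : ℕ → Finset ℕ} (ζ X : ℕ → ℝ)
    (n : Fin Z) (b : ℕ) (h : C (n % Q) = C' (n % Q)) :
    pred Z Q dt C ζ X n b = pred Z Q dt C' ζ X n b := by
  have a := fun C => yr_glue (fun n : Fin Z => (n : ℕ) % Q) (fun n b => dt (n + b)) C
    (fun x => ζ (x + b)) (fun x => X (x + b)) (c := n % Q) ⟨n, rfl⟩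
  exact (a C).trans (h ▸ (a C').symm)

theorem ins (h : Hyp0 F P) {A : Type} (dt : ℕ → A) (Z : ℕ) (C0 : ℕ → Finset ℕ) (X s : ℕ → ℝ)
    (i0 : ℕ) (e : EE F P) :
    ET F P (fun Θ => F.ms Z fun n a c p => Fu.ind (gE F P i0 e n a c p) *
      (s (pv c * p) * ∏ i ∈ range F.k, xx F P dt Z C0 X i0 Θ e i n (a + i * (pv c * p)))) =
    ET F P (fun Θ => F.ms Z fun n a c p => Fu.ind (gE F P i0 e n a c p) *
      ((∏ i ∈ (range F.k).erase i0, ith F P Θ (a + i * (pv c * p))) *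
      (s (pv c * p) * ∏ i ∈ range F.k, xx F P dt Z C0 X i0 Θ e i n (a + i * (pv c * p))))) := by
  rw [ms_ET, ms_ET]
  refine F.ms_congr fun n a c p _ _ _ hw ha => ?_
  by_cases hg : gE F P i0 e n a c p
  swap
  · simp only [ind_neg hg, zero_mul]
  simp only [ind_pos hg, one_mul]
  have d0 : 0 < pv c * p := by
    have : (0 : ℝ) < (pv c * p : ℕ) := by linarith [hw.1, h.D20]
    exact_mod_cast this
  rw [ET_ins h ((range F.k).erase i0) (fun i => a + i * (pv c * p))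
    (fun i _ j _ e => Nat.eq_of_mul_eq_mul_right d0 (Nat.add_left_cancel e))
    (fun i hi => (hg.2.2.2 i hi).1)]
  rintro Θ b ⟨i, hi, hb⟩
  have nb : b ∉ Pa F P e n := by
    obtain ⟨l, -, c'⟩ := hg.2.2.2 i hi
    rwa [show (⟨a + i * (pv c * p), l⟩ : Fin F.N) = b from Fin.ext hb] at c'
  have e1 : cd F P C0 (insert b Θ) e (n % F.Qk) = cd F P C0 Θ e (n % F.Qk) := by
    rw [cd, cd, code_geo, code_geo, Pa_mod, inter_insert_of_notMem nb]
  congr 1
  refine prod_congr rfl fun j _ => ?_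
  simp only [xx, mix, pred_congr dt F.z X n _ e1]

end Pool.Agent.P.MP_a14ce1_nt.Fu.St.Cp
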