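import Pool.Agent.P.MP_a14ce1_nt.Fu.Pin
import Pool.Agent.P.MP_a14ce1_nt.Fu.SH

/-! UNLOCK for sets, and PIN, PATH for independent uniform choices. -/

namespace Pool.Agent.P.MP_a14ce1_nt.Fu

open Finset

section sets

variable {α : Type*} [DecidableEq α]

/-- the mean of `g` over subsets of `Q` with uniform size `k < r`, then uniform of that size -/
noncomputable def subAvg (Q : Finset α) (r : ℕ) (g : Finset α → ℝ) : ℝ :=
  (∑ k ∈ range r, (∑ K ∈ Q.powersetCard k, g K) / (Q.card.choose k)) / r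

theorem subAvg_mono {Q : Finset α} {r : ℕ} {g g' : Finset α → ℝ}
    (h : ∀ K ⊆ Q, K.card < r → g K ≤ g' K) : subAvg Q r g ≤ subAvg Q r g' := by
  unfold subAvg
  refine div_le_div_of_nonneg_right (sum_le_sum fun k hk => ?_) (Nat.cast_nonneg _)
  refine div_le_div_of_nonneg_right (sum_le_sum fun K hK => ?_) (Nat.cast_nonneg _)
  obtain ⟨h1, h2⟩ := mem_powersetCard.1 hK
  exact h K h1 (h2 ▸ mem_range.1 hk)

theorem subAvg_const {Q : Finset α} {r : ℕ} (hr : 0 < r) (hQ : r ≤ Q.card + 1) (c : ℝ) :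
    subAvg Q r (fun _ => c) = c := by
  unfold subAvg
  have : ∀ k ∈ range r, (∑ _K ∈ Q.powersetCard k, c) / (Q.card.choose k : ℝ) = c := by
    intro k hk
    have h0 : (0 : ℝ) < Q.card.choose k := by
      exact_mod_cast Nat.choose_pos (by have := mem_range.1 hk; omega)
    rw [sum_const, card_powersetCard, nsmul_eq_mul]
    field_simp
  have hr' : (0 : ℝ) < r := by exact_mod_cast hr
  rw [sum_congr rfl this, sum_const, card_range, nsmul_eq_mul]
  field_simp

theorem subAvg_add (Q : Finset α) (r : ℕ) (g g' : Finset α → ℝ) :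
    subAvg Q r (fun K => g K + g' K) = subAvg Q r g + subAvg Q r g' := by
  simp only [subAvg, sum_add_distrib, add_div]

theorem subAvg_sub (Q : Finset α) (r : ℕ) (g g' : Finset α → ℝ) :
    subAvg Q r (fun K => g K - g' K) = subAvg Q r g - subAvg Q r g' := by
  simp only [subAvg, sum_sub_distrib, sub_div]

theorem subAvg_mul (Q : Finset α) (r : ℕ) (c : ℝ) (g : Finset α → ℝ) :
    subAvg Q r (fun K => c * g K) = c * subAvg Q r g := by
  simp only [subAvg, ← mul_sum, mul_div_assoc]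

theorem subAvg_sum {ι : Type*} (Q : Finset α) (r : ℕ) (I : Finset ι) (g : ι → Finset α → ℝ) :
    subAvg Q r (fun K => ∑ i ∈ I, g i K) = ∑ i ∈ I, subAvg Q r (g i) := by
  classical
  induction I using Finset.induction_on with
  | empty => simp [subAvg]
  | insert a s ha ih => simp only [sum_insert ha, subAvg_add, ih]

theorem subAvg_nonneg {Q : Finset α} {r : ℕ} {g : Finset α → ℝ}
    (h : ∀ K ⊆ Q, K.card < r → 0 ≤ g K) : 0 ≤ subAvg Q r g := by
  have := subAvg_mono (Q := Q) (r := r) (g := fun _ => 0) (g' := g) h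
  simpa [subAvg] using this

/-- A bound valid for every small subset passes to the mean. -/
theorem le_subAvg {Q : Finset α} {r : ℕ} (hr : 0 < r) (hQ : r ≤ Q.card + 1) {c : ℝ}
    {g : Finset α → ℝ} (h : ∀ K ⊆ Q, K.card < r → c ≤ g K) : c ≤ subAvg Q r g :=
  (subAvg_const hr hQ c).symm.le.trans (subAvg_mono h)

theorem sum_tup_fib (A : Finset α) (r : ℕ) (G : Finset α → (Fin r → α) → ℝ) :
    ∑ Q ∈ A.powersetCard r, ∑ x ∈ tup Q r, G Q x = ∑ x ∈ tup A r, G (pre x r) x := by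
  rw [← sum_fiberwise_of_maps_to (s := tup A r) (t := A.powersetCard r) (g := fun x => pre x r)
    (fun x hx => mem_powersetCard.2 ⟨pre_subset hx r, card_pre hx le_rfl⟩)]
  refine sum_congr rfl fun Q hQ => ?_
  obtain ⟨h1, h2⟩ := mem_powersetCard.1 hQ
  have : tup Q r = (tup A r).filter fun x => pre x r = Q := by
    ext x
    rw [mem_filter]
    constructor
    · intro hx
      refine ⟨mem_tup.2 ⟨fun i => h1 ((mem_tup.1 hx).1 i), (mem_tup.1 hx).2⟩, ?_⟩
      exact eq_of_subset_of_card_le (pre_subset hx r) (by rw [card_pre hx le_rfl, h2])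
    · rintro ⟨hx, rfl⟩
      exact mem_tup.2 ⟨fun i => mem_pre.2 ⟨i, i.2, rfl⟩, (mem_tup.1 hx).2⟩
  rw [this]
  exact sum_congr rfl fun x hx => by rw [(mem_filter.1 hx).2]

theorem subAvg_eq_tup {Q : Finset α} {r n : ℕ} (hr : r ≤ n + 1) (hn : n ≤ Q.card)
    (g : Finset α → ℝ) :
    subAvg Q r g = (∑ x ∈ tup Q n, ∑ k ∈ range r, g (pre x k)) / ((tup Q n).card * r) := by
  have hc : (0 : ℝ) < (tup Q n).card := by exact_mod_cast (tup_nonempty hn).card_pos
  unfold subAvg
  rw [sum_comm, ← div_div, sum_div _ _ ((tup Q n).card : ℝ)]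
  congr 1
  refine sum_congr rfl fun k hk => ?_
  have hk' : k ≤ n := by have := mem_range.1 hk; omega
  have h0 : (0 : ℝ) < Q.card.choose k := by exact_mod_cast Nat.choose_pos (hk'.trans hn)
  rw [div_eq_div_iff h0.ne' hc.ne', mul_comm, ← law_pre Q hk' hn g, mul_comm]

/-- UNLOCK for sets, exact form. -/
theorem unlock_set_eq (A : Finset α) (r : ℕ) (φ : Finset α → ℝ) :
    ∑ Q ∈ A.powersetCard r, ∑ q ∈ A \ Q, subAvg Q r (fun K => φ K - φ (insert q K))
      = ((A.card : ℝ) - r) / r * ∑ Q ∈ A.powersetCard r, (φ ∅ - φ Q) := by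
  have hf : (0 : ℝ) < r.factorial := by exact_mod_cast r.factorial_pos
  have hc : ∀ Q ∈ A.powersetCard r, ((tup Q r).card : ℝ) = r.factorial := by
    intro Q hQ
    rw [card_tup, (mem_powersetCard.1 hQ).2, Nat.descFactorial_self]
  have e1 : ∑ Q ∈ A.powersetCard r, ∑ q ∈ A \ Q, subAvg Q r (fun K => φ K - φ (insert q K))
      = (∑ Q ∈ A.powersetCard r, ∑ x ∈ tup Q r, ∑ q ∈ A \ Q, ∑ k ∈ range r,
          (φ (pre x k) - φ (insert q (pre x k)))) / (r.factorial * r) := by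
    rw [sum_div]
    refine sum_congr rfl fun Q hQ => ?_
    rw [sum_comm, sum_div]
    refine sum_congr rfl fun q _ => ?_
    rw [subAvg_eq_tup (n := r) (Nat.le_succ r) (mem_powersetCard.1 hQ).2.ge, hc Q hQ]
  have e2 : ∑ Q ∈ A.powersetCard r, (φ ∅ - φ Q)
      = (∑ x ∈ tup A r, (φ ∅ - φ (pre x r))) / r.factorial := by
    rw [← sum_tup_fib A r (fun Q _ => φ ∅ - φ Q), sum_div]
    refine sum_congr rfl fun Q hQ => ?_
    rw [sum_const, nsmul_eq_mul, hc Q hQ]
    field_simp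
  rw [e1, e2, sum_tup_fib A r (fun Q x => ∑ q ∈ A \ Q, ∑ k ∈ range r,
    (φ (pre x k) - φ (insert q (pre x k)))), unlock_tup_eq]
  by_cases hr : (r : ℝ) = 0
  · simp [hr]
  · field_simp

/-- UNLOCK for sets: weights `0 ≤ F Q ≤ Fm` on the `r`-subsets of `A`, antitone set functions
`φ s` with values in `[lo, hi]`, `e Q q K ≤ ∑ s, (φ s K - φ s (K + q))`. -/
theorem unlock_set_le {ι : Type*} (A : Finset α) (r : ℕ) (hA : r < A.card)
    (I : Finset ι) (φ : ι → Finset α → ℝ) (lo hi Fm : ℝ)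
    (hlo : ∀ s ∈ I, ∀ K ⊆ A, lo ≤ φ s K) (hhi : ∀ s ∈ I, φ s ∅ ≤ hi)
    (hmono : ∀ s ∈ I, ∀ K ⊆ A, ∀ q ∈ A, φ s (insert q K) ≤ φ s K)
    (F : Finset α → ℝ) (hF0 : ∀ Q ∈ A.powersetCard r, 0 ≤ F Q)
    (hF : ∀ Q ∈ A.powersetCard r, F Q ≤ Fm)
    (e : Finset α → α → Finset α → ℝ)
    (he : ∀ Q ∈ A.powersetCard r, ∀ q ∈ A \ Q, ∀ K ⊆ Q, K.card < r →
      e Q q K ≤ ∑ s ∈ I, (φ s K - φ s (insert q K))) :
    ∑ Q ∈ A.powersetCard r, F Q * ((∑ q ∈ A \ Q, subAvg Q r (e Q q)) / ((A.card : ℝ) - r))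
      ≤ Fm * (A.card.choose r) * ((I.card : ℝ) / r * (hi - lo)) := by
  have hA' : (0 : ℝ) < (A.card : ℝ) - r := by
    have : (r : ℝ) < A.card := by exact_mod_cast hA
    linarith
  obtain ⟨Q0, hQ0⟩ := (powersetCard_nonempty (n := r) (s := A)).2 hA.le
  have hFm : 0 ≤ Fm := (hF0 Q0 hQ0).trans (hF Q0 hQ0)
  have h1 : ∀ Q ∈ A.powersetCard r,
      F Q * ((∑ q ∈ A \ Q, subAvg Q r (e Q q)) / ((A.card : ℝ) - r))
      ≤ Fm / ((A.card : ℝ) - r) * ∑ s ∈ I, ∑ q ∈ A \ Q,
        subAvg Q r (fun K => φ s K - φ s (insert q K)) := by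
    intro Q hQ
    have h2 : ∑ q ∈ A \ Q, subAvg Q r (e Q q) ≤ ∑ s ∈ I, ∑ q ∈ A \ Q,
        subAvg Q r (fun K => φ s K - φ s (insert q K)) := by
      rw [sum_comm (s := I)]
      refine sum_le_sum fun q hq => ?_
      rw [← subAvg_sum]
      exact subAvg_mono (he Q hQ q hq)
    have h3 : 0 ≤ ∑ s ∈ I, ∑ q ∈ A \ Q, subAvg Q r (fun K => φ s K - φ s (insert q K)) := by
      refine sum_nonneg fun s hs => sum_nonneg fun q hq => subAvg_nonneg fun K hK _ => ?_
      exact sub_nonneg.2 (hmono s hs _ (hK.trans (mem_powersetCard.1 hQ).1) q (mem_sdiff.1 hq).1)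
    calc F Q * ((∑ q ∈ A \ Q, subAvg Q r (e Q q)) / ((A.card : ℝ) - r))
        ≤ F Q * ((∑ s ∈ I, ∑ q ∈ A \ Q,
          subAvg Q r (fun K => φ s K - φ s (insert q K))) / ((A.card : ℝ) - r)) :=
          mul_le_mul_of_nonneg_left (div_le_div_of_nonneg_right h2 hA'.le) (hF0 Q hQ)
      _ ≤ Fm * ((∑ s ∈ I, ∑ q ∈ A \ Q,
          subAvg Q r (fun K => φ s K - φ s (insert q K))) / ((A.card : ℝ) - r)) :=
          mul_le_mul_of_nonneg_right (hF Q hQ) (div_nonneg h3 hA'.le)
      _ = _ := by ring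
  refine (sum_le_sum h1).trans ?_
  rw [← mul_sum, sum_comm]
  have h4 : ∀ s ∈ I, ∑ Q ∈ A.powersetCard r, ∑ q ∈ A \ Q,
        subAvg Q r (fun K => φ s K - φ s (insert q K))
        ≤ ((A.card : ℝ) - r) / r * ((A.card.choose r) * (hi - lo)) := by
    intro s hs
    rw [unlock_set_eq]
    refine mul_le_mul_of_nonneg_left ?_ (div_nonneg hA'.le (Nat.cast_nonneg _))
    rw [← card_powersetCard, ← nsmul_eq_mul]
    refine sum_le_card_nsmul _ _ _ fun Q hQ => ?_
    have := hlo s hs _ (mem_powersetCard.1 hQ).1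
    have := hhi s hs
    linarith
  calc _ ≤ Fm / ((A.card : ℝ) - r) *
        ∑ _s ∈ I, ((A.card : ℝ) - r) / r * ((A.card.choose r) * (hi - lo)) :=
        mul_le_mul_of_nonneg_left (sum_le_sum h4) (div_nonneg hFm hA'.le)
    _ = _ := by
        rw [sum_const, nsmul_eq_mul]
        field_simp

/-- PIN for the law: uniform size below `m0`, then uniform subset. -/
theorem pin_subAvg (R T : Finset α) (hT : T ⊆ R) {m0 : ℕ} (hm0 : 0 < m0) (hm : m0 ≤ R.card)
    (h : Finset α → ℝ) (h' : Finset α → α → ℝ) (hmax : ℝ)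
    (h0 : ∀ Φ ⊆ R, 0 ≤ h Φ) (h1 : h ∅ ≤ hmax)
    (hanti : ∀ Φ ⊆ R, ∀ q ∈ R, h (insert q Φ) ≤ h Φ)
    (hh' : ∀ Φ ⊆ R, ∀ q ∈ T, h (insert q Φ) ≤ h' Φ q) :
    subAvg R m0 (fun Φ => ∑ q ∈ T, (h Φ - h' Φ q)) ≤ R.card * hmax / m0 := by
  rw [subAvg_eq_tup (n := m0) (Nat.le_succ _) hm]
  exact pin_avg R T hT hm0 le_rfl hm h h' hmax h0 h1 hanti hh'

end sets

section iid

variable {ρ α : Type} [Fintype ρ] [DecidableEq α]

/-- the external: `m0` independent uniform points of `ρ` and a uniform length below `m0` -/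
abbrev Xt (ρ : Type) (m0 : ℕ) : Type := (Fin m0 → ρ) × Fin m0

/-- the random set: the images of the points before the length -/
def Xt.phi {m0 : ℕ} (v : ρ → α) (e : Xt ρ m0) : Finset α := pre (fun i => v (e.1 i)) e.2

omit [Fintype ρ] in
theorem Xt.mem_phi {m0 : ℕ} {v : ρ → α} {e : Xt ρ m0} {a : α} :
    a ∈ Xt.phi v e ↔ ∃ i : Fin m0, i < e.2 ∧ v (e.1 i) = a := mem_pre

omit [Fintype ρ] in
theorem pre_update {n : ℕ} (v : ρ → α) (σ : Fin n → ρ) (m : Fin n) (q : ρ) :
    pre (fun i => v (Function.update σ m q i)) m = pre (fun i => v (σ i)) m := by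
  unfold pre
  apply image_congr
  intro i hi
  have hi' : (i : ℕ) < m := by simpa using hi
  have : i ≠ m := by rintro rfl; exact lt_irrefl _ hi'
  simp [Function.update_of_ne this]

/-- Resampling: a fresh uniform point may be replaced by the next point of the sequence. -/
theorem ex_fresh [Nonempty ρ] {n : ℕ} (v : ρ → α) (m : Fin n) (g : Finset α → ρ → ℝ) :
    ex (fun σ : Fin n → ρ => ∑ q, g (pre (fun i => v (σ i)) m) q)
      = Fintype.card ρ * ex (fun σ : Fin n → ρ => g (pre (fun i => v (σ i)) m) (σ m)) := by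
  have hc : (0 : ℝ) < Fintype.card ρ := card_pos'
  have := ex_update (α := fun _ : Fin n => ρ) m
    (fun σ : Fin n → ρ => g (pre (fun i => v (σ i)) m) (σ m))
  rw [← this, ← ex_mul]
  refine ex_congr fun σ => ?_
  simp only [pre_update, Function.update_self]
  unfold ex
  field_simp

/-- PIN for independent uniform points: `h Φ = H(l | D(Φ))`, `h' Φ q = H(l | D'(Φ,q))`. -/
theorem pin_ext [Nonempty ρ] {m0 : ℕ} (v : ρ → α) (h : Finset α → ℝ) (h' : Finset α → ρ → ℝ)
    (hmax : ℝ) (h0 : ∀ Φ, 0 ≤ h Φ) (h1 : h ∅ ≤ hmax)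
    (hh' : ∀ Φ q, h (insert (v q) Φ) ≤ h' Φ q) :
    ex (fun e : Xt ρ m0 => ∑ q, (h (e.phi v) - h' (e.phi v) q))
      ≤ Fintype.card ρ * hmax / m0 := by
  have hc : (0 : ℝ) < Fintype.card ρ := card_pos'
  calc ex (fun e : Xt ρ m0 => ∑ q, (h (e.phi v) - h' (e.phi v) q))
      ≤ ex (fun e : Xt ρ m0 => ∑ q, (h (e.phi v) - h (insert (v q) (e.phi v)))) :=
        ex_mono fun e => sum_le_sum fun q _ => sub_le_sub_left (hh' _ q) _
    _ = ex (fun m : Fin m0 => Fintype.card ρ * ex (fun σ : Fin m0 → ρ =>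
          h (pre (fun i => v (σ i)) m) - h (pre (fun i => v (σ i)) (m + 1)))) := by
        rw [ex_prod, ex_comm]
        refine ex_congr fun m => ?_
        have := ex_fresh v m (fun Φ q => h Φ - h (insert (v q) Φ))
        refine this.trans ?_
        congr 1
        refine ex_congr fun σ => ?_
        rw [pre_succ _ m.2]
    _ = Fintype.card ρ * ex (fun σ : Fin m0 → ρ => ex (fun m : Fin m0 =>
          h (pre (fun i => v (σ i)) m) - h (pre (fun i => v (σ i)) (m + 1)))) := by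
        rw [ex_mul, ex_comm]
    _ ≤ _ := by
        rw [mul_div_assoc]
        refine mul_le_mul_of_nonneg_left ?_ hc.le
        have hm : 0 ≤ hmax := (h0 _).trans h1
        refine ex_le (div_nonneg hm (Nat.cast_nonneg _)) fun σ => ?_
        unfold ex
        rw [Fintype.card_fin, Fin.sum_univ_eq_sum_range (fun m =>
          h (pre (fun i => v (σ i)) m) - h (pre (fun i => v (σ i)) (m + 1))) m0,
          sum_range_sub' (fun k => h (pre (fun i => v (σ i)) k)) m0, pre_zero]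
        refine div_le_div_of_nonneg_right ?_ (Nat.cast_nonneg _)
        have := h0 (pre (fun i => v (σ i)) m0)
        linarith

/-- PIN with the sum over a subset of the points, for an antitone `h`. -/
theorem pin_ext_sub [Nonempty ρ] {m0 : ℕ} (v : ρ → α) (T : Finset ρ) (h : Finset α → ℝ)
    (h' : Finset α → ρ → ℝ) (hmax : ℝ) (h0 : ∀ Φ, 0 ≤ h Φ) (h1 : h ∅ ≤ hmax)
    (hanti : ∀ Φ q, h (insert (v q) Φ) ≤ h Φ)
    (hh' : ∀ Φ, ∀ q ∈ T, h (insert (v q) Φ) ≤ h' Φ q) :
    ex (fun e : Xt ρ m0 => ∑ q ∈ T, (h (e.phi v) - h' (e.phi v) q))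
      ≤ Fintype.card ρ * hmax / m0 := by
  refine le_trans (ex_mono fun e => ?_)
    (pin_ext v h (fun Φ q => h (insert (v q) Φ)) hmax h0 h1 fun _ _ => le_rfl)
  calc ∑ q ∈ T, (h (e.phi v) - h' (e.phi v) q)
      ≤ ∑ q ∈ T, (h (e.phi v) - h (insert (v q) (e.phi v))) :=
        sum_le_sum fun q hq => sub_le_sub_left (hh' _ q hq) _
    _ ≤ _ := sum_le_sum_of_subset_of_nonneg (subset_univ T) fun q _ _ => sub_nonneg.2 (hanti _ q)

/-- The random set meets `B` with probability at most `|B| m0 / |ρ|`. -/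
theorem meet_ext [Nonempty ρ] {m0 : ℕ} {v : ρ → α} (hv : Function.Injective v) (B : Finset α) :
    ex (fun e : Xt ρ m0 => ind ((B ∩ e.phi v).Nonempty)) ≤ B.card * m0 / Fintype.card ρ := by
  have hc : (0 : ℝ) < Fintype.card ρ := card_pos'
  have h1 : ex (fun q : ρ => ind (v q ∈ B)) ≤ B.card / Fintype.card ρ := by
    unfold ex
    refine div_le_div_of_nonneg_right ?_ hc.le
    simp only [ind_eq]
    rw [← sum_filter, sum_const, nsmul_eq_mul, mul_one]
    have : (univ.filter fun q : ρ => v q ∈ B).card ≤ B.card :=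
      card_le_card_of_injOn v (fun q hq => by simpa using hq) hv.injOn
    exact_mod_cast this
  calc ex (fun e : Xt ρ m0 => ind ((B ∩ e.phi v).Nonempty))
      ≤ ex (fun e : Xt ρ m0 => ∑ i, ind (v (e.1 i) ∈ B)) := by
        refine ex_mono fun e => ?_
        by_cases h : (B ∩ e.phi v).Nonempty
        · rw [ind_pos h]
          obtain ⟨a, ha⟩ := h
          obtain ⟨h2, h3⟩ := mem_inter.1 ha
          obtain ⟨i, -, rfl⟩ := Xt.mem_phi.1 h3
          calc (1 : ℝ) = ind (v (e.1 i) ∈ B) := (ind_pos h2).symm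
            _ ≤ _ := single_le_sum (f := fun i => ind (v (e.1 i) ∈ B))
                (fun _ _ => ind_nonneg _) (mem_univ i)
        · rw [ind_neg h]
          exact sum_nonneg fun _ _ => ind_nonneg _
    _ ≤ _ := by
        rw [ex_prod, ex_comm]
        refine ex_le (by positivity) fun m => ?_
        rw [ex_sum]
        have : ∀ i ∈ (univ : Finset (Fin m0)), ex (fun σ : Fin m0 → ρ => ind (v (σ i) ∈ B))
            ≤ B.card / Fintype.card ρ := by
          intro i _
          rw [ex_coord (α := fun _ : Fin m0 => ρ) i (fun q => ind (v q ∈ B))]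
          exact h1
        refine (sum_le_card_nsmul _ _ _ this).trans (le_of_eq ?_)
        rw [card_univ, Fintype.card_fin, nsmul_eq_mul]
        ring

end iid

/-- Independence: the mean of a product of functions of different coordinates. -/
theorem ex_dep_prod {ι : Type} [Fintype ι] [DecidableEq ι] {E : ι → Type} [∀ i, Fintype (E i)]
    (g : ∀ i, E i → ℝ) : ex (fun e : ∀ i, E i => ∏ i, g i (e i)) = ∏ i, ex (g i) := by
  unfold ex
  rw [prod_div_distrib, Fintype.prod_sum, Fintype.card_pi]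
  push_cast
  rfl

/-- Independence on a subset of the coordinates. -/
theorem ex_dep_prod_sub {ι : Type} [Fintype ι] [DecidableEq ι] {E : ι → Type}
    [∀ i, Fintype (E i)] [∀ i, Nonempty (E i)] (S : Finset ι) (g : ∀ i, E i → ℝ) :
    ex (fun e : ∀ i, E i => ∏ i ∈ S, g i (e i)) = ∏ i ∈ S, ex (g i) := by
  have := ex_dep_prod (E := E) (fun i x => if i ∈ S then g i x else 1)
  simp only [Fintype.prod_ite_mem] at this
  rw [this, ← Fintype.prod_ite_mem S (fun i => ex (g i))]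
  refine prod_congr rfl fun i _ => ?_
  split_ifs
  · rfl
  · exact ex_const 1

/-- PATH: all the random sets with index in `S` meet `B`. -/
theorem path_ext {ι : Type} [Fintype ι] [DecidableEq ι] {α : Type} [DecidableEq α]
    {ρ : ι → Type} [∀ i, Fintype (ρ i)] [∀ i, Nonempty (ρ i)] (m0 : ι → ℕ) [∀ i, NeZero (m0 i)]
    {v : ∀ i, ρ i → α} (hv : ∀ i, Function.Injective (v i)) (S : Finset ι) (B : ι → Finset α) :
    ex (fun e : ∀ i, Xt (ρ i) (m0 i) => ind (∀ i ∈ S, (B i ∩ (e i).phi (v i)).Nonempty))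
      ≤ ∏ i ∈ S, ((B i).card * m0 i / Fintype.card (ρ i) : ℝ) := by
  have e1 : ∀ e : ∀ i, Xt (ρ i) (m0 i), ind (∀ i ∈ S, (B i ∩ (e i).phi (v i)).Nonempty)
      = ∏ i ∈ S, ind ((B i ∩ (e i).phi (v i)).Nonempty) := by
    intro e
    by_cases h : ∀ i ∈ S, (B i ∩ (e i).phi (v i)).Nonempty
    · rw [ind_pos h, prod_congr rfl fun i hi => ind_pos (h i hi), prod_const_one]
    · rw [ind_neg h]
      push Not at h
      obtain ⟨i, hi, h⟩ := h
      exact (prod_eq_zero hi (ind_neg (by rw [h]; exact not_nonempty_empty))).symm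
  rw [ex_congr e1, ex_dep_prod_sub S (fun i (x : Xt (ρ i) (m0 i)) =>
    ind ((B i ∩ x.phi (v i)).Nonempty))]
  exact prod_le_prod (fun i _ => ex_nonneg fun _ => ind_nonneg _) fun i _ => meet_ext (hv i) _

end Pool.Agent.P.MP_a14ce1_nt.Fu
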