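import Pool.Agent.P.MP_a14ce1_nt.Fu.FsX
import Pool.Agent.P.MP_a14ce1_nt.Nil.Pl.FsI
import Pool.Agent.P.MP_a14ce1_nt.Nil.Pl.ExtI
import Pool.Agent.P.MP_a14ce1_nt.Nil.Pl.Basic
import Pool.Agent.P.MP_a14ce1_nt.Nil.EL4

/-!
Fair sampling and extension for weights that are constant on the cells of a grid, for primes and
for products of few primes.
-/

open Finset

namespace Pool.Agent.P.MP_a14ce1_nt.Fu

open Ch (rs)
open Nil.ES
open Pl (GX)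
open Ax (At PW hull sv pc)
open Pl.FsI

/-- the weight is constant on the cells of the grid R and has mass at most m -/
def Cells (μ : Wt ℕ) (R : ℕ) (m : ℝ) : Prop := ∃ (J : Finset ℕ) (ω : ℕ → ℝ),
  (∀ j, 0 ≤ ω j) ∧ ∑ j ∈ J, ω j * R ≤ m ∧ ∀ (c : ℕ) (φ ψ : ℕ → ℂ),
    br μ c φ ψ = ∑ j ∈ J, ω j * (sv c (j * R) ((j + 1) * R) (pc φ ψ)).re

theorem rec1_eq (P : Finset ℕ) (h : 0 < rs P) : rec1 P h = Pl.prOf P h := rfl

theorem Cells.nonneg {μ : Wt ℕ} {R : ℕ} {m : ℝ} (h : Cells μ R m) : 0 ≤ m := by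
  obtain ⟨J, ω, h0, h1, -⟩ := h
  exact (sum_nonneg fun j _ => mul_nonneg (h0 j) (Nat.cast_nonneg R)).trans h1

theorem Cells.mass_le {μ : Wt ℕ} {R c : ℕ} {m : ℝ} (h : Cells μ R m) (hc : 0 < c) (hR : c ≤ R) :
    mass μ c ≤ 2 * m := by
  obtain ⟨J, ω, h0, h1, h2⟩ := h
  have e : mass μ c = br μ c 1 1 := by simp [br_eq, mass, mul_sum]
  rw [e, h2]
  refine le_trans ?_ (mul_le_mul_of_nonneg_left h1 zero_le_two)
  rw [mul_sum]
  refine sum_le_sum fun j _ => ?_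
  rw [mul_left_comm, sv, Nil.EL.sum_level hc]
  refine mul_le_mul_of_nonneg_left ?_ (h0 j)
  have a1 := (ceilDiv_le_iff_le_mul (b := j * R) hc).mp le_rfl
  have a2 : (j + 1) * R ⌈/⌉ c ≤ j * R ⌈/⌉ c + (R / c + 1) := by
    rw [ceilDiv_le_iff_le_mul hc, mul_add c, add_mul, one_mul]
    exact add_le_add a1 (Nat.lt_mul_div_succ R hc).le
  have a3 : c * ((j + 1) * R ⌈/⌉ c - j * R ⌈/⌉ c) ≤ 2 * R := by
    refine (Nat.mul_le_mul_left c (Nat.sub_le_iff_le_add'.mpr a2)).trans ?_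
    have := Nat.mul_div_le R c
    rw [mul_add]; omega
  simp only [pc, Pi.one_apply, map_one, mul_one, sum_const, Nat.card_Ico, nsmul_eq_mul]
  exact_mod_cast a3

/-- fair sampling and extension by primes -/
theorem fsExt_cells {A : Set (ℕ → ℂ)} (hA : Ax.Sys A) : ∃ C : ℕ, 1 ≤ C ∧ ∀ Q : ℝ, 2 ≤ Q →
    ∀ (γ : Pr) (μ : Wt ℕ) (R c : ℕ) (m : ℝ), PW Q C γ.s γ.w → Cells μ R m → 0 < R → 0 < c →
    ((∀ p ∈ γ.s, ((c * p : ℕ) : ℝ) * Q ^ C ≤ R) → FsN μ (GX (hull A) R) c γ (m / Q)) ∧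
    ∀ γ' : Pr, PW Q C γ'.s γ'.w → Disjoint γ.s γ'.s →
      (∀ p ∈ γ.s, ∀ v ∈ γ'.s, ((c * p * v ^ C : ℕ) : ℝ) * Q ^ C ≤ R) →
      ExtN μ (GX (hull A) R) c γ γ' (m / Q) := by
  obtain ⟨C1, h1⟩ := Pl.fsI A hA.atm hA.fs
  obtain ⟨C2, h2⟩ := Pl.extI A hA.atm hA.ext
  refine ⟨C1 + C2 + 1, by omega, fun Q hQ γ μ R c m hP ⟨J, ω, hω, hs, hbr⟩ hR hc => ?_⟩
  simp only [add_one_mul] at hbr
  have hQ1 : 1 ≤ Q := by linarith
  have hs' : ∑ j ∈ J, ω j * (R / Q) ≤ m / Q := by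
    simp only [← mul_div_assoc, ← sum_div]
    exact div_le_div_of_nonneg_right hs (by linarith)
  refine ⟨fun hR φ hφ ψ hψ => ?_, fun γ' hP' hd hR' χ ψ hχ hψ => ?_⟩
  · simp only [hbr]
    rw [E_sum, ← sum_sub_distrib]
    refine (abs_sum_le_sum_abs _ _).trans (le_trans (sum_le_sum fun j _ => ?_) hs')
    rw [← mul_sub, abs_mul, abs_of_nonneg (hω j)]
    refine mul_le_mul_of_nonneg_left ?_ (hω j)
    obtain ⟨u, hu, hu'⟩ := hφ j
    obtain ⟨v, hv, hv'⟩ := hψ j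
    have e : ∀ d, sv d (j * R) (j * R + R) (pc φ ψ) = sv d (j * R) (j * R + R) (pc u v) :=
      fun d => sv_congr fun n hn => by rw [pc, pc, hu' n (mem_win.1 hn), hv' n (mem_win.1 hn)]
    simp only [e]
    exact h1 Q hQ γ (j * R) R c (pw_mono hQ (by omega) hP) hc (fun p hp => le_trans
      (mul_le_mul_of_nonneg_left (pow_le_pow_right₀ hQ1 (by omega)) (Nat.cast_nonneg _))
      (hR p hp)) u hu v hv
  · choose χ' hχ' eχ using hχ
    choose ψ' hψ' eψ using hψ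
    have h3 := fun j => h2 Q hQ γ γ' (j * R) R c (pw_mono hQ (by omega) hP)
      (pw_mono hQ (by omega) hP') hd hc (fun p hp v hv => le_trans (mul_le_mul
        (Nat.cast_le.2 (Nat.mul_le_mul_left _
          (Nat.pow_le_pow_right (hP'.pr v hv).pos (by omega))))
        (pow_le_pow_right₀ hQ1 (by omega)) (by positivity) (Nat.cast_nonneg _)) (hR' p hp v hv))
      (fun p => χ' p j) (fun v => ψ' v j) (fun p => hχ' p j) fun v => hψ' v j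
    choose U hU hU' using h3
    have eU : ∀ j, ∀ n ∈ IV.cell R j, U (n / R) n = U j n := fun j n hn => by
      rw [IV.mem_cell_floor (by exact_mod_cast hR), Nat.floor_div_eq_div] at hn
      rw [hn]
    refine ⟨fun n => U (n / R) n, fun j => ⟨U j, hU j, eU j⟩, ?_⟩
    simp only [hbr, E_sum]
    refine le_trans ?_ (add_le_add le_rfl hs')
    rw [← sum_add_distrib]
    refine sum_le_sum fun j _ => ?_
    rw [← mul_add]
    refine mul_le_mul_of_nonneg_left ?_ (hω j)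
    have e1 : ∀ d v p, sv d (j * R) (j * R + R) (pc (ψ v) (χ p)) =
        sv d (j * R) (j * R + R) (pc (ψ' v j) (χ' p j)) := fun d v p =>
      sv_congr fun n hn => by rw [pc, pc, eχ p j n (mem_win.1 hn), eψ v j n (mem_win.1 hn)]
    have e2 : ∀ d v, sv d (j * R) (j * R + R) (pc (ψ v) fun n => U (n / R) n) =
        sv d (j * R) (j * R + R) (pc (ψ' v j) (U j)) := fun d v =>
      sv_congr fun n hn => by rw [pc, pc, eU j n (mem_win.1 hn), eψ v j n (mem_win.1 hn)]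
    simp only [e1, e2]
    exact hU' j

theorem pw_rec1 {Q : ℝ} {C Z : ℕ} {W : Finset ℕ} (hW : 0 < rs W) (h1 : 1 ≤ Q * rs W)
    (hp : ∀ p ∈ W, p.Prime ∧ Q ^ C ≤ p ∧ p ≤ Z) (hZ : Real.log Z ≤ Q) :
    PW Q C (rec1 W hW).s (rec1 W hW).w := by
  refine ⟨fun p h => (hp p h).1, fun p _ => (rec1 W hW).nn p, (rec1 W hW).one, fun p h => ?_,
    fun p h => (hp p h).2.1, fun p h => le_trans ?_ hZ⟩
  · have : (0 : ℝ) < p := by exact_mod_cast (hp p h).1.pos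
    change 1 / (p * rs W) * p ≤ Q
    rw [show 1 / (p * rs W) * p = 1 / rs W by field_simp, div_le_iff₀ hW]
    exact h1
  · exact Real.log_le_log (by exact_mod_cast (hp p h).1.pos) (by exact_mod_cast (hp p h).2.2)

/-- FS* and EXT* on a grid -/
theorem fsExtX {A : Set (ℕ → ℂ)} (hA : Ax.Sys A) (hH : IV.Hull (hull A)) : ∃ C : ℕ, 1 ≤ C ∧
    ∀ Q : ℝ, 2 ≤ Q → ∀ (μ : Wt ℕ) (R c Z J : ℕ) (m K : ℝ) (V : Finset ℕ) (γ' : Pr),
    Cells μ R m → 0 < c → 1 ≤ Z → (∀ p ∈ V, p.Prime ∧ Q ^ C ≤ p ∧ p ≤ Z) → Real.log Z ≤ Q →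
    γ'.s ⊆ prods V J → (∀ v ∈ γ'.s, γ'.w v * v ≤ K) →
    (((c * Z ^ (J + 1) : ℕ) : ℝ) * Q ^ C ≤ R →
      FsN μ (GX (hull A) R) c γ' (K * (J * (1 + rs V) ^ J * ((rs V + 8) * (m / Q))))) ∧
    ∀ (γ : Pr) (s : ℝ), PW Q C γ.s γ.w → Disjoint γ.s V → 1 ≤ Q * rs V → 0 < s → 0 < m →
      (∀ q ∈ γ.s, ((c * q * Z ^ (J + C) : ℕ) : ℝ) * Q ^ C ≤ R) →
      ExtN μ (GX (hull A) R) c γ γ' (4 * (m / Q) + s * (2 * m) +
        K * (J * (1 + 2 * rs V) ^ J * (16 * rs V * (m / Q))) / s) := by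
  obtain ⟨C, hC, h⟩ := fsExt_cells hA
  refine ⟨C, hC, fun Q hQ μ R c Z J m K V γ' hμ hc hZ hV hlog hs hK => ?_⟩
  have hQ0 : 0 < Q := by linarith
  have q1 : 1 ≤ Q ^ C := one_le_pow₀ (by linarith)
  have m0 := hμ.nonneg
  have pos : ∀ p ∈ V, 0 < p := fun p hp => (hV p hp).1.pos
  have bd : ∀ v ∈ prods V J, 0 < v ∧ v ≤ Z ^ J := fun v hv =>
    prods_bd hZ (fun p hp => ⟨pos p hp, (hV p hp).2.2⟩) hv
  have le : ∀ {a b : ℕ}, a ≤ b → (b : ℝ) * Q ^ C ≤ R → (a : ℝ) * Q ^ C ≤ R := fun hab hb =>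
    le_trans (mul_le_mul_of_nonneg_right (Nat.cast_le.2 hab) (by positivity)) hb
  have leR : ∀ {a : ℕ}, (a : ℝ) * Q ^ C ≤ R → a ≤ R := fun ha => by
    exact_mod_cast (le_mul_of_one_le_right (Nat.cast_nonneg _) q1).trans ha
  have fs : ∀ {d : ℕ}, 0 < d → ((d * Z : ℕ) : ℝ) * Q ^ C ≤ R → ∀ W ⊆ V, ∀ hW : 0 < rs W,
      1 ≤ Q * rs W → FsN μ (GX (hull A) R) d (rec1 W hW) (m / Q) := fun hd hR W hW hW0 h1 =>
    (h Q hQ _ μ R _ m (pw_rec1 hW0 h1 (fun p hp => hV p (hW hp)) hlog) hμ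
      ((Nat.mul_pos hd hZ).trans_le (leR hR)) hd).1 fun p hp =>
        le (Nat.mul_le_mul_left _ (hV p (hW hp)).2.2) hR
  refine ⟨fun hR => ?_, fun γ s hP hd h1 hs0 hm hR => ?_⟩
  · have hR0 : 0 < R := (by positivity : 0 < c * Z ^ (J + 1)).trans_le (leR hR)
    have sz : ∀ v ∈ prods V J, ((c * v * Z : ℕ) : ℝ) * Q ^ C ≤ R := fun v hv =>
      le (by rw [pow_succ, ← mul_assoc]; gcongr; exact (bd v hv).2) hR
    have := fsX (Y := sysOf μ (Pl.basic.1 _ hH R hR0)) (m := 2 * m) hQ0 (by positivity) pos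
      (fun v hv => fs (Nat.mul_pos hc (bd v hv).1) (sz v hv))
      (fun v hv => hμ.mass_le (Nat.mul_pos hc (bd v hv).1)
        ((Nat.le_mul_of_pos_right _ hZ).trans (leR (sz v hv)))) hs hK
    rwa [show rs V * (m / Q) + 4 * (2 * m) / Q = (rs V + 8) * (m / Q) by ring] at this
  · have hr : 0 < rs V := pos_of_mul_pos_right (one_pos.trans_le h1) hQ0.le
    obtain ⟨q0, hq0⟩ := nonempty_of_sum_ne_zero (γ.one ▸ one_ne_zero : ∑ p ∈ γ.s, γ.w p ≠ 0)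
    have qp : ∀ q ∈ γ.s, 0 < q := fun q hq => (hP.pr q hq).pos
    have hR0 : 0 < R :=
      (Nat.mul_pos (Nat.mul_pos hc (qp _ hq0)) (Nat.pow_pos hZ)).trans_le (leR (hR _ hq0))
    have sz : ∀ v ∈ prods V J, ∀ q ∈ γ.s, ((c * v * q * Z ^ C : ℕ) : ℝ) * Q ^ C ≤ R :=
      fun v hv q hq => le (by
        rw [pow_add, ← mul_assoc, mul_right_comm c v]
        gcongr
        exact (bd v hv).2) (hR q hq)
    have zc : Z ≤ Z ^ C := Nat.le_self_pow (by omega) Z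
    have sz1 : ∀ v ∈ prods V J, ((c * v * Z : ℕ) : ℝ) * Q ^ C ≤ R := fun v hv =>
      le (Nat.mul_le_mul (Nat.le_mul_of_pos_right _ (qp _ hq0)) zc) (sz v hv _ hq0)
    exact extX (Y := sysOf μ (Pl.basic.1 _ hH R hR0)) pos hr (by positivity) hs0
      (fun v hv => fs (Nat.mul_pos hc (bd v hv).1) (sz1 v hv) V Subset.rfl hr h1)
      (fun v hv q hq => fs (Nat.mul_pos (Nat.mul_pos hc (bd v hv).1) (qp q hq))
        (le (Nat.mul_le_mul_left _ zc) (sz v hv q hq)) V Subset.rfl hr h1)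
      (fun v hv => (h Q hQ γ μ R _ m hP hμ hR0 (Nat.mul_pos hc (bd v hv).1)).2 _
        (pw_rec1 hr h1 hV hlog) hd fun q hq p hp =>
          le (Nat.mul_le_mul_left _ (Nat.pow_le_pow_left (hV p hp).2.2 C)) (sz v hv q hq))
      (fun v hv => hμ.mass_le (Nat.mul_pos hc (bd v hv).1)
        ((Nat.le_mul_of_pos_right _ hZ).trans (leR (sz1 v hv)))) hs hK

end Pool.Agent.P.MP_a14ce1_nt.Fu
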