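import Pool.Agent.P.MP_a14ce1_nt.Fu.Stage
import Pool.Agent.P.MP_a14ce1_nt.Fu.SH

/-!
Fibres of a map `r` on a finite uniform space: transfer of means, conditional means, predictors,
energies and entropies to the fibres; the information given by r and the data on a set depending on r.
-/

open Finset

namespace Pool.Agent.P.MP_a14ce1_nt.Fu

variable {Ω : Type} [Fintype Ω] {R : Type} [DecidableEq R]

/-- the fibre of `r` over `c` -/
abbrev Fb (r : Ω → R) (c : R) : Type := {x : Ω // r x = c}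

/-- restriction of an information to a fibre -/
def rst (D : Setoid Ω) (r : Ω → R) (c : R) : Setoid (Fb r c) := D.comap Subtype.val

omit [Fintype Ω] [DecidableEq R] in
theorem rst_iff {D : Setoid Ω} {r : Ω → R} {c : R} {x y : Fb r c} :
    rst D r c x y ↔ D x.1 y.1 := Iff.rfl

omit [Fintype Ω] [DecidableEq R] in
theorem rst_mono {D D' : Setoid Ω} (h : D' ≤ D) (r : Ω → R) (c : R) : rst D' r c ≤ rst D r c :=
  fun _ _ hxy => h hxy

omit [Fintype Ω] [DecidableEq R] in
theorem rst_inf (D L : Setoid Ω) (r : Ω → R) (c : R) :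
    rst (D ⊓ L) r c = rst D r c ⊓ rst L r c := by
  ext x y
  exact Setoid.inf_iff_and.trans (Setoid.inf_iff_and (r := rst D r c) (s := rst L r c)).symm

omit [Fintype Ω] [DecidableEq R] in
theorem Ms.rst {β : Type*} {D : Setoid Ω} {u : Ω → β} (hu : Ms D u) (r : Ω → R) (c : R) :
    Ms (rst D r c) fun x => u x.1 := fun _ _ h => hu _ _ h

omit [Fintype Ω] [DecidableEq R] in
/-- a function is known from `D ≤ ker r` as soon as it is known on every fibre -/
theorem ms_of_rst {β : Type*} {D : Setoid Ω} {r : Ω → R} (hD : D ≤ Setoid.ker r) {u : Ω → β}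
    (hu : ∀ c, Ms (rst D r c) fun x => u x.1) : Ms D u := fun x y h =>
  hu (r x) ⟨x, rfl⟩ ⟨y, (hD h).symm⟩ h

theorem cls_rst {D : Setoid Ω} {r : Ω → R} (hD : D ≤ Setoid.ker r) {c : R} (x : Fb r c) :
    (cls (rst D r c) x).map (Function.Embedding.subtype _) = cls D x.1 := by
  ext y
  simp only [mem_map, mem_cls, Function.Embedding.coe_subtype, rst_iff]
  constructor
  · rintro ⟨z, hz, rfl⟩; exact hz
  · intro h; exact ⟨⟨y, (hD h).symm.trans x.2⟩, h, rfl⟩

theorem card_cls_rst {D : Setoid Ω} {r : Ω → R} (hD : D ≤ Setoid.ker r) {c : R} (x : Fb r c) :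
    (cls (rst D r c) x).card = (cls D x.1).card := by
  rw [← cls_rst hD x, card_map]

/-- conditional means are computed on the fibre -/
theorem ce_rst {D : Setoid Ω} {r : Ω → R} (hD : D ≤ Setoid.ker r) (g : Ω → ℝ) {c : R}
    (x : Fb r c) : ce D g x.1 = ce (rst D r c) (fun y => g y.1) x := by
  rw [ce, ce, card_cls_rst hD, ← cls_rst hD x, sum_map]
  rfl

theorem yr_rst {D : Setoid Ω} {r : Ω → R} (hD : D ≤ Setoid.ker r) (ζ X : Ω → ℝ) {c : R}
    (x : Fb r c) : yr D ζ X x.1 = yr (rst D r c) (fun y => ζ y.1) (fun y => X y.1) x := by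
  rw [yr, yr, ce_rst hD, ce_rst hD]

theorem ce_ker (r : Ω → R) (g : Ω → ℝ) (x : Ω) :
    ce (Setoid.ker r) g x = ex fun y : Fb r (r x) => g y.1 := by
  rw [ce_rst le_rfl g (⟨x, rfl⟩ : Fb r (r x)), ce, ex]
  have : cls (rst (Setoid.ker r) r (r x)) ⟨x, rfl⟩ = univ :=
    eq_univ_of_forall fun y => mem_cls.2 y.2.symm
  rw [this, card_univ]

/-- the mean is the mean of the means on the fibres -/
theorem ex_fib (r : Ω → R) (g : Ω → ℝ) :
    ex g = ex fun x => ex fun y : Fb r (r x) => g y.1 := by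
  rw [← ex_ce (Setoid.ker r) g]
  exact ex_congr (ce_ker r g)

/-- the same with an integrand depending on the fibre -/
theorem ex_fib' (r : Ω → R) (g : R → Ω → ℝ) :
    ex (fun x => g (r x) x) = ex fun x => ex fun y : Fb r (r x) => g (r x) y.1 := by
  rw [ex_fib r]
  exact ex_congr fun x => ex_congr fun y => by rw [y.2]

/-- a bound on every nonempty fibre gives a bound on the mean -/
theorem ex_le_of_fib (r : Ω → R) (g : Ω → ℝ) (h : R → ℝ)
    (hg : ∀ x, ex (fun y : Fb r (r x) => g y.1) ≤ h (r x)) : ex g ≤ ex fun x => h (r x) := by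
  rw [ex_fib r g]; exact ex_mono hg

theorem abs_ex_le_of_fib (r : Ω → R) (g : Ω → ℝ) (h : R → ℝ)
    (hg : ∀ x, |ex fun y : Fb r (r x) => g y.1| ≤ h (r x)) : |ex g| ≤ ex fun x => h (r x) := by
  rw [ex_fib r g]; exact (abs_ex_le _).trans (ex_mono hg)

/-- when `r` is uniformly distributed the fibres are averaged uniformly -/
theorem ex_fib_unif [Fintype R] {r : Ω → R} (hr : ∀ φ : R → ℝ, ex (fun x => φ (r x)) = ex φ)
    (g : Ω → ℝ) : ex g = ex fun c => ex fun y : Fb r c => g y.1 := by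
  rw [ex_fib r g, hr fun c => ex fun y : Fb r c => g y.1]

theorem en_fib {D : Setoid Ω} {r : Ω → R} (hD : D ≤ Setoid.ker r) (f : Ω → ℝ) :
    en D f = ex fun x => en (rst D r (r x)) fun y => f y.1 := by
  rw [en, ex_fib r]
  exact ex_congr fun x => ex_congr fun y => by rw [ce_rst hD]

theorem cH_fib {D : Setoid Ω} {r : Ω → R} (hD : D ≤ Setoid.ker r) (L : Setoid Ω) :
    cH L D = ex fun x => cH (rst L r (r x)) (rst D r (r x)) := by
  rw [cH_eq, ex_fib r]
  refine ex_congr fun x => ?_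
  rw [cH_eq]
  refine ex_congr fun y => ?_
  rw [← rst_inf, card_cls_rst hD, card_cls_rst (inf_le_left.trans hD)]

/-- mean over a fibre as a quotient of means -/
theorem ex_fb_mul (r : Ω → R) (c : R) (g : Ω → ℝ) :
    ex (fun y : Fb r c => g y.1) * ex (fun x => ind (r x = c))
      = ex fun x => ind (r x = c) * g x := by
  have e1 : ∑ x, ind (r x = c) = Fintype.card (Fb r c) := by
    simp only [ind_eq, Fintype.card_subtype]
    rw [sum_ite, sum_const, sum_const_zero, add_zero, nsmul_eq_mul, mul_one]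
  have e2 : ∑ x, ind (r x = c) * g x = ∑ y : Fb r c, g y.1 := by
    simp only [ind_eq, ite_mul, one_mul, zero_mul]
    rw [← sum_filter]
    exact sum_subtype _ (by simp) g
  simp only [ex]
  rw [e1, e2]
  rcases isEmpty_or_nonempty (Fb r c) with h | h
  · simp
  · have := card_pos' (Ω := Fb r c)
    field_simp

omit [DecidableEq R] in
theorem ex_ind_fb_pos (r : Ω → R) (x0 : Ω) : 0 < ex fun x => ind (r x = r x0) := by
  have : Nonempty Ω := ⟨x0⟩
  refine div_pos ?_ card_pos'
  exact lt_of_lt_of_le (by rw [ind_pos rfl]; exact one_pos)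
    (single_le_sum (f := fun x => ind (r x = r x0)) (fun x _ => ind_nonneg _) (mem_univ x0))

section glue

variable {σ A : Type*}

/-- the information: the value of `r` and the data on the set `C (r x)` -/
def glue (r : Ω → R) (Dt : Ω → σ → A) (C : R → Finset σ) : Setoid Ω where
  r x y := r x = r y ∧ ∀ b ∈ C (r x), Dt x b = Dt y b
  iseqv := ⟨fun _ => ⟨rfl, fun _ _ => rfl⟩,
    fun h => ⟨h.1.symm, fun b hb => (h.2 b (h.1 ▸ hb)).symm⟩,
    fun h h' => ⟨h.1.trans h'.1, fun b hb => (h.2 b hb).trans (h'.2 b (h.1 ▸ hb))⟩⟩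

omit [Fintype Ω] [DecidableEq R] in
theorem glue_iff {r : Ω → R} {Dt : Ω → σ → A} {C : R → Finset σ} {x y : Ω} :
    glue r Dt C x y ↔ r x = r y ∧ ∀ b ∈ C (r x), Dt x b = Dt y b := Iff.rfl

omit [Fintype Ω] [DecidableEq R] in
theorem glue_le_ker (r : Ω → R) (Dt : Ω → σ → A) (C : R → Finset σ) :
    glue r Dt C ≤ Setoid.ker r := fun _ _ h => h.1

omit [Fintype Ω] [DecidableEq R] in
theorem rst_glue (r : Ω → R) (Dt : Ω → σ → A) (C : R → Finset σ) (c : R) :
    rst (glue r Dt C) r c = sig (fun x : Fb r c => Dt x.1) (C c) := by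
  ext x y
  rw [rst_iff, glue_iff, sig_iff, x.2, y.2]
  exact and_iff_right rfl

omit [Fintype Ω] [DecidableEq R] in
/-- more residues and larger sets give a finer information -/
theorem glue_anti {R' : Type} {r : Ω → R} {r' : Ω → R'} (Dt : Ω → σ → A) {C : R → Finset σ}
    {C' : R' → Finset σ} (hr : ∀ x y, r' x = r' y → r x = r y) (hC : ∀ x, C (r x) ⊆ C' (r' x)) :
    glue r' Dt C' ≤ glue r Dt C := fun x y h =>
  ⟨hr x y h.1, fun b hb => h.2 b (hC x hb)⟩

theorem ce_glue (r : Ω → R) (Dt : Ω → σ → A) (C : R → Finset σ) (g : Ω → ℝ) {c : R}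
    (x : Fb r c) :
    ce (glue r Dt C) g x.1 = ce (sig (fun x : Fb r c => Dt x.1) (C c)) (fun y => g y.1) x := by
  rw [ce_rst (glue_le_ker r Dt C), rst_glue]

theorem yr_glue (r : Ω → R) (Dt : Ω → σ → A) (C : R → Finset σ) (ζ X : Ω → ℝ) {c : R}
    (x : Fb r c) : yr (glue r Dt C) ζ X x.1
      = yr (sig (fun x : Fb r c => Dt x.1) (C c)) (fun y => ζ y.1) (fun y => X y.1) x := by
  rw [yr_rst (glue_le_ker r Dt C), rst_glue]

end glue

end Pool.Agent.P.MP_a14ce1_nt.Fu
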