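import Pool.Agent.P.MP_a14ce1_nt.Nil.Core3
import Pool.Agent.P.MP_a14ce1_nt.Ch.Defs

/-!
Fair sampling and extension for a probability weight on products of few primes, abstract form.
-/

open Finset

namespace Pool.Agent.P.MP_a14ce1_nt.Fu

open Ch (rs)
open Nil.ES

/-- products of at most J members of V -/
def prods (V : Finset ℕ) : ℕ → Finset ℕ
  | 0 => {1}
  | J + 1 => insert 1 (image₂ (· * ·) (prods V J) V)

/-- the probability with weights proportional to 1 / p -/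
noncomputable def rec1 (P : Finset ℕ) (h : 0 < rs P) : Pr where
  s := P
  w := fun p => 1 / (p * rs P)
  nn := fun _ => by positivity
  one := by
    have : ∀ p ∈ P, (1 : ℝ) / (p * rs P) = 1 / p * (rs P)⁻¹ := fun p _ => by
      rw [one_div, mul_inv, one_div]
    rw [sum_congr rfl this, ← sum_mul]
    exact mul_inv_cancel₀ h.ne'

theorem rec1_E {P : Finset ℕ} (h : 0 < rs P) (φ : ℕ → ℝ) :
    rs P * (rec1 P h).E φ = ∑ p ∈ P, φ p / p := by
  rw [Pr.E, mul_sum]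
  refine sum_congr rfl fun p _ => ?_
  change rs P * (1 / (p * rs P) * φ p) = _
  rw [one_div, mul_inv, mul_assoc, mul_left_comm, mul_inv_cancel_left₀ h.ne', div_eq_inv_mul]

variable {V : Finset ℕ}

theorem one_mem_prods (V : Finset ℕ) (J : ℕ) : 1 ∈ prods V J := by
  cases J <;> simp [prods]

theorem mul_mem_prods {J v p : ℕ} (hv : v ∈ prods V J) (hp : p ∈ V) : v * p ∈ prods V (J + 1) :=
  mem_insert_of_mem (mem_image₂_of_mem hv hp)

theorem prods_succ (V : Finset ℕ) (J : ℕ) : prods V J ⊆ prods V (J + 1) := by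
  induction J with
  | zero => simp [prods]
  | succ J ih => exact insert_subset_insert _ (image₂_subset_right ih)

theorem prods_mono (V : Finset ℕ) : Monotone (prods V) :=
  monotone_nat_of_le_succ (prods_succ V)

theorem prod_mem_prods {g : Finset ℕ} (hg : g ⊆ V) {J : ℕ} (h : g.card ≤ J) :
    ∏ p ∈ g, p ∈ prods V J := by
  refine prods_mono V h ?_
  clear h
  induction g using Finset.induction_on with
  | empty => exact one_mem_prods V _
  | insert p g hp ih =>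
    rw [prod_insert hp, card_insert_of_notMem hp, mul_comm]
    exact mul_mem_prods (ih ((subset_insert _ _).trans hg)) (hg (mem_insert_self _ _))

theorem mul_mem_prods' {J J' v v' : ℕ} (hv : v ∈ prods V J) (hv' : v' ∈ prods V J') :
    v * v' ∈ prods V (J + J') := by
  induction J' generalizing v' with
  | zero => simpa [mem_singleton.1 hv'] using hv
  | succ J' ih =>
    rcases mem_insert.1 hv' with rfl | h
    · simpa using prods_mono V (Nat.le_add_right _ _) hv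
    · obtain ⟨a, ha, p, hp, rfl⟩ := mem_image₂.1 h
      rw [← mul_assoc]
      exact mul_mem_prods (ih ha) hp

theorem prods_bd {Z : ℕ} (hZ : 1 ≤ Z) (hV : ∀ p ∈ V, 0 < p ∧ p ≤ Z) {J v : ℕ}
    (hv : v ∈ prods V J) : 0 < v ∧ v ≤ Z ^ J := by
  induction J generalizing v with
  | zero => simp [mem_singleton.1 hv]
  | succ J ih =>
    rcases mem_insert.1 hv with rfl | h
    · exact ⟨one_pos, Nat.one_le_pow _ _ hZ⟩
    · obtain ⟨a, ha, p, hp, rfl⟩ := mem_image₂.1 h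
      exact ⟨Nat.mul_pos (ih ha).1 (hV p hp).1, Nat.mul_le_mul (ih ha).2 (hV p hp).2⟩

theorem sum_prods_succ {h : ℕ → ℝ} (h0 : ∀ v, 0 ≤ h v) (J : ℕ) :
    ∑ v ∈ prods V (J + 1), h v / v ≤ h 1 + ∑ v ∈ prods V J, (∑ p ∈ V, h (v * p) / p) / v := by
  have nn : ∀ v : ℕ, 0 ≤ h v / v := fun v => div_nonneg (h0 v) (Nat.cast_nonneg v)
  have a1 : ∑ v ∈ prods V (J + 1), h v / v ≤
      h 1 + ∑ v ∈ image₂ (· * ·) (prods V J) V, h v / v := by
    rw [prods]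
    by_cases h1 : 1 ∈ image₂ (· * ·) (prods V J) V
    · rw [insert_eq_of_mem h1]
      linarith [h0 1]
    · rw [sum_insert h1]
      simp
  refine a1.trans (add_le_add le_rfl ?_)
  rw [← image_uncurry_product]
  refine (sum_image_le_of_nonneg fun _ _ => nn _).trans (le_of_eq ?_)
  rw [sum_product]
  refine sum_congr rfl fun v _ => ?_
  rw [sum_div]
  refine sum_congr rfl fun p _ => ?_
  simp only [Function.uncurry, Nat.cast_mul, div_div, mul_comm]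

theorem sum_prods_one (J : ℕ) : ∑ v ∈ prods V J, (1 : ℝ) / v ≤ (1 + rs V) ^ J := by
  have r0 := Ch.rs_nonneg V
  induction J with
  | zero => simp [prods]
  | succ J ih =>
    refine (sum_prods_succ (h := fun _ => 1) (fun _ => zero_le_one) J).trans ?_
    have e : ∑ v ∈ prods V J, (∑ p ∈ V, (1 : ℝ) / p) / v = rs V * ∑ v ∈ prods V J, (1 : ℝ) / v := by
      rw [mul_sum]
      exact sum_congr rfl fun v _ => by rw [rs]; ring
    have a1 : (1 : ℝ) ≤ (1 + rs V) ^ J := one_le_pow₀ (by linarith)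
    rw [e, pow_succ]
    nlinarith [mul_le_mul_of_nonneg_left ih r0]

/-- the chain over the primes of a product -/
theorem sum_prods_le {n : ℕ → ℝ} (h0 : ∀ v, 0 ≤ n v) (h1 : n 1 = 0) {L b : ℝ} (hL : 1 + rs V ≤ L)
    (hb : 0 ≤ b) (J : ℕ) (h : ∀ j < J, ∀ v ∈ prods V j, ∑ p ∈ V, n (v * p) / p ≤ L * n v + b) :
    ∑ v ∈ prods V J, n v / v ≤ J * L ^ J * b := by
  have r0 := Ch.rs_nonneg V
  induction J with
  | zero => simp [prods, h1]
  | succ J ih =>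
    have a0 := ih fun j hj => h j (by omega)
    refine (sum_prods_succ h0 J).trans ?_
    have a1 : ∑ v ∈ prods V J, (∑ p ∈ V, n (v * p) / p) / v ≤
        L * ∑ v ∈ prods V J, n v / v + b * ∑ v ∈ prods V J, (1 : ℝ) / v := by
      rw [mul_sum, mul_sum, ← sum_add_distrib]
      refine sum_le_sum fun v hv => (div_le_div_of_nonneg_right (h J (by omega) v hv)
        (Nat.cast_nonneg v)).trans (le_of_eq ?_)
      ring
    have a2 : ∑ v ∈ prods V J, (1 : ℝ) / v ≤ L ^ (J + 1) :=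
      (sum_prods_one J).trans ((pow_le_pow_left₀ (by linarith) hL J).trans
        (pow_le_pow_right₀ (by linarith) (Nat.le_succ J)))
    have a3 := mul_le_mul_of_nonneg_left a0 (by linarith : 0 ≤ L)
    have a4 := mul_le_mul_of_nonneg_left a2 hb
    rw [h1]
    push_cast
    rw [pow_succ] at *
    nlinarith

theorem E_le_prods {γ : Pr} {J : ℕ} {K : ℝ} (hs : γ.s ⊆ prods V J) (hV : ∀ p ∈ V, 0 < p)
    (hK : ∀ v ∈ γ.s, γ.w v * v ≤ K) {n : ℕ → ℝ} (h0 : ∀ v, 0 ≤ n v) :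
    γ.E n ≤ K * ∑ v ∈ prods V J, n v / v := by
  have pos : ∀ v ∈ prods V J, (0 : ℝ) < v := fun v hv => by
    exact_mod_cast (prods_bd (Z := V.sup id + 1) (by omega)
      (fun p hp => ⟨hV p hp, (le_sup (f := id) hp).trans (Nat.le_succ _)⟩) hv).1
  obtain ⟨v0, hv0⟩ := nonempty_of_sum_ne_zero (γ.one ▸ one_ne_zero : ∑ p ∈ γ.s, γ.w p ≠ 0)
  have K0 : 0 ≤ K := (mul_nonneg (γ.nn _) (Nat.cast_nonneg _)).trans (hK v0 hv0)
  rw [mul_sum]
  refine le_trans (sum_le_sum fun v hv => ?_) (sum_le_sum_of_subset_of_nonneg hs fun v _ _ =>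
    mul_nonneg K0 (div_nonneg (h0 v) (Nat.cast_nonneg v)))
  rw [← mul_div_assoc, le_div_iff₀ (pos v (hs hv)), mul_right_comm]
  exact mul_le_mul_of_nonneg_right (hK v hv) (h0 v)

variable {P : Type*} {Y : Sys P}

/-- the mass of a level -/
noncomputable def ms (Y : Sys P) (c : ℕ) : ℝ := ∑ x ∈ (Y.μ c).s, (Y.μ c).w x

theorem ip_two_le (μ : Wt P) (φ ψ : P → ℂ) {s : ℝ} (hs : 0 < s) :
    2 * μ.ip φ ψ ≤ s * μ.ip φ φ + μ.ip ψ ψ / s := by
  have h := μ.ip_self_nonneg (s • φ + -ψ)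
  rw [μ.ip_add_left, μ.ip_add_right, μ.ip_add_right, μ.ip_smul_left, μ.ip_smul_left,
    μ.ip_smul_right, μ.ip_smul_right, μ.ip_neg_left, μ.ip_neg_left, μ.ip_comm φ (-ψ),
    μ.ip_comm ψ (-ψ), μ.ip_neg_left, μ.ip_neg_left, μ.ip_comm ψ φ] at h
  rw [← sub_nonneg, ← mul_nonneg_iff_of_pos_left hs]
  refine h.trans (le_of_eq ?_)
  field_simp
  ring

theorem ip_sub_right (μ : Wt P) (φ ψ χ : P → ℂ) : μ.ip φ (ψ - χ) = μ.ip φ ψ - μ.ip φ χ := by
  rw [sub_eq_add_neg, μ.ip_add_right, μ.ip_comm φ (-χ), μ.ip_neg_left, μ.ip_comm χ, sub_eq_add_neg]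

theorem ip_sub_left (μ : Wt P) (φ ψ χ : P → ℂ) : μ.ip (φ - ψ) χ = μ.ip φ χ - μ.ip ψ χ := by
  rw [μ.ip_comm, ip_sub_right, μ.ip_comm χ, μ.ip_comm χ]

theorem abs_ip_le (μ : Wt P) {φ ψ : P → ℂ} (h1 : ∀ x, ‖φ x‖ ≤ 1) (h2 : ∀ x, ‖ψ x‖ ≤ 1) :
    |μ.ip φ ψ| ≤ ∑ x ∈ μ.s, μ.w x := by
  have a1 := ip_two_le μ φ ψ one_pos
  have a2 := ip_two_le μ (-φ) ψ one_pos
  have a3 := μ.ip_self_le φ h1
  have a4 := μ.ip_self_le ψ h2
  have a5 := μ.ip_self_le (-φ) fun x => by simpa using h1 x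
  rw [μ.ip_neg_left φ ψ] at a2
  rw [abs_le]
  constructor <;> linarith

/-- sign splitting makes fair sampling absolute -/
theorem fs_abs {c : ℕ} {Q ε m : ℝ} (hQ : 0 < Q) (hε : 0 ≤ ε)
    (h : ∀ W ⊆ V, ∀ hW : 0 < rs W, 1 ≤ Q * rs W → Fs Y c (rec1 W hW) ε) (hm : ms Y c ≤ m)
    (hm' : ∀ p ∈ V, ms Y (c * p) ≤ m) {φ ψ : P → ℂ} (hφ : φ ∈ Y.X c) (hψ : ψ ∈ Y.X c) :
    ∑ p ∈ V, |(Y.μ (c * p)).ip φ ψ - (Y.μ c).ip φ ψ| / p ≤ rs V * ε + 4 * m / Q := by
  set d : ℕ → ℝ := fun p => (Y.μ (c * p)).ip φ ψ - (Y.μ c).ip φ ψ with hd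
  have m0 : 0 ≤ m := (sum_nonneg fun x _ => (Y.μ c).nn x).trans hm
  have bd : ∀ p ∈ V, |d p| ≤ 2 * m := fun p hp => (abs_sub _ _).trans (by
    linarith [(abs_ip_le _ (Y.bdd _ _ hφ) (Y.bdd _ _ hψ)).trans (hm' p hp),
      (abs_ip_le _ (Y.bdd _ _ hφ) (Y.bdd _ _ hψ)).trans hm])
  have key : ∀ W ⊆ V, |∑ p ∈ W, d p / p| ≤ rs W * ε + 2 * m / Q := fun W hW => by
    have r0 := Ch.rs_nonneg W
    by_cases h1 : 1 ≤ Q * rs W
    · have hW0 : 0 < rs W := pos_of_mul_pos_right (one_pos.trans_le h1) hQ.le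
      have a1 := h W hW hW0 h1 φ hφ ψ hψ
      have e : (rec1 W hW0).E d = (rec1 W hW0).E (fun p => (Y.μ (c * p)).ip φ ψ) -
          (Y.μ c).ip φ ψ := by
        rw [hd]
        simp only [sub_eq_add_neg, Pr.E_add, Pr.E_const]
      rw [← rec1_E hW0, abs_mul, abs_of_pos hW0, e]
      have : 0 ≤ 2 * m / Q := by positivity
      linarith [mul_le_mul_of_nonneg_left a1 r0]
    · have a1 : |∑ p ∈ W, d p / p| ≤ 2 * m * rs W := by
        rw [rs, mul_sum]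
        refine (abs_sum_le_sum_abs _ _).trans (sum_le_sum fun p hp => ?_)
        rw [abs_div, Nat.abs_cast, mul_one_div]
        exact div_le_div_of_nonneg_right (bd p (hW hp)) (Nat.cast_nonneg p)
      have a2 : 2 * m * rs W ≤ 2 * m / Q := by
        rw [le_div_iff₀ hQ]
        nlinarith [not_le.1 h1]
      linarith [mul_nonneg r0 hε]
  have a1 := key _ (filter_subset (fun p => 0 ≤ d p) V)
  have a2 := key _ (filter_subset (fun p => ¬ 0 ≤ d p) V)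
  have e1 : ∑ p ∈ V, |d p| / p = ∑ p ∈ V.filter (fun p => 0 ≤ d p), d p / p -
      ∑ p ∈ V.filter (fun p => ¬ 0 ≤ d p), d p / p := by
    rw [← sum_filter_add_sum_filter_not V (fun p => 0 ≤ d p), sub_eq_add_neg, ← sum_neg_distrib]
    congr 1
    · exact sum_congr rfl fun p hp => by rw [abs_of_nonneg (mem_filter.1 hp).2]
    · exact sum_congr rfl fun p hp => by rw [abs_of_neg (not_le.1 (mem_filter.1 hp).2), neg_div]
  have e2 : rs V = rs (V.filter fun p => 0 ≤ d p) + rs (V.filter fun p => ¬ 0 ≤ d p) :=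
    (sum_filter_add_sum_filter_not V _ _).symm
  rw [e1, e2]
  rw [abs_le] at a1 a2
  have : 4 * m / Q = 2 * m / Q + 2 * m / Q := by ring
  linarith [a1.2, a2.1]

/-- FS*, absolute form -/
theorem fsX_abs {c J : ℕ} {Q ε m : ℝ} (hQ : 0 < Q) (hε : 0 ≤ ε)
    (h : ∀ v ∈ prods V J, ∀ W ⊆ V, ∀ hW : 0 < rs W, 1 ≤ Q * rs W → Fs Y (c * v) (rec1 W hW) ε)
    (hm : ∀ v ∈ prods V J, ms Y (c * v) ≤ m) {φ ψ : P → ℂ} (hφ : φ ∈ Y.X c) (hψ : ψ ∈ Y.X c) :
    ∑ v ∈ prods V J, |(Y.μ (c * v)).ip φ ψ - (Y.μ c).ip φ ψ| / v ≤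
      J * (1 + rs V) ^ J * (rs V * ε + 4 * m / Q) := by
  have r0 := Ch.rs_nonneg V
  have m0 : 0 ≤ m := (sum_nonneg fun x _ => (Y.μ _).nn x).trans (hm 1 (one_mem_prods V J))
  refine sum_prods_le (n := fun v => |(Y.μ (c * v)).ip φ ψ - (Y.μ c).ip φ ψ|)
    (fun _ => abs_nonneg _) (by simp) le_rfl (by positivity) J fun j hj v hv => ?_
  have hv' := prods_mono V hj.le hv
  have a1 := fs_abs hQ hε (h v hv') (hm v hv') (fun p hp => by
    rw [mul_assoc]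
    exact hm _ (prods_mono V hj (mul_mem_prods hv hp))) (Y.mono c v hφ) (Y.mono c v hψ)
  have a2 : ∑ p ∈ V, |(Y.μ (c * (v * p))).ip φ ψ - (Y.μ c).ip φ ψ| / p ≤
      ∑ p ∈ V, |(Y.μ (c * v * p)).ip φ ψ - (Y.μ (c * v)).ip φ ψ| / p +
        rs V * |(Y.μ (c * v)).ip φ ψ - (Y.μ c).ip φ ψ| := by
    rw [rs, sum_mul, ← sum_add_distrib]
    refine sum_le_sum fun p _ => ?_
    rw [one_div_mul_eq_div, ← add_div, ← mul_assoc]
    exact div_le_div_of_nonneg_right (abs_sub_le _ _ _) (Nat.cast_nonneg p)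
  nlinarith [abs_nonneg ((Y.μ (c * v)).ip φ ψ - (Y.μ c).ip φ ψ)]

/-- FS* -/
theorem fsX {c J : ℕ} {Q ε m K : ℝ} (hQ : 0 < Q) (hε : 0 ≤ ε) (hV : ∀ p ∈ V, 0 < p)
    (h : ∀ v ∈ prods V J, ∀ W ⊆ V, ∀ hW : 0 < rs W, 1 ≤ Q * rs W → Fs Y (c * v) (rec1 W hW) ε)
    (hm : ∀ v ∈ prods V J, ms Y (c * v) ≤ m) {γ : Pr} (hs : γ.s ⊆ prods V J)
    (hK : ∀ v ∈ γ.s, γ.w v * v ≤ K) :
    Fs Y c γ (K * (J * (1 + rs V) ^ J * (rs V * ε + 4 * m / Q))) := by
  intro φ hφ ψ hψ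
  obtain ⟨v0, hv0⟩ := nonempty_of_sum_ne_zero (γ.one ▸ one_ne_zero : ∑ p ∈ γ.s, γ.w p ≠ 0)
  have K0 : 0 ≤ K := (mul_nonneg (γ.nn _) (Nat.cast_nonneg _)).trans (hK v0 hv0)
  refine le_trans ?_ ((E_le_prods hs hV hK fun _ => abs_nonneg _).trans
    (mul_le_mul_of_nonneg_left (fsX_abs hQ hε h hm hφ hψ) K0))
  rw [← γ.E_const ((Y.μ c).ip φ ψ)]
  simp only [Pr.E, ← sum_sub_distrib, ← mul_sub]
  rw [← sum_mul, γ.one, one_mul]
  refine (abs_sum_le_sum_abs _ _).trans (sum_le_sum fun v _ => ?_)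
  rw [abs_mul, abs_of_nonneg (γ.nn v)]

theorem E_comm (γ γ' : Pr) (h : ℕ → ℕ → ℝ) :
    γ.E (fun p => γ'.E fun v => h p v) = γ'.E fun v => γ.E fun p => h p v := by
  simp only [Pr.E, mul_sum]
  rw [sum_comm]
  exact sum_congr rfl fun v _ => sum_congr rfl fun p _ => by ring

theorem E_sub (γ : Pr) (h h' : ℕ → ℝ) : γ.E (fun p => h p - h' p) = γ.E h - γ.E h' := by
  simp only [Pr.E, mul_sub, sum_sub_distrib]

theorem abs_E_sub_le (γ : Pr) {h h' : ℕ → ℝ} {e : ℝ} (hh : ∀ p ∈ γ.s, |h p - h' p| ≤ e) :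
    |γ.E h - γ.E h'| ≤ e := by
  rw [← E_sub, abs_le]
  constructor
  · rw [← γ.E_const (-e)]
    exact γ.E_le fun p hp => (abs_le.1 (hh p hp)).1
  · conv_rhs => rw [← γ.E_const e]
    exact γ.E_le fun p hp => (abs_le.1 (hh p hp)).2

/-- EXT* -/
theorem extX (hV : ∀ p ∈ V, 0 < p) (hr : 0 < rs V) {γ γ' : Pr} {b J : ℕ} {ε m K s : ℝ}
    (hε : 0 < ε) (hs : 0 < s) (h1 : ∀ v ∈ prods V J, Fs Y (b * v) (rec1 V hr) ε)
    (h2 : ∀ v ∈ prods V J, ∀ q ∈ γ.s, Fs Y (b * v * q) (rec1 V hr) ε)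
    (h3 : ∀ v ∈ prods V J, Ext Y (b * v) γ (rec1 V hr) ε)
    (hm : ∀ v ∈ prods V J, ms Y (b * v) ≤ m) (hγ : γ'.s ⊆ prods V J)
    (hK : ∀ v ∈ γ'.s, γ'.w v * v ≤ K) :
    Ext Y b γ γ' (4 * ε + s * m + K * (J * (1 + 2 * rs V) ^ J * (16 * rs V * ε)) / s) := by
  intro χ ψ hχ hψ
  set G := rec1 V hr
  have hχ' : ∀ v q, χ q ∈ Y.X (b * v * q) := fun v q => by
    rw [mul_right_comm]
    exact Y.mono _ _ (hχ q)
  have ex : ∀ v, ∃ U ∈ Y.X (b * v), v ∈ prods V J → ∀ ψ : ℕ → P → ℂ,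
      (∀ p, ψ p ∈ Y.X (b * v * p)) →
      |G.E (fun p => γ.E fun q => (Y.μ (b * v * q * p)).ip (ψ p) (χ q)) -
        G.E (fun p => (Y.μ (b * v * p)).ip (ψ p) U)| ≤ ε + ε := fun v => by
    by_cases hv : v ∈ prods V J
    · obtain ⟨U, hU, hU'⟩ := (h3 v hv).universal hε (hχ' v)
      exact ⟨U, hU, fun _ => hU'⟩
    · exact ⟨0, Y.zero _, fun h => absurd h hv⟩
  choose U hU hU' using ex
  have own : ∀ v ∈ prods V J, ∀ φ ∈ Y.X (b * v),
      |γ.E (fun q => (Y.μ (b * v * q)).ip φ (χ q)) - (Y.μ (b * v)).ip φ (U v)| ≤ 4 * ε := by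
    intro v hv φ hφ
    have a1 := hU' v hv (fun _ => φ) fun p => Y.mono _ _ hφ
    have a2 := h1 v hv φ hφ _ (hU v)
    have a3 := abs_E_sub_le γ fun q hq => h2 v hv q hq φ (Y.mono _ _ hφ) _ (hχ' v q)
    rw [E_comm] at a3
    rw [abs_le] at *
    constructor <;> linarith [a1.1, a1.2, a2.1, a2.2, a3.1, a3.2]
  have hU1 : ∀ v, U 1 ∈ Y.X (b * v) := fun v => by
    have := Y.mono _ v (hU 1)
    rwa [mul_one] at this
  set n : ℕ → ℝ := fun v => (Y.μ (b * v)).ip (U v - U 1) (U v - U 1) with hn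
  have n0 : ∀ v, 0 ≤ n v := fun v => Wt.ip_self_nonneg _ _
  have ch : ∑ v ∈ prods V J, n v / v ≤ J * (1 + 2 * rs V) ^ J * (32 * rs V * ε) := by
    refine sum_prods_le n0 (by simp [hn, Wt.ip]) (by linarith) (by positivity) J fun j hj v hv => ?_
    have hv' := prods_mono V hj.le hv
    have hUp : ∀ p, U (v * p) ∈ Y.X (b * v * p) := fun p => by
      rw [mul_assoc]
      exact hU _
    have t : ∀ φ : ℕ → P → ℂ, (∀ p, φ p ∈ Y.X (b * v * p)) →
        |G.E fun p => (Y.μ (b * v * p)).ip (φ p) (U (v * p) - U v)| ≤ 6 * ε := fun φ hφ => by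
      have a1 := hU' v hv' φ hφ
      have a2 := abs_E_sub_le G fun p hp => own (v * p) (prods_mono V hj (mul_mem_prods hv hp))
        (φ p) (by rw [← mul_assoc]; exact hφ p)
      have e : ∀ p q, b * v * q * p = b * v * p * q := fun p q => mul_right_comm _ _ _
      simp only [← mul_assoc] at a2
      simp only [e _ _, ip_sub_right, E_sub] at a1 ⊢
      rw [abs_le] at *
      constructor <;> linarith [a1.1, a1.2, a2.1, a2.2]
    have a1 := abs_le.1 (t _ hUp)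
    have a2 := abs_le.1 (t _ fun p => Y.mono _ p (hU v))
    have a3 := abs_le.1 (h1 v hv' _ (hU v) _ (hU v))
    have a4 := abs_le.1 (h1 v hv' _ (hU v) _ (hU1 v))
    have a5 := abs_le.1 (h1 v hv' _ (hU1 v) _ (hU v))
    have a6 := abs_le.1 (h1 v hv' _ (hU1 v) _ (hU1 v))
    have a7 : G.E (fun p => n (v * p)) ≤ G.E fun p =>
        2 * (Y.μ (b * v * p)).ip (U (v * p) - U v) (U (v * p) - U v) +
          2 * (Y.μ (b * v * p)).ip (U v - U 1) (U v - U 1) := G.E_le fun p _ => by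
      have := ip_two_le (Y.μ (b * v * p)) (U (v * p) - U v) (U v - U 1) one_pos
      have e : U (v * p) - U 1 = (U (v * p) - U v) + (U v - U 1) := by abel
      simp only [hn, ← mul_assoc]
      rw [e, Wt.ip_add_left, Wt.ip_add_right, Wt.ip_add_right, Wt.ip_comm _ (U v - U 1)]
      linarith
    have a8 : G.E (fun p => n (v * p)) ≤ 2 * n v + 32 * ε := by
      simp only [Pr.E_add, Pr.E_mul, ip_sub_left _ _ _ (U (v * _) - U v), E_sub] at a7
      simp only [ip_sub_left _ (U v) (U 1), ip_sub_right _ _ (U v) (U 1), E_sub] at a7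
      simp only [hn, ip_sub_left _ (U v) (U 1), ip_sub_right _ _ (U v) (U 1)] at a7 ⊢
      linarith [a1.2, a2.1, a3.2, a4.1, a5.1, a6.2]
    rw [← rec1_E hr]
    nlinarith [mul_le_mul_of_nonneg_left a8 hr.le, n0 v]
  refine ⟨U 1, by simpa using hU1 1, ?_⟩
  obtain ⟨v0, hv0⟩ := nonempty_of_sum_ne_zero (γ'.one ▸ one_ne_zero : ∑ p ∈ γ'.s, γ'.w p ≠ 0)
  have K0 : 0 ≤ K := (mul_nonneg (γ'.nn _) (Nat.cast_nonneg _)).trans (hK v0 hv0)
  have m0 : 0 ≤ m := (sum_nonneg fun x _ => (Y.μ _).nn x).trans (hm 1 (one_mem_prods V J))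
  have b1 := (E_le_prods hγ hV hK n0).trans (mul_le_mul_of_nonneg_left ch K0)
  have b2 : γ'.E (fun v => γ.E fun p => (Y.μ (b * p * v)).ip (ψ v) (χ p)) ≤ γ'.E fun v =>
      (Y.μ (b * v)).ip (ψ v) (U 1) + (1 / (2 * s) * n v + (4 * ε + s * m)) := γ'.E_le fun v hv => by
    have a1 := (abs_le.1 (own v (hγ hv) _ (hψ v))).2
    have a2 := ip_two_le (Y.μ (b * v)) (ψ v) (U v - U 1) hs
    have a3 := mul_le_mul_of_nonneg_left
      ((Wt.ip_self_le _ _ (Y.bdd _ _ (hψ v))).trans (hm v (hγ hv))) hs.le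
    rw [ip_sub_right] at a2
    simp only [mul_right_comm b _ v]
    have e : 1 / (2 * s) * n v = (Y.μ (b * v)).ip (U v - U 1) (U v - U 1) / s / 2 := by
      rw [hn]
      ring
    linarith [mul_nonneg hs.le m0]
  rw [Pr.E_add, Pr.E_add, Pr.E_mul, Pr.E_const] at b2
  have b3 := mul_le_mul_of_nonneg_left b1 (by positivity : 0 ≤ 1 / (2 * s))
  have e : 1 / (2 * s) * (K * (J * (1 + 2 * rs V) ^ J * (32 * rs V * ε))) =
      K * (J * (1 + 2 * rs V) ^ J * (16 * rs V * ε)) / s := by ring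
  linarith

end Pool.Agent.P.MP_a14ce1_nt.Fu
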