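import Pool.Agent.P.MP_a14ce1_nt.V.All
import Pool.Agent.P.MP_a14ce1_nt.Fu.DM

/-! Generalised von Neumann estimate on one window, in power form. -/

open Finset

namespace Pool.Agent.P.MP_a14ce1_nt.Fu

open V (dy cube gow win)

/-- the form with r + 1 roles on the window [0, H), steps along the primes of P -/
noncomputable def form (r H : ℕ) (P : Finset ℕ) (θ : ℕ → ℂ) (φ : ℕ → ℕ → ℂ) : ℂ :=
  ∑ p ∈ P, θ p / p * ∑ m ∈ (range H).filter (fun m => m + r * p < H),
    ∏ i ∈ range (r + 1), φ i (m + i * p)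

theorem win_val {N H : ℕ} (f : ℕ → ℂ) (n : ZMod N) :
    win f 0 H (n.val : ℤ) = if n.val < H then f n.val else 0 := by
  unfold win
  simp only [Int.natCast_nonneg, true_and, Nat.cast_lt, zero_add, Int.toNat_natCast]

theorem cyc_sum (r H N p : ℕ) [NeZero N] (hN : H + r * p ≤ N) (φ : ℕ → ℕ → ℂ) :
    ∑ n : ZMod N, ∏ i ∈ range (r + 1), win (φ i) 0 H ((n + ((p * i : ℕ) : ZMod N)).val : ℤ) =
      ∑ m ∈ (range H).filter (fun m => m + r * p < H), ∏ i ∈ range (r + 1), φ i (m + i * p) := by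
  have e : ∀ n : ZMod N, ∏ i ∈ range (r + 1), win (φ i) 0 H ((n + ((p * i : ℕ) : ZMod N)).val : ℤ) =
      (fun m : ℕ => if m + r * p < H then ∏ i ∈ range (r + 1), φ i (m + i * p) else 0) n.val := by
    intro n
    have hn := ZMod.val_lt n
    have hv : ∀ i, n.val + i * p < N → (n + ((p * i : ℕ) : ZMod N)).val = n.val + i * p := by
      intro i hi
      rw [← ZMod.val_cast_of_lt hi]
      congr 1
      push_cast
      rw [ZMod.natCast_zmod_val, mul_comm]
    beta_reduce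
    simp only [win_val]
    split_ifs with h1
    · refine prod_congr rfl fun i hi => ?_
      have h2 : i * p ≤ r * p := Nat.mul_le_mul_right p (Nat.lt_succ_iff.1 (mem_range.1 hi))
      rw [hv i (by omega), if_pos (by omega)]
    · by_cases h2 : n.val < H
      · refine prod_eq_zero (mem_range.2 (Nat.lt_succ_self r)) ?_
        rw [hv r (by omega), if_neg h1]
      · refine prod_eq_zero (mem_range.2 (Nat.succ_pos r)) ?_
        rw [hv 0 (by omega), if_neg (by omega)]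
  simp only [e]
  rw [V.sum_val (N := N) fun m : ℕ =>
    if m + r * p < H then ∏ i ∈ range (r + 1), φ i (m + i * p) else 0, sum_filter]
  refine (sum_subset (range_subset_range.2 (by omega)) fun m _ hm => if_neg ?_).symm
  rw [mem_range] at hm
  omega

/-- power form of the generalised von Neumann estimate on a window of length comparable to Y -/
theorem gvn_win (r D : ℕ) : ∃ C : ℝ, 1 ≤ C ∧ ∀ (H Y : ℕ) (P : Finset ℕ) (θ : ℕ → ℂ)
    (φ : ℕ → ℕ → ℂ) (i0 : ℕ), 2 ≤ Y → Y ≤ H → H ≤ D * Y → P ⊆ dy Y → (∀ p, ‖θ p‖ ≤ 1) → i0 ≤ r →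
    (∀ i ≤ r, i ≠ i0 → ∀ m < H, ‖φ i m‖ ≤ 1) →
    (‖form r H P θ φ‖ * Real.log Y / H) ^ 2 ^ (r + 1) ≤ C * cube r (φ i0) 0 H := by
  classical
  obtain ⟨C1, hC1, hP⟩ := V.primeGow V.forms_all r
  obtain ⟨C2, hC2, hC⟩ := V.cs r
  refine ⟨max 1 ((3 * (6 * r + 2 : ℝ)) ^ 2 ^ (r + 1) * (C2 * C1 * (D : ℝ) ^ r)), le_max_left _ _,
    fun H Y P θ φ i0 hY hYH hHY hPY hθ hi0 hφ => ?_⟩
  refine le_trans ?_ (mul_le_mul_of_nonneg_right (le_max_right _ _) (V.cube_nonneg _ _ _ _))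
  set K : ℕ := r * (3 * Y) with hK
  set N : ℕ := 2 * H + 2 * K with hN
  have : NeZero N := ⟨by omega⟩
  set σ : ℕ → ℂ := fun p => if p ∈ P then θ p else 0 with hσ
  have hσ1 : ∀ p, ‖σ p‖ ≤ 1 := fun p => by
    simp only [hσ]; split_ifs
    · exact hθ p
    · simp
  set j0 : Fin (r + 1) := ⟨i0, Nat.lt_succ_iff.2 hi0⟩ with hj0
  set G : ℕ → ZMod N → ℂ := fun i n => win (φ i) 0 H (n.val : ℤ) with hG
  have hY0 : (0 : ℝ) < Y := by exact_mod_cast (show 0 < Y by omega)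
  have hH0 : (0 : ℝ) < H := by exact_mod_cast (show 0 < H by omega)
  have hN0 : (0 : ℝ) < N := by exact_mod_cast NeZero.pos N
  have hl : 0 < Real.log Y := Real.log_pos (by exact_mod_cast (show 1 < Y by omega))
  have h1 := hP Y (V.GvN.th σ Y) hY (V.GvN.th_le hσ1 Y) fun u => V.GvN.th_supp
  have h2 := hC N (3 * Y) K (V.GvN.th σ Y) (G i0) (fun j => G (j0.succAbove j)) i0
    (fun j => ((j0.succAbove j : ℕ) : ℤ)) (by omega)
    (fun u hu => by
      obtain ⟨p, hp, rfl⟩ := V.GvN.th_supp hu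
      have := V.mem_dy.1 hp
      omega)
    (fun j n => by
      simp only [hG, win_val]
      split_ifs with h
      · exact hφ _ (Nat.lt_succ_iff.1 (j0.succAbove j).2)
          (fun e => Fin.succAbove_ne j0 j (Fin.ext e)) _ h
      · simp)
    fun j => ⟨fun e => Fin.succAbove_ne j0 j (Fin.ext (by exact_mod_cast e)), by
      have e1 := (j0.succAbove j).2
      have e2 : |(i0 : ℤ) - ((j0.succAbove j : ℕ) : ℤ)| ≤ r := abs_le.2 ⟨by omega, by omega⟩
      rw [hK, Nat.cast_mul r]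
      exact mul_le_mul_of_nonneg_right e2 (by positivity)⟩
  rw [V.GvN.sum_th] at h2
  have e1 : ∑ p ∈ dy Y, σ p * Y / p * ∑ n : ZMod N, G i0 (n + (((p : ℤ) * (i0 : ℤ) : ℤ) : ZMod N)) *
      ∏ j : Fin r, G (j0.succAbove j) (n + (((p : ℤ) * ((j0.succAbove j : ℕ) : ℤ) : ℤ) : ZMod N)) =
      Y * form r H P θ φ := by
    rw [form, mul_sum, ← sum_subset hPY fun p _ hp => by simp [hσ, hp]]
    refine sum_congr rfl fun p hp => ?_
    have h3 := V.mem_dy.1 (hPY hp)
    rw [← cyc_sum r H N p (by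
      have : r * p ≤ r * (3 * Y) := Nat.mul_le_mul_left r (by omega)
      omega) φ]
    simp only [hσ, if_pos hp, ← Nat.cast_mul, Int.cast_natCast]
    rw [← mul_assoc]
    congr 1
    · ring
    · refine sum_congr rfl fun n _ => ?_
      rw [prod_range, Fin.prod_univ_succAbove _ j0]
  rw [e1] at h2
  have g1 : gow (3 * Y) r (V.GvN.th σ Y) / ((3 * Y : ℕ) : ℝ) ^ (r + 2) ≤
      C1 / Real.log Y ^ 2 ^ (r + 1) := by
    rw [div_le_iff₀ (by positivity), div_mul_eq_mul_div]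
    refine h1.trans ?_
    gcongr
    omega
  have g2 : V.glo K r (G i0) / ((N : ℝ) ^ 2 * ((3 * Y : ℕ) : ℝ) ^ r) ≤
      (D : ℝ) ^ r * cube r (φ i0) 0 H := by
    have e2 : V.glo K r (G i0) ≤ gow H r (win (φ i0) 0 H) :=
      (glo_le_U N K r (by omega) _).trans (le_of_eq (U_val H N r (by omega) (Nil.win_supp _ _ _)))
    have e3 : (H : ℝ) ≤ N := by exact_mod_cast (show H ≤ N by omega)
    have e4 : (H : ℝ) ≤ D * ((3 * Y : ℕ) : ℝ) := by
      exact_mod_cast hHY.trans (Nat.mul_le_mul_left D (by omega))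
    rw [cube, ← mul_div_assoc, div_le_div_iff₀ (by positivity) (by positivity)]
    have e5 : (H : ℝ) ^ (r + 2) ≤ (D : ℝ) ^ r * ((N : ℝ) ^ 2 * ((3 * Y : ℕ) : ℝ) ^ r) := by
      rw [pow_add, mul_left_comm, ← mul_pow, mul_comm]
      gcongr
    have e6 := V.gow_nonneg H r (win (φ i0) 0 H)
    calc _ ≤ gow H r (win (φ i0) 0 H) * ((D : ℝ) ^ r * ((N : ℝ) ^ 2 * ((3 * Y : ℕ) : ℝ) ^ r)) := by
          gcongr
      _ = _ := by ring
  have g3 := h2.trans (mul_le_mul (mul_le_mul_of_nonneg_left g1 hC2.le)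
      g2 (div_nonneg (V.glo_nonneg _ _ _) (by positivity)) (by positivity))
  have g4 : ‖form r H P θ φ‖ * Real.log Y / H ≤ (3 * (6 * r + 2 : ℝ)) *
      (Real.log Y * (‖(Y : ℂ) * form r H P θ φ‖ / (N * (3 * Y : ℕ)))) := by
    have e3 : (N : ℝ) ≤ (6 * r + 2) * H := by
      have : N ≤ (6 * r + 2) * H := by
        have : r * (3 * Y) ≤ r * (3 * H) := Nat.mul_le_mul_left r (by omega)
        rw [hN, hK]; nlinarith
      exact_mod_cast this
    rw [norm_mul, Complex.norm_natCast]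
    push_cast
    rw [show (3 * (6 * r + 2 : ℝ)) * (Real.log Y * ((Y : ℝ) * ‖form r H P θ φ‖ / (N * (3 * Y)))) =
      ‖form r H P θ φ‖ * Real.log Y / (N / (6 * r + 2)) by field_simp]
    gcongr
    rwa [div_le_iff₀ (by positivity), mul_comm]
  refine (pow_le_pow_left₀ (by positivity) g4 _).trans ?_
  rw [mul_pow, mul_pow (Real.log Y), mul_assoc]
  refine mul_le_mul_of_nonneg_left ((mul_le_mul_of_nonneg_left g3 (by positivity)).trans
    (le_of_eq ?_)) (by positivity)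
  field_simp

end Pool.Agent.P.MP_a14ce1_nt.Fu
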