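import Pool.Agent.P.MP_a14ce1_nt.Fu.Info

/-!
Approximate independence of the sets of large primes dividing finitely many distinct sites.
-/

open Finset

namespace Pool.Agent.P.MP_a14ce1_nt.Fu

section one
variable {σ β : Type} [Fintype σ] [DecidableEq σ] [Fintype β] [DecidableEq β]

theorem ind_fib (v : σ → β) (T : Finset σ) :
    ((univ.filter fun y : σ → β => (univ.filter fun b => y b = v b) = T).card : ℝ) =
      ((Fintype.card β : ℝ) - 1) ^ (Fintype.card σ - T.card) := by
  have e : (univ.filter fun y : σ → β => (univ.filter fun b => y b = v b) = T) =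
      Fintype.piFinset fun b => if b ∈ T then {v b} else univ.erase (v b) := by
    ext y
    simp only [mem_filter, mem_univ, true_and, Fintype.mem_piFinset]
    constructor
    · rintro rfl b
      by_cases h : y b = v b <;> simp [h]
    · intro h
      ext b
      have := h b
      by_cases hb : b ∈ T <;> simp_all
  rw [e, Fintype.card_piFinset]
  push_cast
  have : ∀ b, (((if b ∈ T then ({v b} : Finset β) else univ.erase (v b)).card : ℕ) : ℝ) =
      if b ∈ Tᶜ then (Fintype.card β : ℝ) - 1 else 1 := by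
    intro b
    by_cases hb : b ∈ T
    · simp [hb]
    · have h1 : 1 ≤ Fintype.card β := Fintype.card_pos_iff.2 ⟨v b⟩
      simp [hb, card_erase_of_mem, Nat.cast_sub h1]
  simp_rw [this]
  rw [prod_ite_mem, univ_inter, prod_const, card_compl]

/-- lower bound for the mean under independent residues -/
theorem ind_low [Nonempty β] (v : σ → β) (h : Finset σ → ℝ) (h0 : ∀ T, 0 ≤ h T) :
    (1 - (Fintype.card σ : ℝ) / Fintype.card β) * (h ∅ + (∑ b, h {b}) / Fintype.card β) ≤
      ex fun y : σ → β => h (univ.filter fun b => y b = v b) := by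
  set q : ℝ := (Fintype.card β : ℝ) with hq
  set n := Fintype.card σ with hn
  have q1 : 1 ≤ q := by rw [hq]; exact_mod_cast Fintype.card_pos
  have q0 : 0 < q := by linarith
  have hb : ∀ m : ℕ, m ≤ n → (1 - (n : ℝ) / q) * q ^ m ≤ (q - 1) ^ m := by
    intro m hm
    have h1 : 1 + (m : ℝ) * (-(1 / q)) ≤ (1 + -(1 / q)) ^ m :=
      one_add_mul_le_pow (by
        have : 1 / q ≤ 1 := by rw [div_le_one q0]; exact q1
        linarith) m
    have h2 : (q - 1) ^ m = (1 + -(1 / q)) ^ m * q ^ m := by
      rw [← mul_pow]; congr 1; field_simp; ring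
    rw [h2]
    refine mul_le_mul_of_nonneg_right (le_trans ?_ h1) (by positivity)
    have : (m : ℝ) / q ≤ n / q := div_le_div_of_nonneg_right (by exact_mod_cast hm) q0.le
    have e : (m : ℝ) * (-(1 / q)) = -(m / q) := by ring
    linarith
  have hs : ∑ y : σ → β, h (univ.filter fun b => y b = v b) =
      ∑ T : Finset σ, (q - 1) ^ (n - T.card) * h T := by
    rw [← sum_fiberwise (s := univ) (g := fun y : σ → β => univ.filter fun b => y b = v b)]
    refine sum_congr rfl fun T _ => ?_
    rw [← ind_fib v T, sum_congr rfl (g := fun _ => h T), sum_const, nsmul_eq_mul]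
    intro y hy
    rw [(mem_filter.1 hy).2]
  have hc : (Fintype.card (σ → β) : ℝ) = q ^ n := by
    rw [Fintype.card_fun]; push_cast; rfl
  rw [ex, hs, hc, le_div_iff₀ (by positivity)]
  have hsub : ∑ T ∈ insert ∅ (univ.map ⟨singleton, singleton_injective⟩ : Finset (Finset σ)),
      (q - 1) ^ (n - T.card) * h T ≤ ∑ T : Finset σ, (q - 1) ^ (n - T.card) * h T :=
    sum_le_sum_of_subset_of_nonneg (subset_univ _) fun T _ _ =>
      mul_nonneg (pow_nonneg (by linarith) _) (h0 T)
  refine le_trans ?_ hsub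
  rw [sum_insert (by simp), sum_map]
  simp only [card_empty, Nat.sub_zero, Function.Embedding.coeFn_mk, card_singleton]
  rw [mul_add, add_mul]
  refine add_le_add ?_ ?_
  · calc (1 - (n : ℝ) / q) * h ∅ * q ^ n = (1 - (n : ℝ) / q) * q ^ n * h ∅ := by ring
      _ ≤ _ := mul_le_mul_of_nonneg_right (hb n le_rfl) (h0 _)
  · rw [sum_div, mul_sum, sum_mul]
    refine sum_le_sum fun b _ => ?_
    have n1 : 1 ≤ n := Fintype.card_pos_iff.2 ⟨b⟩
    have e : q ^ n = q ^ (n - 1) * q := by rw [← pow_succ, Nat.sub_add_cancel n1]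
    calc (1 - (n : ℝ) / q) * (h {b} / q) * q ^ n = (1 - (n : ℝ) / q) * q ^ (n - 1) * h {b} := by
          rw [e]; field_simp
      _ ≤ _ := mul_le_mul_of_nonneg_right (hb _ (Nat.sub_le _ _)) (h0 _)

omit [DecidableEq σ] in
/-- upper bound for the mean under one common residue -/
theorem ind_up [Nonempty β] (v : σ → β) (h : Finset σ → ℝ) (c : σ → ℝ) (hc : ∀ b, 0 ≤ c b)
    (hh : ∀ b, h (univ.filter fun b' => v b = v b') ≤ h ∅ + c b) :
    (ex fun x : β => h (univ.filter fun b => x = v b)) ≤
      h ∅ + (∑ b, c b) / Fintype.card β := by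
  have q0 : (0 : ℝ) < Fintype.card β := card_pos'
  have h1 : ∀ x : β, h (univ.filter fun b => x = v b) ≤
      h ∅ + ∑ b, if x = v b then c b else 0 := by
    intro x
    by_cases hx : ∃ b, x = v b
    · obtain ⟨b, rfl⟩ := hx
      refine (hh b).trans (add_le_add le_rfl ?_)
      have := single_le_sum (f := fun b' => if v b = v b' then c b' else 0)
        (fun b' _ => by split_ifs; exacts [hc _, le_rfl]) (mem_univ b)
      simpa using this
    · push Not at hx
      simp [hx]
  refine (ex_mono h1).trans (le_of_eq ?_)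
  rw [ex_add, ex_const, ex_sum, sum_div]
  congr 1
  refine sum_congr rfl fun b _ => ?_
  simp [ex]

theorem ind_one' [Nonempty β] (v : σ → β) (h : Finset σ → ℝ) {K τ : ℝ}
    (h0 : ∀ T, 0 ≤ h T) (hK : ∀ T, h T ≤ K)
    (hτ : (Function.Injective v ∧ ((Fintype.card σ : ℝ) / Fintype.card β) ^ 2 ≤ τ) ∨
      (Fintype.card σ : ℝ) / Fintype.card β ≤ τ) :
    (ex fun x : β => h (univ.filter fun b => x = v b)) -
      (ex fun y : σ → β => h (univ.filter fun b => y b = v b)) ≤ K * τ := by
  have q0 : (0 : ℝ) < Fintype.card β := card_pos'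
  have K0 : 0 ≤ K := (h0 ∅).trans (hK ∅)
  have hl := ind_low v h h0
  set q : ℝ := (Fintype.card β : ℝ) with hq
  set n : ℝ := (Fintype.card σ : ℝ) with hn
  have n0 : 0 ≤ n := Nat.cast_nonneg _
  have S0 : 0 ≤ ∑ b, h {b} := sum_nonneg fun b _ => h0 _
  rcases hτ with ⟨hi, hτ⟩ | hτ
  · -- shift so that the increments are nonnegative
    have h1 : ∀ x : β, h (univ.filter fun b => x = v b) =
        h ∅ + ∑ b, if x = v b then h {b} - h ∅ else 0 := by
      intro x
      by_cases hx : ∃ b, x = v b
      · obtain ⟨b, rfl⟩ := hx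
        have e : (univ.filter fun b' => v b = v b') = {b} := by
          ext b'; simp [hi.eq_iff, eq_comm]
        rw [e]
        simp [hi.eq_iff]
      · push Not at hx
        simp [hx]
    have h2 : (ex fun x : β => h (univ.filter fun b => x = v b)) =
        (1 - n / q) * h ∅ + (∑ b, h {b}) / q := by
      rw [ex_congr h1, ex_add, ex_const, ex_sum]
      have : ∀ b, (ex fun x : β => if x = v b then h {b} - h ∅ else 0) = (h {b} - h ∅) / q := by
        intro b; simp [ex, hq]
      simp_rw [this]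
      rw [← sum_div, sum_sub_distrib, sum_const, card_univ, nsmul_eq_mul, ← hn]
      field_simp; ring
    have h3 : ∑ b, h {b} ≤ n * K := by
      have := sum_le_card_nsmul univ (fun b => h {b}) K fun b _ => hK _
      rwa [card_univ, nsmul_eq_mul] at this
    have h4 : n / q * ((∑ b, h {b}) / q) ≤ K * τ := by
      calc n / q * ((∑ b, h {b}) / q) ≤ n / q * (n * K / q) :=
            mul_le_mul_of_nonneg_left (div_le_div_of_nonneg_right h3 q0.le) (by positivity)
        _ = K * (n / q) ^ 2 := by ring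
        _ ≤ _ := mul_le_mul_of_nonneg_left hτ K0
    rw [h2]
    nlinarith
  · have hu := ind_up v h (fun _ => K - h ∅) (fun _ => sub_nonneg.2 (hK _))
      (fun b => by have := hK (univ.filter fun b' => v b = v b'); linarith)
    rw [sum_const, card_univ, nsmul_eq_mul, ← hn, ← hq] at hu
    have h5 : K * (n / q) ≤ K * τ := mul_le_mul_of_nonneg_left hτ K0
    have e : n * (K - h ∅) / q = K * (n / q) - n / q * h ∅ := by ring
    by_cases hnq : n / q ≤ 1
    · have : 0 ≤ (1 - n / q) * ((∑ b, h {b}) / q) := mul_nonneg (by linarith) (by positivity)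
      nlinarith
    · have h6 : 0 ≤ ex fun y : σ → β => h (univ.filter fun b => y b = v b) :=
        ex_nonneg fun _ => h0 _
      have h7 : (ex fun x : β => h (univ.filter fun b => x = v b)) ≤ K :=
        ex_le K0 fun _ => hK _
      have : K * 1 ≤ K * (n / q) := mul_le_mul_of_nonneg_left (by linarith) K0
      linarith

/-- one coordinate -/
theorem ind_one [Nonempty β] (v : σ → β) (h : Finset σ → ℝ) {a K τ : ℝ}
    (h0 : ∀ T, a ≤ h T) (hK : ∀ T, h T ≤ a + K)
    (hτ : (Function.Injective v ∧ ((Fintype.card σ : ℝ) / Fintype.card β) ^ 2 ≤ τ) ∨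
      (Fintype.card σ : ℝ) / Fintype.card β ≤ τ) :
    |(ex fun x : β => h (univ.filter fun b => x = v b)) -
      (ex fun y : σ → β => h (univ.filter fun b => y b = v b))| ≤ K * τ := by
  have h1 := ind_one' v (fun T => h T - a) (K := K) (fun T => sub_nonneg.2 (h0 T))
    (fun T => by have := hK T; linarith) hτ
  have h2 := ind_one' v (fun T => a + K - h T) (K := K) (fun T => sub_nonneg.2 (hK T))
    (fun T => by have := h0 T; linarith) hτ
  rw [ex_sub, ex_sub, ex_const, ex_const] at h1 h2
  rw [abs_le]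
  constructor <;> linarith

end one

section hyb
variable {ι σ : Type} [Fintype ι] [DecidableEq ι] [Fintype σ] [DecidableEq σ]
  {α : ι → Type} [∀ i, Fintype (α i)] [∀ i, DecidableEq (α i)] [∀ i, Nonempty (α i)]

/-- the hybrid pattern: independent residues at the indices of S, common residues elsewhere -/
def indPat (v : σ → ∀ i, α i) (S : Finset ι) (ω : (∀ i, α i) × (σ → ∀ i, α i)) (b : σ) :
    Finset ι :=
  univ.filter fun i => (if i ∈ S then ω.2 b i else ω.1 i) = v b i

omit [Fintype σ] [DecidableEq σ] [∀ i, Fintype (α i)] [∀ i, Nonempty (α i)] in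
theorem mem_indPat {v : σ → ∀ i, α i} {S : Finset ι} {ω : (∀ i, α i) × (σ → ∀ i, α i)} {b : σ}
    {i : ι} : i ∈ indPat v S ω b ↔ (if i ∈ S then ω.2 b i else ω.1 i) = v b i := by
  simp [indPat]

/-- resampling of one coordinate -/
def indRes (i : ι) (ω : (∀ i, α i) × (σ → ∀ i, α i)) (z : α i × (σ → α i)) :
    (∀ i, α i) × (σ → ∀ i, α i) :=
  (Function.update ω.1 i z.1, fun b => Function.update (ω.2 b) i (z.2 b))

omit [∀ i, DecidableEq (α i)] in
theorem ex_indRes (i : ι) (F : (∀ i, α i) × (σ → ∀ i, α i) → ℝ) :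
    ex F = ex fun ω => ex fun z => F (indRes i ω z) := by
  let f : ((∀ i, α i) × (σ → ∀ i, α i)) × (α i × (σ → α i)) →
      ((∀ i, α i) × (σ → ∀ i, α i)) × (α i × (σ → α i)) :=
    fun p => (indRes i p.1 p.2, (p.1.1 i, fun b => p.1.2 b i))
  have hf : Function.Involutive f := by
    rintro ⟨⟨x, y⟩, z, w⟩
    simp [f, indRes]
  have h1 := ex_equiv (hf.toPerm f) fun p => F p.1
  rw [ex_prod, ex_prod (fun p => F p.1)] at h1
  simp only [ex_const] at h1
  exact h1.symm

theorem ind_step (v : σ → ∀ i, α i) (G : (σ → Finset ι) → ℝ) {a K τ : ℝ}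
    (h0 : ∀ A, a ≤ G A) (hK : ∀ A, G A ≤ a + K) (S : Finset ι) (i : ι) (hi : i ∉ S)
    (hτ : (Function.Injective (fun b => v b i) ∧
        ((Fintype.card σ : ℝ) / Fintype.card (α i)) ^ 2 ≤ τ) ∨
      (Fintype.card σ : ℝ) / Fintype.card (α i) ≤ τ) :
    |(ex fun ω => G (indPat v S ω)) - ex fun ω => G (indPat v (insert i S) ω)| ≤ K * τ := by
  rw [ex_indRes i, ex_indRes i (fun ω => G (indPat v (insert i S) ω)), ← ex_sub]
  refine (abs_ex_le _).trans ((ex_mono fun ω => ?_).trans (ex_const _).le)
  let h : Finset σ → ℝ := fun T => G fun b =>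
    if b ∈ T then insert i ((indPat v S ω b).erase i) else (indPat v S ω b).erase i
  have e1 : ∀ z : α i × (σ → α i), G (indPat v S (indRes i ω z)) =
      h (univ.filter fun b => z.1 = v b i) := by
    intro z
    simp only [h]
    congr 1
    ext b j
    by_cases hj : j = i
    · subst hj
      by_cases hz : z.1 = v b j <;> simp [mem_indPat, indRes, hi, hz]
    · by_cases hz : z.1 = v b i <;> simp [mem_indPat, indRes, hj, hz]
  have e2 : ∀ z : α i × (σ → α i), G (indPat v (insert i S) (indRes i ω z)) =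
      h (univ.filter fun b => z.2 b = v b i) := by
    intro z
    simp only [h]
    congr 1
    ext b j
    by_cases hj : j = i
    · subst hj
      by_cases hz : z.2 b = v b j <;> simp [mem_indPat, indRes, hz]
    · by_cases hz : z.2 b = v b i <;> simp [mem_indPat, indRes, hj, hz]
  rw [ex_congr e1, ex_congr e2, ex_prod, ex_prod]
  simp only [ex_const]
  exact ind_one (fun b => v b i) h (fun T => h0 _) (fun T => hK _) hτ

/-- IND, total variation form: common residues against independent residues -/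
theorem ind_tv (v : σ → ∀ i, α i) (G : (σ → Finset ι) → ℝ) {a K : ℝ} (τ : ι → ℝ)
    (h0 : ∀ A, a ≤ G A) (hK : ∀ A, G A ≤ a + K)
    (hτ : ∀ i, (Function.Injective (fun b => v b i) ∧
        ((Fintype.card σ : ℝ) / Fintype.card (α i)) ^ 2 ≤ τ i) ∨
      (Fintype.card σ : ℝ) / Fintype.card (α i) ≤ τ i) :
    |(ex fun x : ∀ i, α i => G fun b => univ.filter fun i => x i = v b i) -
      ex fun y : σ → ∀ i, α i => G fun b => univ.filter fun i => y b i = v b i| ≤
      K * ∑ i, τ i := by
  have key : ∀ S : Finset ι, |(ex fun ω => G (indPat v ∅ ω)) - ex fun ω => G (indPat v S ω)| ≤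
      K * ∑ i ∈ S, τ i := by
    intro S
    induction S using Finset.induction_on with
    | empty => simp
    | insert i S hi ih =>
      have := ind_step v G h0 hK S i hi (hτ i)
      rw [sum_insert hi, mul_add]
      refine (abs_sub_le _ (ex fun ω => G (indPat v S ω)) _).trans ?_
      linarith
  have h := key univ
  rw [ex_prod, ex_prod (fun ω => G (indPat v univ ω))] at h
  have e1 : ∀ (x : ∀ i, α i) (y : σ → ∀ i, α i),
      indPat v ∅ (x, y) = fun b => univ.filter fun i => x i = v b i := by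
    intro x y; ext b i; simp [indPat]
  have e2 : ∀ (x : ∀ i, α i) (y : σ → ∀ i, α i),
      indPat v univ (x, y) = fun b => univ.filter fun i => y b i = v b i := by
    intro x y; ext b i; simp [indPat]
  simp only [e1, e2, ex_const] at h
  exact h

/-- the mean of a product of functions of independent copies -/
theorem ex_pi_prod {Ω : Type} [Fintype Ω] (w : σ → Ω → ℝ) :
    (ex fun y : σ → Ω => ∏ b, w b (y b)) = ∏ b, ex (w b) := by
  simp only [ex]
  rw [prod_div_distrib, Fintype.prod_sum, Fintype.card_fun, prod_const, card_univ]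
  push_cast
  rfl

/-- IND, product form, nonnegative factors -/
theorem ind_prod (v : σ → ∀ i, α i) (w : σ → Finset ι → ℝ) (Om : σ → ℝ) (τ : ι → ℝ)
    (h0 : ∀ b A, 0 ≤ w b A) (hK : ∀ b A, w b A ≤ Om b)
    (hτ : ∀ i, (Function.Injective (fun b => v b i) ∧
        ((Fintype.card σ : ℝ) / Fintype.card (α i)) ^ 2 ≤ τ i) ∨
      (Fintype.card σ : ℝ) / Fintype.card (α i) ≤ τ i) :
    |(ex fun x : ∀ i, α i => ∏ b, w b (univ.filter fun i => x i = v b i)) -
      ∏ b, ex fun x : ∀ i, α i => w b (univ.filter fun i => x i = v b i)| ≤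
      (∏ b, Om b) * ∑ i, τ i := by
  rw [← ex_pi_prod]
  exact ind_tv v (fun A => ∏ b, w b (A b)) (a := 0) τ (fun A => prod_nonneg fun b _ => h0 _ _)
    (fun A => by rw [zero_add]; exact prod_le_prod (fun b _ => h0 _ _) fun b _ => hK _ _) hτ

/-- IND, product form, signed factors -/
theorem ind_prod_abs (v : σ → ∀ i, α i) (w : σ → Finset ι → ℝ) (Om : σ → ℝ) (τ : ι → ℝ)
    (hK : ∀ b A, |w b A| ≤ Om b)
    (hτ : ∀ i, (Function.Injective (fun b => v b i) ∧
        ((Fintype.card σ : ℝ) / Fintype.card (α i)) ^ 2 ≤ τ i) ∨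
      (Fintype.card σ : ℝ) / Fintype.card (α i) ≤ τ i) :
    |(ex fun x : ∀ i, α i => ∏ b, w b (univ.filter fun i => x i = v b i)) -
      ∏ b, ex fun x : ∀ i, α i => w b (univ.filter fun i => x i = v b i)| ≤
      2 * (∏ b, Om b) * ∑ i, τ i := by
  rw [← ex_pi_prod]
  have hb : ∀ A : σ → Finset ι, |∏ b, w b (A b)| ≤ ∏ b, Om b := fun A => by
    rw [abs_prod]; exact prod_le_prod (fun b _ => abs_nonneg _) fun b _ => hK _ _
  exact ind_tv v (fun A => ∏ b, w b (A b)) (a := -∏ b, Om b) τ (fun A => (abs_le.1 (hb A)).1)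
    (fun A => by have := (abs_le.1 (hb A)).2; linarith) hτ

end hyb

end Pool.Agent.P.MP_a14ce1_nt.Fu
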