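import Pool.Agent.P.MP_a14ce1_nt.Fu.St
import Pool.Agent.P.MP_a14ce1_nt.Ch.All

/-! The case of one factor: the mean of the Liouville function tends to zero. -/

open Finset

namespace Pool.Agent.P.MP_a14ce1_nt.Fu.St

open Ch (lam)

namespace K1

theorem shift (X j : ℕ) :
    |∑ x ∈ range X, lam x - ∑ x ∈ range X, lam (x + j)| ≤ 2 * j := by
  induction j with
  | zero => simp
  | succ j ih =>
    have h1 := sum_range_succ (fun x => lam (x + j)) X
    have h2 := sum_range_succ' (fun x => lam (x + j)) X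
    have h3 : ∑ x ∈ range X, lam (x + 1 + j) = ∑ x ∈ range X, lam (x + (j + 1)) :=
      sum_congr rfl fun x _ => by rw [add_assoc, add_comm 1 j]
    have h4 := abs_le.1 (Ch.abs_lam (X + j)).le
    have h5 := abs_le.1 (Ch.abs_lam (0 + j)).le
    have h6 := abs_le.1 ih
    rw [h3] at h2
    push_cast
    exact abs_le.2 ⟨by linarith [h4.1, h4.2, h5.1, h5.2, h6.1], by
      linarith [h4.1, h4.2, h5.1, h5.2, h6.2]⟩

theorem icc (X : ℕ) : ∑ n ∈ Icc 1 X, lam n = ∑ x ∈ range X, lam (x + 1) := by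
  induction X with
  | zero => simp
  | succ X ih => rw [sum_Icc_succ_top (by omega), sum_range_succ, ih]

end K1

theorem s_k1 : S_K1 := by
  intro δ hδ
  obtain ⟨R0, hR⟩ := Ch.classes Ch.mrchar_all 1 (δ / 2) one_pos (half_pos hδ)
  obtain ⟨X0, hX⟩ := hR (R0 + 1) (Nat.le_succ _) 0
  generalize hRR : R0 + 1 = R at hX
  have hR1 : (1 : ℝ) ≤ R := by rw [← hRR]; push_cast; linarith [(Nat.cast_nonneg R0 : (0 : ℝ) ≤ R0)]
  refine ⟨max X0 ⌈8 * R / δ⌉₊, fun X h => ?_⟩
  have h1 := hX X (le_of_max_le_left h)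
  have h2 : 8 * (R : ℝ) ≤ X * δ := by
    rw [← div_le_iff₀ hδ]
    exact Nat.ceil_le.1 (le_of_max_le_right h)
  simp only [Nat.modEq_one, filter_true] at h1
  have h3 : |∑ j ∈ range R, ∑ x ∈ range X, lam (x + j)| ≤ δ / 2 * R * X := by
    rw [sum_comm]
    exact (abs_sum_le_sum_abs _ _).trans h1
  have h4 : |∑ j ∈ range R, (∑ x ∈ range X, lam x - ∑ x ∈ range X, lam (x + j))| ≤ R * (2 * R) := by
    refine (abs_sum_le_sum_abs _ _).trans
      ((sum_le_card_nsmul _ _ (2 * (R : ℝ)) fun j hj => ?_).trans ?_)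
    · have : (j : ℝ) ≤ R := by exact_mod_cast (mem_range.1 hj).le
      linarith [K1.shift X j]
    · rw [card_range, nsmul_eq_mul]
  rw [sum_sub_distrib, sum_const, card_range, nsmul_eq_mul] at h4
  have h5 : |∑ x ∈ range X, lam x| ≤ δ / 2 * X + 2 * R := by
    refine le_of_mul_le_mul_left ?_ (by linarith : (0 : ℝ) < R)
    have := abs_sub_abs_le_abs_sub ((R : ℝ) * ∑ x ∈ range X, lam x)
      (∑ j ∈ range R, ∑ x ∈ range X, lam (x + j))
    rw [abs_mul, Nat.abs_cast] at this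
    linarith
  have h6 := K1.shift X 1
  have h7 := abs_sub_abs_le_abs_sub (∑ x ∈ range X, lam (x + 1)) (∑ x ∈ range X, lam x)
  rw [abs_sub_comm] at h7
  rw [K1.icc]
  push_cast at h6
  linarith

end Pool.Agent.P.MP_a14ce1_nt.Fu.St
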