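import Pool.Agent.P.MP_a14ce1_nt.Fu.L8CoreA

/-!
The compensated core, second half: terms with two blocks, terms with one block, assembly.
-/

open Finset Function

namespace Pool.Agent.P.MP_a14ce1_nt.Fu.L8

open Nil.ES

variable {ι : Type} [Fintype ι] [DecidableEq ι] {μ : Wt ℕ} {X : Set (ℕ → ℂ)} {g : ι → Pr}
  {o o' : ι} {S1 : Finset ι} {B γ : Pr} {b l0 : ℕ} {Θ : Type} {W τ : ℝ} {T : Finset Θ}
  {val : Θ → ℕ} {co : Θ → ℝ} {F u : (ι → ℕ) → ℕ → ℂ} {M U : Finset ι → (ι → ℕ) → ℕ → ℂ} {E I : ℝ}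

theorem card_low {T T' : Finset ι} (a1 : cf (lo ι l0) T ≠ 0)
    (a2 : cf (lo ι l0) T' ≠ 0) : ((T ∪ T') ∩ S1).card ≤ 2 * l0 := by
  have := cf_lo_ne_zero a1
  have := cf_lo_ne_zero a2
  have := card_union_le T T'
  have := card_le_card (inter_subset_left : (T ∪ T') ∩ S1 ⊆ T ∪ T')
  omega

omit [DecidableEq ι] in
theorem syn_fun (c : Finset ι → ℝ) (N : Θ → Finset ι → (ι → ℕ) → ℕ → ℂ) (θ : Θ) :
    syn c (fun T θ => N θ T) θ = syn c (N θ) := by
  simp only [syn, Finset.sum_apply, Pi.smul_apply]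

/-- the lift is valid against a dominated family of tests -/
theorem off (hX : Cl X) (hoo : o ≠ o') (ho : o ∉ S1) (ho' : o' ∉ S1) (h0 : 0 < τ) (h1 : τ ≤ 1)
    (hW : 0 < W) (hf : FsAll (sysB μ hX b) (update g o B) (insert o S1) (τ ^ 4))
    (hL : ∀ a : ι → ℕ, (∀ k ∈ S1, a k ∈ (g k).s) → ∀ S ⊆ S1, S.card ≤ 2 * l0 →
      LowB μ X (b * lv S a) B γ g (S1 \ S) (τ ^ 4))
    (hB : Blk (sysB μ hX b) (update g o B) o S1 l0 F M U u
      (7 * (Fintype.card ι + 1) ^ 2 * τ ^ 2) E I) (h : Dom γ W T val co)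
    {N : Θ → Finset ι → (ι → ℕ) → ℕ → ℂ} (hN : ∀ θ T', N θ T' ∈ CC (sysOf μ hX) (T' ∩ S1)) :
    |∑ θ ∈ T, co θ * (JB μ (b * val θ) (update g o B) (insert o S1) (low l0 M) (low l0 (N θ)) -
        JB μ (b * val θ) (update g o B) S1 (low l0 U) (low l0 (N θ)))| ≤
      4 ^ Fintype.card ι * (4 ^ Fintype.card ι * (W * (20 * (Fintype.card ι + 1) * τ))) := by
  have a := bil_syn (c := cf (lo ι l0)) (M := fun T' (_ : Θ) => M T') (U := fun T' (_ : Θ) => U T')
    (M' := fun T' θ => N θ T') (U' := fun T' θ => N θ T')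
    (SF μ b (update g o B) (insert o S1) T val co) (SF μ b (update g o B) S1 T val co)
    (e := W * (20 * (Fintype.card ι + 1) * τ)) (by positivity) (sum_abs_cf_le (lo ι l0))
    fun T1 T2 a1 a2 => by
      have sl : T1 ∩ S1 ⊆ (T1 ∪ T2) ∩ S1 := inter_subset_inter_right subset_union_left
      have sr : T2 ∩ S1 ⊆ (T1 ∪ T2) ∩ S1 := inter_subset_inter_right subset_union_right
      have hS : (T1 ∪ T2) ∩ S1 ⊆ S1 := inter_subset_right
      obtain ⟨G, g1, g2⟩ := collect (g := update g o B) (b := b) hX h hW (notMem_mono hS ho')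
        (y := fun θ => N θ T2) fun θ => CC_mono sr (hN θ T2)
      have a3 := (lowB_of hX hoo ho ho' hS fun a ha => hL a ha _ hS (card_low a1 a2)).off hoo ho ho'
        hS hf h0 h1 (fun a ha => by
          rw [update_self]
          exact (ext_sysB hX).2 (hL a (mem_supp2 hoo ho ho' ha).1 _ hS (card_low a1 a2)).ext)
        (CC_mono (insert_subset_insert _ sl) (hB.hM T1)) (CC_mono sl (hB.hU T1)) (hB.lM T1) g1
      rw [SF_apply, SF_apply, ← g2 _ _ (by simp [hoo.symm, ho'])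
        ((hB.hM T1).2.mono (insert_subset_insert _ inter_subset_right)),
        ← g2 _ _ ho' ((hB.hU T1).2.mono inter_subset_right), ← mul_sub, abs_mul, abs_of_pos hW]
      exact mul_le_mul_of_nonneg_left a3 hW.le
  rw [SF_apply, SF_apply, ← sum_sub_distrib] at a
  simp only [syn_fun, ← mul_sub] at a
  exact a

/-- the terms with one block -/
theorem dia (hX : Cl X) (ho : o ∉ S1) (h0 : 0 < τ) (hW : 1 ≤ W) {om : ℝ} (om0 : 0 ≤ om)
    (hp : ∀ q ∈ B.s, q.Prime ∧ B.w q * q ≤ om)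
    (hf : FsAll (sysB μ hX b) (update g o B) (insert o S1) (τ ^ 4))
    (hL : ∀ a : ι → ℕ, (∀ k ∈ S1, a k ∈ (g k).s) → ∀ S ⊆ S1, S.card ≤ 2 * l0 →
      LowB μ X (b * lv S a) B γ g (S1 \ S) (τ ^ 4)) {ω : ℝ}
    (hB : Blk (sysB μ hX b) (update g o B) o S1 l0 F M U u ω E I) (h : Dom γ W T val co)
    (hk : ∀ N, 0 ≤ ∑ θ ∈ T, co θ * if b * val θ ∣ N then (val θ : ℝ) else 0)
    (hc : ∀ θ ∈ T, (∀ a ∈ supp g, (lv S1 a).Coprime (val θ)) ∧ ∀ q ∈ B.s, q.Coprime (val θ))
    {E' : ℝ} (e1 : E + 3 * (4 ^ Fintype.card ι * (4 ^ Fintype.card ι * ω)) ≤ E') (e2 : E ≤ E')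
    (e3 : 4 ^ Fintype.card ι * (4 ^ Fintype.card ι * ((Fintype.card ι + 3) * τ ^ 4)) ≤ E') :
    SD μ b g S1 T val co (hb b o S1 B (low l0 M) - low l0 U) (hb b o S1 B (low l0 M) - low l0 U) ≤
      8 * (|∑ θ ∈ T, co θ| * (1 + om)) + 8 * (W * (1 + om) * E') := by
  set D := ∑ θ ∈ T, co θ with hD
  set g' := update g o B with hg'
  set l : ℝ := ((Fintype.card ι : ℕ) : ℝ) with hl
  have l0' : 0 ≤ l := Nat.cast_nonneg _
  have W0 : 0 ≤ W := by linarith
  have t4 : 0 < τ ^ 4 := by positivity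
  have hDW : |D| ≤ W := h.abs_le
  have dM : Dep (insert o S1) (low l0 M) := Dep.syn _ fun T =>
    (hB.hM T).2.mono (insert_subset_insert _ inter_subset_right)
  have dU : Dep S1 (low l0 U) := Dep.syn _ fun T => (hB.hU T).2.mono inter_subset_right
  have a1 : SD μ b g S1 T val co (hb b o S1 B (low l0 M) - low l0 U)
      (hb b o S1 B (low l0 M) - low l0 U) ≤
      2 * (B.E (fun q' => SD μ (b * q') g' (insert o S1) T val co (low l0 M) (low l0 M)) +
        om * SD μ b g' (insert o S1) T val co (low l0 M) (low l0 M)) +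
      2 * SD μ b g' S1 T val co (low l0 U) (low l0 U) := by
    simp only [SD_apply, JB_apply, ← Ew_sum, ← Ew_E]
    rw [hg', Ew_update, Ew_update, Ew_update, ← Ew_mul, ← Ew_add, ← Ew_mul, ← Ew_mul, ← Ew_add]
    refine Ew_le g fun a ha => ?_
    have b1 := br_hq_self (tw μ _ hk) (b * lv S1 a) (fun q hq => (hp q hq).1) zero_le_one
      (d := om) (fun q hq => by rw [one_mul]; exact (hp q hq).2) fun q => low l0 M (update a o q)
    have b2 := br_nonneg (tw μ _ hk) (b * lv S1 a) (hb b o S1 B (low l0 M) a + low l0 U a)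
    have b3 : ∀ φ ψ, br (tw μ _ hk) (b * lv S1 a) φ ψ = _ :=
      br_tw μ T val co b hk fun θ hθ => (hc θ hθ).1 a ha
    have b4 : (B.E fun q => br (tw μ _ hk) (b * lv S1 a * q) (low l0 M (update a o q))
        (low l0 M (update a o q))) = B.E fun q => ∑ θ ∈ T, co θ * br μ (b * val θ * (lv S1 a * q))
          (low l0 M (update a o q)) (low l0 M (update a o q)) :=
      sum_congr rfl fun q hq => congrArg _ (by
        beta_reduce
        rw [mul_assoc]
        exact br_tw μ T val co b hk (fun θ hθ => Nat.Coprime.mul_left ((hc θ hθ).1 a ha)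
          ((hc θ hθ).2 q hq)) _ _)
    have b5 : (B.E fun q => B.E fun q' => br (tw μ _ hk) (b * lv S1 a * q * q')
        (low l0 M (update a o q)) (low l0 M (update a o q))) = B.E fun q => B.E fun q' =>
          ∑ θ ∈ T, co θ * br μ (b * q' * val θ * (lv S1 a * q))
            (low l0 M (update a o q)) (low l0 M (update a o q)) :=
      sum_congr rfl fun q hq => congrArg _ (sum_congr rfl fun q' hq' => congrArg _ (by
        beta_reduce
        rw [mul_assoc, mul_assoc, br_tw μ T val co b hk (fun θ hθ => Nat.Coprime.mul_left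
          ((hc θ hθ).1 a ha) (Nat.Coprime.mul_left ((hc θ hθ).2 q hq) ((hc θ hθ).2 q' hq')))]
        exact sum_congr rfl fun θ _ => by congr 2; ring))
    rw [one_mul, one_mul, b4, b5] at b1
    simp only [lv_insert_update ho, (dep_lv S1).update ho, dU.update ho, Pr.E_const, ← b3,
      Pi.sub_apply]
    have b6 : hb b o S1 B (low l0 M) a - low l0 U a =
        hb b o S1 B (low l0 M) a + (-1 : ℝ) • low l0 U a := by
      rw [neg_one_smul, sub_eq_add_neg]
    rw [b6]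
    simp only [br, Wt.ip_add_left, Wt.ip_add_right, Wt.ip_smul_left, Wt.ip_smul_right, hb] at b1 b2 ⊢
    linarith
  have sub : ∀ {T1 T2 : Finset ι}, T1 ∩ S1 ⊆ (T1 ∪ T2) ∩ S1 ∧ T2 ∩ S1 ⊆ (T1 ∪ T2) ∩ S1 :=
    ⟨inter_subset_inter_right subset_union_left, inter_subset_inter_right subset_union_right⟩
  have fin : ∀ {x y z k : ℝ}, |x - D * y| ≤ 2 * (W * τ ^ 4) → |y - z| ≤ k * τ ^ 4 → k ≤ l + 1 →
      |x - D * z| ≤ W * ((l + 3) * τ ^ 4) := fun {x y z k} c1 c2 c3 => by
    have c4 : |D * (y - z)| ≤ W * ((l + 1) * τ ^ 4) := by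
      rw [abs_mul]
      exact mul_le_mul hDW (c2.trans (mul_le_mul_of_nonneg_right c3 t4.le)) (abs_nonneg _) W0
    rw [abs_le] at *
    constructor <;> linarith [c1.1, c1.2, c4.1, c4.2]
  have low1 : ∀ S ⊆ S1, S.card ≤ 2 * l0 → ∀ z ∈ supp g',
      LowB μ X (b * lv S z) B γ g (S1 \ S) (τ ^ 4) := fun S hS hc z hz =>
    hL z (mem_supp1 ho hz).1 S hS hc
  have un : ∀ S ⊆ S1, insert o S ∪ S1 \ S = insert o S1 := fun S hS => by
    rw [insert_union, union_sdiff_of_subset hS]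
  have od : ∀ S : Finset ι, o ∉ S1 \ S := fun S => notMem_mono sdiff_subset ho
  have dj : ∀ S : Finset ι, Disjoint (insert o S) (S1 \ S) := fun S =>
    disjoint_insert_left.2 ⟨od S, disjoint_sdiff⟩
  have a2 := bil_syn (c := cf (lo ι l0)) (M := M) (U := M) (M' := M) (U' := M)
    (∑ q' ∈ B.s, B.w q' • SD μ (b * q') g' (insert o S1) T val co)
    (D • JB μ b g' (insert o S1)) (e := W * ((l + 3) * τ ^ 4)) (by positivity)
    (sum_abs_cf_le (lo ι l0)) fun T1 T2 c1 c2 => by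
      have hS : (T1 ∪ T2) ∩ S1 ⊆ S1 := inter_subset_right
      have n1 := notMem_mono hS ho
      have m1 := CC_mono (insert_subset_insert o (sub (T1 := T1) (T2 := T2)).1) (hB.hM T1)
      have m2 := CC_mono (insert_subset_insert o (sub (T1 := T1) (T2 := T2)).2) (hB.hM T2)
      have H := low1 _ hS (card_low c1 c2)
      have c3 := abs_E_sub_le B (h := fun q' => SD μ (b * q') g' (insert o S1) T val co (M T1) (M T2))
        (h' := fun q' => D * JB μ (b * q') g' (insert o ((T1 ∪ T2) ∩ S1)) (M T1) (M T2))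
        (e := 2 * (W * τ ^ 4)) fun q' hq' => by
          rw [← un _ hS]
          refine drop hX h W0 (dj _) (fun z hz v hv => ?_) (fun z hz => ?_) m1 m2
          · have := fsC_update ((H z hz).fc2 _ (mem_supp1 ho hz).2 q' hq' v hv) (od _) B
            rwa [lv_insert n1, mul_right_comm b q', ← mul_assoc b]
          · have := (H z hz).fa2 _ (mem_supp1 ho hz).2 q' hq'
            rwa [lv_insert n1, mul_right_comm b q', ← mul_assoc b]
      have c4 : |(B.E fun q' => JB μ (b * q') g' (insert o ((T1 ∪ T2) ∩ S1)) (M T1) (M T2)) -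
          JB μ b g' (insert o ((T1 ∪ T2) ∩ S1)) (M T1) (M T2)| ≤ τ ^ 4 := by
        simp only [JB_apply]
        rw [← Ew_E]
        refine abs_Ew_sub_le _ fun z hz => ?_
        have := (H z hz).fq _ (mem_supp1 ho hz).2 _ (m1.1 z) _ (m2.1 z)
        simpa only [lv_insert n1, mul_right_comm b _ (lv _ z * z o), ← mul_assoc b] using this
      have c5 := hf.chain t4.le (insert_subset_insert o hS) Subset.rfl m1 m2
      rw [Pr.E_mul] at c3
      simp only [LinearMap.sum_apply, LinearMap.smul_apply, smul_eq_mul]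
      refine fin c3 (k := l + 1) ?_ le_rfl
      rw [II_eqB, II_eqB] at c5
      rw [abs_le] at *
      constructor <;> linarith [c4.1, c4.2, c5.1, c5.2]
  have a3 := bil_syn (c := cf (lo ι l0)) (M := M) (U := M) (M' := M) (U' := M)
    (SD μ b g' (insert o S1) T val co) (D • JB μ b g' (insert o S1))
    (e := W * ((l + 3) * τ ^ 4)) (by positivity) (sum_abs_cf_le (lo ι l0)) fun T1 T2 c1 c2 => by
      have hS : (T1 ∪ T2) ∩ S1 ⊆ S1 := inter_subset_right
      have n1 := notMem_mono hS ho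
      have m1 := CC_mono (insert_subset_insert o (sub (T1 := T1) (T2 := T2)).1) (hB.hM T1)
      have m2 := CC_mono (insert_subset_insert o (sub (T1 := T1) (T2 := T2)).2) (hB.hM T2)
      have H := low1 _ hS (card_low c1 c2)
      have c3 := drop (g := g') (b := b) hX h W0 (R := insert o ((T1 ∪ T2) ∩ S1))
        (D := S1 \ ((T1 ∪ T2) ∩ S1)) (dj _) (fun z hz v hv => by
          have := fsC_update ((H z hz).fc1 _ (mem_supp1 ho hz).2 v hv) (od _) B
          rwa [lv_insert n1, ← mul_assoc b])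
        (fun z hz => by
          have := (H z hz).fa1 _ (mem_supp1 ho hz).2
          rwa [lv_insert n1, ← mul_assoc b]) m1 m2
      have c5 := hf.chain t4.le (insert_subset_insert o hS) Subset.rfl m1 m2
      rw [un _ hS] at c3
      rw [abs_sub_comm] at c5
      exact fin c3 c5 (by linarith)
  have a4 := bil_syn (c := cf (lo ι l0)) (M := U) (U := U) (M' := U) (U' := U)
    (SD μ b g' S1 T val co) (D • JB μ b g' S1)
    (e := W * ((l + 3) * τ ^ 4)) (by positivity) (sum_abs_cf_le (lo ι l0)) fun T1 T2 c1 c2 => by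
      have hS : (T1 ∪ T2) ∩ S1 ⊆ S1 := inter_subset_right
      have m1 := CC_mono (sub (T1 := T1) (T2 := T2)).1 (hB.hU T1)
      have m2 := CC_mono (sub (T1 := T1) (T2 := T2)).2 (hB.hU T2)
      have H := low1 _ hS (card_low c1 c2)
      have c3 := drop (g := g') (b := b) hX h W0 (R := (T1 ∪ T2) ∩ S1)
        (D := S1 \ ((T1 ∪ T2) ∩ S1)) disjoint_sdiff
        (fun z hz v hv => fsC_update ((H z hz).fc0 v hv) (od _) B) (fun z hz => (H z hz).fa0) m1 m2
      have c5 := hf.chain t4.le hS (subset_insert _ _) m1 m2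
      rw [union_sdiff_of_subset hS] at c3
      rw [abs_sub_comm] at c5
      exact fin c3 c5 (by linarith)
  have e4 : 4 ^ Fintype.card ι * (4 ^ Fintype.card ι * (W * ((l + 3) * τ ^ 4))) ≤ W * E' :=
    le_of_eq_of_le (by ring) (mul_le_mul_of_nonneg_left e3 W0)
  have E0 : 0 ≤ E' := le_trans (by positivity) e3
  have up : ∀ y : ℝ, 0 ≤ y → y ≤ 2 + E' → D * y ≤ 2 * |D| + W * E' := fun y y0 y1 => by
    have c1 := mul_le_mul_of_nonneg_right (le_abs_self D) y0
    have c2 := mul_le_mul_of_nonneg_left y1 (abs_nonneg D)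
    have c3 := mul_le_mul_of_nonneg_right hDW E0
    linarith
  have u1 := up _ (II_nonneg _ _ _ _) (hB.es2.trans (by linarith))
  have u2 := up _ (II_nonneg _ _ _ _) (hB.norm_al.trans (by linarith))
  simp only [LinearMap.sum_apply, LinearMap.smul_apply, smul_eq_mul] at a2 a3 a4
  rw [II_eqB] at u1 u2
  have v1 := (abs_le.1 (a2.trans e4)).2
  have v2 := (abs_le.1 (a3.trans e4)).2
  have v3 := (abs_le.1 (a4.trans e4)).2
  have v4 : om * SD μ b g' (insert o S1) T val co (low l0 M) (low l0 M) ≤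
      om * (2 * |D| + 2 * (W * E')) :=
    mul_le_mul_of_nonneg_left (by unfold low; linarith) om0
  have v5 := mul_nonneg om0 (abs_nonneg D)
  have v6 := mul_nonneg om0 (mul_nonneg W0 E0)
  unfold low Pr.E at *
  linarith

theorem num3 {l : ℕ} (hl : 0 < l) {τ : ℝ} (h0 : 0 < τ) :
    71 * (256 ^ (l + 1) * τ) ≤ 10000 ^ (l + 1) * τ := by
  have a : (39 : ℝ) ^ 2 ≤ 39 ^ (l + 1) := pow_le_pow_right₀ (by norm_num) (by omega)
  calc 71 * (256 ^ (l + 1) * τ) ≤ 39 ^ (l + 1) * (256 ^ (l + 1) * τ) := by gcongr; linarith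
    _ = (39 * 256) ^ (l + 1) * τ := by rw [mul_pow, mul_assoc]
    _ ≤ _ := by gcongr; norm_num

theorem core8 : S_Core8 := by
  intro ι K J Θ _ _ _ _ o o' S1 μ X g f Cs B γ om blk π b T pt val co l0 τ W Vm t hoo ho ho' hX h0
    h1 ht hW hf π0 π1 hp hom hdj hCs hR hm hT hL F G hF hG
  have hS := fun κ => (hT κ).topS hX
  choose F' F1 F2 using fun κ => exists_cut (sysB μ hX (b κ)) _ (hF κ).1 (hF κ).2
  have b0 : ∀ κ k, ∃ G' : (ι → ℕ) → ℕ → ℂ, k ∈ S1 →
      G' ∈ CC (sysB μ hX (b κ)) ((insert o S1).erase k) ∧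
      ∀ a ∈ supp (update g o (B (blk κ))), G' a = G κ k a := fun κ k => by
    by_cases hk : k ∈ S1
    · obtain ⟨G', c1, c2⟩ := exists_cut (sysB μ hX (b κ)) _ (hG κ k hk).1 (hG κ k hk).2
      exact ⟨G', fun _ => ⟨c1, c2⟩⟩
    · exact ⟨0, fun h => absurd h hk⟩
  choose G' hG' using b0
  choose M U u hB using fun κ => (hS κ).blk ho h0 h1 l0 (F1 κ) fun k hk => (hG' κ k hk).1
  set l := Fintype.card ι with hl
  set E : ℝ := 256 ^ (l + 1) * τ with hEe
  set k4 : ℝ := 4 ^ l with hκ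
  set ω : ℝ := 7 * (l + 1) ^ 2 * τ ^ 2 with hω
  have l0' : (0 : ℝ) ≤ l := Nat.cast_nonneg _
  have κ1 : 1 ≤ k4 := one_le_pow₀ (by norm_num)
  have key : ∀ x : ℝ, 0 ≤ x → x ≤ 20 * (l + 1) ^ 2 * τ →
      (1 + k4) * ((1 + k4) * x) ≤ E ∧ k4 * (k4 * x) ≤ E ∧ x ≤ E := fun x x0 x1 => by
    have a1 : (1 + k4) * ((1 + k4) * x) ≤ E := le_trans (by gcongr) (num1 l h0)
    have a2 : k4 * (k4 * x) ≤ (1 + k4) * ((1 + k4) * x) := by gcongr <;> linarith
    have a3 : x ≤ k4 * (k4 * x) := by nlinarith [mul_le_mul_of_nonneg_right κ1 x0]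
    exact ⟨a1, by linarith, by linarith⟩
  have t4 : τ ^ 4 ≤ τ := pow_le_of_le_one h0.le h1 (by norm_num)
  have t2 : τ ^ 2 ≤ τ := pow_le_of_le_one h0.le h1 (by norm_num)
  have k1 := key ω (by positivity) (mul_le_mul (by nlinarith) t2 (by positivity) (by positivity))
  have k2 := key (20 * (l + 1) * τ) (by positivity)
    (mul_le_mul_of_nonneg_right (by nlinarith) h0.le)
  have k3 := key ((l + 3) * τ ^ 4) (by positivity)
    (mul_le_mul (by nlinarith) t4 (by positivity) (by positivity))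
  have E0 : 0 ≤ E := by positivity
  have W0 : 0 < W := by linarith
  have dM : ∀ κ, Dep (insert o S1) (low l0 (M κ)) := fun κ => Dep.syn _ fun T =>
    ((hB κ).hM T).2.mono (insert_subset_insert _ inter_subset_right)
  have dU : ∀ κ, Dep S1 (low l0 (U κ)) := fun κ => Dep.syn _ fun T =>
    ((hB κ).hU T).2.mono inter_subset_right
  have du : ∀ κ, Dep S1 (u κ) := fun κ => (hB κ).hu.2
  have up : ∀ (n : ℕ) (B' : Pr) {x y : (ι → ℕ) → ℕ → ℂ}, Dep S1 x → Dep S1 y →
      JB μ n (update g o B') S1 x y = JB μ n g S1 x y := fun n B' _ _ hx hy =>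
    II_update_CC (Y := sysB μ cl_zero n) g ho B' hx hy
  set x : K → (ι → ℕ) → ℕ → ℂ := fun κ =>
    hb (b κ) o S1 (B (blk κ)) (low l0 (M κ)) - low l0 (U κ) with hx
  have offd : ∀ κ, ∑ θ ∈ (T κ).filter (fun θ => ¬ blk (pt θ) = blk κ),
      co κ θ * JB μ (b κ * val κ θ) g S1 (x κ) (x (pt θ)) ≤ 2 * (W * E) := by
    intro κ
    have a1 := off hX hoo ho ho' h0 h1 W0 (hS κ).fs (hL κ) (hB κ) (hR.dom1 κ)
      (N := fun z T' a => M (pt z.1) T' (update a o z.2)) fun z T' =>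
        ⟨fun a => ((hB _).hM T').1 _, fun a a' h => ((hB _).hM T').2 _ _ fun k hk => by
          by_cases e : k = o
          · subst e; simp
          · simpa [e] using h k (by simpa [e] using hk)⟩
    have a2 := off hX hoo ho ho' h0 h1 W0 (hS κ).fs (hL κ) (hB κ)
      ((hR.dom0 κ).mono (filter_subset (fun θ => ¬ blk (pt θ) = blk κ) _))
      (N := fun θ => U (pt θ)) fun θ T' => (hB _).hU T'
    have a3 : k4 * (k4 * (W * (20 * (l + 1) * τ))) ≤ W * E :=
      le_of_eq_of_le (by ring) (mul_le_mul_of_nonneg_left k2.2.1 W0.le)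
    rw [sum_sigma] at a1
    have two : ∀ {p q e : ℝ}, |p| ≤ e → |q| ≤ e → p - q ≤ 2 * e := fun c1 c2 => by
      linarith [(abs_le.1 c1).2, (abs_le.1 c2).1]
    refine le_of_eq_of_le ?_ (two (a1.trans a3) (a2.trans a3))
    rw [← sum_sub_distrib]
    refine sum_congr rfl fun θ hθ => ?_
    obtain ⟨m1, m2⟩ := mem_filter.1 hθ
    obtain ⟨v', hv'⟩ := hR.dvd κ θ m1
    have c1 := (hR.cop κ θ m1).2
    have c2 : ∀ q ∈ (B (blk κ)).s, (val κ θ).Coprime q := fun q hq =>
      (Nat.Coprime.coprime_mul_left_right (c1 _ q hq)).symm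
    have c3 : ∀ q ∈ (B (blk (pt θ))).s, v'.Coprime q := fun q hq =>
      (Nat.Coprime.coprime_mul_left_right (hv' ▸ c1 _ q hq)).symm
    have e1 : ∀ q : ℕ, (low l0 fun T' a => M (pt θ) T' (update a o q)) =
        fun a => low l0 (M (pt θ)) (update a o q) := fun q => by
      funext a
      simp only [low, syn, Finset.sum_apply, Pi.smul_apply]
    have e2 := JB_partner (μ := μ) (g := update g o (B (blk κ))) (o := o) (S1 := S1)
      (n := b κ * val κ θ) (b' := b (pt θ)) (R := insert o S1) (B' := B (blk (pt θ)))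
      (fun a ha => ⟨v' * a o, by rw [hv', lv_insert ho]; ring, fun q hq => by
        have := (mem_supp1 ho ha).2
        exact Nat.Coprime.mul_left (c3 q hq) ((Nat.coprime_primes (hp _ _ this).1 (hp _ _ hq).1).2
          fun e => disjoint_left.1 (hdj _ _ m2) hq (e ▸ this))⟩) (low l0 (M κ)) (low l0 (M (pt θ)))
    have e3 := JB_partner (μ := μ) (g := update g o (B (blk κ))) (o := o) (S1 := S1)
      (n := b κ * val κ θ) (b' := b (pt θ)) (R := S1) (B' := B (blk (pt θ)))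
      (fun a _ => ⟨v', by rw [hv']; ring, c3⟩) (low l0 (U κ)) (low l0 (M (pt θ)))
    simp only [hx, map_sub, LinearMap.sub_apply, e1]
    rw [JB_hb ho c2 _ (dep_hb (dM _)), JB_hb ho c2 _ (dU _), ← up _ (B (blk κ)) (dU κ) (dU _),
      ← up _ (B (blk κ)) (dU κ) (dep_hb (dM _)), e2, e3]
    simp only [Pr.E, mul_assoc, ← mul_sum, mul_sub, sum_sub_distrib]
  have diag : ∀ κ, ∑ θ ∈ (T κ).filter (fun θ => blk (pt θ) = blk κ),
      co κ θ * JB μ (b κ * val κ θ) g S1 (x κ) (x κ) ≤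
      8 * (|∑ θ ∈ (T κ).filter (fun θ => blk (pt θ) = blk κ), co κ θ| * (1 + om (blk κ))) +
        64 * (W ^ 2 * E) := by
    intro κ
    have a1 := dia hX ho h0 hW (hom (blk κ)).1 (hp _) (hS κ).fs (hL κ) (hB κ)
      ((hR.dom0 κ).mono (filter_subset (fun θ => blk (pt θ) = blk κ) _)) (hR.pos κ)
      (fun θ hθ => ⟨fun a ha => (hR.cop κ θ (mem_filter.1 hθ).1).1 _ (hCs a ha), fun q hq =>
        Nat.Coprime.coprime_mul_left_right ((hR.cop κ θ (mem_filter.1 hθ).1).2 _ q hq)⟩)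
      (E' := 4 * E) (by linarith [k1.2.1]) (by linarith) (by linarith [k3.2.1])
    have a2 : W * (1 + om (blk κ)) * (4 * E) ≤ W * (2 * W) * (4 * E) := by
      gcongr
      linarith [(hom (blk κ)).2]
    rw [SD_apply] at a1
    linarith
  set fh : (ι → ℕ) → ℕ → ℂ := fun _ => f with hfh
  have df : Dep S1 fh := fun _ _ _ => rfl
  have hZ : 2 * ∑ κ, π κ * JB μ (b κ) g S1 fh (x κ) ≤ t * Vm + (8 * ∑ κ, π κ *
      (|∑ θ ∈ (T κ).filter (fun θ => blk (pt θ) = blk κ), co κ θ| * (1 + om (blk κ))) +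
        66 * (W ^ 2 * E)) / t := by
    have a1 := Ew_le g fun a ha => hR.maj _ (hCs a ha) (fun κ => x κ a) t ht
    simp only [div_eq_inv_mul, Ew_add, Ew_mul, Ew_const, Ew_sum] at a1
    have a2 := avg_le π0 π1 (fun κ => 8 *
      (|∑ θ ∈ (T κ).filter (fun θ => blk (pt θ) = blk κ), co κ θ| * (1 + om (blk κ))))
      (66 * (W ^ 2 * E)) (x := fun κ => ∑ θ ∈ T κ, co κ θ * Ew g fun a =>
        br μ (b κ * val κ θ * lv S1 a) (x κ a) (if blk (pt θ) = blk κ then x κ a else x (pt θ) a))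
      fun κ => by
        rw [← sum_filter_add_sum_filter_not _ fun θ => blk (pt θ) = blk κ,
          sum_congr rfl fun θ hθ => by simp only [if_pos (mem_filter.1 hθ).2]; rfl,
          sum_congr (s₁ := (T κ).filter fun θ => ¬ blk (pt θ) = blk κ) rfl fun θ hθ => by
            simp only [if_neg (mem_filter.1 hθ).2]; rfl]
        have c1 := offd κ
        have c2 := diag κ
        have c3 : W * E ≤ W ^ 2 * E := by gcongr; nlinarith
        simp only [JB_apply] at c1 c2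
        linarith
    simp only [mul_left_comm _ (8 : ℝ), ← mul_sum] at a2
    rw [div_eq_inv_mul]
    exact a1.trans (add_le_add le_rfl (mul_le_mul_of_nonneg_left a2 (by positivity)))
  have f1 : ∀ κ, JB μ (b κ) g S1 fh fh ≤ 2 := fun κ =>
    II_self_le (Y := sysB μ cl_zero (b κ)) (hm κ) fun _ => hf
  have f2 : ∀ κ, JB μ (b κ) (update g o (B (blk κ))) (insert o S1) fh fh ≤ 2 := fun κ =>
    II_self_le (hS κ).mass fun _ => hf
  have cs : ∀ (n : ℕ) (g' : ι → Pr) (S : Finset ι) (y : (ι → ℕ) → ℕ → ℂ) (D : ℝ),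
      JB μ n g' S fh fh ≤ 2 → JB μ n g' S y y ≤ D → 2 * |JB μ n g' S fh y| ≤ 2 * t + D / t :=
    fun n g' S y D a1 a2 => by
      have a3 := II_two_mul_le (sysB μ cl_zero n) g' S fh y ht
      rw [II_eqB] at a3
      have a4 := mul_le_mul_of_nonneg_left a1 ht.le
      have a5 := div_le_div_of_nonneg_right a2 ht.le
      linarith
  set I : K → ℝ := fun κ => ∑ k ∈ S1, Ew (update g o (B (blk κ))) fun a =>
    br μ (b κ * lv (insert o S1) a) (F κ a - G κ k a) (F κ a - G κ k a) with hI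
  have eI : ∀ κ, ∑ k ∈ S1, II (sysB μ hX (b κ)) (update g o (B (blk κ))) (insert o S1)
      (F' κ - G' κ k) (F' κ - G' κ k) = I κ := fun κ => sum_congr rfl fun k hk =>
    II_congr _ _ _ (A' := F κ - G κ k) (B' := F κ - G κ k)
      (fun a ha => by simp only [Pi.sub_apply, F2 κ a ha, (hG' κ k hk).2 a ha])
      (fun a ha => by simp only [Pi.sub_apply, F2 κ a ha, (hG' κ k hk).2 a ha])
  have eP : ∀ κ, Ew (update g o (B (blk κ)))
      (fun a => pot μ (b κ * lv (insert o S1) a) f (F κ a)) =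
      2 * JB μ (b κ) (update g o (B (blk κ))) (insert o S1) fh (F' κ) -
        JB μ (b κ) (update g o (B (blk κ))) (insert o S1) (F' κ) (F' κ) := fun κ => by
    rw [JB_apply, JB_apply, ← Ew_mul, ← Ew_sub]
    exact Ew_congr _ fun a ha => by rw [F2 κ a ha, pot]
  have eQ : ∀ κ, Ew g (fun a => pot μ (b κ * lv S1 a) f (u κ a)) =
      2 * JB μ (b κ) g S1 fh (u κ) - JB μ (b κ) g S1 (u κ) (u κ) := fun κ => by
    rw [JB_apply, JB_apply, ← Ew_mul, ← Ew_sub]
    rfl
  have one : ∀ κ, Ew (update g o (B (blk κ)))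
      (fun a => pot μ (b κ * lv (insert o S1) a) f (F κ a)) ≤
      (Ew g (fun a => pot μ (b κ * lv S1 a) f (u κ a)) + 2 * JB μ (b κ) g S1 fh (x κ) +
        2 * (I κ / (l0 + 1)) / t) + (4 * t + 5 * E / t + 3 * E) := by
    intro κ
    have a1 := (hB κ).norm_u
    have a2 := (hB κ).norm_phi
    have a3 := (hB κ).es1
    rw [II_eqB, II_eqB, up _ _ (du κ) (du κ)] at a1
    rw [eI, II_eqB] at a2
    erw [up _ _ ((du κ).sub (dU κ)) ((du κ).sub (dU κ))] at a2
    rw [eI, II_eqB] at a3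
    have a4 := cs _ _ _ _ (I κ / (l0 + 1) + 4 * E) (f1 κ) (a2.trans (by linarith [k1.1]))
    have a5 := cs _ _ _ _ _ (f2 κ) a3
    have a6 : JB μ (b κ) g S1 fh (hb (b κ) o S1 (B (blk κ)) (low l0 (M κ))) =
        JB μ (b κ) (update g o (B (blk κ))) (insert o S1) fh (low l0 (M κ)) := by
      have := JB_hb (μ := μ) (g := g) (b := b κ) (B := B (blk κ)) ho (v := 1) (fun _ _ => by simp)
        (low l0 (M κ)) df
      rw [mul_one] at this
      rw [JB_comm, this, JB_comm]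
    rw [eP, eQ]
    simp only [hx, map_sub, a6, add_div, mul_div_assoc] at a4 a5 ⊢
    unfold low at *
    linarith [le_abs_self (JB μ (b κ) (update g o (B (blk κ))) (insert o S1) fh (F' κ) -
      JB μ (b κ) (update g o (B (blk κ))) (insert o S1) fh (syn (cf (lo ι l0)) (M κ))),
      neg_abs_le (JB μ (b κ) g S1 fh (u κ) - JB μ (b κ) g S1 fh (syn (cf (lo ι l0)) (U κ))),
      k1.2.2]
  have a1 := avg_le π0 π1 _ _ one
  refine ⟨u, fun κ a => (hB κ).hu.1 a, ?_⟩
  have e2 : ∑ κ, π κ * (Ew g (fun a => pot μ (b κ * lv S1 a) f (u κ a)) +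
      2 * JB μ (b κ) g S1 fh (x κ) + 2 * (I κ / (l0 + 1)) / t) =
      ∑ κ, π κ * Ew g (fun a => pot μ (b κ * lv S1 a) f (u κ a)) +
        2 * ∑ κ, π κ * JB μ (b κ) g S1 fh (x κ) + 2 * (∑ κ, π κ * I κ) / (l0 + 1) / t := by
    simp only [mul_sum, sum_div, ← sum_add_distrib]
    exact sum_congr rfl fun κ _ => by ring
  rw [e2] at a1
  have n1 : 71 * E ≤ 10000 ^ (l + 1) * τ := num3 (Fintype.card_pos_iff.2 ⟨o⟩) h0
  have n2 : E ≤ W ^ 2 * E := le_mul_of_one_le_left E0 (one_le_pow₀ hW)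
  have n3 : (66 * (W ^ 2 * E) + 5 * E) / t ≤ 10000 ^ (l + 1) * W ^ 2 * τ / t := by
    refine div_le_div_of_nonneg_right ?_ ht.le
    have := mul_le_mul_of_nonneg_left n1 (sq_nonneg W)
    linarith
  simp only [add_div, mul_div_assoc, hI] at a1 hZ n3 ⊢
  linarith

end Pool.Agent.P.MP_a14ce1_nt.Fu.L8
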