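import Pool.Agent.P.MP_a14ce1_nt.Fu.L8St
import Pool.Agent.P.MP_a14ce1_nt.Nil.Core4

/-!
The compensated core, first half: dominated families, removal of the partners, pairs of blocks.
-/

open Finset Function

namespace Pool.Agent.P.MP_a14ce1_nt.Fu.L8

open Nil.ES

section dom

variable {Θ : Type} {γ : Pr} {W : ℝ} {T : Finset Θ} {val : Θ → ℕ} {co : Θ → ℝ}

theorem Dom.mono (h : Dom γ W T val co) {T' : Finset Θ} (hT : T' ⊆ T) : Dom γ W T' val co :=
  ⟨fun θ hθ => h.1 θ (hT hθ), fun v hv => le_trans (sum_le_sum_of_subset_of_nonneg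
    (filter_subset_filter _ hT) fun _ _ _ => abs_nonneg _) (h.2 v hv)⟩

theorem Dom.sum_le (h : Dom γ W T val co) {x : ℕ → ℝ} (hx : ∀ v ∈ γ.s, 0 ≤ x v) :
    ∑ θ ∈ T, |co θ| * x (val θ) ≤ W * γ.E x := by
  rw [← sum_fiberwise_of_maps_to h.1, Pr.E, mul_sum]
  refine sum_le_sum fun v hv => ?_
  rw [sum_congr rfl fun θ hθ => by rw [(mem_filter.1 hθ).2], ← sum_mul, ← mul_assoc]
  exact mul_le_mul_of_nonneg_right (h.2 v hv) (hx v hv)

theorem Dom.abs_sum (h : Dom γ W T val co) : ∑ θ ∈ T, |co θ| ≤ W := by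
  simpa [Pr.E_const] using h.sum_le (x := fun _ => 1) fun _ _ => zero_le_one

theorem Dom.abs_le (h : Dom γ W T val co) : |∑ θ ∈ T, co θ| ≤ W :=
  (abs_sum_le_sum_abs _ _).trans h.abs_sum

theorem Dom.abs_mul (h : Dom γ W T val co) {x : ℕ → ℝ} {e : ℝ} (hW : 0 ≤ W)
    (hx : γ.E (fun v => |x v|) ≤ e) : |∑ θ ∈ T, co θ * x (val θ)| ≤ W * e := by
  refine (abs_sum_le_sum_abs _ _).trans ?_
  simp only [_root_.abs_mul]
  exact (h.sum_le (x := fun v => |x v|) fun _ _ => abs_nonneg _).trans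
    (mul_le_mul_of_nonneg_left hx hW)

theorem comb {X : Set (ℕ → ℂ)} (hX : Cl X) (s : Finset Θ) (c : Θ → ℝ) (y : Θ → ℕ → ℂ)
    (hy : ∀ θ, y θ ∈ X) (hc : ∑ θ ∈ s, |c θ| ≤ 1) : ∑ θ ∈ s, c θ • y θ ∈ X := by
  have e : ∀ θ, c θ • y θ = |c θ| • if 0 ≤ c θ then y θ else -y θ := fun θ => by
    split_ifs with h
    · rw [abs_of_nonneg h]
    · rw [abs_of_neg (not_le.1 h), smul_neg, neg_smul, neg_neg]
  simp only [e]
  rcases (sum_nonneg fun θ _ => abs_nonneg (c θ) : 0 ≤ ∑ θ ∈ s, |c θ|).eq_or_lt with h | h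
  · rw [sum_eq_zero fun θ hθ => by
      rw [(sum_eq_zero_iff_of_nonneg fun θ _ => abs_nonneg (c θ)).1 h.symm θ hθ, zero_smul]]
    exact hX.zero
  · have a := hX.cvx.centerMass_mem (t := s) (w := fun θ => |c θ|)
      (z := fun θ => if 0 ≤ c θ then y θ else -y θ) (fun θ _ => abs_nonneg _) h fun θ _ => by
        split_ifs
        exacts [hy θ, hX.neg _ (hy θ)]
    have b := hX.cvx.smul_mem_of_zero_mem hX.zero a ⟨h.le, hc⟩
    rwa [Finset.centerMass, smul_smul, mul_inv_cancel₀ h.ne', one_smul] at b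

end dom

theorem br_hq_lev (μ : Wt ℕ) {n c k : ℕ} {γ : Pr} (hn : n = c * k)
    (h : ∀ q ∈ γ.s, k.Coprime q) (φ : ℕ → ℂ) (ψ : ℕ → ℕ → ℂ) :
    br μ n φ (hq c γ ψ) = γ.E fun q => br μ (n * q) φ (ψ q) := by
  rw [br_hq_right, hn]
  exact sum_congr rfl fun q hq => congrArg _ (br_rq_rq μ c (h q hq) _ _)

/-- the weight twisted by a kernel -/
noncomputable def tw (μ : Wt ℕ) (k : ℕ → ℝ) (hk : ∀ N, 0 ≤ k N) : Wt ℕ :=
  ⟨μ.s, fun N => μ.w N * k N, fun N => mul_nonneg (μ.nn N) (hk N)⟩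

theorem br_tw {Θ : Type} (μ : Wt ℕ) (T : Finset Θ) (val : Θ → ℕ) (co : Θ → ℝ) (b : ℕ)
    (hk : ∀ N, 0 ≤ ∑ θ ∈ T, co θ * if b * val θ ∣ N then (val θ : ℝ) else 0) {c : ℕ}
    (hc : ∀ θ ∈ T, c.Coprime (val θ)) (φ ψ : ℕ → ℂ) :
    br (tw μ _ hk) (b * c) φ ψ = ∑ θ ∈ T, co θ * br μ (b * val θ * c) φ ψ := by
  simp only [br_eq, tw, sum_filter, mul_sum, sum_mul, mul_ite, mul_zero]
  rw [sum_comm]
  refine sum_congr rfl fun N _ => ?_
  by_cases h : b * c ∣ N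
  · rw [if_pos h]
    refine sum_congr rfl fun θ hθ => ?_
    have e : b * val θ ∣ N ↔ b * val θ * c ∣ N := by
      refine ⟨fun h' => ?_, fun h' => dvd_of_mul_right_dvd h'⟩
      have := Nat.lcm_dvd h' h
      rwa [Nat.lcm_mul_left, (hc θ hθ).symm.lcm_eq_mul, ← mul_assoc] at this
    simp only [e]
    split_ifs
    · push_cast
      ring
    · simp
  · rw [if_neg h]
    exact (sum_eq_zero fun θ _ => if_neg fun h' => h (Dvd.dvd.trans ⟨val θ, by ring⟩ h')).symm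

variable {ι : Type} [Fintype ι] [DecidableEq ι]

/-- the inner product on the level S over the base level b -/
noncomputable def JB (μ : Wt ℕ) (b : ℕ) (g : ι → Pr) (S : Finset ι) :
    ((ι → ℕ) → ℕ → ℂ) →ₗ[ℝ] ((ι → ℕ) → ℕ → ℂ) →ₗ[ℝ] ℝ := II (sysB μ cl_zero b) g S

theorem II_eqB (μ : Wt ℕ) {X : Set (ℕ → ℂ)} (h : Cl X) (b : ℕ) (g : ι → Pr) (S : Finset ι) :
    II (sysB μ h b) g S = JB μ b g S := rfl

theorem JB_apply (μ : Wt ℕ) (b : ℕ) (g : ι → Pr) (S : Finset ι) (A B : (ι → ℕ) → ℕ → ℂ) :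
    JB μ b g S A B = Ew g fun a => br μ (b * lv S a) (A a) (B a) := rfl

theorem JB_comm (μ : Wt ℕ) (b : ℕ) (g : ι → Pr) (S : Finset ι) (A B : (ι → ℕ) → ℕ → ℂ) :
    JB μ b g S A B = JB μ b g S B A := II_comm _ _ _ _ _

theorem Ew_sum {α : Type*} (g : ι → Pr) (s : Finset α) (c : α → ℝ) (h : α → (ι → ℕ) → ℝ) :
    Ew g (fun a => ∑ i ∈ s, c i * h i a) = ∑ i ∈ s, c i * Ew g (h i) := by
  simp only [Ew, mul_sum]
  rw [sum_comm]
  exact sum_congr rfl fun _ _ => sum_congr rfl fun _ _ => by ring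

theorem Ew_E (g : ι → Pr) (γ : Pr) (h : ℕ → (ι → ℕ) → ℝ) :
    Ew g (fun a => γ.E fun p => h p a) = γ.E fun p => Ew g (h p) := Ew_sum g _ _ _

/-- the weighted sum over the large primes of a block -/
noncomputable def hb (b : ℕ) (o : ι) (S1 : Finset ι) (γ : Pr) (L : (ι → ℕ) → ℕ → ℂ) :
    (ι → ℕ) → ℕ → ℂ := fun z => hq (b * lv S1 z) γ fun q => L (update z o q)

/-- the sum of the inner products over a family of levels -/
noncomputable def SD {Θ : Type} (μ : Wt ℕ) (b : ℕ) (g : ι → Pr) (S : Finset ι) (T : Finset Θ)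
    (val : Θ → ℕ) (co : Θ → ℝ) : ((ι → ℕ) → ℕ → ℂ) →ₗ[ℝ] ((ι → ℕ) → ℕ → ℂ) →ₗ[ℝ] ℝ :=
  ∑ θ ∈ T, co θ • JB μ (b * val θ) g S

theorem SD_apply {Θ : Type} (μ : Wt ℕ) (b : ℕ) (g : ι → Pr) (S : Finset ι) (T : Finset Θ)
    (val : Θ → ℕ) (co : Θ → ℝ) (A B : (ι → ℕ) → ℕ → ℂ) :
    SD μ b g S T val co A B = ∑ θ ∈ T, co θ * JB μ (b * val θ) g S A B := by
  simp only [SD, LinearMap.sum_apply, LinearMap.smul_apply, smul_eq_mul]

/-- the same with arguments that depend on the member of the family -/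
noncomputable def SF {Θ : Type} (μ : Wt ℕ) (b : ℕ) (g : ι → Pr) (S : Finset ι) (T : Finset Θ)
    (val : Θ → ℕ) (co : Θ → ℝ) :
    (Θ → (ι → ℕ) → ℕ → ℂ) →ₗ[ℝ] (Θ → (ι → ℕ) → ℕ → ℂ) →ₗ[ℝ] ℝ :=
  ∑ θ ∈ T, co θ • (JB μ (b * val θ) g S).compl₁₂ (LinearMap.proj θ) (LinearMap.proj θ)

theorem SF_apply {Θ : Type} (μ : Wt ℕ) (b : ℕ) (g : ι → Pr) (S : Finset ι) (T : Finset Θ)
    (val : Θ → ℕ) (co : Θ → ℝ) (A B : Θ → (ι → ℕ) → ℕ → ℂ) :
    SF μ b g S T val co A B = ∑ θ ∈ T, co θ * JB μ (b * val θ) g S (A θ) (B θ) := by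
  simp only [SF, LinearMap.sum_apply, LinearMap.smul_apply, smul_eq_mul, LinearMap.compl₁₂_apply,
    LinearMap.proj_apply]

variable {μ : Wt ℕ} {X : Set (ℕ → ℂ)} {g : ι → Pr} {o o' : ι} {S1 : Finset ι} {B γ : Pr} {b : ℕ}
  {Θ : Type} {W : ℝ} {T : Finset Θ} {val : Θ → ℕ} {co : Θ → ℝ}

omit [Fintype ι] in
theorem dep_hb {L : (ι → ℕ) → ℕ → ℂ} (hL : Dep (insert o S1) L) : Dep S1 (hb b o S1 B L) :=
  fun a a' h => by
    have e : ∀ q, L (update a o q) = L (update a' o q) := fun q => hL _ _ fun k hk => by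
      by_cases e : k = o
      · subst e; simp
      · simpa [e] using h k (by simpa [e] using hk)
    simp only [hb, dep_lv S1 a a' h, e]

theorem JB_hb (ho : o ∉ S1) {v : ℕ} (hv : ∀ q ∈ B.s, v.Coprime q) (L : (ι → ℕ) → ℕ → ℂ)
    {x : (ι → ℕ) → ℕ → ℂ} (hx : Dep S1 x) :
    JB μ (b * v) g S1 (hb b o S1 B L) x = JB μ (b * v) (update g o B) (insert o S1) L x := by
  rw [JB_comm, JB_comm μ _ _ _ L, JB_apply, JB_apply, Ew_update]
  refine Ew_congr g fun a _ => ?_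
  rw [hb, br_hq_lev μ (mul_right_comm b v _) hv]
  simp only [lv_insert_update ho, hx.update ho, mul_assoc]

theorem JB_partner {n b' : ℕ} {R : Finset ι} {B' : Pr} (h : ∀ a ∈ supp g, ∃ k,
    n * lv R a = b' * lv S1 a * k ∧ ∀ q ∈ B'.s, k.Coprime q) (A L : (ι → ℕ) → ℕ → ℂ) :
    JB μ n g R A (hb b' o S1 B' L) =
      B'.E fun q => JB μ (n * q) g R A fun a => L (update a o q) := by
  simp only [JB_apply]
  rw [← Ew_E]
  refine Ew_congr g fun a ha => ?_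
  obtain ⟨k, h1, h2⟩ := h a ha
  rw [hb, br_hq_lev μ h1 h2]
  simp only [mul_right_comm n _ (lv R a)]

/-- removal of the partners, after the removal of a sub-cube -/
theorem drop (hX : Cl X) (h : Dom γ W T val co) (hW : 0 ≤ W) {R D : Finset ι} (hd : Disjoint R D)
    {ε : ℝ} (hC : ∀ z ∈ supp g, ∀ v ∈ γ.s, FsC μ X (b * lv R z * v) g D ε)
    (hA : ∀ z ∈ supp g, FsA μ X (b * lv R z) γ ε) {A A' : (ι → ℕ) → ℕ → ℂ}
    (h1 : A ∈ CC (sysOf μ hX) R) (h2 : A' ∈ CC (sysOf μ hX) R) :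
    |SD μ b g (R ∪ D) T val co A A' - (∑ θ ∈ T, co θ) * JB μ b g R A A'| ≤ 2 * (W * ε) := by
  have a1 := h.abs_mul (x := fun v => JB μ (b * v) g (R ∪ D) A A' - JB μ (b * v) g R A A') hW
    (e := ε) ((γ.E_le fun v hv => II_cube (Y := sysB μ hX (b * v)) hd (fun z hz φ hφ ψ hψ => by
      have := hC z hz v hv φ hφ ψ hψ
      simp only [mul_right_comm b (lv R z) v, mul_assoc (b * v)] at this
      exact this) h1 h2).trans (γ.E_const ε).le)
  have a2 : |∑ θ ∈ T, co θ * (JB μ (b * val θ) g R A A' - JB μ b g R A A')| ≤ W * ε := by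
    have e : ∑ θ ∈ T, co θ * (JB μ (b * val θ) g R A A' - JB μ b g R A A') =
        Ew g (fun z => ∑ θ ∈ T, co θ * (br μ (b * lv R z * val θ) (A z) (A' z) -
          br μ (b * lv R z) (A z) (A' z))) - Ew g fun _ => 0 := by
      rw [Ew_sum, Ew_const, sub_zero]
      simp only [Ew_sub, JB_apply, mul_right_comm b _ (lv R _)]
    rw [e]
    refine abs_Ew_sub_le g fun z hz => ?_
    rw [sub_zero]
    exact h.abs_mul (x := fun v => br μ (b * lv R z * v) (A z) (A' z) -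
      br μ (b * lv R z) (A z) (A' z)) hW (hA z hz _ (h1.1 z) _ (h2.1 z))
  simp only [mul_sub, sum_sub_distrib] at a1 a2
  rw [SD_apply, sum_mul]
  rw [abs_le] at *
  constructor <;> linarith [a1.1, a1.2, a2.1, a2.2]

/-- a dominated family of tests is one test that depends on the partner -/
theorem collect (hX : Cl X) (h : Dom γ W T val co) (hW : 0 < W) {S : Finset ι} (ho' : o' ∉ S)
    {y : Θ → (ι → ℕ) → ℕ → ℂ} (hy : ∀ θ, y θ ∈ CC (sysOf μ hX) S) :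
    ∃ G ∈ CC (sysB μ hX b) (insert o' S), ∀ (R : Finset ι) (A : (ι → ℕ) → ℕ → ℂ), o' ∉ R →
      Dep R A → W * JB μ b (update g o' γ) (insert o' R) A G =
        ∑ θ ∈ T, co θ * JB μ (b * val θ) g R A (y θ) := by
  refine ⟨fun a => ∑ θ ∈ T.filter (fun θ => val θ = a o'), (co θ / (W * γ.w (a o'))) • y θ a,
    ⟨fun a => comb hX _ _ _ (fun θ => (hy θ).1 a) ?_, fun a a' ha => ?_⟩, fun R A hR hA => ?_⟩
  · by_cases hv : a o' ∈ γ.s
    · have h0 : 0 ≤ W * γ.w (a o') := mul_nonneg hW.le (γ.nn _)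
      simp only [abs_div, abs_of_nonneg h0, ← sum_div]
      exact div_le_one_of_le₀ (h.2 _ hv) h0
    · rw [filter_eq_empty_iff.2 fun θ hθ (e : val θ = a o') => hv (e ▸ h.1 θ hθ), sum_empty]
      exact zero_le_one
  · simp only [ha o' (mem_insert_self _ _),
      fun θ => (hy θ).2 a a' fun k hk => ha k (mem_insert_of_mem hk)]
  · rw [JB_apply, Ew_update, Ew_E, ← sum_fiberwise_of_maps_to h.1, Pr.E, mul_sum]
    refine sum_congr rfl fun v hv => ?_
    simp only [lv_insert_update hR, hA.update hR, update_self, fun θ => (hy θ).2.update ho']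
    have e : ∀ a : ι → ℕ, br μ (b * (lv R a * v)) (A a)
        (∑ θ ∈ T.filter (fun θ => val θ = v), (co θ / (W * γ.w v)) • y θ a) =
        ∑ θ ∈ T.filter (fun θ => val θ = v), (co θ / (W * γ.w v)) *
          br μ (b * v * lv R a) (A a) (y θ a) := fun a => by
      rw [br_comm, br, Wt.ip_sum_left, mul_comm (lv R a), ← mul_assoc]
      exact sum_congr rfl fun θ _ => congrArg _ (br_comm μ _ _ _)
    simp only [e]
    rw [Ew_sum, ← mul_assoc, mul_sum]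
    refine sum_congr rfl fun θ hθ => ?_
    rw [(mem_filter.1 hθ).2, JB_apply, ← mul_assoc]
    congr 1
    rcases eq_or_ne (W * γ.w v) 0 with e0 | e0
    · have := (single_le_sum (f := fun θ => |co θ|) (fun _ _ => abs_nonneg _) hθ).trans (h.2 v hv)
      rw [e0] at this
      rw [e0, zero_mul, abs_nonpos_iff.1 this]
    · exact mul_div_cancel₀ _ e0

theorem mem_supp1 (ho : o ∉ S1) {a : ι → ℕ} (ha : a ∈ supp (update g o B)) :
    (∀ k ∈ S1, a k ∈ (g k).s) ∧ a o ∈ B.s := by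
  rw [mem_supp] at ha
  refine ⟨fun k hk => ?_, by simpa using ha o⟩
  have h1 : k ≠ o := fun e => ho (e ▸ hk)
  simpa [h1] using ha k

theorem fsC_update {c : ℕ} {D : Finset ι} {ε : ℝ} (h : FsC μ X c g D ε) (ho : o ∉ D) (B : Pr) :
    FsC μ X c (update g o B) D ε := fun φ hφ ψ hψ => by
  rw [Ew_update_of_indep _ _ _ fun a p => by rw [(dep_lv D).update ho]]
  exact h φ hφ ψ hψ

theorem FsA.fsN {c : ℕ} {ε : ℝ} (h : FsA μ X c γ ε) : FsN μ X c γ ε := fun φ hφ ψ hψ => by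
  rw [← γ.E_const (br μ c φ ψ), ← E_sub]
  refine le_trans ((abs_sum_le_sum_abs _ _).trans (le_of_eq ?_)) (h φ hφ ψ hψ)
  exact sum_congr rfl fun v _ => by rw [abs_mul, abs_of_nonneg (γ.nn v)]

theorem lowB_of (hX : Cl X) (hoo : o ≠ o') (ho : o ∉ S1) (ho' : o' ∉ S1) {S : Finset ι}
    (hS : S ⊆ S1) {ε : ℝ}
    (h : ∀ a : ι → ℕ, (∀ k ∈ S1, a k ∈ (g k).s) → LowB μ X (b * lv S a) B γ g (S1 \ S) ε) :
    Low (sysB μ hX b) (update (update g o B) o' γ) o o' S1 S ε := by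
  have n1 : o ∉ S := notMem_mono hS ho
  have n2 : o' ∉ S := notMem_mono hS ho'
  have n3 : o' ∉ insert o S := by simp [hoo.symm, n2]
  have H := fun a (ha : a ∈ supp (update (update g o B) o' γ)) =>
    h a (mem_supp2 hoo ho ho' ha).1
  have m1 := fun a (ha : a ∈ supp (update (update g o B) o' γ)) => (mem_supp2 hoo ho ho' ha).2.1
  have m2 := fun a (ha : a ∈ supp (update (update g o B) o' γ)) => (mem_supp2 hoo ho ho' ha).2.2
  refine ⟨fun a ha => ?_, fun A hA A' hB => II_step n2 (fun a ha => ?_) hA hB,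
    fun A hA A' hB => II_step n3 (fun a ha => ?_) hA hB, fun A hA A' hB => ?_,
    fun A hA A' hB => ?_⟩
  · have := (H a ha).mass _ (m2 a ha)
    rw [mul_assoc, ← lv_insert n2] at this
    exact this
  · rw [update_self]
    exact (fs_sysB hX).2 (H a ha).fa0.fsN
  · rw [update_self, lv_insert n1]
    exact (fs_sysB hX).2 (mul_assoc b _ _ ▸ ((H a ha).fa1 _ (m1 a ha)).fsN)
  · have e : insert o' S1 = insert o' S ∪ S1 \ S := by rw [insert_union, union_sdiff_of_subset hS]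
    rw [e]
    refine II_cube (by simp [ho', disjoint_sdiff]) (fun z hz φ hφ ψ hψ => ?_) hA hB
    have := fsC_update (fsC_update ((H z hz).fc0 _ (m2 z hz)) (notMem_mono sdiff_subset ho) B)
      (notMem_mono sdiff_subset ho') γ φ hφ ψ hψ
    simp only [mul_assoc b, ← lv_insert n2] at this
    exact this
  · have e : insert o' (insert o S1) = insert o' (insert o S) ∪ S1 \ S := by
      rw [insert_union, insert_union, union_sdiff_of_subset hS]
    rw [e]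
    refine II_cube (by simp [ho', ho, disjoint_sdiff]) (fun z hz φ hφ ψ hψ => ?_) hA hB
    have := fsC_update (fsC_update ((H z hz).fc1 _ (m1 z hz) _ (m2 z hz))
      (notMem_mono sdiff_subset ho) B) (notMem_mono sdiff_subset ho') γ φ hφ ψ hψ
    simp only [mul_assoc b, ← lv_insert n1, ← lv_insert n3] at this
    exact this

end Pool.Agent.P.MP_a14ce1_nt.Fu.L8
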