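import Pool.Agent.P.MP_a14ce1_nt.Fu.L8St
import Pool.Agent.P.MP_a14ce1_nt.Fu.Cat

/-! The arithmetic data of the local plain step: blocks, compensating primes, sizes. -/

open Finset

namespace Pool.Agent.P.MP_a14ce1_nt.Fu.L8.Mid

open Ch (rs pv rs_nonneg)
open Tile (QB GG Adm mem_QB mem_GG mem_Adm)
open Cat (lam L2)

/-- the blocks `P i`, the compensating primes `G` and the admissible sets `Ad i` -/
structure Blk (C : ℝ) (K n m Z : ℕ) (M U δ E0 : ℝ) (G : Finset ℕ) (P : ℕ → Finset ℕ)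
    (Ad : ℕ → Finset (Finset ℕ)) : Prop where
  hE : 1 ≤ E0
  hZ : (Z : ℝ) ≤ Real.exp (6 * (n * K * M))
  prG : ∀ p ∈ G, p.Prime ∧ M * U < Real.log p ∧ p ≤ Z
  prP : ∀ i ∈ Ico (2 * K) ((n + 2) * K), ∀ q ∈ P i, q.Prime ∧ M * U < Real.log q ∧ q ≤ Z
  dj : ∀ i j, i ≠ j → Disjoint (P i) (P j)
  djG : ∀ i, Disjoint G (P i)
  ad : ∀ i, ∀ g ∈ Ad i, g ⊆ G ∧ g.card ≤ m
  low : ∀ i : ℕ, ∀ g ∈ Ad i, E0 ≤ pv g * Real.exp (i * M) ∧
    pv g * Real.exp (i * M) ≤ E0 * Real.exp (5 / 4 * (δ * M))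
  top : ∀ i, ∀ g ∈ Ad i, ∀ q ∈ P i, E0 ≤ (pv g : ℝ) * q ∧
    (pv g : ℝ) * q ≤ E0 * Real.exp (5 / 4 * (δ * M))
  mP : ∀ i ∈ Ico (2 * K) ((n + 2) * K), 1 ≤ C * n * K / δ * rs (P i)
  mA : ∀ i ∈ Ico (2 * K) ((n + 2) * K), 1 ≤ C * n * K / δ * P1 G (Ad i)
  mG : 1 ≤ C * n * K / δ * rs G
  tot : rs G + ∑ i ∈ Ico (2 * K) ((n + 2) * K), rs (P i) ≤ C * n * K / δ
  rG : rs G ≤ C * Real.log (n * K)
  dg : ∀ i ∈ Ico (2 * K) ((n + 2) * K), lam K 2 (n + 2) i * (1 + 1 / rs (P i)) * Q2 G (Ad i) m /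
    P1 G (Ad i) ^ 2 ≤ C * (U ^ 2 / (δ ^ 3 * Real.log n))

theorem half_log_le {n : ℕ} (hn : 2 ≤ n) : Real.log n / 2 ≤ L2 2 (n + 2) := by
  refine le_trans ?_ (Cat.le_L2 (by omega))
  have h : (2 : ℝ) ≤ n := by exact_mod_cast hn
  have e := Real.log_le_log (by linarith : (0 : ℝ) < n)
    (show (n : ℝ) ≤ ((n + 3) / 3) ^ 2 by nlinarith [sq_nonneg ((n : ℝ) - 3)])
  rw [Real.log_pow] at e
  push_cast at e ⊢
  rw [show ((n : ℝ) + 2 + 1) / (2 + 1) = (n + 3) / 3 by ring]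
  linarith

theorem one_le_of {C X δ a r : ℝ} (hδ : 0 < δ) (hX : 0 < X) (ha : 0 < a) (hC : a ≤ C)
    (h : δ / (a * X) ≤ r) : 1 ≤ C * X / δ * r := by
  have h1 : 1 ≤ C * X / δ * (δ / (a * X)) := by
    rw [show C * X / δ * (δ / (a * X)) = C / a by field_simp, one_le_div ha]
    exact hC
  have : 0 < C := by linarith
  exact h1.trans (mul_le_mul_of_nonneg_left h (by positivity))

theorem dg_num {x r L ln δ M U N S c q p : ℝ} (hδ : 0 < δ) (hδ' : δ ≤ 1) (hM : 0 < M) (hN : 0 < N)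
    (hS : 0 < S) (hc : 0 < c) (hl : 0 < ln) (hL : ln / 2 ≤ L) (hr : 0 < r) (x0 : 0 ≤ x)
    (x1 : x ≤ 1 / L) (x2 : x ≤ 4 * M / (δ * M / 4 * L) * r)
    (hq : q ≤ 2 * S * (M * U / (N * M)) ^ 2) (hp : c * δ / N ≤ p) :
    x * (1 + 1 / r) * q / p ^ 2 ≤ 68 * S / c ^ 2 * (U ^ 2 / (δ ^ 3 * ln)) := by
  have L0 : 0 < L := by linarith
  have e1 : x * (1 / r) ≤ 16 / (δ * L) := by
    rw [mul_one_div, div_le_iff₀ hr]
    refine x2.trans (le_of_eq ?_)
    field_simp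
    norm_num
  have e2 : 1 / L ≤ 1 / (δ * L) :=
    div_le_div_of_nonneg_left zero_le_one (by positivity) (by nlinarith)
  have e3 : 17 / (δ * L) ≤ 17 / (δ * (ln / 2)) := by gcongr
  rw [show 17 / (δ * (ln / 2)) = 34 / (δ * ln) by field_simp; norm_num,
    show 17 / (δ * L) = 1 / (δ * L) + 16 / (δ * L) by ring] at e3
  have d1 : x * (1 + 1 / r) ≤ 34 / (δ * ln) := by
    rw [mul_add]
    linarith
  have d4 : 0 < c * δ / N := by positivity
  have d5 : 0 ≤ x * (1 + 1 / r) := by positivity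
  calc _ ≤ 34 / (δ * ln) * (2 * S * (M * U / (N * M)) ^ 2) / (c * δ / N) ^ 2 :=
        div_le_div₀ (by positivity) ((mul_le_mul_of_nonneg_left hq d5).trans
          (mul_le_mul_of_nonneg_right d1 (by positivity))) (by positivity) (by gcongr)
    _ = _ := by field_simp; ring

theorem num0 {C U δ M K n : ℝ} (C32 : 32 ≤ C) (hU : 1 ≤ U) (hδ : 0 < δ) (hδ' : δ ≤ 1 / 4)
    (hw : C ≤ δ * M) (hK : C * U ≤ K) (hn : 2 ≤ n) :
    4 * C ≤ M ∧ U ≤ K ∧ 32 ≤ K ∧ 2 * K ≤ n * K ∧ 4 * K ≤ (n + 2) * K ∧ δ * M ≤ M / 4 ∧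
      M ≤ M * U ∧ 4 * (M * U) ≤ (n + 2) * K * M ∧ (n + 2) * K ≤ 2 * (n * K) ∧
      1 ≤ Real.log (n * K) ∧
      Real.log (3 * ((n + 2) * K * M) / (M * U)) ≤ 2 * Real.log (n * K) := by
  have M0 : 0 < M := by
    by_contra h
    nlinarith [mul_nonneg hδ.le (neg_nonneg.2 (not_lt.1 h))]
  have a1 : δ * M ≤ M / 4 := by nlinarith
  have a2 : U ≤ K := by nlinarith
  have a3 : 32 ≤ K := by nlinarith
  have a4 : 2 * K ≤ n * K := by nlinarith
  have a5 : 4 * K ≤ (n + 2) * K := by linarith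
  have a6 : M ≤ M * U := le_mul_of_one_le_right M0.le hU
  refine ⟨by linarith, a2, a3, a4, a5, a1, a6, by nlinarith, by linarith, ?_, ?_⟩
  · rw [Real.le_log_iff_exp_le (by linarith)]
    linarith [Real.exp_one_lt_d9]
  · have b : Real.log (3 * ((n + 2) * K * M) / (M * U)) ≤ Real.log ((n * K) ^ 2) := by
      refine Real.log_le_log (div_pos (by nlinarith) (by positivity)) ?_
      rw [div_le_iff₀ (by positivity)]
      have : 3 * ((n + 2) * K) ≤ (n * K) ^ 2 := by nlinarith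
      nlinarith [mul_le_mul_of_nonneg_left a6 (sq_nonneg (n * K))]
    rw [Real.log_pow] at b
    exact_mod_cast b

theorem blocks : ∃ C : ℝ, 1 ≤ C ∧ ∀ (K n m : ℕ) (M U δ : ℝ), 1 ≤ U → 0 < δ → δ ≤ 1 / 4 →
    C ≤ δ * M → C * U ≤ K → 2 ≤ n → C * Real.log (n * K) ≤ m →
    ∃ Z E0 G P Ad, Blk C K n m Z M U δ E0 G P Ad := by
  obtain ⟨c1, C1, hc1, hC1, h1⟩ := Tile.first
  obtain ⟨C2, hC2, h2⟩ := Tile.mass
  obtain ⟨C3, hC3, h3⟩ := Tile.rs_GG_le
  obtain ⟨C4, hC4, h4⟩ := Tile.pop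
  obtain ⟨C5, hC5, h5⟩ := Tile.win_GG
  obtain ⟨C6, hC6, h6⟩ := Cat.lam_le_rs
  have hS := SB.Csb2_pos (K := 3) (by norm_num) C4
  set S := SB.Csb2 3 C4
  have p1 : 0 < 2 / c1 := by positivity
  have p2 : 0 < 68 * S / c1 ^ 2 := by positivity
  obtain ⟨C, hC⟩ : ∃ C, C = 4 * (C1 + C2 + C4 + C5 + C6) + 13 * (3 + C3) + 2 / c1 +
    68 * S / c1 ^ 2 := ⟨_, rfl⟩
  refine ⟨C, by linarith, fun K n m M U δ hU hδ hδ' hw hK hn hm => ?_⟩
  have C32 : 32 ≤ C := by linarith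
  have t1 : C1 ≤ δ * M / 4 := by linarith
  have t2 : C2 ≤ δ * M / 4 := by linarith
  have t3 : 13 * (3 + C3) ≤ C := by linarith
  have t4 : C4 ≤ δ * M / 4 := by linarith
  have t5 : C5 ≤ δ * M / 4 := by linarith
  have t6 : C6 ≤ δ * M / 4 := by linarith
  have t7 : 68 * S / c1 ^ 2 ≤ C := by linarith
  have t8 : 2 / c1 ≤ C := by linarith
  clear hC p2
  obtain ⟨hM, KU, K32, X2, N2, wM, MU, MN, N1, lX, lG⟩ :=
    num0 C32 hU hδ hδ' hw hK (show (2 : ℝ) ≤ n by exact_mod_cast hn)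
  have n2 : (2 : ℝ) ≤ n := by exact_mod_cast hn
  have M0 : 0 < M := by linarith
  have K0 : 0 < K := by exact_mod_cast (show (0 : ℝ) < K by linarith)
  obtain ⟨X, hX⟩ : ∃ X : ℝ, X = n * K := ⟨_, rfl⟩
  obtain ⟨N, hN⟩ : ∃ N : ℝ, N = (n + 2) * K := ⟨_, rfl⟩
  rw [← hX] at X2 N1 lX lG hm
  rw [← hN] at N1 N2 MN lG
  have X0 : 0 < X := by linarith
  have N0 : 0 < N := by linarith
  have w0 : 0 < δ * M := by positivity
  have hI : ∀ i ∈ Ico (2 * K) ((n + 2) * K), 1 ≤ i ∧ 2 * (K : ℝ) ≤ i ∧ (i : ℝ) ≤ N := fun i hi => by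
    rw [mem_Ico] at hi
    refine ⟨by omega, by exact_mod_cast hi.1, ?_⟩
    rw [hN]
    exact_mod_cast hi.2.le
  set G := GG M (δ * M / 4) (M * U) (3 * (N * M)) with hG
  have rG : rs G ≤ (3 + C3) * Real.log X := by
    have a := h3 M (δ * M / 4) (M * U) (3 * (N * M)) (by linarith) (by linarith)
    linarith [mul_le_mul_of_nonneg_left lX (show 0 ≤ C3 by linarith)]
  have rm : 12 * rs G + 1 ≤ m := by
    linarith [mul_le_mul_of_nonneg_right t3 (show 0 ≤ Real.log X by linarith),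
      mul_le_mul_of_nonneg_left lX (show 0 ≤ C3 by linarith)]
  have pG : ∀ g ⊆ G, (0 : ℝ) < pv g := fun g hg => by
    exact_mod_cast prod_pos fun p hp => (mem_GG.1 (hg hp)).1.1.pos
  have lZ : ∀ p : ℕ, p.Prime → Real.log p ≤ 3 * (N * M) → p ≤ ⌊Real.exp (3 * (N * M))⌋₊ :=
    fun p hp h => Nat.le_floor ((Real.log_le_iff_le_exp (by exact_mod_cast hp.pos)).1 h)
  have mP : ∀ i ∈ Ico (2 * K) ((n + 2) * K), δ / (32 * X) ≤ rs (QB M (δ * M / 4) i) ∧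
      rs (QB M (δ * M / 4) i) ≤ 1 := fun i hi => by
    obtain ⟨a1, a2, a3⟩ := hI i hi
    obtain ⟨b1, b2⟩ := h2 M (δ * M / 4) i t2 (by linarith) a1
    have i0 : (0 : ℝ) < i := by linarith
    refine ⟨le_trans ?_ b1, b2.trans ?_⟩
    · rw [show δ * M / 4 / (4 * (i * M)) = δ / (16 * i) by field_simp; norm_num]
      exact div_le_div_of_nonneg_left hδ.le (by positivity) (by linarith)
    · rw [div_le_one (by positivity)]
      linarith [mul_le_mul_of_nonneg_right (show (1 : ℝ) ≤ i by linarith) M0.le]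
  have mA : ∀ i ∈ Ico (2 * K) ((n + 2) * K),
      c1 * δ / N ≤ P1 G (Adm G (2 * (N * M) - i * M) (δ * M) m) := fun i hi => by
    obtain ⟨a1, a2, a3⟩ := hI i hi
    have b1 : (i : ℝ) * M ≤ N * M := mul_le_mul_of_nonneg_right a3 M0.le
    have b2 : 0 ≤ (i : ℝ) * M := by positivity
    refine le_trans (le_of_eq ?_) (h1 M (δ * M / 4) (M * U) (N * M) _ (δ * M) m t1
      (by linarith) (by linarith) MU (by linarith) (by linarith) (by linarith) rm)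
    field_simp
  have eH : C * n * K / δ = C * X / δ := by rw [hX, mul_assoc]
  refine ⟨⌊Real.exp (3 * (N * M))⌋₊, Real.exp (2 * (N * M)), G, QB M (δ * M / 4),
    fun i => Adm G (2 * (N * M) - i * M) (δ * M) m, Real.one_le_exp (by positivity), ?_,
    fun p hp => ?_,
    fun i hi q hq => ?_, fun i j h => Tile.QB_disjoint (by linarith) M0.le h,
    fun i => Tile.GG_disjoint _ _ _ _ i, fun i g hg => ⟨(mem_Adm.1 hg).1, (mem_Adm.1 hg).2.2⟩,
    fun i g hg => ?_, fun i g hg q hq => ?_, fun i hi => ?_, fun i hi => ?_, ?_, ?_, ?_,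
    fun i hi => ?_⟩
  · refine (Nat.floor_le (Real.exp_pos _).le).trans (Real.exp_le_exp.2 ?_)
    rw [← hX]
    linarith [mul_le_mul_of_nonneg_right N1 M0.le]
  · obtain ⟨⟨a, b, c⟩, -⟩ := mem_GG.1 hp
    exact ⟨a, b, lZ p a c⟩
  · obtain ⟨a1, a2, a3⟩ := hI i hi
    obtain ⟨a, b, c⟩ := mem_QB.1 hq
    have b1 : (i : ℝ) * M ≤ N * M := mul_le_mul_of_nonneg_right a3 M0.le
    have b2 : U * M ≤ i * M := mul_le_mul_of_nonneg_right (by linarith) M0.le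
    exact ⟨a, by linarith, lZ q a (by linarith)⟩
  · obtain ⟨a, ⟨b, c⟩, -⟩ := mem_Adm.1 hg
    rw [← Real.exp_log (pG g a), ← Real.exp_add, ← Real.exp_add, Real.exp_le_exp, Real.exp_le_exp]
    constructor <;> linarith
  · obtain ⟨a, ⟨b, c⟩, -⟩ := mem_Adm.1 hg
    obtain ⟨a', b', c'⟩ := mem_QB.1 hq
    have q0 : (0 : ℝ) < q := by exact_mod_cast a'.pos
    rw [← Real.exp_log (pG g a), ← Real.exp_log q0, ← Real.exp_add, ← Real.exp_add,
      Real.exp_le_exp, Real.exp_le_exp]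
    constructor <;> linarith
  · rw [eH]
    exact one_le_of hδ X0 (by norm_num) C32 (mP i hi).1
  · rw [eH]
    refine one_le_of hδ X0 p1 t8 (le_trans ?_ (mA i hi))
    rw [show δ / (2 / c1 * X) = c1 * δ / (2 * X) by field_simp]
    exact div_le_div_of_nonneg_left (by positivity) N0 N1
  · rw [eH]
    refine one_le_of hδ X0 (by norm_num) C32 ?_
    have a := h5 M (δ * M / 4) (M * U) (3 * (N * M)) (N * M) (δ * M) t5 (by linarith)
      (by linarith) (by linarith) (by linarith) (by linarith)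
    refine le_trans ?_ (a.trans (sum_le_sum_of_subset_of_nonneg (filter_subset _ _)
      fun _ _ _ => by positivity))
    rw [show δ * M / (2 * (N * M + δ * M)) = δ / (2 * (N + δ)) by field_simp]
    exact div_le_div_of_nonneg_left hδ.le (by positivity) (by linarith)
  · have a : ∑ i ∈ Ico (2 * K) ((n + 2) * K), rs (QB M (δ * M / 4) i) ≤ X := by
      refine (sum_le_card_nsmul _ _ 1 fun i hi => (mP i hi).2).trans ?_
      rw [Nat.card_Ico, nsmul_eq_mul, mul_one, add_mul, Nat.add_sub_cancel, hX, Nat.cast_mul]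
    have b := Real.log_le_self X0.le
    have c : (3 + C3) * Real.log X ≤ (3 + C3) * X := mul_le_mul_of_nonneg_left b (by linarith)
    have d : (4 + C3) * X ≤ C * X := mul_le_mul_of_nonneg_right (by linarith) X0.le
    have e : C * X ≤ C * X / δ := le_div_self (by positivity) hδ (by linarith)
    rw [eH]
    linarith
  · rw [← hX]
    exact rG.trans (mul_le_mul_of_nonneg_right (by linarith) (by linarith))
  · obtain ⟨a1, a2, a3⟩ := hI i hi
    obtain ⟨b1, b2, b3⟩ := h6 M (δ * M / 4) K 2 (n + 2) i t6 (by linarith) K0 (by omega) a1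
    have d2 : Q2 G (Adm G (2 * (N * M) - i * M) (δ * M) m) m ≤ 2 * S * (M * U / (N * M)) ^ 2 :=
      Tile.second (h4 M (δ * M / 4) (M * U) (3 * (N * M)) (N * M) t4 (by linarith) MU
        (by linarith) (by linarith)) (2 * (N * M) - i * M) _ (fun g hg => by
          obtain ⟨a, ⟨b, c⟩, -⟩ := mem_Adm.1 hg
          exact ⟨a, b, by linarith⟩) (by linarith [rs_nonneg G])
    have ln : 0 < Real.log n := Real.log_pos (by linarith)
    exact (dg_num hδ (by linarith) M0 N0 hS hc1 ln (half_log_le hn) b1 (Cat.lam_nonneg _ _ _ _) b2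
      b3 d2 (mA i hi)).trans (mul_le_mul_of_nonneg_right t7 (by positivity))

/-- the cells inside all the dilated intervals -/
theorem geom {R lo hi : ℕ} {x κ M : ℝ} (hR : 0 < R) (hlo : 1 ≤ lo) (hx : 0 < x) (hκ : 1 ≤ κ)
    (h1 : (R : ℝ) ≤ x * lo) (h2 : 4 * κ * lo ≤ hi) (hM : M = Real.log ((hi : ℝ) / lo))
    (M2 : 2 ≤ M) : ∃ j0 j1 : ℕ, 1 ≤ j0 ∧ j0 ≤ j1 ∧ ∑ j ∈ Ico j0 j1, 1 / (j : ℝ) ≤ 3 / 2 * M ∧
      (∀ z : ℝ, x * lo ≤ 2 * z → z ≤ x * κ * lo →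
        z < j0 * R ∧ Real.log (j0 * R / z) ≤ Real.log (4 * κ)) ∧
      ∀ z : ℝ, x * hi ≤ 2 * z → z ≤ x * κ * hi →
        j1 * R ≤ z ∧ Real.log (z / (j1 * R)) ≤ Real.log (4 * κ) := by
  have R0 : (0 : ℝ) < R := by exact_mod_cast hR
  have l0 : (0 : ℝ) < lo := by exact_mod_cast hlo
  have k1 : x * lo ≤ x * κ * lo := by
    rw [mul_right_comm]
    exact le_mul_of_one_le_right (by positivity) hκ
  have k2 : x * (4 * κ * lo) ≤ x * hi := mul_le_mul_of_nonneg_left h2 hx.le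
  have k0 : 0 < x * lo := by positivity
  have h0 : (0 : ℝ) < hi := lt_of_lt_of_le (by positivity) h2
  have k3 : x * hi ≤ x * κ * hi := by
    rw [mul_right_comm]
    exact le_mul_of_one_le_right (by positivity) hκ
  obtain ⟨j0, a0, a1, a2⟩ : ∃ j0 : ℕ, 1 ≤ j0 ∧ x * κ * lo < j0 * R ∧ j0 * R ≤ 2 * (x * κ * lo) := by
    have b1 := Nat.lt_floor_add_one (x * κ * lo / R)
    have b2 := Nat.floor_le (show 0 ≤ x * κ * lo / R by positivity)
    rw [div_lt_iff₀ R0] at b1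
    rw [le_div_iff₀ R0] at b2
    refine ⟨⌊x * κ * lo / R⌋₊ + 1, by omega, ?_, ?_⟩ <;> push_cast <;> linarith
  have b1 := Nat.lt_floor_add_one (x * hi / 2 / R)
  have b2 := Nat.floor_le (show 0 ≤ x * hi / 2 / R by positivity)
  have b3 : j0 ≤ ⌊x * hi / 2 / R⌋₊ := Nat.le_floor (by rw [le_div_iff₀ R0]; linarith)
  rw [div_lt_iff₀ R0] at b1
  rw [le_div_iff₀ R0] at b2
  generalize ⌊x * hi / 2 / R⌋₊ = j1 at b1 b2 b3
  have c0 : (0 : ℝ) < j0 := by exact_mod_cast a0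
  have c1 : (0 : ℝ) < j1 := by exact_mod_cast a0.trans b3
  refine ⟨j0, j1, a0, b3, (Loc.harm_Ico a0 b3).trans ?_, fun z z1 z2 => ⟨by linarith, ?_⟩,
    fun z z1 z2 => ⟨by linarith, ?_⟩⟩
  · have : Real.log ((j1 : ℝ) / j0) ≤ M := by
      rw [hM]
      refine Real.log_le_log (by positivity) ?_
      rw [div_le_div_iff₀ c0 l0]
      refine le_of_mul_le_mul_right ?_ R0
      have d1 := mul_le_mul_of_nonneg_right b2 l0.le
      have d2 := mul_le_mul_of_nonneg_right (k1.trans a1.le) h0.le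
      have d3 : 0 ≤ x * lo * hi := by positivity
      linarith
    rw [Real.log_div c1.ne' c0.ne'] at this
    linarith
  · have z0 : 0 < z := by linarith
    refine Real.log_le_log (by positivity) ?_
    rw [div_le_iff₀ z0]
    linarith [mul_le_mul_of_nonneg_left z1 (show 0 ≤ κ by linarith)]
  · have z0 : 0 < z := by linarith [mul_pos hx h0]
    refine Real.log_le_log (by positivity) ?_
    rw [div_le_iff₀ (by positivity)]
    linarith [mul_le_mul_of_nonneg_left (show x * hi ≤ 4 * (j1 * R) by linarith)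
      (show 0 ≤ κ by linarith)]

theorem floor_fit {c lo : ℕ} {x κ T : ℝ} (hlo : 1 ≤ lo) (hT : 1 ≤ T) (h1 : x ≤ c * T)
    (h2 : c * T ≤ x * κ) : 1 ≤ ⌊lo * T⌋₊ ∧ x * lo ≤ 2 * ((c : ℝ) * ⌊lo * T⌋₊) ∧
      (c : ℝ) * ⌊lo * T⌋₊ ≤ x * κ * lo := by
  have l1 : (1 : ℝ) ≤ lo := by exact_mod_cast hlo
  have a0 : (1 : ℝ) ≤ lo * T := one_le_mul_of_one_le_of_one_le l1 hT
  have a1 : 1 ≤ ⌊lo * T⌋₊ := Nat.le_floor (by exact_mod_cast a0)
  have a2 : (1 : ℝ) ≤ ⌊lo * T⌋₊ := by exact_mod_cast a1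
  have a3 := Nat.lt_floor_add_one (lo * T)
  have a4 := Nat.floor_le (show 0 ≤ lo * T by linarith)
  have c0 : (0 : ℝ) ≤ c := c.cast_nonneg
  refine ⟨a1, ?_, ?_⟩
  · linarith [mul_le_mul_of_nonneg_right h1 (show (0 : ℝ) ≤ lo by linarith),
      mul_le_mul_of_nonneg_left (show lo * T ≤ 2 * ⌊lo * T⌋₊ by linarith) c0]
  · linarith [mul_le_mul_of_nonneg_right h2 (show (0 : ℝ) ≤ lo by linarith),
      mul_le_mul_of_nonneg_left a4 c0]

theorem sizes {C C1 Q y l Z m lo : ℕ} {X ρ w : ℝ} (hC : 24 * C1 + 12 ≤ C) (Qy : Q ≤ y) (y1 : 1 ≤ y)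
    (m1 : 1 ≤ m) (hZ : (Z : ℝ) ≤ Real.exp (6 * X)) (X0 : 0 ≤ X)
    (hX : C * (X * m) ≤ l * Real.log y) (w0 : 0 ≤ w) (hρ : Real.exp (2 * w) * (y : ℝ) ^ C ≤ ρ)
    (lo1 : 1 ≤ lo) (hlo : Real.log ρ + C * (l * Real.log y) ≤ Real.log lo) :
    Real.exp (5 / 4 * w) * y * (y : ℝ) ^ C1 * Q ≤ ρ ∧
      (y : ℝ) ^ (l / 2) * (Z : ℝ) ^ (C1 * (m + 1)) ≤ (y : ℝ) ^ l ∧
      ((y : ℝ) ^ l * (Z : ℝ) ^ (m + 1)) ^ C1 * ρ ≤ lo ∧ ρ ≤ lo := by
  have a1 : (1 : ℝ) ≤ y := by exact_mod_cast y1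
  have a2 : (Q : ℝ) ≤ y := by exact_mod_cast Qy
  have a3 : (1 : ℝ) ≤ m := by exact_mod_cast m1
  have a4 : 24 * (C1 : ℝ) + 12 ≤ C := by exact_mod_cast hC
  have c0 : (0 : ℝ) ≤ C1 := C1.cast_nonneg
  have L0 := Real.log_nonneg a1
  have ρ0 : 0 < ρ := lt_of_lt_of_le (by positivity) hρ
  have ey : ∀ k : ℕ, (y : ℝ) ^ k = Real.exp (k * Real.log y) := fun k => by
    rw [Real.exp_nat_mul, Real.exp_log (by linarith)]
  have eZ : ∀ k : ℕ, (Z : ℝ) ^ k ≤ Real.exp (k * (6 * X)) := fun k => by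
    rw [Real.exp_nat_mul]
    exact pow_le_pow_left₀ Z.cast_nonneg hZ k
  have b0 : 0 ≤ X * m := by positivity
  have b1 : X ≤ X * m := le_mul_of_one_le_right X0 a3
  have b2 := mul_le_mul_of_nonneg_right a4 b0
  have b3 := mul_le_mul_of_nonneg_left b1 c0
  have b4 := mul_nonneg c0 b0
  have b5 : 0 ≤ l * Real.log y := by positivity
  have key : ∀ t : ℝ, t ≤ C * (l * Real.log y) → Real.exp t * ρ ≤ lo := fun t ht => by
    rw [← Real.exp_log ρ0, ← Real.exp_add, ← Real.le_log_iff_exp_le (by exact_mod_cast lo1)]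
    linarith
  refine ⟨le_trans ?_ hρ, ?_, le_trans ?_ (key (C1 * (2 * (l * Real.log y))) ?_), ?_⟩
  · rw [mul_assoc, mul_assoc]
    refine mul_le_mul (Real.exp_le_exp.2 (by linarith)) ?_ (by positivity) (by positivity)
    calc _ ≤ y * ((y : ℝ) ^ C1 * y) := by gcongr
      _ = (y : ℝ) ^ (C1 + 2) := by ring
      _ ≤ _ := pow_le_pow_right₀ a1 (by omega)
  · refine (mul_le_mul_of_nonneg_left (eZ _) (by positivity)).trans ?_
    rw [ey, ey, ← Real.exp_add, Real.exp_le_exp]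
    have d := mul_le_mul_of_nonneg_right (Nat.cast_div_le (α := ℝ) (m := l) (n := 2)) L0
    push_cast at d ⊢
    linarith
  · refine mul_le_mul_of_nonneg_right ?_ ρ0.le
    rw [Real.exp_nat_mul]
    refine pow_le_pow_left₀ (by positivity) ((mul_le_mul_of_nonneg_left (eZ _)
      (by positivity)).trans ?_) _
    rw [ey, ← Real.exp_add, Real.exp_le_exp]
    push_cast
    linarith
  · linarith [mul_le_mul_of_nonneg_right a4 b5, mul_nonneg c0 b5]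
  · simpa using key 0 (by positivity)

theorem fin_num {g M C C2 C3 C4 Cb s δ Ly Ln E W D r m Q : ℝ} (h2 : 0 < C2) (h3 : 0 < C3)
    (h4 : 0 < C4) (hb : 0 < Cb) (hC : 100 + 32 * C2 + 6 * C3 + 2 * C4 + 8 * Cb ≤ C) (hs : 0 < s)
    (hδ : 0 < δ) (hM : 0 < M) (hw : 1 ≤ δ * M) (hQ : M ≤ Q) (hD : D ≤ 2 * (δ * M) + Ly)
    (y0 : 0 ≤ Ly) (n0 : 0 ≤ Ln) (m0 : 0 < m) (hr : r ≤ Cb * Ln) (E0 : 0 ≤ E) (W0 : 0 ≤ W) :
    g / M - C * (s + δ + Ly / M + Ln / m) - C / s * ((E + 1) / M + W) ≤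
      (g - C2 * (2 + 2 * D)) / M - 6 * s - (16 * ((3 * E + 2 * C2) / M) + 8 * (Cb * W) + 1 / Q) / s
        - 1 / Q - 8 * r / m - C3 * (1 + 2 * D) / M - C4 * (1 / M + 1 / M) := by
  have a1 : 1 / M ≤ δ := by rwa [div_le_iff₀ hM]
  have a2 : 1 / Q ≤ 1 / M := one_div_le_one_div_of_le hM hQ
  have a3 : D / M ≤ 2 * δ + Ly / M := by
    rw [div_le_iff₀ hM, add_mul, div_mul_cancel₀ _ hM.ne']
    linarith
  have a4 : 8 * r / m ≤ 8 * Cb * (Ln / m) := by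
    rw [← mul_div_assoc]
    exact div_le_div_of_nonneg_right (by linarith) m0.le
  have a5 : (16 * ((3 * E + 2 * C2) / M) + 8 * (Cb * W) + 1 / Q) / s ≤
      C / s * ((E + 1) / M + W) := by
    rw [div_mul_eq_mul_div]
    refine div_le_div_of_nonneg_right ?_ hs.le
    have b1 : 0 ≤ E / M := by positivity
    have b2 : 0 ≤ 1 / M := by positivity
    rw [show (3 * E + 2 * C2) / M = 3 * (E / M) + 2 * C2 * (1 / M) by ring, add_div]
    linarith [mul_le_mul_of_nonneg_right (show 48 ≤ C by linarith) b1,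
      mul_le_mul_of_nonneg_right (show 32 * C2 + 1 ≤ C by linarith) b2,
      mul_le_mul_of_nonneg_right (show 8 * Cb ≤ C by linarith) W0]
  have b1 : 0 ≤ Ly / M := by positivity
  have b2 : 0 ≤ Ln / m := by positivity
  rw [show (g - C2 * (2 + 2 * D)) / M = g / M - 2 * (C2 * (1 / M)) - 2 * (C2 * (D / M)) by ring,
    show C3 * (1 + 2 * D) / M = C3 * (1 / M) + 2 * (C3 * (D / M)) by ring]
  linarith [mul_le_mul_of_nonneg_left a1 h2.le, mul_le_mul_of_nonneg_left a3 h2.le,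
    mul_le_mul_of_nonneg_left a1 h3.le, mul_le_mul_of_nonneg_left a3 h3.le,
    mul_le_mul_of_nonneg_left a1 h4.le,
    mul_le_mul_of_nonneg_right (show 6 ≤ C by linarith) hs.le,
    mul_le_mul_of_nonneg_right (show 6 * C2 + 5 * C3 + 2 * C4 + 1 ≤ C by linarith) hδ.le,
    mul_le_mul_of_nonneg_right (show 2 * C2 + 2 * C3 ≤ C by linarith) b1,
    mul_le_mul_of_nonneg_right (show 8 * Cb ≤ C by linarith) b2]

end Pool.Agent.P.MP_a14ce1_nt.Fu.L8.Mid
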