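import Pool.Agent.P.MP_a14ce1_nt.Fu.L8St
import Pool.Agent.P.MP_a14ce1_nt.Fu.LocB
import Pool.Agent.P.MP_a14ce1_nt.IV.Grid

/-! The choice of the parameters in the local plain step. -/

open Finset

namespace Pool.Agent.P.MP_a14ce1_nt.Fu.L8

open Ch (rs)
open IV (Hull Gr Up Ep grp)
open Ax (hull)
open Loc (dsI gnI LL Eqv bl lc)

namespace Par

theorem two_pow_mono {a b : ℕ} (h : a ≤ b) : 2 ^ a ≤ 2 ^ b := Nat.pow_le_pow_right two_pos h

theorem cube_le {L : ℕ} (h : 10 ≤ L) : L ^ 3 ≤ 2 ^ L := by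
  induction L, h using Nat.le_induction with
  | base => norm_num
  | succ n hn ih =>
    have : 10 * n ^ 2 ≤ n * n ^ 2 := by gcongr
    rw [pow_succ 2]
    nlinarith

theorem log_two_pow (n : ℕ) :
    (n : ℝ) / 2 ≤ Real.log ((2 ^ n : ℕ) : ℝ) ∧ Real.log ((2 ^ n : ℕ) : ℝ) ≤ n := by
  rw [Nat.cast_pow, Nat.cast_ofNat, Real.log_pow]
  have := Real.log_two_lt_d9
  have := Real.log_two_gt_d9
  have : (0 : ℝ) ≤ n := Nat.cast_nonneg n
  constructor <;> nlinarith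

theorem scale {t : ℝ} (t1 : 1 ≤ t) (ht : 3 ≤ Real.log t) : ∃ L : ℕ,
    ((2 ^ L : ℕ) : ℝ) ≤ t ∧ t ≤ 2 * ((2 ^ L : ℕ) : ℝ) ∧ Real.log t ≤ L := by
  have h2 : ⌊t⌋₊ ≠ 0 := (Nat.floor_pos.2 t1).ne'
  have h5 : t ≤ ((2 ^ (Nat.log 2 ⌊t⌋₊ + 1) : ℕ) : ℝ) :=
    (Nat.lt_floor_add_one t).le.trans (by exact_mod_cast Nat.lt_pow_succ_log_self one_lt_two ⌊t⌋₊)
  refine ⟨Nat.log 2 ⌊t⌋₊, (Nat.cast_le.2 (Nat.pow_log_le_self 2 h2)).trans
    (Nat.floor_le (by linarith)), by rwa [pow_succ', Nat.cast_mul] at h5, ?_⟩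
  have h6 := Real.log_le_log (by linarith) h5
  rw [Nat.cast_pow, Nat.cast_ofNat, Real.log_pow] at h6
  push_cast at h6
  have : (0 : ℝ) ≤ Nat.log 2 ⌊t⌋₊ := Nat.cast_nonneg _
  nlinarith [Real.log_two_lt_d9]

theorem nums {L T C J s : ℕ} (hT : T = 2 ^ L) (hL : L ^ 3 ≤ T) (hC : 200 * C ^ 2 ≤ L) (C0 : 0 < C)
    (hs : T ≤ s) (J1 : T ^ 9 ≤ J) (J2 : 2 * J ≤ T ^ 12) :
    2 * (T ^ 8 + 1) ≤ J ∧ (C * (4 * J)) ^ T ^ 8 ≤ 2 ^ (s * T ^ 8) ∧
      (2 ^ (s * T ^ 8)) ^ C ≤ 2 ^ (s * J) ∧ (T ^ 3) ^ (C * (2 * T)) ≤ 2 ^ (s * T ^ 8) ∧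
      T ^ 16 * s ≤ 2 ^ (s * T ^ 8) := by
  have c1 : 200 * C ≤ L := le_trans (by nlinarith) hC
  have c2 : 200 * (L * L) ≤ T := le_trans (by nlinarith) hL
  have c3 : 200 * L ≤ T := le_trans (by nlinarith) c2
  have T8 : T ≤ T ^ 8 := Nat.le_self_pow (by norm_num) T
  have pw : ∀ k, T ^ k = 2 ^ (k * L) := fun k => by rw [hT, ← pow_mul, mul_comm]
  refine ⟨le_trans ?_ J1, ?_, ?_, ?_, ?_⟩
  · calc 2 * (T ^ 8 + 1) ≤ 4 * T ^ 8 := by omega
      _ ≤ T * T ^ 8 := by gcongr; omega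
      _ = _ := by ring
  · have : C * (4 * J) ≤ 2 ^ s := by
      calc C * (4 * J) = (2 * C) * (2 * J) := by ring
        _ ≤ T * T ^ 12 := by gcongr; omega
        _ = 2 ^ (13 * L) := by rw [← pw]; ring
        _ ≤ _ := two_pow_mono (by omega)
    rw [pow_mul]
    gcongr
  · rw [← pow_mul, mul_assoc]
    refine two_pow_mono (Nat.mul_le_mul_left _ (le_trans ?_ J1))
    calc T ^ 8 * C ≤ T ^ 8 * T := by gcongr; omega
      _ = _ := by ring
  · rw [pw, ← pow_mul]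
    refine two_pow_mono ?_
    calc 3 * L * (C * (2 * T)) = (6 * C * L) * T := by ring
      _ ≤ s * T ^ 8 := by gcongr; nlinarith
  · calc T ^ 16 * s ≤ 2 ^ s * 2 ^ s :=
          Nat.mul_le_mul (by rw [pw]; exact two_pow_mono (by omega)) Nat.lt_two_pow_self.le
      _ = 2 ^ (s * 2) := by ring
      _ ≤ _ := two_pow_mono (by gcongr; omega)

theorem book {C D ε δ w M M1 v g X a1 a2 E u : ℝ} (C1 : 1 ≤ C) (hD : 10 ^ 6 * C ^ 3 ≤ D)
    (ε0 : 0 < ε) (ε1 : ε ≤ 1) (hδ : ε = 10 * C * δ) (hw : w * D ≤ ε ^ 3) (w0 : 0 ≤ w)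
    (M0 : 0 < M1) (h1 : M1 ≤ M + 1) (v0 : 0 ≤ v) (v2 : v ≤ 2) (hg : v * M - X ≤ g)
    (hX : 2 + X ≤ 38 * w * M1) (ha1 : a1 ≤ w) (ha2 : a2 ≤ w) (hE : E + 1 ≤ 18000 * w * M1)
    (hu : D ^ 2 * δ ^ 3 * u ≤ 4 * ε ^ 6) :
    v - ε ≤ g / M1 - C * (δ + δ + a1 + a2) - C / δ * ((E + 1) / M1 + u) := by
  have C0 : 0 < C := by linarith
  have δ0 : 0 < δ := by
    by_contra! h
    nlinarith
  have D0 : 0 < D := lt_of_lt_of_le (by positivity) hD
  have b1 : v - 38 * w ≤ g / M1 := by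
    rw [le_div_iff₀ M0]; nlinarith
  have b2 : (E + 1) / M1 ≤ 18000 * w := by rwa [div_le_iff₀ M0]
  have b3 : w * (10 ^ 6 * C ^ 3) ≤ ε ^ 3 := le_trans (by gcongr) hw
  have c2 : C ^ 2 ≤ C ^ 3 := pow_le_pow_right₀ C1 (by norm_num)
  have c1 : C ≤ C ^ 3 := le_self_pow₀ C1 (by norm_num)
  have e2 : ε ^ 3 ≤ ε ^ 2 := pow_le_pow_of_le_one ε0.le ε1 (by norm_num)
  have e1 : ε ^ 2 ≤ ε := pow_le_of_le_one ε0.le ε1 (by norm_num)
  have b4 : C * w ≤ ε / 10 ^ 6 := by nlinarith [mul_le_mul_of_nonneg_left c1 w0]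
  have b5 : w ≤ C * w := le_mul_of_one_le_left w0 C1
  have b6 : C / δ * (18000 * w) ≤ ε / 5 := by
    rw [div_mul_eq_mul_div, div_le_iff₀ δ0]
    refine le_of_mul_le_mul_left ?_ (show 0 < 10 * C by positivity)
    have : 10 * C * (ε / 5 * δ) = ε ^ 2 / 5 := by rw [hδ]; ring
    nlinarith [mul_le_mul_of_nonneg_left c2 w0]
  have b7 : C / δ * u ≤ ε / 5 := by
    rw [div_mul_eq_mul_div, div_le_iff₀ δ0]
    refine le_of_mul_le_mul_left ?_ (show 0 < D ^ 2 * δ ^ 3 by positivity)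
    have d2 : (10 ^ 6 * C ^ 3) ^ 2 ≤ D ^ 2 := by gcongr
    have c5 : C ^ 5 ≤ C ^ 6 := pow_le_pow_right₀ C1 (by norm_num)
    calc D ^ 2 * δ ^ 3 * (C * u) = C * (D ^ 2 * δ ^ 3 * u) := by ring
      _ ≤ C * (4 * (ε ^ 4 * ε)) := by
          refine mul_le_mul_of_nonneg_left (hu.trans ?_) C0.le
          have : ε ^ 4 * ε ^ 2 ≤ ε ^ 4 * ε := by gcongr
          linarith
      _ = (2 * 10 ^ 5 * C ^ 5) * δ ^ 3 * (ε / 5 * δ) := by
          rw [show ε ^ 4 = (10 * C * δ) ^ 4 by rw [hδ]]; ring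
      _ ≤ _ := by gcongr; nlinarith [pow_pos C0 6]
  have b8 : C / δ * ((E + 1) / M1 + u) ≤ C / δ * (18000 * w + u) := by gcongr
  have b9 : C * (δ + δ + a1 + a2) ≤ C * (δ + δ + w + w) := by gcongr
  rw [mul_add] at b8
  nlinarith

/-- the scales -/
theorem base {C D : ℕ} {M U σ ε : ℝ} (C0 : 0 < C) (hD : 10 ^ 6 * C ^ 3 ≤ D) (U1 : 1 ≤ U)
    (ε0 : 0 < ε) (ε1 : ε ≤ 1) (σ1 : 1 ≤ σ) (hU : (D : ℝ) ^ 2 * U ^ 2 ≤ ε ^ 6 * Real.log σ)
    (hσ : σ ^ 60 ≤ M) : ∃ L T s : ℕ, T = 2 ^ L ∧ L ^ 3 ≤ T ∧ 200 * C ^ 2 ≤ L ∧ D ≤ L ∧ L ≤ T ∧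
      T ≤ s ∧ (T : ℝ) ≤ σ ∧ σ ≤ 2 * T ∧ 200 * (C : ℝ) * (L * L) ≤ T ∧ (200 : ℝ) ≤ L ∧ 1 ≤ ε * L ∧
      U ≤ L ∧ s * (T : ℝ) ^ 13 ≤ M ∧ M ≤ 2 * s * (T : ℝ) ^ 13 ∧ (T : ℝ) ≤ M ∧
      (D : ℝ) ^ 2 ≤ ε ^ 6 * L := by
  have c3 : C ^ 2 ≤ C ^ 3 := Nat.pow_le_pow_right C0 (by norm_num)
  have c2 : C ≤ C ^ 2 := Nat.le_self_pow two_ne_zero C
  have D1 : (1 : ℝ) ≤ D := by exact_mod_cast (by omega : 1 ≤ D)
  have σ0 := Real.log_nonneg σ1
  have e6 : ε ^ 6 ≤ ε := pow_le_of_le_one ε0.le ε1 (by norm_num)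
  have U2 : U ≤ U ^ 2 := le_self_pow₀ U1 two_ne_zero
  have d0 : (D : ℝ) ^ 2 ≤ ε ^ 6 * Real.log σ :=
    le_trans (le_mul_of_one_le_right (by positivity) (by linarith)) hU
  have d1 : ε ^ 6 * Real.log σ ≤ Real.log σ := mul_le_of_le_one_left σ0 (by linarith)
  have d2 : (D : ℝ) ≤ D ^ 2 := le_self_pow₀ D1 two_ne_zero
  obtain ⟨L, b1, b2, b3⟩ := scale σ1 (le_trans (by exact_mod_cast (by omega : 3 ≤ D))
    (d2.trans (d0.trans d1)))
  have DL : D ≤ L := by exact_mod_cast d2.trans (d0.trans (d1.trans b3))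
  have LT := cube_le (show 10 ≤ L by omega)
  obtain ⟨T, hT⟩ : ∃ T, T = 2 ^ L := ⟨_, rfl⟩
  rw [← hT] at b1 b2 LT
  have l2 : 200 * C * (L * L) ≤ T := by
    calc _ ≤ L * (L * L) := by gcongr; omega
      _ ≤ T := by rwa [← pow_three]
  have l3 : L ≤ T := (Nat.le_self_pow three_ne_zero L).trans LT
  have T1 : (1 : ℝ) ≤ T := by exact_mod_cast (by omega : 1 ≤ T)
  have TM : (T : ℝ) ^ 60 ≤ M := le_trans (by gcongr) hσ
  have p : (0 : ℝ) < T ^ 13 := by positivity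
  have M0 : 0 ≤ M := le_trans (by positivity) TM
  have h : T ≤ ⌊M / T ^ 13⌋₊ := Nat.le_floor ((le_div_iff₀ p).2 (le_trans (by
    rw [← pow_succ']; exact pow_le_pow_right₀ T1 (by norm_num)) TM))
  refine ⟨L, T, _, hT, LT, by omega, DL, l3, h, b1, b2, by exact_mod_cast l2,
    by exact_mod_cast (by omega : 200 ≤ L),
    D1.trans (d2.trans (d0.trans (mul_le_mul e6 b3 σ0 ε0.le))),
    U2.trans ((le_mul_of_one_le_left (by positivity) (D1.trans d2)).trans (hU.trans (d1.trans b3))),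
    (le_div_iff₀ p).1 (Nat.floor_le (by positivity)), (div_le_iff₀ p).1 ?_,
    (le_self_pow₀ T1 (by norm_num)).trans TM, d0.trans (by gcongr)⟩
  have : (T : ℝ) ≤ ⌊M / T ^ 13⌋₊ := by exact_mod_cast h
  linarith [Nat.lt_floor_add_one (M / T ^ 13)]

/-- the real size conditions -/
theorem reals {C L T s δ U M N a P y Λ : ℝ} (C1 : 1 ≤ C) (l2 : 200 * C * (L * L) ≤ T) (CL : C ≤ L)
    (L1 : 200 ≤ L) (δ0 : 0 < δ) (δ1 : 10 * C * δ ≤ 1) (δ3 : 1 ≤ 10 * C * δ * L) (U1 : 1 ≤ U)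
    (UL : U ≤ L) (s3 : M ≤ 2 * s * T ^ 13) (TM : T ≤ M) (N1 : M - 1 ≤ N) (N2 : N ≤ M + 1)
    (aM : a ≤ M) (p0 : 0 ≤ P) (p1 : T * P ≤ M) (y5 : y ≤ P) (y6 : s * T ^ 9 / 2 ≤ y)
    (hΛ : T ^ 12 * M ≤ Λ) : δ ≤ 1 / 10 ∧
      a * U ≤ N * (2 * U) ∧ C ≤ δ * N ∧ C * (2 * U) ≤ 4 * T ∧ C * (3 * L) ≤ 2 * T ∧
      C * (2 * T) * (4 * T) / δ ≤ T ^ 3 ∧ C * (2 * T) * (4 * T) * N ≤ T ^ 16 * s ∧
      2 * δ * N + C * P + 2 * L * P ≤ M ∧ C * (2 * T) * (4 * T) * N * (2 * T) ≤ T ^ 8 * y ∧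
      M + C * (T ^ 8 * y) + 1 ≤ Λ := by
  have l3 : 200 * C * (200 * L) ≤ T := le_trans (by gcongr) l2
  have l4 : 200 * 1 * (200 * L) ≤ T := le_trans (by gcongr) l3
  have T1 : 1 ≤ T := by linarith
  have s0 : 0 ≤ s := by
    by_contra! h
    have : 0 < -s * T ^ 13 := by have := neg_pos.2 h; positivity
    linarith
  have δ2 : 10 * 1 * δ ≤ 1 := le_trans (by gcongr) δ1
  have k1 : 20 * L * 1 ≤ T * δ := by
    calc _ ≤ 20 * L * (10 * C * δ * L) := by gcongr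
      _ = 200 * C * (L * L) * δ := by ring
      _ ≤ _ := by gcongr
  have k2 : δ * T ≤ δ * (2 * N) := by gcongr; linarith
  have k3 : C * U ≤ C * L := by gcongr
  have k4 : 200 * 1 * (200 * L) * P ≤ T * P := by gcongr
  have k5 : C * P ≤ L * P := by gcongr
  have k6 : δ * N ≤ 1 / 10 * (M + 1) := by gcongr <;> linarith
  have k7 : 0 ≤ C * L := by positivity
  have k8 : N ≤ 2 * (2 * s * T ^ 13) := by linarith
  refine ⟨by linarith, ?_, by linarith, by linarith, by linarith, ?_, ?_, by linarith, ?_, ?_⟩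
  · calc a * U ≤ (2 * N) * U := by gcongr; linarith
      _ = _ := by ring
  · rw [div_le_iff₀ δ0]
    calc _ = 8 * C * T ^ 2 := by ring
      _ ≤ T * δ * T ^ 2 := mul_le_mul_of_nonneg_right (by linarith) (by positivity)
      _ = _ := by ring
  · calc _ ≤ C * (2 * T) * (4 * T) * (2 * (2 * s * T ^ 13)) := by gcongr
      _ = (32 * C) * (T ^ 15 * s) := by ring
      _ ≤ T * (T ^ 15 * s) := by gcongr; linarith
      _ = _ := by ring
  · calc _ ≤ C * (2 * T) * (4 * T) * (2 * (2 * s * T ^ 13)) * (2 * T) := by gcongr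
      _ = (128 * C) * (T ^ 16 * s / 2) := by ring
      _ ≤ T * (T ^ 16 * s / 2) := by gcongr; linarith
      _ = T ^ 8 * (s * T ^ 9 / 2) := by ring
      _ ≤ _ := by gcongr
  · have a2 : C * y ≤ M := le_trans (by gcongr) (k5.trans (by linarith [mul_nonneg (by linarith : 0 ≤ L) p0]))
    have a3 : T ^ 8 * (C * y) ≤ T ^ 8 * M := by gcongr
    have a4 : T ^ 8 * 3 * M ≤ T ^ 12 * M := by
      gcongr
      · linarith
      calc T ^ 8 * 3 ≤ T ^ 8 * T := by gcongr; linarith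
        _ = T ^ 9 := by ring
        _ ≤ _ := pow_le_pow_right₀ T1 (by norm_num)
    have a5 : 1 * M ≤ T ^ 8 * M := by gcongr; exacts [by linarith, one_le_pow₀ T1]
    linarith

/-- the small quantities -/
theorem smalls {L T N M P p w : ℝ} (L1 : 200 ≤ L) (l2 : 200 * (L * L) ≤ T) (hw : w = 1 / √L)
    (TM : T ≤ M) (N1 : M - 1 ≤ N) (TP : T ≤ P) (p1 : T * p ≤ M) :
    0 ≤ w ∧ p ≤ w * N ∧ 2 + 12 * (L / P * (1 + N) + 1) ≤ 38 * w * N ∧ 3 * L / (2 * T) ≤ w ∧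
      2560 * ((1 / L + w + 1 / P) * (1 + N) + p) + 1 ≤ 18000 * w * N := by
  have q0 : 0 < √L := Real.sqrt_pos.2 (by linarith)
  have w0 : 0 < w := by rw [hw]; positivity
  have w1 : 1 / L ≤ w := by
    rw [hw]; gcongr; exact Real.sqrt_le_self_iff.2 (Or.inr (by linarith))
  have w2 : 1 ≤ L * w := by rwa [div_le_iff₀' (by linarith)] at w1
  have l3 : 200 * (200 * L) ≤ T := le_trans (by gcongr) l2
  have a1 : L * 1 ≤ L * (L * w) := by gcongr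
  have a2 : 200 * (L * L) * w ≤ T * w := by gcongr
  have a3 : w * T ≤ w * P := by gcongr
  have a4 : w * T ≤ w * (2 * N) := by gcongr; linarith
  have w5 : L / P ≤ w := by rw [div_le_iff₀ (by linarith)]; linarith
  have w6 : 1 / P ≤ w := le_trans (by gcongr <;> linarith) w5
  have w7 : p ≤ w * N := by
    refine le_of_mul_le_mul_left (p1.trans ?_) (show 0 < T by linarith)
    calc M ≤ 2 * N := by linarith
      _ ≤ T * w * N := by gcongr <;> linarith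
      _ = _ := by ring
  have b1 : L / P * (1 + N) ≤ w * (2 * N) := by gcongr <;> linarith
  have b2 : (1 / L + w + 1 / P) * (1 + N) ≤ (w + w + w) * (2 * N) := by gcongr <;> linarith
  refine ⟨w0.le, w7, by linarith, ?_, by linarith⟩
  rw [div_le_iff₀ (by linarith)]
  linarith

end Par

open Par

theorem par8 (hM : S_Mid8) : S_Loc := by
  intro A hA
  obtain ⟨C, C0, hM⟩ := hM A hA
  obtain ⟨s0, h1⟩ := Loc.sec1A
  have hX := IV.hull A hA.atm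
  obtain ⟨D, hD⟩ : ∃ D : ℕ, D = 10 ^ 6 * C ^ 3 + s0 := ⟨_, rfl⟩
  have C1 : (1 : ℝ) ≤ C := by exact_mod_cast C0
  have D0 : 0 < D := by rw [hD]; positivity
  refine ⟨(D : ℝ) ^ 2, by positivity, fun f Y M a U σ ε v hf hF aM U1 ε0 ε1 σ1 Y1 hU hσ hY hP => ?_⟩
  have M1' : 1 ≤ M := (one_le_pow₀ σ1).trans hσ
  rcases le_total v ε with hv | hv
  · refine ⟨Y, M * σ, le_rfl, le_mul_of_one_le_right (by linarith)
      (Real.one_le_exp (by positivity)), le_rfl, 0, IV.gr_zero hX _, ?_⟩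
    refine (mul_nonpos_of_nonpos_of_nonneg (by linarith) (by positivity)).trans ?_
    simp [IV.gn]
  obtain ⟨L, T, s, hT, LT, l1, DL, l3, s1, b1, b2, l2, L1, εL, UL, s2, s3, T3, DL'⟩ :=
    base (D := D) C0 (by omega) U1 ε0 ε1 σ1 hU hσ
  have CL : (C : ℝ) ≤ L := by
    exact_mod_cast (Nat.le_self_pow two_ne_zero C).trans (by omega : C ^ 2 ≤ L)
  have l2' : 200 * ((L : ℝ) * L) ≤ T := le_trans (by gcongr; linarith) l2
  have l4 : 200 * (200 * (L : ℝ)) ≤ T := le_trans (by gcongr) l2'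
  have T1 : (1 : ℝ) ≤ T := by linarith
  have T0 : 0 < T := by omega
  have t12 : (T : ℝ) ^ 12 * M ≤ Real.log Y := le_trans (by gcongr) hY
  have t3 : 3 * M ≤ Real.log Y := le_trans (by
    gcongr; exact le_trans (by linarith) (le_self_pow₀ T1 (by norm_num))) t12
  have Y2 : 2 ≤ Y := by linarith [Real.log_le_sub_one_of_pos (show 0 < Y by linarith)]
  have M0 : 0 ≤ M := by linarith
  obtain ⟨Ψ0, g0, g1⟩ := (Loc.pot_iff (by linarith)).1 hP
  have lo1 := Loc.one_le_bl Y2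
  have lh := Loc.bl_exp (show 0 ≤ Y by linarith) M0
  have lY := Loc.bl_le (show 0 ≤ Y by linarith)
  obtain ⟨o1, o2⟩ := Loc.log_bl Y2
  obtain ⟨o3, o4⟩ := Loc.log_bl (Y2.trans (le_mul_of_one_le_right (by linarith) (Real.one_le_exp M0)))
  rw [Real.log_mul (by linarith) (Real.exp_pos M).ne', Real.log_exp] at o3 o4
  generalize bl Y = lo at *
  generalize bl (Y * Real.exp M) = hi at *
  have lo0 : (0 : ℝ) < lo := by exact_mod_cast lo1
  obtain ⟨N, hN⟩ : ∃ N, N = Real.log ((hi : ℝ) / lo) := ⟨_, rfl⟩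
  have hLL : LL lo hi = 1 + N := by rw [hN]; rfl
  have N1 : M - 1 ≤ N := by rw [hN, Loc.log_ratio lo1 lh]; linarith
  have N2 : N ≤ M + 1 := by rw [hN, Loc.log_ratio lo1 lh]; linarith
  have N0 : 0 < N := by linarith
  have v2 : v ≤ 2 := by
    have := Loc.dsI_zero_le lo1 lh hf
    have := Loc.dsI_nonneg lo hi f Ψ0
    rw [Loc.gnI_eq] at g1
    refine le_of_mul_le_mul_right ?_ (show 0 < M by linarith)
    linarith
  obtain ⟨Pm, hPm⟩ : ∃ Pm, Pm = 2 ^ (s * T ^ 12) := ⟨_, rfl⟩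
  have Pm0 : 0 < Pm := hPm ▸ Nat.two_pow_pos _
  have Pm1 : (1 : ℝ) ≤ Pm := by exact_mod_cast Pm0
  have p0 := Real.log_nonneg Pm1
  have p1 : T * Real.log Pm ≤ M := by
    refine le_trans ?_ s2
    calc _ ≤ T * ((s * T ^ 12 : ℕ) : ℝ) := by gcongr; exact hPm ▸ (log_two_pow _).2
      _ = _ := by push_cast; ring
  have p2 : 200 * (200 * (L : ℝ)) * Real.log Pm ≤ M := le_trans (by gcongr) p1
  have p4 : 200 * (200 * 200) * Real.log Pm ≤ M := le_trans (by gcongr) p2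
  have p3 : (T : ℝ) ≤ Pm := by
    exact_mod_cast hPm ▸ le_trans (s1.trans (Nat.le_mul_of_pos_right _ (pow_pos T0 _)))
      Nat.lt_two_pow_self.le
  have ep : ∀ n : ℕ, (Pm : ℝ) ^ n = Real.exp (n * Real.log Pm) := fun n => by
    rw [Real.exp_nat_mul, Real.exp_log (by linarith)]
  have hF' : Flip f (max a 0) U := fun p hp h => hF p hp (h.imp (fun h => (lt_max_iff.1 h).resolve_right
    (Real.log_natCast_nonneg p).not_gt) fun h => lt_of_le_of_lt (by gcongr; exact le_max_left _ _) h)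
  have T12 : T ^ 9 * 2 ^ (3 * L) = T ^ 12 := by rw [mul_comm 3, pow_mul, ← hT]; ring
  obtain ⟨ρ, Ψ, Ψ1, J, r1, r2, r3, r4, r5, r6, r7, r9, r8⟩ := h1 _ hX lc f
    (fun n => (Loc.norm_lc n).le) hf s (T ^ 9) L L lo hi Pm (Real.exp M) (max a 0) U Ψ0 (by omega)
    (by omega) (Nat.one_le_pow _ _ T0) (by omega) (by omega)
    (by rw [mul_assoc, T12, hPm]; push_cast; rfl)
    (by rw [ep, Real.exp_le_exp]; push_cast; linarith)
    ((Real.log_le_log_iff (by linarith) lo0).1 (by linarith)) lh (le_max_right _ _)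
    (by rw [show (2 : ℝ) ^ L = T by rw [hT]; push_cast; rfl]; linarith)
    (fun p hp h => ⟨Loc.norm_lc p, Loc.eqv_prime hF' hp h⟩) g0
  rw [T12] at r7
  obtain ⟨n1, n2, n3, n4, n5⟩ := nums hT LT l1 C0 s1 r6 r7
  obtain ⟨y, hy⟩ : ∃ y, y = 2 ^ (s * J) := ⟨_, rfl⟩
  obtain ⟨Q, hQ⟩ : ∃ Q, Q = 2 ^ (s * T ^ 8) := ⟨_, rfl⟩
  rw [← hQ] at n2 n3 n4 n5
  rw [← hy] at n3
  have y2 : y ^ 2 = 2 ^ (s * (2 * J)) := by rw [hy, ← pow_mul]; congr 1; ring
  have y3 : y ^ 2 ≤ Pm := by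
    rw [y2, hPm]
    exact two_pow_mono (by gcongr)
  have y0 : (0 : ℝ) < y := by exact_mod_cast hy ▸ Nat.two_pow_pos _
  have y4 : (y : ℝ) ≤ Pm := by exact_mod_cast (Nat.le_self_pow two_ne_zero _).trans y3
  have y5 := Real.log_le_log y0 y4
  have y6 : s * (T : ℝ) ^ 9 / 2 ≤ Real.log y := by
    refine le_trans ?_ (hy ▸ (log_two_pow _).1)
    push_cast
    gcongr
    exact_mod_cast r6
  obtain ⟨g, g2, g3⟩ := r8 (T ^ 8 + 1) n1
  have gq : ∀ k, ∀ p ∈ grp s (g k), p ∈ V.PP (s * J) (s * (2 * J)) := fun k p hp => by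
    obtain ⟨q1, q2, q3⟩ := V.mem_PP.1 hp
    refine V.mem_PP.2 ⟨q1, lt_of_le_of_lt (two_pow_mono ?_) q2, q3.trans (two_pow_mono ?_)⟩
    · gcongr; exact (g3 k).1
    · gcongr; exact (g3 k).2.1
  have gp : ∀ k, ∀ p ∈ grp s (g k), p.Prime ∧ y < p ∧ p ≤ y ^ 2 := fun k p hp => by
    rw [y2, hy]; exact V.mem_PP.1 (gq k p hp)
  have gb : ∀ k, 1 ≤ ((4 * J : ℕ) : ℝ) * rs (grp s (g k)) := fun k => by
    push_cast; exact (g3 k).2.2.1
  obtain ⟨δ, hδ⟩ : ∃ δ, δ = ε / (10 * C) := ⟨_, rfl⟩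
  have δ0 : 0 < δ := by rw [hδ]; positivity
  have δ1 : ε = 10 * C * δ := by rw [hδ]; field_simp
  obtain ⟨z1, z2, z3, z4, z5, z6, z7, z8, z9, z10⟩ := reals C1 l2 CL L1 δ0 (δ1 ▸ ε1) (δ1 ▸ εL) U1 UL
    s3 T3 N1 N2 aM p0 p1 y5 y6 t12
  have ρ0 : 0 < ρ := pos_of_mul_pos_left ((Real.exp_pos M).trans_le r1) (by positivity)
  have k1 : Real.log ((2 * T) * (4 * T)) ≤ 3 * L := by
    have := (log_two_pow (L * 3)).2
    rw [pow_mul, ← hT] at this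
    push_cast at this
    refine (Real.log_le_log (by positivity) ?_).trans (this.trans_eq (mul_comm _ _))
    calc _ = 8 * (T : ℝ) ^ 2 := by ring
      _ ≤ T * T ^ 2 := by gcongr; linarith
      _ = _ := by ring
  obtain ⟨j, j1, j2, Φ, j3, j4⟩ := hM lc f Q y (T ^ 8) (4 * J) (∏ k : Fin (T ^ 8), 2 ^ (s * g k.castSucc))
    Pm lo hi (4 * T) (2 * T) (2 * T) N (2 * U) δ ρ _ δ Ψ Ψ1 (fun k => grp s (g k.castSucc))
    (grp s (g (Fin.last _))) Loc.ucm_lc hf lo1 lh hN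
    (fun p hp h => Loc.eqv_prime hF hp (.inr (z2.trans_lt h)))
    (fun k p hp => Loc.eqv_prime hF' (gp _ p hp).1 (r9 p (gq _ p hp))) r3 r4
    ⟨Nat.one_le_pow _ _ T0, by have := pow_pos T0 9; omega, n2, n3, fun k => gp _, gp _,
      fun k k' h => IV.grp_disjoint _ fun e => h (Fin.castSucc_injective _ (g2 e)),
      fun k => IV.grp_disjoint _ fun e => (Fin.castSucc_lt_last k).ne (g2 e), fun k => gb _, gb _⟩
    y3 (by linarith)
    (by
      rw [← Fin.prod_const]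
      exact prod_le_prod' fun k _ => hy ▸ two_pow_mono (by gcongr; exact (g3 _).1))
    (fun u hu => by
      have hu := fun k => V.mem_PP.1 (Fintype.mem_piFinset.1 hu k)
      refine ⟨prod_le_prod' fun k _ => (hu k).2.1.le,
        (prod_le_prod' fun k _ => (hu k).2.2).trans ?_⟩
      simp only [mul_add, mul_one, pow_add, prod_mul_distrib, Fin.prod_const, ← pow_mul]
      rw [mul_comm]
      gcongr
      exact hy ▸ two_pow_mono (by gcongr; omega))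
    (by linarith) δ0 (by linarith) z3 (by push_cast; exact z4) (by omega)
    (by push_cast; exact (mul_le_mul_of_nonneg_left k1 (by linarith)).trans z5)
    (le_trans (by push_cast; exact pow_le_pow_left₀ (by positivity) z6 _)
      (show ((T ^ 3 : ℕ) : ℝ) ^ (C * (2 * T)) ≤ Q by exact_mod_cast n4))
    (le_trans (by push_cast; exact z7) (show ((T ^ 16 * s : ℕ) : ℝ) ≤ Q by exact_mod_cast n5))
    (by
      refine le_of_mul_le_mul_right (le_trans ?_ r1) (show 0 < (Pm : ℝ) ^ (2 * L) by positivity)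
      calc _ ≤ Real.exp (2 * δ * N) * (Pm : ℝ) ^ C * Pm ^ (2 * L) := by gcongr
        _ ≤ _ := by
          rw [ep, ep, ← Real.exp_add, ← Real.exp_add, Real.exp_le_exp]
          push_cast
          exact z8)
    (by push_cast; exact z9)
    (by
      have a1 : Real.log ρ ≤ M := (Real.log_le_iff_le_exp ρ0).2
        (le_trans (le_mul_of_one_le_right ρ0.le (one_le_pow₀ Pm1)) r2)
      push_cast
      linarith)
    (by rw [hLL]; positivity) (fun k => (g3 _).2.2.2) δ0 (by linarith)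
  push_cast at j3 j4
  have j1' : (1 : ℝ) ≤ j := by exact_mod_cast j1
  have j2' : (j : ℝ) ≤ 4 * T := by exact_mod_cast (by omega : j ≤ 4 * T)
  refine ⟨lo * Real.exp (j * (4 * T) * N), 4 * T * N, ?_, ?_, ?_, Φ, j3,
    le_trans (mul_le_mul_of_nonneg_right ?_ (by positivity)) j4⟩
  · rw [← Real.log_le_log_iff (by linarith) (by positivity), Real.log_mul lo0.ne'
      (Real.exp_pos _).ne', Real.log_exp]
    have : 1 * (4 * 1) * N ≤ j * (4 * T) * N := by gcongr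
    linarith
  · refine mul_le_mul lY (Real.exp_le_exp.2 ?_) (Real.exp_pos _).le (by linarith)
    calc _ ≤ (4 * σ) * (4 * σ) * (2 * M) := by gcongr <;> linarith
      _ = 32 * M * σ ^ 2 := by ring
      _ ≤ (3 * σ) * M * σ ^ 2 := by gcongr; linarith
      _ = 3 * M * σ ^ 3 := by ring
      _ ≤ _ := by gcongr; norm_num
  · calc M * σ ≤ (2 * N) * (2 * T) := by gcongr; linarith
      _ = _ := by ring
  obtain ⟨w, hw⟩ : ∃ w, w = 1 / √(L : ℝ) := ⟨_, rfl⟩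
  obtain ⟨w0, w1, w2, w3, w4⟩ := smalls L1 l2' hw T3 N1 p3 p1
  rw [hLL] at r5
  rw [hLL, ← hw]
  refine book (D := D) (w := w) C1 (by rw [hD]; push_cast; linarith [Nat.cast_nonneg (α := ℝ) s0])
    ε0 ε1 δ1 ?_ w0 N0 N2 (by linarith) v2 (le_trans (sub_le_sub_right g1 _) r5) w2
    ((div_le_iff₀ N0).2 (y5.trans w1)) (le_trans (by gcongr) w3) w4 ?_
  · rw [hw, one_div, inv_mul_le_iff₀ (Real.sqrt_pos.2 (by linarith))]
    refine (pow_le_pow_iff_left₀ (by positivity) (by positivity) two_ne_zero).1 ?_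
    rwa [mul_pow, Real.sq_sqrt (by linarith), ← pow_mul, mul_comm]
  · have a1 : Real.log σ ≤ Real.log (2 * T) := Real.log_le_log (by linarith) b2
    have a2 : 0 < Real.log (2 * T) := Real.log_pos (by linarith)
    rw [← mul_div_assoc, div_le_iff₀ (by positivity)]
    calc _ = 4 * δ ^ 3 * ((D : ℝ) ^ 2 * U ^ 2) := by ring
      _ ≤ 4 * δ ^ 3 * (ε ^ 6 * Real.log (2 * T)) :=
          mul_le_mul_of_nonneg_left (hU.trans (by gcongr)) (by positivity)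
      _ = _ := by ring

end Pool.Agent.P.MP_a14ce1_nt.Fu.L8
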