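import Pool.Agent.P.MP_a14ce1_nt.Fu.Maj
import Pool.Agent.P.MP_a14ce1_nt.Nil.CoreSt
import Pool.Agent.P.MP_a14ce1_nt.Ch.Defs

/-!
The majorant, summed against a weight on the naturals.
-/

open Finset
open scoped ComplexConjugate

namespace Pool.Agent.P.MP_a14ce1_nt.Fu.Maj

open Ch (pv)
open Nil.ES (Wt br br_eq)

theorem pv_pos {g : Finset ℕ} (h : ∀ p ∈ g, p.Prime) : 0 < pv g :=
  prod_pos fun p hp => (h p hp).pos

theorem pv_dvd_iff {g : Finset ℕ} (h : ∀ p ∈ g, p.Prime) {N : ℕ} : pv g ∣ N ↔ ∀ p ∈ g, p ∣ N :=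
  ⟨fun h' _ hp => (dvd_prod_of_mem (fun q => q) hp).trans h', fun h' =>
    prod_primes_dvd N (fun p hp => (h p hp).prime) h'⟩

theorem subset_iff_dvd {G g : Finset ℕ} (hG : ∀ p ∈ G, p.Prime) (hg : g ⊆ G) {N : ℕ} :
    g ⊆ G.filter (fun p => p ∣ N) ↔ pv g ∣ N := by
  rw [pv_dvd_iff fun p hp => hG p (hg hp)]
  exact ⟨fun h p hp => (mem_filter.1 (h hp)).2, fun h p hp => mem_filter.2 ⟨hg hp, h p hp⟩⟩

theorem cop_pv {G g : Finset ℕ} (hg : g ⊆ G) {c : ℕ} (hc : ∀ p ∈ G, c.Coprime p) :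
    c.Coprime (pv g) := Nat.Coprime.prod_right fun p hp => hc p (hg hp)

/-- a level c d as a sum over the level c -/
theorem br_div (μ : Wt ℕ) {c d : ℕ} (h : c.Coprime d) (hd : 0 < d) (φ ψ : ℕ → ℂ) :
    br μ (c * d) φ ψ / d = c * ∑ N ∈ μ.s.filter (fun N => c ∣ N),
      μ.w N * if d ∣ N then (φ N * conj (ψ N)).re else 0 := by
  have hd' : (d : ℝ) ≠ 0 := by positivity
  rw [br_eq, Nat.cast_mul, mul_comm (c : ℝ), mul_assoc, mul_div_cancel_left₀ _ hd']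
  congr 1
  simp only [sum_filter]
  refine sum_congr rfl fun N _ => ?_
  by_cases h1 : c ∣ N
  · by_cases h2 : d ∣ N
    · simp [h1, h2, h.mul_dvd_of_dvd_of_dvd h1 h2]
    · have : ¬ c * d ∣ N := fun h3 => h2 (dvd_of_mul_left_dvd h3)
      simp [h2, this]
  · have : ¬ c * d ∣ N := fun h3 => h1 (dvd_of_mul_right_dvd h3)
    simp [h1, this]

variable {ι β : Type*} [DecidableEq β]

/-- the quadratic form that majorises the square -/
noncomputable def qf (μ : Wt ℕ) (c0 : ℕ) (G : Finset ℕ) (κ : ℕ → ℝ) (J : ℕ) (s : Finset ι)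
    (g : ι → Finset ℕ) (b : ι → β) (c : ι → ℝ) (y : ι → ℕ → ℂ) : ℝ :=
  ∑ i ∈ s, ∑ i' ∈ s, ∑ e ∈ pw (2 * J) (G \ (g i ∪ g i')),
    c i * c i' * (∏ p ∈ g i ∪ g i', (1 - κ p)) * (∏ p ∈ e, (-κ p)) / pv (g i ∪ g i' ∪ e) *
      if b i = b i' then br μ (c0 * pv (g i ∪ g i' ∪ e)) (y i) (y i)
      else br μ (c0 * pv (g i ∪ g i' ∪ e)) (y i) (y i')

theorem maj_br (μ : Wt ℕ) {c0 : ℕ} {G : Finset ℕ} (hG : ∀ p ∈ G, p.Prime)
    (hc0 : ∀ p ∈ G, c0.Coprime p) {κ : ℕ → ℝ} (hκ : ∀ p ∈ G, 0 ≤ κ p ∧ κ p ≤ 1) (J : ℕ)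
    (s : Finset ι) (g : ι → Finset ℕ) (hg : ∀ i ∈ s, g i ⊆ G) (b : ι → β) (c : ι → ℝ)
    (hc : ∀ i ∈ s, 0 ≤ c i) (y : ι → ℕ → ℂ) :
    c0 * ∑ N ∈ μ.s.filter (fun N => c0 ∣ N), μ.w N *
      (‖∑ i ∈ s.filter (fun i => pv (g i) ∣ N), (c i : ℂ) * y i N‖ ^ 2 *
        ∏ p ∈ G.filter (fun p => p ∣ N), (1 - κ p)) ≤ qf μ c0 G κ J s g b c y := by
  have hs : ∀ i ∈ s, ∀ i' ∈ s, ∀ e ∈ pw (2 * J) (G \ (g i ∪ g i')), g i ∪ g i' ∪ e ⊆ G :=
    fun i hi i' hi' e he => union_subset (union_subset (hg i hi) (hg i' hi'))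
      ((mem_pw.1 he).1.trans sdiff_subset)
  have e1 : qf μ c0 G κ J s g b c y = c0 * ∑ N ∈ μ.s.filter (fun N => c0 ∣ N), μ.w N *
      ∑ i ∈ s, ∑ i' ∈ s, ∑ e ∈ pw (2 * J) (G \ (g i ∪ g i')),
        c i * c i' * (∏ p ∈ g i ∪ g i', (1 - κ p)) * (∏ p ∈ e, (-κ p)) *
          if g i ∪ g i' ∪ e ⊆ G.filter (fun p => p ∣ N) then kb b (fun i => y i N) i i' else 0 := by
    simp only [mul_sum]
    rw [sum_comm]
    refine sum_congr rfl fun i hi => ?_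
    rw [sum_comm]
    refine sum_congr rfl fun i' hi' => ?_
    rw [sum_comm]
    refine sum_congr rfl fun e he => ?_
    have h1 := hs i hi i' hi' e he
    have h2 := pv_pos fun p hp => hG p (h1 hp)
    simp only [subset_iff_dvd hG h1, kb]
    rw [div_mul_eq_mul_div, mul_div_assoc]
    split_ifs with hb <;>
    · rw [br_div μ (cop_pv h1 hc0) h2, mul_sum, mul_sum]
      exact sum_congr rfl fun N _ => by ring
  rw [e1]
  refine mul_le_mul_of_nonneg_left (sum_le_sum fun N _ =>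
    mul_le_mul_of_nonneg_left ?_ (μ.nn N)) (Nat.cast_nonneg _)
  have := maj (filter_subset (fun p => p ∣ N) G) hκ s g b c hc (fun i => y i N) J
  rwa [filter_congr fun i hi => subset_iff_dvd hG (hg i hi)] at this

/-- Cauchy-Schwarz with the weight 1 / (Z ∏ (1 - κ p)), the product over the p in G dividing N -/
theorem cs_br (μ : Wt ℕ) {c0 : ℕ} {G : Finset ℕ} (hG : ∀ p ∈ G, p.Prime)
    (hc0 : ∀ p ∈ G, c0.Coprime p) {κ : ℕ → ℝ} (hκ : ∀ p ∈ G, 0 ≤ κ p ∧ κ p < 1) (J : ℕ)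
    (s : Finset ι) (g : ι → Finset ℕ) (hg : ∀ i ∈ s, g i ⊆ G) (b : ι → β) (c : ι → ℝ)
    (hc : ∀ i ∈ s, 0 ≤ c i) (f : ℕ → ℂ) (y : ι → ℕ → ℂ) {t : ℝ} (ht : 0 < t) :
    2 * ∑ i ∈ s, c i / pv (g i) * br μ (c0 * pv (g i)) f (y i) ≤
      t * (c0 * ∑ N ∈ μ.s.filter (fun N => c0 ∣ N),
        μ.w N * (‖f N‖ ^ 2 / ∏ p ∈ G.filter (fun p => p ∣ N), (1 - κ p))) +
      qf μ c0 G κ J s g b c y / t := by
  have h := maj_br μ hG hc0 (fun p hp => ⟨(hκ p hp).1, (hκ p hp).2.le⟩) J s g hg b c hc y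
  refine le_trans ?_ (add_le_add le_rfl (div_le_div_of_nonneg_right h ht.le))
  have e1 : ∑ i ∈ s, c i / pv (g i) * br μ (c0 * pv (g i)) f (y i) =
      c0 * ∑ N ∈ μ.s.filter (fun N => c0 ∣ N), μ.w N *
        (f N * conj (∑ i ∈ s.filter (fun i => pv (g i) ∣ N), (c i : ℂ) * y i N)).re := by
    simp only [map_sum, mul_sum, Complex.re_sum, sum_filter (s := s)]
    rw [sum_comm]
    refine sum_congr rfl fun i hi => ?_
    rw [div_mul_eq_mul_div, mul_div_assoc, br_div μ (cop_pv (hg i hi) hc0)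
      (pv_pos fun p hp => hG p (hg i hi hp)), mul_sum, mul_sum]
    refine sum_congr rfl fun N _ => ?_
    split_ifs
    · rw [map_mul, Complex.conj_ofReal, mul_left_comm (f N), Complex.re_ofReal_mul]
      ring
    · simp
  rw [e1, mul_left_comm, mul_left_comm t, mul_div_assoc, ← mul_add]
  refine mul_le_mul_of_nonneg_left ?_ (Nat.cast_nonneg _)
  rw [mul_sum, mul_sum, sum_div, ← sum_add_distrib]
  refine sum_le_sum fun N _ => ?_
  rw [mul_left_comm, mul_left_comm t, mul_div_assoc, ← mul_add]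
  refine mul_le_mul_of_nonneg_left ?_ (μ.nn N)
  set S := ∑ i ∈ s.filter (fun i => pv (g i) ∣ N), (c i : ℂ) * y i N
  set P := ∏ p ∈ G.filter (fun p => p ∣ N), (1 - κ p)
  have hP : 0 < P := prod_pos fun p hp => by linarith [(hκ p (mem_filter.1 hp).1).2]
  have h1 : (f N * conj S).re ≤ ‖f N‖ * ‖S‖ :=
    (Complex.re_le_norm _).trans (by rw [norm_mul, RCLike.norm_conj])
  have h2 : t * (‖f N‖ ^ 2 / P) + ‖S‖ ^ 2 * P / t - 2 * (‖f N‖ * ‖S‖) =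
      (t * ‖f N‖ - ‖S‖ * P) ^ 2 / (t * P) := by
    field_simp
    ring
  have h3 : 0 ≤ (t * ‖f N‖ - ‖S‖ * P) ^ 2 / (t * P) := by positivity
  linarith

end Pool.Agent.P.MP_a14ce1_nt.Fu.Maj
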