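import Pool.Agent.P.MP_a14ce1_nt.Fu.Tile
import Pool.Agent.P.MP_a14ce1_nt.Fu.SB2
import Pool.Agent.P.MP_a14ce1_nt.Fu.Maj

/-!
The compensating factor of the local plain step: first moment from below, second moment with the
cut expansion, total variation.
-/

open Finset

namespace Pool.Agent.P.MP_a14ce1_nt.Fu.Tile

open Ch (pr rs pv mem_pr rs_nonneg)
open SB (Zb wh Pop)

/-- the constant weight three -/
def B3 : ℕ → ℝ := fun _ => 3

/-- unnormalised weight -/
noncomputable def wt (g : Finset ℕ) : ℝ := ∏ p ∈ g, (3 : ℝ) / p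

theorem wt_nonneg (g : Finset ℕ) : 0 ≤ wt g := prod_nonneg fun _ _ => by positivity

theorem Z_pos (G : Finset ℕ) : 0 < Zb B3 G := prod_pos fun p _ => by unfold B3; positivity

theorem one_le_Z (G : Finset ℕ) : 1 ≤ Zb B3 G :=
  one_le_prod fun p _ => by unfold B3; linarith [show (0 : ℝ) ≤ 3 / p by positivity]

theorem Z_le (G : Finset ℕ) : Zb B3 G ≤ Real.exp (3 * rs G) := by
  rw [rs, mul_sum, Real.exp_sum]
  refine prod_le_prod (fun p _ => by unfold B3; positivity) fun p _ => ?_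
  rw [mul_one_div, add_comm]
  exact Real.add_one_le_exp _

theorem wh_div (G g : Finset ℕ) : wh B3 G g / pv g = wt g / Zb B3 G := by
  rw [wh, wt, pv, prod_div_distrib, Nat.cast_prod, div_right_comm]
  rfl

theorem wh_nonneg (G g : Finset ℕ) : 0 ≤ wh B3 G g :=
  div_nonneg (prod_nonneg fun _ _ => by unfold B3; norm_num) (Z_pos G).le

theorem sum_wt (G : Finset ℕ) : ∑ g ∈ G.powerset, wt g = Zb B3 G := (prod_one_add G).symm

/-- the mean of an additive function -/
theorem sum_wt_add (G : Finset ℕ) (φ : ℕ → ℝ) (hφ : ∀ p, 0 ≤ φ p) :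
    ∑ g ∈ G.powerset, wt g * ∑ p ∈ g, φ p ≤ Zb B3 G * (3 * ∑ p ∈ G, φ p / p) := by
  induction G using Finset.induction_on with
  | empty => simp
  | insert a s ha ih =>
    have e : ∑ g ∈ s.powerset, wt (insert a g) * ∑ p ∈ insert a g, φ p =
        3 / a * (φ a * Zb B3 s + ∑ g ∈ s.powerset, wt g * ∑ p ∈ g, φ p) := by
      rw [← sum_wt, mul_sum, ← sum_add_distrib, mul_sum]
      refine sum_congr rfl fun g hg => ?_
      have h1 : a ∉ g := fun h => ha (mem_powerset.1 hg h)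
      rw [wt, prod_insert h1, sum_insert h1, wt]
      ring
    have eZ : Zb B3 (insert a s) = (1 + 3 / a) * Zb B3 s := prod_insert ha
    rw [sum_powerset_insert ha, e, eZ, sum_insert ha]
    have hZ := Z_pos s
    have h3 : (0 : ℝ) ≤ 3 / a := by positivity
    have h4 := mul_le_mul_of_nonneg_left ih h3
    have h5 : 0 ≤ 3 / a * (3 / a) * (φ a * Zb B3 s) := by have := hφ a; positivity
    have e2 : φ a / a = 3 / a * φ a / 3 := by ring
    rw [e2]
    nlinarith

theorem markov (G : Finset ℕ) (φ : ℕ → ℝ) (hφ : ∀ p, 0 ≤ φ p) {x : ℝ} (hx : 0 < x)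
    (h : 12 * ∑ p ∈ G, φ p / p ≤ x) :
    ∑ g ∈ G.powerset.filter (fun g => x ≤ ∑ p ∈ g, φ p), wt g ≤ Zb B3 G / 4 := by
  have k1 := sum_wt_add G φ hφ
  have k3 : x * ∑ g ∈ G.powerset.filter (fun g => x ≤ ∑ p ∈ g, φ p), wt g ≤
      ∑ g ∈ G.powerset, wt g * ∑ p ∈ g, φ p := by
    rw [mul_sum]
    refine le_trans (sum_le_sum fun g hg => ?_) (sum_le_sum_of_subset_of_nonneg
      (filter_subset _ _) fun g _ _ => mul_nonneg (wt_nonneg g) (sum_nonneg fun p _ => hφ p))
    rw [mul_comm]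
    exact mul_le_mul_of_nonneg_left (mem_filter.1 hg).2 (wt_nonneg g)
  have k5 : Zb B3 G * (3 * ∑ p ∈ G, φ p / p) ≤ Zb B3 G * (x / 4) :=
    mul_le_mul_of_nonneg_left (by linarith) (Z_pos G).le
  refine le_of_mul_le_mul_left ?_ hx
  linarith

/-- the admissible factors: logarithm in [u, u + w], at most J primes -/
noncomputable def Adm (G : Finset ℕ) (u w : ℝ) (J : ℕ) : Finset (Finset ℕ) :=
  G.powerset.filter fun g => (u ≤ Real.log (pv g) ∧ Real.log (pv g) ≤ u + w) ∧ g.card ≤ J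

theorem mem_Adm {G g : Finset ℕ} {u w : ℝ} {J : ℕ} : g ∈ Adm G u w J ↔
    g ⊆ G ∧ (u ≤ Real.log (pv g) ∧ Real.log (pv g) ≤ u + w) ∧ g.card ≤ J := by
  rw [Adm, mem_filter, mem_powerset]

/-- the first moment -/
theorem first : ∃ c C : ℝ, 0 < c ∧ 1 ≤ C ∧ ∀ (P τ l0 l u w : ℝ) (J : ℕ), C ≤ τ → 4 * τ ≤ w →
    w ≤ P / 2 → P ≤ l0 → 2 * l0 ≤ l → l ≤ u → u ≤ 2 * l → 12 * rs (GG P τ l0 (3 * l)) + 1 ≤ J →
    c * (w / l) ≤ ∑ g ∈ Adm (GG P τ l0 (3 * l)) u w J, wh B3 (GG P τ l0 (3 * l)) g / pv g := by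
  obtain ⟨C1, hC1, h1⟩ := Ch.m1
  obtain ⟨C2, hC2, h2⟩ := window
  obtain ⟨C3, hC3, h3⟩ := win_GG
  set D := Real.exp (3 * (Real.log 144 + C1)) with hD
  have hD0 : 0 < D := Real.exp_pos _
  refine ⟨1 / (12 * D), 48 * C2 + C3, by positivity, by linarith,
    fun P τ l0 l u w J k1 k2 k3 k4 k5 k6 k7 k8 => ?_⟩
  set G := GG P τ l0 (3 * l) with hG
  have hl : 48 * C2 ≤ l := by linarith
  have hl0 : 0 < l := by linarith
  have hw : 0 < w := by linarith
  have hp : ∀ q ∈ G, q.Prime := fun q hq => (mem_GG.1 hq).1.1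
  set G' := G.filter fun q : ℕ => Real.log q ≤ l / 48 with hG'
  have hp' : ∀ q ∈ G', q.Prime := fun q hq => hp q (mem_filter.1 hq).1
  have hZ := Z_pos G'
  have a1 : Zb B3 G ≤ D * Zb B3 G' := by
    rw [Zb, ← prod_filter_not_mul_prod_filter G fun q : ℕ => Real.log q ≤ l / 48]
    refine mul_le_mul_of_nonneg_right ((Z_le _).trans ?_) hZ.le
    rw [hD, Real.exp_le_exp]
    have k := (abs_le.1 (h1 (Real.exp (l / 48)) (Real.exp (3 * l))
      (by linarith [Real.add_one_le_exp (l / 48)]) (Real.exp_le_exp.2 (by linarith)))).2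
    rw [Real.log_exp, Real.log_exp, show 3 * l / (l / 48) = 144 by field_simp; norm_num] at k
    have : rs (G.filter fun q : ℕ => ¬ Real.log q ≤ l / 48) ≤
        rs (pr (Real.exp (l / 48)) (Real.exp (3 * l))) :=
      sum_le_sum_of_subset_of_nonneg (fun q hq => mem_ee.2 ⟨hp q (mem_filter.1 hq).1,
        not_le.1 (mem_filter.1 hq).2, (mem_GG.1 (mem_filter.1 hq).1).1.2.2⟩)
        fun q _ _ => by positivity
    linarith
  have m1 := markov G' (fun q => Real.log q) Real.log_natCast_nonneg (x := l / 2) (by positivity)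
    (by
      have k := (abs_le.1 (h2 0 (l / 48) le_rfl (by positivity))).2
      have : ∑ q ∈ G', Real.log q / q ≤
          ∑ q ∈ pr (Real.exp 0) (Real.exp (l / 48)), Real.log q / q :=
        sum_le_sum_of_subset_of_nonneg (fun q hq => mem_ee.2 ⟨hp' q hq,
          Real.log_pos (by exact_mod_cast (hp' q hq).one_lt), (mem_filter.1 hq).2⟩)
          fun q _ _ => lg_nonneg q
      linarith)
  have m2 := markov G' (fun _ => 1) (fun _ => zero_le_one) (x := J)
    (by linarith [rs_nonneg G]) (by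
      have : rs G' ≤ rs G :=
        sum_le_sum_of_subset_of_nonneg (filter_subset _ _) fun q _ _ => by positivity
      unfold rs at this k8
      linarith)
  set Gd := G'.powerset.filter fun g => Real.log (pv g) ≤ l / 2 ∧ g.card < J with hGd
  have a2 : Zb B3 G' / 2 ≤ ∑ g ∈ Gd, wt g := by
    have k : ∑ g ∈ G'.powerset, wt g ≤ ∑ g ∈ Gd, wt g +
        ∑ g ∈ G'.powerset.filter (fun g : Finset ℕ => l / 2 ≤ ∑ p ∈ g, Real.log p), wt g +
        ∑ g ∈ G'.powerset.filter (fun g => (J : ℝ) ≤ ∑ p ∈ g, (1 : ℝ)), wt g := by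
      simp only [hGd, sum_filter, ← sum_add_distrib]
      refine sum_le_sum fun g hg => ?_
      have := wt_nonneg g
      rw [← SB.log_pv fun p h => hp' p (mem_powerset.1 hg h), sum_const, nsmul_eq_mul, mul_one]
      by_cases c1 : l / 2 ≤ Real.log (pv g)
      · rw [if_pos c1]
        split_ifs <;> linarith
      · by_cases c2 : (J : ℝ) ≤ g.card
        · rw [if_pos c2]
          split_ifs <;> linarith
        · rw [if_pos ⟨(not_le.1 c1).le, by exact_mod_cast not_le.1 c2⟩, if_neg c1, if_neg c2]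
          linarith
    rw [sum_wt] at k
    linarith
  set W : Finset ℕ → Finset ℕ := fun g => G.filter fun q : ℕ =>
    u - Real.log (pv g) < Real.log q ∧ Real.log q ≤ u - Real.log (pv g) + w with hW
  have b2 : ∀ g ∈ Gd, g ⊆ G' := fun g hg => mem_powerset.1 (mem_filter.1 hg).1
  have b1 : ∀ g ∈ Gd, ∀ q ∈ W g, q ∉ G' := fun g hg q hq h => by
    linarith [(mem_filter.1 h).2, (mem_filter.1 hq).2.1, (mem_filter.1 hg).2.1]
  have a3 : ∀ g ∈ Gd, wt g * (w / (6 * l)) ≤ ∑ q ∈ W g, wt (insert q g) := by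
    intro g hg
    have n1 := Real.log_natCast_nonneg (pv g)
    have n2 := (mem_filter.1 hg).2.1
    have k := h3 P τ l0 (3 * l) (u - Real.log (pv g)) w (by linarith) k2 k3 (by linarith)
      (by linarith) (by linarith)
    have k' : w / (6 * l) ≤ rs (W g) :=
      le_trans (div_le_div_of_nonneg_left hw.le (by linarith) (by linarith)) k
    refine (mul_le_mul_of_nonneg_left k' (wt_nonneg g)).trans ?_
    rw [rs, mul_sum]
    refine sum_le_sum fun q hq => ?_
    rw [wt, wt, prod_insert fun h => b1 g hg q hq (b2 g hg h), mul_comm]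
    exact mul_le_mul_of_nonneg_right (by gcongr; norm_num) (wt_nonneg g)
  simp only [wh_div]
  rw [← sum_div, le_div_iff₀ (Z_pos G)]
  calc 1 / (12 * D) * (w / l) * Zb B3 G ≤ 1 / (12 * D) * (w / l) * (D * Zb B3 G') := by gcongr
    _ = Zb B3 G' / 2 * (w / (6 * l)) := by field_simp; norm_num
    _ ≤ (∑ g ∈ Gd, wt g) * (w / (6 * l)) := by gcongr
    _ ≤ ∑ g ∈ Gd, ∑ q ∈ W g, wt (insert q g) := by
        rw [sum_mul]
        exact sum_le_sum a3
    _ = ∑ e ∈ Gd.sigma W, wt (insert e.2 e.1) := sum_sigma' _ _ _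
    _ = ∑ g ∈ (Gd.sigma W).image (fun e => insert e.2 e.1), wt g := by
        rw [sum_image]
        rintro ⟨g, q⟩ he ⟨g', q'⟩ he' h
        rw [mem_coe, mem_sigma] at he he'
        have p := b1 g he.1 q he.2
        have p' := b1 g' he'.1 q' he'.2
        dsimp only at h p p'
        have hq : q = q' := by
          have : q ∈ insert q' g' := h ▸ mem_insert_self q g
          exact (mem_insert.1 this).resolve_right fun k => p (b2 g' he'.1 k)
        subst hq
        have hg : g = g' := by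
          rw [← erase_insert fun k => p (b2 g he.1 k), h, erase_insert fun k => p (b2 g' he'.1 k)]
        rw [hg]
    _ ≤ _ := by
        refine sum_le_sum_of_subset_of_nonneg (fun g hg => ?_) fun g _ _ => wt_nonneg g
        obtain ⟨⟨g, q⟩, he, rfl⟩ := mem_image.1 hg
        rw [mem_sigma] at he
        have n := fun k => b1 g he.1 q he.2 (b2 g he.1 k)
        have s1 : insert q g ⊆ G :=
          insert_subset (mem_filter.1 he.2).1 ((b2 g he.1).trans (filter_subset _ _))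
        have s2 := (mem_filter.1 he.2).2
        rw [mem_Adm, SB.log_pv fun p h => hp p (s1 h), sum_insert n,
          ← SB.log_pv fun p h => hp' p (b2 g he.1 h), card_insert_of_notMem n]
        exact ⟨s1, ⟨by linarith [s2.1], by linarith [s2.2]⟩, (mem_filter.1 he.1).2.2⟩

/-- the population of compensating primes -/
theorem pop : ∃ C : ℝ, 1 ≤ C ∧ ∀ P τ l0 l1 l : ℝ, C ≤ τ → 16 * τ ≤ P → P ≤ l0 → l0 ≤ l → l ≤ l1 →
    Pop 3 C l0 l (GG P τ l0 l1) B3 := by
  obtain ⟨C, hC, h⟩ := density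
  refine ⟨C, hC, fun P τ l0 l1 l k1 k2 k3 k4 k5 => Pop.of_rs (by norm_num) (by linarith)
    (by linarith) k4 (fun p hp => (mem_GG.1 hp).1.1) (fun _ _ => le_rfl) (fun p hp => ?_)
    (fun _ _ => Or.inl le_rfl) fun t h1 h2 => le_trans ?_ (h P τ l0 l1 l t k1 k2 k3 h1 h2 k5)⟩
  · obtain ⟨⟨a, b, -⟩, -⟩ := mem_GG.1 hp
    have h0 : (0 : ℝ) < p := by exact_mod_cast a.pos
    have := Real.log_le_sub_one_of_pos h0
    unfold B3
    linarith
  · have : 0 ≤ Real.log (l / t) := Real.log_nonneg ((one_le_div (by linarith)).2 h2)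
    linarith

/-- the cut expansion is at most twice the product -/
theorem bf_le_two {T : Finset ℕ} {x : ℕ → ℝ} (hx : ∀ p ∈ T, 0 ≤ x p ∧ x p ≤ 1 / 2) {J : ℕ}
    (hJ : 5 * ∑ p ∈ T, x p ≤ 2 * J + 1) : Maj.bf (2 * J) x T ≤ 2 * ∏ p ∈ T, (1 - x p) := by
  have a := Maj.bf_le (x := x) (T := T) (fun p hp => ⟨(hx p hp).1, by linarith [(hx p hp).2]⟩) J
  set S := ∑ p ∈ T, x p with hS
  have S0 : 0 ≤ S := sum_nonneg fun p hp => (hx p hp).1
  have b : Real.exp (-(2 * S)) ≤ ∏ p ∈ T, (1 - x p) := by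
    rw [hS, mul_sum, ← sum_neg_distrib, Real.exp_sum]
    refine prod_le_prod (fun _ _ => (Real.exp_pos _).le) fun p hp => ?_
    obtain ⟨h0, h1⟩ := hx p hp
    rw [Real.exp_neg, inv_le_comm₀ (Real.exp_pos _) (by linarith)]
    refine le_trans ?_ (Real.add_one_le_exp _)
    rw [inv_le_iff_one_le_mul₀ (by linarith)]
    nlinarith
  have c := Real.pow_div_factorial_le_exp (3 * S) (by positivity) (2 * J + 1)
  have d : Real.exp (5 * S) ≤ 3 ^ (2 * J + 1) := by
    refine (Real.exp_le_exp.2 hJ).trans ?_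
    rw [show (2 * J + 1 : ℝ) = ((2 * J + 1 : ℕ) : ℝ) * 1 by push_cast; ring, Real.exp_nat_mul]
    exact pow_le_pow_left₀ (Real.exp_pos _).le (by linarith [Real.exp_one_lt_d9]) _
  have e : S ^ (2 * J + 1) / (2 * J + 1).factorial ≤ Real.exp (-(2 * S)) := by
    rw [mul_pow, mul_div_assoc] at c
    have f : Real.exp (3 * S) = Real.exp (5 * S) * Real.exp (-(2 * S)) := by
      rw [← Real.exp_add]; congr 1; ring
    refine le_of_mul_le_mul_left (c.trans ?_) (by positivity : (0 : ℝ) < 3 ^ (2 * J + 1))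
    rw [f]
    exact mul_le_mul_of_nonneg_right d (Real.exp_pos _).le
  linarith

/-- the second moment, with the cut expansion -/
theorem second {K c0 l0 l : ℝ} {G : Finset ℕ} (h : Pop K c0 l0 l G B3) (u : ℝ)
    (A : Finset (Finset ℕ))
    (hA : ∀ g ∈ A, g ⊆ G ∧ u ≤ Real.log (pv g) ∧ Real.log (pv g) ≤ u + l0) {J : ℕ}
    (hJ : 2 * rs G ≤ J) :
    Zb B3 G * ∑ g ∈ A, ∑ g' ∈ A, wh B3 G g * wh B3 G g' * (1 / 4) ^ (g ∪ g').card / pv (g ∪ g') *
      Maj.bf (2 * J) (fun p : ℕ => 3 / 4 / (p : ℝ)) (G \ (g ∪ g')) ≤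
        2 * SB.Csb2 K c0 * (l0 / l) ^ 2 := by
  have hW : A ×ˢ A ⊆ G.powerset ×ˢ G.powerset := product_subset_product
    (fun g hg => mem_powerset.2 (hA g hg).1) fun g hg => mem_powerset.2 (hA g hg).1
  have a := SB.sb2_pairs h u u (A ×ˢ A) hW fun z hz =>
    ⟨(hA _ (mem_product.1 hz).1).2, (hA _ (mem_product.1 hz).2).2⟩
  rw [SB.pair_eq h _ hW] at a
  have hZ := Z_pos G
  have h9 : ∀ p ∈ G, (9 : ℝ) ≤ p := fun p hp => (h.facts hp).2.2.2
  rw [mul_assoc 2]
  refine le_trans ?_ (mul_le_mul_of_nonneg_left a zero_le_two)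
  rw [← sum_product', mul_sum, mul_sum, mul_sum]
  refine sum_le_sum fun z hz => ?_
  have s : z.1 ∪ z.2 ⊆ G :=
    union_subset (hA _ (mem_product.1 hz).1).1 (hA _ (mem_product.1 hz).2).1
  have b := bf_le_two (T := G \ (z.1 ∪ z.2)) (x := fun p : ℕ => 3 / 4 / (p : ℝ)) (J := J)
    (fun p hp => ⟨by positivity, by
      have := h9 p (mem_sdiff.1 hp).1
      rw [div_le_iff₀ (by linarith)]
      linarith⟩) (by
      have : ∑ p ∈ G \ (z.1 ∪ z.2), 3 / 4 / (p : ℝ) ≤ 3 / 4 * rs G := by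
        rw [rs, mul_sum]
        refine le_trans (le_of_eq (sum_congr rfl fun p _ => by rw [mul_one_div]))
          (sum_le_sum_of_subset_of_nonneg sdiff_subset fun _ _ _ => by positivity)
      linarith [rs_nonneg G])
  have w1 := wh_nonneg G z.1
  have w2 := wh_nonneg G z.2
  refine (mul_le_mul_of_nonneg_left (mul_le_mul_of_nonneg_left b (by positivity)) hZ.le).trans
    (le_of_eq ?_)
  rw [← SB.pair_wt, ← prod_sdiff s]
  have e1 : (∏ p ∈ z.1 ∪ z.2, (1 - B3 p / ((B3 p + 1) * p))) *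
      ∏ p ∈ z.1 ∪ z.2, 1 / ((B3 p + 1) * p - B3 p) = (1 / 4) ^ (z.1 ∪ z.2).card / pv (z.1 ∪ z.2) := by
    rw [← prod_mul_distrib, pv, Nat.cast_prod, ← prod_const, ← prod_div_distrib]
    refine prod_congr rfl fun p hp => ?_
    have := h9 p (s hp)
    have n : (3 + 1) * (p : ℝ) - 3 ≠ 0 := by linarith
    unfold B3
    field_simp
    ring
  have e2 : ∏ p ∈ G \ (z.1 ∪ z.2), (1 - B3 p / ((B3 p + 1) * p)) =
      ∏ p ∈ G \ (z.1 ∪ z.2), (1 - 3 / 4 / (p : ℝ)) := prod_congr rfl fun p _ => by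
    unfold B3
    rw [div_div]
    norm_num
  rw [e2, mul_div_assoc _ ((1 / 4 : ℝ) ^ _), ← e1, wh, wh]
  field_simp

end Pool.Agent.P.MP_a14ce1_nt.Fu.Tile
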