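import Pool.Agent.P.MP_a14ce1_nt.Fu.LocW
import Pool.Agent.P.MP_a14ce1_nt.Fu.ExtX
import Pool.Agent.P.MP_a14ce1_nt.Fu.MajBr
import Pool.Agent.P.MP_a14ce1_nt.Fu.LocP
import Pool.Agent.P.MP_a14ce1_nt.Fu.Pi
import Pool.Agent.P.MP_a14ce1_nt.Fu.Pot

/-!
The local plain step: definitions and the statements of the pieces.
Every piece is a theorem of the shape  S_a → S_b → S_c.
-/

open Finset Function

namespace Pool.Agent.P.MP_a14ce1_nt.Fu.L8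

open Ch (rs pv)
open Nil.ES
open Pl (GX prOf)
open Pl.Conc (Sa)
open IV (Hull Gr Up Ep)
open Ax (hull)
open Loc (dsI gnI LL Eqv)
open SB (Zb wh)
open Tile (B3)
open Pool.Agent.P.MP_e30989_nt.W (UCM)

/-! ### The abstract core -/

/-- the coefficients co, sitting at the places val, are dominated by W times γ -/
def Dom {Θ : Type} (γ : Pr) (W : ℝ) (T : Finset Θ) (val : Θ → ℕ) (co : Θ → ℝ) : Prop :=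
  (∀ θ ∈ T, val θ ∈ γ.s) ∧ ∀ v ∈ γ.s, ∑ θ ∈ T.filter (fun θ => val θ = v), |co θ| ≤ W * γ.w v

/-- fair sampling with absolute values -/
def FsA (μ : Wt ℕ) (X : Set (ℕ → ℂ)) (c : ℕ) (γ : Pr) (ε : ℝ) : Prop := ∀ φ ∈ X, ∀ ψ ∈ X,
  γ.E (fun v => |br μ (c * v) φ ψ - br μ c φ ψ|) ≤ ε

/-- the hypotheses on a low level c: large primes B, partners γ, remaining coordinates D -/
structure LowB {ι : Type} [Fintype ι] [DecidableEq ι] (μ : Wt ℕ) (X : Set (ℕ → ℂ)) (c : ℕ)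
    (B γ : Pr) (g : ι → Pr) (D : Finset ι) (ε : ℝ) : Prop where
  mass : ∀ v ∈ γ.s, mass μ (c * v) ≤ 2
  fa0 : FsA μ X c γ ε
  fa1 : ∀ q ∈ B.s, FsA μ X (c * q) γ ε
  fa2 : ∀ q ∈ B.s, ∀ q' ∈ B.s, FsA μ X (c * q * q') γ ε
  fq : ∀ q ∈ B.s, FsN μ X (c * q) B ε
  fc0 : ∀ v ∈ γ.s, FsC μ X (c * v) g D ε
  fc1 : ∀ q ∈ B.s, ∀ v ∈ γ.s, FsC μ X (c * q * v) g D ε
  fc2 : ∀ q ∈ B.s, ∀ q' ∈ B.s, ∀ v ∈ γ.s, FsC μ X (c * q * q' * v) g D ε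
  ext : ExtN μ X c B γ ε

/-- The majorant. The members κ have weights π, base levels b and blocks blk; the terms θ in T κ
have a partner pt θ, an extra factor val κ θ of the level and a coefficient co κ θ. -/
structure Rep {K J Θ : Type} [Fintype K] [DecidableEq J] (μ : Wt ℕ) (f : ℕ → ℂ) (Cs : Set ℕ)
    (B γ : J → Pr) (blk : K → J) (π : K → ℝ) (b : K → ℕ) (T : K → Finset Θ) (pt : Θ → K)
    (val : K → Θ → ℕ) (co : K → Θ → ℝ) (W Vm : ℝ) : Prop where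
  pos : ∀ (κ : K) (N : ℕ), 0 ≤ ∑ θ ∈ (T κ).filter (fun θ => blk (pt θ) = blk κ),
    co κ θ * if b κ * val κ θ ∣ N then (val κ θ : ℝ) else 0
  dvd : ∀ κ, ∀ θ ∈ T κ, b (pt θ) ∣ b κ * val κ θ
  cop : ∀ κ, ∀ θ ∈ T κ, (∀ c ∈ Cs, c.Coprime (val κ θ)) ∧
    ∀ j, ∀ q ∈ (B j).s, q.Coprime (b κ * val κ θ)
  dom0 : ∀ κ, Dom (γ (blk κ)) W (T κ) (val κ) (co κ)
  dom1 : ∀ κ, Dom (γ (blk κ)) W
    (((T κ).filter fun θ => blk (pt θ) ≠ blk κ).sigma fun θ => (B (blk (pt θ))).s)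
    (fun z : Σ _ : Θ, ℕ => val κ z.1 * z.2) fun z => co κ z.1 * (B (blk (pt z.1))).w z.2
  maj : ∀ c ∈ Cs, ∀ (y : K → ℕ → ℂ) (t : ℝ), 0 < t →
    2 * ∑ κ, π κ * br μ (b κ * c) f (y κ) ≤ t * Vm + (∑ κ, π κ * ∑ θ ∈ T κ, co κ θ *
      br μ (b κ * val κ θ * c) (y κ) (if blk (pt θ) = blk κ then y κ else y (pt θ))) / t

/-- The compensated plain step. The coordinate o carries the large prime, o' is spare. -/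
def S_Core8 : Prop := ∀ (ι K J Θ : Type) [Fintype ι] [DecidableEq ι] [Fintype K] [DecidableEq J]
  (o o' : ι) (S1 : Finset ι) (μ : Wt ℕ) (X : Set (ℕ → ℂ)) (g : ι → Pr) (f : ℕ → ℂ) (Cs : Set ℕ)
  (B γ : J → Pr) (om : J → ℝ) (blk : K → J) (π : K → ℝ) (b : K → ℕ) (T : K → Finset Θ)
  (pt : Θ → K) (val : K → Θ → ℕ) (co : K → Θ → ℝ) (l0 : ℕ) (τ W Vm t : ℝ),
  o ≠ o' → o ∉ S1 → o' ∉ S1 → Cl X → 0 < τ → τ ≤ 1 → 0 < t → 1 ≤ W → (∀ n, ‖f n‖ ≤ 1) →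
  (∀ κ, 0 ≤ π κ) → ∑ κ, π κ = 1 → (∀ j, ∀ q ∈ (B j).s, q.Prime ∧ (B j).w q * q ≤ om j) →
  (∀ j, 0 ≤ om j ∧ om j ≤ W) → (∀ j j', j ≠ j' → Disjoint (B j).s (B j').s) →
  (∀ a ∈ supp g, lv S1 a ∈ Cs) → Rep μ f Cs B γ blk π b T pt val co W Vm →
  (∀ κ, ∀ a ∈ supp g, mass μ (b κ * lv S1 a) ≤ 2) →
  (∀ κ, TopB μ X (b κ) (update g o (B (blk κ))) {o} (insert o S1) (τ ^ 4)) →
  (∀ κ, ∀ a : ι → ℕ, (∀ k ∈ S1, a k ∈ (g k).s) → ∀ S ⊆ S1, S.card ≤ 2 * l0 →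
    LowB μ X (b κ * lv S a) (B (blk κ)) (γ (blk κ)) g (S1 \ S) (τ ^ 4)) →
  ∀ (F : K → (ι → ℕ) → ℕ → ℂ) (G : K → ι → (ι → ℕ) → ℕ → ℂ),
    (∀ κ, Fm X (update g o (B (blk κ))) (insert o S1) (F κ)) →
    (∀ κ, ∀ k ∈ S1, Fm X (update g o (B (blk κ))) ((insert o S1).erase k) (G κ k)) →
    ∃ u : K → (ι → ℕ) → ℕ → ℂ, (∀ κ a, u κ a ∈ X) ∧
      ∑ κ, π κ * Ew (update g o (B (blk κ))) (fun a => pot μ (b κ * lv (insert o S1) a) f (F κ a)) -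
        (4 + Vm) * t - (2 * (∑ κ, π κ * ∑ k ∈ S1, Ew (update g o (B (blk κ))) fun a =>
            br μ (b κ * lv (insert o S1) a) (F κ a - G κ k a) (F κ a - G κ k a)) / (l0 + 1) +
          8 * ∑ κ, π κ * (|∑ θ ∈ (T κ).filter (fun θ => blk (pt θ) = blk κ), co κ θ| *
            (1 + om (blk κ))) + 10000 ^ (Fintype.card ι + 1) * W ^ 2 * τ) / t -
        10000 ^ (Fintype.card ι + 1) * τ ≤
      ∑ κ, π κ * Ew g fun a => pot μ (b κ * lv S1 a) f (u κ a)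

/-! ### The concrete majorant -/

/-- pairs of a block and an admissible compensating set -/
abbrev KK {J : Type} (A : J → Finset (Finset ℕ)) : Type := Σ j : J, {g : Finset ℕ // g ∈ A j}

/-- the mass of a family of compensating sets -/
noncomputable def P1 (G : Finset ℕ) (A : Finset (Finset ℕ)) : ℝ := ∑ g ∈ A, wh B3 G g / pv g

/-- the second moment of a family of compensating sets -/
noncomputable def Q2 (G : Finset ℕ) (A : Finset (Finset ℕ)) (n : ℕ) : ℝ :=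
  Zb B3 G * ∑ g ∈ A, ∑ g' ∈ A, wh B3 G g * wh B3 G g' * (1 / 4) ^ (g ∪ g').card / pv (g ∪ g') *
    Maj.bf (2 * n) (fun p : ℕ => 3 / 4 / (p : ℝ)) (G \ (g ∪ g'))

section

variable {J : Type} [Fintype J] (G : Finset ℕ) (A : J → Finset (Finset ℕ))

/-- the weight of a pair -/
noncomputable def rP (lam : J → ℝ) (κ : KK A) : ℝ :=
  lam κ.1 * (wh B3 G κ.2.1 / pv κ.2.1) / P1 G (A κ.1)

/-- the terms of the majorant -/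
def rT (n : ℕ) (κ : KK A) : Finset (KK A × Finset ℕ) :=
  (univ ×ˢ G.powerset).filter fun θ => θ.2 ∈ Maj.pw (2 * n) (G \ (κ.2.1 ∪ θ.1.2.1))

/-- the extra factor of the level -/
def rV (κ : KK A) (θ : KK A × Finset ℕ) : ℕ := pv ((θ.1.2.1 ∪ θ.2) \ κ.2.1)

/-- the coefficient -/
noncomputable def rC (lam : J → ℝ) (κ : KK A) (θ : KK A × Finset ℕ) : ℝ :=
  Zb B3 G * (rP G A lam θ.1 * pv θ.1.2.1) * (1 / 4) ^ (κ.2.1 ∪ θ.1.2.1).card *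
    (-(3 / 4)) ^ θ.2.card / rV A κ θ

end

theorem rs_prods_pos (V : Finset ℕ) (n : ℕ) : 0 < rs (prods V n) :=
  lt_of_lt_of_le (by simp) (single_le_sum (f := fun p : ℕ => (1 : ℝ) / p)
    (fun _ _ => by positivity) (one_mem_prods V n))

/-- the law of the partners -/
noncomputable def gam (V : Finset ℕ) (n : ℕ) : Pr := rec1 (prods V (3 * n + 1)) (rs_prods_pos V _)

/-- the majorant has the shape used by the core -/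
def S_RepA : Prop := ∀ (J : Type) [Fintype J] [DecidableEq J] (μ : Wt ℕ) (f : ℕ → ℂ) (G : Finset ℕ)
  (Cs : Set ℕ) (B : J → Pr) (V : J → Finset ℕ) (A : J → Finset (Finset ℕ)) (lam : J → ℝ)
  (H Vm : ℝ) (n : ℕ), (∀ p ∈ G, p.Prime) → (∀ j, ∀ g ∈ A j, g ⊆ G ∧ g.card ≤ n) →
  (∀ j, 0 ≤ lam j) → ∑ j, lam j = 1 → 1 ≤ H → (∀ j, 1 ≤ H * P1 G (A j)) →
  (∀ j, ∀ q ∈ (B j).s, q.Prime ∧ q ∉ G ∧ (B j).w q * q ≤ H) → (∀ j, G ⊆ V j) →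
  (∀ j j', j' ≠ j → (B j').s ⊆ V j) → (∀ j, rs (V j) ≤ H) → (∀ c ∈ Cs, ∀ p ∈ G, c.Coprime p) →
  (∀ c ∈ Cs, c * ∑ N ∈ μ.s.filter (fun N => c ∣ N),
    μ.w N * (‖f N‖ ^ 2 * 4 ^ (G.filter fun p => p ∣ N).card) ≤ Vm * Zb B3 G) →
  Rep μ f Cs B (fun j => gam (V j) n) Sigma.fst (rP G A lam) (fun κ : KK A => pv κ.2.1)
    (rT G A n) Prod.fst (rV A) (rC G A lam) ((8 * H) ^ (10 * (n + 1))) Vm

/-- the weights of the pairs and the diagonal terms -/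
def S_RepB : Prop := ∀ (J : Type) [Fintype J] [DecidableEq J] (G : Finset ℕ)
  (A : J → Finset (Finset ℕ)) (lam : J → ℝ) (n : ℕ), (∀ p ∈ G, p.Prime) →
  (∀ j, ∀ g ∈ A j, g ⊆ G) → (∀ j, 0 ≤ lam j) → (∀ j, 0 < P1 G (A j)) →
  (∀ κ, 0 ≤ rP G A lam κ) ∧
  (∀ x : J → ℝ, ∑ κ, rP G A lam κ * x κ.1 = ∑ j, lam j * x j) ∧
  (∀ x : J → Finset ℕ → ℝ, ∃ g : J → Finset ℕ, (∀ j, g j ∈ A j) ∧
    ∑ κ, rP G A lam κ * x κ.1 κ.2.1 ≤ ∑ j, lam j * x j (g j)) ∧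
  ∀ om : J → ℝ, ∑ κ, rP G A lam κ *
      (|∑ θ ∈ (rT G A n κ).filter (fun θ => θ.1.1 = κ.1), rC G A lam κ θ| * (1 + om κ.1)) =
    ∑ j, lam j * (lam j * (1 + om j) * Q2 G (A j) n / P1 G (A j) ^ 2)

/-- f on the integers with at most n prime factors in G -/
noncomputable def cut (G : Finset ℕ) (n : ℕ) (f : ℕ → ℂ) : ℕ → ℂ :=
  fun N => if (G.filter fun p => p ∣ N).card ≤ n then f N else 0

/-- the mean of the divisor weight, and the cost of the cut -/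
def S_Cut : Prop := ∀ (μ : Wt ℕ) (f : ℕ → ℂ) (G : Finset ℕ) (c n : ℕ), (∀ N, ‖f N‖ ≤ 1) →
  (∀ p ∈ G, p.Prime ∧ c.Coprime p) →
  ((∀ e ⊆ G, e.card ≤ n → mass μ (c * pv e) ≤ 2) → c * ∑ N ∈ μ.s.filter (fun N => c ∣ N),
    μ.w N * (‖cut G n f N‖ ^ 2 * 4 ^ (G.filter fun p => p ∣ N).card) ≤ 2 * Zb B3 G) ∧
  ∀ (g : Finset ℕ) (u : ℕ → ℂ), g ⊆ G → g.card ≤ n → 1 ≤ n → (∀ N, ‖u N‖ ≤ 1) →
    (∀ p ∈ G, mass μ (pv g * c * p) ≤ 2) →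
    |pot μ (pv g * c) f u - pot μ (pv g * c) (cut G (2 * n) f) u| ≤ 4 * rs G / n

/-- masses of levels that are longer than the cells -/
def S_Mass : Prop := ∀ (μ : Wt ℕ) (R j0 j1 c : ℕ), CW μ R j0 j1 → 0 < c →
  mass μ c ≤ 3 / 2 + c * μ.w (j0 * R)

/-! ### The core on the concrete weight and class -/

/-- the cube of the small groups, with two spare coordinates -/
noncomputable def cb {l : ℕ} (Gs : Fin l → Finset ℕ) (h : ∀ k, 0 < rs (Gs k)) :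
    Fin l ⊕ Bool → Pr := Sum.elim (fun k => prOf (Gs k) (h k)) fun _ => Pr.unit

/-- the small groups -/
structure Grp (C Q y l β : ℕ) (Gs : Fin l → Finset ℕ) (G0 : Finset ℕ) : Prop where
  l1 : 1 ≤ l
  b1 : 1 ≤ β
  hQ : (C * β) ^ l ≤ Q
  hy : Q ^ C ≤ y
  pr : ∀ k, ∀ p ∈ Gs k, p.Prime ∧ y < p ∧ p ≤ y ^ 2
  pr0 : ∀ p ∈ G0, p.Prime ∧ y < p ∧ p ≤ y ^ 2
  dj : ∀ k k', k ≠ k' → Disjoint (Gs k) (Gs k')
  dj0 : ∀ k, Disjoint (Gs k) G0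
  ms : ∀ k, 1 ≤ β * rs (Gs k)
  ms0 : 1 ≤ β * rs G0

/-- the hypotheses of the core over one base level b, from size conditions -/
def S_Lev : Prop := ∀ A : Set (ℕ → ℂ), Ax.Sys A → ∃ C : ℕ, 0 < C ∧
  ∀ (Q y l β R j0 j1 Z n b : ℕ) (μ : Wt ℕ) (Gs : Fin l → Finset ℕ) (G0 P V : Finset ℕ) (H : ℝ)
    (hG : ∀ k, 0 < rs (Gs k)) (hP : 0 < rs P), CW μ R j0 j1 → Grp C Q y l β Gs G0 →
    (∀ q ∈ P, q.Prime ∧ y ^ 2 < q ∧ q ≤ Z) → (∀ p ∈ V, p.Prime ∧ y ^ 2 < p ∧ p ≤ Z) →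
    Disjoint P V → 1 ≤ H → 1 ≤ H * rs P → 1 ≤ H * rs V → rs V ≤ H →
    (8 * H) ^ (10 * (n + 1)) ≤ Q → Real.log Z ≤ Q → 0 < b →
    (∀ q ∈ P, ∀ a ∈ Fintype.piFinset Gs, b * q * (∏ k, a k) * y ^ C ≤ R) →
    (∀ q ∈ P, b * q * y ^ (l / 2) * Z ^ (C * (n + 1)) * y ^ C ≤ R) →
    R * μ.w (j0 * R) * ((y : ℝ) ^ l) ^ C ≤ 1 →
    (∀ a ∈ supp (cb Gs hG), mass μ (b * lv (Sa l) a) ≤ 2) ∧
    TopB μ (GX (hull A) R) b (update (cb Gs hG) (Sum.inr true) (prOf P hP)) {Sum.inr true}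
      (insert (Sum.inr true) (Sa l)) ((1 / (Q : ℝ) ^ 4) ^ 4) ∧
    ∀ a : Fin l ⊕ Bool → ℕ, (∀ k ∈ Sa l, a k ∈ (cb Gs hG k).s) → ∀ S ⊆ Sa l,
      S.card ≤ 2 * (l / 8) → LowB μ (GX (hull A) R) (b * lv S a) (prOf P hP) (gam V n) (cb Gs hG)
        (Sa l \ S) ((1 / (Q : ℝ) ^ 4) ^ 4)

/-- the output of the core, with all hypotheses replaced by size conditions -/
def S_Conc8 : Prop := ∀ A : Set (ℕ → ℂ), Ax.Sys A → ∃ C : ℕ, 0 < C ∧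
  ∀ (J : Type) [Fintype J] [DecidableEq J] (Q y l β R j0 j1 Z n : ℕ) (μ : Wt ℕ)
    (Gs : Fin l → Finset ℕ) (G0 G : Finset ℕ) (P : J → Finset ℕ) (Ad : J → Finset (Finset ℕ))
    (lam : J → ℝ) (H d s : ℝ), CW μ R j0 j1 → Grp C Q y l β Gs G0 →
    (∀ j, ∀ q ∈ P j, q.Prime ∧ y ^ 2 < q ∧ q ≤ Z) → (∀ p ∈ G, p.Prime ∧ y ^ 2 < p ∧ p ≤ Z) →
    (∀ j j', j ≠ j' → Disjoint (P j) (P j')) → (∀ j, Disjoint G (P j)) →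
    (∀ j, ∀ g ∈ Ad j, g ⊆ G ∧ g.card ≤ n) → (∀ j, 0 ≤ lam j) → ∑ j, lam j = 1 → 1 ≤ n → 1 ≤ H →
    (∀ j, 1 ≤ H * rs (P j)) → (∀ j, 1 ≤ H * P1 G (Ad j)) → 1 ≤ H * rs G →
    rs G + ∑ j, rs (P j) ≤ H → (8 * H) ^ (10 * (n + 1)) ≤ Q → Real.log Z ≤ Q →
    (∀ j, ∀ g ∈ Ad j, ∀ q ∈ P j, ∀ a ∈ Fintype.piFinset Gs, pv g * q * (∏ k, a k) * y ^ C ≤ R) →
    (∀ j, ∀ g ∈ Ad j, ∀ q ∈ P j, pv g * q * y ^ (l / 2) * Z ^ (C * (n + 1)) * y ^ C ≤ R) →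
    R * μ.w (j0 * R) * ((y : ℝ) ^ l * (Z : ℝ) ^ (n + 1)) ^ C ≤ 1 →
    (∀ j, lam j * (1 + 1 / rs (P j)) * Q2 G (Ad j) n / P1 G (Ad j) ^ 2 ≤ d) → 0 < s →
    ∀ (f : ℕ → ℂ) (F F' : ℕ → ℕ → ℂ) (v e : ℝ) (δ : ℕ → ℝ), (∀ N, ‖f N‖ ≤ 1) →
      (∀ c, F c ∈ GX (hull A) R ∧ F' c ∈ GX (hull A) R) → 0 ≤ e → (∀ k, Ep (Gs k) δ ≤ e) →
      (∀ j, ∀ g ∈ Ad j, ∀ q ∈ P j, ∀ a ∈ Fintype.piFinset Gs, ∀ c, c = pv g * q * ∏ k, a k →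
        v ≤ pot μ c f (F c) ∧
        ∀ k c0, c = c0 * a k → br μ c (F c - F' c0) (F c - F' c0) ≤ δ (a k)) →
      ∃ (g : J → Finset ℕ) (a : J → Fin l → ℕ) (u : J → ℕ → ℂ),
        (∀ j, g j ∈ Ad j ∧ a j ∈ Fintype.piFinset Gs ∧ u j ∈ GX (hull A) R) ∧
        v - 6 * s - (16 * e + 8 * d + 1 / Q) / s - 1 / Q - 8 * rs G / n ≤
          ∑ j, lam j * pot μ (pv (g j) * ∏ k, a j k) f (u j)

/-! ### From and to logarithmic sums -/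

/-- the families on all levels -/
def S_Setup8 : Prop := ∃ C : ℝ, 0 < C ∧ ∀ XX, Hull XX → ∀ χ f : ℕ → ℂ, UCM χ → (∀ n, ‖f n‖ ≤ 1) →
  ∀ (lo hi R j0 j1 Pm : ℕ) (ρ t M : ℝ) (Ψ Ψ1 : ℕ → ℂ), Gr XX (ρ * (Pm : ℝ) ^ 2) Ψ → Gr XX ρ Ψ1 →
    0 < t → t ≤ 1 / 2 → 1 ≤ Pm → 0 < R → 1 ≤ j0 → j0 ≤ j1 → 0 < M → 1 ≤ lo → lo ≤ hi →
    ∃ F F' : ℕ → ℕ → ℂ, (∀ c, F c ∈ GX XX R ∧ F' c ∈ GX XX R) ∧
      ∀ c : ℕ, 0 < c → c ≤ R → (R : ℝ) ≤ t * c * ρ → c * lo < j0 * R → j1 * R ≤ c * hi →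
        Eqv χ f c →
        gnI lo hi f Ψ1 - C * (t * LL lo hi + 1 + Real.log ((j0 * R : ℝ) / (c * lo)) +
          Real.log ((c * hi : ℝ) / (j1 * R))) ≤ M * pot (wj R j0 j1 M) c f (F c) ∧
        ∀ c0 p : ℕ, c = c0 * p → p ≤ Pm →
          M * br (wj R j0 j1 M) c (F c - F' c0) (F c - F' c0) ≤
            3 * dsI lo hi Ψ1 (Up χ p Ψ) + C * (t * LL lo hi + 1)

/-- back from the level c to a logarithmic sum -/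
def S_Down8 : Prop := ∃ C : ℝ, 0 < C ∧ ∀ XX, Hull XX → ∀ χ f : ℕ → ℂ, UCM χ → (∀ n, ‖f n‖ ≤ 1) →
  ∀ (lo hi R j0 j1 c : ℕ) (M : ℝ) (u : ℕ → ℂ), u ∈ GX XX R → 0 < c → c ≤ R → 1 ≤ j0 → j0 ≤ j1 →
    0 < M → 1 ≤ lo → c * lo < j0 * R → j1 * R ≤ c * hi → Eqv χ f c →
    Gr XX ((R : ℝ) / c) (Up χ c u) ∧
      M * pot (wj R j0 j1 M) c f u - C * (1 + Real.log ((j0 * R : ℝ) / (c * lo)) +
        Real.log ((c * hi : ℝ) / (j1 * R))) ≤ gnI lo hi f (Up χ c u)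

/-- concatenation along a chain of adjacent intervals -/
def S_Cat8 : Prop := ∃ C : ℝ, 0 < C ∧ ∀ XX, Hull XX → ∀ (f : ℕ → ℂ) (Y M t : ℝ) (K i0 : ℕ)
  (ρ : ℕ → ℝ) (Ψ : ℕ → ℕ → ℂ), (∀ n, ‖f n‖ ≤ 1) → 1 ≤ Y → 1 ≤ M → 0 < t → t ≤ 1 / 2 → 1 ≤ K →
  K + 1 ≤ i0 → (∀ i ∈ Ico i0 (i0 + K), Gr XX (ρ i) (Ψ i) ∧ Real.exp (K * M) ≤ t * ρ i) →
  Pot XX f (Y * Real.exp (i0 * M)) (K * M)
    ((∑ i ∈ Ico i0 (i0 + K), gnI ⌊Y * Real.exp (i * M)⌋₊ ⌊Y * Real.exp ((i + 1 : ℕ) * M)⌋₊ f (Ψ i)) /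
      (K * M) - C * (t + 1 / M))

/-- the local plain step with explicit parameters: n chains of K blocks -/
def S_Mid8 : Prop := ∀ A : Set (ℕ → ℂ), Ax.Sys A → ∃ C : ℕ, 0 < C ∧
  ∀ (χ f : ℕ → ℂ) (Q y l β a0 Pm lo hi K n m : ℕ) (M U δ ρ E s : ℝ) (Ψ Ψ1 : ℕ → ℂ)
    (Gs : Fin l → Finset ℕ) (G0 : Finset ℕ), UCM χ → (∀ N, ‖f N‖ ≤ 1) → 1 ≤ lo → lo ≤ hi →
    M = Real.log ((hi : ℝ) / lo) → (∀ p : ℕ, p.Prime → M * U < Real.log p → Eqv χ f p) →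
    (∀ k, ∀ p ∈ Gs k, Eqv χ f p) → Gr (hull A) (ρ * (Pm : ℝ) ^ 2) Ψ → Gr (hull A) ρ Ψ1 →
    Grp C Q y l β Gs G0 → y ^ 2 ≤ Pm → Real.log Pm ≤ M → y ^ l ≤ a0 →
    (∀ a ∈ Fintype.piFinset Gs, a0 ≤ ∏ k, a k ∧ ∏ k, a k ≤ y * a0) →
    1 ≤ U → 0 < δ → δ ≤ 1 / 4 → C ≤ δ * M → C * U ≤ K → 2 ≤ n →
    C * Real.log (n * K) ≤ m → (C * n * K / δ) ^ (C * m) ≤ Q → C * n * K * M ≤ Q →
    Real.exp (2 * δ * M) * (y : ℝ) ^ C ≤ ρ → C * n * K * M * m ≤ l * Real.log y →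
    Real.log ρ + C * (l * Real.log y) ≤ Real.log lo →
    0 ≤ E → (∀ k, Ep (Gs k) (fun p => dsI lo hi Ψ1 (Up χ p Ψ)) ≤ E) → 0 < s → s ≤ 1 →
    ∃ j : ℕ, 1 ≤ j ∧ j ≤ n + 2 ∧ Pot (hull A) f (lo * Real.exp (j * K * M)) (K * M)
      (gnI lo hi f Ψ1 / M - C * (s + δ + Real.log y / M + Real.log (n * K) / m) -
        C / s * ((E + 1) / M + U ^ 2 / (δ ^ 3 * Real.log n)))

end Pool.Agent.P.MP_a14ce1_nt.Fu.L8
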