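import Pool.Agent.P.MP_a14ce1_nt.IV.Grid
import Pool.Agent.P.MP_a14ce1_nt.IV.TKlog
import Pool.Agent.P.MP_a14ce1_nt.Ch.TK

/-!
Local logarithmic sums over one interval (lo, hi]: change of grid and the Turan-Kubilius
inequality, with errors relative to the logarithmic length of the interval.
-/

open Finset
open scoped ComplexConjugate

namespace Pool.Agent.P.MP_a14ce1_nt.Fu.Loc

open Ch (rs om)
open IV (Hull Gr Up Ep gn cell good loc mem_cell mem_cell_floor)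

/-- logarithmically weighted squared distance on (lo, hi] -/
noncomputable def dsI (lo hi : ℕ) (φ ψ : ℕ → ℂ) : ℝ := ∑ n ∈ Ioc lo hi, ‖φ n - ψ n‖ ^ 2 / n

/-- logarithmically weighted gain on (lo, hi] -/
noncomputable def gnI (lo hi : ℕ) (f Ψ : ℕ → ℂ) : ℝ := ∑ n ∈ Ioc lo hi, gn (f n) (Ψ n) / n

/-- one plus the logarithmic length of (lo, hi] -/
noncomputable def LL (lo hi : ℕ) : ℝ := 1 + Real.log ((hi : ℝ) / lo)

/-- f transforms under dilation by c like χ -/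
def Eqv (χ f : ℕ → ℂ) (c : ℕ) : Prop := ∀ m, m ≠ 0 → f (c * m) = χ c * f m

theorem Eqv.mul {χ f : ℕ → ℂ} (hχ : Ch.CM χ) {c d : ℕ} (hc : c ≠ 0) (hd : d ≠ 0) (h1 : Eqv χ f c)
    (h2 : Eqv χ f d) : Eqv χ f (c * d) := fun m hm => by
  rw [mul_assoc, h1 _ (mul_ne_zero hd hm), h2 m hm, hχ.mul c d hc hd, mul_assoc]

theorem dsI_nonneg (lo hi : ℕ) (φ ψ : ℕ → ℂ) : 0 ≤ dsI lo hi φ ψ :=
  sum_nonneg fun _ _ => by positivity

theorem gnI_eq (lo hi : ℕ) (f Ψ : ℕ → ℂ) : gnI lo hi f Ψ = dsI lo hi f 0 - dsI lo hi f Ψ := by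
  rw [gnI, dsI, dsI, ← sum_sub_distrib]
  refine sum_congr rfl fun n _ => ?_
  rw [IV.gn_eq, Pi.zero_apply, sub_zero, sub_div]

theorem log_ratio {lo hi : ℕ} (h1 : 1 ≤ lo) (h2 : lo ≤ hi) :
    Real.log ((hi : ℝ) / lo) = Real.log hi - Real.log lo := by
  have a1 : (0 : ℝ) < lo := by exact_mod_cast h1
  have a2 : (0 : ℝ) < hi := by exact_mod_cast h1.trans h2
  exact Real.log_div a2.ne' a1.ne'

theorem one_le_LL {lo hi : ℕ} (h1 : 1 ≤ lo) (h2 : lo ≤ hi) : 1 ≤ LL lo hi := by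
  have a1 : (0 : ℝ) < lo := by exact_mod_cast h1
  have := Real.log_nonneg ((one_le_div a1).2 (show (lo : ℝ) ≤ hi by exact_mod_cast h2))
  rw [LL]; linarith

theorem harm_LL {lo hi : ℕ} (h1 : 1 ≤ lo) (h2 : lo ≤ hi) :
    ∑ n ∈ Ioc lo hi, 1 / (n : ℝ) ≤ LL lo hi - 1 := by
  rw [LL, log_ratio h1 h2]
  linarith [IV.TKlogP.harm_Ioc h1 h2]

theorem dsI_zero_le {lo hi : ℕ} (h1 : 1 ≤ lo) (h2 : lo ≤ hi) {f : ℕ → ℂ} (hf : ∀ n, ‖f n‖ ≤ 1) :
    dsI lo hi f 0 ≤ LL lo hi - 1 := by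
  refine le_trans (sum_le_sum fun n _ => ?_) (harm_LL h1 h2)
  rw [Pi.zero_apply, sub_zero]
  gcongr
  exact pow_le_one₀ (norm_nonneg _) (hf n)

/-- reciprocals of a set of positive integers with bounded ratios -/
theorem harm_rng (S : Finset ℕ) {K : ℝ} (hK : 1 ≤ K) (h1 : ∀ i ∈ S, 1 ≤ i)
    (h2 : ∀ i ∈ S, ∀ i' ∈ S, (i' : ℝ) ≤ K * i) : ∑ i ∈ S, 1 / (i : ℝ) ≤ 1 + Real.log K := by
  have hl := Real.log_nonneg hK
  rcases S.eq_empty_or_nonempty with rfl | hS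
  · simp; linarith
  set a := S.min' hS
  set b := S.max' hS
  have ha : a ∈ S := S.min'_mem hS
  have hb : b ∈ S := S.max'_mem hS
  have hab : a ≤ b := S.min'_le b hb
  have a1 : (1 : ℝ) ≤ a := by exact_mod_cast h1 a ha
  have hsub : S ⊆ insert a (Ioc a b) := fun i hi => by
    have := S.min'_le i hi
    have := S.le_max' i hi
    rw [mem_insert, mem_Ioc]; omega
  have h3 := IV.TKlogP.harm_Ioc (h1 a ha) hab
  have h4 : Real.log b ≤ Real.log K + Real.log a := by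
    rw [← Real.log_mul (by linarith) (by linarith)]
    exact Real.log_le_log (by exact_mod_cast h1 b hb) (h2 a ha b hb)
  have h5 : 1 / (a : ℝ) ≤ 1 := by rw [div_le_one (by linarith)]; exact a1
  calc _ ≤ ∑ i ∈ insert a (Ioc a b), 1 / (i : ℝ) :=
        sum_le_sum_of_subset_of_nonneg hsub fun _ _ _ => by positivity
    _ = 1 / (a : ℝ) + ∑ i ∈ Ioc a b, 1 / (i : ℝ) := sum_insert (by simp)
    _ ≤ _ := by linarith

open Classical in
/-- the cells of the fine grid that meet two cells of the coarse grid have small local mass -/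
theorem bad_mass {ρ' s t : ℝ} {lo hi : ℕ} (hlo : 1 ≤ lo) (hhi : lo ≤ hi) (h1 : 1 ≤ ρ') (hs : 0 < s)
    (hst : s ≤ t) (ht : t ≤ 1 / 2) :
    ∑ n ∈ (Ioc lo hi).filter (fun n : ℕ => ¬ good s ⌊(n : ℝ) / ρ'⌋₊), 1 / (n : ℝ) ≤
      12 * t * LL lo hi := by
  have hρ : 0 < ρ' := by linarith
  set T := (Ioc lo hi).filter (fun n : ℕ => ¬ good s ⌊(n : ℝ) / ρ'⌋₊) with hT
  set Jb := T.image fun n : ℕ => ⌊(n : ℝ) / ρ'⌋₊ with hJb
  have hbad : ∀ j ∈ Jb, ¬ good s j := fun j hj => by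
    obtain ⟨n, hn, rfl⟩ := mem_image.1 hj
    exact (mem_filter.1 hn).2
  have hj1 : ∀ j ∈ Jb, 1 ≤ j := fun j hj => by
    by_contra h4
    have h5 : j = 0 := by omega
    exact hbad j hj ⟨0, by rw [h5]; simp, by rw [h5]; simp; linarith⟩
  have key : ∀ j ∈ Jb, (j : ℝ) * s < ((⌊(j : ℝ) * s⌋₊ + 1 : ℕ) : ℝ) ∧
      ((⌊(j : ℝ) * s⌋₊ + 1 : ℕ) : ℝ) < ((j : ℝ) + 1) * s := by
    intro j hj
    refine ⟨by push_cast; exact Nat.lt_floor_add_one _, ?_⟩
    by_contra h1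
    exact hbad j hj ⟨⌊(j : ℝ) * s⌋₊, Nat.floor_le (by positivity), by
      push_cast at h1; exact not_lt.1 h1⟩
  have hinj : Set.InjOn (fun j : ℕ => ⌊(j : ℝ) * s⌋₊ + 1) (Jb : Set ℕ) := by
    have aux : ∀ j ∈ Jb, ∀ j' ∈ Jb, j < j' → ⌊(j : ℝ) * s⌋₊ + 1 ≠ ⌊(j' : ℝ) * s⌋₊ + 1 := by
      intro j hj j' hj' hlt he
      have h1 := (key j hj).2
      have h2 := (key j' hj').1
      have h3 : (j : ℝ) + 1 ≤ j' := by exact_mod_cast hlt
      rw [he] at h1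
      nlinarith
    intro j hj j' hj' he
    rcases lt_trichotomy j j' with h | h | h
    · exact absurd he (aux j hj j' hj' h)
    · exact h
    · exact absurd he.symm (aux j' hj' j hj h)
  have hlo' : (0 : ℝ) < lo := by exact_mod_cast hlo
  have hK : (1 : ℝ) ≤ (hi : ℝ) / lo := (one_le_div hlo').2 (by exact_mod_cast hhi)
  have hrng : ∀ j ∈ Jb, (j : ℝ) * ρ' ≤ hi ∧ (lo : ℝ) ≤ (j + 1) * ρ' := fun j hj => by
    obtain ⟨n, hn, rfl⟩ := mem_image.1 hj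
    obtain ⟨a1, a2⟩ := mem_Ioc.1 (mem_filter.1 hn).1
    obtain ⟨a3, a4⟩ := mem_cell.1 ((mem_cell_floor hρ (n := n)).2 rfl)
    have a5 : (lo : ℝ) ≤ n := by exact_mod_cast a1.le
    have a6 : (n : ℝ) ≤ hi := by exact_mod_cast a2
    exact ⟨a3.trans a6, a5.trans a4.le⟩
  have h3 : ∑ i ∈ Jb.image (fun j : ℕ => ⌊(j : ℝ) * s⌋₊ + 1), 1 / (i : ℝ) ≤
      1 + Real.log (4 * ((hi : ℝ) / lo)) := by
    refine harm_rng _ (by linarith) (fun i gi => ?_) fun i gi i' gi' => ?_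
    · obtain ⟨j, -, rfl⟩ := mem_image.1 gi
      omega
    · obtain ⟨j, hj, rfl⟩ := mem_image.1 gi
      obtain ⟨j', hj', rfl⟩ := mem_image.1 gi'
      have b1 := (key j hj).1
      have b2 := (key j' hj').2
      have b3 := (hrng j hj).2
      have b4 := (hrng j' hj').1
      have b5 : (1 : ℝ) ≤ j := by exact_mod_cast hj1 j hj
      have b6 : (1 : ℝ) ≤ j' := by exact_mod_cast hj1 j' hj'
      have b7 : (j' : ℝ) * lo ≤ 2 * j * hi := by
        have b8 : (j' : ℝ) * lo ≤ j' * ((2 * j) * ρ') := by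
          refine mul_le_mul_of_nonneg_left (b3.trans ?_) (by linarith)
          exact mul_le_mul_of_nonneg_right (by linarith) hρ.le
        nlinarith
      have b9 : (j' : ℝ) ≤ 2 * j * ((hi : ℝ) / lo) := by
        rw [← mul_div_assoc, le_div_iff₀ hlo']; exact b7
      calc _ ≤ 2 * j' * s := by nlinarith
        _ ≤ 2 * (2 * j * ((hi : ℝ) / lo)) * s := by gcongr
        _ = 4 * ((hi : ℝ) / lo) * (j * s) := by ring
        _ ≤ _ := by gcongr
  have h4 : Real.log (4 * ((hi : ℝ) / lo)) ≤ 2 + Real.log ((hi : ℝ) / lo) := by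
    rw [Real.log_mul (by norm_num) (by linarith), show (4 : ℝ) = 2 ^ 2 by norm_num, Real.log_pow]
    have := Real.log_two_lt_d9
    push_cast; linarith
  have h5 := Real.log_nonneg hK
  have hmap : ∀ n ∈ T, ⌊(n : ℝ) / ρ'⌋₊ ∈ Jb := fun n hn => mem_image_of_mem _ hn
  rw [← sum_fiberwise_of_maps_to hmap]
  calc _ ≤ ∑ j ∈ Jb, 2 * (1 / (j : ℝ)) := by
        refine sum_le_sum fun j hj => le_trans ?_ (IV.GridP.cell_inv_le h1 (hj1 j hj))
        exact sum_le_sum_of_subset_of_nonneg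
          (fun n hn => (mem_cell_floor hρ).2 (mem_filter.1 hn).2) fun _ _ _ => by positivity
    _ ≤ ∑ j ∈ Jb, 4 * s * (1 / ((⌊(j : ℝ) * s⌋₊ + 1 : ℕ) : ℝ)) := by
        refine sum_le_sum fun j hj => ?_
        have h1 := (key j hj).2
        have h2 : (1 : ℝ) ≤ j := by exact_mod_cast hj1 j hj
        rw [mul_one_div, mul_one_div, div_le_div_iff₀ (by linarith) (by positivity)]
        nlinarith
    _ = 4 * s * ∑ i ∈ Jb.image (fun j : ℕ => ⌊(j : ℝ) * s⌋₊ + 1), 1 / (i : ℝ) := by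
        rw [sum_image hinj, mul_sum]
    _ ≤ 4 * t * (3 * LL lo hi) := by
        have : 0 < t := by linarith
        refine mul_le_mul (by linarith) (by rw [LL]; linarith)
          (sum_nonneg fun _ _ => by positivity) (by linarith)
    _ = _ := by ring

/-- change of grid; the new function does not depend on the interval -/
theorem regrid {XX : Set (ℕ → ℂ)} (hX : Hull XX) {ρ ρ' t : ℝ} {Ψ : ℕ → ℂ} (h1 : 1 ≤ ρ')
    (h2 : ρ' ≤ t * ρ) (ht : 0 < t) (ht2 : t ≤ 1 / 2) (hΨ : Gr XX ρ Ψ) :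
    ∃ Ψ', Gr XX ρ' Ψ' ∧ ∀ lo hi : ℕ, 1 ≤ lo → lo ≤ hi → dsI lo hi Ψ Ψ' ≤ 12 * t * LL lo hi ∧
      ∀ g : ℕ → ℂ, (∀ n, ‖g n‖ ≤ 1) → dsI lo hi g Ψ' ≤ dsI lo hi g Ψ + 12 * t * LL lo hi := by
  classical
  have hρ : 0 < ρ := by
    by_contra h
    nlinarith [not_lt.1 h]
  have hρ' : 0 < ρ' := by linarith
  refine ⟨fun n => if good (ρ' / ρ) ⌊(n : ℝ) / ρ'⌋₊ then Ψ n else 0, fun j => ?_,
    fun lo hi hlo hhi => ?_⟩
  · by_cases h : good (ρ' / ρ) j
    · refine ⟨loc XX Ψ ρ' j, IV.loc_mem hX _ _ _, fun n hn => ?_⟩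
      simp only [(mem_cell_floor hρ').1 hn, if_pos h, IV.loc_eq hρ hΨ h hn]
    · refine ⟨0, hX.zero, fun n hn => ?_⟩
      simp only [(mem_cell_floor hρ').1 hn, if_neg h, Pi.zero_apply]
  have hm := bad_mass hlo hhi h1 (s := ρ' / ρ) (by positivity) ((div_le_iff₀ hρ).2 h2) ht2
  have main : ∀ g : ℕ → ℂ, (∀ n, ‖g n‖ ≤ 1) →
      dsI lo hi g (fun n => if good (ρ' / ρ) ⌊(n : ℝ) / ρ'⌋₊ then Ψ n else 0) ≤
        dsI lo hi g Ψ + 12 * t * LL lo hi := by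
    intro g hg
    refine le_trans ?_ (add_le_add le_rfl hm)
    rw [dsI, dsI, sum_filter, ← sum_add_distrib]
    refine sum_le_sum fun n _ => ?_
    by_cases h : good (ρ' / ρ) ⌊(n : ℝ) / ρ'⌋₊
    · simp [h]
    · rw [if_neg h, if_pos h, sub_zero]
      have h3 : ‖g n‖ ^ 2 / (n : ℝ) ≤ 1 / n := by
        gcongr
        exact pow_le_one₀ (norm_nonneg _) (hg n)
      have h4 : 0 ≤ ‖g n - Ψ n‖ ^ 2 / (n : ℝ) := by positivity
      linarith
  refine ⟨?_, main⟩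
  have h3 := main Ψ (hΨ.bd hX hρ)
  have h4 : dsI lo hi Ψ Ψ = 0 := by simp [dsI]
  linarith

/-- change of grid, for the gain -/
theorem regrid_gn {XX : Set (ℕ → ℂ)} (hX : Hull XX) {ρ ρ' t : ℝ} {Ψ : ℕ → ℂ} (h1 : 1 ≤ ρ')
    (h2 : ρ' ≤ t * ρ) (ht : 0 < t) (ht2 : t ≤ 1 / 2) (hΨ : Gr XX ρ Ψ) :
    ∃ Ψ', Gr XX ρ' Ψ' ∧ ∀ lo hi : ℕ, 1 ≤ lo → lo ≤ hi → ∀ g : ℕ → ℂ, (∀ n, ‖g n‖ ≤ 1) →
      gnI lo hi g Ψ - 12 * t * LL lo hi ≤ gnI lo hi g Ψ' := by
  obtain ⟨Ψ', a1, a2⟩ := regrid hX h1 h2 ht ht2 hΨ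
  refine ⟨Ψ', a1, fun lo hi b1 b2 g hg => ?_⟩
  have := (a2 lo hi b1 b2).2 g hg
  rw [gnI_eq, gnI_eq]
  linarith

theorem sum_dvd {p : ℕ} (hp : 0 < p) (a b : ℕ) (ψ : ℕ → ℝ) :
    ∑ m ∈ Ioc (a / p) (b / p), ψ (p * m) = ∑ n ∈ (Ioc a b).filter (fun n => p ∣ n), ψ n := by
  have e : (Ioc a b).filter (fun n => p ∣ n) = (Ioc (a / p) (b / p)).image (fun m => p * m) := by
    ext n
    simp only [mem_filter, mem_Ioc, mem_image]
    constructor
    · rintro ⟨⟨h1, h2⟩, m, rfl⟩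
      exact ⟨m, ⟨(Nat.div_lt_iff_lt_mul hp).2 (by rwa [mul_comm]),
        (Nat.le_div_iff_mul_le hp).2 (by rwa [mul_comm])⟩, rfl⟩
    · rintro ⟨m, ⟨h1, h2⟩, rfl⟩
      exact ⟨⟨by rw [mul_comm]; exact (Nat.div_lt_iff_lt_mul hp).1 h1,
        by rw [mul_comm]; exact (Nat.le_div_iff_mul_le hp).1 h2⟩, dvd_mul_right _ _⟩
  rw [e, sum_image fun a _ b _ h => mul_left_cancel₀ hp.ne' h]

theorem tk_large {P : Finset ℕ} (hP : ∀ p ∈ P, p.Prime) (hL : 0 < rs P) {lo hi : ℕ}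
    (hlo : 1 ≤ lo) (hhi : lo ≤ hi) (hc : P.card ≤ lo) :
    ∑ n ∈ Ioc lo hi, |1 - om P n / rs P| / n ≤ 3 * (LL lo hi / √(rs P)) := by
  have hl := one_le_LL hlo hhi
  have hs : 0 < √(rs P) := Real.sqrt_pos.2 hL
  have hX0 : (0 : ℝ) < hi := by exact_mod_cast hlo.trans hhi
  have hA : ∀ N, lo ≤ N → ∑ n ∈ Icc 1 N, (1 - om P n / rs P) ^ 2 ≤ 3 / rs P * N :=
    fun N hN => (Ch.tk P N hP (hc.trans hN) hL).trans (le_of_eq (by ring))
  have h1 := IV.TKlogP.abel (fun n => (1 - om P n / rs P) ^ 2) (3 / rs P) hlo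
    (fun _ => sq_nonneg _) hA hhi
  have h2 : (∑ n ∈ Icc 1 hi, (1 - om P n / rs P) ^ 2) / hi ≤ 3 / rs P :=
    (div_le_iff₀ hX0).2 (hA hi hhi)
  have h3 := harm_LL hlo hhi
  have h4 : ∑ n ∈ Ioc lo hi, (1 - om P n / rs P) ^ 2 / n ≤ 3 / rs P * LL lo hi := by
    have h5 := mul_le_mul_of_nonneg_left h3 (by positivity : 0 ≤ 3 / rs P)
    linarith
  have h3' : ∑ n ∈ Ioc lo hi, 1 / (n : ℝ) ≤ LL lo hi := by linarith
  generalize hs' : √(rs P) = s at hs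
  have hss : rs P = s * s := by rw [← hs', Real.mul_self_sqrt hL.le]
  calc _ ≤ ∑ n ∈ Ioc lo hi, (s / 2 * ((1 - om P n / rs P) ^ 2 / n) + 1 / s * (1 / (n : ℝ))) := by
        refine sum_le_sum fun n _ => ?_
        have h8 : |1 - om P n / rs P| ≤ s / 2 * (1 - om P n / rs P) ^ 2 + 1 / s := by
          rw [← sq_abs]
          generalize |1 - om P n / rs P| = x
          rw [← sub_nonneg]
          have : s / 2 * x ^ 2 + 1 / s - x = ((s * x - 1) ^ 2 + 1) / (2 * s) := by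
            field_simp; ring
          rw [this]; positivity
        refine (div_le_div_of_nonneg_right h8 (Nat.cast_nonneg n)).trans (le_of_eq ?_)
        ring
    _ ≤ s / 2 * (3 / rs P * LL lo hi) + 1 / s * LL lo hi := by
        rw [sum_add_distrib, ← mul_sum, ← mul_sum]
        gcongr
    _ = 5 / 2 * (LL lo hi / s) := by rw [hss]; field_simp; ring
    _ ≤ _ := by gcongr; norm_num

/-- Turan-Kubilius with logarithmic weights on an interval -/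
theorem tklog {P : Finset ℕ} {Pm B : ℝ} {lo hi : ℕ} {φ : ℕ → ℝ} (hPm : 2 ≤ Pm)
    (hP : ∀ p ∈ P, p.Prime ∧ (p : ℝ) ≤ Pm) (hL : 0 < rs P) (hlo : Pm ≤ lo) (hhi : lo ≤ hi)
    (hφ : ∀ n, 0 ≤ φ n ∧ φ n ≤ B) :
    Ep P (fun p => ∑ m ∈ Ioc lo hi, φ (p * m) / m) ≤ ∑ n ∈ Ioc lo hi, φ n / n +
      3 * B * (LL lo hi / √(rs P) + Real.log Pm) := by
  have hB : 0 ≤ B := (hφ 0).1.trans (hφ 0).2
  have hP1 : ∀ p ∈ P, 1 ≤ p := fun p hp => (hP p hp).1.one_le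
  have hlo1 : 1 ≤ lo := by
    have : (1 : ℝ) ≤ lo := by linarith
    exact_mod_cast this
  have hlP : 1 / 2 ≤ Real.log Pm := by
    have := Real.log_le_log two_pos hPm
    have := Real.log_two_gt_d9
    linarith
  have hsw : ∑ p ∈ P, 1 / (p * rs P) * ∑ m ∈ Ioc (lo / p) (hi / p), φ (p * m) / m =
      ∑ n ∈ Ioc lo hi, φ n / n * (om P n / rs P) := by
    have h1 : ∀ p ∈ P, 1 / (p * rs P) * ∑ m ∈ Ioc (lo / p) (hi / p), φ (p * m) / m =
        ∑ n ∈ Ioc lo hi, if p ∣ n then φ n / n / rs P else 0 := by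
      intro p hp
      rw [← sum_filter, ← sum_dvd (hP1 p hp) lo hi fun n => φ n / n / rs P, mul_sum]
      refine sum_congr rfl fun m _ => ?_
      push_cast
      ring
    rw [sum_congr rfl h1, sum_comm]
    refine sum_congr rfl fun n _ => ?_
    rw [← sum_filter, sum_const, nsmul_eq_mul, om]
    ring
  have h1 : Ep P (fun p => ∑ m ∈ Ioc lo hi, φ (p * m) / m) ≤
      ∑ n ∈ Ioc lo hi, φ n / n * (om P n / rs P) + B * (1 + Real.log Pm) := by
    have e0 : B * (1 + Real.log Pm) = ∑ p ∈ P, 1 / (p * rs P) * (B * (1 + Real.log Pm)) := by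
      rw [← sum_mul, IV.TKlogP.one_sum hL, one_mul]
    rw [← hsw, e0, ← sum_add_distrib]
    refine sum_le_sum fun p hp => ?_
    rw [← mul_add]
    refine mul_le_mul_of_nonneg_left ?_ (by positivity)
    have e : Ioc lo hi ⊆ Ioc (lo / p) (hi / p) ∪ Ioc (hi / p) hi := by
      have := Nat.div_le_self lo p
      generalize lo / p = q at this
      generalize hi / p = q'
      intro m; simp only [mem_union, mem_Ioc]; omega
    have hp' : (0 : ℝ) < p := by exact_mod_cast hP1 p hp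
    have hnn : ∀ m : ℕ, 0 ≤ φ (p * m) / m := fun m => div_nonneg (hφ _).1 (Nat.cast_nonneg m)
    beta_reduce
    refine (sum_le_sum_of_subset_of_nonneg e fun m _ _ => hnn m).trans ?_
    rw [sum_union (disjoint_left.2 fun m h h' =>
      absurd (mem_Ioc.1 h).2 (not_le.2 (mem_Ioc.1 h').1))]
    refine add_le_add le_rfl ?_
    calc _ ≤ ∑ m ∈ Ioc (hi / p) hi, B * (1 / (m : ℝ)) := sum_le_sum fun m _ => by
          rw [mul_one_div]; exact div_le_div_of_nonneg_right (hφ _).2 (Nat.cast_nonneg m)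
      _ ≤ B * (1 + Real.log p) := by
          rw [← mul_sum]; exact mul_le_mul_of_nonneg_left (IV.TKlogP.harm_tail (hP1 p hp) hi) hB
      _ ≤ _ := by gcongr; exact (hP p hp).2
  have hK : P.card ≤ lo := by
    have h2 : P ⊆ Icc 1 lo := fun p hp => mem_Icc.2 ⟨hP1 p hp, by
      have := (hP p hp).2.trans hlo
      exact_mod_cast this⟩
    simpa using card_le_card h2
  have h2 : ∑ n ∈ Ioc lo hi, φ n / n * (om P n / rs P) ≤ ∑ n ∈ Ioc lo hi, φ n / n +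
      B * ∑ n ∈ Ioc lo hi, |1 - om P n / rs P| / n := by
    rw [mul_sum, ← sum_add_distrib]
    refine sum_le_sum fun n _ => ?_
    have h3 : φ n * (om P n / rs P - 1) ≤ B * |1 - om P n / rs P| := by
      rw [abs_sub_comm]
      exact (mul_le_mul_of_nonneg_left (le_abs_self _) (hφ n).1).trans
        (mul_le_mul_of_nonneg_right (hφ n).2 (abs_nonneg _))
    have h4 := div_le_div_of_nonneg_right h3 (Nat.cast_nonneg (α := ℝ) n)
    have h5 : φ n * (om P n / rs P - 1) / n = φ n / n * (om P n / rs P) - φ n / n := by ring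
    rw [h5, mul_div_assoc] at h4
    linarith
  have h4 := mul_le_mul_of_nonneg_left (tk_large (fun p hp => (hP p hp).1) hL hlo1 hhi hK) hB
  have h6 := mul_le_mul_of_nonneg_left hlP hB
  nlinarith

end Pool.Agent.P.MP_a14ce1_nt.Fu.Loc
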