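import Pool.Agent.P.MP_a14ce1_nt.Fu.LocB
import Pool.Agent.P.MP_a14ce1_nt.Nil.Pl.Par

/-!
Section 1 of the local plain step with explicit parameters, starting from the local potential.
-/

open Finset

namespace Pool.Agent.P.MP_a14ce1_nt.Fu.Loc

open Ch (rs)
open IV (Hull Gr Up Ep grp)
open Pl.Par (two_pow_mono lin_le)

/-- the groups of small primes: `G k` for the cube and one spare group `G0` -/
structure Grps {l : ℕ} (G : Fin l → Finset ℕ) (G0 : Finset ℕ) (y β lo : ℕ) (a U : ℝ) : Prop where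
  pr : ∀ k, ∀ p ∈ G k, p.Prime ∧ y < p ∧ p ≤ y ^ 2
  pr0 : ∀ p ∈ G0, p.Prime ∧ y < p ∧ p ≤ y ^ 2
  av : ∀ k, ∀ p ∈ G k, Real.log p < a ∨ a * U < Real.log p
  dj : ∀ k k', k ≠ k' → Disjoint (G k) (G k')
  dj0 : ∀ k, Disjoint (G k) G0
  ms : ∀ k, 1 ≤ β * rs (G k)
  ms0 : 1 ≤ β * rs G0
  lo1 : y ^ l ≤ lo
  lo2 : ∀ u ∈ Fintype.piFinset G, lo ≤ ∏ k, u k ∧ ∏ k, u k ≤ y * lo

/-- With T = 2 ^ L, T ^ 10 ≤ M, Pm = 2 ^ T ^ 9, y = 2 ^ (T ^ 2 J). -/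
theorem sec1P : ∃ L0 : ℕ, 13 ≤ L0 ∧ ∀ (XX : Set (ℕ → ℂ)), Hull XX →
    ∀ (f : ℕ → ℂ) (Y M a U v : ℝ) (L T Pm : ℕ), (∀ n, ‖f n‖ ≤ 1) → Flip f a U → 0 ≤ U → L0 ≤ L →
    T = 2 ^ L → Pm = 2 ^ T ^ 9 → U ≤ 2 ^ (L / 3) → (T : ℝ) ^ 10 ≤ M → Real.exp M ≤ Y →
    Pot XX f Y M v → ∃ (ρ : ℝ) (Ψ Ψ1 : ℕ → ℂ) (J y : ℕ), Real.exp (M / 2) ≤ ρ ∧
      ρ * (Pm : ℝ) ^ 2 ≤ Real.exp M ∧ Gr XX (ρ * (Pm : ℝ) ^ 2) Ψ ∧ Gr XX ρ Ψ1 ∧
      (v - 48 / L) * M ≤ gnI (bl Y) (bl (Y * Real.exp M)) f Ψ1 ∧ T ^ 6 ≤ J ∧ 2 * J ≤ T ^ 7 ∧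
      y = 2 ^ (T ^ 2 * J) ∧ y ^ 2 ≤ Pm ∧ ∀ l : ℕ, 2 * (l + 1) ≤ J →
        ∃ (G : Fin l → Finset ℕ) (G0 : Finset ℕ) (lo : ℕ), Grps G G0 y (4 * J) lo a U ∧
          ∀ k, Ep (G k) (fun p => dsI (bl Y) (bl (Y * Real.exp M)) Ψ1 (Up lc p Ψ)) ≤
            40000 / √L * M := by
  obtain ⟨s0, hS⟩ := sec1A
  refine ⟨13 + s0, by omega, fun XX hX f Y M a U v L T Pm hf hF hU hL hT hPm hUL hM hY hP => ?_⟩
  have T1 : 13 * L ≤ T := hT ▸ lin_le (by omega)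
  have T0 : 0 < T := by omega
  have L1 : (13 : ℝ) ≤ L := by exact_mod_cast (by omega : 13 ≤ L)
  have T2 : 13 * (L : ℝ) ≤ T := by exact_mod_cast T1
  have T3 : (1 : ℝ) ≤ (T : ℝ) ^ 9 := one_le_pow₀ (by linarith)
  have T4 : (T : ℝ) ^ 9 * (13 * L) ≤ M := le_trans (by rw [pow_succ (T : ℝ) 9]; gcongr) hM
  have M1 : 13 * (L : ℝ) ≤ M := by nlinarith
  have lP : Real.log Pm ≤ (T : ℝ) ^ 9 := by
    rw [hPm]
    push_cast
    rw [Real.log_pow]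
    push_cast
    exact mul_le_of_le_one_right (by positivity) (by linarith [Real.log_two_lt_d9])
  have m0 : 0 < Pm := hPm ▸ Nat.two_pow_pos _
  have Pm1 : (1 : ℝ) ≤ Pm := by exact_mod_cast m0
  have m1 : (Pm : ℝ) ^ (2 * L) ≤ Real.exp (M / 2) := by
    rw [← Real.log_le_iff_le_exp (by positivity), Real.log_pow]
    push_cast
    nlinarith
  have ee : Real.exp (M / 2) * Real.exp (M / 2) = Real.exp M := by
    rw [← Real.exp_add, add_halves]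
  have e2 : 2 ≤ Real.exp (M / 2) := by linarith [Real.add_one_le_exp (M / 2)]
  have m2 : (Pm : ℝ) ≤ Real.exp (M / 2) := (le_self_pow₀ Pm1 (by omega)).trans m1
  have m3 : (Pm : ℝ) ^ (2 * L) ≤ Real.exp M := by nlinarith
  have Y2 : 2 ≤ Y := by nlinarith
  have m4 : (Pm : ℝ) ≤ bl Y := by
    have := le_bl (show 0 < Y by linarith)
    nlinarith
  have m5 : (L : ℝ) * L ≤ Pm := by
    have : L * L ≤ Pm := by
      rw [hPm]
      refine le_trans ?_ Nat.lt_two_pow_self.le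
      calc L * L ≤ T * T := by gcongr <;> omega
        _ = T ^ 2 := by ring
        _ ≤ _ := Nat.pow_le_pow_right T0 (by norm_num)
    exact_mod_cast this
  have p3 : 2 ^ (3 * (L / 3)) ≤ T := hT ▸ two_pow_mono (by omega)
  obtain ⟨Ψ0, g1, g2⟩ := (pot_iff (by linarith)).1 hP
  have av : ∀ p : ℕ, p.Prime → Real.log p < max a 0 ∨ max a 0 * U < Real.log p →
      Real.log p < a ∨ a * U < Real.log p := fun p hp h => by
    rcases le_total 0 a with ha | ha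
    · rwa [max_eq_left ha] at h
    · exact Or.inr (lt_of_le_of_lt (mul_nonpos_of_nonpos_of_nonneg ha hU)
        (Real.log_pos (by exact_mod_cast hp.one_lt)))
  obtain ⟨ρ, Ψ, Ψ1, J, r1, r2, r3, r4, r5, r6, r7, r8, r9⟩ := hS XX hX lc f ucm_lc.1.bd hf (T ^ 2)
    (T ^ 6) (L / 3) L (bl Y) (bl (Y * Real.exp M)) Pm (Real.exp M) (max a 0) U Ψ0
    (le_trans (by omega) (Nat.le_self_pow two_ne_zero T)) (Nat.one_le_pow _ _ T0)
    (Nat.one_le_pow _ _ T0) (by omega) (by omega)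
    (by
      rw [hPm]
      push_cast
      refine pow_le_pow_right₀ one_le_two ?_
      calc _ ≤ T ^ 2 * T ^ 6 * T := Nat.mul_le_mul_left _ p3
        _ = _ := by ring)
    m3 m4 (bl_exp (by linarith) (by linarith)) (le_max_right _ _) hUL
    (fun p hp h => ⟨norm_lc p, eqv_prime hF hp (av p hp h)⟩) g1
  have hL3 : LL (bl Y) (bl (Y * Real.exp M)) ≤ 3 * M := by
    linarith [LL_bl Y2 (show 0 ≤ M by linarith)]
  have hL0 : 0 ≤ LL (bl Y) (bl (Y * Real.exp M)) := by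
    linarith [one_le_LL (one_le_bl Y2) (bl_exp (show 0 ≤ Y by linarith) (show 0 ≤ M by linarith))]
  have J7 : 2 * J ≤ T ^ 7 := r7.trans (by rw [pow_succ T 6]; exact Nat.mul_le_mul_left _ p3)
  obtain ⟨y, hy⟩ : ∃ y, y = 2 ^ (T ^ 2 * J) := ⟨_, rfl⟩
  have y2 : y ^ 2 = 2 ^ (T ^ 2 * (2 * J)) := by rw [hy, ← pow_mul]; congr 1; ring
  refine ⟨ρ, Ψ, Ψ1, J, y, ?_, r2, r3, r4, ?_, r6, J7, hy, ?_, fun l hl => ?_⟩
  · by_contra h
    have h1 : ρ * (Pm : ℝ) ^ (2 * L) ≤ ρ * Real.exp (M / 2) := by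
      refine mul_le_mul_of_nonneg_left m1 ?_
      by_contra h2
      have := mul_neg_of_neg_of_pos (not_le.1 h2) (show 0 < (Pm : ℝ) ^ (2 * L) by positivity)
      linarith [Real.exp_pos M]
    nlinarith [not_le.1 h]
  · have h1 : (L : ℝ) / Pm ≤ 1 / L := by
      rw [div_le_div_iff₀ (by linarith) (by linarith), one_mul]; exact m5
    have h2 : (L : ℝ) / Pm * LL (bl Y) (bl (Y * Real.exp M)) ≤ 1 / L * (3 * M) := by gcongr
    have h3 : 1 ≤ 1 / (L : ℝ) * M := by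
      rw [one_div_mul_eq_div, one_le_div (by linarith)]; linarith
    have h4 : (v - 48 / L) * M = v * M - 48 * (1 / L * M) := by ring
    linarith
  · rw [y2, hPm]
    refine two_pow_mono ?_
    calc _ ≤ T ^ 2 * T ^ 7 := Nat.mul_le_mul_left _ J7
      _ = _ := by ring
  obtain ⟨g, g3, g4⟩ := r9 (l + 1) hl
  have gp : ∀ k, ∀ p ∈ grp (T ^ 2) (g k), p.Prime ∧ y < p ∧ p ≤ y ^ 2 := fun k p hp => by
    obtain ⟨p1, p2, p3⟩ := V.mem_PP.1 hp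
    refine ⟨p1, lt_of_le_of_lt (hy ▸ two_pow_mono ?_) p2, p3.trans (y2 ▸ two_pow_mono ?_)⟩
    · gcongr; exact (g4 k).1
    · gcongr; exact (g4 k).2.1
  have gb : ∀ k, 1 ≤ ((4 * J : ℕ) : ℝ) * rs (grp (T ^ 2) (g k)) := fun k => by
    push_cast; exact (g4 k).2.2.1
  refine ⟨fun k => grp (T ^ 2) (g k.castSucc), grp (T ^ 2) (g (Fin.last l)),
    ∏ k : Fin l, 2 ^ (T ^ 2 * g k.castSucc), ⟨fun k => gp _, gp _, fun k p hp => ?_,
      fun k k' h => IV.grp_disjoint _ fun e => h (Fin.castSucc_injective _ (g3 e)),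
      fun k => IV.grp_disjoint _ fun e => (Fin.castSucc_lt_last k).ne (g3 e), fun k => gb _, gb _,
      ?_, fun u hu => ?_⟩, fun k => (g4 _).2.2.2.trans ?_⟩
  · obtain ⟨p1, p2, p3⟩ := gp _ p hp
    exact av p p1 (r8 p (V.mem_PP.2 ⟨p1, hy ▸ p2, y2 ▸ p3⟩))
  · rw [← Fin.prod_const]
    exact prod_le_prod' fun k _ => hy ▸ two_pow_mono (by gcongr; exact (g4 _).1)
  · have hu := fun k => V.mem_PP.1 (Fintype.mem_piFinset.1 hu k)
    refine ⟨prod_le_prod' fun k _ => (hu k).2.1.le,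
      (prod_le_prod' fun k _ => (hu k).2.2).trans ?_⟩
    simp only [mul_add, mul_one, pow_add, prod_mul_distrib, Fin.prod_const, ← pow_mul]
    rw [mul_comm]
    gcongr
    exact hy ▸ two_pow_mono (by gcongr; omega)
  · have s0 : 0 < √(L : ℝ) := Real.sqrt_pos.2 (by linarith)
    have s1 : √(L : ℝ) ≤ L := Real.sqrt_le_self_iff.2 (Or.inr (by linarith))
    have s2 : 1 / (L : ℝ) ≤ 1 / √L := one_div_le_one_div_of_le s0 s1
    have s3 : 1 / (Pm : ℝ) ≤ 1 / √L := one_div_le_one_div_of_le s0 (by nlinarith)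
    have s4 : 1 / √((L / 3 : ℕ) : ℝ) ≤ 2 * (1 / √L) := by
      have h1 : (L : ℝ) ≤ 4 * ((L / 3 : ℕ) : ℝ) := by exact_mod_cast (by omega : L ≤ 4 * (L / 3))
      have h2 : √(L : ℝ) ≤ 2 * √((L / 3 : ℕ) : ℝ) := by
        rw [Real.sqrt_le_left (by positivity), mul_pow, Real.sq_sqrt (by positivity)]; linarith
      rw [mul_one_div, div_le_div_iff₀ (by linarith) s0]
      linarith
    have s5 : Real.log Pm ≤ 1 / √L * M := by
      rw [one_div_mul_eq_div, le_div_iff₀ s0]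
      nlinarith [Real.log_nonneg Pm1]
    have s6 : (1 / (L : ℝ) + 1 / √((L / 3 : ℕ) : ℝ) + 1 / Pm) * LL (bl Y) (bl (Y * Real.exp M)) ≤
        4 * (1 / √L) * (3 * M) := mul_le_mul (by linarith) hL3 hL0 (by positivity)
    have s7 : 0 ≤ 1 / √(L : ℝ) * M := mul_nonneg (by positivity) (by linarith)
    have s8 : 40000 / √(L : ℝ) * M = 40000 * (1 / √L * M) := by ring
    linarith

end Pool.Agent.P.MP_a14ce1_nt.Fu.Loc
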