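import Pool.Agent.P.MP_a14ce1_nt.Fu.PL
import Pool.Agent.P.MP_a14ce1_nt.Fu.SB2

/-! The natural law of the prime divisors, its size-biased versions, and the law of the extras. -/

open Finset

namespace Pool.Agent.P.MP_a14ce1_nt.Fu.PL

open Pool.Agent.P.MP_a14ce1_nt.Ch Pool.Agent.P.MP_a14ce1_nt.Fu.Maj Pool.Agent.P.MP_a14ce1_nt.Fu.SB

variable {G : Finset ℕ} {B : ℕ → ℝ}

/-- natural probabilities -/
noncomputable def kN (p : ℕ) : ℝ := 1 / p

theorem mu_eq (G A : Finset ℕ) : mu G A = pS kN G A := rfl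

theorem sum_mu_eq (G : Finset ℕ) (φ : Finset ℕ → ℝ) :
    ∑ A ∈ G.powerset, mu G A * φ A = Ep kN G φ := rfl

theorem pr_kN (G : Finset ℕ) : Pr kN G := by
  intro p _
  unfold kN
  refine ⟨by positivity, ?_⟩
  rcases Nat.eq_zero_or_pos p with rfl | h
  · simp
  · rw [div_le_one (by exact_mod_cast h)]; exact_mod_cast h

theorem sum_kN (G : Finset ℕ) : ∑ p ∈ G, kN p = rs G := rfl

theorem prod_kN (g : Finset ℕ) : ∏ p ∈ g, kN p = 1 / pv g := by
  unfold kN pv
  rw [prod_div_distrib, prod_const_one, Nat.cast_prod]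

/-- positive integers with nonnegative weights -/
def Wt (B : ℕ → ℝ) (G : Finset ℕ) : Prop := ∀ p ∈ G, 1 ≤ p ∧ 0 ≤ B p

theorem Wt.mono (h : Wt B G) {H : Finset ℕ} (hH : H ⊆ G) : Wt B H := fun p hp => h p (hH hp)

theorem Wt.pos (h : Wt B G) {p : ℕ} (hp : p ∈ G) : (1 : ℝ) ≤ p ∧ 0 ≤ B p :=
  ⟨by exact_mod_cast (h p hp).1, (h p hp).2⟩

theorem Wt.of_pop {K c0 l0 l : ℝ} (h : Pop K c0 l0 l G B) : Wt B G :=
  fun p hp => ⟨(h.prime p hp).one_le, by linarith [h.B3 p hp]⟩

theorem one_le_Zb (h : Wt B G) : 1 ≤ Zb B G :=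
  one_le_prod fun p hp => by
    obtain ⟨a1, a2⟩ := h.pos hp
    have : 0 ≤ B p / p := by positivity
    linarith

theorem Zb_le (h : Wt B G) : Zb B G ≤ Real.exp (∑ p ∈ G, B p / p) := by
  rw [Real.exp_sum]
  refine prod_le_prod (fun p hp => ?_) fun p _ => by linarith [Real.add_one_le_exp (B p / p)]
  obtain ⟨a1, a2⟩ := h.pos hp
  positivity

theorem wh_nonneg (h : Wt B G) {g : Finset ℕ} (hg : g ⊆ G) : 0 ≤ wh B G g :=
  div_nonneg (prod_nonneg fun p hp => (h p (hg hp)).2) (by linarith [one_le_Zb h])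

theorem Vb_pos (h : Wt B G) {A : Finset ℕ} (hA : A ⊆ G) : 0 < Vb B G A :=
  div_pos (prod_pos fun p hp => by linarith [(h p (hA hp)).2]) (by linarith [one_le_Zb h])

theorem pr_nu (h : Wt B G) : Pr (fun p => B p / (p + B p)) G := fun p hp => by
  obtain ⟨a1, a2⟩ := h.pos hp
  exact ⟨by positivity, by rw [div_le_one (by positivity)]; linarith⟩

theorem pr_V (h : Wt B G) : Pr (fun p => (B p + 1) / (p + B p)) G := fun p hp => by
  obtain ⟨a1, a2⟩ := h.pos hp
  exact ⟨by positivity, by rw [div_le_one (by positivity)]; linarith⟩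

theorem pr_extra (h : Wt B G) : Pr (fun p => 1 / (p + B p)) G := fun p hp => by
  obtain ⟨a1, a2⟩ := h.pos hp
  exact ⟨by positivity, by rw [div_le_one (by positivity)]; linarith⟩

/-- nu is the product law with probabilities B/(p+B) -/
theorem nu_eq (h : Wt B G) {g : Finset ℕ} (hg : g ⊆ G) :
    wh B G g / pv g = pS (fun p => B p / (p + B p)) G g := by
  have e := pS_odds (G := G) (w := fun p => B p / p)
    (fun p hp => by obtain ⟨a1, a2⟩ := h.pos hp; positivity) hg
  have e2 : pS (fun p => B p / p / (1 + B p / p)) G g = pS (fun p => B p / (p + B p)) G g := by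
    have e3 : ∀ p ∈ G, B p / p / (1 + B p / p) = B p / (p + B p) := fun p hp => by
      obtain ⟨a1, a2⟩ := h.pos hp; field_simp
    unfold pS
    congr 1
    · exact prod_congr rfl fun p hp => e3 p (hg hp)
    · exact prod_congr rfl fun p hp => by simp only [e3 p (mem_sdiff.1 hp).1]
  rw [← e2, ← e]
  unfold wh pv Zb
  rw [prod_div_distrib, Nat.cast_prod]; ring

theorem sum_nu_eq (h : Wt B G) (φ : Finset ℕ → ℝ) :
    ∑ g ∈ G.powerset, wh B G g / pv g * φ g = Ep (fun p => B p / (p + B p)) G φ :=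
  sum_congr rfl fun g hg => by rw [nu_eq h (mem_powerset.1 hg)]

/-- the law biased by V is the product law with probabilities (B+1)/(p+B) -/
theorem Ep_V (h : Wt B G) (φ : Finset ℕ → ℝ) :
    (Ep kN G fun A => Vb B G A * φ A) = Ep (fun p => (B p + 1) / (p + B p)) G φ := by
  have e0 : ∀ p ∈ G, 1 + kN p * (B p + 1 - 1) = 1 + B p / p := fun p _ => by unfold kN; ring
  have e := Ep_tilt (κ := kN) (G := G) (z := fun p => B p + 1)
    (fun p hp => by obtain ⟨a1, a2⟩ := h.pos hp; rw [e0 p hp]; positivity) φ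
  have hZ : Zb B G ≠ 0 := by linarith [one_le_Zb h]
  have e1 := Ep_congr_law (G := G) (κ := fun p => kN p * (B p + 1) / (1 + kN p * (B p + 1 - 1)))
    (κ' := fun p => (B p + 1) / (p + B p)) (fun p hp => by
      obtain ⟨a1, a2⟩ := h.pos hp; simp only [e0 p hp]; unfold kN; field_simp) φ
  rw [prod_congr rfl e0, e1] at e
  rw [Ep_congr (ψ := fun A => (∏ p ∈ A, (B p + 1)) * φ A / Zb B G) fun A _ => by unfold Vb; ring,
    Ep_div, e]
  exact mul_div_cancel_left₀ _ hZ

theorem Ep_V_one (h : Wt B G) : Ep kN G (Vb B G) = 1 := by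
  have := Ep_V h fun _ => 1
  simpa only [mul_one, Ep_const] using this

/-- joint law of a sub-object and the population: g has law nu, the extras are natural -/
theorem Ep_joint (h : Wt B G) (φ : Finset ℕ → Finset ℕ → ℝ) :
    (Ep kN G fun A => ∑ g ∈ A.powerset, wh B G g * φ g A) =
      Ep (fun p => B p / (p + B p)) G fun g => Ep kN G fun S => φ g (g ∪ S) := by
  rw [Ep_sub_obj fun g A => wh B G g * φ g A, ← sum_nu_eq h]
  exact sum_congr rfl fun g _ => by rw [Ep_mul, prod_kN]; ring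

theorem Ep_sdiff_two {α : Type*} [DecidableEq α] (κ κ' : α → ℝ) (G : Finset α)
    (φ : Finset α → ℝ) :
    (Ep κ' G fun g => Ep κ G fun S => φ (S \ g)) = Ep (fun p => κ p * (1 - κ' p)) G φ := by
  induction G using Finset.induction_on generalizing φ with
  | empty => simp [Ep_empty]
  | insert a G ha ih =>
    rw [Ep_insert ha, Ep_insert ha, ← ih, ← ih]
    have e1 : (Ep κ' G fun g => Ep κ (insert a G) fun S => φ (S \ insert a g)) =
        Ep κ' G fun g => Ep κ G fun S => φ (S \ g) := by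
      refine Ep_congr fun g hg => ?_
      have e3 : ∀ S ⊆ G, S \ insert a g = S \ g := fun S hS =>
        sdiff_insert_of_notMem (fun c => ha (hS c)) g
      rw [Ep_insert ha, Ep_congr (ψ := fun S => φ (S \ g)) fun S hS => by
          rw [insert_sdiff_insert, e3 S hS],
        Ep_congr (φ := fun S => φ (S \ insert a g)) (ψ := fun S => φ (S \ g)) fun S hS => by
          rw [e3 S hS]]
      ring
    have e2 : (Ep κ' G fun g => Ep κ (insert a G) fun S => φ (S \ g)) =
        κ a * (Ep κ' G fun g => Ep κ G fun S => φ (insert a (S \ g))) +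
          (1 - κ a) * Ep κ' G fun g => Ep κ G fun S => φ (S \ g) := by
      rw [← Ep_mul, ← Ep_mul, ← Ep_add]
      refine Ep_congr fun g hg => ?_
      rw [Ep_insert ha]
      simp only [insert_sdiff_of_notMem _ fun c => ha (hg c)]
    rw [e1, e2]
    ring

/-- the extras A minus g have the product law with probabilities 1/(p+B) -/
theorem Ep_extra (h : Wt B G) (φ : Finset ℕ → ℝ) :
    (Ep kN G fun A => ∑ g ∈ A.powerset, wh B G g * φ (A \ g)) =
      Ep (fun p => 1 / (p + B p)) G φ := by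
  rw [Ep_joint h fun g A => φ (A \ g)]
  simp only [union_sdiff_left]
  rw [Ep_sdiff_two]
  exact Ep_congr_law (fun p hp => by obtain ⟨a1, a2⟩ := h.pos hp; unfold kN; field_simp; ring) _

/-- second moment of V -/
theorem Ep_V_sq_le (h : Wt B G) :
    (Ep kN G fun A => Vb B G A ^ 2) ≤ Real.exp (∑ p ∈ G, B p ^ 2 / p) := by
  have e : (Ep kN G fun A => Vb B G A ^ 2) =
      ∏ p ∈ G, (1 + kN p * ((B p + 1) ^ 2 - 1)) / (1 + B p / p) ^ 2 := by
    rw [Ep_congr (ψ := fun A => (∏ p ∈ A, (B p + 1) ^ 2) / Zb B G ^ 2) fun A _ => by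
      unfold Vb; rw [div_pow, prod_pow], Ep_div, Ep_prod, prod_div_distrib, prod_pow]
    rfl
  rw [e, Real.exp_sum]
  refine prod_le_prod (fun p hp => ?_) fun p hp => ?_
  · obtain ⟨a1, a2⟩ := h.pos hp
    have : 0 ≤ (B p + 1) ^ 2 - 1 := by nlinarith
    unfold kN; positivity
  · obtain ⟨a1, a2⟩ := h.pos hp
    refine le_trans ?_ (Real.add_one_le_exp _)
    rw [div_le_iff₀ (by positivity)]
    have e1 : kN p * ((B p + 1) ^ 2 - 1) = B p ^ 2 / p + 2 * (B p / p) := by unfold kN; ring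
    have b1 : 0 ≤ B p ^ 2 / p := by positivity
    have b2 : 0 ≤ B p / p := by positivity
    rw [e1]
    nlinarith [mul_nonneg b1 b2, mul_nonneg b1 (sq_nonneg (B p / p)), sq_nonneg (B p / p)]

/-- V exceeds t with biased probability at most exp(sum B^2/p)/t -/
theorem V_tail (h : Wt B G) {t : ℝ} (ht : 0 < t) :
    (Ep kN G fun A => if t < Vb B G A then Vb B G A else 0) ≤
      Real.exp (∑ p ∈ G, B p ^ 2 / p) / t :=
  (trunc (pr_kN G) ht).trans (by gcongr; exact Ep_V_sq_le h)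

/-- Markov for the logarithm of the product -/
theorem log_pv_tail {κ : ℕ → ℝ} (hκ : Pr κ G) (hG : ∀ p ∈ G, p.Prime) {t : ℝ} (ht : 0 < t)
    (P : Finset ℕ → Prop) [DecidablePred P] (hP : ∀ S ⊆ G, P S → t ≤ Real.log (pv S)) :
    (Ep κ G fun S => if P S then 1 else 0) ≤ (∑ p ∈ G, κ p * Real.log p) / t :=
  markov_additive hκ (fun p _ => Real.log_natCast_nonneg p) ht P fun S hS c => by
    rw [← log_pv fun p hp => hG p (hS hp)]; exact hP S hS c

/-- Mertens I for a set of primes up to exp y -/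
theorem sum_log_div_le (hG : ∀ p ∈ G, p.Prime) {y : ℝ} (hy : 0 ≤ y)
    (h : ∀ p ∈ G, Real.log p ≤ y) : ∑ p ∈ G, Real.log p / p ≤ y + Cm :=
  mertens_window.choose_spec.2 G 0 y hy fun p hp =>
    ⟨hG p hp, Real.log_natCast_nonneg p, by rw [zero_add]; exact h p hp⟩

/-- weights and normalisations split over disjoint classes -/
theorem Zb_union {H : Finset ℕ} (hd : Disjoint G H) : Zb B (G ∪ H) = Zb B G * Zb B H :=
  prod_union hd

theorem wh_union {H g g' : Finset ℕ} (hd : Disjoint G H) (hg : g ⊆ G) (hg' : g' ⊆ H) :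
    wh B (G ∪ H) (g ∪ g') = wh B G g * wh B H g' := by
  unfold wh
  rw [Zb_union hd, prod_union (Disjoint.mono hg hg' hd), div_mul_div_comm]

theorem Vb_union {H A A' : Finset ℕ} (hd : Disjoint G H) (hA : A ⊆ G) (hA' : A' ⊆ H) :
    Vb B (G ∪ H) (A ∪ A') = Vb B G A * Vb B H A' := by
  unfold Vb
  rw [Zb_union hd, prod_union (Disjoint.mono hA hA' hd), div_mul_div_comm]

end Pool.Agent.P.MP_a14ce1_nt.Fu.PL
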