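import Pool.Agent.P.MP_a14ce1_nt.Fu.BiasC
import Pool.Agent.P.MP_a14ce1_nt.Fu.PL2
import Pool.Agent.P.MP_a14ce1_nt.Fu.St

/-!
The model as a family of progressions: basic facts and MASS.
-/

open Finset

namespace Pool.Agent.P.MP_a14ce1_nt.Fu.St.Bi

open Ch (mu pv lam rs)
open Ch.Main (Tn)

variable {F : Fam} {P : Par}

theorem EG_eq (G : Finset ℕ) (Φ : Finset ℕ → ℝ) : EG G Φ = Em G Φ := rfl

theorem dp_inter {S T : Finset ℕ} (h : S ⊆ T) (n : ℕ) : Tn T n ∩ S = dp S n := by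
  ext q
  simp only [Tn, dp, mem_inter, mem_filter]
  exact ⟨fun c => ⟨c.2, c.1.2⟩, fun c => ⟨⟨h c.1, c.2⟩, c.1⟩⟩

theorem U_sub : F.U ⊆ F.TT := subset_union_left.trans subset_union_left
theorem RR_sub : F.RR ⊆ F.TT := subset_union_right.trans subset_union_left
theorem HH_sub : F.HH ⊆ F.TT := subset_union_right

/-- the weight as a function of the set of the upper primes -/
noncomputable def Ws (F : Fam) (p : ℕ) (A : Finset ℕ) : ℝ :=
  F.wk (A ∩ F.U) * F.ka p (A ∩ F.RR) * F.ze (A ∩ F.HH)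

theorem W_eq (p n : ℕ) : F.W p n = Ws F p (Tn F.TT n) := by
  rw [Ws, dp_inter U_sub, dp_inter RR_sub, dp_inter HH_sub, Fam.W]

theorem Em_three (h : Hyp0 F P) (a b c : Finset ℕ → ℝ) :
    Em F.TT (fun A => a (A ∩ F.U) * b (A ∩ F.RR) * c (A ∩ F.HH)) =
      Em F.U a * Em F.RR b * Em F.HH c := by
  rw [← Em_mul_inter h.dUR, ← Em_mul_inter (disjoint_union_left.2 ⟨h.dUH, h.dRH⟩)]
  refine Em_congr fun A _ => ?_
  simp only [inter_assoc, union_inter_cancel_left, union_inter_cancel_right]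

theorem one_sub_le (S : Finset ℕ) : 1 - rs S ≤ ∏ q ∈ S, (1 - (1 : ℝ) / q) := by
  induction S using Finset.induction_on with
  | empty => simp [rs]
  | insert a S ha ih =>
    have h1 : 0 ≤ (1 : ℝ) / a ∧ (1 : ℝ) / a ≤ 1 := PL.pr_kN {a} a (mem_singleton_self a)
    have h2 := Ch.rs_nonneg S
    rw [prod_insert ha, rs, sum_insert ha, ← rs]
    nlinarith [mul_le_mul_of_nonneg_left ih (sub_nonneg.2 h1.2), mul_nonneg h1.1 h2]

theorem half_le (h : Hyp0 F P) (p : ℕ) : 1 / 2 ≤ ∏ q ∈ F.RR.erase p, (1 - (1 : ℝ) / q) := by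
  have h1 : rs (F.RR.erase p) ≤ rs F.RR :=
    sum_le_sum_of_subset_of_nonneg (erase_subset _ _) fun _ _ _ => by positivity
  have h2 : rs F.RR ≤ 1 / 2 := h.LL1
  linarith [one_sub_le (F.RR.erase p)]

theorem ka_nonneg (h : Hyp0 F P) (p : ℕ) (A : Finset ℕ) : 0 ≤ F.ka p A := by
  have := half_le h p
  unfold Fam.ka; split_ifs
  · positivity
  · rfl

theorem ka_le (h : Hyp0 F P) (p : ℕ) (A : Finset ℕ) : F.ka p A ≤ 2 := by
  have := half_le h p
  unfold Fam.ka; split_ifs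
  · rw [div_le_iff₀ (by positivity)]; linarith
  · norm_num

theorem ka_erase (p : ℕ) (A : Finset ℕ) : F.ka p (A.erase p) = F.ka p A := by
  have : A.erase p ⊆ {p} ↔ A ⊆ {p} := ⟨fun c q hq => by
    by_cases e : q = p
    · exact mem_singleton.2 e
    · exact c (mem_erase.2 ⟨e, hq⟩), fun c => (erase_subset _ _).trans c⟩
  simp only [Fam.ka, this]

theorem Em_ka (h : Hyp0 F P) (p : ℕ) : Em F.RR (F.ka p) = 1 := by
  have h1 := half_le h p
  rw [← Em_erase (ka_erase p), Em_congr (ψ := fun A => (if A = ∅ then 1 else 0) /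
    ∏ q ∈ F.RR.erase p, (1 - (1 : ℝ) / q)) fun A hA => ?_, Em_div]
  · have : Em (F.RR.erase p) (fun A => if A = ∅ then 1 else 0) = _ := PL.prob_empty (κ := PL.kN)
    rw [this]
    exact div_self (by simp only [PL.kN]; positivity)
  · have : A ⊆ {p} ↔ A = ∅ := ⟨fun c => eq_empty_of_forall_notMem fun q hq =>
      ne_of_mem_erase (hA hq) (mem_singleton.1 (c hq)), fun c => c ▸ empty_subset _⟩
    simp only [Fam.ka, this]
    split_ifs <;> simp

theorem two_le (h : Hyp0 F P) : 2 ≤ P.Λ := le_trans (by exact_mod_cast h.k2) h.Lk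

theorem Ws_nonneg (h : Hyp0 F P) (p : ℕ) (A : Finset ℕ) : 0 ≤ Ws F p A :=
  mul_nonneg (mul_nonneg (h.wk0 _) (ka_nonneg h _ _)) (h.ze0 _)

theorem Ws_le (h : Hyp0 F P) (p : ℕ) (A : Finset ℕ) : Ws F p A ≤ P.Λ ^ 3 := by
  have h2 := two_le h
  calc Ws F p A ≤ P.Λ * P.Λ * P.Λ :=
        mul_le_mul (mul_le_mul (h.wkL _) ((ka_le h _ _).trans h2) (ka_nonneg h _ _) (by linarith))
          (h.zeL _) (h.ze0 _) (by positivity)
    _ = _ := by ring

theorem Ws_erase (h : Hyp0 F P) {p : ℕ} (hp : p ∈ F.RR) (A : Finset ℕ) :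
    Ws F p (A.erase p) = Ws F p A := by
  have e : ∀ S : Finset ℕ, p ∉ S → A.erase p ∩ S = A ∩ S := fun S hS => by
    rw [erase_inter, erase_eq_of_notMem fun c => hS (mem_inter.1 c).2]
  rw [Ws, e _ fun c => disjoint_left.1 h.dUR c hp, e _ (disjoint_left.1 h.dRH hp), erase_inter,
    ka_erase, Ws]

theorem Em_Ws (h : Hyp0 F P) (p : ℕ) : Em F.TT (Ws F p) = EG F.U F.wk := by
  have := Em_three h F.wk (F.ka p) F.ze
  rw [Em_ka h, ← EG_eq F.HH, h.Eze, mul_one, mul_one] at this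
  exact this

theorem Ewk_le (h : Hyp0 F P) : EG F.U F.wk ≤ 1 := (Em_mono fun A _ => h.wkv A).trans h.Evk

theorem ZG_pos (h : Hyp0 F P) (t : ℕ) : 0 < F.ZG t := prod_pos fun q _ => by
  have := h.B1 t
  positivity

theorem ZR_nonneg (t : ℕ) : 0 ≤ F.ZR t := sum_nonneg fun _ _ => by positivity

theorem w_nonneg (h : Hyp0 F P) (c : Finset ℕ) : 0 ≤ F.w c := by
  unfold Fam.w Fam.wh
  refine prod_nonneg fun t _ => ?_
  have := h.B1 t
  have := ZG_pos h t
  have := ZR_nonneg (F := F) t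
  unfold Fam.wl Fam.wG Fam.wR
  split_ifs <;> positivity

theorem D_pos (h : Hyp0 F P) : 0 < F.D := by
  have : (0 : ℝ) < F.k := by have := h.k2; positivity
  exact lt_of_lt_of_le (by positivity) h.Dbig

theorem D_ge (h : Hyp0 F P) : 1 ≤ F.D := by
  have h1 : (2 : ℝ) ≤ F.k := by exact_mod_cast h.k2
  have h2 : 1 ≤ Real.exp (2 * P.Lp) := Real.one_le_exp (by linarith [h.Lp1])
  nlinarith [h.Dbig]

theorem k_le_N (h : Hyp0 F P) : (F.k : ℝ) ≤ F.N := by
  have h1 : (2 : ℝ) ≤ F.k := by exact_mod_cast h.k2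
  nlinarith [h.Nlo, D_ge h]

theorem N_pos (h : Hyp0 F P) : 0 < F.N := by
  have h1 : (2 : ℝ) ≤ F.k := by exact_mod_cast h.k2
  have : (0 : ℝ) < F.N := by linarith [k_le_N h]
  exact_mod_cast this

theorem LL_pos (h : Hyp0 F P) : 0 < F.LL := by
  by_contra c
  nlinarith [h.LL2, two_le h]

theorem eps_le (h : Hyp0 F P) : F.ε ≤ 1 / 4 := by
  have h1 : (2 : ℝ) ≤ F.k := by exact_mod_cast h.k2
  nlinarith [h.e1, h.e0]

/-- a progression in the window covers at most half of the sites -/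
theorem win_half (h : Hyp0 F P) {d : ℕ} (hd : F.win d) : 2 * ((F.k - 1) * d) ≤ F.N := by
  have h1 : 1 ≤ F.k := le_trans one_le_two h.k2
  have h2 : ((2 * ((F.k - 1) * d) : ℕ) : ℝ) ≤ F.N := by
    push_cast [h1]
    have h3 : (1 : ℝ) ≤ F.k := by exact_mod_cast h1
    have h4 := mul_le_mul_of_nonneg_left hd.2.le (sub_nonneg.2 h3)
    have h5 := D_pos h
    nlinarith [h.Nlo, mul_le_mul_of_nonneg_right h.e1 h5.le, mul_pos h.e0 h5]
  exact_mod_cast h2

theorem win_k (h : Hyp0 F P) {d : ℕ} (hd : F.win d) : F.k * d ≤ F.N := by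
  have h2 : ((F.k * d : ℕ) : ℝ) ≤ F.N := by
    push_cast
    have h4 := mul_le_mul_of_nonneg_left hd.2.le (Nat.cast_nonneg (α := ℝ) F.k)
    have h5 := D_pos h
    have h1 : (2 : ℝ) ≤ F.k := by exact_mod_cast h.k2
    nlinarith [h.Nlo, mul_le_mul_of_nonneg_right h.e1 h5.le]
  exact_mod_cast h2

theorem Ms_pos {C : ℕ} (h : Hyp F P C) : 0 < P.Ms := by
  have h1 : (1 : ℝ) ≤ F.N := by exact_mod_cast N_pos h.toHyp0
  have := Real.log_nonneg h1
  have := two_le h.toHyp0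
  exact lt_of_lt_of_le (by positivity) h.ind

/-- the error of IND is negligible -/
theorem tau_small {C : ℕ} (h : Hyp F P C) (hC : 8 ≤ C) :
    3 * ((P.Λ ^ 3) ^ F.k * tauI F.k F.N P.Ms) ≤ P.η := by
  have h2 := two_le h.toHyp0
  have h1 : (1 : ℝ) ≤ F.N := by exact_mod_cast N_pos h.toHyp0
  have l0 := Real.log_nonneg h1
  have M0 := Ms_pos h
  have L1 : 1 ≤ P.Λ := by linarith
  have a1 : P.Λ ^ (3 * F.k + 7) ≤ P.Λ ^ (C * F.k) :=
    pow_le_pow_right₀ L1 (by nlinarith [h.k2])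
  have a2 : (F.k : ℝ) ^ 3 ≤ P.Λ ^ 3 := pow_le_pow_left₀ (Nat.cast_nonneg _) h.Lk 3
  have a3 : (6 : ℝ) ≤ P.Λ ^ 3 := le_trans (by norm_num) (pow_le_pow_left₀ (by norm_num) h2 3)
  have a4 : 6 * (F.k : ℝ) ^ 3 ≤ P.Λ ^ 3 * P.Λ ^ 3 * (P.Λ * P.η) :=
    (mul_le_mul a3 a2 (by positivity) (by positivity)).trans
      (le_mul_of_one_le_right (by positivity) h.Lη)
  rw [tauI, ← pow_mul, ← mul_div_assoc, ← mul_div_assoc, div_le_iff₀ M0]
  calc _ = 6 * (F.k : ℝ) ^ 3 * (P.Λ ^ (3 * F.k) * (1 + Real.log F.N)) := by ring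
    _ ≤ P.Λ ^ 3 * P.Λ ^ 3 * (P.Λ * P.η) * (P.Λ ^ (3 * F.k) * (1 + Real.log F.N)) := by gcongr
    _ = P.η * (P.Λ ^ (3 * F.k + 7) * (1 + Real.log F.N)) := by ring
    _ ≤ P.η * P.Ms := mul_le_mul_of_nonneg_left
        ((mul_le_mul_of_nonneg_right a1 (by positivity)).trans h.ind) h.η0.le

/-- the primes in the window of `c` -/
noncomputable def PS (F : Fam) (c : Finset ℕ) : Finset ℕ := F.RR.filter fun p => F.win (pv c * p)

/-- the starting points -/
def II (F : Fam) (c : Finset ℕ) (p : ℕ) : Finset ℕ :=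
  (range F.N).filter fun a => a + (F.k - 1) * (pv c * p) < F.N

theorem pv_all (h : Hyp0 F P) : pv F.all = pv F.Lo * pv F.TT := prod_union h.dLo

theorem prog {C : ℕ} (h : Hyp F P C) {Z : ℕ} (hZ : 0 < Z) (hd : pv F.all ∣ Z) :
    Prog F.k F.N Z F.Lo F.TT F.Lo.powerset (PS F) (fun c _ => F.w c / (F.LL * F.N * F.Pw))
      (Ws F) (P.Λ ^ 3) P.Ms where
  pL q hq := h.pr q (mem_union_left _ hq)
  pH q hq := h.pr q (mem_union_right _ hq)
  dis := h.dLo
  M0 := Ms_pos h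
  big := h.TMs
  cs _ hc := mem_powerset.1 hc
  ps _ _ := (filter_subset _ _).trans RR_sub
  v0 c _ _ _ := by
    have := w_nonneg h.toHyp0 c
    have := LL_pos h.toHyp0
    have := h.Pw0
    positivity
  W0 p A _ := Ws_nonneg h.toHyp0 p A
  W1 p A _ := Ws_le h.toHyp0 p A
  Wp _ _ _ hp := Ws_erase h.toHyp0 (mem_filter.1 hp).1
  mean _ _ p _ := (Em_Ws h.toHyp0 p).trans_le (Ewk_le h.toHyp0)
  N0 := N_pos h.toHyp0
  Y0 := hZ
  dvd := pv_all h.toHyp0 ▸ hd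

theorem sum_eq (n : ℕ) (g : ℕ → Finset ℕ → ℕ → ℝ) :
    (∑ a ∈ range F.N, ∑ c ∈ F.Lo.powerset, ∑ p ∈ F.RR,
      if pv c * p ∣ n + a ∧ F.win (pv c * p) ∧ a + (F.k - 1) * (pv c * p) < F.N then g a c p
      else 0) = ∑ c ∈ F.Lo.powerset, ∑ p ∈ PS F c, ∑ a ∈ II F c p,
        if pv c * p ∣ n + a then g a c p else 0 := by
  rw [sum_comm]
  refine sum_congr rfl fun c _ => ?_
  rw [sum_comm, PS, sum_filter]
  refine sum_congr rfl fun p _ => ?_
  rw [II, sum_filter]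
  split_ifs with h1
  · refine sum_congr rfl fun a _ => ?_
    by_cases h2 : a + (F.k - 1) * (pv c * p) < F.N <;> simp [h1, h2]
  · simp [h1]

theorem rs_PS (h : Hyp0 F P) {c : Finset ℕ} (hc : c ⊆ F.Lo) :
    rs (PS F c) ≤ 4 * (F.LL * F.Pw) := by
  have c0 : (0 : ℝ) < pv c := by
    exact_mod_cast Ch.Main.pv_pos fun q hq => h.pr q (mem_union_left _ (hc hq))
  refine le_of_eq_of_le (congrArg rs (filter_congr fun p _ => ?_)) (h.win1 (F.D / pv c))
  rw [Fam.win, div_le_iff₀ c0, ← mul_div_assoc, lt_div_iff₀ c0, Nat.cast_mul, mul_comm (p : ℝ)]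

/-- MASS -/
theorem mass {C : ℕ} (h : Hyp F P C) (hC : 8 ≤ C) {Z : ℕ} (hZ : 0 < Z) (hd : pv F.all ∣ Z)
    (i0 : ℕ) (Φ : Finset ℕ → Finset ℕ → ℝ) (hΦ : ∀ c, ∀ T ⊆ F.Lo, 0 ≤ Φ c T) :
    (ex fun n : Fin Z => ∑ a ∈ range F.N, ∑ c ∈ F.Lo.powerset, ∑ p ∈ F.RR,
      if pv c * p ∣ n + a ∧ F.win (pv c * p) ∧ a + (F.k - 1) * (pv c * p) < F.N then
        F.w c / (F.LL * F.N * F.Pw) * Φ c (dp F.Lo (n + (a + i0 * (pv c * p)))) *
          ∏ i ∈ range F.k, F.W p (n + (a + i * (pv c * p)))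
      else 0) ≤ 8 * EG F.Lo fun T => ∑ c ∈ T.powerset, F.w c * Φ c T := by
  have h0 := h.toHyp0
  have l0 := LL_pos h0
  have p0 := h.Pw0
  have N0 : (0 : ℝ) < F.N := by exact_mod_cast N_pos h0
  have k := (prog h hZ hd).mass i0 (fun c _ p hp => win_k h0 (mem_filter.1 hp).2)
    (by have := tau_small h hC; have := h.η1; linarith) (wc := fun c => 4 * F.w c)
    (fun c => by have := w_nonneg h0 c; positivity)
    (fun c hc => by
      have a1 := rs_PS h0 (mem_powerset.1 hc)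
      have a2 : F.N * ∑ p ∈ PS F c, F.w c / (F.LL * F.N * F.Pw) / p =
          F.w c * (rs (PS F c) / (F.LL * F.Pw)) := by
        rw [rs, sum_div, mul_sum, mul_sum]
        exact sum_congr rfl fun p _ => by field_simp
      rw [a2, mul_comm 4]
      exact mul_le_mul_of_nonneg_left ((div_le_iff₀ (by positivity)).2 a1) (w_nonneg h0 c))
    (II F) (fun c p => (card_filter_le _ _).trans (card_range _).le) Φ hΦ
  refine le_of_eq_of_le (ex_congr fun n => ?_) (k.trans (le_of_eq ?_))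
  · rw [sum_eq]
    refine sum_congr rfl fun c _ => sum_congr rfl fun p _ => sum_congr rfl fun a _ => ?_
    simp only [W_eq, add_assoc]
    split_ifs
    · exact mul_assoc _ _ _
    · simp
  · rw [Et, EG_eq, ← Em_mul, ← Em_mul]
    refine Em_congr fun A _ => ?_
    rw [mul_sum, mul_sum]
    exact sum_congr rfl fun c _ => by ring

open Classical in
/-- MASS for an event -/
theorem mass_Pn {C : ℕ} (h : Hyp F P C) (hC : 8 ≤ C) {Z : ℕ} (hZ : 0 < Z) (hd : pv F.all ∣ Z)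
    (i0 : ℕ) (E : Finset ℕ → Finset ℕ → Prop) :
    (ex fun n : Fin Z => ∑ a ∈ range F.N, ∑ c ∈ F.Lo.powerset, ∑ p ∈ F.RR,
      if pv c * p ∣ n + a ∧ F.win (pv c * p) ∧ a + (F.k - 1) * (pv c * p) < F.N then
        F.w c / (F.LL * F.N * F.Pw) *
          (if E c (dp F.Lo (n + (a + i0 * (pv c * p)))) then 1 else 0) *
          ∏ i ∈ range F.k, F.W p (n + (a + i * (pv c * p)))
      else 0) ≤ 8 * F.Pn E := by
  have := mass h hC hZ hd i0 (fun c T => if E c T then 1 else 0) fun c T _ => by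
    split_ifs <;> norm_num
  simpa only [mul_ite, mul_one, mul_zero, Fam.Pn] using this

end Pool.Agent.P.MP_a14ce1_nt.Fu.St.Bi
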