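import Pool.Agent.P.MP_a14ce1_nt.Fu.PaAs0
import Pool.Agent.P.MP_a14ce1_nt.Fu.PaSig

/-! The chain of families. -/

namespace Pool.Agent.P.MP_a14ce1_nt.Fu.Pa

theorem chain : S_Chain := fun _ _ _ h => h.chain_of fun _ hj =>
  ⟨h.m01' hj, h.m02' hj, h.path' hj, h.σn' hj, h.σ0' hj, h.σs' hj, h.pin' hj, h.hid' hj,
    h.hidt' hj, h.test' hj, h.test7' hj⟩

end Pool.Agent.P.MP_a14ce1_nt.Fu.Pa
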