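import Pool.Agent.P.MP_a14ce1_nt.Fu.PaB

/-! The number of the extra primes of the level 0. -/

open Finset

namespace Pool.Agent.P.MP_a14ce1_nt.Fu.St

open Ch (pv mu rs lam)

theorem Em_pow_card (P : Finset ℕ) (x : ℝ) :
    Em P (fun B => x ^ B.card) = ∏ q ∈ P, (x / q + (1 - 1 / q)) := by
  rw [prod_add, Em]
  refine sum_congr rfl fun B _ => ?_
  rw [mu, ← prod_const, mul_right_comm, ← prod_mul_distrib]
  congr 1
  exact prod_congr rfl fun q _ => by ring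

/-- the generating function of the number of the extra primes -/
theorem Et_extra {G : Finset ℕ} (hG : ∀ q ∈ G, q.Prime) {B : ℝ} (hB : 0 ≤ B) :
    Et G (fun c => B ^ c.card / ∏ q ∈ G, (1 + B / q)) (fun c A => (1 / 2 : ℝ) ^ (A \ c).card)
      ≤ Real.exp (-(∑ q ∈ G, 1 / (q + B)) / 2) := by
  have e1 : ∀ c ∈ G.powerset, B ^ c.card / (∏ q ∈ G, (1 + B / q)) / pv c *
      Em (G \ c) (fun A => (1 / 2 : ℝ) ^ ((c ∪ A) \ c).card) =
      ((∏ q ∈ c, B / q) * ∏ q ∈ G \ c, ((1 / 2 : ℝ) / q + (1 - 1 / q))) /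
        ∏ q ∈ G, (1 + B / q) := by
    intro c _
    rw [← Em_pow_card, Em_congr (ψ := fun A => (1 / 2 : ℝ) ^ A.card) fun A hA => by
      rw [union_sdiff_cancel_left (disjoint_sdiff.mono_right hA)]]
    rw [prod_div_distrib, prod_const, pv, Nat.cast_prod]
    ring
  rw [Et_eq, sum_congr rfl e1, ← sum_div, ← prod_add, ← prod_div_distrib, neg_div, sum_div,
    ← sum_neg_distrib, Real.exp_sum]
  refine prod_le_prod (fun q hq => ?_) fun q hq => ?_
  · have h2 : (2 : ℝ) ≤ q := by exact_mod_cast (hG q hq).two_le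
    have : (1 : ℝ) / q ≤ 1 := by rw [div_le_one (by linarith)]; linarith
    have : 0 ≤ 1 - (1 : ℝ) / q := by linarith
    positivity
  · have h2 : (2 : ℝ) ≤ q := by exact_mod_cast (hG q hq).two_le
    refine le_trans (le_of_eq ?_) (Real.add_one_le_exp _)
    field_simp
    ring

theorem sum_inv_mul_le {G : Finset ℕ} (hG : ∀ q ∈ G, q.Prime) :
    ∑ q ∈ G, (1 : ℝ) / (q * (q + 1)) ≤ 1 := by
  have h1 : ∀ n : ℕ, ∑ q ∈ Icc 1 n, (1 : ℝ) / (q * (q + 1)) = 1 - 1 / (n + 1) := by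
    intro n
    induction n with
    | zero => simp
    | succ n ih =>
      rw [sum_Icc_succ_top (by omega), ih]
      push_cast
      field_simp
      ring
  have h2 : G ⊆ Icc 1 (G.sup id) := fun q hq =>
    mem_Icc.2 ⟨(hG q hq).one_le, le_sup (f := id) hq⟩
  refine (sum_le_sum_of_subset_of_nonneg h2 fun _ _ _ => by positivity).trans ?_
  rw [h1]
  have : (0 : ℝ) ≤ 1 / ((G.sup id : ℕ) + 1) := by positivity
  linarith

theorem rs_sub_le {G : Finset ℕ} (hG : ∀ q ∈ G, q.Prime) {B : ℝ} (hB : 1 ≤ B) :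
    rs G - B ≤ ∑ q ∈ G, 1 / (q + B) := by
  have h1 : rs G ≤ ∑ q ∈ G, (1 / (q + B) + B * (1 / (q * (q + 1)))) := by
    refine sum_le_sum fun q hq => ?_
    have h2 : (2 : ℝ) ≤ q := by exact_mod_cast (hG q hq).two_le
    have e : (1 : ℝ) / q = 1 / (q + B) + B * (1 / (q * (q + B))) := by
      field_simp
    rw [e]
    gcongr
  rw [sum_add_distrib, ← mul_sum] at h1
  have := mul_le_mul_of_nonneg_left (sum_inv_mul_le hG) (zero_le_one.trans hB)
  linarith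

/-- few extra primes at the level 0 -/
theorem Lev.ext {F : Fam} (h : Lev F) (hR : F.R 0 = ∅) (hr : F.r 0 = 0) (y : ℝ) :
    F.Pn (fun c T => F.Vl 0 T < Real.exp (y * Real.log (F.B 0 + 1)) * F.wl 0 c) ≤
      Real.exp (y * Real.log 2 - (rs (F.G 0) - F.B 0) / 2) := by
  classical
  have hB := h.B1 0
  have hcl : F.cl 0 = F.G 0 := by rw [Fam.cl, hR, union_empty]
  have hG : ∀ q ∈ F.G 0, q.Prime := fun q hq => h.pr 0 (Nat.zero_le _) q (hcl ▸ hq)
  have hL : F.Lv 0 1 = F.G 0 := by rw [F.Lv_succ le_rfl, F.Lv_self, empty_union, hcl]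
  have hZ : F.ZR 0 = 1 := by simp [Fam.ZR, hR, hr, pv]
  have hwl : ∀ c, F.wl 0 c = F.B 0 ^ (c ∩ F.G 0).card / F.ZG 0 := fun c => by
    simp [Fam.wl, Fam.wR, Fam.wG, hZ, hR, hr]
  have hVl : ∀ c, F.Vl 0 c = (F.B 0 + 1) ^ (c ∩ F.G 0).card / F.ZG 0 := fun c => by
    simp [Fam.Vl, Fam.VR, Fam.VG, hZ, hR, hr]
  have step1 : F.Pn (fun c T => F.Vl 0 T < Real.exp (y * Real.log (F.B 0 + 1)) * F.wl 0 c) ≤
      Et F.Lo F.w fun c A => Real.exp (y * Real.log 2) *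
        (1 / 2 : ℝ) ^ ((A ∩ F.Lv 0 1) \ (c ∩ F.Lv 0 1)).card := by
    refine Em_mono fun A _ => sum_le_sum fun c hc => ?_
    have w0 := h.w_nonneg c
    split_ifs with hE
    · refine le_mul_of_one_le_right w0 ?_
      beta_reduce at hE ⊢
      rw [hL]
      have hs : c ∩ F.G 0 ⊆ A ∩ F.G 0 := inter_subset_inter_right (mem_powerset.1 hc)
      set e := ((A ∩ F.G 0) \ (c ∩ F.G 0)).card with he
      have hcard : (A ∩ F.G 0).card = e + (c ∩ F.G 0).card := (card_sdiff_add_card_eq_card hs).symm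
      rw [hVl, hwl, ← mul_div_assoc, div_lt_div_iff_of_pos_right (h.ZG_pos 0), hcard, pow_add] at hE
      have h1 : F.B 0 ^ (c ∩ F.G 0).card ≤ (F.B 0 + 1) ^ (c ∩ F.G 0).card :=
        pow_le_pow_left₀ (by linarith) (by linarith) _
      have h2 : (F.B 0 + 1) ^ e < Real.exp (y * Real.log (F.B 0 + 1)) :=
        lt_of_mul_lt_mul_right (hE.trans_le (mul_le_mul_of_nonneg_left h1 (Real.exp_pos _).le))
          (by positivity)
      have h3 : (F.B 0 + 1) ^ e = Real.exp (e * Real.log (F.B 0 + 1)) := by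
        rw [Real.exp_nat_mul, Real.exp_log (by linarith)]
      rw [h3, Real.exp_lt_exp] at h2
      have h4 : (e : ℝ) < y := lt_of_mul_lt_mul_right h2 (Real.log_nonneg (by linarith))
      have h5 : (1 / 2 : ℝ) ^ e = Real.exp (-(e * Real.log 2)) := by
        rw [Real.exp_neg, Real.exp_nat_mul, Real.exp_log two_pos, one_div, inv_pow]
      rw [h5, ← Real.exp_add]
      refine Real.one_le_exp ?_
      have := mul_le_mul_of_nonneg_right h4.le (Real.log_nonneg (one_le_two (α := ℝ)))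
      linarith
    · positivity
  have step2 : (Et F.Lo F.w fun c A => (1 / 2 : ℝ) ^ ((A ∩ F.Lv 0 1) \ (c ∩ F.Lv 0 1)).card) =
      Et (F.G 0) (fun c => F.B 0 ^ c.card / ∏ q ∈ F.G 0, (1 + F.B 0 / q))
        fun c A => (1 / 2 : ℝ) ^ (A \ c).card := by
    have e1 : F.Lo = F.Lv 0 1 ∪ F.Lv 1 (F.m + 1) := F.Lv_split (Nat.zero_le _) (by omega)
    have e2 : F.w = wm (F.Lv 0 1) (F.Lv 1 (F.m + 1)) (F.wh 0 1) (F.wh 1 (F.m + 1)) :=
      Hyp0.wh_eq_wm (Nat.zero_le _) (by omega)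
    rw [e1, e2, Et_wm_left (h.dLv le_rfl le_rfl) (h.nrm_wh (by omega) le_rfl)
      fun c A => (1 / 2 : ℝ) ^ (A \ c).card, hL]
    refine Et_congr_w fun c hc => ?_
    rw [F.wh_succ le_rfl, hwl, inter_eq_left.2 hc]
    simp [Fam.wh, Fam.ZG]
  rw [Et_mul, step2] at step1
  refine step1.trans ((mul_le_mul_of_nonneg_left (Et_extra hG (by linarith))
    (Real.exp_pos _).le).trans ?_)
  rw [← Real.exp_add, Real.exp_le_exp]
  have := rs_sub_le hG hB
  linarith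

end Pool.Agent.P.MP_a14ce1_nt.Fu.St

namespace Pool.Agent.P.MP_a14ce1_nt.Fu.Pa

open Ch (pv mu rs pr)
open St

theorem NuOk.ext_of_lev {ν : Nu} {C C2 j : ℕ} (h : NuOk ν C C2) (hl : Lev (ν.fam j)) :
    (ν.fam j).Pn (fun c T => (ν.fam j).Vl 0 T < (ν.par C j).Δ * (ν.fam j).wl 0 c) ≤
      (ν.par C j).η := by
  have hB : (ν.fam j).B 0 = ν.B0 := rfl
  have hG : (ν.fam j).G 0 = pe 0 ν.lG := rfl
  have h1 := hl.ext rfl h.r0 (Real.log ν.lG / 2)
  rw [hB, hG] at h1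
  refine h1.trans ?_
  have hlG : 1 ≤ ν.lG := one_le_mul_of_one_le_of_one_le h.eL1 (h.l1 0)
  have h2 := (abs_le.1 (h.mert.m0 ν.lG hlG)).1
  have h3 := h.ext
  have h4 : Real.log 2 ≤ 3 / 4 := by linarith [Real.log_two_lt_d9]
  have h5 := mul_le_mul_of_nonneg_left h4 (Real.log_nonneg hlG)
  have h6 := h.mert.one
  have h7 := h.B1
  rw [one_div, Real.log_inv] at h3
  show _ ≤ ν.η
  rw [← Real.exp_log h.η0, Real.exp_le_exp]
  linarith

theorem NuOk.ext' {ν : Nu} {C C2 j : ℕ} (h : NuOk ν C C2) (_hj : j < ν.S) :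
    (ν.fam j).Pn (fun c T => (ν.fam j).Vl 0 T < (ν.par C j).Δ * (ν.fam j).wl 0 c) ≤
      (ν.par C j).η := h.ext_of_lev (h.lev j)

end Pool.Agent.P.MP_a14ce1_nt.Fu.Pa
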