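import Pool.Agent.P.MP_a14ce1_nt.Fu.PnLv

/-!
Tails of the number of primes of one level, under the population weight.
-/

open Finset

namespace Pool.Agent.P.MP_a14ce1_nt.Fu.St.OkA

open Ch (pv mu rs)

/-- second moment of the number of primes under the tilted law -/
theorem tilt2 {B : ℝ} (hB : 0 ≤ B) (G : Finset ℕ) (hG : ∀ q ∈ G, 0 < q) (x : ℝ) :
    Em G (fun T => (B + 1) ^ T.card * ((T.card : ℝ) - x) ^ 2) ≤
      (∏ q ∈ G, (1 + B / q)) * ((∑ q ∈ G, (B + 1) / (q + B) - x) ^ 2 +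
        ∑ q ∈ G, (B + 1) / (q + B)) := by
  induction G using Finset.induction_on generalizing x with
  | empty => simp [Em_empty]
  | insert q G hq ih =>
    have h1 := ih (fun p hp => hG p (mem_insert_of_mem hp)) x
    have h2 := ih (fun p hp => hG p (mem_insert_of_mem hp)) (x - 1)
    have q1 : (1 : ℝ) ≤ q := by exact_mod_cast hG q (mem_insert_self _ _)
    have e : Em (insert q G) (fun T => (B + 1) ^ T.card * ((T.card : ℝ) - x) ^ 2) =
        (1 - 1 / q) * Em G (fun T => (B + 1) ^ T.card * ((T.card : ℝ) - x) ^ 2) +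
          (B + 1) / q * Em G (fun T => (B + 1) ^ T.card * ((T.card : ℝ) - (x - 1)) ^ 2) := by
      rw [Em_insert hq, ← Em_mul, ← Em_mul, ← Em_add]
      refine Em_congr fun T hT => ?_
      rw [card_insert_of_notMem fun h => hq (hT h)]
      push_cast
      ring
    have Z0 : 0 ≤ ∏ q ∈ G, (1 + B / q) := prod_nonneg fun _ _ => by positivity
    have a1 : (0 : ℝ) ≤ 1 - 1 / q := by
      rw [sub_nonneg, div_le_one (by linarith)]
      exact q1
    rw [e, prod_insert hq, sum_insert hq]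
    refine (add_le_add (mul_le_mul_of_nonneg_left h1 a1)
      (mul_le_mul_of_nonneg_left h2 (by positivity))).trans ?_
    set Z := ∏ q ∈ G, (1 + B / q)
    set m := ∑ q ∈ G, (B + 1) / (q + B)
    set p := (B + 1) / (q + B) with hp
    have e1 : (B + 1) / q = (1 + B / q) * p := by
      rw [hp]
      field_simp
    have e2 : (1 : ℝ) - 1 / q = (1 + B / q) * (1 - p) := by
      rw [hp]
      field_simp
      ring
    have a2 : 0 ≤ (1 + B / q) * Z * p ^ 2 := by positivity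
    rw [e1, e2]
    nlinarith

theorem Em_card (P : Finset ℕ) : Em P (fun T => (T.card : ℝ)) = rs P := by
  rw [Em_congr (ψ := fun T => ∑ q ∈ P, if q ∈ T then 1 else 0) fun T hT => by
    rw [sum_boole, filter_mem_eq_inter, inter_eq_right.2 hT], Em_sum]
  exact sum_congr rfl fun q hq => Em_ind_mem hq

theorem mean_le {B : ℝ} (hB : 0 ≤ B) {G : Finset ℕ} (hG : ∀ q ∈ G, 0 < q) :
    ∑ q ∈ G, (B + 1) / (q + B) ≤ (B + 1) * rs G := by
  rw [rs, mul_sum]
  refine sum_le_sum fun q hq => ?_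
  have q1 : (0 : ℝ) < q := by exact_mod_cast hG q hq
  rw [mul_one_div]
  gcongr
  linarith

theorem Z_le_mean {B : ℝ} (hB : 0 ≤ B) {G : Finset ℕ} (hG : ∀ q ∈ G, 0 < q) :
    ∏ q ∈ G, (1 + B / q) ≤ Real.exp ((∑ q ∈ G, (B + 1) / (q + B)) * Real.log (B + 1)) := by
  rw [sum_mul, Real.exp_sum]
  refine prod_le_prod (fun _ _ => by positivity) fun q hq => ?_
  have q1 : (1 : ℝ) ≤ q := by exact_mod_cast hG q hq
  have a1 : (0 : ℝ) ≤ 1 - 1 / q := by
    rw [sub_nonneg, div_le_one (by linarith)]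
    exact q1
  have c := Real.convexOn_mul_log.2 (Set.mem_Ici.2 zero_le_one)
    (Set.mem_Ici.2 (by linarith : 0 ≤ B + 1)) a1 (by positivity : (0 : ℝ) ≤ 1 / q) (by ring)
  have e : (1 - 1 / q : ℝ) * 1 + 1 / q * (B + 1) = 1 + B / q := by ring
  simp only [Real.log_one, mul_zero, smul_eq_mul, zero_add] at c
  rw [e] at c
  have z : (0 : ℝ) < 1 + B / q := by positivity
  rw [← Real.log_le_iff_le_exp z]
  refine le_of_mul_le_mul_left (c.trans_eq ?_) z
  field_simp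

theorem Z_le_exp {B : ℝ} (hB : 0 ≤ B) (G : Finset ℕ) :
    ∏ q ∈ G, (1 + B / q) ≤ Real.exp (B * rs G) := by
  rw [rs, mul_sum, Real.exp_sum]
  refine prod_le_prod (fun _ _ => by positivity) fun q _ => ?_
  rw [mul_one_div, add_comm]
  exact Real.add_one_le_exp _

theorem ZR_le (F : Fam) (t : ℕ) : F.ZR t ≤ Real.exp (rs (F.R t)) := by
  have h := Z_le_exp zero_le_one (F.R t)
  rw [one_mul, prod_one_add] at h
  refine le_trans ?_ h
  refine (sum_le_sum_of_subset_of_nonneg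
    (fun c hc => mem_powerset.2 (mem_powersetCard.1 hc).1)
    fun _ _ _ => by positivity).trans_eq (sum_congr rfl fun c _ => ?_)
  rw [prod_div_distrib, prod_const_one, pv, Nat.cast_prod]

variable {F : Fam} (h : Lev F)
include h

open Classical in
theorem Pn_site (E : Finset ℕ → Prop) : F.Pn (fun _ T => E T) =
    Em F.Lo fun T => F.V 0 (F.m + 1) T * if E T then 1 else 0 := by
  refine Em_congr fun T hT => ?_
  rw [← h.Vt_w hT]
  split_ifs <;> simp [Vt]

/-- marginal on one level -/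
theorem marg {t : ℕ} (ht : t ≤ F.m) (φ : Finset ℕ → ℝ) :
    Em F.Lo (fun T => F.V 0 (F.m + 1) T * φ (T ∩ F.cl t)) =
      Em (F.cl t) fun T => F.Vl t T * φ T := by
  have e1 : F.Lo = (F.Lv 0 t ∪ F.cl t) ∪ F.Lv (t + 1) (F.m + 1) := by
    rw [← F.Lv_succ (Nat.zero_le t), ← F.Lv_split (Nat.zero_le _) (by omega), Fam.Lo]
  have d1 : Disjoint (F.Lv 0 t ∪ F.cl t) (F.Lv (t + 1) (F.m + 1)) := by
    rw [← F.Lv_succ (Nat.zero_le t)]
    exact h.dLv le_rfl le_rfl
  have a := Em_mul_inter d1 (fun T => F.V 0 t (T ∩ F.Lv 0 t) *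
    (F.Vl t (T ∩ F.cl t) * φ (T ∩ F.cl t))) (F.V (t + 1) (F.m + 1))
  rw [Em_mul_inter (h.dLv_cl ht) (F.V 0 t) fun T => F.Vl t T * φ T,
    h.Em_V (Nat.zero_le _) (by omega), h.Em_V (by omega) le_rfl, one_mul, mul_one] at a
  rw [← a, e1]
  refine Em_congr fun T _ => ?_
  rw [inter_inter subset_union_left, inter_inter subset_union_right, F.V_inter Subset.rfl,
    F.V_inter Subset.rfl, F.Vl_inter Subset.rfl, F.V_split (Nat.zero_le (t + 1)) (by omega),
    F.V_succ (Nat.zero_le t)]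
  ring

theorem Em_VG (t : ℕ) : Em (F.G t) (F.VG t) = 1 := by
  rw [← (h.nrm_wG t).mean]
  exact Em_congr fun A hA => (F.Vt_wG hA).symm

theorem Em_VR {t : ℕ} (ht : t ≤ F.m) : Em (F.R t) (F.VR t) = 1 := by
  rw [← (h.nrm_wR ht).mean]
  exact Em_congr fun A hA => (F.Vt_wR hA).symm

theorem marg_G {t : ℕ} (ht : t ≤ F.m) (φ : Finset ℕ → ℝ) :
    Em F.Lo (fun T => F.V 0 (F.m + 1) T * φ (T ∩ F.G t)) =
      Em (F.G t) fun T => F.VG t T * φ T := by
  have a := marg h ht fun T => φ (T ∩ F.G t)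
  simp only [inter_inter (F.G_sub t)] at a
  have b := Em_mul_inter (h.dGR t ht) (fun T => F.VG t T * φ T) (F.VR t)
  rw [Em_VR h ht, mul_one] at b
  rw [a, ← b]
  refine Em_congr fun T _ => ?_
  rw [F.VG_inter Subset.rfl, F.VR_inter Subset.rfl, Fam.Vl]
  ring

theorem marg_R {t : ℕ} (ht : t ≤ F.m) (φ : Finset ℕ → ℝ) :
    Em F.Lo (fun T => F.V 0 (F.m + 1) T * φ (T ∩ F.R t)) =
      Em (F.R t) fun T => F.VR t T * φ T := by
  have a := marg h ht fun T => φ (T ∩ F.R t)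
  simp only [inter_inter (F.R_sub t)] at a
  have b := Em_mul_inter (h.dGR t ht) (F.VG t) fun T => F.VR t T * φ T
  rw [Em_VG h t, one_mul] at b
  rw [a, ← b]
  refine Em_congr fun T _ => ?_
  rw [F.VG_inter Subset.rfl, F.VR_inter Subset.rfl, Fam.Vl]
  ring

theorem posG {t : ℕ} (ht : t ≤ F.m) : ∀ q ∈ F.G t, 0 < q := fun q hq =>
  (h.pr t ht q (F.G_sub t hq)).pos

theorem mom_G {t : ℕ} (ht : t ≤ F.m) (x : ℝ) :
    Em F.Lo (fun T => F.V 0 (F.m + 1) T * (((T ∩ F.G t).card : ℝ) - x) ^ 2) ≤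
      (∑ q ∈ F.G t, (F.B t + 1) / (q + F.B t) - x) ^ 2 +
        ∑ q ∈ F.G t, (F.B t + 1) / (q + F.B t) := by
  rw [marg_G h ht fun T => ((T.card : ℝ) - x) ^ 2]
  have a := tilt2 (zero_le_one.trans (h.B1 t)) (F.G t) (posG h ht) x
  refine le_trans (le_of_eq ?_) ((div_le_iff₀' (h.ZG_pos t)).2 a)
  rw [← Em_div]
  refine Em_congr fun T hT => ?_
  rw [Fam.VG, inter_eq_left.2 hT]
  ring

theorem mom_R {t : ℕ} (ht : t ≤ F.m) :
    Em F.Lo (fun T => F.V 0 (F.m + 1) T * |((T ∩ F.R t).card : ℝ) - F.r t|) ≤ rs (F.R t) := by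
  rw [marg_R h ht fun T => |(T.card : ℝ) - F.r t|,
    Em_congr fun T hT => by rw [← F.Vt_wR hT], ← Et_site, Et_eq, ← one_mul (rs _),
    ← (h.nrm_wR ht).2, sum_mul]
  refine sum_le_sum fun c hc => ?_
  by_cases h0 : c.card = F.r t
  · refine mul_le_mul_of_nonneg_left ?_ (div_nonneg (F.wR_nonneg t c) (Nat.cast_nonneg _))
    rw [Em_congr (ψ := fun T => (T.card : ℝ)) fun T hT => by
      rw [card_union_of_disjoint (disjoint_sdiff.mono_right hT), h0]
      simp, Em_card]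
    exact sum_le_sum_of_subset_of_nonneg sdiff_subset fun _ _ _ => by positivity
  · simp [Fam.wR, inter_eq_left.2 (mem_powerset.1 hc), h0]

open Classical in
/-- the union bound over the levels, with majorants -/
theorem Pn_le (E : ℕ → Finset ℕ → Prop) (φ : ℕ → Finset ℕ → ℝ) (h0 : ∀ t T, 0 ≤ φ t T)
    (h1 : ∀ t ≤ F.m, ∀ T, F.Vl t T ≠ 0 → E t T → 1 ≤ φ t T) :
    F.Pn (fun _ T => ∃ t ≤ F.m, E t T) ≤
      ∑ t ∈ range (F.m + 1), Em F.Lo fun T => F.V 0 (F.m + 1) T * φ t T := by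
  rw [Pn_site h, ← Em_sum]
  refine Em_mono fun T _ => ?_
  rw [← mul_sum]
  by_cases hV : F.V 0 (F.m + 1) T = 0
  · simp [hV]
  refine mul_le_mul_of_nonneg_left ?_ (h.V_nonneg _ _ _)
  split_ifs with hE
  · obtain ⟨t, ht, hE⟩ := hE
    refine (h1 t ht T (fun e => hV (prod_eq_zero (mem_Ico.2 ⟨Nat.zero_le t, by omega⟩) e)) hE).trans
      (single_le_sum (f := fun t => φ t T) (fun t _ => h0 t T) (mem_range.2 (by omega)))
  · exact sum_nonneg fun t _ => h0 t T

end Pool.Agent.P.MP_a14ce1_nt.Fu.St.OkA
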