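import Pool.Agent.P.MP_a14ce1_nt.Fu.PaB
import Pool.Agent.P.MP_a14ce1_nt.Fu.PaOkA

/-!
The levels of the concrete families are typical.
-/

open Finset

namespace Pool.Agent.P.MP_a14ce1_nt.Fu.Pa

open Ch (pv mu rs pr)
open St St.OkA

/-- the facts on the classes that are used here -/
structure OkIn (ν : Nu) : Prop where
  lev : Lev ν.pre
  rG : ∀ t, rs (ν.G t) ≤ ν.g t
  rR : ∀ t, rs (ν.R t) ≤ ν.L

namespace NuOk

variable {ν : Nu} {C C2 j : ℕ} (h : NuOk ν C C2)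
include h

theorem ok_L1 : 1 ≤ ν.L := by
  have := Real.log_nonneg h.eL1
  have := h.mert.one
  unfold Nu.L
  linarith

theorem ok_g1 {t : ℕ} (ht : 1 ≤ t) : 1 ≤ ν.g t := by
  obtain ⟨t, rfl⟩ : ∃ s, t = s + 1 := ⟨t - 1, by omega⟩
  have a0 : 0 < ν.eL * ν.l t := mul_pos (by linarith [h.eL1]) (by linarith [h.l1 t])
  have a1 : 0 ≤ Real.log (ν.l (t + 1) / (ν.eL * ν.l t)) :=
    Real.log_nonneg ((one_le_div a0).2 (by linarith [h.lst t]))
  linarith [h.g1 t, h.mert.one]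

theorem ok_Kx {t : ℕ} (ht : 1 ≤ t) : 2 * ν.L ≤ ν.Kx t := by
  have a1 : (1 : ℝ) ≤ 2 ^ (t + 2) := one_le_pow₀ one_le_two
  have a2 : (0 : ℝ) ≤ ν.Kx t := Nat.cast_nonneg _
  nlinarith [h.Kxt t ht, h.ok_L1, h.η1]

theorem ok_n {t : ℕ} (ht : 1 ≤ t) : 3 * ν.g t ≤ 2 ^ (t + 5) / ν.η * ν.g t := by
  refine mul_le_mul_of_nonneg_right ?_ (by linarith [h.ok_g1 ht])
  have a1 : (1 : ℝ) ≤ 2 ^ t := one_le_pow₀ one_le_two
  rw [le_div_iff₀ h.η0, pow_add]
  linarith [h.η1]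

theorem ok_log {t : ℕ} (ht : 1 ≤ t) : 1 / 2 ≤ Real.log ((ν.r t : ℝ) + ν.Kx t) := by
  have a1 : (2 : ℝ) ≤ ν.r t := by exact_mod_cast h.r2 t ht
  have a2 : (0 : ℝ) ≤ ν.Kx t := Nat.cast_nonneg _
  have a3 := Real.log_le_log two_pos (show (2 : ℝ) ≤ ν.r t + ν.Kx t by linarith)
  linarith [Real.log_two_gt_d9]

theorem ok_f {t : ℕ} (ht : 1 ≤ t) (hm : t ≤ ν.m 0) : 3 * ν.g t + ν.L ≤ ν.f t := by
  have a2 : (0 : ℝ) ≤ ν.Kx t := Nat.cast_nonneg _
  nlinarith [h.ft t ht hm, h.ok_n ht, h.ok_log ht, h.ok_Kx ht]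

theorem ok_lB : 0 ≤ Real.log (ν.B0 + 1) := Real.log_nonneg (by linarith [h.B1])

theorem ok_f0 {t : ℕ} (hm : t ≤ ν.m 0) : 0 ≤ ν.f t := by
  rcases Nat.eq_zero_or_pos t with rfl | ht
  · have := h.s00
    have := h.ok_lB
    exact le_trans (by positivity) h.f0
  · linarith [h.ok_f ht hm, h.ok_g1 ht, h.ok_L1]

omit h in
theorem lo0_of (i : OkIn ν) (t : ℕ) : 0 < ν.lo t := by
  unfold Nu.lo
  split_ifs with h1 h2
  · exact div_pos (Real.exp_pos _) (i.lev.ZG_pos 0)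
  · exact one_div_pos.2 (mul_pos (i.lev.ZG_pos t) (i.lev.ZR_pos h2))
  · exact one_pos

theorem lohi_of (i : OkIn ν) (t : ℕ) : ν.lo t ≤ ν.hi t := by
  unfold Nu.hi
  split_ifs with h1
  · exact le_mul_of_one_le_right (lo0_of i t).le (Real.one_le_exp (h.ok_f0 h1))
  · rw [Nu.lo, if_neg (by omega), if_neg h1]

theorem hi0_ge (i : OkIn ν) :
    Real.exp ((ν.mu0 + ν.s0) * Real.log (ν.B0 + 1)) / ν.pre.ZG 0 ≤ ν.hi 0 := by
  rw [Nu.hi, if_pos (Nat.zero_le _), Nu.lo, if_pos rfl, div_mul_eq_mul_div, ← Real.exp_add]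
  refine div_le_div_of_nonneg_right (Real.exp_le_exp.2 ?_) (i.lev.ZG_pos 0).le
  linarith [h.f0]

theorem hi1_of (i : OkIn ν) (t : ℕ) : 1 ≤ ν.hi t := by
  rcases Nat.eq_zero_or_pos t with rfl | ht
  · refine le_trans ?_ (h.hi0_ge i)
    rw [one_le_div (i.lev.ZG_pos 0)]
    refine (Z_le_mean (B := ν.B0) (by linarith [h.B1]) (posG i.lev (Nat.zero_le _))).trans
      (Real.exp_le_exp.2 (mul_le_mul_of_nonneg_right ?_ h.ok_lB))
    exact le_add_of_nonneg_right h.s00.le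
  unfold Nu.hi
  split_ifs with h1
  · rw [Nu.lo, if_neg ht.ne', if_pos h1, one_div_mul_eq_div,
      one_le_div (mul_pos (i.lev.ZG_pos t) (i.lev.ZR_pos h1))]
    have a1 : ν.pre.ZG t ≤ Real.exp (3 * rs (ν.G t)) := by
      have := Z_le_exp (B := 3) (by norm_num) (ν.G t)
      refine le_trans (le_of_eq ?_) this
      change ∏ q ∈ ν.G t, (1 + ν.B t / q) = _
      rw [Nu.B, if_neg ht.ne']
    have a2 : ν.pre.ZR t ≤ Real.exp (rs (ν.R t)) := OkA.ZR_le ν.pre t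
    refine (mul_le_mul a1 a2 (ν.pre.ZR_nonneg t) (Real.exp_pos _).le).trans ?_
    rw [← Real.exp_add]
    exact Real.exp_le_exp.2 (by linarith [h.ok_f ht h1, i.rG t, i.rR t])
  · exact le_rfl

theorem ok_zero (i : OkIn ν) (T : Finset ℕ)
    (hT : (((T ∩ ν.G 0).card : ℝ) - ν.mu0) ^ 2 ≤ ν.s0 ^ 2) : Ok (ν.fam j) (ν.par C j) 0 T := by
  have e : (ν.fam j).Vl 0 T =
      Real.exp ((T ∩ ν.G 0).card * Real.log (ν.B0 + 1)) / ν.pre.ZG 0 := by
    change (ν.B0 + 1) ^ (T ∩ ν.G 0).card / ν.pre.ZG 0 * (((T ∩ ∅).card.choose (ν.r 0) : ℝ) /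
      ∑ Q ∈ (∅ : Finset ℕ).powersetCard (ν.r 0), (1 : ℝ) / pv Q) = _
    rw [Real.exp_nat_mul, Real.exp_log (by linarith [h.B1]), h.r0]
    simp [pv]
  obtain ⟨a1, a2⟩ := abs_le.1 (abs_le_of_sq_le_sq hT h.s00.le)
  have z := (i.lev.ZG_pos 0).le
  refine ⟨?_, le_trans ?_ (h.hi0_ge i), ?_⟩
  · rw [e]
    exact div_le_div_of_nonneg_right (Real.exp_le_exp.2
      (mul_le_mul_of_nonneg_right (by linarith) h.ok_lB)) z
  · rw [e]
    exact div_le_div_of_nonneg_right (Real.exp_le_exp.2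
      (mul_le_mul_of_nonneg_right (by linarith) h.ok_lB)) z
  · change (T ∩ ∅).card ≤ _
    simp

theorem ok_pos (i : OkIn ν) {t : ℕ} (ht : 1 ≤ t) (hm : t ≤ ν.m 0) (T : Finset ℕ)
    (h0 : (ν.fam j).Vl t T ≠ 0) (h1 : ((T ∩ ν.G t).card : ℝ) ≤ 2 ^ (t + 4) / ν.η * ν.g t)
    (h2 : (T ∩ ν.R t).card ≤ ν.r t + ν.Kx t) : Ok (ν.fam j) (ν.par C j) t T := by
  have e : (ν.fam j).Vl t T = ν.lo t *
      (4 ^ (T ∩ ν.G t).card * ((T ∩ ν.R t).card.choose (ν.r t) : ℝ)) := by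
    change (ν.B t + 1) ^ (T ∩ ν.G t).card / ν.pre.ZG t *
      (((T ∩ ν.R t).card.choose (ν.r t) : ℝ) / ν.pre.ZR t) = _
    rw [Nu.lo, if_neg (by omega), if_pos hm, Nu.B, if_neg (by omega), div_mul_div_comm,
      one_div_mul_eq_div]
    norm_num
  have l0 := lo0_of i t
  have c0 : (T ∩ ν.R t).card.choose (ν.r t) ≠ 0 := fun c => h0 (by rw [e, c]; simp)
  have c1 : ν.r t ≤ (T ∩ ν.R t).card := by
    by_contra c
    exact c0 (Nat.choose_eq_zero_of_lt (not_le.1 c))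
  refine ⟨?_, ?_, h2⟩
  · rw [e]
    exact le_mul_of_one_le_right l0.le (one_le_mul_of_one_le_of_one_le
      (one_le_pow₀ (by norm_num)) (by exact_mod_cast Nat.one_le_iff_ne_zero.2 c0))
  · change _ ≤ ν.hi t
    rw [e, Nu.hi, if_pos hm]
    refine mul_le_mul_of_nonneg_left ?_ l0.le
    have r2 := h.r2 t ht
    have a1 : (T ∩ ν.R t).card.choose (ν.r t) ≤ (ν.r t + ν.Kx t) ^ ν.Kx t := by
      rw [← Nat.choose_symm c1]
      exact (Nat.choose_le_pow _ _).trans ((Nat.pow_le_pow_left h2 _).trans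
        (Nat.pow_le_pow_right (by omega) (by omega)))
    have a2 : (((T ∩ ν.R t).card.choose (ν.r t) : ℕ) : ℝ) ≤
        Real.exp (ν.Kx t * Real.log ((ν.r t : ℝ) + ν.Kx t)) := by
      rw [Real.exp_nat_mul, Real.exp_log (by exact_mod_cast (by omega : 0 < ν.r t + ν.Kx t))]
      exact_mod_cast a1
    have a3 : (4 : ℝ) ^ (T ∩ ν.G t).card ≤ Real.exp (2 ^ (t + 5) / ν.η * ν.g t) := by
      have b1 : (4 : ℝ) ≤ Real.exp 2 := by
        have := Real.add_one_le_exp 1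
        rw [show (2 : ℝ) = 1 + 1 by norm_num, Real.exp_add]
        nlinarith
      refine (pow_le_pow_left₀ (by norm_num) b1 _).trans ?_
      rw [← Real.exp_nat_mul]
      refine Real.exp_le_exp.2 ((mul_le_mul_of_nonneg_right h1 zero_le_two).trans_eq ?_)
      ring
    refine (mul_le_mul a3 a2 (Nat.cast_nonneg _) (Real.exp_pos _).le).trans ?_
    rw [← Real.exp_add]
    exact Real.exp_le_exp.2 (h.ft t ht hm)

theorem ok_of (i : OkIn ν) (lv : Lev (ν.fam j)) (hm : ν.m j ≤ ν.m 0) :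
    (ν.fam j).Pn (fun _ T => ∃ t ≤ (ν.fam j).m, ¬ Ok (ν.fam j) (ν.par C j) t T) ≤
      (ν.par C j).η := by
  have η0 := h.η0
  have s0 := h.s00
  refine (Pn_le lv (fun t T => ¬ Ok (ν.fam j) (ν.par C j) t T) (fun t T =>
    if t = 0 then (((T ∩ ν.G 0).card : ℝ) - ν.mu0) ^ 2 / ν.s0 ^ 2
    else (((T ∩ ν.G t).card : ℝ) - 0) ^ 2 / (2 ^ (t + 4) / ν.η * ν.g t) ^ 2 +
      |((T ∩ ν.R t).card : ℝ) - ν.r t| / ν.Kx t) (fun t T => by split_ifs <;> positivity)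
    fun t ht T h0 hE => ?_).trans ?_
  · split_ifs with h1
    · subst h1
      rw [one_le_div (by positivity)]
      by_contra c
      exact hE (h.ok_zero i T (not_le.1 c).le)
    · have t1 : 1 ≤ t := Nat.one_le_iff_ne_zero.2 h1
      have g1 := h.ok_g1 t1
      have k0 : (0 : ℝ) < ν.Kx t := by linarith [h.ok_Kx t1, h.ok_L1]
      by_cases c1 : ((T ∩ ν.G t).card : ℝ) ≤ 2 ^ (t + 4) / ν.η * ν.g t
      · refine le_add_of_nonneg_of_le (by positivity) ((one_le_div k0).2 ?_)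
        refine le_trans ?_ (le_abs_self _)
        have c2 : ν.r t + ν.Kx t < (T ∩ ν.R t).card :=
          not_le.1 fun c2 => hE (h.ok_pos i t1 (ht.trans hm) T h0 c1 c2)
        have c3 : (ν.r t : ℝ) + ν.Kx t < (T ∩ ν.R t).card := by exact_mod_cast c2
        linarith
      · refine le_add_of_le_of_nonneg ((one_le_div (by positivity)).2 ?_) (by positivity)
        rw [sub_zero]
        exact pow_le_pow_left₀ (by positivity) (not_le.1 c1).le _
  · have b0 : Em (ν.fam j).Lo (fun T => (ν.fam j).V 0 ((ν.fam j).m + 1) T *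
        ((((T ∩ ν.G 0).card : ℝ) - ν.mu0) ^ 2 / ν.s0 ^ 2)) ≤ ν.η / 2 := by
      simp only [← mul_div_assoc]
      rw [Em_div, div_le_iff₀ (by positivity)]
      refine (mom_G lv (Nat.zero_le _) ν.mu0).trans ?_
      change (ν.mu0 - ν.mu0) ^ 2 + ν.mu0 ≤ _
      have a1 : ν.mu0 ≤ (ν.B0 + 1) * rs (ν.G 0) :=
        mean_le (by linarith [h.B1]) (posG i.lev (Nat.zero_le _))
      have a2 := mul_le_mul_of_nonneg_left (i.rG 0) (by linarith [h.B1] : 0 ≤ ν.B0 + 1)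
      have a3 := h.s0g
      rw [sub_self, zero_pow two_ne_zero, zero_add]
      linarith
    have b1 : ∀ t, 1 ≤ t → t ≤ ν.m j → Em (ν.fam j).Lo (fun T => (ν.fam j).V 0 ((ν.fam j).m + 1) T *
        ((((T ∩ ν.G t).card : ℝ) - 0) ^ 2 / (2 ^ (t + 4) / ν.η * ν.g t) ^ 2 +
          |((T ∩ ν.R t).card : ℝ) - ν.r t| / ν.Kx t)) ≤ ν.η / 2 * (1 / 2) ^ t := by
      intro t t1 ht
      have g1 := h.ok_g1 t1
      have k0 : (0 : ℝ) < ν.Kx t := by linarith [h.ok_Kx t1, h.ok_L1]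
      have p1 : (1 : ℝ) ≤ 2 ^ t := one_le_pow₀ one_le_two
      simp only [mul_add, ← mul_div_assoc]
      rw [Em_add, Em_div, Em_div, show ν.η / 2 * (1 / 2) ^ t =
        ν.η / 2 ^ (t + 2) + ν.η / 2 ^ (t + 2) by rw [one_div_pow]; field_simp; ring]
      refine add_le_add ?_ ?_
      · rw [div_le_iff₀ (by positivity)]
        refine (mom_G lv ht 0).trans ?_
        have e : (ν.fam j).B t = 3 := if_neg (by omega)
        have a1 := mean_le (B := 3) (by norm_num) (posG lv ht)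
        have a0 : 0 ≤ ∑ q ∈ (ν.fam j).G t, ((3 : ℝ) + 1) / (q + 3) :=
          sum_nonneg fun _ _ => by positivity
        have a2 : rs ((ν.fam j).G t) ≤ ν.g t := i.rG t
        rw [e, sub_zero]
        set x := ∑ q ∈ (ν.fam j).G t, ((3 : ℝ) + 1) / (q + 3)
        have a3 : x ≤ 4 * ν.g t := by linarith
        have a4 : x ^ 2 + x ≤ 20 * ν.g t ^ 2 := by nlinarith
        refine a4.trans ?_
        rw [show ν.η / 2 ^ (t + 2) * (2 ^ (t + 4) / ν.η * ν.g t) ^ 2 =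
          64 * 2 ^ t / ν.η * ν.g t ^ 2 by field_simp; ring]
        refine mul_le_mul_of_nonneg_right ?_ (by positivity)
        rw [le_div_iff₀ η0]
        linarith [h.η1]
      · rw [div_le_div_iff₀ k0 (by positivity)]
        have a1 := mom_R lv ht
        have a2 : rs ((ν.fam j).R t) ≤ ν.L := i.rR t
        refine (mul_le_mul_of_nonneg_right (a1.trans a2) (by positivity)).trans ?_
        rw [mul_comm]
        exact h.Kxt t t1
    change _ ≤ ν.η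
    rw [sum_range_succ']
    simp only [Nat.succ_ne_zero, if_false, if_true]
    refine (add_le_add (sum_le_sum fun t ht => b1 (t + 1) (by omega) (mem_range.1 ht)) b0).trans ?_
    have c := sum_geometric_two_le (ν.m j)
    simp only [pow_succ, ← mul_sum, ← sum_mul]
    nlinarith

theorem okIn : OkIn ν := ⟨h.lev_pre, h.rs_G, h.rs_R⟩

theorem lo0' (_hj : j < ν.S) : ∀ t, 0 < (ν.par C j).lo t := lo0_of h.okIn

theorem lohi' (_hj : j < ν.S) : ∀ t, (ν.par C j).lo t ≤ (ν.par C j).hi t := h.lohi_of h.okIn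

theorem hi1' (_hj : j < ν.S) : ∀ t, 1 ≤ (ν.par C j).hi t := h.hi1_of h.okIn

theorem ok' (hj : j < ν.S) :
    (ν.fam j).Pn (fun _ T => ∃ t ≤ (ν.fam j).m, ¬ Ok (ν.fam j) (ν.par C j) t T) ≤
      (ν.par C j).η := h.ok_of h.okIn (h.lev j) (h.m_le hj.le)

end NuOk

end Pool.Agent.P.MP_a14ce1_nt.Fu.Pa
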