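import Pool.Agent.P.MP_a14ce1_nt.Fu.StC
import Pool.Agent.P.MP_a14ce1_nt.Fu.PnLv

/-! Tails under the law Pn: the fields ok, adm, ext, b1 to b4 from inequalities on prime masses. -/

open Finset

namespace Pool.Agent.P.MP_a14ce1_nt.Fu.St

open Ch (pv mu rs lam)

variable {F : Fam} {P : Par}

theorem Lev.str (h : Lev F) : Str F := ⟨h.prLo, h.dGR, h.dcl', h.rR, h.B1⟩

/-- mean number of members of G t at a site of an edge -/
noncomputable def muV (F : Fam) (t : ℕ) : ℝ := ∑ p ∈ F.G t, (F.B t + 1) / (p + F.B t)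

/-- mean number of members of G t at a site of an edge outside the cofactor -/
noncomputable def muE (F : Fam) (t : ℕ) : ℝ := ∑ p ∈ F.G t, 1 / (p + F.B t)

theorem rs_le_card {S : Finset ℕ} {x : ℝ} (hx : 0 < x) (h : ∀ q ∈ S, x ≤ q) :
    rs S ≤ S.card / x := by
  have := sum_le_card_nsmul S (fun q : ℕ => (1 : ℝ) / q) (1 / x) fun q hq =>
    one_div_le_one_div_of_le hx (h q hq)
  rwa [nsmul_eq_mul, mul_one_div] at this

theorem ZR_le (F : Fam) (t : ℕ) : F.ZR t ≤ rs (F.R t) ^ F.r t / (F.r t).factorial := by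
  rw [le_div_iff₀ (by positivity), mul_comm, ZR_eq_es]
  exact PL.es_le (fun p hp => (PL.pr_kN _ p hp).1) _

theorem le_ZR {t : ℕ} {x a : ℝ} (hx : 0 < x) (h : ∀ q ∈ F.R t, x ≤ q) (ha : 0 ≤ a)
    (har : a + F.r t / x ≤ rs (F.R t)) : a ^ F.r t / (F.r t).factorial ≤ F.ZR t := by
  rw [div_le_iff₀ (by positivity), mul_comm, ZR_eq_es]
  refine PL.le_es (m := 1 / x) (fun p hp => ⟨(PL.pr_kN _ p hp).1, ?_⟩) (by positivity) _ ha ?_
  · exact one_div_le_one_div_of_le hx (h p hp)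
  · rw [mul_one_div]; exact har

theorem ZR_zero (h0 : F.r 0 = 0) : F.ZR 0 = 1 := by simp [Fam.ZR, h0, pv]

namespace Str

variable (h : Str F)
include h

theorem ZG_le_exp (t : ℕ) : F.ZG t ≤ Real.exp (F.B t * rs (F.G t)) := by
  rw [rs, mul_sum, Real.exp_sum]
  have := h.B1 t
  refine prod_le_prod (fun p _ => by positivity) fun p _ => ?_
  rw [mul_one_div]; linarith [Real.add_one_le_exp (F.B t / p)]

theorem muV_nonneg (t : ℕ) : 0 ≤ muV F t :=
  sum_nonneg fun p _ => by have := h.B1 t; positivity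

theorem muV_le {t : ℕ} (ht : t ≤ F.m) : muV F t ≤ (F.B t + 1) * rs (F.G t) := by
  rw [muV, rs, mul_sum]
  refine sum_le_sum fun p hp => ?_
  obtain ⟨a1, a2⟩ := (h.wt ht).pos hp
  rw [mul_one_div]
  exact div_le_div_of_nonneg_left (by positivity) (by linarith) (by linarith)

theorem le_muE {t : ℕ} (ht : t ≤ F.m) : rs (F.G t) - F.B t ≤ muE F t := by
  have s1 : ∑ q ∈ F.G t, ((q : ℝ) ^ 2)⁻¹ ≤ 1 := by
    have h1 := sum_Ioo_inv_sq_le (α := ℝ) 1 ((F.G t).sup id + 1)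
    refine le_trans (sum_le_sum_of_subset_of_nonneg ?_ fun _ _ _ => by positivity)
      (h1.trans (by norm_num))
    intro q hq
    have := le_sup (f := id) hq
    have := (h.pr q (G_sub_Lo ht hq)).two_le
    rw [mem_Ioo]; simp only [id] at *; omega
  have hB := h.B1 t
  have s2 : rs (F.G t) - F.B t * ∑ q ∈ F.G t, ((q : ℝ) ^ 2)⁻¹ ≤ muE F t := by
    rw [rs, mul_sum, ← sum_sub_distrib]
    refine sum_le_sum fun p hp => ?_
    obtain ⟨a1, a2⟩ := (h.wt ht).pos hp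
    have e : (1 : ℝ) / p - F.B t * ((p : ℝ) ^ 2)⁻¹ = (p - F.B t) / p ^ 2 := by field_simp
    rw [e, div_le_div_iff₀ (by positivity) (by positivity)]
    nlinarith
  nlinarith

theorem muV_eq (t : ℕ) : muV F t = (F.B t + 1) * muE F t := by
  rw [muV, muE, mul_sum]; exact sum_congr rfl fun _ _ => by rw [mul_one_div]

/-- the normalising constant is at most (B+1) to the mean number of members -/
theorem ZG_le_pow {t : ℕ} (ht : t ≤ F.m) {n : ℕ} (hn : muV F t ≤ n) :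
    F.ZG t ≤ (F.B t + 1) ^ n := by
  have hB := h.B1 t
  have hl : 0 ≤ Real.log (F.B t + 1) := Real.log_nonneg (by linarith)
  have s1 : Real.log (F.ZG t) ≤ muV F t * Real.log (F.B t + 1) := by
    rw [Fam.ZG, Real.log_prod fun p _ => by positivity, muV, sum_mul]
    refine sum_le_sum fun p hp => ?_
    obtain ⟨a1, -⟩ := (h.wt ht).pos hp
    have hx : 0 < 1 + F.B t / p := by positivity
    have b1 := Real.log_le_sub_one_of_pos hx
    have b2 := Real.log_le_sub_one_of_pos (div_pos hx (show 0 < F.B t + 1 by linarith))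
    rw [Real.log_div hx.ne' (by linarith)] at b2
    set a : ℝ := (F.B t + 1) / (p + F.B t) with ha
    have a0 : 0 ≤ a := by positivity
    have a2 : a ≤ 1 := by rw [ha, div_le_one (by positivity)]; linarith
    have e : a * ((1 + F.B t / p) / (F.B t + 1) - 1) + (1 - a) * (1 + F.B t / p - 1) = 0 := by
      rw [ha]; field_simp; ring
    nlinarith [mul_le_mul_of_nonneg_left b2 a0, mul_le_mul_of_nonneg_left b1 (sub_nonneg.2 a2)]
  rw [← Real.log_le_log_iff (h.ZG_pos t) (by positivity), Real.log_pow]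
  exact s1.trans (mul_le_mul_of_nonneg_right hn hl)

/-! ### one class at a time -/

theorem Pn_G_site {t : ℕ} (ht : t ≤ F.m) (E : Finset ℕ → Prop) [DecidablePred E] :
    F.Pn (fun _ T => E (T ∩ F.G t)) =
      PL.Ep (fun p : ℕ => (F.B t + 1) / (p + F.B t)) (F.G t) fun T => if E T then 1 else 0 := by
  rw [Pn_eq, h.Et_G ht fun _ T => if E T then 1 else 0,
    Et_site (F.G t) (F.wG t) fun T => if E T then 1 else 0, ← PL.Ep_V (h.wt ht), Em_eq_Ep]
  exact PL.Ep_congr fun T hT => by rw [F.Vt_wG hT, VG_eq_Vb F t hT]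

theorem Pn_G_extra {t : ℕ} (ht : t ≤ F.m) (E : Finset ℕ → Prop) [DecidablePred E] :
    F.Pn (fun c T => E ((T ∩ F.G t) \ (c ∩ F.G t))) =
      PL.Ep (fun p : ℕ => 1 / (p + F.B t)) (F.G t) fun T => if E T then 1 else 0 := by
  rw [Pn_eq, h.Et_G ht fun c T => if E (T \ c) then 1 else 0,
    ← PL.Ep_extra (h.wt ht) fun T => if E T then 1 else 0]
  exact PL.Ep_congr fun T hT => sum_congr rfl fun c hc => by
    rw [wG_eq_wh F t ((mem_powerset.1 hc).trans hT)]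

theorem Et_G_obj {t : ℕ} (ht : t ≤ F.m) (φ : Finset ℕ → ℝ) :
    Et F.Lo F.w (fun c _ => φ (c ∩ F.G t)) =
      PL.Ep (fun p : ℕ => F.B t / (p + F.B t)) (F.G t) φ := by
  rw [h.Et_G ht fun c _ => φ c, Et_obj, ← PL.sum_nu_eq (h.wt ht)]
  exact sum_congr rfl fun c hc => by rw [wG_eq_wh F t (mem_powerset.1 hc)]

theorem Et_R_le {t : ℕ} (ht : t ≤ F.m) (φ : Finset ℕ → Finset ℕ → ℝ) {a : ℝ}
    (hφ : ∀ Q ⊆ F.R t, Q.card = F.r t → (Em (F.R t \ Q) fun S => φ Q (Q ∪ S)) ≤ a) :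
    Et F.Lo F.w (fun c T => φ (c ∩ F.R t) (T ∩ F.R t)) ≤ a := by
  rw [h.Et_R ht φ, Et_eq]
  calc _ ≤ ∑ c ∈ (F.R t).powerset, F.wR t c / pv c * a := by
        refine sum_le_sum fun c hc => ?_
        by_cases e : c.card = F.r t
        · exact mul_le_mul_of_nonneg_left (hφ c (mem_powerset.1 hc) e)
            (div_nonneg (F.wR_nonneg t c) (Nat.cast_nonneg _))
        · simp [Fam.wR, inter_eq_left.2 (mem_powerset.1 hc), e]
    _ = a := by rw [← sum_mul, (h.nrm_R ht).2, one_mul]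

theorem Pn_R_le {t : ℕ} (ht : t ≤ F.m) (E : ℕ → Prop) [DecidablePred E] {a : ℝ}
    (hE : ∀ Q ⊆ F.R t, Q.card = F.r t →
      (PL.Ep PL.kN (F.R t \ Q) fun S => if E (F.r t + S.card) then 1 else 0) ≤ a) :
    F.Pn (fun _ T => E (T ∩ F.R t).card) ≤ a := by
  rw [Pn_eq]
  refine h.Et_R_le ht (fun _ T => if E T.card then 1 else 0) fun Q hQ e => ?_
  refine le_trans (le_of_eq (Em_congr fun S hS => ?_)) (hE Q hQ e)
  rw [card_union_of_disjoint (disjoint_sdiff.mono_right hS), e]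

/-! ### b1, b2 -/

theorem b1_le {t : ℕ} (ht : t ≤ F.m) {x : ℝ} (hx : 0 < x) (hR : ∀ q ∈ F.R t, x ≤ q) :
    F.Pn (fun _ T => (T ∩ F.R t).card = F.r t) ≤ Real.exp (F.r t / x - rs (F.R t)) := by
  refine h.Pn_R_le ht (fun n => n = F.r t) fun Q hQ e => ?_
  simp only [Nat.add_eq_left, card_eq_zero]
  refine (PL.prob_empty_le (PL.pr_kN _)).trans (Real.exp_le_exp.2 ?_)
  have a1 := sum_sdiff (f := PL.kN) hQ
  have a2 := rs_le_card hx fun q hq => hR q (hQ hq)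
  rw [e] at a2
  rw [PL.sum_kN Q, PL.sum_kN (F.R t)] at a1
  linarith

theorem b2_le {t : ℕ} (ht : t ≤ F.m) (K : ℕ) :
    F.Pn (fun _ T => F.r t + K < (T ∩ F.R t).card) ≤
      rs (F.R t) ^ (K + 1) / (K + 1).factorial := by
  refine h.Pn_R_le ht (fun n => F.r t + K < n) fun Q _ _ => ?_
  refine le_trans (le_of_eq (PL.Ep_congr fun S _ => if_congr (by omega) rfl rfl))
    ((PL.prob_card_ge' (PL.pr_kN _) (K + 1)).trans ?_)
  rw [PL.sum_kN]
  gcongr
  · exact rs_nonneg _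
  · exact rs_mono sdiff_subset

theorem b2_le' {t : ℕ} (ht : t ≤ F.m) (K : ℕ) :
    F.Pn (fun _ T => F.r t + K < (T ∩ F.R t).card) ≤ Real.exp (2 * rs (F.R t) - K) := by
  refine h.Pn_R_le ht (fun n => F.r t + K < n) fun Q _ _ => ?_
  have e1 : (1 : ℝ) ≤ Real.exp 1 := Real.one_le_exp zero_le_one
  have e2 : Real.exp 1 ≤ 3 := by linarith [Real.exp_one_lt_d9]
  refine (PL.tail_up (PL.pr_kN _) e1 K _ fun S _ c => ?_).trans (Real.exp_le_exp.2 ?_)
  · exact_mod_cast (by omega : K ≤ S.card)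
  · rw [Real.log_exp, PL.sum_kN]
    nlinarith [rs_nonneg (F.R t \ Q), rs_mono (sdiff_subset (s := F.R t) (t := Q))]

/-! ### the size of the cofactor -/

theorem Et_log_G {t : ℕ} (ht : t ≤ F.m) :
    Et F.Lo F.w (fun c _ => Real.log (pv (c ∩ F.G t))) ≤
      F.B t * ∑ q ∈ F.G t, Real.log q / q := by
  rw [h.Et_G_obj ht fun c => Real.log (pv c),
    PL.Ep_congr fun c hc => SB.log_pv fun p hp => h.pr p (G_sub_Lo ht (hc hp)),
    PL.Ep_additive, mul_sum]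
  refine sum_le_sum fun p hp => ?_
  obtain ⟨a1, a2⟩ := (h.wt ht).pos hp
  have := Real.log_natCast_nonneg p
  calc F.B t / (p + F.B t) * Real.log p ≤ F.B t / p * Real.log p := by gcongr; linarith
    _ = _ := by ring

theorem log_pv_R {t : ℕ} (ht : t ≤ F.m) {y : ℝ} (hy : ∀ q ∈ F.R t, Real.log q ≤ y)
    {c : Finset ℕ} (hw : F.w c ≠ 0) : Real.log (pv (c ∩ F.R t)) ≤ F.r t * y := by
  rw [SB.log_pv fun p hp => h.pr p (R_sub_Lo ht (inter_subset_right hp))]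
  have := sum_le_card_nsmul (c ∩ F.R t) (fun q : ℕ => Real.log q) y
    fun q hq => hy q (inter_subset_right hq)
  rwa [card_of_w hw ht, nsmul_eq_mul] at this

theorem log_pv_Lv (c : Finset ℕ) {b : ℕ} (hb : b ≤ F.m + 1) :
    Real.log (pv (c ∩ F.Lv 0 b)) = ∑ s ∈ range b,
      (Real.log (pv (c ∩ F.G s)) + Real.log (pv (c ∩ F.R s))) := by
  induction b with
  | zero => simp [F.Lv_self, pv]
  | succ b ih =>
    have hb' : b ≤ F.m := by omega
    have p1 : ∀ X ⊆ F.Lo, ∀ q ∈ c ∩ X, q.Prime := fun X hX q hq => h.pr q (hX (inter_subset_right hq))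
    rw [sum_range_succ, ← ih (by omega), F.Lv_succ (Nat.zero_le b), inter_union_distrib_left,
      log_pv_union ((h.disj_Lv_cl le_rfl hb').mono inter_subset_right inter_subset_right)
        (p1 _ (F.Lv_sub (by omega))) (p1 _ (cl_sub_Lo hb')), Fam.cl, inter_union_distrib_left,
      log_pv_union ((h.dGR b hb').mono inter_subset_right inter_subset_right)
        (p1 _ (G_sub_Lo hb')) (p1 _ (R_sub_Lo hb'))]

theorem Pn_logG_le {b : ℕ} (hb : b ≤ F.m + 1) {g : ℕ → ℝ}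
    (hg : ∀ s < b, ∑ q ∈ F.G s, Real.log q / q ≤ g s) {x : ℝ} (hx : 0 < x) :
    F.Pn (fun c _ => x ≤ ∑ s ∈ range b, Real.log (pv (c ∩ F.G s))) ≤
      (∑ s ∈ range b, F.B s * g s) / x := by
  refine (h.Pn_le_Et (φ := fun c _ => (∑ s ∈ range b, Real.log (pv (c ∩ F.G s))) / x)
    (fun _ _ _ _ _ => div_nonneg (sum_nonneg fun _ _ => Real.log_natCast_nonneg _) hx.le)
    fun _ _ _ _ _ e => (one_le_div hx).2 e).trans ?_
  rw [Et_div, Et_sum F.Lo F.w (range b) fun s c _ => Real.log (pv (c ∩ F.G s))]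
  gcongr with s hs
  have hs' := mem_range.1 hs
  exact (h.Et_log_G (by omega)).trans
    (mul_le_mul_of_nonneg_left (hg s hs') (by linarith [h.B1 s]))

/-- the levels below b: the classes R contribute a deterministic amount -/
theorem Pn_log_Lv {b : ℕ} (hb : b ≤ F.m + 1) {g y : ℕ → ℝ}
    (hg : ∀ s < b, ∑ q ∈ F.G s, Real.log q / q ≤ g s)
    (hy : ∀ s < b, ∀ q ∈ F.R s, Real.log q ≤ y s) {x z : ℝ} (hx : 0 < x)
    (hz : x + ∑ s ∈ range b, F.r s * y s ≤ z) :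
    F.Pn (fun c _ => z < Real.log (pv (c ∩ F.Lv 0 b))) ≤ (∑ s ∈ range b, F.B s * g s) / x := by
  refine le_trans (h.Pn_mono fun T _ c _ hw e => ?_) (h.Pn_logG_le hb hg hx)
  rw [h.log_pv_Lv c hb, sum_add_distrib] at e
  have : ∑ s ∈ range b, Real.log (pv (c ∩ F.R s)) ≤ ∑ s ∈ range b, F.r s * y s :=
    sum_le_sum fun s hs => by
      have hs' := mem_range.1 hs
      exact h.log_pv_R (by omega) (hy s hs') hw
  linarith

/-- b4 -/
theorem b4_le {t : ℕ} (ht : t ≤ F.m) {g y : ℕ → ℝ}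
    (hg : ∀ s ≤ t, ∑ q ∈ F.G s, Real.log q / q ≤ g s)
    (hy : ∀ s < t, ∀ q ∈ F.R s, Real.log q ≤ y s) {x z : ℝ} (hx : 0 < x)
    (hz : x + ∑ s ∈ range t, F.r s * y s ≤ z) :
    F.Pn (fun c _ => z < Real.log (pv (c ∩ (F.Lv 0 t ∪ F.G t)))) ≤
      (∑ s ∈ range (t + 1), F.B s * g s) / x := by
  refine le_trans (h.Pn_mono fun T _ c _ hw e => ?_)
    (h.Pn_logG_le (Nat.succ_le_succ ht) (fun s hs => hg s (by omega)) hx)
  have p1 : ∀ X ⊆ F.Lo, ∀ q ∈ c ∩ X, q.Prime := fun X hX q hq => h.pr q (hX (inter_subset_right hq))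
  rw [inter_union_distrib_left, log_pv_union
    (((h.disj_Lv_cl le_rfl ht).mono_right (F.G_sub t)).mono inter_subset_right inter_subset_right)
    (p1 _ (F.Lv_sub (by omega))) (p1 _ (G_sub_Lo ht)), h.log_pv_Lv c (by omega),
    sum_add_distrib] at e
  have : ∑ s ∈ range t, Real.log (pv (c ∩ F.R s)) ≤ ∑ s ∈ range t, F.r s * y s :=
    sum_le_sum fun s hs => by
      have hs' := mem_range.1 hs
      exact h.log_pv_R (by omega) (hy s hs') hw
  rw [sum_range_succ]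
  linarith

/-- b3 -/
theorem b3_le {t : ℕ} (ht : t ≤ F.m + 1) {g y : ℕ → ℝ}
    (hg : ∀ s < t, ∑ q ∈ F.G s, Real.log q / q ≤ g s)
    (hy : ∀ s < t, ∀ q ∈ F.R s, Real.log q ≤ y s) {x M : ℝ} (hx : 0 < x) (hD : 0 < F.D)
    (hN : (F.N : ℝ) ≤ 4 * F.k * F.D) (hM : 0 < M)
    (hz : x + ∑ s ∈ range t, F.r s * y s + Real.log (4 * F.k) ≤ Real.log M) :
    F.Pn (fun c _ => F.D * M < F.N * pv (c ∩ F.Lv 0 t)) ≤ (∑ s ∈ range t, F.B s * g s) / x := by
  refine le_trans (h.Pn_mono fun T _ c _ _ e => ?_)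
    (h.Pn_log_Lv ht hg hy hx (z := Real.log M - Real.log (4 * F.k)) (by linarith))
  have a0 : (0 : ℝ) < pv (c ∩ F.Lv 0 t) := by
    exact_mod_cast h.pv_pos (inter_subset_right.trans (F.Lv_sub ht))
  have a1 : M < 4 * F.k * pv (c ∩ F.Lv 0 t) := by
    refine lt_of_mul_lt_mul_left ?_ hD.le
    nlinarith [mul_le_mul_of_nonneg_right hN a0.le]
  have a2 : (0 : ℝ) < 4 * F.k := by
    by_contra c0
    nlinarith [mul_nonpos_of_nonpos_of_nonneg (not_lt.1 c0) a0.le]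
  have a3 := Real.log_lt_log hM a1
  rw [Real.log_mul a2.ne' a0.ne'] at a3
  linarith

/-- adm -/
theorem adm_le {g y x La : ℕ → ℝ} (hg : ∀ s ≤ F.m, ∑ q ∈ F.G s, Real.log q / q ≤ g s)
    (hy : ∀ s ≤ F.m, ∀ q ∈ F.R s, Real.log q ≤ y s) (hx : ∀ s ≤ F.m, 0 < x s)
    (hz : ∀ s ≤ F.m, x s + ∑ u ∈ range (s + 1), F.r u * y u ≤ La s) :
    F.Pn (fun c _ => ∃ s ≤ F.m, La s < Real.log (pv (c ∩ F.Lv 0 (s + 1)))) ≤
      ∑ s ∈ range (F.m + 1), (∑ u ∈ range (s + 1), F.B u * g u) / x s := by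
  refine (h.Pn_exists_le F.m fun s c _ => La s < Real.log (pv (c ∩ F.Lv 0 (s + 1)))).trans
    (sum_le_sum fun s hs => ?_)
  have hs' : s ≤ F.m := Nat.lt_succ_iff.1 (mem_range.1 hs)
  exact h.Pn_log_Lv (Nat.succ_le_succ hs') (fun u hu => hg u (by omega))
    (fun u hu => hy u (by omega)) (hx s hs') (hz s hs')

/-! ### ext -/

theorem ext_le (R0 : F.R 0 = ∅) (r0 : F.r 0 = 0) {Δ : ℝ} {x : ℝ}
    (hΔ : Δ ≤ Real.exp (x * Real.log (F.B 0 + 1))) :
    F.Pn (fun c T => F.Vl 0 T < Δ * F.wl 0 c) ≤ Real.exp (x - muE F 0 / 2) := by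
  have hB := h.B1 0
  have hZ := h.ZG_pos 0
  have hl : 0 < Real.log (F.B 0 + 1) := Real.log_pos (by linarith)
  have s1 : F.Pn (fun c T => F.Vl 0 T < Δ * F.wl 0 c) ≤
      F.Pn (fun c T => ((((T ∩ F.G 0) \ (c ∩ F.G 0)).card : ℕ) : ℝ) ≤ x) := by
    refine h.Pn_mono fun T _ c hc _ e => ?_
    have e1 : F.Vl 0 T = (F.B 0 + 1) ^ (T ∩ F.G 0).card / F.ZG 0 := by
      simp [Fam.Vl, Fam.VG, Fam.VR, R0, r0, ZR_zero r0]
    have e2 : F.wl 0 c = F.B 0 ^ (c ∩ F.G 0).card / F.ZG 0 := by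
      simp [Fam.wl, Fam.wG, Fam.wR, R0, r0, ZR_zero r0]
    have e3 := card_sdiff_add_card_eq_card (inter_subset_inter hc (Subset.refl (F.G 0)))
    rw [e1, e2, ← mul_div_assoc, div_lt_div_iff_of_pos_right hZ, ← e3, pow_add] at e
    set a := ((T ∩ F.G 0) \ (c ∩ F.G 0)).card
    set b := (c ∩ F.G 0).card
    have b1 : F.B 0 ^ b ≤ (F.B 0 + 1) ^ b := by gcongr; linarith
    have b2 : (F.B 0 + 1) ^ a < Δ := by
      refine lt_of_mul_lt_mul_right (lt_of_le_of_lt ?_ e) (show 0 ≤ F.B 0 ^ b by positivity)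
      gcongr
    have b3 := b2.trans_le hΔ
    rw [← Real.exp_log (show 0 < (F.B 0 + 1) ^ a by positivity), Real.log_pow,
      Real.exp_lt_exp] at b3
    exact (lt_of_mul_lt_mul_right b3 hl.le).le
  refine s1.trans ?_
  rw [h.Pn_G_extra (Nat.zero_le _) fun S => (S.card : ℝ) ≤ x]
  have e1 : Real.exp (-1) ≤ 1 / 2 := by
    rw [Real.exp_neg, one_div]
    exact inv_anti₀ (by norm_num) (by linarith [Real.add_one_le_exp (1 : ℝ)])
  refine (PL.tail_low (PL.pr_extra (h.wt (Nat.zero_le _))) (Real.exp_pos (-1)) (by linarith) x _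
    fun S _ c => c).trans (Real.exp_le_exp.2 ?_)
  rw [Real.log_exp]
  have : 0 ≤ muE F 0 := sum_nonneg fun p _ => by positivity
  change (Real.exp (-1) - 1) * muE F 0 - x * -1 ≤ _
  nlinarith

/-! ### ok -/

theorem G_up {t : ℕ} (ht : t ≤ F.m) (n : ℕ) :
    F.Pn (fun _ T => n < (T ∩ F.G t).card) ≤ Real.exp (2 * muV F t - n) := by
  rw [h.Pn_G_site ht fun T => n < T.card]
  have e1 : (1 : ℝ) ≤ Real.exp 1 := Real.one_le_exp zero_le_one
  have e2 : Real.exp 1 ≤ 3 := by linarith [Real.exp_one_lt_d9]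
  refine (PL.tail_up (PL.pr_V (h.wt ht)) e1 n _ fun S _ c => ?_).trans (Real.exp_le_exp.2 ?_)
  · exact_mod_cast c.le
  · rw [Real.log_exp]
    change (Real.exp 1 - 1) * muV F t - n * 1 ≤ _
    nlinarith [h.muV_nonneg t]

theorem G_cheb {t : ℕ} (ht : t ≤ F.m) {n1 n2 : ℕ} {s : ℝ} (hs : 0 < s)
    (h1 : n1 + s ≤ muV F t + 1 ∨ n1 = 0) (h2 : muV F t + s ≤ n2 + 1) :
    F.Pn (fun _ T => (T ∩ F.G t).card < n1 ∨ n2 < (T ∩ F.G t).card) ≤ muV F t / s ^ 2 := by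
  rw [h.Pn_G_site ht fun T => T.card < n1 ∨ n2 < T.card]
  refine PL.chebyshev_card (PL.pr_V (h.wt ht)) hs _ fun S _ c => ?_
  change s ≤ |(S.card : ℝ) - muV F t|
  rcases c with c | c
  · rcases h1 with h1 | h1
    · have : (S.card : ℝ) + 1 ≤ n1 := by exact_mod_cast c
      exact le_abs.2 (Or.inr (by linarith))
    · omega
  · have : (n2 : ℝ) + 1 ≤ S.card := by exact_mod_cast c
    exact le_abs.2 (Or.inl (by linarith))

/-- one level is typical when the two counts are in their ranges -/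
theorem not_ok_le {t : ℕ} (ht : t ≤ F.m) {n1 n2 : ℕ}
    (hlo : P.lo t ≤ (F.B t + 1) ^ n1 / (F.ZG t * F.ZR t))
    (hhi : (F.B t + 1) ^ n2 * ((F.r t + P.Kx t).choose (F.r t)) / (F.ZG t * F.ZR t) ≤ P.hi t) :
    F.Pn (fun _ T => ¬ Ok F P t T) ≤
      F.Pn (fun _ T => (T ∩ F.G t).card < n1 ∨ n2 < (T ∩ F.G t).card) +
        F.Pn (fun _ T => F.r t + P.Kx t < (T ∩ F.R t).card) := by
  refine le_trans (h.Pn_mono fun T _ c hc hw e => ?_) (h.Pn_or _ _)
  by_contra c0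
  simp only [not_or, not_lt] at c0
  obtain ⟨⟨c1, c2⟩, c3⟩ := c0
  have c4 : F.r t ≤ (T ∩ F.R t).card := by
    rw [← card_of_w hw ht]; exact card_le_card (inter_subset_inter hc Subset.rfl)
  have hB := h.B1 t
  have hG := h.ZG_pos t
  have hR := h.ZR_pos ht
  have e1 : F.Vl t T = (F.B t + 1) ^ (T ∩ F.G t).card * ((T ∩ F.R t).card.choose (F.r t)) /
      (F.ZG t * F.ZR t) := by
    unfold Fam.Vl Fam.VG Fam.VR; rw [div_mul_div_comm]
  have d1 : (1 : ℝ) ≤ (T ∩ F.R t).card.choose (F.r t) := by exact_mod_cast Nat.choose_pos c4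
  have d2 : (((T ∩ F.R t).card.choose (F.r t) : ℕ) : ℝ) ≤ (F.r t + P.Kx t).choose (F.r t) := by
    exact_mod_cast Nat.choose_le_choose _ c3
  have d3 : (F.B t + 1) ^ n1 ≤ (F.B t + 1) ^ (T ∩ F.G t).card := pow_le_pow_right₀ (by linarith) c1
  have d4 : (F.B t + 1) ^ (T ∩ F.G t).card ≤ (F.B t + 1) ^ n2 := pow_le_pow_right₀ (by linarith) c2
  refine e ⟨hlo.trans ?_, le_trans ?_ hhi, c3⟩
  · rw [e1]
    gcongr
    exact d3.trans (le_mul_of_one_le_right (by positivity) d1)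
  · rw [e1]; gcongr

/-- ok: Chebyshev at level 0, exponential tails above -/
theorem ok_le (R0 : F.R 0 = ∅) {n1 : ℕ} {n2 : ℕ → ℕ} {s : ℝ} (hs : 0 < s)
    (h1 : n1 + s ≤ muV F 0 + 1 ∨ n1 = 0) (h2 : muV F 0 + s ≤ n2 0 + 1)
    (lo0 : P.lo 0 ≤ (F.B 0 + 1) ^ n1 / (F.ZG 0 * F.ZR 0))
    (lo1 : ∀ t ∈ Icc 1 F.m, P.lo t ≤ 1 / (F.ZG t * F.ZR t))
    (hi : ∀ t ≤ F.m, (F.B t + 1) ^ n2 t * ((F.r t + P.Kx t).choose (F.r t)) /
      (F.ZG t * F.ZR t) ≤ P.hi t) :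
    F.Pn (fun _ T => ∃ t ≤ F.m, ¬ Ok F P t T) ≤ muV F 0 / s ^ 2 + ∑ t ∈ Icc 1 F.m,
      (Real.exp (2 * muV F t - n2 t) + Real.exp (2 * rs (F.R t) - P.Kx t)) := by
  refine (h.Pn_exists_le F.m fun t _ T => ¬ Ok F P t T).trans ?_
  rw [range_eq_Ico, sum_eq_sum_Ico_succ_bot (Nat.succ_pos _),
    show Ico (0 + 1) F.m.succ = Icc 1 F.m by ext; simp [Nat.lt_succ_iff]]
  refine add_le_add ?_ (sum_le_sum fun t ht => ?_)
  · have a1 := h.not_ok_le (Nat.zero_le _) lo0 (hi 0 (Nat.zero_le _))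
    have a2 := h.G_cheb (Nat.zero_le _) hs h1 h2
    have a3 : F.Pn (fun _ T => F.r 0 + P.Kx 0 < (T ∩ F.R 0).card) ≤ 0 :=
      (h.Pn_le_Et (φ := fun _ _ => 0) (fun _ _ _ _ _ => le_rfl) fun _ _ _ _ _ e => by
        simp [R0] at e).trans (h.nrm_w.const 0).le
    linarith
  · have ht' := (mem_Icc.1 ht).2
    have a1 := h.not_ok_le ht' (n1 := 0) (by simpa using lo1 t ht) (hi t ht')
    have a2 : F.Pn (fun _ T => (T ∩ F.G t).card < 0 ∨ n2 t < (T ∩ F.G t).card) ≤ _ :=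
      (h.Pn_mono fun _ _ _ _ _ e => e.resolve_left (Nat.not_lt_zero _)).trans (h.G_up ht' (n2 t))
    have a3 := h.b2_le' ht' (P.Kx t)
    linarith

end Str

end Pool.Agent.P.MP_a14ce1_nt.Fu.St
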