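import Pool.Agent.P.MP_a14ce1_nt.Fu.PaB
import Pool.Agent.P.MP_a14ce1_nt.Fu.PnLib

/-! The fields adm, b1, b2, b3, b4 for the concrete families. -/

open Finset

namespace Pool.Agent.P.MP_a14ce1_nt.Fu.St.Str

open Ch (pv mu rs lam)

variable {F : Fam} (h : Str F)
include h

/-- Markov for the number of the extra members of R t -/
theorem R_markov {t : ℕ} (ht : t ≤ F.m) (K : ℕ) :
    F.Pn (fun _ T => F.r t + K < (T ∩ F.R t).card) ≤ rs (F.R t) / (K + 1) := by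
  refine h.Pn_R_le ht (fun n => F.r t + K < n) fun Q _ _ => ?_
  refine (PL.markov (PL.pr_kN _) (φ := fun S => (S.card : ℝ)) (fun _ _ => Nat.cast_nonneg _)
    (by positivity : (0 : ℝ) < K + 1) _ fun S _ c => ?_).trans ?_
  · exact_mod_cast (by omega : K + 1 ≤ S.card)
  · rw [PL.Ep_card, PL.sum_kN]
    gcongr
    exact rs_mono sdiff_subset

/-- Markov for the number of the members of G t -/
theorem G_markov {t : ℕ} (ht : t ≤ F.m) (n : ℕ) :
    F.Pn (fun _ T => n < (T ∩ F.G t).card) ≤ muV F t / (n + 1) := by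
  rw [h.Pn_G_site ht fun T => n < T.card]
  refine (PL.markov (PL.pr_V (h.wt ht)) (φ := fun S => (S.card : ℝ))
    (fun _ _ => Nat.cast_nonneg _) (by positivity : (0 : ℝ) < n + 1) _ fun S _ c => ?_).trans ?_
  · exact_mod_cast c
  · rw [PL.Ep_card]; rfl

end Pool.Agent.P.MP_a14ce1_nt.Fu.St.Str

namespace Pool.Agent.P.MP_a14ce1_nt.Fu.Pa.NuOk

open Ch (pv mu rs pr)
open St

variable {ν : Nu} {C C2 j : ℕ} (h : NuOk ν C C2)
include h

theorem str (j : ℕ) : Str (ν.fam j) := (h.lev j).str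

theorem G_disjoint {s t : ℕ} (a : s < t) : Disjoint (ν.G s) (ν.G t) := by
  obtain ⟨t, rfl⟩ : ∃ u, t = u + 1 := ⟨t - 1, by omega⟩
  exact disjoint_left.2 fun q b c => ((h.log_G b).trans (h.top_mono (Nat.lt_succ_iff.1 a))).not_gt
    (Nu.mem_G_succ.1 c).2.1

/-- the mean logarithm of the weighted part of the cofactor -/
theorem mass (t : ℕ) : ∑ s ∈ range (t + 1), ν.B s * ∑ q ∈ ν.G s, Real.log q / q ≤
    ν.B0 * (ν.lG + ν.A) + 3 * (ν.l t + ν.A) := by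
  have e : ∑ s ∈ Icc 1 t, ν.B s * ∑ q ∈ ν.G s, Real.log q / q =
      3 * ∑ q ∈ (Icc 1 t).biUnion ν.G, Real.log q / q := by
    rw [sum_biUnion, mul_sum]
    · exact sum_congr rfl fun s hs => by rw [ν.B_pos (mem_Icc.1 hs).1]
    · intro a _ b _ c
      rcases lt_or_gt_of_ne c with c | c
      · exact h.G_disjoint c
      · exact (h.G_disjoint c).symm
  rw [range_eq_Ico, sum_eq_sum_Ico_succ_bot (Nat.succ_pos _),
    show Ico (0 + 1) t.succ = Icc 1 t by ext; simp [Nat.lt_succ_iff], e, ν.B_zero]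
  have := h.B1
  have a := h.lg_G0
  have b := h.lg_Gs t
  gcongr

theorem mass' (t : ℕ) : ∑ s ∈ range (t + 1), ν.B s * ∑ q ∈ ν.G s, Real.log q / q ≤
    ν.κ / 8 * ν.l (t + 1) := (h.mass t).trans (h.gm t)

/-- the logarithm of the unweighted part of the cofactor -/
theorem sum_r (t : ℕ) : ∑ s ∈ range t, ν.r s * (ν.eL * ν.l s) ≤ ν.l t / 3 := by
  induction t with
  | zero => simpa using by linarith [h.l0 0]
  | succ t ih => rw [sum_range_succ]; linarith [h.lsr t, h.four_l t]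

theorem log_R {s q : ℕ} (hq : q ∈ ν.R s) : Real.log q ≤ ν.eL * ν.l s := (Nu.mem_R.1 hq).2.2.2

theorem N_le : ((ν.fam j).N : ℝ) ≤ 4 * (ν.fam j).k * (ν.fam j).D := by
  change ((⌈2 * ν.k * Real.exp ν.LD⌉₊ : ℕ) : ℝ) ≤ 4 * ν.k * Real.exp ν.LD
  have a : (2 : ℝ) ≤ ν.k := by exact_mod_cast h.k2
  have b := Real.one_le_exp h.LD_pos.le
  have := Nat.ceil_lt_add_one (show 0 ≤ 2 * ν.k * Real.exp ν.LD by positivity)
  nlinarith

/-- the cofactor of the levels up to t is rarely larger than exp (l (t + 1)) -/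
theorem Pn_log {t : ℕ} (ht : t ≤ ν.m j) {x z : ℝ} (hx : 0 < x) (hz : x + ν.l (t + 1) / 3 ≤ z) :
    (ν.fam j).Pn (fun c _ => z < Real.log (pv (c ∩ (ν.fam j).Lv 0 (t + 1)))) ≤
      ν.κ / 8 * ν.l (t + 1) / x :=
  ((h.str j).Pn_log_Lv (Nat.succ_le_succ ht) (fun _ _ => le_rfl) (fun _ _ _ hq => h.log_R hq) hx
    (le_trans (add_le_add_right (h.sum_r _) _) hz)).trans
    (div_le_div_of_nonneg_right (h.mass' t) hx.le)

theorem adm' : (ν.fam j).Pn (fun c _ => ∃ s ≤ (ν.fam j).m,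
    (ν.par C j).La s < Real.log (pv (c ∩ (ν.fam j).Lv 0 (s + 1)))) ≤ (ν.par C j).η := by
  refine ((h.str j).Pn_exists_le (ν.m j) fun s c _ =>
    ν.La s < Real.log (pv (c ∩ (ν.fam j).Lv 0 (s + 1)))).trans ?_
  have e0 := h.η0
  have e1 := h.η1
  calc _ ≤ ∑ s ∈ range (ν.m j + 1), ν.η / 2 * (1 / 2) ^ s := by
        refine sum_le_sum fun s hs => ?_
        have l0 := h.l0 (s + 1)
        have p1 : (1 : ℝ) ≤ 2 ^ s := one_le_pow₀ (by norm_num)
        have p2 : 1 ≤ 2 ^ (s + 1) / ν.η := by rw [one_le_div e0, pow_succ]; linarith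
        refine (h.Pn_log (Nat.lt_succ_iff.1 (mem_range.1 hs))
          (x := 2 ^ (s + 1) / ν.η * ν.l (s + 1)) (by positivity) ?_).trans ?_
        · have : ν.La s = 2 * (2 ^ (s + 1) / ν.η * ν.l (s + 1)) := by unfold Nu.La; ring
          nlinarith
        · rw [div_le_iff₀ (by positivity)]
          have : ν.η / 2 * (1 / 2) ^ s * (2 ^ (s + 1) / ν.η * ν.l (s + 1)) = ν.l (s + 1) := by
            rw [one_div, inv_pow]; field_simp; ring
          nlinarith [h.κ1]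
    _ ≤ ν.η := by
        rw [← mul_sum]
        nlinarith [sum_geometric_two_le (ν.m j + 1)]

theorem b1' : ∀ t ∈ Icc 1 (ν.fam j).m,
    (ν.fam j).Pn (fun _ T => (T ∩ (ν.fam j).R t).card = (ν.fam j).r t) ≤ (ν.par C j).κ := by
  intro t ht
  refine ((h.str j).b1_le (mem_Icc.1 ht).2 (Real.exp_pos (ν.l t))
    fun _ hq => Nu.exp_le_R hq).trans ?_
  change Real.exp (ν.r t / Real.exp (ν.l t) - rs (ν.R t)) ≤ ν.κ
  have a := (div_le_one (Real.exp_pos (ν.l t))).2 (h.rl t)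
  have b := h.le_rs_R (mem_Icc.1 ht).1
  have c := h.eLκ
  rw [one_div, Real.log_inv] at c
  rw [← Real.le_log_iff_exp_le h.κ0]
  linarith

theorem b2' : ∀ t ∈ Icc 1 (ν.fam j).m, (ν.fam j).Pn
    (fun _ T => (ν.fam j).r t + (ν.par C j).K3 < (T ∩ (ν.fam j).R t).card) ≤ (ν.par C j).κ := by
  intro t ht
  refine ((h.str j).R_markov (mem_Icc.1 ht).2 _).trans ?_
  change rs (ν.R t) / (ν.K3 + 1) ≤ ν.κ
  rw [div_le_iff₀ (by positivity)]
  linarith [h.rs_R t, h.K3κ, h.κ0]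

theorem b3' : ∀ t ∈ Icc 1 (ν.fam j).m, (ν.fam j).Pn (fun c _ => (ν.fam j).D * (ν.par C j).mn t <
    (ν.fam j).N * pv (c ∩ (ν.fam j).Lv 0 t)) ≤ (ν.par C j).κ := by
  intro t ht
  obtain ⟨t, rfl⟩ : ∃ u, t = u + 1 := ⟨t - 1, by have := (mem_Icc.1 ht).1; omega⟩
  have l0 := h.l0 (t + 1)
  refine ((h.str j).b3_le ((mem_Icc.1 ht).2.trans (Nat.le_succ _)) (fun _ _ => le_rfl)
    (fun _ _ _ hq => h.log_R hq) (x := ν.l (t + 1) / 8) (by positivity) (Real.exp_pos _) h.N_le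
    (Real.exp_pos _) ?_).trans ?_
  · change _ + ∑ s ∈ range (t + 1), ν.r s * (ν.eL * ν.l s) + Real.log (4 * ν.k) ≤
      Real.log (Real.exp (ν.l (t + 1)))
    have a : (2 : ℝ) ≤ ν.k := by exact_mod_cast h.k2
    have := Real.log_le_log (by positivity) (show (4 : ℝ) * ν.k ≤ 10 * ν.k by linarith)
    rw [Real.log_exp]
    linarith [h.sum_r (t + 1), h.lk, h.l_mono (Nat.zero_le (t + 1))]
  · rw [div_le_iff₀ (by positivity)]
    exact (h.mass' t).trans (le_of_eq (by change _ = ν.κ * _; ring))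

theorem b4' : ∀ t ∈ Icc 1 (ν.fam j).m, (ν.fam j).Pn (fun c _ => (ν.par C j).K2 * (ν.par C j).l t <
    Real.log (pv (c ∩ ((ν.fam j).Lv 0 t ∪ (ν.fam j).G t)))) ≤ (ν.par C j).κ := by
  intro t ht
  obtain ⟨t, rfl⟩ : ∃ u, t = u + 1 := ⟨t - 1, by have := (mem_Icc.1 ht).1; omega⟩
  have l0 := h.l0 (t + 1)
  have k0 := h.κ0
  have k1 := h.κ1
  have k2 := h.K2κ
  have K : 16 ≤ ν.K2 := by nlinarith
  refine ((h.str j).b4_le (mem_Icc.1 ht).2 (fun _ _ => le_rfl)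
    (fun _ _ _ hq => h.log_R hq) (x := ν.K2 * ν.l (t + 1) / 2) (by positivity) ?_).trans ?_
  · change _ + ∑ s ∈ range (t + 1), ν.r s * (ν.eL * ν.l s) ≤ ν.K2 * ν.l (t + 1)
    nlinarith [h.sum_r (t + 1)]
  · rw [div_le_iff₀ (by positivity)]
    refine (h.mass (t + 1)).trans ?_
    change _ ≤ ν.κ * _
    nlinarith [h.gm t, h.l0 t]

end Pool.Agent.P.MP_a14ce1_nt.Fu.Pa.NuOk
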