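import Pool.Agent.P.MP_a14ce1_nt.Fu.PnLv

/-! The fields sb1, sb2, sb3 from the density of the classes G 1, .., G t. -/

open Finset

namespace Pool.Agent.P.MP_a14ce1_nt.Fu.St

open Ch (pv mu rs lam)

theorem sb_of_Q2 {P : Finset ℕ} {w V : Finset ℕ → ℝ} {C : ℝ} (h : Q2 P w 1 C)
    (hV : ∀ T ⊆ P, Vt w T = V T) (x : ℝ) : sb P w V x ≤ C := by
  refine le_trans (le_of_eq ?_) (h x x)
  rw [sb, EG_eq]
  refine Em_congr fun T hT => ?_
  rw [hV T hT, sq, dw, sum_filter]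
  simp only [wn, mul_ite, mul_one, mul_zero]

theorem nrm_prod (I : Finset ℕ) (L : ℕ → Finset ℕ) (v : ℕ → Finset ℕ → ℝ)
    (hd : ∀ s ∈ I, ∀ t ∈ I, s ≠ t → Disjoint (L s) (L t)) (hn : ∀ s ∈ I, Nrm (L s) (v s))
    (hl : ∀ s ∈ I, ∀ P c, L s ⊆ P → v s (c ∩ P) = v s c) :
    Nrm (I.biUnion L) fun c => ∏ s ∈ I, v s c := by
  induction I using Finset.induction_on with
  | empty => exact ⟨fun _ => by simp, by simp [pv]⟩
  | insert a I ha ih =>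
    have h1 := ih (fun s hs t ht => hd s (mem_insert_of_mem hs) t (mem_insert_of_mem ht))
      (fun s hs => hn s (mem_insert_of_mem hs)) fun s hs => hl s (mem_insert_of_mem hs)
    have d : Disjoint (L a) (I.biUnion L) := (disjoint_biUnion_right _ _ _).2 fun t ht =>
      hd a (mem_insert_self _ _) t (mem_insert_of_mem ht) fun e => ha (e ▸ ht)
    have h2 := Nrm.wm d (hn a (mem_insert_self _ _)) h1
    rw [biUnion_insert]
    convert h2 using 2 with c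
    rw [prod_insert ha, wm, hl a (mem_insert_self _ _) _ _ Subset.rfl]
    congr 1
    exact prod_congr rfl fun s hs =>
      (hl s (mem_insert_of_mem hs) _ _ (subset_biUnion_of_mem L hs)).symm

namespace Lev

variable {F : Fam} (h : Lev F)
include h

theorem dGG {s t : ℕ} (hs : s ≤ F.m) (ht : t ≤ F.m) (hst : s ≠ t) : Disjoint (F.G s) (F.G t) :=
  (h.dcl hs ht hst).mono (F.G_sub s) (F.G_sub t)

theorem dRR {s t : ℕ} (hs : s ≤ F.m) (ht : t ≤ F.m) (hst : s ≠ t) : Disjoint (F.R s) (F.R t) :=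
  (h.dcl hs ht hst).mono (F.R_sub s) (F.R_sub t)

theorem dGR' {s t : ℕ} (hs : s ≤ F.m) (ht : t ≤ F.m) : Disjoint (F.G s) (F.R t) := by
  by_cases e : s = t
  · subst e; exact h.dGR s hs
  · exact (h.dcl hs ht e).mono (F.G_sub s) (F.R_sub t)

theorem prod_wG {I : Finset ℕ} (hI : ∀ s ∈ I, s ≤ F.m ∧ F.B s = 3) {c : Finset ℕ}
    (hc : c ⊆ I.biUnion F.G) : ∏ s ∈ I, F.wG s c = SB.wh (fun _ => 3) (I.biUnion F.G) c := by
  have d : (I : Set ℕ).PairwiseDisjoint F.G := fun s hs t ht e => h.dGG (hI s hs).1 (hI t ht).1 e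
  have d' : (I : Set ℕ).PairwiseDisjoint fun s => c ∩ F.G s := fun s hs t ht e =>
    (d hs ht e).mono inter_subset_right inter_subset_right
  have e : c = I.biUnion fun s => c ∩ F.G s := by
    rw [← inter_biUnion]; exact (inter_eq_left.2 hc).symm
  rw [SB.wh, SB.Zb, prod_biUnion d]
  conv_rhs => rw [e, prod_biUnion d']
  rw [← prod_div_distrib]
  refine prod_congr rfl fun s hs => ?_
  rw [Fam.wG, Fam.ZG, (hI s hs).2, prod_const]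

theorem q2_core {I J : Finset ℕ} (hI : ∀ s ∈ I, s ≤ F.m ∧ F.B s = 3) (hJ : ∀ s ∈ J, s ≤ F.m)
    {Q0 : Finset ℕ} {w0 : Finset ℕ → ℝ} (n0 : Nrm Q0 w0)
    (l0 : ∀ P c, Q0 ⊆ P → w0 (c ∩ P) = w0 c) (p0 : ∀ q ∈ Q0, q.Prime)
    (d1 : Disjoint (I.biUnion F.G) Q0) (d2 : Disjoint Q0 (J.biUnion F.R)) {K c0 l : ℝ}
    (hp : SB.Pop K c0 1 l (I.biUnion F.G) fun _ => 3) :
    Q2 (I.biUnion F.G ∪ (Q0 ∪ J.biUnion F.R))
      (fun c => (∏ s ∈ I, F.wG s c) * (w0 c * ∏ s ∈ J, F.wR s c)) 1 (SB.Csb2 K c0 / l ^ 2) := by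
  have n1 := nrm_prod J F.R F.wR (fun s hs t ht => h.dRR (hJ s hs) (hJ t ht))
    (fun s hs => h.nrm_wR (hJ s hs)) fun s _ P c hP => F.wR_inter hP c
  have d3 : Disjoint (I.biUnion F.G) (J.biUnion F.R) :=
    (disjoint_biUnion_left _ _ _).2 fun s hs => (disjoint_biUnion_right _ _ _).2 fun t ht =>
      h.dGR' (hI s hs).1 (hJ t ht)
  have c0' : 0 ≤ SB.Csb2 K c0 * (1 / l) ^ 2 := mul_nonneg (SB.Csb2_pos hp.K0 c0).le (sq_nonneg _)
  have h1 := (q2_sb hp).ext c0' (disjoint_union_right.2 ⟨d1, d3⟩) hp.prime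
    (fun q hq => by
      rcases mem_union.1 hq with hq | hq
      · exact p0 q hq
      · obtain ⟨s, hs, hq⟩ := mem_biUnion.1 hq
        exact h.pr s (hJ s hs) q (F.R_sub s hq)) (Nrm.wm d2 n0 n1)
  rw [div_pow, one_pow, mul_one_div] at h1
  refine h1.congr fun c _ => ?_
  rw [wm, wm, ← h.prod_wG hI inter_subset_right, l0 _ _ Subset.rfl, l0 _ _ subset_union_left]
  congr 1
  · exact prod_congr rfl fun s hs => F.wG_inter (subset_biUnion_of_mem F.G hs) c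
  · congr 1
    refine prod_congr rfl fun s hs => ?_
    rw [F.wR_inter (subset_biUnion_of_mem F.R hs),
      F.wR_inter ((subset_biUnion_of_mem F.R hs).trans subset_union_right)]

theorem d0G {I : Finset ℕ} (hI : ∀ s ∈ I, 1 ≤ s ∧ s ≤ F.m) : Disjoint (I.biUnion F.G) (F.cl 0) :=
  (disjoint_biUnion_left _ _ _).2 fun s hs =>
    (h.dcl (hI s hs).2 (Nat.zero_le _) (by have := (hI s hs).1; omega)).mono_left (F.G_sub s)

theorem d0R {I : Finset ℕ} (hI : ∀ s ∈ I, 1 ≤ s ∧ s ≤ F.m) : Disjoint (F.cl 0) (I.biUnion F.R) :=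
  (disjoint_biUnion_right _ _ _).2 fun s hs =>
    (h.dcl (Nat.zero_le _) (hI s hs).2 (by have := (hI s hs).1; omega)).mono_right (F.R_sub s)

/-- the field sb1 -/
theorem sb1 (hB : ∀ s, 1 ≤ s → s ≤ F.m → F.B s = 3) {t : ℕ} (h1 : 1 ≤ t) (h2 : t ≤ F.m)
    {K c0 l : ℝ} (hp : SB.Pop K c0 1 l ((Icc 1 t).biUnion F.G) fun _ => 3) (x : ℝ) :
    sb (F.Lv 0 t ∪ F.G t) (fun e => F.wh 0 t e * F.wG t e) (fun T => F.V 0 t T * F.VG t T) x ≤
      SB.Csb2 K c0 / l ^ 2 := by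
  have hI : ∀ s ∈ Icc 1 t, 1 ≤ s ∧ s ≤ F.m := fun s hs => by rw [mem_Icc] at hs; omega
  have hJ : ∀ s ∈ Ico 1 t, 1 ≤ s ∧ s ≤ F.m := fun s hs => by rw [mem_Ico] at hs; omega
  have q := h.q2_core (I := Icc 1 t) (J := Ico 1 t) (fun s hs => ⟨(hI s hs).2, hB s (hI s hs).1 (hI s hs).2⟩)
    (fun s hs => (hJ s hs).2) (h.nrm_wl (Nat.zero_le _)) (fun P c hP => F.wl_inter hP c)
    (h.pr 0 (Nat.zero_le _)) (h.d0G hI) (h.d0R hJ) hp
  have e0 : Ico 0 t = insert 0 (Ico 1 t) := by ext s; simp only [mem_Ico, mem_insert]; omega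
  have e1 : Icc 1 t = insert t (Ico 1 t) := by ext s; simp only [mem_Ico, mem_Icc, mem_insert]; omega
  have eP : (Icc 1 t).biUnion F.G ∪ (F.cl 0 ∪ (Ico 1 t).biUnion F.R) = F.Lv 0 t ∪ F.G t := by
    rw [Fam.Lv, e0, e1, biUnion_insert, biUnion_insert]
    have : (Ico 1 t).biUnion F.cl = (Ico 1 t).biUnion F.G ∪ (Ico 1 t).biUnion F.R := biUnion_union
    rw [this]
    ext q; simp only [mem_union]; tauto
  rw [eP] at q
  refine sb_of_Q2 (q.congr fun c _ => ?_) (fun T hT => ?_) x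
  · rw [Fam.wh, e0, e1, prod_insert (by simp), prod_insert (by simp)]
    have : ∏ s ∈ Ico 1 t, F.wl s c = (∏ s ∈ Ico 1 t, F.wG s c) * ∏ s ∈ Ico 1 t, F.wR s c :=
      prod_mul_distrib
    rw [this]; ring
  · have d : Disjoint (F.Lv 0 t) (F.G t) := (h.dLv_cl h2).mono_right (F.G_sub t)
    have e : T = T ∩ F.Lv 0 t ∪ T ∩ F.G t := by
      rw [← inter_union_distrib_left]; exact (inter_eq_left.2 hT).symm
    have ew : (fun e => F.wh 0 t e * F.wG t e) = wm (F.Lv 0 t) (F.G t) (F.wh 0 t) (F.wG t) :=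
      funext fun c => by rw [wm, F.wh_inter Subset.rfl, F.wG_inter Subset.rfl]
    rw [ew]
    conv_lhs => rw [e]
    rw [Vt_wm d inter_subset_right inter_subset_right,
      h.Vt_wh (Nat.zero_le _) (by omega) inter_subset_right, F.Vt_wG inter_subset_right,
      F.V_inter Subset.rfl, F.VG_inter Subset.rfl]

theorem q2_w (hB : ∀ s, 1 ≤ s → s ≤ F.m → F.B s = 3) {K c0 l : ℝ}
    (hp : SB.Pop K c0 1 l ((Icc 1 F.m).biUnion F.G) fun _ => 3) :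
    Q2 F.Lo F.w 1 (SB.Csb2 K c0 / l ^ 2) := by
  have hI : ∀ s ∈ Icc 1 F.m, 1 ≤ s ∧ s ≤ F.m := fun s hs => mem_Icc.1 hs
  have q := h.q2_core (I := Icc 1 F.m) (J := Icc 1 F.m)
    (fun s hs => ⟨(hI s hs).2, hB s (hI s hs).1 (hI s hs).2⟩)
    (fun s hs => (hI s hs).2) (h.nrm_wl (Nat.zero_le _)) (fun P c hP => F.wl_inter hP c)
    (h.pr 0 (Nat.zero_le _)) (h.d0G hI) (h.d0R hI) hp
  have e0 : Ico 0 (F.m + 1) = insert 0 (Icc 1 F.m) := by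
    ext s; simp only [mem_Ico, mem_Icc, mem_insert]; omega
  have eP : (Icc 1 F.m).biUnion F.G ∪ (F.cl 0 ∪ (Icc 1 F.m).biUnion F.R) = F.Lo := by
    rw [Fam.Lo, Fam.Lv, e0, biUnion_insert]
    have : (Icc 1 F.m).biUnion F.cl = (Icc 1 F.m).biUnion F.G ∪ (Icc 1 F.m).biUnion F.R :=
      biUnion_union
    rw [this]
    ext q; simp only [mem_union]; tauto
  rw [eP] at q
  refine q.congr fun c _ => ?_
  rw [Fam.w, Fam.wh, e0, prod_insert (by simp)]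
  have : ∏ s ∈ Icc 1 F.m, F.wl s c = (∏ s ∈ Icc 1 F.m, F.wG s c) * ∏ s ∈ Icc 1 F.m, F.wR s c :=
    prod_mul_distrib
  rw [this]; ring

/-- the field sb2 -/
theorem sb2 (hB : ∀ s, 1 ≤ s → s ≤ F.m → F.B s = 3) {K c0 l : ℝ}
    (hp : SB.Pop K c0 1 l ((Icc 1 F.m).biUnion F.G) fun _ => 3) (x : ℝ) :
    sb F.Lo F.w (F.V 0 (F.m + 1)) x ≤ SB.Csb2 K c0 / l ^ 2 :=
  sb_of_Q2 (h.q2_w hB hp) (fun _ hT => h.Vt_w hT) x

/-- the field sb3, with the constant of sb2 -/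
theorem sb3 (hB : ∀ s, 1 ≤ s → s ≤ F.m → F.B s = 3) {K c0 l : ℝ}
    (hp : SB.Pop K c0 1 l ((Icc 1 F.m).biUnion F.G) fun _ => 3) (x : ℝ) :
    sb (F.Lv 1 (F.m + 1)) (F.wh 1 (F.m + 1)) (F.V 1 (F.m + 1)) x ≤ SB.Csb2 K c0 / l ^ 2 := by
  have hI : ∀ s ∈ Icc 1 F.m, 1 ≤ s ∧ s ≤ F.m := fun s hs => mem_Icc.1 hs
  have q := h.q2_core (I := Icc 1 F.m) (J := Icc 1 F.m) (Q0 := ∅) (w0 := fun _ => 1)
    (fun s hs => ⟨(hI s hs).2, hB s (hI s hs).1 (hI s hs).2⟩)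
    (fun s hs => (hI s hs).2) ⟨fun _ => zero_le_one, by simp [pv]⟩ (fun _ _ _ => rfl)
    (by simp) (by simp) (by simp) hp
  have e0 : Ico 1 (F.m + 1) = Icc 1 F.m := by
    ext s; simp only [mem_Ico, mem_Icc]; omega
  have eP : (Icc 1 F.m).biUnion F.G ∪ (∅ ∪ (Icc 1 F.m).biUnion F.R) = F.Lv 1 (F.m + 1) := by
    rw [Fam.Lv, e0, empty_union]
    exact biUnion_union.symm
  rw [eP] at q
  refine sb_of_Q2 (q.congr fun c _ => ?_) (fun _ hT => h.Vt_wh (by omega) le_rfl hT) x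
  rw [Fam.wh, e0, one_mul]
  exact prod_mul_distrib.symm

/-- the three fields together -/
theorem sb_all (P : Par) (hm : 1 ≤ F.m) (hB : ∀ s, 1 ≤ s → s ≤ F.m → F.B s = 3) {K c0 : ℝ}
    (hp : ∀ t ∈ Icc 1 F.m, SB.Pop K c0 1 (P.l t) ((Icc 1 t).biUnion F.G) fun _ => 3)
    (c1 : SB.Csb2 K c0 ≤ P.Csb) (c2 : SB.Csb2 K c0 ≤ P.Λ ^ 2) :
    (∀ t ∈ Icc 1 F.m, ∀ x, sb (F.Lv 0 t ∪ F.G t) (fun e => F.wh 0 t e * F.wG t e)
      (fun T => F.V 0 t T * F.VG t T) x ≤ P.Csb / P.l t ^ 2) ∧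
    (∀ x, sb F.Lo F.w (F.V 0 (F.m + 1)) x ≤ P.Csb / P.l F.m ^ 2) ∧
    ∀ x, sb (F.Lv 1 (F.m + 1)) (F.wh 1 (F.m + 1)) (F.V 1 (F.m + 1)) x ≤ P.Λ ^ 2 / P.l F.m ^ 2 :=
  have hm' : F.m ∈ Icc 1 F.m := mem_Icc.2 ⟨hm, le_rfl⟩
  ⟨fun t ht x => (h.sb1 hB (mem_Icc.1 ht).1 (mem_Icc.1 ht).2 (hp t ht) x).trans
      (div_le_div_of_nonneg_right c1 (sq_nonneg _)),
    fun x => (h.sb2 hB (hp _ hm') x).trans (div_le_div_of_nonneg_right c1 (sq_nonneg _)),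
    fun x => (h.sb3 hB (hp _ hm') x).trans (div_le_div_of_nonneg_right c2 (sq_nonneg _))⟩

end Lev

end Pool.Agent.P.MP_a14ce1_nt.Fu.St
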