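import Pool.Agent.P.MP_a14ce1_nt.Fu.PaB
import Pool.Agent.P.MP_a14ce1_nt.Fu.PnSb

/-! The fields sb1, sb2, sb3 for the concrete families. -/

open Finset

namespace Pool.Agent.P.MP_a14ce1_nt.Fu.Pa

open St

namespace NuOk

variable {ν : Nu} {C C2 j : ℕ} (h : NuOk ν C C2)
include h

theorem sb_aux (hj : j < ν.S) :
    (∀ t ∈ Icc 1 (ν.fam j).m, ∀ x, sb ((ν.fam j).Lv 0 t ∪ (ν.fam j).G t)
      (fun e => (ν.fam j).wh 0 t e * (ν.fam j).wG t e)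
      (fun T => (ν.fam j).V 0 t T * (ν.fam j).VG t T) x ≤
        (ν.par C j).Csb / (ν.par C j).l t ^ 2) ∧
    (∀ x, sb (ν.fam j).Lo (ν.fam j).w ((ν.fam j).V 0 ((ν.fam j).m + 1)) x ≤
      (ν.par C j).Csb / (ν.par C j).l (ν.fam j).m ^ 2) ∧
    ∀ x, sb ((ν.fam j).Lv 1 ((ν.fam j).m + 1)) ((ν.fam j).wh 1 ((ν.fam j).m + 1))
      ((ν.fam j).V 1 ((ν.fam j).m + 1)) x ≤ (ν.par C j).Λ ^ 2 / (ν.par C j).l (ν.fam j).m ^ 2 := by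
  have a := h.Csb1
  have b := h.Csb2
  have c := h.LCsb
  exact (h.lev j).sb_all (ν.par C j) (le_trans (by norm_num) (h.m4 hj))
    (fun s hs _ => ν.B_pos hs) (fun t ht => h.pop (mem_Icc.1 ht).1) b
    (show _ ≤ ν.Λ ^ 2 by nlinarith)

theorem sb1' (hj : j < ν.S) : ∀ t ∈ Icc 1 (ν.fam j).m, ∀ x,
    sb ((ν.fam j).Lv 0 t ∪ (ν.fam j).G t) (fun e => (ν.fam j).wh 0 t e * (ν.fam j).wG t e)
      (fun T => (ν.fam j).V 0 t T * (ν.fam j).VG t T) x ≤ (ν.par C j).Csb / (ν.par C j).l t ^ 2 :=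
  (h.sb_aux hj).1

theorem sb2' (hj : j < ν.S) : ∀ x,
    sb (ν.fam j).Lo (ν.fam j).w ((ν.fam j).V 0 ((ν.fam j).m + 1)) x ≤
      (ν.par C j).Csb / (ν.par C j).l (ν.fam j).m ^ 2 :=
  (h.sb_aux hj).2.1

theorem sb3' (hj : j < ν.S) : ∀ x,
    sb ((ν.fam j).Lv 1 ((ν.fam j).m + 1)) ((ν.fam j).wh 1 ((ν.fam j).m + 1))
      ((ν.fam j).V 1 ((ν.fam j).m + 1)) x ≤ (ν.par C j).Λ ^ 2 / (ν.par C j).l (ν.fam j).m ^ 2 :=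
  (h.sb_aux hj).2.2

end NuOk

end Pool.Agent.P.MP_a14ce1_nt.Fu.Pa
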