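import Pool.Agent.P.MP_a14ce1_nt.Fu.PnLv

/-!
Second moments of the population weights, and the weight of exactly one prime.
-/

open Finset

namespace Pool.Agent.P.MP_a14ce1_nt.Fu.St.Up

open Ch (pv mu rs)

theorem Em_pow (P : Finset ℕ) (c : ℝ) :
    Em P (fun T => c ^ T.card) = ∏ q ∈ P, (1 + (c - 1) / q) := by
  induction P using Finset.induction_on with
  | empty => simp [Em_empty]
  | insert q P hq ih =>
    rw [Em_insert hq, prod_insert hq, ← ih, ← Em_mul]
    refine Em_congr fun A hA => ?_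
    rw [card_insert_of_notMem fun e => hq (hA e)]
    ring

theorem Em_pow_le (P : Finset ℕ) {c : ℝ} (hc : 1 ≤ c) :
    Em P (fun T => c ^ T.card) ≤ Real.exp ((c - 1) * rs P) := by
  rw [Em_pow, rs, mul_sum, Real.exp_sum]
  refine prod_le_prod (fun q _ => ?_) fun q _ => ?_
  · have : 0 ≤ c - 1 := by linarith
    positivity
  · rw [mul_one_div, add_comm]; exact Real.add_one_le_exp _

theorem rs_mono {P Q : Finset ℕ} (h : P ⊆ Q) : rs P ≤ rs Q :=
  sum_le_sum_of_subset_of_nonneg h fun _ _ _ => by positivity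

variable {F : Fam}

theorem sq_VG (h : Lev F) (t : ℕ) : Em (F.G t) (fun T => F.VG t T ^ 2) ≤
    Real.exp (((F.B t + 1) ^ 2 - 1) * rs (F.G t)) := by
  have := h.B1 t
  refine le_trans (Em_mono fun A hA => ?_) (Em_pow_le _ (by nlinarith))
  rw [Fam.VG, inter_eq_left.2 hA, div_pow, ← pow_mul, mul_comm, pow_mul]
  exact div_le_self (by positivity) (one_le_pow₀ (h.ZG_one t))

theorem sq_VR (h : Lev F) {t : ℕ} (ht : t ≤ F.m) : Em (F.R t) (fun T => F.VR t T ^ 2) ≤
    2 ^ F.r t * Real.exp (rs (F.R t)) / F.ZR t := by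
  have z := h.ZR_pos ht
  have e : Em (F.R t) (fun T => F.VR t T ^ 2) = Et (F.R t) (F.wR t) fun _ A => F.VR t A := by
    rw [Et_site]
    exact Em_congr fun A hA => by rw [F.Vt_wR hA, sq]
  rw [e, Et_eq, ← one_mul (_ / F.ZR t), ← (h.nrm_wR ht).2, sum_mul]
  refine sum_le_sum fun c hc => ?_
  by_cases h0 : F.wR t c = 0
  · simp [h0]
  refine mul_le_mul_of_nonneg_left ?_ (div_nonneg (F.wR_nonneg t c) (Nat.cast_nonneg _))
  have c1 : c.card = F.r t := by
    by_contra hc'
    rw [Fam.wR, inter_eq_left.2 (mem_powerset.1 hc), if_neg hc', zero_div] at h0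
    exact h0 rfl
  have a1 : Em (F.R t \ c) (fun B => F.VR t (c ∪ B)) ≤
      Em (F.R t \ c) fun B => 2 ^ F.r t / F.ZR t * 2 ^ B.card := Em_mono fun B _ => by
    rw [Fam.VR, div_mul_eq_mul_div, ← pow_add]
    refine div_le_div_of_nonneg_right ?_ z.le
    have b1 : ((c ∪ B) ∩ F.R t).card ≤ F.r t + B.card :=
      (card_le_card inter_subset_left).trans ((card_union_le _ _).trans (by rw [c1]))
    exact_mod_cast (Nat.choose_le_two_pow _ _).trans (Nat.pow_le_pow_right (by norm_num) b1)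
  refine a1.trans ?_
  rw [Em_mul, div_mul_eq_mul_div]
  refine div_le_div_of_nonneg_right (mul_le_mul_of_nonneg_left
    ((Em_pow_le _ one_le_two).trans (Real.exp_le_exp.2 ?_)) (by positivity)) z.le
  linarith [rs_mono (sdiff_subset : F.R t \ c ⊆ F.R t)]

theorem sq_Vl (h : Lev F) {t : ℕ} (ht : t ≤ F.m) : Em (F.cl t) (fun T => F.Vl t T ^ 2) =
    Em (F.G t) (fun T => F.VG t T ^ 2) * Em (F.R t) fun T => F.VR t T ^ 2 := by
  rw [← Em_mul_inter (h.dGR t ht)]
  refine Em_congr fun A _ => ?_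
  rw [F.VG_inter Subset.rfl, F.VR_inter Subset.rfl, Fam.Vl, mul_pow]

theorem sq_V (h : Lev F) {a b : ℕ} (h1 : a ≤ b) (h2 : b ≤ F.m + 1) {v : ℝ}
    (hv : ∀ t, a ≤ t → t < b → Em (F.cl t) (fun T => F.Vl t T ^ 2) ≤ Real.exp v) :
    Em (F.Lv a b) (fun T => F.V a b T ^ 2) ≤ Real.exp (v * (b - a : ℕ)) := by
  induction b, h1 using Nat.le_induction with
  | base => simp [Fam.V, Em_const]
  | succ b hab ih =>
    have e : Em (F.Lv a (b + 1)) (fun T => F.V a (b + 1) T ^ 2) =
        Em (F.Lv a b) (fun T => F.V a b T ^ 2) * Em (F.cl b) fun T => F.Vl b T ^ 2 := by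
      rw [← Em_mul_inter (h.dLv_cl (by omega)), F.Lv_succ hab]
      refine Em_congr fun A _ => ?_
      rw [F.V_inter Subset.rfl, F.Vl_inter Subset.rfl, F.V_succ hab, mul_pow]
    rw [e, Nat.succ_sub hab, Nat.cast_succ, mul_add, mul_one, Real.exp_add]
    exact mul_le_mul (ih (by omega) fun t a1 a2 => hv t a1 (by omega)) (hv b hab b.lt_succ_self)
      (Em_nonneg fun _ _ => sq_nonneg _) (Real.exp_pos _).le

/-- truncation -/
theorem trunc {P : Finset ℕ} {V : Finset ℕ → ℝ} {Om : ℝ} (h0 : 0 < Om) :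
    Em P V - Em P (fun T => V T ^ 2) / Om ≤ Em P fun T => if V T ≤ Om then V T else 0 := by
  rw [← Em_div, ← Em_sub']
  refine Em_mono fun A _ => ?_
  split_ifs with h
  · exact sub_le_self _ (by positivity)
  · rw [sub_nonpos, le_div_iff₀ h0]
    nlinarith [not_le.1 h]

theorem one_ge {P : Finset ℕ} (h : rs P ≤ 1 / 2) :
    rs P / 2 ≤ Em P fun T => if T.card = 1 then 1 else 0 := by
  have e : ∑ p ∈ P, mu P {p} = ∑ T ∈ P.image (fun p => ({p} : Finset ℕ)), mu P T :=
    (sum_image fun _ _ _ _ e => singleton_injective e).symm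
  calc rs P / 2 ≤ ∑ p ∈ P, mu P {p} := by
        rw [rs, sum_div]
        refine sum_le_sum fun p _ => ?_
        rw [mu, prod_singleton, div_eq_mul_one_div _ (2 : ℝ)]
        refine mul_le_mul_of_nonneg_left ?_ (by positivity)
        linarith [one_sub_le_prod (P \ {p}), rs_mono (sdiff_subset : P \ {p} ⊆ P)]
    _ ≤ _ := by
        simp only [Em, mul_ite, mul_one, mul_zero]
        rw [e, ← sum_filter]
        refine sum_le_sum_of_subset_of_nonneg (fun T hT => ?_) fun _ _ _ => mu_nn _ _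
        obtain ⟨p, hp, rfl⟩ := mem_image.1 hT
        exact mem_filter.2 ⟨mem_powerset.2 (singleton_subset_iff.2 hp), card_singleton p⟩

theorem Em_prod (s : Finset ℕ) (R : ℕ → Finset ℕ) (z : ℕ → Finset ℕ → ℝ)
    (hd : ∀ i ∈ s, ∀ j ∈ s, i ≠ j → Disjoint (R i) (R j)) :
    Em (s.biUnion R) (fun T => ∏ i ∈ s, z i (T ∩ R i)) = ∏ i ∈ s, Em (R i) (z i) := by
  induction s using Finset.induction_on with
  | empty => simp [Em_empty]
  | insert j s hj ih =>
    rw [biUnion_insert, prod_insert hj,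
      ← ih fun a ha b hb => hd a (mem_insert_of_mem ha) b (mem_insert_of_mem hb),
      ← Em_mul_inter ((disjoint_biUnion_right _ _ _).2 fun i hi =>
        hd j (mem_insert_self _ _) i (mem_insert_of_mem hi) fun e => hj (e ▸ hi))]
    refine Em_congr fun A _ => ?_
    rw [prod_insert hj]
    congr 1
    exact prod_congr rfl fun i hi => by rw [inter_inter (subset_biUnion_of_mem R hi)]

end Pool.Agent.P.MP_a14ce1_nt.Fu.St.Up
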