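import Pool.Agent.P.MP_a14ce1_nt.Fu.PaB
import Pool.Agent.P.MP_a14ce1_nt.Fu.PaUpA

/-!
The upper weights of the concrete families.
-/

open Finset

namespace Pool.Agent.P.MP_a14ce1_nt.Fu.Pa

open Ch (pv mu rs pr)
open St St.Up

namespace Up

variable {ν : Nu} {C C2 : ℕ} (h : NuOk ν C C2)
include h

theorem b_ge (j : ℕ) : ν.l 3 ≤ ν.b j := h.l_mono (by unfold Nu.m; omega)

theorem A_le : ν.A ≤ ν.l 3 := h.lA.trans (h.l_mono (by norm_num))

theorem log_le {t : ℕ} (ht : t ≤ ν.m 0) {p : ℕ} (hp : p ∈ ν.pre.cl t) : Real.log p ≤ ν.b 0 :=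
  (h.log_cl hp).2.trans (h.top_le_of_lt (Nat.lt_succ_of_le ht))

theorem dLR {a i : ℕ} (hi : i < ν.S) : Disjoint (ν.pre.Lv a (ν.m 0 + 1)) (ν.RR i) := by
  refine disjoint_left.2 fun p hp hq => ?_
  obtain ⟨t, ht, hp⟩ := mem_biUnion.1 hp
  have a1 := log_le h (Nat.lt_succ_iff.1 (mem_Ico.1 ht).2) hp
  have a2 := (mem_pe.1 hq).2.1
  have a3 := h.b_le hi.le
  have a4 := b_ge h 0
  have a5 := h.l1 3
  unfold Nu.LD at a2
  linarith

theorem LL_bounds {i : ℕ} (hi : i < ν.S) :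
    1 / (40 * ν.ρm) ≤ rs (ν.RR i) ∧ rs (ν.RR i) ≤ 1 / 2 := by
  have a1 := h.four_b hi
  have a2 := h.b_le hi.le
  have a3 := b_ge h (i + 1)
  have a4 := A_le h
  have a5 := h.l1 3
  have a6 := h.bup
  have a7 := h.ρm1
  have e : ν.LD = 10 * ν.b 0 := rfl
  obtain ⟨m1, m2⟩ := abs_le.1 (h.mert.m2 (ν.LD - ν.b i) (ν.LD - ν.b (i + 1)) (by linarith)
    (by linarith))
  have r0 : 0 ≤ rs (ν.RR i) := sum_nonneg fun _ _ => by positivity
  have u1 : ∑ p ∈ ν.RR i, Real.log p / p ≤ ν.LD * rs (ν.RR i) := by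
    rw [rs, mul_sum]
    refine sum_le_sum fun p hp => ?_
    rw [mul_one_div]
    exact div_le_div_of_nonneg_right (by linarith [(mem_pe.1 hp).2.2]) (Nat.cast_nonneg _)
  have u2 : (ν.LD - ν.b i) * rs (ν.RR i) ≤ ∑ p ∈ ν.RR i, Real.log p / p := by
    rw [rs, mul_sum]
    refine sum_le_sum fun p hp => ?_
    rw [mul_one_div]
    exact div_le_div_of_nonneg_right (mem_pe.1 hp).2.1.le (Nat.cast_nonneg _)
  change _ ≤ ∑ p ∈ ν.RR i, Real.log p / p - _ at m1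
  change ∑ p ∈ ν.RR i, Real.log p / p - _ ≤ _ at m2
  constructor
  · rw [div_le_iff₀ (by positivity)]
    have v1 : ν.l 3 ≤ 10 * (ν.ρm * ν.l 3) * rs (ν.RR i) := by
      have : ν.LD * rs (ν.RR i) ≤ 10 * (ν.ρm * ν.l 3) * rs (ν.RR i) :=
        mul_le_mul_of_nonneg_right (by linarith) r0
      linarith
    have v2 : 1 ≤ 10 * ν.ρm * rs (ν.RR i) := by
      refine le_of_mul_le_mul_right ?_ (show 0 < ν.l 3 by linarith)
      linarith
    nlinarith [mul_nonneg (show 0 ≤ ν.ρm by linarith) r0]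
  · by_contra hc
    have : (ν.LD - ν.b i) * (1 / 2) ≤ (ν.LD - ν.b i) * rs (ν.RR i) :=
      mul_le_mul_of_nonneg_left (not_le.1 hc).le (by linarith)
    linarith

theorem pi1_ge {i : ℕ} (hi : i < ν.S) : 1 / (80 * ν.ρm) ≤ ν.pi1 i := by
  obtain ⟨a, b⟩ := LL_bounds h hi
  have c := one_ge b
  have e : 1 / (80 * ν.ρm) = 1 / (40 * ν.ρm) / 2 := by rw [div_div]; congr 1; ring
  rw [e]
  exact le_trans (by linarith) c

theorem pi1_pos {i : ℕ} (hi : i < ν.S) : 0 < ν.pi1 i := by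
  have := h.ρm1
  exact lt_of_lt_of_le (by positivity) (pi1_ge h hi)

omit h in
theorem zz_nonneg (i : ℕ) (T : Finset ℕ) : 0 ≤ ν.zz i T :=
  div_nonneg (by split_ifs <;> norm_num) (Em_nonneg fun _ _ => by split_ifs <;> norm_num)

theorem zz_le {i : ℕ} (hi : i < ν.S) (T : Finset ℕ) : ν.zz i T ≤ 80 * ν.ρm := by
  have a := pi1_ge h hi
  have := h.ρm1
  rw [div_le_iff₀ (by positivity)] at a
  rw [Nu.zz, div_le_iff₀ (pi1_pos h hi)]
  split_ifs <;> linarith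

theorem prod_zz_le {s : Finset ℕ} (hs : s ⊆ range ν.S) (T : Finset ℕ) :
    ∏ i ∈ s, ν.zz i T ≤ (80 * ν.ρm) ^ ν.S := by
  have := h.ρm1
  refine (prod_le_prod (fun i _ => zz_nonneg i T) fun i hi =>
    zz_le h (mem_range.1 (hs hi)) T).trans ?_
  rw [prod_const]
  exact pow_le_pow_right₀ (by linarith) ((card_le_card hs).trans (card_range _).le)

theorem Em_zz {s : Finset ℕ} (hs : s ⊆ range ν.S) :
    Em (s.biUnion ν.RR) (fun T => ∏ i ∈ s, ν.zz i T) = 1 := by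
  have := Em_prod s ν.RR (fun i T => (if T.card = 1 then 1 else 0) / ν.pi1 i)
    fun i hi j hj e => h.RR_disjoint (mem_range.1 (hs hi)) (mem_range.1 (hs hj)) e
  refine this.trans (prod_eq_one fun i hi => ?_)
  rw [Em_div]
  exact div_self (pi1_pos h (mem_range.1 (hs hi))).ne'

theorem Om1 : 1 ≤ ν.Om := by
  have a : 1 ≤ Real.exp (ν.v0 * ν.m 0) := Real.one_le_exp (mul_nonneg h.v00 (Nat.cast_nonneg _))
  have b := h.Omv
  by_contra hc
  nlinarith [h.η0, h.η1]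

theorem split {j : ℕ} (hj : j < ν.S) (φ : ℝ → ℝ) :
    EG (ν.fam j).U (fun T => φ (ν.VU j T) * ∏ i ∈ range j, ν.zz i T) =
      Em (ν.pre.Lv (ν.m j + 1) (ν.m 0 + 1)) fun T => φ (ν.VU j T) := by
  have hs : range j ⊆ range ν.S := range_mono hj.le
  rw [← mul_one (Em (ν.pre.Lv _ _) _), ← Em_zz h hs,
    ← Em_mul_inter ((disjoint_biUnion_right _ _ _).2 fun i hi => dLR h (mem_range.1 (hs hi)))]
  refine Em_congr fun A _ => ?_
  rw [Nu.VU, Nu.VU, ν.pre.V_inter Subset.rfl]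
  congr 1
  exact prod_congr rfl fun i hi => by
    rw [Nu.zz, Nu.zz, inter_inter (subset_biUnion_of_mem ν.RR hi)]

theorem sq_level (hL : Lev ν.pre) {t : ℕ} (h4 : 4 ≤ t) (ht : t ≤ ν.m 0)
    (hG : rs (ν.G t) ≤ ν.g t) (hR : rs (ν.R t) ≤ ν.L)
    (hZ : 1 / ((ν.r t).factorial : ℝ) ≤ ν.pre.ZR t) :
    Em (ν.pre.cl t) (fun T => ν.pre.Vl t T ^ 2) ≤ Real.exp ν.v0 := by
  have r2 : (2 : ℝ) ≤ ν.r t := by exact_mod_cast h.r2 t (by omega)
  have a1 := sq_VG hL t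
  have a2 := sq_VR hL ht
  have eB : ν.pre.B t = 3 := if_neg (by omega)
  have a3 : Em (ν.pre.G t) (fun T => ν.pre.VG t T ^ 2) ≤ Real.exp (15 * ν.g t) := by
    refine a1.trans (Real.exp_le_exp.2 ?_)
    rw [eB]
    change _ * rs (ν.G t) ≤ _
    linarith
  have a4 : Em (ν.pre.R t) (fun T => ν.pre.VR t T ^ 2) ≤
      Real.exp (ν.L + ν.r t * Real.log (2 * ν.r t)) := by
    refine a2.trans ?_
    have f0 : (0 : ℝ) < (ν.r t).factorial := by exact_mod_cast Nat.factorial_pos _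
    have f1 : ((ν.r t).factorial : ℝ) ≤ (ν.r t : ℝ) ^ ν.r t := by
      exact_mod_cast Nat.factorial_le_pow _
    rw [Real.exp_add, Real.exp_nat_mul, Real.exp_log (by linarith), mul_pow]
    calc _ ≤ 2 ^ ν.r t * Real.exp ν.L / (1 / (ν.r t).factorial) :=
          div_le_div₀ (by positivity) (mul_le_mul_of_nonneg_left (Real.exp_le_exp.2 hR)
            (by positivity)) (by positivity) hZ
      _ = Real.exp ν.L * (2 ^ ν.r t * (ν.r t).factorial) := by field_simp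
      _ ≤ _ := by gcongr
  rw [sq_Vl hL ht]
  refine (mul_le_mul a3 a4 (Em_nonneg fun _ _ => sq_nonneg _) (Real.exp_pos _).le).trans ?_
  rw [← Real.exp_add]
  exact Real.exp_le_exp.2 (by linarith [h.v0t t h4])

theorem Ewk_of {j : ℕ} (hj : j < ν.S) (hL : Lev ν.pre)
    (hG : ∀ t, rs (ν.G t) ≤ ν.g t) (hR : ∀ t, rs (ν.R t) ≤ ν.L)
    (hZ : ∀ t ≤ ν.m 0, 1 / ((ν.r t).factorial : ℝ) ≤ ν.pre.ZR t) :
    1 - ν.η ≤ EG (ν.fam j).U (ν.fam j).wk := by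
  have m1 := h.m_le hj.le
  have m2 := h.m4 hj
  have o1 := Om1 h
  refine le_trans ?_ (split h hj fun x => if x ≤ ν.Om then x else 0).ge
  refine le_trans ?_ (trunc (V := ν.VU j) (by linarith))
  have a1 : Em (ν.pre.Lv (ν.m j + 1) (ν.m 0 + 1)) (ν.VU j) = 1 :=
    hL.Em_V (Nat.succ_le_succ m1) le_rfl
  have a2 := sq_V hL (Nat.succ_le_succ m1) le_rfl fun t a b =>
    sq_level h hL (by omega) (Nat.lt_succ_iff.1 b) (hG t) (hR t) (hZ t (Nat.lt_succ_iff.1 b))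
  have a3 : Real.exp (ν.v0 * ((ν.pre.m + 1 - (ν.m j + 1) : ℕ) : ℝ)) ≤ ν.η * ν.Om := by
    refine le_trans (Real.exp_le_exp.2 (mul_le_mul_of_nonneg_left ?_ h.v00)) h.Omv
    have : ν.pre.m = ν.m 0 := rfl
    exact_mod_cast (by omega : ν.pre.m + 1 - (ν.m j + 1) ≤ ν.m 0)
  rw [a1]
  refine sub_le_sub_left ?_ _
  rw [div_le_iff₀ (by linarith)]
  exact a2.trans a3

theorem Evk_of {j : ℕ} (hj : j < ν.S) (hL : Lev ν.pre) : EG (ν.fam j).U (ν.fam j).vk ≤ 1 :=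
  ((split h hj fun x => x).trans (hL.Em_V (Nat.succ_le_succ (h.m_le hj.le)) le_rfl)).le

omit h in
theorem wk0_of (hL : Lev ν.pre) (j : ℕ) (T : Finset ℕ) : 0 ≤ (ν.fam j).wk T :=
  mul_nonneg (by split_ifs; exacts [hL.V_nonneg _ _ _, le_rfl])
    (prod_nonneg fun i _ => zz_nonneg i T)

omit h in
theorem wkv_of (hL : Lev ν.pre) (j : ℕ) (T : Finset ℕ) : (ν.fam j).wk T ≤ (ν.fam j).vk T :=
  mul_le_mul_of_nonneg_right (by split_ifs; exacts [le_rfl, hL.V_nonneg _ _ _])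
    (prod_nonneg fun i _ => zz_nonneg i T)

end Up

variable {ν : Nu} {C C2 j : ℕ} (h : NuOk ν C C2) (hj : j < ν.S)
include h hj

theorem NuOk.wk0' : ∀ T, 0 ≤ (ν.fam j).wk T := by
  have _ := hj
  exact Up.wk0_of h.lev_pre j

theorem NuOk.wkv' : ∀ T, (ν.fam j).wk T ≤ (ν.fam j).vk T := by
  have _ := hj
  exact Up.wkv_of h.lev_pre j

theorem NuOk.Ewk' : 1 - (ν.par C j).η ≤ EG (ν.fam j).U (ν.fam j).wk :=
  Up.Ewk_of h hj h.lev_pre h.rs_G h.rs_R fun t _ => h.inv_le_ZR t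

theorem NuOk.Evk' : EG (ν.fam j).U (ν.fam j).vk ≤ 1 := Up.Evk_of h hj h.lev_pre

theorem NuOk.wkL' : ∀ T, (ν.fam j).wk T ≤ (ν.par C j).Λ := fun T => by
  have o1 := Up.Om1 h
  refine le_trans (mul_le_mul ?_ (Up.prod_zz_le h (range_mono hj.le) T)
    (prod_nonneg fun i _ => Up.zz_nonneg i T) (by linarith)) h.LOm
  split_ifs with a
  · exact a
  · linarith

omit h hj in
theorem NuOk.ze0'' : ∀ T, 0 ≤ (ν.fam j).ze T := fun T =>
  prod_nonneg (s := Ico (j + 1) ν.S) fun i _ => Up.zz_nonneg (ν := ν) i T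

theorem NuOk.ze0' : ∀ T, 0 ≤ (ν.fam j).ze T := by
  have _ := h
  have _ := hj
  exact NuOk.ze0''

theorem NuOk.zeL' : ∀ T, (ν.fam j).ze T ≤ (ν.par C j).Λ := fun T => by
  have _ := hj
  have := h.ρm1
  refine (Up.prod_zz_le h (fun i hi => mem_range.2 (mem_Ico.1 hi).2) T).trans (le_trans ?_ h.LOm)
  exact le_mul_of_one_le_left (by positivity) (Up.Om1 h)

theorem NuOk.Eze' : EG (ν.fam j).HH (ν.fam j).ze = 1 := by
  have _ := hj
  exact Up.Em_zz h fun i hi => mem_range.2 (mem_Ico.1 hi).2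

end Pool.Agent.P.MP_a14ce1_nt.Fu.Pa
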