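import Pool.Agent.P.MP_a14ce1_nt.Fu.PaTr
import Pool.Agent.P.MP_a14ce1_nt.Fu.PaSb
import Pool.Agent.P.MP_a14ce1_nt.Fu.PaWin
import Pool.Agent.P.MP_a14ce1_nt.Fu.PaUp
import Pool.Agent.P.MP_a14ce1_nt.Fu.PaPn
import Pool.Agent.P.MP_a14ce1_nt.Fu.PaOk
import Pool.Agent.P.MP_a14ce1_nt.Fu.PaExt

/-! Assembly of the chain of families from the fields on the densities. -/

open Finset

namespace Pool.Agent.P.MP_a14ce1_nt.Fu.Pa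

open St

/-- the fields on the densities -/
structure SigF (F : Fam) (P : Par) (C C2 : ℕ) : Prop where
  m01 : ∀ t ∈ Icc 1 F.m, ∀ w, 1 ≤ P.m0 t w ∧ P.m0 t w ≤ (F.R t).card
  m02 : ∀ t ≤ 2, ∀ w, P.m0 t w = P.m0 t 0
  path : (F.r 1 + P.Kx 1 : ℝ) * ph F P 1 0 ≤ P.η
  σn : ∀ t w, 0 ≤ P.σ t w
  σ0 : ∀ w, P.vt * (P.hi 0 / P.lo 0) ≤ P.σ 0 w
  σs : ∀ t < F.m, ∀ w < P.Wn, P.hi (t + 1) / P.lo (t + 1) *
    (P.σ t w * ((F.r (t + 1) + P.Kx (t + 1) : ℝ) * ph F P (t + 1) w) ^ P.J (t + 1) +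
      if 2 ≤ t ∧ 1 ≤ w then P.σ t (w - 1) else 0) ≤ P.σ (t + 1) w
  pin : ∀ t < F.m, ∀ w < P.Wn,
    P.Λ ^ C * P.J (t + 1) ^ 2 * (P.La t + 2) * P.σ t w ≤ ph F P (t + 1) w
  hid : ∀ s ∈ Icc 1 F.m, (C : ℝ) ^ F.m * P.Λ ^ C * (P.La s + 2) *
    (P.hi s / P.lo s * P.σ (s - 1) (P.Wn - 1)) ≤ 1
  hidt : (C : ℝ) ^ F.m * P.Λ ^ C * Real.exp P.Lh * (Hi F P * P.σin + top F P) ≤ F.LL * F.Pw
  test : P.Λ ^ (C * F.k) * Real.exp (C * P.Lp) * P.σin ≤ 1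
  test7 : P.Λ ^ C2 * Real.exp (C2 * P.Lp) * P.σin ≤ 1

namespace NuOk

variable {ν : Nu} {C C2 j : ℕ} (h : NuOk ν C C2)
include h

theorem hyp0_of (hj : j < ν.S) (s : SigF (ν.fam j) (ν.par C j) C C2) :
    Hyp0 (ν.fam j) (ν.par C j) where
  k2 := h.k2
  m2 := le_trans (by norm_num) (h.m4 hj)
  Nlo := Nlo'
  Nhi := h.Nhi'
  e0 := h.e0
  e1 := h.e1
  pr := h.pr' hj
  R0 := ν.R_zero
  r0 := h.r0
  dGR := h.dGR' hj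
  tpm := h.tpm' hj
  tple := h.tple' hj
  tplt := h.tplt' hj
  tpT := h.tpT' hj
  dUR := h.dUR' hj
  dUH := h.dUH' hj
  dRH := h.dRH' hj
  rR := h.rR' hj
  B1 := h.B1' hj
  LL1 := h.LL1' hj
  LL2 := h.LL2' hj
  wk0 := h.wk0' hj
  wkv := h.wkv' hj
  wkL := h.wkL' hj
  Ewk := h.Ewk' hj
  Evk := h.Evk' hj
  ze0 := h.ze0' hj
  zeL := h.zeL' hj
  Eze := h.Eze' hj
  η0 := h.η0
  η1 := h.η1
  κ0 := h.κ0
  Lk := h.Lk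
  Lm := h.Lm' hj
  Lη := h.Lη
  Lκ := h.Lκ
  Lε := h.Lε
  Cw1 := h.Cw1'
  Csb1 := h.Csb1
  Cl1 := h.Cl1'
  LCw := h.LCw
  LCsb := h.LCsb
  LCl := h.LCl
  Lp1 := h.b_one j
  Lh0 := zero_le_one.trans (h.b_one (j + 1))
  logD := h.logD' hj
  Pw0 := h.Pw0' hj
  win1 := h.win1' hj
  win2 := h.win2' hj
  win3 := h.win3' hj
  win4 := h.win4' hj
  TMs := h.TMs' hj
  Rlo := h.Rlo' hj
  Rhi := h.Rhi' hj
  Hlo := h.Hlo' hj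
  Dbig := h.Dbig' hj
  ok := h.ok' hj
  adm := h.adm'
  ext := h.ext' hj
  La0 := h.La0'
  lo0 := h.lo0' hj
  lohi := h.lohi' hj
  hi1 := h.hi1' hj
  b1 := h.b1'
  b2 := h.b2'
  b3 := h.b3'
  b4 := h.b4'
  Rt := h.Rt' hj
  l1 := h.l1
  J1 := h.J1
  r1 := fun t ht => le_trans (by norm_num) (h.r2 t (mem_Icc.1 ht).1)
  K20 := h.K20'
  eL0 := zero_le_one.trans h.eL1
  sb1 := h.sb1' hj
  sb2 := h.sb2' hj
  sb3 := h.sb3' hj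
  W1 := h.W1 hj
  mW := le_rfl
  vt0 := h.vt0
  vt1 := h.vt1
  m01 := s.m01
  m02 := s.m02
  path := s.path
  σn := s.σn
  σ0 := s.σ0
  σs := s.σs
  σin0 := h.σin0'

theorem hyp_of (hj : j < ν.S) (s : SigF (ν.fam j) (ν.par C j) C C2) :
    Hyp (ν.fam j) (ν.par C j) C where
  toHyp0 := h.hyp0_of hj s
  ind := h.ind' hj
  κη := h.κη
  Jr := fun t ht => h.Jr t (mem_Icc.1 ht).1
  diag := h.diag
  pin := s.pin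
  hid := s.hid
  hidt := s.hidt
  test := s.test

theorem hyp7_of (hj : j < ν.S) (s : SigF (ν.fam j) (ν.par C j) C C2) :
    Hyp7 (ν.fam j) (ν.par C j) C2 where
  ind := h.ind7' hj
  test := s.test7
  Mlo := h.Mlo' hj
  Mhi := h.Mhi' hj
  Mlog := h.Mlog' hj
  MD := h.MD' hj
  Ta := h.Ta' hj
  aM := h.aM'

theorem chain_of (s : ∀ j < ν.S, SigF (ν.fam j) (ν.par C j) C C2) :
    Chain ν.k C C2 ν.S ν.ε ν.η ν.Cw ν.Λ (pe (ν.l 3) (ν.Λ * ν.l 3)) ν.fam (ν.par C) where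
  S0 := h.S0
  hyp := fun j hj => ⟨h.hyp_of hj (s j hj), h.hyp7_of hj (s j hj)⟩
  com := h.com'
  sub := h.sub'
  nxt := h.nxt'
  dz := h.dz'
  sin := fun _ _ => le_rfl
  big := fun _ _ => h.big

end NuOk

end Pool.Agent.P.MP_a14ce1_nt.Fu.Pa
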