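import Pool.Agent.P.MP_a14ce1_nt.Fu.PaSt
import Pool.Agent.P.MP_a14ce1_nt.Fu.PnLv
import Pool.Agent.P.MP_a14ce1_nt.Fu.Tile

/-! The order of the classes and the common population of the concrete families. -/

open Finset

namespace Pool.Agent.P.MP_a14ce1_nt.Fu.Pa

open Ch (pv mu rs pr)
open St

theorem c_mem {x y : ℝ} {p : ℕ} :
    p ∈ pe x y ↔ p.Prime ∧ x < Real.log p ∧ Real.log p ≤ y := Tile.mem_ee

theorem c_le_exp {q : ℕ} {x : ℝ} (hq : q.Prime) (h : Real.log q ≤ x) : (q : ℝ) ≤ Real.exp x :=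
  (Real.log_le_iff_le_exp (by exact_mod_cast hq.pos)).1 h

theorem c_exp_lt {q : ℕ} {x : ℝ} (hq : q.Prime) (h : x < Real.log q) : Real.exp x < q :=
  (Real.lt_log_iff_exp_lt (by exact_mod_cast hq.pos)).1 h

/-- the primes of all the families -/
noncomputable def Nu.AA (ν : Nu) : Finset ℕ :=
  ν.pre.Lv 0 (ν.m 0 + 1) ∪ (range ν.S).biUnion ν.RR

/-- the weight of the test range i at n -/
noncomputable def Nu.zn (ν : Nu) (i n : ℕ) : ℝ :=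
  (if (dp (ν.RR i) n).card = 1 then 1 else 0) / ν.pi1 i

theorem Nu.zz_dp (ν : Nu) {i : ℕ} {Q : Finset ℕ} (hQ : ν.RR i ⊆ Q) (n : ℕ) :
    ν.zz i (dp Q n) = ν.zn i n := by
  rw [Nu.zz, dp_inter hQ, Nu.zn]

theorem Nu.z_eq (ν : Nu) (j n : ℕ) : (ν.fam j).z n = ∏ i ∈ Ico (j + 1) ν.S, ν.zn i n := by
  change ∏ i ∈ Ico (j + 1) ν.S, ν.zz i (dp ((Ico (j + 1) ν.S).biUnion ν.RR) n) = _
  exact prod_congr rfl fun _ hi => ν.zz_dp (subset_biUnion_of_mem ν.RR hi) n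

theorem Nu.z0_eq (ν : Nu) {j : ℕ} (hj : j < ν.S) (n : ℕ) :
    (ν.fam j).z0 n = ∏ i ∈ Ico j ν.S, ν.zn i n := by
  rw [prod_eq_prod_Ico_succ_bot hj, ← ν.z_eq]
  rfl

namespace NuOk

variable {ν : Nu} {C C2 j : ℕ} (h : NuOk ν C C2)
include h

theorem c_lt (t : ℕ) : ν.l t ≤ ν.eL * ν.l t := by
  have := h.l1 t
  have := h.eL1
  nlinarith

theorem c_tl (t : ℕ) : ν.eL * ν.l t ≤ ν.l (t + 1) := by
  have := h.lst t
  have := h.c_lt t
  have := h.l1 t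
  linarith

theorem c_lm : Monotone ν.l := monotone_nat_of_le_succ fun t => (h.c_lt t).trans (h.c_tl t)

theorem c_tm : Monotone fun t => ν.eL * ν.l t := fun _ _ e =>
  mul_le_mul_of_nonneg_left (h.c_lm e) (by linarith [h.eL1])

theorem c_W {i j : ℕ} (hij : i ≤ j) (hj : j ≤ ν.S) : ν.W j ≤ ν.W i := by
  induction j, hij using Nat.le_induction with
  | base => exact le_rfl
  | succ j _ ih => exact (h.Wlt j (by omega)).le.trans (ih (by omega))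

theorem c_m {i j : ℕ} (hij : i ≤ j) (hj : j ≤ ν.S) : ν.m j ≤ ν.m i := by
  have := h.c_W hij hj
  simp only [Nu.m]; omega

theorem c_m4 (hj : j < ν.S) : 4 ≤ ν.m j := by
  have := h.Wlt j hj
  simp only [Nu.m]; omega

theorem c_b {i j : ℕ} (hij : i ≤ j) (hj : j ≤ ν.S) : ν.b j ≤ ν.b i :=
  h.c_lm (Nat.succ_le_succ (h.c_m hij hj))

theorem c_b1 (j : ℕ) : 1 ≤ ν.b j := h.l1 _

theorem c_cl {t q : ℕ} (hq : q ∈ ν.pre.cl t) :
    q.Prime ∧ Real.log q ≤ ν.eL * ν.l t ∧ (1 ≤ t → ν.eL * ν.l (t - 1) < Real.log q) := by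
  have hq' : q ∈ ν.G t ∪ ν.R t := hq
  rcases t with _ | t
  · simp only [Nu.G, Nu.R, if_true, union_empty, c_mem] at hq'
    exact ⟨hq'.1, hq'.2.2, fun e => absurd e (by omega)⟩
  · simp only [Nu.G, Nu.R, Nat.succ_ne_zero, if_false, mem_union, c_mem, Nat.add_sub_cancel]
      at hq' ⊢
    have a := h.c_lt (t + 1)
    have b := h.c_tl t
    rcases hq' with ⟨h1, h2, h3⟩ | ⟨h1, h2, h3⟩
    · exact ⟨h1, h3.trans a, fun _ => h2⟩
    · exact ⟨h1, h3, fun _ => b.trans_lt h2⟩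

theorem c_Lv {a b q : ℕ} (hq : q ∈ ν.pre.Lv a b) :
    q.Prime ∧ Real.log q ≤ ν.eL * ν.l (b - 1) ∧ (1 ≤ a → ν.eL * ν.l (a - 1) < Real.log q) := by
  obtain ⟨t, ht, hq⟩ := mem_biUnion.1 hq
  rw [mem_Ico] at ht
  obtain ⟨h1, h2, h3⟩ := h.c_cl hq
  exact ⟨h1, h2.trans (h.c_tm (by omega)),
    fun e => (h.c_tm (show a - 1 ≤ t - 1 by omega)).trans_lt (h3 (by omega))⟩

theorem c_top {i : ℕ} (hi : i ≤ ν.S) : ν.eL * ν.l (ν.m 0) ≤ ν.LD - ν.b i := by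
  have a : ν.eL * ν.l (ν.m 0) ≤ ν.b 0 := h.c_tl _
  have b := h.c_b (Nat.zero_le i) hi
  have c := h.c_b1 0
  simp only [Nu.LD]; linarith

omit h in
theorem c_RR {i q : ℕ} (hq : q ∈ ν.RR i) :
    q.Prime ∧ ν.LD - ν.b i < Real.log q ∧ Real.log q ≤ ν.LD - ν.b (i + 1) := c_mem.1 hq

theorem c_dRR {i i' : ℕ} (hi : i < i') (hi' : i' < ν.S) : Disjoint (ν.RR i) (ν.RR i') := by
  refine disjoint_left.2 fun q h1 h2 => ?_
  have a := (c_RR h1).2.2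
  have b := (c_RR h2).2.1
  have c := h.c_b (show i + 1 ≤ i' from hi) hi'.le
  linarith

theorem c_dLR (a : ℕ) {i : ℕ} (hi : i < ν.S) : Disjoint (ν.pre.Lv a (ν.m 0 + 1)) (ν.RR i) := by
  refine disjoint_left.2 fun q h1 h2 => ?_
  have a := (h.c_Lv h1).2.1
  have b := (c_RR h2).2.1
  have c := h.c_top hi.le
  rw [Nat.add_sub_cancel] at a
  linarith

omit h in
theorem c_RH (hj : j < ν.S) {q : ℕ} (hq : q ∈ (ν.fam j).RR ∪ (ν.fam j).HH) :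
    ∃ i, j ≤ i ∧ i < ν.S ∧ q ∈ ν.RR i := by
  rcases mem_union.1 hq with hq | hq
  · exact ⟨j, le_rfl, hj, hq⟩
  · obtain ⟨i, hi, hq⟩ := mem_biUnion.1 hq
    rw [mem_Ico] at hi
    exact ⟨i, by omega, hi.2, hq⟩

theorem c_TT (hj : j < ν.S) {q : ℕ} (hq : q ∈ (ν.fam j).TT) :
    q.Prime ∧ ν.eL * ν.l (ν.m j) < Real.log q ∧ Real.log q ≤ ν.LD := by
  have key : ∀ i < ν.S, q ∈ ν.RR i →
      q.Prime ∧ ν.eL * ν.l (ν.m j) < Real.log q ∧ Real.log q ≤ ν.LD := by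
    intro i hi hq
    obtain ⟨h1, h2, h3⟩ := c_RR hq
    have a := h.c_top hi.le
    have b : ν.eL * ν.l (ν.m j) ≤ ν.eL * ν.l (ν.m 0) := h.c_tm (h.c_m (Nat.zero_le j) hj.le)
    have c := h.c_b1 (i + 1)
    exact ⟨h1, by linarith, by linarith⟩
  rw [Fam.TT, union_assoc] at hq
  rcases mem_union.1 hq with hq | hq
  · rcases mem_union.1 hq with hq | hq
    · obtain ⟨h1, h2, h3⟩ := h.c_Lv hq
      have a := h.c_top (Nat.zero_le ν.S)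
      have c := h.c_b1 0
      rw [Nat.add_sub_cancel] at h2 h3
      exact ⟨h1, h3 (by omega), by linarith⟩
    · obtain ⟨i, hi, hq⟩ := mem_biUnion.1 hq
      exact key i ((mem_range.1 hi).trans hj) hq
  · obtain ⟨i, _, hi, hq⟩ := c_RH hj hq
    exact key i hi hq

theorem c_Lρ : 80 * ν.ρm ≤ ν.Λ := by
  have a := h.ρm1
  have b : 1 ≤ Real.exp (ν.v0 * ν.m 0) := Real.one_le_exp (mul_nonneg h.v00 (Nat.cast_nonneg _))
  have c := h.Omv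
  have d := h.η0
  have e := h.η1
  have o : 1 ≤ ν.Om := by nlinarith
  have p : 80 * ν.ρm ≤ (80 * ν.ρm) ^ ν.S := le_self_pow₀ (by linarith) h.S0.ne'
  have := h.LOm
  nlinarith

theorem c_LD : ν.LD ≤ ν.Λ * ν.l 3 := by
  have a := h.c_Lρ
  have b := h.bup
  have c := h.l1 3
  have d := h.ρm1
  simp only [Nu.LD]; nlinarith

theorem c_card {t : ℕ} (ht : 1 ≤ t) : Real.exp (ν.l t) ≤ (ν.R t).card := by
  have e : ν.R t = pe (ν.l t) (ν.eL * ν.l t) := if_neg (by omega)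
  have l1 := h.l1 t
  have a := (abs_le.1 (h.mert.m1 _ _ l1 (h.c_lt t))).1
  rw [mul_div_assoc, div_self (by linarith), mul_one, ← e] at a
  have b : 0 ≤ Real.log (1 / ν.κ) :=
    Real.log_nonneg ((one_le_div h.κ0).2 (by linarith [h.κ1]))
  have c := h.eLκ
  have p := Real.exp_pos (ν.l t)
  have d : rs (ν.R t) ≤ (ν.R t).card * (1 / Real.exp (ν.l t)) := by
    rw [← nsmul_eq_mul]
    refine sum_le_card_nsmul _ _ _ fun q hq => ?_
    rw [e, c_mem] at hq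
    exact one_div_le_one_div_of_le p (c_exp_lt hq.1 hq.2.1).le
  rw [mul_one_div, le_div_iff₀ p] at d
  nlinarith

/-! ### the fields of Hyp0 and Hyp7 -/

theorem pr' (hj : j < ν.S) : ∀ q ∈ (ν.fam j).all, q.Prime := fun q hq => by
  rcases mem_union.1 hq with hq | hq
  · exact (h.c_Lv hq).1
  · exact (h.c_TT hj hq).1

omit h in
theorem c_dGR (t : ℕ) : Disjoint (ν.G t) (ν.R t) := by
  rcases t with _ | t
  · simp [Nu.R]
  · refine disjoint_left.2 fun q h1 h2 => ?_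
    simp only [Nu.G, Nu.R, Nat.succ_ne_zero, if_false, c_mem] at h1 h2
    linarith [h1.2.2, h2.2.1]

theorem dGR' (_hj : j < ν.S) : ∀ t ≤ (ν.fam j).m, Disjoint ((ν.fam j).G t) ((ν.fam j).R t) :=
  fun t _ => have := h; c_dGR t

theorem tpm' (_hj : j < ν.S) : Monotone (ν.par C j).tp := fun _ _ e =>
  Nat.floor_le_floor (Real.exp_le_exp.2 (h.c_tm e))

theorem tple' (_hj : j < ν.S) :
    ∀ t ≤ (ν.fam j).m, ∀ q ∈ (ν.fam j).cl t, q ≤ (ν.par C j).tp t := fun _ _ _ hq =>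
  Nat.le_floor (c_le_exp (h.c_cl hq).1 (h.c_cl hq).2.1)

theorem tplt' (_hj : j < ν.S) :
    ∀ t < (ν.fam j).m, ∀ q ∈ (ν.fam j).cl (t + 1), (ν.par C j).tp t < q := fun _ _ _ hq =>
  (Nat.floor_lt (Real.exp_pos _).le).2 (c_exp_lt (h.c_cl hq).1 ((h.c_cl hq).2.2 (by omega)))

theorem tpT' (hj : j < ν.S) : ∀ q ∈ (ν.fam j).TT, (ν.par C j).tp (ν.fam j).m < q := fun _ hq =>
  (Nat.floor_lt (Real.exp_pos _).le).2 (c_exp_lt (h.c_TT hj hq).1 (h.c_TT hj hq).2.1)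

theorem dUR' (hj : j < ν.S) : Disjoint (ν.fam j).U (ν.fam j).RR :=
  disjoint_union_left.2 ⟨h.c_dLR _ hj, (disjoint_biUnion_left _ _ _).2 fun _ hi =>
    h.c_dRR (mem_range.1 hi) hj⟩

theorem dUH' (_hj : j < ν.S) : Disjoint (ν.fam j).U (ν.fam j).HH :=
  (disjoint_biUnion_right _ _ _).2 fun _ hi' => disjoint_union_left.2
    ⟨h.c_dLR _ (mem_Ico.1 hi').2, (disjoint_biUnion_left _ _ _).2 fun _ hi =>
      h.c_dRR (by have := mem_range.1 hi; have := (mem_Ico.1 hi').1; omega) (mem_Ico.1 hi').2⟩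

theorem dRH' (_hj : j < ν.S) : Disjoint (ν.fam j).RR (ν.fam j).HH :=
  (disjoint_biUnion_right _ _ _).2 fun _ hi => h.c_dRR (mem_Ico.1 hi).1 (mem_Ico.1 hi).2

theorem c_rR (t : ℕ) : ν.r t ≤ (ν.R t).card := by
  rcases Nat.eq_zero_or_pos t with rfl | ht
  · rw [h.r0]; exact Nat.zero_le _
  · exact_mod_cast (h.rl t).trans (h.c_card ht)

theorem rR' (_hj : j < ν.S) : ∀ t ≤ (ν.fam j).m, (ν.fam j).r t ≤ ((ν.fam j).R t).card :=
  fun t _ => h.c_rR t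

theorem c_B1 (t : ℕ) : 1 ≤ ν.B t := by
  unfold Nu.B
  split_ifs
  · exact h.B1
  · norm_num

theorem B1' (_hj : j < ν.S) : ∀ t, 1 ≤ (ν.fam j).B t := h.c_B1

theorem c_lev (hj : j < ν.S) : Lev (ν.fam j) :=
  Lev.of_tp (ν.par C j).tp (fun _ _ _ hq => (h.c_cl hq).1) (h.dGR' hj) (h.tpm' hj) (h.tple' hj)
    (h.tplt' hj) (h.rR' hj) h.c_B1

theorem TMs' (hj : j < ν.S) : ∀ q ∈ (ν.fam j).TT, (ν.par C j).Ms ≤ q := fun _ hq =>
  (c_exp_lt (h.c_TT hj hq).1 (h.c_TT hj hq).2.1).le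

omit h in
theorem c_lo {q : ℕ} {x y : ℝ} (hq : q.Prime) (e : x - y < Real.log q) :
    Real.exp x ≤ q * Real.exp y := by
  have := c_exp_lt hq e
  rw [Real.exp_sub, div_lt_iff₀ (Real.exp_pos _)] at this
  exact this.le

theorem Rlo' (hj : j < ν.S) : ∀ q ∈ (ν.fam j).RR ∪ (ν.fam j).HH,
    (ν.fam j).D ≤ q * Real.exp (ν.par C j).Lp := fun _ hq => by
  obtain ⟨i, h1, h2, hq⟩ := c_RH hj hq
  have := h.c_b h1 h2.le
  exact c_lo (y := ν.b j) (c_RR hq).1 (by linarith [(c_RR hq).2.1])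

theorem Rhi' (hj : j < ν.S) : ∀ q ∈ (ν.fam j).RR ∪ (ν.fam j).HH,
    (q : ℝ) ≤ 2 * (ν.fam j).D := fun _ hq => by
  have a := h.c_TT hj ((ν.fam j).RH_sub hq)
  have b : _ ≤ (ν.fam j).D := c_le_exp a.1 a.2.2
  have c : 0 < (ν.fam j).D := Real.exp_pos _
  linarith

theorem Hlo' (_hj : j < ν.S) : ∀ q ∈ (ν.fam j).HH,
    (ν.fam j).D ≤ q * Real.exp (ν.par C j).Lh := fun _ hq => by
  obtain ⟨i, hi, hq⟩ := mem_biUnion.1 hq
  rw [mem_Ico] at hi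
  have := h.c_b hi.1 hi.2.le
  exact c_lo (y := ν.b (j + 1)) (c_RR hq).1 (by linarith [(c_RR hq).2.1])

theorem Rt' (_hj : j < ν.S) : ∀ t ∈ Icc 1 (ν.fam j).m, ∀ q ∈ (ν.fam j).R t,
    (ν.par C j).mn t ≤ q ∧ Real.log q ≤ (ν.par C j).eL * (ν.par C j).l t := fun t ht q hq => by
  have := h
  have e : (ν.fam j).R t = pe (ν.l t) (ν.eL * ν.l t) :=
    if_neg (by have := (mem_Icc.1 ht).1; omega)
  rw [e, c_mem] at hq
  exact ⟨(c_exp_lt hq.1 hq.2.1).le, hq.2.2⟩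

theorem c_l3 (hj : j < ν.S) : ν.l 3 ≤ ν.eL * ν.l (ν.m j) :=
  (h.c_lm (by have := h.c_m4 hj; omega)).trans (h.c_lt _)

theorem Ta' (hj : j < ν.S) : ∀ q ∈ (ν.fam j).TT,
    (ν.par C j).a ≤ Real.log q ∧ Real.log q ≤ (ν.par C j).a * (ν.par C j).Λ := fun _ hq => by
  obtain ⟨_, h2, h3⟩ := h.c_TT hj hq
  refine ⟨h2.le, h3.trans (h.c_LD.trans ?_)⟩
  rw [mul_comm]
  exact mul_le_mul_of_nonneg_right (h.c_l3 hj) (by linarith [h.c_Lρ, h.ρm1] : 0 ≤ ν.Λ)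

/-! ### the fields of Chain -/

theorem sub' : ∀ j < ν.S, (ν.fam j).TT ⊆ pe (ν.l 3) (ν.Λ * ν.l 3) := fun _ hj _ hq => by
  obtain ⟨h1, h2, h3⟩ := h.c_TT hj hq
  exact c_mem.2 ⟨h1, (h.c_l3 hj).trans_lt h2, h3.trans h.c_LD⟩

theorem c_LoU (hj : j ≤ ν.S) :
    (ν.fam j).Lo ∪ (ν.fam j).U = ν.pre.Lv 0 (ν.m 0 + 1) ∪ (range j).biUnion ν.RR := by
  rw [ν.pre.Lv_split (Nat.zero_le (ν.m j + 1)) (Nat.succ_le_succ (h.c_m (Nat.zero_le j) hj)),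
    union_assoc]
  rfl

theorem c_all (hj : j < ν.S) : (ν.fam j).all = ν.AA := by
  have e : range ν.S = range j ∪ insert j (Ico (j + 1) ν.S) := by
    ext i; simp only [mem_range, mem_union, mem_insert, mem_Ico]; omega
  rw [Fam.all, Fam.TT, union_assoc, ← union_assoc, h.c_LoU hj.le, Nu.AA, e, union_biUnion,
    biUnion_insert, union_assoc]
  rfl

theorem c_vv (hj : j < ν.S) (n : ℕ) :
    (ν.fam j).vv n = ν.pre.V 0 (ν.m 0 + 1) (dp ν.AA n) * ∏ i ∈ range ν.S, ν.zn i n := by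
  have m0 := h.c_m (Nat.zero_le j) hj.le
  have s1 : (ν.fam j).Lo ⊆ ν.AA := h.c_all hj ▸ (ν.fam j).Lo_sub
  have s2 : (ν.fam j).U ⊆ ν.AA := h.c_all hj ▸ (ν.fam j).U_sub.trans (ν.fam j).TT_sub
  have e1 : (ν.fam j).V 0 ((ν.fam j).m + 1) (dp (ν.fam j).Lo n) =
      ν.pre.V 0 (ν.m j + 1) (dp ν.AA n) := by
    rw [← dp_inter s1]
    exact (ν.fam j).V_inter Subset.rfl _
  have e2 : (ν.fam j).vk (dp (ν.fam j).U n) =
      ν.pre.V (ν.m j + 1) (ν.m 0 + 1) (dp ν.AA n) * ∏ i ∈ range j, ν.zn i n := by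
    change ν.VU j _ * _ = _
    congr 1
    · rw [← dp_inter s2]
      exact ν.pre.V_inter subset_union_left _
    · exact prod_congr rfl fun i hi =>
        ν.zz_dp ((subset_biUnion_of_mem ν.RR hi).trans subset_union_right) n
  rw [Fam.vv, e1, e2, ν.z0_eq hj, ν.pre.V_split (Nat.zero_le (ν.m j + 1)) (Nat.succ_le_succ m0),
    ← prod_range_mul_prod_Ico _ hj.le]
  ring

theorem com' : ∀ j < ν.S, (ν.fam j).k = ν.k ∧ (ν.fam j).N = (ν.fam 0).N ∧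
    (ν.fam j).D = (ν.fam 0).D ∧ (ν.fam j).ε = ν.ε ∧ (ν.par C j).η = ν.η ∧
    (ν.par C j).Cw = ν.Cw ∧ (ν.par C j).Λ = ν.Λ ∧ (ν.fam j).all = (ν.fam 0).all ∧
    (ν.fam j).vv = (ν.fam 0).vv := fun _ hj =>
  ⟨rfl, rfl, rfl, rfl, rfl, rfl, rfl, by rw [h.c_all hj, h.c_all h.S0],
    funext fun n => by rw [h.c_vv hj, h.c_vv h.S0]⟩

theorem nxt' : ∀ j, j + 1 < ν.S →
    (ν.fam j).Qk = (ν.fam (j + 1)).Qk0 ∧ (ν.fam j).z = (ν.fam (j + 1)).z0 := fun j hj => by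
  refine ⟨?_, funext fun n => by rw [ν.z_eq, ν.z0_eq hj]⟩
  rw [Fam.Qk, Fam.Qk0, h.c_LoU (by omega), h.c_LoU hj.le, range_add_one, biUnion_insert,
    union_assoc, union_comm _ (ν.fam j).RR]
  rfl

theorem dz' : ∃ (A : Type) (_ : Fintype A) (dz : ℕ → A), Real.log (2 * Fintype.card A) ≤ ν.Λ ∧
    ∀ j < ν.S, ∀ n n', dz n = dz n' → (ν.fam j).z n = (ν.fam j).z n' := by
  refine ⟨Fin ν.S → Bool, inferInstance, fun n i => decide ((dp (ν.RR i) n).card = 1), ?_,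
    fun j _ n n' e => ?_⟩
  · have a : (2 * Fintype.card (Fin ν.S → Bool) : ℝ) = 2 ^ (ν.S + 1) := by
      simp [pow_succ']
    rw [a, Real.log_pow]
    have b := Real.log_two_lt_d9
    have c := h.LS
    have d : (0 : ℝ) ≤ ν.S := Nat.cast_nonneg _
    push_cast
    nlinarith
  · rw [ν.z_eq, ν.z_eq]
    refine prod_congr rfl fun i hi => ?_
    have := congrFun e ⟨i, (mem_Ico.1 hi).2⟩
    simp only [decide_eq_decide] at this
    simp only [Nu.zn, this]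

end NuOk

end Pool.Agent.P.MP_a14ce1_nt.Fu.Pa
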