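import Pool.Agent.P.MP_a14ce1_nt.Fu.PaNz

/-! Section 1: the inequalities for the exponents u. -/

open Finset

namespace Pool.Agent.P.MP_a14ce1_nt.Fu.Pa

namespace Cs

variable (s : Cs)

theorem u_zero (w : ℕ) : s.u 0 w = 4 * s.A4 * s.n := by simp [u]
theorem u_one (w : ℕ) : s.u 1 w = s.J 1 := by simp [u]
theorem u_two {t : ℕ} (ht : 2 ≤ t) (w : ℕ) :
    s.u t w = s.U / 2 * (4 ^ (t - 2 - w) + ((s.m0 - t : ℕ) : ℝ) / s.Λ) := by
  unfold u; rw [if_neg (by omega), if_neg (by omega)]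
theorem U_nonneg : 0 ≤ s.U := by unfold U; positivity
theorem Λ_pos : 0 < s.Λ := by unfold Λ x; positivity
theorem r_succ (t : ℕ) : (s.r (t + 1) : ℝ) = s.c * s.J (t + 1) := by simp [r]

end Cs

namespace CsOk

variable {s : Cs} (h : CsOk s)
include h

theorem small : 100 * (s.A4 : ℝ) ≤ s.n ∧ 100 * (s.c : ℝ) ≤ s.n := by
  have := h.n2
  constructor
  · exact_mod_cast le_trans (by nlinarith [Nat.zero_le (s.C * s.k)]) this
  · exact_mod_cast le_trans (by nlinarith [Nat.zero_le (s.C * s.k)]) this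

theorem A4_ge : 2 * (s.A1 : ℝ) + 12 + s.cf ≤ s.A4 := by
  have := h.A4
  have h1 : (0 : ℝ) ≤ s.E + s.E * s.C := by positivity
  linarith

theorem del_le (t : ℕ) : ((s.m0 - t : ℕ) : ℝ) / s.Λ ≤ 1 := by
  rw [div_le_one s.Λ_pos]
  exact le_trans (by exact_mod_cast Nat.sub_le _ _) h.m0_Λ

theorem U_le : 4 * s.U ≤ s.l 3 := by
  rw [h.l_three]
  unfold Cs.U
  have h1 : 1 ≤ s.q ^ 2 := one_le_pow₀ (by linarith [h.q_ge])
  have h2 : 1 ≤ s.x ^ 10 := one_le_pow₀ (by linarith [h.x100])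
  have h3 : (0 : ℝ) ≤ s.J 1 * s.J 2 := by positivity
  have h4 : 1 ≤ s.q ^ 2 * s.x ^ 10 := one_le_mul_of_one_le_of_one_le h1 h2
  nlinarith

omit h in
theorem un' : ∀ t w, 0 ≤ s.nu.u t w := by
  intro t w
  show 0 ≤ s.u t w
  have := s.U_nonneg
  have := s.Λ_pos
  unfold Cs.u; split_ifs <;> positivity

omit h in
theorem uw' : ∀ t ≤ 1, ∀ w, s.nu.u t w = s.nu.u t 0 := by
  intro t ht w
  show s.u t w = s.u t 0
  interval_cases t
  · rw [s.u_zero, s.u_zero]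
  · rw [s.u_one, s.u_one]

theorem ul' : ∀ t < s.nu.m 0, ∀ w, s.nu.u t w ≤ 2 * s.nu.l (t + 1) := by
  intro t _ w
  show s.u t w ≤ 2 * s.l (t + 1)
  rcases Nat.lt_or_ge t 2 with ht | ht
  · interval_cases t
    · rw [s.u_zero]
      show _ ≤ 2 * s.x ^ 10
      have h1 := h.small.1
      have h2 := h.nnx
      have h3 := h.n100
      have h4 : s.x ^ 1 ≤ s.x ^ 10 := pow_le_pow_right₀ (by linarith [h.x100]) (by norm_num)
      rw [pow_one] at h4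
      nlinarith [h.x100]
    · rw [s.u_one, h.J_one]
      have := h.l_two_ge
      have := h.l_one 2
      linarith
  · obtain ⟨e, rfl⟩ := Nat.exists_eq_add_of_le' ht
    rw [s.u_two ht, show e + 2 + 1 = e + 3 by ring, h.l_add]
    have h1 : (4 : ℝ) ^ (e + 2 - 2 - w) ≤ 4 ^ e := pow_le_pow_right₀ (by norm_num) (by omega)
    have h2 : (4 : ℝ) ^ e ≤ (2 ^ (s.b + 5)) ^ e := by
      gcongr
      calc (4 : ℝ) = 2 ^ 2 := by norm_num
        _ ≤ _ := pow_le_pow_right₀ (by norm_num) (by omega)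
    have h3 : (1 : ℝ) ≤ 4 ^ e := one_le_pow₀ (by norm_num)
    have h4 := h.del_le (e + 2)
    have h5 := h.U_le
    have h6 := s.U_nonneg
    calc s.U / 2 * (4 ^ (e + 2 - 2 - w) + ((s.m0 - (e + 2) : ℕ) : ℝ) / s.Λ)
        ≤ s.U / 2 * ((2 ^ (s.b + 5)) ^ e + (2 ^ (s.b + 5)) ^ e) := by gcongr <;> linarith
      _ = (2 ^ (s.b + 5)) ^ e * s.U := by ring
      _ ≤ (2 ^ (s.b + 5)) ^ e * (2 * s.l 3) := by gcongr; linarith
      _ = _ := by ring

theorem ur' : ∀ t < s.nu.m 0, ∀ w,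
    2 * ((s.nu.r (t + 1) : ℝ) + s.nu.Kx (t + 1)) ≤ Real.exp (s.nu.u t w / 4) := by
  intro t ht w
  change t < s.m0 at ht
  show 2 * ((s.r (t + 1) : ℝ) + s.Kx (t + 1)) ≤ Real.exp (s.u t w / 4)
  have hx := h.x100
  have hc := h.small.2
  have hn := h.nx
  rw [s.r_succ]
  rcases Nat.eq_zero_or_pos t with rfl | h0
  · rw [s.u_zero, zero_add, h.J_one]
    have h1 := h.Kx1_n
    have h2 : 1 ≤ s.x ^ s.A1 := one_le_pow₀ (by linarith)
    have h3 : (0 : ℝ) ≤ s.Kx 1 := Nat.cast_nonneg _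
    have h4 : ((s.A1 + 1 : ℕ) : ℝ) ≤ s.A4 := by
      have := h.A4_ge
      have := h.cf_nonneg
      have : (0 : ℝ) ≤ s.A1 := Nat.cast_nonneg _
      push_cast; linarith
    calc 2 * (s.c * s.x ^ s.A1 + s.Kx 1) ≤ s.x ^ (s.A1 + 1) := by rw [pow_succ]; nlinarith
      _ ≤ Real.exp ((s.A1 + 1 : ℕ) * s.n) := h.x_pow_le _
      _ ≤ _ := by
        apply Real.exp_le_exp.2
        have : (0 : ℝ) ≤ s.n := Nat.cast_nonneg _
        nlinarith
  · have h1 := h.J_Z (t + 1)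
    have h2 := h.Kx_le (t := t + 1) ht
    have h3 := h.x_Z
    have h4 := h.Λ_Z
    have h5 : (s.c : ℝ) * s.J (t + 1) ≤ s.Z * s.Z := by
      have : (0 : ℝ) ≤ s.c := Nat.cast_nonneg _
      exact mul_le_mul (by linarith) h1 (Nat.cast_nonneg _) (by linarith)
    have h6 : s.Λ * s.x ≤ s.Z * s.Z := by gcongr; linarith
    calc 2 * (s.c * s.J (t + 1) + (s.Kx (t + 1) : ℝ)) ≤ 4 * (s.Z * s.Z) := by linarith
      _ ≤ s.Z * (s.Z * s.Z) := mul_le_mul_of_nonneg_right (by linarith) (mul_self_nonneg _)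
      _ = s.Z ^ 3 := by ring
      _ ≤ Real.exp (s.x ^ s.A1 / 4) := h.Z_pow (by push_cast; linarith)
      _ ≤ _ := by have := h.u_ge h0 w; gcongr

theorem uf' : ∀ t < s.nu.m 0, ∀ w, 1 + s.nu.f (t + 1) ≤ s.nu.u t w := by
  intro t ht w
  change t < s.m0 at ht
  show 1 + s.f (t + 1) ≤ s.u t w
  rcases Nat.eq_zero_or_pos t with rfl | h0
  · rw [s.u_zero, zero_add]
    have h1 := h.f_one
    have h2 := h.A4_ge
    have h3 := h.cf_nonneg
    have h4 := h.n100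
    have h5 : (0 : ℝ) ≤ s.A1 := Nat.cast_nonneg _
    nlinarith
  · have h1 := h.f_le (t := t + 1) (by omega) ht
    have h2 := h.u_ge h0 w
    have h3 : 0 ≤ s.x ^ s.A1 := by have := h.x100; positivity
    linarith

theorem uJ' : ∀ t < s.nu.m 0, ∀ w, s.nu.u (t + 1) w ≤ s.nu.J (t + 1) * s.nu.u t w / 4 := by
  intro t _ w
  show s.u (t + 1) w ≤ s.J (t + 1) * s.u t w / 4
  have hU := s.U_nonneg
  rcases Nat.lt_or_ge t 2 with ht | ht
  · interval_cases t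
    · rw [s.u_zero, zero_add, s.u_one]
      have h2 := h.A4_ge
      have h3 := h.cf_nonneg
      have h4 := h.n100
      have h5 : (0 : ℝ) ≤ s.A1 := Nat.cast_nonneg _
      have h6 : (0 : ℝ) ≤ s.J 1 := Nat.cast_nonneg _
      have h7 : (1 : ℝ) ≤ s.A4 * s.n := by nlinarith
      nlinarith
    · rw [s.u_one, s.u_two le_rfl]
      have h1 := h.del_le 2
      have h2 : s.U / 2 * (4 ^ (1 + 1 - 2 - w) + ((s.m0 - (1 + 1) : ℕ) : ℝ) / s.Λ) ≤
          s.U / 2 * (1 + 1) := by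
        gcongr
        simp
      refine h2.trans (le_of_eq ?_)
      unfold Cs.U; ring
  · rw [s.u_two ht, s.u_two (by omega : 2 ≤ t + 1)]
    have hJ : (s.J (t + 1) : ℝ) = 32 := by
      unfold Cs.J; rw [if_neg (by omega), if_neg (by omega)]; norm_num
    have h1 : (4 : ℝ) ^ (t + 1 - 2 - w) ≤ 4 ^ (t - 2 - w) * 4 := by
      rw [← pow_succ]; exact pow_le_pow_right₀ (by norm_num) (by omega)
    have h2 : ((s.m0 - (t + 1) : ℕ) : ℝ) / s.Λ ≤ ((s.m0 - t : ℕ) : ℝ) / s.Λ := by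
      have := s.Λ_pos
      gcongr; omega
    have h3 : (0 : ℝ) ≤ ((s.m0 - t : ℕ) : ℝ) / s.Λ := by have := s.Λ_pos; positivity
    have h4 : (0 : ℝ) ≤ 4 ^ (t - 2 - w) := by positivity
    rw [hJ]
    calc s.U / 2 * (4 ^ (t + 1 - 2 - w) + ((s.m0 - (t + 1) : ℕ) : ℝ) / s.Λ)
        ≤ s.U / 2 * (8 * (4 ^ (t - 2 - w) + ((s.m0 - t : ℕ) : ℝ) / s.Λ)) := by
          gcongr; linarith
      _ = _ := by ring

theorem us' : ∀ t < s.nu.m 0, ∀ w, 2 ≤ t → 1 ≤ w →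
    s.nu.u (t + 1) w + 1 + s.nu.f (t + 1) ≤ s.nu.u t (w - 1) := by
  intro t ht w h2 hw
  change t < s.m0 at ht
  show s.u (t + 1) w + 1 + s.f (t + 1) ≤ s.u t (w - 1)
  rw [s.u_two h2, s.u_two (by omega : 2 ≤ t + 1), show t + 1 - 2 - w = t - 2 - (w - 1) by omega,
    show s.m0 - t = s.m0 - (t + 1) + 1 by omega]
  have h1 := h.f_le (t := t + 1) (by omega) ht
  have h3 : 0 ≤ s.x ^ s.A1 := by have := h.x100; positivity
  have hΛ := s.Λ_pos
  have h4 : s.x ^ s.A1 ≤ s.U / 2 * (1 / s.Λ) := by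
    have h5 := h.J2_ge
    unfold Cs.U
    rw [h.J_one, mul_one_div, le_div_iff₀ hΛ]
    nlinarith
  push_cast
  rw [add_div]
  linarith

theorem uX' : ∀ j < s.nu.S, s.nu.X * s.nu.b (j + 1) ≤ s.nu.uT j := by
  intro j hj
  show ((s.C : ℝ) + s.C2 + 10) * s.l (2 * s.W (j + 1) + 2 + 1) ≤ s.u (2 * s.W j + 2) (s.W j - 1)
  have hW := h.W_succ hj
  have hn : 100 ≤ s.n := by exact_mod_cast h.n100
  rw [s.u_two (by omega), show 2 * s.W (j + 1) + 2 + 1 = 2 * s.W (j + 1) + 3 by ring, h.l_add,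
    h.l_three,
    show 2 * s.W j + 2 - 2 - (s.W j - 1) = 6 * s.n + (s.b + 5) * s.W (j + 1) + 1 by omega]
  have e1 : (4 : ℝ) ^ (6 * s.n + (s.b + 5) * s.W (j + 1) + 1) =
      s.x ^ 12 * (2 ^ (s.b + 5)) ^ (2 * s.W (j + 1)) * 4 := by
    unfold Cs.x
    rw [pow_succ, pow_add, show (4 : ℝ) = 2 ^ 2 by norm_num, ← pow_mul, ← pow_mul, ← pow_mul,
      ← pow_mul]
    congr 2
    · congr 1; ring
    · congr 1; ring
  have h1 : (0 : ℝ) ≤ ((s.m0 - (2 * s.W j + 2) : ℕ) : ℝ) / s.Λ := by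
    have := s.Λ_pos; positivity
  have h2 : ((s.C : ℝ) + s.C2 + 10) * s.q ^ 2 ≤ s.x ^ 2 / 2 := by
    have := h.n4
    have := h.nx
    have := h.x100
    nlinarith
  have hU := s.U_nonneg
  have hx : 0 ≤ s.x := by linarith [h.x100]
  calc ((s.C : ℝ) + s.C2 + 10) *
        ((2 ^ (s.b + 5)) ^ (2 * s.W (j + 1)) * (s.q ^ 2 * s.J 1 * s.J 2 * s.x ^ 10))
      = (((s.C : ℝ) + s.C2 + 10) * s.q ^ 2) *
        ((2 ^ (s.b + 5)) ^ (2 * s.W (j + 1)) * (s.J 1 * s.J 2 * s.x ^ 10)) := by ring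
    _ ≤ s.x ^ 2 / 2 * ((2 ^ (s.b + 5)) ^ (2 * s.W (j + 1)) * (s.J 1 * s.J 2 * s.x ^ 10)) := by
        gcongr
    _ = s.U / 2 * (4 ^ (6 * s.n + (s.b + 5) * s.W (j + 1) + 1) + 0) := by
        rw [e1]; unfold Cs.U; ring
    _ ≤ _ := by gcongr

end CsOk

end Pool.Agent.P.MP_a14ce1_nt.Fu.Pa
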