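import Pool.Agent.P.MP_a14ce1_nt.Fu.PaNz

/-! Section 1: the pinning, hidden information and size inequalities for the explicit numbers. -/

open Finset

namespace Pool.Agent.P.MP_a14ce1_nt.Fu.Pa

namespace CsOk

variable {s : Cs} (h : CsOk s)
include h

theorem cnt2 : ((s.C * s.k + s.C + s.C2 + 12 : ℕ) : ℝ) ≤ s.x := by
  have a : s.C * s.k + s.C + s.C2 + 12 ≤ s.n := by
    have := h.n2
    have := h.n100'
    omega
  exact le_trans (by exact_mod_cast a) h.nx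

theorem Zp2 {p : ℕ} (hp : p ≤ s.C * s.k + s.C + s.C2 + 12) :
    s.Z ^ p ≤ Real.exp (s.x ^ s.A1 / 4) :=
  h.Z_pow (le_trans (by exact_mod_cast hp) h.cnt2)

theorem La_nn2 (t : ℕ) : 0 ≤ s.nu.La t + 2 := by
  have := h.l_one (t + 1)
  have := h.η2
  rw [h.La_eq]
  positivity

theorem pin' : ∀ t < s.nu.m 0, ∀ w, s.nu.Λ ^ s.C * s.nu.J (t + 1) ^ 2 * (s.nu.La t + 2) ≤
    Real.exp (s.nu.u t w / 2) := by
  intro t ht w
  have x0 : 0 < s.x := by linarith [h.x100]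
  have Λ0 : 0 < s.Λ := by linarith [h.xΛ]
  have a0 := h.La_nn2 t
  show s.Λ ^ s.C * (s.J (t + 1) : ℝ) ^ 2 * (s.nu.La t + 2) ≤ Real.exp (s.u t w / 2)
  rcases Nat.eq_zero_or_pos t with rfl | t0
  · have a := h.La_zero
    have e : s.u 0 w = 4 * s.A4 * s.n := by simp [Cs.u]
    rw [zero_add, h.J_one, e]
    calc _ ≤ s.Λ ^ s.C * (s.x ^ s.A1) ^ 2 * s.x ^ 11 := by gcongr
      _ = s.x ^ (s.E * s.C + 2 * s.A1 + 11) := by rw [Cs.Λ]; ring
      _ ≤ _ := by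
        refine (h.x_pow_le _).trans (Real.exp_le_exp.2 ?_)
        have := h.A4
        have := h.cf_nonneg
        have := Nat.cast_nonneg (α := ℝ) s.E
        have := Nat.cast_nonneg (α := ℝ) s.A4
        have n0 := Nat.cast_nonneg (α := ℝ) s.n
        have b : ((s.E * s.C + 2 * s.A1 + 11 : ℕ) : ℝ) ≤ 2 * s.A4 := by push_cast; linarith
        nlinarith [mul_le_mul_of_nonneg_right b n0]
  · have z := h.Z_one
    have a1 := h.Λ_Z
    have a2 := h.J_Z (t + 1)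
    have a3 := h.La_Z (show t ≤ s.m0 from ht.le)
    have a4 := h.u_ge t0 w
    have a5 : 0 < s.x ^ s.A1 := by positivity
    calc _ ≤ s.Z ^ s.C * s.Z ^ 2 * s.Z ^ 4 := by gcongr
      _ = s.Z ^ (s.C + 6) := by ring
      _ ≤ _ := (h.Zp2 (by omega)).trans (Real.exp_le_exp.2 (by linarith))

theorem hid' : ∀ t < s.nu.m 0, ∀ w, (s.C : ℝ) ^ s.nu.m 0 * s.nu.Λ ^ s.C *
    (s.nu.La (t + 1) + 2) * Real.exp (s.nu.f (t + 1)) ≤ Real.exp (s.nu.u t w) := by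
  intro t ht w
  have x0 : 0 < s.x := by linarith [h.x100]
  have Λ0 : 0 < s.Λ := by linarith [h.xΛ]
  have a0 := h.La_nn2 (t + 1)
  have c0 := h.C_m0
  show (s.C : ℝ) ^ s.m0 * s.Λ ^ s.C * (s.nu.La (t + 1) + 2) * Real.exp (s.f (t + 1)) ≤
    Real.exp (s.u t w)
  rcases Nat.eq_zero_or_pos t with rfl | t0
  · have a := h.La_one
    have b := h.f_one
    have e : s.u 0 w = 4 * s.A4 * s.n := by simp [Cs.u]
    rw [zero_add, e]
    calc _ ≤ s.Λ * s.Λ ^ s.C * s.x ^ (s.A1 + 12) * Real.exp (s.cf * s.n) := by gcongr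
      _ = s.x ^ (s.E + s.E * s.C + s.A1 + 12) * Real.exp (s.cf * s.n) := by rw [Cs.Λ]; ring
      _ ≤ Real.exp ((s.E + s.E * s.C + s.A1 + 12 : ℕ) * s.n) * Real.exp (s.cf * s.n) := by
        gcongr
        exact h.x_pow_le _
      _ ≤ _ := by
        rw [← Real.exp_add]
        refine Real.exp_le_exp.2 ?_
        have := h.A4
        have := Nat.cast_nonneg (α := ℝ) s.A1
        have := Nat.cast_nonneg (α := ℝ) s.A4
        have n0 := Nat.cast_nonneg (α := ℝ) s.n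
        have b : ((s.E + s.E * s.C + s.A1 + 12 : ℕ) : ℝ) + s.cf ≤ 4 * s.A4 := by
          push_cast; linarith
        nlinarith [mul_le_mul_of_nonneg_right b n0]
  · have z := h.Z_one
    have a1 := h.Λ_Z
    have a3 := h.La_Z (show t + 1 ≤ s.m0 from ht)
    have a4 := h.u_ge t0 w
    have a5 : 0 < s.x ^ s.A1 := by positivity
    have a6 := h.f_le (show 2 ≤ t + 1 by omega) (show t + 1 ≤ s.m0 from ht)
    have a7 := c0.trans a1
    calc _ ≤ s.Z * s.Z ^ s.C * s.Z ^ 4 * Real.exp (s.x ^ s.A1 / 4) := by gcongr; linarith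
      _ = s.Z ^ (s.C + 5) * Real.exp (s.x ^ s.A1 / 4) := by ring
      _ ≤ Real.exp (s.x ^ s.A1 / 4) * Real.exp (s.x ^ s.A1 / 4) := by
        gcongr
        exact h.Zp2 (by omega)
      _ ≤ _ := by
        rw [← Real.exp_add]
        exact Real.exp_le_exp.2 (by linarith)

theorem LD_Z2 : 0 ≤ s.nu.LD ∧ s.nu.LD ≤ s.Z ^ 2 := by
  have a := h.l_Z (le_refl (s.m0 + 1))
  have b := h.l_one (s.m0 + 1)
  have e : s.nu.LD = 10 * s.l (s.m0 + 1) := rfl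
  rw [e]
  constructor
  · linarith
  · nlinarith [h.x_Z, h.x100]

theorem exp_l3 : Real.exp (s.x ^ s.A1 / 4) ≤ Real.exp (s.l 3) := by
  have a5 : 0 < s.x ^ s.A1 := pow_pos (by linarith [h.x100]) _
  have := h.l_mono (show 2 ≤ 3 by norm_num)
  exact Real.exp_le_exp.2 (by linarith [h.l_two_ge])

theorem pref' : 2 * (s.nu.S * s.C / s.nu.η + 1) * (s.C : ℝ) ^ s.nu.m 0 *
    s.nu.Λ ^ (s.C * s.nu.k + s.C + s.C2) * s.nu.Cw * s.nu.LD ≤ Real.exp (s.nu.l 3) := by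
  have hx := h.x100
  have Λ0 : 0 < s.Λ := by linarith [h.xΛ]
  have z := h.Z_one
  have xz := h.x_Z
  have a1 := h.Λ_Z
  have a2 := h.C_m0.trans a1
  obtain ⟨a3, a4⟩ := h.LD_Z2
  have w0 := h.Cw0
  have w1 : s.Cw ≤ s.Z := by
    have := Nat.cast_nonneg (α := ℝ) (s.Kx 1)
    linarith [h.n3, h.q_ge, h.eL_one, h.Csb1, h.Cl0, h.L_one, h.nx]
  have s1 : (s.S : ℝ) ≤ s.Z := by
    have : s.S ≤ s.n := by have := h.n2; omega
    have : (s.S : ℝ) ≤ s.n := by exact_mod_cast this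
    linarith [h.nx]
  have c1 : (s.C : ℝ) ≤ s.Z := by
    have : s.C ≤ s.n := by have := h.n2; omega
    have : (s.C : ℝ) ≤ s.n := by exact_mod_cast this
    linarith [h.nx]
  have η1 : 1 / s.η ≤ s.Z := by linarith [h.η_n, h.nx, h.η2]
  have η2 := h.η2
  have b1 : s.S * s.C * (1 / s.η) ≤ s.Z * s.Z * s.Z := by gcongr
  have b2 : 1 ≤ s.Z * s.Z * s.Z :=
    one_le_mul_of_one_le_of_one_le (one_le_mul_of_one_le_of_one_le z z) z
  have b3 : 2 * (s.S * s.C / s.η + 1) ≤ s.Z ^ 4 := by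
    rw [div_eq_mul_one_div, show s.Z ^ 4 = s.Z * (s.Z * s.Z * s.Z) by ring]
    nlinarith
  show 2 * (s.S * s.C / s.η + 1) * (s.C : ℝ) ^ s.m0 * s.Λ ^ (s.C * s.k + s.C + s.C2) * s.Cw *
    s.nu.LD ≤ Real.exp (s.l 3)
  calc _ ≤ s.Z ^ 4 * s.Z * s.Z ^ (s.C * s.k + s.C + s.C2) * s.Z * s.Z ^ 2 := by gcongr
    _ = s.Z ^ (s.C * s.k + s.C + s.C2 + 8) := by ring
    _ ≤ _ := (h.Zp2 (by omega)).trans h.exp_l3

theorem ind' : Real.exp (s.nu.Λ ^ s.C2) * s.nu.Λ ^ (s.C * s.nu.k) *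
    (1 + Real.log (4 * s.nu.k) + s.nu.LD) ≤ Real.exp (s.nu.l 3) := by
  have hx := h.x100
  have Λ0 : 0 < s.Λ := by linarith [h.xΛ]
  have z := h.Z_one
  have xz := h.x_Z
  have a1 := h.Λ_Z
  obtain ⟨a3, a4⟩ := h.LD_Z2
  have k2 : (2 : ℝ) ≤ s.k := by exact_mod_cast h.k2
  have k1 : 100 * (s.k : ℝ) ≤ s.n := by
    have a : s.k ≤ s.C * s.k := Nat.le_mul_of_pos_left _ h.C1
    have : 100 * s.k ≤ s.n := by have := h.n2; omega
    exact_mod_cast this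
  have l1 := Real.log_le_sub_one_of_pos (show (0 : ℝ) < 4 * s.k by linarith)
  have l0 := Real.log_nonneg (show (1 : ℝ) ≤ 4 * s.k by linarith)
  have b1 : Real.exp (s.Λ ^ s.C2) ≤ s.Z := by
    rw [Cs.Λ, ← pow_mul]
    exact Real.exp_le_exp.2 (h.xp_mono (by have := h.A3; omega))
  have b2 : 1 + Real.log (4 * s.k) + s.nu.LD ≤ s.Z ^ 3 := by
    have c1 : s.Z ≤ s.Z ^ 2 := by nlinarith
    have c2 : 2 * s.Z ^ 2 ≤ s.Z * s.Z ^ 2 := by gcongr; linarith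
    rw [show s.Z ^ 3 = s.Z * s.Z ^ 2 by ring]
    linarith [h.nx]
  show Real.exp (s.Λ ^ s.C2) * s.Λ ^ (s.C * s.k) * (1 + Real.log (4 * s.k) + s.nu.LD) ≤
    Real.exp (s.l 3)
  calc _ ≤ s.Z * s.Z ^ (s.C * s.k) * s.Z ^ 3 := by gcongr
    _ = s.Z ^ (s.C * s.k + 4) := by ring
    _ ≤ _ := (h.Zp2 (by omega)).trans h.exp_l3

theorem Mlog' : s.nu.Λ ^ s.C2 ≤ Real.log (s.nu.l 3) := by
  have hx := h.x100
  have j : (s.J 2 : ℝ) ≤ s.l 3 := by
    have a := h.l_one 2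
    have b := Nat.cast_nonneg (α := ℝ) (s.J 2)
    have c : (s.J 2 : ℝ) ≤ s.q * s.J 2 := by nlinarith [h.q_ge]
    show _ ≤ s.q * s.J 2 * s.l 2
    nlinarith
  have e : (s.J 2 : ℝ) = 2 ^ s.β := by simp [Cs.J]
  have a : s.x ^ (s.E * s.C2 + 1) ≤ s.β := by
    have : 2 ^ (s.n * (s.E * s.C2 + 1)) ≤ s.β := Nat.le_add_right _ _
    rw [Cs.x, ← pow_mul]
    exact_mod_cast this
  have b := Real.log_le_log (by rw [e]; positivity) j
  rw [e, Real.log_pow] at b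
  have c := Real.log_two_gt_d9
  have d : 0 < s.x ^ (s.E * s.C2) := by positivity
  rw [pow_succ] at a
  show s.Λ ^ s.C2 ≤ Real.log (s.l 3)
  rw [Cs.Λ, ← pow_mul]
  have f : 100 * s.x ^ (s.E * s.C2) ≤ s.β := by nlinarith
  nlinarith

end CsOk

end Pool.Agent.P.MP_a14ce1_nt.Fu.Pa
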