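import Pool.Agent.P.MP_a14ce1_nt.Fu.PaNz

/-! Section 1: the scales of the explicit numbers. -/

open Finset

namespace Pool.Agent.P.MP_a14ce1_nt.Fu.Pa

namespace CsOk

variable {s : Cs} (h : CsOk s)
include h

theorem n3_eL : 100 * s.eL ≤ s.n := by
  have a1 := h.n3
  have a2 := h.q_ge
  have a3 := h.Csb1
  have a4 := h.L_one
  have a5 : 0 ≤ s.Cw := by
    by_contra hc
    nlinarith [h.Cwε, h.A_one, h.e0]
  have a6 : 0 ≤ s.Cl := by
    by_contra hc
    have : (0 : ℝ) < 2 ^ (s.b + 5) := by positivity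
    nlinarith [h.Clε, h.e0]
  have a7 : (0 : ℝ) ≤ s.Kx 1 := Nat.cast_nonneg _
  linarith

theorem n3_x10 : s.x ≤ s.l 1 :=
  le_self_pow₀ (by linarith [h.x100]) (by norm_num : 10 ≠ 0)

theorem n3_xl (t : ℕ) : s.x ≤ s.l (t + 1) := h.n3_x10.trans (h.l_mono (by omega))

theorem n3_nl : (s.n : ℝ) ≤ s.l 0 := by
  have a1 := h.n3_eL
  have a2 := h.eL_one
  have a3 := h.nnx
  have a4 := h.n100
  change _ ≤ s.x / s.eL
  rw [le_div_iff₀ (by linarith)]
  nlinarith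

theorem n3_A : 4 * s.A ≤ 6 * Real.log s.x := by
  have := Real.log_two_gt_d9
  rw [h.log_x]
  nlinarith [h.A_n, h.n100]

theorem n3_log : Real.log s.x ≤ s.n := by
  have := Real.log_two_lt_d9
  rw [h.log_x]
  nlinarith [h.n100]

theorem n3_c : 100 * (s.c : ℝ) ≤ s.n := by
  have := h.n2
  exact_mod_cast (by omega : 100 * s.c ≤ s.n)

theorem n3_B : 200 * (s.B0 + 1) ≤ s.κ * s.n := by
  have a1 := h.n6
  have a2 := h.B1
  have a3 : 0 ≤ Real.log (s.B0 + 1) := Real.log_nonneg (by linarith)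
  have a4 : 1 ≤ (1 + Real.log (s.B0 + 1)) ^ 2 := by nlinarith
  have a5 : 1 ≤ s.A * (1 + Real.log (s.B0 + 1)) ^ 2 := one_le_mul_of_one_le_of_one_le h.A_one a4
  have a6 : 0 ≤ s.κ * s.n := mul_nonneg h.κ0.le (Nat.cast_nonneg _)
  nlinarith [h.η1]

theorem short' : Short s.nu.ε (s.nu.l 3) :=
  h.short _ (by linarith [h.n1, h.nx, h.n3_xl 2, show s.nu.l 3 = s.l (2 + 1) from rfl])

theorem l1' : ∀ t, 1 ≤ s.nu.l t := h.l_one

theorem lA' : s.nu.A ≤ s.nu.l 0 := by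
  change s.A ≤ s.l 0
  linarith [h.n3_nl, h.A_n, h.A_one]

theorem lk' : 4 * Real.log (10 * s.nu.k) ≤ s.nu.l 0 := by
  change 4 * Real.log (10 * s.k) ≤ s.l 0
  have a1 : 100 * (s.k : ℝ) ≤ s.n := by
    have b1 := h.n2
    have b2 : s.k ≤ s.C * s.k := Nat.le_mul_of_pos_left _ h.C1
    exact_mod_cast (by omega : 100 * s.k ≤ s.n)
  have a2 : (0 : ℝ) ≤ s.k := Nat.cast_nonneg _
  have a3 := Real.log_le_self (x := 10 * s.k) (by positivity)
  linarith [h.n3_nl]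

theorem lsr' : ∀ t, 4 * (s.nu.r t * (s.nu.eL * s.nu.l t)) ≤ s.nu.l (t + 1) := by
  intro t
  change 4 * (s.r t * (s.eL * s.l t)) ≤ s.l (t + 1)
  cases t with
  | zero => simpa [Cs.r] using zero_le_one.trans (h.l_one 1)
  | succ t =>
    have a1 := h.l_one (t + 1)
    have a2 : 0 ≤ (s.J (t + 1) : ℝ) * s.l (t + 1) := by positivity
    rw [Cs.l, Cs.r, if_neg t.succ_ne_zero, Nat.cast_mul]
    nlinarith [mul_le_mul_of_nonneg_right h.qc a2]

theorem r0' : s.nu.r 0 = 0 := rfl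

theorem r2' : ∀ t, 1 ≤ t → 2 ≤ s.nu.r t := by
  intro t ht
  change 2 ≤ s.r t
  rw [Cs.r, if_neg (by omega)]
  exact (h.J_two t).trans (Nat.le_mul_of_pos_left _ h.c1)

theorem lst' : ∀ t, 4 * (s.nu.eL * s.nu.l t) ≤ s.nu.l (t + 1) := by
  intro t
  cases t with
  | zero =>
    change 4 * (s.eL * (s.x / s.eL)) ≤ s.x ^ 10
    have a1 := h.x100
    have a2 : s.x ^ 2 ≤ s.x ^ 10 := pow_le_pow_right₀ (by linarith) (by norm_num)
    rw [mul_div_cancel₀ _ (by linarith [h.eL_one])]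
    nlinarith
  | succ t =>
    refine le_trans ?_ (h.lsr' (t + 1))
    have a1 : (2 : ℝ) ≤ s.nu.r (t + 1) := by exact_mod_cast h.r2' (t + 1) (by omega)
    have a2 : 0 ≤ s.nu.eL * s.nu.l (t + 1) :=
      mul_nonneg (zero_le_one.trans h.eL_one) (zero_le_one.trans (h.l_one _))
    nlinarith

theorem lup' : ∀ t, 3 ≤ t → s.nu.l (t + 1) ≤ s.nu.ρ * s.nu.l t := by
  intro t ht
  obtain ⟨u, rfl⟩ : ∃ u, t = u + 3 := ⟨t - 3, by omega⟩
  change s.l (u + 1 + 3) ≤ 2 ^ (s.b + 5) * s.l (u + 3)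
  rw [h.l_add (u + 1), h.l_add u, pow_succ' _ u, mul_assoc]

theorem ρ1' : 1 ≤ s.nu.ρ := one_le_pow₀ one_le_two

theorem ρm1' : 1 ≤ s.nu.ρm := one_le_pow₀ (one_le_pow₀ one_le_two)

theorem bup' : s.nu.b 0 ≤ s.nu.ρm * s.nu.l 3 := (h.l_add (2 * s.W 0)).le

theorem d0' : 4 * s.nu.A + 4 * Real.log s.nu.lG ≤ Real.log (s.nu.l 1) := by
  rw [h.lG]
  change 4 * s.A + 4 * Real.log s.x ≤ Real.log (s.x ^ 10)
  rw [Real.log_pow]
  push_cast
  linarith [h.n3_A]

theorem d1' : ∀ t, 4 * s.nu.A + 4 * Real.log s.nu.eL ≤ Real.log (s.nu.l (t + 1) / s.nu.l t) := by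
  intro t
  change 4 * s.A + 4 * Real.log s.eL ≤ Real.log (s.l (t + 1) / s.l t)
  have a1 := h.x100
  have a2 := h.eL_one
  cases t with
  | zero =>
    have e : s.l (0 + 1) / s.l 0 = s.x ^ 9 * s.eL := by
      change s.x ^ 10 / (s.x / s.eL) = _
      field_simp
    have a3 : Real.log s.eL ≤ Real.log s.x :=
      Real.log_le_log (by linarith) (by linarith [h.n3_eL, h.nx])
    rw [e, Real.log_mul (by positivity) (by positivity), Real.log_pow]
    push_cast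
    linarith [h.n3_A]
  | succ t =>
    have a3 := h.l_one (t + 1)
    have a4 : (2 : ℝ) ≤ s.J (t + 1) := by exact_mod_cast h.J_two _
    have a5 := h.q_ge
    rw [Cs.l, mul_div_cancel_right₀ _ (by linarith)]
    exact h.qA.trans (Real.log_le_log (by linarith) (by nlinarith))

theorem gm' : ∀ t, s.nu.B0 * (s.nu.lG + s.nu.A) + 3 * (s.nu.l t + s.nu.A) ≤
    s.nu.κ / 8 * s.nu.l (t + 1) := by
  intro t
  rw [h.lG]
  change s.B0 * (s.x + s.A) + 3 * (s.l t + s.A) ≤ s.κ / 8 * s.l (t + 1)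
  have a1 := h.x100
  have a2 : s.x ^ 2 ≤ s.x ^ 10 := pow_le_pow_right₀ (by linarith) (by norm_num)
  have a3 : s.A ≤ s.x := by linarith [h.A_n, h.A_one, h.nx]
  have a4 := h.n3_B
  have a5 := h.B1
  have a6 := h.κ0
  have a7 : s.κ * s.n ≤ s.κ * s.x := mul_le_mul_of_nonneg_left h.nx a6.le
  have a8 : s.B0 * (s.x + s.A) ≤ s.B0 * (2 * s.x) :=
    mul_le_mul_of_nonneg_left (by linarith) (by linarith)
  cases t with
  | zero =>
    have b1 : s.l 0 ≤ s.x := div_le_self (by linarith) h.eL_one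
    have b2 : s.κ * s.x ^ 2 ≤ s.κ * s.l (0 + 1) := mul_le_mul_of_nonneg_left a2 a6.le
    have b3 : 200 * (s.B0 + 1) * s.x ≤ s.κ * s.x * s.x :=
      mul_le_mul_of_nonneg_right (a4.trans a7) (by linarith)
    nlinarith
  | succ t =>
    have b1 : s.x ^ 10 ≤ s.l (t + 1) := h.l_mono (show 1 ≤ t + 1 by omega)
    have b2 := h.n3_xl t
    have b3 : (2 : ℝ) ≤ s.J (t + 1) := by exact_mod_cast h.J_two _
    have b4 : s.B0 ≤ s.x := by nlinarith [h.κ1]
    have b5 : 64 ≤ s.κ * s.q * s.J (t + 1) := by nlinarith [h.qκ]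
    have b6 := mul_le_mul_of_nonneg_right b5 (show 0 ≤ s.l (t + 1) by linarith)
    rw [Cs.l]
    nlinarith

theorem g0' : Real.log s.nu.lG + s.nu.A ≤ s.nu.g 0 := by
  rw [h.lG]
  change Real.log s.x + s.A ≤ s.n + s.A
  linarith [h.n3_log]

theorem g1' : ∀ t,
    Real.log (s.nu.l (t + 1) / (s.nu.eL * s.nu.l t)) + s.nu.A ≤ s.nu.g (t + 1) := by
  intro t
  change Real.log (s.l (t + 1) / (s.eL * s.l t)) + s.A ≤ s.g (t + 1)
  have a1 := h.x100
  have a2 := h.eL_one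
  cases t with
  | zero =>
    have e : s.l (0 + 1) / (s.eL * s.l 0) = s.x ^ 9 := by
      change s.x ^ 10 / (s.eL * (s.x / s.eL)) = _
      field_simp
    rw [e, Real.log_pow]
    change _ ≤ 9 * s.n + s.A
    push_cast
    linarith [h.n3_log]
  | succ t =>
    have a3 := h.l_one (t + 1)
    have a4 : (2 : ℝ) ≤ s.J (t + 1) := by exact_mod_cast h.J_two _
    have a5 := h.q_ge
    have a6 : Real.log s.q ≤ s.b := by
      have := Real.log_two_lt_d9
      have b0 : (0 : ℝ) ≤ s.b := Nat.cast_nonneg _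
      rw [Cs.q, Real.log_pow]
      nlinarith
    have a7 := Real.log_nonneg a2
    rw [Cs.l, Cs.g, mul_div_mul_right _ _ (by linarith),
      Real.log_div (by positivity) (by positivity), Real.log_mul (by positivity) (by positivity)]
    linarith

theorem rl' : ∀ t, (s.nu.r t : ℝ) ≤ Real.exp (s.nu.l t) := by
  intro t
  change (s.r t : ℝ) ≤ Real.exp (s.l t)
  have a1 := h.x100
  have a2 : (s.c : ℝ) ≤ s.x := by
    have : (0 : ℝ) ≤ s.c := Nat.cast_nonneg _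
    linarith [h.n3_c, h.nx]
  rcases t with _ | _ | t
  · simpa [Cs.r] using (Real.exp_pos _).le
  · rw [Cs.r, if_neg (by omega), Nat.cast_mul, zero_add, h.J_one]
    have b1 : ((s.A1 + 1 : ℕ) : ℝ) ≤ s.n := by
      have := h.n2
      have b2 : 100 ≤ s.n := by exact_mod_cast h.n100
      exact_mod_cast (by omega : s.A1 + 1 ≤ s.n)
    calc (s.c : ℝ) * s.x ^ s.A1 ≤ s.x ^ (s.A1 + 1) := by
          rw [pow_succ']
          gcongr
      _ ≤ _ := (h.x_pow_le _).trans (Real.exp_le_exp.2 (le_trans ?_ (h.nnx.trans h.n3_x10)))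
    gcongr
  · rw [Cs.r, if_neg (by omega), Nat.cast_mul]
    have b1 : (0 : ℝ) < s.J (t + 1 + 1) := by exact_mod_cast (two_pos.trans_le (h.J_two _))
    have b2 : s.x ≤ s.x ^ s.A3 := le_self_pow₀ (by linarith) (by have := h.A3; omega)
    have b3 : s.x ^ (s.A3 + 1) ≤ s.x ^ s.A1 :=
      pow_le_pow_right₀ (by linarith) (by have := h.A1; omega)
    have b4 : s.l 2 ≤ s.l (t + 1 + 1) := h.l_mono (by omega)
    have b5 := Real.add_one_le_exp s.x
    rw [pow_succ] at b3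
    calc (s.c : ℝ) * s.J (t + 1 + 1) ≤ Real.exp s.x * Real.exp (Real.log (s.J (t + 1 + 1))) := by
          rw [Real.exp_log b1]
          gcongr
          linarith
      _ ≤ _ := by
          rw [← Real.exp_add, Real.exp_le_exp]
          nlinarith [h.log_J (t + 1 + 1), h.l_two_ge]

theorem J1' : ∀ t, 1 ≤ s.nu.J t := fun t => one_le_two.trans (h.J_two t)

theorem Jr' : ∀ t, 1 ≤ t → s.C * s.nu.Csb * (s.nu.Cw * (s.nu.K2 + s.nu.K3 * s.nu.eL + 2)) ^ 2 *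
    s.nu.J t ≤ s.nu.κ ^ 3 * s.nu.r t := by
  intro t ht
  change s.C * s.Csb * (s.Cw * (s.K2 + s.K3 * s.eL + 2)) ^ 2 * s.J t ≤ s.κ ^ 3 * s.r t
  rw [Cs.r, if_neg (by omega), Nat.cast_mul, ← mul_assoc]
  exact mul_le_mul_of_nonneg_right h.cJ (Nat.cast_nonneg _)

theorem WS' : s.nu.W s.nu.S = 0 := by
  change s.n * gam (s.b + 5) (s.S - s.S) = 0
  rw [Nat.sub_self, gam, mul_zero]

theorem Wlt' : ∀ j < s.nu.S, s.nu.W (j + 1) < s.nu.W j := by
  intro j hj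
  change s.W (j + 1) < s.W j
  have a1 : 100 ≤ s.n := by exact_mod_cast h.n100
  have a2 : s.W (j + 1) ≤ (s.b + 5) * s.W (j + 1) := Nat.le_mul_of_pos_left _ (by omega)
  rw [h.W_succ hj]
  omega

end CsOk

end Pool.Agent.P.MP_a14ce1_nt.Fu.Pa
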