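import Pool.Agent.P.MP_a14ce1_nt.Fu.PaNz

/-! Section 1: the inequalities for the bound of the weights, the tails and the level 0. -/

open Finset

namespace Pool.Agent.P.MP_a14ce1_nt.Fu.Pa

namespace CsOk

variable {s : Cs} (h : CsOk s)
include h

theorem nΛ4 : (s.n : ℝ) ≤ s.Λ := h.nx.trans h.xΛ

theorem log2_4 : (1 : ℝ) / 2 ≤ Real.log 2 ∧ Real.log 2 ≤ 1 :=
  ⟨by linarith [Real.log_two_gt_d9], by linarith [Real.log_two_lt_d9]⟩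

theorem lB4 : 0 ≤ Real.log (s.B0 + 1) := Real.log_nonneg (by linarith [h.B1])

theorem B_n4 : 100 * ((s.B0 + 1) * (1 + Real.log (s.B0 + 1))) ≤ s.n := by
  have a1 := h.lB4
  have a2 := h.B1
  have a3 := h.A_one
  have a4 : s.η * s.κ * s.n ≤ s.n := mul_le_of_le_one_left (Nat.cast_nonneg _)
    (mul_le_one₀ (by linarith [h.η1]) h.κ0.le (by linarith [h.κ1]))
  refine le_trans ?_ (h.n6.trans a4)
  calc _ = 100 * (s.B0 + 1) * 1 * ((1 + Real.log (s.B0 + 1)) * 1) := by ring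
    _ ≤ 100 * (s.B0 + 1) * s.A * ((1 + Real.log (s.B0 + 1)) * (1 + Real.log (s.B0 + 1))) := by
      gcongr; linarith
    _ = _ := by ring

theorem n3_4 : s.Cw ≤ s.n ∧ s.Csb ≤ s.n ∧ s.Cl ≤ s.n := by
  have a1 : 0 ≤ s.Cw := by
    by_contra c
    nlinarith [h.Cwε, h.e0, h.A_one]
  have a2 : 0 ≤ s.Cl := by
    by_contra c
    have : (0 : ℝ) < 2 ^ (s.b + 5) := by positivity
    nlinarith [h.Clε, h.e0]
  have a3 := h.n3
  have a4 : (0 : ℝ) ≤ s.Kx 1 := Nat.cast_nonneg _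
  refine ⟨?_, ?_, ?_⟩ <;> linarith [h.q_ge, h.eL_one, h.Csb1, h.L_one]

theorem Lk' : (s.nu.k : ℝ) ≤ s.nu.Λ := by
  have a1 : s.k ≤ s.n := by have := h.n2; nlinarith [h.C1, Nat.zero_le (s.C * s.k)]
  exact le_trans (by exact_mod_cast a1) h.nΛ4

theorem Lm' : (s.nu.m 0 : ℝ) ≤ s.nu.Λ := h.m0_Λ

theorem Lη' : 1 ≤ s.nu.Λ * s.nu.η := by
  have a1 : 0 < 1 / s.η := one_div_pos.2 h.η0
  exact (div_le_iff₀ h.η0).1 (by linarith [h.η_n, h.nΛ4] : 1 / s.η ≤ s.Λ)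

theorem Lκ' : 1 ≤ s.nu.Λ * s.nu.κ := by
  have a1 : 0 < 1 / s.κ := one_div_pos.2 h.κ0
  exact (div_le_iff₀ h.κ0).1 (by linarith [h.κ_n, h.nΛ4] : 1 / s.κ ≤ s.Λ)

theorem Lε' : 1 ≤ s.nu.Λ * s.nu.ε := by
  have a1 : 0 < 1 / s.ε := one_div_pos.2 h.e0
  exact (div_le_iff₀ h.e0).1 (by linarith [h.ε_n, h.nΛ4] : 1 / s.ε ≤ s.Λ)

theorem LCw' : s.nu.Cw ≤ s.nu.Λ := h.n3_4.1.trans h.nΛ4

theorem LCsb' : s.nu.Csb ≤ s.nu.Λ := h.n3_4.2.1.trans h.nΛ4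

theorem LCl' : s.nu.Cl ≤ s.nu.Λ := h.n3_4.2.2.trans h.nΛ4

theorem Lρ' : 2 * s.nu.ρ ≤ s.nu.Λ := by
  change 2 * (2 : ℝ) ^ (s.b + 5) ≤ s.Λ
  have a1 : (2 : ℝ) ^ (s.b + 5) = s.q * 32 := by rw [pow_add, Cs.q]; norm_num
  linarith [h.q_n, h.q_ge, h.nΛ4]

theorem LS' : (s.nu.S : ℝ) + 1 ≤ s.nu.Λ := by
  have a1 : s.S + 1 ≤ s.n := by have := h.n2; have := h.S0; omega
  exact le_trans (by exact_mod_cast a1) h.nΛ4

theorem LOm' : s.nu.Om * (80 * s.nu.ρm) ^ s.nu.S ≤ s.nu.Λ := by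
  change Real.exp (s.v0 * s.m0) / s.η * (80 * s.nu.ρm) ^ s.S ≤ s.x ^ s.E
  have x0 : 0 < s.x := by linarith [h.x100]
  have l0 : 0 ≤ Real.log s.x := Real.log_nonneg (by linarith [h.x100])
  have v0 := h.v0_nonneg
  have pw : ∀ p : ℕ, s.x ^ p = Real.exp (p * Real.log s.x) := fun p => by
    rw [Real.exp_nat_mul, Real.exp_log x0]
  have a1 : Real.exp (s.v0 * s.m0) ≤ Real.exp (2 * s.v0 * s.Γ * Real.log s.x) := by
    have b1 : (s.m0 : ℝ) ≤ s.n * s.Γ := by exact_mod_cast h.m0_le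
    have b2 := mul_le_mul_of_nonneg_left h.log2_4.1
      (show (0 : ℝ) ≤ 2 * s.v0 * s.Γ * s.n by positivity)
    rw [Real.exp_le_exp, h.log_x]
    nlinarith [mul_le_mul_of_nonneg_left b1 v0]
  have a2 : 1 / s.η ≤ Real.exp (Real.log s.x) := by
    have : 0 < 1 / s.η := one_div_pos.2 h.η0
    rw [Real.exp_log x0]; linarith [h.η_n, h.nx]
  have a3 : 80 * s.nu.ρm ≤ s.x ^ (1 + (s.b + 5) * s.Γ) := by
    rw [pow_add, pow_one]
    exact mul_le_mul (by linarith [h.x100]) h.ρm_le (by unfold Cs.nu; positivity) x0.le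
  have a4 : (80 * s.nu.ρm) ^ s.S ≤ Real.exp ((1 + (s.b + 5) * s.Γ) * s.S * Real.log s.x) := by
    refine (pow_le_pow_left₀ (by unfold Cs.nu; positivity) a3 _).trans (le_of_eq ?_)
    rw [← pow_mul, pw]; push_cast; rfl
  rw [div_eq_mul_one_div, pw]
  refine (mul_le_mul (mul_le_mul a1 a2 (one_div_pos.2 h.η0).le (by positivity)) a4
    (by unfold Cs.nu; positivity) (by positivity)).trans ?_
  rw [← Real.exp_add, ← Real.exp_add, Real.exp_le_exp]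
  have a5 := mul_le_mul_of_nonneg_right h.E1 l0
  have a6 : (0 : ℝ) ≤ (s.C + 1) * s.Γ * Real.log s.x := by positivity
  nlinarith

theorem v00' : 0 ≤ s.nu.v0 := h.v0_nonneg

theorem v0t' : ∀ t, 4 ≤ t →
    15 * s.nu.g t + s.nu.L + s.nu.r t * Real.log (2 * s.nu.r t) ≤ s.nu.v0 := by
  intro t ht
  obtain ⟨u, rfl⟩ : ∃ u, t = u + 4 := ⟨t - 4, by omega⟩
  change 15 * (s.b + Real.log (s.J (u + 3)) + s.A) + s.L +
    s.r (u + 4) * Real.log (2 * s.r (u + 4)) ≤ s.v0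
  have a1 : s.J (u + 3) = 32 := by simp [Cs.J]
  have a2 : s.r (u + 4) = s.c * 32 := by simp [Cs.J, Cs.r]
  have a3 : Real.log 32 ≤ 4 := by
    rw [show (32 : ℝ) = 2 ^ 5 by norm_num, Real.log_pow]
    push_cast; linarith [Real.log_two_lt_d9]
  rw [a1, a2, Cs.v0]
  push_cast
  rw [show (2 : ℝ) * (s.c * 32) = 64 * s.c by ring]
  linarith

theorem Omv' : Real.exp (s.nu.v0 * s.nu.m 0) ≤ s.nu.η * s.nu.Om :=
  (mul_div_cancel₀ _ h.η0.ne').ge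

theorem s0_pos4 : 0 < 2 * (s.B0 + 1) * (s.n + s.A) / s.η := by
  have := h.B1
  have := h.A_one
  have := h.η0
  positivity

theorem s00' : 0 < s.nu.s0 := Real.sqrt_pos.2 h.s0_pos4

theorem s0g' : (s.nu.B0 + 1) * s.nu.g 0 ≤ s.nu.η / 2 * s.nu.s0 ^ 2 := by
  change (s.B0 + 1) * (s.n + s.A) ≤ s.η / 2 * s.s0 ^ 2
  have := h.η0
  rw [Cs.s0, Real.sq_sqrt h.s0_pos4.le]
  exact le_of_eq (by field_simp)

omit h in
theorem f0' (_h : CsOk s) : 2 * s.nu.s0 * Real.log (s.nu.B0 + 1) ≤ s.nu.f 0 := le_rfl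

theorem f0l' : s.nu.f 0 + (s.nu.B0 + 1) * s.nu.g 0 * Real.log (s.nu.B0 + 1) ≤ s.nu.l 1 := by
  change s.f 0 + (s.B0 + 1) * (s.n + s.A) * Real.log (s.B0 + 1) ≤ s.x ^ 10
  have a1 := h.B_n4
  have a2 := h.lB4
  have a3 := h.B1
  have a4 := h.x100
  have a5 := h.n100
  have a6 : (s.B0 + 1) * Real.log (s.B0 + 1) ≤ s.n := by nlinarith
  have a7 : (s.B0 + 1) * Real.log (s.B0 + 1) * (s.n + s.A) ≤ s.n * (2 * s.n) :=
    mul_le_mul a6 (by linarith [h.A_n]) (by linarith [h.A_one]) (by linarith)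
  have a8 : s.x ^ 2 ≤ s.x ^ 10 := pow_le_pow_right₀ (by linarith) (by norm_num)
  nlinarith [h.f_zero, h.nx, h.nnx]

theorem Kxt' : ∀ t, 1 ≤ t → 2 ^ (t + 2) * s.nu.L ≤ s.nu.η * s.nu.Kx t := fun _ _ =>
  (div_le_iff₀' h.η0).1 (Nat.le_ceil _)

omit h in
theorem ft' (_h : CsOk s) : ∀ t, 1 ≤ t → t ≤ s.nu.m 0 →
    2 ^ (t + 5) / s.nu.η * s.nu.g t + s.nu.Kx t * Real.log (s.nu.r t + s.nu.Kx t) ≤ s.nu.f t :=
  fun t ht _ => (if_neg (by omega : t ≠ 0)).ge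

theorem ext' : 8 * (s.nu.A + s.nu.B0 + Real.log (1 / s.nu.η)) ≤ Real.log s.nu.lG := by
  change 8 * (s.A + s.B0 + Real.log (1 / s.η)) ≤ _
  rw [h.lG, h.log_x]
  have a1 := Real.log_le_sub_one_of_pos (one_div_pos.2 h.η0)
  have a2 := mul_le_mul_of_nonneg_left h.log2_4.1 (Nat.cast_nonneg (α := ℝ) s.n)
  have a3 : 0 ≤ (s.B0 + 1) * Real.log (s.B0 + 1) := mul_nonneg (by linarith [h.B1]) h.lB4
  nlinarith [h.B_n4, h.A_n, h.η_n, h.n100]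

omit h in
theorem vt0' (_h : CsOk s) : 0 < s.nu.vt := Real.exp_pos _

omit h in
theorem vt1' (_h : CsOk s) : s.nu.vt ≤ 1 :=
  Real.exp_le_one_iff.2 (neg_nonpos.2 (by positivity))

theorem diag' : (s.nu.Λ / s.nu.vt) ^ (s.C * s.nu.k) * (s.nu.La 0 + 2) ^ 2 ≤ s.nu.Δ := by
  change (s.x ^ s.E / Real.exp (-((4 * s.A4 + 1) * s.n))) ^ (s.C * s.k) * (s.nu.La 0 + 2) ^ 2 ≤
    Real.exp (Real.log s.nu.lG / 2 * Real.log (s.B0 + 1))
  have x0 : 0 < s.x := by linarith [h.x100]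
  have a0 : 0 ≤ s.nu.La 0 + 2 := by
    have := h.η0
    have := h.l_one 1
    change 0 ≤ 2 ^ (0 + 2) / s.η * s.l (0 + 1) + 2
    positivity
  have a1 : s.x ^ s.E / Real.exp (-((4 * s.A4 + 1) * s.n)) ≤
      Real.exp ((s.E + 4 * s.A4 + 1) * s.n) := by
    rw [div_le_iff₀ (Real.exp_pos _), ← Real.exp_add]
    exact (h.x_pow_le _).trans (le_of_eq (congrArg _ (by ring)))
  have a2 : (s.nu.La 0 + 2) ^ 2 ≤ Real.exp (22 * s.n) := by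
    refine (pow_le_pow_left₀ a0 h.La_zero 2).trans ?_
    rw [← pow_mul]
    exact_mod_cast h.x_pow_le 22
  refine (mul_le_mul (pow_le_pow_left₀ (by positivity) a1 _) a2 (by positivity)
    (by positivity)).trans ?_
  rw [← Real.exp_nat_mul, ← Real.exp_add, Real.exp_le_exp, h.lG, h.log_x]
  have a3 := mul_le_mul_of_nonneg_left h.log2_4.1
    (mul_nonneg (Nat.cast_nonneg (α := ℝ) s.n) h.lB4)
  have a4 := mul_le_mul_of_nonneg_left h.B0 (Nat.cast_nonneg (α := ℝ) s.n)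
  push_cast
  nlinarith

theorem u0' : s.nu.vt * Real.exp (s.nu.f 0) ≤ Real.exp (-s.nu.u 0 0) := by
  change Real.exp (-((4 * s.A4 + 1) * s.n)) * Real.exp (s.f 0) ≤ Real.exp (-(4 * s.A4 * s.n))
  rw [← Real.exp_add, Real.exp_le_exp]
  linarith [h.f_zero]

theorem uη' : Real.exp (-(s.nu.u 0 0 / 4)) ≤ s.nu.η := by
  change Real.exp (-(4 * s.A4 * s.n / 4)) ≤ s.η
  have a1 : (1 : ℝ) ≤ s.A4 := by
    have : (0 : ℝ) ≤ s.E + s.E * s.C + 2 * s.A1 := by positivity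
    linarith [h.A4, h.cf_nonneg]
  have a2 := mul_le_mul_of_nonneg_right a1 (Nat.cast_nonneg (α := ℝ) s.n)
  have a3 := Real.add_one_le_exp (4 * s.A4 * s.n / 4 : ℝ)
  have a4 : 0 < 1 / s.η := one_div_pos.2 h.η0
  rw [Real.exp_neg, inv_le_comm₀ (Real.exp_pos _) h.η0, ← one_div]
  linarith [h.η_n]

end CsOk

end Pool.Agent.P.MP_a14ce1_nt.Fu.Pa
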