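import Pool.Agent.P.MP_a14ce1_nt.Fu.PaSt

/-!
Section 1: the explicit choice of the numbers. Constants, the large parameter n (x = 2 ^ n is the
logarithm of the top of the level 0) and the index i of the chain.
-/

open Finset

namespace Pool.Agent.P.MP_a14ce1_nt.Fu.Pa

/-- the constants, the large parameter n and the index i -/
structure Cs where
  k : ℕ
  C : ℕ
  C2 : ℕ
  S : ℕ
  K3 : ℕ
  a : ℕ
  c : ℕ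
  b : ℕ
  E : ℕ
  A1 : ℕ
  A3 : ℕ
  A4 : ℕ
  n : ℕ
  i : ℕ
  ε : ℝ
  η : ℝ
  κ : ℝ
  A : ℝ
  Cw : ℝ
  Csb : ℝ
  Cl : ℝ
  K2 : ℝ
  B0 : ℝ
  y0 : ℝ

/-- the recursion for the numbers of copies -/
def gam (b : ℕ) : ℕ → ℕ
  | 0 => 0
  | i + 1 => 6 + b * gam b i

namespace Cs

variable (s : Cs)

noncomputable def x : ℝ := 2 ^ s.n
noncomputable def Λ : ℝ := s.x ^ s.E
noncomputable def eL : ℝ := 2 ^ s.a
noncomputable def q : ℝ := 2 ^ s.b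
noncomputable def L : ℝ := Real.log s.eL + s.A
def Γ : ℕ := 2 * gam (s.b + 5) s.S + 2
def K : ℕ := 2 ^ (s.n * (2 * (s.C * s.k * s.E + 1)))
def β : ℕ := 2 ^ (s.n * (s.E * s.C2 + 1)) + s.n * s.E * s.i
def J (t : ℕ) : ℕ := if t = 1 then 2 ^ (s.n * s.A1) else if t = 2 then 2 ^ s.β else 32
def r (t : ℕ) : ℕ := if t = 0 then 0 else s.c * s.J t
def W (j : ℕ) : ℕ := s.n * gam (s.b + 5) (s.S - j)
def m0 : ℕ := 2 * s.W 0 + 2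
noncomputable def l : ℕ → ℝ
  | 0 => s.x / s.eL
  | 1 => s.x ^ 10
  | t + 2 => s.q * s.J (t + 1) * l (t + 1)
noncomputable def g : ℕ → ℝ
  | 0 => s.n + s.A
  | 1 => 9 * s.n + s.A
  | t + 2 => s.b + Real.log (s.J (t + 1)) + s.A
noncomputable def Kx (t : ℕ) : ℕ := ⌈2 ^ (t + 2) * s.L / s.η⌉₊
noncomputable def s0 : ℝ := Real.sqrt (2 * (s.B0 + 1) * (s.n + s.A) / s.η)
noncomputable def f (t : ℕ) : ℝ := if t = 0 then 2 * s.s0 * Real.log (s.B0 + 1) else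
  2 ^ (t + 5) / s.η * s.g t + s.Kx t * Real.log (s.r t + s.Kx t)
noncomputable def U : ℝ := s.J 1 * s.J 2 / 4
noncomputable def u (t w : ℕ) : ℝ := if t = 0 then 4 * s.A4 * s.n else if t = 1 then s.J 1 else
  s.U / 2 * (4 ^ (t - 2 - w) + ((s.m0 - t : ℕ) : ℝ) / s.Λ)
noncomputable def v0 : ℝ := 15 * (s.b + 4 + s.A) + s.L + 32 * s.c * Real.log (64 * s.c)
/-- the slope of f 1 -/
noncomputable def cf : ℝ := 64 / s.η * (9 + s.A) + s.Kx 1 * (s.A1 + s.c + s.Kx 1)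
/-- the master bound -/
noncomputable def Z : ℝ := Real.exp (s.x ^ (s.A3 + 1))

/-- the numbers -/
noncomputable def nu : Nu where
  k := s.k
  S := s.S
  K3 := s.K3
  ε := s.ε
  η := s.η
  κ := s.κ
  Λ := s.Λ
  vt := Real.exp (-((4 * s.A4 + 1) * s.n))
  Cw := s.Cw
  Csb := s.Csb
  Cl := s.Cl
  K2 := s.K2
  eL := s.eL
  A := s.A
  B0 := s.B0
  s0 := s.s0
  Om := Real.exp (s.v0 * s.m0) / s.η
  v0 := s.v0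
  ρ := 2 ^ (s.b + 5)
  ρm := (2 ^ (s.b + 5)) ^ (2 * s.W 0)
  X := s.C + s.C2 + 10
  l := s.l
  g := s.g
  f := s.f
  r := s.r
  J := s.J
  Kx := s.Kx
  W := s.W
  u := s.u

end Cs

/-- the relations between the constants, and the largeness of n -/
structure CsOk (s : Cs) : Prop where
  mert : Mert s.A
  short : ∀ y, s.y0 ≤ y → Short s.ε y
  k2 : 2 ≤ s.k
  C1 : 1 ≤ s.C
  S0 : 0 < s.S
  e0 : 0 < s.ε
  e1 : s.k * s.ε ≤ 1 / 2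
  η0 : 0 < s.η
  η1 : s.η ≤ 1 / 2
  κ0 : 0 < s.κ
  κ1 : s.κ ≤ 1 / 2
  κη : s.C * s.κ ≤ s.η ^ s.C
  eLκ : s.A + 2 + Real.log (1 / s.κ) ≤ Real.log s.eL
  K3κ : s.L ≤ s.κ * s.K3
  K2κ : 8 ≤ s.κ * s.K2
  Cwε : 8 * s.A ≤ s.Cw * s.ε
  Clε : 8 * 2 ^ (s.b + 5) ≤ s.Cl * s.ε
  Csb1 : 1 ≤ s.Csb
  Csb2 : SB.Csb2 3 s.A ≤ s.Csb
  big : s.Csb * s.Cl ^ 2 ≤ s.η ^ 2 * s.S
  c1 : 1 ≤ s.c
  cJ : s.C * s.Csb * (s.Cw * (s.K2 + s.K3 * s.eL + 2)) ^ 2 ≤ s.κ ^ 3 * s.c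
  qc : 4 * s.c * s.eL ≤ s.q
  qκ : 32 ≤ s.κ * s.q
  qA : 4 * s.A + 4 * Real.log s.eL ≤ Real.log s.q
  E1 : (2 * s.v0 + s.C + 1) * s.Γ + (1 + (s.b + 5) * s.Γ) * s.S + 1 ≤ s.E
  A3 : s.E * s.C2 + 2 * (s.C * s.k * s.E) + 5 ≤ s.A3
  A1 : s.E + s.A3 + 3 ≤ s.A1
  A4 : s.E + s.E * s.C + 2 * s.A1 + 12 + s.cf ≤ s.A4
  B1 : 1 ≤ s.B0
  B0 : 4 * ((s.E + 4 * s.A4 + 1) * (s.C * s.k) + 22) ≤ Real.log (s.B0 + 1)
  iK : s.i < s.K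
  n1 : 100 + s.y0 ≤ s.n
  n2 : 100 * (s.C * s.k + s.C + s.C2 + s.S + s.E + s.A1 + s.A4 + s.Γ + s.c + s.b + s.K3) ≤ s.n
  n3 : 100 * (s.q + s.eL + s.Cw + s.Csb + s.Cl + s.L + s.Kx 1) ≤ s.n
  n4 : 100 * s.q * s.q * (s.C + s.C2 + 10) ≤ s.n
  n5 : 100 * (1 / s.η + 1 / s.κ + 1 / s.ε) * (s.A + s.L) ≤ s.n
  n6 : 100 * (s.B0 + 1) * s.A * (1 + Real.log (s.B0 + 1)) ^ 2 ≤ s.η * s.κ * s.n

end Pool.Agent.P.MP_a14ce1_nt.Fu.Pa
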