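import Pool.Agent.P.MP_a14ce1_nt.Fu.PaN1
import Pool.Agent.P.MP_a14ce1_nt.Fu.PaN2
import Pool.Agent.P.MP_a14ce1_nt.Fu.PaN3
import Pool.Agent.P.MP_a14ce1_nt.Fu.PaN4

/-!
Section 1: the explicit numbers satisfy the list of inequalities.
-/

open Finset

namespace Pool.Agent.P.MP_a14ce1_nt.Fu.Pa

theorem CsOk.nuOk {s : Cs} (h : CsOk s) : NuOk s.nu s.C s.C2 where
  mert := h.mert
  short := h.short'
  k2 := h.k2
  S0 := h.S0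
  e0 := h.e0
  e1 := h.e1
  η0 := h.η0
  η1 := h.η1
  κ0 := h.κ0
  κ1 := h.κ1
  κη := h.κη
  B1 := h.B1
  eL1 := h.eL_one
  eLκ := h.eLκ
  K3κ := h.K3κ
  K2κ := h.K2κ
  Cwε := h.Cwε
  Clε := h.Clε
  Csb1 := h.Csb1
  Csb2 := h.Csb2
  big := h.big
  l1 := h.l1'
  lA := h.lA'
  lk := h.lk'
  lst := h.lst'
  lsr := h.lsr'
  lup := h.lup'
  ρ1 := h.ρ1'
  ρm1 := h.ρm1'
  bup := h.bup'
  d0 := h.d0'
  d1 := h.d1'
  gm := h.gm'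
  g0 := h.g0'
  g1 := h.g1'
  r0 := h.r0'
  r2 := h.r2'
  rl := h.rl'
  J1 := h.J1'
  Jr := h.Jr'
  WS := h.WS'
  Wlt := h.Wlt'
  Lk := h.Lk'
  Lm := h.Lm'
  Lη := h.Lη'
  Lκ := h.Lκ'
  Lε := h.Lε'
  LCw := h.LCw'
  LCsb := h.LCsb'
  LCl := h.LCl'
  Lρ := h.Lρ'
  LS := h.LS'
  LOm := h.LOm'
  v00 := h.v00'
  v0t := h.v0t'
  Omv := h.Omv'
  s00 := h.s00'
  s0g := h.s0g'
  f0 := h.f0'
  f0l := h.f0l'
  Kxt := h.Kxt'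
  ft := h.ft'
  ext := h.ext'
  vt0 := h.vt0'
  vt1 := h.vt1'
  diag := h.diag'
  un := CsOk.un' (s := s)
  uw := CsOk.uw' (s := s)
  u0 := h.u0'
  uη := h.uη'
  ul := h.ul'
  ur := h.ur'
  uf := h.uf'
  uJ := h.uJ'
  us := h.us'
  pin := h.pin'
  hid := h.hid'
  C1 := h.C1
  XC := le_rfl
  uX := h.uX'
  pref := h.pref'
  ind := h.ind'
  Mlog := h.Mlog'

/-- the constants exist -/
def S_Cs : Prop := ∀ (k C : ℕ) (ε η : ℝ), 2 ≤ k → 1 ≤ C → 0 < ε → k * ε ≤ 1 / 2 → 0 < η →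
  η ≤ 1 / 2 → ∃ Cw : ℝ, ∀ C2 : ℕ, ∃ s : Cs, s.k = k ∧ s.C = C ∧ s.C2 = C2 ∧ s.ε = ε ∧
    s.η = η ∧ s.Cw = Cw ∧ ∀ i < s.K, CsOk { s with i := i }

theorem num_of (hs : S_Cs) : S_Num := by
  intro k C ε η k2 C1 e0 e1 η0 η1
  obtain ⟨Cw, hw⟩ := hs k C ε η k2 C1 e0 e1 η0 η1
  refine ⟨Cw, fun C2 => ?_⟩
  obtain ⟨s, rfl, rfl, rfl, rfl, rfl, rfl, hi⟩ := hw C2
  have K0 : 0 < s.K := by unfold Cs.K; positivity
  have h0 := hi 0 K0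
  have hx : 100 ≤ s.x := h0.x100
  have hΛ : s.x ≤ s.Λ := h0.xΛ
  have hη : 1 / s.η ≤ s.x := by
    have a : 100 * (1 / s.η) ≤ s.n := h0.η_n
    have b : (s.n : ℝ) ≤ s.x := h0.nx
    have c : 0 < 1 / s.η := one_div_pos.2 η0
    linarith
  refine ⟨s.K, s.Λ, s.q ^ 2 * s.x ^ s.A1 * 2 ^ 2 ^ (s.n * (s.E * s.C2 + 1)) * s.x ^ 10, K0,
    by linarith, by positivity, ?_, fun i hK => ⟨_, (hi i hK).nuOk, rfl, rfl, rfl, rfl, rfl, ?_⟩⟩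
  · have e : (s.K : ℝ) = (s.x ^ (s.C * s.k * s.E + 1)) ^ 2 := by
      rw [Cs.K, Cs.x, ← pow_mul, ← pow_mul]
      push_cast
      congr 1
      ring
    have p : 0 < s.x ^ (s.C * s.k * s.E) := by positivity
    rw [e, Real.sqrt_sq (by positivity), Cs.Λ, ← pow_mul, mul_comm s.E, pow_succ]
    have : 1 ≤ s.η * s.x := by rwa [div_le_iff₀' η0] at hη
    nlinarith
  · have a := (hi i hK).l_three
    have b := (hi i hK).J_one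
    refine a.trans ?_
    rw [b]
    have c : ((Cs.J { s with i := i } 2 : ℕ) : ℝ) =
        2 ^ 2 ^ (s.n * (s.E * s.C2 + 1)) * s.Λ ^ i := by
      rw [Cs.Λ, Cs.x, ← pow_mul, ← pow_mul, ← pow_add]
      simp [Cs.J, Cs.β, mul_assoc]
    rw [c]
    show s.q ^ 2 * s.x ^ s.A1 * _ * s.x ^ 10 = _
    ring

end Pool.Agent.P.MP_a14ce1_nt.Fu.Pa
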