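import Pool.Agent.P.MP_a14ce1_nt.Fu.PaNd

/-! Section 1: basic size facts for the explicit numbers. -/

open Finset

set_option linter.unusedSectionVars false

namespace Pool.Agent.P.MP_a14ce1_nt.Fu.Pa

theorem sq_le_two_pow {n : ℕ} (hn : 4 ≤ n) : n * n ≤ 2 ^ n := by
  induction n, hn using Nat.le_induction with
  | base => norm_num
  | succ n hn ih => rw [pow_succ]; nlinarith

theorem two_pow_le_exp (n : ℕ) : (2 : ℝ) ^ n ≤ Real.exp n := by
  rw [← Real.exp_one_pow]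
  exact pow_le_pow_left₀ (by norm_num) (by linarith [Real.add_one_le_exp 1]) n

theorem exp_le_four_pow (n : ℕ) : Real.exp n ≤ (4 : ℝ) ^ n := by
  rw [← Real.exp_one_pow]
  exact pow_le_pow_left₀ (Real.exp_pos 1).le (by linarith [Real.exp_one_lt_d9]) n

namespace CsOk

variable {s : Cs} (h : CsOk s)
include h

theorem A_one : 1 ≤ s.A := h.mert.one

theorem eL_one : 1 ≤ s.eL := one_le_pow₀ (by norm_num)

theorem L_one : 1 ≤ s.L := by
  have := Real.log_nonneg h.eL_one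
  have := h.A_one
  unfold Cs.L
  linarith

theorem n100' : 100 ≤ s.n := by
  have := h.n2
  have := h.C1
  omega

theorem n100 : (100 : ℝ) ≤ s.n := by exact_mod_cast h.n100'

theorem nnx : (s.n : ℝ) * s.n ≤ s.x := by
  have := sq_le_two_pow (n := s.n) (by linarith [h.n100'])
  unfold Cs.x
  exact_mod_cast this

theorem nx : (s.n : ℝ) ≤ s.x := by nlinarith [h.nnx, h.n100]

theorem x100 : 100 ≤ s.x := h.n100.trans h.nx

theorem log_x : Real.log s.x = s.n * Real.log 2 := by rw [Cs.x, Real.log_pow]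

theorem x_pow_le (p : ℕ) : s.x ^ p ≤ Real.exp (p * s.n) := by
  rw [Cs.x, ← pow_mul, mul_comm]
  exact_mod_cast two_pow_le_exp (p * s.n)

theorem η2 : 2 ≤ 1 / s.η := by
  rw [le_div_iff₀ h.η0]; linarith [h.η1]

theorem κ2 : 2 ≤ 1 / s.κ := by
  rw [le_div_iff₀ h.κ0]; linarith [h.κ1]

theorem ε2 : 2 ≤ 1 / s.ε := by
  have : (2 : ℝ) ≤ s.k := by exact_mod_cast h.k2
  rw [le_div_iff₀ h.e0]; nlinarith [h.e1, h.e0]

theorem η_n : 100 * (1 / s.η) ≤ s.n := by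
  nlinarith [h.n5, h.η2, h.κ2, h.ε2, h.A_one, h.L_one]

theorem κ_n : 100 * (1 / s.κ) ≤ s.n := by
  nlinarith [h.n5, h.η2, h.κ2, h.ε2, h.A_one, h.L_one]

theorem ε_n : 100 * (1 / s.ε) ≤ s.n := by
  nlinarith [h.n5, h.η2, h.κ2, h.ε2, h.A_one, h.L_one]

theorem A_n : 100 * s.A ≤ s.n := by
  nlinarith [h.n5, h.η2, h.κ2, h.ε2, h.A_one, h.L_one]

theorem Lη_n : 100 * (s.L / s.η) ≤ s.n := by
  rw [div_eq_mul_one_div]
  nlinarith [h.n5, h.η2, h.κ2, h.ε2, h.A_one, h.L_one]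

theorem q_ge : 64 ≤ s.q := by
  have : 0 < s.q := by unfold Cs.q; positivity
  nlinarith [h.qκ, h.κ1]

theorem Cw0 : 0 ≤ s.Cw := by
  by_contra hc
  nlinarith [h.Cwε, h.e0, h.A_one]

theorem Cl0 : 0 ≤ s.Cl := by
  by_contra hc
  have : (0 : ℝ) < 2 ^ (s.b + 5) := by positivity
  nlinarith [h.Clε, h.e0]

theorem q_n : 100 * s.q ≤ s.n := by
  have := Nat.cast_nonneg (α := ℝ) (s.Kx 1)
  linarith [h.n3, h.eL_one, h.Cw0, h.Csb1, h.Cl0, h.L_one]

theorem eL_n : 100 * s.eL ≤ s.n := by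
  have := Nat.cast_nonneg (α := ℝ) (s.Kx 1)
  linarith [h.n3, h.q_ge, h.Cw0, h.Csb1, h.Cl0, h.L_one]

theorem Kx1_n : 100 * (s.Kx 1 : ℝ) ≤ s.n := by
  linarith [h.n3, h.q_ge, h.eL_one, h.Cw0, h.Csb1, h.Cl0, h.L_one]

theorem c_n : 100 * (s.c : ℝ) ≤ s.n := by
  have : 100 * s.c ≤ s.n := by have := h.n2; omega
  exact_mod_cast this

theorem v0_nonneg : 0 ≤ s.v0 := by
  have c1 : (1 : ℝ) ≤ s.c := by exact_mod_cast h.c1
  have := Real.log_nonneg (show (1 : ℝ) ≤ 64 * s.c by linarith)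
  have := h.A_one
  have := h.L_one
  unfold Cs.v0
  positivity

theorem cf_nonneg : 0 ≤ s.cf := by
  have := h.η0
  have := h.A_one
  unfold Cs.cf
  positivity

theorem E_ge : (1 + s.C) * s.Γ + (1 + (s.b + 5) * s.Γ) * s.S + 1 ≤ s.E := by
  have h1 := h.E1
  have h2 := h.v0_nonneg
  have h3 := Nat.cast_nonneg (α := ℝ) s.Γ
  have : (((1 + s.C) * s.Γ + (1 + (s.b + 5) * s.Γ) * s.S + 1 : ℕ) : ℝ) ≤ s.E := by
    push_cast
    nlinarith
  exact_mod_cast this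

theorem E_pos : 1 ≤ s.E := by have := h.E_ge; omega

theorem xp_mono {p p' : ℕ} (hp : p ≤ p') : s.x ^ p ≤ s.x ^ p' :=
  pow_le_pow_right₀ (by linarith [h.x100]) hp

theorem xΛ : s.x ≤ s.Λ := (pow_one s.x).ge.trans (h.xp_mono h.E_pos)

theorem J_one : (s.J 1 : ℝ) = s.x ^ s.A1 := by simp [Cs.J, Cs.x, pow_mul]

theorem A3_ge : 5 ≤ s.A3 := by have := h.A3; omega

theorem A1_ge : s.A3 + 4 ≤ s.A1 := by have := h.A1; have := h.E_pos; omega

theorem β_ge : s.x ≤ s.β := by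
  have : 2 ^ s.n ≤ s.β :=
    (Nat.pow_le_pow_right (by norm_num) (Nat.le_mul_of_pos_right _ (by omega))).trans
      (Nat.le_add_right _ _)
  unfold Cs.x
  exact_mod_cast this

theorem nE_le : (s.n : ℝ) * s.E ≤ s.x / 100 := by
  have : 100 * s.E ≤ s.n := by have := h.n2; omega
  have : 100 * (s.E : ℝ) ≤ s.n := by exact_mod_cast this
  nlinarith [h.nnx, h.n100]

theorem nA1_le : (s.n : ℝ) * s.A1 ≤ s.x / 100 := by
  have : 100 * s.A1 ≤ s.n := by have := h.n2; omega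
  have : 100 * (s.A1 : ℝ) ≤ s.n := by exact_mod_cast this
  nlinarith [h.nnx, h.n100]

theorem J_two (t : ℕ) : 2 ≤ s.J t := by
  have a1 : 1 ≤ s.n * s.A1 := Nat.mul_pos (by linarith [h.n100']) (by have := h.A1_ge; omega)
  have a2 : 1 ≤ s.β := by
    have : (1 : ℝ) ≤ s.β := by linarith [h.β_ge, h.x100]
    exact_mod_cast this
  unfold Cs.J
  split_ifs
  · exact (pow_one 2).ge.trans (Nat.pow_le_pow_right (by norm_num) a1)
  · exact (pow_one 2).ge.trans (Nat.pow_le_pow_right (by norm_num) a2)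
  · norm_num

theorem J2_ge : 8 * s.Λ ≤ s.J 2 := by
  have a : s.n * s.E + 3 ≤ s.β := by
    have : ((s.n * s.E + 3 : ℕ) : ℝ) ≤ s.β := by
      push_cast
      linarith [h.β_ge, h.nE_le, h.x100]
    exact_mod_cast this
  have b : (2 : ℝ) ^ (s.n * s.E + 3) ≤ 2 ^ s.β := pow_le_pow_right₀ (by norm_num) a
  have e : (s.J 2 : ℝ) = 2 ^ s.β := by simp [Cs.J]
  rw [e, Cs.Λ, Cs.x, ← pow_mul]
  rw [pow_add] at b
  linarith

theorem lG : s.nu.lG = s.x := by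
  have := h.eL_one
  show s.eL * (s.x / s.eL) = s.x
  field_simp

theorem l_zero_le : s.l 0 ≤ s.x := div_le_self (by linarith [h.x100]) h.eL_one

theorem l_one (t : ℕ) : 1 ≤ s.l t := by
  match t with
  | 0 =>
    show 1 ≤ s.x / s.eL
    rw [le_div_iff₀ (by linarith [h.eL_one])]
    linarith [h.eL_n, h.nx, h.eL_one]
  | 1 => exact one_le_pow₀ (by linarith [h.x100])
  | t + 2 =>
    have a := l_one (t + 1)
    have b : (2 : ℝ) ≤ s.J (t + 1) := by exact_mod_cast h.J_two _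
    have c : 1 ≤ s.q * s.J (t + 1) := by nlinarith [h.q_ge]
    show 1 ≤ s.q * s.J (t + 1) * s.l (t + 1)
    nlinarith

theorem l_step (t : ℕ) : 4 * s.l t ≤ s.l (t + 1) := by
  match t with
  | 0 =>
    have a := h.xp_mono (show 2 ≤ 10 by norm_num)
    show 4 * s.l 0 ≤ s.x ^ 10
    nlinarith [h.l_zero_le, h.x100]
  | t + 1 =>
    have a := h.l_one (t + 1)
    have b : (2 : ℝ) ≤ s.J (t + 1) := by exact_mod_cast h.J_two _
    have c : 4 ≤ s.q * s.J (t + 1) := by nlinarith [h.q_ge]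
    show 4 * s.l (t + 1) ≤ s.q * s.J (t + 1) * s.l (t + 1)
    nlinarith

theorem l_mono : Monotone s.l :=
  monotone_nat_of_le_succ fun t => by linarith [h.l_step t, h.l_one t]

theorem l_add (t : ℕ) : s.l (t + 3) = (2 ^ (s.b + 5)) ^ t * s.l 3 := by
  induction t with
  | zero => simp
  | succ t ih =>
    have e : s.J (t + 3) = 32 := by simp [Cs.J]
    show s.q * s.J (t + 3) * s.l (t + 3) = _
    rw [ih, e, Cs.q]
    push_cast
    ring

theorem l_three : s.l 3 = s.q ^ 2 * s.J 1 * s.J 2 * s.x ^ 10 := by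
  show s.q * s.J 2 * (s.q * s.J 1 * s.x ^ 10) = _
  ring

theorem l_two_ge : s.x ^ s.A1 ≤ s.l 2 := by
  have a := h.l_one 1
  have b : 0 < s.x ^ s.A1 := pow_pos (by linarith [h.x100]) _
  show _ ≤ s.q * s.J 1 * s.l 1
  rw [h.J_one]
  have c : s.x ^ s.A1 ≤ s.q * s.x ^ s.A1 := by nlinarith [h.q_ge]
  nlinarith

theorem W_zero : s.W 0 = s.n * gam (s.b + 5) s.S := rfl

theorem m0_le : s.m0 ≤ s.n * s.Γ := by
  have := h.n100'
  rw [Cs.m0, h.W_zero, Cs.Γ]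
  nlinarith

theorem two_m0 : (2 : ℝ) ^ s.m0 ≤ s.Λ := by
  have a : s.Γ ≤ s.E := by have := h.E_ge; rw [add_mul, one_mul] at this; omega
  rw [Cs.Λ, Cs.x, ← pow_mul]
  exact pow_le_pow_right₀ (by norm_num) (h.m0_le.trans (Nat.mul_le_mul_left _ a))

theorem m0_Λ : (s.m0 : ℝ) ≤ s.Λ := by
  refine le_trans ?_ h.two_m0
  exact_mod_cast (Nat.lt_two_pow_self).le

theorem C_m0 : (s.C : ℝ) ^ s.m0 ≤ s.Λ := by
  have a : s.C * s.Γ ≤ s.E := by have := h.E_ge; rw [add_mul, one_mul] at this; omega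
  have b : (s.C : ℝ) ≤ 2 ^ s.C := by exact_mod_cast (Nat.lt_two_pow_self).le
  refine (pow_le_pow_left₀ (Nat.cast_nonneg _) b _).trans ?_
  rw [Cs.Λ, Cs.x, ← pow_mul, ← pow_mul]
  refine pow_le_pow_right₀ (by norm_num) ?_
  calc s.C * s.m0 ≤ s.C * (s.n * s.Γ) := Nat.mul_le_mul_left _ h.m0_le
    _ = s.n * (s.C * s.Γ) := by ring
    _ ≤ _ := Nat.mul_le_mul_left _ a

theorem ρm_le : s.nu.ρm ≤ s.x ^ ((s.b + 5) * s.Γ) := by
  show ((2 : ℝ) ^ (s.b + 5)) ^ (2 * s.W 0) ≤ _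
  rw [Cs.x, ← pow_mul, ← pow_mul, h.W_zero, Cs.Γ]
  exact pow_le_pow_right₀ (by norm_num) (by nlinarith)

theorem ρm_Λ : s.nu.ρm ≤ s.Λ := by
  refine h.ρm_le.trans (h.xp_mono ?_)
  have := h.E_ge
  have := h.S0
  nlinarith

theorem W_succ {j : ℕ} (hj : j < s.S) : s.W j = 6 * s.n + (s.b + 5) * s.W (j + 1) := by
  have e : s.S - j = s.S - (j + 1) + 1 := by omega
  rw [Cs.W, Cs.W, e, gam]
  ring

theorem β_le : (s.β : ℝ) ≤ s.x ^ s.A3 := by
  have hx := h.x100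
  have a3 := h.A3
  have a : (s.i : ℝ) ≤ s.x ^ (2 * (s.C * s.k * s.E + 1)) := by
    have := h.iK.le
    rw [Cs.x, ← pow_mul]
    exact_mod_cast this
  have b : (s.n : ℝ) * s.E * s.i ≤ s.x ^ (2 * (s.C * s.k * s.E + 1) + 1) := by
    rw [pow_succ']
    exact mul_le_mul (by linarith [h.nE_le]) a (Nat.cast_nonneg _) (by linarith)
  obtain ⟨p, hp⟩ : ∃ p, s.A3 = p + 1 := ⟨s.A3 - 1, by omega⟩
  have c := h.xp_mono (show 2 * (s.C * s.k * s.E + 1) + 1 ≤ p by omega)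
  have d := h.xp_mono (show s.E * s.C2 + 1 ≤ p by omega)
  have e : (s.β : ℝ) = s.x ^ (s.E * s.C2 + 1) + s.n * s.E * s.i := by
    rw [Cs.β, Cs.x, ← pow_mul]
    push_cast
    rfl
  have : 0 < s.x ^ p := by positivity
  rw [e, hp, pow_succ s.x p]
  nlinarith

theorem x_le_pow {p : ℕ} (hp : 1 ≤ p) : s.x ≤ s.x ^ p := by simpa using h.xp_mono hp

theorem J_exp (t : ℕ) : (s.J t : ℝ) ≤ Real.exp (s.x ^ s.A3) := by
  have a := h.x_le_pow (show 1 ≤ s.A3 by have := h.A3_ge; omega)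
  have hx := h.x100
  unfold Cs.J
  split_ifs
  · push_cast
    refine (two_pow_le_exp _).trans (Real.exp_le_exp.2 ?_)
    push_cast
    linarith [h.nA1_le]
  · push_cast
    exact (two_pow_le_exp _).trans (Real.exp_le_exp.2 h.β_le)
  · push_cast
    linarith [Real.add_one_le_exp (s.x ^ s.A3)]

theorem log_J (t : ℕ) : Real.log (s.J t) ≤ s.x ^ s.A3 := by
  have b : (2 : ℝ) ≤ s.J t := by exact_mod_cast h.J_two _
  exact (Real.log_le_iff_le_exp (by linarith)).2 (h.J_exp t)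

theorem Z_one : 1 ≤ s.Z := Real.one_le_exp (pow_nonneg (by linarith [h.x100]) _)

theorem x_Z : s.x ≤ s.Z := by
  have := h.x_le_pow (show 1 ≤ s.A3 + 1 by omega)
  linarith [Real.add_one_le_exp (s.x ^ (s.A3 + 1)), show s.Z = Real.exp _ from rfl]

theorem Λ_exp : s.Λ ≤ Real.exp s.x :=
  (h.x_pow_le _).trans (Real.exp_le_exp.2 (by linarith [h.nE_le, h.x100, mul_comm (s.E : ℝ) s.n]))

theorem Λ_Z : s.Λ ≤ s.Z :=
  h.Λ_exp.trans (Real.exp_le_exp.2 (h.x_le_pow (by omega)))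

theorem J_Z (t : ℕ) : (s.J t : ℝ) ≤ s.Z :=
  (h.J_exp t).trans (Real.exp_le_exp.2 (h.xp_mono (by omega)))

theorem l_Z {t : ℕ} (ht : t ≤ s.m0 + 1) : s.l t ≤ s.Z := by
  have hx := h.x100
  have a := h.x_le_pow (show 1 ≤ s.A3 by have := h.A3_ge; omega)
  have q1 : s.q ≤ Real.exp s.x := by linarith [h.q_n, h.q_ge, h.nx, Real.add_one_le_exp s.x]
  have q0 : 0 ≤ s.q := by linarith [h.q_ge]
  have x1 : s.x ^ 10 ≤ Real.exp s.x :=
    (h.x_pow_le 10).trans (Real.exp_le_exp.2 (by push_cast; nlinarith [h.nnx, h.n100]))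
  have r1 : ((2 : ℝ) ^ (s.b + 5)) ^ (2 * s.W 0) ≤ Real.exp s.x := h.ρm_Λ.trans h.Λ_exp
  have j1 := h.J_exp 1
  have j2 := h.J_exp 2
  refine (h.l_mono ht).trans ?_
  rw [show s.m0 + 1 = 2 * s.W 0 + 3 from rfl, h.l_add, h.l_three]
  calc _ ≤ Real.exp s.x * (Real.exp s.x ^ 2 * Real.exp (s.x ^ s.A3) * Real.exp (s.x ^ s.A3) *
        Real.exp s.x) := by gcongr
    _ = Real.exp (4 * s.x + 2 * s.x ^ s.A3) := by
        rw [← Real.exp_nat_mul, ← Real.exp_add, ← Real.exp_add, ← Real.exp_add, ← Real.exp_add]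
        congr 1
        push_cast
        ring
    _ ≤ _ := Real.exp_le_exp.2 (by rw [pow_succ]; nlinarith)

theorem Z_pow {p : ℕ} (hp : (p : ℝ) ≤ s.x) : s.Z ^ p ≤ Real.exp (s.x ^ s.A1 / 4) := by
  have hx := h.x100
  have a := h.xp_mono (show s.A3 + 1 + 1 + 1 ≤ s.A1 by have := h.A1_ge; omega)
  have b : 0 < s.x ^ (s.A3 + 1) := by positivity
  rw [Cs.Z, ← Real.exp_nat_mul]
  refine Real.exp_le_exp.2 ?_
  rw [pow_succ _ (s.A3 + 1 + 1), pow_succ _ (s.A3 + 1)] at a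
  have c : p * s.x ^ (s.A3 + 1) ≤ s.x ^ (s.A3 + 1) * s.x := by nlinarith
  have d : 0 < s.x ^ (s.A3 + 1) * s.x := by positivity
  nlinarith

theorem two_pow_Λ {t : ℕ} (ht : t ≤ s.m0) : (2 : ℝ) ^ t ≤ s.Λ :=
  (pow_le_pow_right₀ (by norm_num) ht).trans h.two_m0

theorem Kx_le {t : ℕ} (ht : t ≤ s.m0) : (s.Kx t : ℝ) ≤ s.Λ * s.x := by
  have a := h.two_pow_Λ ht
  have b : 0 ≤ s.L / s.η := div_nonneg (by linarith [h.L_one]) h.η0.le
  have c : (s.Kx t : ℝ) ≤ 2 ^ (t + 2) * s.L / s.η + 1 :=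
    (Nat.ceil_lt_add_one (by rw [mul_div_assoc]; positivity)).le
  have d : 2 ^ t * (s.L / s.η) ≤ s.Λ * (s.x / 100) :=
    mul_le_mul a (by linarith [h.Lη_n, h.nx]) b (by linarith [h.xΛ, h.x100])
  rw [mul_div_assoc, pow_add] at c
  nlinarith [h.xΛ, h.x100]

theorem La_eq (t : ℕ) : s.nu.La t = 2 ^ t * 4 * (1 / s.η) * s.l (t + 1) := by
  show 2 ^ (t + 2) / s.η * s.l (t + 1) = _
  ring

theorem La_zero : s.nu.La 0 + 2 ≤ s.x ^ 11 := by
  have a := h.l_one 1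
  have b : 4 * (1 / s.η) * s.l 1 ≤ s.x / 2 * s.l 1 :=
    mul_le_mul_of_nonneg_right (by linarith [h.η_n, h.nx, h.x100]) (by linarith)
  rw [h.La_eq, pow_succ' s.x 10, show s.x ^ 10 = s.l 1 from rfl]
  nlinarith [h.x100]

theorem La_one : s.nu.La 1 + 2 ≤ s.x ^ (s.A1 + 12) := by
  have hx := h.x100
  have a : 1 ≤ s.x ^ s.A1 * s.x ^ 10 := by rw [← pow_add]; exact one_le_pow₀ (by linarith)
  have b : 1 / s.η * s.q ≤ s.x / 100 * (s.x / 100) :=
    mul_le_mul (by linarith [h.η_n, h.nx]) (by linarith [h.q_n, h.nx]) (by linarith [h.q_ge])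
      (by linarith)
  have c := mul_le_mul_of_nonneg_right b (zero_le_one.trans a)
  have e : s.x ^ (s.A1 + 12) = s.x * s.x * (s.x ^ s.A1 * s.x ^ 10) := by ring
  rw [h.La_eq, show s.l (1 + 1) = s.q * s.J 1 * s.x ^ 10 from rfl, h.J_one, e]
  have d : 10000 ≤ s.x * s.x := by nlinarith
  nlinarith

theorem La_Z {t : ℕ} (ht : t ≤ s.m0) : s.nu.La t + 2 ≤ s.Z ^ 4 := by
  have hx := h.x100
  have z := h.x_Z
  have a := (h.two_pow_Λ ht).trans h.Λ_Z
  have b := h.l_Z (show t + 1 ≤ s.m0 + 1 by omega)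
  have b0 := h.l_one (t + 1)
  have c : 4 * (1 / s.η) ≤ s.Z := by linarith [h.η_n, h.nx, h.η2]
  have c0 := h.η2
  have z0 : 0 < s.Z := by linarith
  have d : 2 ^ t * (4 * (1 / s.η)) * s.l (t + 1) ≤ s.Z * s.Z * s.Z := by gcongr
  have e : 1 ≤ s.Z * s.Z * s.Z := by
    have := h.Z_one
    exact one_le_mul_of_one_le_of_one_le (one_le_mul_of_one_le_of_one_le this this) this
  rw [h.La_eq, show s.Z ^ 4 = s.Z * (s.Z * s.Z * s.Z) by ring]
  nlinarith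

theorem f_zero : s.f 0 ≤ s.n := by
  have hη := h.η0
  have hB := h.B1
  have hA := h.A_one
  have hn := h.n100
  have l0 := Real.log_nonneg (show 1 ≤ s.B0 + 1 by linarith)
  have a : s.s0 ^ 2 = 2 * (s.B0 + 1) * (s.n + s.A) / s.η := Real.sq_sqrt (by positivity)
  refine abs_le_of_sq_le_sq' ?_ (by linarith) |>.2
  have e : s.f 0 = 2 * s.s0 * Real.log (s.B0 + 1) := by simp [Cs.f]
  rw [e, mul_pow, mul_pow, a, div_eq_mul_one_div]
  set y := Real.log (s.B0 + 1)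
  have b : (s.B0 + 1) * s.A * y ^ 2 ≤ (s.B0 + 1) * s.A * (1 + y) ^ 2 := by gcongr; linarith
  have c : 100 * ((s.B0 + 1) * s.A * y ^ 2) ≤ s.η * s.n := by
    have : s.η * s.κ * s.n ≤ s.η * s.n := by
      have : s.η * s.κ ≤ s.η := by nlinarith [h.κ1]
      gcongr
    linarith [h.n6]
  have d : 100 * ((s.B0 + 1) * s.A * y ^ 2) * (1 / s.η) ≤ s.n := by
    rw [← div_eq_mul_one_div, div_le_iff₀ hη]
    linarith
  have f1 : (s.n : ℝ) + s.A ≤ 2 * (s.A * s.n) := by nlinarith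
  have f2 : 0 ≤ (s.B0 + 1) * y ^ 2 * (1 / s.η) := by positivity
  have f3 := mul_le_mul_of_nonneg_left f1 f2
  have f4 := mul_le_mul_of_nonneg_right d (show (0 : ℝ) ≤ s.n by linarith)
  nlinarith

theorem f_one : s.f 1 ≤ s.cf * s.n := by
  have hη := h.η0
  have hA := h.A_one
  have hn := h.n100
  have c1 : (1 : ℝ) ≤ s.c := by exact_mod_cast h.c1
  have k0 := Nat.cast_nonneg (α := ℝ) (s.Kx 1)
  have x1 : 1 ≤ s.x ^ s.A1 := one_le_pow₀ (by linarith [h.x100])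
  have e : s.f 1 = 64 / s.η * (9 * s.n + s.A) +
      s.Kx 1 * Real.log (s.c * s.x ^ s.A1 + s.Kx 1) := by
    simp [Cs.f, Cs.g, Cs.r, h.J_one]
    norm_num
  have a : Real.log (s.c * s.x ^ s.A1 + s.Kx 1) ≤ (s.A1 + s.c + s.Kx 1) * s.n := by
    rw [Real.log_le_iff_le_exp (by positivity)]
    calc _ ≤ (s.c + s.Kx 1) * s.x ^ s.A1 := by nlinarith
      _ ≤ Real.exp ((s.c + s.Kx 1) * s.n) * Real.exp (s.A1 * s.n) := by
          refine mul_le_mul ?_ (h.x_pow_le _) (by positivity) (by positivity)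
          nlinarith [Real.add_one_le_exp ((s.c + s.Kx 1) * s.n)]
      _ = _ := by rw [← Real.exp_add]; congr 1; ring
  have b : 64 / s.η * (9 * s.n + s.A) ≤ 64 / s.η * ((9 + s.A) * s.n) := by
    gcongr
    nlinarith
  have c := mul_le_mul_of_nonneg_left a k0
  rw [e, Cs.cf]
  nlinarith

theorem f_le {t : ℕ} (h2 : 2 ≤ t) (ht : t ≤ s.m0) : 1 + s.f t ≤ s.x ^ s.A1 / 4 := by
  obtain ⟨t, rfl⟩ : ∃ p, t = p + 2 := ⟨t - 2, by omega⟩
  have hx := h.x100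
  have hΛ := h.xΛ
  have c1 : (1 : ℝ) ≤ s.c := by exact_mod_cast h.c1
  have j2 : (2 : ℝ) ≤ s.J (t + 2) := by exact_mod_cast h.J_two _
  have j1 : (2 : ℝ) ≤ s.J (t + 1) := by exact_mod_cast h.J_two _
  have k0 := Nat.cast_nonneg (α := ℝ) (s.Kx (t + 2))
  have y1 := h.x_le_pow (show 1 ≤ s.A3 by have := h.A3_ge; omega)
  have bn : (s.b : ℝ) ≤ s.n / 100 := by
    have : 100 * s.b ≤ s.n := by have := h.n2; omega
    have : 100 * (s.b : ℝ) ≤ s.n := by exact_mod_cast this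
    linarith
  have e : s.f (t + 2) = 2 ^ (t + 2) * 32 * (1 / s.η) * (s.b + Real.log (s.J (t + 1)) + s.A) +
      s.Kx (t + 2) * Real.log (s.c * s.J (t + 2) + s.Kx (t + 2)) := by
    simp only [Cs.f, Cs.g, Cs.r, Nat.add_eq_zero_iff, OfNat.ofNat_ne_zero, and_false, if_false,
      Nat.cast_mul]
    ring
  have g1 : s.b + Real.log (s.J (t + 1)) + s.A ≤ 2 * s.x ^ s.A3 := by
    linarith [h.log_J (t + 1), h.A_n, h.nx]
  have g0 : 0 ≤ s.b + Real.log (s.J (t + 1)) + s.A := by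
    have := Real.log_nonneg (show (1 : ℝ) ≤ s.J (t + 1) by linarith)
    have := h.A_one
    positivity
  have p1 := h.two_pow_Λ ht
  have η1 : 1 / s.η ≤ s.x / 100 := by linarith [h.η_n, h.nx]
  have η2 := h.η2
  have x0 : 0 < s.x := by linarith
  have Λ0 : 0 < s.Λ := by linarith
  have a : 2 ^ (t + 2) * 32 * (1 / s.η) * (s.b + Real.log (s.J (t + 1)) + s.A) ≤
      s.Λ * 32 * (s.x / 100) * (2 * s.x ^ s.A3) := by gcongr
  have z1 := h.Z_one
  have b : Real.log (s.c * s.J (t + 2) + s.Kx (t + 2)) ≤ 3 * s.x ^ (s.A3 + 1) := by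
    rw [Real.log_le_iff_le_exp (by positivity), show (3 : ℝ) = (3 : ℕ) by norm_num,
      Real.exp_nat_mul]
    have b1 : s.c * (s.J (t + 2) : ℝ) ≤ s.Z * s.Z :=
      mul_le_mul (by linarith [h.c_n, h.nx, h.x_Z]) (h.J_Z _) (by linarith) (by linarith)
    have b2 : s.Λ * s.x ≤ s.Z * s.Z := mul_le_mul h.Λ_Z h.x_Z (by linarith) (by linarith)
    have b3 : 2 * (s.Z * s.Z) ≤ s.Z * (s.Z * s.Z) :=
      mul_le_mul_of_nonneg_right (by linarith [h.x_Z]) (by positivity)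
    show _ ≤ s.Z ^ 3
    nlinarith [h.Kx_le ht]
  have b0 : 0 ≤ Real.log (s.c * s.J (t + 2) + s.Kx (t + 2)) := Real.log_nonneg (by nlinarith)
  have c := mul_le_mul (h.Kx_le ht) b b0 (by positivity)
  have d := h.xp_mono h.A1
  have e2 : s.x ^ (s.E + s.A3 + 3) = s.x * (s.x * (s.Λ * s.x * s.x ^ s.A3)) := by
    rw [Cs.Λ]; ring
  have w1 : 1 ≤ s.Λ * s.x * s.x ^ s.A3 :=
    one_le_mul_of_one_le_of_one_le (by nlinarith) (by linarith)
  rw [pow_succ] at c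
  rw [e2] at d
  rw [e]
  set w := s.Λ * s.x * s.x ^ s.A3 with hw
  have w2 : 100 * w ≤ s.x * w := by nlinarith
  have w3 : 100 * (s.x * w) ≤ s.x * (s.x * w) := by nlinarith
  have a' : s.Λ * 32 * (s.x / 100) * (2 * s.x ^ s.A3) = 64 / 100 * w := by rw [hw]; ring
  have c' : s.Λ * s.x * (3 * (s.x ^ s.A3 * s.x)) = 3 * (s.x * w) := by rw [hw]; ring
  linarith

theorem u_ge {t : ℕ} (ht : 1 ≤ t) (w : ℕ) : s.x ^ s.A1 ≤ s.u t w := by
  have hx := h.x100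
  have hΛ := h.xΛ
  have x0 : 0 < s.x ^ s.A1 := by positivity
  unfold Cs.u
  rw [if_neg (by omega)]
  split_ifs
  · exact h.J_one.ge
  · have a : (1 : ℝ) ≤ 4 ^ (t - 2 - w) := one_le_pow₀ (by norm_num)
    have b : 0 ≤ ((s.m0 - t : ℕ) : ℝ) / s.Λ := div_nonneg (Nat.cast_nonneg _) (by linarith)
    have c : s.x ^ s.A1 ≤ s.U / 2 := by
      rw [Cs.U, h.J_one]
      nlinarith [h.J2_ge]
    nlinarith

end CsOk

end Pool.Agent.P.MP_a14ce1_nt.Fu.Pa
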