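import Pool.Agent.P.MP_a14ce1_nt.Fu.St
import Pool.Agent.P.MP_a14ce1_nt.Fu.SB2

/-!
Section 1: the concrete families. A record of numbers, the families built from it, the list of
inequalities between the numbers, and the statements of the pieces.
-/

open Finset

namespace Pool.Agent.P.MP_a14ce1_nt.Fu.Pa

open Ch (pv mu rs pr)
open St

/-- the primes with logarithm in (x, y] -/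
noncomputable def pe (x y : ℝ) : Finset ℕ := pr (Real.exp x) (Real.exp y)

/-- the estimates of Mertens with one constant -/
structure Mert (A : ℝ) : Prop where
  one : 1 ≤ A
  m1 : ∀ x y : ℝ, 1 ≤ x → x ≤ y → |rs (pe x y) - Real.log (y / x)| ≤ A
  m0 : ∀ y : ℝ, 1 ≤ y → |rs (pe 0 y) - Real.log y| ≤ A
  m2 : ∀ x y : ℝ, 0 ≤ x → x ≤ y → |∑ p ∈ pe x y, Real.log p / p - (y - x)| ≤ A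
  mw : ∀ (S : Finset ℕ) (x s : ℝ), 0 ≤ s →
    (∀ p ∈ S, p.Prime ∧ x ≤ Real.log p ∧ Real.log p ≤ x + s) → ∑ p ∈ S, Real.log p / p ≤ s + A

/-- the mass of the primes of a short interval above exp y -/
def Short (ε y : ℝ) : Prop := ∀ x : ℝ, Real.exp y ≤ x → ∀ P : Finset ℕ,
  ((∀ p : ℕ, p.Prime → x < p → p < (1 + ε) * x → p ∈ P) → ε / (2 * Real.log x) ≤ rs P) ∧
  ((∀ p ∈ P, p.Prime ∧ x ≤ p ∧ p ≤ (1 + ε) * x) → rs P ≤ 5 / 4 * ε / Real.log x)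

/-- the numbers of one chain -/
structure Nu where
  k : ℕ
  S : ℕ
  K3 : ℕ
  ε : ℝ
  η : ℝ
  κ : ℝ
  Λ : ℝ
  vt : ℝ
  Cw : ℝ
  Csb : ℝ
  Cl : ℝ
  K2 : ℝ
  eL : ℝ
  A : ℝ
  B0 : ℝ
  s0 : ℝ
  Om : ℝ
  v0 : ℝ
  ρ : ℝ
  ρm : ℝ
  X : ℝ
  l : ℕ → ℝ
  g : ℕ → ℝ
  f : ℕ → ℝ
  r : ℕ → ℕ
  J : ℕ → ℕ
  Kx : ℕ → ℕ
  W : ℕ → ℕ
  u : ℕ → ℕ → ℝ

namespace Nu

variable (ν : Nu)

/-- the number of levels of the family j -/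
def m (j : ℕ) : ℕ := 2 * ν.W j + 2
noncomputable def b (j : ℕ) : ℝ := ν.l (ν.m j + 1)
/-- the logarithm of D -/
noncomputable def LD : ℝ := 10 * ν.b 0
/-- the logarithm of the top of the level 0 -/
noncomputable def lG : ℝ := ν.eL * ν.l 0
/-- a bound for the mass of the classes R t -/
noncomputable def L : ℝ := Real.log ν.eL + ν.A
noncomputable def G (t : ℕ) : Finset ℕ :=
  if t = 0 then pe 0 ν.lG else pe (ν.eL * ν.l (t - 1)) (ν.l t)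
noncomputable def R (t : ℕ) : Finset ℕ := if t = 0 then ∅ else pe (ν.l t) (ν.eL * ν.l t)
noncomputable def B (t : ℕ) : ℝ := if t = 0 then ν.B0 else 3
noncomputable def RR (j : ℕ) : Finset ℕ := pe (ν.LD - ν.b j) (ν.LD - ν.b (j + 1))

/-- the levels, without the upper part -/
noncomputable def pre : Fam where
  k := ν.k
  N := ⌈2 * ν.k * Real.exp ν.LD⌉₊
  m := ν.m 0
  D := Real.exp ν.LD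
  ε := ν.ε
  G := ν.G
  R := ν.R
  B := ν.B
  r := ν.r
  RR := ∅
  U := ∅
  HH := ∅
  wk := fun _ => 0
  vk := fun _ => 0
  ze := fun _ => 0

noncomputable def pi1 (j : ℕ) : ℝ := EG (ν.RR j) fun T => if T.card = 1 then 1 else 0
noncomputable def zz (j : ℕ) (T : Finset ℕ) : ℝ :=
  (if (T ∩ ν.RR j).card = 1 then 1 else 0) / ν.pi1 j
/-- the weight of the upper levels -/
noncomputable def VU (j : ℕ) (T : Finset ℕ) : ℝ := ν.pre.V (ν.m j + 1) (ν.m 0 + 1) T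

/-- the family j -/
noncomputable def fam (j : ℕ) : Fam :=
  { ν.pre with
    m := ν.m j
    RR := ν.RR j
    U := ν.pre.Lv (ν.m j + 1) (ν.m 0 + 1) ∪ (range j).biUnion ν.RR
    HH := (Ico (j + 1) ν.S).biUnion ν.RR
    wk := fun T => (if ν.VU j T ≤ ν.Om then ν.VU j T else 0) * ∏ i ∈ range j, ν.zz i T
    vk := fun T => ν.VU j T * ∏ i ∈ range j, ν.zz i T
    ze := fun T => ∏ i ∈ Ico (j + 1) ν.S, ν.zz i T }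

/-- the mean number of primes of the level 0 -/
noncomputable def mu0 : ℝ := ∑ q ∈ ν.G 0, (ν.B0 + 1) / (q + ν.B0)
noncomputable def lo (t : ℕ) : ℝ :=
  if t = 0 then Real.exp ((ν.mu0 - ν.s0) * Real.log (ν.B0 + 1)) / ν.pre.ZG 0
  else if t ≤ ν.m 0 then 1 / (ν.pre.ZG t * ν.pre.ZR t) else 1
noncomputable def hi (t : ℕ) : ℝ := if t ≤ ν.m 0 then ν.lo t * Real.exp (ν.f t) else 1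
noncomputable def La (s : ℕ) : ℝ := 2 ^ (s + 2) / ν.η * ν.l (s + 1)
noncomputable def Δ : ℝ := Real.exp (Real.log ν.lG / 2 * Real.log (ν.B0 + 1))
noncomputable def uT (j : ℕ) : ℝ := ν.u (ν.m j) (ν.W j - 1)

/-- the parameters of the family j -/
noncomputable def par (C j : ℕ) : Par where
  η := ν.η
  κ := ν.κ
  Λ := ν.Λ
  Δ := ν.Δ
  vt := ν.vt
  Ms := Real.exp (ν.eL * ν.l (ν.m j))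
  Lp := ν.b j
  Lh := ν.b (j + 1)
  Cw := ν.Cw
  Csb := ν.Csb
  Cl := ν.Cl
  K2 := ν.K2
  eL := ν.eL
  σin := ∑ i ∈ range j, C * Real.exp (-ν.uT i) / ν.η
  M := 2 * ν.b j
  a := ν.eL * ν.l (ν.m j)
  K3 := ν.K3
  Wn := ν.W j
  lo := ν.lo
  hi := ν.hi
  La := ν.La
  l := ν.l
  mn := fun t => Real.exp (ν.l t)
  Kx := ν.Kx
  J := ν.J
  tp := fun t => ⌊Real.exp (ν.eL * ν.l t)⌋₊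
  σ := fun t w => Real.exp (-ν.u t w)
  m0 := fun t w => ⌈((ν.R t).card : ℝ) * Real.exp (-(ν.u (t - 1) w / 2))⌉₊

end Nu

/-- the inequalities between the numbers -/
structure NuOk (ν : Nu) (C C2 : ℕ) : Prop where
  mert : Mert ν.A
  short : Short ν.ε (ν.l 3)
  k2 : 2 ≤ ν.k
  S0 : 0 < ν.S
  e0 : 0 < ν.ε
  e1 : ν.k * ν.ε ≤ 1 / 2
  η0 : 0 < ν.η
  η1 : ν.η ≤ 1 / 2
  κ0 : 0 < ν.κ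
  κ1 : ν.κ ≤ 1 / 2
  κη : C * ν.κ ≤ ν.η ^ C
  B1 : 1 ≤ ν.B0
  eL1 : 1 ≤ ν.eL
  eLκ : ν.A + 2 + Real.log (1 / ν.κ) ≤ Real.log ν.eL
  K3κ : ν.L ≤ ν.κ * ν.K3
  K2κ : 8 ≤ ν.κ * ν.K2
  Cwε : 8 * ν.A ≤ ν.Cw * ν.ε
  Clε : 8 * ν.ρ ≤ ν.Cl * ν.ε
  Csb1 : 1 ≤ ν.Csb
  Csb2 : SB.Csb2 3 ν.A ≤ ν.Csb
  big : ν.Csb * ν.Cl ^ 2 ≤ ν.η ^ 2 * ν.S
  l1 : ∀ t, 1 ≤ ν.l t
  lA : ν.A ≤ ν.l 0
  lk : 4 * Real.log (10 * ν.k) ≤ ν.l 0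
  lst : ∀ t, 4 * (ν.eL * ν.l t) ≤ ν.l (t + 1)
  lsr : ∀ t, 4 * (ν.r t * (ν.eL * ν.l t)) ≤ ν.l (t + 1)
  lup : ∀ t, 3 ≤ t → ν.l (t + 1) ≤ ν.ρ * ν.l t
  ρ1 : 1 ≤ ν.ρ
  ρm1 : 1 ≤ ν.ρm
  bup : ν.b 0 ≤ ν.ρm * ν.l 3
  d0 : 4 * ν.A + 4 * Real.log ν.lG ≤ Real.log (ν.l 1)
  d1 : ∀ t, 4 * ν.A + 4 * Real.log ν.eL ≤ Real.log (ν.l (t + 1) / ν.l t)
  gm : ∀ t, ν.B0 * (ν.lG + ν.A) + 3 * (ν.l t + ν.A) ≤ ν.κ / 8 * ν.l (t + 1)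
  g0 : Real.log ν.lG + ν.A ≤ ν.g 0
  g1 : ∀ t, Real.log (ν.l (t + 1) / (ν.eL * ν.l t)) + ν.A ≤ ν.g (t + 1)
  r0 : ν.r 0 = 0
  r2 : ∀ t, 1 ≤ t → 2 ≤ ν.r t
  rl : ∀ t, (ν.r t : ℝ) ≤ Real.exp (ν.l t)
  J1 : ∀ t, 1 ≤ ν.J t
  Jr : ∀ t, 1 ≤ t →
    C * ν.Csb * (ν.Cw * (ν.K2 + ν.K3 * ν.eL + 2)) ^ 2 * ν.J t ≤ ν.κ ^ 3 * ν.r t
  WS : ν.W ν.S = 0
  Wlt : ∀ j < ν.S, ν.W (j + 1) < ν.W j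
  Lk : (ν.k : ℝ) ≤ ν.Λ
  Lm : (ν.m 0 : ℝ) ≤ ν.Λ
  Lη : 1 ≤ ν.Λ * ν.η
  Lκ : 1 ≤ ν.Λ * ν.κ
  Lε : 1 ≤ ν.Λ * ν.ε
  LCw : ν.Cw ≤ ν.Λ
  LCsb : ν.Csb ≤ ν.Λ
  LCl : ν.Cl ≤ ν.Λ
  Lρ : 2 * ν.ρ ≤ ν.Λ
  LS : (ν.S : ℝ) + 1 ≤ ν.Λ
  LOm : ν.Om * (80 * ν.ρm) ^ ν.S ≤ ν.Λ
  v00 : 0 ≤ ν.v0
  v0t : ∀ t, 4 ≤ t → 15 * ν.g t + ν.L + ν.r t * Real.log (2 * ν.r t) ≤ ν.v0
  Omv : Real.exp (ν.v0 * ν.m 0) ≤ ν.η * ν.Om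
  s00 : 0 < ν.s0
  s0g : (ν.B0 + 1) * ν.g 0 ≤ ν.η / 2 * ν.s0 ^ 2
  f0 : 2 * ν.s0 * Real.log (ν.B0 + 1) ≤ ν.f 0
  f0l : ν.f 0 + (ν.B0 + 1) * ν.g 0 * Real.log (ν.B0 + 1) ≤ ν.l 1
  Kxt : ∀ t, 1 ≤ t → 2 ^ (t + 2) * ν.L ≤ ν.η * ν.Kx t
  ft : ∀ t, 1 ≤ t → t ≤ ν.m 0 →
    2 ^ (t + 5) / ν.η * ν.g t + ν.Kx t * Real.log (ν.r t + ν.Kx t) ≤ ν.f t
  ext : 8 * (ν.A + ν.B0 + Real.log (1 / ν.η)) ≤ Real.log ν.lG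
  vt0 : 0 < ν.vt
  vt1 : ν.vt ≤ 1
  diag : (ν.Λ / ν.vt) ^ (C * ν.k) * (ν.La 0 + 2) ^ 2 ≤ ν.Δ
  un : ∀ t w, 0 ≤ ν.u t w
  uw : ∀ t ≤ 1, ∀ w, ν.u t w = ν.u t 0
  u0 : ν.vt * Real.exp (ν.f 0) ≤ Real.exp (-ν.u 0 0)
  uη : Real.exp (-(ν.u 0 0 / 4)) ≤ ν.η
  ul : ∀ t < ν.m 0, ∀ w, ν.u t w ≤ 2 * ν.l (t + 1)
  ur : ∀ t < ν.m 0, ∀ w, 2 * ((ν.r (t + 1) : ℝ) + ν.Kx (t + 1)) ≤ Real.exp (ν.u t w / 4)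
  uf : ∀ t < ν.m 0, ∀ w, 1 + ν.f (t + 1) ≤ ν.u t w
  uJ : ∀ t < ν.m 0, ∀ w, ν.u (t + 1) w ≤ ν.J (t + 1) * ν.u t w / 4
  us : ∀ t < ν.m 0, ∀ w, 2 ≤ t → 1 ≤ w → ν.u (t + 1) w + 1 + ν.f (t + 1) ≤ ν.u t (w - 1)
  pin : ∀ t < ν.m 0, ∀ w,
    ν.Λ ^ C * ν.J (t + 1) ^ 2 * (ν.La t + 2) ≤ Real.exp (ν.u t w / 2)
  hid : ∀ t < ν.m 0, ∀ w, (C : ℝ) ^ ν.m 0 * ν.Λ ^ C * (ν.La (t + 1) + 2) *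
    Real.exp (ν.f (t + 1)) ≤ Real.exp (ν.u t w)
  C1 : 1 ≤ C
  XC : (C : ℝ) + C2 + 10 ≤ ν.X
  uX : ∀ j < ν.S, ν.X * ν.b (j + 1) ≤ ν.uT j
  pref : 2 * (ν.S * C / ν.η + 1) * (C : ℝ) ^ ν.m 0 * ν.Λ ^ (C * ν.k + C + C2) * ν.Cw * ν.LD ≤
    Real.exp (ν.l 3)
  ind : Real.exp (ν.Λ ^ C2) * ν.Λ ^ (C * ν.k) * (1 + Real.log (4 * ν.k) + ν.LD) ≤
    Real.exp (ν.l 3)
  Mlog : ν.Λ ^ C2 ≤ Real.log (ν.l 3)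

/-- the estimates of Mertens -/
def S_Mert : Prop := ∃ A : ℝ, Mert A

/-- short intervals -/
def S_Short : Prop := ∀ ε : ℝ, 0 < ε → ε ≤ 1 / 4 → ∃ y0 : ℝ, ∀ y, y0 ≤ y → Short ε y

/-- the chain of families built from the numbers -/
def S_Chain : Prop := ∀ (ν : Nu) (C C2 : ℕ), NuOk ν C C2 →
  Chain ν.k C C2 ν.S ν.ε ν.η ν.Cw ν.Λ (pe (ν.l 3) (ν.Λ * ν.l 3)) ν.fam (ν.par C)

/-- the numbers exist -/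
def S_Num : Prop := ∀ (k C : ℕ) (ε η : ℝ), 2 ≤ k → 1 ≤ C → 0 < ε → k * ε ≤ 1 / 2 → 0 < η →
  η ≤ 1 / 2 → ∃ Cw : ℝ, ∀ C2 : ℕ, ∃ (K : ℕ) (Λ y : ℝ), 0 < K ∧ 1 ≤ Λ ∧ 0 ≤ y ∧
    Λ ^ (C * k) ≤ η * Real.sqrt K ∧ ∀ i < K, ∃ ν : Nu, NuOk ν C C2 ∧ ν.k = k ∧ ν.ε = ε ∧
      ν.η = η ∧ ν.Cw = Cw ∧ ν.Λ = Λ ∧ ν.l 3 = y * Λ ^ i

end Pool.Agent.P.MP_a14ce1_nt.Fu.Pa
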