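import Pool.Agent.P.MP_a14ce1_nt.Fu.PaB
import Pool.Agent.P.MP_a14ce1_nt.Fu.PaCh

/-! The numerical fields of the hypotheses for the concrete families. -/

open Finset

namespace Pool.Agent.P.MP_a14ce1_nt.Fu.Pa

open St

namespace NuOk

variable {ν : Nu} {C C2 j : ℕ} (h : NuOk ν C C2)
include h

theorem t_k2 : (2 : ℝ) ≤ ν.k := by exact_mod_cast h.k2

theorem t_L1 : 1 ≤ ν.Λ := by linarith [h.t_k2, h.Lk]

theorem t_e4 : ν.ε ≤ 1 / 4 := by nlinarith [h.t_k2, h.e0, h.e1]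

theorem t_D1 : 1 ≤ Real.exp ν.LD := Real.one_le_exp h.LD_pos.le

omit h in
theorem Nlo' : 2 * (ν.fam j).k * (ν.fam j).D ≤ (ν.fam j).N := Nat.le_ceil _

theorem Nhi' : ((ν.fam j).N : ℝ) ≤ 4 * (ν.fam j).k * (ν.fam j).D := by
  have a := h.t_k2
  have b := h.t_D1
  have c := (Nat.ceil_lt_add_one (a := 2 * (ν.k : ℝ) * Real.exp ν.LD) (by positivity)).le
  change ((⌈2 * (ν.k : ℝ) * Real.exp ν.LD⌉₊ : ℕ) : ℝ) ≤ 4 * ν.k * Real.exp ν.LD
  nlinarith

theorem Cw1' : 1 ≤ ν.Cw := by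
  have a := h.Cwε
  have b := h.A1
  have c := h.t_e4
  have d := h.e0
  by_contra e
  nlinarith

theorem Cl1' : 1 ≤ ν.Cl := by
  have a := h.Clε
  have b := h.ρ1
  have c := h.t_e4
  have d := h.e0
  by_contra e
  nlinarith

theorem logD' (hj : j < ν.S) : Real.log (ν.fam j).D ≤ (ν.par C j).Λ * (ν.par C j).Lp := by
  change Real.log (Real.exp ν.LD) ≤ ν.Λ * ν.b j
  rw [Real.log_exp]
  exact h.c_LD.trans (mul_le_mul_of_nonneg_left (h.l3_le_b hj.le) (by linarith [h.t_L1]))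

theorem Dbig' (hj : j < ν.S) :
    10 * (ν.fam j).k * Real.exp (2 * (ν.par C j).Lp) ≤ (ν.fam j).D := by
  change 10 * (ν.k : ℝ) * Real.exp (2 * ν.b j) ≤ Real.exp ν.LD
  have a := h.t_k2
  rw [← Real.exp_log (show 0 < 10 * (ν.k : ℝ) by linarith), ← Real.exp_add]
  have b := h.lk
  have c : ν.l 0 ≤ ν.b j := h.l_mono (Nat.zero_le _)
  have d := h.ten_b hj.le
  have e := h.b_one j
  exact Real.exp_le_exp.2 (by linarith)

theorem La0' : ∀ s, 0 ≤ ν.La s := fun s => by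
  have := h.η0
  have := h.l0 (s + 1)
  unfold Nu.La; positivity

theorem K20' : 0 ≤ ν.K2 := by
  have a := h.K2κ
  have b := h.κ0
  by_contra e
  nlinarith

theorem σin0' : 0 ≤ (ν.par C j).σin := by
  have := h.η0
  change 0 ≤ ∑ i ∈ range j, C * Real.exp (-ν.uT i) / ν.η
  exact sum_nonneg fun _ _ => by positivity

theorem t_logN : 1 + Real.log (ν.fam j).N ≤ 1 + Real.log (4 * ν.k) + ν.LD := by
  have a := h.t_k2
  have b := h.t_D1
  have c : 2 * (ν.k : ℝ) * Real.exp ν.LD ≤ (ν.fam j).N := Nlo'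
  have d := Real.log_le_log (by nlinarith) (h.Nhi' (j := j))
  change _ ≤ Real.log (4 * (ν.k : ℝ) * Real.exp ν.LD) at d
  rw [Real.log_mul (by positivity) (by positivity), Real.log_exp] at d
  linarith

theorem t_ind (hj : j < ν.S) :
    Real.exp (ν.Λ ^ C2) * ν.Λ ^ (C * ν.k) * (1 + Real.log (ν.fam j).N) ≤ (ν.par C j).Ms := by
  have a := h.t_L1
  refine le_trans ?_ (h.ind.trans (Real.exp_le_exp.2 (h.c_l3 hj)))
  exact mul_le_mul_of_nonneg_left h.t_logN (by positivity)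

theorem ind' (hj : j < ν.S) :
    (ν.par C j).Λ ^ (C * (ν.fam j).k) * (1 + Real.log (ν.fam j).N) ≤ (ν.par C j).Ms := by
  refine le_trans ?_ (h.t_ind hj)
  have a := h.t_L1
  have b := Real.log_natCast_nonneg (ν.fam j).N
  have c : 1 ≤ Real.exp (ν.Λ ^ C2) := Real.one_le_exp (by positivity)
  change ν.Λ ^ (C * ν.k) * _ ≤ _
  exact mul_le_mul_of_nonneg_right (le_mul_of_one_le_left (by positivity) c) (by linarith)

theorem ind7' (hj : j < ν.S) :
    Real.exp ((ν.par C j).Λ ^ C2) * (1 + Real.log (ν.fam j).N) ≤ (ν.par C j).Ms := by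
  refine le_trans ?_ (h.t_ind hj)
  have a := h.t_L1
  have b := Real.log_natCast_nonneg (ν.fam j).N
  have c : 1 ≤ ν.Λ ^ (C * ν.k) := one_le_pow₀ a
  change Real.exp (ν.Λ ^ C2) * _ ≤ _
  exact mul_le_mul_of_nonneg_right (le_mul_of_one_le_right (by positivity) c) (by linarith)

theorem t_pow (hj : j < ν.S) : ν.Λ ^ C2 ≤ ν.b j := by
  have a := h.Mlog
  have b := Real.log_le_sub_one_of_pos (h.l0 3)
  have c := h.l3_le_b hj.le
  linarith

theorem Mlo' (hj : j < ν.S) : (ν.par C j).Lp + (ν.par C j).Λ ^ C2 ≤ (ν.par C j).M := by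
  change ν.b j + ν.Λ ^ C2 ≤ 2 * ν.b j
  linarith [h.t_pow hj]

theorem Mhi' (hj : j < ν.S) : (ν.par C j).M ≤ (ν.par C j).Λ * (ν.par C j).l (ν.fam j).m := by
  change 2 * ν.b j ≤ ν.Λ * ν.l (ν.m j)
  have a := h.b_le_rho hj
  have b := mul_le_mul_of_nonneg_right h.Lρ (h.l0 (ν.m j)).le
  linarith

theorem Mlog' (hj : j < ν.S) : (ν.par C j).Λ ^ C2 ≤ Real.log (ν.par C j).M := by
  refine h.Mlog.trans (Real.log_le_log (h.l0 3) ?_)
  change _ ≤ 2 * ν.b j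
  linarith [h.l3_le_b hj.le, h.b_one j]

theorem MD' (hj : j < ν.S) :
    Real.exp ((ν.par C j).M + (ν.par C j).Lp) * (ν.par C j).Λ ^ C2 ≤ (ν.fam j).D := by
  change Real.exp (2 * ν.b j + ν.b j) * ν.Λ ^ C2 ≤ Real.exp ν.LD
  have a : ν.Λ ^ C2 ≤ Real.exp (ν.b j) := by
    linarith [h.t_pow hj, Real.add_one_le_exp (ν.b j)]
  refine (mul_le_mul_of_nonneg_left a (Real.exp_pos _).le).trans ?_
  rw [← Real.exp_add]
  exact Real.exp_le_exp.2 (by linarith [h.ten_b hj.le, h.b_one j])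

theorem aM' : (ν.par C j).a ≤ (ν.par C j).M := by
  change ν.eL * ν.l (ν.m j) ≤ 2 * ν.b j
  linarith [h.top_le_b j, h.b_one j]

theorem Lm' (hj : j < ν.S) : ((ν.fam j).m : ℝ) ≤ (ν.par C j).Λ :=
  le_trans (by exact_mod_cast h.m_le hj.le) h.Lm

end NuOk

end Pool.Agent.P.MP_a14ce1_nt.Fu.Pa
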