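import Pool.Agent.P.MP_a14ce1_nt.Fu.St

/-! The recursion for the densities σ and the lengths m0. -/

open Finset

namespace Pool.Agent.P.MP_a14ce1_nt.Fu.St

namespace Sig

/-- the exponent of the density -/
noncomputable def uu (Fq : ℕ → ℝ) (u0 u1 u2 g : ℝ) (t w : ℕ) : ℝ :=
  if t = 0 then u0 else if t = 1 then u1 else
    u2 * g ^ (t - 2 - w) - ∑ s ∈ Icc 3 t, Real.log (2 * Fq s)

theorem step {n : ℕ} {ρ Γ u lo hi : ℝ} (hρ : 1 ≤ ρ) (hΓ : 0 < Γ) (h1 : lo ≤ u) (h2 : u ≤ hi)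
    (hA : 2 * ρ * Γ ≤ Real.exp (lo / 2)) (hB : 2 * ρ * Real.exp (hi / 2) ≤ n) (h0 : 0 ≤ lo) :
    1 ≤ ⌈Γ * Real.exp (-u) * n⌉₊ ∧ ⌈Γ * Real.exp (-u) * n⌉₊ ≤ n ∧
      Γ * Real.exp (-u) ≤ (⌈Γ * Real.exp (-u) * n⌉₊ : ℝ) / n ∧
      ρ * ((⌈Γ * Real.exp (-u) * n⌉₊ : ℝ) / n) ≤ Real.exp (-u / 2) := by
  have hn : (0 : ℝ) < n := lt_of_lt_of_le (by positivity) hB
  have e1 : Real.exp (lo / 2) ≤ Real.exp (u / 2) := Real.exp_le_exp.2 (by linarith)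
  have e2 : Real.exp (u / 2) ≤ Real.exp (hi / 2) := Real.exp_le_exp.2 (by linarith)
  have e3 : Real.exp (u / 2) * Real.exp (-u) = Real.exp (-u / 2) := by
    rw [← Real.exp_add]; congr 1; ring
  have e4 : Real.exp (u / 2) * Real.exp (-u / 2) = 1 := by
    rw [← Real.exp_add, ← Real.exp_zero]; congr 1; ring
  have e5 : Real.exp (-u / 2) ≤ 1 := Real.exp_le_one_iff.2 (by linarith)
  have p1 := Real.exp_pos (-u)
  have p2 := Real.exp_pos (-u / 2)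
  have k1 : 2 * ρ * (Γ * Real.exp (-u)) ≤ Real.exp (-u / 2) := by
    rw [← e3, ← mul_assoc]
    exact mul_le_mul_of_nonneg_right (hA.trans e1) p1.le
  have k2 : 2 * ρ ≤ Real.exp (-u / 2) * n := by
    have : 2 * ρ * Real.exp (u / 2) ≤ n :=
      (mul_le_mul_of_nonneg_left e2 (by positivity)).trans hB
    calc 2 * ρ = 2 * ρ * Real.exp (u / 2) * Real.exp (-u / 2) := by rw [mul_assoc _ _ (Real.exp _), e4, mul_one]
      _ ≤ n * Real.exp (-u / 2) := mul_le_mul_of_nonneg_right this p2.le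
      _ = _ := mul_comm _ _
  have k3 : 0 < Γ * Real.exp (-u) := by positivity
  have k4 : Γ * Real.exp (-u) ≤ 1 := by nlinarith
  refine ⟨Nat.ceil_pos.2 (by positivity), Nat.ceil_le.2 (by nlinarith),
    (le_div_iff₀ hn).2 (Nat.le_ceil _), ?_⟩
  have k5 := (Nat.ceil_lt_add_one (a := Γ * Real.exp (-u) * n) (by positivity)).le
  rw [← mul_div_assoc, div_le_iff₀ hn]
  have k6 := mul_le_mul_of_nonneg_left k5 (by linarith : 0 ≤ ρ)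
  have k7 := mul_le_mul_of_nonneg_right k1 hn.le
  nlinarith

theorem pow_step {x u : ℝ} {J : ℕ} (h0 : 0 ≤ x) (h : x ≤ Real.exp (-u / 2)) :
    Real.exp (-u) * x ^ J ≤ Real.exp (-(u + J * u / 2)) := by
  have : x ^ J ≤ Real.exp (-u / 2) ^ J := pow_le_pow_left₀ h0 h J
  rw [← Real.exp_nat_mul] at this
  calc _ ≤ Real.exp (-u) * Real.exp (J * (-u / 2)) :=
        mul_le_mul_of_nonneg_left this (Real.exp_pos _).le
    _ = _ := by rw [← Real.exp_add]; congr 1; ring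

end Sig

open Sig in
/-- the recursion on plain sequences -/
theorem sig_rec (m W : ℕ) (Fq ρ Γ Hd : ℕ → ℝ) (J nR : ℕ → ℕ) (s0 u0 u1 u2 g η : ℝ) (hm : 2 ≤ m)
    (hF : ∀ t, 1 ≤ Fq t) (hρ : ∀ t ∈ Icc 1 m, 1 ≤ ρ t) (hΓ : ∀ t < m, 0 < Γ t)
    (hH : ∀ s ∈ Icc 1 m, 1 ≤ Hd s)
    (p0 : 0 ≤ u0) (p1 : 0 ≤ u1) (p2 : 0 ≤ u2) (hg : 1 ≤ g)
    (hs0 : s0 ≤ Real.exp (-u0)) (hη : Real.exp (-u0 / 2) ≤ η)
    (j1 : 2 * u1 ≤ J 1 * u0) (j2 : 2 * u2 ≤ J 2 * u1) (j3 : ∀ t ∈ Icc 3 m, 4 * g ≤ J t)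
    (a0 : 2 * ρ 1 * Γ 0 ≤ Real.exp (u0 / 2)) (a1 : 2 * ρ 2 * Γ 1 ≤ Real.exp (u1 / 2))
    (a2 : ∀ t, 2 ≤ t → t < m → 2 * ρ (t + 1) * Γ t ≤ Real.exp (u2 / 4))
    (b0 : 2 * ρ 1 * Real.exp (u0 / 2) ≤ nR 1) (b1 : 2 * ρ 2 * Real.exp (u1 / 2) ≤ nR 2)
    (b2 : ∀ t, 2 ≤ t → t < m → 2 * ρ (t + 1) * Real.exp (u2 * g ^ (t - 2) / 2) ≤ nR (t + 1))
    (c1 : Hd 1 * Fq 1 ≤ Real.exp u0) (c2 : Hd 2 * Fq 2 ≤ Real.exp u1)
    (c3 : ∀ s ∈ Icc 3 m, Hd s * Fq s ≤ Real.exp (u2 / 2))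
    (c4 : ∏ s ∈ Icc 3 m, (2 * Fq s) ≤ Real.exp (u2 / 2)) :
    ∃ (σ : ℕ → ℕ → ℝ) (m0 : ℕ → ℕ → ℕ),
      (∀ t ∈ Icc 1 m, ∀ w, 1 ≤ m0 t w ∧ m0 t w ≤ nR t) ∧ (∀ t ≤ 2, ∀ w, m0 t w = m0 t 0) ∧
      ρ 1 * ((m0 1 0 : ℝ) / nR 1) ≤ η ∧ (∀ t w, 0 ≤ σ t w) ∧ (∀ w, s0 ≤ σ 0 w) ∧
      (∀ t < m, ∀ w < W, Fq (t + 1) *
        (σ t w * (ρ (t + 1) * ((m0 (t + 1) w : ℝ) / nR (t + 1))) ^ J (t + 1) +
          if 2 ≤ t ∧ 1 ≤ w then σ t (w - 1) else 0) ≤ σ (t + 1) w) ∧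
      (∀ t < m, ∀ w < W, Γ t * σ t w ≤ (m0 (t + 1) w : ℝ) / nR (t + 1)) ∧
      (∀ s ∈ Icc 1 m, Hd s * (Fq s * σ (s - 1) (W - 1)) ≤ 1) ∧
      σ m (W - 1) ≤ Real.exp (-(u2 * g ^ (m - 2 - (W - 1)) / 2)) := by
  set u := uu Fq u0 u1 u2 g with hu
  have e0 : ∀ w, u 0 w = u0 := fun w => by simp [hu, uu]
  have e1 : ∀ w, u 1 w = u1 := fun w => by simp [hu, uu]
  have e2 : ∀ t, 2 ≤ t → ∀ w, u t w =
      u2 * g ^ (t - 2 - w) - ∑ s ∈ Icc 3 t, Real.log (2 * Fq s) := fun t ht w => by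
    simp only [hu, uu, if_neg (show t ≠ 0 by omega), if_neg (show t ≠ 1 by omega)]
  have l0 : ∀ s, 0 ≤ Real.log (2 * Fq s) := fun s => Real.log_nonneg (by linarith [hF s])
  have x0 : ∀ t, 0 ≤ ∑ s ∈ Icc 3 t, Real.log (2 * Fq s) := fun t => sum_nonneg fun s _ => l0 s
  have x1 : ∀ t ≤ m, ∑ s ∈ Icc 3 t, Real.log (2 * Fq s) ≤ u2 / 2 := fun t ht => by
    refine (sum_le_sum_of_subset_of_nonneg (Icc_subset_Icc_right ht) fun s _ _ => l0 s).trans ?_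
    rw [← Real.log_prod fun s _ => by linarith [hF s]]
    exact (Real.log_le_iff_le_exp (prod_pos fun s _ => by linarith [hF s])).2 c4
  have g1 : ∀ e : ℕ, u2 ≤ u2 * g ^ e := fun e => le_mul_of_one_le_right p2 (one_le_pow₀ hg)
  have lo2 : ∀ t, 2 ≤ t → t ≤ m → ∀ w, u2 * g ^ (t - 2 - w) / 2 ≤ u t w := fun t h2 hm w => by
    rw [e2 t h2]
    linarith [x1 t hm, g1 (t - 2 - w)]
  have hi2 : ∀ t, 2 ≤ t → ∀ w, u t w ≤ u2 * g ^ (t - 2) := fun t h2 w => by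
    rw [e2 t h2]
    have : u2 * g ^ (t - 2 - w) ≤ u2 * g ^ (t - 2) :=
      mul_le_mul_of_nonneg_left (pow_le_pow_right₀ hg (Nat.sub_le _ _)) p2
    linarith [x0 t]
  have st : ∀ t < m, ∀ w, 1 ≤ ⌈Γ t * Real.exp (-u t w) * nR (t + 1)⌉₊ ∧
      ⌈Γ t * Real.exp (-u t w) * nR (t + 1)⌉₊ ≤ nR (t + 1) ∧
      Γ t * Real.exp (-u t w) ≤ (⌈Γ t * Real.exp (-u t w) * nR (t + 1)⌉₊ : ℝ) / nR (t + 1) ∧
      ρ (t + 1) * ((⌈Γ t * Real.exp (-u t w) * nR (t + 1)⌉₊ : ℝ) / nR (t + 1)) ≤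
        Real.exp (-u t w / 2) := by
    intro t ht w
    have r1 := hρ (t + 1) (mem_Icc.2 ⟨by omega, by omega⟩)
    rcases t with _ | _ | t
    · exact step r1 (hΓ _ ht) (e0 w).ge (e0 w).le a0 b0 p0
    · exact step r1 (hΓ _ ht) (e1 w).ge (e1 w).le a1 b1 p1
    · refine step (lo := u2 / 2) r1 (hΓ _ ht) ?_ (hi2 _ (by omega) w) ?_ (b2 _ (by omega) ht)
        (by linarith)
      · linarith [lo2 (t + 1 + 1) (by omega) ht.le w, g1 (t + 1 + 1 - 2 - w)]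
      · rw [show u2 / 2 / 2 = u2 / 4 by ring]
        exact a2 _ (by omega) ht
  have fq : ∀ s ∈ Icc 1 m, ∀ x, Hd s * Fq s ≤ x → Fq s ≤ x := fun s hs x h =>
    (le_mul_of_one_le_left (by linarith [hF s]) (hH s hs)).trans h
  refine ⟨fun t w => Real.exp (-u t w),
    fun t w => if t = 0 then 1 else ⌈Γ (t - 1) * Real.exp (-u (t - 1) w) * nR t⌉₊,
    fun t ht w => ?_, fun t ht w => ?_, ?_, fun _ _ => (Real.exp_pos _).le,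
    fun w => by simpa only [e0] using hs0, fun t ht w _ => ?_, fun t ht w _ => ?_,
    fun s hs => ?_, Real.exp_le_exp.2 (neg_le_neg (lo2 m hm le_rfl _))⟩
  · obtain ⟨h1, h2⟩ := mem_Icc.1 ht
    obtain ⟨t, rfl⟩ : ∃ s, t = s + 1 := ⟨t - 1, by omega⟩
    simp only [if_neg (Nat.succ_ne_zero t), Nat.add_sub_cancel]
    exact ⟨(st t h2 w).1, (st t h2 w).2.1⟩
  · rcases t with _ | _ | _ | t
    · rfl
    · simp only [Nat.zero_add, Nat.sub_self, e0]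
    · simp only [Nat.zero_add, Nat.add_sub_cancel, e1]
    · omega
  · have := (st 0 (by omega) 0).2.2.2
    rw [e0] at this
    simp only [if_neg one_ne_zero, Nat.sub_self, e0]
    exact this.trans hη
  · simp only [if_neg (Nat.succ_ne_zero t), Nat.add_sub_cancel]
    have r1 := hρ (t + 1) (mem_Icc.2 ⟨by omega, by omega⟩)
    have k := pow_step (J := J (t + 1)) (by positivity) (st t ht w).2.2.2
    have f0 : 0 ≤ Fq (t + 1) := by linarith [hF (t + 1)]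
    have low : ∀ a b : ℝ, Fq (t + 1) ≤ Real.exp a → u t w = a → 2 * b ≤ J (t + 1) * a →
        Fq (t + 1) * Real.exp (-(u t w + J (t + 1) * u t w / 2)) ≤ Real.exp (-b) := by
      intro a b h1 h2 h3
      refine (mul_le_mul_of_nonneg_right h1 (Real.exp_pos _).le).trans ?_
      rw [← Real.exp_add, h2]
      exact Real.exp_le_exp.2 (by linarith)
    rcases t with _ | _ | t
    · rw [if_neg (by omega), add_zero, e1]
      exact (mul_le_mul_of_nonneg_left k f0).trans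
        (low u0 u1 (fq 1 (mem_Icc.2 ⟨le_rfl, by omega⟩) _ c1) (e0 w) j1)
    · rw [if_neg (by omega), add_zero]
      refine (mul_le_mul_of_nonneg_left k f0).trans
        ((low u1 u2 (fq 2 (mem_Icc.2 ⟨by omega, hm⟩) _ c2) (e1 w) j2).trans ?_)
      rw [e2 _ le_rfl]
      simp
    · set T := t + 1 + 1 with hT
      have hT2 : 2 ≤ T := by omega
      set y := u2 * g ^ (T + 1 - 2 - w) - ∑ s ∈ Icc 3 T, Real.log (2 * Fq s) with hy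
      have k1 : Real.exp (-(u T w + J (T + 1) * u T w / 2)) ≤ Real.exp (-y) := by
        refine Real.exp_le_exp.2 (neg_le_neg ?_)
        have q1 := lo2 T hT2 ht.le w
        have q2 := j3 (T + 1) (mem_Icc.2 ⟨by omega, ht⟩)
        have q3 : g ^ (T + 1 - 2 - w) ≤ g ^ (T - 2 - w) * g := by
          rw [← pow_succ]
          exact pow_le_pow_right₀ hg (by omega)
        have q4 : 0 ≤ u2 * g ^ (T - 2 - w) := p2.trans (g1 _)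
        have q5 := mul_le_mul_of_nonneg_left q3 p2
        have q6 : 4 * g * (u2 * g ^ (T - 2 - w) / 2) ≤ J (T + 1) * u T w :=
          mul_le_mul q2 q1 (by linarith) (Nat.cast_nonneg _)
        have q7 := x0 T
        nlinarith
      have k2 : (if 2 ≤ T ∧ 1 ≤ w then Real.exp (-u T (w - 1)) else 0) ≤ Real.exp (-y) := by
        split_ifs with h
        · rw [e2 T hT2, show T - 2 - (w - 1) = T + 1 - 2 - w by omega]
        · exact (Real.exp_pos _).le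
      have k3 : Real.exp (-u (T + 1) w) = 2 * Fq (T + 1) * Real.exp (-y) := by
        rw [e2 _ (by omega), sum_Icc_succ_top (by omega),
          ← Real.exp_log (x := 2 * Fq (T + 1)) (by linarith [hF (T + 1)]), ← Real.exp_add,
          Real.log_exp]
        congr 1
        ring
      rw [k3]
      nlinarith [mul_le_mul_of_nonneg_left (add_le_add (k.trans k1) k2) f0]
  · simp only [if_neg (Nat.succ_ne_zero t), Nat.add_sub_cancel]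
    exact (st t ht w).2.2.1
  · obtain ⟨h1, h2⟩ := mem_Icc.1 hs
    have fin : ∀ a : ℝ, Hd s * Fq s ≤ Real.exp a → a ≤ u (s - 1) (W - 1) →
        Hd s * (Fq s * Real.exp (-u (s - 1) (W - 1))) ≤ 1 := by
      intro a h3 h4
      rw [← mul_assoc]
      refine (mul_le_mul_of_nonneg_right h3 (Real.exp_pos _).le).trans ?_
      rw [← Real.exp_add]
      exact Real.exp_le_one_iff.2 (by linarith)
    rcases s with _ | _ | _ | s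
    · omega
    · exact fin _ c1 (e0 _).ge
    · exact fin _ c2 (e1 _).ge
    · refine fin _ (c3 _ (mem_Icc.2 ⟨by omega, h2⟩)) ?_
      linarith [lo2 (s + 1 + 1 + 1 - 1) (by omega) (by omega) (W - 1),
        g1 (s + 1 + 1 + 1 - 1 - 2 - (W - 1))]

/-- the fields of `Hyp` which see σ and m0, except `hidt` -/
structure SigOut (F : Fam) (P : Par) (C : ℕ) : Prop where
  m01 : ∀ t ∈ Icc 1 F.m, ∀ w, 1 ≤ P.m0 t w ∧ P.m0 t w ≤ (F.R t).card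
  m02 : ∀ t ≤ 2, ∀ w, P.m0 t w = P.m0 t 0
  path : (F.r 1 + P.Kx 1 : ℝ) * ph F P 1 0 ≤ P.η
  σn : ∀ t w, 0 ≤ P.σ t w
  σ0 : ∀ w, P.vt * (P.hi 0 / P.lo 0) ≤ P.σ 0 w
  σs : ∀ t < F.m, ∀ w < P.Wn, P.hi (t + 1) / P.lo (t + 1) *
    (P.σ t w * ((F.r (t + 1) + P.Kx (t + 1) : ℝ) * ph F P (t + 1) w) ^ P.J (t + 1) +
      if 2 ≤ t ∧ 1 ≤ w then P.σ t (w - 1) else 0) ≤ P.σ (t + 1) w
  pin : ∀ t < F.m, ∀ w < P.Wn,
    P.Λ ^ C * P.J (t + 1) ^ 2 * (P.La t + 2) * P.σ t w ≤ ph F P (t + 1) w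
  hid : ∀ s ∈ Icc 1 F.m, (C : ℝ) ^ F.m * P.Λ ^ C * (P.La s + 2) *
    (P.hi s / P.lo s * P.σ (s - 1) (P.Wn - 1)) ≤ 1

/-- the recursion on the model; the old values of the fields σ and m0 of P play no role -/
theorem sig_par (F : Fam) (P : Par) (C : ℕ) (u0 u1 u2 g : ℝ) (hm : 2 ≤ F.m) (hC : 1 ≤ C)
    (hΛ : 1 ≤ P.Λ) (La0 : ∀ s, 0 ≤ P.La s) (lo0 : ∀ t, 0 < P.lo t) (lohi : ∀ t, P.lo t ≤ P.hi t)
    (J1 : ∀ t, 1 ≤ P.J t) (r1 : ∀ t ∈ Icc 1 F.m, 1 ≤ F.r t)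
    (p0 : 0 ≤ u0) (p1 : 0 ≤ u1) (p2 : 0 ≤ u2) (hg : 1 ≤ g)
    (hs0 : P.vt * (P.hi 0 / P.lo 0) ≤ Real.exp (-u0)) (hη : Real.exp (-u0 / 2) ≤ P.η)
    (j1 : 2 * u1 ≤ P.J 1 * u0) (j2 : 2 * u2 ≤ P.J 2 * u1) (j3 : ∀ t ∈ Icc 3 F.m, 4 * g ≤ P.J t)
    (a0 : 2 * (F.r 1 + P.Kx 1 : ℝ) * (P.Λ ^ C * P.J 1 ^ 2 * (P.La 0 + 2)) ≤ Real.exp (u0 / 2))
    (a1 : 2 * (F.r 2 + P.Kx 2 : ℝ) * (P.Λ ^ C * P.J 2 ^ 2 * (P.La 1 + 2)) ≤ Real.exp (u1 / 2))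
    (a2 : ∀ t, 2 ≤ t → t < F.m → 2 * (F.r (t + 1) + P.Kx (t + 1) : ℝ) *
      (P.Λ ^ C * P.J (t + 1) ^ 2 * (P.La t + 2)) ≤ Real.exp (u2 / 4))
    (b0 : 2 * (F.r 1 + P.Kx 1 : ℝ) * Real.exp (u0 / 2) ≤ (F.R 1).card)
    (b1 : 2 * (F.r 2 + P.Kx 2 : ℝ) * Real.exp (u1 / 2) ≤ (F.R 2).card)
    (b2 : ∀ t, 2 ≤ t → t < F.m → 2 * (F.r (t + 1) + P.Kx (t + 1) : ℝ) *
      Real.exp (u2 * g ^ (t - 2) / 2) ≤ (F.R (t + 1)).card)
    (c1 : (C : ℝ) ^ F.m * P.Λ ^ C * (P.La 1 + 2) * (P.hi 1 / P.lo 1) ≤ Real.exp u0)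
    (c2 : (C : ℝ) ^ F.m * P.Λ ^ C * (P.La 2 + 2) * (P.hi 2 / P.lo 2) ≤ Real.exp u1)
    (c3 : ∀ s ∈ Icc 3 F.m,
      (C : ℝ) ^ F.m * P.Λ ^ C * (P.La s + 2) * (P.hi s / P.lo s) ≤ Real.exp (u2 / 2))
    (c4 : ∏ s ∈ Icc 3 F.m, (2 * (P.hi s / P.lo s)) ≤ Real.exp (u2 / 2)) :
    ∃ (σ : ℕ → ℕ → ℝ) (m0 : ℕ → ℕ → ℕ), SigOut F { P with σ := σ, m0 := m0 } C ∧
      σ F.m (P.Wn - 1) ≤ Real.exp (-(u2 * g ^ (F.m - 2 - (P.Wn - 1)) / 2)) := by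
  obtain ⟨σ, m0, h1, h2, h3, h4, h5, h6, h7, h8, h9⟩ := sig_rec F.m P.Wn
    (fun t => P.hi t / P.lo t) (fun t => (F.r t + P.Kx t : ℝ))
    (fun t => P.Λ ^ C * P.J (t + 1) ^ 2 * (P.La t + 2))
    (fun s => (C : ℝ) ^ F.m * P.Λ ^ C * (P.La s + 2)) P.J (fun t => (F.R t).card)
    (P.vt * (P.hi 0 / P.lo 0)) u0 u1 u2 g P.η hm
    (fun t => (one_le_div (lo0 t)).2 (lohi t))
    (fun t ht => by
      have : (1 : ℝ) ≤ F.r t := by exact_mod_cast r1 t ht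
      have : (0 : ℝ) ≤ P.Kx t := Nat.cast_nonneg _
      linarith)
    (fun t _ => by
      have : (0 : ℝ) < P.J (t + 1) := by exact_mod_cast J1 (t + 1)
      have := La0 t
      positivity)
    (fun s _ => one_le_mul_of_one_le_of_one_le
      (one_le_mul_of_one_le_of_one_le (one_le_pow₀ (by exact_mod_cast hC)) (one_le_pow₀ hΛ))
      (by linarith [La0 s]))
    p0 p1 p2 hg hs0 hη j1 j2 j3 a0 a1 a2 b0 b1 b2 c1 c2 c3 c4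
  exact ⟨σ, m0, ⟨h1, h2, h3, h4, h5, h6, h7, h8⟩, h9⟩

end Pool.Agent.P.MP_a14ce1_nt.Fu.St
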