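import Pool.Agent.P.MP_a14ce1_nt.Ch.Defs
import Pool.Agent.P.MP_0ad054_nt.An.Lup
import Pool.Agent.P.MP_0ad054_nt.An.Siegel
import Pool.Agent.P.MP_0ad054_nt.An.Zfree
import Pool.Agent.P.MP_0ad054_nt.An.Tauber
import Pool.Agent.P.MP_0ad054_nt.An.SW

/-! The mass of the primes in one window of ratio `1 + ε`, from the prime number theorem. -/

open Finset Filter Topology

namespace Pool.Agent.P.MP_a14ce1_nt.Fu

open Ch (rs pr)
open Pool.Agent.P.MP_0ad054_nt

theorem theta_near {η : ℝ} (hη : 0 < η) : ∀ᶠ x : ℝ in atTop, |Chebyshev.theta x - x| ≤ η * x := by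
  obtain ⟨C, hC, h⟩ := An.pnt An.lup (An.zfree An.lup (An.siegel An.lup)) An.tauber 1
  have t1 : Tendsto (fun x : ℝ => Real.log (⌊x⌋₊ : ℕ)) atTop atTop :=
    Real.tendsto_log_atTop.comp (tendsto_natCast_atTop_atTop.comp tendsto_nat_floor_atTop)
  have t2 := (isLittleO_log_rpow_atTop (r := 1 / 2) (by norm_num)).bound
    (show 0 < η / 6 by positivity)
  filter_upwards [t1.eventually_ge_atTop (3 * C / η), t2, eventually_ge_atTop (2 : ℝ),
    eventually_ge_atTop (3 / η)] with x h1 h2 h3 h4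
  have hX : 2 ≤ ⌊x⌋₊ := Nat.le_floor (by exact_mod_cast h3)
  have h5 := h _ hX
  have e : ∑ n ∈ Icc 1 ⌊x⌋₊, ArithmeticFunction.vonMangoldt n = Chebyshev.psi x := by
    rw [Chebyshev.psi, ← Icc_add_one_left_eq_Ioc, zero_add]
  have h6 := Chebyshev.abs_psi_sub_theta_le_sqrt_mul_log (x := x) (by linarith)
  have f1 : (⌊x⌋₊ : ℝ) ≤ x := Nat.floor_le (by linarith)
  have f2 := Nat.lt_floor_add_one x
  have hl : 0 < 3 * C / η := by positivity
  have h7 : C * ⌊x⌋₊ / Real.log (⌊x⌋₊ : ℕ) ^ 1 ≤ η / 3 * x := by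
    rw [pow_one, div_le_iff₀ (hl.trans_le h1)]
    rw [div_le_iff₀ hη] at h1
    nlinarith [mul_le_mul_of_nonneg_left f1 hC.le, mul_le_mul_of_nonneg_left h1 (by linarith : 0 ≤ x)]
  have h8 : 2 * √x * Real.log x ≤ η / 3 * x := by
    rw [Real.norm_of_nonneg (Real.log_nonneg (by linarith)),
      Real.norm_of_nonneg (by positivity), ← Real.sqrt_eq_rpow] at h2
    nlinarith [Real.mul_self_sqrt (by linarith : 0 ≤ x),
      mul_le_mul_of_nonneg_left h2 (Real.sqrt_nonneg x)]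
  rw [div_le_iff₀ hη] at h4
  rw [e] at h5
  rw [abs_le] at h5 h6 ⊢
  constructor <;> nlinarith [h5.1, h5.2, h6.1, h6.2]

theorem mem_pr' {u v : ℝ} (hu : 0 ≤ u) (hv : 0 ≤ v) {p : ℕ} :
    p ∈ pr u v ↔ p.Prime ∧ u < p ∧ (p : ℝ) ≤ v := by
  rw [pr, mem_filter, mem_Ioc, Nat.floor_lt hu, Nat.le_floor_iff hv, and_comm]

theorem sum_log_pr {u v : ℝ} (huv : u ≤ v) :
    ∑ p ∈ pr u v, Real.log p = Chebyshev.theta v - Chebyshev.theta u := by
  rw [Chebyshev.theta, Chebyshev.theta, pr, sum_filter, sum_filter, sum_filter, eq_sub_iff_add_eq',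
    sum_Ioc_consecutive _ (Nat.zero_le _) (Nat.floor_le_floor huv)]

/-- the primes of one short window: a lower bound for every set that contains the open window and
an upper bound for every set of primes inside the closed window -/
theorem short_mass {ε : ℝ} (h0 : 0 < ε) (h1 : ε ≤ 1) : ∃ x0 : ℝ, 2 ≤ x0 ∧ ∀ x, x0 ≤ x →
    ∀ P : Finset ℕ, ((∀ p : ℕ, p.Prime → x < p → p < (1 + ε) * x → p ∈ P) →
      ε / (4 * Real.log x) ≤ rs P) ∧
    ((∀ p ∈ P, p.Prime ∧ x ≤ p ∧ p ≤ (1 + ε) * x) → rs P ≤ 2 * ε / Real.log x) := by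
  obtain ⟨x1, hx1⟩ := eventually_atTop.1 (theta_near (show 0 < ε / 16 by positivity))
  refine ⟨max (2 * x1) 512, le_max_of_le_right (by norm_num), fun x hx P => ?_⟩
  have a1 : 2 * x1 ≤ x := (le_max_left _ _).trans hx
  have a2 : 512 ≤ x := (le_max_right _ _).trans hx
  have hx0 : 0 < x := by linarith
  have hl : 0 < Real.log x := Real.log_pos (by linarith)
  have hεx : 0 < ε * x := by positivity
  have hεx1 : ε * x ≤ x := by nlinarith
  refine ⟨fun hP => ?_, fun hP => ?_⟩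
  · have b1 := abs_le.1 (hx1 x (by linarith))
    have b2 := abs_le.1 (hx1 (x + 3 / 4 * (ε * x)) (by linarith))
    have b3 := sum_log_pr (show x ≤ x + 3 / 4 * (ε * x) by linarith)
    have b4 : 9 * Real.log 2 ≤ Real.log x := by
      rw [show (9 : ℝ) = (9 : ℕ) by norm_num, ← Real.log_pow]
      exact Real.log_le_log (by norm_num) (by linarith)
    have b5 : pr x (x + 3 / 4 * (ε * x)) ⊆ P := fun p hp => by
      rw [mem_pr' hx0.le (by linarith)] at hp
      exact hP p hp.1 hp.2.1 (by linarith [hp.2.2])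
    refine le_trans ?_ (sum_le_sum_of_subset_of_nonneg b5 fun _ _ _ => by positivity)
    calc ε / (4 * Real.log x) = 5 / 9 * (ε * x) / (20 / 9 * x * Real.log x) := by field_simp; ring
      _ ≤ (∑ p ∈ pr x (x + 3 / 4 * (ε * x)), Real.log p) / (20 / 9 * x * Real.log x) := by
        gcongr
        nlinarith [b1.2, b2.1]
      _ ≤ _ := by
        rw [sum_div]
        refine sum_le_sum fun p hp => ?_
        rw [mem_pr' hx0.le (by linarith)] at hp
        have c0 : (0 : ℝ) < p := by linarith [hp.2.1]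
        have c1 : (p : ℝ) ≤ 2 * x := by linarith [hp.2.2]
        have c2 := Real.log_le_log c0 c1
        rw [Real.log_mul two_ne_zero hx0.ne'] at c2
        rw [div_le_div_iff₀ (by positivity) c0]
        calc Real.log p * p ≤ 10 / 9 * Real.log x * (2 * x) := by
              gcongr
              linarith
          _ = _ := by ring
  · have b1 := abs_le.1 (hx1 (x - 1 / 4 * (ε * x)) (by linarith))
    have b2 := abs_le.1 (hx1 (x + ε * x) (by linarith))
    have b3 := sum_log_pr (show x - 1 / 4 * (ε * x) ≤ x + ε * x by linarith)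
    have b5 : P ⊆ pr (x - 1 / 4 * (ε * x)) (x + ε * x) := fun p hp => by
      rw [mem_pr' (by linarith) (by linarith)]
      exact ⟨(hP p hp).1, by linarith [(hP p hp).2.1], by linarith [(hP p hp).2.2]⟩
    have b6 := sum_le_sum_of_subset_of_nonneg b5 fun p _ _ => Real.log_natCast_nonneg p
    calc rs P ≤ (∑ p ∈ P, Real.log p) / (x * Real.log x) := by
          rw [sum_div]
          refine sum_le_sum fun p hp => ?_
          have c1 := (hP p hp).2.1
          rw [div_le_div_iff₀ (by linarith) (by positivity), one_mul, mul_comm]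
          gcongr
      _ ≤ 2 * (ε * x) / (x * Real.log x) := by
          gcongr
          nlinarith [b1.1, b2.2]
      _ = _ := by field_simp

/-- the same for the primes `p` with `c p` in the window `[D, (1 + ε) D)` -/
theorem win_mass {ε : ℝ} (h0 : 0 < ε) (h1 : ε ≤ 1) : ∃ x0 : ℝ, 2 ≤ x0 ∧ ∀ D c : ℝ, 0 < c →
    x0 * c ≤ D → ∀ P : Finset ℕ,
    ((∀ p : ℕ, p.Prime → D < c * p → c * p < (1 + ε) * D → p ∈ P) →
      ε / (4 * Real.log (D / c)) ≤ rs P) ∧
    ((∀ p ∈ P, p.Prime ∧ D ≤ c * p ∧ c * p ≤ (1 + ε) * D) → rs P ≤ 2 * ε / Real.log (D / c)) := by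
  obtain ⟨x0, h2, h⟩ := short_mass h0 h1
  refine ⟨x0, h2, fun D c hc hD P => ?_⟩
  obtain ⟨a, b⟩ := h (D / c) ((le_div_iff₀ hc).2 hD) P
  refine ⟨fun hP => a fun p hp h3 h4 => hP p hp ((div_lt_iff₀' hc).1 h3) ?_,
    fun hP => b fun p hp => ⟨(hP p hp).1, (div_le_iff₀' hc).2 (hP p hp).2.1, ?_⟩⟩
  · rwa [← mul_div_assoc, lt_div_iff₀' hc] at h4
  · rw [← mul_div_assoc, le_div_iff₀' hc]
    exact (hP p hp).2.2

end Pool.Agent.P.MP_a14ce1_nt.Fu
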