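import Pool.Agent.P.MP_a14ce1_nt.Fu.StB

/-! Sections 4 and 5, tools: independence of the weights, distinct sites, the diagonal. -/

open Finset

namespace Pool.Agent.P.MP_a14ce1_nt.Fu.St.Role

open Ch (pv mu rs lam)
open Ch.Main (Tn)

variable {F : Fam} {P : Par}

theorem pi1_le (F : Fam) : F.pi1 ≤ F.LL := by
  have e : ∀ T ⊆ F.RR, (if T.card = 1 then (1 : ℝ) else 0) ≤
      ∑ p ∈ F.RR, if p ∈ T then (1 : ℝ) else 0 := fun T hT => by
    have h0 : ∀ p ∈ F.RR, (0 : ℝ) ≤ if p ∈ T then (1 : ℝ) else 0 := fun p _ => by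
      split_ifs <;> norm_num
    split_ifs with h1
    · obtain ⟨p, rfl⟩ := card_eq_one.1 h1
      refine le_trans ?_ (single_le_sum h0 (hT (mem_singleton_self p)))
      simp
    · exact sum_nonneg h0
  rw [Fam.pi1, EG_eq]
  refine (Em_mono e).trans ?_
  rw [Em_sum, Fam.LL, rs]
  exact (sum_congr rfl fun p hp => Em_ind_mem hp).le

/-- the weight as a function of the set of primes -/
noncomputable def Wf (F : Fam) (p : ℕ) (A : Finset ℕ) : ℝ :=
  F.wk (A ∩ F.U) * F.ka p (A ∩ F.RR.erase p) * F.ze (A ∩ F.HH)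

theorem TT_erase (h : Hyp0 F P) {p : ℕ} (hp : p ∈ F.RR) :
    F.TT.erase p = F.U ∪ F.RR.erase p ∪ F.HH := by
  have a : p ∉ F.U := fun e => disjoint_left.1 h.dUR e hp
  have b : p ∉ F.HH := disjoint_left.1 h.dRH hp
  rw [Fam.TT, erase_union_distrib, erase_union_distrib, erase_eq_of_notMem a, erase_eq_of_notMem b]

theorem W_eq (h : Hyp0 F P) {p : ℕ} (hp : p ∈ F.RR) (n : ℕ) :
    F.W p n = Wf F p (Tn (F.TT.erase p) n) := by
  have e : dp (F.RR.erase p) n = (dp F.RR n).erase p := by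
    ext q; simp only [mem_dp, mem_erase]; tauto
  rw [Wf, ← dp_eq, TT_erase h hp, dp_inter (subset_union_left.trans subset_union_left),
    dp_inter (subset_union_right.trans subset_union_left), dp_inter subset_union_right, e,
    F.ka_erase, Fam.W]

theorem Wf_nonneg (h : Hyp0 F P) (p : ℕ) (A : Finset ℕ) : 0 ≤ Wf F p A :=
  mul_nonneg (mul_nonneg (h.wk0 _) (h.ka_nonneg _ _)) (h.ze0 _)

theorem Wf_le (h : Hyp0 F P) (p : ℕ) (A : Finset ℕ) : Wf F p A ≤ 2 * P.Λ ^ 2 := by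
  have L := h.L2
  have a := mul_le_mul (h.wkL (A ∩ F.U)) (h.ka_le p (A ∩ F.RR.erase p)) (h.ka_nonneg _ _)
    (by linarith)
  have b := mul_le_mul a (h.zeL (A ∩ F.HH)) (h.ze0 _) (by linarith)
  rw [Wf]; linarith

theorem Em_Wf (h : Hyp0 F P) {p : ℕ} (hp : p ∈ F.RR) : Em (F.TT.erase p) (Wf F p) ≤ 1 := by
  have d1 : Disjoint F.U (F.RR.erase p) := h.dUR.mono_right (erase_subset _ _)
  have d2 : Disjoint (F.U ∪ F.RR.erase p) F.HH :=
    disjoint_union_left.2 ⟨h.dUH, h.dRH.mono_left (erase_subset _ _)⟩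
  have e1 : Em (F.RR.erase p) (F.ka p) = 1 := by
    rw [← Em_inter (erase_subset p F.RR), ← h.Em_ka hp]
    refine Em_congr fun A hA => ?_
    rw [inter_erase, inter_eq_left.2 hA, F.ka_erase]
  have e2 : Wf F p = fun A => (fun B => F.wk (B ∩ F.U) * F.ka p (B ∩ F.RR.erase p))
      (A ∩ (F.U ∪ F.RR.erase p)) * F.ze (A ∩ F.HH) := funext fun A => by
    simp only [Wf, inter_inter subset_union_left, inter_inter subset_union_right]
  rw [TT_erase h hp, e2,
    Em_mul_inter d2 (fun B => F.wk (B ∩ F.U) * F.ka p (B ∩ F.RR.erase p)) F.ze, Em_mul_inter d1, e1, ← EG_eq F.HH, h.Eze, mul_one,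
    mul_one]
  exact (Em_mono fun A _ => h.wkv A).trans h.Evk

theorem per_low {p : ℕ} (L : Finset ℕ) (b : ℕ) (G : Finset ℕ → ℝ) :
    Per (p * pv L) fun n => ind (p ∣ n + b) * G (dp L (n + b)) :=
  (per_dvd (dvd_mul_right _ _) b).comp₂ (per_dp (dvd_mul_left _ _) b) fun x y => ind x * G y

theorem dvd_low (h : Hyp0 F P) {p : ℕ} (hp : p ∈ F.RR) :
    p * pv F.Lo * pv (F.TT.erase p) = pv F.all := by
  rw [h.pv_all', mul_comm p, mul_assoc]
  congr 1
  exact mul_prod_erase F.TT (fun q => q) (F.RR_sub hp)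

theorem low (h : Hyp0 F P) {p : ℕ} (hp : p ∈ F.RR) {Z : ℕ} (hZ : 0 < Z) (hd : pv F.all ∣ Z)
    (b : ℕ) (G : Finset ℕ → ℝ) :
    ex (fun n : Fin Z => ind (p ∣ n + b) * G (dp F.Lo (n + b))) = 1 / p * Em F.Lo G := by
  have h1 : p * pv F.Lo ∣ Z := ((dvd_mul_right _ _).trans (dvd_low h hp).dvd).trans hd
  rw [ex_per_mul hZ (h.cop_cp Subset.rfl (F.RR_sub hp)).symm h1
    ((per_dvd dvd_rfl b).comp ind) ((per_dp dvd_rfl b).comp G),
    ex_ind_dvd hZ ((dvd_mul_right _ _).trans h1), ex_dp h.prLo hZ ((dvd_mul_left _ _).trans h1),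
    EG_eq]

/-- independence of the weights on at most 2k sites -/
theorem wind (h : Hyp0 F P) (hM : 0 < P.Ms)
    (hτ : (2 * P.Λ ^ 2) ^ (2 * F.k) * tauI (2 * F.k) F.N P.Ms ≤ 1)
    {p : ℕ} (hp : p ∈ F.RR) {Z : ℕ} (hZ : 0 < Z) (hd : pv F.all ∣ Z) (b : ℕ)
    {G : Finset ℕ → ℝ} (hG : ∀ A, 0 ≤ G A) {S : Finset ℕ} (hS : ∀ s ∈ S, s < F.N)
    (hc : S.card ≤ 2 * F.k) :
    ex (fun n : Fin Z => ind (p ∣ n + b) * G (dp F.Lo (n + b)) * ∏ s ∈ S, F.W p (n + s))
      ≤ 2 * (1 / p * Em F.Lo G) := by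
  have N1 : (1 : ℝ) ≤ F.N := by exact_mod_cast h.N0'
  have L := h.L2
  have u0 : ∀ n : ℕ, 0 ≤ ind (p ∣ n + b) * G (dp F.Lo (n + b)) := fun n =>
    mul_nonneg (ind_nonneg _) (hG _)
  have k := ind_sites (F.TT.erase p) (fun q hq => h.prT q (mem_of_mem_erase hq)) hM
    (fun q hq => h.TMs q (mem_of_mem_erase hq)) S N1
    (fun s hs => by exact_mod_cast (hS s hs).le) (Q := p * pv F.Lo) (Y := Z)
    (fun q hq => Nat.Coprime.mul_left
      ((Nat.coprime_primes (h.prR p hp) (h.prT q (mem_of_mem_erase hq))).2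
        (ne_of_mem_erase hq).symm) (h.cop_cp Subset.rfl (mem_of_mem_erase hq)))
    hZ ((dvd_low h hp).dvd.trans hd) (fun n => ind (p ∣ n + b) * G (dp F.Lo (n + b)))
    (fun n => per_low F.Lo b G _ _ (by simp [Nat.ModEq])) (fun _ => Wf F p) (2 * P.Λ ^ 2)
    (fun _ _ A _ => Wf_nonneg h p A) fun _ _ A _ => Wf_le h p A
  simp only [abs_of_nonneg (u0 _), ← W_eq h hp] at k
  rw [← ex_avN, ← ex_avN, low h hp hZ hd] at k
  have e0 : 0 ≤ 1 / (p : ℝ) * Em F.Lo G := mul_nonneg (by positivity) (Em_nonneg fun A _ => hG A)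
  have e1 : ∏ _s ∈ S, EM (F.TT.erase p) (Wf F p) ≤ 1 :=
    prod_le_one (fun _ _ => Em_nonneg fun A _ => Wf_nonneg h p A) fun _ _ => Em_Wf h hp
  have e2 : (2 * P.Λ ^ 2) ^ S.card * tauI S.card F.N P.Ms ≤ 1 :=
    le_trans (mul_le_mul (pow_le_pow_right₀ (by nlinarith) hc) (tauI_mono hc N1 hM)
      (tauI_nonneg _ N1 hM) (by positivity)) hτ
  have e3 := mul_le_mul_of_nonneg_left e1 e0
  have e4 := mul_le_mul_of_nonneg_left e2 e0
  have e5 := (abs_le.1 k).2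
  rw [mul_assoc] at e5
  linarith

/-- two different differences of one window give different sites -/
theorem site_ne (h : Hyp0 F P) {d d' x y : ℕ} (hw : F.win d) (hw' : F.win d') (hne : d ≠ d')
    (hx : x ≤ F.k) (hy : y ≤ F.k) (hy0 : y ≠ 0) : x * d ≠ y * d' := by
  intro e
  have D := h.D20
  have e0 := h.e0
  have e1 := h.e1
  have e' : (x : ℝ) * d = y * d' := by exact_mod_cast e
  have hx' : (x : ℝ) ≤ F.k := by exact_mod_cast hx
  have hy' : (y : ℝ) ≤ F.k := by exact_mod_cast hy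
  have x0 : (0 : ℝ) ≤ x := Nat.cast_nonneg _
  have y0 : (0 : ℝ) ≤ y := Nat.cast_nonneg _
  rcases lt_trichotomy x y with a | a | a
  · have a' : (x : ℝ) + 1 ≤ y := by exact_mod_cast a
    have b1 : ((x : ℝ) + 1) * F.D ≤ y * d' := mul_le_mul a' hw'.1 (by linarith) y0
    have b2 : (x : ℝ) * d ≤ x * ((1 + F.ε) * F.D) := mul_le_mul_of_nonneg_left hw.2.le x0
    have b3 : (x : ℝ) * F.ε ≤ 1 / 2 := (mul_le_mul_of_nonneg_right hx' e0.le).trans e1
    nlinarith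
  · subst a
    exact hne (Nat.eq_of_mul_eq_mul_left (Nat.pos_of_ne_zero hy0) e)
  · have a' : (y : ℝ) + 1 ≤ x := by exact_mod_cast a
    have b1 : ((y : ℝ) + 1) * F.D ≤ x * d := mul_le_mul a' hw.1 (by linarith) x0
    have b2 : (y : ℝ) * d' ≤ y * ((1 + F.ε) * F.D) := mul_le_mul_of_nonneg_left hw'.2.le y0
    have b3 : (y : ℝ) * F.ε ≤ 1 / 2 := (mul_le_mul_of_nonneg_right hy' e0.le).trans e1
    nlinarith

theorem win_pos (h : Hyp0 F P) {d : ℕ} (hw : F.win d) : 0 < d := by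
  have : (0 : ℝ) < d := by linarith [h.D20, hw.1]
  exact_mod_cast this

theorem sites_ne (h : Hyp0 F P) {d d' b i0 i j : ℕ} (hw : F.win d) (hw' : F.win d') (hne : d ≠ d')
    (h1 : i0 * d ≤ b) (h2 : i0 * d' ≤ b) (hi0 : i0 < F.k) (hi : i < F.k) (hj : j < F.k)
    (hji : j ≠ i0) : b - i0 * d + i * d ≠ b - i0 * d' + j * d' := by
  intro e
  have p := win_pos h hw
  have p' := win_pos h hw'
  rcases lt_or_gt_of_ne hji with a | a
  · obtain ⟨y, rfl⟩ : ∃ y, i0 = j + (y + 1) := ⟨i0 - j - 1, by omega⟩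
    rcases le_total i (j + (y + 1)) with c | c
    · obtain ⟨x, hx⟩ := Nat.exists_eq_add_of_le c
      refine site_ne h hw hw' hne (x := x) (y := y + 1) (by omega) (by omega) (by omega) ?_
      have e1 : (j + (y + 1)) * d = i * d + x * d := by rw [hx]; ring
      have e2 : (j + (y + 1)) * d' = j * d' + (y + 1) * d' := by ring
      omega
    · obtain ⟨x, rfl⟩ := Nat.exists_eq_add_of_le c
      have e1 : (j + (y + 1) + x) * d = (j + (y + 1)) * d + x * d := by ring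
      have e2 : (j + (y + 1)) * d' = j * d' + y * d' + d' := by ring
      omega
  · obtain ⟨y, rfl⟩ : ∃ y, j = i0 + (y + 1) := ⟨j - i0 - 1, by omega⟩
    rcases le_total i i0 with c | c
    · obtain ⟨x, rfl⟩ := Nat.exists_eq_add_of_le c
      have e1 : (i + x) * d = i * d + x * d := by ring
      have e2 : (i + x + (y + 1)) * d' = (i + x) * d' + y * d' + d' := by ring
      omega
    · obtain ⟨x, rfl⟩ := Nat.exists_eq_add_of_le c
      refine site_ne h hw hw' hne (x := x) (y := y + 1) (by omega) (by omega) (by omega) ?_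
      have e1 : (i0 + x) * d = i0 * d + x * d := by ring
      have e2 : (i0 + (y + 1)) * d' = i0 * d' + (y + 1) * d' := by ring
      omega

/-- the window for the logarithm -/
def wp (x : ℝ) (c : Finset ℕ) : Prop := x ≤ Real.log (pv c) ∧ Real.log (pv c) ≤ x + 1

theorem wp_of_win (h : Hyp0 F P) {c : Finset ℕ} {p : ℕ} (hw : F.win (pv c * p)) :
    wp (Real.log (F.D / p)) c := by
  have d0 := win_pos h hw
  have p0 : (0 : ℝ) < p := by exact_mod_cast Nat.pos_of_mul_pos_left d0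
  have c0 : (0 : ℝ) < pv c := by exact_mod_cast Nat.pos_of_mul_pos_right d0
  have D := h.D20
  have y0 : 0 < F.D / p := div_pos (by linarith) p0
  obtain ⟨a, b⟩ := hw
  push_cast at a b
  refine ⟨Real.log_le_log y0 ((div_le_iff₀ p0).2 a), ?_⟩
  have e : (pv c : ℝ) ≤ F.D / p * (1 + F.ε) := by
    rw [div_mul_eq_mul_div, le_div_iff₀ p0]; linarith
  have e0 := h.e0
  refine (Real.log_le_log c0 e).trans ?_
  rw [Real.log_mul y0.ne' (by linarith)]
  have := Real.log_le_sub_one_of_pos (show 0 < 1 + F.ε by linarith)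
  linarith [h.e4]

theorem win_sum (h : Hyp0 F P) {c : Finset ℕ} (hc : c ⊆ F.Lo) :
    ∑ p ∈ F.RR, ind (F.win (pv c * p)) * (1 / (p : ℝ)) ≤ 64 * (F.LL * F.Pw) := by
  have c0 : (0 : ℝ) < pv c := by exact_mod_cast h.pv_pos hc
  refine le_trans (le_of_eq ?_) ((h.win1 (F.D / pv c)).trans (by nlinarith [h.LP0]))
  rw [rs, sum_filter]
  refine sum_congr rfl fun p _ => ?_
  have : F.win (pv c * p) ↔ (F.D / pv c ≤ (p : ℝ) ∧ (p : ℝ) < (1 + F.ε) * (F.D / pv c)) := by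
    rw [Fam.win, ← mul_div_assoc, div_le_iff₀' c0, lt_div_iff₀' c0]
    push_cast; rfl
  rw [ind_congr this, ind_eq]
  split_ifs <;> simp

theorem sum_win (w : Finset ℕ → ℝ) (x : ℝ) (T : Finset ℕ) :
    ∑ e ∈ T.powerset with x ≤ Real.log (pv e) ∧ Real.log (pv e) ≤ x + 1, w e =
      ∑ e ∈ T.powerset, ind (wp x e) * w e := by
  rw [sum_filter]
  refine sum_congr rfl fun e _ => ?_
  split_ifs with a
  · rw [ind_pos (show wp x e from a), one_mul]
  · rw [ind_neg (show ¬wp x e from a), zero_mul]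

theorem sb_eq (L : Finset ℕ) (w V : Finset ℕ → ℝ) (x : ℝ) :
    sb L w V x = Em L fun T => (∑ e ∈ T.powerset, ind (wp x e) * w e) ^ 2 / V T := by
  simp only [sb, EG_eq, sum_win]

/-- the diagonal -/
theorem diag (h : Hyp0 F P) (hΔ : 0 < P.Δ) (x : ℝ) :
    Em F.Lo (fun T => ∑ c ∈ T.powerset, ind (¬F.Vl 0 T < P.Δ * F.wl 0 c) * ind (wp x c) *
      (F.w c * F.w c / F.V 0 (F.m + 1) T)) ≤ P.Λ ^ 2 / P.l F.m ^ 2 / P.Δ := by
  have m1 : 1 ≤ F.m + 1 := by omega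
  have dj : Disjoint (F.Lv 0 1) (F.Lv 1 (F.m + 1)) := h.dLv le_rfl le_rfl
  have s0 : F.Lv 0 1 ⊆ F.Lo := F.Lv_sub m1
  have s1 : F.Lv 1 (F.m + 1) ⊆ F.Lo := F.Lv_sub le_rfl
  have w0 : ∀ c, F.wh 0 1 c = F.wl 0 c := fun c => by simp [Fam.wh]
  have v0 : ∀ c, F.V 0 1 c = F.Vl 0 c := fun c => by simp [Fam.V]
  rw [Fam.Lo, F.Lv_split (Nat.zero_le 1) m1, Em_union dj]
  have key : ∀ A ⊆ F.Lv 0 1, (Em (F.Lv 1 (F.m + 1)) fun B => ∑ c ∈ (A ∪ B).powerset,
      ind (¬F.Vl 0 (A ∪ B) < P.Δ * F.wl 0 c) * ind (wp x c) *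
      (F.w c * F.w c / F.V 0 (F.m + 1) (A ∪ B))) ≤
      F.V 0 1 A * (P.Λ ^ 2 / P.l F.m ^ 2 / P.Δ) := by
    intro A hA
    have e1 : ∀ B ⊆ F.Lv 1 (F.m + 1), ∑ c ∈ (A ∪ B).powerset,
        ind (¬F.Vl 0 (A ∪ B) < P.Δ * F.wl 0 c) * ind (wp x c) *
        (F.w c * F.w c / F.V 0 (F.m + 1) (A ∪ B)) ≤ ∑ g ∈ A.powerset, F.wh 0 1 g / P.Δ *
          ((∑ e ∈ B.powerset, ind (wp (x - Real.log (pv g)) e) * F.wh 1 (F.m + 1) e) ^ 2 /
            F.V 1 (F.m + 1) B) := by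
      intro B hB
      rw [sum_powerset_union (dj.mono hA hB)]
      refine sum_le_sum fun g hg => ?_
      have hg' := (mem_powerset.1 hg).trans hA
      have nn : ∀ e ∈ B.powerset,
          0 ≤ ind (wp (x - Real.log (pv g)) e) * F.wh 1 (F.m + 1) e := fun e _ =>
        mul_nonneg (ind_nonneg _) (h.wh_nonneg _ _ _)
      refine le_trans ?_ (mul_le_mul_of_nonneg_left (div_le_div_of_nonneg_right
        (sum_sq_le_sq_sum_of_nonneg nn) (h.V_nonneg _ _ _)) (div_nonneg (h.wh_nonneg _ _ _) hΔ.le))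
      rw [sum_div, mul_sum]
      refine sum_le_sum fun e he => ?_
      have he' := (mem_powerset.1 he).trans hB
      have a1 : F.w (g ∪ e) = F.wh 0 1 g * F.wh 1 (F.m + 1) e := by
        rw [Fam.w, Hyp0.wh_eq_wm (Nat.zero_le 1) m1, wm_union dj hg' he']
      have a2 : F.V 0 (F.m + 1) (A ∪ B) = F.V 0 1 A * F.V 1 (F.m + 1) B := by
        rw [F.V_split (Nat.zero_le 1) m1, ← F.V_inter Subset.rfl (A ∪ B),
          ← F.V_inter (a := 1) Subset.rfl (A ∪ B), un_inter_left dj hA hB, un_inter_right dj hA hB]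
      have a3 : F.Vl 0 (A ∪ B) = F.V 0 1 A := by
        rw [← v0, ← F.V_inter Subset.rfl (A ∪ B), un_inter_left dj hA hB]
      have a4 : F.wl 0 (g ∪ e) = F.wh 0 1 g := by
        rw [← w0, ← F.wh_inter Subset.rfl (g ∪ e), un_inter_left dj hg' he']
      have a5 : wp x (g ∪ e) ↔ wp (x - Real.log (pv g)) e := by
        have g0 : (0 : ℝ) < pv g := by exact_mod_cast h.pv_pos (hg'.trans s0)
        have e0 : (0 : ℝ) < pv e := by exact_mod_cast h.pv_pos (he'.trans s1)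
        rw [wp, wp, pv_union (dj.mono hg' he'), Nat.cast_mul, Real.log_mul g0.ne' e0.ne']
        constructor <;> rintro ⟨u, v⟩ <;> constructor <;> linarith
      rw [a1, a2, a3, a4, ind_congr a5]
      have b1 := h.wh_nonneg 0 1 g
      have b2 := h.V_nonneg 0 1 A
      have b3 := h.V_nonneg 1 (F.m + 1) B
      by_cases c1 : F.V 0 1 A < P.Δ * F.wh 0 1 g
      · rw [ind_neg (not_not.2 c1), zero_mul, zero_mul]
        positivity
      by_cases c2 : wp (x - Real.log (pv g)) e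
      · rw [ind_pos c1, ind_pos c2, one_mul, one_mul, one_mul]
        have c3 : F.wh 0 1 g / F.V 0 1 A ≤ 1 / P.Δ := by
          rcases b2.eq_or_lt with c4 | c4
          · rw [← c4, div_zero]; positivity
          · rw [div_le_div_iff₀ c4 hΔ]; linarith [not_lt.1 c1]
        calc _ = F.wh 0 1 g * (F.wh 0 1 g / F.V 0 1 A) *
              (F.wh 1 (F.m + 1) e ^ 2 / F.V 1 (F.m + 1) B) := by ring
          _ ≤ F.wh 0 1 g * (1 / P.Δ) * (F.wh 1 (F.m + 1) e ^ 2 / F.V 1 (F.m + 1) B) := by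
            gcongr
          _ = _ := by ring
      · rw [ind_neg c2]; simp
    refine (Em_mono e1).trans ?_
    rw [Em_sum, ← h.Vt_wh (Nat.zero_le 1) m1 hA, Vt, sum_mul]
    refine sum_le_sum fun g _ => ?_
    rw [Em_mul, ← sb_eq]
    refine (mul_le_mul_of_nonneg_left (h.sb3 _) (div_nonneg (h.wh_nonneg _ _ _) hΔ.le)).trans
      (le_of_eq (by ring))
  refine (Em_mono key).trans ?_
  rw [Em_mul', h.Em_V (Nat.zero_le 1) m1, one_mul]

end Pool.Agent.P.MP_a14ce1_nt.Fu.St.Role
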