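import Pool.Agent.P.MP_a14ce1_nt.Fu.RoleA

/-! Sections 4 and 5: regrouping by the site of one role, masses and the second moment. -/

open Finset

namespace Pool.Agent.P.MP_a14ce1_nt.Fu.St.Role

open Ch (pv mu rs lam)
open Ch.Main (Tn)

variable {F : Fam} {P : Par}

/-- the edge with difference d has the site b in the role i0 -/
def cd (F : Fam) (i0 b d : ℕ) : Prop :=
  F.win d ∧ i0 * d ≤ b ∧ b - i0 * d + (F.k - 1) * d < F.N

noncomputable def PW (F : Fam) (I : Finset ℕ) (p i0 b d n : ℕ) : ℝ :=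
  ∏ i ∈ I, F.W p (n + (b - i0 * d + i * d))

noncomputable def kp (F : Fam) : ℝ := 1 / (F.LL * F.N * F.Pw)

/-- the weight of one edge through the site b, restricted to the event E -/
noncomputable def tm (F : Fam) (E : Finset ℕ → Finset ℕ → Prop) (i0 n b : ℕ) (c : Finset ℕ)
    (p : ℕ) : ℝ :=
  ind (cd F i0 b (pv c * p)) * kp F * (ind (p ∣ n + b) *
    (ind (c ⊆ dp F.Lo (n + b) ∧ E c (dp F.Lo (n + b))) * F.w c) *
      PW F (range F.k) p i0 b (pv c * p) n)

theorem kp_pos (h : Hyp0 F P) : 0 < kp F := by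
  have := h.LL0; have := h.N0; have := h.Pw0
  unfold kp; positivity

theorem PW_nonneg (h : Hyp0 F P) (I : Finset ℕ) (p i0 b d n : ℕ) : 0 ≤ PW F I p i0 b d n :=
  prod_nonneg fun _ _ => h.W_nonneg _ _

theorem PW_le (h : Hyp0 F P) {I : Finset ℕ} (hI : I.card ≤ F.k) (p i0 b d n : ℕ) :
    PW F I p i0 b d n ≤ (2 * P.Λ ^ 2) ^ F.k := by
  have L := h.L2
  refine (prod_le_prod (fun _ _ => h.W_nonneg _ _) fun _ _ => h.W_le _ _).trans ?_
  rw [prod_const]
  exact pow_le_pow_right₀ (by nlinarith) hI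

theorem tm_nonneg (h : Hyp0 F P) (E : Finset ℕ → Finset ℕ → Prop) (i0 n b : ℕ) (c : Finset ℕ)
    (p : ℕ) : 0 ≤ tm F E i0 n b c p :=
  mul_nonneg (mul_nonneg (ind_nonneg _) (kp_pos h).le) (mul_nonneg (mul_nonneg (ind_nonneg _)
    (mul_nonneg (ind_nonneg _) (h.w_nonneg _))) (PW_nonneg h _ _ _ _ _ _))

theorem tm_split (E : Finset ℕ → Finset ℕ → Prop) (i0 n b : ℕ) (c : Finset ℕ) (p : ℕ) :
    tm F (fun _ _ => True) i0 n b c p =
      tm F E i0 n b c p + tm F (fun c T => ¬E c T) i0 n b c p := by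
  unfold tm
  simp only [ind_and]
  by_cases e : E c (dp F.Lo (n + b))
  · rw [ind_pos e, ind_neg (not_not.2 e), ind_pos trivial]; ring
  · rw [ind_neg e, ind_pos e, ind_pos trivial]; ring

theorem shift_le (N e : ℕ) (f g : ℕ → ℝ) (hg : ∀ b, 0 ≤ g b)
    (h : ∀ a, f a ≤ if a + e < N then g (a + e) else 0) :
    ∑ a ∈ range N, f a ≤ ∑ b ∈ range N, g b := by
  refine (sum_le_sum fun a _ => h a).trans ?_
  rw [← sum_filter, ← sum_image (g := fun a => a + e) (f := g) fun x _ y _ e => Nat.add_right_cancel e]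
  refine sum_le_sum_of_subset_of_nonneg (fun b hb => ?_) fun b _ _ => hg b
  obtain ⟨a, ha, rfl⟩ := mem_image.1 hb
  exact mem_range.2 (mem_filter.1 ha).2

theorem regroup (h : Hyp0 F P) {Z : ℕ} {s : ℕ → ℝ} {x : ℕ → Fin Z → ℕ → ℝ} {i0 : ℕ}
    (hs : ∀ d, |s d| ≤ 1) (hi : i0 < F.k) (hx : ∀ i n b, i ≠ i0 → |x i n b| ≤ 1) :
    |F.Tf Z s x| ≤ ex fun n : Fin Z => ∑ b ∈ range F.N,
      (∑ c ∈ F.Lo.powerset, ∑ p ∈ F.RR, tm F (fun _ _ => True) i0 n b c p) * |x i0 n b| := by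
  refine (abs_ex_le _).trans (ex_mono fun n => ?_)
  simp only [sum_mul]
  rw [sum_comm, sum_comm (s := range F.N)]
  refine (abs_sum_le_sum_abs _ _).trans (sum_le_sum fun c hc => ?_)
  rw [sum_comm, sum_comm (s := range F.N)]
  refine (abs_sum_le_sum_abs _ _).trans (sum_le_sum fun p _ => ?_)
  refine (abs_sum_le_sum_abs _ _).trans (shift_le _ (i0 * (pv c * p)) _ _
    (fun b => mul_nonneg (tm_nonneg h _ _ _ _ _ _) (abs_nonneg _)) fun a => ?_)
  have hc' := mem_powerset.1 hc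
  set d := pv c * p with hd
  by_cases e : d ∣ n + a ∧ F.win d ∧ a + (F.k - 1) * d < F.N
  · have e1 : i0 * d ≤ (F.k - 1) * d := Nat.mul_le_mul_right d (by omega)
    have e2 : d ∣ n + (a + i0 * d) := by
      rw [← add_assoc]; exact e.1.add (dvd_mul_left _ _)
    have e3 : cd F i0 (a + i0 * d) d :=
      ⟨e.2.1, Nat.le_add_left _ _, by rw [Nat.add_sub_cancel]; exact e.2.2⟩
    have e4 : c ⊆ dp F.Lo (n + (a + i0 * d)) := fun q hq =>
      mem_dp.2 ⟨hc' hq, ((dvd_pv hq).trans (dvd_mul_right _ _)).trans e2⟩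
    rw [if_pos e, if_pos (by omega), tm, ← hd, ind_pos e3, ind_pos ((dvd_mul_left _ _).trans e2),
      ind_pos ⟨e4, trivial⟩, PW, Nat.add_sub_cancel, prod_mul_distrib, abs_mul, abs_mul, abs_mul,
      abs_prod, abs_prod]
    have a0 : 0 ≤ F.w c / (F.LL * F.N * F.Pw) := by
      rw [div_eq_mul_one_div]; exact mul_nonneg (h.w_nonneg c) (kp_pos h).le
    have a1 : ∏ i ∈ range F.k, |x i n (a + i * d)| ≤ |x i0 n (a + i0 * d)| := by
      rw [← mul_prod_erase _ _ (mem_range.2 hi)]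
      exact mul_le_of_le_one_right (abs_nonneg _) (prod_le_one (fun _ _ => abs_nonneg _)
        fun i hi => hx i n _ (ne_of_mem_erase hi))
    have a2 : ∏ i ∈ range F.k, |F.W p (n + (a + i * d))| =
        ∏ i ∈ range F.k, F.W p (n + (a + i * d)) :=
      prod_congr rfl fun i _ => abs_of_nonneg (h.W_nonneg _ _)
    have a3 : 0 ≤ ∏ i ∈ range F.k, F.W p (n + (a + i * d)) :=
      prod_nonneg fun _ _ => h.W_nonneg _ _
    rw [abs_of_nonneg a0, a2]
    calc _ ≤ F.w c / (F.LL * F.N * F.Pw) * 1 * ((∏ i ∈ range F.k, F.W p (n + (a + i * d))) *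
          |x i0 n (a + i0 * d)|) := by
          gcongr
          exact hs d
      _ = _ := by unfold kp; ring
  · rw [if_neg e, abs_zero]
    split_ifs
    · exact mul_nonneg (tm_nonneg h _ _ _ _ _ _) (abs_nonneg _)
    · exact le_rfl

/-- the sites of an edge -/
def st (I : Finset ℕ) (i0 b d : ℕ) : Finset ℕ := I.image fun i => b - i0 * d + i * d

theorem PW_eq (h : Hyp0 F P) {d : ℕ} (hw : F.win d) (I : Finset ℕ) (p i0 b n : ℕ) :
    PW F I p i0 b d n = ∏ s ∈ st I i0 b d, F.W p (n + s) := by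
  rw [st, prod_image fun x _ y _ e =>
    Nat.eq_of_mul_eq_mul_right (win_pos h hw) (Nat.add_left_cancel e), PW]

theorem st_lt {i0 b d : ℕ} (hc : cd F i0 b d) {I : Finset ℕ} (hI : I ⊆ range F.k) :
    ∀ s ∈ st I i0 b d, s < F.N := by
  intro s hs
  obtain ⟨i, hi, rfl⟩ := mem_image.1 hs
  have := mem_range.1 (hI hi)
  have e1 : i * d ≤ (F.k - 1) * d := Nat.mul_le_mul_right d (by omega)
  have := hc.2.2
  omega

theorem st_card {I : Finset ℕ} (hI : I ⊆ range F.k) (i0 b d : ℕ) : (st I i0 b d).card ≤ F.k :=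
  card_image_le.trans ((card_le_card hI).trans (card_range _).le)

theorem sum_Em (L : Finset ℕ) (φ : Finset ℕ → Finset ℕ → ℝ) :
    ∑ c ∈ L.powerset, (Em L fun T => ind (c ⊆ T) * φ c T) =
      Em L fun T => ∑ c ∈ T.powerset, φ c T := by
  rw [← Em_sum]
  refine Em_congr fun T hT => ?_
  rw [sum_sub_eq hT]
  refine sum_congr rfl fun c _ => ?_
  rw [ind_eq]
  split_ifs <;> simp

/-- the mass of an event at the site of one role -/
theorem mass (h : Hyp0 F P) (hM : 0 < P.Ms)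
    (hτ : (2 * P.Λ ^ 2) ^ (2 * F.k) * tauI (2 * F.k) F.N P.Ms ≤ 1) {Z : ℕ} (hZ : 0 < Z)
    (hd : pv F.all ∣ Z) (E : Finset ℕ → Finset ℕ → Prop) (i0 : ℕ) :
    ex (fun n : Fin Z => ∑ b ∈ range F.N, ∑ c ∈ F.Lo.powerset, ∑ p ∈ F.RR, tm F E i0 n b c p)
      ≤ 128 * F.Pn E := by
  have k0 := kp_pos h
  have e1 : ∀ b, ∀ c ∈ F.Lo.powerset, ∑ p ∈ F.RR, ex (fun n : Fin Z => tm F E i0 n b c p) ≤
      128 / F.N * Em F.Lo fun T => ind (c ⊆ T) * (ind (E c T) * F.w c) := by
    intro b c hc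
    have g0 : ∀ T, 0 ≤ ind (c ⊆ T ∧ E c T) * F.w c := fun T =>
      mul_nonneg (ind_nonneg _) (h.w_nonneg c)
    have g1 : 0 ≤ Em F.Lo fun T => ind (c ⊆ T ∧ E c T) * F.w c := Em_nonneg fun T _ => g0 T
    have e2 : ∀ p ∈ F.RR, ex (fun n : Fin Z => tm F E i0 n b c p) ≤
        ind (F.win (pv c * p)) * (1 / (p : ℝ)) *
          (2 * kp F * Em F.Lo fun T => ind (c ⊆ T ∧ E c T) * F.w c) := by
      intro p hp
      unfold tm
      rw [ex_mul]
      by_cases e : cd F i0 b (pv c * p)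
      · rw [ind_pos e, ind_pos e.1]
        simp only [PW_eq h e.1]
        have := wind h hM hτ hp hZ hd b g0 (st_lt e Subset.rfl)
          ((st_card Subset.rfl i0 b (pv c * p)).trans (by omega))
        refine (mul_le_mul_of_nonneg_left this (by positivity)).trans (le_of_eq (by ring))
      · rw [ind_neg e, zero_mul, zero_mul]
        have := ind_nonneg (F.win (pv c * p))
        positivity
    refine (sum_le_sum e2).trans ?_
    rw [← sum_mul]
    refine (mul_le_mul_of_nonneg_right (win_sum h (mem_powerset.1 hc)) (by positivity)).trans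
      (le_of_eq ?_)
    have := h.LL0; have := h.N0; have := h.Pw0
    simp only [ind_and, mul_assoc]
    generalize (Em F.Lo fun T => ind (c ⊆ T) * (ind (E c T) * F.w c)) = y
    unfold kp
    field_simp
    ring
  simp only [ex_sum]
  refine (sum_le_sum fun b _ => sum_le_sum (e1 b)).trans (le_of_eq ?_)
  rw [sum_const, card_range, nsmul_eq_mul, ← mul_sum, sum_Em, ← mul_assoc,
    mul_div_cancel₀ _ h.N0.ne', Fam.Pn, EG_eq]
  congr 1
  refine Em_congr fun T _ => sum_congr rfl fun c _ => ?_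
  split_ifs with a
  · rw [ind_pos a, one_mul]
  · rw [ind_neg a, zero_mul]

end Pool.Agent.P.MP_a14ce1_nt.Fu.St.Role
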