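import Pool.Agent.P.MP_a14ce1_nt.Fu.St
import Pool.Agent.P.MP_a14ce1_nt.Fu.S7St

/-! The data of section 7 on the model. -/

open Finset

namespace Pool.Agent.P.MP_a14ce1_nt.Fu.St

open Ch (pv lam)

/-- the cofactors that meet the window -/
noncomputable def CC7 (F : Fam) : Finset (Finset ℕ) :=
  open Classical in F.Lo.powerset.filter fun c => ∃ p ∈ F.RR, F.win (pv c * p)

/-- the weight of the final function -/
noncomputable def W7 (F : Fam) (Om : ℝ) (S : Finset ℕ) : ℝ :=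
  F.wk (S ∩ F.U) * (F.zj (S ∩ F.RR) * F.ze (S ∩ F.HH)) / Om

/-- the data of section 7 -/
noncomputable def d7 (F : Fam) (Om : ℝ) {A : Type} (dt : ℕ → A) (Z : ℕ) (C0 : ℕ → Finset ℕ)
    (s : ℕ → ℝ) : D7 (Finset ℕ) Z where
  N := F.N
  HH := gl Z F.Qk0 dt C0
  CC := CC7 F
  cv := pv
  wh := F.w
  Yc c := ⌈F.D / pv c⌉₊ - 1
  P c := F.RR.filter fun p => F.win (pv c * p)
  th c p := s (pv c * p)
  F n b := F.wk (dp F.U (n + b)) * pred Z F.Qk0 dt C0 F.z0 lam n b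
  w m := F.wk (dp F.U m)
  f m := if m = 0 then 0 else W7 F Om (dp F.TT m) * lam m

theorem mem_CC7 {F : Fam} {c : Finset ℕ} :
    c ∈ CC7 F ↔ c ⊆ F.Lo ∧ ∃ p ∈ F.RR, F.win (pv c * p) := by
  simp only [CC7, mem_filter, mem_powerset]

end Pool.Agent.P.MP_a14ce1_nt.Fu.St
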