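import Pool.Agent.P.MP_a14ce1_nt.Fu.S7St
import Pool.Agent.P.MP_a14ce1_nt.Fu.IndN
import Pool.Agent.P.MP_a14ce1_nt.Fu.Crt

/-! Near independence along the cells. -/

open Finset

namespace Pool.Agent.P.MP_a14ce1_nt.Fu

open Ch (pv)
open Ch.Main (Tn)

theorem bs_add {c : ℕ} (hc : 0 < c) (r m : ℕ) : bs c (r + c * m) = bs c r + m := by
  unfold bs
  rw [← Nat.add_mul_div_left _ _ hc]
  congr 1
  omega

/-- a periodic function has the same mean at the base points of the cells -/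
theorem ex_bs {g : ℕ → ℝ} {q c Z : ℕ} (hg : ∀ n, g (n + q) = g n) (hZ : 0 < Z) (hd : c * q ∣ Z) :
    ex (fun n : Fin Z => g (bs c n)) = ex fun n : Fin Z => g n := by
  obtain ⟨t, rfl⟩ := hd
  have hc : 0 < c := Nat.pos_of_ne_zero fun h => by simp [h] at hZ
  have h1 : c * q * t / c = q * t := by rw [mul_assoc, Nat.mul_div_cancel_left _ hc]
  have h2 : 0 < q * t := Nat.pos_of_ne_zero fun h => by simp [mul_assoc, h] at hZ
  have : Nonempty (Fin c) := ⟨⟨0, hc⟩⟩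
  rw [ex_fin_dvd (P := c) ⟨q * t, mul_assoc _ _ _⟩ fun n => g (bs c n),
    ← ex_const (Ω := Fin c) (ex fun n : Fin (c * q * t) => g n)]
  refine ex_congr fun r => ?_
  simp only [bs_add hc]
  have := ex_per hg (bs c r) 1 (Nat.coprime_one_left q) (M := c * q * t / c) (M' := c * q * t)
    (h1 ▸ dvd_mul_right _ _) (h1 ▸ h2) ((dvd_mul_left q c).mul_right t) hZ
  simpa only [one_mul] using this

theorem Tn_per (TT : Finset ℕ) (n : ℕ) : Tn TT (n + pv TT) = Tn TT n :=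
  filter_congr fun _ hq => (Nat.dvd_add_iff_left (dvd_prod_of_mem _ hq)).symm

/-- the field `ind` of the hypotheses of section 7 -/
theorem ind_bs (TT : Finset ℕ) (hT : ∀ q ∈ TT, q.Prime) {M N Om : ℝ} (hM0 : 0 < M)
    (hM : ∀ q ∈ TT, M ≤ q) (hN1 : 1 ≤ N) (hOm : 1 ≤ Om) {c Z j : ℕ} (hZ : 0 < Z)
    (hd : c * pv TT ∣ Z) (W : Finset ℕ → ℝ) (h0 : ∀ A ⊆ TT, 0 ≤ W A) (hK : ∀ A ⊆ TT, W A ≤ Om)
    (S : Finset ℕ) (hS : ∀ m ∈ S, (m : ℝ) ≤ N) (hj : S.card ≤ j) :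
    |(ex fun n : Fin Z => ∏ m ∈ S, W (Tn TT (bs c n + m))) - EM TT W ^ S.card| ≤
      Om ^ j * tauI j N M := by
  rw [ex_bs (g := fun n => ∏ m ∈ S, W (Tn TT (n + m))) (q := pv TT)
    (fun n => by simp only [add_right_comm n (pv TT), Tn_per]) hZ hd,
    ex_avN Z fun n => ∏ m ∈ S, W (Tn TT (n + m))]
  have h := ind_sites TT hT hM0 hM S hN1 hS (Q := 1) (fun q _ => Nat.coprime_one_left q) hZ
    (by simpa using (dvd_mul_left _ _).trans hd) (fun _ => 1) (fun _ => rfl) (fun _ => W) Om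
    (fun _ _ => h0) fun _ _ => hK
  have y0 : (Z : ℝ) ≠ 0 := by exact_mod_cast hZ.ne'
  have e : avN Z (fun _ => 1) = 1 := by simp [avN, y0]
  simp only [one_mul, abs_one, e, prod_const] at h
  exact h.trans (mul_le_mul (pow_le_pow_right₀ hOm hj) (tauI_mono hj hN1 hM0)
    (tauI_nonneg _ hN1 hM0) (by positivity))

end Pool.Agent.P.MP_a14ce1_nt.Fu
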