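import Pool.Agent.P.MP_a14ce1_nt.Fu.S7Def
import Pool.Agent.P.MP_a14ce1_nt.Fu.S7Ind

/-! The data of section 7 for a family: geometry of the window, the free form. -/

open Finset

namespace Pool.Agent.P.MP_a14ce1_nt.Fu.St

open Ch (pv rs lam)

noncomputable def Fam.Y7 (F : Fam) (c : Finset ℕ) : ℕ := ⌈F.D / pv c⌉₊ - 1

noncomputable def Fam.P7 (F : Fam) (c : Finset ℕ) : Finset ℕ :=
  F.RR.filter fun p => F.win (pv c * p)

variable {F : Fam} {P : Par}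

theorem CC7_sub {c : Finset ℕ} (hc : c ∈ CC7 F) : c ⊆ F.Lo := (mem_CC7.1 hc).1

namespace Hyp0

theorem g7_pos (h : Hyp0 F P) {c : Finset ℕ} (hc : c ⊆ F.Lo) : 0 < pv c :=
  Ch.Main.pv_pos fun q hq => h.pr q (mem_union_left _ (hc hq))

theorem g7_w (h : Hyp0 F P) (c : Finset ℕ) : 0 ≤ F.w c := by
  unfold Fam.w Fam.wh Fam.wl
  refine prod_nonneg fun t _ => mul_nonneg ?_ ?_
  · have : 0 ≤ F.B t := zero_le_one.trans (h.B1 t)
    exact div_nonneg (by positivity) (prod_nonneg fun q _ => by positivity)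
  · exact div_nonneg (by split_ifs <;> norm_num) (sum_nonneg fun _ _ => by positivity)

theorem g7_D (h : Hyp0 F P) : 20 * Real.exp (2 * P.Lp) ≤ F.D := by
  have h1 : (2 : ℝ) ≤ F.k := by exact_mod_cast h.k2
  have := h.Dbig
  nlinarith [Real.exp_pos (2 * P.Lp)]

theorem g7_D20 (h : Hyp0 F P) : 20 ≤ F.D := by
  have := h.g7_D
  have := Real.one_le_exp (show 0 ≤ 2 * P.Lp by linarith [h.Lp1])
  linarith

theorem g7_e (h : Hyp0 F P) : F.ε ≤ 1 / 4 := by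
  have h1 : (2 : ℝ) ≤ F.k := by exact_mod_cast h.k2
  nlinarith [h.e1, h.e0]

theorem g7_cm (h : Hyp0 F P) {c : Finset ℕ} (hc : c ∈ CC7 F) :
    (pv c : ℝ) ≤ 2 * Real.exp P.Lp := by
  obtain ⟨p, hp, -, h2⟩ := (mem_CC7.1 hc).2
  have h3 := h.Rlo p (mem_union_left _ hp)
  have p0 : (0 : ℝ) < p := by
    exact_mod_cast (h.pr p (mem_union_right _ (mem_union_left _ (mem_union_right _ hp)))).pos
  push_cast at h2
  have := h.g7_e
  have := h.g7_D20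
  refine le_of_mul_le_mul_right ?_ p0
  nlinarith

theorem g7_x (h : Hyp0 F P) {c : Finset ℕ} (hc : c ∈ CC7 F) : 2 * √F.D ≤ F.D / pv c := by
  have c0 : (0 : ℝ) < pv c := by exact_mod_cast h.g7_pos (CC7_sub hc)
  have h1 := h.g7_cm hc
  have h2 := h.g7_D
  have h3 := h.g7_D20
  have h4 : 4 * Real.exp P.Lp ≤ √F.D := Real.le_sqrt_of_sq_le (by
    rw [mul_pow, ← Real.exp_nat_mul]
    push_cast
    linarith [Real.exp_pos (2 * P.Lp)])
  have h5 : √F.D * √F.D = F.D := Real.mul_self_sqrt (by linarith)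
  rw [le_div_iff₀ c0]
  nlinarith [Real.sqrt_nonneg F.D]

theorem g7_s (h : Hyp0 F P) : 4 ≤ √F.D := Real.le_sqrt_of_sq_le (by linarith [h.g7_D20])

theorem g7_Y (h : Hyp0 F P) {c : Finset ℕ} (hc : c ∈ CC7 F) :
    F.D / pv c ≤ F.Y7 c + 1 ∧ (F.Y7 c : ℝ) < F.D / pv c := by
  have h1 := h.g7_x hc
  have h2 := h.g7_s
  have h3 : 1 ≤ ⌈F.D / pv c⌉₊ := Nat.ceil_pos.2 (by linarith)
  have h4 : (F.Y7 c : ℝ) + 1 = ⌈F.D / pv c⌉₊ := by
    rw [Fam.Y7, Nat.cast_sub h3]; simp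
  exact ⟨h4 ▸ Nat.le_ceil _, by linarith [Nat.ceil_lt_add_one (show 0 ≤ F.D / pv c by linarith)]⟩

theorem g7_sqrt (h : Hyp0 F P) {c : Finset ℕ} (hc : c ∈ CC7 F) : √F.D ≤ F.Y7 c := by
  linarith [h.g7_x hc, h.g7_s, (h.g7_Y hc).1]

theorem g7_len (h : Hyp0 F P) {c : Finset ℕ} (hc : c ∈ CC7 F) :
    pv c * F.Y7 c ≤ F.N ∧ F.N ≤ 8 * F.k * (pv c * F.Y7 c) := by
  have c0 : (0 : ℝ) < pv c := by exact_mod_cast h.g7_pos (CC7_sub hc)
  obtain ⟨h1, h2⟩ := h.g7_Y hc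
  have h3 := h.g7_sqrt hc
  have h4 := h.g7_s
  have k2 : (2 : ℝ) ≤ F.k := by exact_mod_cast h.k2
  have := h.g7_D20
  rw [div_le_iff₀ c0] at h1
  rw [lt_div_iff₀ c0] at h2
  constructor
  · have : (pv c : ℝ) * F.Y7 c ≤ F.N := by nlinarith [h.Nlo]
    exact_mod_cast this
  · have h5 : F.D ≤ 2 * (pv c * F.Y7 c) := by nlinarith
    have : (F.N : ℝ) ≤ 8 * F.k * (pv c * F.Y7 c) := by nlinarith [h.Nhi]
    exact_mod_cast this

theorem g7_log (h : Hyp0 F P) : 0 < Real.log F.D := Real.log_pos (by linarith [h.g7_D20])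

theorem g7_lg (h : Hyp0 F P) {c : Finset ℕ} (hc : c ∈ CC7 F) :
    1 ≤ 2 / Real.log F.D * Real.log (F.Y7 c) := by
  have h1 := Real.log_le_log (by linarith [h.g7_s]) (h.g7_sqrt hc)
  rw [Real.log_sqrt (by linarith [h.g7_D20])] at h1
  rw [div_mul_eq_mul_div, le_div_iff₀ h.g7_log]
  linarith

theorem g7_sub (h : Hyp0 F P) {c : Finset ℕ} (hc : c ∈ CC7 F) : F.P7 c ⊆ V.dy (F.Y7 c) := by
  intro p hp
  obtain ⟨hp, h1, h2⟩ := mem_filter.1 hp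
  have c0 : (0 : ℝ) < pv c := by exact_mod_cast h.g7_pos (CC7_sub hc)
  obtain ⟨h3, h4⟩ := h.g7_Y hc
  have h5 := h.g7_sqrt hc
  have h6 := h.g7_s
  have h7 := h.g7_e
  have h8 := h.g7_D20
  push_cast at h1 h2
  refine V.mem_dy.2 ⟨h.pr p (mem_union_right _ (mem_union_left _ (mem_union_right _ hp))), ?_, ?_⟩
  · have : (F.Y7 c : ℝ) < p := h4.trans_le (by rw [div_le_iff₀ c0]; linarith)
    exact_mod_cast this
  · rw [div_le_iff₀ c0] at h3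
    have : (p : ℝ) ≤ 2 * F.Y7 c := by
      refine le_of_mul_le_mul_left ?_ c0
      nlinarith
    exact_mod_cast this

theorem g7_LL (h : Hyp0 F P) : 0 < F.LL := by
  have h1 : 0 ≤ F.LL := sum_nonneg fun _ _ => by positivity
  refine lt_of_le_of_ne h1 fun e => ?_
  have := h.LL2
  rw [← e] at this
  linarith

theorem g7_N (h : Hyp0 F P) : (0 : ℝ) < F.N := by
  have k2 : (2 : ℝ) ≤ F.k := by exact_mod_cast h.k2
  nlinarith [h.Nlo, h.g7_D20]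

end Hyp0

theorem geo7 (h : Hyp0 F P) {c : Finset ℕ} (hc : c ∈ CC7 F) :
    0 < pv c ∧ (pv c : ℝ) ≤ 2 * Real.exp P.Lp ∧
    pv c * (⌈F.D / pv c⌉₊ - 1) ≤ F.N ∧ F.N ≤ 8 * F.k * (pv c * (⌈F.D / pv c⌉₊ - 1)) ∧
    √F.D ≤ ((⌈F.D / pv c⌉₊ - 1 : ℕ) : ℝ) ∧
    (F.RR.filter fun p => F.win (pv c * p)) ⊆ V.dy (⌈F.D / pv c⌉₊ - 1) :=
  ⟨h.g7_pos (CC7_sub hc), h.g7_cm hc, (h.g7_len hc).1, (h.g7_len hc).2, h.g7_sqrt hc, h.g7_sub hc⟩

theorem fr7 (h : Hyp0 F P) (Om : ℝ) {A : Type} (dt : ℕ → A) (Z : ℕ) (C0 : ℕ → Finset ℕ)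
    (s : ℕ → ℝ) : F.Tfree Z s (pred Z F.Qk0 dt C0 F.z0 lam) * (F.LL * F.N * F.Pw) ≤
      (d7 F Om dt Z C0 s).free (F.k - 1) := by
  classical
  have h1 := h.g7_LL
  have h2 := h.g7_N
  have h3 := h.Pw0
  have k1 : F.k - 1 + 1 = F.k := by have := h.k2; omega
  rw [Fam.Tfree, ← ex_mul']
  refine ex_mono fun n => ?_
  set y := pred Z F.Qk0 dt C0 F.z0 lam
  change _ ≤ ∑ c ∈ CC7 F, F.w c * |∑ p ∈ F.P7 c, s (pv c * p) / p *
    ∑ a ∈ (cel F.N (pv c) n).filter (fun a => a + (F.k - 1) * (pv c * p) < F.N),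
      ∏ i ∈ range (F.k - 1 + 1), (F.wk (dp F.U (n + (a + i * (pv c * p)))) *
        y n (a + i * (pv c * p)))|
  rw [k1, sum_comm, sum_mul, CC7, sum_filter]
  refine sum_le_sum fun c _ => ?_
  split_ifs with hc
  · refine le_trans (le_of_eq ?_) (mul_le_mul_of_nonneg_left (le_abs_self _) (h.g7_w c))
    rw [sum_comm, Fam.P7, sum_filter, sum_mul, mul_sum]
    refine sum_congr rfl fun p _ => ?_
    split_ifs with hp
    · rw [cel, filter_filter, sum_filter, mul_sum, mul_sum, sum_mul]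
      refine sum_congr rfl fun a _ => ?_
      simp only [hp, true_and]
      split_ifs
      · field_simp
      · simp
    · simp [hp]
  · rw [sum_eq_zero fun a _ => sum_eq_zero fun p hp => if_neg fun h => hc ⟨p, hp, h.2.1⟩, zero_mul]

/-- the field `fr` -/
theorem g7_fr (h : Hyp0 F P) (Om : ℝ) {A : Type} (dt : ℕ → A) (Z : ℕ) (C0 : ℕ → Finset ℕ)
    (s : ℕ → ℝ) {δ : ℝ} (hδ : 0 ≤ δ) (hT : δ ≤ F.Tfree Z s (pred Z F.Qk0 dt C0 F.z0 lam)) :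
    δ / (2 * P.Cw) * (2 / Real.log F.D) * F.N ≤ (d7 F Om dt Z C0 s).free (F.k - 1) := by
  refine le_trans ?_ (fr7 h Om dt Z C0 s)
  have h1 := h.g7_LL
  have h2 := h.g7_N
  have h3 := h.Pw0
  have h4 := h.g7_log
  have h5 := h.Cw1
  have h6 : 1 / (P.Cw * Real.log F.D) ≤ F.LL * F.Pw := by
    rw [div_le_iff₀ (by positivity)]; linarith [h.win3]
  calc _ = δ * (F.N * (1 / (P.Cw * Real.log F.D))) := by field_simp
    _ ≤ F.Tfree Z s (pred Z F.Qk0 dt C0 F.z0 lam) * (F.N * (F.LL * F.Pw)) := by gcongr; linarith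
    _ = _ := by ring

theorem ind7 (h : Hyp0 F P) (hM : 0 < P.Ms) {Z : ℕ} (hZ : 0 < Z) (hd : pv F.all ∣ Z)
    {c : Finset ℕ} (hc : c ∈ CC7 F) (n0 : ℕ) {S : Finset ℕ} (hS : S ⊆ range (F.N / pv c + 1))
    (hn : S.card ≤ n0) :
    |(ex fun n : Fin Z => ∏ m ∈ S, F.wk (dp F.U (bs (pv c) n + m))) - EG F.U F.wk ^ S.card| ≤
      P.Λ ^ n0 * tauI n0 F.N P.Ms := by
  have hU : F.U ⊆ F.TT := subset_union_left.trans subset_union_left
  have k2 : (2 : ℝ) ≤ F.k := by exact_mod_cast h.k2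
  have h1 : pv c * pv F.U ∣ pv F.all := by
    rw [pv, pv, ← prod_union (h.dLo.mono (CC7_sub hc) hU)]
    exact prod_dvd_prod_of_subset _ _ _ (union_subset_union (CC7_sub hc) hU)
  exact ind_bs F.U (fun q hq => h.pr q (mem_union_right _ (hU hq))) hM (fun q hq => h.TMs q (hU hq))
    (by nlinarith [h.Nlo, h.g7_D20]) (by linarith [h.Lk]) hZ (h1.trans hd) F.wk
    (fun A _ => h.wk0 A) (fun A _ => h.wkL A) S (fun m hm => by
      exact_mod_cast (Nat.lt_succ_iff.1 (mem_range.1 (hS hm))).trans (Nat.div_le_self _ _)) hn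

end Pool.Agent.P.MP_a14ce1_nt.Fu.St
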