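import Pool.Agent.P.MP_a14ce1_nt.Fu.DM

/-! A random weight with nearly independent values is close to its mean in the Gowers norms. -/

namespace Pool.Agent.P.MP_a14ce1_nt.Fu

open Finset Function Nil

namespace UW

/-- the cube formula for real functions on a window -/
theorem gow_real (H k : ℕ) (v : ℤ → ℝ) (hv : ∀ n, v n ≠ 0 → 0 ≤ n ∧ n < H) :
    V.gow H k (fun n => (v n : ℂ)) =
      ∑ a ∈ Fintype.piFinset fun _ : Fin (k + 1) => Ioo (-(H : ℤ)) H, ∑ x ∈ Ico (0 : ℤ) H,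
        ∏ ω : Fin (k + 1) → Bool, v (x + vx ω a) := by
  have h1 : ∀ n, (v n : ℂ) ≠ 0 → 0 ≤ n ∧ n < H := fun n hn => hv n (by simpa using hn)
  rw [gow_eq_U H k h1]
  apply Complex.ofReal_injective
  rw [U_eq_cube k (S := Ico (0 : ℤ) H) (T := Ioo (-(H : ℤ)) H) (fun x hx => mem_Ico.2 (h1 x hx))
    fun x y hx hy => by
      have := h1 x hx
      have := h1 y hy
      rw [mem_Ioo]; omega]
  push_cast
  simp only [cube, DM.cjw_real]

/-- few cubes are degenerate -/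
theorem card_deg (k : ℕ) (T : Finset ℤ) :
    ((Fintype.piFinset fun _ : Fin (k + 1) => T).filter
      fun a => ¬ Injective fun ω : Fin (k + 1) → Bool => vx ω a).card ≤ 4 ^ (k + 1) * T.card ^ k := by
  classical
  have h1 : ∀ p : (Fin (k + 1) → Bool) × (Fin (k + 1) → Bool),
      ((Fintype.piFinset fun _ : Fin (k + 1) => T).filter
        fun a => p.1 ≠ p.2 ∧ vx p.1 a = vx p.2 a).card ≤ T.card ^ k := by
    rintro ⟨ω, ω'⟩
    by_cases h : ω = ω'
    · simp [h]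
    obtain ⟨i, hi⟩ := Function.ne_iff.1 h
    have : T.card ^ k = (Fintype.piFinset fun _ : Fin k => T).card := by simp
    rw [this]
    refine card_le_card_of_injOn (fun a j => a (i.succAbove j)) (fun a ha => ?_) fun a ha b hb e => ?_
    · rw [mem_coe, mem_filter, Fintype.mem_piFinset] at ha
      exact mem_coe.2 (Fintype.mem_piFinset.2 fun j => ha.1 _)
    · have ha := (mem_filter.1 (mem_coe.1 ha)).2.2
      have hb := (mem_filter.1 (mem_coe.1 hb)).2.2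
      have e' : ∀ j, a (i.succAbove j) = b (i.succAbove j) := fun j => congrFun e j
      simp only [vx, Fin.sum_univ_succAbove _ i, e'] at ha hb
      have e2 : a i = b i := by
        cases h1 : ω i <;> cases h2 : ω' i <;> simp [h1, h2] at ha hb hi <;> linarith
      ext j
      rcases Fin.eq_self_or_eq_succAbove i j with rfl | ⟨j, rfl⟩
      · exact e2
      · exact e' j
  refine (card_le_card (t := univ.biUnion fun p : (Fin (k + 1) → Bool) × (Fin (k + 1) → Bool) =>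
    (Fintype.piFinset fun _ : Fin (k + 1) => T).filter
      fun a => p.1 ≠ p.2 ∧ vx p.1 a = vx p.2 a) fun a ha => ?_).trans
    (card_biUnion_le.trans ((sum_le_card_nsmul _ _ _ fun p _ => h1 p).trans (le_of_eq ?_)))
  · rw [mem_filter, not_injective_iff] at ha
    obtain ⟨h1, ω, ω', h2, h3⟩ := ha
    exact mem_biUnion.2 ⟨(ω, ω'), mem_univ _, mem_filter.2 ⟨h1, h3, h2⟩⟩
  · simp [← mul_pow]

/-- expansion of a centred product -/
theorem centred {Ω α : Type*} [DecidableEq α] (s : Finset Ω) (μ : Ω → ℝ) (w : Ω → α → ℝ)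
    (wb : α → ℝ) (B : Finset α) (hB : B.Nonempty) {τ : ℝ} (hb : ∀ n ∈ B, |wb n| ≤ 1)
    (hind : ∀ S ⊆ B, |∑ o ∈ s, μ o * ∏ n ∈ S, w o n - ∏ n ∈ S, wb n| ≤ τ) :
    |∑ o ∈ s, μ o * ∏ n ∈ B, (w o n - wb n)| ≤ 2 ^ B.card * τ := by
  have e1 : ∑ o ∈ s, μ o * ∏ n ∈ B, (w o n - wb n) =
      ∑ S ∈ B.powerset, (∑ o ∈ s, μ o * ∏ n ∈ S, w o n) * ∏ n ∈ B \ S, -wb n := by
    simp only [sub_eq_add_neg, prod_add, mul_sum, sum_mul]
    rw [sum_comm]
    simp only [mul_assoc]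
  have e2 : ∑ S ∈ B.powerset, (∏ n ∈ S, wb n) * ∏ n ∈ B \ S, -wb n = 0 := by
    rw [← prod_add]
    obtain ⟨n, hn⟩ := hB
    exact prod_eq_zero hn (add_neg_cancel _)
  rw [e1, ← sub_zero (∑ S ∈ B.powerset, _), ← e2, ← sum_sub_distrib]
  refine (abs_sum_le_sum_abs _ _).trans ((sum_le_card_nsmul _ _ τ fun S hS => ?_).trans
    (le_of_eq (by simp)))
  rw [← sub_mul, abs_mul, abs_prod]
  have h1 := hind S (mem_powerset.1 hS)
  have h2 : ∏ n ∈ B \ S, |-wb n| ≤ 1 := prod_le_one (fun _ _ => abs_nonneg _) fun n hn => by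
    rw [abs_neg]; exact hb n (mem_sdiff.1 hn).1
  calc _ ≤ τ * 1 := mul_le_mul h1 h2 (prod_nonneg fun _ _ => abs_nonneg _) ((abs_nonneg _).trans h1)
    _ = τ := mul_one _

end UW

/-- The mean Gowers sum of a centred weight with nearly independent values. -/
theorem uw {Ω : Type*} (s : Finset Ω) (μ : Ω → ℝ) (hμ : ∀ o ∈ s, 0 ≤ μ o) (hμ1 : ∑ o ∈ s, μ o = 1)
    (k H : ℕ) (w : Ω → ℤ → ℝ) (wb : ℤ → ℝ) {Om τ : ℝ} (hOm : 0 ≤ Om)
    (hw0 : ∀ o ∈ s, ∀ n : ℤ, 0 ≤ n → n < H → 0 ≤ w o n)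
    (hw1 : ∀ o ∈ s, ∀ n : ℤ, 0 ≤ n → n < H → w o n ≤ Om)
    (hb0 : ∀ n : ℤ, 0 ≤ n → n < H → 0 ≤ wb n) (hb1 : ∀ n : ℤ, 0 ≤ n → n < H → wb n ≤ 1)
    (hind : ∀ S ⊆ Ico (0 : ℤ) H, S.card ≤ 2 ^ (k + 1) →
      |∑ o ∈ s, μ o * ∏ n ∈ S, w o n - ∏ n ∈ S, wb n| ≤ τ) :
    ∑ o ∈ s, μ o * V.gow H k (fun n => ((if 0 ≤ n ∧ n < H then w o n - wb n else 0 : ℝ) : ℂ)) ≤
      (2 ^ 2 ^ (k + 1) * τ + 4 ^ (k + 1) * (Om + 1) ^ 2 ^ (k + 1) / H) * (2 * H : ℝ) ^ (k + 2) := by
  classical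
  have hτ : 0 ≤ τ := (abs_nonneg _).trans (hind ∅ (empty_subset _) (by simp))
  rcases Nat.eq_zero_or_pos H with rfl | hH
  · cases k <;> simp [V.gow]
  have hH' : (0 : ℝ) < H := by exact_mod_cast hH
  set T := Ioo (-(H : ℤ)) H with hT
  have hc : (T.card : ℝ) ≤ 2 * H := by
    have : T.card ≤ 2 * H := by rw [hT, Int.card_Ioo]; omega
    exact_mod_cast this
  set v : Ω → ℤ → ℝ := fun o n => if 0 ≤ n ∧ n < H then w o n - wb n else 0 with hv
  have e1 : ∀ o, V.gow H k (fun n => (v o n : ℂ)) = _ := fun o => UW.gow_real H k (v o) fun n hn => by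
    by_contra hc
    exact hn (if_neg hc)
  change ∑ o ∈ s, μ o * V.gow H k (fun n => (v o n : ℂ)) ≤ _
  simp only [e1, mul_sum]
  rw [sum_comm]
  have h1 : ∀ (a : Fin (k + 1) → ℤ) (x : ℤ),
      ∑ o ∈ s, μ o * ∏ ω : Fin (k + 1) → Bool, v o (x + vx ω a) ≤ 2 ^ 2 ^ (k + 1) * τ +
        if ¬ Injective fun ω : Fin (k + 1) → Bool => vx ω a then (Om + 1) ^ 2 ^ (k + 1) else 0 := by
    intro a x
    by_cases ha : Injective fun ω : Fin (k + 1) → Bool => vx ω a
    · rw [if_neg (not_not.2 ha), add_zero]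
      by_cases hx : ∀ ω : Fin (k + 1) → Bool, 0 ≤ x + vx ω a ∧ x + vx ω a < H
      · have hi : Injective fun ω : Fin (k + 1) → Bool => x + vx ω a := fun ω ω' h =>
          ha (add_left_cancel h)
        set B := univ.image fun ω : Fin (k + 1) → Bool => x + vx ω a with hB
        have hB1 : B.card = 2 ^ (k + 1) := by rw [hB, card_image_of_injective _ hi]; simp
        have hB2 : B ⊆ Ico (0 : ℤ) H := fun n hn => by
          obtain ⟨ω, -, rfl⟩ := mem_image.1 hn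
          exact mem_Ico.2 (hx ω)
        have h2 := UW.centred s μ w wb B (image_nonempty.2 univ_nonempty) (τ := τ)
          (fun n hn => by
            have := mem_Ico.1 (hB2 hn)
            rw [abs_of_nonneg (hb0 n this.1 this.2)]
            exact hb1 n this.1 this.2)
          fun S hS => hind S (hS.trans hB2) (hB1 ▸ card_le_card hS)
        rw [hB1] at h2
        refine le_trans (le_of_eq ?_) ((le_abs_self _).trans h2)
        refine sum_congr rfl fun o _ => ?_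
        rw [hB, prod_image fun ω _ ω' _ h => hi h]
        simp only [hv, if_pos (hx _)]
      · push Not at hx
        obtain ⟨ω, hω⟩ := hx
        rw [sum_eq_zero fun o _ => by
          rw [prod_eq_zero (mem_univ ω) (if_neg fun h => absurd h.2 (not_lt.2 (hω h.1))), mul_zero]]
        positivity
    · rw [if_pos ha]
      refine le_add_of_nonneg_of_le (by positivity) ((sum_le_sum
        (g := fun o => μ o * (Om + 1) ^ 2 ^ (k + 1)) fun o ho => ?_).trans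
          (by rw [← sum_mul, hμ1, one_mul]))
      refine mul_le_mul_of_nonneg_left ((le_abs_self _).trans ?_) (hμ o ho)
      rw [abs_prod]
      refine (prod_le_prod (g := fun _ => Om + 1) (fun _ _ => abs_nonneg _) fun ω _ => ?_).trans
        (le_of_eq (by simp))
      simp only [hv]
      split_ifs with h
      · have := hw0 o ho _ h.1 h.2
        have := hw1 o ho _ h.1 h.2
        have := hb0 _ h.1 h.2
        have := hb1 _ h.1 h.2
        rw [abs_le]; constructor <;> linarith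
      · rw [abs_zero]; linarith
  refine (sum_le_sum fun a _ => (le_of_eq sum_comm).trans
    (sum_le_card_nsmul _ _ _ fun x _ => h1 a x)).trans ?_
  have h2 : ((Fintype.piFinset fun _ : Fin (k + 1) => T).filter
      fun a => ¬ Injective fun ω : Fin (k + 1) → Bool => vx ω a).card ≤
        (4 : ℝ) ^ (k + 1) * (2 * H) ^ k := by
    refine le_trans (by exact_mod_cast UW.card_deg k T) (?_ : (4 : ℝ) ^ (k + 1) * T.card ^ k ≤ _)
    gcongr
  simp only [Int.card_Ico, sub_zero, Int.toNat_natCast, nsmul_eq_mul]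
  rw [← mul_sum, sum_add_distrib, sum_const, ← sum_filter, sum_const, nsmul_eq_mul, nsmul_eq_mul]
  have h3 : ((Fintype.piFinset fun _ : Fin (k + 1) => T).card : ℝ) ≤ (2 * H) ^ (k + 1) := by
    simp only [Fintype.card_piFinset, prod_const, card_univ, Fintype.card_fin, Nat.cast_pow]
    gcongr
  calc _ ≤ (H : ℝ) * ((2 * H) ^ (k + 1) * (2 ^ 2 ^ (k + 1) * τ) +
        4 ^ (k + 1) * (2 * H) ^ k * (Om + 1) ^ 2 ^ (k + 1)) := by gcongr
    _ = (2 ^ 2 ^ (k + 1) * τ / 2 + 4 ^ (k + 1) * (Om + 1) ^ 2 ^ (k + 1) / H / 4) *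
        (2 * H : ℝ) ^ (k + 2) := by field_simp; ring
    _ ≤ _ := mul_le_mul_of_nonneg_right (add_le_add (half_le_self (by positivity))
        (div_le_self (by positivity) (by norm_num))) (by positivity)

/-- Markov form: the Gowers sum is rarely large. -/
theorem uw_markov {Ω : Type*} (s : Finset Ω) (μ : Ω → ℝ) (hμ : ∀ o ∈ s, 0 ≤ μ o)
    (hμ1 : ∑ o ∈ s, μ o = 1) (k H : ℕ) (w : Ω → ℤ → ℝ) (wb : ℤ → ℝ) {Om τ e : ℝ} (hOm : 0 ≤ Om)
    (he : 0 < e) (hw0 : ∀ o ∈ s, ∀ n : ℤ, 0 ≤ n → n < H → 0 ≤ w o n)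
    (hw1 : ∀ o ∈ s, ∀ n : ℤ, 0 ≤ n → n < H → w o n ≤ Om)
    (hb0 : ∀ n : ℤ, 0 ≤ n → n < H → 0 ≤ wb n) (hb1 : ∀ n : ℤ, 0 ≤ n → n < H → wb n ≤ 1)
    (hind : ∀ S ⊆ Ico (0 : ℤ) H, S.card ≤ 2 ^ (k + 1) →
      |∑ o ∈ s, μ o * ∏ n ∈ S, w o n - ∏ n ∈ S, wb n| ≤ τ) :
    ∑ o ∈ s.filter (fun o => e ^ 2 ^ (k + 1) * (2 * H : ℝ) ^ (k + 2) <
        V.gow H k (fun n => ((if 0 ≤ n ∧ n < H then w o n - wb n else 0 : ℝ) : ℂ))), μ o ≤
      (2 ^ 2 ^ (k + 1) * τ + 4 ^ (k + 1) * (Om + 1) ^ 2 ^ (k + 1) / H) / e ^ 2 ^ (k + 1) := by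
  have hτ : 0 ≤ τ := (abs_nonneg _).trans (hind ∅ (empty_subset _) (by simp))
  rcases Nat.eq_zero_or_pos H with rfl | hH
  · rw [filter_false_of_mem fun o _ => by cases k <;> simp [V.gow], sum_empty]
    positivity
  have hH' : (0 : ℝ) < H := by exact_mod_cast hH
  have h := uw s μ hμ hμ1 k H w wb hOm hw0 hw1 hb0 hb1 hind
  rw [le_div_iff₀ (by positivity)]
  refine le_of_mul_le_mul_right (le_trans ?_ h) (by positivity : (0 : ℝ) < (2 * H : ℝ) ^ (k + 2))
  rw [mul_assoc, sum_mul]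
  refine (sum_le_sum fun o ho => mul_le_mul_of_nonneg_left (mem_filter.1 ho).2.le
    (hμ o (mem_filter.1 ho).1)).trans (sum_le_sum_of_subset_of_nonneg (filter_subset _ _)
      fun o ho _ => mul_nonneg (hμ o ho) (V.gow_nonneg _ _ _))

end Pool.Agent.P.MP_a14ce1_nt.Fu
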