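import Pool.Agent.P.MP_a14ce1_nt.Fu.S7St
import Pool.Agent.P.MP_a14ce1_nt.Fu.Cell7
import Pool.Agent.P.MP_a14ce1_nt.Fu.UW

/-! Section 7 without the model: from the free form to correlations with atoms on the cells. -/

open Finset
open scoped ComplexConjugate

namespace Pool.Agent.P.MP_a14ce1_nt.Fu

open Ax (pc res)

/-- the mean cube average of a centred weight -/
theorem uw_nat {Ω : Type} [Fintype Ω] [Nonempty Ω] (k H : ℕ) (hH : 0 < H) (w : Ω → ℕ → ℝ)
    {Om wb τ : ℝ} (hOm : 0 ≤ Om) (hw0 : ∀ o m, 0 ≤ w o m) (hw1 : ∀ o m, w o m ≤ Om) (hb0 : 0 ≤ wb)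
    (hb1 : wb ≤ 1) (hind : ∀ S ⊆ range H, S.card ≤ 2 ^ (k + 1) →
      |(ex fun o => ∏ m ∈ S, w o m) - wb ^ S.card| ≤ τ) :
    (ex fun o => V.cube k (fun m => ((w o m - wb : ℝ) : ℂ)) 0 H) ≤
      (2 ^ 2 ^ (k + 1) * τ + 4 ^ (k + 1) * (Om + 1) ^ 2 ^ (k + 1) / H) * 2 ^ (k + 2) := by
  have hc : (0 : ℝ) < Fintype.card Ω := card_pos'
  have hH' : (0 : ℝ) < H := by exact_mod_cast hH
  have e : ∀ g : Ω → ℝ, ∑ o, (1 / (Fintype.card Ω : ℝ)) * g o = ex g := fun g => by
    rw [← mul_sum, ex, one_div_mul_eq_div]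
  have h := uw univ (fun _ : Ω => 1 / (Fintype.card Ω : ℝ)) (fun _ _ => by positivity)
    (by simp [hc.ne']) k H (fun o n => w o n.toNat) (fun _ => wb) (τ := τ) hOm
    (fun _ _ _ _ _ => hw0 _ _) (fun _ _ _ _ _ => hw1 _ _) (fun _ _ _ => hb0) (fun _ _ _ => hb1)
    fun S hS hc => by
      have hi : Set.InjOn Int.toNat S := fun a ha b hb h => by
        have := mem_Ico.1 (hS ha)
        have := mem_Ico.1 (hS hb)
        omega
      have h1 := hind (S.image Int.toNat) (fun m hm => by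
        obtain ⟨n, hn, rfl⟩ := mem_image.1 hm
        have := mem_Ico.1 (hS hn)
        rw [mem_range]; omega) (by rwa [card_image_of_injOn hi])
      simp only [prod_image hi, card_image_of_injOn hi] at h1
      rwa [e, prod_const]
  rw [e] at h
  simp only [V.cube]
  rw [ex_div, div_le_iff₀ (by positivity), mul_assoc, ← mul_pow]
  refine le_trans (le_of_eq (ex_congr fun o => ?_)) h
  congr 1
  ext n
  simp only [V.win, zero_add]
  split_ifs <;> simp

namespace S7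

/-- the first site of the cell -/
def off (c n : ℕ) : ℕ := c * bs c n - n

theorem off_eq {c : ℕ} (hc : 0 < c) (n : ℕ) :
    n + off c n = c * bs c n ∧ off c n = c - 1 - (n + (c - 1)) % c := by
  have h1 := Nat.div_add_mod (n + (c - 1)) c
  have h2 := Nat.mod_lt (n + (c - 1)) hc
  have e : bs c n = (n + (c - 1)) / c := by unfold bs; congr 1; omega
  unfold off
  rw [e]
  omega

theorem off_lt {c : ℕ} (hc : 0 < c) (n : ℕ) : off c n < c := by
  have := (off_eq hc n).2; omega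

theorem off_congr {c n n' : ℕ} (hc : 0 < c) (h : n % c = n' % c) : off c n = off c n' := by
  rw [(off_eq hc n).2, (off_eq hc n').2, Nat.add_mod n, h, ← Nat.add_mod]

theorem sum_cel {M : Type*} [AddCommMonoid M] (N : ℕ) {c : ℕ} (hc : 0 < c) (n : ℕ) (g : ℕ → M) :
    ∑ b ∈ cel N c n, g b =
      ∑ m ∈ range (N / c + 1), if off c n + c * m < N then g (off c n + c * m) else 0 := by
  rw [← sum_filter]
  have h1 := (off_eq hc n).1
  have h2 := off_lt hc n
  symm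
  refine sum_bij (fun m _ => off c n + c * m) (fun m hm => ?_) (fun m _ m' _ h => ?_)
    (fun b hb => ?_) fun _ _ => rfl
  · refine mem_filter.2 ⟨mem_range.2 (mem_filter.1 hm).2, bs c n + m, ?_⟩
    rw [mul_add]; omega
  · exact Nat.eq_of_mul_eq_mul_left hc (add_left_cancel h)
  · obtain ⟨hb, t, ht⟩ := mem_filter.1 hb
    rw [mem_range] at hb
    have h3 : bs c n ≤ t := by
      by_contra h
      have : c * (t + 1) ≤ c * bs c n := Nat.mul_le_mul_left _ (by omega)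
      rw [mul_add] at this
      omega
    obtain ⟨m, rfl⟩ := Nat.exists_eq_add_of_le h3
    rw [mul_add] at ht
    refine ⟨m, mem_filter.2 ⟨mem_range.2 (Nat.lt_succ_of_le ?_), by omega⟩, by omega⟩
    rw [Nat.le_div_iff_mul_le hc, mul_comm]
    omega

theorem pos_div {c : ℕ} (hc : 0 < c) (n m : ℕ) : (n + (off c n + c * m)) / c = bs c n + m := by
  rw [← add_assoc, (off_eq hc n).1, ← mul_add, Nat.mul_div_cancel_left _ hc]

theorem rel_div {c : ℕ} (hc : 0 < c) (o m : ℕ) : (o + c * m - o) / c = m := by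
  rw [Nat.add_sub_cancel_left, Nat.mul_div_cancel_left _ hc]

/-- a site function read on a cell -/
noncomputable def onc (N c o : ℕ) (F : ℕ → ℝ) (m : ℕ) : ℝ :=
  if o + c * m < N then F (o + c * m) else 0

theorem form_eq (r N : ℕ) {c : ℕ} (hc : 0 < c) (n : ℕ) (P : Finset ℕ) (θ F : ℕ → ℝ) :
    form r (N / c + 1) P (fun p => (θ p : ℂ)) (fun _ m => (onc N c (off c n) F m : ℂ)) =
      ((∑ p ∈ P, θ p / p * ∑ a ∈ (cel N c n).filter (fun a => a + r * (c * p) < N),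
        ∏ i ∈ range (r + 1), F (a + i * (c * p)) : ℝ) : ℂ) := by
  unfold form
  rw [Complex.ofReal_sum]
  refine sum_congr rfl fun p _ => ?_
  rw [Complex.ofReal_mul, Complex.ofReal_div, Complex.ofReal_natCast]
  congr 1
  simp only [← Complex.ofReal_prod, ← Complex.ofReal_sum]
  congr 1
  rw [sum_filter, sum_filter, sum_cel N hc]
  refine sum_congr rfl fun m _ => ?_
  have e : ∀ i, off c n + c * (m + i * p) = off c n + c * m + i * (c * p) := fun i => by ring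
  by_cases h : off c n + c * m + r * (c * p) < N
  · have h1 : m + r * p < N / c + 1 := by
      rw [Nat.lt_succ_iff, Nat.le_div_iff_mul_le hc, mul_comm]
      have := e r
      omega
    rw [if_pos h1, if_pos (by omega), if_pos h]
    refine prod_congr rfl fun i hi => ?_
    have h2 : i * (c * p) ≤ r * (c * p) :=
      Nat.mul_le_mul_right _ (Nat.lt_succ_iff.1 (mem_range.1 hi))
    rw [onc, e, if_pos (by omega)]
  · rw [if_neg h, ite_self, prod_eq_zero (self_mem_range_succ r) (by rw [onc, e, if_neg h]),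
      ite_self]

theorem ex_half {α : Type*} {B : Set α} (hB : B.Nonempty) (t : α → ℝ) (K : ℝ)
    (h0 : ∀ a, 0 ≤ t a) (hK : ∀ a ∈ B, t a ≤ K) : ∃ a ∈ B, ∀ a' ∈ B, t a' ≤ 2 * t a := by
  have hb : BddAbove (t '' B) := ⟨K, by rintro _ ⟨a, ha, rfl⟩; exact hK a ha⟩
  by_cases h : 0 < sSup (t '' B)
  · obtain ⟨_, ⟨a, ha, rfl⟩, h1⟩ := exists_lt_of_lt_csSup (hB.image t) (half_lt_self h)
    exact ⟨a, ha, fun a' ha' => by linarith [le_csSup hb ⟨a', ha', rfl⟩]⟩
  · obtain ⟨a, ha⟩ := hB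
    exact ⟨a, ha, fun a' ha' => by linarith [le_csSup hb ⟨a', ha', rfl⟩, h0 a]⟩

theorem ex_rot {B : Set (ℕ → ℂ)} (hB : Ax.At B) (s : Finset ℕ) (g : ℕ → ℕ) (f : ℕ → ℂ)
    {a : ℕ → ℂ} (ha : a ∈ B) :
    ∃ a' ∈ B, ‖∑ b ∈ s, pc f a (g b)‖ ≤ (∑ b ∈ s, pc f a' (g b)).re := by
  obtain ⟨z, h1, h2⟩ := Nil.ex_phase (∑ b ∈ s, pc f a (g b))
  refine ⟨_, hB.rot a ha (conj z) (by simpa using h1), le_of_eq ?_⟩
  have : ∑ b ∈ s, pc f (fun n => conj z * a n) (g b) = z * ∑ b ∈ s, pc f a (g b) := by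
    rw [mul_sum]
    exact sum_congr rfl fun b _ => by simp [pc]; ring
  rw [this, h2, Complex.ofReal_re]

/-- a nearly best atom, as a function of the data on the cell -/
theorem ex_sel {B : Set (ℕ → ℂ)} (hB : Ax.At B) (H : ℕ) (φ : ℕ → ℝ) : ∃ a ∈ B, ∀ a' ∈ B,
    ‖∑ m ∈ range H, pc (fun m => (φ m : ℂ)) a' m‖ ≤ 2 * ∑ m ∈ range H, φ m * (a m).re := by
  obtain ⟨a, ha, h⟩ := ex_half hB.ne (fun a => ‖∑ m ∈ range H, pc (fun m => (φ m : ℂ)) a m‖)
    (∑ m ∈ range H, ‖(φ m : ℂ)‖) (fun _ => norm_nonneg _) fun a ha =>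
      (norm_sum_le _ _).trans (sum_le_sum fun m _ => by
        rw [pc, norm_mul, Complex.norm_conj]
        exact mul_le_of_le_one_right (norm_nonneg _) (hB.bd a ha m))
  obtain ⟨a1, h1, h2⟩ := ex_rot hB (range H) id (fun m => (φ m : ℂ)) ha
  refine ⟨a1, h1, fun a' ha' => (h a' ha').trans (mul_le_mul_of_nonneg_left
    (h2.trans (le_of_eq ?_)) zero_le_two)⟩
  rw [Complex.re_sum]
  exact sum_congr rfl fun m _ => by simp [pc]

theorem ex_exp (K : ℝ) (a C0 : ℕ) : ∃ C : ℕ, ∀ x : ℝ, 2 ≤ x → x ^ C0 ≤ x ^ C ∧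
    Real.exp (x ^ C0) * (K * (x + 1) ^ a) ≤ Real.exp (x ^ C) := by
  obtain ⟨E, hE⟩ := C7.ex_pow (|K| * 2 ^ a) a
  refine ⟨C0 + E + 1, fun x hx => ⟨pow_le_pow_right₀ (by linarith) (by omega), ?_⟩⟩
  have h1 : K * (x + 1) ^ a ≤ Real.exp (x ^ E) := by
    calc _ ≤ |K| * (2 * x) ^ a := by
          gcongr
          · exact le_abs_self K
          · linarith
      _ = |K| * 2 ^ a * x ^ a := by ring
      _ ≤ x ^ E := hE x hx
      _ ≤ _ := by linarith [Real.add_one_le_exp (x ^ E)]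
  refine (mul_le_mul_of_nonneg_left h1 (Real.exp_pos _).le).trans ?_
  rw [← Real.exp_add]
  refine Real.exp_le_exp.2 ?_
  have h2 : x ^ C0 ≤ x ^ (C0 + E) := pow_le_pow_right₀ (by linarith) (by omega)
  have h3 : x ^ E ≤ x ^ (C0 + E) := pow_le_pow_right₀ (by linarith) (by omega)
  have h4 : 0 ≤ x ^ (C0 + E) := by positivity
  rw [pow_succ]
  nlinarith

end S7

open S7

theorem sec7a : S_Sec7a := by
  classical
  intro r L δ hδ
  obtain ⟨A, C0, hA, hS, hc⟩ := cell r (L + 1) (δ / 8) (by positivity)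
  obtain ⟨C, hC⟩ := ex_exp (8 / δ * ((2 ^ 2 ^ (r + 1) + 4 ^ (r + 1)) * 2 ^ (r + 2))) (2 ^ (r + 1)) C0
  set c2 := min 1 (δ / (8 * (C0 + 1))) with hc2
  have c0 : 0 < c2 := lt_min one_pos (by positivity)
  refine ⟨A, c2, C, hA, c0, min_le_left _ _, fun ι Z d Om wb τ ℓ h => ?_⟩
  have hB := hA.sys.atm
  have : Nonempty (Fin Z) := ⟨⟨0, h.Z0⟩⟩
  have hO := h.om
  have hl := h.l0
  obtain ⟨k1, k2⟩ := hC Om hO
  set E := Real.exp (Om ^ C) with hE
  have E0 : 0 < E := Real.exp_pos _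
  have E1 : Om ^ C + 1 ≤ E := Real.add_one_le_exp _
  have E2 : 1 ≤ Om ^ C := one_le_pow₀ (by linarith)
  choose sel s1 s2 using ex_sel hB
  set φ : Fin Z → ι → ℕ → ℝ := fun n c => onc d.N (d.cv c) (off (d.cv c) n) (d.F n) with hφ
  set H : ι → ℕ := fun c => d.N / d.cv c + 1 with hH
  set u : Fin Z → ι → ℕ → ℝ := fun n c b => if c ∈ d.CC then
    (sel (H c) (φ n c) ((b - off (d.cv c) n) / d.cv c)).re else 0 with hu
  have Y2 : ∀ c ∈ d.CC, 2 ≤ d.Yc c := fun c hc => by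
    have : (2 : ℝ) ≤ d.Yc c := by linarith [h.big c hc]
    exact_mod_cast this
  have YH : ∀ c ∈ d.CC, d.Yc c ≤ H c := fun c hc => Nat.le_succ_of_le (by
    rw [Nat.le_div_iff_mul_le (h.pos c hc).2, mul_comm]; exact (h.len c hc).1)
  have EH : ∀ c ∈ d.CC, E ≤ H c := fun c hc => (h.big c hc).trans (by exact_mod_cast YH c hc)
  have sH : ∑ c ∈ d.CC, d.wh c * H c ≤ 2 * d.N := by
    calc _ ≤ ∑ c ∈ d.CC, 2 * d.N * (d.wh c / d.cv c) := sum_le_sum fun c hc => by
          have p1 := (h.pos c hc).1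
          have p2 : (0 : ℝ) < d.cv c := by exact_mod_cast (h.pos c hc).2
          have p3 : H c * d.cv c ≤ 2 * d.N := by
            have q1 := Nat.div_mul_le_self d.N (d.cv c)
            have q2 := (h.len c hc).1
            have q3 : d.cv c * 2 ≤ d.cv c * d.Yc c := Nat.mul_le_mul_left _ (Y2 c hc)
            simp only [hH, add_mul]
            omega
          have p4 : (H c : ℝ) * d.cv c ≤ 2 * d.N := by exact_mod_cast p3
          rw [← mul_div_assoc, le_div_iff₀ p2]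
          nlinarith
      _ ≤ 2 * d.N * 1 := by rw [← mul_sum]; gcongr; exact h.mass
      _ = _ := mul_one _
  have su : ∀ n : Fin Z, ∀ c ∈ d.CC, ∀ g : ℕ → ℝ, ∑ b ∈ cel d.N (d.cv c) n, g b * u n c b =
      ∑ m ∈ range (H c), onc d.N (d.cv c) (off (d.cv c) n) g m * (sel (H c) (φ n c) m).re :=
    fun n c hc g => by
      rw [sum_cel _ (h.pos c hc).2]
      refine sum_congr rfl fun m _ => ?_
      simp only [hu, if_pos hc, rel_div (h.pos c hc).2, onc]
      split_ifs <;> simp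
  -- one cell
  have one : ∀ n : Fin Z, ∀ c ∈ d.CC, |∑ p ∈ d.P c, d.th c p / p *
      ∑ a ∈ (cel d.N (d.cv c) n).filter (fun a => a + r * (d.cv c * p) < d.N),
        ∏ i ∈ range (r + 1), d.F n (a + i * (d.cv c * p))| ≤
      ℓ * (δ / 8 * H c + 2 * C0 * ∑ b ∈ cel d.N (d.cv c) n, d.F n b * u n c b +
        Real.exp (Om ^ C0) * H c *
          V.cube r (fun m => ((d.w (bs (d.cv c) n + m) - wb : ℝ) : ℂ)) 0 (H c)) := by
    intro n c hcc
    have p2 := (h.pos c hcc).2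
    obtain ⟨a, ha, h1⟩ := hc Om (H c) (d.Yc c) (d.P c) (fun p => (d.th c p : ℂ))
      (fun m => (φ n c m : ℂ)) (fun m => d.w (bs (d.cv c) n + m)) (fun _ => wb) hO
      (by linarith [EH c hcc]) (Y2 c hcc) (YH c hcc)
      (by
        have q1 : d.N / d.cv c ≤ L * d.Yc c := Nat.div_le_of_le_mul (by
          rw [mul_left_comm]; exact (h.len c hcc).2)
        have q2 := Y2 c hcc
        simp only [hH, add_mul]
        omega)
      (h.sub c hcc) (fun p => by simpa using h.th1 c hcc p) fun m _ => ⟨by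
        rw [Complex.norm_real, Real.norm_eq_abs]
        simp only [hφ, onc]
        split_ifs with hm
        · refine h.Fw c hcc n _ _ hm ?_
          rw [← add_assoc, (off_eq p2 n).1, mul_add]
        · simpa using h.w0 _, h.w1 _, h.wb0, h.wb1⟩
    rw [form_eq r d.N p2, Complex.norm_real, Real.norm_eq_abs] at h1
    have h2 := s2 (H c) (φ n c) a ha
    rw [← su n c hcc] at h2
    have h3 := mul_le_mul_of_nonneg_left h2 (Nat.cast_nonneg C0 : (0 : ℝ) ≤ C0)
    refine (le_mul_of_one_le_right (abs_nonneg _) (h.lg c hcc)).trans ?_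
    rw [mul_left_comm]
    refine mul_le_mul_of_nonneg_left (h1.trans ?_) hl.le
    linarith
  -- the mean of the cube averages
  have cub : ∀ c ∈ d.CC, Real.exp (Om ^ C0) * (ex fun n : Fin Z =>
      V.cube r (fun m => ((d.w (bs (d.cv c) n + m) - wb : ℝ) : ℂ)) 0 (H c)) ≤ δ / 8 := by
    intro c hcc
    have h1 := uw_nat r (H c) (Nat.succ_pos _) (fun (n : Fin Z) m => d.w (bs (d.cv c) n + m))
      (by linarith : 0 ≤ Om) (fun _ _ => h.w0 _) (fun _ _ => h.w1 _) h.wb0 h.wb1 (h.ind c hcc)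
    have h2 : τ ≤ (Om + 1) ^ 2 ^ (r + 1) / E := by
      rw [le_div_iff₀ E0]
      exact h.tau.trans (one_le_pow₀ (by linarith))
    have h3 : 4 ^ (r + 1) * (Om + 1) ^ 2 ^ (r + 1) / (H c : ℝ) ≤
        4 ^ (r + 1) * (Om + 1) ^ 2 ^ (r + 1) / E := by
      gcongr; exact EH c hcc
    calc _ ≤ Real.exp (Om ^ C0) * ((2 ^ 2 ^ (r + 1) * ((Om + 1) ^ 2 ^ (r + 1) / E) +
          4 ^ (r + 1) * (Om + 1) ^ 2 ^ (r + 1) / E) * 2 ^ (r + 2)) := by
          refine mul_le_mul_of_nonneg_left (h1.trans ?_) (Real.exp_pos _).le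
          gcongr
      _ = δ / 8 * (Real.exp (Om ^ C0) * (8 / δ * ((2 ^ 2 ^ (r + 1) + 4 ^ (r + 1)) * 2 ^ (r + 2)) *
          (Om + 1) ^ 2 ^ (r + 1)) / E) := by field_simp
      _ ≤ δ / 8 * 1 := by gcongr; exact (div_le_one E0).2 k2
      _ = _ := mul_one _
  set T := ex fun n : Fin Z => ∑ c ∈ d.CC, d.wh c * ∑ b ∈ cel d.N (d.cv c) n, d.F n b * u n c b
    with hT
  have main : δ * d.N ≤ δ / 8 * (2 * d.N) + 2 * C0 * T + δ / 8 * (2 * d.N) := by
    refine le_of_mul_le_mul_left (a := ℓ) ?_ hl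
    rw [← mul_assoc, mul_comm ℓ δ]
    refine h.fr.trans ((ex_mono fun n => sum_le_sum fun c hc =>
      mul_le_mul_of_nonneg_left (one n c hc) (h.pos c hc).1).trans ?_)
    have e : ∀ n : Fin Z, ∑ c ∈ d.CC, d.wh c * (ℓ * (δ / 8 * H c +
        2 * C0 * ∑ b ∈ cel d.N (d.cv c) n, d.F n b * u n c b + Real.exp (Om ^ C0) * H c *
          V.cube r (fun m => ((d.w (bs (d.cv c) n + m) - wb : ℝ) : ℂ)) 0 (H c))) =
        ℓ * (δ / 8 * ∑ c ∈ d.CC, d.wh c * H c +
          2 * C0 * ∑ c ∈ d.CC, d.wh c * ∑ b ∈ cel d.N (d.cv c) n, d.F n b * u n c b +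
          ∑ c ∈ d.CC, d.wh c * H c * (Real.exp (Om ^ C0) *
            V.cube r (fun m => ((d.w (bs (d.cv c) n + m) - wb : ℝ) : ℂ)) 0 (H c))) := fun n => by
      rw [mul_sum, mul_sum d.CC _ (2 * (C0 : ℝ)), ← sum_add_distrib, ← sum_add_distrib, mul_sum]
      exact sum_congr rfl fun c _ => by ring
    simp only [e]
    rw [ex_mul, ex_add, ex_add, ex_const, ex_mul, ← hT, ex_sum]
    simp only [ex_mul]
    refine mul_le_mul_of_nonneg_left (add_le_add (add_le_add (by gcongr) le_rfl) ?_) hl.le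
    calc _ ≤ ∑ c ∈ d.CC, d.wh c * H c * (δ / 8) := sum_le_sum fun c hc =>
          mul_le_mul_of_nonneg_left (cub c hc) (mul_nonneg (h.pos c hc).1 (Nat.cast_nonneg _))
      _ ≤ _ := by rw [← sum_mul, mul_comm]; gcongr
  have hms : Ms d.HH u := fun n n' hn => by
    ext c b
    simp only [hu]
    split_ifs with hc
    · have e1 := off_congr (h.pos c hc).2 (h.msc c hc n n' hn)
      have e2 : φ n c = φ n' c := by
        ext m
        simp only [hφ, onc, e1]
        split_ifs with hm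
        · exact h.msF _ hm n n' hn
        · rfl
      rw [e1, e2]
    · rfl
  have t2 := h.t2 u hms fun n c b => by
    simp only [hu]
    split_ifs
    · exact (Complex.abs_re_le_norm _).trans (hB.bd _ (s1 _ _) _)
    · simp
  rw [← hT] at t2
  set S := ex fun n : Fin Z => ∑ c ∈ d.CC, d.wh c *
    |∑ b ∈ cel d.N (d.cv c) n, d.f ((n + b) / d.cv c) * u n c b| with hS'
  have S0 : 0 ≤ S := ex_nonneg fun n => sum_nonneg fun c hc =>
    mul_nonneg (h.pos c hc).1 (abs_nonneg _)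
  have fin : c2 / Om * d.N ≤ S := by
    have h1 : c2 * (8 * (C0 + 1)) ≤ δ := (le_div_iff₀ (by positivity)).1 (min_le_right _ _)
    have h2 : (0 : ℝ) ≤ d.N := Nat.cast_nonneg _
    have h3 : (0 : ℝ) ≤ C0 := Nat.cast_nonneg _
    have h4 := mul_le_mul_of_nonneg_right h1 h2
    have h5 := mul_le_mul_of_nonneg_left t2 h3
    have h6 : 0 ≤ Om * S := by positivity
    have h7 : 0 ≤ c2 * d.N := by positivity
    rw [div_mul_eq_mul_div, div_le_iff₀ (by linarith), mul_comm S]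
    refine le_of_mul_le_mul_left (a := (C0 : ℝ) + 1) ?_ (by positivity)
    nlinarith
  -- absolute coordinates
  have ab : ∀ (n : ℕ) (c : ι), ∃ a ∈ res A, ∀ hn : n < Z, c ∈ d.CC →
      |∑ b ∈ cel d.N (d.cv c) n, d.f ((n + b) / d.cv c) * u ⟨n, hn⟩ c b| ≤
        (∑ b ∈ cel d.N (d.cv c) n, pc (fun m => (d.f m : ℂ)) a ((n + b) / d.cv c)).re := by
    intro n c
    by_cases hn : n < Z ∧ c ∈ d.CC
    · obtain ⟨a, ha, e⟩ := hS _ (s1 (H c) (φ ⟨n, hn.1⟩ c)) (bs (d.cv c) n)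
      obtain ⟨a', ha', h1⟩ := ex_rot hB (cel d.N (d.cv c) n) (fun b => (n + b) / d.cv c)
        (fun m => (d.f m : ℂ)) ha
      refine ⟨a', ha', fun _ _ => le_trans (le_trans (le_of_eq ?_) (Complex.abs_re_le_norm _)) h1⟩
      congr 1
      have p2 := (h.pos c hn.2).2
      rw [Complex.re_sum, sum_cel _ p2, sum_cel _ p2]
      refine sum_congr rfl fun m _ => ?_
      split_ifs
      · simp only [hu, if_pos hn.2, rel_div p2, pos_div p2]
        simp [pc, e]
      · rfl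
    · obtain ⟨a, ha⟩ := hB.ne
      exact ⟨a, ha, fun h1 h2 => absurd ⟨h1, h2⟩ hn⟩
  choose a a1 a2 using ab
  refine ⟨a, a1, ?_⟩
  have hZ : (0 : ℝ) < Z := by exact_mod_cast h.Z0
  have h1 := fin.trans (ex_mono (g := fun n : Fin Z => ∑ c ∈ d.CC, d.wh c *
    (∑ b ∈ cel d.N (d.cv c) n, pc (fun m => (d.f m : ℂ)) (a n c) ((n + b) / d.cv c)).re)
    fun n => sum_le_sum fun c hc => mul_le_mul_of_nonneg_left (a2 n c n.2 hc) (h.pos c hc).1)
  rw [ex, Fintype.card_fin, le_div_iff₀ hZ, Fin.sum_univ_eq_sum_range (fun n => ∑ c ∈ d.CC, d.wh c *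
    (∑ b ∈ cel d.N (d.cv c) n, pc (fun m => (d.f m : ℂ)) (a n c) ((n + b) / d.cv c)).re)] at h1
  exact le_trans (le_of_eq (by ring)) h1

end Pool.Agent.P.MP_a14ce1_nt.Fu
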