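import Pool.Agent.P.MP_a14ce1_nt.Fu.StB
import Pool.Agent.P.MP_a14ce1_nt.Fu.Qx
import Pool.Agent.P.MP_a14ce1_nt.Fu.PL2

/-! The low levels under structural hypotheses only: normalisations, marginals, the law Pn. -/

open Finset

namespace Pool.Agent.P.MP_a14ce1_nt.Fu.St

open Ch (pv mu rs lam)

theorem EG_eq_Ep (G : Finset ℕ) (φ : Finset ℕ → ℝ) : EG G φ = PL.Ep PL.kN G φ := rfl

theorem Em_eq_Ep (G : Finset ℕ) (φ : Finset ℕ → ℝ) : Em G φ = PL.Ep PL.kN G φ := rfl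

/-- the structural hypotheses on the low levels -/
structure Str (F : Fam) : Prop where
  pr : ∀ q ∈ F.Lo, q.Prime
  dGR : ∀ t ≤ F.m, Disjoint (F.G t) (F.R t)
  dcl : ∀ s ≤ F.m, ∀ t ≤ F.m, s ≠ t → Disjoint (F.cl s) (F.cl t)
  rR : ∀ t ≤ F.m, F.r t ≤ (F.R t).card
  B1 : ∀ t, 1 ≤ F.B t

variable {F : Fam} {P : Par}

theorem Hyp0.str (h : Hyp0 F P) : Str F :=
  ⟨h.prLo, h.dGR, fun _ hs _ ht e => h.dcl hs ht e, h.rR, h.B1⟩

/-- the structural hypotheses from the tops of the levels -/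
theorem Str.of_tp {tp : ℕ → ℕ} (pr : ∀ q ∈ F.Lo, q.Prime)
    (dGR : ∀ t ≤ F.m, Disjoint (F.G t) (F.R t)) (tpm : Monotone tp)
    (tple : ∀ t ≤ F.m, ∀ q ∈ F.cl t, q ≤ tp t) (tplt : ∀ t < F.m, ∀ q ∈ F.cl (t + 1), tp t < q)
    (rR : ∀ t ≤ F.m, F.r t ≤ (F.R t).card) (B1 : ∀ t, 1 ≤ F.B t) : Str F := by
  refine ⟨pr, dGR, fun s hs t ht hst => ?_, rR, B1⟩
  wlog hlt : s < t generalizing s t
  · exact (this t ht s hs hst.symm (by omega)).symm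
  obtain ⟨u, rfl⟩ : ∃ u, t = u + 1 := ⟨t - 1, by omega⟩
  refine disjoint_left.2 fun q h1 h2 => ?_
  have a := tple s hs q h1
  have b := tplt u (by omega) q h2
  have c := tpm (show s ≤ u by omega)
  omega

theorem mem_Lv {a b q : ℕ} : q ∈ F.Lv a b ↔ ∃ t, a ≤ t ∧ t < b ∧ q ∈ F.cl t := by
  simp only [Fam.Lv, mem_biUnion, mem_Ico, and_assoc]

theorem cl_sub_Lo {t : ℕ} (h : t ≤ F.m) : F.cl t ⊆ F.Lo :=
  F.cl_sub (Nat.zero_le _) (Nat.lt_succ_of_le h)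
theorem G_sub_Lo {t : ℕ} (h : t ≤ F.m) : F.G t ⊆ F.Lo := (F.G_sub t).trans (cl_sub_Lo h)
theorem R_sub_Lo {t : ℕ} (h : t ≤ F.m) : F.R t ⊆ F.Lo := (F.R_sub t).trans (cl_sub_Lo h)

theorem Lv_one (F : Fam) (a : ℕ) : F.Lv a (a + 1) = F.cl a := by simp [Fam.Lv]
theorem wh_self (F : Fam) (a : ℕ) (x : Finset ℕ) : F.wh a a x = 1 := by simp [Fam.wh]
theorem V_self (F : Fam) (a : ℕ) (x : Finset ℕ) : F.V a a x = 1 := by simp [Fam.V]
theorem wh_one (F : Fam) (a : ℕ) : F.wh a (a + 1) = F.wl a := by funext x; simp [Fam.wh]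
theorem V_one (F : Fam) (a : ℕ) : F.V a (a + 1) = F.Vl a := by funext x; simp [Fam.V]

theorem wl_wm (F : Fam) (t : ℕ) : F.wl t = wm (F.G t) (F.R t) (F.wG t) (F.wR t) := by
  funext c; rw [wm, F.wG_inter Subset.rfl, F.wR_inter Subset.rfl]; rfl

theorem wh_wm (F : Fam) {a b c : ℕ} (h1 : a ≤ b) (h2 : b ≤ c) :
    F.wh a c = wm (F.Lv a b) (F.Lv b c) (F.wh a b) (F.wh b c) := by
  funext x; rw [wm, F.wh_inter Subset.rfl, F.wh_inter Subset.rfl, F.wh_split h1 h2]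

theorem wG_eq_wh (F : Fam) (t : ℕ) {c : Finset ℕ} (hc : c ⊆ F.G t) :
    F.wG t c = SB.wh (fun _ => F.B t) (F.G t) c := by
  unfold Fam.wG SB.wh; rw [inter_eq_left.2 hc, prod_const]; rfl

theorem VG_eq_Vb (F : Fam) (t : ℕ) {T : Finset ℕ} (hT : T ⊆ F.G t) :
    F.VG t T = SB.Vb (fun _ => F.B t) (F.G t) T := by
  unfold Fam.VG SB.Vb; rw [inter_eq_left.2 hT, prod_const]; rfl

theorem ZR_eq_es (F : Fam) (t : ℕ) : F.ZR t = PL.es PL.kN (F.R t) (F.r t) :=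
  sum_congr rfl fun Q _ => (PL.prod_kN Q).symm

theorem card_of_wl {t : ℕ} {c : Finset ℕ} (h : F.wl t c ≠ 0) : (c ∩ F.R t).card = F.r t := by
  by_contra e
  exact h (by simp [Fam.wl, Fam.wR, e])

theorem card_of_wh {a b t : ℕ} {c : Finset ℕ} (h : F.wh a b c ≠ 0) (h1 : a ≤ t) (h2 : t < b) :
    (c ∩ F.R t).card = F.r t :=
  card_of_wl fun e => h (prod_eq_zero (mem_Ico.2 ⟨h1, h2⟩) e)

theorem card_of_w {t : ℕ} {c : Finset ℕ} (h : F.w c ≠ 0) (ht : t ≤ F.m) :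
    (c ∩ F.R t).card = F.r t := card_of_wh h (Nat.zero_le _) (Nat.lt_succ_of_le ht)

theorem sum_wR (F : Fam) (t : ℕ) {T : Finset ℕ} (hT : T ⊆ F.R t) (φ : Finset ℕ → ℝ) :
    ∑ c ∈ T.powerset, F.wR t c * φ c = (∑ c ∈ T.powersetCard (F.r t), φ c) / F.ZR t := by
  rw [powersetCard_eq_filter, sum_filter, sum_div]
  refine sum_congr rfl fun c hc => ?_
  unfold Fam.wR
  rw [inter_eq_left.2 ((mem_powerset.1 hc).trans hT)]
  split_ifs
  · ring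
  · simp

theorem Vt_wm_inter {X Y T : Finset ℕ} (hd : Disjoint X Y) (hT : T ⊆ X ∪ Y)
    (w w' : Finset ℕ → ℝ) : Vt (wm X Y w w') T = Vt w (T ∩ X) * Vt w' (T ∩ Y) := by
  rw [← Vt_wm hd inter_subset_right inter_subset_right, ← inter_union_distrib_left,
    inter_eq_left.2 hT]

theorem Et_wm_right {X Y : Finset ℕ} {w w' : Finset ℕ → ℝ} (h : Disjoint X Y) (h1 : Nrm X w)
    (φ : Finset ℕ → Finset ℕ → ℝ) :
    Et (X ∪ Y) (wm X Y w w') (fun c A => φ (c ∩ Y) (A ∩ Y)) = Et Y w' φ := by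
  rw [wm_comm, union_comm]; exact Et_wm_left h.symm h1 φ

theorem rs_mono {S S' : Finset ℕ} (h : S ⊆ S') : rs S ≤ rs S' :=
  sum_le_sum_of_subset_of_nonneg h fun _ _ _ => by positivity

theorem rs_nonneg (S : Finset ℕ) : 0 ≤ rs S := sum_nonneg fun _ _ => by positivity

namespace Str

variable (h : Str F)
include h

theorem disj_Lv {a b a' b' : ℕ} (h1 : b ≤ a') (h2 : b' ≤ F.m + 1) :
    Disjoint (F.Lv a b) (F.Lv a' b') := by
  rw [disjoint_left]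
  intro q hq hq'
  obtain ⟨s, -, c2, c3⟩ := mem_Lv.1 hq
  obtain ⟨t, d1, d2, d3⟩ := mem_Lv.1 hq'
  exact disjoint_left.1 (h.dcl s (by omega) t (by omega) (by omega)) c3 d3

theorem disj_Lv_cl {a b t : ℕ} (h1 : b ≤ t) (h2 : t ≤ F.m) : Disjoint (F.Lv a b) (F.cl t) := by
  rw [← Lv_one]; exact h.disj_Lv h1 (by omega)

theorem one_le_ZG (t : ℕ) : 1 ≤ F.ZG t :=
  one_le_prod fun q _ => by
    have := h.B1 t
    have : 0 ≤ F.B t / q := by positivity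
    linarith

theorem ZG_pos (t : ℕ) : 0 < F.ZG t := by linarith [h.one_le_ZG t]

theorem pv_pos {c : Finset ℕ} (hc : c ⊆ F.Lo) : 0 < pv c :=
  Ch.Main.pv_pos fun q hq => h.pr q (hc hq)

theorem ZR_pos {t : ℕ} (ht : t ≤ F.m) : 0 < F.ZR t := by
  refine sum_pos (fun Q hQ => ?_) (powersetCard_nonempty.2 (h.rR t ht))
  have : 0 < pv Q := h.pv_pos ((mem_powersetCard.1 hQ).1.trans (R_sub_Lo ht))
  positivity

theorem wG_pos (t : ℕ) (c : Finset ℕ) : 0 < F.wG t c := by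
  have := h.B1 t; have := h.ZG_pos t; unfold Fam.wG; positivity

theorem wl_nonneg (t : ℕ) (c : Finset ℕ) : 0 ≤ F.wl t c :=
  mul_nonneg (h.wG_pos t c).le (F.wR_nonneg t c)

theorem wh_nonneg (a b : ℕ) (c : Finset ℕ) : 0 ≤ F.wh a b c :=
  prod_nonneg fun t _ => h.wl_nonneg t c

theorem w_nonneg (c : Finset ℕ) : 0 ≤ F.w c := h.wh_nonneg _ _ c

theorem VG_pos (t : ℕ) (T : Finset ℕ) : 0 < F.VG t T := by
  have := h.B1 t; have := h.ZG_pos t; unfold Fam.VG; positivity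

theorem Vl_nonneg (t : ℕ) (T : Finset ℕ) : 0 ≤ F.Vl t T :=
  mul_nonneg (h.VG_pos t T).le (F.VR_nonneg t T)

theorem V_nonneg (a b : ℕ) (T : Finset ℕ) : 0 ≤ F.V a b T :=
  prod_nonneg fun t _ => h.Vl_nonneg t T

theorem wt {t : ℕ} (ht : t ≤ F.m) : PL.Wt (fun _ => F.B t) (F.G t) :=
  fun p hp => ⟨(h.pr p (G_sub_Lo ht hp)).one_le, by linarith [h.B1 t]⟩

theorem nrm_G {t : ℕ} (ht : t ≤ F.m) : Nrm (F.G t) (F.wG t) := by
  refine ⟨fun c => (h.wG_pos t c).le, ?_⟩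
  have := PL.sum_nu_eq (h.wt ht) fun _ => 1
  rw [PL.Ep_const] at this
  rw [← this]
  exact sum_congr rfl fun c hc => by rw [wG_eq_wh F t (mem_powerset.1 hc), mul_one]

theorem nrm_R {t : ℕ} (ht : t ≤ F.m) : Nrm (F.R t) (F.wR t) := by
  refine ⟨F.wR_nonneg t, ?_⟩
  have := sum_wR F t Subset.rfl fun c => 1 / (pv c : ℝ)
  simp only [mul_one_div] at this
  rw [this]
  exact div_self (h.ZR_pos ht).ne'

theorem nrm_l {t : ℕ} (ht : t ≤ F.m) : Nrm (F.cl t) (F.wl t) := by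
  rw [wl_wm]; exact Nrm.wm (h.dGR t ht) (h.nrm_G ht) (h.nrm_R ht)

theorem nrm_wh (a : ℕ) {b : ℕ} (hb : b ≤ F.m + 1) : Nrm (F.Lv a b) (F.wh a b) := by
  induction b with
  | zero => exact ⟨h.wh_nonneg _ _, by simp [Fam.Lv, Fam.wh, pv]⟩
  | succ b ih =>
    rcases le_or_gt a b with c | c
    · rw [wh_wm F c (Nat.le_succ b), F.Lv_split c (Nat.le_succ b)]
      refine Nrm.wm (h.disj_Lv le_rfl hb) (ih (by omega)) ?_
      rw [Lv_one, wh_one]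
      exact h.nrm_l (by omega)
    · exact ⟨h.wh_nonneg _ _, by simp [Fam.Lv, Fam.wh, pv, Ico_eq_empty_of_le (Nat.succ_le_of_lt c)]⟩

theorem nrm_w : Nrm F.Lo F.w := h.nrm_wh 0 le_rfl

theorem sum_w_div : ∑ c ∈ F.Lo.powerset, F.w c / pv c = 1 := h.nrm_w.2

theorem wh_le_pv {a b : ℕ} (hb : b ≤ F.m + 1) {c : Finset ℕ} (hc : c ⊆ F.Lv a b) :
    F.wh a b c ≤ pv c := by
  have h1 : (0 : ℝ) < pv c := by exact_mod_cast h.pv_pos (hc.trans (F.Lv_sub hb))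
  rw [← div_le_one h1, ← (h.nrm_wh a hb).2]
  exact single_le_sum (f := fun c => F.wh a b c / (pv c : ℝ))
    (fun c _ => div_nonneg (h.wh_nonneg _ _ _) (Nat.cast_nonneg _)) (mem_powerset.2 hc)

theorem w_le_pv {c : Finset ℕ} (hc : c ⊆ F.Lo) : F.w c ≤ pv c := h.wh_le_pv le_rfl hc

theorem Vt_wl {t : ℕ} (ht : t ≤ F.m) {T : Finset ℕ} (hT : T ⊆ F.cl t) :
    Vt (F.wl t) T = F.Vl t T := by
  rw [wl_wm, Vt_wm_inter (h.dGR t ht) hT, F.Vt_wG inter_subset_right,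
    F.Vt_wR inter_subset_right, F.VG_inter Subset.rfl, F.VR_inter Subset.rfl]
  rfl

theorem Vt_wh (a : ℕ) {b : ℕ} (hb : b ≤ F.m + 1) {T : Finset ℕ}
    (hT : T ⊆ F.Lv a b) : Vt (F.wh a b) T = F.V a b T := by
  induction b generalizing T with
  | zero =>
    rw [subset_empty.1 (by simpa [Fam.Lv] using hT : T ⊆ ∅)]
    simp [Vt, Fam.wh, Fam.V]
  | succ b ih =>
    rcases le_or_gt a b with c | c
    · rw [F.Lv_split c (Nat.le_succ b)] at hT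
      rw [wh_wm F c (Nat.le_succ b), Vt_wm_inter (h.disj_Lv le_rfl hb) hT,
        ih (by omega) inter_subset_right, Lv_one, wh_one,
        h.Vt_wl (by omega) inter_subset_right, F.V_inter Subset.rfl, F.Vl_inter Subset.rfl,
        F.V_succ c]
    · have e := Ico_eq_empty_of_le (Nat.succ_le_of_lt c)
      rw [subset_empty.1 (by simpa [Fam.Lv, e] using hT : T ⊆ ∅)]
      simp [Vt, Fam.wh, Fam.V, e]

theorem sum_wh (a : ℕ) {b : ℕ} (hb : b ≤ F.m + 1) {T : Finset ℕ}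
    (hT : T ⊆ F.Lv a b) : ∑ c ∈ T.powerset, F.wh a b c = F.V a b T := h.Vt_wh a hb hT

theorem sum_w {T : Finset ℕ} (hT : T ⊆ F.Lo) :
    ∑ c ∈ T.powerset, F.w c = F.V 0 (F.m + 1) T := h.sum_wh 0 le_rfl hT

theorem wh_le_V (a : ℕ) {b : ℕ} (hb : b ≤ F.m + 1) {c T : Finset ℕ} (hc : c ⊆ T) :
    F.wh a b c ≤ F.V a b T := by
  rw [← F.wh_inter (Subset.refl (F.Lv a b)), ← F.V_inter (Subset.refl (F.Lv a b)),
    ← h.Vt_wh a hb inter_subset_right]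
  exact le_Vt (h.wh_nonneg a b) (inter_subset_inter hc Subset.rfl)

theorem EG_V (a : ℕ) {b : ℕ} (hb : b ≤ F.m + 1) : EG (F.Lv a b) (F.V a b) = 1 := by
  rw [← (h.nrm_wh a hb).mean]
  exact Em_congr fun T hT => (h.Vt_wh a hb hT).symm

theorem EG_VG {t : ℕ} (ht : t ≤ F.m) : EG (F.G t) (F.VG t) = 1 := by
  rw [← (h.nrm_G ht).mean]
  exact Em_congr fun T hT => (F.Vt_wG hT).symm

theorem EG_VR {t : ℕ} (ht : t ≤ F.m) : EG (F.R t) (F.VR t) = 1 := by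
  rw [← (h.nrm_R ht).mean]
  exact Em_congr fun T hT => (F.Vt_wR hT).symm

theorem EG_Vl {t : ℕ} (ht : t ≤ F.m) : EG (F.cl t) (F.Vl t) = 1 := by
  rw [← (h.nrm_l ht).mean]
  exact Em_congr fun T hT => (h.Vt_wl ht hT).symm

/-! ### marginals of the law of (c, T) -/

theorem Et_Lv {a b : ℕ} (hab : a ≤ b) (hb : b ≤ F.m + 1) (φ : Finset ℕ → Finset ℕ → ℝ) :
    Et F.Lo F.w (fun c T => φ (c ∩ F.Lv a b) (T ∩ F.Lv a b)) = Et (F.Lv a b) (F.wh a b) φ := by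
  have e1 := Et_wm_left (w := F.wh 0 b) (h.disj_Lv (a := 0) (le_refl b) le_rfl) (h.nrm_wh b le_rfl)
    fun c T => φ (c ∩ F.Lv a b) (T ∩ F.Lv a b)
  have e2 := Et_wm_right (w' := F.wh a b) (h.disj_Lv (a := 0) (le_refl a) hb)
    (h.nrm_wh 0 (hab.trans hb)) φ
  rw [← wh_wm F (Nat.zero_le _) hb, ← F.Lv_split (Nat.zero_le _) hb] at e1
  rw [← wh_wm F (Nat.zero_le _) hab, ← F.Lv_split (Nat.zero_le _) hab] at e2
  rw [← e2, ← e1]
  simp only [inter_inter (F.Lv_mono (Nat.zero_le a) (le_refl b))]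
  rfl

theorem Et_cl {t : ℕ} (ht : t ≤ F.m) (φ : Finset ℕ → Finset ℕ → ℝ) :
    Et F.Lo F.w (fun c T => φ (c ∩ F.cl t) (T ∩ F.cl t)) = Et (F.cl t) (F.wl t) φ := by
  have := h.Et_Lv (Nat.le_succ t) (Nat.succ_le_succ ht) φ
  rwa [Lv_one, wh_one] at this

theorem Et_G {t : ℕ} (ht : t ≤ F.m) (φ : Finset ℕ → Finset ℕ → ℝ) :
    Et F.Lo F.w (fun c T => φ (c ∩ F.G t) (T ∩ F.G t)) = Et (F.G t) (F.wG t) φ := by
  rw [← Et_wm_left (h.dGR t ht) (h.nrm_R ht) φ, ← wl_wm]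
  have := h.Et_cl ht fun c T => φ (c ∩ F.G t) (T ∩ F.G t)
  simp only [inter_inter (F.G_sub t)] at this
  exact this

theorem Et_R {t : ℕ} (ht : t ≤ F.m) (φ : Finset ℕ → Finset ℕ → ℝ) :
    Et F.Lo F.w (fun c T => φ (c ∩ F.R t) (T ∩ F.R t)) = Et (F.R t) (F.wR t) φ := by
  rw [← Et_wm_right (h.dGR t ht) (h.nrm_G ht) φ, ← wl_wm]
  have := h.Et_cl ht fun c T => φ (c ∩ F.R t) (T ∩ F.R t)
  simp only [inter_inter (F.R_sub t)] at this
  exact this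

end Str

/-! ### the law Pn -/

theorem Pn_eq (F : Fam) (E : Finset ℕ → Finset ℕ → Prop) [∀ c T, Decidable (E c T)] :
    F.Pn E = Et F.Lo F.w fun c T => if E c T then 1 else 0 := by
  refine Em_congr fun T _ => sum_congr rfl fun c _ => ?_
  by_cases e : E c T <;> simp [e]

/-- events of the cofactor only -/
theorem Pn_obj (F : Fam) (E : Finset ℕ → Prop) [DecidablePred E] :
    F.Pn (fun c _ => E c) = ∑ c ∈ F.Lo.powerset with E c, F.w c / pv c := by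
  rw [Pn_eq, Et_obj F.Lo F.w fun c => if E c then 1 else 0, sum_filter]
  exact sum_congr rfl fun c _ => by split_ifs <;> simp

namespace Str

variable (h : Str F)
include h

theorem Pn_le_Et {E : Finset ℕ → Finset ℕ → Prop} {φ : Finset ℕ → Finset ℕ → ℝ}
    (h0 : ∀ T ⊆ F.Lo, ∀ c ⊆ T, F.w c ≠ 0 → 0 ≤ φ c T)
    (h1 : ∀ T ⊆ F.Lo, ∀ c ⊆ T, F.w c ≠ 0 → E c T → 1 ≤ φ c T) : F.Pn E ≤ Et F.Lo F.w φ := by
  classical
  rw [Pn_eq]
  refine Et_mono h.w_nonneg fun T hT c hc hw => ?_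
  split_ifs with e
  · exact h1 T hT c hc hw e
  · exact h0 T hT c hc hw

theorem Pn_nonneg (E : Finset ℕ → Finset ℕ → Prop) : 0 ≤ F.Pn E := by
  classical
  rw [Pn_eq]
  exact Et_nonneg h.w_nonneg fun _ _ _ _ => by split_ifs <;> norm_num

theorem Pn_le_one (E : Finset ℕ → Finset ℕ → Prop) : F.Pn E ≤ 1 :=
  (h.Pn_le_Et (φ := fun _ _ => 1) (fun _ _ _ _ _ => zero_le_one) fun _ _ _ _ _ _ => le_rfl).trans
    (h.nrm_w.const 1).le

theorem Pn_mono {E E' : Finset ℕ → Finset ℕ → Prop}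
    (h1 : ∀ T ⊆ F.Lo, ∀ c ⊆ T, F.w c ≠ 0 → E c T → E' c T) : F.Pn E ≤ F.Pn E' := by
  classical
  rw [Pn_eq F E']
  exact h.Pn_le_Et (fun _ _ _ _ _ => by split_ifs <;> norm_num)
    fun T hT c hc hw e => by rw [if_pos (h1 T hT c hc hw e)]

theorem Pn_or (E E' : Finset ℕ → Finset ℕ → Prop) :
    F.Pn (fun c T => E c T ∨ E' c T) ≤ F.Pn E + F.Pn E' := by
  classical
  rw [Pn_eq F E, Pn_eq F E', ← Et_add]
  refine h.Pn_le_Et (fun _ _ _ _ _ => by split_ifs <;> norm_num) fun T _ c _ _ e => ?_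
  split_ifs with c1 c2 c2
  · norm_num
  · norm_num
  · norm_num
  · exact absurd e (not_or.2 ⟨c1, c2⟩)

theorem Pn_exists {ι : Type*} (s : Finset ι) (E : ι → Finset ℕ → Finset ℕ → Prop) :
    F.Pn (fun c T => ∃ i ∈ s, E i c T) ≤ ∑ i ∈ s, F.Pn (E i) := by
  classical
  simp only [Pn_eq F (E _)]
  rw [← Et_sum]
  refine h.Pn_le_Et (fun _ _ _ _ _ => sum_nonneg fun _ _ => by split_ifs <;> norm_num) ?_
  rintro T _ c _ _ ⟨i, hi, e⟩
  refine le_trans (le_of_eq ?_) (single_le_sum (f := fun i => if E i c T then (1 : ℝ) else 0)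
    (fun _ _ => by split_ifs <;> norm_num) hi)
  simp only [if_pos e]

theorem Pn_exists_le (n : ℕ) (E : ℕ → Finset ℕ → Finset ℕ → Prop) :
    F.Pn (fun c T => ∃ t ≤ n, E t c T) ≤ ∑ t ∈ range (n + 1), F.Pn (E t) :=
  (h.Pn_mono fun _ _ _ _ _ ⟨t, ht, e⟩ => ⟨t, mem_range.2 (Nat.lt_succ_of_le ht), e⟩).trans
    (h.Pn_exists _ E)

theorem Pn_not (E : Finset ℕ → Finset ℕ → Prop) :
    F.Pn (fun c T => ¬ E c T) = 1 - F.Pn E := by
  classical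
  rw [eq_sub_iff_add_eq, Pn_eq, Pn_eq, ← Et_add]
  refine Eq.trans (Et_congr fun T _ c _ => ?_) (h.nrm_w.const 1)
  by_cases e : E c T <;> simp [e]

/-- events of the site only -/
theorem Pn_site (E : Finset ℕ → Prop) [DecidablePred E] :
    F.Pn (fun _ T => E T) = EG F.Lo fun T => if E T then F.V 0 (F.m + 1) T else 0 := by
  rw [Pn_eq, Et_site F.Lo F.w fun T => if E T then 1 else 0]
  refine Em_congr fun T hT => ?_
  rw [show Vt F.w T = F.V 0 (F.m + 1) T from h.sum_w hT]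
  split_ifs <;> simp

end Str

end Pool.Agent.P.MP_a14ce1_nt.Fu.St
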