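import Pool.Agent.P.MP_a14ce1_nt.Fu.Info

/-!
# Tool TEST (resampling the hidden residues in a test function)

`mcd`: moment generating function bound for functions with bounded differences on a finite product.
`test`: a function `G φ κ` of the hidden coordinates, chosen according to a class `κ` from a list of
at most `exp (H φ)` classes, cannot tell the true hidden coordinates from fresh ones.
-/

open Finset
open scoped BigOperators

namespace Pool.Agent.P.MP_a14ce1_nt.Fu.Test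

variable {ι : Type*} [Fintype ι] [DecidableEq ι] {α : ι → Type*} [∀ i, Fintype (α i)]
  [∀ i, Nonempty (α i)]

omit [∀ i, Nonempty (α i)] in
lemma sum_upd (i : ι) (h : (∀ i, α i) → ℝ) :
    ∑ a : α i, ∑ y : (∀ i, α i), h (Function.update y i a)
      = Fintype.card (α i) * ∑ y, h y := by
  have hb : Function.Involutive
      (fun p : α i × (∀ i, α i) => ((p.2 i, Function.update p.2 i p.1) : α i × (∀ i, α i))) := by
    rintro ⟨a, y⟩
    simp
  have h1 := Fintype.sum_equiv hb.toPerm (fun p => h (Function.update p.2 i p.1))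
    (fun p => h p.2) (fun p => rfl)
  rw [Fintype.sum_prod_type, Fintype.sum_prod_type] at h1
  rw [h1]
  simp

/-- resampling one coordinate -/
lemma exp_upd (i : ι) (h : (∀ i, α i) → ℝ) :
    𝔼 a : α i, 𝔼 y : (∀ i, α i), h (Function.update y i a) = 𝔼 y, h y := by
  have h1 : (Fintype.card (α i) : ℝ) ≠ 0 := by exact_mod_cast Fintype.card_ne_zero
  simp only [Finset.expect_eq_sum_div_card, Finset.card_univ]
  rw [← Finset.sum_div, sum_upd]
  field_simp

lemma exp_le_quad {y : ℝ} (hy : |y| ≤ 1) : Real.exp y ≤ 1 + y + y ^ 2 := by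
  have := Real.abs_exp_sub_one_sub_id_le hy
  linarith [(abs_le.1 this).2]

lemma one_mgf {β : Type*} [Fintype β] [Nonempty β] (φ : β → ℝ) {s θ : ℝ}
    (hφ : ∀ a b, |φ a - φ b| ≤ s) (hθ : |θ| * s ≤ 1) :
    𝔼 a, Real.exp (θ * (φ a - 𝔼 b, φ b)) ≤ Real.exp (θ ^ 2 * s ^ 2) := by
  have h1 : ∀ a, |φ a - 𝔼 b, φ b| ≤ s := by
    intro a
    have e : φ a - 𝔼 b, φ b = 𝔼 b, (φ a - φ b) := by
      rw [Finset.expect_sub_distrib, Finset.expect_const Finset.univ_nonempty]
    rw [e, abs_le]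
    exact ⟨Finset.le_expect Finset.univ_nonempty fun b _ => (abs_le.1 (hφ a b)).1,
      Finset.expect_le Finset.univ_nonempty fun b _ => (abs_le.1 (hφ a b)).2⟩
  have h2 : ∀ a, Real.exp (θ * (φ a - 𝔼 b, φ b))
      ≤ (1 + θ ^ 2 * s ^ 2) + θ * (φ a - 𝔼 b, φ b) := by
    intro a
    have h3 : |θ * (φ a - 𝔼 b, φ b)| ≤ |θ| * s := by
      rw [abs_mul]; exact mul_le_mul_of_nonneg_left (h1 a) (abs_nonneg _)
    have h4 := exp_le_quad (h3.trans hθ)
    have h5 : (θ * (φ a - 𝔼 b, φ b)) ^ 2 ≤ θ ^ 2 * s ^ 2 := by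
      rw [← sq_abs, ← sq_abs θ, ← mul_pow]
      exact pow_le_pow_left₀ (abs_nonneg _) h3 2
    linarith
  refine (Finset.expect_le_expect fun a _ => h2 a).trans ?_
  rw [Finset.expect_add_distrib, Finset.expect_const Finset.univ_nonempty, ← Finset.mul_expect,
    Finset.expect_sub_distrib, Finset.expect_const Finset.univ_nonempty, sub_self, mul_zero,
    add_zero]
  linarith [Real.add_one_le_exp (θ ^ 2 * s ^ 2)]

omit [Fintype ι] [∀ i, Fintype (α i)] [∀ i, Nonempty (α i)] in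
lemma pw_upd {S : Finset ι} {i : ι} (hi : i ∉ S) (x y : ∀ i, α i) (a : α i) :
    (insert i S).piecewise (Function.update y i a) x
      = S.piecewise y (Function.update x i a) := by
  funext j
  by_cases hj : j = i
  · subst hj
    simp [Finset.piecewise, hi]
  · by_cases hS : j ∈ S <;> simp [Finset.piecewise, hj, hS]

omit [Fintype ι] [∀ i, Fintype (α i)] [∀ i, Nonempty (α i)] in
lemma pw_upd' {S : Finset ι} {i : ι} (hi : i ∉ S) (x y : ∀ i, α i) (a b : α i) :
    S.piecewise y (Function.update x i a)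
      = Function.update (S.piecewise y (Function.update x i b)) i a := by
  funext j
  by_cases hj : j = i
  · subst hj
    simp [Finset.piecewise, hi]
  · by_cases hS : j ∈ S <;> simp [Finset.piecewise, hj, hS]

lemma mcd_aux (F : (∀ i, α i) → ℝ) (s : ι → ℝ) (θ : ℝ)
    (hF : ∀ x i a, |F (Function.update x i a) - F x| ≤ s i) (hθ : ∀ i, |θ| * s i ≤ 1)
    (S : Finset ι) : ∀ x : (∀ i, α i),
    𝔼 y, Real.exp (θ * (F (S.piecewise y x) - 𝔼 z, F (S.piecewise z x)))
      ≤ Real.exp (θ ^ 2 * ∑ i ∈ S, s i ^ 2) := by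
  induction S using Finset.induction_on with
  | empty => intro x; simp
  | insert i S hi ih =>
    intro x
    set φ : α i → ℝ := fun a => 𝔼 z, F (S.piecewise z (Function.update x i a)) with hφ
    have e1 : 𝔼 z, F ((insert i S).piecewise z x) = 𝔼 a, φ a := by
      rw [← exp_upd i (fun z => F ((insert i S).piecewise z x))]
      simp only [pw_upd hi, hφ]
    have hosc : ∀ a b, |φ a - φ b| ≤ s i := by
      intro a b
      simp only [hφ]
      rw [← Finset.expect_sub_distrib, abs_le]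
      have h1 : ∀ z : (∀ i, α i), |F (S.piecewise z (Function.update x i a))
          - F (S.piecewise z (Function.update x i b))| ≤ s i := by
        intro z
        rw [pw_upd' hi x z a b]
        exact hF _ _ _
      exact ⟨Finset.le_expect Finset.univ_nonempty fun z _ => (abs_le.1 (h1 z)).1,
        Finset.expect_le Finset.univ_nonempty fun z _ => (abs_le.1 (h1 z)).2⟩
    rw [e1, ← exp_upd i (fun y => Real.exp (θ * (F ((insert i S).piecewise y x) - 𝔼 a, φ a)))]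
    simp only [pw_upd hi]
    have h2 : ∀ a : α i, 𝔼 y : (∀ i, α i),
        Real.exp (θ * (F (S.piecewise y (Function.update x i a)) - 𝔼 a, φ a))
        ≤ Real.exp (θ ^ 2 * ∑ i ∈ S, s i ^ 2) * Real.exp (θ * (φ a - 𝔼 b, φ b)) := by
      intro a
      have e2 : ∀ y : (∀ i, α i),
          Real.exp (θ * (F (S.piecewise y (Function.update x i a)) - 𝔼 a, φ a))
          = Real.exp (θ * (F (S.piecewise y (Function.update x i a)) - φ a))
            * Real.exp (θ * (φ a - 𝔼 b, φ b)) := by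
        intro y; rw [← Real.exp_add]; congr 1; ring
      simp only [e2]
      rw [← Finset.expect_mul]
      exact mul_le_mul_of_nonneg_right (ih _) (Real.exp_pos _).le
    refine (Finset.expect_le_expect fun a _ => h2 a).trans ?_
    rw [← Finset.mul_expect, Finset.sum_insert hi, mul_add, Real.exp_add, mul_comm]
    exact mul_le_mul_of_nonneg_right (one_mgf φ hosc (hθ i)) (Real.exp_pos _).le

end Pool.Agent.P.MP_a14ce1_nt.Fu.Test

namespace Pool.Agent.P.MP_a14ce1_nt.Fu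
open Test

variable {ι : Type*} [Fintype ι] [DecidableEq ι] {α : ι → Type*} [∀ i, Fintype (α i)]
  [∀ i, Nonempty (α i)]

/-- bounded differences: moment generating function -/
theorem mcd (F : (∀ i, α i) → ℝ) (s : ι → ℝ) (θ : ℝ)
    (hF : ∀ x i a, |F (Function.update x i a) - F x| ≤ s i) (hθ : ∀ i, |θ| * s i ≤ 1) :
    𝔼 y, Real.exp (θ * (F y - 𝔼 z, F z)) ≤ Real.exp (θ ^ 2 * ∑ i, s i ^ 2) := by
  have := mcd_aux F s θ hF hθ Finset.univ (Classical.arbitrary _)
  simpa using this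

lemma test_one {Ω Φ κ : Type*} [Fintype Ω] [Nonempty Ω] (φ : Ω → Φ) (ρ : Ω → ∀ i, α i)
    (hρ : ∀ F : Φ → (∀ i, α i) → ℝ, 𝔼 w, F (φ w) (ρ w) = 𝔼 w, 𝔼 x, F (φ w) x)
    (cls : Ω → κ) (A : Φ → Finset κ) (hA : ∀ w, cls w ∈ A (φ w)) (H : Φ → ℝ)
    (hH : ∀ w, ((A (φ w)).card : ℝ) ≤ Real.exp (H (φ w)))
    (G : Φ → κ → (∀ i, α i) → ℝ) (s : ι → ℝ)
    (hG : ∀ w, ∀ c ∈ A (φ w), ∀ x i a,
      |G (φ w) c (Function.update x i a) - G (φ w) c x| ≤ s i)
    (θ : ℝ) (hθ : ∀ i, |θ| * s i ≤ 1) :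
    θ * (𝔼 w, G (φ w) (cls w) (ρ w) - 𝔼 w, 𝔼 x, G (φ w) (cls w) x)
      ≤ 𝔼 w, H (φ w) + θ ^ 2 * ∑ i, s i ^ 2 := by
  set m := θ ^ 2 * ∑ i, s i ^ 2 with hm
  let E : Φ → (∀ i, α i) → ℝ := fun f x =>
    ∑ c ∈ A f, Real.exp (θ * (G f c x - 𝔼 z, G f c z)) * Real.exp (-(H f + m))
  have h1 : ∀ w, θ * (G (φ w) (cls w) (ρ w) - 𝔼 x, G (φ w) (cls w) x)
      ≤ H (φ w) + (m - 1) + E (φ w) (ρ w) := by
    intro w
    have h2 : Real.exp (θ * (G (φ w) (cls w) (ρ w) - 𝔼 z, G (φ w) (cls w) z))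
        * Real.exp (-(H (φ w) + m)) ≤ E (φ w) (ρ w) :=
      Finset.single_le_sum (f := fun c => Real.exp (θ * (G (φ w) c (ρ w) - 𝔼 z, G (φ w) c z))
        * Real.exp (-(H (φ w) + m))) (fun c _ => by positivity) (hA w)
    rw [← Real.exp_add] at h2
    linarith [Real.add_one_le_exp (θ * (G (φ w) (cls w) (ρ w) - 𝔼 z, G (φ w) (cls w) z)
      + -(H (φ w) + m))]
  have h3 : ∀ w, 𝔼 x, E (φ w) x ≤ 1 := by
    intro w
    simp only [E]
    rw [Finset.expect_sum_comm]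
    calc ∑ c ∈ A (φ w), 𝔼 x, Real.exp (θ * (G (φ w) c x - 𝔼 z, G (φ w) c z))
            * Real.exp (-(H (φ w) + m))
        ≤ ∑ _c ∈ A (φ w), Real.exp m * Real.exp (-(H (φ w) + m)) :=
          Finset.sum_le_sum fun c hc => by
            rw [← Finset.expect_mul]
            exact mul_le_mul_of_nonneg_right (mcd _ s θ (hG w c hc) hθ) (Real.exp_pos _).le
      _ = (A (φ w)).card * Real.exp (-H (φ w)) := by
          rw [Finset.sum_const, nsmul_eq_mul, ← Real.exp_add]; congr 2; ring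
      _ ≤ Real.exp (H (φ w)) * Real.exp (-H (φ w)) :=
          mul_le_mul_of_nonneg_right (hH w) (Real.exp_pos _).le
      _ = 1 := by rw [← Real.exp_add]; simp
  rw [← Finset.expect_sub_distrib, Finset.mul_expect]
  refine (Finset.expect_le_expect fun w _ => h1 w).trans ?_
  rw [Finset.expect_add_distrib, Finset.expect_add_distrib,
    Finset.expect_const Finset.univ_nonempty, hρ E]
  have := Finset.expect_le Finset.univ_nonempty fun w (_ : w ∈ Finset.univ) => h3 w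
  linarith

/-- **TEST**, fibred form. `φ` is the known part of the sample point, `ρ` the hidden coordinates
(uniform and independent of `φ`), `cls w` a class from a list `A (φ w)` of at most `exp (H (φ w))`
classes. -/
theorem test_fib {Ω Φ κ : Type*} [Fintype Ω] [Nonempty Ω] (φ : Ω → Φ) (ρ : Ω → ∀ i, α i)
    (hρ : ∀ F : Φ → (∀ i, α i) → ℝ, 𝔼 w, F (φ w) (ρ w) = 𝔼 w, 𝔼 x, F (φ w) x)
    (cls : Ω → κ) (A : Φ → Finset κ) (hA : ∀ w, cls w ∈ A (φ w)) (H : Φ → ℝ)
    (hH : ∀ w, ((A (φ w)).card : ℝ) ≤ Real.exp (H (φ w)))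
    (G : Φ → κ → (∀ i, α i) → ℝ) (s : ι → ℝ)
    (hG : ∀ w, ∀ c ∈ A (φ w), ∀ x i a,
      |G (φ w) c (Function.update x i a) - G (φ w) c x| ≤ s i)
    (θ : ℝ) (hθ0 : 0 < θ) (hθ : ∀ i, θ * s i ≤ 1) :
    |𝔼 w, G (φ w) (cls w) (ρ w) - 𝔼 w, 𝔼 x, G (φ w) (cls w) x|
      ≤ (𝔼 w, H (φ w)) / θ + θ * ∑ i, s i ^ 2 := by
  have h1 := test_one φ ρ hρ cls A hA H hH G s hG θ (by simpa [abs_of_pos hθ0] using hθ)
  have h2 := test_one φ ρ hρ cls A hA H hH G s hG (-θ) (by simpa [abs_of_pos hθ0] using hθ)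
  have e : (𝔼 w, H (φ w)) / θ + θ * ∑ i, s i ^ 2
      = (𝔼 w, H (φ w) + θ ^ 2 * ∑ i, s i ^ 2) / θ := by field_simp
  rw [e, abs_le]
  constructor
  · rw [neg_le, le_div_iff₀ hθ0]; rw [neg_sq] at h2; linarith
  · rw [le_div_iff₀ hθ0]; linarith

/-- **TEST**. -/
theorem test {Ω κ : Type*} [Fintype Ω] [Nonempty Ω] (ρ : Ω → ∀ i, α i)
    (hρ : ∀ F : (∀ i, α i) → ℝ, 𝔼 w, F (ρ w) = 𝔼 x, F x)
    (cls : Ω → κ) (A : Finset κ) (hA : ∀ w, cls w ∈ A) (H : ℝ)
    (hH : (A.card : ℝ) ≤ Real.exp H) (G : κ → (∀ i, α i) → ℝ) (s : ℝ)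
    (hG : ∀ c ∈ A, ∀ x i a, |G c (Function.update x i a) - G c x| ≤ s)
    (θ : ℝ) (hθ0 : 0 < θ) (hθ : θ * s ≤ 1) :
    |𝔼 w, G (cls w) (ρ w) - 𝔼 w, 𝔼 x, G (cls w) x|
      ≤ H / θ + θ * (Fintype.card ι * s ^ 2) := by
  have := test_fib (Φ := Unit) (fun _ => ()) ρ
    (fun F => by rw [hρ (F ()), Finset.expect_const Finset.univ_nonempty])
    cls (fun _ => A) hA (fun _ => H) (fun _ => hH) (fun _ => G) (fun _ => s)
    (fun _ => hG) θ hθ0 (fun _ => hθ)
  simpa [Finset.expect_const Finset.univ_nonempty] using this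

theorem ex_eq_expect {Ω : Type} [Fintype Ω] (g : Ω → ℝ) : ex g = 𝔼 x, g x := by
  rw [Finset.expect_eq_sum_div_card, Finset.card_univ]; rfl

section info
variable {ι : Type} [Fintype ι] [DecidableEq ι] {α : ι → Type} [∀ i, Fintype (α i)]
  [∀ i, Nonempty (α i)] {Ω : Type} [Fintype Ω]

theorem mcd_ex (F : (∀ i, α i) → ℝ) (s : ι → ℝ) (θ : ℝ)
    (hF : ∀ x i a, |F (Function.update x i a) - F x| ≤ s i) (hθ : ∀ i, |θ| * s i ≤ 1) :
    ex (fun y => Real.exp (θ * (F y - ex F))) ≤ Real.exp (θ ^ 2 * ∑ i, s i ^ 2) := by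
  simp only [ex_eq_expect]; exact mcd F s θ hF hθ

lemma test_info_one [Nonempty Ω] (Φ L : Setoid Ω) (ρ : Ω → ∀ i, α i)
    (hρ : ∀ (F : (∀ i, α i) → ℝ) (w : Ω), ce Φ (fun y => F (ρ y)) w = ex F)
    (G : Ω → (∀ i, α i) → ℝ) (hM : Ms (Φ ⊓ L) G) (s : ι → ℝ)
    (hG : ∀ w x i a, |G w (Function.update x i a) - G w x| ≤ s i)
    (θ : ℝ) (hθ : ∀ i, |θ| * s i ≤ 1) :
    θ * (ex (fun w => G w (ρ w)) - ex (fun w => ex (G w)))
      ≤ cH L Φ + θ ^ 2 * ∑ i, s i ^ 2 := by
  set m := θ ^ 2 * ∑ i, s i ^ 2 with hm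
  let e : Ω → Ω → ℝ := fun v w => Real.exp (θ * (G v (ρ w) - ex (G v))) * Real.exp (-m)
  have he : ∀ v w, 0 ≤ e v w := fun v w => by positivity
  have h1 : ∀ w, θ * (G w (ρ w) - ex (G w))
      ≤ (Real.log (cls Φ w).card - Real.log (cls (Φ ⊓ L) w).card) + (m - 1)
        + ce Φ (fun v => e v w) w := by
    intro w
    have hp := cls_pos Φ w
    have hq := cls_pos (Φ ⊓ L) w
    have h2 : ((cls (Φ ⊓ L) w).card : ℝ) * e w w ≤ ∑ v ∈ cls Φ w, e v w := by
      calc ((cls (Φ ⊓ L) w).card : ℝ) * e w w = ∑ v ∈ cls (Φ ⊓ L) w, e v w := by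
            rw [← nsmul_eq_mul, ← Finset.sum_const]
            refine Finset.sum_congr rfl fun v hv => ?_
            simp only [e, hM w v (mem_cls.1 hv)]
        _ ≤ _ := Finset.sum_le_sum_of_subset_of_nonneg (cls_mono inf_le_left w)
            fun v _ _ => he v w
    have h3 : Real.exp (θ * (G w (ρ w) - ex (G w)) - m
        - (Real.log (cls Φ w).card - Real.log (cls (Φ ⊓ L) w).card))
        ≤ ce Φ (fun v => e v w) w := by
      unfold ce
      rw [le_div_iff₀ hp]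
      refine le_trans (le_of_eq ?_) h2
      simp only [e]
      rw [Real.exp_sub, Real.exp_sub, Real.exp_sub (Real.log _), Real.exp_log hp,
        Real.exp_log hq, Real.exp_neg]
      field_simp
    linarith [Real.add_one_le_exp (θ * (G w (ρ w) - ex (G w)) - m
        - (Real.log (cls Φ w).card - Real.log (cls (Φ ⊓ L) w).card))]
  have h4 : ex (fun w => ce Φ (fun v => e v w) w) = ex (fun v => ce Φ (fun w => e v w) v) := by
    unfold ex ce
    congr 1
    simp only [Finset.sum_div]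
    rw [sum_cls_comm]
    refine Finset.sum_congr rfl fun v _ => Finset.sum_congr rfl fun w hw => ?_
    rw [cls_eq (mem_cls.1 hw)]
  have h5 : ∀ v, ce Φ (fun w => e v w) v ≤ 1 := by
    intro v
    rw [hρ (fun x => Real.exp (θ * (G v x - ex (G v))) * Real.exp (-m)) v, ex_mul']
    refine (mul_le_mul_of_nonneg_right (mcd_ex (G v) s θ (hG v) hθ) (Real.exp_pos _).le).trans ?_
    rw [← Real.exp_add, ← hm]; simp
  rw [← ex_sub, ← ex_mul]
  refine (ex_mono h1).trans ?_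
  rw [ex_add, ex_add, ex_const, h4, ← cH_eq]
  linarith [ex_le zero_le_one h5]

/-- **TEST**, entropy form: `Φ` is the known part, `ρ` is uniform given `Φ`, the test function
`G w` is known from `Φ` and `L`. -/
theorem test_info [Nonempty Ω] (Φ L : Setoid Ω) (ρ : Ω → ∀ i, α i)
    (hρ : ∀ (F : (∀ i, α i) → ℝ) (w : Ω), ce Φ (fun y => F (ρ y)) w = ex F)
    (G : Ω → (∀ i, α i) → ℝ) (hM : Ms (Φ ⊓ L) G) (s : ι → ℝ)
    (hG : ∀ w x i a, |G w (Function.update x i a) - G w x| ≤ s i)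
    (θ : ℝ) (hθ0 : 0 < θ) (hθ : ∀ i, θ * s i ≤ 1) :
    |ex (fun w => G w (ρ w)) - ex (fun w => ex (G w))|
      ≤ cH L Φ / θ + θ * ∑ i, s i ^ 2 := by
  have h1 := test_info_one Φ L ρ hρ G hM s hG θ (by simpa [abs_of_pos hθ0] using hθ)
  have h2 := test_info_one Φ L ρ hρ G hM s hG (-θ) (by simpa [abs_of_pos hθ0] using hθ)
  have e : cH L Φ / θ + θ * ∑ i, s i ^ 2 = (cH L Φ + θ ^ 2 * ∑ i, s i ^ 2) / θ := by
    field_simp
  rw [e, abs_le]
  constructor
  · rw [neg_le, le_div_iff₀ hθ0]; rw [neg_sq] at h2; linarith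
  · rw [le_div_iff₀ hθ0]; linarith

end info

end Pool.Agent.P.MP_a14ce1_nt.Fu
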