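import Pool.Agent.P.MP_a14ce1_nt.Fu.SH

/-!
TEST: a function of independent coordinates with bounded differences and of an information of
small entropy behaves as if the coordinates were resampled.  T1: the martingale pigeonhole.
-/

open Finset

namespace Pool.Agent.P.MP_a14ce1_nt.Fu

variable {Ω : Type} [Fintype Ω]

theorem mgf_one [Nonempty Ω] {g : Ω → ℝ} {s θ : ℝ} (hθ : |θ| * s ≤ 1)
    (h : ∀ a b, |g a - g b| ≤ s) :
    ex (fun a => Real.exp (θ * (g a - ex g))) ≤ Real.exp (θ ^ 2 * s ^ 2) := by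
  have h1 : ∀ a, |θ * (g a - ex g)| ≤ |θ| * s := fun a => by
    rw [abs_mul]
    refine mul_le_mul_of_nonneg_left ?_ (abs_nonneg _)
    rw [← ex_const (Ω := Ω) (g a), ← ex_sub]
    exact (abs_ex_le _).trans (ex_le ((abs_nonneg _).trans (h a a)) fun b => h a b)
  have h2 : ex (fun a => Real.exp (θ * (g a - ex g))) ≤
      ex fun a => 1 + θ ^ 2 * s ^ 2 + θ * (g a - ex g) := ex_mono fun a => by
    have a1 := exp_le_quad ((h1 a).trans hθ)
    have a2 := pow_le_pow_left₀ (abs_nonneg _) (h1 a) 2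
    rw [sq_abs, mul_pow |θ|, sq_abs] at a2
    linarith
  rw [ex_add, ex_const, ex_mul, ex_sub, ex_const, sub_self, mul_zero, add_zero, add_comm] at h2
  exact h2.trans (Real.add_one_le_exp _)

section coords

variable {ι : Type} [Fintype ι] [DecidableEq ι] {α : ι → Type} [∀ i, Fintype (α i)]

/-- bounded differences -/
def BD (G : (∀ i, α i) → ℝ) (s : ι → ℝ) : Prop :=
  ∀ v j a, |G (Function.update v j a) - G v| ≤ s j

theorem mgf_aux [∀ i, Nonempty (α i)] {G : (∀ i, α i) → ℝ} {s : ι → ℝ} {θ : ℝ}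
    (hθ : ∀ j, |θ| * s j ≤ 1) (hG : BD G s) (T : Finset ι) (v : ∀ i, α i) :
    ex (fun w => Real.exp (θ * (G (T.piecewise w v) - ex fun w' => G (T.piecewise w' v)))) ≤
      Real.exp (θ ^ 2 * ∑ j ∈ T, s j ^ 2) := by
  induction T using Finset.induction_on generalizing v with
  | empty => simp [ex_const]
  | insert j T hj ih =>
    have e : ∀ (w : ∀ i, α i) (a : α j), (insert j T).piecewise (Function.update w j a) v =
        T.piecewise w (Function.update v j a) := fun w a => by
      funext i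
      by_cases hi : i = j
      · subst hi
        simp [hj]
      · by_cases hT : i ∈ T <;> simp [hi, hT]
    have e1 : ∀ Φ : (∀ i, α i) → ℝ, ex (fun w => Φ ((insert j T).piecewise w v)) =
        ex fun a : α j => ex fun w => Φ (T.piecewise w (Function.update v j a)) := fun Φ => by
      rw [← ex_update j, ex_comm]
      simp only [e]
    set g : α j → ℝ := fun a => ex fun w => G (T.piecewise w (Function.update v j a)) with hg
    have g1 : ∀ a b, |g a - g b| ≤ s j := fun a b => by
      have s0 : 0 ≤ s j := (abs_nonneg _).trans (hG v j a)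
      rw [hg, ← ex_sub]
      refine (abs_ex_le _).trans (ex_le s0 fun w => ?_)
      have := hG (T.piecewise w (Function.update v j b)) j a
      rwa [update_piecewise_of_notMem _ _ _ hj, Function.update_idem] at this
    rw [e1 G, e1 fun z => Real.exp (θ * (G z - ex g)), sum_insert hj, mul_add, Real.exp_add]
    refine le_trans ?_ (mul_le_mul_of_nonneg_right (mgf_one (hθ j) g1) (Real.exp_pos _).le)
    rw [← ex_mul']
    refine ex_mono fun a => ?_
    refine le_trans ?_ (mul_le_mul_of_nonneg_left (ih (Function.update v j a)) (Real.exp_pos _).le)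
    rw [← ex_mul]
    refine ex_mono fun w => le_of_eq ?_
    rw [← Real.exp_add]
    congr 1
    ring

/-- the exponential moment of a function with bounded differences -/
theorem mgf [∀ i, Nonempty (α i)] {G : (∀ i, α i) → ℝ} {s : ι → ℝ} {θ : ℝ}
    (hθ : ∀ j, |θ| * s j ≤ 1) (hG : BD G s) :
    ex (fun w => Real.exp (θ * (G w - ex G))) ≤ Real.exp (θ ^ 2 * ∑ j, s j ^ 2) := by
  have := mgf_aux hθ hG univ (Classical.arbitrary _)
  simpa only [piecewise_univ] using this

theorem test_aux {ρ : ∀ i, Ω → α i} (h : JU ρ) (D : Setoid Ω) (G : Ω → (∀ i, α i) → ℝ)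
    (hD : Ms D G) {s : ι → ℝ} {θ : ℝ} (hθ : ∀ j, |θ| * s j ≤ 1) (hG : ∀ x, BD (G x) s) :
    θ * (ex (fun x => G x fun i => ρ i x) - ex fun x => ex (G x)) ≤
      Hh D + θ ^ 2 * ∑ j, s j ^ 2 := by
  cases isEmpty_or_nonempty Ω with
  | inl _ => simp only [ex, Hh]; simp; positivity
  | inr _ =>
  have hne : ∀ i, Nonempty (α i) := fun i => ⟨ρ i (Classical.arbitrary Ω)⟩
  set c := θ ^ 2 * ∑ j, s j ^ 2 with hc
  have h1 : ex (fun x => Real.exp (θ * ((G x fun i => ρ i x) - ex (G x)) - c) *
      ex fun y => ind (D x y)) ≤ 1 := by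
    have a1 : ∀ x, Real.exp (θ * ((G x fun i => ρ i x) - ex (G x)) - c) *
        ex (fun y => ind (D x y)) ≤
        ex fun y => Real.exp (θ * ((G y fun i => ρ i x) - ex (G y)) - c) := fun x => by
      rw [← ex_mul]
      refine ex_mono fun y => ?_
      by_cases hy : D x y
      · rw [ind_pos hy, mul_one, hD x y hy]
      · rw [ind_neg hy, mul_zero]; exact (Real.exp_pos _).le
    refine (ex_mono a1).trans ?_
    rw [ex_comm]
    refine ex_le zero_le_one fun y => ?_
    rw [h fun v => Real.exp (θ * (G y v - ex (G y)) - c)]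
    simp only [Real.exp_sub]
    rw [ex_div, div_le_one (Real.exp_pos _)]
    exact mgf hθ (hG y)
  have h2 : ex (fun x => θ * ((G x fun i => ρ i x) - ex (G x))) ≤
      ex fun x => (Real.log (Fintype.card Ω) - Real.log (cls D x).card) + (c - 1) +
        Real.exp (θ * ((G x fun i => ρ i x) - ex (G x)) - c) * ex fun y => ind (D x y) := by
    refine ex_mono fun x => ?_
    have a := cls_pos D x
    have b := card_pos' (Ω := Ω)
    rw [ex_ind_cls]
    have := Real.log_le_sub_one_of_pos (x := Real.exp (θ * ((G x fun i => ρ i x) - ex (G x)) - c) *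
      ((cls D x).card / Fintype.card Ω)) (by positivity)
    rw [Real.log_mul (Real.exp_pos _).ne' (by positivity), Real.log_exp,
      Real.log_div a.ne' b.ne'] at this
    linarith
  rw [ex_mul, ex_sub, ex_add, ex_add, ex_const] at h2
  rw [Hh]
  linarith

/-- TEST -/
theorem testH {ρ : ∀ i, Ω → α i} (h : JU ρ) (D : Setoid Ω) (G : Ω → (∀ i, α i) → ℝ)
    (hD : Ms D G) {s : ι → ℝ} {θ : ℝ} (h0 : 0 < θ) (hθ : ∀ j, θ * s j ≤ 1)
    (hG : ∀ x, BD (G x) s) :
    |ex (fun x => G x fun i => ρ i x) - ex fun x => ex (G x)| ≤ Hh D / θ + θ * ∑ j, s j ^ 2 := by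
  have h1 := test_aux h D G hD (θ := θ) (by rwa [abs_of_pos h0]) hG
  have h2 := test_aux h D G hD (θ := -θ) (by rwa [abs_neg, abs_of_pos h0]) hG
  rw [div_add' _ _ _ h0.ne', le_div_iff₀ h0, ← abs_of_pos h0, ← abs_mul, abs_of_pos h0, abs_le]
  constructor <;> nlinarith

end coords

/-- T1, abstract form: along a chain of informations some step carries little energy -/
theorem exists_step (D : ℕ → Setoid Ω) (f : Ω → ℝ) {K : ℕ} (hK : 0 < K) :
    ∃ κ < K, en (D (κ + 1)) f - en (D κ) f ≤ ex (fun x => f x ^ 2) / K := by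
  by_contra hc
  push Not at hc
  have h1 : ∑ _κ ∈ range K, ex (fun x => f x ^ 2) / K <
      ∑ κ ∈ range K, (en (D (κ + 1)) f - en (D κ) f) :=
    sum_lt_sum_of_nonempty (nonempty_range_iff.2 hK.ne') fun κ hκ => hc κ (mem_range.1 hκ)
  rw [sum_range_sub (fun κ => en (D κ) f), sum_const, card_range, nsmul_eq_mul,
    mul_div_cancel₀ _ (by positivity)] at h1
  have := en_le (D K) f
  have := en_nonneg (D 0) f
  linarith

theorem t1_abs [Nonempty Ω] (D : ℕ → Setoid Ω) (hD : ∀ κ, D (κ + 1) ≤ D κ) (f : Ω → ℝ)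
    (hf : ∀ x, |f x| ≤ 1) {K : ℕ} (hK : 0 < K) :
    ∃ κ < K, ∀ W : Ω → ℝ, Ms (D (κ + 1)) W → (∀ x, ce (D κ) W x = ex W) →
      |ex (fun x => f x * W x) - ex f * ex W| ≤ √(ex fun x => W x ^ 2) / √K := by
  obtain ⟨κ, hκ, h⟩ := exists_step D f hK
  refine ⟨κ, hκ, fun W h1 h2 => ?_⟩
  have e1 : ex (fun x => f x * W x) - ex f * ex W =
      ex fun x => (ce (D (κ + 1)) f x - ce (D κ) f x) * W x := by
    have a1 : ex (fun x => ce (D (κ + 1)) f x * W x) = ex fun x => f x * W x := by
      rw [ex_ce_mul]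
      exact ex_congr fun x => by rw [ce_of_ms h1]
    have a2 : ex (fun x => ce (D κ) f x * W x) = ex f * ex W := by
      rw [ex_ce_mul, ← ex_mul']
      exact ex_congr fun x => by rw [h2]
    rw [← a1, ← a2, ← ex_sub]
    exact ex_congr fun x => by ring
  rw [e1]
  refine (abs_ex_mul_le _ _).trans ?_
  rw [← en_sub (hD κ), mul_comm, div_eq_mul_inv, ← Real.sqrt_inv]
  refine mul_le_mul_of_nonneg_left (Real.sqrt_le_sqrt (h.trans ?_)) (Real.sqrt_nonneg _)
  rw [← one_div]
  refine div_le_div_of_nonneg_right (ex_le zero_le_one fun x => ?_) (Nat.cast_nonneg _)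
  exact (sq_le_one_iff_abs_le_one _).2 (hf x)

end Pool.Agent.P.MP_a14ce1_nt.Fu
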