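import Pool.Agent.P.MP_a14ce1_nt.Fu.TestS
import Pool.Agent.P.MP_a14ce1_nt.Fu.Test
import Pool.Agent.P.MP_a14ce1_nt.Fu.CrtF
import Pool.Agent.P.MP_a14ce1_nt.Fu.IndN

/-!
TEST for the integers: sums of local terms in the sets of hidden primes dividing the sites.
-/

open Finset

namespace Pool.Agent.P.MP_a14ce1_nt.Fu

open Ch (mu pv)
open Ch.Main (Tn)

/-- given Φ, the integer n is uniform modulo P -/
def Fr {Ω : Type} [Fintype Ω] (Φ : Setoid Ω) (n : Ω → ℕ) (P : ℕ) : Prop :=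
  ∀ v : ℕ → ℝ, Per P v → ∀ x, ce Φ (fun y => v (n y)) x = avN P v

theorem fr_fin {Q P Z : ℕ} (hc : Q.Coprime P) (h : Q * P ∣ Z) {R : Type} {r : ℕ → R}
    (hr : Per Q r) : Fr (Setoid.ker fun x : Fin Z => r x) (fun x => x) P := by
  classical
  intro v hv x
  have hZ : 0 < Z := x.pos
  have hP : P ∣ Z := (dvd_mul_left P Q).trans h
  rw [ce_ker, ex_fb_per hc h hr hv x, ex_per_eq hZ (Nat.pos_of_dvd_of_pos hP hZ) hP dvd_rfl hv,
    ex_avN]

theorem per_Tn (TT : Finset ℕ) : Per (pv TT) fun n b => Tn TT (n + b) := fun x y h =>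
  funext fun b => per_filter (fun _ hq => dvd_prod_of_mem (fun q => q) hq) b x y h

theorem ex_res (TT : Finset ℕ) (hT : ∀ q ∈ TT, q.Prime) [∀ q : TT, NeZero (q : ℕ)]
    (F : (∀ q : TT, ZMod q) → ℝ) : avN (pv TT) (fun n => F fun q => (n : ZMod q)) = ex F := by
  have hP := Ch.Main.pv_pos hT
  rw [crt_res TT hT (Q := 1) (fun q _ => Nat.coprime_one_left q) hP (by simp) (fun _ => F)
    fun _ => rfl, ← ex_avN]
  have : Nonempty (Fin (pv TT)) := ⟨⟨0, hP⟩⟩
  exact ex_const _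

theorem res_surj (TT : Finset ℕ) (hT : ∀ q ∈ TT, q.Prime) (v : ∀ q : TT, ZMod q) :
    ∃ n : ℕ, (fun q : TT => (n : ZMod q)) = v := by
  have hq : Pairwise (Function.onFun Nat.Coprime fun q : TT => (q : ℕ)) := fun q q' h =>
    (Nat.coprime_primes (hT q q.2) (hT q' q'.2)).2 fun e => h (Subtype.ext e)
  have : NeZero (∏ q : TT, (q : ℕ)) := ⟨prod_ne_zero_iff.2 fun q _ => (hT q q.2).ne_zero⟩
  obtain ⟨z, rfl⟩ := (ZMod.prodEquivPi _ hq).surjective v
  obtain ⟨n, rfl⟩ := ZMod.natCast_zmod_surjective z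
  exact ⟨n, ((map_natCast (ZMod.prodEquivPi _ hq) n).trans rfl).symm⟩

/-- TEST for the integers -/
theorem test_nat {Ω : Type} [Fintype Ω] [Nonempty Ω] {τ : Type*} (TT : Finset ℕ)
    (hT : ∀ q ∈ TT, q.Prime) (Φ H : Setoid Ω) (n : Ω → ℕ) (hfr : Fr Φ n (pv TT))
    (N : ℕ) (T : Finset τ) (S : τ → Finset ℕ) (Ψ : Ω → τ → (ℕ → Finset ℕ) → ℝ) {L μ θ : ℝ}
    (hL0 : 0 ≤ L) (hH : ∀ t ∈ T, Ms H fun x => Ψ x t) (hS : ∀ t ∈ T, S t ⊆ range N)
    (hloc : ∀ x, ∀ t ∈ T, ∀ A B : ℕ → Finset ℕ, (∀ b ∈ S t, A b = B b) → Ψ x t A = Ψ x t B)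
    (hL : ∀ x (m : ℕ), ∀ b < N,
      ∑ t ∈ T.filter (fun t => b ∈ S t), |Ψ x t fun b => Tn TT (m + b)| ≤ L)
    (hμ : ∀ q ∈ TT, (N : ℝ) / q + 1 ≤ μ) (h0 : 0 < θ) (hθ : θ * (4 * μ * L) ≤ 1) :
    |ex (fun x => ∑ t ∈ T, Ψ x t fun b => Tn TT (n x + b)) -
      ex fun x => ∑ t ∈ T, avN (pv TT) fun m => Ψ x t fun b => Tn TT (m + b)| ≤
      cH H Φ / θ + θ * (TT.card * (4 * μ * L) ^ 2) := by
  have : ∀ q : TT, NeZero (q : ℕ) := fun q => ⟨(hT q q.2).ne_zero⟩
  let hs : (∀ q : TT, ZMod q) → ℕ → Finset ℕ := fun v b =>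
    (univ.filter fun q : TT => v q = -(b : ZMod q)).map (Function.Embedding.subtype _)
  have e : ∀ m : ℕ, (hs fun q => (m : ZMod q)) = fun b => Tn TT (m + b) := fun m =>
    funext fun b => (Tn_eq TT m b).symm
  have key := test_info Φ H (fun x (q : TT) => (n x : ZMod q))
    (fun F w => by
      rw [← ex_res TT hT F]
      refine hfr (fun m => F fun q => (m : ZMod q)) (fun x y h => congrArg F (funext fun q => ?_)) w
      exact (per_cast q).of_dvd (dvd_prod_of_mem (fun q => q) q.2) x y h)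
    (fun x v => ∑ t ∈ T, Ψ x t (hs v))
    (fun x y h => funext fun v => sum_congr rfl fun t ht =>
      congrFun (hH t ht x y (inf_iff.1 h).2) _)
    (fun _ => 4 * μ * L)
    (fun x => bd_sites (fun (b : ℕ) (q : TT) => -(b : ZMod q)) T S (range N)
      (fun t v => Ψ x t (hs v)) (μ := fun _ => μ) hL0 hS
      (fun t ht v w h => hloc x t ht _ _ fun b hb => by
        simp only [hs]
        rw [filter_congr fun q _ => h b hb q])
      (fun v b hb => by
        obtain ⟨m, rfl⟩ := res_surj TT hT v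
        rw [e]
        exact hL x m b (mem_range.1 hb))
      fun q a => by
        refine le_trans ?_ (hμ q q.2)
        have h1 := card_hit_le (hT q q.2).pos N (S := range N) (fun b hb => mem_range.1 hb) a
        have h2 : (((N / q + 1 : ℕ)) : ℝ) ≤ (N : ℝ) / q + 1 := by
          push_cast
          linarith [Nat.cast_div_le (α := ℝ) (m := N) (n := q)]
        exact le_trans (by exact_mod_cast h1) h2)
    θ h0 fun _ => hθ
  have e2 : ∀ x, ex (fun v => ∑ t ∈ T, Ψ x t (hs v)) =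
      ∑ t ∈ T, avN (pv TT) fun m => Ψ x t fun b => Tn TT (m + b) := fun x => by
    rw [ex_sum]
    refine sum_congr rfl fun t _ => ?_
    rw [← ex_res TT hT]
    simp only [e]
  simpa only [e, e2, sum_const, card_univ, Fintype.card_coe, nsmul_eq_mul] using key

/-- the entropy of a glued information given the known part -/
theorem cH_glue {Ω R σ A : Type} [Fintype Ω] [DecidableEq R] [Fintype A] (r : Ω → R)
    (Dt : Ω → σ → A) (C : R → Finset σ) : cH (glue r Dt C) (Setoid.ker r) ≤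
      ex (fun x => ((C (r x)).card : ℝ)) * Real.log (Fintype.card A) := by
  rw [cH_fib le_rfl, ← ex_mul']
  refine ex_mono fun x => ?_
  rw [rst_glue]
  exact cH_sig _ _ _

end Pool.Agent.P.MP_a14ce1_nt.Fu
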