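import Pool.Agent.P.MP_a14ce1_nt.Fu.TestH

/-!
TEST for sums of local terms: every term depends on the coordinates only through the sets of
coordinates that hit the sites of its support.
-/

open Finset

namespace Pool.Agent.P.MP_a14ce1_nt.Fu

variable {Ω : Type} [Fintype Ω] {ι : Type} [Fintype ι] [DecidableEq ι] {α : ι → Type}
  [∀ i, Fintype (α i)] [∀ i, DecidableEq (α i)] {σ τ : Type*} [DecidableEq σ]

omit [Fintype ι] [∀ i, Fintype (α i)] in
theorem bd_sites (pt : σ → ∀ i, α i) (T : Finset τ) (S : τ → Finset σ) (S0 : Finset σ)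
    (Ψ : τ → (∀ i, α i) → ℝ) {L : ℝ} {μ : ι → ℝ} (hL0 : 0 ≤ L) (hS : ∀ t ∈ T, S t ⊆ S0)
    (hloc : ∀ t ∈ T, ∀ v w : ∀ i, α i, (∀ b ∈ S t, ∀ i, v i = pt b i ↔ w i = pt b i) →
      Ψ t v = Ψ t w)
    (hL : ∀ v, ∀ b ∈ S0, ∑ t ∈ T.filter (fun t => b ∈ S t), |Ψ t v| ≤ L)
    (hμ : ∀ i a, ((S0.filter fun b => pt b i = a).card : ℝ) ≤ μ i) :
    BD (fun v => ∑ t ∈ T, Ψ t v) fun i => 4 * μ i * L := by
  intro v j a
  set w := Function.update v j a with hw
  set E := (S0.filter fun b => pt b j = a) ∪ S0.filter fun b => pt b j = v j with hE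
  have hE1 : (E.card : ℝ) ≤ 2 * μ j := by
    have h1 : (E.card : ℝ) ≤ (S0.filter fun b => pt b j = a).card +
        (S0.filter fun b => pt b j = v j).card := by exact_mod_cast card_union_le _ _
    linarith [hμ j a, hμ j (v j)]
  have h1 : ∀ t ∈ T, |Ψ t w - Ψ t v| ≤
      ∑ b ∈ E, if b ∈ S t then |Ψ t w| + |Ψ t v| else 0 := by
    intro t ht
    have hn : ∀ b ∈ E, 0 ≤ if b ∈ S t then |Ψ t w| + |Ψ t v| else 0 := fun b _ => by
      split_ifs
      · positivity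
      · exact le_rfl
    by_cases hc : ∃ b ∈ E, b ∈ S t
    · obtain ⟨b, hb, hb'⟩ := hc
      refine le_trans ?_ (single_le_sum hn hb)
      rw [if_pos hb']
      exact abs_sub _ _
    · refine le_trans (le_of_eq ?_) (sum_nonneg hn)
      rw [hloc t ht w v, sub_self, abs_zero]
      · intro b hb i
        by_cases hi : i = j
        · subst hi
          rw [hw, Function.update_self]
          constructor
          · exact fun e => absurd ⟨b, mem_union_left _ (mem_filter.2 ⟨hS t ht hb, e.symm⟩), hb⟩ hc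
          · exact fun e => absurd ⟨b, mem_union_right _ (mem_filter.2 ⟨hS t ht hb, e.symm⟩), hb⟩ hc
        · rw [hw, Function.update_of_ne hi]
  calc |∑ t ∈ T, Ψ t w - ∑ t ∈ T, Ψ t v| ≤ ∑ t ∈ T, |Ψ t w - Ψ t v| := by
        rw [← sum_sub_distrib]; exact abs_sum_le_sum_abs _ _
    _ ≤ ∑ t ∈ T, ∑ b ∈ E, if b ∈ S t then |Ψ t w| + |Ψ t v| else 0 := sum_le_sum h1
    _ ≤ ∑ _b ∈ E, 2 * L := by
        rw [sum_comm]
        refine sum_le_sum fun b hb => ?_
        have hb0 : b ∈ S0 := by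
          rcases mem_union.1 hb with h | h <;> exact (mem_filter.1 h).1
        rw [← sum_filter, sum_add_distrib]
        linarith [hL w b hb0, hL v b hb0]
    _ ≤ 4 * μ j * L := by
        rw [sum_const, nsmul_eq_mul]
        nlinarith

/-- TEST for sums of local terms -/
theorem test_sites {ρ : ∀ i, Ω → α i} (h : JU ρ) (D : Setoid Ω) (pt : σ → ∀ i, α i)
    (T : Finset τ) (S : τ → Finset σ) (S0 : Finset σ) (Ψ : Ω → τ → (∀ i, α i) → ℝ)
    {L μ θ : ℝ} (hL0 : 0 ≤ L) (hD : ∀ t ∈ T, Ms D fun x => Ψ x t) (hS : ∀ t ∈ T, S t ⊆ S0)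
    (hloc : ∀ x, ∀ t ∈ T, ∀ v w : ∀ i, α i, (∀ b ∈ S t, ∀ i, v i = pt b i ↔ w i = pt b i) →
      Ψ x t v = Ψ x t w)
    (hL : ∀ x v, ∀ b ∈ S0, ∑ t ∈ T.filter (fun t => b ∈ S t), |Ψ x t v| ≤ L)
    (hμ : ∀ i a, ((S0.filter fun b => pt b i = a).card : ℝ) ≤ μ) (h0 : 0 < θ)
    (hθ : θ * (4 * μ * L) ≤ 1) :
    |ex (fun x => ∑ t ∈ T, Ψ x t fun i => ρ i x) - ex fun x => ∑ t ∈ T, ex (Ψ x t)| ≤
      Hh D / θ + θ * (Fintype.card ι * (4 * μ * L) ^ 2) := by
  have := testH h D (fun x v => ∑ t ∈ T, Ψ x t v)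
    (fun x y e => funext fun v => sum_congr rfl fun t ht => congrFun (hD t ht x y e) v) h0
    (fun _ => hθ) fun x => bd_sites pt T S S0 (Ψ x) hL0 hS (hloc x) (hL x) hμ
  simpa only [ex_sum, sum_const, card_univ, nsmul_eq_mul] using this

end Pool.Agent.P.MP_a14ce1_nt.Fu
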