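import Mathlib

/-! Injective tuples, their prefixes, and the exchangeable telescoping (UNLOCK, PIN, PATH). -/

namespace Pool.Agent.P.MP_a14ce1_nt.Fu

open Finset

variable {α : Type*} [DecidableEq α]

/-- injective `n`-tuples with entries in `A` -/
noncomputable def tup (A : Finset α) (n : ℕ) : Finset (Fin n → α) := by
  classical exact (Fintype.piFinset fun _ : Fin n => A).filter Function.Injective

/-- the set of the first `k` entries of a tuple -/
def pre {n : ℕ} (x : Fin n → α) (k : ℕ) : Finset α :=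
  (univ.filter fun i : Fin n => (i : ℕ) < k).image x

theorem mem_tup {A : Finset α} {n : ℕ} {x : Fin n → α} :
    x ∈ tup A n ↔ (∀ i, x i ∈ A) ∧ Function.Injective x := by
  classical
  unfold tup
  simp only [mem_filter, Fintype.mem_piFinset]

theorem mem_pre {n : ℕ} {x : Fin n → α} {k : ℕ} {a : α} :
    a ∈ pre x k ↔ ∃ i : Fin n, (i : ℕ) < k ∧ x i = a := by
  simp [pre]

theorem pre_zero {n : ℕ} (x : Fin n → α) : pre x 0 = ∅ := by
  ext a; simp [mem_pre]

theorem pre_mono {n : ℕ} (x : Fin n → α) {k j : ℕ} (h : k ≤ j) : pre x k ⊆ pre x j := by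
  intro a ha
  obtain ⟨i, hi, rfl⟩ := mem_pre.1 ha
  exact mem_pre.2 ⟨i, by omega, rfl⟩

theorem pre_succ {n : ℕ} (x : Fin n → α) {k : ℕ} (h : k < n) :
    pre x (k + 1) = insert (x ⟨k, h⟩) (pre x k) := by
  ext a
  simp only [mem_insert, mem_pre]
  constructor
  · rintro ⟨i, hi, rfl⟩
    by_cases hik : (i : ℕ) = k
    · left; congr 1; exact Fin.ext hik
    · right; exact ⟨i, by omega, rfl⟩
  · rintro (rfl | ⟨i, hi, rfl⟩)
    · exact ⟨⟨k, h⟩, by simp, rfl⟩
    · exact ⟨i, by omega, rfl⟩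

theorem pre_top {n : ℕ} (x : Fin n → α) {k : ℕ} (h : n ≤ k) : pre x k = univ.image x := by
  ext a
  simp only [mem_pre, mem_image, mem_univ, true_and]
  constructor
  · rintro ⟨i, -, rfl⟩; exact ⟨i, rfl⟩
  · rintro ⟨i, rfl⟩; exact ⟨i, by omega, rfl⟩

theorem pre_subset {A : Finset α} {n : ℕ} {x : Fin n → α} (hx : x ∈ tup A n) (k : ℕ) :
    pre x k ⊆ A := by
  intro a ha
  obtain ⟨i, -, rfl⟩ := mem_pre.1 ha
  exact (mem_tup.1 hx).1 i

theorem card_pre {A : Finset α} {n : ℕ} {x : Fin n → α} (hx : x ∈ tup A n) {k : ℕ} (hk : k ≤ n) :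
    (pre x k).card = k := by
  induction k with
  | zero => simp [pre_zero]
  | succ k ih =>
    rw [pre_succ x (by omega : k < n), card_insert_of_notMem, ih (by omega)]
    intro h
    obtain ⟨i, hi, he⟩ := mem_pre.1 h
    have := (mem_tup.1 hx).2 he
    rw [this] at hi
    simp at hi

theorem card_sdiff_pre {A : Finset α} {n : ℕ} {x : Fin n → α} (hx : x ∈ tup A n) {k : ℕ}
    (hk : k ≤ n) : ((A \ pre x k).card : ℝ) = (A.card : ℝ) - k := by
  rw [card_sdiff_of_subset (pre_subset hx k), card_pre hx hk, Nat.cast_sub]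
  calc k = (pre x k).card := (card_pre hx hk).symm
    _ ≤ A.card := card_le_card (pre_subset hx k)

theorem tup_nonempty {A : Finset α} {n : ℕ} (h : n ≤ A.card) : (tup A n).Nonempty := by
  obtain ⟨B, hB, hc⟩ := exists_subset_card_eq h
  refine ⟨fun i => (B.equivFin.symm (Fin.cast hc.symm i) : α), mem_tup.2
    ⟨fun i => hB (B.equivFin.symm (Fin.cast hc.symm i)).2, ?_⟩⟩
  · intro i j hij
    have := B.equivFin.symm.injective (Subtype.ext hij)
    exact Fin.cast_injective _ this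

/-- The transposition step: a fresh element `q` outside the first `j ≥ k` entries, added to the
first `k` entries, is distributed like the first `k+1` entries. -/
theorem swap_step (A : Finset α) {n k j : ℕ} (hk : k < n) (hkj : k ≤ j) (g : Finset α → ℝ) :
    ∑ x ∈ tup A n, ∑ q ∈ A \ pre x j, g (insert q (pre x k))
      = ∑ x ∈ tup A n, ∑ _q ∈ A \ pre x j, g (pre x (k + 1)) := by
  rw [sum_sigma', sum_sigma']
  have key : ∀ (x : Fin n → α) (q : α), x ∈ tup A n → q ∈ A \ pre x j →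
      (Equiv.swap q (x ⟨k, hk⟩) ∘ x) ∈ tup A n ∧
      x ⟨k, hk⟩ ∈ A \ pre (Equiv.swap q (x ⟨k, hk⟩) ∘ x) j := by
    intro x q hx hq
    obtain ⟨hxA, hxi⟩ := mem_tup.1 hx
    obtain ⟨hqA, hqn⟩ := mem_sdiff.1 hq
    refine ⟨mem_tup.2 ⟨fun i => ?_, (Equiv.injective _).comp hxi⟩, mem_sdiff.2 ⟨hxA _, ?_⟩⟩
    · simp only [Function.comp, Equiv.swap_apply_def]
      split_ifs
      · exact hxA _
      · exact hqA
      · exact hxA _
    · intro h
      obtain ⟨i, hi, he⟩ := mem_pre.1 h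
      apply hqn
      refine mem_pre.2 ⟨i, hi, ?_⟩
      have : Equiv.swap q (x ⟨k, hk⟩) (x i) = Equiv.swap q (x ⟨k, hk⟩) q := by
        rw [Equiv.swap_apply_left]; exact he
      exact (Equiv.injective _) this
  have inv : ∀ (x : Fin n → α) (q : α),
      (Equiv.swap (x ⟨k, hk⟩) ((Equiv.swap q (x ⟨k, hk⟩) ∘ x) ⟨k, hk⟩) ∘
        (Equiv.swap q (x ⟨k, hk⟩) ∘ x)) = x := by
    intro x q
    funext i
    simp only [Function.comp, Equiv.swap_apply_right]
    rw [Equiv.swap_comm, Equiv.swap_apply_self]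
  refine sum_bij' (fun z _ => ⟨Equiv.swap z.2 (z.1 ⟨k, hk⟩) ∘ z.1, z.1 ⟨k, hk⟩⟩)
    (fun z _ => ⟨Equiv.swap z.2 (z.1 ⟨k, hk⟩) ∘ z.1, z.1 ⟨k, hk⟩⟩) ?_ ?_ ?_ ?_ ?_
  · rintro ⟨x, q⟩ hz
    obtain ⟨h1, h2⟩ := mem_sigma.1 hz
    exact mem_sigma.2 (key x q h1 h2)
  · rintro ⟨x, q⟩ hz
    obtain ⟨h1, h2⟩ := mem_sigma.1 hz
    exact mem_sigma.2 (key x q h1 h2)
  · rintro ⟨x, q⟩ _
    simp only [Sigma.mk.injEq, heq_eq_eq]
    exact ⟨inv x q, by simp⟩
  · rintro ⟨x, q⟩ _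
    simp only [Sigma.mk.injEq, heq_eq_eq]
    exact ⟨inv x q, by simp⟩
  · rintro ⟨x, q⟩ hz
    obtain ⟨h1, h2⟩ := mem_sigma.1 hz
    obtain ⟨hxA, hxi⟩ := mem_tup.1 h1
    obtain ⟨hqA, hqn⟩ := mem_sdiff.1 h2
    simp only at hqn ⊢
    congr 1
    rw [pre_succ _ hk]
    simp only [Function.comp, Equiv.swap_apply_right]
    congr 1
    unfold pre
    apply image_congr
    intro i hi
    have hi' : (i : ℕ) < k := by simpa using hi
    simp only [Function.comp]
    symm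
    apply Equiv.swap_apply_of_ne_of_ne
    · intro h
      exact hqn (mem_pre.2 ⟨i, by omega, h⟩)
    · intro h
      have := hxi h
      rw [this] at hi'
      simp at hi'

/-- `swap_step` with the cardinality computed. -/
theorem swap_step' (A : Finset α) {n k j : ℕ} (hk : k < n) (hkj : k ≤ j) (hj : j ≤ n)
    (g : Finset α → ℝ) :
    ∑ x ∈ tup A n, ∑ q ∈ A \ pre x j, g (insert q (pre x k))
      = ((A.card : ℝ) - j) * ∑ x ∈ tup A n, g (pre x (k + 1)) := by
  rw [swap_step A hk hkj g, mul_sum]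
  refine sum_congr rfl fun x hx => ?_
  rw [sum_const, nsmul_eq_mul, card_sdiff_pre hx hj]

/-- UNLOCK, exact form: the telescoping over `k < r`. -/
theorem unlock_tup_eq (A : Finset α) (r : ℕ) (φ : Finset α → ℝ) :
    ∑ x ∈ tup A r, ∑ q ∈ A \ pre x r, ∑ k ∈ range r, (φ (pre x k) - φ (insert q (pre x k)))
      = ((A.card : ℝ) - r) * ∑ x ∈ tup A r, (φ ∅ - φ (pre x r)) := by
  have h1 : ∀ k ∈ range r, ∑ x ∈ tup A r, ∑ q ∈ A \ pre x r,
      (φ (pre x k) - φ (insert q (pre x k)))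
      = ((A.card : ℝ) - r) * ∑ x ∈ tup A r, (φ (pre x k) - φ (pre x (k + 1))) := by
    intro k hk
    have hk' := mem_range.1 hk
    simp only [sum_sub_distrib]
    rw [swap_step' A hk' hk'.le le_rfl φ, mul_sub]
    have : ∑ x ∈ tup A r, ∑ _q ∈ A \ pre x r, φ (pre x k)
        = ((A.card : ℝ) - r) * ∑ x ∈ tup A r, φ (pre x k) := by
      rw [mul_sum]
      refine sum_congr rfl fun x hx => ?_
      rw [sum_const, nsmul_eq_mul, card_sdiff_pre hx le_rfl]
    rw [this]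
  calc ∑ x ∈ tup A r, ∑ q ∈ A \ pre x r, ∑ k ∈ range r, (φ (pre x k) - φ (insert q (pre x k)))
      = ∑ k ∈ range r, ∑ x ∈ tup A r, ∑ q ∈ A \ pre x r,
      (φ (pre x k) - φ (insert q (pre x k))) := by
        rw [sum_comm (s := range r)]
        refine sum_congr rfl fun x _ => ?_
        rw [sum_comm]
    _ = ∑ k ∈ range r, ((A.card : ℝ) - r) * ∑ x ∈ tup A r, (φ (pre x k) - φ (pre x (k + 1))) :=
        sum_congr rfl h1
    _ = _ := by
        rw [← mul_sum, sum_comm]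
        congr 1
        refine sum_congr rfl fun x _ => ?_
        rw [sum_range_sub' (fun k => φ (pre x k)) r, pre_zero]

/-- UNLOCK: for weights `0 ≤ F x ≤ Fm` on the tuples, `J` antitone set functions with values in
`[lo, hi]` on subsets of `A`, and quantities `e x q k ≤ ∑ s, (φ s KK - φ s (KK + q))`, the weighted
average over the extra element `q` and the prefix length `k` is at most `Fm (J/r) (hi - lo)`
per tuple. -/
theorem unlock_tup_le {ι : Type*} (A : Finset α) (r : ℕ) (hr : 0 < r) (hA : r < A.card)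
    (I : Finset ι) (φ : ι → Finset α → ℝ) (lo hi Fm : ℝ)
    (hlo : ∀ s ∈ I, ∀ K ⊆ A, lo ≤ φ s K) (hhi : ∀ s ∈ I, φ s ∅ ≤ hi)
    (hmono : ∀ s ∈ I, ∀ K ⊆ A, ∀ q ∈ A, φ s (insert q K) ≤ φ s K)
    (F : (Fin r → α) → ℝ) (hF0 : ∀ x ∈ tup A r, 0 ≤ F x) (hF : ∀ x ∈ tup A r, F x ≤ Fm)
    (e : (Fin r → α) → α → ℕ → ℝ)
    (he : ∀ x ∈ tup A r, ∀ q ∈ A \ pre x r, ∀ k < r,
      e x q k ≤ ∑ s ∈ I, (φ s (pre x k) - φ s (insert q (pre x k)))) :
    ∑ x ∈ tup A r, F x * ((∑ q ∈ A \ pre x r, ∑ k ∈ range r, e x q k) / (((A.card : ℝ) - r) * r))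
      ≤ Fm * (tup A r).card * ((I.card : ℝ) / r * (hi - lo)) := by
  have hr' : (0 : ℝ) < r := by exact_mod_cast hr
  have hA' : (0 : ℝ) < (A.card : ℝ) - r := by
    have : (r : ℝ) < A.card := by exact_mod_cast hA
    linarith
  obtain ⟨x0, hx0⟩ := tup_nonempty (A := A) (n := r) hA.le
  have hFm : 0 ≤ Fm := (hF0 x0 hx0).trans (hF x0 hx0)
  have h1 : ∀ x ∈ tup A r,
      F x * ((∑ q ∈ A \ pre x r, ∑ k ∈ range r, e x q k) / (((A.card : ℝ) - r) * r))
      ≤ Fm / (((A.card : ℝ) - r) * r) * ∑ s ∈ I, ∑ q ∈ A \ pre x r, ∑ k ∈ range r,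
        (φ s (pre x k) - φ s (insert q (pre x k))) := by
    intro x hx
    have h2 : ∑ q ∈ A \ pre x r, ∑ k ∈ range r, e x q k ≤ ∑ s ∈ I, ∑ q ∈ A \ pre x r,
        ∑ k ∈ range r, (φ s (pre x k) - φ s (insert q (pre x k))) := by
      rw [sum_comm (s := I)]
      refine sum_le_sum fun q hq => ?_
      rw [sum_comm (s := I)]
      exact sum_le_sum fun k hk => he x hx q hq k (mem_range.1 hk)
    have h3 : 0 ≤ ∑ s ∈ I, ∑ q ∈ A \ pre x r,
        ∑ k ∈ range r, (φ s (pre x k) - φ s (insert q (pre x k))) := by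
      refine sum_nonneg fun s hs => sum_nonneg fun q hq => sum_nonneg fun k _ => ?_
      exact sub_nonneg.2 (hmono s hs _ (pre_subset hx k) q (mem_sdiff.1 hq).1)
    have hpos := mul_pos hA' hr'
    calc F x * ((∑ q ∈ A \ pre x r, ∑ k ∈ range r, e x q k) / (((A.card : ℝ) - r) * r))
        ≤ F x * ((∑ s ∈ I, ∑ q ∈ A \ pre x r,
        ∑ k ∈ range r, (φ s (pre x k) - φ s (insert q (pre x k)))) / (((A.card : ℝ) - r) * r)) :=
          mul_le_mul_of_nonneg_left (div_le_div_of_nonneg_right h2 hpos.le) (hF0 x hx)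
      _ ≤ Fm * ((∑ s ∈ I, ∑ q ∈ A \ pre x r,
        ∑ k ∈ range r, (φ s (pre x k) - φ s (insert q (pre x k)))) / (((A.card : ℝ) - r) * r)) :=
          mul_le_mul_of_nonneg_right (hF x hx) (div_nonneg h3 hpos.le)
      _ = _ := by ring
  refine (sum_le_sum h1).trans ?_
  rw [← mul_sum, sum_comm]
  have h4 : ∀ s ∈ I, ∑ x ∈ tup A r, ∑ q ∈ A \ pre x r, ∑ k ∈ range r,
        (φ s (pre x k) - φ s (insert q (pre x k)))
        ≤ ((A.card : ℝ) - r) * ((tup A r).card * (hi - lo)) := by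
    intro s hs
    rw [unlock_tup_eq]
    refine mul_le_mul_of_nonneg_left ?_ hA'.le
    rw [← nsmul_eq_mul]
    refine sum_le_card_nsmul _ _ _ fun x hx => ?_
    have := hlo s hs _ (pre_subset hx r)
    have := hhi s hs
    linarith
  calc _ ≤ Fm / (((A.card : ℝ) - r) * r) *
        ∑ _s ∈ I, ((A.card : ℝ) - r) * ((tup A r).card * (hi - lo)) :=
        mul_le_mul_of_nonneg_left (sum_le_sum h4) (div_nonneg hFm (mul_pos hA' hr').le)
    _ = _ := by
        rw [sum_const, nsmul_eq_mul]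
        field_simp

end Pool.Agent.P.MP_a14ce1_nt.Fu
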