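import Pool.Agent.P.MP_a14ce1_nt.Fu.SH

/-!
Section 3: the sets of sites.  A site `b` carries the finite set `A b` of known primes, an object
`c` is a finite set of primes, `Φ (t, w, s)` are the external sets of primes.
-/

open Finset

namespace Pool.Agent.P.MP_a14ce1_nt.Fu

/-- the external sets, indexed by (level, copy, step) -/
abbrev Ph : Type := ℕ × ℕ × ℕ → Finset ℕ

/-- the copy used at level `t`: the levels 1 and 2 have one copy -/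
def wi (t w : ℕ) : ℕ := if t ≤ 2 then 0 else w

/-- the coordinate used at level `t`, copy `w`, step `s` -/
def ix (t w s : ℕ) : ℕ × ℕ × ℕ := (t, wi t w, s)

/-- pinning property of the law of the coordinate `i` of the externals -/
def PinP {E : Type} [Fintype E] (Φ : E → Ph) (i : ℕ × ℕ × ℕ) (R : Finset ℕ) (φ : ℝ) : Prop :=
  ∀ h hm : Ph → ℝ,
    (∀ Ψ X X', X ⊆ X' → h (Function.update Ψ i X') ≤ h (Function.update Ψ i X)) →
    (∀ Ψ, 0 ≤ h Ψ) → (∀ Ψ, h Ψ ≤ hm Ψ) → (∀ Ψ X, hm (Function.update Ψ i X) = hm Ψ) →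
    ex (fun e => ∑ q ∈ R, (h (Φ e) - h (Function.update (Φ e) i (insert q (Φ e i)))))
      ≤ ex (fun e => hm (Φ e)) / φ

/-- hitting property of the law of the coordinate `i` of the externals -/
def HitP {E : Type} [Fintype E] (Φ : E → Ph) (i : ℕ × ℕ × ℕ) (R : Finset ℕ) (φ : ℝ) : Prop :=
  ∀ (g : Ph → ℝ) (T : Finset ℕ), (∀ Ψ, 0 ≤ g Ψ) → (∀ Ψ X, g (Function.update Ψ i X) = g Ψ) →
    ex (fun e => g (Φ e) * ind (¬Disjoint (Φ e i) T)) ≤ (T ∩ R).card * φ * ex fun e => g (Φ e)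

/-- the geometry of one fibre -/
structure Geo (B : Type) where
  A : B → Finset ℕ
  top : ℕ → ℕ
  R : ℕ → Finset ℕ
  r : ℕ → ℕ
  J : ℕ → ℕ
  m : ℕ
  W : ℕ
  Z0 : Finset B
  C0 : Finset B

namespace Geo

variable {B : Type} (g : Geo B)

structure Ok : Prop where
  top_mono : Monotone g.top
  R_gt : ∀ t, ∀ q ∈ g.R (t + 1), g.top t < q
  W_pos : 0 < g.W

/-- the part of `c` above level `t` -/
def up (t : ℕ) (c : Finset ℕ) : Finset ℕ := c.filter fun q => g.top t < q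

theorem up_subset (t : ℕ) (c : Finset ℕ) : g.up t c ⊆ c := filter_subset _ _

theorem up_anti (h : g.Ok) {s t : ℕ} (hst : s ≤ t) (c : Finset ℕ) : g.up t c ⊆ g.up s c := by
  intro q hq
  obtain ⟨a, b⟩ := mem_filter.1 hq
  exact mem_filter.2 ⟨a, lt_of_le_of_lt (h.top_mono hst) b⟩

theorem up_up (h : g.Ok) {s t : ℕ} (hst : s ≤ t) (c : Finset ℕ) :
    g.up t (g.up s c) = g.up t c := by
  ext q
  simp only [up, mem_filter]
  exact ⟨fun a => ⟨a.1.1, a.2⟩, fun a => ⟨⟨a.1, lt_of_le_of_lt (h.top_mono hst) a.2⟩, a.2⟩⟩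

theorem up_inter (h : g.Ok) (t : ℕ) (c : Finset ℕ) :
    g.up t c ∩ g.R (t + 1) = c ∩ g.R (t + 1) := by
  ext q
  simp only [up, mem_inter, mem_filter]
  exact ⟨fun a => ⟨a.1.1, a.2⟩, fun a => ⟨⟨a.1, h.R_gt t q a.2⟩, a.2⟩⟩

variable [Fintype B]

/-- the sites that carry `c` -/
def cell (c : Finset ℕ) : Finset B := univ.filter fun b => c ⊆ g.A b

theorem mem_cell {c : Finset ℕ} {b : B} : b ∈ g.cell c ↔ c ⊆ g.A b := by simp [cell]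

theorem cell_anti {c c' : Finset ℕ} (h : c ⊆ c') : g.cell c' ⊆ g.cell c :=
  fun _ hb => g.mem_cell.2 (h.trans (g.mem_cell.1 hb))

/-- the sites met by the external sets of level `t`, copy `w`, steps in `[s0, s1)` -/
def hit (Φ : Ph) (t w s0 s1 : ℕ) : Finset B :=
  univ.filter fun b => ∀ s ∈ Ico s0 s1, ¬Disjoint (Φ (ix t w s)) (g.A b)

theorem mem_hit {Φ : Ph} {t w s0 s1 : ℕ} {b : B} : b ∈ g.hit Φ t w s0 s1 ↔
    ∀ s, s0 ≤ s → s < s1 → ¬Disjoint (Φ (ix t w s)) (g.A b) := by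
  simp only [hit, mem_filter, mem_univ, true_and, mem_Ico, and_imp]

theorem hit_mono {Φ Ψ : Ph} (h : ∀ i, Φ i ⊆ Ψ i) (t w s0 s1 : ℕ) :
    g.hit Φ t w s0 s1 ⊆ g.hit Ψ t w s0 s1 := fun _ hb =>
  g.mem_hit.2 fun s a b d => g.mem_hit.1 hb s a b (d.mono_left (h _))

theorem hit_succ (Φ : Ph) (t w s0 s1 : ℕ) : g.hit Φ t w s0 s1 ⊆ g.hit Φ t w (s0 + 1) s1 :=
  fun _ hb => g.mem_hit.2 fun s a b => g.mem_hit.1 hb s (by omega) b

theorem hit_congr {Φ Ψ : Ph} {t w s0 s1 : ℕ}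
    (h : ∀ s, s0 ≤ s → s < s1 → Φ (ix t w s) = Ψ (ix t w s)) :
    g.hit Φ t w s0 s1 = g.hit Ψ t w s0 s1 := by
  ext b
  simp only [mem_hit]
  exact forall₃_congr fun s a b => by rw [h s a b]

variable [DecidableEq B]

/-- the sets `Z_t^w` -/
def Zs (Φ : Ph) : ℕ → ℕ → Finset B
  | 0, _ => g.Z0
  | t + 1, w => (Zs Φ t w ∩ g.hit Φ (t + 1) w 0 (g.J (t + 1))) ∪
      (if 2 ≤ t ∧ 0 < w then Zs Φ t (w - 1) else ∅)

theorem Zs_zero (Φ : Ph) (w : ℕ) : g.Zs Φ 0 w = g.Z0 := rfl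

theorem mem_Zs_succ {Φ : Ph} {t w : ℕ} {b : B} : b ∈ g.Zs Φ (t + 1) w ↔
    (b ∈ g.Zs Φ t w ∧ b ∈ g.hit Φ (t + 1) w 0 (g.J (t + 1))) ∨
      ((2 ≤ t ∧ 0 < w) ∧ b ∈ g.Zs Φ t (w - 1)) := by
  rw [Zs, mem_union, mem_inter]
  by_cases h : 2 ≤ t ∧ 0 < w <;> simp [h]

theorem Zs_hit (Φ : Ph) (t w : ℕ) :
    g.Zs Φ t w ∩ g.hit Φ (t + 1) w 0 (g.J (t + 1)) ⊆ g.Zs Φ (t + 1) w :=
  fun _ hb => g.mem_Zs_succ.2 (Or.inl (mem_inter.1 hb))

theorem Zs_short (Φ : Ph) {t : ℕ} (ht : 2 ≤ t) (w : ℕ) :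
    g.Zs Φ t w ⊆ g.Zs Φ (t + 1) (w + 1) :=
  fun _ hb => g.mem_Zs_succ.2 (Or.inr ⟨⟨ht, Nat.succ_pos w⟩, hb⟩)

theorem Zs_w (Φ : Ph) (t : ℕ) : ∀ w, g.Zs Φ t w ⊆ g.Zs Φ t (w + 1) := by
  induction t with
  | zero => exact fun _ => Subset.refl _
  | succ t ih =>
    intro w b hb
    by_cases ht : 2 ≤ t
    · refine g.Zs_short Φ ht w ?_
      rcases g.mem_Zs_succ.1 hb with h | h
      · exact h.1
      · have := ih (w - 1) h.2
        rwa [Nat.sub_add_cancel h.1.2] at this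
    · rcases g.mem_Zs_succ.1 hb with h | h
      · refine g.mem_Zs_succ.2 (Or.inl ⟨ih w h.1, ?_⟩)
        have e : ∀ v s, ix (t + 1) v s = ix (t + 1) 0 s := fun v s => by
          simp only [ix, wi, if_pos (show t + 1 ≤ 2 by omega)]
        have := g.mem_hit.1 h.2
        exact g.mem_hit.2 fun s a b => by rw [e]; rw [← e w]; exact this s a b
      · exact absurd h.1.1 ht

theorem Zs_mono_w (Φ : Ph) (t : ℕ) {w w' : ℕ} (h : w ≤ w') : g.Zs Φ t w ⊆ g.Zs Φ t w' :=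
  monotone_nat_of_le_succ (f := g.Zs Φ t) (g.Zs_w Φ t) h

theorem Zs_t (Φ : Ph) (t w : ℕ) : g.Zs Φ (t + 1) w ⊆ g.Zs Φ t w := fun _ hb =>
  (g.mem_Zs_succ.1 hb).elim (fun h => h.1) fun h => g.Zs_mono_w Φ t (Nat.sub_le w 1) h.2

theorem Zs_anti_t (Φ : Ph) {t t' : ℕ} (h : t ≤ t') (w : ℕ) : g.Zs Φ t' w ⊆ g.Zs Φ t w :=
  antitone_nat_of_succ_le (f := fun t => g.Zs Φ t w) (fun t => g.Zs_t Φ t w) h

theorem Zs_subset (Φ : Ph) (t w : ℕ) : g.Zs Φ t w ⊆ g.Z0 := g.Zs_anti_t Φ (Nat.zero_le t) w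

theorem Zs_mono {Φ Ψ : Ph} (h : ∀ i, Φ i ⊆ Ψ i) (t : ℕ) : ∀ w, g.Zs Φ t w ⊆ g.Zs Ψ t w := by
  induction t with
  | zero => exact fun _ => Subset.refl _
  | succ t ih =>
    intro w b hb
    refine g.mem_Zs_succ.2 ((g.mem_Zs_succ.1 hb).imp (fun a => ⟨ih w a.1, g.hit_mono h _ _ _ _ a.2⟩)
      fun a => ⟨a.1, ih _ a.2⟩)

/-- `Z_t^w` sees only the levels `≤ t` -/
theorem Zs_congr {Φ Ψ : Ph} (t : ℕ) (h : ∀ i, i.1 ≤ t → Φ i = Ψ i) :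
    ∀ w, g.Zs Φ t w = g.Zs Ψ t w := by
  induction t with
  | zero => exact fun _ => rfl
  | succ t ih =>
    intro w
    have ih' := ih fun i hi => h i (by omega)
    rw [Zs, Zs, ih', ih', g.hit_congr fun s _ _ => h (ix (t + 1) w s) le_rfl]

theorem Zs_update (Φ : Ph) {t : ℕ} {i : ℕ × ℕ × ℕ} (hi : t < i.1) (X : Finset ℕ) (w : ℕ) :
    g.Zs (Function.update Φ i X) t w = g.Zs Φ t w :=
  g.Zs_congr t (fun j hj => by
    have : j ≠ i := by rintro rfl; omega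
    rw [Function.update_of_ne this]) w

/-- subsampling of the starting set commutes with the construction -/
theorem Zs_inter (Θ : Finset B) (Φ : Ph) (t : ℕ) :
    ∀ w, Zs { g with Z0 := g.Z0 ∩ Θ } Φ t w = g.Zs Φ t w ∩ Θ := by
  induction t with
  | zero => exact fun _ => rfl
  | succ t ih =>
    intro w
    ext b
    rw [mem_inter, mem_Zs_succ, mem_Zs_succ, ih, ih, mem_inter, mem_inter]
    change _ ∧ b ∈ g.hit Φ (t + 1) w 0 (g.J (t + 1)) ∨ _ ↔ _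
    tauto

/-- every site of a level `≥ 1` is met by the first external set -/
theorem Zs_first (Φ : Ph) {t : ℕ} (ht : 1 ≤ t) (hJ : 0 < g.J 1) (w : ℕ) {b : B}
    (hb : b ∈ g.Zs Φ t w) : ¬Disjoint (Φ (1, 0, 0)) (g.A b) := by
  rcases g.mem_Zs_succ.1 (g.Zs_anti_t Φ ht w hb) with h | h
  · exact g.mem_hit.1 h.2 0 le_rfl hJ
  · exact absurd h.1.1 (by omega)

/-- the code -/
def code (Φ : Ph) : Finset B := g.C0 ∪ g.Zs Φ g.m (g.W - 1)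

/-- `S_t` -/
def St (Φ : Ph) (w t : ℕ) (c : Finset ℕ) : Finset B :=
  g.code Φ ∪ (Icc t g.m).biUnion fun s => g.Zs Φ s w ∩ g.cell (g.up s c)

/-- `S_(t+1)` with the whole cell of `c_(t+1)` in `Z_t^w` -/
def Sp (Φ : Ph) (w t : ℕ) (c : Finset ℕ) : Finset B :=
  g.St Φ w (t + 1) c ∪ g.Zs Φ t w ∩ g.cell (g.up (t + 1) c)

/-- the set that contains all the `Sp` of stage `t + 1` -/
def Ut (Φ : Ph) (t : ℕ) (c : Finset ℕ) : Finset B :=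
  g.code Φ ∪ (Ico t g.m).biUnion fun s => g.Zs Φ s (g.W - 1) ∩ g.cell (g.up (s + 1) c)

/-- the pinned sites of stage `t + 1` -/
def pl (Φ : Ph) (w t : ℕ) (c : Finset ℕ) : Finset B := g.Zs Φ t w ∩ g.cell (g.up t c)

/-- `WW_s(K)` of stage `t + 1` -/
def WW (Φ : Ph) (w t : ℕ) (c K : Finset ℕ) (s : ℕ) : Finset B :=
  g.Zs Φ t w ∩ g.cell (g.up (t + 1) c ∪ K) ∩ g.hit Φ (t + 1) w s (g.J (t + 1))

theorem mem_St {Φ : Ph} {w t : ℕ} {c : Finset ℕ} {b : B} : b ∈ g.St Φ w t c ↔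
    b ∈ g.code Φ ∨ ∃ s, (t ≤ s ∧ s ≤ g.m) ∧ b ∈ g.Zs Φ s w ∧ b ∈ g.cell (g.up s c) := by
  simp only [St, mem_union, mem_biUnion, mem_Icc, mem_inter]

theorem mem_Ut {Φ : Ph} {t : ℕ} {c : Finset ℕ} {b : B} : b ∈ g.Ut Φ t c ↔
    b ∈ g.code Φ ∨ ∃ s, (t ≤ s ∧ s < g.m) ∧ b ∈ g.Zs Φ s (g.W - 1) ∧
      b ∈ g.cell (g.up (s + 1) c) := by
  simp only [Ut, mem_union, mem_biUnion, mem_Ico, mem_inter]

theorem code_mono {Φ Ψ : Ph} (h : ∀ i, Φ i ⊆ Ψ i) : g.code Φ ⊆ g.code Ψ :=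
  union_subset_union_right (g.Zs_mono h _ _)

theorem St_mono {Φ Ψ : Ph} (h : ∀ i, Φ i ⊆ Ψ i) (w t : ℕ) (c : Finset ℕ) :
    g.St Φ w t c ⊆ g.St Ψ w t c := fun _ hb =>
  g.mem_St.2 ((g.mem_St.1 hb).imp (fun a => g.code_mono h a)
    fun ⟨s, a, b, d⟩ => ⟨s, a, g.Zs_mono h _ _ b, d⟩)

theorem WW_mono {Φ Ψ : Ph} (h : ∀ i, Φ i ⊆ Ψ i) (w t : ℕ) (c K : Finset ℕ) (s : ℕ) :
    g.WW Φ w t c K s ⊆ g.WW Ψ w t c K s :=
  inter_subset_inter (inter_subset_inter (g.Zs_mono h _ _) (Subset.refl _)) (g.hit_mono h _ _ _ _)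

theorem St_top (Φ : Ph) {w : ℕ} (hw : w < g.W) (c : Finset ℕ) : g.St Φ w g.m c = g.code Φ := by
  refine union_eq_left.2 fun b hb => ?_
  obtain ⟨s, hs, h⟩ := mem_biUnion.1 hb
  obtain rfl : s = g.m := by have := mem_Icc.1 hs; omega
  exact mem_union_right _ (g.Zs_mono_w Φ _ (by omega) (mem_inter.1 h).1)

theorem St_zero (Φ : Ph) (w : ℕ) (c : Finset ℕ) :
    g.code Φ ∪ g.Z0 ∩ g.cell (g.up 0 c) ⊆ g.St Φ w 0 c := fun _ hb =>
  g.mem_St.2 ((mem_union.1 hb).imp id fun a => ⟨0, ⟨le_rfl, Nat.zero_le _⟩, mem_inter.1 a⟩)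

theorem St_succ (Φ : Ph) (w : ℕ) {t : ℕ} (ht : t ≤ g.m) (c : Finset ℕ) :
    g.St Φ w t c = g.St Φ w (t + 1) c ∪ g.pl Φ w t c := by
  ext b
  rw [mem_union, mem_St, mem_St, pl, mem_inter]
  constructor
  · rintro (h | ⟨s, a, h⟩)
    · exact Or.inl (Or.inl h)
    · rcases a.1.eq_or_lt with rfl | hs
      · exact Or.inr h
      · exact Or.inl (Or.inr ⟨s, ⟨hs, a.2⟩, h⟩)
  · rintro ((h | ⟨s, a, h⟩) | h)
    · exact Or.inl h
    · exact Or.inr ⟨s, ⟨by omega, a.2⟩, h⟩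
    · exact Or.inr ⟨t, ⟨le_rfl, ht⟩, h⟩

theorem St_up (h : g.Ok) (Φ : Ph) (w : ℕ) {t s : ℕ} (hs : s ≤ t) (c : Finset ℕ) :
    g.St Φ w t (g.up s c) = g.St Φ w t c := by
  unfold St
  congr 1
  exact biUnion_congr rfl fun v hv => by rw [g.up_up h (hs.trans (mem_Icc.1 hv).1)]

theorem Sp_up (h : g.Ok) (Φ : Ph) (w : ℕ) {t s : ℕ} (hs : s ≤ t + 1) (c : Finset ℕ) :
    g.Sp Φ w t (g.up s c) = g.Sp Φ w t c := by
  rw [Sp, Sp, g.St_up h Φ w hs, g.up_up h hs]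

theorem Ut_up (h : g.Ok) (Φ : Ph) {t s : ℕ} (hs : s ≤ t + 1) (c : Finset ℕ) :
    g.Ut Φ t (g.up s c) = g.Ut Φ t c := by
  unfold Ut
  congr 1
  exact biUnion_congr rfl fun v hv => by
    rw [g.up_up h (hs.trans (Nat.succ_le_succ (mem_Ico.1 hv).1))]

theorem pl_up (h : g.Ok) (Φ : Ph) (w : ℕ) {t s : ℕ} (hs : s ≤ t) (c : Finset ℕ) :
    g.pl Φ w t (g.up s c) = g.pl Φ w t c := by
  rw [pl, pl, g.up_up h hs]

theorem WW_up (h : g.Ok) (Φ : Ph) (w : ℕ) {t s : ℕ} (hs : s ≤ t + 1) (c K : Finset ℕ) (v : ℕ) :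
    g.WW Φ w t (g.up s c) K v = g.WW Φ w t c K v := by
  rw [WW, WW, g.up_up h hs]

theorem Ut_top (Φ : Ph) (c : Finset ℕ) : g.Ut Φ g.m c = g.code Φ := by simp [Ut]

theorem Ut_succ (Φ : Ph) {t : ℕ} (ht : t < g.m) (c : Finset ℕ) :
    g.Ut Φ t c = g.Ut Φ (t + 1) c ∪ g.Zs Φ t (g.W - 1) ∩ g.cell (g.up (t + 1) c) := by
  ext b
  rw [mem_union, mem_Ut, mem_Ut, mem_inter]
  constructor
  · rintro (h | ⟨s, a, h⟩)
    · exact Or.inl (Or.inl h)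
    · rcases a.1.eq_or_lt with rfl | hs
      · exact Or.inr h
      · exact Or.inl (Or.inr ⟨s, ⟨hs, a.2⟩, h⟩)
  · rintro ((h | ⟨s, a, h⟩) | h)
    · exact Or.inl h
    · exact Or.inr ⟨s, ⟨by omega, a.2⟩, h⟩
    · exact Or.inr ⟨t, ⟨le_rfl, ht⟩, h⟩

theorem St_Sp (h : g.Ok) (Φ : Ph) (w : ℕ) {t : ℕ} (ht : t ≤ g.m) (c : Finset ℕ) :
    g.St Φ w t c ⊆ g.Sp Φ w t c := by
  rw [g.St_succ Φ w ht]
  exact union_subset_union_right (inter_subset_inter (Subset.refl _)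
    (g.cell_anti (g.up_anti h (Nat.le_succ t) c)))

/-- nesting in the copy -/
theorem Sp_St (Φ : Ph) (w : ℕ) {t : ℕ} (h2 : 2 ≤ t) (ht : t < g.m) (c : Finset ℕ) :
    g.Sp Φ w t c ⊆ g.St Φ (w + 1) (t + 1) c := by
  intro b hb
  rcases mem_union.1 hb with a | a
  · exact g.mem_St.2 ((g.mem_St.1 a).imp id fun ⟨s, a, b, d⟩ => ⟨s, a, g.Zs_w Φ s w b, d⟩)
  · exact g.mem_St.2 (Or.inr ⟨t + 1, ⟨le_rfl, ht⟩, g.Zs_short Φ h2 w (mem_inter.1 a).1,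
      (mem_inter.1 a).2⟩)

theorem Sp_Ut (Φ : Ph) {w t : ℕ} (hw : w < g.W) (ht : t < g.m) (c : Finset ℕ) :
    g.Sp Φ w t c ⊆ g.Ut Φ t c := by
  intro b hb
  have hw' : w ≤ g.W - 1 := by omega
  rcases mem_union.1 hb with a | a
  · refine g.mem_Ut.2 ((g.mem_St.1 a).imp id fun ⟨s, a, b, d⟩ => ?_)
    obtain ⟨s, rfl⟩ : ∃ v, s = v + 1 := ⟨s - 1, by omega⟩
    exact ⟨s, ⟨by omega, by omega⟩, g.Zs_mono_w Φ s hw' (g.Zs_t Φ s w b), d⟩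
  · exact g.mem_Ut.2 (Or.inr ⟨t, ⟨le_rfl, ht⟩, g.Zs_mono_w Φ t hw' (mem_inter.1 a).1,
      (mem_inter.1 a).2⟩)

theorem WW_anti (Φ : Ph) (w t : ℕ) (c : Finset ℕ) {K K' : Finset ℕ} (h : K ⊆ K') (s : ℕ) :
    g.WW Φ w t c K' s ⊆ g.WW Φ w t c K s :=
  inter_subset_inter (inter_subset_inter (Subset.refl _)
    (g.cell_anti (union_subset_union_right h))) (Subset.refl _)

theorem WW_succ (Φ : Ph) (w t : ℕ) (c K : Finset ℕ) (s : ℕ) :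
    g.WW Φ w t c K s ⊆ g.WW Φ w t c K (s + 1) :=
  inter_subset_inter (Subset.refl _) (g.hit_succ _ _ _ _ _)

theorem WW_zero (Φ : Ph) (w : ℕ) {t : ℕ} (ht : t < g.m) (c K : Finset ℕ) :
    g.WW Φ w t c K 0 ⊆ g.St Φ w (t + 1) c := by
  intro b hb
  obtain ⟨a, d⟩ := mem_inter.1 hb
  obtain ⟨a, e⟩ := mem_inter.1 a
  exact g.mem_St.2 (Or.inr ⟨t + 1, ⟨le_rfl, ht⟩, g.Zs_hit Φ t w (mem_inter.2 ⟨a, d⟩),
    g.cell_anti subset_union_left e⟩)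

theorem WW_last (h : g.Ok) (Φ : Ph) (w t : ℕ) {c K : Finset ℕ} (hK : K ⊆ c ∩ g.R (t + 1)) :
    g.pl Φ w t c ⊆ g.WW Φ w t c K (g.J (t + 1)) := by
  intro b hb
  obtain ⟨a, d⟩ := mem_inter.1 hb
  refine mem_inter.2 ⟨mem_inter.2 ⟨a, g.cell_anti (union_subset (g.up_anti h (Nat.le_succ t) c)
    ?_) d⟩, g.mem_hit.2 fun s a b => by omega⟩
  rw [← g.up_inter h] at hK
  exact hK.trans inter_subset_left

theorem WW_Sp (Φ : Ph) (w t : ℕ) (c K : Finset ℕ) (s : ℕ) :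
    g.St Φ w (t + 1) c ∪ g.WW Φ w t c K s ⊆ g.Sp Φ w t c :=
  union_subset_union_right (inter_subset_left.trans
    (inter_subset_inter (Subset.refl _) (g.cell_anti subset_union_left)))

/-- the pinning inclusion -/
theorem WW_pin (Φ : Ph) (w t : ℕ) (c K : Finset ℕ) (s q : ℕ) :
    g.WW Φ w t c (insert q K) (s + 1) ⊆
      g.WW (Function.update Φ (ix (t + 1) w s) (insert q (Φ (ix (t + 1) w s)))) w t c K s := by
  intro b hb
  obtain ⟨a, d⟩ := mem_inter.1 hb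
  obtain ⟨a, e⟩ := mem_inter.1 a
  refine mem_inter.2 ⟨mem_inter.2 ⟨?_, g.cell_anti (union_subset_union_right
    (subset_insert q K)) e⟩, g.mem_hit.2 fun v h1 h2 => ?_⟩
  · rwa [g.Zs_update Φ (by simp [ix])]
  · rcases h1.eq_or_lt with rfl | h1
    · rw [Function.update_self, not_disjoint_iff]
      exact ⟨q, mem_insert_self _ _,
        g.mem_cell.1 e (mem_union_right _ (mem_insert_self _ _))⟩
    · rw [Function.update_of_ne (by simp [ix]; omega)]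
      exact g.mem_hit.1 d v h1 h2

theorem pl_update (Φ : Ph) (w t : ℕ) (c : Finset ℕ) (s : ℕ) (X : Finset ℕ) :
    g.pl (Function.update Φ (ix (t + 1) w s) X) w t c = g.pl Φ w t c := by
  rw [pl, pl, g.Zs_update Φ (by simp [ix])]

end Geo

theorem update_mono (Φ : Ph) (i : ℕ × ℕ × ℕ) {X X' : Finset ℕ} (h : X ⊆ X') (j : ℕ × ℕ × ℕ) :
    Function.update Φ i X j ⊆ Function.update Φ i X' j := by
  by_cases hj : j = i
  · subst hj; simpa using h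
  · simp [Function.update_of_ne hj]

theorem subset_update (Φ : Ph) (i : ℕ × ℕ × ℕ) (q : ℕ) (j : ℕ × ℕ × ℕ) :
    Φ j ⊆ Function.update Φ i (insert q (Φ i)) j := by
  have := update_mono Φ i (subset_insert q (Φ i)) j
  rwa [Function.update_eq_self] at this

end Pool.Agent.P.MP_a14ce1_nt.Fu
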